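import Pool.Agent.Lib.MP_566bac_pr.Hd.Defs

/-!
# The operator `μ - Δ` on finite graphs
-/

open Finset
open scoped Classical

set_option linter.unusedSectionVars false

namespace Pool.Agent.Lib.MP_566bac_pr.Hd

section OP1
variable {X I : Type*} [Fintype X] [DecidableEq X] [Fintype I] [DecidableEq I]
variable (src tgt : I → X) {μ : ℝ} (o : I → Bool)

theorem op_form (f g : X → ℝ) : ∑ x, Op src tgt μ o f x * g x =
    μ * ∑ x, f x * g x + ∑ e, if o e then gr src tgt f e * gr src tgt g e else 0 := by
  have h1 : ∀ x, Op src tgt μ o f x * g x = μ * (f x * g x) + ∑ e, (if o e then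
      ((if tgt e = x then gr src tgt f e * g x else 0) -
        (if src e = x then gr src tgt f e * g x else 0)) else 0) := by
    intro x
    unfold Op
    rw [add_mul, Finset.sum_mul]
    congr 1
    · ring
    · refine Finset.sum_congr rfl fun e _ => ?_
      split_ifs <;> ring
  rw [Finset.sum_congr rfl fun x _ => h1 x, Finset.sum_add_distrib, ← Finset.mul_sum,
    Finset.sum_comm]
  congr 1
  refine Finset.sum_congr rfl fun e _ => ?_
  by_cases ho : o e = true
  · simp only [ho, if_true]
    rw [Finset.sum_sub_distrib, Finset.sum_ite_eq, Finset.sum_ite_eq]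
    simp only [Finset.mem_univ, if_true]
    have h2 : gr src tgt g e = g (tgt e) - g (src e) := rfl
    rw [h2]
    ring
  · simp [ho]

theorem dv_form (Y : I → ℝ) (h : X → ℝ) : ∑ x, Dv src tgt o Y x * h x =
    -∑ e, if o e then Y e * gr src tgt h e else 0 := by
  have h1 : ∀ x, Dv src tgt o Y x * h x = ∑ e, (if o e then
      ((if src e = x then Y e * h x else 0) -
        (if tgt e = x then Y e * h x else 0)) else 0) := by
    intro x
    unfold Dv
    rw [Finset.sum_mul]
    refine Finset.sum_congr rfl fun e _ => ?_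
    split_ifs <;> ring
  rw [Finset.sum_congr rfl fun x _ => h1 x, Finset.sum_comm, ← Finset.sum_neg_distrib]
  refine Finset.sum_congr rfl fun e _ => ?_
  by_cases ho : o e = true
  · simp only [ho, if_true]
    rw [Finset.sum_sub_distrib, Finset.sum_ite_eq, Finset.sum_ite_eq]
    simp only [Finset.mem_univ, if_true]
    have h2 : gr src tgt h e = h (tgt e) - h (src e) := rfl
    rw [h2]
    ring
  · simp [ho]

/-- linearity -/
theorem OP1_op_lin (s t : ℝ) (f g : X → ℝ) (x : X) :
    Op src tgt μ o (fun x => s * f x + t * g x) x =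
      s * Op src tgt μ o f x + t * Op src tgt μ o g x := by
  unfold Op
  rw [mul_add s, mul_add t, Finset.mul_sum, Finset.mul_sum]
  have h1 : ∀ a b c e : ℝ, (a + b) + (c + e) = (a + c) + (b + e) := fun a b c e => by ring
  rw [h1, ← Finset.sum_add_distrib]
  congr 1
  · ring
  · refine Finset.sum_congr rfl fun e _ => ?_
    unfold gr
    split_ifs <;> ring

/-- the operator as a linear map -/
noncomputable def OP1_lin (μ : ℝ) : (X → ℝ) →ₗ[ℝ] (X → ℝ) where
  toFun := Op src tgt μ o
  map_add' := fun f g => by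
    funext x
    have h := OP1_op_lin src tgt (μ := μ) o 1 1 f g x
    simp only [one_mul] at h
    exact h
  map_smul' := fun c f => by
    funext x
    have h := OP1_op_lin src tgt (μ := μ) o c 0 f f x
    simp only [zero_mul, add_zero] at h
    exact h

/-- the energy is nonnegative -/
theorem OP1_energy_nonneg (f : X → ℝ) :
    0 ≤ ∑ e, if o e then gr src tgt f e * gr src tgt f e else 0 := by
  refine Finset.sum_nonneg fun e _ => ?_
  split_ifs
  · exact mul_self_nonneg _
  · exact le_rfl

theorem OP1_inj (hμ : 0 < μ) : Function.Injective (OP1_lin src tgt o μ) := by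
  rw [← LinearMap.ker_eq_bot, LinearMap.ker_eq_bot']
  intro f hf
  have h1 := op_form src tgt (μ := μ) o f f
  have h2 : ∀ x, Op src tgt μ o f x = 0 := fun x => congrFun hf x
  simp only [h2, zero_mul, Finset.sum_const_zero] at h1
  have h3 := OP1_energy_nonneg src tgt o f
  have h4 : 0 ≤ ∑ x, f x * f x := Finset.sum_nonneg fun x _ => mul_self_nonneg _
  have h5 : ∑ x, f x * f x = 0 := by
    by_contra h
    have : 0 < ∑ x, f x * f x := lt_of_le_of_ne h4 (Ne.symm h)
    have := mul_pos hμ this
    linarith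
  rw [Finset.sum_eq_zero_iff_of_nonneg fun x _ => mul_self_nonneg _] at h5
  funext x
  exact mul_self_eq_zero.mp (h5 x (Finset.mem_univ x))

theorem OP1_ex (hμ : 0 < μ) (b : X → ℝ) : ∃ f, Op src tgt μ o f = b := by
  have h1 := (LinearMap.injective_iff_surjective (f := OP1_lin src tgt o μ)).mp
    (OP1_inj src tgt o hμ)
  exact h1 b

theorem sol_spec (hμ : 0 < μ) (b : X → ℝ) : Op src tgt μ o (sol src tgt μ o b) = b := by
  have h := OP1_ex src tgt o hμ b
  unfold sol
  rw [dif_pos h]
  exact h.choose_spec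

theorem sol_unique (hμ : 0 < μ) {b f : X → ℝ} (h : Op src tgt μ o f = b) :
    f = sol src tgt μ o b := by
  apply OP1_inj src tgt o hμ
  change Op src tgt μ o f = Op src tgt μ o (sol src tgt μ o b)
  rw [h, sol_spec src tgt o hμ]

theorem sol_symm (hμ : 0 < μ) (b b' : X → ℝ) : ∑ x, sol src tgt μ o b x * b' x =
    ∑ x, b x * sol src tgt μ o b' x := by
  have h1 := op_form src tgt (μ := μ) o (sol src tgt μ o b) (sol src tgt μ o b')
  have h2 := op_form src tgt (μ := μ) o (sol src tgt μ o b') (sol src tgt μ o b)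
  rw [sol_spec src tgt o hμ] at h1 h2
  have h3 : ∑ x, sol src tgt μ o b x * b' x = ∑ x, b' x * sol src tgt μ o b x :=
    Finset.sum_congr rfl fun x _ => mul_comm _ _
  rw [h3, h2, h1]
  congr 1
  · congr 1
    exact Finset.sum_congr rfl fun x _ => mul_comm _ _
  · refine Finset.sum_congr rfl fun e _ => ?_
    split_ifs
    · exact mul_comm _ _
    · rfl

theorem sol_add (hμ : 0 < μ) (b b' : X → ℝ) (s t : ℝ) :
    sol src tgt μ o (fun x => s * b x + t * b' x) =
      fun x => s * sol src tgt μ o b x + t * sol src tgt μ o b' x := by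
  symm
  apply sol_unique src tgt o hμ
  funext x
  rw [OP1_op_lin, sol_spec src tgt o hμ, sol_spec src tgt o hμ]

theorem sol_nonneg (hμ : 0 < μ) {b : X → ℝ} (hb : ∀ x, 0 ≤ b x) (x : X) :
    0 ≤ sol src tgt μ o b x := by
  set f := sol src tgt μ o b with hf
  have hne : (Finset.univ : Finset X).Nonempty := ⟨x, Finset.mem_univ x⟩
  obtain ⟨x0, -, hx0⟩ := Finset.exists_min_image Finset.univ f hne
  by_contra hneg
  push Not at hneg
  have h1 : f x0 < 0 := lt_of_le_of_lt (hx0 x (Finset.mem_univ x)) hneg
  have h2 : Op src tgt μ o f x0 = b x0 := by rw [hf, sol_spec src tgt o hμ]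
  have h3 : Op src tgt μ o f x0 ≤ μ * f x0 := by
    unfold Op
    have : ∑ e, (if o e = true then ((if tgt e = x0 then gr src tgt f e else 0) -
        (if src e = x0 then gr src tgt f e else 0)) else 0) ≤ 0 := by
      refine Finset.sum_nonpos fun e _ => ?_
      split_ifs with ho ht hs hs
      · rw [sub_self]
      · have := hx0 (src e) (Finset.mem_univ _)
        unfold gr
        rw [ht]
        linarith
      · have := hx0 (tgt e) (Finset.mem_univ _)
        unfold gr
        rw [hs]
        linarith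
      · rw [sub_self]
      · exact le_rfl
    linarith
  have h4 := mul_neg_of_pos_of_neg hμ h1
  have h5 := hb x0
  linarith

theorem sol_sum (hμ : 0 < μ) (b : X → ℝ) : μ * ∑ x, sol src tgt μ o b x = ∑ x, b x := by
  have h1 := op_form src tgt (μ := μ) o (sol src tgt μ o b) (fun _ => 1)
  rw [sol_spec src tgt o hμ] at h1
  have h2 : ∀ e, gr src tgt (fun _ : X => (1 : ℝ)) e = 0 := fun e => sub_self _
  simp only [mul_one, h2, mul_zero, ite_self, Finset.sum_const_zero, add_zero] at h1
  exact h1.symm

/-- pairing of the field `Z` with the gradient of the potential -/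
theorem OP1_pair (hμ : 0 < μ) (Y : I → ℝ) :
    ∑ e, (if o e then Zf src tgt μ o Y e *
        gr src tgt (sol src tgt μ o (Dv src tgt o Y)) e else 0) =
      -(μ * ∑ x, sol src tgt μ o (Dv src tgt o Y) x ^ 2) := by
  set ψ := sol src tgt μ o (Dv src tgt o Y) with hψ
  have h1 := op_form src tgt (μ := μ) o ψ ψ
  rw [hψ, sol_spec src tgt o hμ, ← hψ, dv_form] at h1
  have h2 : ∑ e, (if o e then Zf src tgt μ o Y e * gr src tgt ψ e else 0) =
      (∑ e, if o e then Y e * gr src tgt ψ e else 0) +
        ∑ e, if o e then gr src tgt ψ e * gr src tgt ψ e else 0 := by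
    rw [← Finset.sum_add_distrib]
    refine Finset.sum_congr rfl fun e _ => ?_
    unfold Zf
    rw [← hψ]
    split_ifs <;> ring
  have h3 : ∑ x, ψ x ^ 2 = ∑ x, ψ x * ψ x := Finset.sum_congr rfl fun x _ => sq _
  rw [h2, h3]
  linarith

/-- energy identity -/
theorem zf_energy (hμ : 0 < μ) (Y : I → ℝ) :
    ∑ e, (if o e then Y e * Zf src tgt μ o Y e else 0) =
      ∑ e, (if o e then Zf src tgt μ o Y e ^ 2 else 0) +
        μ * ∑ x, sol src tgt μ o (Dv src tgt o Y) x ^ 2 := by
  have h1 := OP1_pair src tgt o hμ Y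
  have h2 : ∑ e, (if o e then Zf src tgt μ o Y e ^ 2 else 0) =
      ∑ e, (if o e then Y e * Zf src tgt μ o Y e else 0) +
        ∑ e, (if o e then Zf src tgt μ o Y e *
          gr src tgt (sol src tgt μ o (Dv src tgt o Y)) e else 0) := by
    rw [← Finset.sum_add_distrib]
    refine Finset.sum_congr rfl fun e _ => ?_
    unfold Zf
    split_ifs <;> ring
  rw [h2, h1]
  ring

theorem zf_energy_le (hμ : 0 < μ) (Y : I → ℝ) :
    ∑ e, (if o e then Zf src tgt μ o Y e ^ 2 else 0) + μ * ∑ x, sol src tgt μ o (Dv src tgt o Y) x ^ 2 ≤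
      ∑ e, (if o e then Y e ^ 2 else 0) := by
  have h1 := OP1_pair src tgt o hμ Y
  have h2 : ∑ e, (if o e then Y e ^ 2 else 0) =
      ∑ e, (if o e then Zf src tgt μ o Y e ^ 2 else 0) -
        2 * ∑ e, (if o e then Zf src tgt μ o Y e *
          gr src tgt (sol src tgt μ o (Dv src tgt o Y)) e else 0) +
        ∑ e, (if o e then gr src tgt (sol src tgt μ o (Dv src tgt o Y)) e *
          gr src tgt (sol src tgt μ o (Dv src tgt o Y)) e else 0) := by
    rw [Finset.mul_sum, ← Finset.sum_sub_distrib, ← Finset.sum_add_distrib]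
    refine Finset.sum_congr rfl fun e _ => ?_
    unfold Zf
    split_ifs <;> ring
  have h3 := OP1_energy_nonneg src tgt o (sol src tgt μ o (Dv src tgt o Y))
  have h4 : 0 ≤ μ * ∑ x, sol src tgt μ o (Dv src tgt o Y) x ^ 2 :=
    mul_nonneg hμ.le (Finset.sum_nonneg fun x _ => sq_nonneg _)
  rw [h2, h1]
  linarith

end OP1

end Pool.Agent.Lib.MP_566bac_pr.Hd
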