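import Pool.Agent.Lib.MP_566bac_pr.Hd.DefsB
import Pool.Agent.Lib.MP_566bac_pr.Hd.OP1

/-!
# Averages over cubes of the torus
-/

open Finset
open scoped Classical

namespace Pool.Agent.Lib.MP_566bac_pr.Hd

variable {d : ℕ}

theorem avg_eq {N : ℕ} [NeZero N] (R : ℕ) (f : Tor N d → ℝ) (x : Tor N d) :
    avg R f x = ∑ y, avg R (Pi.single y 1) x * f y := by
  unfold avg
  have h1 : ∀ y : Tor N d, (∑ u : Fin d → Fin R,
      (Pi.single y (1 : ℝ) : Tor N d → ℝ) (tadd x fun i => (u i : ℤ))) / (R : ℝ) ^ d * f y =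
      (∑ u : Fin d → Fin R, if (tadd x fun i => (u i : ℤ)) = y then f y else 0) / (R : ℝ) ^ d := by
    intro y
    rw [div_mul_eq_mul_div, Finset.sum_mul]
    congr 1
    refine Finset.sum_congr rfl fun u _ => ?_
    rw [Pi.single_apply]
    split_ifs <;> simp
  rw [Finset.sum_congr rfl fun y _ => h1 y, ← Finset.sum_div, Finset.sum_comm]
  congr 1
  refine Finset.sum_congr rfl fun u _ => ?_
  rw [Finset.sum_ite_eq]
  simp

theorem AV_sum_shift {N : ℕ} [NeZero N] (f : Tor N d → ℝ) (v : Vtx d) :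
    ∑ x, f (tadd x v) = ∑ x, f x :=
  Equiv.sum_comp (Equiv.addRight (prj N v)) f

theorem AV_card (R : ℕ) : ((Finset.univ : Finset (Fin d → Fin R)).card : ℝ) = (R : ℝ) ^ d := by
  rw [Finset.card_univ, Fintype.card_fun, Fintype.card_fin, Fintype.card_fin]
  push_cast
  rfl

theorem avg_total {N : ℕ} [NeZero N] {R : ℕ} (hR : 1 ≤ R) (f : Tor N d → ℝ) :
    ∑ x, avg R f x = ∑ x, f x := by
  unfold avg
  rw [← Finset.sum_div, Finset.sum_comm, Finset.sum_congr rfl fun u _ => AV_sum_shift f _,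
    Finset.sum_const, nsmul_eq_mul, AV_card]
  have : (R : ℝ) ^ d ≠ 0 := pow_ne_zero _ (by positivity)
  field_simp

theorem AV_sq_le {N : ℕ} [NeZero N] {R : ℕ} (hR : 1 ≤ R) (f : Tor N d → ℝ) (x : Tor N d) :
    avg R f x ^ 2 ≤ avg R (fun y => f y ^ 2) x := by
  unfold avg
  have hpos : (0 : ℝ) < (R : ℝ) ^ d := by positivity
  rw [div_pow, div_le_div_iff₀ (by positivity) hpos]
  have h := sq_sum_le_card_mul_sum_sq (s := (Finset.univ : Finset (Fin d → Fin R)))
    (f := fun u => f (tadd x fun i => (u i : ℤ)))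
  rw [AV_card] at h
  nlinarith [h, hpos]

theorem avg_sq_le {N : ℕ} [NeZero N] {R : ℕ} (hR : 1 ≤ R) (f : Tor N d → ℝ) :
    ∑ x, avg R f x ^ 2 ≤ ∑ x, f x ^ 2 := by
  rw [← avg_total hR (fun y => f y ^ 2)]
  exact Finset.sum_le_sum fun x _ => AV_sq_le hR f x

theorem AV_inj {N : ℕ} [NeZero N] {R : ℕ} (hRN : R ≤ N) (x : Tor N d) :
    Function.Injective (fun u : Fin d → Fin R => tadd x fun i => (u i : ℤ)) := by
  intro u v h
  have h1 : prj N (fun i => ((u i : ℕ) : ℤ)) = prj N (fun i => ((v i : ℕ) : ℤ)) :=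
    add_left_cancel h
  funext i
  have h2 := congrFun h1 i
  unfold prj at h2
  simp only [Int.cast_natCast] at h2
  have hu : (u i : ℕ) < N := lt_of_lt_of_le (u i).2 hRN
  have hv : (v i : ℕ) < N := lt_of_lt_of_le (v i).2 hRN
  have h3 := (ZMod.natCast_eq_natCast_iff' _ _ _).1 h2
  rw [Nat.mod_eq_of_lt hu, Nat.mod_eq_of_lt hv] at h3
  exact Fin.ext h3

theorem AV_abs_le {N : ℕ} [NeZero N] {R : ℕ} (hR : 1 ≤ R) (hRN : R ≤ N) (f : Tor N d → ℝ)
    (x : Tor N d) : |avg R f x| ≤ (∑ x, |f x|) / (R : ℝ) ^ d := by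
  unfold avg
  have hpos : (0 : ℝ) < (R : ℝ) ^ d := by positivity
  rw [abs_div, abs_of_pos hpos]
  refine div_le_div_of_nonneg_right ?_ hpos.le
  refine (Finset.abs_sum_le_sum_abs _ _).trans ?_
  rw [← Finset.sum_image (s := Finset.univ) (f := fun y => |f y|)
    (g := fun u : Fin d → Fin R => tadd x fun i => (u i : ℤ))
    (fun u _ v _ h => AV_inj hRN x h)]
  exact Finset.sum_le_sum_of_subset_of_nonneg (Finset.subset_univ _)
    (fun y _ _ => abs_nonneg _)

theorem avg_sq_le_l1 {N : ℕ} [NeZero N] {R : ℕ} (hR : 1 ≤ R) (hRN : R ≤ N) (f : Tor N d → ℝ) :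
    ∑ x, avg R f x ^ 2 ≤ (∑ x, |f x|) ^ 2 / (R : ℝ) ^ d := by
  have hpos : (0 : ℝ) < (R : ℝ) ^ d := by positivity
  have h1 : ∀ x, avg R f x ^ 2 ≤ (∑ x, |f x|) / (R : ℝ) ^ d * avg R (fun y => |f y|) x := by
    intro x
    have h2 := AV_abs_le hR hRN f x
    have h3 : |avg R f x| ≤ avg R (fun y => |f y|) x := by
      unfold avg
      rw [abs_div, abs_of_pos hpos]
      exact div_le_div_of_nonneg_right (Finset.abs_sum_le_sum_abs _ _) hpos.le
    rw [← sq_abs, pow_two]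
    exact mul_le_mul h2 h3 (abs_nonneg _) (le_trans (abs_nonneg _) h2)
  refine (Finset.sum_le_sum fun x _ => h1 x).trans ?_
  rw [← Finset.mul_sum, avg_total hR]
  refine le_of_eq ?_
  ring

/-- averages of solutions and dipoles -/
theorem avg_phi {N : ℕ} [NeZero N] {μ : ℝ} (hμ : 0 < μ) (R : ℕ) (o : Tor N d × Fin d → Bool)
    (i : Fin d) (x : Tor N d) : avg R (phi μ o i) x =
      ∑ y, avg R (Pi.single y 1) x * sol tsrc ttgt μ o (Dv tsrc ttgt o (xi i)) y :=
  avg_eq R (phi μ o i) x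

theorem AV_gr_sol {N : ℕ} [NeZero N] {μ : ℝ} (hμ : 0 < μ) (o : Tor N d × Fin d → Bool)
    (e : Tor N d × Fin d) (b : Tor N d → ℝ) :
    gr tsrc ttgt (sol tsrc ttgt μ o b) e = -∑ y, b y * dip μ o e y := by
  unfold dip
  rw [← sol_symm tsrc ttgt o hμ]
  have h1 : ∀ y : Tor N d, sol tsrc ttgt μ o b y * ((if y = tsrc e then 1 else 0) -
      if y = ttgt e then 1 else 0) = (if y = tsrc e then sol tsrc ttgt μ o b y else 0) -
      (if y = ttgt e then sol tsrc ttgt μ o b y else 0) := by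
    intro y
    split_ifs <;> simp
  rw [Finset.sum_congr rfl fun y _ => h1 y, Finset.sum_sub_distrib, Finset.sum_ite_eq',
    Finset.sum_ite_eq']
  simp only [Finset.mem_univ, if_true]
  unfold gr
  ring

theorem gr_sol_avg {N : ℕ} [NeZero N] {μ : ℝ} (hμ : 0 < μ) (R : ℕ) (o : Tor N d × Fin d → Bool)
    (e : Tor N d × Fin d) (x : Tor N d) :
    gr tsrc ttgt (sol tsrc ttgt μ o (fun y => avg R (Pi.single y 1) x)) e =
      -avg R (dip μ o e) x := by
  rw [AV_gr_sol hμ, avg_eq R (dip μ o e) x]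

/-- a sum over the edges of a field which lives in one direction -/
theorem AV_sum_edges {N : ℕ} [NeZero N] (R : ℕ) (j : Fin d) (x : Tor N d)
    (o : Tor N d × Fin d → Bool) (F : Tor N d × Fin d → ℝ) :
    ∑ e, (if o e then boxY R j x e * F e else 0) =
      ∑ y, avg R (Pi.single y 1) x * (if o (y, j) then F (y, j) else 0) := by
  rw [Fintype.sum_prod_type]
  refine Finset.sum_congr rfl fun y _ => ?_
  rw [Finset.sum_eq_single j]
  · unfold boxY
    simp only [if_true]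
    split_ifs <;> simp
  · intro k _ hk
    unfold boxY
    simp [hk]
  · intro h
    exact absurd (Finset.mem_univ j) h

theorem avg_flux {N : ℕ} [NeZero N] {μ : ℝ} (hμ : 0 < μ) (R : ℕ) (o : Tor N d × Fin d → Bool)
    (i j : Fin d) (x : Tor N d) : avg R (flux μ o i j) x =
      ∑ e, if o e then boxY R j x e * Zf tsrc ttgt μ o (xi i) e else 0 := by
  rw [AV_sum_edges, avg_eq]
  rfl

theorem zf_boxY {N : ℕ} [NeZero N] {μ : ℝ} (hμ : 0 < μ) (R : ℕ) (o : Tor N d × Fin d → Bool)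
    (j : Fin d) (e : Tor N d × Fin d) (x : Tor N d) :
    Zf tsrc ttgt μ o (boxY R j x) e =
      avg R (fun y => (if e = (y, j) then 1 else 0) +
        if o (y, j) then gr tsrc ttgt (dip μ o e) (y, j) else 0) x := by
  unfold Zf
  rw [AV_gr_sol hμ, dv_form, neg_neg, AV_sum_edges, avg_eq, ← Finset.sum_congr rfl
    (fun y _ => (mul_add _ _ _).symm), Finset.sum_add_distrib]
  congr 1
  obtain ⟨y, k⟩ := e
  unfold boxY
  simp only [Prod.mk.injEq]
  by_cases hk : k = j
  · subst hk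
    simp only [and_true, if_true]
    rw [Finset.sum_eq_single y]
    · simp
    · intro z _ hz
      rw [if_neg (fun h => hz h.symm), mul_zero]
    · intro h
      exact absurd (Finset.mem_univ y) h
  · simp [hk]

end Pool.Agent.Lib.MP_566bac_pr.Hd
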