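import Pool.Agent.Lib.MP_566bac_pr.Hd.DefsC

/-!
# Basic facts on boxes and connections
-/

open Finset
open scoped Classical

namespace Pool.Agent.Lib.MP_566bac_pr.Hd

variable {d : ℕ}

theorem BAS_le_iff {x y : Vtx d} {n : ℕ} : dst x y ≤ n ↔ ∀ i, (x i - y i).natAbs ≤ n := by
  unfold dst
  rw [Finset.sup_le_iff]
  simp

theorem mem_Lam {z x : Vtx d} {n : ℕ} : x ∈ Lam z n ↔ dst x z ≤ n := by
  rw [BAS_le_iff]
  unfold Lam
  rw [Fintype.mem_piFinset]
  refine forall_congr' fun i => ?_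
  rw [Finset.mem_Icc]
  omega

theorem dst_comm (x y : Vtx d) : dst x y = dst y x := by
  unfold dst
  refine congrArg _ (funext fun i => ?_)
  omega

theorem dst_self (x : Vtx d) : dst x x = 0 := by
  have : dst x x ≤ 0 := by rw [BAS_le_iff]; intro i; simp
  omega

theorem dst_triangle (x y z : Vtx d) : dst x z ≤ dst x y + dst y z := by
  rw [BAS_le_iff]
  intro i
  have h1 := (BAS_le_iff (x := x) (y := y)).1 le_rfl i
  have h2 := (BAS_le_iff (x := y) (y := z)).1 le_rfl i
  omega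

theorem dst_add_ev (x : Vtx d) (j : Fin d) : dst (x + ev j) x ≤ 1 := by
  rw [BAS_le_iff]
  intro i
  by_cases h : i = j
  · subst h; simp [ev]
  · simp [ev, h]

theorem dst_adj {η : Conf d} {x y : Vtx d} (h : (G η).Adj x y) : dst y x ≤ 1 := by
  obtain ⟨j, h | h⟩ := h
  · rw [h.1]; exact dst_add_ev x j
  · rw [h.1, dst_comm]; exact dst_add_ev y j

theorem dst_add_right (x y a : Vtx d) : dst (x + a) (y + a) = dst x y := by
  unfold dst
  refine congrArg _ (funext fun i => ?_)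
  simp

theorem card_Lam (z : Vtx d) (n : ℕ) : (Lam z n).card = (2 * n + 1) ^ d := by
  unfold Lam
  rw [Fintype.card_piFinset]
  have : ∀ i : Fin d, (Finset.Icc (z i - n) (z i + n)).card = 2 * n + 1 := by
    intro i
    rw [Int.card_Icc]
    omega
  simp [this]

theorem Lam_subset {z w : Vtx d} {n m : ℕ} (h : n + dst z w ≤ m) : Lam z n ⊆ Lam w m := by
  intro x hx
  rw [mem_Lam] at hx ⊢
  have := dst_triangle x z w
  omega

theorem conn_refl {η : Conf d} {W : Finset (Vtx d)} {x : Vtx d} (h : x ∈ W) : Conn η W x x :=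
  ⟨h, h, SimpleGraph.Reachable.refl _⟩

theorem conn_symm {η : Conf d} {W : Finset (Vtx d)} {x y : Vtx d} (h : Conn η W x y) :
    Conn η W y x := ⟨h.2.1, h.1, h.2.2.symm⟩

theorem conn_trans {η : Conf d} {W : Finset (Vtx d)} {x y z : Vtx d} (h : Conn η W x y)
    (h' : Conn η W y z) : Conn η W x z := ⟨h.1, h'.2.1, h.2.2.trans h'.2.2⟩

theorem BAS_res_mono {H : SimpleGraph (Vtx d)} {W W' : Set (Vtx d)} (hW : W ⊆ W') :
    res H W ≤ res H W' := fun _ _ h => ⟨h.1, hW h.2.1, hW h.2.2⟩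

theorem BAS_res_le {H : SimpleGraph (Vtx d)} {W : Set (Vtx d)} : res H W ≤ H := fun _ _ h => h.1

theorem conn_mono {η : Conf d} {W W' : Finset (Vtx d)} (hW : W ⊆ W') {x y : Vtx d}
    (h : Conn η W x y) : Conn η W' x y :=
  ⟨hW h.1, hW h.2.1, h.2.2.mono (BAS_res_mono (by exact_mod_cast hW))⟩

theorem conn_adj {η : Conf d} {W : Finset (Vtx d)} {x y : Vtx d} (hx : x ∈ W) (hy : y ∈ W)
    (h : (G η).Adj x y) : Conn η W x y :=
  ⟨hx, hy, SimpleGraph.Adj.reachable ⟨h, by exact_mod_cast hx, by exact_mod_cast hy⟩⟩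

theorem conn_reachable {η : Conf d} {W : Finset (Vtx d)} {x y : Vtx d} (h : Conn η W x y) :
    (G η).Reachable x y := h.2.2.mono BAS_res_le

/-- first exit of a walk, general version -/
theorem BAS_exit {η : Conf d} {H : SimpleGraph (Vtx d)} (hH : H ≤ G η) {W : Finset (Vtx d)}
    (hW : ∀ a b, H.Adj a b → a ∈ W ∧ b ∈ W) {z x y : Vtx d} {n : ℕ} (p : H.Walk x y)
    (hxW : x ∈ W) (hx : dst x z ≤ n) (hy : n ≤ dst y z) :
    ∃ y', dst y' z = n ∧ Conn η (W.filter fun u => dst u z ≤ n) x y' := by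
  induction p with
  | nil => exact ⟨_, le_antisymm hx hy, conn_refl (by simp [hxW, hx])⟩
  | cons h p ih =>
    rename_i u v w
    rcases Nat.lt_or_ge n (dst v z) with hv | hv
    · -- `u` is at distance `n`
      refine ⟨u, ?_, conn_refl (by simp [hxW, hx])⟩
      have h1 := dst_adj (hH h)
      have h2 := dst_triangle v u z
      omega
    · obtain ⟨y', h1, h2⟩ := ih (hW _ _ h).2 hv hy
      refine ⟨y', h1, conn_trans (conn_adj ?_ ?_ (hH h)) h2⟩
      · simp [hxW, hx]
      · simp [(hW _ _ h).2, hv]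

/-- first exit of a path -/
theorem conn_exit {η : Conf d} {W : Finset (Vtx d)} {z x y : Vtx d} {n : ℕ} (h : Conn η W x y)
    (hx : dst x z ≤ n) (hy : n ≤ dst y z) :
    ∃ y', dst y' z = n ∧ Conn η (W.filter fun u => dst u z ≤ n) x y' := by
  obtain ⟨h1, _, ⟨p⟩⟩ := h
  exact BAS_exit (H := res (G η) (W : Set (Vtx d))) BAS_res_le
    (fun a b hab => ⟨by exact_mod_cast hab.2.1, by exact_mod_cast hab.2.2⟩) p h1 hx hy

theorem reach_exit {η : Conf d} {z x y : Vtx d} {n : ℕ} (h : (G η).Reachable x y)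
    (hx : dst x z ≤ n) (hy : n ≤ dst y z) : Arm η z n x := by
  obtain ⟨p⟩ := h
  induction p with
  | nil => exact ⟨_, le_antisymm hx hy, conn_refl (mem_Lam.2 hx)⟩
  | cons h p ih =>
    rename_i u v w
    rcases Nat.lt_or_ge n (dst v z) with hv | hv
    · refine ⟨u, ?_, conn_refl (mem_Lam.2 hx)⟩
      have h1 := dst_adj h
      have h2 := dst_triangle v u z
      omega
    · obtain ⟨y', h1, h2⟩ := ih hv hy
      exact ⟨y', h1, conn_trans (conn_adj (mem_Lam.2 hx) (mem_Lam.2 hv) h) h2⟩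

/-- a vertex of an infinite cluster is connected to every distance -/
theorem far_of_infinite {η : Conf d} {x : Vtx d} (h : {y | (G η).Reachable x y}.Infinite) (n : ℕ) :
    Far η n x := by
  obtain ⟨y, hy, hyn⟩ := h.exists_notMem_finset (Lam x n)
  rw [mem_Lam] at hyn
  exact reach_exit hy (by rw [dst_self]; omega) (by omega)

end Pool.Agent.Lib.MP_566bac_pr.Hd
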