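import Pool.Agent.Lib.MP_566bac_pr.Hd.GS

/-!
# DL: the density of the giant cluster is bounded below
-/

open Finset
open scoped Classical

namespace Pool.Agent.Lib.MP_566bac_pr.Hd

variable {d : ℕ}

/-- from one scale to the next one -/
theorem DL_step {η : Conf d} {m : ℕ} (hm : 1 ≤ m) {x : Vtx d} (hx : dst x 0 ≤ 2 * m)
    (ha : Arm η 0 (10 * m) x) (hg : Good η (m + 1) 0) : Arm η 0 (10 * (m + 1)) x := by
  obtain ⟨y, hy, v, hv, hc⟩ := hg.1
  have hyd := mem_Lam.1 hy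
  obtain ⟨u, hu, hcu⟩ := ha
  have hax : Arm η 0 (4 * (m + 1)) x :=
    reach_exit (conn_reachable hcu) (by omega) (by omega)
  have hay : Arm η 0 (4 * (m + 1)) y :=
    reach_exit (conn_reachable hc) (by omega) (by omega)
  have hxy := hg.2 x (mem_Lam.2 (by omega)) y (mem_Lam.2 (by omega)) hax hay
  exact reach_exit ((conn_reachable hxy).trans (conn_reachable hc)) (by omega) (by omega)

theorem DL_chain {η : Conf d} {n₀ : ℕ} (hn : 1 ≤ n₀) {x : Vtx d} (hx : dst x 0 ≤ n₀)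
    (ha : Arm η 0 (10 * n₀) x) (k : ℕ)
    (hg : ∀ m, n₀ ≤ m → m ≤ n₀ + k → Good η m 0) : Arm η 0 (10 * (n₀ + k)) x := by
  induction k with
  | zero => simpa using ha
  | succ k ih =>
    have h1 := ih fun m h1 h2 => hg m h1 (by omega)
    have h2 : 1 ≤ n₀ + k := by omega
    have h3 : dst x 0 ≤ 2 * (n₀ + k) := by omega
    exact DL_step h2 h3 h1 (hg (n₀ + k + 1) (by omega) (by omega))

theorem DL_exists {η : Conf d} {n₀ M : ℕ} (hn : 1 ≤ n₀) (hM : n₀ ≤ M)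
    (hg : ∀ m, n₀ ≤ m → m ≤ M → Good η m 0) : ∃ x ∈ Lam (0 : Vtx d) n₀, Far η (6 * M) x := by
  obtain ⟨x, hx, ha⟩ := (hg n₀ le_rfl hM).1
  have hxd := mem_Lam.1 hx
  obtain ⟨k, rfl⟩ := Nat.exists_eq_add_of_le hM
  obtain ⟨y, hy, hc⟩ := DL_chain hn hxd ha k hg
  refine ⟨x, hx, reach_exit (conn_reachable hc) (by rw [dst_self]; omega) ?_⟩
  have h1 := dst_triangle y x 0
  omega

theorem DL_shift {N : ℕ} [NeZero N] (p : ℝ) (M : ℕ) (x : Vtx d) :
    Ex p (fun o : Tor N d × Fin d → Bool => if Far (lift o) (6 * M) x then (1 : ℝ) else 0) =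
      Ex p (fun o : Tor N d × Fin d → Bool => if Giant M o 0 then (1 : ℝ) else 0) := by
  have h1 := Ex_comp p (fun e : Tor N d × Fin d => (e.1 + prj N x, e.2)) (by
    rintro ⟨a, i⟩ ⟨b, j⟩ hab
    simp only [Prod.mk.injEq, add_left_inj] at hab
    rw [hab.1, hab.2]) (fun o : Tor N d × Fin d → Bool => if Giant M o 0 then (1 : ℝ) else 0)
  rw [← h1]
  congr 1
  funext o
  have h2 : Far (lift o) (6 * M) x ↔
      Giant M (o ∘ fun e : Tor N d × Fin d => (e.1 + prj N x, e.2)) 0 := by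
    have h3 : Far (fun y j => lift o (y + x) j) (6 * M) 0 ↔ Far (lift o) (6 * M) x := by
      rw [far_shift, zero_add]
    rw [← h3, GS_lift_add]
    unfold Giant
    have h4 : rep (0 : Tor N d) = 0 := by
      funext i
      simp [rep]
    rw [h4]
    exact Iff.rfl
  simp only [h2]

theorem DL_tsum {C : ℝ} (hC : 0 ≤ C) (n₀ : ℕ) (hn : 2 ≤ n₀) (k : ℕ) :
    ∑ m ∈ Finset.Ico n₀ (n₀ + k), C / (m : ℝ) ^ 2 ≤ C / ((n₀ : ℝ) - 1) - C / ((n₀ : ℝ) + k - 1) := by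
  have hn' : (2 : ℝ) ≤ n₀ := by exact_mod_cast hn
  induction k with
  | zero => simp
  | succ k ih =>
    rw [← add_assoc, Finset.sum_Ico_succ_top (by omega)]
    have hk : (0 : ℝ) ≤ k := Nat.cast_nonneg k
    have h1 : C / (((n₀ + k : ℕ) : ℝ)) ^ 2 ≤
        C / ((n₀ : ℝ) + k - 1) - C / ((n₀ : ℝ) + ((k + 1 : ℕ) : ℝ) - 1) := by
      push_cast
      have h2 : (0 : ℝ) < (n₀ : ℝ) + k - 1 := by linarith
      have h3 : (0 : ℝ) < (n₀ : ℝ) + (k + 1) - 1 := by linarith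
      rw [div_sub_div _ _ h2.ne' h3.ne', div_le_div_iff₀ (by positivity) (by positivity)]
      have h4 : C * ((n₀ : ℝ) + (k + 1) - 1) - ((n₀ : ℝ) + k - 1) * C = C := by ring
      rw [h4]
      apply mul_le_mul_of_nonneg_left _ hC
      nlinarith
    linarith

/-! ### DL: the density is bounded below -/
theorem density_lower (hd : 1 ≤ d) {p : ℝ} (hp : 0 ≤ p) (hp1 : p ≤ 1) (hD : Decay d p) :
    ∃ θ₀ : ℝ, 0 < θ₀ ∧ ∃ M₀ : ℕ, ∀ {N M : ℕ} [NeZero N], M₀ ≤ M → 20 * M < N →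
      θ₀ ≤ Ex p (fun o : Tor N d × Fin d → Bool => if Giant M o 0 then 1 else 0) := by
  obtain ⟨C, hC⟩ := hD 2
  have hpb0 : ∀ m, 0 ≤ pbad d p m := by
    intro m
    unfold pbad
    apply GS_Ex_nonneg hp hp1
    intro ω
    split_ifs <;> norm_num
  have hC0 : 0 ≤ C := by
    have h1 := hC 1 le_rfl
    have h2 := hpb0 1
    simp at h1
    linarith
  obtain ⟨n₁, hn₁⟩ := exists_nat_ge (2 * C)
  set n₀ := n₁ + 2 with hn₀
  have hsum : ∀ k, ∑ m ∈ Finset.Ico n₀ (n₀ + k), pbad d p m ≤ 1 / 2 := by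
    intro k
    have h1 : ∑ m ∈ Finset.Ico n₀ (n₀ + k), pbad d p m ≤
        ∑ m ∈ Finset.Ico n₀ (n₀ + k), C / (m : ℝ) ^ 2 := by
      apply Finset.sum_le_sum
      intro m hm
      rw [Finset.mem_Ico] at hm
      exact hC m (by omega)
    have h2 := DL_tsum hC0 n₀ (by omega) k
    have h3 : (n₀ : ℝ) = n₁ + 2 := by rw [hn₀]; push_cast; ring
    have hn0 : (0 : ℝ) ≤ n₁ := Nat.cast_nonneg _
    have hk : (0 : ℝ) ≤ k := Nat.cast_nonneg _
    have h4 : 0 ≤ C / ((n₀ : ℝ) + k - 1) := by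
      apply div_nonneg hC0
      rw [h3]
      linarith
    have h5 : C / ((n₀ : ℝ) - 1) ≤ 1 / 2 := by
      rw [div_le_iff₀ (by rw [h3]; linarith), h3]
      linarith
    linarith
  refine ⟨1 / (2 * (2 * (n₀ : ℝ) + 1) ^ d), by positivity, n₀, ?_⟩
  intro N M _ hM h20
  obtain ⟨k, rfl⟩ := Nat.exists_eq_add_of_le hM
  set s : Finset ℕ := Finset.Ico n₀ (n₀ + (k + 1)) with hs
  set E : (Tor N d × Fin d → Bool) → ℝ := fun _ => 1 with hE
  have hE1 : Ex p E = 1 := by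
    unfold Ex
    simp only [hE, mul_one]
    exact wt_sum p
  have h1 : Ex p E ≤ Ex p (fun o : Tor N d × Fin d → Bool =>
      (∑ m ∈ s, if Good (lift o) m 0 then (0 : ℝ) else 1) +
      ∑ x ∈ Lam (0 : Vtx d) n₀, if Far (lift o) (6 * (n₀ + k)) x then (1 : ℝ) else 0) := by
    apply Ex_mono hp hp1
    intro o
    have hn1 : ∀ m ∈ s, (0 : ℝ) ≤ if Good (lift o) m 0 then (0 : ℝ) else 1 := by
      intro m _
      split_ifs <;> norm_num
    have hn2 : ∀ x ∈ Lam (0 : Vtx d) n₀,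
        (0 : ℝ) ≤ if Far (lift o) (6 * (n₀ + k)) x then (1 : ℝ) else 0 := by
      intro m _
      split_ifs <;> norm_num
    by_cases hg : ∀ m ∈ s, Good (lift o) m 0
    · obtain ⟨x, hx, hf⟩ := DL_exists (η := lift o) (n₀ := n₀) (M := n₀ + k) (by omega) (by omega)
        (fun m h1 h2 => hg m (by rw [hs, Finset.mem_Ico]; omega))
      have h2 := Finset.single_le_sum hn2 hx
      rw [if_pos hf] at h2
      have h3 := Finset.sum_nonneg hn1
      show (1 : ℝ) ≤ _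
      linarith
    · push Not at hg
      obtain ⟨m, hm, hf⟩ := hg
      have h2 := Finset.single_le_sum hn1 hm
      rw [if_neg hf] at h2
      have h3 := Finset.sum_nonneg hn2
      show (1 : ℝ) ≤ _
      linarith
  rw [hE1, GS_Ex_add, GS_Ex_sum, GS_Ex_sum] at h1
  have h2 : ∑ m ∈ s, Ex p (fun o : Tor N d × Fin d → Bool =>
      if Good (lift o) m 0 then (0 : ℝ) else 1) = ∑ m ∈ s, pbad d p m := by
    apply Finset.sum_congr rfl
    intro m hm
    rw [hs, Finset.mem_Ico] at hm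
    exact GS_ex_bad p (by omega) 0
  have h3 : ∑ x ∈ Lam (0 : Vtx d) n₀, Ex p (fun o : Tor N d × Fin d → Bool =>
      if Far (lift o) (6 * (n₀ + k)) x then (1 : ℝ) else 0) =
      (2 * (n₀ : ℝ) + 1) ^ d * Ex p (fun o : Tor N d × Fin d → Bool =>
        if Giant (n₀ + k) o 0 then (1 : ℝ) else 0) := by
    rw [Finset.sum_congr rfl fun x _ => DL_shift (N := N) p (n₀ + k) x]
    rw [Finset.sum_const, nsmul_eq_mul, card_Lam]
    push_cast
    rfl
  rw [h2, h3] at h1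
  have h4 := hsum (k + 1)
  rw [div_le_iff₀ (by positivity)]
  have h5 : 1 / 2 ≤ (2 * (n₀ : ℝ) + 1) ^ d * Ex p (fun o : Tor N d × Fin d → Bool =>
        if Giant (n₀ + k) o 0 then (1 : ℝ) else 0) := by linarith
  calc (1 : ℝ) ≤ 2 * ((2 * (n₀ : ℝ) + 1) ^ d * Ex p (fun o : Tor N d × Fin d → Bool =>
        if Giant (n₀ + k) o 0 then (1 : ℝ) else 0)) := by linarith
    _ = _ := by ring

end Pool.Agent.Lib.MP_566bac_pr.Hd
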