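import Pool.Agent.Lib.MP_566bac_pr.Hd.BAS

/-!
# EX1: finite product expectations
-/

open Finset MeasureTheory ProbabilityTheory Filter
open scoped Classical

namespace Pool.Agent.Lib.MP_566bac_pr.Hd

section EX1
variable {ι κ κ' : Type*} [Fintype ι] [Fintype κ] [Fintype κ']

theorem wt_sum (p : ℝ) : ∑ ω : ι → Bool, wt p ω = 1 := by
  have h := Finset.prod_univ_sum (fun _ : ι => (univ : Finset Bool))
    (fun (_ : ι) (b : Bool) => if b then p else 1 - p)
  rw [Fintype.piFinset_univ] at h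
  unfold wt
  rw [← h]
  refine Finset.prod_eq_one fun i _ => ?_
  simp

theorem wt_nonneg {p : ℝ} (h0 : 0 ≤ p) (h1 : p ≤ 1) (ω : ι → Bool) : 0 ≤ wt p ω := by
  unfold wt
  refine Finset.prod_nonneg fun i _ => ?_
  split_ifs
  · exact h0
  · linarith

theorem Ex_mono {p : ℝ} (h0 : 0 ≤ p) (h1 : p ≤ 1) {f g : (ι → Bool) → ℝ} (h : ∀ ω, f ω ≤ g ω) :
    Ex p f ≤ Ex p g := by
  unfold Ex
  exact Finset.sum_le_sum fun ω _ => mul_le_mul_of_nonneg_left (h ω) (wt_nonneg h0 h1 ω)

namespace EX1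

theorem wt_equiv (p : ℝ) (e : κ ≃ ι) (ω : ι → Bool) : wt p (ω ∘ e) = wt p ω := by
  unfold wt
  exact Fintype.prod_equiv e _ _ fun _ => rfl

theorem Ex_equiv (p : ℝ) (e : κ ≃ ι) (f : (κ → Bool) → ℝ) :
    Ex p (fun ω : ι → Bool => f (ω ∘ e)) = Ex p f := by
  unfold Ex
  refine Fintype.sum_equiv (e.symm.arrowCongr (Equiv.refl Bool)) _ _ fun ω => ?_
  have h : (e.symm.arrowCongr (Equiv.refl Bool)) ω = ω ∘ e := by
    ext k
    simp [Equiv.arrowCongr]
  rw [h, wt_equiv]

theorem wt_elim (p : ℝ) (ω₁ : κ → Bool) (ω₂ : κ' → Bool) :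
    wt p (Sum.elim ω₁ ω₂) = wt p ω₁ * wt p ω₂ := by
  unfold wt
  rw [Fintype.prod_sum_type]
  rfl

theorem Ex_sum (p : ℝ) (F : (κ → Bool) → (κ' → Bool) → ℝ) :
    Ex p (fun ω : κ ⊕ κ' → Bool => F (ω ∘ Sum.inl) (ω ∘ Sum.inr)) =
      ∑ ω₁, ∑ ω₂, wt p ω₁ * wt p ω₂ * F ω₁ ω₂ := by
  unfold Ex
  have h1 : ∑ x : (κ → Bool) × (κ' → Bool), wt p x.1 * wt p x.2 * F x.1 x.2 =
      ∑ ω₁, ∑ ω₂, wt p ω₁ * wt p ω₂ * F ω₁ ω₂ :=
    Fintype.sum_prod_type _
  rw [← h1]
  suffices h0 : ∀ ω : κ ⊕ κ' → Bool, wt p ω * F (ω ∘ Sum.inl) (ω ∘ Sum.inr) =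
      (fun x : (κ → Bool) × (κ' → Bool) => wt p x.1 * wt p x.2 * F x.1 x.2)
        (Equiv.sumArrowEquivProdArrow κ κ' Bool ω) by
    have h3 := Fintype.sum_equiv (Equiv.sumArrowEquivProdArrow κ κ' Bool)
      (fun ω : κ ⊕ κ' → Bool => wt p ω * F (ω ∘ Sum.inl) (ω ∘ Sum.inr))
      (fun x => wt p x.1 * wt p x.2 * F x.1 x.2) h0
    refine Eq.trans (Finset.sum_congr ?_ fun _ _ => rfl)
      (h3.trans (Finset.sum_congr ?_ fun _ _ => rfl))
    · ext x
      simp only [Finset.mem_univ]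
    · ext x
      simp only [Finset.mem_univ]
  intro ω
  have h : Sum.elim (ω ∘ Sum.inl) (ω ∘ Sum.inr) = ω := by
    ext x
    rcases x with x | x <;> rfl
  have h2 := wt_elim p (ω ∘ Sum.inl) (ω ∘ Sum.inr)
  rw [h] at h2
  beta_reduce
  rw [h2]
  rfl

end EX1

open EX1

/-- marginals -/
theorem Ex_comp (p : ℝ) (i : κ → ι) (hi : Function.Injective i) (f : (κ → Bool) → ℝ) :
    Ex p (fun ω : ι → Bool => f (ω ∘ i)) = Ex p f := by
  let E : κ ⊕ ((Set.range i)ᶜ : Set ι) ≃ ι :=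
    (Equiv.sumCongr (Equiv.ofInjective i hi) (Equiv.refl _)).trans (Equiv.Set.sumCompl (Set.range i))
  have h1 : (fun ω : ι → Bool => f (ω ∘ i)) =
      fun ω : ι → Bool => (fun ω' : κ ⊕ ((Set.range i)ᶜ : Set ι) → Bool => f (ω' ∘ Sum.inl))
        (ω ∘ E) := by
    funext ω
    rfl
  rw [h1, Ex_equiv p E (fun ω' : κ ⊕ ((Set.range i)ᶜ : Set ι) → Bool => f (ω' ∘ Sum.inl))]
  have h2 := Ex_sum (κ := κ) (κ' := ((Set.range i)ᶜ : Set ι)) p (fun ω₁ _ => f ω₁)
  rw [h2]
  unfold Ex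
  refine Finset.sum_congr rfl fun ω₁ _ => ?_
  rw [← Finset.sum_mul, ← Finset.mul_sum, wt_sum, mul_one]

/-- independence -/
theorem Ex_indep (p : ℝ) (i : κ → ι) (hi : Function.Injective i) (i' : κ' → ι)
    (hi' : Function.Injective i') (hd : ∀ a b, i a ≠ i' b) (f : (κ → Bool) → ℝ)
    (g : (κ' → Bool) → ℝ) :
    Ex p (fun ω : ι → Bool => f (ω ∘ i) * g (ω ∘ i')) = Ex p f * Ex p g := by
  have hinj : Function.Injective (Sum.elim i i') := by
    intro a b hab
    rcases a with a | a <;> rcases b with b | b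
    · exact congrArg Sum.inl (hi hab)
    · exact absurd hab (hd a b)
    · exact absurd hab.symm (hd b a)
    · exact congrArg Sum.inr (hi' hab)
  have h1 := Ex_comp p (Sum.elim i i') hinj
    (fun ω : κ ⊕ κ' → Bool => f (ω ∘ Sum.inl) * g (ω ∘ Sum.inr))
  have h2 := Ex_sum (κ := κ) (κ' := κ') p (fun ω₁ ω₂ => f ω₁ * g ω₂)
  have h3 : Ex p (fun ω : ι → Bool => f (ω ∘ i) * g (ω ∘ i')) =
      Ex p (fun ω : ι → Bool => (fun ω : κ ⊕ κ' → Bool => f (ω ∘ Sum.inl) * g (ω ∘ Sum.inr))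
        (ω ∘ Sum.elim i i')) := rfl
  rw [h3, h1, h2]
  unfold Ex
  rw [Finset.sum_mul_sum]
  refine Finset.sum_congr rfl fun ω₁ _ => Finset.sum_congr rfl fun ω₂ _ => ?_
  ring

namespace EX1

/-- the weight of the other coordinates -/
noncomputable def rw' (p : ℝ) (e : ι) (ω : ι → Bool) : ℝ :=
  ∏ i ∈ univ.erase e, if ω i then p else 1 - p

theorem wt_eq (p : ℝ) (e : ι) (ω : ι → Bool) :
    wt p ω = (if ω e then p else 1 - p) * rw' p e ω := by
  unfold wt rw'
  rw [Finset.mul_prod_erase univ (fun i => if ω i then p else 1 - p) (mem_univ e)]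

theorem rw_update (p : ℝ) (e : ι) (ω : ι → Bool) (b : Bool) :
    rw' p e (Function.update ω e b) = rw' p e ω := by
  unfold rw'
  refine Finset.prod_congr rfl fun i hi => ?_
  rw [Function.update_of_ne (Finset.mem_erase.1 hi).1]

theorem sum_pair (e : ι) (H : (ι → Bool) → ℝ) :
    ∑ ω, H ω = ∑ ω, if ω e then H ω + H (dn ω e) else 0 := by
  have hinv : Function.Involutive (fun ω : ι → Bool => Function.update ω e (!ω e)) := by
    intro ω
    simp
  have h1 : ∑ ω : ι → Bool, (if ω e then 0 else H ω) = ∑ ω, if ω e then H (dn ω e) else 0 := by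
    refine Fintype.sum_equiv (Function.Involutive.toPerm _ hinv) _ _ fun ω => ?_
    have h2 : (Function.Involutive.toPerm _ hinv) ω = Function.update ω e (!ω e) := rfl
    rw [h2]
    by_cases h : ω e = true
    · simp [h]
    · have h' : ω e = false := by simpa using h
      simp only [h', Function.update_self, Bool.not_false, if_true, dn, Function.update_idem]
      rw [if_neg (by simp)]
      congr 1
      rw [← h', Function.update_eq_self]
  have h3 : ∀ ω : ι → Bool, H ω = (if ω e then H ω else 0) + (if ω e then 0 else H ω) := by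
    intro ω
    split_ifs <;> simp
  rw [Finset.sum_congr rfl fun ω _ => h3 ω, Finset.sum_add_distrib, h1, ← Finset.sum_add_distrib]
  refine Finset.sum_congr rfl fun ω _ => ?_
  split_ifs <;> simp

end EX1

/-- an event which depends on one coordinate less -/
theorem Ex_up (p : ℝ) (e : ι) (f : (ι → Bool) → ℝ) :
    p * Ex p (fun ω => f (up ω e)) = Ex p (fun ω => if ω e then f ω else 0) := by
  unfold Ex
  rw [sum_pair e, sum_pair e (fun ω => wt p ω * if ω e then f ω else 0), Finset.mul_sum]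
  refine Finset.sum_congr rfl fun ω _ => ?_
  by_cases h : ω e = true
  · have h1 : up (dn ω e) e = ω := by
      unfold up dn
      rw [Function.update_idem, ← h, Function.update_eq_self]
    have h2 : up ω e = ω := by
      unfold up
      rw [← h, Function.update_eq_self]
    have h3 : wt p (dn ω e) = (1 - p) * rw' p e ω := by
      rw [wt_eq p e, dn, rw_update]
      simp
    have h4 : wt p ω = p * rw' p e ω := by
      rw [wt_eq p e, if_pos h]
    have h5 : (dn ω e) e = false := by simp [dn]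
    rw [if_pos h, if_pos h, if_pos h]
    beta_reduce
    rw [h1, h2, h3, h4, h5]
    simp only [Bool.false_eq_true, if_false]
    ring
  · rw [if_neg h, if_neg h, mul_zero]

theorem Ex_dn (p : ℝ) (e : ι) (f : (ι → Bool) → ℝ) :
    (1 - p) * Ex p (fun ω => f (dn ω e)) = Ex p (fun ω => if ω e then 0 else f ω) := by
  unfold Ex
  rw [sum_pair e, sum_pair e (fun ω => wt p ω * if ω e then 0 else f ω), Finset.mul_sum]
  refine Finset.sum_congr rfl fun ω _ => ?_
  by_cases h : ω e = true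
  · have h1 : dn (dn ω e) e = dn ω e := by
      unfold dn
      rw [Function.update_idem]
    have h3 : wt p (dn ω e) = (1 - p) * rw' p e ω := by
      rw [wt_eq p e, dn, rw_update]
      simp
    have h4 : wt p ω = p * rw' p e ω := by
      rw [wt_eq p e, if_pos h]
    have h5 : (dn ω e) e = false := by simp [dn]
    rw [if_pos h, if_pos h, if_pos h]
    beta_reduce
    rw [h1, h3, h4, h5]
    simp only [Bool.false_eq_true, if_false]
    ring
  · rw [if_neg h, if_neg h, mul_zero]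

end EX1

end Pool.Agent.Lib.MP_566bac_pr.Hd
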