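import Pool.Agent.Lib.MP_566bac_pr.Hd.BAS

/-!
# Geometry of good boxes
-/

open Finset
open scoped Classical

namespace Pool.Agent.Lib.MP_566bac_pr.Hd

variable {d : ℕ}

theorem far_mono {η : Conf d} {n m : ℕ} (h : n ≤ m) {y : Vtx d} (hy : Far η m y) :
    Far η n y := by
  obtain ⟨y', h1, h2⟩ := hy
  exact reach_exit (conn_reachable h2) (by rw [dst_self]; omega) (by omega)

theorem far_arm {η : Conf d} {M : ℕ} {y w : Vtx d} (hy : Far η (6 * M) y)
    (hw : dst y w ≤ 2 * M) : Arm η w (4 * M) y := by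
  obtain ⟨y', h1, h2⟩ := hy
  refine reach_exit (conn_reachable h2) (by omega) ?_
  have h3 := dst_triangle y' w y
  rw [dst_comm w y] at h3
  omega

theorem good_conn {η : Conf d} {M : ℕ} {w y y' : Vtx d} (hg : Good η M w)
    (h1 : dst y w ≤ 2 * M) (h2 : dst y' w ≤ 2 * M) (h3 : Far η (6 * M) y)
    (h4 : Far η (6 * M) y') : Conn η (Lam w (8 * M)) y y' :=
  hg.2 y (mem_Lam.2 h1) y' (mem_Lam.2 h2) (far_arm h3 h1) (far_arm h4 h2)

theorem good_anchor {η : Conf d} {M : ℕ} {w : Vtx d} (hg : Good η M w) :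
    ∃ x, dst x w ≤ M ∧ Far η (9 * M) x := by
  obtain ⟨x, hx, y, hy, hc⟩ := hg.1
  rw [mem_Lam] at hx
  refine ⟨x, hx, reach_exit (conn_reachable hc) (by rw [dst_self]; omega) ?_⟩
  have h3 := dst_triangle y x w
  omega

theorem GE1_res_congr {η η' : Conf d} {W : Finset (Vtx d)}
    (h : ∀ x ∈ W, ∀ j, x + ev j ∈ W → (η x j ↔ η' x j)) :
    res (G η) (W : Set (Vtx d)) = res (G η') (W : Set (Vtx d)) := by
  ext x y
  constructor
  · rintro ⟨⟨j, hj⟩, hx, hy⟩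
    have hx' : x ∈ W := hx
    have hy' : y ∈ W := hy
    refine ⟨⟨j, ?_⟩, hx, hy⟩
    rcases hj with ⟨h1, h2⟩ | ⟨h1, h2⟩
    · subst h1
      exact Or.inl ⟨rfl, (h x hx' j hy').1 h2⟩
    · subst h1
      exact Or.inr ⟨rfl, (h y hy' j hx').1 h2⟩
  · rintro ⟨⟨j, hj⟩, hx, hy⟩
    have hx' : x ∈ W := hx
    have hy' : y ∈ W := hy
    refine ⟨⟨j, ?_⟩, hx, hy⟩
    rcases hj with ⟨h1, h2⟩ | ⟨h1, h2⟩
    · subst h1
      exact Or.inl ⟨rfl, (h x hx' j hy').2 h2⟩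
    · subst h1
      exact Or.inr ⟨rfl, (h y hy' j hx').2 h2⟩

theorem GE1_conn_congr {η η' : Conf d} {W : Finset (Vtx d)}
    (h : ∀ x ∈ W, ∀ j, x + ev j ∈ W → (η x j ↔ η' x j)) (x y : Vtx d) :
    Conn η W x y ↔ Conn η' W x y := by
  unfold Conn
  rw [GE1_res_congr h]

theorem GE1_arm_congr {η η' : Conf d} {z : Vtx d} {n : ℕ}
    (h : ∀ x ∈ Lam z n, ∀ j, x + ev j ∈ Lam z n → (η x j ↔ η' x j)) (x : Vtx d) :
    Arm η z n x ↔ Arm η' z n x := by
  unfold Arm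
  simp only [GE1_conn_congr h]

/-- a good box only depends on the edges inside the box of radius `10 M` -/
theorem good_congr {η η' : Conf d} {n : ℕ} {z : Vtx d}
    (h : ∀ x ∈ Lam z (10 * n), ∀ j, x + ev j ∈ Lam z (10 * n) → (η x j ↔ η' x j)) :
    Good η n z ↔ Good η' n z := by
  have hs : ∀ k, k ≤ 10 * n → ∀ x ∈ Lam z k, ∀ j, x + ev j ∈ Lam z k → (η x j ↔ η' x j) := by
    intro k hk x hx j hy
    have hsub : Lam z k ⊆ Lam z (10 * n) := Lam_subset (by rw [dst_self]; omega)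
    exact h x (hsub hx) j (hsub hy)
  unfold Good
  simp only [GE1_arm_congr (hs (10 * n) le_rfl), GE1_arm_congr (hs (4 * n) (by omega)),
    GE1_conn_congr (hs (8 * n) (by omega))]

theorem far_congr {η η' : Conf d} {n : ℕ} {z : Vtx d}
    (h : ∀ x ∈ Lam z n, ∀ j, x + ev j ∈ Lam z n → (η x j ↔ η' x j)) :
    Far η n z ↔ Far η' n z := GE1_arm_congr h z

theorem GE1_conn_shift' {η : Conf d} {n : ℕ} {z a x y : Vtx d}
    (h : Conn (fun x j => η (x + a) j) (Lam z n) x y) :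
    Conn η (Lam (z + a) n) (x + a) (y + a) := by
  obtain ⟨h1, h2, h3⟩ := h
  have hmem : ∀ v : Vtx d, v ∈ Lam z n → v + a ∈ Lam (z + a) n := by
    intro v hv
    rw [mem_Lam] at hv ⊢
    rwa [dst_add_right]
  refine ⟨hmem _ h1, hmem _ h2, ?_⟩
  refine h3.map (G' := res (G η) ((Lam (z + a) n : Finset (Vtx d)) : Set (Vtx d)))
    ⟨fun v => v + a, ?_⟩
  rintro u v ⟨⟨j, hj⟩, hu, hv⟩
  refine ⟨⟨j, ?_⟩, hmem _ hu, hmem _ hv⟩
  rcases hj with ⟨h4, h5⟩ | ⟨h4, h5⟩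
  · refine Or.inl ⟨?_, h5⟩
    show v + a = u + a + ev j
    rw [h4]
    abel
  · refine Or.inr ⟨?_, h5⟩
    show u + a = v + a + ev j
    rw [h4]
    abel

theorem GE1_conn_shift {η : Conf d} {n : ℕ} {z a x y : Vtx d} :
    Conn (fun x j => η (x + a) j) (Lam z n) x y ↔ Conn η (Lam (z + a) n) (x + a) (y + a) := by
  refine ⟨GE1_conn_shift', fun h => ?_⟩
  have h1 : (fun x j => (fun x j => η (x + a) j) (x + -a) j) = η := by
    funext x j
    show η (x + -a + a) j = η x j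
    rw [neg_add_cancel_right]
  have h2 := GE1_conn_shift' (η := fun x j => η (x + a) j) (a := -a) (n := n) (z := z + a)
    (x := x + a) (y := y + a) (by rw [h1]; exact h)
  rwa [add_neg_cancel_right, add_neg_cancel_right, add_neg_cancel_right] at h2

theorem GE1_arm_shift {η : Conf d} {n : ℕ} {z a x : Vtx d} :
    Arm (fun x j => η (x + a) j) z n x ↔ Arm η (z + a) n (x + a) := by
  constructor
  · rintro ⟨y, hy, hc⟩
    exact ⟨y + a, by rwa [dst_add_right], GE1_conn_shift.1 hc⟩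
  · rintro ⟨y, hy, hc⟩
    refine ⟨y - a, ?_, GE1_conn_shift.2 ?_⟩
    · rw [← dst_add_right _ _ a, sub_add_cancel]
      exact hy
    · rwa [sub_add_cancel]

theorem GE1_mem_shift {n : ℕ} {z a x : Vtx d} : x + a ∈ Lam (z + a) n ↔ x ∈ Lam z n := by
  rw [mem_Lam, mem_Lam, dst_add_right]

theorem good_shift {η : Conf d} {n : ℕ} {z a : Vtx d} :
    Good (fun x j => η (x + a) j) n z ↔ Good η n (z + a) := by
  unfold Good
  refine and_congr ⟨?_, ?_⟩ ⟨?_, ?_⟩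
  · rintro ⟨x, hx, h⟩
    exact ⟨x + a, GE1_mem_shift.2 hx, GE1_arm_shift.1 h⟩
  · rintro ⟨x, hx, h⟩
    refine ⟨x - a, ?_, GE1_arm_shift.2 ?_⟩
    · rw [← GE1_mem_shift (a := a), sub_add_cancel]
      exact hx
    · rwa [sub_add_cancel]
  · intro h x hx y hy h1 h2
    have h3 := h (x - a) (by rw [← GE1_mem_shift (a := a), sub_add_cancel]; exact hx) (y - a)
      (by rw [← GE1_mem_shift (a := a), sub_add_cancel]; exact hy)
      (GE1_arm_shift.2 (by rwa [sub_add_cancel])) (GE1_arm_shift.2 (by rwa [sub_add_cancel]))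
    have h4 := GE1_conn_shift.1 h3
    rwa [sub_add_cancel, sub_add_cancel] at h4
  · intro h x hx y hy h1 h2
    exact GE1_conn_shift.2 (h (x + a) (GE1_mem_shift.2 hx) (y + a) (GE1_mem_shift.2 hy)
      (GE1_arm_shift.1 h1) (GE1_arm_shift.1 h2))

theorem far_shift {η : Conf d} {n : ℕ} {z a : Vtx d} :
    Far (fun x j => η (x + a) j) n z ↔ Far η n (z + a) := GE1_arm_shift

end Pool.Agent.Lib.MP_566bac_pr.Hd
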