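import Pool.Agent.Lib.MP_566bac_pr.Hd.DefsB
import Pool.Agent.Lib.MP_566bac_pr.Hd.EX1
import Pool.Agent.Lib.MP_566bac_pr.Hd.GE1

/-!
# GS: good environments with one edge changed
-/

open Finset
open scoped Classical

namespace Pool.Agent.Lib.MP_566bac_pr.Hd

variable {d : ℕ}

theorem GS_prj_add {N : ℕ} (x y : Vtx d) : prj N (x + y) = prj N x + prj N y := by
  funext i
  simp [prj]

theorem GS_lift_add {N : ℕ} (o : Tor N d × Fin d → Bool) (a : Vtx d) :
    (fun x j => lift o (x + a) j) = lift (fun e : Tor N d × Fin d => o (e.1 + prj N a, e.2)) := by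
  funext x j
  simp only [lift, GS_prj_add]

/-- the map from the window to the torus -/
def GS_win (N : ℕ) (n : ℕ) (z : Vtx d) (e : Win d n) : Tor N d × Fin d := (prj N (e.1.1 + z), e.2)

theorem GS_prj_inj {N : ℕ} {x y : Vtx d} (h : prj N x = prj N y) (hd : dst x y < N) : x = y := by
  funext i
  have h1 := congrFun h i
  simp only [prj] at h1
  rw [ZMod.intCast_eq_intCast_iff_dvd_sub] at h1
  have h2 := BAS_le_iff.1 (le_refl (dst x y)) i
  have h3 : y i - x i = 0 := by
    apply Int.eq_zero_of_dvd_of_natAbs_lt_natAbs h1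
    omega
  omega

theorem GS_win_inj {N n : ℕ} (h : 2 * n < N) (z : Vtx d) :
    Function.Injective (GS_win (d := d) N n z) := by
  rintro ⟨⟨x, hx⟩, j⟩ ⟨⟨y, hy⟩, k⟩ hxy
  simp only [GS_win, Prod.mk.injEq] at hxy
  rw [mem_Lam] at hx hy
  have h1 : x + z = y + z := by
    apply GS_prj_inj hxy.1
    rw [dst_add_right]
    have h2 := dst_triangle x 0 y
    rw [dst_comm 0 y] at h2
    omega
  have h3 : x = y := add_right_cancel h1
  subst h3
  rw [hxy.2]

theorem GS_good_win {N M : ℕ} (o : Tor N d × Fin d → Bool) (z : Vtx d) :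
    Good (lift o) M z ↔ Good (extW (o ∘ GS_win N (10 * M) z)) M 0 := by
  have h1 : Good (lift o) M z ↔ Good (fun x j => lift o (x + z) j) M 0 := by
    rw [good_shift, zero_add]
  rw [h1]
  apply good_congr
  intro x hx j _
  constructor
  · intro h
    exact ⟨hx, h⟩
  · rintro ⟨_, h⟩
    exact h

theorem GS_ex_bad {N M : ℕ} [NeZero N] (p : ℝ) (h : 20 * M < N) (z : Vtx d) :
    Ex p (fun o : Tor N d × Fin d → Bool => if Good (lift o) M z then (0 : ℝ) else 1) =
      pbad d p M := by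
  have h1 := Ex_comp p (GS_win (d := d) N (10 * M) z) (GS_win_inj (by omega) z)
    (fun ω => if Good (extW ω) M 0 then (0 : ℝ) else 1)
  unfold pbad
  rw [← h1]
  congr 1
  funext o
  simp only [GS_good_win (M := M) o z]

section
variable {ι : Type*} [Fintype ι]

theorem GS_Ex_sum {α : Type*} (s : Finset α) (p : ℝ) (f : α → (ι → Bool) → ℝ) :
    Ex p (fun o => ∑ x ∈ s, f x o) = ∑ x ∈ s, Ex p (f x) := by
  unfold Ex
  rw [Finset.sum_comm]
  refine Finset.sum_congr rfl fun ω _ => ?_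
  rw [Finset.mul_sum]

theorem GS_Ex_add (p : ℝ) (f g : (ι → Bool) → ℝ) :
    Ex p (fun o => f o + g o) = Ex p f + Ex p g := by
  unfold Ex
  rw [← Finset.sum_add_distrib]
  refine Finset.sum_congr rfl fun ω _ => ?_
  ring

theorem GS_Ex_nonneg {p : ℝ} (h0 : 0 ≤ p) (h1 : p ≤ 1) {f : (ι → Bool) → ℝ} (h : ∀ ω, 0 ≤ f ω) :
    0 ≤ Ex p f := by
  unfold Ex
  exact Finset.sum_nonneg fun ω _ => mul_nonneg (wt_nonneg h0 h1 ω) (h ω)

theorem GS_Ex_up [inst : DecidableEq ι] {p : ℝ} (h0 : 0 < p) (h1 : p ≤ 1) (e : ι)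
    {f : (ι → Bool) → ℝ} (h : ∀ ω, 0 ≤ f ω) : Ex p (fun ω => f (up ω e)) ≤ Ex p f / p := by
  have hi : inst = fun a b => Classical.propDecidable (a = b) := Subsingleton.elim _ _
  subst hi
  rw [le_div_iff₀ h0, mul_comm, Ex_up]
  apply Ex_mono h0.le h1
  intro ω
  split_ifs
  · exact le_rfl
  · exact h ω

theorem GS_Ex_dn [inst : DecidableEq ι] {p : ℝ} (h0 : 0 ≤ p) (h1 : p < 1) (e : ι)
    {f : (ι → Bool) → ℝ} (h : ∀ ω, 0 ≤ f ω) :
    Ex p (fun ω => f (dn ω e)) ≤ Ex p f / (1 - p) := by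
  have hi : inst = fun a b => Classical.propDecidable (a = b) := Subsingleton.elim _ _
  subst hi
  have h2 : 0 < 1 - p := by linarith
  rw [le_div_iff₀ h2, mul_comm, Ex_dn]
  apply Ex_mono h0 h1.le
  intro ω
  split_ifs
  · exact h ω
  · exact le_rfl

end

theorem GS_prj_rep {N : ℕ} [NeZero N] (x : Tor N d) : prj N (rep x) = x := by
  funext i
  simp [prj, rep]

theorem GS_goodT {N M : ℕ} [NeZero N] (o : Tor N d × Fin d → Bool)
    (h : ∀ x : Tor N d, Good (lift o) M (rep x)) : GoodT M o := by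
  intro w _
  have h1 := h (prj N w)
  have h2 : Good (fun x j => lift o (x + (w - rep (prj N w))) j) M (rep (prj N w)) := by
    rw [GS_lift_add]
    have h3 : prj N (w - rep (prj N w)) = 0 := by
      have h4 : prj N (w - rep (prj N w)) + prj N (rep (prj N w)) = prj N w := by
        rw [← GS_prj_add, sub_add_cancel]
      rw [GS_prj_rep] at h4
      exact add_eq_right.1 h4
    rw [h3]
    simpa using h1
  rw [good_shift] at h2
  simpa using h2

theorem GS_ex_goodT {N M : ℕ} [NeZero N] {p : ℝ} (h0 : 0 ≤ p) (h1 : p ≤ 1) (h : 20 * M < N) :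
    Ex p (fun o : Tor N d × Fin d → Bool => if GoodT M o then (0 : ℝ) else 1) ≤
      (N : ℝ) ^ d * pbad d p M := by
  have h2 : Ex p (fun o : Tor N d × Fin d → Bool => if GoodT M o then (0 : ℝ) else 1) ≤
      Ex p (fun o : Tor N d × Fin d → Bool =>
        ∑ x ∈ (univ : Finset (Tor N d)), if Good (lift o) M (rep x) then (0 : ℝ) else 1) := by
    apply Ex_mono h0 h1
    intro o
    have hnn : ∀ x ∈ (univ : Finset (Tor N d)),
        (0 : ℝ) ≤ if Good (lift o) M (rep x) then (0 : ℝ) else 1 := by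
      intro x _
      split_ifs <;> norm_num
    by_cases hg : GoodT M o
    · rw [if_pos hg]
      exact Finset.sum_nonneg hnn
    · rw [if_neg hg]
      have h3 : ∃ x : Tor N d, ¬ Good (lift o) M (rep x) := by
        by_contra hcon
        push Not at hcon
        exact hg (GS_goodT o hcon)
      obtain ⟨x, hx⟩ := h3
      have h4 := Finset.single_le_sum hnn (mem_univ x)
      rw [if_neg hx] at h4
      exact h4
  refine h2.trans (le_of_eq ?_)
  rw [GS_Ex_sum]
  rw [Finset.sum_congr rfl fun x _ => GS_ex_bad (d := d) p h (rep x)]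
  rw [Finset.sum_const, nsmul_eq_mul]
  congr 1
  rw [Finset.card_univ, Fintype.card_fun, ZMod.card, Fintype.card_fin]
  push_cast
  rfl

theorem GS_ex_goodS {N M : ℕ} [NeZero N] {p : ℝ} (h0 : 0 < p) (h1 : p < 1) (h : 20 * M < N) :
    Ex p (fun o : Tor N d × Fin d → Bool => if GoodS M o then (0 : ℝ) else 1) ≤
      (1 + (N : ℝ) ^ d * d * (1 / p + 1 / (1 - p))) * ((N : ℝ) ^ d * pbad d p M) := by
  set f : (Tor N d × Fin d → Bool) → ℝ := fun o => if GoodT M o then (0 : ℝ) else 1 with hf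
  have hf0 : ∀ o, 0 ≤ f o := by
    intro o
    simp only [hf]
    split_ifs <;> norm_num
  have hE := GS_ex_goodT (d := d) (N := N) (M := M) h0.le h1.le h
  have hp' : 0 < 1 - p := by linarith
  have h2 : Ex p (fun o : Tor N d × Fin d → Bool => if GoodS M o then (0 : ℝ) else 1) ≤
      Ex p (fun o => f o + ∑ e ∈ (univ : Finset (Tor N d × Fin d)), (f (up o e) + f (dn o e))) := by
    apply Ex_mono h0.le h1.le
    intro o
    have hnn : ∀ e ∈ (univ : Finset (Tor N d × Fin d)), (0 : ℝ) ≤ f (up o e) + f (dn o e) :=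
      fun e _ => add_nonneg (hf0 _) (hf0 _)
    by_cases hg : GoodS M o
    · rw [if_pos hg]
      exact add_nonneg (hf0 _) (Finset.sum_nonneg hnn)
    · rw [if_neg hg]
      by_cases hg1 : GoodT M o
      · have h3 : ∃ e, ¬ (GoodT M (up o e) ∧ GoodT M (dn o e)) := by
          by_contra hcon
          push Not at hcon
          exact hg ⟨hg1, hcon⟩
        obtain ⟨e, he⟩ := h3
        have h4 := Finset.single_le_sum hnn (mem_univ e)
        have h5 : 1 ≤ f (up o e) + f (dn o e) := by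
          by_cases h6 : GoodT M (up o e)
          · have h7 : ¬ GoodT M (dn o e) := fun h8 => he ⟨h6, h8⟩
            have h9 : f (dn o e) = 1 := by simp only [hf]; rw [if_neg h7]
            have := hf0 (up o e)
            linarith
          · have h9 : f (up o e) = 1 := by simp only [hf]; rw [if_neg h6]
            have := hf0 (dn o e)
            linarith
        have := hf0 o
        linarith
      · have h9 : f o = 1 := by simp only [hf]; rw [if_neg hg1]
        have := Finset.sum_nonneg hnn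
        linarith
  refine h2.trans ?_
  rw [GS_Ex_add, GS_Ex_sum]
  have h3 : ∀ e ∈ (univ : Finset (Tor N d × Fin d)),
      Ex p (fun o => f (up o e) + f (dn o e)) ≤ Ex p f * (1 / p + 1 / (1 - p)) := by
    intro e _
    rw [GS_Ex_add p (fun o => f (up o e)) (fun o => f (dn o e))]
    have h4 := GS_Ex_up h0 h1.le e hf0
    have h5 := GS_Ex_dn h0.le h1 e hf0
    have h6 : Ex p f * (1 / p + 1 / (1 - p)) = Ex p f / p + Ex p f / (1 - p) := by
      rw [mul_add, mul_one_div, mul_one_div]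
    rw [h6]
    exact add_le_add h4 h5
  have h7 := Finset.sum_le_sum h3
  rw [Finset.sum_const, nsmul_eq_mul] at h7
  have hcard : (((univ : Finset (Tor N d × Fin d)).card : ℕ) : ℝ) = (N : ℝ) ^ d * d := by
    rw [Finset.card_univ, Fintype.card_prod, Fintype.card_fun, ZMod.card, Fintype.card_fin]
    push_cast
    rfl
  rw [hcard] at h7
  have hEf : 0 ≤ Ex p f := GS_Ex_nonneg h0.le h1.le hf0
  have hk : 0 ≤ 1 / p + 1 / (1 - p) := by positivity
  calc Ex p f + ∑ e ∈ (univ : Finset (Tor N d × Fin d)), Ex p (fun o => f (up o e) + f (dn o e))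
      ≤ Ex p f + (N : ℝ) ^ d * d * (Ex p f * (1 / p + 1 / (1 - p))) := by linarith
    _ = (1 + (N : ℝ) ^ d * d * (1 / p + 1 / (1 - p))) * Ex p f := by ring
    _ ≤ _ := by
      apply mul_le_mul_of_nonneg_left hE
      positivity

/-! ### GS: good environments with one edge changed -/
theorem prob_goodS (hd : 1 ≤ d) {p : ℝ} (hp : 0 < p) (hp1 : p < 1) (hD : Decay d p) (A q : ℕ)
    (hA : 1 ≤ A) : ∃ C : ℝ, ∀ {N M : ℕ} [NeZero N], 1 ≤ M → N = 16 * M ^ A → 20 * M < N →
      Ex p (fun o : Tor N d × Fin d → Bool => if GoodS M o then 0 else 1) ≤ C / (M : ℝ) ^ q := by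
  obtain ⟨C, hC⟩ := hD (q + 2 * (A * d))
  refine ⟨(1 + d * (1 / p + 1 / (1 - p))) * 16 ^ (2 * d) * C, ?_⟩
  intro N M _ hM hN h20
  refine (GS_ex_goodS hp hp1 h20).trans ?_
  have hp' : 0 < 1 - p := by linarith
  have hk : 0 ≤ 1 / p + 1 / (1 - p) := by positivity
  have hM1 : (1 : ℝ) ≤ M := by exact_mod_cast hM
  have hM0 : (0 : ℝ) < M := by linarith
  have hpb0 : 0 ≤ pbad d p M := by
    unfold pbad
    apply GS_Ex_nonneg hp.le hp1.le
    intro ω
    split_ifs <;> norm_num
  have hNr : (N : ℝ) = 16 * (M : ℝ) ^ A := by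
    rw [hN]
    push_cast
    ring
  have hN1 : (1 : ℝ) ≤ (N : ℝ) ^ d := by
    apply one_le_pow₀
    rw [hNr]
    have : (1 : ℝ) ≤ (M : ℝ) ^ A := one_le_pow₀ hM1
    linarith
  have hb := hC M hM
  have h1 : (1 + (N : ℝ) ^ d * d * (1 / p + 1 / (1 - p))) ≤
      (N : ℝ) ^ d * (1 + d * (1 / p + 1 / (1 - p))) := by
    have : (N : ℝ) ^ d * (1 + d * (1 / p + 1 / (1 - p))) =
        (N : ℝ) ^ d + (N : ℝ) ^ d * d * (1 / p + 1 / (1 - p)) := by ring
    rw [this]
    linarith
  have hx : 0 ≤ (N : ℝ) ^ d * pbad d p M := by positivity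
  have hy : 0 ≤ (N : ℝ) ^ d * (1 + d * (1 / p + 1 / (1 - p))) := by positivity
  calc (1 + (N : ℝ) ^ d * d * (1 / p + 1 / (1 - p))) * ((N : ℝ) ^ d * pbad d p M)
      ≤ ((N : ℝ) ^ d * (1 + d * (1 / p + 1 / (1 - p)))) * ((N : ℝ) ^ d * pbad d p M) :=
        mul_le_mul_of_nonneg_right h1 hx
    _ ≤ ((N : ℝ) ^ d * (1 + d * (1 / p + 1 / (1 - p)))) *
        ((N : ℝ) ^ d * (C / (M : ℝ) ^ (q + 2 * (A * d)))) := by
        apply mul_le_mul_of_nonneg_left _ hy
        apply mul_le_mul_of_nonneg_left hb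
        positivity
    _ = (1 + d * (1 / p + 1 / (1 - p))) * 16 ^ (2 * d) * C / (M : ℝ) ^ q := by
        have h5 : (N : ℝ) ^ d * (N : ℝ) ^ d = 16 ^ (2 * d) * (M : ℝ) ^ (2 * (A * d)) := by
          rw [hNr, ← pow_add, ← two_mul, mul_pow, ← pow_mul]
          congr 2
          ring
        have h6 : (M : ℝ) ^ q ≠ 0 := by positivity
        have h7 : (M : ℝ) ^ (2 * (A * d)) ≠ 0 := by positivity
        generalize (1 + (d : ℝ) * (1 / p + 1 / (1 - p))) = K
        rw [pow_add]
        calc ((N : ℝ) ^ d * K) * ((N : ℝ) ^ d * (C / ((M : ℝ) ^ q * (M : ℝ) ^ (2 * (A * d)))))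
            = K * ((N : ℝ) ^ d * (N : ℝ) ^ d) * C / ((M : ℝ) ^ q * (M : ℝ) ^ (2 * (A * d))) := by ring
          _ = _ := by
            rw [h5]
            field_simp

end Pool.Agent.Lib.MP_566bac_pr.Hd
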