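import Pool.Agent.Lib.MP_566bac_pr.Hd.OP1

/-!
# Energies of dipoles and Green functions, Caccioppoli and Combes-Thomas
-/

open Finset
open scoped Classical

set_option linter.unusedSectionVars false

namespace Pool.Agent.Lib.MP_566bac_pr.Hd

section OP1
variable {X I : Type*} [Fintype X] [DecidableEq X] [Fintype I] [DecidableEq I]
variable (src tgt : I → X) {μ : ℝ} (o : I → Bool)

/-- the energy of a solution -/
theorem OP4_energy (hμ : 0 < μ) (b : X → ℝ) :
    μ * ∑ x, sol src tgt μ o b x ^ 2 +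
      ∑ e', (if o e' then gr src tgt (sol src tgt μ o b) e' ^ 2 else 0) =
        ∑ x, b x * sol src tgt μ o b x := by
  have h1 := op_form src tgt (μ := μ) o (sol src tgt μ o b) (sol src tgt μ o b)
  rw [sol_spec src tgt o hμ] at h1
  rw [h1]
  congr 1
  · congr 1
    exact Finset.sum_congr rfl fun x _ => sq _
  · refine Finset.sum_congr rfl fun e _ => ?_
    split_ifs
    · exact sq _
    · rfl

theorem dipole_energy (hμ : 0 < μ) (e : I) (he : o e = true) :
    ∑ e', (if o e' then gr src tgt (sol src tgt μ o (fun x => (if x = src e then 1 else 0) -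
      if x = tgt e then 1 else 0)) e' ^ 2 else 0) ≤ 1 := by
  set b : X → ℝ := fun x => (if x = src e then 1 else 0) - if x = tgt e then 1 else 0 with hb
  set ψ := sol src tgt μ o b with hψ
  set E := ∑ e', (if o e' then gr src tgt ψ e' ^ 2 else 0) with hE
  have h1 := OP4_energy src tgt o hμ b
  rw [← hψ, ← hE] at h1
  have h2 : ∑ x, b x * ψ x = ψ (src e) - ψ (tgt e) := by
    simp only [hb, sub_mul, ite_mul, one_mul, zero_mul]
    rw [Finset.sum_sub_distrib, Finset.sum_ite_eq', Finset.sum_ite_eq']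
    simp
  rw [h2] at h1
  have h3 : (ψ (src e) - ψ (tgt e)) ^ 2 ≤ E := by
    have h4 : (if o e then gr src tgt ψ e ^ 2 else 0) ≤ E := by
      rw [hE]
      exact Finset.single_le_sum (f := fun e' => if o e' then gr src tgt ψ e' ^ 2 else 0)
        (fun e' _ => by
          split_ifs
          · exact sq_nonneg _
          · exact le_rfl) (Finset.mem_univ e)
    rw [if_pos he] at h4
    unfold gr at h4
    nlinarith
  have h5 : 0 ≤ μ * ∑ x, ψ x ^ 2 := mul_nonneg hμ.le (Finset.sum_nonneg fun x _ => sq_nonneg _)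
  nlinarith

theorem green_energy (hμ : 0 < μ) (a : X) :
    ∑ e', (if o e' then gr src tgt (sol src tgt μ o (Pi.single a 1)) e' ^ 2 else 0) ≤
      sol src tgt μ o (Pi.single a 1) a ∧ sol src tgt μ o (Pi.single a 1) a ≤ 1 / μ := by
  set ψ := sol src tgt μ o (Pi.single a 1) with hψ
  have h1 := OP4_energy src tgt o hμ (Pi.single a 1)
  rw [← hψ] at h1
  have h2 : ∑ x, (Pi.single a 1 : X → ℝ) x * ψ x = ψ a := by
    rw [Finset.sum_eq_single a]
    · rw [Pi.single_eq_same, one_mul]
    · intro x _ hx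
      rw [Pi.single_eq_of_ne hx, zero_mul]
    · intro h
      exact absurd (Finset.mem_univ a) h
  rw [h2] at h1
  have h3 : 0 ≤ ∑ e', (if o e' then gr src tgt ψ e' ^ 2 else 0) := Finset.sum_nonneg fun e' _ => by
    split_ifs
    · exact sq_nonneg _
    · exact le_rfl
  have h4 : ψ a ^ 2 ≤ ∑ x, ψ x ^ 2 :=
    Finset.single_le_sum (f := fun x => ψ x ^ 2) (fun x _ => sq_nonneg _) (Finset.mem_univ a)
  have h5 : μ * ψ a ^ 2 ≤ μ * ∑ x, ψ x ^ 2 := mul_le_mul_of_nonneg_left h4 hμ.le
  have h6 : 0 ≤ μ * ψ a ^ 2 := mul_nonneg hμ.le (sq_nonneg _)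
  refine ⟨by linarith, ?_⟩
  rw [le_div_iff₀ hμ]
  have h7 : μ * ψ a ^ 2 ≤ ψ a := by linarith
  by_contra hcon
  push Not at hcon
  have h8 : 0 < ψ a := by
    by_contra h
    push Not at h
    nlinarith
  nlinarith

end OP1

end Pool.Agent.Lib.MP_566bac_pr.Hd
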