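import Pool.Agent.Lib.MP_566bac_pr.Hd.OP2
import Pool.Agent.Lib.MP_566bac_pr.Hd.OP4

/-!
# Small components
-/

open Finset
open scoped Classical

set_option linter.unusedSectionVars false
set_option linter.unusedVariables false

namespace Pool.Agent.Lib.MP_566bac_pr.Hd

section OP1
variable {X I : Type*} [Fintype X] [DecidableEq X] [Fintype I] [DecidableEq I]
variable (src tgt : I → X) {μ : ℝ} (o : I → Bool)

/-- the open edges of `K` -/
def OP3_res (K : Finset X) (e : I) : Bool := o e && decide (src e ∈ K)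

theorem OP3_res_iff (K : Finset X) (e : I) : OP3_res src o K e = true ↔ o e = true ∧ src e ∈ K := by
  unfold OP3_res
  rw [Bool.and_eq_true, decide_eq_true_eq]

/-- indicator -/
def OP3_ind (K : Finset X) (x : X) : ℝ := if x ∈ K then 1 else 0

theorem OP3_sum_ind (K : Finset X) (f : X → ℝ) : ∑ x, f x * OP3_ind K x = ∑ x ∈ K, f x := by
  simp only [OP3_ind, mul_ite, mul_one, mul_zero]
  rw [← Finset.sum_filter]
  congr 1
  ext x
  simp

theorem OP3_gr_ind {K : Finset X} {e : I} (h : src e ∈ K ↔ tgt e ∈ K) :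
    gr src tgt (OP3_ind K) e = 0 := by
  unfold gr OP3_ind
  by_cases h1 : src e ∈ K
  · rw [if_pos h1, if_pos (h.mp h1), sub_self]
  · rw [if_neg h1, if_neg (fun h2 => h1 (h.mpr h2)), sub_self]

theorem OP3_gr_ind_ne {K : Finset X} {e : I} (h : ¬ (src e ∈ K ↔ tgt e ∈ K)) :
    |gr src tgt (OP3_ind K) e| = 1 := by
  unfold gr OP3_ind
  by_cases h1 : src e ∈ K
  · have h2 : tgt e ∉ K := fun h2 => h ⟨fun _ => h2, fun _ => h1⟩
    rw [if_pos h1, if_neg h2]
    norm_num
  · have h2 : tgt e ∈ K := by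
      by_contra h2
      exact h ⟨fun h3 => absurd h3 h1, fun h3 => absurd h3 h2⟩
    rw [if_neg h1, if_pos h2]
    norm_num

/-- the sum of `Op f` over a closed set -/
theorem OP3_sum_op {K : Finset X} (hK : ∀ e, o e = true → (src e ∈ K ↔ tgt e ∈ K)) (f : X → ℝ) :
    ∑ x ∈ K, Op src tgt μ o f x = μ * ∑ x ∈ K, f x := by
  have h1 := op_form src tgt (μ := μ) o f (OP3_ind K)
  rw [OP3_sum_ind, OP3_sum_ind] at h1
  rw [h1]
  have h2 : ∑ e, (if o e then gr src tgt f e * gr src tgt (OP3_ind K) e else 0) = 0 := by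
    refine Finset.sum_eq_zero fun e _ => ?_
    split_ifs with h
    · rw [OP3_gr_ind src tgt (hK e h), mul_zero]
    · rfl
  rw [h2, add_zero]

theorem OP3_sum_dv {K : Finset X} (hK : ∀ e, o e = true → (src e ∈ K ↔ tgt e ∈ K)) (Y : I → ℝ) :
    ∑ x ∈ K, Dv src tgt o Y x = 0 := by
  have h1 := dv_form src tgt o Y (OP3_ind K)
  rw [OP3_sum_ind] at h1
  rw [h1]
  have h2 : ∑ e, (if o e then Y e * gr src tgt (OP3_ind K) e else 0) = 0 := by
    refine Finset.sum_eq_zero fun e _ => ?_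
    split_ifs with h
    · rw [OP3_gr_ind src tgt (hK e h), mul_zero]
    · rfl
  rw [h2, neg_zero]

theorem OP3_gr_in {K : Finset X} {e : I} (g : X → ℝ) (hs : src e ∈ K) (ht : tgt e ∈ K) :
    gr src tgt (fun x => g x * OP3_ind K x) e = gr src tgt g e := by
  change g (tgt e) * OP3_ind K (tgt e) - g (src e) * OP3_ind K (src e) = g (tgt e) - g (src e)
  unfold OP3_ind
  rw [if_pos hs, if_pos ht, mul_one, mul_one]

theorem OP3_gr_out {K : Finset X} {e : I} (g : X → ℝ) (hs : src e ∉ K) (ht : tgt e ∉ K) :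
    gr src tgt (fun x => g x * OP3_ind K x) e = 0 := by
  change g (tgt e) * OP3_ind K (tgt e) - g (src e) * OP3_ind K (src e) = 0
  unfold OP3_ind
  rw [if_neg hs, if_neg ht, mul_zero, mul_zero, sub_zero]

/-- testing on a closed set -/
theorem OP3_form {K : Finset X} (hK : ∀ e, o e = true → (src e ∈ K ↔ tgt e ∈ K)) (f g : X → ℝ) :
    ∑ x ∈ K, Op src tgt μ o f x * g x = μ * ∑ x ∈ K, f x * g x +
      ∑ e, if OP3_res src o K e then gr src tgt f e * gr src tgt g e else 0 := by
  have h1 := op_form src tgt (μ := μ) o f (fun x => g x * OP3_ind K x)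
  have h2 : ∀ F : X → ℝ, ∑ x, F x * (g x * OP3_ind K x) = ∑ x ∈ K, F x * g x := by
    intro F
    rw [← OP3_sum_ind K (fun x => F x * g x)]
    exact Finset.sum_congr rfl fun x _ => by ring
  rw [h2, h2] at h1
  rw [h1]
  congr 1
  refine Finset.sum_congr rfl fun e _ => ?_
  by_cases ho : o e = true
  · by_cases hs : src e ∈ K
    · have h3 : OP3_res src o K e = true := (OP3_res_iff src o K e).mpr ⟨ho, hs⟩
      rw [if_pos ho, if_pos h3]
      have ht := (hK e ho).mp hs
      rw [OP3_gr_in src tgt g hs ht]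
    · have h3 : ¬ OP3_res src o K e = true := fun h => hs ((OP3_res_iff src o K e).mp h).2
      rw [if_pos ho, if_neg h3]
      have ht : tgt e ∉ K := fun h => hs ((hK e ho).mpr h)
      rw [OP3_gr_out src tgt g hs ht, mul_zero]
  · have h3 : ¬ OP3_res src o K e = true := fun h => ho ((OP3_res_iff src o K e).mp h).1
    rw [if_neg ho, if_neg h3]

theorem OP3_dvform {K : Finset X} (hK : ∀ e, o e = true → (src e ∈ K ↔ tgt e ∈ K)) (Y : I → ℝ)
    (g : X → ℝ) : ∑ x ∈ K, Dv src tgt o Y x * g x =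
      -∑ e, if OP3_res src o K e then Y e * gr src tgt g e else 0 := by
  have h1 := dv_form src tgt o Y (fun x => g x * OP3_ind K x)
  have h2 : ∀ F : X → ℝ, ∑ x, F x * (g x * OP3_ind K x) = ∑ x ∈ K, F x * g x := by
    intro F
    rw [← OP3_sum_ind K (fun x => F x * g x)]
    exact Finset.sum_congr rfl fun x _ => by ring
  rw [h2] at h1
  rw [h1]
  congr 1
  refine Finset.sum_congr rfl fun e _ => ?_
  by_cases ho : o e = true
  · by_cases hs : src e ∈ K
    · have h3 : OP3_res src o K e = true := (OP3_res_iff src o K e).mpr ⟨ho, hs⟩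
      rw [if_pos ho, if_pos h3]
      have ht := (hK e ho).mp hs
      rw [OP3_gr_in src tgt g hs ht]
    · have h3 : ¬ OP3_res src o K e = true := fun h => hs ((OP3_res_iff src o K e).mp h).2
      rw [if_pos ho, if_neg h3]
      have ht : tgt e ∉ K := fun h => hs ((hK e ho).mpr h)
      rw [OP3_gr_out src tgt g hs ht, mul_zero]
  · have h3 : ¬ OP3_res src o K e = true := fun h => ho ((OP3_res_iff src o K e).mp h).1
    rw [if_neg ho, if_neg h3]

/-- a path starting in a closed set stays there -/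
theorem OP3_path {K : Finset X} (hK : ∀ e, o e = true → (src e ∈ K ↔ tgt e ∈ K)) {n : ℕ} {x y : X}
    (hx : x ∈ K) (h : PathLe src tgt o n x y) : PathLe src tgt (OP3_res src o K) n x y := by
  obtain ⟨l, hl, hc, hy⟩ := h
  refine ⟨l, hl, ?_, hy⟩
  clear hl hy
  induction l generalizing x with
  | nil => exact List.isChain_singleton _
  | cons b l ih =>
    rw [List.isChain_cons_cons] at hc ⊢
    obtain ⟨⟨e, he, h1⟩, h2⟩ := hc
    rcases h1 with h1 | h1
    · have hs : src e ∈ K := by rw [h1.1]; exact hx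
      have hb : b ∈ K := by rw [← h1.2]; exact (hK e he).mp hs
      exact ⟨⟨e, (OP3_res_iff src o K e).mpr ⟨he, hs⟩, Or.inl h1⟩, ih hb h2⟩
    · have ht : tgt e ∈ K := by rw [h1.2]; exact hx
      have hs : src e ∈ K := (hK e he).mpr ht
      have hb : b ∈ K := by rw [← h1.1]; exact hs
      exact ⟨⟨e, (OP3_res_iff src o K e).mpr ⟨he, hs⟩, Or.inr h1⟩, ih hb h2⟩

/-- the variation of a 1-Lipschitz function along a path -/
theorem OP3_lip {n : ℕ} {x y : X} (h : PathLe src tgt o n x y) (l : X → ℝ)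
    (hl : ∀ e, o e = true → |gr src tgt l e| ≤ 1) : |l y - l x| ≤ n := by
  obtain ⟨p, hp, hc, hy⟩ := h
  induction p generalizing x n with
  | nil =>
    simp only [List.getLast_singleton] at hy
    subst hy
    rw [sub_self, abs_zero]
    exact Nat.cast_nonneg _
  | cons b p ih =>
    rw [List.isChain_cons_cons] at hc
    obtain ⟨⟨e, he, h1⟩, h2⟩ := hc
    rw [List.getLast_cons (List.cons_ne_nil b p)] at hy
    rw [List.length_cons] at hp
    have h3 := ih (n := n - 1) (x := b) (by omega) h2 hy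
    have h4 : |l b - l x| ≤ 1 := by
      have h5 := hl e he
      unfold gr at h5
      rcases h1 with h1 | h1
      · rw [h1.1, h1.2] at h5; exact h5
      · rw [h1.1, h1.2, abs_sub_comm] at h5; exact h5
    have h5 : l y - l x = (l y - l b) + (l b - l x) := by ring
    rw [h5]
    refine (abs_add_le _ _).trans ?_
    have h6 : ((n - 1 : ℕ) : ℝ) = n - 1 := by
      rw [Nat.cast_sub (by omega), Nat.cast_one]
    rw [h6] at h3
    linarith

/-- a function of mean zero with small oscillation is small -/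
theorem OP3_osc {K : Finset X} {f : X → ℝ} (h0 : ∑ x ∈ K, f x = 0) {B : ℝ}
    (hB : ∀ x ∈ K, ∀ y ∈ K, |f y - f x| ≤ B) {x : X} (hx : x ∈ K) : |f x| ≤ B := by
  have h1 : ∑ y ∈ K, (f x - f y) = K.card * f x := by
    rw [Finset.sum_sub_distrib, h0, sub_zero, Finset.sum_const, nsmul_eq_mul]
  have h2 : |∑ y ∈ K, (f x - f y)| ≤ K.card * B := by
    refine (Finset.abs_sum_le_sum_abs _ _).trans ?_
    rw [← nsmul_eq_mul]
    exact Finset.sum_le_card_nsmul _ _ _ fun y hy => hB y hy x hx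
  rw [h1, abs_mul, Nat.abs_cast] at h2
  have h3 : (0 : ℝ) < K.card := by exact_mod_cast Finset.card_pos.mpr ⟨x, hx⟩
  exact le_of_mul_le_mul_left h2 h3

/-! ### OP3: small components -/
/-- the sum over a set closed except for one edge -/
theorem OP3_flip (hμ : 0 < μ) (e : I) (K : Finset X)
    (hK : ∀ e', dn o e e' = true → (src e' ∈ K ↔ tgt e' ∈ K)) (f : X → ℝ) :
    ∑ x ∈ K, Op src tgt μ (up o e) f x =
      μ * ∑ x ∈ K, f x + gr src tgt f e * gr src tgt (OP3_ind K) e := by
  have h1 : ∀ x, Op src tgt μ (up o e) f x =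
      Op src tgt μ (dn o e) f x + gr src tgt f e * OP2_v src tgt e x := OP2_op src tgt o e f
  rw [Finset.sum_congr rfl fun x _ => h1 x, Finset.sum_add_distrib, OP3_sum_op src tgt (dn o e) hK,
    ← Finset.mul_sum, ← OP3_sum_ind K (OP2_v src tgt e), ← OP2_pair src tgt e (OP3_ind K)]
  congr 2
  exact Finset.sum_congr rfl fun x _ => mul_comm _ _

/-- If `K` is closed under the open edges of `dn o e`, contains exactly one end of `e`. -/
theorem flip_small_lin (hμ : 0 < μ) (e : I) (K : Finset X)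
    (hK : ∀ e', dn o e e' = true → (src e' ∈ K ↔ tgt e' ∈ K))
    (he : ¬ (src e ∈ K ↔ tgt e ∈ K)) (χ : X → ℝ) :
    |gr src tgt (sol src tgt μ (up o e) χ) e| ≤
      |∑ x ∈ K, χ x| + μ * ∑ x ∈ K, |sol src tgt μ (up o e) χ x| := by
  have h1 := OP3_flip src tgt o hμ e K hK (sol src tgt μ (up o e) χ)
  rw [sol_spec src tgt (up o e) hμ] at h1
  have h2 := OP3_gr_ind_ne src tgt he
  set w := sol src tgt μ (up o e) χ with hw
  have h3 : |gr src tgt w e| = |gr src tgt w e * gr src tgt (OP3_ind K) e| := by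
    rw [abs_mul, h2, mul_one]
  have h4 : gr src tgt w e * gr src tgt (OP3_ind K) e = ∑ x ∈ K, χ x - μ * ∑ x ∈ K, w x := by
    linarith
  rw [h3, h4]
  refine (abs_sub _ _).trans ?_
  rw [abs_mul, abs_of_pos hμ]
  exact add_le_add_right (mul_le_mul_of_nonneg_left (Finset.abs_sum_le_sum_abs _ _) hμ.le) _

theorem flip_small_quad (hμ : 0 < μ) (e : I) (K : Finset X)
    (hK : ∀ e', dn o e e' = true → (src e' ∈ K ↔ tgt e' ∈ K))
    (he : ¬ (src e ∈ K ↔ tgt e ∈ K)) (Y : I → ℝ) :
    |Zf src tgt μ (up o e) Y e| ≤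
      μ * |∑ x ∈ K, sol src tgt μ (up o e) (Dv src tgt (up o e) Y) x| := by
  have h1 := OP3_flip src tgt o hμ e K hK (sol src tgt μ (up o e) (Dv src tgt (up o e) Y))
  rw [sol_spec src tgt (up o e) hμ] at h1
  have h2 := OP3_gr_ind_ne src tgt he
  have h5 : ∑ x ∈ K, Dv src tgt (up o e) Y x = -(Y e * gr src tgt (OP3_ind K) e) := by
    rw [Finset.sum_congr rfl fun x _ => OP2_dv src tgt o e Y x, Finset.sum_sub_distrib,
      OP3_sum_dv src tgt (dn o e) hK, ← Finset.mul_sum, ← OP3_sum_ind K (OP2_v src tgt e),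
      ← OP2_pair src tgt e (OP3_ind K), zero_sub]
    congr 2
    exact Finset.sum_congr rfl fun x _ => mul_comm _ _
  rw [h5] at h1
  set w := sol src tgt μ (up o e) (Dv src tgt (up o e) Y) with hw
  have h6 : Zf src tgt μ (up o e) Y e = Y e + gr src tgt w e := rfl
  have h3 : |Zf src tgt μ (up o e) Y e| =
      |Zf src tgt μ (up o e) Y e * gr src tgt (OP3_ind K) e| := by
    rw [abs_mul, h2, mul_one]
  have h4 : Zf src tgt μ (up o e) Y e * gr src tgt (OP3_ind K) e = -(μ * ∑ x ∈ K, w x) := by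
    rw [h6]
    linear_combination (-1 : ℝ) * h1
  rw [h3, h4, abs_neg, abs_mul, abs_of_pos hμ]

/-- number of the open edges of `K` -/
theorem OP3_card (K : Finset X) (D : ℕ)
    (hdeg : ∀ x, (Finset.univ.filter fun e => src e = x ∨ tgt e = x).card ≤ D) (Y : I → ℝ)
    (hY : ∀ e, |Y e| ≤ 1) :
    ∑ e, (if OP3_res src o K e then Y e ^ 2 else 0) ≤ D * K.card := by
  have h1 : ∑ e, (if OP3_res src o K e then Y e ^ 2 else 0) ≤
      ∑ e, (∑ x ∈ K, if src e = x then (1 : ℝ) else 0) := by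
    refine Finset.sum_le_sum fun e _ => ?_
    split_ifs with h
    · rw [OP3_res_iff] at h
      rw [Finset.sum_ite_eq, if_pos h.2]
      have := hY e
      rw [sq_le_one_iff_abs_le_one]
      exact this
    · exact Finset.sum_nonneg fun x _ => by split_ifs <;> norm_num
  refine h1.trans ?_
  rw [Finset.sum_comm]
  have h2 : ∀ x ∈ K, ∑ e, (if src e = x then (1 : ℝ) else 0) ≤ D := by
    intro x _
    rw [Finset.sum_boole]
    have h3 : (Finset.univ.filter fun e => src e = x).card ≤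
        (Finset.univ.filter fun e => src e = x ∨ tgt e = x).card := by
      refine Finset.card_le_card fun e he => ?_
      rw [Finset.mem_filter] at he ⊢
      exact ⟨he.1, Or.inl he.2⟩
    exact_mod_cast h3.trans (hdeg x)
  refine (Finset.sum_le_card_nsmul _ _ _ h2).trans ?_
  rw [nsmul_eq_mul, mul_comm]

theorem OP3_energy (hμ : 0 < μ) {K : Finset X} (hK : ∀ e, o e = true → (src e ∈ K ↔ tgt e ∈ K))
    (Y : I → ℝ) :
    ∑ e, (if OP3_res src o K e then gr src tgt (sol src tgt μ o (Dv src tgt o Y)) e ^ 2 else 0) ≤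
      ∑ e, (if OP3_res src o K e then Y e ^ 2 else 0) := by
  set f := sol src tgt μ o (Dv src tgt o Y) with hf
  have h1 := OP3_form src tgt (μ := μ) o hK f f
  have h2 := OP3_dvform src tgt o hK Y f
  rw [hf, sol_spec src tgt o hμ, ← hf, h2] at h1
  have h3 : 0 ≤ μ * ∑ x ∈ K, f x * f x :=
    mul_nonneg hμ.le (Finset.sum_nonneg fun x _ => mul_self_nonneg _)
  have h4 : 0 ≤ ∑ e, (if OP3_res src o K e then (Y e + gr src tgt f e) ^ 2 else 0) :=
    Finset.sum_nonneg fun e _ => by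
      split_ifs
      · exact sq_nonneg _
      · exact le_rfl
  have h5 : ∑ e, (if OP3_res src o K e then (Y e + gr src tgt f e) ^ 2 else 0) =
      ∑ e, (if OP3_res src o K e then Y e ^ 2 else 0) +
        2 * ∑ e, (if OP3_res src o K e then Y e * gr src tgt f e else 0) +
        ∑ e, (if OP3_res src o K e then gr src tgt f e * gr src tgt f e else 0) := by
    rw [Finset.mul_sum, ← Finset.sum_add_distrib, ← Finset.sum_add_distrib]
    refine Finset.sum_congr rfl fun e _ => ?_
    split_ifs <;> ring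
  have h6 : ∑ e, (if OP3_res src o K e then gr src tgt f e ^ 2 else 0) =
      ∑ e, (if OP3_res src o K e then gr src tgt f e * gr src tgt f e else 0) :=
    Finset.sum_congr rfl fun e _ => by rw [sq]
  rw [h6]
  linarith

theorem OP3_mean (hμ : 0 < μ) {K : Finset X} (hK : ∀ e, o e = true → (src e ∈ K ↔ tgt e ∈ K))
    {b : X → ℝ} (hb : ∑ x ∈ K, b x = 0) : ∑ x ∈ K, sol src tgt μ o b x = 0 := by
  have h1 := OP3_sum_op src tgt (μ := μ) o hK (sol src tgt μ o b)
  rw [sol_spec src tgt o hμ, hb] at h1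
  rcases mul_eq_zero.mp h1.symm with h | h
  · exact absurd h hμ.ne'
  · exact h

/-- bounds for solutions on a small component -/
theorem small_comp (hμ : 0 < μ) (K : Finset X) (hK : ∀ e, o e = true → (src e ∈ K ↔ tgt e ∈ K))
    (hconn : ∀ x ∈ K, ∀ y ∈ K, PathLe src tgt o K.card x y) (D : ℕ)
    (hdeg : ∀ x, (Finset.univ.filter fun e => src e = x ∨ tgt e = x).card ≤ D) (Y : I → ℝ)
    (hY : ∀ e, |Y e| ≤ 1) :
    ∀ x ∈ K, |sol src tgt μ o (Dv src tgt o Y) x| ≤ D * K.card := by
  set f := sol src tgt μ o (Dv src tgt o Y) with hf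
  have h0 : ∑ x ∈ K, f x = 0 := OP3_mean src tgt o hμ hK (OP3_sum_dv src tgt o hK Y)
  intro x hx
  refine OP3_osc h0 (fun x hx y hy => ?_) hx
  have h1 := OP2_path_sq src tgt (OP3_res src o K) (OP3_path src tgt o hK hx (hconn x hx y hy)) f
  have h2 := (OP3_energy src tgt o hμ hK Y).trans (OP3_card src tgt o K D hdeg Y hY)
  rw [← hf] at h2
  have h3 : (f y - f x) ^ 2 ≤ (D * K.card : ℝ) ^ 2 := by
    refine h1.trans ((mul_le_mul_of_nonneg_left h2 (Nat.cast_nonneg _)).trans ?_)
    have h4 : (D : ℝ) ≤ D ^ 2 := by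
      have : D ≤ D ^ 2 := Nat.le_self_pow (by norm_num) D
      exact_mod_cast this
    have h5 : (0 : ℝ) ≤ (K.card : ℝ) ^ 2 := sq_nonneg _
    nlinarith [mul_le_mul_of_nonneg_right h4 h5]
  exact abs_le_of_sq_le_sq h3 (by positivity)

theorem small_comp_energy (hμ : 0 < μ) (K : Finset X)
    (hK : ∀ e, o e = true → (src e ∈ K ↔ tgt e ∈ K))
    (hconn : ∀ x ∈ K, ∀ y ∈ K, PathLe src tgt o K.card x y) (D : ℕ)
    (hdeg : ∀ x, (Finset.univ.filter fun e => src e = x ∨ tgt e = x).card ≤ D) (Y : I → ℝ)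
    (hY : ∀ e, |Y e| ≤ 1) (l : X → ℝ)
    (hl : ∀ e, o e = true → src e ∈ K → Y e = gr src tgt l e) :
    ∑ e, (if o e ∧ src e ∈ K then Zf src tgt μ o Y e ^ 2 else 0) ≤
      μ * (D * (K.card : ℝ) ^ 3) := by
  rcases K.eq_empty_or_nonempty with hKe | ⟨x0, hx0⟩
  · rw [hKe]
    simp
  have hsc := small_comp src tgt o hμ K hK hconn D hdeg Y hY
  set f := sol src tgt μ o (Dv src tgt o Y) with hf
  have h0 : ∑ x ∈ K, f x = 0 := OP3_mean src tgt o hμ hK (OP3_sum_dv src tgt o hK Y)
  have hS : ∑ e, (if o e ∧ src e ∈ K then Zf src tgt μ o Y e ^ 2 else 0) =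
      ∑ e, (if OP3_res src o K e then Zf src tgt μ o Y e ^ 2 else 0) := by
    refine Finset.sum_congr rfl fun e _ => ?_
    by_cases h : o e = true ∧ src e ∈ K
    · rw [if_pos h, if_pos ((OP3_res_iff src o K e).mpr h)]
    · rw [if_neg h, if_neg (fun h2 => h ((OP3_res_iff src o K e).mp h2))]
  -- testing with `l` and with `f`
  have htest : ∀ g : X → ℝ, ∑ e, (if OP3_res src o K e then
      Zf src tgt μ o Y e * gr src tgt g e else 0) = -(μ * ∑ x ∈ K, f x * g x) := by
    intro g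
    have h1 := OP3_form src tgt (μ := μ) o hK f g
    have h2 := OP3_dvform src tgt o hK Y g
    rw [hf, sol_spec src tgt o hμ, ← hf, h2] at h1
    have h3 : ∑ e, (if OP3_res src o K e then Zf src tgt μ o Y e * gr src tgt g e else 0) =
        ∑ e, (if OP3_res src o K e then Y e * gr src tgt g e else 0) +
          ∑ e, (if OP3_res src o K e then gr src tgt f e * gr src tgt g e else 0) := by
      rw [← Finset.sum_add_distrib]
      refine Finset.sum_congr rfl fun e _ => ?_
      unfold Zf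
      rw [← hf]
      split_ifs <;> ring
    rw [h3]
    linarith
  have h1 : ∑ e, (if OP3_res src o K e then Zf src tgt μ o Y e ^ 2 else 0) =
      ∑ e, (if OP3_res src o K e then Zf src tgt μ o Y e * gr src tgt l e else 0) +
        ∑ e, (if OP3_res src o K e then Zf src tgt μ o Y e * gr src tgt f e else 0) := by
    rw [← Finset.sum_add_distrib]
    refine Finset.sum_congr rfl fun e _ => ?_
    split_ifs with h
    · rw [OP3_res_iff] at h
      have h2 : Zf src tgt μ o Y e = Y e + gr src tgt f e := rfl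
      rw [← hl e h.1 h.2, ← mul_add, ← h2, sq]
    · rw [add_zero]
  rw [hS, h1, htest, htest]
  have h2 : 0 ≤ μ * ∑ x ∈ K, f x * f x :=
    mul_nonneg hμ.le (Finset.sum_nonneg fun x _ => mul_self_nonneg _)
  have h3 : ∑ x ∈ K, f x * l x = ∑ x ∈ K, f x * (l x - l x0) := by
    have h4 : ∑ x ∈ K, f x * (l x - l x0) = ∑ x ∈ K, f x * l x - (∑ x ∈ K, f x) * l x0 := by
      rw [Finset.sum_mul, ← Finset.sum_sub_distrib]
      exact Finset.sum_congr rfl fun x _ => by ring
    rw [h4, h0, zero_mul, sub_zero]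
  have h4 : -∑ x ∈ K, f x * l x ≤ D * (K.card : ℝ) ^ 3 := by
    rw [h3]
    refine (neg_le_abs _).trans ((Finset.abs_sum_le_sum_abs _ _).trans ?_)
    have h5 : ∀ x ∈ K, |f x * (l x - l x0)| ≤ (D * K.card : ℝ) * K.card := by
      intro x hx
      rw [abs_mul]
      refine mul_le_mul (hsc x hx) ?_ (abs_nonneg _) (by positivity)
      refine OP3_lip src tgt (OP3_res src o K) (OP3_path src tgt o hK hx0 (hconn x0 hx0 x hx)) l ?_
      intro e he
      rw [OP3_res_iff] at he
      rw [← hl e he.1 he.2]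
      exact hY e
    refine (Finset.sum_le_card_nsmul _ _ _ h5).trans (le_of_eq ?_)
    rw [nsmul_eq_mul]
    ring
  have h5 := mul_le_mul_of_nonneg_left h4 hμ.le
  have h6 : μ * -∑ x ∈ K, f x * l x = -(μ * ∑ x ∈ K, f x * l x) := by ring
  rw [h6] at h5
  linarith

/-- the dipole potential of an edge of a small component -/
theorem small_comp_dipole (hμ : 0 < μ) (K : Finset X)
    (hK : ∀ e, o e = true → (src e ∈ K ↔ tgt e ∈ K))
    (hconn : ∀ x ∈ K, ∀ y ∈ K, PathLe src tgt o K.card x y) {a b : X} (ha : a ∈ K) (hb : b ∈ K) :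
    (∀ x, x ∉ K → sol src tgt μ o (fun x => (if x = a then 1 else 0) - if x = b then 1 else 0) x = 0) ∧
    ∑ x, sol src tgt μ o (fun x => (if x = a then 1 else 0) - if x = b then 1 else 0) x ^ 2 ≤
      2 * (K.card : ℝ) ^ 4 := by
  set β : X → ℝ := fun x => (if x = a then 1 else 0) - if x = b then 1 else 0 with hβ
  set ψ := sol src tgt μ o β with hψ
  have hsupp : ∀ x, x ∉ K → ψ x = 0 := by
    have hK' : ∀ e, o e = true → (src e ∈ Kᶜ ↔ tgt e ∈ Kᶜ) := by
      intro e he
      rw [Finset.mem_compl, Finset.mem_compl]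
      exact not_congr (hK e he)
    have h1 := OP3_form src tgt (μ := μ) o hK' ψ ψ
    rw [hψ, sol_spec src tgt o hμ, ← hψ] at h1
    have h2 : ∑ x ∈ Kᶜ, β x * ψ x = 0 := by
      refine Finset.sum_eq_zero fun x hx => ?_
      rw [Finset.mem_compl] at hx
      have h3 : x ≠ a := fun h => hx (h ▸ ha)
      have h4 : x ≠ b := fun h => hx (h ▸ hb)
      simp only [hβ]
      rw [if_neg h3, if_neg h4, sub_zero, zero_mul]
    rw [h2] at h1
    have h3 : 0 ≤ ∑ e, (if OP3_res src o Kᶜ e then gr src tgt ψ e * gr src tgt ψ e else 0) :=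
      Finset.sum_nonneg fun e _ => by
        split_ifs
        · exact mul_self_nonneg _
        · exact le_rfl
    have h4 : 0 ≤ ∑ x ∈ Kᶜ, ψ x * ψ x := Finset.sum_nonneg fun x _ => mul_self_nonneg _
    have h5 : ∑ x ∈ Kᶜ, ψ x * ψ x = 0 := by
      by_contra h
      have := mul_pos hμ (lt_of_le_of_ne h4 (Ne.symm h))
      linarith
    rw [Finset.sum_eq_zero_iff_of_nonneg fun x _ => mul_self_nonneg _] at h5
    intro x hx
    exact mul_self_eq_zero.mp (h5 x (Finset.mem_compl.mpr hx))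
  refine ⟨hsupp, ?_⟩
  have hmean : ∑ x ∈ K, ψ x = 0 := by
    refine OP3_mean src tgt o hμ hK ?_
    simp only [hβ]
    rw [Finset.sum_sub_distrib, Finset.sum_ite_eq', Finset.sum_ite_eq', if_pos ha, if_pos hb,
      sub_self]
  set S := ∑ e', (if o e' then gr src tgt ψ e' ^ 2 else 0) with hS
  have h1 := OP4_energy src tgt o hμ β
  rw [← hψ, ← hS] at h1
  have h2 : ∑ x, β x * ψ x = ψ a - ψ b := by
    simp only [hβ, sub_mul, ite_mul, one_mul, zero_mul]
    rw [Finset.sum_sub_distrib, Finset.sum_ite_eq', Finset.sum_ite_eq']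
    simp
  rw [h2] at h1
  have h3 : 0 ≤ μ * ∑ x, ψ x ^ 2 := mul_nonneg hμ.le (Finset.sum_nonneg fun x _ => sq_nonneg _)
  have hS0 : 0 ≤ S := Finset.sum_nonneg fun e' _ => by
    split_ifs
    · exact sq_nonneg _
    · exact le_rfl
  have hpath : ∀ x ∈ K, ∀ y ∈ K, (ψ y - ψ x) ^ 2 ≤ K.card * S := fun x hx y hy =>
    OP2_path_sq src tgt o (hconn x hx y hy) ψ
  have hSK : S ≤ K.card := by
    have h4 := hpath b hb a ha
    have h5 : S ≤ ψ a - ψ b := by linarith
    rcases hS0.eq_or_lt with h6 | h6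
    · rw [← h6]; exact Nat.cast_nonneg _
    · by_contra hcon
      push Not at hcon
      nlinarith
  have hK1 : (1 : ℝ) ≤ K.card := by exact_mod_cast Finset.card_pos.mpr ⟨a, ha⟩
  have hbd : ∀ x ∈ K, |ψ x| ≤ K.card := by
    intro x hx
    refine OP3_osc hmean (fun x hx y hy => ?_) hx
    refine abs_le_of_sq_le_sq ?_ (by positivity)
    refine (hpath x hx y hy).trans ?_
    rw [sq]
    exact mul_le_mul_of_nonneg_left hSK (by positivity)
  have hsum : ∑ x, ψ x ^ 2 = ∑ x ∈ K, ψ x ^ 2 := by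
    symm
    refine Finset.sum_subset (Finset.subset_univ K) fun x _ hx => ?_
    rw [hsupp x hx]
    norm_num
  rw [hsum]
  have h5 : ∀ x ∈ K, ψ x ^ 2 ≤ (K.card : ℝ) ^ 2 := fun x hx =>
    sq_le_sq' (abs_le.mp (hbd x hx)).1 (abs_le.mp (hbd x hx)).2
  refine (Finset.sum_le_card_nsmul _ _ _ h5).trans ?_
  rw [nsmul_eq_mul]
  have h6 : (K.card : ℝ) * (K.card : ℝ) ^ 2 ≤ (K.card : ℝ) ^ 4 := by
    have h7 : (K.card : ℝ) ^ 4 = (K.card : ℝ) * (K.card : ℝ) ^ 2 * K.card := by ring
    rw [h7]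
    exact le_mul_of_one_le_right (by positivity) hK1
  have h7 : (0 : ℝ) ≤ (K.card : ℝ) ^ 4 := by positivity
  linarith

/-- the Green function of a vertex of a small component -/
theorem small_comp_green (hμ : 0 < μ) (K : Finset X)
    (hK : ∀ e, o e = true → (src e ∈ K ↔ tgt e ∈ K)) {a : X} (ha : a ∈ K) :
    ∑ x, sol src tgt μ o (Pi.single a 1) x ^ 2 ≤ 1 / μ ^ 2 := by
  set ψ := sol src tgt μ o (Pi.single a 1) with hψ
  have h1 : μ * ∑ x, ψ x = 1 := by
    rw [hψ, sol_sum src tgt o hμ]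
    exact Finset.sum_pi_single' a 1 Finset.univ |>.trans (by simp)
  have h2 : ∀ x, 0 ≤ ψ x := fun x => sol_nonneg src tgt o hμ (fun y => by
    by_cases h : y = a
    · subst h; rw [Pi.single_eq_same]; norm_num
    · rw [Pi.single_eq_of_ne h]) x
  have h3 : ∑ x, ψ x = 1 / μ := by
    field_simp
    linarith
  have h4 : ∑ x, ψ x ^ 2 ≤ (∑ x, ψ x) ^ 2 := Finset.sum_sq_le_sq_sum_of_nonneg fun x _ => h2 x
  refine h4.trans (le_of_eq ?_)
  rw [h3, div_pow, one_pow]

end OP1

end Pool.Agent.Lib.MP_566bac_pr.Hd
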