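import Pool.Agent.Lib.MP_566bac_pr.Hd.DefsB
import Pool.Agent.Lib.MP_566bac_pr.Hd.OP1

/-!
# Translations of the torus
-/

open Finset
open scoped Classical

namespace Pool.Agent.Lib.MP_566bac_pr.Hd

variable {d : ℕ}

/-- the translation of the edges -/
def SY1_tr {N : ℕ} (a : Tor N d) : Tor N d × Fin d ≃ Tor N d × Fin d :=
  (Equiv.addRight a).prodCongr (Equiv.refl _)

theorem SY1_tr_apply {N : ℕ} (a : Tor N d) (e : Tor N d × Fin d) :
    SY1_tr a e = (e.1 + a, e.2) := rfl

theorem SY1_gr {N : ℕ} (a : Tor N d) (f : Tor N d → ℝ) (e : Tor N d × Fin d) :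
    gr tsrc ttgt (fun y => f (y + a)) e = gr tsrc ttgt f (SY1_tr a e) := by
  unfold gr tsrc ttgt
  rw [SY1_tr_apply]
  simp only
  congr 2
  abel

theorem SY1_Op {N : ℕ} [NeZero N] {μ : ℝ} (o : Tor N d × Fin d → Bool) (a : Tor N d)
    (f : Tor N d → ℝ) (x : Tor N d) :
    Op tsrc ttgt μ (fun e => o (e.1 + a, e.2)) (fun y => f (y + a)) x =
      Op tsrc ttgt μ o f (x + a) := by
  unfold Op
  congr 1
  rw [← (SY1_tr a).sum_comp (fun e => if o e then
    ((if ttgt e = x + a then gr tsrc ttgt f e else 0) -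
      (if tsrc e = x + a then gr tsrc ttgt f e else 0)) else 0)]
  refine Finset.sum_congr rfl fun e _ => ?_
  rw [SY1_gr]
  have h1 : ttgt (SY1_tr a e) = x + a ↔ ttgt e = x := by
    rw [SY1_tr_apply]
    unfold ttgt
    simp only
    rw [add_right_comm, add_left_inj]
  have h2 : tsrc (SY1_tr a e) = x + a ↔ tsrc e = x := by
    rw [SY1_tr_apply]
    unfold tsrc
    simp only [add_left_inj]
  simp only [h1, h2]
  rfl

theorem SY1_Dv {N : ℕ} [NeZero N] (o : Tor N d × Fin d → Bool) (a : Tor N d)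
    (i : Fin d) (x : Tor N d) :
    Dv tsrc ttgt (fun e => o (e.1 + a, e.2)) (xi i) x = Dv tsrc ttgt o (xi i) (x + a) := by
  unfold Dv
  rw [← (SY1_tr a).sum_comp (fun e => if o e then
    ((if tsrc e = x + a then xi i e else 0) - (if ttgt e = x + a then xi i e else 0)) else 0)]
  refine Finset.sum_congr rfl fun e _ => ?_
  have h1 : ttgt (SY1_tr a e) = x + a ↔ ttgt e = x := by
    rw [SY1_tr_apply]
    unfold ttgt
    simp only
    rw [add_right_comm, add_left_inj]
  have h2 : tsrc (SY1_tr a e) = x + a ↔ tsrc e = x := by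
    rw [SY1_tr_apply]
    unfold tsrc
    simp only [add_left_inj]
  simp only [h1, h2]
  rfl

theorem phi_shift {N : ℕ} [NeZero N] {μ : ℝ} (hμ : 0 < μ) (o : Tor N d × Fin d → Bool) (i : Fin d)
    (a x : Tor N d) : phi μ (fun e => o (e.1 + a, e.2)) i x = phi μ o i (x + a) := by
  have h : (fun y => phi μ o i (y + a)) = phi μ (fun e => o (e.1 + a, e.2)) i := by
    refine sol_unique tsrc ttgt _ hμ ?_
    funext y
    rw [SY1_Op, SY1_Dv]
    unfold phi
    rw [sol_spec tsrc ttgt o hμ]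
  exact (congrFun h x).symm

theorem flux_shift {N : ℕ} [NeZero N] {μ : ℝ} (hμ : 0 < μ) (o : Tor N d × Fin d → Bool)
    (i j : Fin d) (a x : Tor N d) :
    flux μ (fun e => o (e.1 + a, e.2)) i j x = flux μ o i j (x + a) := by
  have h := phi_shift hμ o i a
  unfold flux Zf gr
  have h1 := h (ttgt (x, j))
  have h2 := h (tsrc (x, j))
  unfold phi at h1 h2
  rw [h1, h2]
  unfold ttgt tsrc xi
  simp only
  rw [add_right_comm x (tev j) a]

theorem Ex_shift {N : ℕ} [NeZero N] (p : ℝ) (f : (Tor N d × Fin d → Bool) → ℝ) (a : Tor N d) :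
    Ex p (fun o => f (fun e => o (e.1 + a, e.2))) = Ex p f := by
  unfold Ex
  let E : (Tor N d × Fin d → Bool) ≃ (Tor N d × Fin d → Bool) :=
    (SY1_tr a).symm.arrowCongr (Equiv.refl Bool)
  have hE : ∀ o : Tor N d × Fin d → Bool, E o = fun e => o (e.1 + a, e.2) := fun o => rfl
  refine Finset.sum_equiv E (fun o => by simp only [mem_univ]) fun o _ => ?_
  rw [hE]
  congr 1
  unfold wt
  exact ((SY1_tr a).prod_comp (fun e => if o e then p else 1 - p)).symm

end Pool.Agent.Lib.MP_566bac_pr.Hd
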