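import Pool.Agent.Lib.MP_566bac_pr.Hd.VG
import Pool.Agent.Lib.MP_566bac_pr.Hd.SY1

/-!
# SY2: means
-/

open Finset MeasureTheory ProbabilityTheory Filter
open scoped Classical

namespace Pool.Agent.Lib.MP_566bac_pr.Hd

variable {d : ℕ}

namespace SY2

section gen
variable {X I : Type*} [Fintype X] [DecidableEq X] [Fintype I] [DecidableEq I]

/-- symmetry of a graph with numbered edges -/
def Sym (src tgt : I → X) (σ : X ≃ X) (ρ : I ≃ I) (ε : I → ℝ) : Prop :=
  ∀ e, (ε e = 1 ∧ src (ρ e) = σ (src e) ∧ tgt (ρ e) = σ (tgt e)) ∨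
    (ε e = -1 ∧ src (ρ e) = σ (tgt e) ∧ tgt (ρ e) = σ (src e))

variable {src tgt : I → X} {σ : X ≃ X} {ρ : I ≃ I} {ε : I → ℝ} {μ : ℝ}

omit [Fintype X] [DecidableEq X] [Fintype I] [DecidableEq I] in
theorem gr_sym (H : Sym src tgt σ ρ ε) (f : X → ℝ) (e : I) :
    gr src tgt (f ∘ σ) e = ε e * gr src tgt f (ρ e) := by
  unfold gr
  rcases H e with ⟨h1, h2, h3⟩ | ⟨h1, h2, h3⟩
  · rw [h1, h2, h3]
    simp
  · rw [h1, h2, h3]
    simp

omit [Fintype X] [DecidableEq I] in
theorem Op_sym (H : Sym src tgt σ ρ ε) (o : I → Bool) (f : X → ℝ) (x : X) :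
    Op src tgt μ (o ∘ ρ) (f ∘ σ) x = Op src tgt μ o f (σ x) := by
  unfold Op
  rw [← ρ.sum_comp (fun e => if o e then
    ((if tgt e = σ x then gr src tgt f e else 0) - (if src e = σ x then gr src tgt f e else 0))
      else 0)]
  congr 1
  refine Finset.sum_congr rfl fun e _ => ?_
  rw [gr_sym H]
  rcases H e with ⟨h1, h2, h3⟩ | ⟨h1, h2, h3⟩
  · rw [h1, h2, h3]
    simp only [Function.comp, σ.injective.eq_iff, one_mul]
  · rw [h1, h2, h3]
    simp only [Function.comp, σ.injective.eq_iff]
    split_ifs <;> ring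

omit [Fintype X] [DecidableEq I] in
theorem Dv_sym (H : Sym src tgt σ ρ ε) (o : I → Bool) (Y : I → ℝ) (x : X) :
    Dv src tgt (o ∘ ρ) (fun e => ε e * Y (ρ e)) x = Dv src tgt o Y (σ x) := by
  unfold Dv
  rw [← ρ.sum_comp (fun e => if o e then
    ((if src e = σ x then Y e else 0) - (if tgt e = σ x then Y e else 0)) else 0)]
  refine Finset.sum_congr rfl fun e _ => ?_
  rcases H e with ⟨h1, h2, h3⟩ | ⟨h1, h2, h3⟩
  · rw [h2, h3]
    simp only [Function.comp, σ.injective.eq_iff, h1, one_mul]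
  · rw [h2, h3]
    simp only [Function.comp, σ.injective.eq_iff, h1]
    split_ifs <;> ring

theorem Zf_sym (hμ : 0 < μ) (H : Sym src tgt σ ρ ε) (o : I → Bool) (Y : I → ℝ) (e : I) :
    Zf src tgt μ (o ∘ ρ) (fun e => ε e * Y (ρ e)) e = ε e * Zf src tgt μ o Y (ρ e) := by
  have h : (sol src tgt μ o (Dv src tgt o Y)) ∘ σ =
      sol src tgt μ (o ∘ ρ) (Dv src tgt (o ∘ ρ) (fun e => ε e * Y (ρ e))) := by
    refine sol_unique src tgt _ hμ ?_
    funext x
    rw [Op_sym H, Dv_sym H, sol_spec src tgt o hμ]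
  unfold Zf
  rw [← h, gr_sym H, mul_add]

theorem Zf_neg (hμ : 0 < μ) (o : I → Bool) (Y : I → ℝ) (e : I) :
    Zf src tgt μ o (fun e => -Y e) e = -Zf src tgt μ o Y e := by
  have h : (fun x => -(sol src tgt μ o (Dv src tgt o Y)) x) =
      sol src tgt μ o (Dv src tgt o (fun e => -Y e)) := by
    refine sol_unique src tgt _ hμ ?_
    have h1 := sol_spec src tgt o hμ (Dv src tgt o Y)
    funext x
    have h2 := congrFun h1 x
    have h3 : Op src tgt μ o (fun x => -(sol src tgt μ o (Dv src tgt o Y)) x) x =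
        -Op src tgt μ o (sol src tgt μ o (Dv src tgt o Y)) x := by
      generalize sol src tgt μ o (Dv src tgt o Y) = f
      unfold Op gr
      rw [neg_add, ← Finset.sum_neg_distrib]
      congr 1
      · ring
      · refine Finset.sum_congr rfl fun e _ => ?_
        split_ifs <;> ring
    have h4 : Dv src tgt o (fun e => -Y e) x = -Dv src tgt o Y x := by
      unfold Dv
      rw [← Finset.sum_neg_distrib]
      refine Finset.sum_congr rfl fun e _ => ?_
      split_ifs <;> ring
    rw [h3, h2, h4]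
  unfold Zf
  rw [← h]
  unfold gr
  ring

end gen

section torus
variable {N : ℕ}

/-- reflection of one coordinate -/
def rf (k : Fin d) (x : Tor N d) : Tor N d := fun l => if l = k then -x l else x l

theorem rf_sub (k : Fin d) (x y : Tor N d) : rf k (x - y) = rf k x - rf k y := by
  funext l
  unfold rf
  by_cases h : l = k
  · simp only [h, if_true, Pi.sub_apply]
    ring
  · simp only [h, if_false, Pi.sub_apply]

theorem rf_add (k : Fin d) (x y : Tor N d) : rf k (x + y) = rf k x + rf k y := by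
  funext l
  unfold rf
  by_cases h : l = k
  · simp only [h, if_true, Pi.add_apply]
    ring
  · simp only [h, if_false, Pi.add_apply]

theorem rf_rf (k : Fin d) (x : Tor N d) : rf k (rf k x) = x := by
  funext l
  unfold rf
  by_cases h : l = k
  · simp [h]
  · simp [h]

theorem rf_tev_self (k : Fin d) : rf k (tev k : Tor N d) = -tev k := by
  funext l
  unfold rf tev
  by_cases h : l = k
  · simp [h]
  · simp [h]

theorem rf_tev_ne {k j : Fin d} (hj : j ≠ k) : rf k (tev j : Tor N d) = tev j := by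
  funext l
  unfold rf tev
  by_cases h : l = k
  · subst h
    simp [hj.symm]
  · simp [h]

/-- reflection of the vertices -/
def rfV (N : ℕ) (k : Fin d) : Tor N d ≃ Tor N d := Function.Involutive.toPerm (rf k) (rf_rf k)

theorem rfE_inv (k : Fin d) : Function.Involutive (fun e : Tor N d × Fin d =>
    ((rf k e.1 - if e.2 = k then tev k else 0, e.2) : Tor N d × Fin d)) := by
  rintro ⟨x, j⟩
  simp only
  by_cases h : j = k
  · simp only [h, if_true]
    rw [rf_sub, rf_rf, rf_tev_self, sub_neg_eq_add, add_sub_cancel_right]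
  · simp only [h, if_false, sub_zero, rf_rf]

/-- reflection of the edges -/
def rfE (N : ℕ) (k : Fin d) : Tor N d × Fin d ≃ Tor N d × Fin d :=
  Function.Involutive.toPerm _ (rfE_inv k)

theorem rf_sym (k : Fin d) : Sym (tsrc (N := N) (d := d)) ttgt (rfV N k) (rfE N k)
    (fun e => if e.2 = k then -1 else 1) := by
  rintro ⟨x, j⟩
  by_cases h : j = k
  · right
    subst h
    refine ⟨by simp, ?_, ?_⟩
    · show rf j x - (if j = j then tev j else 0) = rf j (x + tev j)
      rw [if_pos rfl, rf_add, rf_tev_self, sub_eq_add_neg]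
    · show rf j x - (if j = j then tev j else 0) + tev j = rf j x
      rw [if_pos rfl, sub_add_cancel]
  · left
    refine ⟨by simp [h], ?_, ?_⟩
    · show rf k x - (if j = k then tev k else 0) = rf k x
      rw [if_neg h, sub_zero]
    · show rf k x - (if j = k then tev k else 0) + tev j = rf k (x + tev j)
      rw [if_neg h, sub_zero, rf_add, rf_tev_ne h]

/-- transposition of the vertices -/
def swV (N : ℕ) (i j : Fin d) : Tor N d ≃ Tor N d :=
  Function.Involutive.toPerm (fun x => x ∘ Equiv.swap i j) (fun x => by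
    funext l
    simp)

/-- transposition of the edges -/
def swE (N : ℕ) (i j : Fin d) : Tor N d × Fin d ≃ Tor N d × Fin d :=
  Function.Involutive.toPerm (fun e => (e.1 ∘ Equiv.swap i j, Equiv.swap i j e.2)) (fun e => by
    refine Prod.ext ?_ ?_
    · funext l
      simp
    · simp)

theorem sw_sym (i j : Fin d) : Sym (tsrc (N := N) (d := d)) ttgt (swV N i j) (swE N i j)
    (fun _ => 1) := by
  rintro ⟨x, l⟩
  left
  refine ⟨rfl, rfl, ?_⟩
  show x ∘ Equiv.swap i j + tev (Equiv.swap i j l) = (x + tev l) ∘ Equiv.swap i j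
  funext m
  simp only [Pi.add_apply, Function.comp]
  congr 1
  unfold tev
  by_cases h : m = Equiv.swap i j l
  · subst h
    simp
  · have h' : Equiv.swap i j m ≠ l := by
      intro h2
      apply h
      rw [← h2, Equiv.swap_apply_self]
    rw [Pi.single_eq_of_ne h, Pi.single_eq_of_ne h']

theorem flux_rf [NeZero N] {μ : ℝ} (hμ : 0 < μ) (o : Tor N d × Fin d → Bool) {i j : Fin d}
    (hij : i ≠ j) (x : Tor N d) :
    flux μ (o ∘ rfE N i) i j x = -flux μ o i j (rf i x) := by
  have h1 : (xi i : Tor N d × Fin d → ℝ) =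
      fun e => (if e.2 = i then (-1 : ℝ) else 1) * (fun e => -xi i e) (rfE N i e) := by
    funext e
    have h2 : (rfE N i e).2 = e.2 := rfl
    simp only [xi, h2]
    split_ifs <;> simp
  have h3 := Zf_sym hμ (rf_sym (N := N) i) o (fun e => -xi i e) (x, j)
  rw [← h1, Zf_neg hμ] at h3
  have h4 : rfE N i (x, j) = (rf i x, j) := by
    show ((rf i x - if j = i then tev i else 0, j) : Tor N d × Fin d) = (rf i x, j)
    rw [if_neg hij.symm, sub_zero]
  rw [h4] at h3
  unfold flux
  simp only [Function.comp, h4]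
  have h5 : ¬ (x, j).2 = i := fun h => hij h.symm
  rw [if_neg h5, one_mul] at h3
  split_ifs
  · exact h3
  · simp

theorem flux_sw [NeZero N] {μ : ℝ} (hμ : 0 < μ) (o : Tor N d × Fin d → Bool) (i j : Fin d)
    (x : Tor N d) :
    flux μ (o ∘ swE N i j) i i x = flux μ o j j (x ∘ Equiv.swap i j) := by
  have h1 : (xi i : Tor N d × Fin d → ℝ) = fun e => (1 : ℝ) * (xi j) (swE N i j e) := by
    funext e
    have h2 : (swE N i j e).2 = Equiv.swap i j e.2 := rfl
    simp only [xi, h2, one_mul]
    refine if_congr ?_ rfl rfl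
    constructor
    · intro h
      rw [h, Equiv.swap_apply_left]
    · intro h
      have := congrArg (Equiv.swap i j) h
      rwa [Equiv.swap_apply_self, Equiv.swap_apply_right] at this
  have h3 := Zf_sym hμ (sw_sym (N := N) i j) o (xi j) (x, i)
  rw [← h1] at h3
  have h4 : swE N i j (x, i) = (x ∘ Equiv.swap i j, j) := by
    show ((x ∘ Equiv.swap i j, Equiv.swap i j i) : Tor N d × Fin d) = (x ∘ Equiv.swap i j, j)
    rw [Equiv.swap_apply_left]
  rw [h4, one_mul] at h3
  unfold flux
  simp only [Function.comp, h4]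
  split_ifs
  · exact h3
  · rfl

theorem flux_Ex_shift [NeZero N] {μ : ℝ} (hμ : 0 < μ) (p : ℝ) (i j : Fin d) (x : Tor N d) :
    Ex p (fun o => flux μ o i j x) = Ex p (fun o : Tor N d × Fin d → Bool => flux μ o i j 0) := by
  have h2 := Ex_shift p (fun o : Tor N d × Fin d → Bool => flux μ o i j 0) x
  rw [← h2]
  congr 1
  funext o
  rw [flux_shift hμ, zero_add]

end torus

end SY2

open SY2

/-! ### SY2: means -/
theorem flux_mean {N : ℕ} [NeZero N] (hN : 3 ≤ N) {μ : ℝ} (hμ : 0 < μ) {p : ℝ} (hp : 0 ≤ p)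
    (hp1 : p ≤ 1) : ∃ a : ℝ, ∀ (i j : Fin d) (x : Tor N d),
      Ex p (fun o => flux μ o i j x) = if i = j then a else 0 := by
  have hoff : ∀ (i j : Fin d), i ≠ j → ∀ x : Tor N d, Ex p (fun o => flux μ o i j x) = 0 := by
    intro i j hij x
    have h1 : Ex p (fun o : Tor N d × Fin d → Bool => flux μ (o ∘ rfE N i) i j x) =
        Ex p (fun o => flux μ o i j x) :=
      EX1.Ex_equiv p (rfE N i) (fun o => flux μ o i j x)
    have h2 : (fun o : Tor N d × Fin d → Bool => flux μ (o ∘ rfE N i) i j x) =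
        fun o => (-1) * flux μ o i j (rf i x) := by
      funext o
      rw [flux_rf hμ o hij]
      ring
    rw [h2, EX2.Ex_smul p (-1) (fun o : Tor N d × Fin d → Bool => flux μ o i j (rf i x)),
      flux_Ex_shift hμ p i j (rf i x), flux_Ex_shift hμ p i j x] at h1
    rw [flux_Ex_shift hμ p i j x]
    linarith
  have hdiag : ∀ (i j : Fin d) (x : Tor N d), Ex p (fun o => flux μ o i i x) =
      Ex p (fun o : Tor N d × Fin d → Bool => flux μ o j j 0) := by
    intro i j x
    have h1 : Ex p (fun o : Tor N d × Fin d → Bool => flux μ (o ∘ swE N i j) i i x) =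
        Ex p (fun o => flux μ o i i x) :=
      EX1.Ex_equiv p (swE N i j) (fun o => flux μ o i i x)
    rw [← h1]
    have h2 : (fun o : Tor N d × Fin d → Bool => flux μ (o ∘ swE N i j) i i x) =
        fun o => flux μ o j j (x ∘ Equiv.swap i j) := by
      funext o
      exact flux_sw hμ o i j x
    rw [h2, flux_Ex_shift hμ p j j]
  rcases Nat.eq_zero_or_pos d with h0 | h0
  · subst h0
    exact ⟨0, fun i => i.elim0⟩
  · refine ⟨Ex p (fun o : Tor N d × Fin d → Bool => flux μ o ⟨0, h0⟩ ⟨0, h0⟩ 0), ?_⟩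
    intro i j x
    by_cases hij : i = j
    · subst hij
      rw [if_pos rfl]
      exact hdiag i ⟨0, h0⟩ x
    · rw [if_neg hij]
      exact hoff i j hij x

theorem phi_mean {N : ℕ} [NeZero N] {μ : ℝ} (hμ : 0 < μ) {p : ℝ} (hp : 0 ≤ p)
    (hp1 : p ≤ 1) (i : Fin d) (x : Tor N d) : Ex p (fun o => phi μ o i x) = 0 := by
  have hsh : ∀ y : Tor N d, Ex p (fun o => phi μ o i y) =
      Ex p (fun o : Tor N d × Fin d → Bool => phi μ o i 0) := by
    intro y
    have h2 := Ex_shift p (fun o : Tor N d × Fin d → Bool => phi μ o i 0) y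
    rw [← h2]
    congr 1
    funext o
    rw [phi_shift hμ, zero_add]
  have h0 : ∀ o : Tor N d × Fin d → Bool, ∑ y, phi μ o i y = 0 := by
    intro o
    have h1 := sol_sum tsrc ttgt o hμ (Dv tsrc ttgt o (xi i))
    have h2 : ∑ y, Dv tsrc ttgt o (xi (N := N) i) y = 0 := by
      have h3 := dv_form tsrc ttgt o (xi (N := N) i) (fun _ => (1 : ℝ))
      simp only [mul_one] at h3
      rw [h3, neg_eq_zero]
      refine Finset.sum_eq_zero fun e _ => ?_
      unfold gr
      simp
    rw [h2] at h1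
    rcases mul_eq_zero.1 h1 with h | h
    · exact absurd h hμ.ne'
    · exact h
  have h1 : Ex p (fun o : Tor N d × Fin d → Bool => ∑ y, phi μ o i y) = 0 := by
    simp_rw [h0]
    exact EX2.Ex_const _ _
  rw [VG.Ex_sum' p univ fun (y : Tor N d) o => phi μ o i y, Finset.sum_congr rfl fun y _ => hsh y,
    Finset.sum_const, Finset.card_univ, nsmul_eq_mul] at h1
  rw [hsh]
  rcases mul_eq_zero.1 h1 with h | h
  · rw [VG.card_tor] at h
    have hN : (N : ℝ) ≠ 0 := Nat.cast_ne_zero.2 (NeZero.ne N)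
    exact absurd h (pow_ne_zero _ hN)
  · exact h

end Pool.Agent.Lib.MP_566bac_pr.Hd
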