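import Pool.Agent.Lib.MP_566bac_pr.Hd.GE1

/-!
# The giant cluster of the torus
-/

open Finset
open scoped Classical

namespace Pool.Agent.Lib.MP_566bac_pr.Hd

set_option linter.unusedSectionVars false
set_option linter.unusedVariables false

variable {d : ℕ}

/-! ### open paths in a finite graph with numbered edges -/

section TG1path
variable {X I : Type*} [Fintype X] [DecidableEq X] [Fintype I] [DecidableEq I]
  {src tgt : I → X} {o : I → Bool}

theorem TG1_pathLe_refl (n : ℕ) (x : X) : PathLe src tgt o n x x :=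
  ⟨[], by simp, by simp, by simp⟩

theorem TG1_pathLe_mono {n m : ℕ} (h : n ≤ m) {x y : X} (h' : PathLe src tgt o n x y) :
    PathLe src tgt o m x y := by
  obtain ⟨l, h1, h2, h3⟩ := h'
  exact ⟨l, h1.trans h, h2, h3⟩

theorem TG1_pathLe_cons {n : ℕ} {x y z : X} {e : I} (he : o e = true)
    (h : (src e = x ∧ tgt e = y) ∨ (src e = y ∧ tgt e = x)) (h' : PathLe src tgt o n y z) :
    PathLe src tgt o (n + 1) x z := by
  obtain ⟨l, h1, h2, h3⟩ := h'
  refine ⟨y :: l, by simpa using h1, ?_, ?_⟩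
  · rw [List.isChain_cons_cons]
    exact ⟨⟨e, he, h⟩, h2⟩
  · rw [List.getLast_cons (List.cons_ne_nil y l)]
    exact h3

/-- the image of a walk is an open path -/
theorem TG1_walk {V : Type*} {H : SimpleGraph V} (f : V → X)
    (hf : ∀ a b, H.Adj a b → ∃ e, o e = true ∧
      ((src e = f a ∧ tgt e = f b) ∨ (src e = f b ∧ tgt e = f a)))
    {a b : V} (p : H.Walk a b) : PathLe src tgt o p.length (f a) (f b) := by
  induction p with
  | nil => exact TG1_pathLe_refl _ _
  | cons h p ih =>
    obtain ⟨e, he, h'⟩ := hf _ _ h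
    exact TG1_pathLe_cons he h' ih

/-- a property which is invariant along the open edges is invariant along the open paths -/
theorem TG1_pathLe_ind {P : X → Prop} (hP : ∀ e, o e = true → (P (src e) ↔ P (tgt e))) {n : ℕ}
    {x y : X} (h : PathLe src tgt o n x y) : P x ↔ P y := by
  obtain ⟨l, -, h2, h3⟩ := h
  induction l generalizing x with
  | nil =>
    have : x = y := by simpa using h3
    rw [this]
  | cons a l ih =>
    rw [List.isChain_cons_cons] at h2
    obtain ⟨⟨e, he, h⟩, h2'⟩ := h2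
    rw [List.getLast_cons (List.cons_ne_nil a l)] at h3
    rw [← ih h2' h3]
    rcases h with ⟨rfl, rfl⟩ | ⟨rfl, rfl⟩
    · exact hP e he
    · exact (hP e he).symm

end TG1path

/-! ### projection to the torus -/

theorem TG1_prj_add {N : ℕ} (a b : Vtx d) : prj N (a + b) = prj N a + prj N b := by
  funext i
  simp [prj]

theorem TG1_prj_ev {N : ℕ} (j : Fin d) : prj N (ev j) = (tev j : Tor N d) := by
  funext i
  by_cases h : i = j
  · subst h
    simp [prj, ev, tev]
  · simp [prj, ev, tev, h]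

theorem TG1_prj_rep {N : ℕ} [NeZero N] (x : Tor N d) : prj N (rep x) = x := by
  funext i
  simp [prj, rep]

/-- the projection of an open edge of the periodic configuration -/
theorem TG1_adj {N : ℕ} {o : Tor N d × Fin d → Bool} {a b : Vtx d}
    (h : (G (lift o)).Adj a b) : ∃ e, o e = true ∧
      ((tsrc e = prj N a ∧ ttgt e = prj N b) ∨ (tsrc e = prj N b ∧ ttgt e = prj N a)) := by
  obtain ⟨j, ⟨h1, h2⟩ | ⟨h1, h2⟩⟩ := h
  · refine ⟨(prj N a, j), h2, Or.inl ⟨rfl, ?_⟩⟩
    rw [h1, TG1_prj_add, TG1_prj_ev]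
    rfl
  · refine ⟨(prj N b, j), h2, Or.inr ⟨rfl, ?_⟩⟩
    rw [h1, TG1_prj_add, TG1_prj_ev]
    rfl

theorem TG1_lift_add {N : ℕ} (o : Tor N d × Fin d → Bool) (a : Vtx d) :
    (fun (x : Vtx d) (j : Fin d) => lift o (x + a) j) =
      lift (fun e : Tor N d × Fin d => o (e.1 + prj N a, e.2)) := by
  funext x j
  simp only [lift, TG1_prj_add]

/-- periodicity -/
theorem TG1_far_period {N : ℕ} {o : Tor N d × Fin d → Bool} {n : ℕ} {y y' : Vtx d}
    (h : prj N y = prj N y') : Far (lift o) n y ↔ Far (lift o) n y' := by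
  have h1 : prj N (y' - y) = 0 := by
    have : prj N y' = prj N (y' - y) + prj N y := by rw [← TG1_prj_add, sub_add_cancel]
    rw [h] at this
    exact (left_eq_add.mp (this.trans (add_comm _ _)))
  have h2 : (fun (x : Vtx d) (j : Fin d) => lift o (x + (y' - y)) j) = lift o := by
    rw [TG1_lift_add, h1]
    simp
  have h3 := far_shift (η := lift o) (n := n) (z := y) (a := y' - y)
  rw [h2, add_sub_cancel] at h3
  exact h3

theorem TG1_good_period {N : ℕ} {o : Tor N d × Fin d → Bool} {n : ℕ} {y y' : Vtx d}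
    (h : prj N y = prj N y') : Good (lift o) n y ↔ Good (lift o) n y' := by
  have h1 : prj N (y' - y) = 0 := by
    have : prj N y' = prj N (y' - y) + prj N y := by rw [← TG1_prj_add, sub_add_cancel]
    rw [h] at this
    exact (left_eq_add.mp (this.trans (add_comm _ _)))
  have h2 : (fun (x : Vtx d) (j : Fin d) => lift o (x + (y' - y)) j) = lift o := by
    rw [TG1_lift_add, h1]
    simp
  have h3 := good_shift (η := lift o) (n := n) (z := y) (a := y' - y)
  rw [h2, add_sub_cancel] at h3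
  exact h3

theorem TG1_giant_prj {N M : ℕ} [NeZero N] {o : Tor N d × Fin d → Bool} (y : Vtx d) :
    Giant M o (prj N y) ↔ Far (lift o) (6 * M) y := by
  unfold Giant
  exact TG1_far_period (TG1_prj_rep _)

/-! ### geometry -/

/-- the grid box of a vertex -/
theorem TG1_floor {M : ℕ} (hM : 1 ≤ M) (y : Vtx d) : ∃ w, Grid M w ∧ dst y w ≤ M := by
  refine ⟨fun i => (M : ℤ) * (y i / M), fun i => Dvd.intro _ rfl, ?_⟩
  rw [BAS_le_iff]
  intro i
  have hM' : (0 : ℤ) < M := by exact_mod_cast hM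
  have h1 := Int.emod_nonneg (y i) hM'.ne'
  have h2 := Int.emod_lt_of_pos (y i) hM'
  have h3 := Int.mul_ediv_add_emod (y i) M
  show (y i - (M : ℤ) * (y i / M)).natAbs ≤ M
  omega

theorem TG1_far_edge {η : Conf d} {M : ℕ} (hM : 1 ≤ M) (hg : ∀ w, Grid M w → Good η M w)
    {y y' : Vtx d} (hadj : (G η).Adj y y') (hy : Far η (6 * M) y) : Far η (6 * M) y' := by
  obtain ⟨w, hw, hyw⟩ := TG1_floor hM y
  have hgw := hg w hw
  have h1 : dst y' y ≤ 1 := dst_adj hadj
  have h2 : dst y' w ≤ 2 * M := by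
    have := dst_triangle y' y w
    omega
  obtain ⟨u, hu, hcu⟩ := far_arm hy (by omega : dst y w ≤ 2 * M)
  have h3 : Arm η w (4 * M) y' := by
    refine reach_exit (y := u) ?_ (by omega) (by omega)
    exact (SimpleGraph.Adj.reachable hadj.symm).trans (conn_reachable hcu)
  obtain ⟨a, ha, haf⟩ := good_anchor hgw
  have h4 : Conn η (Lam w (8 * M)) y' a :=
    hgw.2 y' (mem_Lam.2 h2) a (mem_Lam.2 (by omega)) h3
      (far_arm (far_mono (by omega) haf) (by omega))
  obtain ⟨v, hv, hcv⟩ := haf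
  refine reach_exit (y := v) ((conn_reachable h4).trans (conn_reachable hcv))
    (by rw [dst_self]; omega) ?_
  have h5 := dst_triangle v y' a
  have h6 := dst_triangle y' w a
  rw [dst_comm w a] at h6
  have h7 : dst y' w ≤ M + 1 := by
    have := dst_triangle y' y w
    omega
  omega

theorem TG1_far_reach {η : Conf d} {M : ℕ} (hM : 1 ≤ M) (hg : ∀ w, Grid M w → Good η M w)
    {y y' : Vtx d} (h : (G η).Reachable y y') (hy : Far η (6 * M) y) : Far η (6 * M) y' := by
  obtain ⟨p⟩ := h
  induction p with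
  | nil => exact hy
  | cons h p ih => exact ih (TG1_far_edge hM hg h hy)

theorem TG1_grid_add {M : ℕ} {w : Vtx d} (hw : Grid M w) (k : ℤ) (j : Fin d) :
    Grid M (w + (k * M) • ev j) := by
  intro i
  have h1 : ((w + (k * M) • ev j : Vtx d)) i = w i + k * M * (ev j : Vtx d) i := by simp
  rw [h1]
  exact dvd_add (hw i) (Dvd.intro_left (k * (ev j : Vtx d) i) (by ring))

/-- neighbouring anchors are connected -/
theorem TG1_anchor_step {η : Conf d} {M : ℕ} (hg : ∀ w, Grid M w → Good η M w)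
    {a : Vtx d → Vtx d} (ha : ∀ w, Grid M w → dst (a w) w ≤ M ∧ Far η (9 * M) (a w))
    {w : Vtx d} (hw : Grid M w) (j : Fin d) :
    (G η).Reachable (a w) (a (w + ((M : ℕ) : ℤ) • ev j)) := by
  have hw' : Grid M (w + ((M : ℕ) : ℤ) • ev j) := by
    have := TG1_grid_add hw 1 j
    rwa [one_mul] at this
  have h1 := ha w hw
  have h2 := ha _ hw'
  have h3 : dst (w + ((M : ℕ) : ℤ) • ev j) w ≤ M := by
    rw [BAS_le_iff]
    intro i
    by_cases h : i = j
    · subst h; simp [ev]
    · simp [ev, h]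
  have h4 := dst_triangle (a (w + ((M : ℕ) : ℤ) • ev j)) (w + ((M : ℕ) : ℤ) • ev j) w
  exact conn_reachable (good_conn (hg w hw) (by omega) (by omega) (far_mono (by omega) h1.2)
    (far_mono (by omega) h2.2))

theorem TG1_anchor_line {η : Conf d} {M : ℕ} (hg : ∀ w, Grid M w → Good η M w)
    {a : Vtx d → Vtx d} (ha : ∀ w, Grid M w → dst (a w) w ≤ M ∧ Far η (9 * M) (a w))
    {w : Vtx d} (hw : Grid M w) (j : Fin d) (k : ℤ) :
    (G η).Reachable (a w) (a (w + (k * M) • ev j)) := by
  induction k using Int.induction_on with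
  | zero => simp
  | succ n ih =>
    refine ih.trans ?_
    have h1 := TG1_anchor_step hg ha (TG1_grid_add hw n j) j
    have h2 : w + ((n : ℤ) * M) • ev j + ((M : ℕ) : ℤ) • ev j =
        w + (((n : ℤ) + 1) * M) • ev j := by
      rw [add_assoc, ← add_smul]
      congr 2
      ring
    rwa [h2] at h1
  | pred n ih =>
    refine ih.trans ?_
    have h1 := TG1_anchor_step hg ha (TG1_grid_add hw (-(n : ℤ) - 1) j) j
    have h2 : w + ((-(n : ℤ) - 1) * M) • ev j + ((M : ℕ) : ℤ) • ev j =
        w + (-(n : ℤ) * M) • ev j := by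
      rw [add_assoc, ← add_smul]
      congr 2
      ring
    rw [h2] at h1
    exact h1.symm

/-- all anchors are connected -/
theorem TG1_anchor_conn {η : Conf d} {M : ℕ} (hg : ∀ w, Grid M w → Good η M w)
    {a : Vtx d → Vtx d} (ha : ∀ w, Grid M w → dst (a w) w ≤ M ∧ Far η (9 * M) (a w))
    (S : Finset (Fin d)) : ∀ w w' : Vtx d, Grid M w → Grid M w' → (∀ i, i ∉ S → w i = w' i) →
      (G η).Reachable (a w) (a w') := by
  induction S using Finset.induction_on with
  | empty =>
    intro w w' _ _ h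
    have : w = w' := funext fun i => h i (by simp)
    rw [this]
  | insert j S hj ih =>
    intro w w' hw hw' h
    have hw'' : Grid M (Function.update w' j (w j)) := by
      intro i
      by_cases hij : i = j
      · subst hij; simpa using hw i
      · simpa [Function.update_of_ne hij] using hw' i
    have h1 := ih w (Function.update w' j (w j)) hw hw'' (by
      intro i hi
      by_cases hij : i = j
      · subst hij; simp
      · rw [Function.update_of_ne hij]
        exact h i (by simp [hij, hi]))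
    refine h1.trans ?_
    obtain ⟨k, hk⟩ := hw' j
    obtain ⟨l, hl⟩ := hw j
    have h2 := TG1_anchor_line hg ha hw'' j (k - l)
    have h3 : Function.update w' j (w j) + ((k - l) * M) • ev j = w' := by
      funext i
      by_cases hij : i = j
      · subst hij
        simp only [Pi.add_apply, Function.update_self, Pi.smul_apply, ev, Pi.single_eq_same,
          smul_eq_mul, mul_one]
        rw [hk, hl]
        ring
      · simp [ev, hij]
    rwa [h3] at h2

theorem TG1_exists_anchor {η : Conf d} {M : ℕ} (hg : ∀ w, Grid M w → Good η M w) :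
    ∃ a : Vtx d → Vtx d, ∀ w, Grid M w → dst (a w) w ≤ M ∧ Far η (9 * M) (a w) := by
  have : ∀ w : Vtx d, ∃ x, Grid M w → dst x w ≤ M ∧ Far η (9 * M) x := by
    intro w
    by_cases hw : Grid M w
    · obtain ⟨x, hx⟩ := good_anchor (hg w hw)
      exact ⟨x, fun _ => hx⟩
    · exact ⟨w, fun h => absurd h hw⟩
  choose a ha using this
  exact ⟨a, ha⟩

theorem TG1_far_anchor {η : Conf d} {M : ℕ} (hg : ∀ w, Grid M w → Good η M w)
    {a : Vtx d → Vtx d} (ha : ∀ w, Grid M w → dst (a w) w ≤ M ∧ Far η (9 * M) (a w))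
    {w y : Vtx d} (hw : Grid M w) (hyw : dst y w ≤ M) (hy : Far η (6 * M) y) :
    (G η).Reachable y (a w) :=
  conn_reachable (good_conn (hg w hw) (by omega) (by have := (ha w hw).1; omega) hy
    (far_mono (by omega) (ha w hw).2))

/-- all far vertices are connected -/
theorem TG1_far_conn {η : Conf d} {M : ℕ} (hM : 1 ≤ M) (hg : ∀ w, Grid M w → Good η M w)
    {y y' : Vtx d} (hy : Far η (6 * M) y) (hy' : Far η (6 * M) y') : (G η).Reachable y y' := by
  obtain ⟨a, ha⟩ := TG1_exists_anchor hg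
  obtain ⟨w, hw, hyw⟩ := TG1_floor hM y
  obtain ⟨w', hw', hyw'⟩ := TG1_floor hM y'
  exact (TG1_far_anchor hg ha hw hyw hy).trans
    ((TG1_anchor_conn hg ha Finset.univ w w' hw hw' (by simp)).trans
      (TG1_far_anchor hg ha hw' hyw' hy').symm)

/-- a far vertex is connected to every distance -/
theorem TG1_far_all (hd : 1 ≤ d) {η : Conf d} {M : ℕ} (hM : 1 ≤ M)
    (hg : ∀ w, Grid M w → Good η M w) {y : Vtx d} (hy : Far η (6 * M) y) (n : ℕ) :
    Far η n y := by
  obtain ⟨a, ha⟩ := TG1_exists_anchor hg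
  obtain ⟨w, hw, hyw⟩ := TG1_floor hM y
  set j : Fin d := ⟨0, hd⟩ with hj
  have hw' := TG1_grid_add hw ((n : ℤ) + 2) j
  have h1 := (TG1_far_anchor hg ha hw hyw hy).trans (TG1_anchor_line hg ha hw j ((n : ℤ) + 2))
  have h5 : (w + (((n : ℤ) + 2) * M) • ev j : Vtx d) j = w j + ((n : ℤ) + 2) * M := by
    simp [ev]
  have h2 := (BAS_le_iff (x := a (w + (((n : ℤ) + 2) * M) • ev j))
    (y := w + (((n : ℤ) + 2) * M) • ev j)).1 (ha _ hw').1 j
  rw [h5] at h2
  generalize a (w + (((n : ℤ) + 2) * M) • ev j) = v at h1 h2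
  refine reach_exit h1 (by rw [dst_self]; omega) ?_
  have h3 := (BAS_le_iff (x := y) (y := w)).1 hyw j
  have h4 := (BAS_le_iff (x := v) (y := y)).1 le_rfl j
  refine le_trans ?_ h4
  have hM' : (1 : ℤ) ≤ M := by exact_mod_cast hM
  have h6 : (n : ℤ) * 1 ≤ (n : ℤ) * M := mul_le_mul_of_nonneg_left hM' (by positivity)
  have h7 : ((n : ℤ) + 2) * M = (n : ℤ) * M + 2 * M := by ring
  rw [h7] at h2
  omega

/-! ### the statements -/

theorem giant_edge {N M : ℕ} [NeZero N] (hM : 1 ≤ M) (hMN : M ∣ N) (hN : 1000 * M ≤ N)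
    {o : Tor N d × Fin d → Bool} (ho : GoodT M o) {e : Tor N d × Fin d} (he : o e = true) :
    Giant M o (tsrc e) ↔ Giant M o (ttgt e) := by
  obtain ⟨x, j⟩ := e
  have h1 : (G (lift o)).Adj (rep x) (rep x + ev j) := by
    refine ⟨j, Or.inl ⟨rfl, ?_⟩⟩
    show o (prj N (rep x), j) = true
    rw [TG1_prj_rep]
    exact he
  have h2 : ttgt (x, j) = prj N (rep x + ev j) := by
    rw [TG1_prj_add, TG1_prj_rep, TG1_prj_ev]
    rfl
  rw [h2, TG1_giant_prj]
  show Far (lift o) (6 * M) (rep x) ↔ _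
  exact ⟨TG1_far_edge hM ho h1, TG1_far_edge hM ho h1.symm⟩

theorem giant_rch {N M : ℕ} [NeZero N] (hd : 1 ≤ d) (hM : 1 ≤ M) (hMN : M ∣ N)
    (hN : 1000 * M ≤ N) {o : Tor N d × Fin d → Bool} (ho : GoodT M o) {x y : Tor N d}
    (hx : Giant M o x) (hy : Giant M o y) : Rch tsrc ttgt o x y := by
  obtain ⟨p⟩ := TG1_far_conn hM ho hx hy
  have h := TG1_walk (src := tsrc) (tgt := ttgt) (o := o) (prj N) (fun a b h => TG1_adj h) p
  rw [TG1_prj_rep, TG1_prj_rep] at h
  exact ⟨_, h⟩

/-- translation -/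
theorem giant_shift {N M : ℕ} [NeZero N] (hN : 1000 * M ≤ N) (o : Tor N d × Fin d → Bool)
    (a x : Tor N d) : Giant M (fun e => o (e.1 + a, e.2)) x ↔ Giant M o (x + a) := by
  have h1 := TG1_lift_add o (rep a)
  rw [TG1_prj_rep] at h1
  unfold Giant
  rw [← h1, far_shift]
  refine TG1_far_period ?_
  rw [TG1_prj_add, TG1_prj_rep, TG1_prj_rep, TG1_prj_rep]

theorem goodT_shift {N M : ℕ} [NeZero N] (hMN : M ∣ N) (o : Tor N d × Fin d → Bool)
    (a : Vtx d) (ha : Grid M a) :
    GoodT M (fun e => o (e.1 + prj N a, e.2)) ↔ GoodT M o := by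
  unfold GoodT
  rw [← TG1_lift_add]
  constructor
  · intro h w hw
    have h1 := h (w - a) (fun i => dvd_sub (hw i) (ha i))
    rw [good_shift, sub_add_cancel] at h1
    exact h1
  · intro h w hw
    rw [good_shift]
    exact h (w + a) (fun i => dvd_add (hw i) (ha i))

/-- every `M`-block is good, also those not in the grid, up to a factor: the giant vertices seen from a
translated environment. -/
theorem giant_far {N M : ℕ} [NeZero N] (hd : 1 ≤ d) (hM : 1 ≤ M) (hMN : M ∣ N)
    (hN : 1000 * M ≤ N) {o : Tor N d × Fin d → Bool} (ho : GoodT M o) (x : Tor N d)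
    (hx : Giant M o x) (n : ℕ) : Far (lift o) n (rep x) :=
  TG1_far_all hd hM ho hx n

end Pool.Agent.Lib.MP_566bac_pr.Hd
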