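import Pool.Agent.Lib.MP_566bac_pr.Hd.TG1

/-!
# The small components of the torus
-/

open Finset
open scoped Classical

namespace Pool.Agent.Lib.MP_566bac_pr.Hd

set_option linter.unusedSectionVars false
set_option linter.unusedVariables false

variable {d : ℕ}

/-- a path in a finite set which is closed under the adjacency -/
theorem TG2_walk {V : Type*} {H : SimpleGraph V} {C : Finset V}
    (hC : ∀ a ∈ C, ∀ b, H.Adj a b → b ∈ C) {a b : V} (ha : a ∈ C) (h : H.Reachable a b) :
    ∃ p : H.Walk a b, p.length + 1 ≤ C.card := by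
  obtain ⟨p⟩ := h
  refine ⟨p.toPath.1, ?_⟩
  have h1 : ∀ {a b : V} (q : H.Walk a b), a ∈ C → ∀ v ∈ q.support, v ∈ C := by
    intro a b q
    induction q with
    | nil =>
      intro ha v hv
      simp only [SimpleGraph.Walk.support_nil, List.mem_singleton] at hv
      rw [hv]; exact ha
    | cons hadj q ih =>
      intro ha v hv
      rw [SimpleGraph.Walk.support_cons, List.mem_cons] at hv
      rcases hv with rfl | hv
      · exact ha
      · exact ih (hC _ ha _ hadj) v hv
  have h2 : p.toPath.1.support.toFinset ⊆ C := by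
    intro v hv
    rw [List.mem_toFinset] at hv
    exact h1 _ ha v hv
  have h3 := Finset.card_le_card h2
  rw [List.toFinset_card_of_nodup p.toPath.2.support_nodup, SimpleGraph.Walk.length_support] at h3
  exact h3

theorem TG2_prj_inj {N : ℕ} {y y' : Vtx d} (h : prj N y = prj N y')
    (hd : ∀ i, (y i - y' i).natAbs < N) : y = y' := by
  funext i
  have h1 : ((y i : ℤ) : ZMod N) = (y' i : ℤ) := congrFun h i
  rw [ZMod.intCast_eq_intCast_iff_dvd_sub] at h1
  have h2 : y' i - y i = 0 := by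
    refine Int.eq_zero_of_abs_lt_dvd h1 ?_
    have := hd i
    rw [abs_lt]
    constructor <;> omega
  omega

theorem TG2_tdst_le {N : ℕ} [NeZero N] (y z : Vtx d) : tdst (prj N y) (prj N z) ≤ dst y z := by
  unfold tdst
  rw [Finset.sup_le_iff]
  intro i _
  refine le_trans ?_ ((BAS_le_iff (x := y) (y := z)).1 le_rfl i)
  refine ZMod.natAbs_min_of_le_div_two N _ _ ?_ (ZMod.natAbs_valMinAbs_le _)
  rw [ZMod.coe_valMinAbs]
  simp [prj]

theorem small_component {N M : ℕ} [NeZero N] (hM : 1 ≤ M) (hMN : M ∣ N)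
    (hN : 1000 * M ≤ N) {o : Tor N d × Fin d → Bool} (ho : GoodT M o) (x : Tor N d)
    (hx : ¬ Giant M o x) : ∃ K : Finset (Tor N d), x ∈ K ∧ K.card ≤ (12 * M + 1) ^ d ∧
      (∀ e, o e = true → (tsrc e ∈ K ↔ ttgt e ∈ K)) ∧
      (∀ y ∈ K, ∀ y' ∈ K, PathLe tsrc ttgt o K.card y y') ∧
      (∀ y ∈ K, ¬ Giant M o y) ∧
      (∀ y ∈ K, tdst y x ≤ 6 * M) ∧
      ∀ i : Fin d, ∃ l : Tor N d → ℝ, ∀ e, o e = true → tsrc e ∈ K →
        xi i e = gr tsrc ttgt l e := by
  set z : Vtx d := rep x with hz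
  set C : Finset (Vtx d) := (Lam z (6 * M)).filter fun y => Conn (lift o) (Lam z (6 * M)) z y
    with hC
  have hzx : prj N z = x := TG1_prj_rep x
  have hzC : z ∈ C := by
    rw [hC, Finset.mem_filter]
    have : z ∈ Lam z (6 * M) := by rw [mem_Lam, dst_self]; omega
    exact ⟨this, conn_refl this⟩
  have hlt : ∀ y ∈ C, dst y z < 6 * M := by
    intro y hy
    rw [hC, Finset.mem_filter, mem_Lam] at hy
    rcases lt_or_eq_of_le hy.1 with h | h
    · exact h
    · exact absurd ⟨y, h, hy.2⟩ hx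
  have hcl : ∀ y ∈ C, ∀ y', (G (lift o)).Adj y y' → y' ∈ C := by
    intro y hy y' hadj
    have h1 := hlt y hy
    have h2 := dst_adj hadj
    have h3 := dst_triangle y' y z
    have h4 : y' ∈ Lam z (6 * M) := by rw [mem_Lam]; omega
    rw [hC, Finset.mem_filter] at hy ⊢
    exact ⟨h4, conn_trans hy.2 (conn_adj hy.1 h4 hadj)⟩
  have hinj : ∀ y ∈ C, ∀ y' ∈ C, prj N y = prj N y' → y = y' := by
    intro y hy y' hy' h
    refine TG2_prj_inj h fun i => ?_
    have h1 := hlt y hy
    have h2 := hlt y' hy'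
    have h3 := dst_triangle y z y'
    rw [dst_comm z y'] at h3
    have h4 := (BAS_le_iff (x := y) (y := y')).1 le_rfl i
    omega
  have hreach : ∀ y ∈ C, ∀ y' ∈ C, (G (lift o)).Reachable y y' := by
    intro y hy y' hy'
    rw [hC, Finset.mem_filter] at hy hy'
    exact (conn_reachable hy.2).symm.trans (conn_reachable hy'.2)
  have hcard : (C.image (prj N)).card = C.card :=
    Finset.card_image_of_injOn fun y hy y' hy' h => hinj y hy y' hy' h
  refine ⟨C.image (prj N), ?_, ?_, ?_, ?_, ?_, ?_, ?_⟩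
  · rw [Finset.mem_image]
    exact ⟨z, hzC, hzx⟩
  · rw [hcard]
    refine (Finset.card_le_card (Finset.filter_subset _ _)).trans ?_
    rw [card_Lam]
    exact le_of_eq (by ring)
  · rintro ⟨t, j⟩ he
    constructor
    · intro h
      obtain ⟨y, hy, hyt⟩ := Finset.mem_image.1 h
      refine Finset.mem_image.2 ⟨y + ev j, hcl y hy _ ⟨j, Or.inl ⟨rfl, ?_⟩⟩, ?_⟩
      · show o (prj N y, j) = true
        rw [hyt]; exact he
      · rw [TG1_prj_add, hyt, TG1_prj_ev]
        rfl
    · intro h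
      obtain ⟨y, hy, hyt⟩ := Finset.mem_image.1 h
      have h1 : prj N (y - ev j) = t := by
        have h2 : prj N (y - ev j) + tev j = t + tev j := by
          rw [← TG1_prj_ev, ← TG1_prj_add, sub_add_cancel, hyt, TG1_prj_ev]
          rfl
        exact add_right_cancel h2
      refine Finset.mem_image.2 ⟨y - ev j, hcl y hy _ ⟨j, Or.inr ⟨by simp, ?_⟩⟩, h1⟩
      show o (prj N (y - ev j), j) = true
      rw [h1]; exact he
  · intro t ht t' ht'
    obtain ⟨y, hy, rfl⟩ := Finset.mem_image.1 ht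
    obtain ⟨y', hy', rfl⟩ := Finset.mem_image.1 ht'
    obtain ⟨p, hp⟩ := TG2_walk hcl hy (hreach y hy y' hy')
    refine TG1_pathLe_mono ?_ (TG1_walk (prj N) (fun a b h => TG1_adj h) p)
    rw [hcard]
    omega
  · intro t ht hg
    obtain ⟨y, hy, rfl⟩ := Finset.mem_image.1 ht
    rw [TG1_giant_prj] at hg
    exact hx (TG1_far_reach hM ho (hreach y hy z hzC) hg)
  · intro t ht
    obtain ⟨y, hy, rfl⟩ := Finset.mem_image.1 ht
    rw [← hzx]
    exact (TG2_tdst_le y z).trans (hlt y hy).le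
  · intro i
    obtain ⟨l, hl⟩ : ∃ l : Tor N d → ℝ, ∀ y ∈ C, l (prj N y) = ((y i : ℤ) : ℝ) := by
      refine ⟨fun t => if h : ∃ y ∈ C, prj N y = t then ((h.choose i : ℤ) : ℝ) else 0, ?_⟩
      intro y hy
      have h : ∃ y' ∈ C, prj N y' = prj N y := ⟨y, hy, rfl⟩
      simp only [dif_pos h]
      have h1 := h.choose_spec
      rw [hinj _ h1.1 _ hy h1.2]
    refine ⟨l, ?_⟩
    rintro ⟨t, j⟩ he ht
    obtain ⟨y, hy, hyt⟩ := Finset.mem_image.1 ht
    have hyt' : prj N y = t := hyt
    have hy' : y + ev j ∈ C := by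
      refine hcl y hy _ ⟨j, Or.inl ⟨rfl, ?_⟩⟩
      show o (prj N y, j) = true
      rw [hyt']; exact he
    have h1 : (tsrc (t, j) : Tor N d) = prj N y := hyt'.symm
    have h2 : (ttgt (t, j) : Tor N d) = prj N (y + ev j) := by
      rw [TG1_prj_add, hyt', TG1_prj_ev]
      rfl
    unfold gr
    simp only [h1, h2]
    rw [hl y hy, hl _ hy']
    by_cases hij : j = i
    · subst hij
      simp [xi, ev]
    · have hij' : i ≠ j := fun h => hij h.symm
      simp [xi, ev, hij, hij']

end Pool.Agent.Lib.MP_566bac_pr.Hd
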