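import Pool.Agent.Lib.MP_566bac_pr.Hd.OP1

/-!
# Caccioppoli inequality
-/

open Finset
open scoped Classical

set_option linter.unusedSectionVars false

namespace Pool.Agent.Lib.MP_566bac_pr.Hd

section OP1
variable {X I : Type*} [Fintype X] [DecidableEq X] [Fintype I] [DecidableEq I]
variable (src tgt : I → X) {μ : ℝ} (o : I → Bool)

/-! ### CAC: Caccioppoli -/
theorem caccioppoli (hμ : 0 < μ) {f b : X → ℝ} (hf : Op src tgt μ o f = b) (ζ : X → ℝ)
    (hb : ∀ x, b x = 0 ∨ ζ x = 0) :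
    ∑ e, (if o e then gr src tgt (fun x => ζ x * f x) e ^ 2 else 0) ≤
      ∑ e, if o e then f (src e) * f (tgt e) * gr src tgt ζ e ^ 2 else 0 := by
  have h1 := op_form src tgt (μ := μ) o f (fun x => ζ x ^ 2 * f x)
  rw [hf] at h1
  have h2 : ∑ x, b x * (ζ x ^ 2 * f x) = 0 := Finset.sum_eq_zero fun x _ => by
    rcases hb x with h | h
    · rw [h, zero_mul]
    · rw [h]; ring
  rw [h2] at h1
  have h3 : ∑ e, (if o e then gr src tgt f e * gr src tgt (fun x => ζ x ^ 2 * f x) e else 0) =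
      ∑ e, (if o e then gr src tgt (fun x => ζ x * f x) e ^ 2 else 0) -
        ∑ e, if o e then f (src e) * f (tgt e) * gr src tgt ζ e ^ 2 else 0 := by
    rw [← Finset.sum_sub_distrib]
    refine Finset.sum_congr rfl fun e _ => ?_
    unfold gr
    split_ifs <;> ring
  rw [h3] at h1
  have h4 : 0 ≤ μ * ∑ x, f x * (ζ x ^ 2 * f x) := by
    refine mul_nonneg hμ.le (Finset.sum_nonneg fun x _ => ?_)
    have : f x * (ζ x ^ 2 * f x) = (ζ x * f x) ^ 2 := by ring
    rw [this]
    exact sq_nonneg _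
  linarith

end OP1

end Pool.Agent.Lib.MP_566bac_pr.Hd
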