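import Pool.Agent.Lib.MP_566bac_pr.Hd.GSR

/-!
# Bounds for the Green function
-/

open Finset Filter
open scoped Classical

namespace Pool.Agent.Lib.MP_566bac_pr.Hd

variable {d : ℕ}

namespace GBaux

open HKaux GSRaux

section

variable {N : ℕ} [NeZero N]

/-- semigroup property -/
theorem iter_pair (o : Tor N d × Fin d → Bool) (a b : Tor N d) (j k : ℕ) :
    ∑ x, ((Pop o)^[j] (Pi.single a 1)) x * ((Pop o)^[k] (Pi.single b 1)) x =
      ((Pop o)^[j + k] (Pi.single a 1)) b := by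
  induction k generalizing j with
  | zero =>
    simp only [Function.iterate_zero, id, add_zero]
    rw [Finset.sum_eq_single b]
    · simp
    · intro x _ hx
      simp [hx]
    · intro h
      exact absurd (Finset.mem_univ b) h
  | succ k ih =>
    rw [Function.iterate_succ_apply' (Pop o) k, ← pop_symm, ← Function.iterate_succ_apply' (Pop o) j,
      ih (j + 1), show j + 1 + k = j + (k + 1) by omega]

theorem pair_le {o : Tor N d × Fin d → Bool} {a b : Tor N d} {j k : ℕ} {B : ℝ}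
    (h1 : hk o a j ≤ B) (h2 : hk o b k ≤ B) : ((Pop o)^[j + k] (Pi.single a 1)) b ≤ B := by
  rw [← iter_pair]
  unfold hk at h1 h2
  have h3 : ∑ x, ((Pop o)^[j] (Pi.single a 1)) x * ((Pop o)^[k] (Pi.single b 1)) x ≤
      ∑ x, (((Pop o)^[j] (Pi.single a 1)) x ^ 2 / 2 + ((Pop o)^[k] (Pi.single b 1)) x ^ 2 / 2) := by
    refine Finset.sum_le_sum fun x _ => ?_
    nlinarith [sq_nonneg (((Pop o)^[j] (Pi.single a 1)) x - ((Pop o)^[k] (Pi.single b 1)) x)]
  rw [Finset.sum_add_distrib, ← Finset.sum_div, ← Finset.sum_div] at h3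
  linarith

end

theorem rp (d : ℕ) {n : ℕ} (hn : 1 ≤ n) :
    (n : ℝ) ^ (-(d : ℝ) / 2) = 1 / √(n : ℝ) ^ d := by
  have hn' : (0 : ℝ) < n := by exact_mod_cast hn
  rw [Real.sqrt_eq_rpow, ← Real.rpow_natCast, ← Real.rpow_mul hn'.le, one_div,
    ← Real.rpow_neg hn'.le]
  congr 1
  ring

theorem ker_bd (d : ℕ) (hd : 1 ≤ d) : ∃ C : ℕ, 1 ≤ C ∧ ∀ {N : ℕ} [NeZero N], 64 ≤ N →
    ∀ {o : Tor N d × Fin d → Bool} {S : Set (Tor N d)} {L : ℝ}, 1 ≤ L → Nash o S L →
      (∀ e, o e = true → (tsrc e ∈ S ↔ ttgt e ∈ S)) → ∀ a ∈ S, ∀ n : ℕ, 1 ≤ n → ∀ y,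
        ((Pop o)^[n] (Pi.single a 1)) y ≤
          C * L ^ C * (1 / √(n : ℝ) ^ d + 1 / (N : ℝ) ^ d) := by
  obtain ⟨C1, h⟩ := heat_kernel d hd
  refine ⟨3 ^ d * (C1 + 1) + C1, ?_, ?_⟩
  · have := Nat.one_le_pow d 3 (by norm_num)
    nlinarith
  intro N _ hN64 o S L hL hN hS a ha n hn y
  set C : ℕ := 3 ^ d * (C1 + 1) + C1 with hC
  have hL' : (0 : ℝ) < L := by linarith
  have hN' : (0 : ℝ) < N := by
    have : 0 < N := by omega
    exact_mod_cast this
  have hCr : (C : ℝ) = 3 ^ d * ((C1 : ℝ) + 1) + C1 := by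
    rw [hC]
    push_cast
    ring
  have hLC : L ^ C1 ≤ L ^ C := pow_le_pow_right₀ hL (by rw [hC]; omega)
  have hLC1 : (1 : ℝ) ≤ L ^ C := one_le_pow₀ hL
  have h3d : (1 : ℝ) ≤ 3 ^ d := one_le_pow₀ (by norm_num)
  have hpos : 0 < 1 / √(n : ℝ) ^ d := by
    have : (0 : ℝ) < n := by exact_mod_cast hn
    positivity
  have hpos2 : 0 < 1 / (N : ℝ) ^ d := by positivity
  by_cases hy : y ∈ S
  · rcases Nat.lt_or_ge n 2 with hn2 | hn2
    · have hn1 : n = 1 := by omega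
      subst hn1
      have h1 := iter_le_one hd o a 1 y
      have h2 : (1 : ℝ) ≤ C := by
        rw [hCr]
        have : (0 : ℝ) ≤ C1 := Nat.cast_nonneg _
        nlinarith
      have h3 : (1 : ℝ) ≤ C * L ^ C := one_le_mul_of_one_le_of_one_le h2 hLC1
      have h4 : (1 : ℝ) ≤ 1 / √((1 : ℕ) : ℝ) ^ d + 1 / (N : ℝ) ^ d := by
        simp only [Nat.cast_one, Real.sqrt_one, one_pow, div_one]
        linarith
      calc _ ≤ (1 : ℝ) := h1
        _ ≤ _ := one_le_mul_of_one_le_of_one_le h3 h4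
    · set m := n / 2 with hm
      have hm1 : 1 ≤ m := by omega
      have hm' : (0 : ℝ) < m := by exact_mod_cast hm1
      have hn' : (0 : ℝ) < n := by exact_mod_cast (by omega : 0 < n)
      have e1 : n = m + (n - m) := by omega
      set B : ℝ := C1 * L ^ C1 * ((m : ℝ) ^ (-(d : ℝ) / 2) + (N : ℝ) ^ (-(d : ℝ))) with hB
      have b1 : hk o a m ≤ B := h hN64 hL hN hS a ha m hm1
      have b2 : hk o y (n - m) ≤ B :=
        le_trans (hk_anti hd o y (by omega : m ≤ n - m)) (h hN64 hL hN hS y hy m hm1)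
      have b3 := pair_le b1 b2
      rw [← e1] at b3
      refine le_trans b3 ?_
      have h5 : 1 / √(m : ℝ) ^ d ≤ 3 ^ d * (1 / √(n : ℝ) ^ d) := by
        have h6 : √(n : ℝ) ≤ 3 * √(m : ℝ) := by
          rw [show (3 : ℝ) * √(m : ℝ) = √(9 * m) by
            rw [Real.sqrt_mul (by norm_num), show (9 : ℝ) = 3 ^ 2 by norm_num,
              Real.sqrt_sq (by norm_num)]]
          refine Real.sqrt_le_sqrt ?_
          have : n ≤ 9 * m := by omega
          exact_mod_cast this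
        have h7 : √(n : ℝ) ^ d ≤ (3 * √(m : ℝ)) ^ d :=
          pow_le_pow_left₀ (Real.sqrt_nonneg _) h6 d
        have s1 : 0 < √(m : ℝ) := Real.sqrt_pos.2 hm'
        have s2 : 0 < √(n : ℝ) := Real.sqrt_pos.2 hn'
        rw [mul_pow] at h7
        rw [mul_one_div, div_le_div_iff₀ (by positivity) (by positivity), one_mul]
        exact h7
      rw [hB, rp d hm1, Real.rpow_neg hN'.le, Real.rpow_natCast, ← one_div]
      have h8 : 1 / √(m : ℝ) ^ d + 1 / (N : ℝ) ^ d ≤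
          3 ^ d * (1 / √(n : ℝ) ^ d + 1 / (N : ℝ) ^ d) := by
        have : 1 / (N : ℝ) ^ d ≤ 3 ^ d * (1 / (N : ℝ) ^ d) := le_mul_of_one_le_left hpos2.le h3d
        rw [mul_add]
        linarith
      calc C1 * L ^ C1 * (1 / √(m : ℝ) ^ d + 1 / (N : ℝ) ^ d)
          ≤ C1 * L ^ C1 * (3 ^ d * (1 / √(n : ℝ) ^ d + 1 / (N : ℝ) ^ d)) :=
            mul_le_mul_of_nonneg_left h8 (by positivity)
        _ = (3 ^ d * C1) * L ^ C1 * (1 / √(n : ℝ) ^ d + 1 / (N : ℝ) ^ d) := by ring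
        _ ≤ C * L ^ C * (1 / √(n : ℝ) ^ d + 1 / (N : ℝ) ^ d) := by
            refine mul_le_mul_of_nonneg_right ?_ (by positivity)
            refine mul_le_mul ?_ hLC (by positivity) (by positivity)
            rw [hCr]
            have : (0 : ℝ) ≤ C1 := Nat.cast_nonneg _
            nlinarith
  · rw [iter_supp o hS ha n y hy]
    positivity

/-! ## sums -/

theorem tel (k : ℕ) (hk : 1 ≤ k) :
    1 / √(k : ℝ) ^ 3 ≤ 6 * (1 / √(k : ℝ) - 1 / √((k + 1 : ℕ) : ℝ)) := by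
  have hk' : (1 : ℝ) ≤ k := by exact_mod_cast hk
  set a := √(k : ℝ) with ha
  set b := √((k + 1 : ℕ) : ℝ) with hb
  have ha0 : 0 < a := Real.sqrt_pos.2 (by linarith)
  have hb0 : 0 < b := Real.sqrt_pos.2 (by push_cast; linarith)
  have ha2 : a ^ 2 = k := Real.sq_sqrt (by linarith)
  have hb2 : b ^ 2 = k + 1 := by
    rw [hb, Real.sq_sqrt (by positivity)]
    push_cast
    ring
  have hab : a ≤ b := Real.sqrt_le_sqrt (by push_cast; linarith)
  have hb3 : b ^ 2 ≤ 2 * a ^ 2 := by rw [ha2, hb2]; linarith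
  have hba : b ≤ 3 / 2 * a := by nlinarith
  have h1 : 1 / a - 1 / b = 1 / (a * b * (a + b)) := by
    have : (b - a) * (a + b) = 1 := by nlinarith
    field_simp
    linarith
  rw [h1, mul_one_div, div_le_div_iff₀ (by positivity) (by positivity), one_mul]
  have h2 : b * (a + b) ≤ (3 / 2 * a) * (a + 3 / 2 * a) :=
    mul_le_mul hba (by linarith) (by positivity) (by positivity)
  have h3 : a * b * (a + b) ≤ a * ((3 / 2 * a) * (a + 3 / 2 * a)) := by
    rw [mul_assoc]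
    exact mul_le_mul_of_nonneg_left h2 ha0.le
  nlinarith [pow_pos ha0 3]

theorem sum_tail (m : ℕ) (hm : 1 ≤ m) (n : ℕ) :
    ∑ k ∈ Finset.range n, 1 / √((m + k : ℕ) : ℝ) ^ 3 ≤ 6 * (1 / √(m : ℝ)) := by
  have h : ∑ k ∈ Finset.range n, 1 / √((m + k : ℕ) : ℝ) ^ 3 ≤
      6 * (1 / √(m : ℝ) - 1 / √((m + n : ℕ) : ℝ)) := by
    induction n with
    | zero => simp
    | succ n ih =>
      rw [Finset.sum_range_succ]
      have h1 := tel (m + n) (by omega)
      have h2 : ((m + (n + 1) : ℕ) : ℝ) = ((m + n + 1 : ℕ) : ℝ) := by push_cast; ring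
      rw [h2]
      linarith
  have h2 : 0 ≤ 1 / √((m + n : ℕ) : ℝ) := by positivity
  linarith

theorem sum_sqrt (n : ℕ) :
    ∑ k ∈ Finset.range n, 1 / √((1 + k : ℕ) : ℝ) ≤ 2 * √(n : ℝ) := by
  induction n with
  | zero => simp
  | succ n ih =>
    rw [Finset.sum_range_succ]
    have e : ((1 + n : ℕ) : ℝ) = (n : ℝ) + 1 := by push_cast; ring
    have e2 : ((n + 1 : ℕ) : ℝ) = (n : ℝ) + 1 := by push_cast; ring
    rw [e, e2]
    have hn : (0 : ℝ) ≤ n := Nat.cast_nonneg _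
    set a := √(n : ℝ) with ha
    set b := √((n : ℝ) + 1) with hb
    have ha0 : 0 ≤ a := Real.sqrt_nonneg _
    have hb0 : 0 < b := Real.sqrt_pos.2 (by linarith)
    have ha2 : a ^ 2 = n := Real.sq_sqrt hn
    have hb2 : b ^ 2 = n + 1 := Real.sq_sqrt (by linarith)
    have h1 : 1 / b ≤ 2 * b - 2 * a := by
      rw [div_le_iff₀ hb0]
      nlinarith [sq_nonneg (b - a)]
    linarith

theorem geo (hd : 1 ≤ d) {s : ℕ} (hs : 1 ≤ s) (n : ℕ) :
    ∑ k ∈ Finset.range n, (1 / (4 * (d : ℝ))) * ((1 + 1 / (s : ℝ) ^ 2 / (4 * d))⁻¹) ^ (k + 1) ≤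
      (s : ℝ) ^ 2 := by
  have hd' : (0 : ℝ) < d := by exact_mod_cast hd
  have hs' : (0 : ℝ) < s := by exact_mod_cast hs
  have h : ∀ n : ℕ, ∑ k ∈ Finset.range n,
      (1 / (4 * (d : ℝ))) * ((1 + 1 / (s : ℝ) ^ 2 / (4 * d))⁻¹) ^ (k + 1) =
      (s : ℝ) ^ 2 * (1 - ((1 + 1 / (s : ℝ) ^ 2 / (4 * d))⁻¹) ^ n) := by
    intro n
    induction n with
    | zero => simp
    | succ n ih =>
      rw [Finset.sum_range_succ, ih]
      set l := (1 + 1 / (s : ℝ) ^ 2 / (4 * (d : ℝ)))⁻¹ with hl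
      have h1 : 1 / (4 * (d : ℝ)) * l = (s : ℝ) ^ 2 * (1 - l) := by
        rw [hl]
        have : (1 + 1 / (s : ℝ) ^ 2 / (4 * (d : ℝ))) ≠ 0 := by positivity
        have h2 : (1 + 1 / (s : ℝ) ^ 2 / (4 * (d : ℝ))) = (4 * d * (s : ℝ) ^ 2 + 1) / (4 * d * (s : ℝ) ^ 2) := by
          field_simp
        rw [h2, inv_div]
        field_simp
        ring
      have h3 : 1 / (4 * (d : ℝ)) * l ^ (n + 1) = l ^ n * (1 / (4 * (d : ℝ)) * l) := by ring
      rw [h3, h1]
      ring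
  rw [h n]
  have h2 : 0 ≤ ((1 + 1 / (s : ℝ) ^ 2 / (4 * d))⁻¹) ^ n := by positivity
  nlinarith [pow_pos hs' 2]

theorem shift_sum (m n : ℕ) (g : ℕ → ℝ) (hg : ∀ k, 0 ≤ g k) :
    ∑ k ∈ Finset.range n, (if m ≤ k then g k else 0) ≤ ∑ j ∈ Finset.range n, g (m + j) := by
  rw [← Finset.sum_filter]
  have h1 : ∑ j ∈ Finset.range n, g (m + j) = ∑ k ∈ Finset.Ico m (m + n), g k := by
    rw [Finset.sum_Ico_eq_sum_range, Nat.add_sub_cancel_left]
  rw [h1]
  refine Finset.sum_le_sum_of_subset_of_nonneg ?_ fun k _ _ => hg k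
  intro k hk
  rw [Finset.mem_filter, Finset.mem_range] at hk
  rw [Finset.mem_Ico]
  omega

theorem lam_low (hd : 1 ≤ d) {r : ℕ} (hr : 1 ≤ r) {k : ℕ} (hk : k + 1 ≤ r ^ 2) :
    1 / 3 ≤ ((1 + 1 / (r : ℝ) ^ 2 / (4 * (d : ℝ)))⁻¹) ^ (k + 1) := by
  have hd' : (1 : ℝ) ≤ d := by exact_mod_cast hd
  have hr' : (0 : ℝ) < r := by exact_mod_cast hr
  set x := 1 / (r : ℝ) ^ 2 / (4 * (d : ℝ)) with hx
  have hx0 : 0 < x := by positivity
  have h1 : (1 + x) ^ (k + 1) ≤ Real.exp 1 := by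
    calc (1 + x) ^ (k + 1) ≤ (Real.exp x) ^ (k + 1) := by
          refine pow_le_pow_left₀ (by positivity) ?_ _
          have := Real.add_one_le_exp x
          linarith
      _ = Real.exp (((k + 1 : ℕ) : ℝ) * x) := (Real.exp_nat_mul x (k + 1)).symm
      _ ≤ Real.exp 1 := by
          refine Real.exp_le_exp.2 ?_
          have h2 : ((k + 1 : ℕ) : ℝ) ≤ (r : ℝ) ^ 2 := by exact_mod_cast hk
          have h3 : (r : ℝ) ^ 2 * x = 1 / (4 * d) := by
            rw [hx]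
            field_simp
          have h4 : 1 / (4 * (d : ℝ)) ≤ 1 := by
            rw [div_le_one (by positivity)]
            linarith
          have h5 := mul_le_mul_of_nonneg_right h2 hx0.le
          linarith
  have h2 := Real.exp_one_lt_d9
  rw [inv_pow, one_div]
  exact inv_anti₀ (by positivity) (by linarith)

theorem lam_le (hd : 1 ≤ d) (s k : ℕ) :
    ((1 + 1 / (s : ℝ) ^ 2 / (4 * (d : ℝ)))⁻¹) ^ k ≤ 1 := by
  have h0 : (1 : ℝ) ≤ 1 + 1 / (s : ℝ) ^ 2 / (4 * (d : ℝ)) := by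
    have : 0 ≤ 1 / (s : ℝ) ^ 2 / (4 * (d : ℝ)) := by positivity
    linarith
  exact pow_le_one₀ (by positivity) (inv_le_one_of_one_le₀ h0)

section

variable {N : ℕ} [NeZero N]

theorem part3 (hd : 3 ≤ d) {K : ℝ} (hK : 0 ≤ K) {s : ℕ} (hNs : N = 16 * s) (hs : 4 ≤ s)
    (o : Tor N d × Fin d → Bool) (a y : Tor N d)
    (hker : ∀ n : ℕ, 1 ≤ n → ((Pop o)^[n] (Pi.single a 1)) y ≤
      K * (1 / √(n : ℝ) ^ d + 1 / (N : ℝ) ^ d)) {r : ℕ} (hr : 1 ≤ r) (hrN : r ≤ N) :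
    sol tsrc ttgt (1 / (s : ℝ) ^ 2) o (Pi.single a 1) y ≤
      3 * sol tsrc ttgt (1 / (r : ℝ) ^ 2) o (Pi.single a 1) y + 7 * K / (r : ℝ) ^ (d - 2) := by
  have hd1 : 1 ≤ d := by omega
  have hd' : (3 : ℝ) ≤ d := by exact_mod_cast hd
  have hr' : (0 : ℝ) < r := by exact_mod_cast hr
  have hr1 : (1 : ℝ) ≤ r := by exact_mod_cast hr
  have hs' : (0 : ℝ) < s := by exact_mod_cast (by omega : 0 < s)
  have hN' : (0 : ℝ) < N := by
    have : 0 < N := by omega
    exact_mod_cast this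
  have hNr : (N : ℝ) = 16 * s := by
    rw [hNs]
    push_cast
    ring
  have S1 := series hd1 (μ := 1 / (s : ℝ) ^ 2) (by positivity) o a y
  have S2 := series hd1 (μ := 1 / (r : ℝ) ^ 2) (by positivity) o a y
  refine le_of_tendsto' S1.tendsto_sum_nat fun n => ?_
  have hu : ∀ k, 0 ≤ ((Pop o)^[k] (Pi.single a 1)) y := fun k => iter_nonneg hd1 o a k y
  have h2 : ∑ k ∈ Finset.range n, (1 / (4 * d)) * ((1 + 1 / (r : ℝ) ^ 2 / (4 * d))⁻¹) ^ (k + 1) *
      ((Pop o)^[k] (Pi.single a 1)) y ≤ sol tsrc ttgt (1 / (r : ℝ) ^ 2) o (Pi.single a 1) y :=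
    sum_le_hasSum _ (fun k _ => mul_nonneg (by positivity) (hu k)) S2
  set g : ℕ → ℝ := fun k => 1 / √(k : ℝ) ^ 3 with hg
  have hterm : ∀ k ∈ Finset.range n,
      (1 / (4 * (d : ℝ))) * ((1 + 1 / (s : ℝ) ^ 2 / (4 * d))⁻¹) ^ (k + 1) *
        ((Pop o)^[k] (Pi.single a 1)) y ≤
      3 * ((1 / (4 * d)) * ((1 + 1 / (r : ℝ) ^ 2 / (4 * d))⁻¹) ^ (k + 1) *
        ((Pop o)^[k] (Pi.single a 1)) y) +
      (K / (r : ℝ) ^ (d - 3) * (if r ^ 2 ≤ k then g k else 0) +
        K / (N : ℝ) ^ d * ((1 / (4 * (d : ℝ))) * ((1 + 1 / (s : ℝ) ^ 2 / (4 * d))⁻¹) ^ (k + 1))) := by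
    intro k _
    have hc0 : 0 ≤ (1 / (4 * (d : ℝ))) * ((1 + 1 / (s : ℝ) ^ 2 / (4 * d))⁻¹) ^ (k + 1) := by
      positivity
    by_cases hk : r ^ 2 ≤ k
    · rw [if_pos hk]
      have hk1 : 1 ≤ k := le_trans (Nat.one_le_pow _ _ hr) hk
      have hk' : (0 : ℝ) < k := by exact_mod_cast hk1
      have q1 := hker k hk1
      have q2 : 1 / √(k : ℝ) ^ d ≤ 1 / (r : ℝ) ^ (d - 3) * g k := by
        have q3 : (r : ℝ) ≤ √(k : ℝ) := by
          rw [← Real.sqrt_sq hr'.le]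
          refine Real.sqrt_le_sqrt ?_
          exact_mod_cast hk
        have q4 : √(k : ℝ) ^ d = √(k : ℝ) ^ (d - 3) * √(k : ℝ) ^ 3 := by
          rw [← pow_add]
          congr 1
          omega
        have q5 : (r : ℝ) ^ (d - 3) ≤ √(k : ℝ) ^ (d - 3) := pow_le_pow_left₀ hr'.le q3 _
        have q6 : 0 < √(k : ℝ) := Real.sqrt_pos.2 hk'
        rw [hg, q4, one_div_mul_one_div]
        refine one_div_le_one_div_of_le (by positivity) ?_
        exact mul_le_mul_of_nonneg_right q5 (by positivity)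
      have hg0 : 0 ≤ g k := by
        rw [hg]
        positivity
      have hc1 : (1 / (4 * (d : ℝ))) * ((1 + 1 / (s : ℝ) ^ 2 / (4 * d))⁻¹) ^ (k + 1) ≤ 1 := by
        have h5 := lam_le hd1 s (k + 1)
        have h6 : 1 / (4 * (d : ℝ)) ≤ 1 := by
          rw [div_le_one (by positivity)]
          linarith
        exact mul_le_one₀ h6 (by positivity) h5
      have q7 : 0 ≤ 3 * ((1 / (4 * d)) * ((1 + 1 / (r : ℝ) ^ 2 / (4 * d))⁻¹) ^ (k + 1) *
        ((Pop o)^[k] (Pi.single a 1)) y) :=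
        mul_nonneg (by norm_num) (mul_nonneg (by positivity) (hu k))
      set c := (1 / (4 * (d : ℝ))) * ((1 + 1 / (s : ℝ) ^ 2 / (4 * d))⁻¹) ^ (k + 1) with hc
      calc c * ((Pop o)^[k] (Pi.single a 1)) y
          ≤ c * (K * (1 / √(k : ℝ) ^ d + 1 / (N : ℝ) ^ d)) := mul_le_mul_of_nonneg_left q1 hc0
        _ = c * (K * (1 / √(k : ℝ) ^ d)) + K / (N : ℝ) ^ d * c := by ring
        _ ≤ 1 * (K * (1 / (r : ℝ) ^ (d - 3) * g k)) + K / (N : ℝ) ^ d * c := by
            gcongr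
        _ = (K / (r : ℝ) ^ (d - 3) * g k + K / (N : ℝ) ^ d * c) := by ring
        _ ≤ _ := by linarith
    · rw [if_neg hk, mul_zero, zero_add]
      push Not at hk
      have q1 := lam_low hd1 hr (k := k) (by omega)
      have q2 := lam_le hd1 s (k + 1)
      have q3 : 0 ≤ K / (N : ℝ) ^ d *
        ((1 / (4 * (d : ℝ))) * ((1 + 1 / (s : ℝ) ^ 2 / (4 * d))⁻¹) ^ (k + 1)) := by positivity
      have q4 : (1 / (4 * (d : ℝ))) * ((1 + 1 / (s : ℝ) ^ 2 / (4 * d))⁻¹) ^ (k + 1) ≤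
          3 * ((1 / (4 * d)) * ((1 + 1 / (r : ℝ) ^ 2 / (4 * d))⁻¹) ^ (k + 1)) := by
        have : 3 * ((1 / (4 * d)) * ((1 + 1 / (r : ℝ) ^ 2 / (4 * d))⁻¹) ^ (k + 1)) =
          (1 / (4 * (d : ℝ))) * (3 * ((1 + 1 / (r : ℝ) ^ 2 / (4 * d))⁻¹) ^ (k + 1)) := by ring
        rw [this]
        refine mul_le_mul_of_nonneg_left ?_ (by positivity)
        linarith
      have q5 := mul_le_mul_of_nonneg_right q4 (hu k)
      linarith
  refine le_trans (Finset.sum_le_sum hterm) ?_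
  rw [Finset.sum_add_distrib, Finset.sum_add_distrib, ← Finset.mul_sum, ← Finset.mul_sum,
    ← Finset.mul_sum]
  have h3 : ∑ k ∈ Finset.range n, (if r ^ 2 ≤ k then g k else 0) ≤ 6 / r := by
    refine le_trans (shift_sum (r ^ 2) n g fun k => by rw [hg]; positivity) ?_
    refine le_trans (sum_tail (r ^ 2) (Nat.one_le_pow _ _ hr) n) ?_
    have : √((r ^ 2 : ℕ) : ℝ) = r := by
      push_cast
      exact Real.sqrt_sq hr'.le
    rw [this]
    exact le_of_eq (by ring)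
  have h4 := geo hd1 (s := s) (by omega) n
  have h5 : K / (r : ℝ) ^ (d - 3) * ∑ k ∈ Finset.range n, (if r ^ 2 ≤ k then g k else 0) ≤
      6 * K / (r : ℝ) ^ (d - 2) := by
    refine le_trans (mul_le_mul_of_nonneg_left h3 (by positivity)) (le_of_eq ?_)
    have : (r : ℝ) ^ (d - 2) = (r : ℝ) ^ (d - 3) * r := by
      rw [← pow_succ]
      congr 1
      omega
    rw [this]
    field_simp
  have h6 : K / (N : ℝ) ^ d * ∑ k ∈ Finset.range n,
      (1 / (4 * (d : ℝ))) * ((1 + 1 / (s : ℝ) ^ 2 / (4 * d))⁻¹) ^ (k + 1) ≤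
      K / (r : ℝ) ^ (d - 2) := by
    refine le_trans (mul_le_mul_of_nonneg_left h4 (by positivity)) ?_
    have e1 : (N : ℝ) ^ d = (N : ℝ) ^ (d - 2) * (N : ℝ) ^ 2 := by
      rw [← pow_add]
      congr 1
      omega
    have e2 : K / (N : ℝ) ^ d * (s : ℝ) ^ 2 = K / (N : ℝ) ^ (d - 2) * (1 / 256) := by
      rw [e1, hNr]
      field_simp
      norm_num
    rw [e2]
    have e3 : K / (N : ℝ) ^ (d - 2) ≤ K / (r : ℝ) ^ (d - 2) := by
      refine div_le_div_of_nonneg_left hK (by positivity) ?_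
      exact pow_le_pow_left₀ hr'.le (by exact_mod_cast hrN) _
    have e4 : 0 ≤ K / (N : ℝ) ^ (d - 2) := by positivity
    linarith
  have h7 : 6 * K / (r : ℝ) ^ (d - 2) + K / (r : ℝ) ^ (d - 2) = 7 * K / (r : ℝ) ^ (d - 2) := by
    ring
  linarith

/-- an auxiliary function -/
noncomputable def vv (j : ℕ) : ℝ := 1 / √((max 1 j : ℕ) : ℝ)

noncomputable def gg (m : ℕ) : ℝ := if m = 0 then 1 else 1 / √(m : ℝ) ^ 3

theorem gg_nonneg (m : ℕ) : 0 ≤ gg m := by
  unfold gg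
  split_ifs <;> positivity

theorem vv_nonneg (m : ℕ) : 0 ≤ vv m := by
  unfold vv
  positivity

theorem gg_sum (j n : ℕ) : ∑ k ∈ Finset.range n, gg (j + k) ≤ 7 * vv j := by
  rcases Nat.eq_zero_or_pos j with rfl | hj
  · have hv : vv 0 = 1 := by
      unfold vv
      simp
    rw [hv]
    cases n with
    | zero => simp
    | succ n =>
      rw [Finset.sum_range_succ']
      have h1 := sum_tail 1 le_rfl n
      have h2 : ∑ k ∈ Finset.range n, gg (0 + (k + 1)) =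
          ∑ k ∈ Finset.range n, 1 / √((1 + k : ℕ) : ℝ) ^ 3 := by
        refine Finset.sum_congr rfl fun k _ => ?_
        unfold gg
        rw [if_neg (by omega)]
        congr 4
        omega
      have h3 : gg (0 + 0) = 1 := by
        unfold gg
        simp
      rw [h2, h3]
      simp only [Nat.cast_one, Real.sqrt_one, div_one, mul_one] at h1
      linarith
  · have h1 := sum_tail j hj n
    have h2 : ∑ k ∈ Finset.range n, gg (j + k) =
        ∑ k ∈ Finset.range n, 1 / √((j + k : ℕ) : ℝ) ^ 3 := by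
      refine Finset.sum_congr rfl fun k _ => ?_
      unfold gg
      rw [if_neg (by omega)]
    have h3 : vv j = 1 / √(j : ℝ) := by
      unfold vv
      rw [max_eq_right hj]
    rw [h2, h3]
    have : 0 ≤ 1 / √(j : ℝ) := by positivity
    linarith

theorem vv_sum (s n : ℕ) :
    ∑ j ∈ Finset.range n, (if j ≤ s ^ 2 then vv j else 0) ≤ 1 + 2 * (s : ℝ) := by
  rw [← Finset.sum_filter]
  have h1 : ∑ j ∈ (Finset.range n).filter (fun j => j ≤ s ^ 2), vv j ≤
      ∑ j ∈ Finset.range (s ^ 2 + 1), vv j := by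
    refine Finset.sum_le_sum_of_subset_of_nonneg ?_ fun k _ _ => vv_nonneg k
    intro k hk
    rw [Finset.mem_filter, Finset.mem_range] at hk
    rw [Finset.mem_range]
    omega
  refine le_trans h1 ?_
  rw [Finset.sum_range_succ']
  have h2 := sum_sqrt (s ^ 2)
  have h3 : ∑ k ∈ Finset.range (s ^ 2), vv (k + 1) =
      ∑ k ∈ Finset.range (s ^ 2), 1 / √((1 + k : ℕ) : ℝ) := by
    refine Finset.sum_congr rfl fun k _ => ?_
    unfold vv
    congr 3
    omega
  have h4 : vv 0 = 1 := by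
    unfold vv
    simp
  have h5 : √((s ^ 2 : ℕ) : ℝ) = s := by
    push_cast
    exact Real.sqrt_sq (Nat.cast_nonneg s)
  rw [h3, h4]
  rw [h5] at h2
  linarith

theorem part1 (hd : 3 ≤ d) {K : ℝ} (hK : 1 ≤ K) {s : ℕ} (hNs : N = 16 * s) (hs : 4 ≤ s)
    (o : Tor N d × Fin d → Bool) (a : Tor N d)
    (hker : ∀ n : ℕ, 1 ≤ n → ((Pop o)^[n] (Pi.single a 1)) a ≤
      K * (1 / √(n : ℝ) ^ d + 1 / (N : ℝ) ^ d)) :
    ∑ x, sol tsrc ttgt (1 / (s : ℝ) ^ 2) o (Pi.single a 1) x ^ 2 ≤ 29 * K * s := by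
  have hd1 : 1 ≤ d := by omega
  have hd' : (3 : ℝ) ≤ d := by exact_mod_cast hd
  have hs' : (0 : ℝ) < s := by exact_mod_cast (by omega : 0 < s)
  have hs1 : (1 : ℝ) ≤ s := by exact_mod_cast (by omega : 1 ≤ s)
  have hN' : (0 : ℝ) < N := by
    have : 0 < N := by omega
    exact_mod_cast this
  have hN1 : (1 : ℝ) ≤ N := by
    have : 1 ≤ N := by omega
    exact_mod_cast this
  have hNr : (N : ℝ) = 16 * s := by
    rw [hNs]
    push_cast
    ring
  set c : ℕ → ℝ := fun k =>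
    (1 / (4 * (d : ℝ))) * ((1 + 1 / (s : ℝ) ^ 2 / (4 * d))⁻¹) ^ (k + 1) with hc
  have hc0 : ∀ k, 0 ≤ c k := fun k => by
    rw [hc]
    positivity
  have h4d : 1 / (4 * (d : ℝ)) ≤ 1 := by
    rw [div_le_one (by positivity)]
    linarith
  have hc1 : ∀ k, c k ≤ 1 / (4 * d) := fun k => by
    have h5 := lam_le hd1 s (k + 1)
    have : 0 ≤ 1 / (4 * (d : ℝ)) := by positivity
    calc c k ≤ 1 / (4 * (d : ℝ)) * 1 := mul_le_mul_of_nonneg_left h5 this
      _ = 1 / (4 * (d : ℝ)) := mul_one _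
  have S1 : ∀ x, HasSum (fun k => c k * ((Pop o)^[k] (Pi.single a 1)) x)
      (sol tsrc ttgt (1 / (s : ℝ) ^ 2) o (Pi.single a 1) x) := fun x =>
    series hd1 (μ := 1 / (s : ℝ) ^ 2) (by positivity) o a x
  have T1 : Tendsto (fun n => ∑ x, (∑ k ∈ Finset.range n,
      c k * ((Pop o)^[k] (Pi.single a 1)) x) ^ 2) atTop
      (nhds (∑ x, sol tsrc ttgt (1 / (s : ℝ) ^ 2) o (Pi.single a 1) x ^ 2)) :=
    tendsto_finsetSum _ fun x _ => ((S1 x).tendsto_sum_nat).pow 2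
  refine le_of_tendsto' T1 fun n => ?_
  have hgeo : ∑ k ∈ Finset.range n, c k ≤ (s : ℝ) ^ 2 := geo hd1 (by omega) n
  -- the double sum
  have e1 : ∑ x, (∑ k ∈ Finset.range n, c k * ((Pop o)^[k] (Pi.single a 1)) x) ^ 2 =
      ∑ j ∈ Finset.range n, c j * ∑ k ∈ Finset.range n,
        c k * ((Pop o)^[j + k] (Pi.single a 1)) a := by
    have e2 : ∀ x, (∑ k ∈ Finset.range n, c k * ((Pop o)^[k] (Pi.single a 1)) x) ^ 2 =
        ∑ j ∈ Finset.range n, ∑ k ∈ Finset.range n, c j * (c k *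
          (((Pop o)^[j] (Pi.single a 1)) x * ((Pop o)^[k] (Pi.single a 1)) x)) := by
      intro x
      rw [sq, Finset.sum_mul_sum]
      refine Finset.sum_congr rfl fun j _ => Finset.sum_congr rfl fun k _ => ?_
      ring
    rw [Finset.sum_congr rfl fun x _ => e2 x, Finset.sum_comm]
    refine Finset.sum_congr rfl fun j _ => ?_
    rw [Finset.sum_comm, Finset.mul_sum]
    refine Finset.sum_congr rfl fun k _ => ?_
    rw [← Finset.mul_sum, ← Finset.mul_sum, iter_pair]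
  rw [e1]
  -- bound for the kernel
  have hu : ∀ m, ((Pop o)^[m] (Pi.single a 1)) a ≤ K * (gg m + 1 / (N : ℝ) ^ 3) := by
    intro m
    rcases Nat.eq_zero_or_pos m with rfl | hm
    · have h1 := iter_le_one hd1 o a 0 a
      have h2 : gg 0 = 1 := by
        unfold gg
        simp
      rw [h2]
      have h3 : 0 ≤ 1 / (N : ℝ) ^ 3 := by positivity
      nlinarith
    · have h1 := hker m hm
      have hm' : (1 : ℝ) ≤ m := by exact_mod_cast hm
      have hm1 : 1 ≤ √(m : ℝ) := by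
        rw [← Real.sqrt_one]
        exact Real.sqrt_le_sqrt hm'
      have h2 : gg m = 1 / √(m : ℝ) ^ 3 := by
        unfold gg
        rw [if_neg (by omega)]
      rw [h2]
      refine le_trans h1 (mul_le_mul_of_nonneg_left (add_le_add ?_ ?_) (by linarith))
      · exact one_div_le_one_div_of_le (by positivity) (pow_le_pow_right₀ hm1 hd)
      · exact one_div_le_one_div_of_le (by positivity) (pow_le_pow_right₀ hN1 hd)
  have hin : ∀ j, ∑ k ∈ Finset.range n, c k * ((Pop o)^[j + k] (Pi.single a 1)) a ≤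
      K * (7 * vv j + (s : ℝ) ^ 2 / (N : ℝ) ^ 3) := by
    intro j
    have h1 : ∀ k ∈ Finset.range n, c k * ((Pop o)^[j + k] (Pi.single a 1)) a ≤
        K * gg (j + k) + K / (N : ℝ) ^ 3 * c k := by
      intro k _
      have h2 := mul_le_mul_of_nonneg_left (hu (j + k)) (hc0 k)
      have h3 : c k * (K * gg (j + k)) ≤ 1 * (K * gg (j + k)) :=
        mul_le_mul_of_nonneg_right (le_trans (hc1 k) h4d)
          (mul_nonneg (by linarith) (gg_nonneg _))
      have h4 : c k * (K * (gg (j + k) + 1 / (N : ℝ) ^ 3)) =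
        c k * (K * gg (j + k)) + K / (N : ℝ) ^ 3 * c k := by ring
      linarith
    refine le_trans (Finset.sum_le_sum h1) ?_
    rw [Finset.sum_add_distrib, ← Finset.mul_sum, ← Finset.mul_sum]
    have h5 := mul_le_mul_of_nonneg_left (gg_sum j n) (by linarith : (0 : ℝ) ≤ K)
    have h6 := mul_le_mul_of_nonneg_left hgeo (by positivity : (0 : ℝ) ≤ K / (N : ℝ) ^ 3)
    have h7 : K * (7 * vv j + (s : ℝ) ^ 2 / (N : ℝ) ^ 3) =
      K * (7 * vv j) + K / (N : ℝ) ^ 3 * (s : ℝ) ^ 2 := by ring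
    linarith
  have hout : ∑ j ∈ Finset.range n, c j * vv j ≤ (1 + 2 * (s : ℝ)) + s := by
    have h1 : ∀ j ∈ Finset.range n, c j * vv j ≤
        (if j ≤ s ^ 2 then vv j else 0) + 1 / s * c j := by
      intro j _
      by_cases hj : j ≤ s ^ 2
      · rw [if_pos hj]
        have h2 : c j * vv j ≤ 1 * vv j :=
          mul_le_mul_of_nonneg_right (le_trans (hc1 j) h4d) (vv_nonneg j)
        have h3 : 0 ≤ 1 / s * c j := mul_nonneg (by positivity) (hc0 j)
        linarith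
      · rw [if_neg hj, zero_add]
        push Not at hj
        have h2 : vv j ≤ 1 / s := by
          unfold vv
          refine one_div_le_one_div_of_le hs' ?_
          rw [← Real.sqrt_sq hs'.le]
          refine Real.sqrt_le_sqrt ?_
          have : s ^ 2 ≤ max 1 j := le_trans hj.le (le_max_right _ _)
          exact_mod_cast this
        have h3 := mul_le_mul_of_nonneg_left h2 (hc0 j)
        linarith
    refine le_trans (Finset.sum_le_sum h1) ?_
    rw [Finset.sum_add_distrib, ← Finset.mul_sum]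
    have h4 := vv_sum s n
    have h5 := mul_le_mul_of_nonneg_left hgeo (by positivity : (0 : ℝ) ≤ 1 / (s : ℝ))
    have h6 : 1 / (s : ℝ) * (s : ℝ) ^ 2 = s := by field_simp
    linarith
  have hfin : ∑ j ∈ Finset.range n, c j * ∑ k ∈ Finset.range n,
        c k * ((Pop o)^[j + k] (Pi.single a 1)) a ≤
      ∑ j ∈ Finset.range n, (7 * K * (c j * vv j) + K * ((s : ℝ) ^ 2 / (N : ℝ) ^ 3) * c j) := by
    refine Finset.sum_le_sum fun j _ => ?_
    refine le_trans (mul_le_mul_of_nonneg_left (hin j) (hc0 j)) (le_of_eq ?_)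
    ring
  refine le_trans hfin ?_
  rw [Finset.sum_add_distrib, ← Finset.mul_sum, ← Finset.mul_sum]
  have h5 := mul_le_mul_of_nonneg_left hout (by linarith : (0 : ℝ) ≤ 7 * K)
  have h6 := mul_le_mul_of_nonneg_left hgeo
    (by positivity : (0 : ℝ) ≤ K * ((s : ℝ) ^ 2 / (N : ℝ) ^ 3))
  have h7 : K * ((s : ℝ) ^ 2 / (N : ℝ) ^ 3) * (s : ℝ) ^ 2 = K * s / 4096 := by
    rw [hNr]
    field_simp
    norm_num
  have h8 : 7 * K ≤ 7 * K * s := le_mul_of_one_le_right (by linarith) hs1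
  have h9 : 0 < K * s := by positivity
  nlinarith

end

end GBaux

open GBaux in
/-- bounds for the Green function -/
theorem green_bounds (d : ℕ) (hd : 3 ≤ d) : ∃ C : ℕ, ∀ {N s : ℕ} [NeZero N], N = 16 * s →
    4 ≤ s → ∀ {o : Tor N d × Fin d → Bool} {S : Set (Tor N d)} {L : ℝ}, 1 ≤ L → Nash o S L →
      (∀ e, o e = true → (tsrc e ∈ S ↔ ttgt e ∈ S)) → ∀ a ∈ S,
        ∑ x, sol tsrc ttgt (1 / (s : ℝ) ^ 2) o (Pi.single a 1) x ^ 2 ≤ C * L ^ C * s ∧
        sol tsrc ttgt (1 / (s : ℝ) ^ 2) o (Pi.single a 1) a ≤ C * L ^ C ∧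
        ∀ r : ℕ, 1 ≤ r → r ≤ N → ∀ y, sol tsrc ttgt (1 / (s : ℝ) ^ 2) o (Pi.single a 1) y ≤
          C * sol tsrc ttgt (1 / (r : ℝ) ^ 2) o (Pi.single a 1) y + C * L ^ C / (r : ℝ) ^ (d - 2) := by
  obtain ⟨C1, hC1, h⟩ := ker_bd d (by omega)
  refine ⟨29 * C1, ?_⟩
  intro N s _ hNs hs o S L hL hN hS a ha
  have hN64 : 64 ≤ N := by omega
  have hL' : (0 : ℝ) < L := by linarith
  set K : ℝ := C1 * L ^ C1 with hKdef
  have hC1' : (1 : ℝ) ≤ C1 := by exact_mod_cast hC1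
  have hK : 1 ≤ K := one_le_mul_of_one_le_of_one_le hC1' (one_le_pow₀ hL)
  have hk := h hN64 hL hN hS a ha
  have hCK : 29 * K ≤ ((29 * C1 : ℕ) : ℝ) * L ^ (29 * C1) := by
    push_cast
    rw [hKdef, ← mul_assoc]
    refine mul_le_mul_of_nonneg_left ?_ (by positivity)
    exact pow_le_pow_right₀ hL (by omega)
  have hp3 : ∀ r : ℕ, 1 ≤ r → r ≤ N → ∀ y,
      sol tsrc ttgt (1 / (s : ℝ) ^ 2) o (Pi.single a 1) y ≤
      3 * sol tsrc ttgt (1 / (r : ℝ) ^ 2) o (Pi.single a 1) y + 7 * K / (r : ℝ) ^ (d - 2) :=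
    fun r hr hrN y => part3 hd (by linarith) hNs hs o a y (fun n hn => hk n hn y) hr hrN
  refine ⟨?_, ?_, ?_⟩
  · refine le_trans (part1 hd hK hNs hs o a fun n hn => hk n hn a) ?_
    exact mul_le_mul_of_nonneg_right hCK (Nat.cast_nonneg _)
  · have h1 := hp3 1 le_rfl (by omega) a
    simp only [Nat.cast_one, one_pow, div_one] at h1
    have h2 := (GSRaux.iter_sol_le (by omega : 1 ≤ d) (μ := 1) one_pos o a a 0).2
    simp only [Function.iterate_zero, id, div_one] at h2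
    linarith
  · intro r hr hrN y
    have h1 := hp3 r hr hrN y
    have h0 : 0 ≤ sol tsrc ttgt (1 / (r : ℝ) ^ 2) o (Pi.single a 1) y := by
      have hr' : (0 : ℝ) < r := by exact_mod_cast hr
      exact (GSRaux.iter_sol_le (by omega : 1 ≤ d) (μ := 1 / (r : ℝ) ^ 2) (by positivity) o a y 0).1
    have h2 : (3 : ℝ) ≤ ((29 * C1 : ℕ) : ℝ) := by
      push_cast
      linarith
    have h3 := mul_le_mul_of_nonneg_right h2 h0
    have h4 : 7 * K / (r : ℝ) ^ (d - 2) ≤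
        ((29 * C1 : ℕ) : ℝ) * L ^ (29 * C1) / (r : ℝ) ^ (d - 2) := by
      refine div_le_div_of_nonneg_right ?_ (by positivity)
      linarith
    linarith

end Pool.Agent.Lib.MP_566bac_pr.Hd
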