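import Pool.Agent.Lib.MP_566bac_pr.Hd.OP1

/-!
# Combes-Thomas estimate
-/

open Finset
open scoped Classical

set_option linter.unusedSectionVars false

namespace Pool.Agent.Lib.MP_566bac_pr.Hd

section OP1
variable {X I : Type*} [Fintype X] [DecidableEq X] [Fintype I] [DecidableEq I]
variable (src tgt : I → X) {μ : ℝ} (o : I → Bool)

theorem CT_exp {a b l : ℝ} (hl : 0 ≤ l) (hl1 : l ≤ 1) (hab : |b - a| ≤ 1) :
    (Real.exp (l * b) - Real.exp (l * a)) ^ 2 ≤ 4 * l ^ 2 * (Real.exp (l * a) * Real.exp (l * b)) := by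
  set c := Real.exp (l * (a + b) / 2) with hc
  set t := l * (b - a) / 2 with ht
  have h1 : Real.exp (l * b) = c * Real.exp t := by
    rw [hc, ← Real.exp_add]
    congr 1
    rw [ht]
    ring
  have h2 : Real.exp (l * a) = c * Real.exp (-t) := by
    rw [hc, ← Real.exp_add]
    congr 1
    rw [ht]
    ring
  have h3 : Real.exp (-t) * Real.exp t = 1 := by
    rw [← Real.exp_add]
    simp
  have htl : |t| ≤ l / 2 := by
    rw [ht, abs_div, abs_mul, abs_of_nonneg hl, abs_of_pos (by norm_num : (0 : ℝ) < 2)]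
    have := mul_le_mul_of_nonneg_left hab hl
    linarith
  have h4 : |Real.exp t - 1| ≤ 2 * |t| := Real.abs_exp_sub_one_le (by linarith)
  have h5 : |Real.exp (-t) - 1| ≤ 2 * |t| := by
    have := Real.abs_exp_sub_one_le (x := -t) (by rw [abs_neg]; linarith)
    rwa [abs_neg] at this
  have h6 : |Real.exp t - Real.exp (-t)| ≤ 2 * l := by
    have : Real.exp t - Real.exp (-t) = (Real.exp t - 1) - (Real.exp (-t) - 1) := by ring
    rw [this]
    refine (abs_sub _ _).trans ?_
    linarith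
  have h7 : (Real.exp t - Real.exp (-t)) ^ 2 ≤ (2 * l) ^ 2 := by
    rw [← sq_abs]
    exact pow_le_pow_left₀ (abs_nonneg _) h6 2
  have h8 : 0 ≤ c ^ 2 := sq_nonneg _
  calc (Real.exp (l * b) - Real.exp (l * a)) ^ 2 = c ^ 2 * (Real.exp t - Real.exp (-t)) ^ 2 := by
        rw [h1, h2]; ring
    _ ≤ c ^ 2 * (2 * l) ^ 2 := mul_le_mul_of_nonneg_left h7 h8
    _ = 4 * l ^ 2 * (Real.exp (l * a) * Real.exp (l * b)) := by
        rw [h1, h2]
        have : c * Real.exp (-t) * (c * Real.exp t) = c ^ 2 * (Real.exp (-t) * Real.exp t) := by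
          ring
        rw [this, h3]
        ring

theorem CT_deg (D : ℕ)
    (hdeg : ∀ x, (Finset.univ.filter fun e => src e = x ∨ tgt e = x).card ≤ 2 * D) (g : X → ℝ)
    (hg : ∀ x, 0 ≤ g x) : ∑ e, (g (src e) + g (tgt e)) ≤ 4 * D * ∑ x, g x := by
  have key : ∀ s : I → X, (∀ x, (Finset.univ.filter fun e => s e = x).card ≤ 2 * D) →
      ∑ e, g (s e) ≤ 2 * D * ∑ x, g x := by
    intro s hs
    have h1 : ∑ e, g (s e) = ∑ x, ((Finset.univ.filter fun e => s e = x).card : ℝ) * g x := by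
      have h2 : ∀ e, g (s e) = ∑ x, if s e = x then g x else 0 := fun e => by
        rw [Finset.sum_ite_eq]
        simp
      rw [Finset.sum_congr rfl fun e _ => h2 e, Finset.sum_comm]
      refine Finset.sum_congr rfl fun x _ => ?_
      rw [← Finset.sum_filter, Finset.sum_const, nsmul_eq_mul]
    rw [h1, Finset.mul_sum]
    refine Finset.sum_le_sum fun x _ => mul_le_mul_of_nonneg_right ?_ (hg x)
    exact_mod_cast hs x
  rw [Finset.sum_add_distrib]
  have h1 := key src fun x => (Finset.card_le_card (fun e he => by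
    rw [Finset.mem_filter] at he ⊢
    exact ⟨he.1, Or.inl he.2⟩)).trans (hdeg x)
  have h2 := key tgt fun x => (Finset.card_le_card (fun e he => by
    rw [Finset.mem_filter] at he ⊢
    exact ⟨he.1, Or.inr he.2⟩)).trans (hdeg x)
  linarith

/-! ### CT: Combes-Thomas -/
theorem combes_thomas (hμ : 0 < μ) (D : ℕ)
    (hdeg : ∀ x, (Finset.univ.filter fun e => src e = x ∨ tgt e = x).card ≤ 2 * D) (a : X)
    (ρ : X → ℝ) (hρ : ∀ e, |gr src tgt ρ e| ≤ 1) (ha : ρ a = 0) {l : ℝ} (hl : 0 ≤ l) (hl1 : l ≤ 1)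
    (hl2 : 16 * D * l ^ 2 ≤ μ) :
    ∑ x, Real.exp (2 * l * ρ x) * sol src tgt μ o (Pi.single a 1) x ^ 2 ≤
      2 / μ * sol src tgt μ o (Pi.single a 1) a := by
  set f := sol src tgt μ o (Pi.single a 1) with hf
  have hf0 : ∀ x, 0 ≤ f x := sol_nonneg src tgt o hμ fun x => by
    by_cases hx : x = a
    · rw [hx, Pi.single_eq_same]; exact zero_le_one
    · rw [Pi.single_eq_of_ne hx]
  set w : X → ℝ := fun x => Real.exp (l * ρ x) with hw
  have hw0 : ∀ x, 0 < w x := fun x => Real.exp_pos _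
  have hw2 : ∀ x, Real.exp (2 * l * ρ x) = w x ^ 2 := fun x => by
    rw [hw]
    simp only []
    rw [← Real.exp_nat_mul]
    congr 1
    push_cast
    ring
  have h1 := op_form src tgt (μ := μ) o f (fun x => w x ^ 2 * f x)
  rw [hf, sol_spec src tgt o hμ, ← hf] at h1
  have h2 : ∑ x, (Pi.single a 1 : X → ℝ) x * (w x ^ 2 * f x) = f a := by
    rw [Finset.sum_eq_single a]
    · rw [Pi.single_eq_same, one_mul, hw]
      simp [ha]
    · intro x _ hx
      rw [Pi.single_eq_of_ne hx, zero_mul]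
    · intro h
      exact absurd (Finset.mem_univ a) h
  rw [h2] at h1
  set S := ∑ x, w x ^ 2 * f x ^ 2 with hS
  have h3 : ∑ x, f x * (w x ^ 2 * f x) = S := Finset.sum_congr rfl fun x _ => by ring
  rw [h3] at h1
  have h4 : -(8 * D * l ^ 2 * S) ≤
      ∑ e, (if o e then gr src tgt f e * gr src tgt (fun x => w x ^ 2 * f x) e else 0) := by
    have h5 : ∀ e, -(2 * l ^ 2 * (w (src e) ^ 2 * f (src e) ^ 2 + w (tgt e) ^ 2 * f (tgt e) ^ 2)) ≤
        (if o e then gr src tgt f e * gr src tgt (fun x => w x ^ 2 * f x) e else 0) := by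
      intro e
      have h6 : 0 ≤ 2 * l ^ 2 * (w (src e) ^ 2 * f (src e) ^ 2 + w (tgt e) ^ 2 * f (tgt e) ^ 2) := by
        positivity
      split_ifs
      · have h7 : gr src tgt f e * gr src tgt (fun x => w x ^ 2 * f x) e =
            (w (tgt e) * f (tgt e) - w (src e) * f (src e)) ^ 2 -
              f (src e) * f (tgt e) * (w (tgt e) - w (src e)) ^ 2 := by
          unfold gr
          ring
        have h8 : (w (tgt e) - w (src e)) ^ 2 ≤ 4 * l ^ 2 * (w (src e) * w (tgt e)) :=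
          CT_exp hl hl1 (hρ e)
        have h9 : 0 ≤ f (src e) * f (tgt e) := mul_nonneg (hf0 _) (hf0 _)
        have h10 := mul_le_mul_of_nonneg_left h8 h9
        have h11 := sq_nonneg (w (tgt e) * f (tgt e) - w (src e) * f (src e))
        have h12 : 0 ≤ l ^ 2 := sq_nonneg _
        have h13 := mul_nonneg h12 h11
        rw [h7]
        nlinarith
      · linarith
    calc -(8 * D * l ^ 2 * S)
        ≤ ∑ e, -(2 * l ^ 2 * (w (src e) ^ 2 * f (src e) ^ 2 + w (tgt e) ^ 2 * f (tgt e) ^ 2)) := by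
          rw [Finset.sum_neg_distrib, ← Finset.mul_sum, neg_le_neg_iff]
          have h14 := CT_deg src tgt D hdeg (fun x => w x ^ 2 * f x ^ 2)
            (fun x => by positivity)
          have h15 : 0 ≤ 2 * l ^ 2 := by positivity
          have h16 := mul_le_mul_of_nonneg_left h14 h15
          have h17 : 2 * l ^ 2 * (4 * D * ∑ x, w x ^ 2 * f x ^ 2) = 8 * D * l ^ 2 * S := by
            rw [hS]; ring
          rw [h17] at h16
          exact h16
      _ ≤ _ := Finset.sum_le_sum fun e _ => h5 e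
  have hS0 : 0 ≤ S := Finset.sum_nonneg fun x _ => by positivity
  have h5 : 8 * D * l ^ 2 * S ≤ μ / 2 * S := mul_le_mul_of_nonneg_right (by linarith) hS0
  have h6 : ∑ x, Real.exp (2 * l * ρ x) * f x ^ 2 = S := Finset.sum_congr rfl fun x _ => by
    rw [hw2]
  rw [h6, div_mul_eq_mul_div, le_div_iff₀ hμ]
  linarith

end OP1

end Pool.Agent.Lib.MP_566bac_pr.Hd
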