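import Pool.Agent.Lib.MP_566bac_pr.Hd.TG4

/-!
# Nash inequality on the giant cluster of the torus
-/

open Finset
open scoped Classical

namespace Pool.Agent.Lib.MP_566bac_pr.Hd

variable {d : ℕ}

namespace TG5

/-- the vertices of a cube are distinct -/
theorem cube_inj {N : ℕ} [NeZero N] {R : ℕ} (hRN : R ≤ N) (x : Tor N d) :
    Function.Injective (fun u : Fin d → Fin R => tadd x fun i => ((u i : ℕ) : ℤ)) := by
  intro u v h
  simp only [tadd] at h
  have h1 := add_left_cancel h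
  funext i
  have h2 := congrFun h1 i
  unfold prj at h2
  simp only [Int.cast_natCast] at h2
  have h3 := (ZMod.natCast_eq_natCast_iff' _ _ _).mp h2
  rw [Nat.mod_eq_of_lt (lt_of_lt_of_le (u i).2 hRN), Nat.mod_eq_of_lt (lt_of_lt_of_le (v i).2 hRN)]
    at h3
  exact Fin.ext h3

/-- sum over all cubes -/
theorem sum_cubes {N : ℕ} [NeZero N] (R : ℕ) (g : Tor N d → ℝ) :
    ∑ x : Tor N d, ∑ u : Fin d → Fin R, g (tadd x fun i => ((u i : ℕ) : ℤ)) =
      (R : ℝ) ^ d * ∑ x, g x := by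
  rw [Finset.sum_comm]
  have h1 : ∀ u : Fin d → Fin R, ∑ x : Tor N d, g (tadd x fun i => ((u i : ℕ) : ℤ)) = ∑ x, g x := by
    intro u
    exact Fintype.sum_equiv (Equiv.addRight (prj N fun i => ((u i : ℕ) : ℤ))) _ _ (fun x => rfl)
  rw [Finset.sum_congr rfl fun u _ => h1 u, Finset.sum_const, nsmul_eq_mul]
  congr 1
  simp

/-- the inequality on one cube -/
theorem one_cube {ι : Type*} [Fintype ι] (f : ι → ℝ) (P : ι → Prop) (hf : ∀ u, ¬ P u → f u = 0)
    (c S L : ℝ) (hL : 0 < L) (hS : ∑ u, (if P u then (f u - c) ^ 2 else 0) = S)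
    (hcard : L ≤ ((Finset.univ.filter P).card : ℝ)) :
    ∑ u, f u ^ 2 ≤ 6 * S + 4 / L * (∑ u, |f u|) ^ 2 := by
  set T := Finset.univ.filter P with hT
  set g : ℝ := (T.card : ℝ) with hg
  have hg0 : 0 < g := lt_of_lt_of_le hL hcard
  have h1 : ∑ u, f u ^ 2 = ∑ u ∈ T, f u ^ 2 := by
    rw [hT, Finset.sum_filter]
    refine Finset.sum_congr rfl fun u _ => ?_
    split_ifs with h
    · rfl
    · rw [hf u h]; norm_num
  have h2 : ∑ u ∈ T, (f u - c) ^ 2 = S := by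
    rw [← hS, hT, Finset.sum_filter]
  have hS0 : 0 ≤ S := by rw [← h2]; exact Finset.sum_nonneg fun u _ => sq_nonneg _
  have h3 : ∑ u ∈ T, f u ^ 2 ≤ 2 * S + 2 * (g * c ^ 2) := by
    have h4 : ∀ u ∈ T, f u ^ 2 ≤ 2 * (f u - c) ^ 2 + 2 * c ^ 2 := by
      intro u _
      nlinarith [sq_nonneg (f u - 2 * c)]
    refine (Finset.sum_le_sum h4).trans (le_of_eq ?_)
    rw [Finset.sum_add_distrib, ← Finset.mul_sum, h2, Finset.sum_const, nsmul_eq_mul]
    ring
  set A := ∑ u, |f u| with hA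
  have hA0 : 0 ≤ A := Finset.sum_nonneg fun u _ => abs_nonneg _
  have h5 : g * c = ∑ u ∈ T, f u - ∑ u ∈ T, (f u - c) := by
    rw [Finset.sum_sub_distrib, Finset.sum_const, nsmul_eq_mul]
    ring
  have h6 : |∑ u ∈ T, f u| ≤ A :=
    (Finset.abs_sum_le_sum_abs _ _).trans (Finset.sum_le_sum_of_subset_of_nonneg
      (Finset.subset_univ _) fun u _ _ => abs_nonneg _)
  have h7 : (∑ u ∈ T, (f u - c)) ^ 2 ≤ g * S := by
    have := sq_sum_le_card_mul_sum_sq (s := T) (f := fun u => f u - c)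
    rwa [h2] at this
  have h8 : (g * c) ^ 2 ≤ 2 * A ^ 2 + 2 * (g * S) := by
    rw [h5]
    have h9 : (∑ u ∈ T, f u) ^ 2 ≤ A ^ 2 := by
      rw [← sq_abs]
      exact pow_le_pow_left₀ (abs_nonneg _) h6 2
    nlinarith [sq_nonneg (∑ u ∈ T, f u + ∑ u ∈ T, (f u - c))]
  have h10 : g * c ^ 2 ≤ 2 * A ^ 2 / L + 2 * S := by
    have h11 : g * (g * c ^ 2) ≤ g * (2 * A ^ 2 / g + 2 * S) := by
      have e : g * (2 * A ^ 2 / g + 2 * S) = 2 * A ^ 2 + 2 * (g * S) := by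
        field_simp
      rw [e]
      calc g * (g * c ^ 2) = (g * c) ^ 2 := by ring
        _ ≤ _ := h8
    have h12 := le_of_mul_le_mul_left h11 hg0
    have h13 : 2 * A ^ 2 / g ≤ 2 * A ^ 2 / L :=
      div_le_div_of_nonneg_left (by positivity) hL hcard
    linarith
  rw [h1]
  calc ∑ u ∈ T, f u ^ 2 ≤ 2 * S + 2 * (g * c ^ 2) := h3
    _ ≤ 2 * S + 2 * (2 * A ^ 2 / L + 2 * S) := by linarith
    _ = 6 * S + 4 / L * A ^ 2 := by ring

theorem sum_sq_le {ι : Type*} (s : Finset ι) (f : ι → ℝ) :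
    ∑ x ∈ s, f x ^ 2 ≤ (∑ x ∈ s, |f x|) ^ 2 := by
  have h1 : ∀ x ∈ s, f x ^ 2 ≤ |f x| * ∑ y ∈ s, |f y| := by
    intro x hx
    rw [← sq_abs, sq]
    exact mul_le_mul_of_nonneg_left
      (Finset.single_le_sum (f := fun y => |f y|) (fun y _ => abs_nonneg _) hx) (abs_nonneg _)
  refine (Finset.sum_le_sum h1).trans (le_of_eq ?_)
  rw [← Finset.sum_mul, sq]

end TG5

open TG4 TG5 in
/-- TG5 -/
theorem nash_torus (d : ℕ) (hd : 1 ≤ d) : ∃ C : ℕ, ∀ {N M : ℕ} [NeZero N], 1 ≤ M →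
    M ∣ N → 1000 * M ≤ N → ∀ {o : Tor N d × Fin d → Bool}, GoodT M o →
      Nash o {x | Giant M o x} (C * (M : ℝ) ^ C) := by
  obtain ⟨C1, hC1⟩ := poincare_torus d hd
  obtain ⟨C2, hC2⟩ := count_torus d hd
  obtain ⟨P4, hP4⟩ : ∃ P4 : ℕ, P4 = 4 ^ d := ⟨_, rfl⟩
  refine ⟨6 * C1 + 4 * C2 + P4 + d, ?_⟩
  intro N M _ hM hMN hN o ho f hf R hR hRN
  set D := 6 * C1 + 4 * C2 + P4 + d with hD
  set A := ∑ x, |f x| with hA
  have hA0 : 0 ≤ A := Finset.sum_nonneg fun u _ => abs_nonneg _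
  have hE0 := tEn_nonneg o f
  have hM1 : (1 : ℝ) ≤ M := by exact_mod_cast hM
  have hR0 : (0 : ℝ) < R := by exact_mod_cast hR
  have hRd : (0 : ℝ) < (R : ℝ) ^ d := by positivity
  rcases Nat.lt_or_ge R (4 * M) with hRM | hRM
  · have h1 : ∑ x, f x ^ 2 ≤ A ^ 2 := sum_sq_le Finset.univ f
    have h2 : (R : ℝ) ^ d ≤ D * (M : ℝ) ^ D := by
      have h3 : (R : ℝ) ≤ 4 * M := by exact_mod_cast hRM.le
      have h4 : (4 : ℝ) ^ d ≤ D := by
        have : P4 ≤ D := by rw [hD]; omega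
        rw [hP4] at this
        exact_mod_cast this
      have h5 : (M : ℝ) ^ d ≤ (M : ℝ) ^ D := pow_le_pow_right₀ hM1 (by rw [hD]; omega)
      calc (R : ℝ) ^ d ≤ (4 * (M : ℝ)) ^ d := pow_le_pow_left₀ hR0.le h3 d
        _ = 4 ^ d * (M : ℝ) ^ d := mul_pow _ _ _
        _ ≤ D * (M : ℝ) ^ D := by gcongr
    have h6 : A ^ 2 ≤ D * (M : ℝ) ^ D * (A ^ 2 / (R : ℝ) ^ d) := by
      rw [← mul_div_assoc, le_div_iff₀ hRd, mul_comm]
      exact mul_le_mul_of_nonneg_right h2 (sq_nonneg _)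
    calc ∑ x, f x ^ 2 ≤ A ^ 2 := h1
      _ ≤ D * (M : ℝ) ^ D * (A ^ 2 / (R : ℝ) ^ d) := h6
      _ ≤ D * (M : ℝ) ^ D * ((R : ℝ) ^ 2 * tEn o f + A ^ 2 / (R : ℝ) ^ d) := by
          apply mul_le_mul_of_nonneg_left _ (by positivity)
          have : 0 ≤ (R : ℝ) ^ 2 * tEn o f := by positivity
          linarith
  · obtain ⟨c, hc⟩ := hC1 R hM hMN hN (by omega) hRN ho f
    have hcnt := hC2 R hM hMN hN hRM hRN ho
    have hC20 : 0 < (C2 : ℝ) * (M : ℝ) ^ C2 := by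
      by_contra hcon
      have h1 : (C2 : ℝ) * (M : ℝ) ^ C2 = 0 := le_antisymm (not_lt.mp hcon) (by positivity)
      have h2 := hcnt (0 : Tor N d)
      rw [h1, zero_mul] at h2
      exact absurd h2 (not_le.mpr hRd)
    set K := (C2 : ℝ) * (M : ℝ) ^ C2 with hK
    have hL : 0 < (R : ℝ) ^ d / K := by positivity
    have hone : ∀ x : Tor N d, ∑ u : Fin d → Fin R, f (tadd x fun i => (u i : ℤ)) ^ 2 ≤
        6 * (∑ u : Fin d → Fin R, (if Giant M o (tadd x fun i => (u i : ℤ)) then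
          (f (tadd x fun i => (u i : ℤ)) - c x) ^ 2 else 0)) +
        4 / ((R : ℝ) ^ d / K) * (∑ u : Fin d → Fin R, |f (tadd x fun i => (u i : ℤ))|) ^ 2 := by
      intro x
      refine one_cube (fun u : Fin d → Fin R => f (tadd x fun i => (u i : ℤ)))
        (fun u => Giant M o (tadd x fun i => (u i : ℤ))) (fun u hu => hf _ hu) (c x) _ _ hL rfl ?_
      rw [div_le_iff₀ hC20, mul_comm]
      exact hcnt x
    have hsum := Finset.sum_le_sum fun (x : Tor N d) (_ : x ∈ Finset.univ) => hone x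
    rw [sum_cubes R (fun y => f y ^ 2), Finset.sum_add_distrib, ← Finset.mul_sum,
      ← Finset.mul_sum] at hsum
    have hsq : ∑ x : Tor N d, (∑ u : Fin d → Fin R, |f (tadd x fun i => (u i : ℤ))|) ^ 2 ≤
        (R : ℝ) ^ d * A ^ 2 := by
      have h1 : ∀ x : Tor N d, ∑ u : Fin d → Fin R, |f (tadd x fun i => (u i : ℤ))| ≤ A := by
        intro x
        have h2 : ∑ u : Fin d → Fin R, |f (tadd x fun i => (u i : ℤ))| =
            ∑ y ∈ (Finset.univ : Finset (Fin d → Fin R)).image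
              (fun u => tadd x fun i => ((u i : ℕ) : ℤ)), |f y| := by
          rw [Finset.sum_image]
          intro u _ v _ huv
          exact cube_inj (by omega) x huv
        rw [h2]
        exact Finset.sum_le_sum_of_subset_of_nonneg (Finset.subset_univ _)
          fun u _ _ => abs_nonneg _
      have h3 : ∀ x ∈ (Finset.univ : Finset (Tor N d)),
          (∑ u : Fin d → Fin R, |f (tadd x fun i => (u i : ℤ))|) ^ 2 ≤
          (∑ u : Fin d → Fin R, |f (tadd x fun i => (u i : ℤ))|) * A := by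
        intro x _
        rw [sq]
        exact mul_le_mul_of_nonneg_left (h1 x) (Finset.sum_nonneg fun u _ => abs_nonneg _)
      refine (Finset.sum_le_sum h3).trans (le_of_eq ?_)
      rw [← Finset.sum_mul, sum_cubes R (fun y => |f y|), ← hA]
      ring
    have h9 : (R : ℝ) ^ d * ∑ x, f x ^ 2 ≤
        (R : ℝ) ^ d * (6 * (C1 * (M : ℝ) ^ C1) * ((R : ℝ) ^ 2 * tEn o f) +
          4 * K * (A ^ 2 / (R : ℝ) ^ d)) := by
      refine hsum.trans ?_
      have h10 : 4 / ((R : ℝ) ^ d / K) * ∑ x : Tor N d,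
          (∑ u : Fin d → Fin R, |f (tadd x fun i => (u i : ℤ))|) ^ 2 ≤
          4 / ((R : ℝ) ^ d / K) * ((R : ℝ) ^ d * A ^ 2) :=
        mul_le_mul_of_nonneg_left hsq (by positivity)
      have h11 : 4 / ((R : ℝ) ^ d / K) * ((R : ℝ) ^ d * A ^ 2) = 4 * K * A ^ 2 := by
        field_simp
      have h12 : (R : ℝ) ^ d * (6 * (C1 * (M : ℝ) ^ C1) * ((R : ℝ) ^ 2 * tEn o f) +
          4 * K * (A ^ 2 / (R : ℝ) ^ d)) =
          6 * (C1 * (M : ℝ) ^ C1 * (R : ℝ) ^ 2 * (R : ℝ) ^ d * tEn o f) + 4 * K * A ^ 2 := by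
        field_simp
      rw [h12]
      rw [h11] at h10
      linarith
    have h13 := le_of_mul_le_mul_left h9 hRd
    refine h13.trans ?_
    rw [mul_add]
    have h14 : 6 * (C1 * (M : ℝ) ^ C1) ≤ D * (M : ℝ) ^ D := by
      have h15 : (6 * C1 : ℝ) ≤ D := by
        have : 6 * C1 ≤ D := by rw [hD]; omega
        exact_mod_cast this
      have h16 : (M : ℝ) ^ C1 ≤ (M : ℝ) ^ D := pow_le_pow_right₀ hM1 (by rw [hD]; omega)
      calc 6 * (C1 * (M : ℝ) ^ C1) = (6 * C1) * (M : ℝ) ^ C1 := by ring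
        _ ≤ D * (M : ℝ) ^ D := by gcongr
    have h17 : 4 * K ≤ D * (M : ℝ) ^ D := by
      have h15 : (4 * C2 : ℝ) ≤ D := by
        have : 4 * C2 ≤ D := by rw [hD]; omega
        exact_mod_cast this
      have h16 : (M : ℝ) ^ C2 ≤ (M : ℝ) ^ D := pow_le_pow_right₀ hM1 (by rw [hD]; omega)
      calc 4 * K = (4 * C2) * (M : ℝ) ^ C2 := by rw [hK]; ring
        _ ≤ D * (M : ℝ) ^ D := by gcongr
    exact add_le_add (mul_le_mul_of_nonneg_right h14 (by positivity))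
      (mul_le_mul_of_nonneg_right h17 (by positivity))

end Pool.Agent.Lib.MP_566bac_pr.Hd
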