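import Pool.Agent.Lib.MP_566bac_pr.Hd.DefsC
import Pool.Agent.Lib.MP_566bac_pr.Hd.BAS
import Pool.Agent.Lib.MP_566bac_pr.Hd.CT
import Pool.Agent.Lib.MP_566bac_pr.Hd.OP4
import Pool.Agent.Lib.MP_566bac_pr.Hd.GB
import Pool.Agent.Lib.MP_566bac_pr.Hd.TG5
import Pool.Agent.Lib.MP_566bac_pr.Hd.TG1

/-!
# Decay of the Green function on the torus
-/

open Finset MeasureTheory ProbabilityTheory Filter
open scoped Classical

namespace Pool.Agent.Lib.MP_566bac_pr.Hd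

variable {d : ℕ}

namespace GD

theorem one_natAbs_le {N : ℕ} [NeZero N] : (1 : ZMod N).valMinAbs.natAbs ≤ 1 := by
  rw [ZMod.valMinAbs_natAbs_eq_min]
  refine (min_le_left _ _).trans ?_
  rw [ZMod.val_one_eq_one_mod]
  exact Nat.mod_le _ _

theorem natAbs_add_le {N : ℕ} [NeZero N] (u v : ZMod N) :
    (u + v).valMinAbs.natAbs ≤ u.valMinAbs.natAbs + v.valMinAbs.natAbs :=
  (ZMod.natAbs_valMinAbs_add_le u v).trans (Int.natAbs_add_le _ _)

theorem tev_natAbs_le {N : ℕ} [NeZero N] (j i : Fin d) :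
    ((tev j : Tor N d) i).valMinAbs.natAbs ≤ 1 := by
  unfold tev
  by_cases h : i = j
  · subst h
    rw [Pi.single_eq_same]
    exact one_natAbs_le
  · rw [Pi.single_eq_of_ne h]
    simp

theorem tdst_step {N : ℕ} [NeZero N] (x a : Tor N d) (j : Fin d) :
    tdst (x + tev j) a ≤ tdst x a + 1 ∧ tdst x a ≤ tdst (x + tev j) a + 1 := by
  constructor
  · unfold tdst
    refine Finset.sup_le fun i _ => ?_
    have h1 : (x + tev j : Tor N d) i - a i = (x i - a i) + (tev j : Tor N d) i := by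
      simp only [Pi.add_apply]
      ring
    rw [h1]
    refine (natAbs_add_le _ _).trans ?_
    have h2 : (x i - a i).valMinAbs.natAbs ≤
        Finset.univ.sup fun i => (x i - a i).valMinAbs.natAbs :=
      Finset.le_sup (f := fun i => (x i - a i).valMinAbs.natAbs) (Finset.mem_univ i)
    have h3 := tev_natAbs_le (N := N) j i
    omega
  · unfold tdst
    refine Finset.sup_le fun i _ => ?_
    have h1 : x i - a i = ((x + tev j : Tor N d) i - a i) + -((tev j : Tor N d) i) := by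
      simp only [Pi.add_apply]
      ring
    rw [h1]
    refine (natAbs_add_le _ _).trans ?_
    have h2 : ((x + tev j : Tor N d) i - a i).valMinAbs.natAbs ≤
        Finset.univ.sup fun i => ((x + tev j : Tor N d) i - a i).valMinAbs.natAbs :=
      Finset.le_sup (f := fun i => ((x + tev j : Tor N d) i - a i).valMinAbs.natAbs)
        (Finset.mem_univ i)
    have h3 := tev_natAbs_le (N := N) j i
    rw [ZMod.natAbs_valMinAbs_neg]
    omega

theorem deg_le {N : ℕ} [NeZero N] (x : Tor N d) :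
    (Finset.univ.filter fun e : Tor N d × Fin d => tsrc e = x ∨ ttgt e = x).card ≤ 2 * d := by
  have h : (Finset.univ.filter fun e : Tor N d × Fin d => tsrc e = x ∨ ttgt e = x) ⊆
      (Finset.univ.image fun j : Fin d => (x, j)) ∪
        (Finset.univ.image fun j : Fin d => (x - tev j, j)) := by
    intro e he
    rw [Finset.mem_filter] at he
    rw [Finset.mem_union, Finset.mem_image, Finset.mem_image]
    rcases he.2 with h | h
    · left
      refine ⟨e.2, Finset.mem_univ _, ?_⟩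
      unfold tsrc at h
      rw [← h]
    · right
      refine ⟨e.2, Finset.mem_univ _, ?_⟩
      unfold ttgt at h
      rw [← h]
      simp
  refine (Finset.card_le_card h).trans ((Finset.card_union_le _ _).trans ?_)
  have h1 : (Finset.univ.image fun j : Fin d => (x, j)).card ≤ d :=
    Finset.card_image_le.trans (by simp)
  have h2 : (Finset.univ.image fun j : Fin d => (x - tev j, j)).card ≤ d :=
    Finset.card_image_le.trans (by simp)
  omega

/-- Combes-Thomas on the torus -/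
theorem ct_torus {N : ℕ} [NeZero N] (hd : 1 ≤ d) (o : Tor N d × Fin d → Bool) (a y : Tor N d)
    (r₁ : ℕ) (hr : 1 ≤ r₁) (r M : ℝ) (hy : r ≤ tdst y a) (hrM : M * r₁ ≤ r) :
    sol tsrc ttgt (1 / (r₁ : ℝ) ^ 2) o (Pi.single a 1) y ≤
      2 * (r₁ : ℝ) ^ 2 * Real.exp (-(M / (4 * d))) := by
  have hr' : (1 : ℝ) ≤ r₁ := by exact_mod_cast hr
  have hr0 : (0 : ℝ) < r₁ := by linarith
  have hd' : (1 : ℝ) ≤ d := by exact_mod_cast hd
  have hd0 : (0 : ℝ) < d := by linarith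
  have hμ : (0 : ℝ) < 1 / (r₁ : ℝ) ^ 2 := by positivity
  set l : ℝ := 1 / (4 * d * r₁) with hl
  have hl0 : 0 ≤ l := by positivity
  have h4 : (1 : ℝ) ≤ 4 * d * r₁ := by nlinarith
  have hl1 : l ≤ 1 := by
    rw [hl, div_le_one (by linarith)]
    exact h4
  have hl2 : 16 * (d : ℝ) * l ^ 2 ≤ 1 / (r₁ : ℝ) ^ 2 := by
    rw [hl]
    have : 16 * (d : ℝ) * (1 / (4 * d * r₁)) ^ 2 = (1 / d) * (1 / (r₁ : ℝ) ^ 2) := by
      field_simp
      norm_num
    rw [this]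
    have h5 : 1 / (d : ℝ) ≤ 1 := by
      rw [div_le_one hd0]
      exact hd'
    nlinarith
  have hct := combes_thomas tsrc ttgt o hμ d deg_le a (fun x => (tdst x a : ℝ)) (by
      intro e
      unfold gr tsrc ttgt
      have := tdst_step e.1 a e.2
      rw [abs_le]
      constructor
      · have h1 : (tdst e.1 a : ℝ) ≤ tdst (e.1 + tev e.2) a + 1 := by exact_mod_cast this.2
        linarith
      · have h1 : (tdst (e.1 + tev e.2) a : ℝ) ≤ tdst e.1 a + 1 := by exact_mod_cast this.1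
        linarith) (by
      have : tdst a a = 0 := by
        unfold tdst
        simp
      simp [this]) hl0 hl1 (by exact_mod_cast hl2)
  have hge := (green_energy tsrc ttgt o hμ a).2
  set g := sol tsrc ttgt (1 / (r₁ : ℝ) ^ 2) o (Pi.single a 1) with hg
  have h6 : 2 / (1 / (r₁ : ℝ) ^ 2) * g a ≤ 2 * (r₁ : ℝ) ^ 4 := by
    have h7 : 2 / (1 / (r₁ : ℝ) ^ 2) = 2 * (r₁ : ℝ) ^ 2 := by field_simp
    rw [h7]
    have h8 : g a ≤ (r₁ : ℝ) ^ 2 := by
      refine hge.trans (le_of_eq ?_)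
      field_simp
    calc 2 * (r₁ : ℝ) ^ 2 * g a ≤ 2 * (r₁ : ℝ) ^ 2 * (r₁ : ℝ) ^ 2 :=
          mul_le_mul_of_nonneg_left h8 (by positivity)
      _ = 2 * (r₁ : ℝ) ^ 4 := by ring
  have h9 : Real.exp (2 * l * (tdst y a : ℝ)) * g y ^ 2 ≤ 2 * (r₁ : ℝ) ^ 4 := by
    refine le_trans ?_ (hct.trans h6)
    exact Finset.single_le_sum (f := fun x => Real.exp (2 * l * (tdst x a : ℝ)) * g x ^ 2)
      (fun x _ => by positivity) (Finset.mem_univ y)
  have h10 : Real.exp (M / (2 * d)) ≤ Real.exp (2 * l * (tdst y a : ℝ)) := by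
    apply Real.exp_le_exp.mpr
    have h11 : 2 * l * (M * r₁) = M / (2 * d) := by
      rw [hl]
      field_simp
      norm_num
    rw [← h11]
    exact mul_le_mul_of_nonneg_left (hrM.trans hy) (by positivity)
  have h12 : Real.exp (M / (2 * d)) * g y ^ 2 ≤ 2 * (r₁ : ℝ) ^ 4 :=
    (mul_le_mul_of_nonneg_right h10 (sq_nonneg _)).trans h9
  have h13 : g y ^ 2 ≤ (2 * (r₁ : ℝ) ^ 2 * Real.exp (-(M / (4 * d)))) ^ 2 := by
    have h14 : (2 * (r₁ : ℝ) ^ 2 * Real.exp (-(M / (4 * d)))) ^ 2 =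
        4 * (r₁ : ℝ) ^ 4 * Real.exp (-(M / (2 * d))) := by
      have : Real.exp (-(M / (2 * d))) = Real.exp (-(M / (4 * d))) ^ 2 := by
        rw [sq, ← Real.exp_add]
        congr 1
        field_simp
        ring
      rw [this]
      ring
    rw [h14]
    have h15 : g y ^ 2 = Real.exp (-(M / (2 * d))) * (Real.exp (M / (2 * d)) * g y ^ 2) := by
      rw [← mul_assoc, ← Real.exp_add]
      simp
    rw [h15]
    calc Real.exp (-(M / (2 * d))) * (Real.exp (M / (2 * d)) * g y ^ 2)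
        ≤ Real.exp (-(M / (2 * d))) * (2 * (r₁ : ℝ) ^ 4) :=
          mul_le_mul_of_nonneg_left h12 (Real.exp_pos _).le
      _ ≤ 4 * (r₁ : ℝ) ^ 4 * Real.exp (-(M / (2 * d))) := by
          have : 0 ≤ (r₁ : ℝ) ^ 4 * Real.exp (-(M / (2 * d))) := by positivity
          nlinarith
  exact le_trans (le_abs_self _) (abs_le_of_sq_le_sq h13 (by positivity))

theorem exp_pow_le (hd : 1 ≤ d) (n : ℕ) {M : ℝ} (hM : 0 ≤ M) :
    Real.exp (-(M / (4 * d))) * M ^ n ≤ (4 * d : ℝ) ^ n * n.factorial := by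
  have hd0 : (0 : ℝ) < d := by exact_mod_cast hd
  have h := Real.pow_div_factorial_le_exp (M / (4 * d)) (by positivity) n
  have h1 : M ^ n ≤ Real.exp (M / (4 * d)) * ((4 * d : ℝ) ^ n * n.factorial) := by
    rw [div_le_iff₀ (by positivity), div_pow, div_le_iff₀ (by positivity)] at h
    calc M ^ n ≤ _ := h
      _ = _ := by ring
  calc Real.exp (-(M / (4 * d))) * M ^ n ≤
        Real.exp (-(M / (4 * d))) * (Real.exp (M / (4 * d)) * ((4 * d : ℝ) ^ n * n.factorial)) :=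
        mul_le_mul_of_nonneg_left h1 (Real.exp_pos _).le
    _ = (4 * d : ℝ) ^ n * n.factorial := by
        rw [← mul_assoc, ← Real.exp_add]
        simp

theorem nash_mono {N : ℕ} [NeZero N] {o : Tor N d × Fin d → Bool} {S : Set (Tor N d)} {L L' : ℝ}
    (h : Nash o S L) (hL : L ≤ L') : Nash o S L' := by
  intro f hf R hR hRN
  refine (h f hf R hR hRN).trans (mul_le_mul_of_nonneg_right hL ?_)
  have : 0 ≤ tEn o f := by
    unfold tEn
    refine Finset.sum_nonneg fun e _ => ?_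
    split_ifs
    · exact sq_nonneg _
    · exact le_rfl
  positivity

end GD

/-! ### GD: decay of the Green function -/
theorem green_decay (d : ℕ) (hd : 3 ≤ d) : ∃ C : ℕ, ∀ A : ℕ, ∃ CA : ℝ, ∀ {N M : ℕ} [NeZero N],
    1 ≤ M → N = 16 * M ^ A → 1000 * M ≤ N → ∀ {o : Tor N d × Fin d → Bool}, GoodT M o →
      ∀ a, Giant M o a → ∀ r : ℕ, 12 * M ≤ r → 8 * r ≤ N → ∀ y, r ≤ tdst y a →
        sol tsrc ttgt (1 / ((M : ℝ) ^ A) ^ 2) o (Pi.single a 1) y ≤
          CA * (M : ℝ) ^ C / (r : ℝ) ^ (d - 2) := by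
  obtain ⟨C₅, h5⟩ := nash_torus d (by omega)
  obtain ⟨Cg, hgb⟩ := green_bounds d hd
  refine ⟨C₅ * Cg + (d - 2), fun A => ?_⟩
  refine ⟨(Cg : ℝ) * (2 * 16 ^ d * ((4 * d : ℝ) ^ (A * d) * (A * d).factorial)) +
    Cg * ((C₅ : ℝ) + 1) ^ Cg * 2 ^ (d - 2), ?_⟩
  intro N M _ hM hN hMN o ho a ha r hr1 hr2 y hy
  have hM' : (1 : ℝ) ≤ M := by exact_mod_cast hM
  have hM0 : (0 : ℝ) < M := by linarith
  have hA : A ≠ 0 := by
    rintro rfl
    simp at hN
    omega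
  have hdvd : M ∣ N := by
    rw [hN]
    exact Dvd.dvd.mul_left (dvd_pow_self M hA) 16
  have hs : 4 ≤ M ^ A := by omega
  have hL1 : (1 : ℝ) ≤ ((C₅ : ℝ) + 1) * (M : ℝ) ^ C₅ := by
    have h1 : (1 : ℝ) ≤ (M : ℝ) ^ C₅ := one_le_pow₀ hM'
    have h2 : (0 : ℝ) ≤ C₅ := Nat.cast_nonneg _
    nlinarith
  have hnash : Nash o {x | Giant M o x} (((C₅ : ℝ) + 1) * (M : ℝ) ^ C₅) := by
    refine GD.nash_mono (h5 hM hdvd hMN ho) ?_
    have h1 : (0 : ℝ) ≤ (M : ℝ) ^ C₅ := by positivity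
    nlinarith
  have hgb' := hgb hN hs hL1 hnash (fun e he => giant_edge hM hdvd hMN ho he) a ha
  set r₁ := r / M with hr₁
  have hr1a : 12 ≤ r₁ := (Nat.le_div_iff_mul_le hM).mpr hr1
  have hr1b : r₁ * M ≤ r := Nat.div_mul_le_self r M
  have hr1c : r₁ ≤ N := by
    have : r₁ ≤ r := Nat.div_le_self r M
    omega
  have hr1d : r ≤ 2 * M * r₁ := by
    have h1 := Nat.div_add_mod r M
    have h2 := Nat.mod_lt r hM
    have h3 : M * 1 ≤ M * r₁ := Nat.mul_le_mul_left M (by omega)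
    have h4 : 2 * M * r₁ = 2 * (M * r₁) := by ring
    rw [← hr₁] at h1
    omega
  have hg3 := hgb'.2.2 r₁ (by omega) hr1c y
  have hcast : (((M ^ A : ℕ) : ℝ)) = (M : ℝ) ^ A := by push_cast; rfl
  rw [hcast] at hg3
  have hct := GD.ct_torus (by omega : 1 ≤ d) o a y r₁ (by omega) (r : ℝ) (M : ℝ)
    (by exact_mod_cast hy) (by
      have : ((r₁ * M : ℕ) : ℝ) ≤ (r : ℝ) := by exact_mod_cast hr1b
      push_cast at this
      linarith)
  have hrpos : (0 : ℝ) < r := by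
    have : 0 < r := by omega
    exact_mod_cast this
  have hr1pos : (0 : ℝ) < r₁ := by
    have : 0 < r₁ := by omega
    exact_mod_cast this
  refine hg3.trans ?_
  have hCg : (0 : ℝ) ≤ Cg := Nat.cast_nonneg _
  have hA1 : (Cg : ℝ) * sol tsrc ttgt (1 / (r₁ : ℝ) ^ 2) o (Pi.single a 1) y ≤
      (Cg : ℝ) * (2 * 16 ^ d * ((4 * d : ℝ) ^ (A * d) * (A * d).factorial)) *
        (M : ℝ) ^ (C₅ * Cg + (d - 2)) / (r : ℝ) ^ (d - 2) := by
    rw [mul_assoc, mul_div_assoc]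
    refine mul_le_mul_of_nonneg_left (hct.trans ?_) hCg
    rw [le_div_iff₀ (by positivity)]
    have hrN : (r : ℝ) ≤ 16 * (M : ℝ) ^ A := by
      have h1 : r ≤ 16 * M ^ A := by omega
      exact_mod_cast h1
    have hr1r : (r₁ : ℝ) ≤ r := by
      have : r₁ ≤ r := Nat.div_le_self r M
      exact_mod_cast this
    have h20 : (r₁ : ℝ) ^ 2 * (r : ℝ) ^ (d - 2) ≤ 16 ^ d * (M : ℝ) ^ (A * d) := by
      calc (r₁ : ℝ) ^ 2 * (r : ℝ) ^ (d - 2) ≤ (r : ℝ) ^ 2 * (r : ℝ) ^ (d - 2) := by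
            apply mul_le_mul_of_nonneg_right _ (by positivity)
            exact pow_le_pow_left₀ hr1pos.le hr1r 2
        _ = (r : ℝ) ^ d := by
            rw [← pow_add]
            congr 1
            omega
        _ ≤ (16 * (M : ℝ) ^ A) ^ d := pow_le_pow_left₀ hrpos.le hrN d
        _ = 16 ^ d * (M : ℝ) ^ (A * d) := by
            rw [mul_pow, ← pow_mul]
    have h21 := GD.exp_pow_le (by omega : 1 ≤ d) (A * d) hM0.le
    have h22 : (1 : ℝ) ≤ (M : ℝ) ^ (C₅ * Cg + (d - 2)) := one_le_pow₀ hM'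
    have he := Real.exp_pos (-((M : ℝ) / (4 * d)))
    calc 2 * (r₁ : ℝ) ^ 2 * Real.exp (-((M : ℝ) / (4 * d))) * (r : ℝ) ^ (d - 2)
        = 2 * Real.exp (-((M : ℝ) / (4 * d))) * ((r₁ : ℝ) ^ 2 * (r : ℝ) ^ (d - 2)) := by ring
      _ ≤ 2 * Real.exp (-((M : ℝ) / (4 * d))) * (16 ^ d * (M : ℝ) ^ (A * d)) :=
          mul_le_mul_of_nonneg_left h20 (by positivity)
      _ = 2 * 16 ^ d * (Real.exp (-((M : ℝ) / (4 * d))) * (M : ℝ) ^ (A * d)) := by ring
      _ ≤ 2 * 16 ^ d * ((4 * d : ℝ) ^ (A * d) * (A * d).factorial) :=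
          mul_le_mul_of_nonneg_left h21 (by positivity)
      _ ≤ 2 * 16 ^ d * ((4 * d : ℝ) ^ (A * d) * (A * d).factorial) *
            (M : ℝ) ^ (C₅ * Cg + (d - 2)) := le_mul_of_one_le_right (by positivity) h22
  have hA2 : (Cg : ℝ) * (((C₅ : ℝ) + 1) * (M : ℝ) ^ C₅) ^ Cg / (r₁ : ℝ) ^ (d - 2) ≤
      Cg * ((C₅ : ℝ) + 1) ^ Cg * 2 ^ (d - 2) * (M : ℝ) ^ (C₅ * Cg + (d - 2)) /
        (r : ℝ) ^ (d - 2) := by
    rw [div_le_div_iff₀ (by positivity) (by positivity)]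
    have h30 : (r : ℝ) ^ (d - 2) ≤ (2 * M * r₁ : ℝ) ^ (d - 2) := by
      apply pow_le_pow_left₀ hrpos.le
      exact_mod_cast hr1d
    calc (Cg : ℝ) * (((C₅ : ℝ) + 1) * (M : ℝ) ^ C₅) ^ Cg * (r : ℝ) ^ (d - 2)
        ≤ (Cg : ℝ) * (((C₅ : ℝ) + 1) * (M : ℝ) ^ C₅) ^ Cg * (2 * M * r₁ : ℝ) ^ (d - 2) :=
          mul_le_mul_of_nonneg_left h30 (by positivity)
      _ = Cg * ((C₅ : ℝ) + 1) ^ Cg * 2 ^ (d - 2) * (M : ℝ) ^ (C₅ * Cg + (d - 2)) *
            (r₁ : ℝ) ^ (d - 2) := by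
          rw [mul_pow, mul_pow, mul_pow, pow_add, ← pow_mul]
          ring
  calc _ ≤ (Cg : ℝ) * (2 * 16 ^ d * ((4 * d : ℝ) ^ (A * d) * (A * d).factorial)) *
        (M : ℝ) ^ (C₅ * Cg + (d - 2)) / (r : ℝ) ^ (d - 2) +
      Cg * ((C₅ : ℝ) + 1) ^ Cg * 2 ^ (d - 2) * (M : ℝ) ^ (C₅ * Cg + (d - 2)) /
        (r : ℝ) ^ (d - 2) := add_le_add hA1 hA2
    _ = _ := by ring

end Pool.Agent.Lib.MP_566bac_pr.Hd
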