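import Pool.Agent.Lib.MP_566bac_pr.Hd.OP1
import Pool.Agent.Lib.MP_566bac_pr.Hd.OP3
import Pool.Agent.Lib.MP_566bac_pr.Hd.OP4
import Pool.Agent.Lib.MP_566bac_pr.Hd.CAC
import Pool.Agent.Lib.MP_566bac_pr.Hd.TG1
import Pool.Agent.Lib.MP_566bac_pr.Hd.TG2
import Pool.Agent.Lib.MP_566bac_pr.Hd.GB
import Pool.Agent.Lib.MP_566bac_pr.Hd.TG5
import Pool.Agent.Lib.MP_566bac_pr.Hd.GD

/-!
# Dipole potentials of the edges in a good environment on the torus
-/

open Finset
open scoped Classical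

namespace Pool.Agent.Lib.MP_566bac_pr.Hd

variable {d : ℕ}

namespace DP

theorem tdst_le_iff {N : ℕ} {x y : Tor N d} {n : ℕ} :
    tdst x y ≤ n ↔ ∀ i, (x i - y i).valMinAbs.natAbs ≤ n := by
  unfold tdst
  rw [Finset.sup_le_iff]
  exact ⟨fun h i => h i (Finset.mem_univ _), fun h i _ => h i⟩

theorem tdst_self {N : ℕ} (x : Tor N d) : tdst x x = 0 := by
  refine Nat.le_zero.1 (tdst_le_iff.2 fun i => ?_)
  simp

theorem tdst_comm {N : ℕ} (x y : Tor N d) : tdst x y = tdst y x := by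
  unfold tdst
  refine Finset.sup_congr rfl fun i _ => ?_
  rw [← ZMod.natAbs_valMinAbs_neg, neg_sub]

theorem tdst_triangle {N : ℕ} (x y z : Tor N d) : tdst x z ≤ tdst x y + tdst y z := by
  refine tdst_le_iff.2 fun i => ?_
  have h1 := tdst_le_iff.1 (le_refl (tdst x y)) i
  have h2 := tdst_le_iff.1 (le_refl (tdst y z)) i
  have h3 : x i - z i = (x i - y i) + (y i - z i) := by ring
  rw [h3]
  refine (ZMod.natAbs_valMinAbs_add_le _ _).trans ?_
  refine (Int.natAbs_add_le _ _).trans ?_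
  omega

theorem tdst_edge {N : ℕ} [NeZero N] (hN : N ≠ 1) (e : Tor N d × Fin d) :
    tdst (ttgt e) (tsrc e) ≤ 1 := by
  refine tdst_le_iff.2 fun i => ?_
  have h1 : ttgt e i - tsrc e i = (tev e.2 : Tor N d) i := by
    unfold ttgt tsrc
    rw [Pi.add_apply]
    ring
  rw [h1]
  unfold tev
  by_cases h : i = e.2
  · subst h
    rw [Pi.single_eq_same, ZMod.valMinAbs_natAbs_eq_min, ZMod.val_one'' hN]
    exact min_le_left _ _
  · rw [Pi.single_eq_of_ne h]
    simp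

theorem tdst_edge' {N : ℕ} [NeZero N] (hN : N ≠ 1) (e : Tor N d × Fin d) :
    tdst (tsrc e) (ttgt e) ≤ 1 := by
  rw [tdst_comm]
  exact tdst_edge hN e

theorem card_ball {N : ℕ} [NeZero N] (a : Tor N d) (n : ℕ) :
    (Finset.univ.filter fun x : Tor N d => tdst x a ≤ n).card ≤ (2 * n + 1) ^ d := by
  have h1 : (Finset.univ.filter fun x : Tor N d => tdst x a ≤ n).card ≤
      (Fintype.piFinset fun _ : Fin d => Finset.Icc (-(n : ℤ)) n).card := by
    refine Finset.card_le_card_of_injOn (fun x i => (x i - a i).valMinAbs) ?_ ?_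
    · intro x hx
      have h2 := tdst_le_iff.1 (Finset.mem_filter.1 hx).2
      refine Finset.mem_coe.2 (Fintype.mem_piFinset.2 fun i => ?_)
      have := h2 i
      rw [Finset.mem_Icc]
      simp only
      omega
    · intro x _ y _ hxy
      funext i
      have h2 := congrFun hxy i
      have h3 := ZMod.injective_valMinAbs h2
      exact sub_left_injective h3
  refine h1.trans (le_of_eq ?_)
  rw [Fintype.card_piFinset]
  simp only [Int.card_Icc, Finset.prod_const, Finset.card_univ, Fintype.card_fin]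
  congr 1
  omega

theorem dip_eq {N : ℕ} [NeZero N] {μ : ℝ} (hμ : 0 < μ) (o : Tor N d × Fin d → Bool)
    (e : Tor N d × Fin d) (x : Tor N d) : dip μ o e x =
      sol tsrc ttgt μ o (Pi.single (tsrc e) 1) x - sol tsrc ttgt μ o (Pi.single (ttgt e) 1) x := by
  have h1 := congrFun (sol_add (tsrc : Tor N d × Fin d → Tor N d) ttgt o hμ
    (Pi.single (tsrc e) 1) (Pi.single (ttgt e) 1) 1 (-1)) x
  have h2 : (fun x : Tor N d => 1 * (Pi.single (tsrc e) 1 : Tor N d → ℝ) x +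
      (-1) * (Pi.single (ttgt e) 1 : Tor N d → ℝ) x) =
      fun x => (if x = tsrc e then 1 else 0) - if x = ttgt e then 1 else 0 := by
    funext y
    rw [Pi.single_apply, Pi.single_apply]
    ring
  rw [h2] at h1
  unfold dip
  rw [h1]
  ring

/-- the cutoff -/
noncomputable def cl (t : ℝ) : ℝ := max 0 (min 1 t)

theorem cl_lip (u v : ℝ) : |cl u - cl v| ≤ |u - v| := by
  unfold cl
  have h1 := abs_max_sub_max_le_abs (min 1 u) (min 1 v) 0
  have h2 := abs_min_sub_min_le_max 1 u 1 v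
  rw [max_comm 0, max_comm 0]
  refine h1.trans (h2.trans ?_)
  simp

theorem cl_zero {t : ℝ} (h : t ≤ 0) : cl t = 0 := by
  unfold cl
  exact max_eq_left ((min_le_right _ _).trans h)

theorem cl_one {t : ℝ} (h : 1 ≤ t) : cl t = 1 := by
  unfold cl
  rw [min_eq_left h]
  exact max_eq_right zero_le_one

end DP

open DP

/-! ### DP: dipole potentials of edges of the giant cluster -/
theorem dipole_l2 (d : ℕ) (hd : 3 ≤ d) : ∃ C : ℕ, ∀ A : ℕ, 2 ≤ A → ∃ CA : ℝ, ∀ {N M : ℕ} [NeZero N],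
    1 ≤ M → N = 16 * M ^ A → 1000 * M ≤ N → ∀ {o : Tor N d × Fin d → Bool}, GoodT M o →
      ∀ e, o e = true → ∑ x, dip (1 / ((M : ℝ) ^ A) ^ 2) o e x ^ 2 ≤ CA * (M : ℝ) ^ C * (M : ℝ) ^ A := by
  obtain ⟨C1, h1⟩ := nash_torus d (by omega)
  obtain ⟨C2, h2⟩ := green_bounds d hd
  refine ⟨C1 * C2 + 4 * d, fun A hA =>
    ⟨4 * (C2 * ((C1 : ℝ) + 1) ^ C2) + 2 * 13 ^ (4 * d), ?_⟩⟩
  intro N M _ hM hN hMN o ho e he
  have hM1 : (1 : ℝ) ≤ M := by exact_mod_cast hM
  have hMA : 4 ≤ M ^ A := by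
    rw [hN] at hMN
    omega
  have hdvd : M ∣ N := by
    rw [hN]
    exact Dvd.dvd.mul_left (dvd_pow_self M (by omega)) 16
  have hμ : 0 < 1 / ((M : ℝ) ^ A) ^ 2 := by positivity
  have hMA1 : (1 : ℝ) ≤ (M : ℝ) ^ A := one_le_pow₀ hM1
  by_cases hg : Giant M o (tsrc e)
  · have hg' : Giant M o (ttgt e) := (giant_edge hM hdvd hMN ho he).1 hg
    have hnash : Nash o {x | Giant M o x} ((((C1 : ℝ) + 1) * (M : ℝ) ^ C1)) := by
      intro f hf R hR hRN
      refine (h1 hM hdvd hMN ho f hf R hR hRN).trans ?_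
      refine mul_le_mul_of_nonneg_right ?_ ?_
      · have : (0 : ℝ) ≤ (M : ℝ) ^ C1 := by positivity
        linarith
      · have h3 : 0 ≤ tEn o f := Finset.sum_nonneg fun e _ => by split_ifs <;> positivity
        positivity
    have hL1 : (1 : ℝ) ≤ ((C1 : ℝ) + 1) * (M : ℝ) ^ C1 := by
      have h3 : (1 : ℝ) ≤ (M : ℝ) ^ C1 := one_le_pow₀ hM1
      have h4 : (1 : ℝ) ≤ (C1 : ℝ) + 1 := by
        have : (0 : ℝ) ≤ C1 := by positivity
        linarith
      nlinarith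
    have hS : ∀ e, o e = true → (tsrc e ∈ {x | Giant M o x} ↔ ttgt e ∈ {x | Giant M o x}) :=
      fun e he => giant_edge hM hdvd hMN ho he
    have key : ∀ a, Giant M o a → ∑ x, sol tsrc ttgt (1 / ((M : ℝ) ^ A) ^ 2) o
        (Pi.single a 1) x ^ 2 ≤
          C2 * ((C1 : ℝ) + 1) ^ C2 * (M : ℝ) ^ (C1 * C2) * (M : ℝ) ^ A := by
      intro a ha
      have h3 := (h2 hN hMA hL1 hnash hS a ha).1
      push_cast at h3
      refine h3.trans (le_of_eq ?_)
      rw [mul_pow, ← pow_mul]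
      ring
    have hsum : ∑ x, dip (1 / ((M : ℝ) ^ A) ^ 2) o e x ^ 2 ≤
        2 * ∑ x, sol tsrc ttgt (1 / ((M : ℝ) ^ A) ^ 2) o (Pi.single (tsrc e) 1) x ^ 2 +
        2 * ∑ x, sol tsrc ttgt (1 / ((M : ℝ) ^ A) ^ 2) o (Pi.single (ttgt e) 1) x ^ 2 := by
      rw [Finset.mul_sum, Finset.mul_sum, ← Finset.sum_add_distrib]
      refine Finset.sum_le_sum fun x _ => ?_
      rw [dip_eq hμ]
      nlinarith [sq_nonneg (sol tsrc ttgt (1 / ((M : ℝ) ^ A) ^ 2) o (Pi.single (tsrc e) 1) x +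
        sol tsrc ttgt (1 / ((M : ℝ) ^ A) ^ 2) o (Pi.single (ttgt e) 1) x)]
    refine hsum.trans ?_
    have h3 := key _ hg
    have h4 := key _ hg'
    have h5 : (M : ℝ) ^ (C1 * C2) ≤ (M : ℝ) ^ (C1 * C2 + 4 * d) :=
      pow_le_pow_right₀ hM1 (by omega)
    have h6 : (C2 : ℝ) * ((C1 : ℝ) + 1) ^ C2 * (M : ℝ) ^ (C1 * C2) * (M : ℝ) ^ A ≤
        C2 * ((C1 : ℝ) + 1) ^ C2 * (M : ℝ) ^ (C1 * C2 + 4 * d) * (M : ℝ) ^ A := by
      gcongr
    have h7 : 0 ≤ 2 * (13 : ℝ) ^ (4 * d) * (M : ℝ) ^ (C1 * C2 + 4 * d) * (M : ℝ) ^ A := by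
      positivity
    linarith
  · obtain ⟨K, hxK, hcard, hcl, hconn, -, -, -⟩ := small_component hM hdvd hMN ho (tsrc e) hg
    have hyK : ttgt e ∈ K := (hcl e he).1 hxK
    have h3 := (small_comp_dipole tsrc ttgt o hμ K hcl hconn hxK hyK).2
    unfold dip
    refine h3.trans ?_
    have h4 : (K.card : ℝ) ≤ (13 * M : ℝ) ^ d := by
      have h5 : (K.card : ℝ) ≤ ((12 * M + 1 : ℕ) : ℝ) ^ d := by exact_mod_cast hcard
      refine h5.trans (pow_le_pow_left₀ (by positivity) ?_ _)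
      push_cast
      linarith
    have h5 : (K.card : ℝ) ^ 4 ≤ (13 : ℝ) ^ (4 * d) * (M : ℝ) ^ (4 * d) := by
      refine (pow_le_pow_left₀ (by positivity) h4 4).trans (le_of_eq ?_)
      rw [← pow_mul, mul_pow, mul_comm d 4]
    have h6 : (M : ℝ) ^ (4 * d) ≤ (M : ℝ) ^ (C1 * C2 + 4 * d) :=
      pow_le_pow_right₀ hM1 (by omega)
    have h7 : (13 : ℝ) ^ (4 * d) * (M : ℝ) ^ (4 * d) ≤
        13 ^ (4 * d) * (M : ℝ) ^ (C1 * C2 + 4 * d) * (M : ℝ) ^ A := by
      calc (13 : ℝ) ^ (4 * d) * (M : ℝ) ^ (4 * d) ≤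
          13 ^ (4 * d) * (M : ℝ) ^ (C1 * C2 + 4 * d) := by gcongr
        _ ≤ 13 ^ (4 * d) * (M : ℝ) ^ (C1 * C2 + 4 * d) * (M : ℝ) ^ A :=
            le_mul_of_one_le_right (by positivity) hMA1
    have h8 : 0 ≤ 4 * ((C2 : ℝ) * ((C1 : ℝ) + 1) ^ C2) * (M : ℝ) ^ (C1 * C2 + 4 * d) *
        (M : ℝ) ^ A := by positivity
    linarith

theorem dipole_far (d : ℕ) (hd : 3 ≤ d) : ∃ C : ℕ, ∀ A : ℕ, 2 ≤ A → ∃ CA : ℝ, ∀ {N M : ℕ} [NeZero N],
    1 ≤ M → N = 16 * M ^ A → 1000 * M ≤ N → ∀ {o : Tor N d × Fin d → Bool}, GoodT M o →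
      ∀ e, o e = true → ∀ r : ℕ, 1 ≤ r → 16 * r ≤ N →
        ∑ e', (if o e' ∧ r ≤ tdst (tsrc e') (tsrc e) then
          gr tsrc ttgt (dip (1 / ((M : ℝ) ^ A) ^ 2) o e) e' ^ 2 else 0) ≤ CA * (M : ℝ) ^ C / r := by
  obtain ⟨C3, h3⟩ := green_decay d hd
  refine ⟨2 * C3 + 1, fun A hA => ?_⟩
  obtain ⟨CA3, h4⟩ := h3 A
  refine ⟨48 + d * 3 ^ d * 16 * (2 * |CA3| * 8 ^ (d - 2)) ^ 2, ?_⟩
  intro N M _ hM hN hMN o ho e he r hr hrN
  have hM1 : (1 : ℝ) ≤ M := by exact_mod_cast hM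
  have hr1 : (1 : ℝ) ≤ r := by exact_mod_cast hr
  have hr0 : (0 : ℝ) < r := by linarith
  have hN1 : N ≠ 1 := by omega
  have hdvd : M ∣ N := by
    rw [hN]
    exact Dvd.dvd.mul_left (dvd_pow_self M (by omega)) 16
  have hμ : 0 < 1 / ((M : ℝ) ^ A) ^ 2 := by positivity
  set K0 : ℝ := d * 3 ^ d * 16 * (2 * |CA3| * 8 ^ (d - 2)) ^ 2 with hK0
  have hK00 : 0 ≤ K0 := by positivity
  set f : Tor N d → ℝ := dip (1 / ((M : ℝ) ^ A) ^ 2) o e with hf
  have hMC : (M : ℝ) ≤ (M : ℝ) ^ (2 * C3 + 1) := le_self_pow₀ hM1 (by omega)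
  have hMC1 : (1 : ℝ) ≤ (M : ℝ) ^ (2 * C3 + 1) := one_le_pow₀ hM1
  rcases le_or_gt r (48 * M) with hrM | hrM
  · -- small distances
    have h5 := dipole_energy tsrc ttgt o hμ e he
    have h6 : ∑ e', (if o e' ∧ r ≤ tdst (tsrc e') (tsrc e) then gr tsrc ttgt f e' ^ 2 else 0) ≤
        1 := by
      refine le_trans (Finset.sum_le_sum fun e' _ => ?_) h5
      by_cases h7 : o e' = true
      · by_cases h8 : r ≤ tdst (tsrc e') (tsrc e)
        · rw [if_pos ⟨h7, h8⟩, if_pos h7]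
          exact le_of_eq rfl
        · rw [if_neg fun h => h8 h.2, if_pos h7]
          positivity
      · rw [if_neg fun h => h7 h.1, if_neg h7]
    refine h6.trans ?_
    rw [le_div_iff₀ hr0]
    have h7 : (r : ℝ) ≤ 48 * M := by exact_mod_cast hrM
    nlinarith
  have hrM' : (48 * M : ℝ) < r := by exact_mod_cast hrM
  by_cases hg : Giant M o (tsrc e)
  swap
  · -- a small component
    obtain ⟨K, hxK, hcard, hcl, hconn, -, hdist, -⟩ := small_component hM hdvd hMN ho (tsrc e) hg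
    have hyK : ttgt e ∈ K := (hcl e he).1 hxK
    have h5 := (small_comp_dipole tsrc ttgt o hμ K hcl hconn hxK hyK).1
    have h6 : ∑ e', (if o e' ∧ r ≤ tdst (tsrc e') (tsrc e) then gr tsrc ttgt f e' ^ 2 else 0) =
        0 := by
      refine Finset.sum_eq_zero fun e' _ => ?_
      by_cases h7 : o e' = true ∧ r ≤ tdst (tsrc e') (tsrc e)
      · rw [if_pos h7]
        have h8 : tsrc e' ∉ K := fun h => by
          have := hdist _ h
          omega
        have h9 : ttgt e' ∉ K := fun h => by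
          have h10 := hdist _ h
          have h11 := tdst_triangle (tsrc e') (ttgt e') (tsrc e)
          have h12 := tdst_edge' hN1 e'
          omega
        have h10 : f (tsrc e') = 0 := h5 _ h8
        have h11 : f (ttgt e') = 0 := h5 _ h9
        unfold gr
        rw [h10, h11]
        norm_num
      · rw [if_neg h7]
    rw [h6]
    positivity
  -- the giant cluster
  have hg' : Giant M o (ttgt e) := (giant_edge hM hdvd hMN ho he).1 hg
  set ρ : Tor N d → ℕ := fun x => tdst x (tsrc e) with hρ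
  set ζ : Tor N d → ℝ := fun x => cl (4 * (ρ x : ℝ) / r - 2) with hζ
  have hρe : ∀ e', (ρ (tsrc e') : ℝ) ≤ ρ (ttgt e') + 1 ∧ (ρ (ttgt e') : ℝ) ≤ ρ (tsrc e') + 1 := by
    intro e'
    have h5 := tdst_triangle (tsrc e') (ttgt e') (tsrc e)
    have h6 := tdst_edge' hN1 e'
    have h7 := tdst_triangle (ttgt e') (tsrc e') (tsrc e)
    have h8 := tdst_edge hN1 e'
    constructor
    · have : ρ (tsrc e') ≤ ρ (ttgt e') + 1 := by simp only [hρ]; omega
      exact_mod_cast this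
    · have : ρ (ttgt e') ≤ ρ (tsrc e') + 1 := by simp only [hρ]; omega
      exact_mod_cast this
  have hζ0 : ∀ x, (ρ x : ℝ) ≤ r / 2 → ζ x = 0 := by
    intro x hx
    refine cl_zero ?_
    rw [sub_nonpos, div_le_iff₀ hr0]
    linarith
  have hζ1 : ∀ x, 3 * (r : ℝ) / 4 ≤ ρ x → ζ x = 1 := by
    intro x hx
    refine cl_one ?_
    rw [le_sub_iff_add_le, le_div_iff₀ hr0]
    linarith
  have hζgr : ∀ e', gr tsrc ttgt ζ e' ^ 2 ≤ 16 / (r : ℝ) ^ 2 := by
    intro e'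
    have h5 : |gr tsrc ttgt ζ e'| ≤ 4 / r := by
      refine (cl_lip _ _).trans ?_
      have h6 : 4 * (ρ (ttgt e') : ℝ) / r - 2 - (4 * (ρ (tsrc e') : ℝ) / r - 2) =
          4 / r * ((ρ (ttgt e') : ℝ) - ρ (tsrc e')) := by ring
      rw [h6, abs_mul, abs_of_pos (by positivity : (0 : ℝ) < 4 / r)]
      have h7 : |(ρ (ttgt e') : ℝ) - ρ (tsrc e')| ≤ 1 := by
        have := hρe e'
        rw [abs_le]
        constructor <;> linarith [this.1, this.2]
      have h8 : (0 : ℝ) ≤ 4 / r := by positivity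
      nlinarith
    rw [← sq_abs]
    refine (pow_le_pow_left₀ (abs_nonneg _) h5 2).trans (le_of_eq ?_)
    rw [div_pow]
    norm_num
  -- Caccioppoli
  have hcac := caccioppoli tsrc ttgt o hμ (f := f)
    (b := fun x => (if x = tsrc e then 1 else 0) - if x = ttgt e then 1 else 0)
    (sol_spec tsrc ttgt o hμ _) ζ (by
      intro x
      by_cases h5 : x = tsrc e
      · right
        refine hζ0 x ?_
        have h6 : ρ x = 0 := by simp only [hρ]; rw [h5]; exact tdst_self _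
        rw [h6]
        push_cast
        positivity
      · by_cases h6 : x = ttgt e
        · right
          refine hζ0 x ?_
          have h7 : ρ x ≤ 1 := by simp only [hρ]; rw [h6]; exact tdst_edge hN1 e
          have h8 : (ρ x : ℝ) ≤ 1 := by exact_mod_cast h7
          linarith
        · left
          simp only [if_neg h5, if_neg h6, sub_zero])
  have hleft : ∑ e', (if o e' ∧ r ≤ tdst (tsrc e') (tsrc e) then gr tsrc ttgt f e' ^ 2 else 0) ≤
      ∑ e', (if o e' then gr tsrc ttgt (fun x => ζ x * f x) e' ^ 2 else 0) := by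
    refine Finset.sum_le_sum fun e' _ => ?_
    by_cases h7 : o e' = true
    · by_cases h8 : r ≤ tdst (tsrc e') (tsrc e)
      · rw [if_pos ⟨h7, h8⟩, if_pos h7]
        have h9 : (r : ℝ) ≤ ρ (tsrc e') := by exact_mod_cast h8
        have h10 : ζ (tsrc e') = 1 := hζ1 _ (by linarith)
        have h11 : ζ (ttgt e') = 1 := hζ1 _ (by linarith [(hρe e').1])
        simp only [gr]
        rw [h10, h11, one_mul, one_mul]
      · rw [if_neg fun h => h8 h.2, if_pos h7]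
        positivity
    · rw [if_neg fun h => h7 h.1, if_neg h7]
  -- the potential in the annulus
  set B : ℝ := 2 * |CA3| * 8 ^ (d - 2) * (M : ℝ) ^ C3 / (r : ℝ) ^ (d - 2) with hB
  have hB0 : 0 ≤ B := by positivity
  have hfB : ∀ x, (r : ℝ) / 2 - 1 ≤ ρ x → |f x| ≤ B := by
    intro x hx
    have hr4 : 12 * M ≤ r / 4 := by omega
    have hr5 : 8 * (r / 4) ≤ N := by omega
    have hx' : r ≤ 2 * ρ x + 2 := by
      have : (r : ℝ) ≤ 2 * ρ x + 2 := by linarith
      exact_mod_cast this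
    have hxa : r / 4 ≤ tdst x (tsrc e) := by
      have : r ≤ 2 * tdst x (tsrc e) + 2 := hx'
      omega
    have hxb : r / 4 ≤ tdst x (ttgt e) := by
      have h5 : r ≤ 2 * tdst x (tsrc e) + 2 := hx'
      have h6 := tdst_triangle x (ttgt e) (tsrc e)
      have h7 := tdst_edge hN1 e
      omega
    have ha := h4 hM hN hMN ho _ hg (r / 4) hr4 hr5 x hxa
    have hb := h4 hM hN hMN ho _ hg' (r / 4) hr4 hr5 x hxb
    have ha0 := sol_nonneg tsrc ttgt o hμ (b := Pi.single (tsrc e) (1 : ℝ)) (fun y => by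
      rw [Pi.single_apply]; split_ifs <;> norm_num) x
    have hb0 := sol_nonneg tsrc ttgt o hμ (b := Pi.single (ttgt e) (1 : ℝ)) (fun y => by
      rw [Pi.single_apply]; split_ifs <;> norm_num) x
    have hr8 : (r : ℝ) / 8 ≤ ((r / 4 : ℕ) : ℝ) := by
      have h5 : r ≤ 8 * (r / 4) := by omega
      have h6 : (r : ℝ) ≤ 8 * ((r / 4 : ℕ) : ℝ) := by exact_mod_cast h5
      linarith
    have hbd : CA3 * (M : ℝ) ^ C3 / ((r / 4 : ℕ) : ℝ) ^ (d - 2) ≤ B / 2 := by
      have h5 : ((r : ℝ) / 8) ^ (d - 2) ≤ ((r / 4 : ℕ) : ℝ) ^ (d - 2) :=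
        pow_le_pow_left₀ (by positivity) hr8 _
      have h6 : CA3 * (M : ℝ) ^ C3 ≤ |CA3| * (M : ℝ) ^ C3 :=
        mul_le_mul_of_nonneg_right (le_abs_self _) (by positivity)
      calc CA3 * (M : ℝ) ^ C3 / ((r / 4 : ℕ) : ℝ) ^ (d - 2) ≤
          |CA3| * (M : ℝ) ^ C3 / ((r / 4 : ℕ) : ℝ) ^ (d - 2) := by gcongr
        _ ≤ |CA3| * (M : ℝ) ^ C3 / ((r : ℝ) / 8) ^ (d - 2) := by gcongr
        _ = B / 2 := by
          rw [hB, div_pow]
          field_simp
    have hfx : f x = sol tsrc ttgt (1 / ((M : ℝ) ^ A) ^ 2) o (Pi.single (tsrc e) 1) x -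
        sol tsrc ttgt (1 / ((M : ℝ) ^ A) ^ 2) o (Pi.single (ttgt e) 1) x := dip_eq hμ o e x
    rw [hfx, abs_le]
    constructor <;> linarith
  have hright : ∑ e', (if o e' then f (tsrc e') * f (ttgt e') * gr tsrc ttgt ζ e' ^ 2 else 0) ≤
      ∑ e' : Tor N d × Fin d, (if tdst (tsrc e') (tsrc e) ≤ r then B ^ 2 * (16 / (r : ℝ) ^ 2)
        else 0) := by
    refine Finset.sum_le_sum fun e' _ => ?_
    have hnn : 0 ≤ (if tdst (tsrc e') (tsrc e) ≤ r then B ^ 2 * (16 / (r : ℝ) ^ 2) else 0) := by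
      split_ifs <;> positivity
    by_cases h7 : o e' = true
    · rw [if_pos h7]
      by_cases h8 : gr tsrc ttgt ζ e' = 0
      · rw [h8]
        norm_num
        exact hnn
      · have h9 : (r : ℝ) / 2 - 1 ≤ ρ (tsrc e') ∧ (r : ℝ) / 2 - 1 ≤ ρ (ttgt e') := by
          by_contra hcon
          apply h8
          have h10 := hρe e'
          have h11 : (ρ (tsrc e') : ℝ) ≤ r / 2 ∧ (ρ (ttgt e') : ℝ) ≤ r / 2 := by
            by_contra h12
            apply hcon
            rw [not_and_or, not_le, not_le] at h12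
            constructor <;> rcases h12 with h | h <;> linarith [h10.1, h10.2]
          unfold gr
          rw [hζ0 _ h11.1, hζ0 _ h11.2, sub_zero]
        have h10 : (ρ (tsrc e') : ℝ) ≤ r := by
          by_contra hcon
          apply h8
          push Not at hcon
          have h11 := hρe e'
          unfold gr
          rw [hζ1 _ (by linarith [h11.1]), hζ1 _ (by linarith [h11.1]), sub_self]
        have h11 : tdst (tsrc e') (tsrc e) ≤ r := by
          have : ρ (tsrc e') ≤ r := by exact_mod_cast h10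
          exact this
        rw [if_pos h11]
        have h12 : f (tsrc e') * f (ttgt e') ≤ B ^ 2 := by
          refine (le_abs_self _).trans ?_
          rw [abs_mul, sq]
          exact mul_le_mul (hfB _ h9.1) (hfB _ h9.2) (abs_nonneg _) hB0
        calc f (tsrc e') * f (ttgt e') * gr tsrc ttgt ζ e' ^ 2 ≤
            B ^ 2 * gr tsrc ttgt ζ e' ^ 2 := mul_le_mul_of_nonneg_right h12 (sq_nonneg _)
          _ ≤ B ^ 2 * (16 / (r : ℝ) ^ 2) := mul_le_mul_of_nonneg_left (hζgr e') (sq_nonneg _)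
    · rw [if_neg h7]
      exact hnn
  have hcount : ∑ e' : Tor N d × Fin d, (if tdst (tsrc e') (tsrc e) ≤ r then
      B ^ 2 * (16 / (r : ℝ) ^ 2) else 0) ≤ d * (3 * r : ℝ) ^ d * (B ^ 2 * (16 / (r : ℝ) ^ 2)) := by
    rw [Fintype.sum_prod_type]
    have h5 : ∀ x : Tor N d, ∑ j : Fin d, (if tdst (tsrc (x, j)) (tsrc e) ≤ r then
        B ^ 2 * (16 / (r : ℝ) ^ 2) else 0) =
        if tdst x (tsrc e) ≤ r then d * (B ^ 2 * (16 / (r : ℝ) ^ 2)) else 0 := by
      intro x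
      have h6 : ∀ j : Fin d, tsrc (x, j) = x := fun j => rfl
      simp only [h6, Finset.sum_const, Finset.card_univ, Fintype.card_fin, nsmul_eq_mul]
      split_ifs <;> simp
    rw [Finset.sum_congr rfl fun x _ => h5 x, ← Finset.sum_filter, Finset.sum_const, nsmul_eq_mul]
    have h6 : ((Finset.univ.filter fun x : Tor N d => tdst x (tsrc e) ≤ r).card : ℝ) ≤
        (3 * r : ℝ) ^ d := by
      have h7 : ((Finset.univ.filter fun x : Tor N d => tdst x (tsrc e) ≤ r).card : ℝ) ≤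
          ((2 * r + 1 : ℕ) : ℝ) ^ d := by exact_mod_cast card_ball (tsrc e) r
      refine h7.trans (pow_le_pow_left₀ (by positivity) ?_ _)
      push_cast
      linarith
    have h7 : 0 ≤ (d : ℝ) * (B ^ 2 * (16 / (r : ℝ) ^ 2)) := by positivity
    have h8 := mul_le_mul_of_nonneg_right h6 h7
    linarith
  have hfinal : d * (3 * r : ℝ) ^ d * (B ^ 2 * (16 / (r : ℝ) ^ 2)) ≤
      K0 * (M : ℝ) ^ (2 * C3 + 1) / r := by
    obtain ⟨d', rfl⟩ : ∃ d', d = d' + 3 := ⟨d - 3, by omega⟩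
    have e1 : d' + 3 - 2 = d' + 1 := by omega
    have h5 : ((d' + 3 : ℕ) : ℝ) * (3 * r : ℝ) ^ (d' + 3) * (B ^ 2 * (16 / (r : ℝ) ^ 2)) =
        K0 * (M : ℝ) ^ (2 * C3) / (r : ℝ) ^ (d' + 1) := by
      rw [hB, hK0, e1]
      field_simp
      ring
    rw [h5]
    have h6 : (M : ℝ) ^ (2 * C3) ≤ (M : ℝ) ^ (2 * C3 + 1) := pow_le_pow_right₀ hM1 (by omega)
    have h7 : (r : ℝ) ≤ (r : ℝ) ^ (d' + 1) := le_self_pow₀ hr1 (by omega)
    gcongr
  have h5 : K0 * (M : ℝ) ^ (2 * C3 + 1) / r ≤ (48 + K0) * (M : ℝ) ^ (2 * C3 + 1) / r := by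
    gcongr
    linarith
  linarith

end Pool.Agent.Lib.MP_566bac_pr.Hd
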