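import Pool.Agent.Lib.MP_566bac_pr.Hd.OP1

/-!
# Flips of one edge; differences along paths
-/

open Finset
open scoped Classical

set_option linter.unusedSectionVars false

namespace Pool.Agent.Lib.MP_566bac_pr.Hd

section OP1
variable {X I : Type*} [Fintype X] [DecidableEq X] [Fintype I] [DecidableEq I]
variable (src tgt : I → X) {μ : ℝ} (o : I → Bool)

/-! #### paths -/

/-- the simple graph of the open edges -/
def OP2_graph : SimpleGraph X :=
  SimpleGraph.fromRel fun a b => ∃ e, o e = true ∧ src e = a ∧ tgt e = b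

theorem OP2_walk {n : ℕ} {x y : X} (h : PathLe src tgt o n x y) :
    ∃ p : (OP2_graph src tgt o).Walk x y, p.length ≤ n := by
  obtain ⟨l, hl, hc, hy⟩ := h
  induction l generalizing x n with
  | nil =>
    simp only [List.getLast_singleton] at hy
    subst hy
    exact ⟨SimpleGraph.Walk.nil, Nat.zero_le _⟩
  | cons b l ih =>
    rw [List.isChain_cons_cons] at hc
    obtain ⟨h1, h2⟩ := hc
    rw [List.getLast_cons (List.cons_ne_nil b l)] at hy
    rw [List.length_cons] at hl
    obtain ⟨p, hp⟩ := ih (n := n - 1) (x := b) (by omega) h2 hy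
    by_cases hxb : x = b
    · subst hxb
      exact ⟨p, by omega⟩
    · have hadj : (OP2_graph src tgt o).Adj x b := by
        rw [OP2_graph, SimpleGraph.fromRel_adj]
        refine ⟨hxb, ?_⟩
        obtain ⟨e, he, h3 | h3⟩ := h1
        · exact Or.inl ⟨e, he, h3.1, h3.2⟩
        · exact Or.inr ⟨e, he, h3.1, h3.2⟩
      exact ⟨SimpleGraph.Walk.cons hadj p, by rw [SimpleGraph.Walk.length_cons]; omega⟩

theorem OP2_cs {a b m S : ℝ} (hm : 0 ≤ m) (hS : 0 ≤ S) (hb : b ^ 2 ≤ m * S) :
    (a + b) ^ 2 ≤ (m + 1) * (a ^ 2 + S) := by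
  have h0 : 0 ≤ m * a ^ 2 + S := by positivity
  have h1 : (2 * (a * b)) ^ 2 ≤ (m * a ^ 2 + S) ^ 2 := by
    have h2 := mul_le_mul_of_nonneg_left hb (sq_nonneg a)
    nlinarith [sq_nonneg (m * a ^ 2 - S)]
  have h2 : 2 * (a * b) ≤ m * a ^ 2 + S := by
    exact (le_abs_self _).trans (abs_le_of_sq_le_sq h1 h0)
  nlinarith

theorem OP2_darts {H : SimpleGraph X} (f : X → ℝ) {x y : X} (p : H.Walk x y) :
    (f y - f x) ^ 2 ≤ p.length * (p.darts.map fun d => (f d.snd - f d.fst) ^ 2).sum := by
  induction p with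
  | nil => simp
  | cons h p ih =>
    rename_i u v w
    rw [SimpleGraph.Walk.length_cons, SimpleGraph.Walk.darts_cons, List.map_cons, List.sum_cons]
    have h1 : f w - f u = (f v - f u) + (f w - f v) := by ring
    rw [h1]
    push_cast
    refine OP2_cs (Nat.cast_nonneg _) (List.sum_nonneg ?_) ih
    intro z hz
    obtain ⟨d, -, rfl⟩ := List.mem_map.mp hz
    exact sq_nonneg _

/-- Cauchy-Schwarz along a path -/
theorem OP2_path_sq {n : ℕ} {x y : X} (h : PathLe src tgt o n x y) (f : X → ℝ) :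
    (f y - f x) ^ 2 ≤ n * ∑ e, if o e then gr src tgt f e ^ 2 else 0 := by
  obtain ⟨p, hp⟩ := OP2_walk src tgt o h
  set q := p.bypass with hq
  have hqp : q.IsPath := SimpleGraph.Walk.bypass_isPath p
  have hqn : q.length ≤ n := (SimpleGraph.Walk.length_bypass_le_length p).trans hp
  have hS : 0 ≤ ∑ e, if o e then gr src tgt f e ^ 2 else 0 := Finset.sum_nonneg fun e _ => by
    split_ifs
    · exact sq_nonneg _
    · exact le_rfl
  -- an edge for every dart
  have hex : ∀ d : (OP2_graph src tgt o).Dart, ∃ e, o e = true ∧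
      ((src e = d.fst ∧ tgt e = d.snd) ∨ (src e = d.snd ∧ tgt e = d.fst)) := by
    intro d
    have h1 := (SimpleGraph.fromRel_adj _ _ _).mp d.adj
    obtain ⟨-, ⟨e, he, h2, h3⟩ | ⟨e, he, h2, h3⟩⟩ := h1
    · exact ⟨e, he, Or.inl ⟨h2, h3⟩⟩
    · exact ⟨e, he, Or.inr ⟨h2, h3⟩⟩
  choose E hE1 hE2 using hex
  have hedge : ∀ d, s(src (E d), tgt (E d)) = d.edge := by
    intro d
    have h0 : d.edge = s(d.fst, d.snd) := rfl
    rw [h0, Sym2.eq_iff]
    rcases hE2 d with h | h
    · exact Or.inl h
    · exact Or.inr h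
  have hnodup : (q.darts.map E).Nodup := by
    have h1 : (q.darts.map SimpleGraph.Dart.edge).Nodup := hqp.isTrail.edges_nodup
    have h2 : (q.darts.map SimpleGraph.Dart.edge) =
        (q.darts.map E).map (fun e => s(src e, tgt e)) := by
      rw [List.map_map]
      refine List.map_congr_left fun d _ => ?_
      exact (hedge d).symm
    rw [h2] at h1
    exact h1.of_map _
  have hsum : (q.darts.map fun d => (f d.snd - f d.fst) ^ 2).sum ≤
      ∑ e, if o e then gr src tgt f e ^ 2 else 0 := by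
    have h1 : (q.darts.map fun d => (f d.snd - f d.fst) ^ 2) =
        (q.darts.map E).map (fun e => if o e then gr src tgt f e ^ 2 else 0) := by
      rw [List.map_map]
      refine List.map_congr_left fun d _ => ?_
      simp only [Function.comp, hE1 d, if_true]
      unfold gr
      rcases hE2 d with h | h
      · rw [h.1, h.2]
      · rw [h.1, h.2]; ring
    rw [h1, ← List.sum_toFinset _ hnodup]
    refine Finset.sum_le_sum_of_subset_of_nonneg (Finset.subset_univ _) fun e _ _ => ?_
    split_ifs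
    · exact sq_nonneg _
    · exact le_rfl
  refine (OP2_darts f q).trans ?_
  refine (mul_le_mul_of_nonneg_left hsum (Nat.cast_nonneg _)).trans ?_
  exact mul_le_mul_of_nonneg_right (by exact_mod_cast hqn) hS

/-! #### flips -/

/-- the dipole of an edge -/
def OP2_v (e : I) (x : X) : ℝ := (if tgt e = x then 1 else 0) - if src e = x then 1 else 0

theorem OP2_sum_ite (e : I) (F : (I → Bool) → I → ℝ) (h : ∀ e', e' ≠ e → F (up o e) e' = F (dn o e) e') :
    ∑ e', F (up o e) e' = ∑ e', F (dn o e) e' + (F (up o e) e - F (dn o e) e) := by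
  have h1 := Finset.add_sum_erase Finset.univ (F (up o e)) (Finset.mem_univ e)
  have h2 := Finset.add_sum_erase Finset.univ (F (dn o e)) (Finset.mem_univ e)
  have h3 : ∑ e' ∈ Finset.univ.erase e, F (up o e) e' = ∑ e' ∈ Finset.univ.erase e, F (dn o e) e' :=
    Finset.sum_congr rfl fun e' he' => h e' (Finset.ne_of_mem_erase he')
  rw [← h1, ← h2, h3]
  ring

theorem OP2_up_self (e : I) : up o e e = true := Function.update_self _ _ _
theorem OP2_dn_self (e : I) : dn o e e = false := Function.update_self _ _ _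
theorem OP2_up_ne {e e' : I} (h : e' ≠ e) : up o e e' = o e' := Function.update_of_ne h _ _
theorem OP2_dn_ne {e e' : I} (h : e' ≠ e) : dn o e e' = o e' := Function.update_of_ne h _ _

theorem OP2_op (e : I) (f : X → ℝ) (x : X) :
    Op src tgt μ (up o e) f x = Op src tgt μ (dn o e) f x + gr src tgt f e * OP2_v src tgt e x := by
  unfold Op
  rw [OP2_sum_ite o e (fun o' e' => if o' e' = true then
    ((if tgt e' = x then gr src tgt f e' else 0) - (if src e' = x then gr src tgt f e' else 0))
      else 0) (fun e' he' => by rw [OP2_up_ne o he', OP2_dn_ne o he'])]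
  simp only [OP2_up_self, OP2_dn_self, if_true, Bool.false_eq_true, if_false, sub_zero]
  unfold OP2_v
  split_ifs <;> ring

theorem OP2_dv (e : I) (Y : I → ℝ) (x : X) :
    Dv src tgt (up o e) Y x = Dv src tgt (dn o e) Y x - Y e * OP2_v src tgt e x := by
  unfold Dv
  rw [OP2_sum_ite o e (fun o' e' => if o' e' = true then
    ((if src e' = x then Y e' else 0) - (if tgt e' = x then Y e' else 0))
      else 0) (fun e' he' => by rw [OP2_up_ne o he', OP2_dn_ne o he'])]
  simp only [OP2_up_self, OP2_dn_self, if_true, Bool.false_eq_true, if_false, sub_zero]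
  unfold OP2_v
  split_ifs <;> ring

theorem OP2_pair (e : I) (f : X → ℝ) : ∑ x, f x * OP2_v src tgt e x = gr src tgt f e := by
  simp only [OP2_v, mul_sub, mul_ite, mul_one, mul_zero]
  rw [Finset.sum_sub_distrib, Finset.sum_ite_eq, Finset.sum_ite_eq]
  simp [gr]

/-- the two potentials -/
theorem OP2_psi (hμ : 0 < μ) (e : I) (Y : I → ℝ) :
    sol src tgt μ (up o e) (fun x => Zf src tgt μ (dn o e) Y e * OP2_v src tgt e x) =
      fun x => sol src tgt μ (dn o e) (Dv src tgt (dn o e) Y) x -
        sol src tgt μ (up o e) (Dv src tgt (up o e) Y) x := by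
  symm
  apply sol_unique src tgt (up o e) hμ
  funext x
  have h1 := OP1_op_lin src tgt (μ := μ) (up o e) 1 (-1)
    (sol src tgt μ (dn o e) (Dv src tgt (dn o e) Y))
    (sol src tgt μ (up o e) (Dv src tgt (up o e) Y)) x
  have h2 : (fun x => 1 * sol src tgt μ (dn o e) (Dv src tgt (dn o e) Y) x +
      -1 * sol src tgt μ (up o e) (Dv src tgt (up o e) Y) x) =
      fun x => sol src tgt μ (dn o e) (Dv src tgt (dn o e) Y) x -
        sol src tgt μ (up o e) (Dv src tgt (up o e) Y) x := by
    funext x; ring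
  rw [h2] at h1
  rw [h1, OP2_op, sol_spec src tgt (dn o e) hμ, sol_spec src tgt (up o e) hμ, OP2_dv]
  unfold Zf
  ring

/-! ### OP2: flips of one edge -/
theorem flip_lin (hμ : 0 < μ) (e : I) (Y : I → ℝ) (χ : X → ℝ) :
    ∑ x, χ x * sol src tgt μ (up o e) (Dv src tgt (up o e) Y) x -
      ∑ x, χ x * sol src tgt μ (dn o e) (Dv src tgt (dn o e) Y) x =
        -(Zf src tgt μ (dn o e) Y e * gr src tgt (sol src tgt μ (up o e) χ) e) := by
  have h1 := OP2_psi src tgt o hμ e Y
  have h2 := sol_symm src tgt (up o e) hμ χ (fun x => Zf src tgt μ (dn o e) Y e * OP2_v src tgt e x)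
  rw [h1] at h2
  have h3 : ∑ x, sol src tgt μ (up o e) χ x * (Zf src tgt μ (dn o e) Y e * OP2_v src tgt e x) =
      Zf src tgt μ (dn o e) Y e * gr src tgt (sol src tgt μ (up o e) χ) e := by
    rw [← OP2_pair src tgt e (sol src tgt μ (up o e) χ), Finset.mul_sum]
    exact Finset.sum_congr rfl fun x _ => by ring
  rw [h3] at h2
  have h4 : ∑ x, χ x * (sol src tgt μ (dn o e) (Dv src tgt (dn o e) Y) x -
      sol src tgt μ (up o e) (Dv src tgt (up o e) Y) x) =
      ∑ x, χ x * sol src tgt μ (dn o e) (Dv src tgt (dn o e) Y) x -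
        ∑ x, χ x * sol src tgt μ (up o e) (Dv src tgt (up o e) Y) x := by
    rw [← Finset.sum_sub_distrib]
    exact Finset.sum_congr rfl fun x _ => by ring
  rw [h4] at h2
  linarith

theorem OP2_zsum (hμ : 0 < μ) (o : I → Bool) (Y Y' : I → ℝ) :
    (∑ e', if o e' then Y' e' * Zf src tgt μ o Y e' else 0) =
      (∑ e', if o e' then Y' e' * Y e' else 0) -
        ∑ x, Dv src tgt o Y' x * sol src tgt μ o (Dv src tgt o Y) x := by
  have _ := hμ
  rw [dv_form, sub_neg_eq_add, ← Finset.sum_add_distrib]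
  refine Finset.sum_congr rfl fun e _ => ?_
  unfold Zf
  split_ifs <;> ring

theorem flip_quad (hμ : 0 < μ) (e : I) (Y Y' : I → ℝ) :
    (∑ e', if up o e e' then Y' e' * Zf src tgt μ (up o e) Y e' else 0) -
      (∑ e', if dn o e e' then Y' e' * Zf src tgt μ (dn o e) Y e' else 0) =
        Zf src tgt μ (dn o e) Y e * Zf src tgt μ (up o e) Y' e := by
  rw [OP2_zsum src tgt hμ, OP2_zsum src tgt hμ]
  have h1 := flip_lin src tgt o hμ e Y (Dv src tgt (up o e) Y')
  have h2 : (∑ e', if up o e e' then Y' e' * Y e' else 0) =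
      (∑ e', if dn o e e' then Y' e' * Y e' else 0) + Y' e * Y e := by
    rw [OP2_sum_ite o e (fun o' e' => if o' e' = true then Y' e' * Y e' else 0)
      (fun e' he' => by rw [OP2_up_ne o he', OP2_dn_ne o he'])]
    simp only [OP2_up_self, OP2_dn_self, if_true, Bool.false_eq_true, if_false, sub_zero]
  have h3 : ∑ x, Dv src tgt (dn o e) Y' x * sol src tgt μ (dn o e) (Dv src tgt (dn o e) Y) x =
      ∑ x, Dv src tgt (up o e) Y' x * sol src tgt μ (dn o e) (Dv src tgt (dn o e) Y) x +
        Y' e * gr src tgt (sol src tgt μ (dn o e) (Dv src tgt (dn o e) Y)) e := by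
    rw [← OP2_pair src tgt e, Finset.mul_sum, ← Finset.sum_add_distrib]
    refine Finset.sum_congr rfl fun x _ => ?_
    rw [OP2_dv]
    ring
  rw [h2, h3]
  have h4 : Zf src tgt μ (up o e) Y' e = Y' e +
      gr src tgt (sol src tgt μ (up o e) (Dv src tgt (up o e) Y')) e := rfl
  have h5 : Zf src tgt μ (dn o e) Y e = Y e +
      gr src tgt (sol src tgt μ (dn o e) (Dv src tgt (dn o e) Y)) e := rfl
  rw [h4, mul_add]
  rw [h5] at h1 ⊢
  linear_combination (-1 : ℝ) * h1

/-- if the end points of `e` are joined by a path of length `n` not using `e` -/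
theorem flip_ratio (hμ : 0 < μ) (e : I) (Y : I → ℝ) (n : ℕ)
    (h : PathLe src tgt (dn o e) n (src e) (tgt e)) :
    |Zf src tgt μ (dn o e) Y e| ≤ (n + 1) * |Zf src tgt μ (up o e) Y e| := by
  set v := OP2_v src tgt e with hv
  set g0 := sol src tgt μ (dn o e) v with hg0
  set g1 := sol src tgt μ (up o e) v with hg1
  set R := gr src tgt g0 e with hR
  -- energy of `g0`
  have hform := op_form src tgt (μ := μ) (dn o e) g0 g0
  rw [hg0, sol_spec src tgt (dn o e) hμ, ← hg0] at hform
  have hvg : ∑ x, v x * g0 x = R := by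
    rw [hR, ← OP2_pair src tgt e g0]
    exact Finset.sum_congr rfl fun x _ => mul_comm _ _
  rw [hvg] at hform
  have hE0 := OP1_energy_nonneg src tgt (dn o e) g0
  have hm0 : 0 ≤ μ * ∑ x, g0 x * g0 x :=
    mul_nonneg hμ.le (Finset.sum_nonneg fun x _ => mul_self_nonneg _)
  have hR0 : 0 ≤ R := by linarith
  have hRn : R ≤ n := by
    have h1 := OP2_path_sq src tgt (dn o e) h g0
    have h2 : ∑ e', (if dn o e e' then gr src tgt g0 e' ^ 2 else 0) ≤ R := by
      have h3 : ∑ e', (if dn o e e' then gr src tgt g0 e' ^ 2 else 0) =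
          ∑ e', (if dn o e e' then gr src tgt g0 e' * gr src tgt g0 e' else 0) :=
        Finset.sum_congr rfl fun e' _ => by rw [sq]
      rw [h3]
      linarith
    have h3 : R ^ 2 ≤ n * R := by
      have h4 : (g0 (tgt e) - g0 (src e)) ^ 2 = R ^ 2 := by rw [hR]; rfl
      rw [← h4]
      exact h1.trans (mul_le_mul_of_nonneg_left h2 (Nat.cast_nonneg _))
    rcases hR0.eq_or_lt with h4 | h4
    · rw [← h4]; exact Nat.cast_nonneg _
    · by_contra hcon
      push Not at hcon
      nlinarith
  -- relation between `g1` and `g0`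
  have hg : g1 = fun x => (1 + R)⁻¹ * g0 x := by
    symm
    apply sol_unique src tgt (up o e) hμ
    funext x
    have h1 := OP1_op_lin src tgt (μ := μ) (up o e) (1 + R)⁻¹ 0 g0 g0 x
    simp only [zero_mul, add_zero] at h1
    rw [h1, OP2_op, hg0, sol_spec src tgt (dn o e) hμ, ← hg0, ← hR, ← hv]
    have h2 : (1 + R) ≠ 0 := by linarith
    field_simp
  have hpsi := OP2_psi src tgt o hμ e Y
  set Z0 := Zf src tgt μ (dn o e) Y e with hZ0
  have h1 : sol src tgt μ (up o e) (fun x => Z0 * v x) = fun x => Z0 * g1 x := by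
    have h2 := sol_add src tgt (up o e) hμ v v Z0 0
    simp only [zero_mul, add_zero] at h2
    exact h2
  rw [h1] at hpsi
  have h2 : Zf src tgt μ (up o e) Y e = Z0 - Z0 * gr src tgt g1 e := by
    have h3 : ∀ x, sol src tgt μ (up o e) (Dv src tgt (up o e) Y) x =
        sol src tgt μ (dn o e) (Dv src tgt (dn o e) Y) x - Z0 * g1 x := fun x => by
      have := congrFun hpsi x
      linarith
    have h5 : Z0 = Y e + gr src tgt (sol src tgt μ (dn o e) (Dv src tgt (dn o e) Y)) e := rfl
    have h6 : Zf src tgt μ (up o e) Y e = Y e +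
        gr src tgt (sol src tgt μ (up o e) (Dv src tgt (up o e) Y)) e := rfl
    rw [h6]
    unfold gr at h5 ⊢
    rw [h3, h3]
    linarith
  have h3 : gr src tgt g1 e = (1 + R)⁻¹ * R := by
    have h7 : gr src tgt g1 e = (1 + R)⁻¹ * g0 (tgt e) - (1 + R)⁻¹ * g0 (src e) := by
      unfold gr
      rw [hg]
    rw [h7, ← mul_sub]
    rfl
  have h4 : Z0 = (1 + R) * Zf src tgt μ (up o e) Y e := by
    rw [h2, h3]
    have h5 : (1 + R) ≠ 0 := by linarith
    field_simp
    ring
  rw [h4, abs_mul, abs_of_nonneg (by linarith : (0 : ℝ) ≤ 1 + R)]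
  exact mul_le_mul_of_nonneg_right (by linarith) (abs_nonneg _)

end OP1

end Pool.Agent.Lib.MP_566bac_pr.Hd
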