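import Pool.Agent.Lib.MP_566bac_pr.Hd.TG2

/-!
# Neighbours which are connected are connected locally
-/

open Finset
open scoped Classical

namespace Pool.Agent.Lib.MP_566bac_pr.Hd

set_option linter.unusedSectionVars false
set_option linter.unusedVariables false

variable {d : ℕ}

theorem TG3_pow {a d M : ℕ} (hM : 1 ≤ M) : (a * M) ^ d ≤ (a ^ d + d) * M ^ (a ^ d + d) := by
  rw [mul_pow]
  refine Nat.mul_le_mul (by omega) (Nat.pow_le_pow_right hM (by omega))

/-- a connection in a finite set gives a short walk -/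
theorem TG3_conn_walk {η : Conf d} {W : Finset (Vtx d)} {x y : Vtx d} (h : Conn η W x y) :
    ∃ p : (G η).Walk x y, p.length ≤ W.card := by
  obtain ⟨hx, hy, hr⟩ := h
  obtain ⟨p, hp⟩ := TG2_walk (H := res (G η) (W : Set (Vtx d))) (C := W)
    (fun a _ b hab => by exact_mod_cast hab.2.2) hx hr
  refine ⟨p.mapLe BAS_res_le, ?_⟩
  rw [SimpleGraph.Walk.mapLe, SimpleGraph.Walk.length_map]
  omega

theorem local_path (d : ℕ) (hd : 1 ≤ d) : ∃ C : ℕ, ∀ {N M : ℕ} [NeZero N], 1 ≤ M → M ∣ N →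
    1000 * M ≤ N → ∀ {o : Tor N d × Fin d → Bool}, GoodT M o → ∀ e : Tor N d × Fin d,
      Rch tsrc ttgt o (tsrc e) (ttgt e) → PathLe tsrc ttgt o (C * M ^ C) (tsrc e) (ttgt e) := by
  refine ⟨17 ^ d + d, ?_⟩
  intro N M _ hM hMN hN o ho e hr
  obtain ⟨n, hn⟩ := hr
  by_cases hg : Giant M o (tsrc e)
  · -- the giant component
    have hg' : Giant M o (ttgt e) :=
      (TG1_pathLe_ind (P := fun x => Giant M o x)
        (fun e he => giant_edge hM hMN hN ho he) hn).1 hg
    obtain ⟨x, j⟩ := e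
    have h2 : ttgt (x, j) = prj N (rep x + ev j) := by
      rw [TG1_prj_add, TG1_prj_rep, TG1_prj_ev]
      rfl
    rw [h2, TG1_giant_prj] at hg'
    have hg1 : Far (lift o) (6 * M) (rep x) := hg
    obtain ⟨w, hw, hxw⟩ := TG1_floor hM (rep x)
    have h3 : dst (rep x + ev j) w ≤ 2 * M := by
      have h4 := dst_triangle (rep x + ev j) (rep x) w
      have h5 := dst_add_ev (rep x) j
      omega
    obtain ⟨p, hp⟩ := TG3_conn_walk (good_conn (ho w hw) (by omega) h3 hg1 hg')
    have h6 := TG1_walk (src := tsrc) (tgt := ttgt) (o := o) (prj N)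
      (fun a b h => TG1_adj h) p
    rw [TG1_prj_rep] at h6
    rw [h2]
    refine TG1_pathLe_mono ?_ h6
    refine hp.trans ?_
    rw [card_Lam]
    refine (Nat.pow_le_pow_left (by omega : 2 * (8 * M) + 1 ≤ 17 * M) d).trans ?_
    exact TG3_pow hM
  · obtain ⟨K, h1, h2, h3, h4, -⟩ := small_component hM hMN hN ho (tsrc e) hg
    have h5 : ttgt e ∈ K := (TG1_pathLe_ind (P := fun x => x ∈ K) h3 hn).1 h1
    refine TG1_pathLe_mono ?_ (h4 _ h1 _ h5)
    refine h2.trans ?_
    refine (Nat.pow_le_pow_left (by omega : 12 * M + 1 ≤ 17 * M) d).trans ?_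
    exact TG3_pow hM

end Pool.Agent.Lib.MP_566bac_pr.Hd
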