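import Pool.Agent.Lib.MP_566bac_pr.Hd.AV
import Pool.Agent.Lib.MP_566bac_pr.Hd.OP2
import Pool.Agent.Lib.MP_566bac_pr.Hd.OP3
import Pool.Agent.Lib.MP_566bac_pr.Hd.OP4
import Pool.Agent.Lib.MP_566bac_pr.Hd.TG1
import Pool.Agent.Lib.MP_566bac_pr.Hd.TG2
import Pool.Agent.Lib.MP_566bac_pr.Hd.TG3
import Pool.Agent.Lib.MP_566bac_pr.Hd.DP

/-!
# Effect of one edge on the averages of the flux
-/

open Finset MeasureTheory ProbabilityTheory Filter
open scoped Classical

namespace Pool.Agent.Lib.MP_566bac_pr.Hd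

variable {d : ℕ}

theorem FL2_deg {N : ℕ} [NeZero N] (x : Tor N d) :
    (Finset.univ.filter fun e : Tor N d × Fin d => tsrc e = x ∨ ttgt e = x).card ≤ 2 * d := by
  have h1 : (Finset.univ.filter fun e : Tor N d × Fin d => tsrc e = x ∨ ttgt e = x) ⊆
      (Finset.univ.image fun j : Fin d => (x, j)) ∪
        (Finset.univ.image fun j : Fin d => (x - tev j, j)) := by
    rintro ⟨y, j⟩ h
    rw [Finset.mem_filter] at h
    rw [Finset.mem_union, Finset.mem_image, Finset.mem_image]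
    rcases h.2 with h | h
    · left
      refine ⟨j, Finset.mem_univ _, ?_⟩
      have : y = x := h
      rw [this]
    · right
      refine ⟨j, Finset.mem_univ _, ?_⟩
      have : y + tev j = x := h
      rw [← this, add_sub_cancel_right]
  have h2 := Finset.card_le_card h1
  have h3 := Finset.card_union_le (Finset.univ.image fun j : Fin d => (x, j))
    (Finset.univ.image fun j : Fin d => (x - tev j, j))
  have h4 := Finset.card_image_le (s := (Finset.univ : Finset (Fin d))) (f := fun j => (x, j))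
  have h5 := Finset.card_image_le (s := (Finset.univ : Finset (Fin d))) (f := fun j => (x - tev j, j))
  rw [Finset.card_univ, Fintype.card_fin] at h4 h5
  omega

theorem FL2_near_card {N : ℕ} [NeZero N] (a : Tor N d) (r : ℕ) :
    (Finset.univ.filter fun y : Tor N d => tdst y a < r).card ≤ (2 * r + 1) ^ d := by
  rw [← card_Lam (0 : Vtx d) r]
  apply Finset.card_le_card_of_injOn (fun y i => (y i - a i).valMinAbs)
  · intro y hy
    rw [Finset.mem_coe, Finset.mem_filter] at hy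
    rw [Finset.mem_coe, mem_Lam, BAS_le_iff]
    intro i
    have h1 : ((y i - a i).valMinAbs).natAbs ≤ tdst y a :=
      Finset.le_sup (f := fun i => (y i - a i).valMinAbs.natAbs) (Finset.mem_univ i)
    simp only [Pi.zero_apply, sub_zero]
    omega
  · intro y _ y' _ h
    funext i
    have h1 := congrFun h i
    simp only at h1
    have h2 : y i - a i = y' i - a i := by
      rw [← ZMod.coe_valMinAbs (y i - a i), h1, ZMod.coe_valMinAbs]
    exact sub_left_injective h2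

/-- bound for the corrector at a vertex which is not giant -/
theorem FL2_phi_small {N M : ℕ} [NeZero N] (hM : 1 ≤ M) (hMN : M ∣ N) (hN : 1000 * M ≤ N)
    {μ : ℝ} (hμ : 0 < μ) {o : Tor N d × Fin d → Bool} (ho : GoodT M o) (i : Fin d) (v : Tor N d)
    (hv : ¬ Giant M o v) : phi μ o i v ^ 2 ≤ (2 * d * (12 * (M : ℝ) + 1) ^ d) ^ 2 := by
  obtain ⟨K, hvK, hcard, hcl, hconn, -, -, -⟩ := small_component hM hMN hN ho v hv
  have h1 := small_comp (src := tsrc) (tgt := ttgt) (o := o) hμ K hcl hconn (2 * d)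
    (fun x => FL2_deg x) (xi i) (fun e => by
      unfold xi
      split_ifs <;> norm_num) v hvK
  have h2 : |phi μ o i v| ≤ 2 * d * (12 * (M : ℝ) + 1) ^ d := by
    refine h1.trans ?_
    have h3 : (K.card : ℝ) ≤ (12 * (M : ℝ) + 1) ^ d := by exact_mod_cast hcard
    push_cast
    exact mul_le_mul_of_nonneg_left h3 (by positivity)
  rw [← sq_abs]
  exact pow_le_pow_left₀ (abs_nonneg _) h2 2

/-- the sum over all cubes, split into near and far part -/
theorem FL2_split {N : ℕ} [NeZero N] {μ : ℝ} (hμ : 0 < μ) (o : Tor N d × Fin d → Bool)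
    (e : Tor N d × Fin d) (he : o e = true) (j : Fin d) (R r : ℕ) (hR : 1 ≤ R) (hRN : R ≤ N)
    (hr : 1 ≤ r) (F : ℝ)
    (hF : ∑ e', (if o e' ∧ r ≤ tdst (tsrc e') (tsrc e) then gr tsrc ttgt (dip μ o e) e' ^ 2 else 0)
      ≤ F) :
    ∑ x, Zf tsrc ttgt μ o (boxY R j x) e ^ 2 ≤
      2 * ((2 * (r : ℝ) + 1) ^ d * 4 / (R : ℝ) ^ d) + 2 * F := by
  set h : Tor N d → ℝ := fun y => (if e = (y, j) then 1 else 0) +
    if o (y, j) then gr tsrc ttgt (dip μ o e) (y, j) else 0 with hh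
  have h0 : ∀ x, Zf tsrc ttgt μ o (boxY R j x) e = avg R h x := fun x => zf_boxY hμ R o j e x
  set nr : Tor N d → ℝ := fun y => if tdst y (tsrc e) < r then h y else 0 with hnr
  set fr : Tor N d → ℝ := fun y => if tdst y (tsrc e) < r then 0 else h y with hfr
  have h1 : ∀ x, avg R h x = avg R nr x + avg R fr x := by
    intro x
    unfold avg
    rw [← add_div, ← Finset.sum_add_distrib]
    congr 1
    apply Finset.sum_congr rfl
    intro u _
    simp only [hnr, hfr]
    split_ifs <;> ring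
  have h2 : ∑ x, avg R h x ^ 2 ≤ 2 * ∑ x, avg R nr x ^ 2 + 2 * ∑ x, avg R fr x ^ 2 := by
    rw [Finset.mul_sum, Finset.mul_sum, ← Finset.sum_add_distrib]
    apply Finset.sum_le_sum
    intro x _
    rw [h1]
    nlinarith [sq_nonneg (avg R nr x - avg R fr x)]
  -- the l2 norm of h
  have hG : ∑ y : Tor N d, (if o (y, j) then gr tsrc ttgt (dip μ o e) (y, j) ^ 2 else 0) ≤ 1 := by
    refine le_trans ?_ (dipole_energy (src := tsrc) (tgt := ttgt) (o := o) hμ e he)
    rw [Fintype.sum_prod_type]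
    apply Finset.sum_le_sum
    intro y _
    exact Finset.single_le_sum (f := fun j' => if o (y, j') then
      gr tsrc ttgt (dip μ o e) (y, j') ^ 2 else 0) (fun j' _ => by
        split_ifs
        · positivity
        · exact le_rfl) (Finset.mem_univ j)
  have hl2 : ∑ y, h y ^ 2 ≤ 4 := by
    have h3 : ∑ y, h y ^ 2 ≤ ∑ y : Tor N d, (2 * (if e = (y, j) then 1 else 0) +
        2 * (if o (y, j) then gr tsrc ttgt (dip μ o e) (y, j) ^ 2 else 0)) := by
      apply Finset.sum_le_sum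
      intro y _
      simp only [hh]
      split_ifs
      · nlinarith [sq_nonneg (1 - gr tsrc ttgt (dip μ o e) (y, j))]
      · norm_num
      · nlinarith [sq_nonneg (gr tsrc ttgt (dip μ o e) (y, j))]
      · norm_num
    refine h3.trans ?_
    rw [Finset.sum_add_distrib, ← Finset.mul_sum, ← Finset.mul_sum]
    have h4 : ∑ y : Tor N d, (if e = (y, j) then (1 : ℝ) else 0) ≤ 1 := by
      have h5 : ∀ y : Tor N d, (if e = (y, j) then (1 : ℝ) else 0) ≤ if e.1 = y then 1 else 0 := by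
        intro y
        by_cases h6 : e = (y, j)
        · rw [if_pos h6, if_pos (by rw [h6])]
        · rw [if_neg h6]
          split_ifs <;> norm_num
      refine (Finset.sum_le_sum fun y _ => h5 y).trans ?_
      rw [Finset.sum_ite_eq, if_pos (Finset.mem_univ _)]
    linarith
  -- near part
  have hnear : ∑ x, avg R nr x ^ 2 ≤ (2 * (r : ℝ) + 1) ^ d * 4 / (R : ℝ) ^ d := by
    refine (avg_sq_le_l1 hR hRN nr).trans ?_
    apply div_le_div_of_nonneg_right _ (by positivity)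
    have h3 : ∑ y, |nr y| = ∑ y ∈ Finset.univ.filter (fun y : Tor N d => tdst y (tsrc e) < r), |h y| := by
      rw [Finset.sum_filter]
      apply Finset.sum_congr rfl
      intro y _
      simp only [hnr]
      split_ifs
      · rfl
      · exact abs_zero
    rw [h3]
    refine (sq_sum_le_card_mul_sum_sq).trans ?_
    have h4 : ((Finset.univ.filter (fun y : Tor N d => tdst y (tsrc e) < r)).card : ℝ)
        ≤ (2 * (r : ℝ) + 1) ^ d := by exact_mod_cast FL2_near_card (tsrc e) r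
    have h5 : ∑ y ∈ Finset.univ.filter (fun y : Tor N d => tdst y (tsrc e) < r), |h y| ^ 2 ≤ 4 := by
      refine le_trans ?_ hl2
      simp only [sq_abs]
      apply Finset.sum_le_sum_of_subset_of_nonneg (Finset.filter_subset _ _)
      intro y _ _
      exact sq_nonneg _
    have h6 : (0 : ℝ) ≤ (2 * (r : ℝ) + 1) ^ d := by positivity
    exact mul_le_mul h4 h5 (Finset.sum_nonneg fun y _ => sq_nonneg _) h6
  -- far part
  have hfar : ∑ x, avg R fr x ^ 2 ≤ F := by
    refine (avg_sq_le hR fr).trans (le_trans ?_ hF)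
    rw [Fintype.sum_prod_type]
    apply Finset.sum_le_sum
    intro y _
    have h3 : fr y ^ 2 ≤ if o (y, j) ∧ r ≤ tdst (tsrc (y, j)) (tsrc e) then
        gr tsrc ttgt (dip μ o e) (y, j) ^ 2 else 0 := by
      simp only [hfr]
      by_cases h4 : tdst y (tsrc e) < r
      · rw [if_pos h4, zero_pow two_ne_zero]
        split_ifs
        · exact sq_nonneg _
        · exact le_rfl
      · rw [if_neg h4]
        push Not at h4
        have h5 : e ≠ (y, j) := by
          rintro h5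
          have h6 : tdst y (tsrc e) = 0 := by
            rw [h5]
            unfold tdst tsrc
            simp
          omega
        have h6 : r ≤ tdst (tsrc (y, j)) (tsrc e) := h4
        simp only [hh, if_neg h5, zero_add, h6, and_true]
        split_ifs
        · exact le_rfl
        · norm_num
    refine h3.trans ?_
    exact Finset.single_le_sum (f := fun j' => if o (y, j') ∧ r ≤ tdst (tsrc (y, j')) (tsrc e) then
      gr tsrc ttgt (dip μ o e) (y, j') ^ 2 else 0) (fun j' _ => by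
        split_ifs
        · positivity
        · exact le_rfl) (Finset.mem_univ j)
  simp only [h0]
  linarith

/-- the response of one vertex -/
theorem FL2_resp {N : ℕ} [NeZero N] {μ : ℝ} (hμ : 0 < μ) (o : Tor N d × Fin d → Bool)
    (k : Tor N d) (j : Fin d) (R : ℕ) (hR : 1 ≤ R) :
    ∑ x, sol tsrc ttgt μ o (Dv tsrc ttgt o (boxY R j x)) k ^ 2 ≤ 1 / μ := by
  set g : Tor N d → ℝ := fun y => if o (y, j) then
    gr tsrc ttgt (sol tsrc ttgt μ o (Pi.single k 1)) (y, j) else 0 with hg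
  have h1 : ∀ x, sol tsrc ttgt μ o (Dv tsrc ttgt o (boxY R j x)) k = -avg R g x := by
    intro x
    have h2 := sol_symm (src := tsrc) (tgt := ttgt) (o := o) hμ
      (Dv tsrc ttgt o (boxY R j x)) (Pi.single k 1)
    have h3 : ∑ y, sol tsrc ttgt μ o (Dv tsrc ttgt o (boxY R j x)) y * (Pi.single k (1 : ℝ) : Tor N d → ℝ) y
        = sol tsrc ttgt μ o (Dv tsrc ttgt o (boxY R j x)) k := by
      rw [Finset.sum_eq_single k]
      · rw [Pi.single_eq_same, mul_one]
      · intro y _ hy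
        rw [Pi.single_eq_of_ne hy, mul_zero]
      · intro h
        exact absurd (Finset.mem_univ k) h
    rw [h3] at h2
    rw [h2, dv_form, avg_eq]
    congr 1
    rw [Fintype.sum_prod_type]
    apply Finset.sum_congr rfl
    intro y _
    rw [Finset.sum_eq_single j]
    · simp only [hg, boxY]
      split_ifs <;> simp
    · intro j' _ hj'
      simp [boxY, hj']
    · intro h
      exact absurd (Finset.mem_univ j) h
  simp only [h1, neg_sq]
  refine (avg_sq_le hR g).trans ?_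
  have h2 := green_energy (src := tsrc) (tgt := ttgt) (o := o) hμ k
  refine le_trans ?_ (h2.1.trans h2.2)
  rw [Fintype.sum_prod_type]
  apply Finset.sum_le_sum
  intro y _
  have h3 : g y ^ 2 = if o (y, j) then
      gr tsrc ttgt (sol tsrc ttgt μ o (Pi.single k 1)) (y, j) ^ 2 else 0 := by
    simp only [hg]
    split_ifs <;> ring
  rw [h3]
  exact Finset.single_le_sum (f := fun j' => if o (y, j') then
    gr tsrc ttgt (sol tsrc ttgt μ o (Pi.single k 1)) (y, j') ^ 2 else 0) (fun j' _ => by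
      split_ifs
      · positivity
      · exact le_rfl) (Finset.mem_univ j)


/-- first case: the ends of the edge are connected without the edge -/
theorem FL2_sqrt {R : ℕ} (hR : 1 ≤ R) (hd : 1 ≤ d) :
    1 ≤ Nat.sqrt R ∧ 1 / (Nat.sqrt R : ℝ) ≤ 2 / Real.sqrt R ∧
      (2 * (Nat.sqrt R : ℝ) + 1) ^ d * 4 / (R : ℝ) ^ d ≤ 4 * 3 ^ d / Real.sqrt R := by
  have h1 : 1 ≤ Nat.sqrt R := Nat.le_sqrt.mpr (by omega)
  have hRr : (1 : ℝ) ≤ R := by exact_mod_cast hR
  have hR0 : (0 : ℝ) < R := by linarith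
  have hq0 : 0 < Real.sqrt R := Real.sqrt_pos.mpr hR0
  have hq1 : 1 ≤ Real.sqrt R := Real.one_le_sqrt.mpr hRr
  have hr1 : (1 : ℝ) ≤ Nat.sqrt R := by exact_mod_cast h1
  have h2 : (Nat.sqrt R : ℝ) ≤ Real.sqrt R := Real.nat_sqrt_le_real_sqrt
  have h3 : Real.sqrt R ≤ Nat.sqrt R + 1 := Real.real_sqrt_le_nat_sqrt_succ
  have h4 : Real.sqrt R ≤ 2 * (Nat.sqrt R : ℝ) := by linarith
  refine ⟨h1, ?_, ?_⟩
  · rw [div_le_div_iff₀ (by linarith) hq0]
    linarith
  · have h5 : (R : ℝ) ^ d = Real.sqrt R ^ d * Real.sqrt R ^ d := by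
      rw [← mul_pow, Real.mul_self_sqrt hR0.le]
    rw [h5, div_le_div_iff₀ (by positivity) hq0]
    have h6 : (2 * (Nat.sqrt R : ℝ) + 1) ^ d ≤ 3 ^ d * Real.sqrt R ^ d := by
      rw [← mul_pow]
      apply pow_le_pow_left₀ (by positivity)
      linarith
    have h7 : Real.sqrt R ≤ Real.sqrt R ^ d := by
      calc Real.sqrt R = Real.sqrt R ^ 1 := (pow_one _).symm
        _ ≤ Real.sqrt R ^ d := pow_le_pow_right₀ hq1 hd
    have h8 : (0 : ℝ) < Real.sqrt R ^ d := by positivity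
    calc (2 * (Nat.sqrt R : ℝ) + 1) ^ d * 4 * Real.sqrt R
        ≤ (3 ^ d * Real.sqrt R ^ d) * 4 * Real.sqrt R ^ d := by
          apply mul_le_mul _ h7 hq0.le (by positivity)
          exact mul_le_mul_of_nonneg_right h6 (by norm_num)
      _ = 4 * 3 ^ d * (Real.sqrt R ^ d * Real.sqrt R ^ d) := by ring

/-! ### FL2: effect of one edge on the averages of the flux (deterministic) -/
theorem flux_flip (d : ℕ) (hd : 3 ≤ d) : ∃ C : ℕ, ∀ A : ℕ, 2 ≤ A → ∃ CA : ℝ, ∀ {N M : ℕ} [NeZero N],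
    1 ≤ M → N = 16 * M ^ A → 1000 * M ≤ N → ∀ {o : Tor N d × Fin d → Bool}, GoodS M o →
      ∀ (e : Tor N d × Fin d) (i j : Fin d) (R : ℕ), 1 ≤ R → R ≤ M ^ A →
        ∑ x, (avg R (flux (1 / ((M : ℝ) ^ A) ^ 2) (up o e) i j) x -
          avg R (flux (1 / ((M : ℝ) ^ A) ^ 2) (dn o e) i j) x) ^ 2 ≤
        CA * (M : ℝ) ^ C * (1 / Real.sqrt R *
            Zf tsrc ttgt (1 / ((M : ℝ) ^ A) ^ 2) (up o e) (xi i) e ^ 2 +
          1 / ((M : ℝ) ^ A) ^ 2 * (1 +
          (if Giant M (dn o e) (tsrc e) then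
              phi (1 / ((M : ℝ) ^ A) ^ 2) (dn o e) i (tsrc e) ^ 2 else 0) +
            if Giant M (dn o e) (ttgt e) then
              phi (1 / ((M : ℝ) ^ A) ^ 2) (dn o e) i (ttgt e) ^ 2 else 0)) := by
  obtain ⟨C₁, hC₁⟩ := local_path d (by omega)
  obtain ⟨C₂, hC₂⟩ := dipole_far d hd
  refine ⟨2 * C₁ + C₂ + 4 * d, ?_⟩
  intro A hA
  obtain ⟨CA₂, hCA₂⟩ := hC₂ A hA
  set K₂ : ℝ := max CA₂ 0 with hK₂
  have hK₂0 : 0 ≤ K₂ := le_max_right _ _
  set α : ℝ := ((C₁ : ℝ) + 1) ^ 2 * (8 * 3 ^ d + 4 * K₂) with hα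
  set β : ℝ := 9 * (2 * d * 13 ^ d) ^ 2 * (13 ^ d) ^ 2 with hβ
  have hα0 : 0 ≤ α := by positivity
  have hβ0 : 0 ≤ β := by positivity
  refine ⟨α + β, ?_⟩
  intro N M _ hM hN hN1 o ho e i j R hR hRM
  have hMr : (1 : ℝ) ≤ M := by exact_mod_cast hM
  have hM0 : (0 : ℝ) < M := by linarith
  have hMN : M ∣ N := by
    rw [hN]
    exact Dvd.dvd.mul_left (dvd_pow_self M (by omega)) 16
  have hRN : R ≤ N := by
    rw [hN]
    omega
  set μ : ℝ := 1 / ((M : ℝ) ^ A) ^ 2 with hμd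
  have hμ : 0 < μ := by positivity
  set Z0 : ℝ := Zf tsrc ttgt μ (dn o e) (xi i) e with hZ0
  set Z1 : ℝ := Zf tsrc ttgt μ (up o e) (xi i) e with hZ1
  set GS : ℝ := (if Giant M (dn o e) (tsrc e) then phi μ (dn o e) i (tsrc e) ^ 2 else 0) with hGS
  set GT : ℝ := (if Giant M (dn o e) (ttgt e) then phi μ (dn o e) i (ttgt e) ^ 2 else 0) with hGT
  have hGS0 : 0 ≤ GS := by rw [hGS]; split_ifs <;> positivity
  have hGT0 : 0 ≤ GT := by rw [hGT]; split_ifs <;> positivity
  have hgu : GoodT M (up o e) := (ho.2 e).1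
  have hgd : GoodT M (dn o e) := (ho.2 e).2
  have hue : up o e e = true := by simp [up]
  -- the difference
  have hdiff : ∀ x, avg R (flux μ (up o e) i j) x - avg R (flux μ (dn o e) i j) x
      = Z0 * Zf tsrc ttgt μ (up o e) (boxY R j x) e := by
    intro x
    rw [avg_flux hμ, avg_flux hμ]
    exact flip_quad (src := tsrc) (tgt := ttgt) (o := o) hμ e (xi i) (boxY R j x)
  have hsum : ∑ x, (avg R (flux μ (up o e) i j) x - avg R (flux μ (dn o e) i j) x) ^ 2
      = Z0 ^ 2 * ∑ x, Zf tsrc ttgt μ (up o e) (boxY R j x) e ^ 2 := by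
    rw [Finset.mul_sum]
    apply Finset.sum_congr rfl
    intro x _
    rw [hdiff, mul_pow]
  rw [hsum]
  have hMC : ∀ a b : ℕ, a ≤ b → (M : ℝ) ^ a ≤ (M : ℝ) ^ b := fun a b h => pow_le_pow_right₀ hMr h
  have hq0 : 0 < Real.sqrt R := Real.sqrt_pos.mpr (by exact_mod_cast (by omega : 0 < R))
  by_cases hrch : Rch tsrc ttgt (dn o e) (tsrc e) (ttgt e)
  · -- case I
    have hpath := hC₁ hM hMN hN1 hgd e hrch
    have h1 := flip_ratio (src := tsrc) (tgt := ttgt) (o := o) hμ e (xi i) _ hpath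
    rw [← hZ0, ← hZ1] at h1
    have h2 : Z0 ^ 2 ≤ (((C₁ : ℝ) + 1) * (M : ℝ) ^ C₁) ^ 2 * Z1 ^ 2 := by
      rw [← sq_abs Z0, ← sq_abs Z1, ← mul_pow]
      apply pow_le_pow_left₀ (abs_nonneg _)
      refine h1.trans ?_
      apply mul_le_mul_of_nonneg_right _ (abs_nonneg _)
      push_cast
      have : (1 : ℝ) ≤ (M : ℝ) ^ C₁ := one_le_pow₀ hMr
      nlinarith
    obtain ⟨hr1, hr2, hr3⟩ := FL2_sqrt (d := d) hR (by omega)
    have hrN : 16 * Nat.sqrt R ≤ N := by
      have := Nat.sqrt_le_self R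
      rw [hN]
      omega
    have h3 := hCA₂ hM hN hN1 hgu e hue (Nat.sqrt R) hr1 hrN
    have h4 := FL2_split hμ (up o e) e hue j R (Nat.sqrt R) hR hRN hr1 _ h3
    have h5 : CA₂ * (M : ℝ) ^ C₂ / (Nat.sqrt R : ℝ) ≤ 2 * K₂ * (M : ℝ) ^ C₂ / Real.sqrt R := by
      have h6 : CA₂ * (M : ℝ) ^ C₂ / (Nat.sqrt R : ℝ) ≤ K₂ * (M : ℝ) ^ C₂ * (1 / (Nat.sqrt R : ℝ)) := by
        rw [mul_one_div]
        apply div_le_div_of_nonneg_right _ (by positivity)
        exact mul_le_mul_of_nonneg_right (le_max_left _ _) (by positivity)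
      refine h6.trans ?_
      have h7 : K₂ * (M : ℝ) ^ C₂ * (1 / (Nat.sqrt R : ℝ)) ≤ K₂ * (M : ℝ) ^ C₂ * (2 / Real.sqrt R) :=
        mul_le_mul_of_nonneg_left hr2 (by positivity)
      refine h7.trans (le_of_eq ?_)
      ring
    have h6 : ∑ x, Zf tsrc ttgt μ (up o e) (boxY R j x) e ^ 2 ≤
        (8 * 3 ^ d + 4 * K₂) * (M : ℝ) ^ C₂ * (1 / Real.sqrt R) := by
      refine h4.trans ?_
      have h7 : (1 : ℝ) ≤ (M : ℝ) ^ C₂ := one_le_pow₀ hMr
      have h8 : 4 * 3 ^ d / Real.sqrt R ≤ 4 * 3 ^ d * (M : ℝ) ^ C₂ / Real.sqrt R := by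
        apply div_le_div_of_nonneg_right _ hq0.le
        have : (0 : ℝ) ≤ 4 * 3 ^ d := by positivity
        nlinarith
      have h9 : (8 * 3 ^ d + 4 * K₂) * (M : ℝ) ^ C₂ * (1 / Real.sqrt R)
          = 2 * (4 * 3 ^ d * (M : ℝ) ^ C₂ / Real.sqrt R) + 2 * (2 * K₂ * (M : ℝ) ^ C₂ / Real.sqrt R) := by
        ring
      rw [h9]
      linarith
    have h7 : Z0 ^ 2 * ∑ x, Zf tsrc ttgt μ (up o e) (boxY R j x) e ^ 2 ≤
        ((((C₁ : ℝ) + 1) * (M : ℝ) ^ C₁) ^ 2 * Z1 ^ 2) *
          ((8 * 3 ^ d + 4 * K₂) * (M : ℝ) ^ C₂ * (1 / Real.sqrt R)) := by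
      apply mul_le_mul h2 h6 _ (by positivity)
      exact Finset.sum_nonneg fun x _ => sq_nonneg _
    refine h7.trans ?_
    have h8 : ((((C₁ : ℝ) + 1) * (M : ℝ) ^ C₁) ^ 2 * Z1 ^ 2) *
          ((8 * 3 ^ d + 4 * K₂) * (M : ℝ) ^ C₂ * (1 / Real.sqrt R))
        = α * (M : ℝ) ^ (2 * C₁ + C₂) * (1 / Real.sqrt R * Z1 ^ 2) := by
      rw [hα, pow_add, pow_mul, pow_right_comm]
      ring
    rw [h8]
    have h9 : 0 ≤ 1 / Real.sqrt R * Z1 ^ 2 := by positivity
    have h10 : 0 ≤ μ * (1 + GS + GT) := by positivity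
    have h11 : α * (M : ℝ) ^ (2 * C₁ + C₂) ≤ (α + β) * (M : ℝ) ^ (2 * C₁ + C₂ + 4 * d) := by
      apply mul_le_mul _ (hMC _ _ (by omega)) (by positivity) (by positivity)
      linarith
    calc α * (M : ℝ) ^ (2 * C₁ + C₂) * (1 / Real.sqrt R * Z1 ^ 2)
        ≤ (α + β) * (M : ℝ) ^ (2 * C₁ + C₂ + 4 * d) * (1 / Real.sqrt R * Z1 ^ 2) :=
          mul_le_mul_of_nonneg_right h11 h9
      _ ≤ (α + β) * (M : ℝ) ^ (2 * C₁ + C₂ + 4 * d) * (1 / Real.sqrt R * Z1 ^ 2 +
            μ * (1 + GS + GT)) := by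
          apply mul_le_mul_of_nonneg_left _ (by positivity)
          linarith
  · -- case II
    have hnot : ∃ b, (b = tsrc e ∨ b = ttgt e) ∧ ¬ Giant M (dn o e) b := by
      by_contra hcon
      push Not at hcon
      exact hrch (giant_rch (by omega) hM hMN hN1 hgd (hcon _ (Or.inl rfl)) (hcon _ (Or.inr rfl)))
    obtain ⟨b, hb, hbg⟩ := hnot
    obtain ⟨K, hbK, hcard, hcl, hconn, -, -, -⟩ := small_component hM hMN hN1 hgd b hbg
    have heK : ¬ (tsrc e ∈ K ↔ ttgt e ∈ K) := by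
      intro hiff
      have h1 : tsrc e ∈ K ∧ ttgt e ∈ K := by
        rcases hb with rfl | rfl
        · exact ⟨hbK, hiff.mp hbK⟩
        · exact ⟨hiff.mpr hbK, hbK⟩
      exact hrch ⟨_, hconn _ h1.1 _ h1.2⟩
    have hKr : (K.card : ℝ) ≤ 13 ^ d * (M : ℝ) ^ d := by
      have h1 : (K.card : ℝ) ≤ (12 * (M : ℝ) + 1) ^ d := by exact_mod_cast hcard
      refine h1.trans ?_
      rw [← mul_pow]
      apply pow_le_pow_left₀ (by positivity)
      linarith
    -- the response
    have h1 : ∀ x, Zf tsrc ttgt μ (up o e) (boxY R j x) e ^ 2 ≤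
        μ ^ 2 * (K.card * ∑ k ∈ K, sol tsrc ttgt μ (up o e) (Dv tsrc ttgt (up o e) (boxY R j x)) k ^ 2) := by
      intro x
      have h2 := flip_small_quad (src := tsrc) (tgt := ttgt) (o := o) hμ e K hcl heK (boxY R j x)
      rw [← sq_abs]
      refine (pow_le_pow_left₀ (abs_nonneg _) h2 2).trans ?_
      rw [mul_pow, sq_abs]
      apply mul_le_mul_of_nonneg_left _ (by positivity)
      exact sq_sum_le_card_mul_sum_sq
    have h2 : ∑ x, Zf tsrc ttgt μ (up o e) (boxY R j x) e ^ 2 ≤ μ * (13 ^ d * (M : ℝ) ^ d) ^ 2 := by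
      refine (Finset.sum_le_sum fun x _ => h1 x).trans ?_
      rw [← Finset.mul_sum, ← Finset.mul_sum, Finset.sum_comm]
      have h3 : ∑ k ∈ K, ∑ x, sol tsrc ttgt μ (up o e) (Dv tsrc ttgt (up o e) (boxY R j x)) k ^ 2
          ≤ K.card * (1 / μ) := by
        refine (Finset.sum_le_sum fun k _ => FL2_resp hμ (up o e) k j R hR).trans (le_of_eq ?_)
        rw [Finset.sum_const, nsmul_eq_mul]
      have h4 : μ ^ 2 * (K.card * ∑ k ∈ K, ∑ x, sol tsrc ttgt μ (up o e)
          (Dv tsrc ttgt (up o e) (boxY R j x)) k ^ 2) ≤ μ ^ 2 * (K.card * (K.card * (1 / μ))) := by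
        apply mul_le_mul_of_nonneg_left _ (sq_nonneg μ)
        exact mul_le_mul_of_nonneg_left h3 (Nat.cast_nonneg _)
      refine h4.trans ?_
      have h5 : μ ^ 2 * (K.card * (K.card * (1 / μ))) = μ * (K.card : ℝ) ^ 2 := by
        have h6 : ∀ a : ℝ, μ ^ 2 * (a * (a * (1 / μ))) = μ * a ^ 2 := fun a => by
          field_simp
        exact h6 _
      rw [h5]
      apply mul_le_mul_of_nonneg_left _ hμ.le
      exact pow_le_pow_left₀ (Nat.cast_nonneg _) hKr 2
    -- the field before the flip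
    set L : ℝ := 2 * d * (13 ^ d * (M : ℝ) ^ d) with hL
    have hL0 : 0 ≤ L := by positivity
    have hdr : (3 : ℝ) ≤ d := by exact_mod_cast hd
    have hL1 : 1 ≤ L := by
      have a1 : (1 : ℝ) ≤ 13 ^ d := one_le_pow₀ (by norm_num)
      have a2 : (1 : ℝ) ≤ (M : ℝ) ^ d := one_le_pow₀ hMr
      have a3 : (1 : ℝ) ≤ 13 ^ d * (M : ℝ) ^ d := by nlinarith
      rw [hL]
      nlinarith
    have hend : ∀ v : Tor N d, phi μ (dn o e) i v ^ 2 ≤ L ^ 2 +
        (if Giant M (dn o e) v then phi μ (dn o e) i v ^ 2 else 0) := by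
      intro v
      by_cases hv : Giant M (dn o e) v
      · rw [if_pos hv]
        nlinarith
      · rw [if_neg hv, add_zero]
        refine (FL2_phi_small hM hMN hN1 hμ hgd i v hv).trans ?_
        apply pow_le_pow_left₀ (by positivity)
        rw [hL, ← mul_pow]
        apply mul_le_mul_of_nonneg_left _ (by positivity)
        apply pow_le_pow_left₀ (by positivity)
        linarith
    have h3 : Z0 ^ 2 ≤ 3 * (1 + 2 * L ^ 2 + GS + GT) := by
      have h4 : Z0 = xi i e + (phi μ (dn o e) i (ttgt e) - phi μ (dn o e) i (tsrc e)) := rfl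
      have h5 : xi i e ^ 2 ≤ 1 := by
        unfold xi
        split_ifs <;> norm_num
      have h6 := hend (tsrc e)
      have h7 := hend (ttgt e)
      rw [← hGS] at h6
      rw [← hGT] at h7
      rw [h4]
      nlinarith [sq_nonneg (xi i e - phi μ (dn o e) i (ttgt e)),
        sq_nonneg (xi i e + phi μ (dn o e) i (tsrc e)),
        sq_nonneg (phi μ (dn o e) i (ttgt e) + phi μ (dn o e) i (tsrc e))]
    have h4 : Z0 ^ 2 ≤ 9 * L ^ 2 * (1 + GS + GT) := by
      refine h3.trans ?_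
      have h5 : 1 ≤ L ^ 2 := by nlinarith
      nlinarith [mul_nonneg (sub_nonneg.mpr h5) hGS0, mul_nonneg (sub_nonneg.mpr h5) hGT0]
    have h5 : Z0 ^ 2 * ∑ x, Zf tsrc ttgt μ (up o e) (boxY R j x) e ^ 2 ≤
        (9 * L ^ 2 * (1 + GS + GT)) * (μ * (13 ^ d * (M : ℝ) ^ d) ^ 2) := by
      apply mul_le_mul h4 h2 _ (by positivity)
      exact Finset.sum_nonneg fun x _ => sq_nonneg _
    refine h5.trans ?_
    have h6 : (9 * L ^ 2 * (1 + GS + GT)) * (μ * (13 ^ d * (M : ℝ) ^ d) ^ 2)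
        = β * (M : ℝ) ^ (4 * d) * (μ * (1 + GS + GT)) := by
      rw [hL, hβ, show 4 * d = d + d + d + d by ring, pow_add, pow_add, pow_add]
      ring
    rw [h6]
    have h9 : 0 ≤ 1 / Real.sqrt R * Z1 ^ 2 := by positivity
    have h10 : 0 ≤ μ * (1 + GS + GT) := by positivity
    have h11 : β * (M : ℝ) ^ (4 * d) ≤ (α + β) * (M : ℝ) ^ (2 * C₁ + C₂ + 4 * d) := by
      apply mul_le_mul _ (hMC _ _ (by omega)) (by positivity) (by positivity)
      linarith
    calc β * (M : ℝ) ^ (4 * d) * (μ * (1 + GS + GT))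
        ≤ (α + β) * (M : ℝ) ^ (2 * C₁ + C₂ + 4 * d) * (μ * (1 + GS + GT)) :=
          mul_le_mul_of_nonneg_right h11 h10
      _ ≤ (α + β) * (M : ℝ) ^ (2 * C₁ + C₂ + 4 * d) * (1 / Real.sqrt R * Z1 ^ 2 +
            μ * (1 + GS + GT)) := by
          apply mul_le_mul_of_nonneg_left _ (by positivity)
          linarith

end Pool.Agent.Lib.MP_566bac_pr.Hd
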