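import Pool.Agent.Lib.MP_566bac_pr.Hd.GE1

/-!
# Many vertices of the giant cluster in every cube
-/

open Finset
open scoped Classical

namespace Pool.Agent.Lib.MP_566bac_pr.Hd

variable {d : ℕ}

theorem CF_natAbs_le_dst (x y : Vtx d) (i : Fin d) : (x i - y i).natAbs ≤ dst x y :=
  BAS_le_iff.1 le_rfl i

theorem count_far (d : ℕ) : ∃ C : ℕ, ∀ (M R : ℕ), 1 ≤ M → 2 * M ≤ R → ∀ (η : Conf d)
    (z : Vtx d), (∀ w, Grid M w → dst w z ≤ R → Good η M w) →
      (R : ℝ) ^ d ≤ C * (M : ℝ) ^ C * ((Lam z R).filter (Far η (6 * M))).card := by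
  refine ⟨5 ^ d + d, fun M R hM hR η z hg => ?_⟩
  set k : ℕ := (R - 2 * M) / (3 * M) with hk
  have h3M : 0 < 3 * M := by omega
  have hk1 : 3 * M * k ≤ R - 2 * M := Nat.mul_div_le _ _
  have hk2 : R - 2 * M < 3 * M * k + 3 * M := by
    have := Nat.lt_mul_div_succ (R - 2 * M) h3M
    rw [← hk, Nat.mul_succ] at this
    exact this
  have hRk : R ≤ 5 * M * (2 * k + 1) := by
    have : R < 3 * M * k + 3 * M + 2 * M := by omega
    nlinarith
  -- the grid points
  set w0 : Vtx d := fun i => (M : ℤ) * (z i / M) with hw0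
  set g : Vtx d → Vtx d := fun u i => w0 i + (3 * M : ℤ) * u i with hgd
  have hMz : (0 : ℤ) < M := by exact_mod_cast hM
  have hgrid : ∀ u, Grid M (g u) := by
    intro u i
    show (M : ℤ) ∣ (M : ℤ) * (z i / M) + 3 * M * u i
    exact Dvd.intro (z i / M + 3 * u i) (by ring)
  have hw0z : ∀ i, |w0 i - z i| < M := by
    intro i
    have h1 := Int.emod_add_mul_ediv (z i) M
    have h2 := Int.emod_nonneg (z i) hMz.ne'
    have h3 := Int.emod_lt_of_pos (z i) hMz
    show |(M : ℤ) * (z i / M) - z i| < M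
    rw [abs_lt]
    constructor <;> linarith
  have hgz : ∀ u ∈ Lam (0 : Vtx d) k, dst (g u) z ≤ R - M := by
    intro u hu
    rw [BAS_le_iff]
    intro i
    have h1 := BAS_le_iff.1 (mem_Lam.1 hu) i
    rw [Pi.zero_apply, sub_zero] at h1
    have h2 := hw0z i
    have h3 : |u i| ≤ (k : ℤ) := by
      rw [Int.abs_eq_natAbs]
      exact_mod_cast h1
    have h4 : |(3 * M : ℤ) * u i| ≤ 3 * M * k := by
      rw [abs_mul, abs_of_pos (by positivity)]
      exact mul_le_mul_of_nonneg_left h3 (by positivity)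
    have h5 : (3 * M * k : ℤ) ≤ R - 2 * M := by
      have : ((3 * M * k : ℕ) : ℤ) ≤ ((R - 2 * M : ℕ) : ℤ) := by exact_mod_cast hk1
      rw [Nat.cast_sub hR] at this
      push_cast at this
      exact this
    have h6 : |g u i - z i| ≤ R - M := by
      have e : g u i - z i = (w0 i - z i) + (3 * M : ℤ) * u i := by
        show w0 i + (3 * M : ℤ) * u i - z i = _
        ring
      rw [e]
      have := abs_add_le (w0 i - z i) ((3 * M : ℤ) * u i)
      linarith
    have h7 : ((g u i - z i).natAbs : ℤ) ≤ ((R - M : ℕ) : ℤ) := by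
      rw [← Int.abs_eq_natAbs, Nat.cast_sub (by omega)]
      exact h6
    exact_mod_cast h7
  have hanch : ∀ u ∈ Lam (0 : Vtx d) k, ∃ x, dst x (g u) ≤ M ∧ Far η (9 * M) x := by
    intro u hu
    exact good_anchor (hg (g u) (hgrid u) ((hgz u hu).trans (Nat.sub_le _ _)))
  choose! a ha1 ha2 using hanch
  have hcard : (Lam (0 : Vtx d) k).card ≤ ((Lam z R).filter (Far η (6 * M))).card := by
    refine card_le_card_of_injOn a (fun u hu => ?_) (fun u hu u' hu' hE => ?_)
    · have hu1 : u ∈ Lam (0 : Vtx d) k := hu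
      refine mem_coe.2 (mem_filter.2 ⟨mem_Lam.2 ?_, far_mono (by omega) (ha2 u hu1)⟩)
      have h1 := ha1 u hu1
      have h2 := hgz u hu1
      have h3 := dst_triangle (a u) (g u) z
      omega
    · have hu1 : u ∈ Lam (0 : Vtx d) k := hu
      have hu2 : u' ∈ Lam (0 : Vtx d) k := hu'
      have h1 := ha1 u hu1
      have h2 := ha1 u' hu2
      rw [← hE] at h2
      have h3 := dst_triangle (g u) (a u) (g u')
      rw [dst_comm (g u) (a u)] at h3
      funext i
      have h4 := CF_natAbs_le_dst (g u) (g u') i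
      have e : g u i - g u' i = (3 * M : ℤ) * (u i - u' i) := by
        show w0 i + (3 * M : ℤ) * u i - (w0 i + (3 * M : ℤ) * u' i) = _
        ring
      rw [e, Int.natAbs_mul] at h4
      have h5 : ((3 * M : ℤ)).natAbs = 3 * M := by
        have : (3 * M : ℤ) = ((3 * M : ℕ) : ℤ) := by push_cast; ring
        rw [this, Int.natAbs_natCast]
      rw [h5] at h4
      by_contra hne
      have h6 : 1 ≤ (u i - u' i).natAbs := by
        have : u i - u' i ≠ 0 := sub_ne_zero.2 hne
        omega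
      nlinarith
  rw [card_Lam] at hcard
  have hM' : (1 : ℝ) ≤ M := by exact_mod_cast hM
  have h1 : (R : ℝ) ^ d ≤ (5 * M * (2 * k + 1 : ℕ)) ^ d := by
    refine pow_le_pow_left₀ (Nat.cast_nonneg R) ?_ d
    exact_mod_cast hRk
  have h2 : ((2 * k + 1 : ℕ) : ℝ) ^ d ≤ ((Lam z R).filter (Far η (6 * M))).card := by
    exact_mod_cast hcard
  calc (R : ℝ) ^ d ≤ (5 * M * (2 * k + 1 : ℕ)) ^ d := h1
    _ = 5 ^ d * (M : ℝ) ^ d * ((2 * k + 1 : ℕ) : ℝ) ^ d := by rw [mul_pow, mul_pow]
    _ ≤ ((5 ^ d + d : ℕ) : ℝ) * (M : ℝ) ^ (5 ^ d + d) *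
        ((Lam z R).filter (Far η (6 * M))).card := by
        refine mul_le_mul (mul_le_mul ?_ ?_ (by positivity) (by positivity)) h2 (by positivity)
          (by positivity)
        · push_cast
          have : (0 : ℝ) ≤ d := Nat.cast_nonneg d
          linarith
        · exact pow_le_pow_right₀ hM' (Nat.le_add_left d _)

end Pool.Agent.Lib.MP_566bac_pr.Hd
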