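import Pool.Agent.Lib.MP_566bac_pr.Hd.PO
import Pool.Agent.Lib.MP_566bac_pr.Hd.CF
import Pool.Agent.Lib.MP_566bac_pr.Hd.TG1

/-!
# Poincare inequality and number of giant vertices in the cubes of the torus
-/

open Finset
open scoped Classical

namespace Pool.Agent.Lib.MP_566bac_pr.Hd

variable {d : ℕ}

namespace TG4

/-- the vector of a cube index -/
def vec {R : ℕ} (u : Fin d → Fin R) : Vtx d := fun i => ((u i : ℕ) : ℤ)

theorem vec_inj {R : ℕ} : Function.Injective (vec : (Fin d → Fin R) → Vtx d) := by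
  intro u v h
  funext i
  have := congrFun h i
  unfold vec at this
  exact Fin.ext (by exact_mod_cast this)

theorem tadd_vec {N : ℕ} [NeZero N] {R : ℕ} (x : Tor N d) (u : Fin d → Fin R) :
    tadd x (fun i => ((u i : ℕ) : ℤ)) = prj N (rep x + vec u) := by
  unfold tadd
  rw [TG1_prj_add, TG1_prj_rep]
  rfl

theorem rep_add_mem {N : ℕ} {R : ℕ} (x : Tor N d) (u : Fin d → Fin R) :
    rep x + vec u ∈ Lam (rep x) R := by
  rw [mem_Lam, BAS_le_iff]
  intro i
  have := (u i).2
  simp only [Pi.add_apply, vec]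
  omega

/-- energy of the pull back in a box, in terms of the torus -/
theorem En_le {N : ℕ} [NeZero N] (o : Tor N d × Fin d → Bool) (f : Tor N d → ℝ) (x : Tor N d)
    (r : ℕ) : En (lift o) (Lam (rep x) r) (fun y => f (prj N y)) ≤
      ∑ v ∈ Lam (0 : Vtx d) r, ∑ j, if o (x + prj N v, j) then
        gr tsrc ttgt f (x + prj N v, j) ^ 2 else 0 := by
  unfold En
  have h1 : ∑ y ∈ Lam (rep x) r, ∑ j, (if lift o y j ∧ y + ev j ∈ Lam (rep x) r then
      (grad (fun y => f (prj N y)) y j) ^ 2 else 0) =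
      ∑ v ∈ Lam (0 : Vtx d) r, ∑ j, (if lift o (rep x + v) j ∧ rep x + v + ev j ∈ Lam (rep x) r then
      (grad (fun y => f (prj N y)) (rep x + v) j) ^ 2 else 0) := by
    refine Finset.sum_bij' (fun y _ => y - rep x) (fun v _ => rep x + v) ?_ ?_ ?_ ?_ ?_
    · intro y hy
      rw [mem_Lam] at hy ⊢
      have := dst_add_right (y - rep x) 0 (rep x)
      rw [sub_add_cancel, zero_add] at this
      omega
    · intro v hv
      rw [mem_Lam] at hv ⊢
      have := dst_add_right v 0 (rep x)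
      rw [zero_add, add_comm v] at this
      omega
    · intro y _
      simp
    · intro v _
      simp
    · intro y _
      simp
  rw [h1]
  refine Finset.sum_le_sum fun v _ => Finset.sum_le_sum fun j _ => ?_
  have h2 : prj N (rep x + v) = x + prj N v := by rw [TG1_prj_add, TG1_prj_rep]
  by_cases hc : lift o (rep x + v) j ∧ rep x + v + ev j ∈ Lam (rep x) r
  · rw [if_pos hc]
    have h3 : o (x + prj N v, j) = true := by
      have := hc.1
      unfold lift at this
      rwa [h2] at this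
    rw [if_pos h3]
    refine le_of_eq ?_
    congr 1
    unfold grad gr tsrc ttgt
    simp only
    rw [TG1_prj_add, h2, TG1_prj_ev]
  · rw [if_neg hc]
    split_ifs
    · positivity
    · exact le_rfl

/-- sum over all translates -/
theorem sum_En_le {N : ℕ} [NeZero N] (o : Tor N d × Fin d → Bool) (f : Tor N d → ℝ) (r : ℕ) :
    ∑ x : Tor N d, En (lift o) (Lam (rep x) r) (fun y => f (prj N y)) ≤
      (2 * (r : ℝ) + 1) ^ d * tEn o f := by
  refine (Finset.sum_le_sum fun x _ => En_le o f x r).trans (le_of_eq ?_)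
  rw [Finset.sum_comm]
  have h1 : ∀ v ∈ Lam (0 : Vtx d) r, ∑ x : Tor N d, ∑ j, (if o (x + prj N v, j) then
        gr tsrc ttgt f (x + prj N v, j) ^ 2 else 0) = tEn o f := by
    intro v _
    unfold tEn
    rw [Fintype.sum_prod_type]
    exact Fintype.sum_equiv (Equiv.addRight (prj N v)) _ _ (fun x => rfl)
  rw [Finset.sum_congr rfl h1, Finset.sum_const, card_Lam, nsmul_eq_mul]
  push_cast
  ring

theorem tEn_nonneg {N : ℕ} [NeZero N] (o : Tor N d × Fin d → Bool) (f : Tor N d → ℝ) :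
    0 ≤ tEn o f := by
  unfold tEn
  refine Finset.sum_nonneg fun e _ => ?_
  split_ifs
  · positivity
  · exact le_rfl

end TG4

open TG4 in
/-- TG4 -/
theorem poincare_torus (d : ℕ) (hd : 1 ≤ d) : ∃ C : ℕ, ∀ {N M : ℕ} [NeZero N] (R : ℕ), 1 ≤ M →
    M ∣ N → 1000 * M ≤ N → M ≤ R → 32 * R ≤ N → ∀ {o : Tor N d × Fin d → Bool}, GoodT M o →
      ∀ f : Tor N d → ℝ, ∃ c : Tor N d → ℝ,
        ∑ x, ∑ u : Fin d → Fin R, (if Giant M o (tadd x fun i => (u i : ℤ)) then
          (f (tadd x fun i => (u i : ℤ)) - c x) ^ 2 else 0) ≤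
            C * (M : ℝ) ^ C * (R : ℝ) ^ 2 * (R : ℝ) ^ d * tEn o f := by
  obtain ⟨C, hC⟩ := poincare d hd
  refine ⟨C * 27 ^ d, ?_⟩
  intro N M _ R hM hMN hN hMR hRN o ho f
  have h1 : ∀ x : Tor N d, ∃ c : ℝ,
      ∑ y ∈ (Lam (rep x) R).filter (Far (lift o) (6 * M)), (f (prj N y) - c) ^ 2 ≤
        C * (M : ℝ) ^ C * (R : ℝ) ^ 2 * En (lift o) (Lam (rep x) (R + 12 * M))
          (fun y => f (prj N y)) := fun x =>
    hC M R hM hMR (lift o) (rep x) (fun w hw _ => ho w hw) (fun y => f (prj N y))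
  choose c hc using h1
  refine ⟨c, ?_⟩
  have h2 : ∀ x : Tor N d, ∑ u : Fin d → Fin R, (if Giant M o (tadd x fun i => (u i : ℤ)) then
          (f (tadd x fun i => (u i : ℤ)) - c x) ^ 2 else 0) ≤
      ∑ y ∈ (Lam (rep x) R).filter (Far (lift o) (6 * M)), (f (prj N y) - c x) ^ 2 := by
    intro x
    rw [← Finset.sum_filter]
    have h3 : ∑ u ∈ (Finset.univ.filter fun u : Fin d → Fin R =>
          Giant M o (tadd x fun i => (u i : ℤ))), (f (tadd x fun i => (u i : ℤ)) - c x) ^ 2 =
        ∑ y ∈ (Finset.univ.filter fun u : Fin d → Fin R =>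
          Giant M o (tadd x fun i => (u i : ℤ))).image (fun u => rep x + vec u),
          (f (prj N y) - c x) ^ 2 := by
      rw [Finset.sum_image]
      · refine Finset.sum_congr rfl fun u _ => ?_
        rw [tadd_vec]
      · intro u _ v _ huv
        exact vec_inj (add_left_cancel huv)
    rw [h3]
    refine Finset.sum_le_sum_of_subset_of_nonneg ?_ (fun y _ _ => sq_nonneg _)
    intro y hy
    rw [Finset.mem_image] at hy
    obtain ⟨u, hu, rfl⟩ := hy
    rw [Finset.mem_filter] at hu ⊢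
    refine ⟨rep_add_mem x u, ?_⟩
    have := hu.2
    rw [tadd_vec, TG1_giant_prj] at this
    exact this
  have hR1 : (M : ℝ) ≤ R := by exact_mod_cast hMR
  have hM1 : (1 : ℝ) ≤ M := by exact_mod_cast hM
  have hE0 := tEn_nonneg o f
  refine (Finset.sum_le_sum fun x _ => (h2 x).trans (hc x)).trans ?_
  rw [← Finset.mul_sum]
  have h4 := sum_En_le o f (R + 12 * M)
  have h5 : (2 * ((R + 12 * M : ℕ) : ℝ) + 1) ^ d ≤ 27 ^ d * (R : ℝ) ^ d := by
    rw [← mul_pow]
    refine pow_le_pow_left₀ (by positivity) ?_ d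
    push_cast
    linarith
  have h6 : (M : ℝ) ^ C ≤ (M : ℝ) ^ (C * 27 ^ d) :=
    pow_le_pow_right₀ hM1 (Nat.le_mul_of_pos_right _ (by positivity))
  calc (C : ℝ) * (M : ℝ) ^ C * (R : ℝ) ^ 2 *
        ∑ x : Tor N d, En (lift o) (Lam (rep x) (R + 12 * M)) (fun y => f (prj N y))
      ≤ C * (M : ℝ) ^ C * (R : ℝ) ^ 2 * ((27 ^ d * (R : ℝ) ^ d) * tEn o f) := by
        refine mul_le_mul_of_nonneg_left (h4.trans ?_) (by positivity)
        exact mul_le_mul_of_nonneg_right h5 hE0
    _ ≤ C * (M : ℝ) ^ (C * 27 ^ d) * (R : ℝ) ^ 2 * ((27 ^ d * (R : ℝ) ^ d) * tEn o f) := by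
        gcongr
    _ = _ := by
        push_cast
        ring

open TG4 in
/-- each cube contains many giant vertices -/
theorem count_torus (d : ℕ) (hd : 1 ≤ d) : ∃ C : ℕ, ∀ {N M : ℕ} [NeZero N] (R : ℕ), 1 ≤ M →
    M ∣ N → 1000 * M ≤ N → 4 * M ≤ R → 32 * R ≤ N → ∀ {o : Tor N d × Fin d → Bool}, GoodT M o →
      ∀ x : Tor N d, (R : ℝ) ^ d ≤ C * (M : ℝ) ^ C *
        (Finset.univ.filter fun u : Fin d → Fin R => Giant M o (tadd x fun i => (u i : ℤ))).card := by
  obtain ⟨C, hC⟩ := count_far d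
  refine ⟨max (C * 4 ^ d) (4 ^ d + d), ?_⟩
  intro N M _ R hM hMN hN hMR hRN o ho x
  set D := max (C * 4 ^ d) (4 ^ d + d) with hD
  set T := Finset.univ.filter fun u : Fin d → Fin R => Giant M o (tadd x fun i => (u i : ℤ)) with hT
  have hM1 : (1 : ℝ) ≤ M := by exact_mod_cast hM
  -- a box inside the cube
  have key : ∀ (z : Vtx d) (r : ℕ), (∀ i, rep x i + r ≤ z i ∧ z i + r < rep x i + R) →
      ((Lam z r).filter (Far (lift o) (6 * M))).card ≤ T.card := by
    intro z r hz
    refine Finset.card_le_card_of_injOn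
      (fun y => fun i => (⟨(y i - rep x i).toNat % R, Nat.mod_lt _ (by omega)⟩ : Fin R)) ?_ ?_
    · intro y hy
      rw [Finset.mem_coe, Finset.mem_filter, mem_Lam, BAS_le_iff] at hy
      rw [Finset.mem_coe, hT, Finset.mem_filter]
      refine ⟨Finset.mem_univ _, ?_⟩
      have h1 : (tadd x fun i => (((⟨(y i - rep x i).toNat % R, Nat.mod_lt _ (by omega)⟩ :
          Fin R) : ℕ) : ℤ)) = prj N y := by
        have h2 : rep x + (fun i => (((y i - rep x i).toNat % R : ℕ) : ℤ)) = y := by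
          funext i
          have h3 := hy.1 i
          have h4 := hz i
          rw [Pi.add_apply, Nat.mod_eq_of_lt (by omega)]
          omega
        unfold tadd
        conv_rhs => rw [← h2, TG1_prj_add, TG1_prj_rep]
      rw [h1, TG1_giant_prj]
      exact hy.2
    · intro y hy y' hy' h
      rw [Finset.mem_coe, Finset.mem_filter, mem_Lam, BAS_le_iff] at hy hy'
      funext i
      have h1 := congrArg (fun g : Fin d → Fin R => ((g i : Fin R) : ℕ)) h
      simp only at h1
      have h3 := hy.1 i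
      have h3' := hy'.1 i
      have h4 := hz i
      rw [Nat.mod_eq_of_lt (by omega), Nat.mod_eq_of_lt (by omega)] at h1
      omega
  rcases Nat.lt_or_ge (4 * M) R with hR | hR
  · -- large cubes
    set r := (R - 1) / 2 with hr
    have hr2 : 2 * M ≤ r := by omega
    have h1 := hC M r hM hr2 (lift o) (fun i => rep x i + r) (fun w hw _ => ho w hw)
    have h2 := key (fun i => rep x i + r) r (fun i => ⟨le_rfl, by omega⟩)
    have h3 : (R : ℝ) ≤ 4 * r := by
      have : R ≤ 4 * r := by omega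
      exact_mod_cast this
    have h4 : (R : ℝ) ^ d ≤ 4 ^ d * (r : ℝ) ^ d := by
      rw [← mul_pow]
      exact pow_le_pow_left₀ (by positivity) h3 d
    have h5 : (((Lam (fun i => rep x i + r) r).filter (Far (lift o) (6 * M))).card : ℝ) ≤ T.card := by
      exact_mod_cast h2
    have h6 : ((C * 4 ^ d : ℕ) : ℝ) ≤ D := by exact_mod_cast le_max_left _ _
    have h7 : (M : ℝ) ^ C ≤ (M : ℝ) ^ D := by
      refine pow_le_pow_right₀ hM1 (le_trans ?_ (le_max_left _ _))
      exact Nat.le_mul_of_pos_right _ (by positivity)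
    calc (R : ℝ) ^ d ≤ 4 ^ d * (r : ℝ) ^ d := h4
      _ ≤ 4 ^ d * (C * (M : ℝ) ^ C * T.card) := by
          refine mul_le_mul_of_nonneg_left (h1.trans ?_) (by positivity)
          exact mul_le_mul_of_nonneg_left h5 (by positivity)
      _ = ((C * 4 ^ d : ℕ) : ℝ) * (M : ℝ) ^ C * T.card := by push_cast; ring
      _ ≤ D * (M : ℝ) ^ D * T.card := by gcongr
  · -- `R = 4 M`: one anchor
    have hR4 : R = 4 * M := le_antisymm hR hMR
    set z : Vtx d := fun i => (M : ℤ) * ((rep x i + 3 * M - 1) / M) with hz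
    have hgz : Grid M z := fun i => Dvd.intro _ rfl
    have hz1 : ∀ i, rep x i + M ≤ z i - M + M ∧ z i + M < rep x i + R := by
      intro i
      have h1 := Int.emod_add_mul_ediv (rep x i + 3 * M - 1) M
      have h3 := Int.emod_nonneg (rep x i + 3 * M - 1) (b := (M : ℤ)) (by omega)
      have h4 := Int.emod_lt_of_pos (rep x i + 3 * M - 1) (b := (M : ℤ)) (by omega)
      rw [hz]
      simp only
      rw [hR4]
      push_cast
      omega
    obtain ⟨a, ha1, ha2⟩ := good_anchor (ho z hgz)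
    have h2 := key z M (fun i => ⟨by have := hz1 i; omega, (hz1 i).2⟩)
    have h3 : 1 ≤ ((Lam z M).filter (Far (lift o) (6 * M))).card := by
      rw [Nat.one_le_iff_ne_zero, ← Nat.pos_iff_ne_zero, Finset.card_pos]
      exact ⟨a, Finset.mem_filter.mpr ⟨mem_Lam.2 ha1, far_mono (by omega) ha2⟩⟩
    have h4 : (1 : ℝ) ≤ T.card := by exact_mod_cast h3.trans h2
    have h6 : (4 : ℝ) ^ d ≤ D := by
      have : 4 ^ d ≤ D := le_trans (Nat.le_add_right _ _) (le_max_right _ _)
      exact_mod_cast this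
    have h7 : (M : ℝ) ^ d ≤ (M : ℝ) ^ D := by
      exact pow_le_pow_right₀ hM1 (le_trans (Nat.le_add_left _ _) (le_max_right _ _))
    calc (R : ℝ) ^ d = 4 ^ d * (M : ℝ) ^ d := by
          rw [hR4]
          push_cast
          rw [mul_pow]
      _ ≤ D * (M : ℝ) ^ D := by gcongr
      _ ≤ D * (M : ℝ) ^ D * T.card := le_mul_of_one_le_right (by positivity) h4

end Pool.Agent.Lib.MP_566bac_pr.Hd
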