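import Pool.Agent.Lib.MP_566bac_pr.Hd.OP1
import Pool.Agent.Lib.MP_566bac_pr.Hd.OP3
import Pool.Agent.Lib.MP_566bac_pr.Hd.TG2
import Pool.Agent.Lib.MP_566bac_pr.Hd.TG4

/-!
# The corrector is controlled by its averages
-/

open Finset
open scoped Classical

namespace Pool.Agent.Lib.MP_566bac_pr.Hd

variable {d : ℕ}

namespace CPOaux

theorem card_tor (N d : ℕ) [NeZero N] : (Fintype.card (Tor N d) : ℝ) = (N : ℝ) ^ d := by
  rw [Fintype.card_fun, ZMod.card, Fintype.card_fin]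
  push_cast
  rfl

theorem deg_le {N : ℕ} [NeZero N] (x : Tor N d) :
    (Finset.univ.filter fun e : Tor N d × Fin d => tsrc e = x ∨ ttgt e = x).card ≤ 2 * d := by
  have h : (Finset.univ.filter fun e : Tor N d × Fin d => tsrc e = x ∨ ttgt e = x) ⊆
      (Finset.univ.image fun j : Fin d => ((x, j) : Tor N d × Fin d)) ∪
        (Finset.univ.image fun j : Fin d => ((x - tev j, j) : Tor N d × Fin d)) := by
    rintro ⟨y, j⟩ h
    rw [Finset.mem_filter] at h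
    rw [Finset.mem_union, Finset.mem_image, Finset.mem_image]
    rcases h.2 with h | h
    · left
      refine ⟨j, Finset.mem_univ _, ?_⟩
      have : y = x := h
      rw [this]
    · right
      refine ⟨j, Finset.mem_univ _, ?_⟩
      have : y + tev j = x := h
      rw [← this, add_sub_cancel_right]
  refine (Finset.card_le_card h).trans ((Finset.card_union_le _ _).trans ?_)
  have h1 := Finset.card_image_le (s := (Finset.univ : Finset (Fin d)))
    (f := fun j : Fin d => ((x, j) : Tor N d × Fin d))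
  have h2 := Finset.card_image_le (s := (Finset.univ : Finset (Fin d)))
    (f := fun j : Fin d => ((x - tev j, j) : Tor N d × Fin d))
  rw [Finset.card_univ, Fintype.card_fin] at h1 h2
  omega

theorem xi_le {N : ℕ} (i : Fin d) (e : Tor N d × Fin d) : |xi i e| ≤ 1 := by
  unfold xi
  split_ifs <;> simp

theorem xi_sum {N : ℕ} [NeZero N] (i : Fin d) (o : Tor N d × Fin d → Bool) :
    ∑ e, (if o e then xi i e ^ 2 else 0) ≤ (N : ℝ) ^ d := by
  have h : ∀ e : Tor N d × Fin d, (if o e then xi i e ^ 2 else 0) ≤ if e.2 = i then (1 : ℝ) else 0 := by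
    intro e
    unfold xi
    split_ifs <;> simp
  refine (Finset.sum_le_sum fun e _ => h e).trans ?_
  rw [Fintype.sum_prod_type]
  simp only [Finset.sum_ite_eq', Finset.mem_univ, if_true]
  rw [Finset.sum_const, nsmul_eq_mul, mul_one, Finset.card_univ, card_tor]

theorem tEn_le {N : ℕ} [NeZero N] (i : Fin d) (o : Tor N d × Fin d → Bool) {μ : ℝ} (hμ : 0 < μ) :
    tEn o (phi μ o i) ≤ 4 * (N : ℝ) ^ d := by
  have h1 := zf_energy_le tsrc ttgt o hμ (xi i)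
  have h2 : 0 ≤ μ * ∑ x, sol tsrc ttgt μ o (Dv tsrc ttgt o (xi i)) x ^ 2 :=
    mul_nonneg hμ.le (Finset.sum_nonneg fun _ _ => sq_nonneg _)
  have h3 := xi_sum i o
  have h4 : tEn o (phi μ o i) ≤ ∑ e, (2 * (if o e then Zf tsrc ttgt μ o (xi i) e ^ 2 else 0) +
      2 * (if o e then xi i e ^ 2 else 0)) := by
    unfold tEn
    refine Finset.sum_le_sum fun e _ => ?_
    split_ifs
    · have e1 : gr tsrc ttgt (phi μ o i) e = Zf tsrc ttgt μ o (xi i) e - xi i e := by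
        unfold Zf phi; ring
      rw [e1]
      nlinarith [sq_nonneg (Zf tsrc ttgt μ o (xi i) e + xi i e)]
    · simp
  rw [Finset.sum_add_distrib, ← Finset.mul_sum, ← Finset.mul_sum] at h4
  linarith

theorem small_le {N M : ℕ} [NeZero N] (hM : 1 ≤ M) (hMN : M ∣ N) (hN : 1000 * M ≤ N)
    {o : Tor N d × Fin d → Bool} (ho : GoodT M o) {μ : ℝ} (hμ : 0 < μ) (i : Fin d) (x : Tor N d)
    (hx : ¬ Giant M o x) : |phi μ o i x| ≤ 2 * d * (12 * M + 1 : ℝ) ^ d := by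
  obtain ⟨K, hxK, hK, hcl, hconn, -⟩ := small_component hM hMN hN ho x hx
  have h := small_comp tsrc ttgt o hμ K hcl hconn (2 * d) (fun x => deg_le x) (xi i)
    (fun e => xi_le i e) x hxK
  unfold phi
  refine h.trans ?_
  have h1 : (K.card : ℝ) ≤ (12 * M + 1 : ℝ) ^ d := by exact_mod_cast hK
  push_cast
  exact mul_le_mul_of_nonneg_left h1 (by positivity)

theorem tadd_sum {N : ℕ} [NeZero N] (R : ℕ) (g : Tor N d → ℝ) :
    ∑ x, ∑ u : Fin d → Fin R, g (tadd x fun i => (u i : ℤ)) = (R : ℝ) ^ d * ∑ x, g x := by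
  rw [Finset.sum_comm]
  have h : ∀ u : Fin d → Fin R, ∑ x, g (tadd x fun i => (u i : ℤ)) = ∑ x, g x := by
    intro u
    exact Fintype.sum_equiv (Equiv.addRight (prj N fun i => (u i : ℤ))) _ _ (fun x => rfl)
  simp only [h]
  rw [Finset.sum_const, nsmul_eq_mul, Finset.card_univ, Fintype.card_fun, Fintype.card_fin,
    Fintype.card_fin]
  push_cast
  rfl

/-- one cube -/
theorem cubeAvg {α : Type*} [Fintype α] (P : α → Prop) (f : α → ℝ) (c F L n a : ℝ)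
    (hn : n = Fintype.card α) (hn0 : 0 < n) (hL : 0 ≤ L) (hF : 0 ≤ F)
    (hf : ∀ u, ¬ P u → |f u| ≤ F) (hg : n ≤ L * (Finset.univ.filter P).card)
    (ha : n * a = ∑ u, f u) :
    ∑ u, (if P u then f u ^ 2 else 0) ≤ (2 + 6 * L) * ∑ u, (if P u then (f u - c) ^ 2 else 0) +
      6 * L * n * (a ^ 2 + F ^ 2) := by
  set g : ℝ := ((Finset.univ.filter P).card : ℝ) with hgdef
  set S : ℝ := ∑ u, (if P u then (f u - c) ^ 2 else 0) with hS
  have hg0 : 0 ≤ g := Nat.cast_nonneg _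
  have hS0 : 0 ≤ S := Finset.sum_nonneg fun u _ => by split_ifs <;> positivity
  have hgn : g ≤ n := by
    rw [hgdef, hn]
    exact_mod_cast Finset.card_le_univ _
  have hSf : S = ∑ u ∈ Finset.univ.filter P, (f u - c) ^ 2 := by
    rw [hS, Finset.sum_filter]
  -- the sum
  have h1 : c * g = n * a - ∑ u ∈ Finset.univ.filter (fun u => ¬ P u), f u -
      ∑ u ∈ Finset.univ.filter P, (f u - c) := by
    rw [ha, ← Finset.sum_filter_add_sum_filter_not Finset.univ P f, Finset.sum_sub_distrib,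
      Finset.sum_const, nsmul_eq_mul, ← hgdef]
    ring
  have h2 : |∑ u ∈ Finset.univ.filter (fun u => ¬ P u), f u| ≤ n * F := by
    refine (Finset.abs_sum_le_sum_abs _ _).trans ?_
    refine (Finset.sum_le_sum (g := fun _ => F) fun u hu => hf u (Finset.mem_filter.1 hu).2).trans ?_
    rw [Finset.sum_const, nsmul_eq_mul]
    refine mul_le_mul_of_nonneg_right ?_ hF
    rw [hn]
    exact_mod_cast Finset.card_le_univ _
  have h3 : (∑ u ∈ Finset.univ.filter P, (f u - c)) ^ 2 ≤ n * S := by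
    refine (sq_sum_le_card_mul_sum_sq).trans ?_
    rw [← hSf]
    exact mul_le_mul_of_nonneg_right hgn hS0
  have h4 : (c * g) ^ 2 ≤ 3 * ((n * a) ^ 2 + (n * F) ^ 2 + n * S) := by
    have h5 : (∑ u ∈ Finset.univ.filter (fun u => ¬ P u), f u) ^ 2 ≤ (n * F) ^ 2 := by
      rw [← sq_abs]
      exact pow_le_pow_left₀ (abs_nonneg _) h2 2
    rw [h1]
    set p := n * a
    set q := ∑ u ∈ Finset.univ.filter (fun u => ¬ P u), f u
    set r := ∑ u ∈ Finset.univ.filter P, (f u - c)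
    nlinarith [sq_nonneg (p + q), sq_nonneg (p + r), sq_nonneg (q - r)]
  have h5 : c ^ 2 * g ≤ 3 * L * (n * a ^ 2 + n * F ^ 2 + S) := by
    have h6 : c ^ 2 * g * n ≤ c ^ 2 * g * (L * g) :=
      mul_le_mul_of_nonneg_left hg (by positivity)
    have h7 : c ^ 2 * g * (L * g) = L * (c * g) ^ 2 := by ring
    have h8 : L * (c * g) ^ 2 ≤ L * (3 * ((n * a) ^ 2 + (n * F) ^ 2 + n * S)) :=
      mul_le_mul_of_nonneg_left h4 hL
    have h9 : c ^ 2 * g * n ≤ (3 * L * (n * a ^ 2 + n * F ^ 2 + S)) * n := by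
      calc c ^ 2 * g * n ≤ L * (3 * ((n * a) ^ 2 + (n * F) ^ 2 + n * S)) := by linarith
        _ = (3 * L * (n * a ^ 2 + n * F ^ 2 + S)) * n := by ring
    exact le_of_mul_le_mul_right h9 hn0
  have h6 : ∑ u, (if P u then f u ^ 2 else 0) ≤ 2 * S + 2 * (c ^ 2 * g) := by
    rw [← Finset.sum_filter, hSf, Finset.mul_sum]
    have : 2 * (c ^ 2 * g) = ∑ _u ∈ Finset.univ.filter P, 2 * c ^ 2 := by
      rw [Finset.sum_const, nsmul_eq_mul, ← hgdef]; ring
    rw [this, ← Finset.sum_add_distrib]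
    refine Finset.sum_le_sum fun u _ => ?_
    nlinarith [sq_nonneg (f u - 2 * c)]
  nlinarith

end CPOaux

open CPOaux

theorem corr_poincare (d : ℕ) (hd : 1 ≤ d) : ∃ C : ℕ, ∀ {N M : ℕ} [NeZero N] (R : ℕ), 1 ≤ M →
    M ∣ N → 1000 * M ≤ N → 4 * M ≤ R → 32 * R ≤ N → ∀ {o : Tor N d × Fin d → Bool}, GoodT M o →
      ∀ {μ : ℝ}, 0 < μ → ∀ i : Fin d,
        ∑ x, (if Giant M o x then phi μ o i x ^ 2 else 0) ≤
          C * (M : ℝ) ^ C * ((R : ℝ) ^ 2 * (N : ℝ) ^ d + ∑ x, avg R (phi μ o i) x ^ 2) := by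
  obtain ⟨C1, hC1⟩ := poincare_torus d hd
  obtain ⟨C2, hC2⟩ := count_torus d hd
  refine ⟨(2 + 6 * C2) * 4 * C1 + 6 * C2 * (4 * d ^ 2 * 13 ^ (2 * d)) + 6 * C2 +
    (C1 + C2 + 2 * d), ?_⟩
  intro N M _ R hM hMN hN hMR hRN o ho μ hμ i
  set f := phi μ o i with hf
  have hR : 1 ≤ R := by omega
  have hR0 : (0 : ℝ) < R := by exact_mod_cast hR
  have hR1 : (1 : ℝ) ≤ R := by exact_mod_cast hR
  have hM1 : (1 : ℝ) ≤ M := by exact_mod_cast hM
  obtain ⟨c, hc⟩ := hC1 R hM hMN hN (by omega) hRN ho f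
  set F : ℝ := 2 * d * (12 * M + 1 : ℝ) ^ d with hF
  set L : ℝ := C2 * (M : ℝ) ^ C2 with hL
  have hF0 : 0 ≤ F := by positivity
  have hL0 : 0 ≤ L := by positivity
  set SS : ℝ := ∑ x, ∑ u : Fin d → Fin R, (if Giant M o (tadd x fun i => (u i : ℤ)) then
          (f (tadd x fun i => (u i : ℤ)) - c x) ^ 2 else 0) with hSS
  have hcube : ∀ x, ∑ u : Fin d → Fin R, (if Giant M o (tadd x fun i => (u i : ℤ)) then
      f (tadd x fun i => (u i : ℤ)) ^ 2 else 0) ≤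
      (2 + 6 * L) * ∑ u : Fin d → Fin R, (if Giant M o (tadd x fun i => (u i : ℤ)) then
          (f (tadd x fun i => (u i : ℤ)) - c x) ^ 2 else 0) +
        6 * L * (R : ℝ) ^ d * (avg R f x ^ 2 + F ^ 2) := by
    intro x
    refine cubeAvg (fun u : Fin d → Fin R => Giant M o (tadd x fun i => (u i : ℤ)))
      (fun u => f (tadd x fun i => (u i : ℤ))) (c x) F L ((R : ℝ) ^ d) (avg R f x) ?_
      (by positivity) hL0 hF0 ?_ ?_ ?_
    · rw [Fintype.card_fun, Fintype.card_fin, Fintype.card_fin]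
      push_cast
      rfl
    · intro u hu
      exact small_le hM hMN hN ho hμ i _ hu
    · exact hC2 R hM hMN hN hMR hRN ho x
    · unfold avg
      field_simp
  have h1 := Finset.sum_le_sum fun x (_ : x ∈ (Finset.univ : Finset (Tor N d))) => hcube x
  rw [tadd_sum R (fun x => if Giant M o x then f x ^ 2 else 0), Finset.sum_add_distrib,
    ← Finset.mul_sum, ← Finset.mul_sum, Finset.sum_add_distrib, Finset.sum_const, nsmul_eq_mul,
    Finset.card_univ, card_tor, ← hSS] at h1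
  have h2 := tEn_le i o hμ
  rw [← hf] at h2
  set A : ℝ := ∑ x, avg R f x ^ 2 with hA
  set T : ℝ := ∑ x, (if Giant M o x then f x ^ 2 else 0) with hT
  have hA0 : 0 ≤ A := Finset.sum_nonneg fun _ _ => sq_nonneg _
  have hRd : (0 : ℝ) < (R : ℝ) ^ d := by positivity
  have hNd : (0 : ℝ) ≤ (N : ℝ) ^ d := by positivity
  have h3 : SS ≤ C1 * (M : ℝ) ^ C1 * (R : ℝ) ^ 2 * (R : ℝ) ^ d * (4 * (N : ℝ) ^ d) :=
    hc.trans (mul_le_mul_of_nonneg_left h2 (by positivity))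
  have h4 : (R : ℝ) ^ d * T ≤ (R : ℝ) ^ d * ((2 + 6 * L) * (4 * C1 * (M : ℝ) ^ C1) *
      ((R : ℝ) ^ 2 * (N : ℝ) ^ d) + 6 * L * A + 6 * L * F ^ 2 * (N : ℝ) ^ d) := by
    refine h1.trans ?_
    have h5 : (2 + 6 * L) * SS ≤ (2 + 6 * L) *
        (C1 * (M : ℝ) ^ C1 * (R : ℝ) ^ 2 * (R : ℝ) ^ d * (4 * (N : ℝ) ^ d)) :=
      mul_le_mul_of_nonneg_left h3 (by positivity)
    refine (add_le_add_left h5 _).trans (le_of_eq ?_)
    ring
  have h5 : T ≤ (2 + 6 * L) * (4 * C1 * (M : ℝ) ^ C1) *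
      ((R : ℝ) ^ 2 * (N : ℝ) ^ d) + 6 * L * A + 6 * L * F ^ 2 * (N : ℝ) ^ d :=
    le_of_mul_le_mul_left h4 hRd
  set C : ℕ := (2 + 6 * C2) * 4 * C1 + 6 * C2 * (4 * d ^ 2 * 13 ^ (2 * d)) + 6 * C2 +
    (C1 + C2 + 2 * d) with hC
  set P : ℝ := (M : ℝ) ^ C with hP
  have hP0 : 0 ≤ P := by positivity
  have hpow : ∀ e : ℕ, e ≤ C → (M : ℝ) ^ e ≤ P := fun e he => pow_le_pow_right₀ hM1 he
  have hMC2 : (1 : ℝ) ≤ (M : ℝ) ^ C2 := one_le_pow₀ hM1
  have e1 : (2 + 6 * L) * (4 * C1 * (M : ℝ) ^ C1) ≤ ((2 + 6 * C2) * 4 * C1) * P := by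
    have e2 : 2 + 6 * L ≤ (2 + 6 * C2) * (M : ℝ) ^ C2 := by
      rw [hL]; nlinarith [Nat.cast_nonneg (α := ℝ) C2]
    calc (2 + 6 * L) * (4 * C1 * (M : ℝ) ^ C1) ≤
        ((2 + 6 * C2) * (M : ℝ) ^ C2) * (4 * C1 * (M : ℝ) ^ C1) :=
          mul_le_mul_of_nonneg_right e2 (by positivity)
      _ = ((2 + 6 * C2) * 4 * C1) * (M : ℝ) ^ (C1 + C2) := by rw [pow_add]; ring
      _ ≤ ((2 + 6 * C2) * 4 * C1) * P :=
          mul_le_mul_of_nonneg_left (hpow _ (by omega)) (by positivity)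
  have e3 : 6 * L ≤ 6 * C2 * P := by
    rw [hL]
    have := hpow C2 (by omega)
    nlinarith [Nat.cast_nonneg (α := ℝ) C2]
  have e4 : F ^ 2 ≤ 4 * d ^ 2 * 13 ^ (2 * d) * (M : ℝ) ^ (2 * d) := by
    have e5 : (12 * M + 1 : ℝ) ^ (2 * d) ≤ (13 * M : ℝ) ^ (2 * d) :=
      pow_le_pow_left₀ (by positivity) (by linarith) _
    calc F ^ 2 = 4 * d ^ 2 * (12 * M + 1 : ℝ) ^ (2 * d) := by
          rw [hF, mul_comm 2 d, pow_mul]; ring
      _ ≤ 4 * d ^ 2 * (13 * M : ℝ) ^ (2 * d) := mul_le_mul_of_nonneg_left e5 (by positivity)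
      _ = 4 * d ^ 2 * 13 ^ (2 * d) * (M : ℝ) ^ (2 * d) := by rw [mul_pow]; ring
  have e6 : 6 * L * F ^ 2 ≤ 6 * C2 * (4 * d ^ 2 * 13 ^ (2 * d)) * P := by
    calc 6 * L * F ^ 2 ≤ 6 * L * (4 * d ^ 2 * 13 ^ (2 * d) * (M : ℝ) ^ (2 * d)) :=
          mul_le_mul_of_nonneg_left e4 (by positivity)
      _ = 6 * C2 * (4 * d ^ 2 * 13 ^ (2 * d)) * (M : ℝ) ^ (C2 + 2 * d) := by
          rw [hL, pow_add]; ring
      _ ≤ 6 * C2 * (4 * d ^ 2 * 13 ^ (2 * d)) * P :=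
          mul_le_mul_of_nonneg_left (hpow _ (by omega)) (by positivity)
  have hR2 : (N : ℝ) ^ d ≤ (R : ℝ) ^ 2 * (N : ℝ) ^ d :=
    le_mul_of_one_le_left hNd (one_le_pow₀ hR1)
  set B : ℝ := (R : ℝ) ^ 2 * (N : ℝ) ^ d with hB
  have hB0 : 0 ≤ B := by positivity
  have f1 : (2 + 6 * L) * (4 * C1 * (M : ℝ) ^ C1) * B ≤ ((2 + 6 * C2) * 4 * C1) * P * B :=
    mul_le_mul_of_nonneg_right e1 hB0
  have f2 : 6 * L * A ≤ 6 * C2 * P * A := mul_le_mul_of_nonneg_right e3 hA0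
  have f3 : 6 * L * F ^ 2 * (N : ℝ) ^ d ≤ 6 * C2 * (4 * d ^ 2 * 13 ^ (2 * d)) * P * B := by
    refine (mul_le_mul_of_nonneg_right e6 hNd).trans ?_
    exact mul_le_mul_of_nonneg_left hR2 (by positivity)
  have hCr : (C : ℝ) = (2 + 6 * C2) * 4 * C1 + 6 * C2 * (4 * d ^ 2 * 13 ^ (2 * d)) + 6 * C2 +
      (C1 + C2 + 2 * d) := by rw [hC]; push_cast; ring
  have g1 : 0 ≤ ((2 + 6 * (C2 : ℝ)) * 4 * C1) * P * A := by positivity
  have g2 : 0 ≤ 6 * (C2 : ℝ) * (4 * d ^ 2 * 13 ^ (2 * d)) * P * A := by positivity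
  have g3 : 0 ≤ 6 * (C2 : ℝ) * P * B := by positivity
  have g4 : 0 ≤ ((C1 : ℝ) + C2 + 2 * d) * P * (B + A) := by positivity
  calc T ≤ ((2 + 6 * C2) * 4 * C1) * P * B + 6 * C2 * P * A +
        6 * C2 * (4 * d ^ 2 * 13 ^ (2 * d)) * P * B := by linarith
    _ ≤ C * P * (B + A) := by
        rw [hCr]
        linarith

end Pool.Agent.Lib.MP_566bac_pr.Hd
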