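import Pool.Agent.Lib.MP_566bac_pr.Hd.AV
import Pool.Agent.Lib.MP_566bac_pr.Hd.OP2
import Pool.Agent.Lib.MP_566bac_pr.Hd.OP3
import Pool.Agent.Lib.MP_566bac_pr.Hd.TG1
import Pool.Agent.Lib.MP_566bac_pr.Hd.TG2
import Pool.Agent.Lib.MP_566bac_pr.Hd.TG3
import Pool.Agent.Lib.MP_566bac_pr.Hd.DP
import Pool.Agent.Lib.MP_566bac_pr.Hd.GB
import Pool.Agent.Lib.MP_566bac_pr.Hd.TG5

/-!
# Effect of one edge on the averages of the corrector
-/

open Finset
open scoped Classical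

namespace Pool.Agent.Lib.MP_566bac_pr.Hd

variable {d : ℕ}

/-- the difference as a product -/
theorem FL1_diff {N : ℕ} [NeZero N] {μ : ℝ} (hμ : 0 < μ) (R : ℕ) (o : Tor N d × Fin d → Bool)
    (e : Tor N d × Fin d) (i : Fin d) (x : Tor N d) :
    avg R (phi μ (up o e) i) x - avg R (phi μ (dn o e) i) x =
      -(Zf tsrc ttgt μ (dn o e) (xi i) e *
        gr tsrc ttgt (sol tsrc ttgt μ (up o e) (fun y => avg R (Pi.single y 1) x)) e) := by
  rw [avg_phi hμ, avg_phi hμ]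
  exact flip_lin tsrc ttgt o hμ e (xi i) (fun y => avg R (Pi.single y 1) x)

theorem FL1_sum {N : ℕ} [NeZero N] {μ : ℝ} (hμ : 0 < μ) (R : ℕ) (o : Tor N d × Fin d → Bool)
    (e : Tor N d × Fin d) (i : Fin d) :
    ∑ x, (avg R (phi μ (up o e) i) x - avg R (phi μ (dn o e) i) x) ^ 2 =
      Zf tsrc ttgt μ (dn o e) (xi i) e ^ 2 * ∑ x,
        gr tsrc ttgt (sol tsrc ttgt μ (up o e) (fun y => avg R (Pi.single y 1) x)) e ^ 2 := by
  rw [Finset.mul_sum]
  refine Finset.sum_congr rfl fun x _ => ?_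
  rw [FL1_diff hμ]
  ring

theorem FL1_dipole {N : ℕ} [NeZero N] {μ : ℝ} (hμ : 0 < μ) {R : ℕ} (hR : 1 ≤ R)
    (o : Tor N d × Fin d → Bool) (e : Tor N d × Fin d) :
    ∑ x, gr tsrc ttgt (sol tsrc ttgt μ o (fun y => avg R (Pi.single y 1) x)) e ^ 2 ≤
      ∑ x, dip μ o e x ^ 2 := by
  refine le_trans (le_of_eq ?_) (avg_sq_le hR (dip μ o e))
  refine Finset.sum_congr rfl fun x _ => ?_
  rw [gr_sol_avg hμ]
  ring

/-- the solution for the averaging function is an average of the Green function -/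
theorem FL1_sol_avg {N : ℕ} [NeZero N] {μ : ℝ} (hμ : 0 < μ) (R : ℕ) (o : Tor N d × Fin d → Bool)
    (x k : Tor N d) : sol tsrc ttgt μ o (fun y => avg R (Pi.single y 1) x) k =
      avg R (sol tsrc ttgt μ o (Pi.single k 1)) x := by
  rw [avg_eq R (sol tsrc ttgt μ o (Pi.single k 1)) x, ← sol_symm tsrc ttgt o hμ]
  rw [Finset.sum_eq_single k]
  · simp
  · intro y _ hy
    rw [Pi.single_eq_of_ne hy, mul_zero]
  · intro h
    exact absurd (Finset.mem_univ k) h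

theorem FL1_small {N : ℕ} [NeZero N] {μ : ℝ} (hμ : 0 < μ) {R : ℕ} (hR : 1 ≤ R) (hRN : R ≤ N)
    (o : Tor N d × Fin d → Bool) (e : Tor N d × Fin d) (K : Finset (Tor N d))
    (hK : ∀ e', dn o e e' = true → (tsrc e' ∈ K ↔ ttgt e' ∈ K))
    (he : ¬ (tsrc e ∈ K ↔ ttgt e ∈ K)) (T : ℝ)
    (hT : ∀ k ∈ K, ∑ y, sol tsrc ttgt μ (up o e) (Pi.single k 1) y ^ 2 ≤ T) :
    ∑ x, gr tsrc ttgt (sol tsrc ttgt μ (up o e) (fun y => avg R (Pi.single y 1) x)) e ^ 2 ≤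
      2 * (K.card : ℝ) ^ 2 / (R : ℝ) ^ d + 2 * μ ^ 2 * (K.card : ℝ) ^ 2 * T := by
  have h1 : ∀ x, gr tsrc ttgt (sol tsrc ttgt μ (up o e) (fun y => avg R (Pi.single y 1) x)) e ^ 2 ≤
      2 * avg R (fun y => if y ∈ K then 1 else 0) x ^ 2 +
        2 * μ ^ 2 * (K.card * ∑ k ∈ K, avg R (sol tsrc ttgt μ (up o e) (Pi.single k 1)) x ^ 2) := by
    intro x
    have h2 := flip_small_lin tsrc ttgt o hμ e K hK he (fun y => avg R (Pi.single y 1) x)
    have h3 : ∑ y ∈ K, avg R (Pi.single y 1) x = avg R (fun y => if y ∈ K then 1 else 0) x := by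
      rw [avg_eq R (fun y => if y ∈ K then 1 else 0) x]
      simp only [mul_ite, mul_one, mul_zero]
      rw [Finset.sum_ite_mem, Finset.univ_inter]
    have h4 : ∑ k ∈ K, |sol tsrc ttgt μ (up o e) (fun y => avg R (Pi.single y 1) x) k| =
        ∑ k ∈ K, |avg R (sol tsrc ttgt μ (up o e) (Pi.single k 1)) x| :=
      Finset.sum_congr rfl fun k _ => by rw [FL1_sol_avg hμ]
    rw [h3, h4] at h2
    have h5 : (∑ k ∈ K, |avg R (sol tsrc ttgt μ (up o e) (Pi.single k 1)) x|) ^ 2 ≤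
        K.card * ∑ k ∈ K, avg R (sol tsrc ttgt μ (up o e) (Pi.single k 1)) x ^ 2 := by
      have := sq_sum_le_card_mul_sum_sq (s := K)
        (f := fun k => |avg R (sol tsrc ttgt μ (up o e) (Pi.single k 1)) x|)
      simpa [sq_abs] using this
    have h6 : gr tsrc ttgt (sol tsrc ttgt μ (up o e) (fun y => avg R (Pi.single y 1) x)) e ^ 2 ≤
        (|avg R (fun y => if y ∈ K then 1 else 0) x| +
          μ * ∑ k ∈ K, |avg R (sol tsrc ttgt μ (up o e) (Pi.single k 1)) x|) ^ 2 := by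
      rw [← sq_abs (gr tsrc ttgt _ e)]
      exact pow_le_pow_left₀ (abs_nonneg _) h2 2
    refine h6.trans ?_
    have h7 := sq_abs (avg R (fun y => if y ∈ K then (1 : ℝ) else 0) x)
    have h8 : μ ^ 2 * (∑ k ∈ K, |avg R (sol tsrc ttgt μ (up o e) (Pi.single k 1)) x|) ^ 2 ≤
        μ ^ 2 * (K.card * ∑ k ∈ K, avg R (sol tsrc ttgt μ (up o e) (Pi.single k 1)) x ^ 2) :=
      mul_le_mul_of_nonneg_left h5 (by positivity)
    nlinarith [sq_nonneg (|avg R (fun y => if y ∈ K then (1 : ℝ) else 0) x| -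
      μ * ∑ k ∈ K, |avg R (sol tsrc ttgt μ (up o e) (Pi.single k 1)) x|)]
  refine (Finset.sum_le_sum fun x _ => h1 x).trans ?_
  rw [Finset.sum_add_distrib, ← Finset.mul_sum, ← Finset.mul_sum, ← Finset.mul_sum,
    Finset.sum_comm]
  have h2 : ∑ x, avg R (fun y => if y ∈ K then (1 : ℝ) else 0) x ^ 2 ≤
      (K.card : ℝ) ^ 2 / (R : ℝ) ^ d := by
    refine (avg_sq_le_l1 hR hRN _).trans (le_of_eq ?_)
    congr 2
    have : ∀ x : Tor N d, |if x ∈ K then (1 : ℝ) else 0| = if x ∈ K then 1 else 0 := by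
      intro x
      split_ifs <;> simp
    rw [Finset.sum_congr rfl fun x _ => this x, Finset.sum_ite_mem, Finset.univ_inter,
      Finset.sum_const, nsmul_eq_mul, mul_one]
  have h3 : ∑ k ∈ K, ∑ x, avg R (sol tsrc ttgt μ (up o e) (Pi.single k 1)) x ^ 2 ≤
      K.card * T := by
    rw [← nsmul_eq_mul]
    exact Finset.sum_le_card_nsmul _ _ _ fun k hk => (avg_sq_le hR _).trans (hT k hk)
  have h4 : 2 * μ ^ 2 * ((K.card : ℝ) * ∑ k ∈ K, ∑ x,
      avg R (sol tsrc ttgt μ (up o e) (Pi.single k 1)) x ^ 2) ≤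
      2 * μ ^ 2 * ((K.card : ℝ) * (K.card * T)) := by
    gcongr
  calc _ ≤ 2 * ((K.card : ℝ) ^ 2 / (R : ℝ) ^ d) + 2 * μ ^ 2 * ((K.card : ℝ) * (K.card * T)) :=
        add_le_add (by linarith) h4
    _ = _ := by ring

/-- the Green function is always bounded in `l^2` -/
theorem FL1_green_triv {N : ℕ} [NeZero N] {μ : ℝ} (hμ : 0 < μ) (o : Tor N d × Fin d → Bool)
    (k : Tor N d) : ∑ y, sol tsrc ttgt μ o (Pi.single k 1) y ^ 2 ≤ 1 / μ ^ 2 :=
  small_comp_green tsrc ttgt o hμ Finset.univ (fun e _ => by simp) (Finset.mem_univ k)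

theorem FL1_deg {N : ℕ} [NeZero N] (x : Tor N d) :
    (Finset.univ.filter fun e : Tor N d × Fin d => tsrc e = x ∨ ttgt e = x).card ≤ 2 * d := by
  have h1 : (Finset.univ.filter fun e : Tor N d × Fin d => tsrc e = x ∨ ttgt e = x) ⊆
      (Finset.univ.image fun j : Fin d => ((x, j) : Tor N d × Fin d)) ∪
      (Finset.univ.image fun j : Fin d => ((x - tev j, j) : Tor N d × Fin d)) := by
    intro e he
    rw [Finset.mem_filter] at he
    rw [Finset.mem_union, Finset.mem_image, Finset.mem_image]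
    rcases he.2 with h | h
    · left
      exact ⟨e.2, Finset.mem_univ _, Prod.ext h.symm rfl⟩
    · right
      refine ⟨e.2, Finset.mem_univ _, Prod.ext ?_ rfl⟩
      have h' : e.1 + tev e.2 = x := h
      simp only
      rw [← h', add_sub_cancel_right]
  refine (Finset.card_le_card h1).trans ((Finset.card_union_le _ _).trans ?_)
  have h2 := Finset.card_image_le (s := (Finset.univ : Finset (Fin d)))
    (f := fun j : Fin d => ((x, j) : Tor N d × Fin d))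
  have h3 := Finset.card_image_le (s := (Finset.univ : Finset (Fin d)))
    (f := fun j : Fin d => ((x - tev j, j) : Tor N d × Fin d))
  rw [Finset.card_univ, Fintype.card_fin] at h2 h3
  omega

/-- the corrector is bounded at vertices which are not giant -/
theorem FL1_phi_le {N M : ℕ} [NeZero N] {μ : ℝ} (hμ : 0 < μ) (hM : 1 ≤ M) (hMN : M ∣ N)
    (hN : 1000 * M ≤ N) {o : Tor N d × Fin d → Bool} (ho : GoodT M o) (i : Fin d) (x : Tor N d)
    (hx : ¬ Giant M o x) : |phi μ o i x| ≤ 2 * d * (12 * M + 1) ^ d := by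
  obtain ⟨K, hxK, hcard, hcl, hconn, -, -, -⟩ := small_component hM hMN hN ho x hx
  have h := small_comp tsrc ttgt o hμ K hcl hconn (2 * d) (fun y => FL1_deg y) (xi i)
    (fun e => by unfold xi; split_ifs <;> simp) x hxK
  refine h.trans ?_
  have h2 : (K.card : ℝ) ≤ (12 * M + 1) ^ d := by exact_mod_cast hcard
  push_cast
  gcongr

/-- monotonicity -/
theorem FL1_mono {N M : ℕ} [NeZero N] {o o' : Tor N d × Fin d → Bool}
    (h : ∀ e, o e = true → o' e = true) {x : Tor N d} (hx : Giant M o x) : Giant M o' x := by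
  obtain ⟨y, hy, h1, h2, h3⟩ := hx
  refine ⟨y, hy, h1, h2, h3.mono ?_⟩
  intro u v huv
  refine ⟨?_, huv.2⟩
  obtain ⟨j, hj⟩ := huv.1
  exact ⟨j, hj.imp (fun h4 => ⟨h4.1, h _ h4.2⟩) (fun h4 => ⟨h4.1, h _ h4.2⟩)⟩

theorem FL1_path {N M : ℕ} [NeZero N] {o : Tor N d × Fin d → Bool}
    (h : ∀ e, o e = true → (Giant M o (tsrc e) ↔ Giant M o (ttgt e))) :
    ∀ (l : List (Tor N d)) (x : Tor N d),
      List.IsChain (fun a b => ∃ e, o e = true ∧ ((tsrc e = a ∧ ttgt e = b) ∨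
        (tsrc e = b ∧ ttgt e = a))) (x :: l) →
      (Giant M o x ↔ Giant M o ((x :: l).getLast (List.cons_ne_nil x l))) := by
  intro l
  induction l with
  | nil => intro x _; rfl
  | cons y l ih =>
    intro x hx
    rw [List.isChain_cons_cons] at hx
    obtain ⟨⟨e, he, h1⟩, h2⟩ := hx
    rw [List.getLast_cons (List.cons_ne_nil y l), ← ih y h2]
    rcases h1 with ⟨rfl, rfl⟩ | ⟨rfl, rfl⟩
    · exact h e he
    · exact (h e he).symm

theorem FL1_path' {N M : ℕ} [NeZero N] (hM : 1 ≤ M) (hMN : M ∣ N) (hN : 1000 * M ≤ N)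
    {o o' : Tor N d × Fin d → Bool} (ho : GoodT M o') (h : ∀ e, o e = true → o' e = true)
    {n : ℕ} {x y : Tor N d} (hxy : PathLe tsrc ttgt o n x y) :
    Giant M o' x ↔ Giant M o' y := by
  obtain ⟨l, -, hl, hy⟩ := hxy
  have h1 := FL1_path (M := M) (o := o') (fun e he => giant_edge hM hMN hN ho he) l x
    (hl.imp fun a b ⟨e, he, hab⟩ => ⟨e, h e he, hab⟩)
  rw [hy] at h1
  exact h1

theorem FL1_nash_mono {N : ℕ} [NeZero N] {o : Tor N d × Fin d → Bool} {S : Set (Tor N d)}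
    {L L' : ℝ} (h : Nash o S L) (hL : L ≤ L') : Nash o S L' := by
  intro f hf R hR hRN
  refine (h f hf R hR hRN).trans ?_
  refine mul_le_mul_of_nonneg_right hL ?_
  have : 0 ≤ tEn o f := by
    unfold tEn
    refine Finset.sum_nonneg fun e _ => ?_
    split_ifs
    · positivity
    · exact le_rfl
  positivity

theorem FL1_Z_le {N M : ℕ} [NeZero N] {μ : ℝ} (hμ : 0 < μ) (hM : 1 ≤ M) (hMN : M ∣ N)
    (hN : 1000 * M ≤ N) {o : Tor N d × Fin d → Bool} (ho : GoodT M o) (e : Tor N d × Fin d)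
    (i : Fin d) : Zf tsrc ttgt μ o (xi i) e ^ 2 ≤ 3 * (1 + 2 * (2 * d * (12 * M + 1) ^ d) ^ 2 +
      (if Giant M o (tsrc e) then phi μ o i (tsrc e) ^ 2 else 0) +
      if Giant M o (ttgt e) then phi μ o i (ttgt e) ^ 2 else 0) := by
  have hv : ∀ v : Tor N d, phi μ o i v ^ 2 ≤ (2 * d * (12 * M + 1) ^ d) ^ 2 +
      if Giant M o v then phi μ o i v ^ 2 else 0 := by
    intro v
    split_ifs with h
    · have : (0 : ℝ) ≤ (2 * d * (12 * M + 1) ^ d) ^ 2 := by positivity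
      linarith
    · rw [add_zero, ← sq_abs]
      exact pow_le_pow_left₀ (abs_nonneg _) (FL1_phi_le hμ hM hMN hN ho i v h) 2
  have h1 : Zf tsrc ttgt μ o (xi i) e = xi i e + (phi μ o i (ttgt e) - phi μ o i (tsrc e)) := rfl
  have h2 : xi i e ^ 2 ≤ 1 := by
    unfold xi
    split_ifs <;> simp
  have h3 := hv (tsrc e)
  have h4 := hv (ttgt e)
  rw [h1]
  nlinarith [sq_nonneg (xi i e - phi μ o i (ttgt e)), sq_nonneg (xi i e + phi μ o i (tsrc e)),
    sq_nonneg (phi μ o i (ttgt e) + phi μ o i (tsrc e))]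

theorem FL1_alg (D k s T : ℝ) (hD : 0 < D) (hs : 0 < s) :
    2 * k ^ 2 / D + 2 * (1 / s ^ 2) ^ 2 * k ^ 2 * (T * s) =
      2 * k ^ 2 * (1 / D + T * (1 / s ^ 3)) := by
  field_simp

theorem phi_flip (d : ℕ) (hd : 3 ≤ d) : ∃ C : ℕ, ∀ A : ℕ, 2 ≤ A → ∃ CA : ℝ, ∀ {N M : ℕ} [NeZero N],
    1 ≤ M → N = 16 * M ^ A → 1000 * M ≤ N → ∀ {o : Tor N d × Fin d → Bool}, GoodS M o →
      ∀ (e : Tor N d × Fin d) (i : Fin d) (R : ℕ), 1 ≤ R → R ≤ N →
        ∑ x, (avg R (phi (1 / ((M : ℝ) ^ A) ^ 2) (up o e) i) x -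
          avg R (phi (1 / ((M : ℝ) ^ A) ^ 2) (dn o e) i) x) ^ 2 ≤
        CA * (M : ℝ) ^ C * ((M : ℝ) ^ A *
            Zf tsrc ttgt (1 / ((M : ℝ) ^ A) ^ 2) (up o e) (xi i) e ^ 2 + 1 +
          (1 / (R : ℝ) ^ d + 1 / ((M : ℝ) ^ A) ^ 3) *
          ((if Giant M (dn o e) (tsrc e) then
              phi (1 / ((M : ℝ) ^ A) ^ 2) (dn o e) i (tsrc e) ^ 2 else 0) +
            if Giant M (dn o e) (ttgt e) then
              phi (1 / ((M : ℝ) ^ A) ^ 2) (dn o e) i (ttgt e) ^ 2 else 0)) := by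
  obtain ⟨C1, h1⟩ := dipole_l2 d hd
  obtain ⟨C2, h2⟩ := local_path d (by omega)
  obtain ⟨C3, h3⟩ := nash_torus d (by omega)
  obtain ⟨C4, h4⟩ := green_bounds d hd
  refine ⟨2 * C2 + C1 + (4 * d + C3 * C4), fun A hA => ?_⟩
  obtain ⟨K1, h1⟩ := h1 A hA
  obtain ⟨K2, hK2⟩ : ∃ K2 : ℝ, K2 = 2 * (6 * (1 + 8 * (d : ℝ) ^ 2 * 13 ^ (2 * d)) * 13 ^ (2 * d) *
    (1 + C4 * ((C3 : ℝ) + 1) ^ C4)) := ⟨_, rfl⟩
  have hK20 : 0 ≤ K2 := by rw [hK2]; positivity
  refine ⟨((C2 : ℝ) + 1) ^ 2 * |K1| + K2, fun {N M} _ hM hN hMN {o} ho e i R hR hRN => ?_⟩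
  have hM1 : (1 : ℝ) ≤ M := by exact_mod_cast hM
  have hdvd : M ∣ N := by
    rw [hN]
    exact Dvd.dvd.mul_left (dvd_pow_self M (by omega)) 16
  have hs4 : 4 ≤ M ^ A := by omega
  obtain ⟨s, hs⟩ : ∃ s : ℝ, s = (M : ℝ) ^ A := ⟨_, rfl⟩
  have hs1 : 1 ≤ s := by rw [hs]; exact one_le_pow₀ hM1
  have hs0 : 0 < s := by linarith
  have hμ : 0 < 1 / s ^ 2 := by positivity
  have hup : up o e e = true := by simp [up]
  have hgu : GoodT M (up o e) := (ho.2 e).1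
  have hgd : GoodT M (dn o e) := (ho.2 e).2
  have hdu : ∀ e', dn o e e' = true → up o e e' = true := by
    intro e' h
    unfold dn at h
    unfold up
    by_cases h' : e' = e
    · subst h'; simp
    · rw [Function.update_of_ne h'] at h ⊢
      exact h
  rw [← hs, FL1_sum hμ]
  have hZ0 := FL1_Z_le hμ hM hdvd hMN hgd e i
  obtain ⟨ga, hga⟩ : ∃ t, t = (if Giant M (dn o e) (tsrc e) then
    phi (1 / s ^ 2) (dn o e) i (tsrc e) ^ 2 else 0) := ⟨_, rfl⟩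
  obtain ⟨gb, hgb⟩ : ∃ t, t = (if Giant M (dn o e) (ttgt e) then
    phi (1 / s ^ 2) (dn o e) i (ttgt e) ^ 2 else 0) := ⟨_, rfl⟩
  have hga0 : 0 ≤ ga := by
    rw [hga]
    split_ifs
    · positivity
    · exact le_rfl
  have hgb0 : 0 ≤ gb := by
    rw [hgb]
    split_ifs
    · positivity
    · exact le_rfl
  rw [← hga, ← hgb] at hZ0 ⊢
  obtain ⟨Z0, hZ0d⟩ : ∃ t, t = Zf tsrc ttgt (1 / s ^ 2) (dn o e) (xi i) e := ⟨_, rfl⟩
  obtain ⟨Z1, hZ1d⟩ : ∃ t, t = Zf tsrc ttgt (1 / s ^ 2) (up o e) (xi i) e := ⟨_, rfl⟩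
  obtain ⟨r, hrd⟩ : ∃ r : ℝ, r = 1 / (R : ℝ) ^ d + 1 / s ^ 3 := ⟨_, rfl⟩
  have hR1 : (1 : ℝ) ≤ (R : ℝ) ^ d := one_le_pow₀ (by exact_mod_cast hR)
  have hr0 : 0 ≤ r := by rw [hrd]; positivity
  have hr2 : r ≤ 2 := by
    have h5 : 1 / (R : ℝ) ^ d ≤ 1 := by rw [div_le_one (by linarith)]; exact hR1
    have h6 : 1 / s ^ 3 ≤ 1 := by
      rw [div_le_one (by positivity)]
      exact one_le_pow₀ hs1
    rw [hrd]
    linarith
  rw [← hZ0d] at hZ0 ⊢
  rw [← hZ1d, ← hrd]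
  have hX0 : 0 ≤ s * Z1 ^ 2 := by positivity
  have hX1 : 0 ≤ r * (ga + gb) := by positivity
  by_cases hr : Rch tsrc ttgt (dn o e) (tsrc e) (ttgt e)
  · -- the ends are joined without `e`
    have hp := h2 hM hdvd hMN hgd e hr
    have hz := flip_ratio tsrc ttgt o hμ e (xi i) (C2 * M ^ C2) hp
    rw [← hZ0d, ← hZ1d] at hz
    have hdp := h1 hM hN hMN hgu e hup
    rw [← hs] at hdp
    have hdp2 := (FL1_dipole hμ hR (up o e) e).trans hdp
    have hz2 : Z0 ^ 2 ≤ (((C2 : ℝ) + 1) * (M : ℝ) ^ C2) ^ 2 * Z1 ^ 2 := by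
      have h5 : ((C2 * M ^ C2 : ℕ) : ℝ) + 1 ≤ ((C2 : ℝ) + 1) * (M : ℝ) ^ C2 := by
        push_cast
        have : (1 : ℝ) ≤ (M : ℝ) ^ C2 := one_le_pow₀ hM1
        linarith
      have h6 : |Z0| ≤ ((C2 : ℝ) + 1) * (M : ℝ) ^ C2 * |Z1| :=
        hz.trans (mul_le_mul_of_nonneg_right h5 (abs_nonneg _))
      rw [← sq_abs Z0, ← sq_abs Z1, ← mul_pow]
      exact pow_le_pow_left₀ (abs_nonneg _) h6 2
    calc Z0 ^ 2 * _ ≤ ((((C2 : ℝ) + 1) * (M : ℝ) ^ C2) ^ 2 * Z1 ^ 2) *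
          (|K1| * (M : ℝ) ^ C1 * s) := by
          refine mul_le_mul hz2 (hdp2.trans ?_) (Finset.sum_nonneg fun x _ => by positivity)
            (by positivity)
          gcongr
          exact le_abs_self K1
      _ = ((C2 : ℝ) + 1) ^ 2 * |K1| * (M : ℝ) ^ (2 * C2 + C1) * (s * Z1 ^ 2) := by
          rw [pow_add, mul_comm 2 C2, pow_mul]
          ring
      _ ≤ (((C2 : ℝ) + 1) ^ 2 * |K1| + K2) * (M : ℝ) ^ (2 * C2 + C1 + (4 * d + C3 * C4)) *
          (s * Z1 ^ 2 + 1 + r * (ga + gb)) := by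
          have h5 : (M : ℝ) ^ (2 * C2 + C1) ≤ (M : ℝ) ^ (2 * C2 + C1 + (4 * d + C3 * C4)) :=
            pow_le_pow_right₀ hM1 (by omega)
          have h6 : 0 ≤ ((C2 : ℝ) + 1) ^ 2 * |K1| := by positivity
          refine mul_le_mul (mul_le_mul (by linarith) h5 (by positivity) (by positivity))
            (by linarith) hX0 (by positivity)
  · -- one end has a small component
    obtain ⟨c, hc, hcn⟩ : ∃ c, (c = tsrc e ∨ c = ttgt e) ∧ ¬ Giant M (dn o e) c := by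
      by_contra hcon
      push Not at hcon
      exact hr (giant_rch (by omega) hM hdvd hMN hgd (hcon _ (Or.inl rfl)) (hcon _ (Or.inr rfl)))
    obtain ⟨K, hcK, hcard, hcl, hconn, -, -, -⟩ := small_component hM hdvd hMN hgd c hcn
    have he : ¬ (tsrc e ∈ K ↔ ttgt e ∈ K) := by
      intro hiff
      have h5 : tsrc e ∈ K ∧ ttgt e ∈ K := by
        rcases hc with rfl | rfl
        · exact ⟨hcK, hiff.1 hcK⟩
        · exact ⟨hiff.2 hcK, hcK⟩
      exact hr ⟨K.card, hconn _ h5.1 _ h5.2⟩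
    obtain ⟨W, hW⟩ : ∃ W : ℝ, W = 13 ^ d * (M : ℝ) ^ d := ⟨_, rfl⟩
    have hW1 : ((12 : ℝ) * M + 1) ^ d ≤ W := by
      rw [hW, ← mul_pow]
      gcongr
      linarith
    have hW0 : 0 ≤ W := by rw [hW]; positivity
    have hKW : (K.card : ℝ) ≤ W := le_trans (by exact_mod_cast hcard) hW1
    obtain ⟨T0, hT0⟩ : ∃ T0 : ℝ, T0 = C4 * (((C3 : ℝ) + 1) * (M : ℝ) ^ C3) ^ C4 := ⟨_, rfl⟩
    have hT00 : 0 ≤ T0 := by rw [hT0]; positivity
    have hB : (1 : ℝ) + 2 * (2 * d * (12 * M + 1) ^ d) ^ 2 ≤ 1 + 8 * (d : ℝ) ^ 2 * W ^ 2 := by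
      have h5 : (2 * (d : ℝ) * (12 * M + 1) ^ d) ^ 2 ≤ (2 * (d : ℝ) * W) ^ 2 := by gcongr
      nlinarith
    -- the final constant
    have hQ : 12 * (1 + 8 * (d : ℝ) ^ 2 * W ^ 2) * W ^ 2 * (1 + T0) ≤
        K2 * (M : ℝ) ^ (4 * d + C3 * C4) := by
      have hW2 : W ^ 2 = 13 ^ (2 * d) * (M : ℝ) ^ (2 * d) := by
        rw [hW, mul_pow, ← pow_mul, ← pow_mul, mul_comm d 2]
      have hMd : (1 : ℝ) ≤ (M : ℝ) ^ (2 * d) := one_le_pow₀ hM1
      have hMC : (1 : ℝ) ≤ (M : ℝ) ^ (C3 * C4) := one_le_pow₀ hM1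
      have h5 : 1 + 8 * (d : ℝ) ^ 2 * W ^ 2 ≤
          (1 + 8 * (d : ℝ) ^ 2 * 13 ^ (2 * d)) * (M : ℝ) ^ (2 * d) := by
        rw [hW2]
        nlinarith
      have h6 : 1 + T0 ≤ (1 + C4 * ((C3 : ℝ) + 1) ^ C4) * (M : ℝ) ^ (C3 * C4) := by
        rw [hT0, mul_pow, ← pow_mul]
        nlinarith
      calc 12 * (1 + 8 * (d : ℝ) ^ 2 * W ^ 2) * W ^ 2 * (1 + T0)
          ≤ 12 * ((1 + 8 * (d : ℝ) ^ 2 * 13 ^ (2 * d)) * (M : ℝ) ^ (2 * d)) * W ^ 2 *
            ((1 + C4 * ((C3 : ℝ) + 1) ^ C4) * (M : ℝ) ^ (C3 * C4)) := by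
            gcongr
        _ = K2 * (M : ℝ) ^ (4 * d + C3 * C4) := by
            rw [hW2, hK2, pow_add, show 4 * d = 2 * d + 2 * d by ring, pow_add (M : ℝ)]
            ring
    have hfin : K2 * (M : ℝ) ^ (4 * d + C3 * C4) * (1 + r * (ga + gb)) ≤
        (((C2 : ℝ) + 1) ^ 2 * |K1| + K2) * (M : ℝ) ^ (2 * C2 + C1 + (4 * d + C3 * C4)) *
          (s * Z1 ^ 2 + 1 + r * (ga + gb)) := by
      have h5 : (M : ℝ) ^ (4 * d + C3 * C4) ≤ (M : ℝ) ^ (2 * C2 + C1 + (4 * d + C3 * C4)) :=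
        pow_le_pow_right₀ hM1 (by omega)
      have h6 : 0 ≤ ((C2 : ℝ) + 1) ^ 2 * |K1| := by positivity
      refine mul_le_mul (mul_le_mul (by linarith) h5 (by positivity) (by positivity))
        (by linarith) (by positivity) (by positivity)
    refine le_trans ?_ hfin
    by_cases hgi : Giant M (up o e) (tsrc e)
    · -- the edge is giant in `up o e`
      have hgc : Giant M (up o e) c := by
        rcases hc with rfl | rfl
        · exact hgi
        · exact (giant_edge hM hdvd hMN hgu hup).1 hgi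
      have hT : ∀ k ∈ K, ∑ y, sol tsrc ttgt (1 / s ^ 2) (up o e) (Pi.single k 1) y ^ 2 ≤
          T0 * s := by
        intro k hk
        have hgk : Giant M (up o e) k :=
          (FL1_path' hM hdvd hMN hgu hdu (hconn c hcK k hk)).1 hgc
        have hL1 : (1 : ℝ) ≤ ((C3 : ℝ) + 1) * (M : ℝ) ^ C3 := by
          have : (1 : ℝ) ≤ (M : ℝ) ^ C3 := one_le_pow₀ hM1
          have h7 : (0 : ℝ) ≤ C3 := Nat.cast_nonneg _
          nlinarith
        have hN' : Nash (up o e) {x | Giant M (up o e) x} (((C3 : ℝ) + 1) * (M : ℝ) ^ C3) := by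
          refine FL1_nash_mono (h3 hM hdvd hMN hgu) ?_
          gcongr
          linarith
        have h7 := (h4 (N := N) (s := M ^ A) hN hs4 hL1 hN'
          (fun e' he' => giant_edge hM hdvd hMN hgu he') k hgk).1
        push_cast at h7
        rw [← hs] at h7
        rw [hT0]
        exact h7
      have hgr := FL1_small hμ hR hRN o e K hcl he (T0 * s) hT
      have hgr2 : 2 * (K.card : ℝ) ^ 2 / (R : ℝ) ^ d + 2 * (1 / s ^ 2) ^ 2 * (K.card : ℝ) ^ 2 *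
          (T0 * s) ≤ 2 * W ^ 2 * (1 + T0) * r := by
        have h7 : 2 * (K.card : ℝ) ^ 2 / (R : ℝ) ^ d + 2 * (1 / s ^ 2) ^ 2 * (K.card : ℝ) ^ 2 *
          (T0 * s) = 2 * (K.card : ℝ) ^ 2 * (1 / (R : ℝ) ^ d + T0 * (1 / s ^ 3)) :=
          FL1_alg _ _ s T0 (by linarith) hs0
        rw [h7]
        have h8 : 1 / (R : ℝ) ^ d + T0 * (1 / s ^ 3) ≤ (1 + T0) * r := by
          rw [hrd]
          have h9 : 0 ≤ 1 / (R : ℝ) ^ d := by positivity
          have h10 : 0 ≤ 1 / s ^ 3 := by positivity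
          nlinarith
        calc 2 * (K.card : ℝ) ^ 2 * (1 / (R : ℝ) ^ d + T0 * (1 / s ^ 3))
            ≤ 2 * W ^ 2 * ((1 + T0) * r) := by gcongr
          _ = _ := by ring
      calc Z0 ^ 2 * _ ≤ (3 * ((1 + 8 * (d : ℝ) ^ 2 * W ^ 2) * (1 + (ga + gb)))) *
            (2 * W ^ 2 * (1 + T0) * r) := by
            refine mul_le_mul (hZ0.trans ?_) (hgr.trans hgr2)
              (Finset.sum_nonneg fun x _ => by positivity) (by positivity)
            have h7 : (0 : ℝ) ≤ 8 * (d : ℝ) ^ 2 * W ^ 2 := by positivity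
            nlinarith
        _ = (6 * (1 + 8 * (d : ℝ) ^ 2 * W ^ 2) * W ^ 2 * (1 + T0)) * (r + r * (ga + gb)) := by
            ring
        _ ≤ (6 * (1 + 8 * (d : ℝ) ^ 2 * W ^ 2) * W ^ 2 * (1 + T0)) *
            (2 * (1 + r * (ga + gb))) := by
            refine mul_le_mul_of_nonneg_left ?_ (by positivity)
            linarith
        _ = (12 * (1 + 8 * (d : ℝ) ^ 2 * W ^ 2) * W ^ 2 * (1 + T0)) * (1 + r * (ga + gb)) := by
            ring
        _ ≤ _ := mul_le_mul_of_nonneg_right hQ (by positivity)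
    · -- the edge is small in `up o e`
      have hgb' : ¬ Giant M (up o e) (ttgt e) := fun h =>
        hgi ((giant_edge hM hdvd hMN hgu hup).2 h)
      have ha0 : ga = 0 := by
        rw [hga, if_neg (fun h => hgi (FL1_mono hdu h))]
      have hb0 : gb = 0 := by
        rw [hgb, if_neg (fun h => hgb' (FL1_mono hdu h))]
      have hgr := FL1_small hμ hR hRN o e K hcl he (1 / (1 / s ^ 2) ^ 2)
        (fun k _ => FL1_green_triv hμ (up o e) k)
      have hgr2 : 2 * (K.card : ℝ) ^ 2 / (R : ℝ) ^ d + 2 * (1 / s ^ 2) ^ 2 * (K.card : ℝ) ^ 2 *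
          (1 / (1 / s ^ 2) ^ 2) ≤ 4 * W ^ 2 := by
        have h7 : 2 * (1 / s ^ 2) ^ 2 * (K.card : ℝ) ^ 2 * (1 / (1 / s ^ 2) ^ 2) =
            2 * (K.card : ℝ) ^ 2 := by
          field_simp
        have h8 : 2 * (K.card : ℝ) ^ 2 / (R : ℝ) ^ d ≤ 2 * (K.card : ℝ) ^ 2 := by
          rw [div_le_iff₀ (by linarith)]
          nlinarith [sq_nonneg (K.card : ℝ)]
        rw [h7]
        have h9 : (K.card : ℝ) ^ 2 ≤ W ^ 2 := by gcongr
        linarith
      rw [ha0, hb0] at hZ0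
      calc Z0 ^ 2 * _ ≤ (3 * (1 + 8 * (d : ℝ) ^ 2 * W ^ 2)) * (4 * W ^ 2) := by
            refine mul_le_mul (hZ0.trans ?_) (hgr.trans hgr2)
              (Finset.sum_nonneg fun x _ => by positivity) (by positivity)
            linarith
        _ = 12 * (1 + 8 * (d : ℝ) ^ 2 * W ^ 2) * W ^ 2 * 1 := by ring
        _ ≤ 12 * (1 + 8 * (d : ℝ) ^ 2 * W ^ 2) * W ^ 2 * (1 + T0) := by
            gcongr
            linarith
        _ ≤ K2 * (M : ℝ) ^ (4 * d + C3 * C4) * 1 := by rw [mul_one]; exact hQ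
        _ ≤ _ := by
            gcongr
            linarith

end Pool.Agent.Lib.MP_566bac_pr.Hd
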