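import Pool.Agent.Lib.MP_566bac_pr.Hd.EX1

/-!
# EX2: Efron-Stein inequality
-/

open Finset MeasureTheory ProbabilityTheory Filter
open scoped Classical

namespace Pool.Agent.Lib.MP_566bac_pr.Hd

section EX2
variable {ι : Type*} [Fintype ι]

namespace EX2

/-- average over one coordinate -/
noncomputable def av (p : ℝ) (e : ι) (f : (ι → Bool) → ℝ) (ω : ι → Bool) : ℝ :=
  p * f (up ω e) + (1 - p) * f (dn ω e)

theorem Ex_add (p : ℝ) (f g : (ι → Bool) → ℝ) : Ex p (fun ω => f ω + g ω) = Ex p f + Ex p g := by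
  unfold Ex
  rw [← Finset.sum_add_distrib]
  exact Finset.sum_congr rfl fun ω _ => mul_add _ _ _

theorem Ex_smul (p c : ℝ) (f : (ι → Bool) → ℝ) : Ex p (fun ω => c * f ω) = c * Ex p f := by
  unfold Ex
  rw [Finset.mul_sum]
  exact Finset.sum_congr rfl fun ω _ => by ring

theorem Ex_const (p c : ℝ) : Ex p (fun _ : ι → Bool => c) = c := by
  unfold Ex
  rw [← Finset.sum_mul, wt_sum, one_mul]

theorem Ex_av (p : ℝ) (e : ι) (f : (ι → Bool) → ℝ) : Ex p (av p e f) = Ex p f := by
  unfold av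
  rw [Ex_add p (fun ω => p * f (up ω e)) (fun ω => (1 - p) * f (dn ω e)),
    Ex_smul p p (fun ω => f (up ω e)), Ex_smul p (1 - p) (fun ω => f (dn ω e)),
    Ex_up, Ex_dn, ← Ex_add]
  congr 1
  funext ω
  split_ifs <;> simp

theorem up_up (ω : ι → Bool) (e : ι) (b : Bool) : up (Function.update ω e b) e = up ω e := by
  unfold up
  rw [Function.update_idem]

theorem dn_up (ω : ι → Bool) (e : ι) (b : Bool) : dn (Function.update ω e b) e = dn ω e := by
  unfold dn
  rw [Function.update_idem]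

theorem up_comm (ω : ι → Bool) {e e' : ι} (h : e ≠ e') (b : Bool) :
    up (Function.update ω e' b) e = Function.update (up ω e) e' b := by
  unfold up
  rw [Function.update_comm h.symm]

theorem dn_comm (ω : ι → Bool) {e e' : ι} (h : e ≠ e') (b : Bool) :
    dn (Function.update ω e' b) e = Function.update (dn ω e) e' b := by
  unfold dn
  rw [Function.update_comm h.symm]

theorem av_indep (p : ℝ) (e : ι) (f : (ι → Bool) → ℝ) (ω : ι → Bool) (b : Bool) :
    av p e f (Function.update ω e b) = av p e f ω := by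
  unfold av
  rw [up_up, dn_up]

theorem Ex_sq (p : ℝ) (e : ι) (f : (ι → Bool) → ℝ) :
    Ex p (fun ω => f ω ^ 2) = Ex p (fun ω => av p e f ω ^ 2) +
      p * (1 - p) * Ex p (fun ω => (f (up ω e) - f (dn ω e)) ^ 2) := by
  rw [← Ex_av p e (fun ω => f ω ^ 2), ← Ex_smul, ← Ex_add]
  congr 1
  funext ω
  unfold av
  ring

theorem D_le {p : ℝ} (h0 : 0 ≤ p) (h1 : p ≤ 1) {e e' : ι} (h : e ≠ e') (f : (ι → Bool) → ℝ) :
    Ex p (fun ω => (av p e f (up ω e') - av p e f (dn ω e')) ^ 2) ≤
      Ex p (fun ω => (f (up ω e') - f (dn ω e')) ^ 2) := by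
  rw [← Ex_av p e (fun ω => (f (up ω e') - f (dn ω e')) ^ 2)]
  refine Ex_mono h0 h1 fun ω => ?_
  unfold av
  have a1 : up (up ω e') e = up (up ω e) e' := up_comm ω h true
  have a2 : up (dn ω e') e = dn (up ω e) e' := up_comm ω h false
  have a3 : dn (up ω e') e = up (dn ω e) e' := dn_comm ω h true
  have a4 : dn (dn ω e') e = dn (dn ω e) e' := dn_comm ω h false
  rw [a1, a2, a3, a4]
  have h2 : 0 ≤ 1 - p := by linarith
  have h3 : 0 ≤ p * (1 - p) * ((f (up (up ω e) e') - f (dn (up ω e) e')) -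
      (f (up (dn ω e) e') - f (dn (dn ω e) e'))) ^ 2 :=
    mul_nonneg (mul_nonneg h0 h2) (sq_nonneg _)
  nlinarith [h3]

theorem main {p : ℝ} (h0 : 0 ≤ p) (h1 : p ≤ 1) (T : Finset ι) : ∀ f : (ι → Bool) → ℝ,
    ∃ g : (ι → Bool) → ℝ, (∀ e ∈ T, ∀ ω b, g (Function.update ω e b) = g ω) ∧
      (∀ e, (∀ ω b, f (Function.update ω e b) = f ω) → ∀ ω b, g (Function.update ω e b) = g ω) ∧
      Ex p g = Ex p f ∧ Ex p (fun ω => f ω ^ 2) - Ex p (fun ω => g ω ^ 2) ≤
        ∑ e ∈ T, p * (1 - p) * Ex p (fun ω => (f (up ω e) - f (dn ω e)) ^ 2) := by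
  induction T using Finset.induction_on with
  | empty =>
    intro f
    refine ⟨f, ?_, fun e h => h, rfl, ?_⟩
    · intro e he
      simp at he
    · simp
  | insert e T he ih =>
    intro f
    obtain ⟨g, g1, g2, g3, g4⟩ := ih (av p e f)
    refine ⟨g, ?_, ?_, ?_, ?_⟩
    · intro e' he'
      rw [mem_insert] at he'
      rcases he' with rfl | he'
      · exact g2 _ fun ω b => av_indep p _ f ω b
      · exact g1 e' he'
    · intro e' hf
      refine g2 e' fun ω b => ?_
      by_cases hee : e = e'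
      · subst hee
        exact av_indep p _ f ω b
      · unfold av
        rw [up_comm ω hee, dn_comm ω hee, hf, hf]
    · rw [g3, Ex_av]
    · rw [Finset.sum_insert he, Ex_sq p e f]
      have h2 : ∑ e' ∈ T, p * (1 - p) *
          Ex p (fun ω => (av p e f (up ω e') - av p e f (dn ω e')) ^ 2) ≤
          ∑ e' ∈ T, p * (1 - p) * Ex p (fun ω => (f (up ω e') - f (dn ω e')) ^ 2) := by
        refine Finset.sum_le_sum fun e' he' => ?_
        have hee : e ≠ e' := fun h => he (h ▸ he')
        exact mul_le_mul_of_nonneg_left (D_le h0 h1 hee f) (mul_nonneg h0 (by linarith))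
      linarith

theorem const_of_indep (g : (ι → Bool) → ℝ) (h : ∀ e : ι, ∀ ω b, g (Function.update ω e b) = g ω)
    (ω ω' : ι → Bool) : g ω = g ω' := by
  have key : ∀ S : Finset ι, g (fun i => if i ∈ S then ω' i else ω i) = g ω := by
    intro S
    induction S using Finset.induction_on with
    | empty => simp
    | insert a S ha ih =>
      rw [← ih]
      have : (fun i => if i ∈ insert a S then ω' i else ω i) =
          Function.update (fun i => if i ∈ S then ω' i else ω i) a (ω' a) := by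
        funext i
        by_cases hi : i = a
        · subst hi
          simp
        · rw [Function.update_of_ne hi]
          simp [hi]
      rw [this, h]
  have := key univ
  simp only [mem_univ, if_true] at this
  exact this.symm

end EX2

open EX2

/-! ### EX2 -/
theorem efron_stein {p : ℝ} (h0 : 0 ≤ p) (h1 : p ≤ 1) (f : (ι → Bool) → ℝ) :
    Ex p (fun ω => (f ω - Ex p f) ^ 2) ≤
      ∑ e, p * (1 - p) * Ex p (fun ω => (f (up ω e) - f (dn ω e)) ^ 2) := by
  obtain ⟨g, g1, _, g3, g4⟩ := EX2.main h0 h1 univ f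
  have hc := const_of_indep g fun e => g1 e (mem_univ e)
  have hg : ∀ ω, g ω = Ex p f := by
    intro ω
    rw [← g3]
    have h2 : g = fun _ => g ω := funext fun ω' => hc ω' ω
    conv_rhs => rw [h2]
    rw [Ex_const]
  have h2 : Ex p (fun ω => g ω ^ 2) = (Ex p f) ^ 2 := by
    simp_rw [hg]
    exact Ex_const _ _
  rw [h2] at g4
  refine le_trans (le_of_eq ?_) g4
  have h3 : (fun ω => (f ω - Ex p f) ^ 2) =
      fun ω => f ω ^ 2 + ((-2 * Ex p f) * f ω + (Ex p f) ^ 2) := by
    funext ω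
    ring
  rw [h3, Ex_add p (fun ω => f ω ^ 2) (fun ω => (-2 * Ex p f) * f ω + (Ex p f) ^ 2),
    Ex_add p (fun ω => (-2 * Ex p f) * f ω) (fun _ => (Ex p f) ^ 2), Ex_smul, Ex_const]
  ring

end EX2

end Pool.Agent.Lib.MP_566bac_pr.Hd
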