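import Pool.Agent.Lib.MP_566bac_pr.Hd.DefsB
import Pool.Agent.Lib.MP_566bac_pr.Hd.EX2
import Pool.Agent.Lib.MP_566bac_pr.Hd.OP1

/-!
# VG: Efron-Stein for averages in good environments
-/

open Finset MeasureTheory ProbabilityTheory Filter
open scoped Classical

namespace Pool.Agent.Lib.MP_566bac_pr.Hd

variable {d : ℕ}

namespace VG

variable {ι : Type*} [Fintype ι]

theorem Ex_sum' {κ : Type*} (p : ℝ) (s : Finset κ) (f : κ → (ι → Bool) → ℝ) :
    Ex p (fun ω => ∑ k ∈ s, f k ω) = ∑ k ∈ s, Ex p (f k) := by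
  unfold Ex
  rw [Finset.sum_comm]
  exact Finset.sum_congr rfl fun ω _ => Finset.mul_sum _ _ _

theorem Ex_nonneg {p : ℝ} (h0 : 0 ≤ p) (h1 : p ≤ 1) {f : (ι → Bool) → ℝ} (h : ∀ ω, 0 ≤ f ω) :
    0 ≤ Ex p f := by
  have h2 := Ex_mono h0 h1 h
  rwa [EX2.Ex_const] at h2

theorem Ex_le_const {p : ℝ} (h0 : 0 ≤ p) (h1 : p ≤ 1) {f : (ι → Bool) → ℝ} {c : ℝ}
    (h : ∀ ω, f ω ≤ c) : Ex p f ≤ c := by
  have h2 := Ex_mono h0 h1 h
  rwa [EX2.Ex_const] at h2

theorem efron_stein' [hdec : DecidableEq ι] {p : ℝ} (h0 : 0 ≤ p) (h1 : p ≤ 1) (f : (ι → Bool) → ℝ) :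
    Ex p (fun ω => (f ω - Ex p f) ^ 2) ≤
      ∑ e, p * (1 - p) * Ex p (fun ω => (f (up ω e) - f (dn ω e)) ^ 2) := by
  have hi : hdec = fun a b => Classical.propDecidable (a = b) := Subsingleton.elim _ _
  subst hi
  exact efron_stein h0 h1 f

theorem Ex_up' [hdec : DecidableEq ι] (p : ℝ) (e : ι) (f : (ι → Bool) → ℝ) :
    p * Ex p (fun ω => f (up ω e)) = Ex p (fun ω => if ω e then f ω else 0) := by
  have hi : hdec = fun a b => Classical.propDecidable (a = b) := Subsingleton.elim _ _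
  subst hi
  exact Ex_up p e f

theorem Ex_dn' [hdec : DecidableEq ι] (p : ℝ) (e : ι) (f : (ι → Bool) → ℝ) :
    (1 - p) * Ex p (fun ω => f (dn ω e)) = Ex p (fun ω => if ω e then 0 else f ω) := by
  have hi : hdec = fun a b => Classical.propDecidable (a = b) := Subsingleton.elim _ _
  subst hi
  exact Ex_dn p e f

theorem card_tor (N d : ℕ) [NeZero N] : (Fintype.card (Tor N d) : ℝ) = (N : ℝ) ^ d := by
  have h : Fintype.card (Tor N d) = N ^ d := by
    rw [Fintype.card_pi_const, ZMod.card]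
  rw [h]
  push_cast
  rfl

theorem card_edges (N d : ℕ) [NeZero N] :
    (Fintype.card (Tor N d × Fin d) : ℝ) = d * (N : ℝ) ^ d := by
  rw [Fintype.card_prod, Fintype.card_fin]
  push_cast
  rw [card_tor, mul_comm]

theorem sum_xi {N : ℕ} [NeZero N] (i : Fin d) :
    ∑ e : Tor N d × Fin d, xi i e ^ 2 = (N : ℝ) ^ d := by
  rw [Fintype.sum_prod_type]
  have h : ∀ x : Tor N d, ∑ j : Fin d, xi i (x, j) ^ 2 = 1 := by
    intro x
    unfold xi
    simp
  rw [Finset.sum_congr rfl fun x _ => h x, Finset.sum_const, nsmul_eq_mul, mul_one]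
  exact card_tor N d

theorem sum_ends {N : ℕ} [NeZero N] (g : Tor N d → ℝ) :
    ∑ e : Tor N d × Fin d, (g (tsrc e) + g (ttgt e)) = 2 * d * ∑ x, g x := by
  rw [Finset.sum_add_distrib, Fintype.sum_prod_type_right, Fintype.sum_prod_type_right]
  have h : ∀ j : Fin d, ∑ x : Tor N d, g (ttgt (x, j)) = ∑ x, g x := by
    intro j
    exact Fintype.sum_equiv (Equiv.addRight (tev j)) _ _ fun x => rfl
  rw [Finset.sum_congr rfl fun j _ => h j]
  have h' : ∀ j : Fin d, ∑ x : Tor N d, g (tsrc (x, j)) = ∑ x, g x := fun j => rfl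
  rw [Finset.sum_congr rfl fun j _ => h' j, Finset.sum_const, Finset.card_univ, Fintype.card_fin,
    nsmul_eq_mul]
  ring

end VG

open VG EX2

theorem var_good {N M : ℕ} [NeZero N] {p : ℝ} (hp : 0 < p) (hp1 : p < 1) {μ : ℝ} (hμ : 0 < μ)
    (i : Fin d) (F : (Tor N d × Fin d → Bool) → Tor N d → ℝ) {α β γ K₀ : ℝ} (hα : 0 ≤ α)
    (hβ : 0 ≤ β) (hγ : 0 ≤ γ) (hK : ∀ o x, |F o x| ≤ K₀)
    (h : ∀ o, GoodS M o → ∀ e, ∑ x, (F (up o e) x - F (dn o e) x) ^ 2 ≤
      α * Zf tsrc ttgt μ (up o e) (xi i) e ^ 2 + β + γ *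
        ((if Giant M (dn o e) (tsrc e) then phi μ (dn o e) i (tsrc e) ^ 2 else 0) +
          if Giant M (dn o e) (ttgt e) then phi μ (dn o e) i (ttgt e) ^ 2 else 0)) :
    ∑ x, Ex p (fun o => (F o x - Ex p (fun o' => F o' x)) ^ 2) ≤
      α * (N : ℝ) ^ d + β * (d * (N : ℝ) ^ d) +
      2 * d * γ * Ex p (fun o : Tor N d × Fin d → Bool => ∑ x, if Giant M o x then phi μ o i x ^ 2 else 0) +
      4 * K₀ ^ 2 * (d * (N : ℝ) ^ d) * (N : ℝ) ^ d *
        Ex p (fun o : Tor N d × Fin d → Bool => if GoodS M o then 0 else 1) := by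
  have h1 : ∀ x, Ex p (fun o => (F o x - Ex p (fun o' => F o' x)) ^ 2) ≤
      ∑ e, p * (1 - p) * Ex p (fun o => (F (up o e) x - F (dn o e) x) ^ 2) := fun x =>
    efron_stein' hp.le hp1.le (fun o => F o x)
  refine (Finset.sum_le_sum fun x _ => h1 x).trans ?_
  rw [Finset.sum_comm]
  have hq : 0 ≤ 1 - p := by linarith
  have hpq : 0 ≤ p * (1 - p) := mul_nonneg hp.le hq
  have hpp : p * (1 - p) ≤ p := by nlinarith
  have hqq : p * (1 - p) ≤ 1 - p := by nlinarith
  have hp11 : p * (1 - p) ≤ 1 := by linarith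
  set B := Ex p (fun o : Tor N d × Fin d → Bool => if GoodS M o then 0 else 1) with hB
  have hB0 : 0 ≤ B := by
    refine Ex_nonneg hp.le hp1.le fun o => ?_
    split_ifs <;> norm_num
  let Gg : (Tor N d × Fin d → Bool) → (Tor N d × Fin d) → ℝ := fun o e =>
    (if Giant M o (tsrc e) then phi μ o i (tsrc e) ^ 2 else 0) +
      if Giant M o (ttgt e) then phi μ o i (ttgt e) ^ 2 else 0
  have hG0 : ∀ o e, 0 ≤ Gg o e := by
    intro o e
    refine add_nonneg ?_ ?_
    · split_ifs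
      · exact sq_nonneg _
      · exact le_rfl
    · split_ifs
      · exact sq_nonneg _
      · exact le_rfl
  have h2 : ∀ e, ∑ x, p * (1 - p) * Ex p (fun o => (F (up o e) x - F (dn o e) x) ^ 2) ≤
      α * Ex p (fun o => if o e then Zf tsrc ttgt μ o (xi i) e ^ 2 else 0) + β +
        γ * Ex p (fun o => Gg o e) + 4 * K₀ ^ 2 * (N : ℝ) ^ d * B := by
    intro e
    rw [← Finset.mul_sum, ← Ex_sum' p univ fun x o => (F (up o e) x - F (dn o e) x) ^ 2]
    have h3 : Ex p (fun o => ∑ x, (F (up o e) x - F (dn o e) x) ^ 2) ≤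
        Ex p (fun o => (α * Zf tsrc ttgt μ (up o e) (xi i) e ^ 2 + β + γ * Gg (dn o e) e) +
          (4 * K₀ ^ 2 * (N : ℝ) ^ d) * (if GoodS M o then 0 else 1)) := by
      refine Ex_mono hp.le hp1.le fun o => ?_
      by_cases hg : GoodS M o
      · rw [if_pos hg, mul_zero, add_zero]
        exact h o hg e
      · rw [if_neg hg, mul_one]
        have h4 : ∑ x, (F (up o e) x - F (dn o e) x) ^ 2 ≤ ∑ _x : Tor N d, 4 * K₀ ^ 2 := by
          refine Finset.sum_le_sum fun x _ => ?_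
          have a1 := hK (up o e) x
          have a2 := hK (dn o e) x
          have a3 : |F (up o e) x - F (dn o e) x| ≤ 2 * K₀ :=
            (abs_sub _ _).trans (by linarith)
          calc (F (up o e) x - F (dn o e) x) ^ 2 = |F (up o e) x - F (dn o e) x| ^ 2 :=
                (sq_abs _).symm
            _ ≤ (2 * K₀) ^ 2 := pow_le_pow_left₀ (abs_nonneg _) a3 2
            _ = 4 * K₀ ^ 2 := by ring
        rw [Finset.sum_const, Finset.card_univ, nsmul_eq_mul, card_tor] at h4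
        have h5 : 0 ≤ α * Zf tsrc ttgt μ (up o e) (xi i) e ^ 2 + β + γ * Gg (dn o e) e :=
          add_nonneg (add_nonneg (mul_nonneg hα (sq_nonneg _)) hβ) (mul_nonneg hγ (hG0 _ _))
        linarith
    have h6 : Ex p (fun o => (α * Zf tsrc ttgt μ (up o e) (xi i) e ^ 2 + β + γ * Gg (dn o e) e) +
          (4 * K₀ ^ 2 * (N : ℝ) ^ d) * (if GoodS M o then 0 else 1)) =
        α * Ex p (fun o => Zf tsrc ttgt μ (up o e) (xi i) e ^ 2) + β +
          γ * Ex p (fun o => Gg (dn o e) e) + (4 * K₀ ^ 2 * (N : ℝ) ^ d) * B := by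
      rw [Ex_add p (fun o => α * Zf tsrc ttgt μ (up o e) (xi i) e ^ 2 + β + γ * Gg (dn o e) e)
        (fun o => (4 * K₀ ^ 2 * (N : ℝ) ^ d) * (if GoodS M o then 0 else 1)),
        Ex_add p (fun o => α * Zf tsrc ttgt μ (up o e) (xi i) e ^ 2 + β)
          (fun o => γ * Gg (dn o e) e),
        Ex_add p (fun o => α * Zf tsrc ttgt μ (up o e) (xi i) e ^ 2) (fun _ => β),
        Ex_const, Ex_smul p α (fun o => Zf tsrc ttgt μ (up o e) (xi i) e ^ 2),
        Ex_smul p γ (fun o => Gg (dn o e) e),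
        Ex_smul p (4 * K₀ ^ 2 * (N : ℝ) ^ d) (fun o => if GoodS M o then 0 else 1)]
    have h7 : p * Ex p (fun o => Zf tsrc ttgt μ (up o e) (xi i) e ^ 2) =
        Ex p (fun o => if o e then Zf tsrc ttgt μ o (xi i) e ^ 2 else 0) :=
      Ex_up' p e (fun o => Zf tsrc ttgt μ o (xi i) e ^ 2)
    have h8 : (1 - p) * Ex p (fun o => Gg (dn o e) e) = Ex p (fun o => if o e then 0 else Gg o e) :=
      Ex_dn' p e (fun o => Gg o e)
    have h9 : Ex p (fun o => if o e then 0 else Gg o e) ≤ Ex p (fun o => Gg o e) := by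
      refine Ex_mono hp.le hp1.le fun o => ?_
      split_ifs
      · exact hG0 o e
      · exact le_rfl
    have e1 : 0 ≤ Ex p (fun o => Zf tsrc ttgt μ (up o e) (xi i) e ^ 2) :=
      Ex_nonneg hp.le hp1.le fun o => sq_nonneg _
    have e2 : 0 ≤ Ex p (fun o => Gg (dn o e) e) :=
      Ex_nonneg hp.le hp1.le fun o => hG0 _ _
    have t1 : p * (1 - p) * (α * Ex p (fun o => Zf tsrc ttgt μ (up o e) (xi i) e ^ 2)) ≤
        α * Ex p (fun o => if o e then Zf tsrc ttgt μ o (xi i) e ^ 2 else 0) := by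
      rw [← h7]
      have := mul_le_mul_of_nonneg_right hpp (mul_nonneg hα e1)
      linarith
    have t2 : p * (1 - p) * β ≤ β := by nlinarith
    have t3 : p * (1 - p) * (γ * Ex p (fun o => Gg (dn o e) e)) ≤
        γ * Ex p (fun o => Gg o e) := by
      have := mul_le_mul_of_nonneg_right hqq (mul_nonneg hγ e2)
      have h10 : (1 - p) * (γ * Ex p (fun o => Gg (dn o e) e)) =
          γ * Ex p (fun o => if o e then 0 else Gg o e) := by rw [← h8]; ring
      have h11 := mul_le_mul_of_nonneg_left h9 hγ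
      linarith
    have t4 : p * (1 - p) * ((4 * K₀ ^ 2 * (N : ℝ) ^ d) * B) ≤ 4 * K₀ ^ 2 * (N : ℝ) ^ d * B := by
      have : 0 ≤ (4 * K₀ ^ 2 * (N : ℝ) ^ d) * B := by positivity
      nlinarith
    calc p * (1 - p) * Ex p (fun o => ∑ x, (F (up o e) x - F (dn o e) x) ^ 2)
        ≤ p * (1 - p) * (α * Ex p (fun o => Zf tsrc ttgt μ (up o e) (xi i) e ^ 2) + β +
          γ * Ex p (fun o => Gg (dn o e) e) + (4 * K₀ ^ 2 * (N : ℝ) ^ d) * B) := by
          rw [← h6]
          exact mul_le_mul_of_nonneg_left h3 hpq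
      _ ≤ _ := by
          rw [mul_add, mul_add, mul_add]
          linarith
  refine (Finset.sum_le_sum fun e _ => h2 e).trans ?_
  rw [Finset.sum_add_distrib, Finset.sum_add_distrib, Finset.sum_add_distrib, ← Finset.mul_sum,
    ← Finset.mul_sum, Finset.sum_const, Finset.sum_const, Finset.card_univ, nsmul_eq_mul,
    nsmul_eq_mul, card_edges,
    ← Ex_sum' p univ fun e o => if o e then Zf tsrc ttgt μ o (xi i) e ^ 2 else 0,
    ← Ex_sum' p univ fun e o => Gg o e]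
  have s1 : Ex p (fun o : Tor N d × Fin d → Bool =>
      ∑ e, if o e then Zf tsrc ttgt μ o (xi i) e ^ 2 else 0) ≤ (N : ℝ) ^ d := by
    refine Ex_le_const hp.le hp1.le fun o => ?_
    have a1 := zf_energy_le tsrc ttgt o hμ (xi (N := N) i)
    have a2 : 0 ≤ μ * ∑ x, sol tsrc ttgt μ o (Dv tsrc ttgt o (xi i)) x ^ 2 :=
      mul_nonneg hμ.le (Finset.sum_nonneg fun _ _ => sq_nonneg _)
    have a3 : ∑ e, (if o e then xi (N := N) i e ^ 2 else 0) ≤ (N : ℝ) ^ d := by
      rw [← sum_xi (N := N) i]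
      refine Finset.sum_le_sum fun e _ => ?_
      split_ifs
      · exact le_rfl
      · exact sq_nonneg _
    linarith
  have s2 : (fun o : Tor N d × Fin d → Bool => ∑ e, Gg o e) = fun o =>
      (2 * d) * ∑ x, if Giant M o x then phi μ o i x ^ 2 else 0 := by
    funext o
    exact sum_ends (fun x => if Giant M o x then phi μ o i x ^ 2 else 0)
  rw [s2, Ex_smul p (2 * d) (fun o : Tor N d × Fin d → Bool =>
    ∑ x, if Giant M o x then phi μ o i x ^ 2 else 0)]
  have s3 := mul_le_mul_of_nonneg_left s1 hα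
  have s4 : (d : ℝ) * (N : ℝ) ^ d * (4 * K₀ ^ 2 * (N : ℝ) ^ d * B) =
      4 * K₀ ^ 2 * (d * (N : ℝ) ^ d) * (N : ℝ) ^ d * B := by ring
  have s5 : γ * (2 * d * Ex p (fun o : Tor N d × Fin d → Bool =>
      ∑ x, if Giant M o x then phi μ o i x ^ 2 else 0)) =
      2 * d * γ * Ex p (fun o : Tor N d × Fin d → Bool =>
        ∑ x, if Giant M o x then phi μ o i x ^ 2 else 0) := by ring
  rw [s4, s5]
  linarith

end Pool.Agent.Lib.MP_566bac_pr.Hd
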