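import Pool.Agent.Lib.MP_566bac_pr.Hd.EX1
import Pool.Agent.Lib.MP_566bac_pr.Hd.OP1
import Pool.Agent.Lib.MP_566bac_pr.Hd.SY2
import Pool.Agent.Lib.MP_566bac_pr.Hd.VG
import Pool.Agent.Lib.MP_566bac_pr.Hd.GS
import Pool.Agent.Lib.MP_566bac_pr.Hd.CPO
import Pool.Agent.Lib.MP_566bac_pr.Hd.FL1

/-!
# The corrector is small
-/

open Finset
open scoped Classical

namespace Pool.Agent.Lib.MP_566bac_pr.Hd

variable {d : ℕ}

namespace V1

theorem Ex_sum {ι κ : Type*} [Fintype ι] (s : Finset κ) (p : ℝ) (f : (ι → Bool) → κ → ℝ) :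
    Ex p (fun o => ∑ x ∈ s, f o x) = ∑ x ∈ s, Ex p (fun o => f o x) := by
  unfold Ex
  rw [Finset.sum_comm]
  refine Finset.sum_congr rfl fun ω _ => ?_
  rw [Finset.mul_sum]

theorem Ex_smul {ι : Type*} [Fintype ι] (p c : ℝ) (f : (ι → Bool) → ℝ) :
    Ex p (fun o => c * f o) = c * Ex p f := by
  unfold Ex
  rw [Finset.mul_sum]
  refine Finset.sum_congr rfl fun ω _ => ?_
  ring

theorem Ex_add {ι : Type*} [Fintype ι] (p : ℝ) (f g : (ι → Bool) → ℝ) :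
    Ex p (fun o => f o + g o) = Ex p f + Ex p g := by
  unfold Ex
  rw [← Finset.sum_add_distrib]
  refine Finset.sum_congr rfl fun ω _ => ?_
  ring

theorem Ex_const {ι : Type*} [Fintype ι] (p c : ℝ) :
    Ex p (fun _ : ι → Bool => c) = c := by
  unfold Ex
  rw [← Finset.sum_mul, wt_sum, one_mul]

theorem card_tor (N : ℕ) [NeZero N] : (Fintype.card (Tor N d) : ℝ) = (N : ℝ) ^ d := by
  simp [ZMod.card]

theorem sum_xi {N : ℕ} [NeZero N] (i : Fin d) :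
    ∑ e : Tor N d × Fin d, xi i e ^ 2 = (N : ℝ) ^ d := by
  rw [Fintype.sum_prod_type]
  have : ∀ x : Tor N d, ∑ j : Fin d, xi i (x, j) ^ 2 = (1 : ℝ) := by
    intro x
    simp [xi]
  simp only [this]
  rw [Finset.sum_const, Finset.card_univ, nsmul_eq_mul, mul_one, card_tor]

theorem phi_sq_le {N : ℕ} [NeZero N] {μ : ℝ} (hμ : 0 < μ) (o : Tor N d × Fin d → Bool)
    (i : Fin d) : ∑ x, phi μ o i x ^ 2 ≤ (N : ℝ) ^ d / μ := by
  have h := zf_energy_le tsrc ttgt o hμ (xi (N := N) i)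
  have h1 : 0 ≤ ∑ e, (if o e then Zf tsrc ttgt μ o (xi (N := N) i) e ^ 2 else 0) :=
    Finset.sum_nonneg fun e _ => by split_ifs <;> positivity
  have h2 : ∑ e, (if o e then xi (N := N) i e ^ 2 else 0) ≤ ∑ e, xi (N := N) i e ^ 2 :=
    Finset.sum_le_sum fun e _ => by split_ifs; exacts [le_rfl, sq_nonneg _]
  rw [sum_xi] at h2
  rw [le_div_iff₀ hμ]
  unfold phi
  nlinarith [h, h1, h2]

theorem abs_avg_le {N : ℕ} {R : ℕ} (hR : 1 ≤ R) (f : Tor N d → ℝ) {B : ℝ}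
    (hf : ∀ x, |f x| ≤ B) (x : Tor N d) : |avg R f x| ≤ B := by
  have hR' : (0 : ℝ) < (R : ℝ) ^ d := by positivity
  unfold avg
  rw [abs_div, abs_of_pos hR', div_le_iff₀ hR']
  refine (Finset.abs_sum_le_sum_abs _ _).trans ?_
  refine (Finset.sum_le_sum fun u _ => hf _).trans ?_
  rw [Finset.sum_const, Finset.card_univ, nsmul_eq_mul]
  simp [mul_comm]

theorem Ex_avg_phi {N : ℕ} [NeZero N] {μ : ℝ} (hμ : 0 < μ) {p : ℝ} (hp : 0 ≤ p)
    (hp1 : p ≤ 1) (i : Fin d) (R : ℕ) (x : Tor N d) :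
    Ex p (fun o => avg R (phi μ o i) x) = 0 := by
  have h1 : (fun o : Tor N d × Fin d → Bool => avg R (phi μ o i) x) = fun o =>
      ((R : ℝ) ^ d)⁻¹ * ∑ u : Fin d → Fin R, phi μ o i (tadd x fun i => (u i : ℤ)) := by
    funext o
    rw [avg, div_eq_inv_mul]
  rw [h1, Ex_smul, Ex_sum]
  simp only [phi_mean hμ hp hp1]
  simp

theorem pow_le_of_le {M : ℝ} (hM : 1 ≤ M) {a b : ℕ} (h : a ≤ b) : M ^ a ≤ M ^ b :=
  pow_le_pow_right₀ hM h

theorem arith {M s Nd X S P a b c K : ℝ} {C₁ C₂ C' A d : ℕ} (hMr : 1 ≤ M) (hs : s = M ^ A)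
    (hC' : C' = C₁ + C₂ + 3) (hA : C' + 1 ≤ A) (hd : 3 ≤ d) (ha0 : 0 ≤ a) (hb0 : 0 ≤ b)
    (hc0 : 0 ≤ c) (hX0 : 0 ≤ X) (hP0 : 0 ≤ P) (hNd : Nd = 16 ^ d * s ^ d)
    (hMM : 8 * d * a * b ≤ M)
    (hK : K = 2 * (b * (1 + a + a * d) + (4 * d * b + 1) * (16 ^ (4 * d) * c)))
    (hi : X ≤ b * M ^ C₂ * ((M ^ C') ^ 2 * Nd + S) + s ^ 2 * Nd * P)
    (hii : S ≤ a * M ^ C₁ * s * Nd + a * M ^ C₁ * (d * Nd) +
      2 * d * (a * M ^ C₁ * (1 / (M ^ C') ^ d + 1 / s ^ 3)) * X +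
      4 * (s * Nd) ^ 2 * (d * Nd) * Nd * P)
    (hP : P ≤ c / M ^ (A * (2 + 4 * d))) :
    X ≤ K * M ^ (C₁ + C₂ + 2 * C') * s * Nd := by
  have hM0 : 0 < M := by linarith
  have hs1 : 1 ≤ s := by rw [hs]; exact one_le_pow₀ hMr
  have hs0 : 0 < s := by linarith
  have hNd1 : 1 ≤ Nd := by
    rw [hNd, ← mul_pow]
    exact one_le_pow₀ (by linarith)
  have hiii : s ^ 2 * Nd ^ 4 * P ≤ 16 ^ (4 * d) * c := by
    have h6 : M ^ (A * (2 + 4 * d)) = s ^ 2 * s ^ (4 * d) := by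
      rw [hs, ← pow_add, ← pow_mul]
    have h7 : Nd ^ 4 = 16 ^ (4 * d) * s ^ (4 * d) := by
      rw [hNd, mul_pow, ← pow_mul, ← pow_mul, mul_comm d 4]
    rw [h7]
    calc s ^ 2 * (16 ^ (4 * d) * s ^ (4 * d)) * P
        ≤ s ^ 2 * (16 ^ (4 * d) * s ^ (4 * d)) * (c / M ^ (A * (2 + 4 * d))) :=
          mul_le_mul_of_nonneg_left hP (by positivity)
      _ = 16 ^ (4 * d) * c := by
        rw [h6]
        field_simp
  have h5 : M ^ (C₁ + C₂) * (1 / (M ^ C') ^ d) ≤ 1 / M := by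
    rw [← pow_mul, mul_one_div, div_le_div_iff₀ (by positivity) hM0, one_mul, ← pow_succ]
    apply pow_le_of_le hMr
    have : C' * 1 ≤ C' * d := Nat.mul_le_mul_left _ (by omega)
    omega
  have h6 : M ^ (C₁ + C₂) * (1 / s ^ 3) ≤ 1 / M := by
    rw [hs, ← pow_mul, mul_one_div, div_le_div_iff₀ (by positivity) hM0, one_mul, ← pow_succ]
    apply pow_le_of_le hMr
    omega
  have hiv : b * M ^ C₂ * (2 * d * (a * M ^ C₁ * (1 / (M ^ C') ^ d + 1 / s ^ 3))) ≤ 1 / 2 := by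
    have h7 : b * M ^ C₂ * (2 * d * (a * M ^ C₁ * (1 / (M ^ C') ^ d + 1 / s ^ 3))) =
        (2 * d * a * b) * (M ^ (C₁ + C₂) * (1 / (M ^ C') ^ d) + M ^ (C₁ + C₂) * (1 / s ^ 3)) := by
      rw [pow_add]; ring
    rw [h7]
    calc (2 * d * a * b) * (M ^ (C₁ + C₂) * (1 / (M ^ C') ^ d) + M ^ (C₁ + C₂) * (1 / s ^ 3))
        ≤ (2 * d * a * b) * (1 / M + 1 / M) :=
          mul_le_mul_of_nonneg_left (add_le_add h5 h6) (by positivity)
      _ = (8 * d * a * b) / M / 2 := by ring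
      _ ≤ 1 / 2 := by
        have : (8 * d * a * b) / M ≤ 1 := by rw [div_le_one hM0]; exact hMM
        linarith
  have hbM : 0 ≤ b * M ^ C₂ := by positivity
  have hfin1 : s ^ 2 * Nd * P ≤ 16 ^ (4 * d) * c := by
    refine le_trans ?_ hiii
    have : Nd ≤ Nd ^ 4 := by
      calc Nd = Nd ^ 1 := (pow_one _).symm
        _ ≤ Nd ^ 4 := pow_le_of_le hNd1 (by norm_num)
    exact mul_le_mul_of_nonneg_right (mul_le_mul_of_nonneg_left this (by positivity)) hP0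
  have h9 : b * M ^ C₂ * S ≤ b * M ^ C₂ * (a * M ^ C₁ * s * Nd +
      a * M ^ C₁ * (d * Nd) + 4 * d * (16 ^ (4 * d) * c)) + 1 / 2 * X := by
    have t1 := mul_le_mul_of_nonneg_left hii hbM
    have t2 := mul_le_mul_of_nonneg_right hiv hX0
    have t3 := mul_le_mul_of_nonneg_left hiii (mul_nonneg hbM (by positivity : (0 : ℝ) ≤ 4 * d))
    have t4 : b * M ^ C₂ * (a * M ^ C₁ * s * Nd + a * M ^ C₁ * (d * Nd) +
      2 * d * (a * M ^ C₁ * (1 / (M ^ C') ^ d + 1 / s ^ 3)) * X +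
      4 * (s * Nd) ^ 2 * (d * Nd) * Nd * P) = b * M ^ C₂ * (a * M ^ C₁ * s * Nd +
      a * M ^ C₁ * (d * Nd)) + b * M ^ C₂ * (2 * d * (a * M ^ C₁ * (1 / (M ^ C') ^ d + 1 / s ^ 3))) * X
      + b * M ^ C₂ * (4 * d) * (s ^ 2 * Nd ^ 4 * P) := by ring
    have t5 : b * M ^ C₂ * (a * M ^ C₁ * s * Nd +
      a * M ^ C₁ * (d * Nd) + 4 * d * (16 ^ (4 * d) * c)) = b * M ^ C₂ * (a * M ^ C₁ * s * Nd +
      a * M ^ C₁ * (d * Nd)) + b * M ^ C₂ * (4 * d) * (16 ^ (4 * d) * c) := by ring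
    linarith
  have hY : X ≤ 2 * (b * M ^ C₂ * ((M ^ C') ^ 2 * Nd + (a * M ^ C₁ * s * Nd +
      a * M ^ C₁ * (d * Nd) + 4 * d * (16 ^ (4 * d) * c))) + 16 ^ (4 * d) * c) := by
    have t6 : b * M ^ C₂ * ((M ^ C') ^ 2 * Nd + S) = b * M ^ C₂ * ((M ^ C') ^ 2 * Nd) +
      b * M ^ C₂ * S := by ring
    have t7 : b * M ^ C₂ * ((M ^ C') ^ 2 * Nd + (a * M ^ C₁ * s * Nd +
      a * M ^ C₁ * (d * Nd) + 4 * d * (16 ^ (4 * d) * c))) = b * M ^ C₂ * ((M ^ C') ^ 2 * Nd) +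
      b * M ^ C₂ * (a * M ^ C₁ * s * Nd +
      a * M ^ C₁ * (d * Nd) + 4 * d * (16 ^ (4 * d) * c)) := by ring
    linarith
  obtain ⟨W, hW⟩ : ∃ W, W = M ^ (C₁ + C₂ + 2 * C') * s := ⟨_, rfl⟩
  have hW1 : 1 ≤ W := by
    rw [hW]
    exact one_le_mul_of_one_le_of_one_le (one_le_pow₀ hMr) hs1
  have hpow : ∀ n, n ≤ C₁ + C₂ + 2 * C' → M ^ n ≤ W := fun n hn => by
    rw [hW, ← mul_one (M ^ n)]
    exact mul_le_mul (pow_le_of_le hMr hn) hs1 zero_le_one (by positivity)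
  have e1 : M ^ C₂ * (M ^ C') ^ 2 ≤ W := by
    rw [← pow_mul, ← pow_add]
    exact hpow _ (by omega)
  have e2 : M ^ C₂ * (M ^ C₁ * s) ≤ W := by
    rw [← mul_assoc, ← pow_add, hW]
    exact mul_le_mul_of_nonneg_right (pow_le_of_le hMr (by omega)) hs0.le
  have e3 : M ^ C₂ * M ^ C₁ ≤ W := by
    rw [← pow_add]
    exact hpow _ (by omega)
  have e4 : M ^ C₂ ≤ W := hpow _ (by omega)
  have hW0 : 0 ≤ W := by linarith
  have hNd0 : 0 ≤ Nd := by linarith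
  have q0 : (0 : ℝ) ≤ 16 ^ (4 * d) * c := by positivity
  have hd0 : (0 : ℝ) ≤ d := Nat.cast_nonneg _
  have f1 := mul_le_mul_of_nonneg_right (mul_le_mul_of_nonneg_left e1 hb0) hNd0
  have f2 := mul_le_mul_of_nonneg_right (mul_le_mul_of_nonneg_left e2 (mul_nonneg ha0 hb0)) hNd0
  have f3 := mul_le_mul_of_nonneg_right (mul_le_mul_of_nonneg_left e3
    (mul_nonneg (mul_nonneg ha0 hb0) hd0)) hNd0
  have f4 := mul_le_mul (mul_le_mul_of_nonneg_left e4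
    (mul_nonneg (mul_nonneg (by norm_num : (0 : ℝ) ≤ 4) hd0) (mul_nonneg hb0 q0))) hNd1 zero_le_one
    (mul_nonneg (mul_nonneg (mul_nonneg (by norm_num : (0 : ℝ) ≤ 4) hd0) (mul_nonneg hb0 q0)) hW0)
  have f5 := mul_le_mul (mul_le_mul_of_nonneg_left hW1 q0) hNd1 zero_le_one (mul_nonneg q0 hW0)
  have e5 : K * M ^ (C₁ + C₂ + 2 * C') * s * Nd = K * W * Nd := by rw [hW]; ring
  rw [e5, hK]
  nlinarith [hY, f1, f2, f3, f4, f5]

theorem phi_trivial {N : ℕ} [NeZero N] {s : ℝ} (hs : 0 < s) (o : Tor N d × Fin d → Bool)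
    (i : Fin d) : ∑ x, phi (1 / s ^ 2) o i x ^ 2 ≤ s ^ 2 * (N : ℝ) ^ d := by
  refine (phi_sq_le (by positivity) o i).trans (le_of_eq ?_)
  field_simp

theorem giant_le {N M : ℕ} [NeZero N] {μ : ℝ} (o : Tor N d × Fin d → Bool) (i : Fin d) :
    ∑ x, (if Giant M o x then phi μ o i x ^ 2 else 0) ≤ ∑ x, phi μ o i x ^ 2 :=
  Finset.sum_le_sum fun x _ => by split_ifs; exacts [le_rfl, sq_nonneg _]

theorem abs_phi_le {N : ℕ} [NeZero N] {s : ℝ} (hs : 1 ≤ s) (o : Tor N d × Fin d → Bool)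
    (i : Fin d) (y : Tor N d) : |phi (1 / s ^ 2) o i y| ≤ s * (N : ℝ) ^ d := by
  have hN1 : (1 : ℝ) ≤ (N : ℝ) ^ d := one_le_pow₀ (by exact_mod_cast NeZero.one_le)
  have hs0 : 0 < s := by linarith
  apply abs_le_of_sq_le_sq _ (mul_nonneg hs0.le (by linarith))
  have h6 : phi (1 / s ^ 2) o i y ^ 2 ≤ ∑ x, phi (1 / s ^ 2) o i x ^ 2 :=
    Finset.single_le_sum (f := fun x => phi (1 / s ^ 2) o i x ^ 2)
      (fun x _ => sq_nonneg _) (Finset.mem_univ y)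
  refine h6.trans ((phi_trivial hs0 o i).trans ?_)
  rw [mul_pow]
  exact mul_le_mul_of_nonneg_left (by nlinarith) (sq_nonneg s)

/-- the corrector against its averages, in expectation -/
theorem step1 {N M R : ℕ} [NeZero N] {p : ℝ} (hp : 0 ≤ p) (hp1 : p ≤ 1) {s b' : ℝ} (hs : 1 ≤ s)
    (hb' : 0 ≤ b') (i : Fin d)
    (h : ∀ o : Tor N d × Fin d → Bool, GoodS M o →
      ∑ x, (if Giant M o x then phi (1 / s ^ 2) o i x ^ 2 else 0) ≤
        b' * ((R : ℝ) ^ 2 * (N : ℝ) ^ d + ∑ x, avg R (phi (1 / s ^ 2) o i) x ^ 2)) :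
    Ex p (fun o : Tor N d × Fin d → Bool => ∑ x, if Giant M o x then
          phi (1 / s ^ 2) o i x ^ 2 else 0) ≤
      b' * ((R : ℝ) ^ 2 * (N : ℝ) ^ d +
        ∑ x, Ex p (fun o : Tor N d × Fin d → Bool => avg R (phi (1 / s ^ 2) o i) x ^ 2)) +
      s ^ 2 * (N : ℝ) ^ d *
        Ex p (fun o : Tor N d × Fin d → Bool => if GoodS M o then (0 : ℝ) else 1) := by
  have h5 : ∀ o : Tor N d × Fin d → Bool, ∑ x, (if Giant M o x then
      phi (1 / s ^ 2) o i x ^ 2 else 0) ≤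
      b' * ((R : ℝ) ^ 2 * (N : ℝ) ^ d + ∑ x, avg R (phi (1 / s ^ 2) o i) x ^ 2) +
        s ^ 2 * (N : ℝ) ^ d * (if GoodS M o then (0 : ℝ) else 1) := by
    intro o
    by_cases hg : GoodS M o
    · rw [if_pos hg, mul_zero, add_zero]
      exact h o hg
    · rw [if_neg hg, mul_one]
      refine (giant_le o i).trans ((phi_trivial (by linarith) o i).trans ?_)
      have h1 : 0 ≤ ∑ x, avg R (phi (1 / s ^ 2) o i) x ^ 2 :=
        Finset.sum_nonneg fun x _ => sq_nonneg _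
      have h2 : 0 ≤ b' * ((R : ℝ) ^ 2 * (N : ℝ) ^ d +
        ∑ x, avg R (phi (1 / s ^ 2) o i) x ^ 2) :=
        mul_nonneg hb' (add_nonneg (by positivity) h1)
      linarith
  have h6 := Ex_mono hp hp1 h5
  rw [Ex_add, Ex_smul, Ex_smul, Ex_add, Ex_const,
    Ex_sum _ p (fun o x => avg R (phi (1 / s ^ 2) o i) x ^ 2)] at h6
  exact h6

/-- Efron-Stein for the averages of the corrector -/
theorem step2 {N M R : ℕ} [NeZero N] {p : ℝ} (hp : 0 < p) (hp1 : p < 1) {s m a CA₁ γ : ℝ}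
    (hs : 1 ≤ s) (hm : 0 ≤ m) (ha : 0 ≤ a) (hCA : CA₁ ≤ a) (hγ : 0 ≤ γ) (hR1 : 1 ≤ R) (i : Fin d)
    (h : ∀ o : Tor N d × Fin d → Bool, GoodS M o → ∀ e : Tor N d × Fin d,
        ∑ x, (avg R (phi (1 / s ^ 2) (up o e) i) x -
          avg R (phi (1 / s ^ 2) (dn o e) i) x) ^ 2 ≤
        CA₁ * m * (s * Zf tsrc ttgt (1 / s ^ 2) (up o e) (xi i) e ^ 2 + 1 + γ *
          ((if Giant M (dn o e) (tsrc e) then
              phi (1 / s ^ 2) (dn o e) i (tsrc e) ^ 2 else 0) +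
            if Giant M (dn o e) (ttgt e) then
              phi (1 / s ^ 2) (dn o e) i (ttgt e) ^ 2 else 0))) :
    ∑ x, Ex p (fun o : Tor N d × Fin d → Bool => avg R (phi (1 / s ^ 2) o i) x ^ 2) ≤
      a * m * s * (N : ℝ) ^ d + a * m * (d * (N : ℝ) ^ d) +
      2 * d * (a * m * γ) * Ex p (fun o : Tor N d × Fin d → Bool => ∑ x, if Giant M o x then
          phi (1 / s ^ 2) o i x ^ 2 else 0) +
      4 * (s * (N : ℝ) ^ d) ^ 2 * (d * (N : ℝ) ^ d) * (N : ℝ) ^ d *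
        Ex p (fun o : Tor N d × Fin d → Bool => if GoodS M o then (0 : ℝ) else 1) := by
  have hμ : (0 : ℝ) < 1 / s ^ 2 := by positivity
  have hs0 : 0 < s := by linarith
  have h5 := var_good (d := d) (N := N) (M := M) hp hp1 hμ i
    (fun o x => avg R (phi (1 / s ^ 2) o i) x)
    (α := a * m * s) (β := a * m) (γ := a * m * γ) (K₀ := s * (N : ℝ) ^ d)
    (mul_nonneg (mul_nonneg ha hm) hs0.le) (mul_nonneg ha hm) (mul_nonneg (mul_nonneg ha hm) hγ)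
    (fun o x => abs_avg_le hR1 _ (fun y => abs_phi_le hs o i y) x) ?_
  · simp only [Ex_avg_phi hμ hp.le hp1.le, sub_zero] at h5
    exact h5
  · intro o ho e
    refine (h o ho e).trans ?_
    obtain ⟨Q, hQ⟩ : ∃ Q, Q = (if Giant M (dn o e) (tsrc e) then
            phi (1 / s ^ 2) (dn o e) i (tsrc e) ^ 2 else 0) +
          if Giant M (dn o e) (ttgt e) then
            phi (1 / s ^ 2) (dn o e) i (ttgt e) ^ 2 else 0 := ⟨_, rfl⟩
    have hQ0 : 0 ≤ Q := by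
      rw [hQ]
      exact add_nonneg (by split_ifs; exacts [sq_nonneg _, le_rfl])
        (by split_ifs; exacts [sq_nonneg _, le_rfl])
    rw [← hQ]
    obtain ⟨z, hz⟩ : ∃ z, z = Zf tsrc ttgt (1 / s ^ 2) (up o e) (xi i) e ^ 2 := ⟨_, rfl⟩
    have hz0 : 0 ≤ z := by rw [hz]; exact sq_nonneg _
    rw [← hz]
    have h7 : 0 ≤ m * (s * z + 1 + γ * Q) := by positivity
    calc CA₁ * m * (s * z + 1 + γ * Q) = CA₁ * (m * (s * z + 1 + γ * Q)) := by ring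
      _ ≤ a * (m * (s * z + 1 + γ * Q)) := mul_le_mul_of_nonneg_right hCA h7
      _ = _ := by ring

end V1

open V1 in
/-- V1: the corrector is small -/
theorem corrector_small (d : ℕ) (hd : 3 ≤ d) {p : ℝ} (hp : 0 < p) (hp1 : p < 1) (hD : Decay d p) :
    ∃ C A₀ : ℕ, ∀ A, A₀ ≤ A → ∃ CA : ℝ, ∀ {N M : ℕ} [NeZero N], 1 ≤ M → N = 16 * M ^ A →
      1000 * M ≤ N → ∀ i : Fin d,
        Ex p (fun o : Tor N d × Fin d → Bool => ∑ x, if Giant M o x then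
          phi (1 / ((M : ℝ) ^ A) ^ 2) o i x ^ 2 else 0) ≤ CA * (M : ℝ) ^ C * (M : ℝ) ^ A * (N : ℝ) ^ d := by
  obtain ⟨C₁, h₁⟩ := phi_flip d hd
  obtain ⟨C₂, h₂⟩ := corr_poincare d (by omega)
  obtain ⟨C', hC'⟩ : ∃ C', C' = C₁ + C₂ + 3 := ⟨_, rfl⟩
  refine ⟨C₁ + C₂ + 2 * C', C' + 1, fun A hA => ?_⟩
  obtain ⟨CA₁, h₃⟩ := h₁ A (by omega)
  obtain ⟨Cq, h₄⟩ := prob_goodS (d := d) (by omega) hp hp1 hD A (A * (2 + 4 * d)) (by omega)
  obtain ⟨a, ha⟩ : ∃ a, a = |CA₁| := ⟨_, rfl⟩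
  obtain ⟨b, hb⟩ : ∃ b : ℝ, b = C₂ := ⟨_, rfl⟩
  obtain ⟨c, hc⟩ : ∃ c, c = |Cq| := ⟨_, rfl⟩
  have ha0 : 0 ≤ a := ha ▸ abs_nonneg _
  have hb0 : 0 ≤ b := hb ▸ Nat.cast_nonneg _
  have hc0 : 0 ≤ c := hc ▸ abs_nonneg _
  obtain ⟨M₀, hM₀⟩ := exists_nat_ge (8 * d * a * b)
  obtain ⟨K, hK⟩ : ∃ K : ℝ, K = 2 * (b * (1 + a + a * d) + (4 * d * b + 1) *
    (16 ^ (4 * d) * c)) := ⟨_, rfl⟩
  have hK0 : 0 ≤ K := by rw [hK]; positivity
  refine ⟨K + (M₀ : ℝ) ^ A, ?_⟩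
  intro N M hNZ hM hN hMN i
  -- basic facts
  have hM2 : 2 ≤ M := by
    by_contra hlt
    have : M = 1 := by omega
    subst this
    simp at hN
    omega
  have hMr : (1 : ℝ) ≤ M := by exact_mod_cast hM
  have hM0 : (0 : ℝ) < M := by linarith
  obtain ⟨s, hs⟩ : ∃ s : ℝ, s = (M : ℝ) ^ A := ⟨_, rfl⟩
  rw [← hs]
  have hs1 : 1 ≤ s := hs ▸ one_le_pow₀ hMr
  have hs0 : 0 < s := by linarith
  have hμ : (0 : ℝ) < 1 / s ^ 2 := by positivity
  have hNs : (N : ℝ) = 16 * s := by rw [hN, hs]; push_cast; rfl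
  have hNd' : (N : ℝ) ^ d = 16 ^ d * s ^ d := by rw [hNs, mul_pow]
  have hNd1 : 1 ≤ (N : ℝ) ^ d := one_le_pow₀ (by rw [hNs]; linarith)
  have hpow : (1 : ℝ) ≤ (M : ℝ) ^ (C₁ + C₂ + 2 * C') := one_le_pow₀ hMr
  have hM₀0 : (0 : ℝ) ≤ (M₀ : ℝ) ^ A := by positivity
  by_cases hMM : M < M₀
  · -- small `M`
    have h5 : Ex p (fun o : Tor N d × Fin d → Bool => ∑ x, if Giant M o x then
          phi (1 / s ^ 2) o i x ^ 2 else 0) ≤ s ^ 2 * (N : ℝ) ^ d := by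
      have := Ex_mono hp.le hp1.le (f := fun o : Tor N d × Fin d → Bool => ∑ x,
        if Giant M o x then phi (1 / s ^ 2) o i x ^ 2 else 0)
        (g := fun _ => s ^ 2 * (N : ℝ) ^ d)
        (fun o => (giant_le o i).trans (phi_trivial hs0 o i))
      rwa [Ex_const] at this
    have h6 : s ≤ (M₀ : ℝ) ^ A := by
      rw [hs]
      exact pow_le_pow_left₀ hM0.le (by exact_mod_cast hMM.le) _
    refine h5.trans ?_
    apply mul_le_mul_of_nonneg_right _ (by linarith)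
    rw [sq]
    apply mul_le_mul_of_nonneg_right _ hs0.le
    calc s = s * 1 := (mul_one s).symm
      _ ≤ (K + (M₀ : ℝ) ^ A) * (M : ℝ) ^ (C₁ + C₂ + 2 * C') :=
        mul_le_mul (by linarith) hpow zero_le_one (by linarith)
  push Not at hMM
  have hMM' : 8 * d * a * b ≤ (M : ℝ) := hM₀.trans (by exact_mod_cast hMM)
  -- the scale
  obtain ⟨R, hR⟩ : ∃ R : ℕ, R = M ^ C' := ⟨_, rfl⟩
  have hRr : (R : ℝ) = (M : ℝ) ^ C' := by rw [hR]; push_cast; rfl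
  have hR4 : 4 * M ≤ R := by
    rw [hR]
    have h7 : M ^ 3 ≤ M ^ C' := Nat.pow_le_pow_right (by omega) (by omega)
    have h8 : 4 * M ≤ M ^ 3 := by nlinarith [Nat.mul_le_mul hM2 hM2]
    omega
  have hRN : 32 * R ≤ N := by
    rw [hR, hN]
    have h7 : M ^ (C' + 1) ≤ M ^ A := Nat.pow_le_pow_right (by omega) hA
    have h8 : M ^ C' * 2 ≤ M ^ (C' + 1) := by
      rw [pow_succ]
      exact Nat.mul_le_mul_left _ hM2
    omega
  have hdvd : M ∣ N := by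
    rw [hN]
    exact Dvd.dvd.mul_left (dvd_pow_self M (by omega)) 16
  have hR1 : 1 ≤ R := by omega
  have hP0 : 0 ≤ Ex p (fun o : Tor N d × Fin d → Bool => if GoodS M o then (0 : ℝ) else 1) := by
    have := Ex_mono hp.le hp1.le (f := fun _ : Tor N d × Fin d → Bool => 0)
      (g := fun o => if GoodS M o then (0 : ℝ) else 1)
      (fun o => by split_ifs; exacts [le_rfl, zero_le_one])
    rwa [Ex_const] at this
  have hX0 : 0 ≤ Ex p (fun o : Tor N d × Fin d → Bool => ∑ x, if Giant M o x then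
          phi (1 / s ^ 2) o i x ^ 2 else 0) := by
    have := Ex_mono hp.le hp1.le (f := fun _ : Tor N d × Fin d → Bool => 0)
      (g := fun o => ∑ x, if Giant M o x then phi (1 / s ^ 2) o i x ^ 2 else 0)
      (fun o => Finset.sum_nonneg fun x _ => by split_ifs; exacts [sq_nonneg _, le_rfl])
    rwa [Ex_const] at this
  have hi := step1 (M := M) (R := R) hp.le hp1.le hs1 (b' := b * (M : ℝ) ^ C₂) (by positivity) i
    (fun o hg => by rw [hb]; exact h₂ R hM hdvd hMN hR4 hRN hg.1 hμ i)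
  have hii := step2 (M := M) (R := R) hp hp1 hs1 (m := (M : ℝ) ^ C₁) (CA₁ := CA₁) (by positivity)
    ha0 (by rw [ha]; exact le_abs_self _) (γ := 1 / (R : ℝ) ^ d + 1 / s ^ 3) (by positivity) hR1 i
    (fun o ho e => by
      have h6 := h₃ hM hN hMN ho e i R hR1 (by omega)
      rw [← hs] at h6
      exact h6)
  have hPP : Ex p (fun o : Tor N d × Fin d → Bool => if GoodS M o then (0 : ℝ) else 1) ≤
      c / (M : ℝ) ^ (A * (2 + 4 * d)) := by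
    refine (h₄ hM hN (by omega)).trans ?_
    rw [hc]
    exact div_le_div_of_nonneg_right (le_abs_self _) (by positivity)
  rw [hRr] at hi hii
  have := arith hMr hs hC' hA hd ha0 hb0 hc0 hX0 hP0 hNd' hMM' hK hi hii hPP
  refine this.trans ?_
  apply mul_le_mul_of_nonneg_right _ (by linarith)
  apply mul_le_mul_of_nonneg_right _ hs0.le
  apply mul_le_mul_of_nonneg_right _ (by linarith)
  linarith

end Pool.Agent.Lib.MP_566bac_pr.Hd
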