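import Pool.Agent.Lib.MP_566bac_pr.Hd.VG
import Pool.Agent.Lib.MP_566bac_pr.Hd.FL2
import Pool.Agent.Lib.MP_566bac_pr.Hd.V1
import Pool.Agent.Lib.MP_566bac_pr.Hd.GS
import Pool.Agent.Lib.MP_566bac_pr.Hd.SY2

/-!
# The averages of the flux concentrate
-/

open Finset
open scoped Classical

namespace Pool.Agent.Lib.MP_566bac_pr.Hd

variable {d : ℕ}

theorem V2_card {N : ℕ} [NeZero N] : (Fintype.card (Tor N d) : ℝ) = (N : ℝ) ^ d := by
  rw [Fintype.card_fun, ZMod.card, Fintype.card_fin]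
  push_cast
  rfl

theorem V2_xi_sum {N : ℕ} [NeZero N] (i : Fin d) :
    ∑ e : Tor N d × Fin d, xi i e ^ 2 = (N : ℝ) ^ d := by
  rw [Fintype.sum_prod_type]
  have h : ∀ x : Tor N d, ∑ k : Fin d, xi (N := N) i (x, k) ^ 2 = 1 := by
    intro x
    rw [Finset.sum_eq_single i]
    · simp [xi]
    · intro k _ hk
      simp [xi, hk]
    · intro h
      exact absurd (Finset.mem_univ i) h
  rw [Finset.sum_congr rfl fun x _ => h x, Finset.sum_const, Finset.card_univ, nsmul_eq_mul,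
    V2_card, mul_one]

theorem V2_flux_le {N : ℕ} [NeZero N] {μ : ℝ} (hμ : 0 < μ) (o : Tor N d × Fin d → Bool)
    (i j : Fin d) (x : Tor N d) : |flux μ o i j x| ≤ (N : ℝ) ^ d := by
  have hN1 : (1 : ℝ) ≤ (N : ℝ) ^ d := one_le_pow₀ (by exact_mod_cast NeZero.one_le)
  have h1 : flux μ o i j x ^ 2 ≤ (N : ℝ) ^ d := by
    have h2 := zf_energy_le tsrc ttgt o hμ (xi i)
    have h3 : flux μ o i j x ^ 2 ≤ ∑ e, (if o e then Zf tsrc ttgt μ o (xi i) e ^ 2 else 0) := by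
      have h4 : flux μ o i j x ^ 2 = (fun e => if o e then Zf tsrc ttgt μ o (xi i) e ^ 2 else 0)
          (x, j) := by
        unfold flux
        by_cases h : o (x, j) = true
        · simp [h]
        · simp [h]
      rw [h4]
      refine Finset.single_le_sum (f := fun e => if o e then Zf tsrc ttgt μ o (xi i) e ^ 2 else 0)
        (fun e _ => ?_) (Finset.mem_univ _)
      split_ifs
      · positivity
      · exact le_rfl
    have h5 : ∑ e, (if o e then xi i e ^ 2 else 0) ≤ (N : ℝ) ^ d := by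
      rw [← V2_xi_sum (N := N) i]
      refine Finset.sum_le_sum fun e _ => ?_
      split_ifs
      · exact le_rfl
      · positivity
    have h6 : 0 ≤ μ * ∑ x, sol tsrc ttgt μ o (Dv tsrc ttgt o (xi i)) x ^ 2 := by positivity
    linarith
  have h2 : flux μ o i j x ^ 2 ≤ ((N : ℝ) ^ d) ^ 2 := by nlinarith
  exact abs_le_of_sq_le_sq h2 (by positivity)

theorem V2_avg_le {N : ℕ} [NeZero N] {R : ℕ} (hR : 1 ≤ R) {f : Tor N d → ℝ} {K : ℝ}
    (hf : ∀ x, |f x| ≤ K) (x : Tor N d) : |avg R f x| ≤ K := by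
  unfold avg
  have hpos : (0 : ℝ) < (R : ℝ) ^ d := by positivity
  rw [abs_div, abs_of_pos hpos, div_le_iff₀ hpos]
  refine (Finset.abs_sum_le_sum_abs _ _).trans ?_
  refine (Finset.sum_le_sum fun u _ => hf _).trans ?_
  rw [Finset.sum_const, Finset.card_univ, Fintype.card_fun, Fintype.card_fin, Fintype.card_fin,
    nsmul_eq_mul]
  push_cast
  rw [mul_comm]

theorem flux_concentrate (d : ℕ) (hd : 3 ≤ d) {p : ℝ} (hp : 0 < p) (hp1 : p < 1) (hD : Decay d p) :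
    ∃ C A₀ : ℕ, ∀ A, A₀ ≤ A → ∃ CA : ℝ, ∀ {N M : ℕ} [NeZero N], 1 ≤ M → N = 16 * M ^ A →
      1000 * M ≤ N → ∀ n' : ℕ, 1 ≤ n' → n' ≤ M ^ A → ∀ i j : Fin d,
        ∑ x, Ex p (fun o : Tor N d × Fin d → Bool =>
          (avg n' (flux (1 / ((M : ℝ) ^ A) ^ 2) o i j) x -
            Ex p (fun o' => avg n' (flux (1 / ((M : ℝ) ^ A) ^ 2) o' i j) x)) ^ 2) ≤
          CA * (M : ℝ) ^ C * (1 / Real.sqrt n' + 1 / (M : ℝ) ^ A) * (N : ℝ) ^ d := by
  obtain ⟨C1, h1⟩ := flux_flip d hd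
  obtain ⟨C2, A2, h2⟩ := corrector_small d hd hp hp1 hD
  refine ⟨C1 + C2, max A2 2, fun A hA => ?_⟩
  obtain ⟨K1, h1⟩ := h1 A (by omega)
  obtain ⟨K2, h2⟩ := h2 A (by omega)
  obtain ⟨K3, h3⟩ := prob_goodS (d := d) (by omega) hp hp1 hD A (3 * d * A + A) (by omega)
  refine ⟨|K1| + |K1| * d + 2 * d * |K1| * |K2| + 4 * d * |K3| * 16 ^ (3 * d),
    fun {N M} _ hM hN hMN n' hn' hn'A i j => ?_⟩
  have hM1 : (1 : ℝ) ≤ M := by exact_mod_cast hM
  obtain ⟨s, hs⟩ : ∃ s : ℝ, s = (M : ℝ) ^ A := ⟨_, rfl⟩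
  have hs1 : 1 ≤ s := by rw [hs]; exact one_le_pow₀ hM1
  have hs0 : 0 < s := by linarith
  have hμ : 0 < 1 / s ^ 2 := by positivity
  have hP1 : (1 : ℝ) ≤ (M : ℝ) ^ C1 := one_le_pow₀ hM1
  have hP2 : (1 : ℝ) ≤ (M : ℝ) ^ C2 := one_le_pow₀ hM1
  have hsq : 0 < Real.sqrt n' := Real.sqrt_pos.2 (by exact_mod_cast hn')
  have key := var_good (M := M) (N := N) hp hp1 hμ i
    (fun o x => avg n' (flux (1 / s ^ 2) o i j) x)
    (α := |K1| * (M : ℝ) ^ C1 * (1 / Real.sqrt n')) (β := |K1| * (M : ℝ) ^ C1 * (1 / s ^ 2))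
    (γ := |K1| * (M : ℝ) ^ C1 * (1 / s ^ 2)) (K₀ := (N : ℝ) ^ d) (by positivity) (by positivity)
    (by positivity) (fun o x => V2_avg_le hn' (fun y => V2_flux_le hμ o i j y) x)
    (fun o ho e => by
      have h := h1 hM hN hMN ho e i j n' hn' hn'A
      rw [← hs] at h
      refine h.trans ?_
      have hg1 : 0 ≤ (if Giant M (dn o e) (tsrc e) then
          phi (1 / s ^ 2) (dn o e) i (tsrc e) ^ 2 else 0) := by
        split_ifs
        · positivity
        · exact le_rfl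
      have hg2 : 0 ≤ (if Giant M (dn o e) (ttgt e) then
          phi (1 / s ^ 2) (dn o e) i (ttgt e) ^ 2 else 0) := by
        split_ifs
        · positivity
        · exact le_rfl
      refine (mul_le_mul_of_nonneg_right (mul_le_mul_of_nonneg_right (le_abs_self K1)
        (by positivity)) (by positivity)).trans (le_of_eq ?_)
      ring)
  rw [← hs]
  refine key.trans ?_
  have hphi := h2 (N := N) (M := M) hM hN hMN i
  rw [← hs] at hphi
  have hgood := h3 (N := N) (M := M) hM hN (by omega)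
  have hN0 : (0 : ℝ) < (N : ℝ) ^ d := by
    have : (0 : ℝ) < N := by exact_mod_cast Nat.pos_of_ne_zero (NeZero.ne N)
    positivity
  have hNs : (N : ℝ) = 16 * s := by rw [hN, hs]; push_cast; ring
  obtain ⟨P, hP⟩ : ∃ P : ℝ, P = (M : ℝ) ^ (C1 + C2) := ⟨_, rfl⟩
  have hPP : P = (M : ℝ) ^ C1 * (M : ℝ) ^ C2 := by rw [hP, pow_add]
  have hP0 : 1 ≤ P := by rw [hP]; exact one_le_pow₀ hM1
  have hC1P : (M : ℝ) ^ C1 ≤ P := by rw [hPP]; nlinarith
  have hinv : 1 / s ^ 2 ≤ 1 / s := by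
    apply one_div_le_one_div_of_le hs0
    nlinarith
  have hr0 : 0 ≤ 1 / Real.sqrt n' := by positivity
  have hs' : 0 ≤ 1 / s := by positivity
  -- the four terms
  have t1 : |K1| * (M : ℝ) ^ C1 * (1 / Real.sqrt n') * (N : ℝ) ^ d ≤
      |K1| * P * (1 / Real.sqrt n' + 1 / s) * (N : ℝ) ^ d := by
    gcongr
    linarith
  have t2 : |K1| * (M : ℝ) ^ C1 * (1 / s ^ 2) * (d * (N : ℝ) ^ d) ≤
      |K1| * d * P * (1 / Real.sqrt n' + 1 / s) * (N : ℝ) ^ d := by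
    calc |K1| * (M : ℝ) ^ C1 * (1 / s ^ 2) * (d * (N : ℝ) ^ d)
        ≤ |K1| * P * (1 / Real.sqrt n' + 1 / s) * (d * (N : ℝ) ^ d) := by
          gcongr
          linarith
      _ = _ := by ring
  have t3 : ∀ PHI : ℝ, PHI ≤ K2 * (M : ℝ) ^ C2 * s * (N : ℝ) ^ d →
      2 * d * (|K1| * (M : ℝ) ^ C1 * (1 / s ^ 2)) * PHI ≤
      2 * d * |K1| * |K2| * P * (1 / Real.sqrt n' + 1 / s) * (N : ℝ) ^ d := by
    intro PHI hPHI
    calc 2 * d * (|K1| * (M : ℝ) ^ C1 * (1 / s ^ 2)) * PHI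
        ≤ 2 * d * (|K1| * (M : ℝ) ^ C1 * (1 / s ^ 2)) *
          (|K2| * (M : ℝ) ^ C2 * s * (N : ℝ) ^ d) := by
          gcongr
          refine hPHI.trans ?_
          gcongr
          exact le_abs_self K2
      _ = 2 * d * |K1| * |K2| * P * (1 / s) * (N : ℝ) ^ d := by
          rw [hPP]
          field_simp
      _ ≤ _ := by
          gcongr
          linarith
  have t4 : ∀ PB : ℝ, PB ≤ K3 / (M : ℝ) ^ (3 * d * A + A) →
      4 * ((N : ℝ) ^ d) ^ 2 * (d * (N : ℝ) ^ d) * (N : ℝ) ^ d * PB ≤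
      4 * d * |K3| * 16 ^ (3 * d) * P * (1 / Real.sqrt n' + 1 / s) * (N : ℝ) ^ d := by
    intro PB hPB
    have hq : (M : ℝ) ^ (3 * d * A + A) = s ^ (3 * d) * s := by
      rw [hs, pow_add, ← pow_mul]
      congr 2
      ring
    calc 4 * ((N : ℝ) ^ d) ^ 2 * (d * (N : ℝ) ^ d) * (N : ℝ) ^ d * PB
        ≤ 4 * ((N : ℝ) ^ d) ^ 2 * (d * (N : ℝ) ^ d) * (N : ℝ) ^ d *
          (|K3| / (M : ℝ) ^ (3 * d * A + A)) := by
          gcongr
          refine hPB.trans ?_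
          gcongr
          exact le_abs_self K3
      _ = 4 * d * |K3| * ((N : ℝ) ^ (3 * d) / (s ^ (3 * d) * s)) * (N : ℝ) ^ d := by
          rw [hq, show 3 * d = d + d + d by ring, pow_add, pow_add]
          ring
      _ = 4 * d * |K3| * 16 ^ (3 * d) * 1 * (1 / s) * (N : ℝ) ^ d := by
          rw [hNs, mul_pow 16 s (3 * d)]
          field_simp
      _ ≤ _ := by
          gcongr
          linarith
  calc _ ≤ |K1| * P * (1 / Real.sqrt n' + 1 / s) * (N : ℝ) ^ d +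
      |K1| * d * P * (1 / Real.sqrt n' + 1 / s) * (N : ℝ) ^ d +
      2 * d * |K1| * |K2| * P * (1 / Real.sqrt n' + 1 / s) * (N : ℝ) ^ d +
      4 * d * |K3| * 16 ^ (3 * d) * P * (1 / Real.sqrt n' + 1 / s) * (N : ℝ) ^ d := by
        exact add_le_add (add_le_add (add_le_add t1 t2) (t3 _ hphi)) (t4 _ hgood)
    _ = _ := by rw [← hP]; ring

end Pool.Agent.Lib.MP_566bac_pr.Hd
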