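import Pool.Agent.Lib.MP_566bac_pr.Hd.VG
import Pool.Agent.Lib.MP_566bac_pr.Hd.GE1
import Pool.Agent.Lib.MP_566bac_pr.Hd.SY1
import Pool.Agent.Lib.MP_566bac_pr.Hd.AV

/-!
# V3: the density of the giant cluster
-/

open Finset MeasureTheory ProbabilityTheory Filter
open scoped Classical

namespace Pool.Agent.Lib.MP_566bac_pr.Hd

variable {d : ℕ}

namespace V3

theorem prj_rep {N : ℕ} [NeZero N] (x : Tor N d) : prj N (rep x) = x := by
  funext i
  unfold prj rep
  simp

theorem prj_add (N : ℕ) (x y : Vtx d) : prj N (x + y) = prj N x + prj N y := by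
  funext i
  unfold prj
  simp

theorem prj_sub (N : ℕ) (x y : Vtx d) : prj N (x - y) = prj N x - prj N y := by
  funext i
  unfold prj
  simp

theorem giant_shift' {N M : ℕ} [NeZero N] (o : Tor N d × Fin d → Bool)
    (a x : Tor N d) : Giant M (fun e => o (e.1 + a, e.2)) x ↔ Giant M o (x + a) := by
  unfold Giant
  have h1 : lift (fun e : Tor N d × Fin d => o (e.1 + a, e.2)) =
      fun y j => lift o (y + rep a) j := by
    funext y j
    unfold lift
    rw [prj_add, prj_rep]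
  rw [h1, far_shift]
  set b := rep x + rep a - rep (x + a) with hb
  have hb0 : prj N b = 0 := by
    rw [hb, prj_sub, prj_add, prj_rep, prj_rep, prj_rep, sub_self]
  have h2 : (fun y j => lift o (y + b) j) = lift o := by
    funext y j
    unfold lift
    rw [prj_add, hb0, add_zero]
  have h3 : rep x + rep a = rep (x + a) + b := by
    rw [hb]
    abel
  rw [h3, ← far_shift, h2]

theorem giant_near {N M : ℕ} [NeZero N] (o : Tor N d × Fin d → Bool) (e : Tor N d × Fin d)
    (y : Tor N d) (h : y ∉ (Lam (0 : Vtx d) (6 * M)).image fun v => e.1 + prj N v) :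
    Giant M (up o e) y ↔ Giant M (dn o e) y := by
  unfold Giant
  refine far_congr fun u hu j _ => ?_
  unfold lift up dn
  have hne : (prj N u, j) ≠ e := by
    intro he
    apply h
    rw [mem_image]
    refine ⟨rep y - u, ?_, ?_⟩
    · rw [mem_Lam] at hu ⊢
      have h1 := dst_add_right (rep y - u) 0 u
      rw [sub_add_cancel, zero_add] at h1
      rw [← h1, dst_comm]
      exact hu
    · have h1 : e.1 = prj N u := by rw [← he]
      rw [h1, prj_sub, prj_rep]
      abel
  rw [Function.update_of_ne hne, Function.update_of_ne hne]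

theorem avg_sub {N : ℕ} (R : ℕ) (f g : Tor N d → ℝ) (x : Tor N d) :
    avg R f x - avg R g x = avg R (fun y => f y - g y) x := by
  unfold avg
  rw [← sub_div, ← Finset.sum_sub_distrib]

/-- indicator of the giant vertices -/
noncomputable def gi {N : ℕ} (M : ℕ) (o : Tor N d × Fin d → Bool) (y : Tor N d) : ℝ :=
  if Giant M o y then 1 else 0

theorem sum_flip {N M : ℕ} [NeZero N] (o : Tor N d × Fin d → Bool) (e : Tor N d × Fin d) :
    ∑ y, |gi M (up o e) y - gi M (dn o e) y| ≤ (12 * M + 1 : ℝ) ^ d := by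
  set S := (Lam (0 : Vtx d) (6 * M)).image fun v => e.1 + prj N v with hS
  have h1 : ∑ y, |gi M (up o e) y - gi M (dn o e) y| ≤ ∑ y, if y ∈ S then (1 : ℝ) else 0 := by
    refine Finset.sum_le_sum fun y _ => ?_
    by_cases hy : y ∈ S
    · rw [if_pos hy]
      unfold gi
      split_ifs <;> simp
    · rw [if_neg hy]
      have := giant_near o e y hy
      unfold gi
      rw [if_congr this rfl rfl, sub_self, abs_zero]
  refine h1.trans ?_
  rw [← Finset.sum_filter, Finset.sum_const, nsmul_eq_mul, mul_one]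
  have h2 : (univ.filter fun y => y ∈ S).card ≤ (12 * M + 1) ^ d := by
    have h3 : (univ.filter fun y => y ∈ S) = S := by
      ext y
      simp
    rw [h3]
    refine card_image_le.trans ?_
    rw [card_Lam]
    exact le_of_eq (by ring)
  exact_mod_cast h2

theorem mean {N M : ℕ} [NeZero N] (p : ℝ) {n' : ℕ} (hn : 1 ≤ n') (x : Tor N d) :
    Ex p (fun o => avg n' (gi M o) x) = Ex p (fun o : Tor N d × Fin d → Bool => gi M o 0) := by
  have h1 : ∀ y : Tor N d, Ex p (fun o : Tor N d × Fin d → Bool => gi M o y) =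
      Ex p (fun o : Tor N d × Fin d → Bool => gi M o 0) := by
    intro y
    have h2 := Ex_shift p (fun o : Tor N d × Fin d → Bool => gi M o 0) y
    rw [← h2]
    congr 1
    funext o
    unfold gi
    refine if_congr ?_ rfl rfl
    rw [giant_shift', zero_add]
  have h3 : (fun o : Tor N d × Fin d → Bool => avg n' (gi M o) x) = fun o =>
      ((n' : ℝ) ^ d)⁻¹ * ∑ u : Fin d → Fin n', gi M o (tadd x fun i => (u i : ℤ)) := by
    funext o
    unfold avg
    rw [div_eq_inv_mul]
  have hn0 : (n' : ℝ) ^ d ≠ 0 := by positivity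
  rw [h3, EX2.Ex_smul p ((n' : ℝ) ^ d)⁻¹ (fun o : Tor N d × Fin d → Bool =>
      ∑ u : Fin d → Fin n', gi M o (tadd x fun i => (u i : ℤ))),
    VG.Ex_sum' p univ fun (u : Fin d → Fin n') o => gi M o (tadd x fun i => (u i : ℤ)),
    Finset.sum_congr rfl fun u _ => h1 _, Finset.sum_const, Finset.card_univ, nsmul_eq_mul,
    Fintype.card_pi_const, Fintype.card_fin]
  push_cast
  rw [← mul_assoc, inv_mul_cancel₀ hn0, one_mul]

end V3

open V3

/-! ### V3: the density of the giant cluster -/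
theorem density_concentrate (d : ℕ) (hd : 1 ≤ d) {p : ℝ} (hp : 0 < p) (hp1 : p < 1)
    (hD : Decay d p) : ∃ C : ℕ, ∀ A, 2 ≤ A → ∃ CA : ℝ, ∀ {N M : ℕ} [NeZero N], 1 ≤ M →
      N = 16 * M ^ A → 1000 * M ≤ N → ∀ n' : ℕ, 1 ≤ n' → n' ≤ M ^ A →
        ∑ x, Ex p (fun o : Tor N d × Fin d → Bool =>
          (avg n' (fun y => if Giant M o y then 1 else 0) x -
            Ex p (fun o' : Tor N d × Fin d → Bool => if Giant M o' 0 then 1 else 0)) ^ 2) ≤
          CA * (M : ℝ) ^ C / n' * (N : ℝ) ^ d := by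
  refine ⟨2 * d, fun A _ => ⟨d * 13 ^ (2 * d), ?_⟩⟩
  intro N M _ hM hN hMN n' hn hnM
  have hnN : n' ≤ N := by
    rw [hN]
    omega
  change ∑ x, Ex p (fun o : Tor N d × Fin d → Bool => (avg n' (gi M o) x -
    Ex p (fun o' : Tor N d × Fin d → Bool => gi M o' 0)) ^ 2) ≤ _
  have hq : 0 ≤ 1 - p := by linarith
  have hpq : 0 ≤ p * (1 - p) := mul_nonneg hp.le hq
  have hp11 : p * (1 - p) ≤ 1 := by nlinarith
  have h1 : ∀ x : Tor N d, Ex p (fun o : Tor N d × Fin d → Bool => (avg n' (gi M o) x -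
      Ex p (fun o' : Tor N d × Fin d → Bool => gi M o' 0)) ^ 2) ≤
      ∑ e, p * (1 - p) * Ex p (fun o => (avg n' (gi M (up o e)) x -
        avg n' (gi M (dn o e)) x) ^ 2) := by
    intro x
    have h2 := VG.efron_stein' hp.le hp1.le
      (fun o : Tor N d × Fin d → Bool => avg n' (gi M o) x)
    rw [mean p hn x] at h2
    exact h2
  refine (Finset.sum_le_sum fun x _ => h1 x).trans ?_
  rw [Finset.sum_comm]
  set Q : ℝ := ((12 * M + 1 : ℝ) ^ d) ^ 2 / (n' : ℝ) ^ d with hQ
  have hQ0 : 0 ≤ Q := by positivity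
  have h2 : ∀ e : Tor N d × Fin d, ∑ x : Tor N d, p * (1 - p) *
      Ex p (fun o => (avg n' (gi M (up o e)) x - avg n' (gi M (dn o e)) x) ^ 2) ≤ Q := by
    intro e
    rw [← Finset.mul_sum, ← VG.Ex_sum' p univ fun (x : Tor N d) o =>
      (avg n' (gi M (up o e)) x - avg n' (gi M (dn o e)) x) ^ 2]
    have h3 : Ex p (fun o : Tor N d × Fin d → Bool => ∑ x,
        (avg n' (gi M (up o e)) x - avg n' (gi M (dn o e)) x) ^ 2) ≤ Q := by
      refine VG.Ex_le_const hp.le hp1.le fun o => ?_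
      have h4 := avg_sq_le_l1 hn hnN (fun y => gi M (up o e) y - gi M (dn o e) y)
      have h5 := sum_flip (M := M) o e
      have h6 : ∑ x, (avg n' (gi M (up o e)) x - avg n' (gi M (dn o e)) x) ^ 2 =
          ∑ x, avg n' (fun y => gi M (up o e) y - gi M (dn o e) y) x ^ 2 :=
        Finset.sum_congr rfl fun x _ => by rw [avg_sub]
      rw [h6]
      refine h4.trans ?_
      rw [hQ]
      refine div_le_div_of_nonneg_right ?_ (by positivity)
      exact pow_le_pow_left₀ (Finset.sum_nonneg fun _ _ => abs_nonneg _) h5 2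
    calc _ ≤ p * (1 - p) * Q := mul_le_mul_of_nonneg_left h3 hpq
      _ ≤ 1 * Q := mul_le_mul_of_nonneg_right hp11 hQ0
      _ = Q := one_mul _
  refine (Finset.sum_le_sum fun e _ => h2 e).trans ?_
  rw [Finset.sum_const, Finset.card_univ, nsmul_eq_mul, VG.card_edges]
  have hM' : (1 : ℝ) ≤ M := by exact_mod_cast hM
  have hn' : (1 : ℝ) ≤ n' := by exact_mod_cast hn
  have h3 : Q ≤ 13 ^ (2 * d) * (M : ℝ) ^ (2 * d) / n' := by
    have a1 : (12 * M + 1 : ℝ) ^ d ≤ (13 * M : ℝ) ^ d :=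
      pow_le_pow_left₀ (by positivity) (by linarith) d
    have a2 : ((12 * M + 1 : ℝ) ^ d) ^ 2 ≤ ((13 * M : ℝ) ^ d) ^ 2 :=
      pow_le_pow_left₀ (by positivity) a1 2
    have a3 : ((13 * M : ℝ) ^ d) ^ 2 = 13 ^ (2 * d) * (M : ℝ) ^ (2 * d) := by
      rw [mul_pow, mul_pow, ← pow_mul, ← pow_mul, mul_comm d 2]
    have a4 : (n' : ℝ) ≤ (n' : ℝ) ^ d := by
      calc (n' : ℝ) = (n' : ℝ) ^ 1 := (pow_one _).symm
        _ ≤ (n' : ℝ) ^ d := pow_le_pow_right₀ hn' hd
    rw [hQ, ← a3]
    exact div_le_div₀ (by positivity) a2 (by linarith) a4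
  have h4 : (0 : ℝ) ≤ d * (N : ℝ) ^ d := by positivity
  calc (d : ℝ) * (N : ℝ) ^ d * Q ≤ d * (N : ℝ) ^ d * (13 ^ (2 * d) * (M : ℝ) ^ (2 * d) / n') :=
        mul_le_mul_of_nonneg_left h3 h4
    _ = d * 13 ^ (2 * d) * (M : ℝ) ^ (2 * d) / n' * (N : ℝ) ^ d := by ring

end Pool.Agent.Lib.MP_566bac_pr.Hd
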