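import Pool.Agent.Lib.MP_566bac_pr.Hd.BAS

/-!
# Poincare inequality on a box of the grid; the difference along an open path
-/

open Finset
open scoped Classical

namespace Pool.Agent.Lib.MP_566bac_pr.Hd

variable {d : ℕ}

namespace PO1

/-- the segment of the `i`-th coordinate -/
noncomputable def seg (z : Vtx d) (m : ℕ) (i : Fin d) : Finset ℤ := Finset.Icc (z i - m) (z i + m)

theorem mem_Lam_iff {z w : Vtx d} {m : ℕ} : w ∈ Lam z m ↔ ∀ i, w i ∈ seg z m i := by
  unfold Lam seg
  rw [Fintype.mem_piFinset]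

theorem card_seg (z : Vtx d) (m : ℕ) (i : Fin d) : (seg z m i).card = 2 * m + 1 := by
  unfold seg
  rw [Int.card_Icc]
  omega

theorem update_mem {z w : Vtx d} {m : ℕ} {i : Fin d} {t : ℤ} (hw : w ∈ Lam z m)
    (ht : t ∈ seg z m i) : Function.update w i t ∈ Lam z m := by
  rw [mem_Lam_iff] at hw ⊢
  intro j
  by_cases h : j = i
  · subst h; rw [Function.update_self]; exact ht
  · rw [Function.update_of_ne h]; exact hw j

/-- the squared gradient in direction `i`, inside the box -/
noncomputable def gsq (z : Vtx d) (m : ℕ) (F : Vtx d → ℝ) (i : Fin d) (w : Vtx d) : ℝ :=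
  if w + ev i ∈ Lam z m then grad F w i ^ 2 else 0

theorem gsq_nonneg (z : Vtx d) (m : ℕ) (F : Vtx d → ℝ) (i : Fin d) (w : Vtx d) :
    0 ≤ gsq z m F i w := by
  unfold gsq
  split_ifs
  · positivity
  · exact le_rfl

theorem update_add_ev (w : Vtx d) (i : Fin d) (t : ℤ) :
    Function.update w i t + ev i = Function.update w i (t + 1) := by
  funext j
  by_cases h : j = i
  · subst h; simp [ev]
  · simp [ev, h]

/-- one dimensional telescoping, upwards -/
theorem line_up (z : Vtx d) (m : ℕ) (F : Vtx d → ℝ) (i : Fin d) {w : Vtx d} (hw : w ∈ Lam z m)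
    (s : ℤ) (n : ℕ) (hs : s ∈ seg z m i) (hn : s + n ∈ seg z m i) :
    (F (Function.update w i (s + n)) - F (Function.update w i s)) ^ 2 ≤
      n * ∑ t ∈ (Finset.Ico s (s + n)), gsq z m F i (Function.update w i t) := by
  have h1 : ∀ k : ℕ, k ≤ n → F (Function.update w i (s + k)) - F (Function.update w i s) =
      ∑ t ∈ Finset.range k, grad F (Function.update w i (s + t)) i := by
    intro k
    induction k with
    | zero => simp
    | succ k ih =>
      intro hk
      rw [Finset.sum_range_succ, ← ih (by omega)]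
      unfold grad
      rw [update_add_ev]
      push_cast
      rw [← add_assoc]
      ring
  rw [h1 n le_rfl]
  have h2 := sq_sum_le_card_mul_sum_sq (s := Finset.range n)
    (f := fun t : ℕ => grad F (Function.update w i (s + t)) i)
  rw [Finset.card_range] at h2
  refine h2.trans (mul_le_mul_of_nonneg_left ?_ (Nat.cast_nonneg _))
  have h3 : ∑ t ∈ (Finset.Ico s (s + n)), gsq z m F i (Function.update w i t) =
      ∑ t ∈ Finset.range n, gsq z m F i (Function.update w i (s + t)) := by
    refine Finset.sum_bij' (fun t _ => (t - s).toNat) (fun t _ => s + t) ?_ ?_ ?_ ?_ ?_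
    · intro t ht; rw [Finset.mem_Ico] at ht; rw [Finset.mem_range]; omega
    · intro t ht; rw [Finset.mem_range] at ht; rw [Finset.mem_Ico]; omega
    · intro t ht; rw [Finset.mem_Ico] at ht; omega
    · intro t ht; simp
    · intro t ht; rw [Finset.mem_Ico] at ht; congr 2; omega
  rw [h3]
  refine Finset.sum_le_sum fun t ht => ?_
  rw [Finset.mem_range] at ht
  unfold gsq
  rw [if_pos]
  rw [update_add_ev]
  apply update_mem hw
  unfold seg at hs hn ⊢
  rw [Finset.mem_Icc] at hs hn ⊢
  omega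

theorem line_sq (z : Vtx d) (m : ℕ) (F : Vtx d → ℝ) (i : Fin d) {w : Vtx d} (hw : w ∈ Lam z m)
    {s t : ℤ} (hs : s ∈ seg z m i) (ht : t ∈ seg z m i) :
    (F (Function.update w i t) - F (Function.update w i s)) ^ 2 ≤
      (2 * m + 1) * ∑ r ∈ seg z m i, gsq z m F i (Function.update w i r) := by
  wlog h : s ≤ t generalizing s t
  · have := this ht hs (by omega)
    calc _ = (F (Function.update w i s) - F (Function.update w i t)) ^ 2 := by ring
      _ ≤ _ := this
  obtain ⟨n, rfl⟩ := Int.le.dest h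
  refine (line_up z m F i hw s n hs ht).trans ?_
  have hn : (n : ℝ) ≤ 2 * m + 1 := by
    unfold seg at hs ht
    rw [Finset.mem_Icc] at hs ht
    have : n ≤ 2 * m + 1 := by omega
    exact_mod_cast this
  apply mul_le_mul hn _ (Finset.sum_nonneg fun r _ => gsq_nonneg _ _ _ _ _) (by positivity)
  apply Finset.sum_le_sum_of_subset_of_nonneg
  · intro r hr
    unfold seg at hs ht ⊢
    rw [Finset.mem_Icc] at hs ht ⊢
    rw [Finset.mem_Ico] at hr
    omega
  · intro r _ _
    exact gsq_nonneg _ _ _ _ _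

/-- exchanging the `i`-th coordinate with a free parameter -/
theorem sum_update (z : Vtx d) (m : ℕ) (i : Fin d) (g : Vtx d → ℝ) :
    ∑ w ∈ Lam z m, ∑ t ∈ seg z m i, g (Function.update w i t) =
      (2 * m + 1) * ∑ w ∈ Lam z m, g w := by
  have h : ∑ w ∈ Lam z m, ∑ t ∈ seg z m i, g (Function.update w i t) =
      ∑ w ∈ Lam z m, ∑ t ∈ seg z m i, g w := by
    rw [← Finset.sum_product', ← Finset.sum_product']
    refine Finset.sum_bij' (fun q _ => (Function.update q.1 i q.2, q.1 i))
      (fun q _ => (Function.update q.1 i q.2, q.1 i)) ?_ ?_ ?_ ?_ ?_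
    · intro q hq
      rw [Finset.mem_product] at hq ⊢
      exact ⟨update_mem hq.1 hq.2, (mem_Lam_iff.mp hq.1) i⟩
    · intro q hq
      rw [Finset.mem_product] at hq ⊢
      exact ⟨update_mem hq.1 hq.2, (mem_Lam_iff.mp hq.1) i⟩
    · intro q _
      simp
    · intro q _
      simp
    · intro q _
      rfl
  rw [h]
  simp only [Finset.sum_const, card_seg, nsmul_eq_mul]
  rw [← Finset.mul_sum]
  push_cast
  ring

/-- the hybrid of two points -/
def hyb (k : ℕ) (w w' : Vtx d) : Vtx d := fun i => if (i : ℕ) < k then w' i else w i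

theorem hyb_zero (w w' : Vtx d) : hyb 0 w w' = w := by
  funext i; simp [hyb]

theorem hyb_d (w w' : Vtx d) : hyb d w w' = w' := by
  funext i; simp [hyb]

theorem hyb_succ (k : Fin d) (w w' : Vtx d) :
    hyb ((k : ℕ) + 1) w w' = Function.update (hyb k w w') k (hyb k w' w k) := by
  funext i
  unfold hyb
  by_cases h : i = k
  · subst h; simp
  · rw [Function.update_of_ne h]
    have : (i : ℕ) ≠ k := fun hh => h (Fin.ext hh)
    by_cases h2 : (i : ℕ) < k
    · rw [if_pos (by omega), if_pos h2]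
    · rw [if_neg (by omega), if_neg h2]

theorem hyb_mem {z w w' : Vtx d} {m k : ℕ} (hw : w ∈ Lam z m) (hw' : w' ∈ Lam z m) :
    hyb k w w' ∈ Lam z m := by
  rw [mem_Lam_iff] at *
  intro i
  unfold hyb
  split_ifs
  · exact hw' i
  · exact hw i

theorem hyb_hyb (k : ℕ) (w w' : Vtx d) : hyb k (hyb k w w') (hyb k w' w) = w := by
  funext i
  unfold hyb
  by_cases h : (i : ℕ) < k <;> simp [h]

theorem pair_sum (z : Vtx d) (m : ℕ) (F : Vtx d → ℝ) (k : Fin d) :
    ∑ w ∈ Lam z m, ∑ w' ∈ Lam z m, (F (hyb k w w') - F (hyb ((k : ℕ) + 1) w w')) ^ 2 ≤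
      ((Lam z m).card : ℝ) * ((2 * m + 1) ^ 2 * ∑ w ∈ Lam z m, gsq z m F k w) := by
  have h1 : ∑ w ∈ Lam z m, ∑ w' ∈ Lam z m, (F (hyb k w w') - F (hyb ((k : ℕ) + 1) w w')) ^ 2 =
      ∑ u ∈ Lam z m, ∑ u' ∈ Lam z m, (F u - F (Function.update u k (u' k))) ^ 2 := by
    rw [← Finset.sum_product', ← Finset.sum_product']
    refine Finset.sum_bij' (fun q _ => (hyb k q.1 q.2, hyb k q.2 q.1))
      (fun q _ => (hyb k q.1 q.2, hyb k q.2 q.1)) ?_ ?_ ?_ ?_ ?_
    · intro q hq
      rw [Finset.mem_product] at hq ⊢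
      exact ⟨hyb_mem hq.1 hq.2, hyb_mem hq.2 hq.1⟩
    · intro q hq
      rw [Finset.mem_product] at hq ⊢
      exact ⟨hyb_mem hq.1 hq.2, hyb_mem hq.2 hq.1⟩
    · intro q _
      simp only [hyb_hyb]
    · intro q _
      simp only [hyb_hyb]
    · intro q _
      simp only
      rw [hyb_succ]
  rw [h1]
  have h2 : ∀ u ∈ Lam z m, ∑ u' ∈ Lam z m, (F u - F (Function.update u k (u' k))) ^ 2 ≤
      ((Lam z m).card : ℝ) * ((2 * m + 1) * ∑ r ∈ seg z m k, gsq z m F k (Function.update u k r)) := by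
    intro u hu
    rw [← nsmul_eq_mul]
    apply Finset.sum_le_card_nsmul
    intro u' hu'
    have h3 := line_sq z m F k hu ((mem_Lam_iff.mp hu') k) ((mem_Lam_iff.mp hu) k)
    rw [Function.update_eq_self] at h3
    exact h3
  refine (Finset.sum_le_sum h2).trans (le_of_eq ?_)
  rw [← Finset.mul_sum, ← Finset.mul_sum, sum_update]
  ring

end PO1

open PO1 in
theorem grid_poincare (d : ℕ) : ∃ C : ℝ, 0 < C ∧ ∀ (z : Vtx d) (m : ℕ) (F : Vtx d → ℝ), ∃ c : ℝ,
    ∑ w ∈ Lam z m, (F w - c) ^ 2 ≤ C * ((m : ℝ) + 1) ^ 2 *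
      ∑ w ∈ Lam z m, ∑ j, (if w + ev j ∈ Lam z m then grad F w j ^ 2 else 0) := by
  refine ⟨4 * d + 1, by positivity, fun z m F => ?_⟩
  set E := ∑ w ∈ Lam z m, ∑ j, (if w + ev j ∈ Lam z m then grad F w j ^ 2 else 0) with hE
  have hE0 : 0 ≤ E := by
    refine Finset.sum_nonneg fun w _ => Finset.sum_nonneg fun j _ => ?_
    split_ifs
    · positivity
    · exact le_rfl
  have hEk : E = ∑ k : Fin d, ∑ w ∈ Lam z m, gsq z m F k w := by
    rw [hE, Finset.sum_comm]
    rfl
  have hne : (Lam z m).Nonempty := ⟨z, mem_Lam.mpr (by rw [dst_self]; omega)⟩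
  have hcard : (0 : ℝ) < (Lam z m).card := by exact_mod_cast hne.card_pos
  have hpair : ∑ w' ∈ Lam z m, ∑ w ∈ Lam z m, (F w - F w') ^ 2 ≤
      ((Lam z m).card : ℝ) * (d * (2 * m + 1) ^ 2 * E) := by
    rw [Finset.sum_comm]
    have h1 : ∀ w w' : Vtx d, (F w - F w') ^ 2 ≤
        d * ∑ k : Fin d, (F (hyb k w w') - F (hyb ((k : ℕ) + 1) w w')) ^ 2 := by
      intro w w'
      have h2 : F w - F w' = ∑ k : Fin d, (F (hyb k w w') - F (hyb ((k : ℕ) + 1) w w')) := by
        rw [Fin.sum_univ_eq_sum_range (fun k => F (hyb k w w') - F (hyb (k + 1) w w')) d,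
          Finset.sum_range_sub' (fun k => F (hyb k w w')), hyb_zero, hyb_d]
      rw [h2]
      have h3 := sq_sum_le_card_mul_sum_sq (s := (Finset.univ : Finset (Fin d)))
        (f := fun k : Fin d => F (hyb k w w') - F (hyb ((k : ℕ) + 1) w w'))
      rw [Finset.card_univ, Fintype.card_fin] at h3
      exact h3
    refine (Finset.sum_le_sum fun w _ => Finset.sum_le_sum fun w' _ => h1 w w').trans ?_
    have h4 : ∑ w ∈ Lam z m, ∑ w' ∈ Lam z m,
        (d * ∑ k : Fin d, (F (hyb k w w') - F (hyb ((k : ℕ) + 1) w w')) ^ 2) =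
        d * ∑ k : Fin d, ∑ w ∈ Lam z m, ∑ w' ∈ Lam z m,
          (F (hyb k w w') - F (hyb ((k : ℕ) + 1) w w')) ^ 2 := by
      simp only [← Finset.mul_sum]
      congr 1
      rw [Finset.sum_comm]
      rw [Finset.sum_congr rfl fun w' _ => Finset.sum_comm]
      rw [Finset.sum_comm]
      refine Finset.sum_congr rfl fun k _ => ?_
      rw [Finset.sum_comm]
    rw [h4]
    have h5 : ∑ k : Fin d, ∑ w ∈ Lam z m, ∑ w' ∈ Lam z m,
          (F (hyb k w w') - F (hyb ((k : ℕ) + 1) w w')) ^ 2 ≤
        ∑ k : Fin d, ((Lam z m).card : ℝ) * ((2 * m + 1) ^ 2 * ∑ w ∈ Lam z m, gsq z m F k w) :=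
      Finset.sum_le_sum fun k _ => pair_sum z m F k
    refine (mul_le_mul_of_nonneg_left h5 (Nat.cast_nonneg _)).trans (le_of_eq ?_)
    rw [← Finset.mul_sum, ← Finset.mul_sum, ← hEk]
    ring
  obtain ⟨w', hw', hc⟩ : ∃ w' ∈ Lam z m, ∑ w ∈ Lam z m, (F w - F w') ^ 2 ≤
      d * (2 * m + 1) ^ 2 * E := by
    by_contra hcon
    push Not at hcon
    have h6 : ∑ w' ∈ Lam z m, (d * (2 * (m : ℝ) + 1) ^ 2 * E) <
        ∑ w' ∈ Lam z m, ∑ w ∈ Lam z m, (F w - F w') ^ 2 :=
      Finset.sum_lt_sum_of_nonempty hne hcon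
    rw [Finset.sum_const, nsmul_eq_mul] at h6
    exact absurd hpair (not_le.mpr h6)
  refine ⟨F w', hc.trans (mul_le_mul_of_nonneg_right ?_ hE0)⟩
  have hm : (0 : ℝ) ≤ m := Nat.cast_nonneg m
  have hd0 : (0 : ℝ) ≤ d := Nat.cast_nonneg d
  nlinarith [mul_nonneg hd0 hm, mul_nonneg hd0 (mul_nonneg hm hm), mul_nonneg hm hm]

namespace PO1

/-- the difference function on unordered pairs -/
noncomputable def dq (f : Vtx d → ℝ) : Sym2 (Vtx d) → ℝ :=
  Sym2.lift ⟨fun a b => (f a - f b) ^ 2, fun a b => by ring⟩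

theorem dq_mk (f : Vtx d → ℝ) (a b : Vtx d) : dq f s(a, b) = (f a - f b) ^ 2 := rfl

theorem dq_nonneg (f : Vtx d → ℝ) (e : Sym2 (Vtx d)) : 0 ≤ dq f e := by
  induction e with
  | _ a b => rw [dq_mk]; positivity

/-- telescoping along a walk -/
theorem walk_sq {H : SimpleGraph (Vtx d)} {x y : Vtx d} (p : H.Walk x y) (f : Vtx d → ℝ) :
    (f x - f y) ^ 2 ≤ p.length * (p.edges.map (dq f)).sum := by
  induction p with
  | nil => simp
  | cons h p ih =>
    rename_i u v w
    rw [SimpleGraph.Walk.edges_cons, List.map_cons, List.sum_cons, SimpleGraph.Walk.length_cons,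
      dq_mk]
    set n := (p.length : ℝ) with hn
    set S := (p.edges.map (dq f)).sum with hS
    have hn0 : 0 ≤ n := Nat.cast_nonneg _
    have hS0 : 0 ≤ S := by
      apply List.sum_nonneg
      intro a ha
      rw [List.mem_map] at ha
      obtain ⟨e, -, rfl⟩ := ha
      exact dq_nonneg f e
    push_cast
    rw [← hn]
    set a := f u - f v with ha
    set b := f v - f w with hb
    have hab : f u - f w = a + b := by rw [ha, hb]; ring
    rw [hab]
    -- `(a+b)^2 ≤ (n+1)(a^2 + S)` if `b^2 ≤ n S`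
    rcases hn0.eq_or_lt with h0 | h0
    · have hb0 : b = 0 := by
        have : b ^ 2 ≤ 0 := by rw [← h0, zero_mul] at ih; exact ih
        nlinarith [sq_nonneg b]
      rw [hb0, ← h0]
      nlinarith
    · have h1 : 0 ≤ (n * a - b) ^ 2 := sq_nonneg _
      have h2 : 2 * (n * a * b) ≤ n * (n * a ^ 2 + S) := by nlinarith
      have h3 : 2 * (a * b) ≤ n * a ^ 2 + S := by
        have : n * (2 * (a * b)) ≤ n * (n * a ^ 2 + S) := by linarith
        exact le_of_mul_le_mul_left this h0
      nlinarith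

end PO1

open PO1 in
theorem conn_sq {η : Conf d} {W : Finset (Vtx d)} {x y : Vtx d} (h : Conn η W x y)
    (f : Vtx d → ℝ) : (f x - f y) ^ 2 ≤ W.card * En η W f := by
  obtain ⟨hx, hy, ⟨p0⟩⟩ := h
  obtain ⟨q, hpath⟩ := p0.toPath
  have hsub : ∀ v ∈ q.support, v ∈ W := by
    have : ∀ {a b : Vtx d} (r : (res (G η) (W : Set (Vtx d))).Walk a b), a ∈ W →
        ∀ v ∈ r.support, v ∈ W := by
      intro a b r
      induction r with
      | nil => intro ha v hv; simp at hv; rw [hv]; exact ha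
      | cons h r ih =>
        intro ha v hv
        rw [SimpleGraph.Walk.support_cons, List.mem_cons] at hv
        rcases hv with rfl | hv
        · exact ha
        · exact ih (by exact_mod_cast h.2.2) v hv
    exact this q hx
  have hlen : q.length ≤ W.card := by
    have h1 : q.support.toFinset ⊆ W := by
      intro v hv
      rw [List.mem_toFinset] at hv
      exact hsub v hv
    have h2 := Finset.card_le_card h1
    rw [List.toFinset_card_of_nodup hpath.support_nodup, SimpleGraph.Walk.length_support] at h2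
    omega
  have hedge : (q.edges.map (dq f)).sum ≤ En η W f := by
    have hnd : q.edges.Nodup := hpath.isTrail.edges_nodup
    have h1 : (q.edges.map (dq f)).sum = ∑ e ∈ q.edges.toFinset, dq f e := by
      rw [List.sum_toFinset _ hnd]
    rw [h1]
    -- the edges of `W`
    set T := (W ×ˢ (Finset.univ : Finset (Fin d))).filter
      (fun a => η a.1 a.2 ∧ a.1 + ev a.2 ∈ W) with hT
    have h2 : En η W f = ∑ a ∈ T, dq f s(a.1, a.1 + ev a.2) := by
      unfold En
      rw [← Finset.sum_product', hT, Finset.sum_filter]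
      refine Finset.sum_congr rfl fun a _ => ?_
      split_ifs
      · rw [dq_mk]; unfold grad; ring
      · rfl
    rw [h2]
    have h3 : q.edges.toFinset ⊆ T.image (fun a => s(a.1, a.1 + ev a.2)) := by
      intro e he
      rw [List.mem_toFinset] at he
      rw [Finset.mem_image]
      induction e with
      | _ a b =>
        have hadj := SimpleGraph.Walk.adj_of_mem_edges q he
        obtain ⟨⟨j, hj⟩, haW, hbW⟩ := hadj
        rcases hj with ⟨h4, h5⟩ | ⟨h4, h5⟩
        · refine ⟨(a, j), ?_, ?_⟩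
          · rw [hT, Finset.mem_filter, Finset.mem_product]
            exact ⟨⟨by exact_mod_cast haW, Finset.mem_univ _⟩, h5, by
              simp only; rw [← h4]; exact_mod_cast hbW⟩
          · simp only; rw [← h4]
        · refine ⟨(b, j), ?_, ?_⟩
          · rw [hT, Finset.mem_filter, Finset.mem_product]
            exact ⟨⟨by exact_mod_cast hbW, Finset.mem_univ _⟩, h5, by
              simp only; rw [← h4]; exact_mod_cast haW⟩
          · simp only; rw [← h4]; exact Sym2.eq_swap
    refine (Finset.sum_le_sum_of_subset_of_nonneg h3 fun e _ _ => dq_nonneg f e).trans ?_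
    exact Finset.sum_image_le_of_nonneg (fun a _ => dq_nonneg f _)
  refine (walk_sq q f).trans ?_
  have hE0 : 0 ≤ (q.edges.map (dq f)).sum := by
    apply List.sum_nonneg
    intro a ha
    rw [List.mem_map] at ha
    obtain ⟨e, -, rfl⟩ := ha
    exact dq_nonneg f e
  exact mul_le_mul (by exact_mod_cast hlen) hedge hE0 (Nat.cast_nonneg _)

end Pool.Agent.Lib.MP_566bac_pr.Hd
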