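import Pool.Agent.Lib.MP_566bac_pr.Hd.BAS
import Pool.Agent.Lib.MP_566bac_pr.Hd.GE1
import Pool.Agent.Lib.MP_566bac_pr.Hd.PO1

/-!
# Poincare inequality on the far vertices of a box
-/

open Finset
open scoped Classical

namespace Pool.Agent.Lib.MP_566bac_pr.Hd

variable {d : ℕ}

namespace PO

/-- index of the grid box of a vertex -/
def idx (M : ℕ) (y : Vtx d) : Vtx d := fun i => y i / M

/-- the grid point with index `u` -/
def gp (M : ℕ) (u : Vtx d) : Vtx d := fun i => (M : ℤ) * u i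

theorem grid_gp (M : ℕ) (u : Vtx d) : Grid M (gp M u) := fun i => ⟨u i, rfl⟩

theorem dst_gp_idx {M : ℕ} (hM : 1 ≤ M) (y : Vtx d) : dst y (gp M (idx M y)) + 1 ≤ M ∨ d = 0 := by
  rcases Nat.eq_zero_or_pos d with h | h
  · exact Or.inr h
  · left
    have h1 : dst y (gp M (idx M y)) ≤ M - 1 := by
      rw [BAS_le_iff]
      intro i
      unfold gp idx
      have h2 := Int.emod_add_mul_ediv (y i) M
      have h3 := Int.emod_nonneg (y i) (b := (M : ℤ)) (by omega)
      have h4 := Int.emod_lt_of_pos (y i) (b := (M : ℤ)) (by omega)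
      omega
    omega

theorem dst_gp_idx_le {M : ℕ} (hM : 1 ≤ M) (y : Vtx d) : dst y (gp M (idx M y)) ≤ M - 1 := by
  rw [BAS_le_iff]
  intro i
  unfold gp idx
  have h2 := Int.emod_add_mul_ediv (y i) M
  have h3 := Int.emod_nonneg (y i) (b := (M : ℤ)) (by omega)
  have h4 := Int.emod_lt_of_pos (y i) (b := (M : ℤ)) (by omega)
  omega

theorem idx_dst {M R : ℕ} (hM : 1 ≤ M) {y z : Vtx d} (h : dst y z ≤ R) :
    dst (idx M y) (idx M z) ≤ R / M + 1 := by
  rw [BAS_le_iff] at h ⊢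
  intro i
  have hi := h i
  unfold idx
  have hM' : (0 : ℤ) < M := by omega
  have h1 := Int.emod_add_mul_ediv (y i) M
  have h2 := Int.emod_add_mul_ediv (z i) M
  have h3 := Int.emod_nonneg (y i) (b := (M : ℤ)) (by omega)
  have h4 := Int.emod_lt_of_pos (y i) (b := (M : ℤ)) (by omega)
  have h5 := Int.emod_nonneg (z i) (b := (M : ℤ)) (by omega)
  have h6 := Int.emod_lt_of_pos (z i) (b := (M : ℤ)) (by omega)
  have h7 : (R : ℤ) < M * ((R / M : ℕ) + 1 : ℕ) := by
    have := Nat.lt_mul_div_succ R (show 0 < M by omega)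
    exact_mod_cast this
  -- `M |a - b| < M (R/M + 2)`
  set a := y i / (M : ℤ) with ha
  set b := z i / (M : ℤ) with hb
  set q := R / M with hq
  have h8 : (M : ℤ) * (a - b) < M * ((q : ℤ) + 2) := by
    push_cast at h7
    have : (M : ℤ) * (a - b) ≤ R + (M - 1) := by
      have e : (M : ℤ) * (a - b) = M * a - M * b := by ring
      rw [e]
      omega
    have e2 : (M : ℤ) * ((q : ℤ) + 2) = M * ((q : ℤ) + 1) + M := by ring
    rw [e2]
    omega
  have h9 : (M : ℤ) * (b - a) < M * ((q : ℤ) + 2) := by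
    push_cast at h7
    have : (M : ℤ) * (b - a) ≤ R + (M - 1) := by
      have e : (M : ℤ) * (b - a) = M * b - M * a := by ring
      rw [e]
      omega
    have e2 : (M : ℤ) * ((q : ℤ) + 2) = M * ((q : ℤ) + 1) + M := by ring
    rw [e2]
    omega
  have h10 := lt_of_mul_lt_mul_left h8 hM'.le
  have h11 := lt_of_mul_lt_mul_left h9 hM'.le
  omega

theorem gp_dst (M : ℕ) (u v : Vtx d) : dst (gp M u) (gp M v) ≤ M * dst u v := by
  rw [BAS_le_iff]
  intro i
  have h := (BAS_le_iff (x := u) (y := v)).1 le_rfl i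
  unfold gp
  rw [← mul_sub, Int.natAbs_mul, Int.natAbs_natCast]
  exact Nat.mul_le_mul_left _ h

/-- number of indices near a vertex -/
theorem card_near {M k : ℕ} (hM : 1 ≤ M) (S : Finset (Vtx d)) (x : Vtx d) :
    (S.filter fun u => dst x (gp M u) ≤ k * M).card ≤ (2 * k + 1 + 1) ^ d := by
  have hsub : (S.filter fun u => dst x (gp M u) ≤ k * M) ⊆
      Fintype.piFinset fun i => Finset.Icc (x i / (M : ℤ) - k) (x i / (M : ℤ) + k + 1) := by
    intro u hu
    rw [Finset.mem_filter, BAS_le_iff] at hu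
    rw [Fintype.mem_piFinset]
    intro i
    have hi := hu.2 i
    unfold gp at hi
    rw [Finset.mem_Icc]
    have hM' : (0 : ℤ) < M := by omega
    have h1 := Int.emod_add_mul_ediv (x i) M
    have h3 := Int.emod_nonneg (x i) (b := (M : ℤ)) (by omega)
    have h4 := Int.emod_lt_of_pos (x i) (b := (M : ℤ)) (by omega)
    set a := x i / (M : ℤ) with ha
    have hi' : |x i - M * u i| ≤ k * M := by
      rw [Int.abs_eq_natAbs]
      exact_mod_cast hi
    rw [abs_le] at hi'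
    constructor
    · have : (M : ℤ) * (a - k - 1) < M * u i := by
        have e : (M : ℤ) * (a - k - 1) = M * a - k * M - M := by ring
        rw [e]
        omega
      have := lt_of_mul_lt_mul_left this hM'.le
      omega
    · have : (M : ℤ) * u i < M * (a + k + 1 + 1) := by
        have e : (M : ℤ) * (a + k + 1 + 1) = M * a + k * M + M + M := by ring
        rw [e]
        omega
      have := lt_of_mul_lt_mul_left this hM'.le
      omega
  refine (Finset.card_le_card hsub).trans ?_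
  rw [Fintype.card_piFinset]
  have : ∀ i : Fin d, (Finset.Icc (x i / (M : ℤ) - k) (x i / (M : ℤ) + k + 1)).card =
      2 * k + 1 + 1 := by
    intro i
    rw [Int.card_Icc]
    omega
  simp [this]

theorem En_nonneg (η : Conf d) (W : Finset (Vtx d)) (f : Vtx d → ℝ) : 0 ≤ En η W f := by
  unfold En
  refine Finset.sum_nonneg fun x _ => Finset.sum_nonneg fun j _ => ?_
  split_ifs
  · positivity
  · exact le_rfl

/-- sum of the energies of overlapping boxes -/
theorem sum_En {M k r : ℕ} (hM : 1 ≤ M) (η : Conf d) (S : Finset (Vtx d)) (z : Vtx d)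
    (f : Vtx d → ℝ) (h : ∀ u ∈ S, Lam (gp M u) (k * M) ⊆ Lam z r) :
    ∑ u ∈ S, En η (Lam (gp M u) (k * M)) f ≤ ((2 * k + 1 + 1 : ℕ) : ℝ) ^ d * En η (Lam z r) f := by
  have h1 : ∀ u ∈ S, En η (Lam (gp M u) (k * M)) f ≤
      ∑ x ∈ Lam z r, ∑ j, if (η x j ∧ x + ev j ∈ Lam z r) ∧ dst x (gp M u) ≤ k * M then
        (grad f x j) ^ 2 else 0 := by
    intro u hu
    unfold En
    refine (Finset.sum_le_sum (g := fun x => ∑ j, if (η x j ∧ x + ev j ∈ Lam z r) ∧
      dst x (gp M u) ≤ k * M then (grad f x j) ^ 2 else 0) fun x hx =>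
      Finset.sum_le_sum fun j _ => ?_).trans
      (Finset.sum_le_sum_of_subset_of_nonneg (h u hu) fun x _ _ => Finset.sum_nonneg fun j _ => ?_)
    · by_cases hc : η x j ∧ x + ev j ∈ Lam (gp M u) (k * M)
      · rw [if_pos hc, if_pos ⟨⟨hc.1, h u hu hc.2⟩, mem_Lam.1 hx⟩]
      · rw [if_neg hc]
        split_ifs
        · positivity
        · exact le_rfl
    · split_ifs
      · positivity
      · exact le_rfl
  refine (Finset.sum_le_sum h1).trans ?_
  rw [Finset.sum_comm]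
  unfold En
  rw [Finset.mul_sum]
  refine Finset.sum_le_sum fun x _ => ?_
  rw [Finset.sum_comm, Finset.mul_sum]
  refine Finset.sum_le_sum fun j _ => ?_
  by_cases hc : η x j ∧ x + ev j ∈ Lam z r
  · simp only [hc, true_and, if_true, and_self]
    rw [← Finset.sum_filter, Finset.sum_const, nsmul_eq_mul]
    refine mul_le_mul_of_nonneg_right ?_ (sq_nonneg _)
    exact_mod_cast card_near hM S x
  · simp only [hc, false_and, if_false, Finset.sum_const_zero, mul_zero, le_refl]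

end PO

open PO in
/-- PO -/
theorem poincare (d : ℕ) (hd : 1 ≤ d) : ∃ C : ℕ, ∀ (M R : ℕ), 1 ≤ M → M ≤ R → ∀ (η : Conf d)
    (z : Vtx d), (∀ w, Grid M w → dst w z ≤ R + 2 * M → Good η M w) → ∀ f : Vtx d → ℝ, ∃ c : ℝ,
      ∑ y ∈ (Lam z R).filter (Far η (6 * M)), (f y - c) ^ 2 ≤
        C * (M : ℝ) ^ C * (R : ℝ) ^ 2 * En η (Lam z (R + 12 * M)) f := by
  obtain ⟨C1, hC1, hgp⟩ := grid_poincare d
  set C2 : ℝ := 2 * 3 ^ d * 17 ^ d * 18 ^ d * (1 + 9 * C1 * d) with hC2
  obtain ⟨C3, hC3⟩ := exists_nat_ge C2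
  refine ⟨max C3 (2 * d), ?_⟩
  intro M R hM hMR η z hgood f
  set m := R / M + 1 with hm
  set u₀ := idx M z with hu₀
  set r := R + 12 * M with hr
  set EE := En η (Lam z r) f with hEE
  have hEE0 : 0 ≤ EE := En_nonneg _ _ _
  have hMm : M * m ≤ R + M := by
    rw [hm, Nat.mul_succ]
    have := Nat.mul_div_le R M
    omega
  have hz : dst z (gp M u₀) ≤ M - 1 := dst_gp_idx_le hM z
  have hbox : ∀ u ∈ Lam u₀ m, dst (gp M u) z ≤ R + 2 * M - 1 := by
    intro u hu
    rw [mem_Lam] at hu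
    have h1 := gp_dst M u u₀
    have h2 := dst_triangle (gp M u) (gp M u₀) z
    rw [dst_comm (gp M u₀) z] at h2
    have h3 : M * dst u u₀ ≤ M * m := Nat.mul_le_mul_left _ hu
    omega
  have hG : ∀ u ∈ Lam u₀ m, Good η M (gp M u) := fun u hu =>
    hgood _ (grid_gp M u) (by have := hbox u hu; omega)
  have hanchor : ∀ u : Vtx d, ∃ x : Vtx d, u ∈ Lam u₀ m → dst x (gp M u) ≤ M ∧ Far η (9 * M) x := by
    intro u
    by_cases hu : u ∈ Lam u₀ m
    · obtain ⟨x, hx⟩ := good_anchor (hG u hu)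
      exact ⟨x, fun _ => hx⟩
    · exact ⟨0, fun h => absurd h hu⟩
  choose a ha using hanchor
  set F : Vtx d → ℝ := fun u => f (a u) with hF
  have hsub : ∀ u ∈ Lam u₀ m, Lam (gp M u) (8 * M) ⊆ Lam z r := by
    intro u hu
    apply Lam_subset
    have := hbox u hu
    omega
  have hcard8 : ∀ w : Vtx d, ((Lam w (8 * M)).card : ℝ) = (16 * (M : ℝ) + 1) ^ d := by
    intro w
    rw [card_Lam]
    push_cast
    ring
  set K : ℝ := (16 * (M : ℝ) + 1) ^ d with hK
  have hK0 : 0 ≤ K := by positivity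
  -- gradient of the anchors
  have hgradF : ∀ u ∈ Lam u₀ m, ∀ j, u + ev j ∈ Lam u₀ m →
      grad F u j ^ 2 ≤ K * En η (Lam (gp M u) (8 * M)) f := by
    intro u hu j huj
    have h1 := ha u hu
    have h2 := ha _ huj
    have h3 : dst (a (u + ev j)) (gp M u) ≤ 2 * M := by
      have h4 := dst_triangle (a (u + ev j)) (gp M (u + ev j)) (gp M u)
      have h5 := gp_dst M (u + ev j) u
      have h6 := dst_add_ev u j
      have h7 : M * dst (u + ev j) u ≤ M * 1 := Nat.mul_le_mul_left _ h6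
      omega
    have hc := good_conn (hG u hu) h3 (by omega : dst (a u) (gp M u) ≤ 2 * M)
      (far_mono (by omega) h2.2) (far_mono (by omega) h1.2)
    have h8 := conn_sq hc f
    rw [hcard8] at h8
    exact h8
  -- vertices and anchors
  have hvert : ∀ y ∈ (Lam z R).filter (Far η (6 * M)), idx M y ∈ Lam u₀ m ∧
      (f y - F (idx M y)) ^ 2 ≤ K * En η (Lam (gp M (idx M y)) (8 * M)) f := by
    intro y hy
    rw [Finset.mem_filter, mem_Lam] at hy
    have h1 : idx M y ∈ Lam u₀ m := mem_Lam.2 (idx_dst hM hy.1)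
    refine ⟨h1, ?_⟩
    have h2 := ha _ h1
    have h3 := dst_gp_idx_le hM y
    have hc := good_conn (hG _ h1) (by omega : dst y (gp M (idx M y)) ≤ 2 * M)
      (by omega : dst (a (idx M y)) (gp M (idx M y)) ≤ 2 * M) hy.2
      (far_mono (by omega) h2.2)
    have h8 := conn_sq hc f
    rw [hcard8] at h8
    exact h8
  obtain ⟨c, hc⟩ := hgp u₀ m F
  refine ⟨c, ?_⟩
  have hsumE : ∑ u ∈ Lam u₀ m, En η (Lam (gp M u) (8 * M)) f ≤ (18 : ℝ) ^ d * EE := by
    have := sum_En (k := 8) (r := r) hM η (Lam u₀ m) z f hsub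
    norm_num at this
    exact this
  -- the sum over the grid
  have hgrid : ∑ u ∈ Lam u₀ m, (F u - c) ^ 2 ≤
      C1 * ((m : ℝ) + 1) ^ 2 * (d * (K * ((18 : ℝ) ^ d * EE))) := by
    refine hc.trans (mul_le_mul_of_nonneg_left ?_ (by positivity))
    have h1 : ∀ u ∈ Lam u₀ m, ∑ j, (if u + ev j ∈ Lam u₀ m then grad F u j ^ 2 else 0) ≤
        d * (K * En η (Lam (gp M u) (8 * M)) f) := by
      intro u hu
      have h2 : ∀ j ∈ (Finset.univ : Finset (Fin d)),
          (if u + ev j ∈ Lam u₀ m then grad F u j ^ 2 else 0) ≤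
          K * En η (Lam (gp M u) (8 * M)) f := by
        intro j _
        split_ifs with hj
        · exact hgradF u hu j hj
        · exact mul_nonneg hK0 (En_nonneg _ _ _)
      refine (Finset.sum_le_card_nsmul _ _ _ h2).trans (le_of_eq ?_)
      rw [Finset.card_univ, Fintype.card_fin, nsmul_eq_mul]
    refine (Finset.sum_le_sum h1).trans ?_
    rw [← Finset.mul_sum, ← Finset.mul_sum]
    exact mul_le_mul_of_nonneg_left (mul_le_mul_of_nonneg_left hsumE hK0) (Nat.cast_nonneg _)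
  -- the fibres
  have hfib : ∀ u : Vtx d, (((Lam z R).filter (Far η (6 * M))).filter
      (fun y => idx M y = u)).card ≤ (3 * M) ^ d := by
    intro u
    have h1 : ((Lam z R).filter (Far η (6 * M))).filter (fun y => idx M y = u) ⊆
        Lam (gp M u) M := by
      intro y hy
      rw [Finset.mem_filter] at hy
      rw [mem_Lam, ← hy.2]
      have := dst_gp_idx_le hM y
      omega
    refine (Finset.card_le_card h1).trans ?_
    rw [card_Lam]
    exact Nat.pow_le_pow_left (by omega) d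
  have hmain : ∑ y ∈ (Lam z R).filter (Far η (6 * M)), (f y - c) ^ 2 ≤
      ∑ u ∈ Lam u₀ m, ((3 * M) ^ d : ℕ) * (2 * (K * En η (Lam (gp M u) (8 * M)) f) +
        2 * (F u - c) ^ 2) := by
    rw [← Finset.sum_fiberwise_of_maps_to (t := Lam u₀ m) (g := idx M)
      (fun y hy => (hvert y hy).1)]
    refine Finset.sum_le_sum fun u hu => ?_
    have h1 : ∀ y ∈ ((Lam z R).filter (Far η (6 * M))).filter (fun y => idx M y = u),
        (f y - c) ^ 2 ≤ 2 * (K * En η (Lam (gp M u) (8 * M)) f) + 2 * (F u - c) ^ 2 := by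
      intro y hy
      rw [Finset.mem_filter] at hy
      have h2 := (hvert y hy.1).2
      rw [hy.2] at h2
      nlinarith [sq_nonneg ((f y - F u) - (F u - c))]
    refine (Finset.sum_le_card_nsmul _ _ _ h1).trans ?_
    rw [nsmul_eq_mul]
    refine mul_le_mul_of_nonneg_right ?_ ?_
    · exact_mod_cast hfib u
    · have := En_nonneg η (Lam (gp M u) (8 * M)) f
      positivity
  refine hmain.trans ?_
  rw [← Finset.mul_sum, Finset.sum_add_distrib, ← Finset.mul_sum, ← Finset.mul_sum,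
    ← Finset.mul_sum]
  have hM1 : (1 : ℝ) ≤ M := by exact_mod_cast hM
  have hR1 : (M : ℝ) ≤ R := by exact_mod_cast hMR
  have hd0 : (0 : ℝ) ≤ d := Nat.cast_nonneg d
  have hm1 : (m : ℝ) + 1 ≤ 3 * R := by
    have h1 : R / M ≤ R := Nat.div_le_self _ _
    have h2 : m + 1 ≤ 3 * R := by omega
    exact_mod_cast h2
  have hm2 : ((m : ℝ) + 1) ^ 2 ≤ 9 * R ^ 2 := by
    have : (0 : ℝ) ≤ (m : ℝ) + 1 := by positivity
    nlinarith
  have hK17 : K ≤ 17 ^ d * (M : ℝ) ^ d := by
    rw [hK, ← mul_pow]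
    exact pow_le_pow_left₀ (by positivity) (by linarith) d
  have hR2 : (1 : ℝ) ≤ (R : ℝ) ^ 2 := by nlinarith
  have hfin : (((3 * M) ^ d : ℕ) : ℝ) * (2 * (K * ∑ u ∈ Lam u₀ m, En η (Lam (gp M u) (8 * M)) f) +
      2 * ∑ u ∈ Lam u₀ m, (F u - c) ^ 2) ≤ C2 * (M : ℝ) ^ (2 * d) * (R : ℝ) ^ 2 * EE := by
    have e1 : (((3 * M) ^ d : ℕ) : ℝ) = 3 ^ d * (M : ℝ) ^ d := by
      push_cast
      rw [mul_pow]
    rw [e1]
    have h1 : 2 * (K * ∑ u ∈ Lam u₀ m, En η (Lam (gp M u) (8 * M)) f) +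
      2 * ∑ u ∈ Lam u₀ m, (F u - c) ^ 2 ≤
        2 * (K * ((18 : ℝ) ^ d * EE)) * (1 + 9 * C1 * d) * (R : ℝ) ^ 2 := by
      have hKE : 0 ≤ K * ((18 : ℝ) ^ d * EE) := by positivity
      have h2 : K * ∑ u ∈ Lam u₀ m, En η (Lam (gp M u) (8 * M)) f ≤
          K * ((18 : ℝ) ^ d * EE) * (R : ℝ) ^ 2 := by
        refine (mul_le_mul_of_nonneg_left hsumE hK0).trans ?_
        exact le_mul_of_one_le_right hKE hR2
      have h3 : ∑ u ∈ Lam u₀ m, (F u - c) ^ 2 ≤
          C1 * (9 * R ^ 2) * (d * (K * ((18 : ℝ) ^ d * EE))) := by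
        refine hgrid.trans ?_
        exact mul_le_mul_of_nonneg_right (mul_le_mul_of_nonneg_left hm2 hC1.le) (by positivity)
      have e2 : 2 * (K * ((18 : ℝ) ^ d * EE)) * (1 + 9 * C1 * d) * (R : ℝ) ^ 2 =
          2 * (K * ((18 : ℝ) ^ d * EE) * (R : ℝ) ^ 2) +
            2 * (C1 * (9 * R ^ 2) * (d * (K * ((18 : ℝ) ^ d * EE)))) := by ring
      rw [e2]
      linarith
    calc 3 ^ d * (M : ℝ) ^ d * (2 * (K * ∑ u ∈ Lam u₀ m, En η (Lam (gp M u) (8 * M)) f) +
      2 * ∑ u ∈ Lam u₀ m, (F u - c) ^ 2)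
        ≤ 3 ^ d * (M : ℝ) ^ d * (2 * (K * ((18 : ℝ) ^ d * EE)) * (1 + 9 * C1 * d) * (R : ℝ) ^ 2) :=
          mul_le_mul_of_nonneg_left h1 (by positivity)
      _ ≤ 3 ^ d * (M : ℝ) ^ d * (2 * ((17 ^ d * (M : ℝ) ^ d) * ((18 : ℝ) ^ d * EE)) *
            (1 + 9 * C1 * d) * (R : ℝ) ^ 2) := by
          gcongr
      _ = C2 * (M : ℝ) ^ (2 * d) * (R : ℝ) ^ 2 * EE := by
          rw [hC2, two_mul d, pow_add]
          ring
  refine hfin.trans ?_
  have hC3' : C2 ≤ ((max C3 (2 * d) : ℕ) : ℝ) :=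
    hC3.trans (by exact_mod_cast le_max_left _ _)
  have hpow : (M : ℝ) ^ (2 * d) ≤ (M : ℝ) ^ (max C3 (2 * d)) :=
    pow_le_pow_right₀ hM1 (le_max_right _ _)
  gcongr

end Pool.Agent.Lib.MP_566bac_pr.Hd
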