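import Pool.Agent.Lib.MP_566bac_pr.Hd.DefsC
import Pool.Agent.Lib.MP_566bac_pr.Hd.BAS
import Pool.Agent.Lib.MP_566bac_pr.Hd.EX1
import Pool.Agent.Lib.MP_566bac_pr.Hd.OP1
import Pool.Agent.Lib.MP_566bac_pr.Hd.CF
import Pool.Agent.Lib.MP_566bac_pr.Hd.TG1
import Pool.Agent.Lib.MP_566bac_pr.Hd.PO
import Pool.Agent.Lib.MP_566bac_pr.Hd.GS
import Pool.Agent.Lib.MP_566bac_pr.Hd.SY2
import Pool.Agent.Lib.MP_566bac_pr.Hd.V1

/-!
# V5: the effective coefficient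
-/

open Finset MeasureTheory ProbabilityTheory Filter
open scoped Classical

namespace Pool.Agent.Lib.MP_566bac_pr.Hd

variable {d : ℕ}

section V5Exp
variable {ι : Type*} [Fintype ι]

theorem V5_Ex_const (p c : ℝ) : Ex p (fun _ : ι → Bool => c) = c := by
  unfold Ex
  rw [← Finset.sum_mul, wt_sum, one_mul]

theorem V5_Ex_add (p : ℝ) (f g : (ι → Bool) → ℝ) :
    Ex p (fun ω => f ω + g ω) = Ex p f + Ex p g := by
  unfold Ex
  rw [← Finset.sum_add_distrib]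
  exact Finset.sum_congr rfl fun ω _ => mul_add _ _ _

theorem V5_Ex_mul (p c : ℝ) (f : (ι → Bool) → ℝ) : Ex p (fun ω => c * f ω) = c * Ex p f := by
  unfold Ex
  rw [Finset.mul_sum]
  exact Finset.sum_congr rfl fun ω _ => by ring

theorem V5_Ex_sum {κ : Type*} (s : Finset κ) (p : ℝ) (f : κ → (ι → Bool) → ℝ) :
    Ex p (fun ω => ∑ k ∈ s, f k ω) = ∑ k ∈ s, Ex p (f k) := by
  unfold Ex
  simp_rw [Finset.mul_sum]
  exact Finset.sum_comm

theorem V5_Ex_nonneg {p : ℝ} (h0 : 0 ≤ p) (h1 : p ≤ 1) {f : (ι → Bool) → ℝ}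
    (h : ∀ ω, 0 ≤ f ω) : 0 ≤ Ex p f := by
  unfold Ex
  exact Finset.sum_nonneg fun ω _ => mul_nonneg (wt_nonneg h0 h1 ω) (h ω)

end V5Exp

theorem V5_card {N : ℕ} [NeZero N] : (Fintype.card (Tor N d) : ℝ) = (N : ℝ) ^ d := by
  rw [Fintype.card_fun, ZMod.card, Fintype.card_fin]
  push_cast
  rfl

theorem V5_flux_sum {N : ℕ} [NeZero N] (μ : ℝ) (o : Tor N d × Fin d → Bool) (i : Fin d) :
    ∑ x, flux μ o i i x = ∑ e, if o e then xi i e * Zf tsrc ttgt μ o (xi i) e else 0 := by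
  rw [Fintype.sum_prod_type]
  refine Finset.sum_congr rfl fun x _ => ?_
  rw [Finset.sum_eq_single i]
  · simp [flux, xi]
  · intro j _ hj
    simp [xi, hj]
  · simp

theorem V5_xi_sq {N : ℕ} [NeZero N] (o : Tor N d × Fin d → Bool) (i : Fin d) :
    ∑ e, (if o e then xi i e ^ 2 else 0) ≤ (N : ℝ) ^ d := by
  have h1 : ∑ e : Tor N d × Fin d, (if o e then xi i e ^ 2 else 0) ≤
      ∑ e : Tor N d × Fin d, xi i e ^ 2 := by
    refine Finset.sum_le_sum fun e _ => ?_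
    split_ifs
    · exact le_rfl
    · positivity
  refine h1.trans ?_
  rw [Fintype.sum_prod_type]
  have h2 : ∀ x : Tor N d, ∑ j : Fin d, xi i (x, j) ^ 2 = 1 := by
    intro x
    rw [Finset.sum_eq_single i]
    · simp [xi]
    · intro j _ hj
      simp [xi, hj]
    · simp
  rw [Finset.sum_congr rfl fun x _ => h2 x, Finset.sum_const, nsmul_eq_mul, Finset.card_univ,
    V5_card, mul_one]

theorem V5_prj_inj {N : ℕ} [NeZero N] {z : Vtx d} {ρ : ℕ} (h : 2 * ρ < N) :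
    Set.InjOn (prj N) (Lam z ρ : Set (Vtx d)) := by
  intro x hx y hy hxy
  have hx' := mem_Lam.1 (Finset.mem_coe.1 hx)
  have hy' := mem_Lam.1 (Finset.mem_coe.1 hy)
  funext i
  have h1 : ((x i : ℤ) : ZMod N) = ((y i : ℤ) : ZMod N) := congrFun hxy i
  have h2 := (ZMod.intCast_eq_intCast_iff_dvd_sub _ _ _).1 h1
  have hxi := BAS_le_iff.1 hx' i
  have hyi := BAS_le_iff.1 hy' i
  have h3 : (y i - x i).natAbs < N := by omega
  have h4 := Int.eq_zero_of_dvd_of_natAbs_lt_natAbs h2 (by simpa using h3)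
  omega

theorem V5_box_sum {N : ℕ} [NeZero N] {z : Vtx d} {ρ : ℕ} (h : 2 * ρ < N) {g : Tor N d → ℝ}
    (hg : ∀ x, 0 ≤ g x) : ∑ y ∈ Lam z ρ, g (prj N y) ≤ ∑ x, g x := by
  rw [← Finset.sum_image (f := g) (g := prj N) (s := Lam z ρ) (V5_prj_inj h)]
  exact Finset.sum_le_sum_of_subset_of_nonneg (Finset.subset_univ _) (fun y _ _ => hg y)

/-- the corrected coordinate -/
noncomputable def V5_f {N : ℕ} [NeZero N] (μ : ℝ) (o : Tor N d × Fin d → Bool) (i : Fin d)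
    (y : Vtx d) : ℝ := ((y i : ℤ) : ℝ) + phi μ o i (prj N y)

theorem V5_grad {N : ℕ} [NeZero N] (μ : ℝ) (o : Tor N d × Fin d → Bool) (i j : Fin d)
    (y : Vtx d) : grad (V5_f μ o i) y j = Zf tsrc ttgt μ o (xi i) (prj N y, j) := by
  have h0 : prj N (y + ev j) = ttgt ((prj N y, j) : Tor N d × Fin d) := by
    rw [TG1_prj_add, TG1_prj_ev]
    rfl
  unfold grad V5_f Zf gr
  rw [h0]
  have h1 : (((y + ev j) i : ℤ) : ℝ) = (y i : ℝ) + xi i ((prj N y, j) : Tor N d × Fin d) := by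
    unfold xi ev
    by_cases h : j = i
    · subst h
      simp
    · have h' : i ≠ j := fun h2 => h h2.symm
      simp [h, h']
  rw [h1]
  have h2 : tsrc ((prj N y, j) : Tor N d × Fin d) = prj N y := rfl
  rw [h2]
  unfold phi
  ring

theorem V5_En_le {N : ℕ} [NeZero N] (μ : ℝ) (o : Tor N d × Fin d → Bool) (i : Fin d)
    {z : Vtx d} {ρ : ℕ} (h : 2 * ρ < N) :
    En (lift o) (Lam z ρ) (V5_f μ o i) ≤
      ∑ e, if o e then Zf tsrc ttgt μ o (xi i) e ^ 2 else 0 := by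
  rw [Fintype.sum_prod_type]
  unfold En
  have h1 : ∑ x ∈ Lam z ρ, ∑ j, (if lift o x j ∧ x + ev j ∈ Lam z ρ then
      (grad (V5_f μ o i) x j) ^ 2 else 0) ≤
      ∑ x ∈ Lam z ρ, (fun y : Tor N d => ∑ j, if o (y, j) then
        Zf tsrc ttgt μ o (xi i) (y, j) ^ 2 else 0) (prj N x) := by
    refine Finset.sum_le_sum fun x _ => ?_
    refine Finset.sum_le_sum fun j _ => ?_
    rw [V5_grad]
    by_cases h2 : o (prj N x, j) = true
    · rw [if_pos h2]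
      split_ifs
      · exact le_rfl
      · positivity
    · have h3 : ¬ (lift o x j ∧ x + ev j ∈ Lam z ρ) := fun h4 => h2 h4.1
      rw [if_neg h3, if_neg h2]
  refine h1.trans (V5_box_sum (g := fun y : Tor N d => ∑ j, if o (y, j) then
        Zf tsrc ttgt μ o (xi i) (y, j) ^ 2 else 0) h fun y => ?_)
  refine Finset.sum_nonneg fun j _ => ?_
  split_ifs
  · positivity
  · exact le_rfl

/-- deterministic lower bound of the energy -/
theorem V5_det (d : ℕ) (hd : 1 ≤ d) : ∃ C : ℕ, 1 ≤ C ∧ ∀ {N M : ℕ} [NeZero N] (s : ℕ), 1 ≤ M →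
    12 * M ≤ s → N = 16 * s → ∀ {o : Tor N d × Fin d → Bool}, GoodT M o → ∀ (μ : ℝ) (i : Fin d),
      (s : ℝ) ^ d ≤ C * (M : ℝ) ^ C * (∑ e, (if o e then Zf tsrc ttgt μ o (xi i) e ^ 2 else 0) +
        (∑ x, if Giant M o x then phi μ o i x ^ 2 else 0) / (s : ℝ) ^ 2) := by
  obtain ⟨C1, hC1⟩ := count_far d
  obtain ⟨C2, hC2⟩ := poincare d hd
  refine ⟨18 * (C1 + 1) * (C2 + 1) + C1 + C2, by nlinarith, ?_⟩
  intro N M _ s hM hs hN o ho μ i
  have hs1 : 1 ≤ s := by omega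
  have hsR : (0 : ℝ) < s := by positivity
  have hMR : (1 : ℝ) ≤ M := by exact_mod_cast hM
  obtain ⟨c, hc⟩ := hC2 M (3 * s) hM (by omega) (lift o) 0 (fun w hw _ => ho w hw) (V5_f μ o i)
  -- the sign
  obtain ⟨σ, hσ, hσc⟩ : ∃ σ : ℤ, (σ = 1 ∨ σ = -1) ∧ (σ : ℝ) * c ≤ 0 := by
    rcases le_total c 0 with h | h
    · exact ⟨1, Or.inl rfl, by simpa using h⟩
    · exact ⟨-1, Or.inr rfl, by simpa using h⟩
  set z1 : Vtx d := fun k => if k = i then 2 * s * σ else 0 with hz1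
  have hcount := hC1 M s hM (by omega) (lift o) z1 (fun w hw _ => ho w hw)
  set Q := (Lam z1 s).filter (Far (lift o) (6 * M)) with hQ
  set Φ := ∑ x, (if Giant M o x then phi μ o i x ^ 2 else 0) with hΦ
  set 𝓔 := ∑ e, (if o e then Zf tsrc ttgt μ o (xi i) e ^ 2 else 0) with h𝓔
  have hΦ0 : 0 ≤ Φ := by
    refine Finset.sum_nonneg fun x _ => ?_
    split_ifs
    · positivity
    · exact le_rfl
  have h𝓔0 : 0 ≤ 𝓔 := by
    refine Finset.sum_nonneg fun x _ => ?_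
    split_ifs
    · positivity
    · exact le_rfl
  have hsub : Q ⊆ (Lam 0 (3 * s)).filter (Far (lift o) (6 * M)) := by
    refine Finset.filter_subset_filter _ (Lam_subset ?_)
    have : dst z1 0 ≤ 2 * s := by
      rw [BAS_le_iff]
      intro k
      by_cases h : k = i
      · simp only [hz1, h, if_true, Pi.zero_apply, sub_zero]
        rcases hσ with h2 | h2 <;> rw [h2] <;> omega
      · simp [hz1, h]
    omega
  have hyi : ∀ y ∈ Q, (s : ℝ) ^ 2 ≤ ((y i : ℤ) - c) ^ 2 := by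
    intro y hy
    have hy1 := (mem_Lam.1 (Finset.mem_filter.1 hy).1)
    have hy2 := BAS_le_iff.1 hy1 i
    have hy3 : (s : ℤ) ≤ σ * y i := by
      simp only [hz1, if_true] at hy2
      rcases hσ with h2 | h2 <;> rw [h2] at hy2 ⊢ <;> omega
    have hy4 : (s : ℝ) ≤ σ * (y i : ℝ) := by exact_mod_cast hy3
    have hy5 : (s : ℝ) ≤ σ * ((y i : ℝ) - c) := by
      rw [mul_sub]
      linarith
    have hy6 : ((y i : ℝ) - c) ^ 2 = (σ * ((y i : ℝ) - c)) ^ 2 := by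
      rcases hσ with h2 | h2 <;> rw [h2] <;> push_cast <;> ring
    rw [hy6]
    exact pow_le_pow_left₀ hsR.le hy5 2
  have hlow : (Q.card : ℝ) * ((s : ℝ) ^ 2 / 2) - Φ ≤
      ∑ y ∈ (Lam 0 (3 * s)).filter (Far (lift o) (6 * M)), (V5_f μ o i y - c) ^ 2 := by
    have h1 : ∑ y ∈ Q, (V5_f μ o i y - c) ^ 2 ≤
        ∑ y ∈ (Lam 0 (3 * s)).filter (Far (lift o) (6 * M)), (V5_f μ o i y - c) ^ 2 :=
      Finset.sum_le_sum_of_subset_of_nonneg hsub (fun y _ _ => by positivity)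
    have h2 : ∑ y ∈ Q, ((s : ℝ) ^ 2 / 2 - phi μ o i (prj N y) ^ 2) ≤
        ∑ y ∈ Q, (V5_f μ o i y - c) ^ 2 := by
      refine Finset.sum_le_sum fun y hy => ?_
      have h3 := hyi y hy
      unfold V5_f
      nlinarith [sq_nonneg ((y i : ℝ) - c + 2 * phi μ o i (prj N y))]
    have h4 : ∑ y ∈ Q, phi μ o i (prj N y) ^ 2 ≤ Φ := by
      have h5 : ∑ y ∈ Q, phi μ o i (prj N y) ^ 2 =
          ∑ y ∈ Lam z1 s, (fun x : Tor N d => if Giant M o x then phi μ o i x ^ 2 else 0)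
            (prj N y) := by
        rw [hQ, Finset.sum_filter]
        refine Finset.sum_congr rfl fun y _ => ?_
        simp only [TG1_giant_prj]
      rw [h5]
      refine V5_box_sum (g := fun x : Tor N d => if Giant M o x then phi μ o i x ^ 2 else 0)
        (by omega) fun x => ?_
      split_ifs
      · positivity
      · exact le_rfl
    rw [Finset.sum_sub_distrib, Finset.sum_const, nsmul_eq_mul] at h2
    linarith
  have hEn : En (lift o) (Lam 0 (3 * s + 12 * M)) (V5_f μ o i) ≤ 𝓔 := V5_En_le μ o i (by omega)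
  have hup : (Q.card : ℝ) * ((s : ℝ) ^ 2 / 2) - Φ ≤ C2 * (M : ℝ) ^ C2 * ((3 * s : ℕ) : ℝ) ^ 2 * 𝓔 :=
    hlow.trans (hc.trans (mul_le_mul_of_nonneg_left hEn (by positivity)))
  have hQc : (Q.card : ℝ) ≤ 2 * (Φ / (s : ℝ) ^ 2) + 18 * (C2 * (M : ℝ) ^ C2) * 𝓔 := by
    have h1 : (Q.card : ℝ) * (s : ℝ) ^ 2 ≤ 2 * Φ + 18 * (C2 * (M : ℝ) ^ C2) * 𝓔 * (s : ℝ) ^ 2 := by
      push_cast at hup
      nlinarith [hup]
    have h2 : (Q.card : ℝ) ≤ (2 * Φ + 18 * (C2 * (M : ℝ) ^ C2) * 𝓔 * (s : ℝ) ^ 2) / (s : ℝ) ^ 2 := by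
      rw [le_div_iff₀ (by positivity)]
      exact h1
    refine h2.trans (le_of_eq ?_)
    field_simp
  have hMC2 : (1 : ℝ) ≤ (M : ℝ) ^ C2 := one_le_pow₀ hMR
  have hMC1 : (1 : ℝ) ≤ (M : ℝ) ^ C1 := one_le_pow₀ hMR
  have hQ2 : (Q.card : ℝ) ≤ 18 * ((C2 + 1) * (M : ℝ) ^ C2) * (𝓔 + Φ / (s : ℝ) ^ 2) := by
    have h3 : 0 ≤ Φ / (s : ℝ) ^ 2 := by positivity
    have h4 : (0 : ℝ) ≤ C2 * (M : ℝ) ^ C2 := by positivity
    nlinarith [mul_nonneg h4 h3, mul_nonneg (sub_nonneg.2 hMC2) h3, mul_nonneg (sub_nonneg.2 hMC2) h𝓔0,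
      mul_nonneg h4 h𝓔0]
  have h5 : (0 : ℝ) ≤ 𝓔 + Φ / (s : ℝ) ^ 2 := by positivity
  calc (s : ℝ) ^ d ≤ C1 * (M : ℝ) ^ C1 * Q.card := hcount
    _ ≤ C1 * (M : ℝ) ^ C1 * (18 * ((C2 + 1) * (M : ℝ) ^ C2) * (𝓔 + Φ / (s : ℝ) ^ 2)) :=
        mul_le_mul_of_nonneg_left hQ2 (by positivity)
    _ = (18 * C1 * (C2 + 1)) * (M : ℝ) ^ (C1 + C2) * (𝓔 + Φ / (s : ℝ) ^ 2) := by
        rw [pow_add]
        ring
    _ ≤ ((18 * (C1 + 1) * (C2 + 1) + C1 + C2 : ℕ) : ℝ) *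
          (M : ℝ) ^ (18 * (C1 + 1) * (C2 + 1) + C1 + C2) * (𝓔 + Φ / (s : ℝ) ^ 2) := by
        refine mul_le_mul_of_nonneg_right ?_ h5
        refine mul_le_mul ?_ (pow_le_pow_right₀ hMR (by omega)) (by positivity) (by positivity)
        push_cast
        have : (0 : ℝ) ≤ C1 := by positivity
        have : (0 : ℝ) ≤ C2 := by positivity
        nlinarith

theorem V5_scale {A M : ℕ} (hA : 2 ≤ A) (hM : 100 ≤ M) : 100 * M ≤ M ^ A := by
  calc 100 * M ≤ M * M := Nat.mul_le_mul_right _ hM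
    _ = M ^ 2 := by ring
    _ ≤ M ^ A := Nat.pow_le_pow_right (by omega) hA

theorem V5_mean {N : ℕ} [NeZero N] (hN : 3 ≤ N) {μ : ℝ} (hμ : 0 < μ) {p : ℝ} (hp : 0 ≤ p)
    (hp1 : p ≤ 1) (i : Fin d) : (N : ℝ) ^ d * Ex p (fun o : Tor N d × Fin d → Bool =>
      flux μ o i i 0) =
      Ex p (fun o : Tor N d × Fin d → Bool =>
        ∑ e, (if o e then Zf tsrc ttgt μ o (xi i) e ^ 2 else 0) + μ * ∑ x, phi μ o i x ^ 2) := by
  obtain ⟨a, ha⟩ := flux_mean (d := d) hN hμ hp hp1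
  have h1 : Ex p (fun o : Tor N d × Fin d → Bool => ∑ x, flux μ o i i x) = (N : ℝ) ^ d * a := by
    rw [V5_Ex_sum, Finset.sum_congr rfl fun x _ => ha i i x, if_pos rfl, Finset.sum_const,
      nsmul_eq_mul, Finset.card_univ, V5_card]
  rw [ha i i 0, if_pos rfl, ← h1]
  congr 1
  funext o
  rw [V5_flux_sum, zf_energy tsrc ttgt o hμ (xi i)]
  rfl

theorem coeff_bounds (d : ℕ) (hd : 3 ≤ d) {p : ℝ} (hp : 0 < p) (hp1 : p < 1) (hD : Decay d p) :
    ∃ C A₀ : ℕ, ∀ A, A₀ ≤ A → ∃ CA : ℝ, ∃ M₀ : ℕ, 0 < CA ∧ ∀ {N M : ℕ} [NeZero N], M₀ ≤ M →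
      N = 16 * M ^ A → ∀ i : Fin d,
        1 / (CA * (M : ℝ) ^ C) ≤ Ex p (fun o : Tor N d × Fin d → Bool =>
          flux (1 / ((M : ℝ) ^ A) ^ 2) o i i 0) ∧
        Ex p (fun o : Tor N d × Fin d → Bool => flux (1 / ((M : ℝ) ^ A) ^ 2) o i i 0) ≤ 1 := by
  obtain ⟨C1, hC1, hdet⟩ := V5_det d (by omega)
  obtain ⟨C2, A2, hV1⟩ := corrector_small d hd hp hp1 hD
  refine ⟨C1, C1 + C2 + A2 + 2, ?_⟩
  intro A hA
  obtain ⟨CA1, hCA1⟩ := hV1 A (by omega)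
  obtain ⟨Cg, hCg⟩ := prob_goodS (d := d) (by omega) hp hp1 hD A 1 (by omega)
  refine ⟨2 * 16 ^ d * C1, 100 + ⌈4 * Cg⌉₊ + ⌈4 * C1 * |CA1| * 16 ^ d⌉₊, by positivity, ?_⟩
  intro N M _ hM hN i
  have hM1 : 100 ≤ M := by omega
  have hMR : (1 : ℝ) ≤ M := by
    have : (1 : ℕ) ≤ M := by omega
    exact_mod_cast this
  have hM0 : (0 : ℝ) < M := by linarith
  have hMg : 4 * Cg ≤ M := (Nat.le_ceil _).trans (by exact_mod_cast (by omega :
    ⌈4 * Cg⌉₊ ≤ M))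
  have hMc : 4 * C1 * |CA1| * 16 ^ d ≤ (M : ℝ) := (Nat.le_ceil _).trans (by
    exact_mod_cast (by omega : ⌈4 * (C1 : ℝ) * |CA1| * 16 ^ d⌉₊ ≤ M))
  have hscale := V5_scale (A := A) (by omega) hM1
  set s : ℕ := M ^ A with hs
  have hsR : ((s : ℕ) : ℝ) = (M : ℝ) ^ A := by rw [hs]; push_cast; rfl
  have hs0 : (0 : ℝ) < s := by
    rw [hsR]; positivity
  set μ : ℝ := 1 / ((M : ℝ) ^ A) ^ 2 with hμdef
  have hμ : 0 < μ := by positivity
  have hN3 : 3 ≤ N := by omega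
  have hNR : (N : ℝ) ^ d = 16 ^ d * (s : ℝ) ^ d := by
    rw [hN]
    push_cast
    rw [mul_pow, hsR]
  have hmean := V5_mean (d := d) hN3 hμ hp.le hp1.le i
  have hNpos : (0 : ℝ) < (N : ℝ) ^ d := by
    rw [hNR]; positivity
  set a := Ex p (fun o : Tor N d × Fin d → Bool => flux μ o i i 0) with ha
  set 𝓔 : (Tor N d × Fin d → Bool) → ℝ := fun o =>
    ∑ e, (if o e then Zf tsrc ttgt μ o (xi i) e ^ 2 else 0) with h𝓔
  set Φ : (Tor N d × Fin d → Bool) → ℝ := fun o =>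
    ∑ x, (if Giant M o x then phi μ o i x ^ 2 else 0) with hΦ
  constructor
  · -- lower bound
    have h1 : Ex p 𝓔 ≤ (N : ℝ) ^ d * a := by
      rw [hmean]
      refine Ex_mono hp.le hp1.le fun o => ?_
      have : 0 ≤ μ * ∑ x, phi μ o i x ^ 2 := by positivity
      simp only [h𝓔]
      linarith
    have h2 : Ex p Φ ≤ CA1 * (M : ℝ) ^ C2 * (M : ℝ) ^ A * (N : ℝ) ^ d :=
      hCA1 (by omega) hN (by omega) i
    have h3 : Ex p (fun o : Tor N d × Fin d → Bool => if GoodS M o then (0 : ℝ) else 1) ≤ 1 / 4 := by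
      refine (hCg (by omega) hN (by omega)).trans ?_
      rw [pow_one, div_le_iff₀ hM0]
      linarith
    have h4 : Ex p (fun o : Tor N d × Fin d → Bool =>
        (s : ℝ) ^ d + -((s : ℝ) ^ d) * (if GoodS M o then (0 : ℝ) else 1)) ≤
        Ex p (fun o => (C1 * (M : ℝ) ^ C1) * 𝓔 o + (C1 * (M : ℝ) ^ C1 / (s : ℝ) ^ 2) * Φ o) := by
      refine Ex_mono hp.le hp1.le fun o => ?_
      have hE0 : 0 ≤ 𝓔 o := by
        refine Finset.sum_nonneg fun x _ => ?_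
        split_ifs
        · positivity
        · exact le_rfl
      have hP0 : 0 ≤ Φ o := by
        refine Finset.sum_nonneg fun x _ => ?_
        split_ifs
        · positivity
        · exact le_rfl
      by_cases hg : GoodS M o
      · rw [if_pos hg]
        have := hdet s (by omega) (by omega) hN hg.1 μ i
        simp only [h𝓔, hΦ]
        calc (s : ℝ) ^ d + -((s : ℝ) ^ d) * 0 = (s : ℝ) ^ d := by ring
          _ ≤ _ := this
          _ = _ := by ring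
      · rw [if_neg hg]
        have : 0 ≤ (C1 * (M : ℝ) ^ C1) * 𝓔 o + (C1 * (M : ℝ) ^ C1 / (s : ℝ) ^ 2) * Φ o := by
          positivity
        linarith
    rw [V5_Ex_add, V5_Ex_const, V5_Ex_mul, V5_Ex_add, V5_Ex_mul, V5_Ex_mul] at h4
    have hsd : (0 : ℝ) < (s : ℝ) ^ d := by positivity
    have h5 : (C1 * (M : ℝ) ^ C1 / (s : ℝ) ^ 2) * Ex p Φ ≤ (s : ℝ) ^ d / 4 := by
      have hMA : 4 * C1 * |CA1| * 16 ^ d * (M : ℝ) ^ (C1 + C2) ≤ (s : ℝ) := by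
        calc 4 * C1 * |CA1| * 16 ^ d * (M : ℝ) ^ (C1 + C2) ≤ M * (M : ℝ) ^ (C1 + C2) :=
              mul_le_mul_of_nonneg_right hMc (by positivity)
          _ = (M : ℝ) ^ (C1 + C2 + 1) := by ring
          _ ≤ (M : ℝ) ^ A := pow_le_pow_right₀ hMR (by omega)
          _ = s := hsR.symm
      have h6 : Ex p Φ ≤ |CA1| * (M : ℝ) ^ C2 * s * (16 ^ d * (s : ℝ) ^ d) := by
        refine h2.trans ?_
        rw [hNR, hsR]
        gcongr
        exact le_abs_self _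
      calc (C1 * (M : ℝ) ^ C1 / (s : ℝ) ^ 2) * Ex p Φ
          ≤ (C1 * (M : ℝ) ^ C1 / (s : ℝ) ^ 2) * (|CA1| * (M : ℝ) ^ C2 * s * (16 ^ d * (s : ℝ) ^ d)) :=
            mul_le_mul_of_nonneg_left h6 (by positivity)
        _ = (4 * C1 * |CA1| * 16 ^ d * (M : ℝ) ^ (C1 + C2)) / s * ((s : ℝ) ^ d / 4) := by
            rw [pow_add]
            field_simp
        _ ≤ 1 * ((s : ℝ) ^ d / 4) := by
            refine mul_le_mul_of_nonneg_right ?_ (by positivity)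
            rw [div_le_one hs0]
            exact hMA
        _ = (s : ℝ) ^ d / 4 := one_mul _
    have h7 : (s : ℝ) ^ d / 2 ≤ (C1 * (M : ℝ) ^ C1) * (16 ^ d * (s : ℝ) ^ d * a) := by
      have h8 : (C1 * (M : ℝ) ^ C1) * Ex p 𝓔 ≤ (C1 * (M : ℝ) ^ C1) * (16 ^ d * (s : ℝ) ^ d * a) := by
        refine mul_le_mul_of_nonneg_left ?_ (by positivity)
        rw [← hNR]
        exact h1
      nlinarith [mul_le_mul_of_nonneg_left h3 hsd.le]
    rw [div_le_iff₀ (by positivity)]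
    have h9 : (s : ℝ) ^ d * 1 ≤ (s : ℝ) ^ d * (a * (2 * 16 ^ d * C1 * (M : ℝ) ^ C1)) := by
      nlinarith [h7]
    exact le_of_mul_le_mul_left h9 hsd
  · -- upper bound
    have h1 : (N : ℝ) ^ d * a ≤ (N : ℝ) ^ d * 1 := by
      rw [hmean, mul_one]
      calc _ ≤ Ex p (fun _ : Tor N d × Fin d → Bool => (N : ℝ) ^ d) := by
            refine Ex_mono hp.le hp1.le fun o => ?_
            exact (zf_energy_le tsrc ttgt o hμ (xi i)).trans (V5_xi_sq o i)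
        _ = _ := V5_Ex_const _ _
    exact le_of_mul_le_mul_left h1 hNpos

end Pool.Agent.Lib.MP_566bac_pr.Hd
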