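import Pool.Agent.Lib.MP_566bac_pr.Hd.DefsC
import Pool.Agent.Lib.MP_566bac_pr.Hd.BAS
import Pool.Agent.Lib.MP_566bac_pr.Hd.EX1
import Pool.Agent.Lib.MP_566bac_pr.Hd.OP1
import Pool.Agent.Lib.MP_566bac_pr.Hd.OP3
import Pool.Agent.Lib.MP_566bac_pr.Hd.SY1
import Pool.Agent.Lib.MP_566bac_pr.Hd.SY2
import Pool.Agent.Lib.MP_566bac_pr.Hd.TG1
import Pool.Agent.Lib.MP_566bac_pr.Hd.TG2
import Pool.Agent.Lib.MP_566bac_pr.Hd.AV
import Pool.Agent.Lib.MP_566bac_pr.Hd.GS
import Pool.Agent.Lib.MP_566bac_pr.Hd.V1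
import Pool.Agent.Lib.MP_566bac_pr.Hd.V2
import Pool.Agent.Lib.MP_566bac_pr.Hd.V3
import Pool.Agent.Lib.MP_566bac_pr.Hd.V5
import Pool.Agent.Lib.MP_566bac_pr.Hd.DL

/-!
# PT: probability of the good event of the torus
-/

open Finset MeasureTheory ProbabilityTheory Filter
open scoped Classical

namespace Pool.Agent.Lib.MP_566bac_pr.Hd

variable {d : ℕ}

/-- the vertex with the block `w` and the position `u` in the block -/
def PT_pt (N : ℕ) {q n' : ℕ} (w : Fin d → Fin q) (u : Fin d → Fin n') : Tor N d :=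
  prj N (fun i => ((n' * (w i : ℕ) + (u i : ℕ) : ℕ) : ℤ))

theorem PT_pt_eq (N : ℕ) {q n' : ℕ} (w : Fin d → Fin q) (u : Fin d → Fin n') :
    PT_pt N w u = tadd (prj N (fun i => ((n' * (w i : ℕ) : ℕ) : ℤ))) (fun i => (u i : ℤ)) := by
  unfold PT_pt tadd
  rw [← TG1_prj_add]
  congr 1

theorem PT_pt_inj {N q n' : ℕ} [NeZero N] (hN : N = q * n') (hn : 1 ≤ n') :
    Function.Injective (fun wu : (Fin d → Fin q) × (Fin d → Fin n') => PT_pt N wu.1 wu.2) := by
  intro a b h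
  have h1 : ∀ i, n' * (a.1 i : ℕ) + (a.2 i : ℕ) = n' * (b.1 i : ℕ) + (b.2 i : ℕ) := by
    intro i
    have h2 := congrFun h i
    unfold PT_pt prj at h2
    simp only [Int.cast_natCast] at h2
    have hlt : ∀ c : (Fin d → Fin q) × (Fin d → Fin n'), n' * (c.1 i : ℕ) + (c.2 i : ℕ) < N := by
      intro c
      have h3 : (c.1 i : ℕ) + 1 ≤ q := (c.1 i).2
      have h4 : (c.2 i : ℕ) < n' := (c.2 i).2
      calc n' * (c.1 i : ℕ) + (c.2 i : ℕ) < n' * (c.1 i : ℕ) + n' := by omega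
        _ = n' * ((c.1 i : ℕ) + 1) := by ring
        _ ≤ n' * q := Nat.mul_le_mul_left _ h3
        _ = N := by rw [hN, mul_comm]
    have h3 := (ZMod.natCast_eq_natCast_iff' _ _ _).1 h2
    rwa [Nat.mod_eq_of_lt (hlt a), Nat.mod_eq_of_lt (hlt b)] at h3
  have h2 : ∀ i, (a.1 i : ℕ) = (b.1 i : ℕ) := by
    intro i
    have h3 : (n' * (a.1 i : ℕ) + (a.2 i : ℕ)) / n' = (n' * (b.1 i : ℕ) + (b.2 i : ℕ)) / n' := by
      rw [h1 i]
    rwa [Nat.mul_add_div (by omega), Nat.mul_add_div (by omega), Nat.div_eq_of_lt (a.2 i).2,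
      Nat.div_eq_of_lt (b.2 i).2, add_zero, add_zero] at h3
  refine Prod.ext (funext fun i => Fin.ext (h2 i)) (funext fun i => Fin.ext ?_)
  have h3 := h1 i
  rw [h2 i] at h3
  omega

theorem PT_pt_sum {N q n' : ℕ} [NeZero N] (hN : N = q * n') (hn : 1 ≤ n') {g : Tor N d → ℝ}
    (hg : ∀ x, 0 ≤ g x) :
    ∑ w : Fin d → Fin q, ∑ u : Fin d → Fin n', g (PT_pt N w u) ≤ ∑ x, g x := by
  rw [← Fintype.sum_prod_type' (f := fun (w : Fin d → Fin q) (u : Fin d → Fin n') =>
    g (PT_pt N w u)),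
    ← Finset.sum_image (f := g) (g := fun wu : (Fin d → Fin q) × (Fin d → Fin n') =>
      PT_pt N wu.1 wu.2) (s := Finset.univ) (fun x _ y _ h => PT_pt_inj hN hn h)]
  exact Finset.sum_le_sum_of_subset_of_nonneg (Finset.subset_univ _) (fun y _ _ => hg y)

/-- block sums of a covariant field -/
theorem PT_block {N q n' : ℕ} [NeZero N] (hN : N = q * n') (hn : 1 ≤ n') (p c : ℝ)
    (F : (Tor N d × Fin d → Bool) → Tor N d → ℝ)
    (hF : ∀ o (a x : Tor N d), F (fun e => o (e.1 + a, e.2)) x = F o (x + a)) :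
    Ex p (fun o => ∑ w : Fin d → Fin q, ((∑ u : Fin d → Fin n', F o (PT_pt N w u)) -
      c * (n' : ℝ) ^ d) ^ 2) = (n' : ℝ) ^ d * ∑ x, Ex p (fun o => (avg n' (F o) x - c) ^ 2) := by
  have hn0 : (n' : ℝ) ^ d ≠ 0 := by positivity
  have hNR : (N : ℝ) = q * n' := by exact_mod_cast hN
  have h1 : ∀ x : Tor N d, Ex p (fun o => (avg n' (F o) x - c) ^ 2) =
      Ex p (fun o => (avg n' (F o) 0 - c) ^ 2) := by
    intro x
    rw [← Ex_shift p (fun o => (avg n' (F o) 0 - c) ^ 2) x]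
    congr 1
    funext o
    congr 2
    unfold avg
    congr 1
    refine Finset.sum_congr rfl fun u _ => ?_
    rw [hF]
    congr 1
    unfold tadd
    rw [zero_add, add_comm]
  have h2 : ∀ o (w : Fin d → Fin q), ((∑ u : Fin d → Fin n', F o (PT_pt N w u)) -
      c * (n' : ℝ) ^ d) ^ 2 = ((n' : ℝ) ^ d) ^ 2 *
        (avg n' (F o) (prj N (fun i => ((n' * (w i : ℕ) : ℕ) : ℤ))) - c) ^ 2 := by
    intro o w
    have h3 : ∑ u : Fin d → Fin n', F o (PT_pt N w u) = (n' : ℝ) ^ d *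
        avg n' (F o) (prj N (fun i => ((n' * (w i : ℕ) : ℕ) : ℤ))) := by
      unfold avg
      rw [mul_div_cancel₀ _ hn0]
      exact Finset.sum_congr rfl fun u _ => by rw [PT_pt_eq]
    rw [h3]
    ring
  simp only [h2]
  rw [V5_Ex_sum Finset.univ p (fun (w : Fin d → Fin q) (o : Tor N d × Fin d → Bool) =>
    ((n' : ℝ) ^ d) ^ 2 * (avg n' (F o) (prj N (fun i => ((n' * (w i : ℕ) : ℕ) : ℤ))) - c) ^ 2)]
  simp only [V5_Ex_mul, h1]
  rw [Finset.sum_const, Finset.sum_const, nsmul_eq_mul, nsmul_eq_mul, Finset.card_univ,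
    Finset.card_univ, V5_card, Fintype.card_fun, Fintype.card_fin, Fintype.card_fin, hNR]
  push_cast
  ring

theorem PT_deg {N : ℕ} [NeZero N] (x : Tor N d) :
    (Finset.univ.filter fun e : Tor N d × Fin d => tsrc e = x ∨ ttgt e = x).card ≤ 2 * d := by
  have h1 : (Finset.univ.filter fun e : Tor N d × Fin d => tsrc e = x ∨ ttgt e = x) ⊆
      (Finset.univ.image fun j : Fin d => ((x, j) : Tor N d × Fin d)) ∪
        (Finset.univ.image fun j : Fin d => ((x - tev j, j) : Tor N d × Fin d)) := by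
    intro e he
    rw [Finset.mem_filter] at he
    rw [Finset.mem_union, Finset.mem_image, Finset.mem_image]
    rcases he.2 with h | h
    · left
      exact ⟨e.2, Finset.mem_univ _, Prod.ext h.symm rfl⟩
    · right
      refine ⟨e.2, Finset.mem_univ _, Prod.ext ?_ rfl⟩
      rw [← h]
      unfold ttgt
      simp
  refine (Finset.card_le_card h1).trans ((Finset.card_union_le _ _).trans ?_)
  have h2 : ∀ f : Fin d → Tor N d × Fin d, (Finset.univ.image f).card ≤ d := fun f =>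
    Finset.card_image_le.trans (by simp)
  linarith [h2 fun j : Fin d => ((x, j) : Tor N d × Fin d),
    h2 fun j : Fin d => ((x - tev j, j) : Tor N d × Fin d)]

/-- the flux outside the giant cluster -/
theorem PT_small {N M : ℕ} [NeZero N] (hM : 1 ≤ M) (hMN : M ∣ N) (hN : 1000 * M ≤ N)
    {o : Tor N d × Fin d → Bool} (ho : GoodT M o) {μ : ℝ} (hμ : 0 < μ) (i j : Fin d) :
    ∑ x, (if Giant M o x then 0 else flux μ o i j x ^ 2) ≤
      (N : ℝ) ^ d * (μ * (2 * d * (13 * (M : ℝ)) ^ (3 * d))) := by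
  have hMR : (1 : ℝ) ≤ M := by exact_mod_cast hM
  have h1 : ∀ x : Tor N d, (if Giant M o x then 0 else flux μ o i j x ^ 2) ≤
      μ * (2 * d * (13 * (M : ℝ)) ^ (3 * d)) := by
    intro x
    by_cases hx : Giant M o x
    · rw [if_pos hx]
      positivity
    rw [if_neg hx]
    obtain ⟨K, hxK, hcard, hK, hconn, _, _, hl⟩ := small_component hM hMN hN ho x hx
    obtain ⟨l, hl⟩ := hl i
    have h2 := small_comp_energy tsrc ttgt o hμ K hK hconn (2 * d) (PT_deg (N := N) (d := d)) (xi i)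
      (fun e => by unfold xi; split_ifs <;> simp) l hl
    have h3 : (K.card : ℝ) ^ 3 ≤ (13 * (M : ℝ)) ^ (3 * d) := by
      have h4 : (K.card : ℝ) ≤ (13 * (M : ℝ)) ^ d := by
        calc (K.card : ℝ) ≤ ((12 * M + 1 : ℕ) : ℝ) ^ d := by exact_mod_cast hcard
          _ ≤ (13 * (M : ℝ)) ^ d := by
              refine pow_le_pow_left₀ (by positivity) ?_ d
              push_cast
              linarith
      calc (K.card : ℝ) ^ 3 ≤ ((13 * (M : ℝ)) ^ d) ^ 3 := pow_le_pow_left₀ (by positivity) h4 3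
        _ = _ := by rw [← pow_mul, mul_comm d 3]
    have h5 : flux μ o i j x ^ 2 ≤
        ∑ e, (if o e ∧ tsrc e ∈ K then Zf tsrc ttgt μ o (xi i) e ^ 2 else 0) := by
      have h6 : flux μ o i j x ^ 2 =
          (if o (x, j) ∧ tsrc ((x, j) : Tor N d × Fin d) ∈ K then
            Zf tsrc ttgt μ o (xi i) (x, j) ^ 2 else 0) := by
        unfold flux
        by_cases h7 : o (x, j) = true
        · rw [if_pos h7, if_pos ⟨h7, hxK⟩]
        · rw [if_neg h7, if_neg (fun h8 => h7 h8.1)]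
          simp
      rw [h6]
      refine Finset.single_le_sum (f := fun e => (if o e ∧ tsrc e ∈ K then
        Zf tsrc ttgt μ o (xi i) e ^ 2 else 0)) (fun e _ => ?_) (Finset.mem_univ _)
      split_ifs
      · positivity
      · exact le_rfl
    refine h5.trans (h2.trans ?_)
    push_cast
    gcongr
  refine (Finset.sum_le_sum fun x _ => h1 x).trans ?_
  rw [Finset.sum_const, nsmul_eq_mul, Finset.card_univ, V5_card]

/-- pointwise bound for the clause of the flux -/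
theorem PT_flux_det {N M q n' : ℕ} [NeZero N] (hNq : N = q * n') (hn : 1 ≤ n') (hM : 1 ≤ M)
    (hMN : M ∣ N) (hN : 1000 * M ≤ N) {o : Tor N d × Fin d → Bool} (ho : GoodT M o) {μ : ℝ}
    (hμ : 0 < μ) (i j : Fin d) (c : ℝ) :
    ∑ w : Fin d → Fin q, ((∑ u : Fin d → Fin n',
      (if Giant M o (PT_pt N w u) then flux μ o i j (PT_pt N w u) else 0)) -
        c * (n' : ℝ) ^ d) ^ 2 ≤
      2 * (∑ w : Fin d → Fin q, ((∑ u : Fin d → Fin n', flux μ o i j (PT_pt N w u)) -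
        c * (n' : ℝ) ^ d) ^ 2) +
      2 * ((n' : ℝ) ^ d * ((N : ℝ) ^ d * (μ * (2 * d * (13 * (M : ℝ)) ^ (3 * d))))) := by
  have h1 : ∀ w : Fin d → Fin q, ((∑ u : Fin d → Fin n',
      (if Giant M o (PT_pt N w u) then flux μ o i j (PT_pt N w u) else 0)) -
        c * (n' : ℝ) ^ d) ^ 2 ≤
      2 * ((∑ u : Fin d → Fin n', flux μ o i j (PT_pt N w u)) - c * (n' : ℝ) ^ d) ^ 2 +
      2 * ((n' : ℝ) ^ d * ∑ u : Fin d → Fin n',
        (fun x : Tor N d => if Giant M o x then 0 else flux μ o i j x ^ 2) (PT_pt N w u)) := by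
    intro w
    set A1 := ∑ u : Fin d → Fin n',
      (if Giant M o (PT_pt N w u) then flux μ o i j (PT_pt N w u) else 0) with hA1
    set A2 := ∑ u : Fin d → Fin n', flux μ o i j (PT_pt N w u) with hA2
    set A3 := ∑ u : Fin d → Fin n',
      (if Giant M o (PT_pt N w u) then 0 else flux μ o i j (PT_pt N w u)) with hA3
    have h2 : A1 = A2 - A3 := by
      rw [hA1, hA2, hA3, ← Finset.sum_sub_distrib]
      refine Finset.sum_congr rfl fun u _ => ?_
      split_ifs <;> ring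
    have h3 : A3 ^ 2 ≤ (n' : ℝ) ^ d * ∑ u : Fin d → Fin n',
        (fun x : Tor N d => if Giant M o x then 0 else flux μ o i j x ^ 2) (PT_pt N w u) := by
      have h4 := sq_sum_le_card_mul_sum_sq (s := (Finset.univ : Finset (Fin d → Fin n')))
        (f := fun u => if Giant M o (PT_pt N w u) then 0 else flux μ o i j (PT_pt N w u))
      rw [AV_card] at h4
      refine h4.trans (le_of_eq ?_)
      congr 1
      refine Finset.sum_congr rfl fun u _ => ?_
      by_cases hg : Giant M o (PT_pt N w u) <;> simp [hg]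
    rw [h2]
    nlinarith [sq_nonneg (A2 - c * (n' : ℝ) ^ d + A3)]
  refine (Finset.sum_le_sum fun w _ => h1 w).trans ?_
  rw [Finset.sum_add_distrib, ← Finset.mul_sum, ← Finset.mul_sum, ← Finset.mul_sum]
  have h5 : ∑ w : Fin d → Fin q, ∑ u : Fin d → Fin n',
      (fun x : Tor N d => if Giant M o x then 0 else flux μ o i j x ^ 2) (PT_pt N w u) ≤
      (N : ℝ) ^ d * (μ * (2 * d * (13 * (M : ℝ)) ^ (3 * d))) := by
    refine (PT_pt_sum hNq hn fun x => ?_).trans (PT_small hM hMN hN ho hμ i j)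
    split_ifs
    · exact le_rfl
    · positivity
  have hn0 : (0 : ℝ) ≤ (n' : ℝ) ^ d := by positivity
  nlinarith [mul_le_mul_of_nonneg_left h5 hn0]

theorem PT_avg_mean {N : ℕ} [NeZero N] {n' : ℕ} (hn : 1 ≤ n') (p c : ℝ)
    (F : (Tor N d × Fin d → Bool) → Tor N d → ℝ) (hF : ∀ x, Ex p (fun o => F o x) = c)
    (x : Tor N d) : Ex p (fun o => avg n' (F o) x) = c := by
  have hn0 : (n' : ℝ) ^ d ≠ 0 := by positivity
  have h1 : (fun o => avg n' (F o) x) = fun o => ((n' : ℝ) ^ d)⁻¹ *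
      ∑ u : Fin d → Fin n', F o (tadd x fun i => (u i : ℤ)) := by
    funext o
    unfold avg
    rw [div_eq_inv_mul]
  rw [h1, V5_Ex_mul, V5_Ex_sum, Finset.sum_congr rfl fun u _ => hF _, Finset.sum_const,
    nsmul_eq_mul, AV_card, ← mul_assoc, inv_mul_cancel₀ hn0, one_mul]

/-- the upper bound of the clause of the flux -/
noncomputable def PT_W {N : ℕ} [NeZero N] (A k M : ℕ) (c : ℝ) (i j : Fin d)
    (o : Tor N d × Fin d → Bool) : ℝ :=
  2 * (∑ w : Fin d → Fin (16 * M ^ (6 * k)), ((∑ u : Fin d → Fin (M ^ (A - 6 * k)),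
    flux (1 / ((M : ℝ) ^ A) ^ 2) o i j (PT_pt N w u)) - c * ((M ^ (A - 6 * k) : ℕ) : ℝ) ^ d) ^ 2) +
  2 * (((M ^ (A - 6 * k) : ℕ) : ℝ) ^ d * ((N : ℝ) ^ d *
    (1 / ((M : ℝ) ^ A) ^ 2 * (2 * d * (13 * (M : ℝ)) ^ (3 * d)))))

/-- the sum of the clause of the density -/
noncomputable def PT_D {N : ℕ} [NeZero N] (A k M : ℕ) (θ : ℝ)
    (o : Tor N d × Fin d → Bool) : ℝ :=
  ∑ w : Fin d → Fin (16 * M ^ (6 * k)), ((∑ u : Fin d → Fin (M ^ (A - 6 * k)),
    (if Giant M o (PT_pt N w u) then (1 : ℝ) else 0)) - θ * ((M ^ (A - 6 * k) : ℕ) : ℝ) ^ d) ^ 2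

/-- the sum of the clause of the corrector -/
noncomputable def PT_S {N : ℕ} [NeZero N] (A M : ℕ) (i : Fin d)
    (o : Tor N d × Fin d → Bool) : ℝ :=
  ∑ x, (if Giant M o x then phi (1 / ((M : ℝ) ^ A) ^ 2) o i x ^ 2 else 0)

theorem PT_pointwise {N M A k : ℕ} [NeZero N] (hM : 100 ≤ M) (hA : 2 ≤ A) (hAk : 6 * k ≤ A)
    (hN : N = 16 * M ^ A) (a θ : ℝ) (o : Tor N d × Fin d → Bool) :
    (if TGood A k a θ M o then (0 : ℝ) else 1) ≤
      (if GoodS M o then (0 : ℝ) else 1) +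
      (∑ i : Fin d, ((((M : ℝ) ^ A) ^ (d + 2) / (M : ℝ) ^ (20 * k))⁻¹ * PT_S A M i o)) +
      (∑ i : Fin d, ∑ j : Fin d,
        (((((M : ℝ) ^ (A - 6 * k)) ^ d * ((M : ℝ) ^ A) ^ d / (M : ℝ) ^ (20 * k))⁻¹ *
          PT_W A k M (if i = j then a else 0) i j o))) +
      ((((M : ℝ) ^ (A - 6 * k)) ^ d * ((M : ℝ) ^ A) ^ d / (M : ℝ) ^ (20 * k))⁻¹ *
        PT_D A k M θ o) := by
  have hM0 : (0 : ℝ) < M := by
    have : 0 < M := by omega
    exact_mod_cast this
  have hscale := V5_scale hA hM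
  have hMN : M ∣ N := by
    rw [hN]
    exact Dvd.dvd.mul_left (dvd_pow_self M (by omega)) _
  have hN1 : 1000 * M ≤ N := by omega
  have hNq : N = (16 * M ^ (6 * k)) * M ^ (A - 6 * k) := by
    rw [hN, mul_assoc, ← pow_add]
    congr 2
    omega
  have hn : 1 ≤ M ^ (A - 6 * k) := Nat.one_le_pow _ _ (by omega)
  set T1 : ℝ := ((M : ℝ) ^ A) ^ (d + 2) / (M : ℝ) ^ (20 * k) with hT1
  set T2 : ℝ := ((M : ℝ) ^ (A - 6 * k)) ^ d * ((M : ℝ) ^ A) ^ d / (M : ℝ) ^ (20 * k) with hT2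
  have hT1p : 0 < T1 := by positivity
  have hT2p : 0 < T2 := by positivity
  have hS0 : ∀ i : Fin d, 0 ≤ PT_S A M i o := by
    intro i
    refine Finset.sum_nonneg fun x _ => ?_
    split_ifs
    · positivity
    · exact le_rfl
  have hW0 : ∀ (c : ℝ) (i j : Fin d), 0 ≤ PT_W A k M c i j o := by
    intro c i j
    unfold PT_W
    positivity
  have hD0 : 0 ≤ PT_D A k M θ o := by
    unfold PT_D
    positivity
  have h1 : 0 ≤ ∑ i : Fin d, (T1⁻¹ * PT_S A M i o) :=
    Finset.sum_nonneg fun i _ => mul_nonneg (inv_nonneg.2 hT1p.le) (hS0 i)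
  have h2 : 0 ≤ ∑ i : Fin d, ∑ j : Fin d, (T2⁻¹ * PT_W A k M (if i = j then a else 0) i j o) :=
    Finset.sum_nonneg fun i _ => Finset.sum_nonneg fun j _ =>
      mul_nonneg (inv_nonneg.2 hT2p.le) (hW0 _ i j)
  have h3 : 0 ≤ T2⁻¹ * PT_D A k M θ o := mul_nonneg (inv_nonneg.2 hT2p.le) hD0
  have h4 : (0 : ℝ) ≤ (if GoodS M o then (0 : ℝ) else 1) := by split_ifs <;> norm_num
  by_cases hT : TGood A k a θ M o
  · rw [if_pos hT]
    linarith
  rw [if_neg hT]
  by_cases hG : GoodT M o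
  swap
  · have : ¬ GoodS M o := fun h => hG h.1
    rw [if_neg this]
    linarith
  by_cases hc1 : ∀ i : Fin d, PT_S A M i o ≤ T1
  swap
  · push Not at hc1
    obtain ⟨i, hi⟩ := hc1
    have h5 : 1 ≤ T1⁻¹ * PT_S A M i o := by
      rw [inv_mul_eq_div, le_div_iff₀ hT1p]
      linarith
    have h6 : T1⁻¹ * PT_S A M i o ≤ ∑ i : Fin d, (T1⁻¹ * PT_S A M i o) :=
      Finset.single_le_sum (f := fun i : Fin d => T1⁻¹ * PT_S A M i o)
        (fun i _ => mul_nonneg (inv_nonneg.2 hT1p.le) (hS0 i)) (Finset.mem_univ i)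
    linarith
  by_cases hc2 : ∀ i j : Fin d, PT_W A k M (if i = j then a else 0) i j o ≤ T2
  swap
  · push Not at hc2
    obtain ⟨i, j, hi⟩ := hc2
    have h5 : 1 ≤ T2⁻¹ * PT_W A k M (if i = j then a else 0) i j o := by
      rw [inv_mul_eq_div, le_div_iff₀ hT2p]
      linarith
    have h6 : T2⁻¹ * PT_W A k M (if i = j then a else 0) i j o ≤
        ∑ j : Fin d, (T2⁻¹ * PT_W A k M (if i = j then a else 0) i j o) :=
      Finset.single_le_sum (f := fun j : Fin d => T2⁻¹ * PT_W A k M (if i = j then a else 0) i j o)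
        (fun j _ => mul_nonneg (inv_nonneg.2 hT2p.le) (hW0 _ i j)) (Finset.mem_univ j)
    have h7 : ∑ j : Fin d, (T2⁻¹ * PT_W A k M (if i = j then a else 0) i j o) ≤
        ∑ i : Fin d, ∑ j : Fin d, (T2⁻¹ * PT_W A k M (if i = j then a else 0) i j o) :=
      Finset.single_le_sum (f := fun i : Fin d => ∑ j : Fin d,
        T2⁻¹ * PT_W A k M (if i = j then a else 0) i j o)
        (fun i _ => Finset.sum_nonneg fun j _ => mul_nonneg (inv_nonneg.2 hT2p.le) (hW0 _ i j))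
        (Finset.mem_univ i)
    linarith
  by_cases hc3 : PT_D A k M θ o ≤ T2
  swap
  · push Not at hc3
    have h5 : 1 ≤ T2⁻¹ * PT_D A k M θ o := by
      rw [inv_mul_eq_div, le_div_iff₀ hT2p]
      linarith
    linarith
  exfalso
  apply hT
  refine ⟨hG, hc1, ?_, ?_⟩
  · intro i j
    have h5 := PT_flux_det (d := d) hNq hn (by omega) hMN hN1 hG
      (show (0 : ℝ) < 1 / ((M : ℝ) ^ A) ^ 2 by positivity) i j (if i = j then a else 0)
    have h6 := h5.trans (hc2 i j)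
    push_cast at h6
    exact h6
  · have h6 := hc3
    unfold PT_D at h6
    push_cast at h6
    exact h6

/-- exponents -/
theorem PT_exp {m r : ℝ} (hm : 1 ≤ m) (hr : 0 < r) {e c k : ℕ} (h : e ≤ c + 30 * k) :
    m ^ e / r ≤ m ^ c * m ^ (30 * k) / r := by
  rw [← pow_add]
  exact div_le_div_of_nonneg_right (pow_le_pow_right₀ hm h) hr.le

theorem prob_tgood (d : ℕ) (hd : 3 ≤ d) {p : ℝ} (hp : 0 < p) (hp1 : p < 1) (hD : Decay d p) :
    ∃ c : ℕ, ∃ θ₀ : ℝ, 0 < θ₀ ∧ ∀ k : ℕ, 1 ≤ k → ∀ A : ℕ, c + 50 * k ≤ A →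
      ∃ CL : ℝ, 0 < CL ∧ ∃ M₀ : ℕ, ∀ {N M : ℕ} [NeZero N], M₀ ≤ M → N = 16 * M ^ A →
        ∃ a θ : ℝ, 1 / (CL * (M : ℝ) ^ c) ≤ a ∧ a ≤ 1 ∧ θ₀ ≤ θ ∧ θ ≤ 1 ∧
          Ex p (fun o : Tor N d × Fin d → Bool => if TGood A k a θ M o then 0 else 1) ≤
            CL * (M : ℝ) ^ c * (M : ℝ) ^ (30 * k) / Real.sqrt ((M : ℝ) ^ A) := by
  obtain ⟨C1, A1, hV1⟩ := corrector_small d hd hp hp1 hD
  obtain ⟨C2, A2, hV2⟩ := flux_concentrate d hd hp hp1 hD
  obtain ⟨C3, hV3⟩ := density_concentrate d (by omega) hp hp1 hD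
  obtain ⟨C5, A5, hV5⟩ := coeff_bounds d hd hp hp1 hD
  obtain ⟨θ₀, hθ₀, Mθ, hDL⟩ := density_lower (d := d) (by omega) hp.le hp1.le hD
  set c : ℕ := C1 + C2 + C3 + C5 + 3 * d + A1 + A2 + A5 + 2 with hc
  refine ⟨c, θ₀, hθ₀, ?_⟩
  intro k hk A hA
  obtain ⟨B1, hB1⟩ := hV1 A (by omega)
  obtain ⟨B2, hB2⟩ := hV2 A (by omega)
  obtain ⟨B3, hB3⟩ := hV3 A (by omega)
  obtain ⟨B5, M5, hB5p, hB5⟩ := hV5 A (by omega)
  obtain ⟨Bg, hBg⟩ := prob_goodS (d := d) (by omega) hp hp1 hD A A (by omega)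
  set CL : ℝ := |Bg| + d * (|B1| * 16 ^ d) + d * (d * (4 * |B2| * 16 ^ d +
    4 * d * 13 ^ (3 * d) * 16 ^ d)) + |B3| * 16 ^ d + B5 with hCL
  have hCLp : 0 < CL := by
    have : 0 ≤ |Bg| + d * (|B1| * 16 ^ d) + d * (d * (4 * |B2| * 16 ^ d +
      4 * d * 13 ^ (3 * d) * 16 ^ d)) + |B3| * 16 ^ d := by positivity
    rw [hCL]
    linarith
  have hB5CL : B5 ≤ CL := by
    have : 0 ≤ |Bg| + d * (|B1| * 16 ^ d) + d * (d * (4 * |B2| * 16 ^ d +
      4 * d * 13 ^ (3 * d) * 16 ^ d)) + |B3| * 16 ^ d := by positivity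
    rw [hCL]
    linarith
  refine ⟨CL, hCLp, 100 + M5 + Mθ, ?_⟩
  intro N M _ hM hN
  have hM1 : 100 ≤ M := by omega
  have hscale := V5_scale (A := A) (by omega) hM1
  have hN1 : 1000 * M ≤ N := by omega
  have hmR : (1 : ℝ) ≤ (M : ℝ) := by
    have : 1 ≤ M := by omega
    exact_mod_cast this
  have hNq : N = (16 * M ^ (6 * k)) * M ^ (A - 6 * k) := by
    rw [hN, mul_assoc, ← pow_add]
    congr 2
    omega
  have hn : 1 ≤ M ^ (A - 6 * k) := Nat.one_le_pow _ _ (by omega)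
  have hnA : M ^ (A - 6 * k) ≤ M ^ A := Nat.pow_le_pow_right (by omega) (by omega)
  set μ : ℝ := 1 / ((M : ℝ) ^ A) ^ 2 with hμdef
  have hμ : 0 < μ := by positivity
  obtain ⟨a, ha⟩ := flux_mean (N := N) (d := d) (by omega) hμ hp.le hp1.le
  set θ : ℝ := Ex p (fun o : Tor N d × Fin d → Bool => if Giant M o 0 then 1 else 0) with hθ
  have i0 : Fin d := ⟨0, by omega⟩
  have ha0 : Ex p (fun o : Tor N d × Fin d → Bool => flux μ o i0 i0 0) = a := by
    rw [ha i0 i0 0, if_pos rfl]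
  obtain ⟨h5a, h5b⟩ := hB5 (by omega) hN i0
  rw [← hμdef, ha0] at h5a h5b
  refine ⟨a, θ, ?_, h5b, hDL (by omega) (by omega), ?_, ?_⟩
  · refine le_trans ?_ h5a
    refine one_div_le_one_div_of_le (by positivity) ?_
    exact mul_le_mul hB5CL (pow_le_pow_right₀ hmR (by omega)) (by positivity) hCLp.le
  · calc θ ≤ Ex p (fun _ : Tor N d × Fin d → Bool => (1 : ℝ)) :=
          Ex_mono hp.le hp1.le fun o => by split_ifs <;> norm_num
      _ = 1 := V5_Ex_const _ _
  -- the probability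
  set m : ℝ := (M : ℝ) with hm
  set S : ℝ := m ^ A with hS
  set n : ℝ := m ^ (A - 6 * k) with hndef
  set r : ℝ := Real.sqrt S with hr
  have hm0 : 0 < m := by linarith
  have hS1 : 1 ≤ S := one_le_pow₀ hmR
  have hn1 : 1 ≤ n := one_le_pow₀ hmR
  have hSp : 0 < S := by linarith
  have hnp : 0 < n := by linarith
  have hrp : 0 < r := Real.sqrt_pos.2 hSp
  have hr2 : r ^ 2 = S := Real.sq_sqrt hSp.le
  have hr1 : 1 ≤ r := by
    rw [hr]
    exact Real.one_le_sqrt.2 hS1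
  have hSn : S = n * m ^ (6 * k) := by
    rw [hS, hndef, ← pow_add]
    congr 1
    omega
  have hcastn : ((M ^ (A - 6 * k) : ℕ) : ℝ) = n := by
    rw [hndef, hm]
    push_cast
    rfl
  have hsn : Real.sqrt n = r / m ^ (3 * k) := by
    have h1 : n = (r / m ^ (3 * k)) ^ 2 := by
      rw [div_pow, hr2, hSn, ← pow_mul, show 3 * k * 2 = 6 * k by ring]
      field_simp
    rw [h1]
    exact Real.sqrt_sq (by positivity)
  have hinvS : 1 / S ≤ 1 / r := by
    refine one_div_le_one_div_of_le hrp ?_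
    nlinarith
  have hinvn : 1 / n ≤ m ^ (3 * k) / r := by
    have h1 : 1 / Real.sqrt n = m ^ (3 * k) / r := by
      rw [hsn, one_div_div]
    rw [← h1]
    refine one_div_le_one_div_of_le (Real.sqrt_pos.2 hnp) ?_
    have h2 : 1 ≤ Real.sqrt n := Real.one_le_sqrt.2 hn1
    nlinarith [Real.sq_sqrt hnp.le]
  have hNR : (N : ℝ) ^ d = 16 ^ d * S ^ d := by
    rw [hN]
    push_cast
    rw [mul_pow]
  set X : ℝ := m ^ c * m ^ (30 * k) / r with hX
  have hXp : 0 < X := by positivity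
  have hexp : ∀ e : ℕ, e ≤ c + 30 * k → m ^ e / r ≤ X := fun e he => PT_exp hmR hrp he
  -- the four expectations
  have b0 : Ex p (fun o : Tor N d × Fin d → Bool => if GoodS M o then (0 : ℝ) else 1) ≤
      |Bg| * X := by
    refine (hBg (by omega) hN (by omega)).trans ?_
    have h1 : 1 / S ≤ X := by
      refine hinvS.trans ?_
      have := hexp 0 (by omega)
      rwa [pow_zero] at this
    calc Bg / m ^ A ≤ |Bg| / m ^ A := div_le_div_of_nonneg_right (le_abs_self _) hSp.le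
      _ = |Bg| * (1 / S) := by rw [hS]; ring
      _ ≤ |Bg| * X := mul_le_mul_of_nonneg_left h1 (abs_nonneg _)
  set T1 : ℝ := S ^ (d + 2) / m ^ (20 * k) with hT1
  set T2 : ℝ := n ^ d * S ^ d / m ^ (20 * k) with hT2
  have hT1p : 0 < T1 := by positivity
  have hT2p : 0 < T2 := by positivity
  have b1 : ∀ i : Fin d, T1⁻¹ * Ex p (PT_S (N := N) A M i) ≤ |B1| * 16 ^ d * X := by
    intro i
    have h1 : Ex p (PT_S (N := N) A M i) ≤ |B1| * m ^ C1 * S * (16 ^ d * S ^ d) := by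
      refine (hB1 (by omega) hN hN1 i).trans ?_
      rw [hNR]
      gcongr
      exact le_abs_self _
    calc T1⁻¹ * Ex p (PT_S (N := N) A M i) ≤ T1⁻¹ * (|B1| * m ^ C1 * S * (16 ^ d * S ^ d)) :=
          mul_le_mul_of_nonneg_left h1 (inv_nonneg.2 hT1p.le)
      _ = |B1| * 16 ^ d * (m ^ (C1 + 20 * k) * (1 / S)) := by
          rw [hT1, pow_add, pow_add]
          field_simp
      _ ≤ |B1| * 16 ^ d * X := by
          refine mul_le_mul_of_nonneg_left ?_ (by positivity)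
          calc m ^ (C1 + 20 * k) * (1 / S) ≤ m ^ (C1 + 20 * k) * (1 / r) :=
                mul_le_mul_of_nonneg_left hinvS (by positivity)
            _ = m ^ (C1 + 20 * k) / r := by ring
            _ ≤ X := hexp _ (by omega)
  have b2 : ∀ i j : Fin d, T2⁻¹ * Ex p (PT_W (N := N) A k M (if i = j then a else 0) i j) ≤
      (4 * |B2| * 16 ^ d + 4 * d * 13 ^ (3 * d) * 16 ^ d) * X := by
    intro i j
    have h0 : Ex p (PT_W (N := N) A k M (if i = j then a else 0) i j) =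
        2 * (n ^ d * ∑ x, Ex p (fun o : Tor N d × Fin d → Bool =>
          (avg (M ^ (A - 6 * k)) (flux μ o i j) x - (if i = j then a else 0)) ^ 2)) +
        2 * (n ^ d * ((N : ℝ) ^ d * (μ * (2 * d * (13 * m) ^ (3 * d))))) := by
      have h1 := PT_block (d := d) hNq hn p (if i = j then a else 0)
        (fun o x => flux μ o i j x) (fun o y x => flux_shift hμ o i j y x)
      rw [hcastn] at h1
      rw [← h1]
      unfold PT_W
      rw [V5_Ex_add, V5_Ex_mul, V5_Ex_const]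
      simp only [hcastn]
      rfl
    have h2 : ∑ x, Ex p (fun o : Tor N d × Fin d → Bool =>
          (avg (M ^ (A - 6 * k)) (flux μ o i j) x - (if i = j then a else 0)) ^ 2) ≤
        |B2| * m ^ C2 * (2 * (m ^ (3 * k) / r)) * (16 ^ d * S ^ d) := by
      have h3 : ∑ x, Ex p (fun o : Tor N d × Fin d → Bool =>
          (avg (M ^ (A - 6 * k)) (flux μ o i j) x -
            Ex p (fun o' => avg (M ^ (A - 6 * k)) (flux μ o' i j) x)) ^ 2) ≤
          B2 * m ^ C2 * (1 / Real.sqrt ((M ^ (A - 6 * k) : ℕ) : ℝ) + 1 / S) * (N : ℝ) ^ d :=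
        hB2 (by omega) hN hN1 (M ^ (A - 6 * k)) hn hnA i j
      have h4 : ∀ x : Tor N d, Ex p (fun o' : Tor N d × Fin d → Bool =>
          avg (M ^ (A - 6 * k)) (flux μ o' i j) x) = if i = j then a else 0 := fun x =>
        PT_avg_mean hn p _ (fun o x => flux μ o i j x) (fun x => ha i j x) x
      simp only [h4] at h3
      refine h3.trans ?_
      rw [hNR, hcastn]
      have h5 : 1 / Real.sqrt n + 1 / S ≤ 2 * (m ^ (3 * k) / r) := by
        have h6 : 1 / Real.sqrt n = m ^ (3 * k) / r := by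
          rw [hsn, one_div_div]
        have h7 : 1 / S ≤ m ^ (3 * k) / r := by
          refine hinvS.trans ?_
          exact div_le_div_of_nonneg_right (one_le_pow₀ hmR) hrp.le
        linarith
      have h6 : 0 ≤ 1 / Real.sqrt n + 1 / S := by positivity
      refine mul_le_mul_of_nonneg_right ?_ (by positivity)
      refine mul_le_mul ?_ h5 h6 (by positivity)
      exact mul_le_mul_of_nonneg_right (le_abs_self _) (by positivity)
    rw [h0, mul_add]
    have h3 : T2⁻¹ * (2 * (n ^ d * ∑ x, Ex p (fun o : Tor N d × Fin d → Bool =>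
          (avg (M ^ (A - 6 * k)) (flux μ o i j) x - (if i = j then a else 0)) ^ 2))) ≤
        4 * |B2| * 16 ^ d * X := by
      calc _ ≤ T2⁻¹ * (2 * (n ^ d * (|B2| * m ^ C2 * (2 * (m ^ (3 * k) / r)) *
            (16 ^ d * S ^ d)))) := by
            gcongr
        _ = 4 * |B2| * 16 ^ d * (m ^ (C2 + 20 * k + 3 * k) / r) := by
            rw [hT2, pow_add, pow_add]
            field_simp
            ring
        _ ≤ _ := mul_le_mul_of_nonneg_left (hexp _ (by omega)) (by positivity)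
    have h4 : T2⁻¹ * (2 * (n ^ d * ((N : ℝ) ^ d * (μ * (2 * d * (13 * m) ^ (3 * d)))))) ≤
        4 * d * 13 ^ (3 * d) * 16 ^ d * X := by
      calc _ = 4 * d * 13 ^ (3 * d) * 16 ^ d * (m ^ (3 * d + 20 * k) * (1 / S) * (1 / S)) := by
            rw [hT2, hNR, hμdef, pow_add, mul_pow]
            field_simp
            ring
        _ ≤ 4 * d * 13 ^ (3 * d) * 16 ^ d * X := by
            refine mul_le_mul_of_nonneg_left ?_ (by positivity)
            have h5 : 1 / S ≤ 1 := by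
              rw [div_le_one hSp]
              exact hS1
            calc m ^ (3 * d + 20 * k) * (1 / S) * (1 / S) ≤ m ^ (3 * d + 20 * k) * (1 / r) * 1 := by
                  gcongr
              _ = m ^ (3 * d + 20 * k) / r := by ring
              _ ≤ X := hexp _ (by omega)
    rw [add_mul]
    exact add_le_add h3 h4
  have b3 : T2⁻¹ * Ex p (PT_D (N := N) (d := d) A k M θ) ≤ |B3| * 16 ^ d * X := by
    have h0 : Ex p (PT_D (N := N) (d := d) A k M θ) =
        n ^ d * ∑ x, Ex p (fun o : Tor N d × Fin d → Bool =>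
          (avg (M ^ (A - 6 * k)) (fun y => if Giant M o y then 1 else 0) x - θ) ^ 2) := by
      have h1 := PT_block (d := d) hNq hn p θ
        (fun (o : Tor N d × Fin d → Bool) x => if Giant M o x then (1 : ℝ) else 0)
        (fun o y x => if_congr (giant_shift hN1 o y x) rfl rfl)
      rw [hcastn] at h1
      rw [← h1]
      unfold PT_D
      rw [hcastn]
    have h3 := hB3 (by omega) hN hN1 (M ^ (A - 6 * k)) hn hnA
    rw [hcastn, ← hθ, hNR] at h3
    have h4 : B3 * m ^ C3 / n * (16 ^ d * S ^ d) ≤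
        |B3| * m ^ C3 * (m ^ (3 * k) / r) * (16 ^ d * S ^ d) := by
      refine mul_le_mul_of_nonneg_right ?_ (by positivity)
      calc B3 * m ^ C3 / n = B3 * (m ^ C3 * (1 / n)) := by ring
        _ ≤ |B3| * (m ^ C3 * (m ^ (3 * k) / r)) := by
            refine mul_le_mul (le_abs_self _) ?_ (by positivity) (abs_nonneg _)
            exact mul_le_mul_of_nonneg_left hinvn (by positivity)
        _ = _ := by ring
    rw [h0]
    calc _ ≤ T2⁻¹ * (n ^ d * (|B3| * m ^ C3 * (m ^ (3 * k) / r) * (16 ^ d * S ^ d))) := by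
          refine mul_le_mul_of_nonneg_left ?_ (inv_nonneg.2 hT2p.le)
          exact mul_le_mul_of_nonneg_left (h3.trans h4) (by positivity)
      _ = |B3| * 16 ^ d * (m ^ (C3 + 20 * k + 3 * k) / r) := by
          rw [hT2, pow_add, pow_add]
          field_simp
      _ ≤ _ := mul_le_mul_of_nonneg_left (hexp _ (by omega)) (by positivity)
  -- assembly
  have hpt := Ex_mono hp.le hp1.le (fun o : Tor N d × Fin d → Bool =>
    PT_pointwise (k := k) hM1 (show 2 ≤ A by omega) (show 6 * k ≤ A by omega) hN a θ o)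
  refine hpt.trans ?_
  rw [V5_Ex_add, V5_Ex_add, V5_Ex_add, V5_Ex_sum, V5_Ex_sum, V5_Ex_mul]
  simp only [V5_Ex_sum, V5_Ex_mul]
  have s1 : ∑ i : Fin d, T1⁻¹ * Ex p (PT_S (N := N) A M i) ≤ d * (|B1| * 16 ^ d) * X := by
    refine (Finset.sum_le_sum fun i _ => b1 i).trans (le_of_eq ?_)
    rw [Finset.sum_const, Finset.card_univ, Fintype.card_fin, nsmul_eq_mul]
    ring
  have s2 : ∑ i : Fin d, ∑ j : Fin d,
      T2⁻¹ * Ex p (PT_W (N := N) A k M (if i = j then a else 0) i j) ≤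
      d * (d * (4 * |B2| * 16 ^ d + 4 * d * 13 ^ (3 * d) * 16 ^ d)) * X := by
    refine (Finset.sum_le_sum fun i _ => Finset.sum_le_sum fun j _ => b2 i j).trans (le_of_eq ?_)
    simp only [Finset.sum_const, Finset.card_univ, Fintype.card_fin, nsmul_eq_mul]
    ring
  have hfin : CL * m ^ c * m ^ (30 * k) / r = CL * X := by
    rw [hX]
    ring
  rw [hfin]
  calc _ ≤ |Bg| * X + d * (|B1| * 16 ^ d) * X +
        d * (d * (4 * |B2| * 16 ^ d + 4 * d * 13 ^ (3 * d) * 16 ^ d)) * X + |B3| * 16 ^ d * X :=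
        add_le_add (add_le_add (add_le_add b0 s1) s2) b3
    _ = (CL - B5) * X := by
        rw [hCL]
        ring
    _ ≤ CL * X := mul_le_mul_of_nonneg_right (by linarith) hXp.le

end Pool.Agent.Lib.MP_566bac_pr.Hd
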