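import Pool.Agent.Lib.MP_566bac_pr.Hd.GE1
import Pool.Agent.Lib.MP_566bac_pr.Hd.OP1

/-!
# From the torus to the local data (deterministic)
-/

open Finset MeasureTheory ProbabilityTheory Filter
open scoped Classical

namespace Pool.Agent.Lib.MP_566bac_pr.Hd

variable {d : ℕ}

namespace TL

theorem rep_prj {N : ℕ} [NeZero N] {x : Vtx d} (hx : ∀ i, 0 ≤ x i ∧ x i < N) :
    rep (prj N x) = x := by
  funext i
  simp only [rep, prj]
  rw [ZMod.val_intCast, Int.emod_eq_of_lt (hx i).1 (hx i).2]

theorem prj_add (N : ℕ) (x y : Vtx d) : prj N (x + y) = prj N x + prj N y := by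
  funext i
  simp [prj]

theorem prj_sub (N : ℕ) (x y : Vtx d) : prj N (x - y) = prj N x - prj N y := by
  funext i
  simp [prj]

theorem prj_ev (N : ℕ) (j : Fin d) : prj N (ev j : Vtx d) = tev j := by
  funext i
  by_cases h : i = j
  · subst h; simp [prj, ev, tev]
  · simp [prj, ev, tev, h]

theorem sum_inj_le {α β : Type*} [Fintype β] [DecidableEq β] (T : Finset α) (π : α → β)
    (hπ : Set.InjOn π T) (g : β → ℝ) (hg : ∀ x, 0 ≤ g x) : ∑ y ∈ T, g (π y) ≤ ∑ x, g x := by
  rw [← Finset.sum_image hπ]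
  exact Finset.sum_le_univ_sum_of_nonneg hg

theorem sum_blocks_le {n m : ℕ} (hn : 0 < n) (b : Vtx d) (T : Finset (Vtx d))
    (hT : ∀ w ∈ T, ∀ i, ((n : ℕ) : ℤ) ∣ w i - b i ∧ 0 ≤ w i - b i ∧ w i - b i < n * m)
    (g : Vtx d → ℝ) (hg : ∀ v, 0 ≤ g v) :
    ∑ w ∈ T, g (w - b) ≤ ∑ w : Fin d → Fin m, g (fun i => ((n * (w i : ℕ) : ℕ) : ℤ)) := by
  set σ : (Fin d → Fin m) → Vtx d := fun w => b + fun i => ((n * (w i : ℕ) : ℕ) : ℤ) with hσ
  have hinj : Function.Injective σ := by
    intro w w' h
    funext i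
    have h1 := congrFun h i
    simp only [hσ, Pi.add_apply, add_right_inj] at h1
    have h2 : n * (w i : ℕ) = n * (w' i : ℕ) := by exact_mod_cast h1
    exact Fin.ext (Nat.eq_of_mul_eq_mul_left hn h2)
  have hsub : T ⊆ Finset.univ.image σ := by
    intro w hw
    rw [Finset.mem_image]
    have hn' : (0 : ℤ) < n := by exact_mod_cast hn
    have h1 : ∀ i, ∃ q : Fin m, w i - b i = n * (q : ℕ) := by
      intro i
      obtain ⟨⟨q, hq⟩, h0, h1⟩ := hT w hw i
      have hq0 : 0 ≤ q := by
        rw [hq] at h0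
        exact nonneg_of_mul_nonneg_right h0 hn'
      have hq1 : q < m := by
        rw [hq] at h1
        exact lt_of_mul_lt_mul_left h1 hn'.le
      refine ⟨⟨q.toNat, by omega⟩, ?_⟩
      rw [hq]
      congr 1
      simp [Int.toNat_of_nonneg hq0]
    choose q hq using h1
    refine ⟨q, Finset.mem_univ _, ?_⟩
    funext i
    simp only [hσ, Pi.add_apply]
    push_cast
    rw [← hq i]
    ring
  calc ∑ w ∈ T, g (w - b) ≤ ∑ w ∈ Finset.univ.image σ, g (w - b) :=
        Finset.sum_le_sum_of_subset_of_nonneg hsub fun _ _ _ => hg _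
    _ = ∑ w : Fin d → Fin m, g (σ w - b) := Finset.sum_image fun _ _ _ _ h => hinj h
    _ = _ := by
        refine Finset.sum_congr rfl fun w _ => ?_
        simp only [hσ, add_sub_cancel_left]

theorem sum_cube (w : Vtx d) (n : ℕ) (H : Vtx d → ℝ) :
    ∑ y ∈ cube w n, H y = ∑ u : Fin d → Fin n, H (w + fun i => ((u i : ℕ) : ℤ)) := by
  symm
  refine Finset.sum_bij (fun u _ => w + fun i => ((u i : ℕ) : ℤ)) ?_ ?_ ?_ ?_
  · intro u _
    unfold cube
    rw [Fintype.mem_piFinset]
    intro i
    rw [Finset.mem_Ico]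
    have := (u i).2
    simp only [Pi.add_apply]
    omega
  · intro u _ u' _ h
    funext i
    have h1 := congrFun h i
    simp only [Pi.add_apply, add_right_inj] at h1
    exact Fin.ext (by exact_mod_cast h1)
  · intro y hy
    unfold cube at hy
    rw [Fintype.mem_piFinset] at hy
    have h1 : ∀ i, ∃ q : Fin n, y i = w i + (q : ℕ) := by
      intro i
      have h2 := hy i
      rw [Finset.mem_Ico] at h2
      refine ⟨⟨(y i - w i).toNat, by omega⟩, ?_⟩
      simp only
      omega
    choose q hq using h1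
    exact ⟨q, Finset.mem_univ _, by funext i; simp [hq i]⟩
  · intro u _
    rfl

section Setup

variable {N : ℕ} [NeZero N] (η : Conf d) (b : Vtx d)

theorem lift_window {x : Vtx d} (hx : ∀ i, 0 ≤ x i ∧ x i < N) (j : Fin d) :
    lift (window N η b) x j ↔ η (x + b) j := by
  simp only [lift, window, decide_eq_true_eq]
  rw [rep_prj hx, add_comm]

theorem good_window {n : ℕ} {w : Vtx d}
    (hw : ∀ i, 10 * (n : ℤ) ≤ w i - b i ∧ w i - b i + 10 * n < N) :
    Good (lift (window N η b)) n (w - b) ↔ Good η n w := by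
  have h1 := good_shift (η := η) (n := n) (z := w - b) (a := b)
  rw [sub_add_cancel] at h1
  rw [← h1]
  refine good_congr fun x hx j _ => lift_window η b (fun i => ?_) j
  rw [mem_Lam, BAS_le_iff] at hx
  have h2 := hx i
  have h3 := hw i
  simp only [Pi.sub_apply] at h2
  omega

theorem far_window {n : ℕ} {w : Vtx d}
    (hw : ∀ i, (n : ℤ) ≤ w i - b i ∧ w i - b i + n < N) :
    Far (lift (window N η b)) n (w - b) ↔ Far η n w := by
  have h1 := far_shift (η := η) (n := n) (z := w - b) (a := b)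
  rw [sub_add_cancel] at h1
  rw [← h1]
  refine far_congr fun x hx j _ => lift_window η b (fun i => ?_) j
  rw [mem_Lam, BAS_le_iff] at hx
  have h2 := hx i
  have h3 := hw i
  simp only [Pi.sub_apply] at h2
  omega

theorem giant_window {M : ℕ} {w : Vtx d}
    (hw : ∀ i, 6 * (M : ℤ) ≤ w i - b i ∧ w i - b i + 6 * M < N) :
    Giant M (window N η b) (prj N (w - b)) ↔ Far η (6 * M) w := by
  unfold Giant
  rw [rep_prj fun i => by have := hw i; simp only [Pi.sub_apply]; omega]
  exact far_window η b fun i => by have := hw i; push_cast; omega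

theorem window_prj {y : Vtx d} (hy : ∀ i, 0 ≤ y i - b i ∧ y i - b i < N) (j : Fin d) :
    window N η b (prj N (y - b), j) = true ↔ η y j := by
  simp only [window, decide_eq_true_eq]
  rw [rep_prj fun i => by have := hy i; simp only [Pi.sub_apply]; omega]
  rw [add_sub_cancel]

theorem grad_uu (μ : ℝ) (o : Tor N d × Fin d → Bool) (z y : Vtx d) (i j : Fin d) :
    grad (uu z (fun i y => phi μ o i (prj N (y - b))) i) y j =
      Zf tsrc ttgt μ o (xi i) (prj N (y - b), j) := by
  have h1 : prj N (y + ev j - b) = prj N (y - b) + tev j := by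
    rw [← prj_ev, ← prj_add]
    congr 1
    abel
  have h2 : grad (uu z (fun i y => phi μ o i (prj N (y - b))) i) y j =
      ((((y + ev j) i - z i : ℤ) : ℝ) + phi μ o i (prj N (y + ev j - b))) -
        (((y i - z i : ℤ) : ℝ) + phi μ o i (prj N (y - b))) := rfl
  have h3 : Zf tsrc ttgt μ o (xi i) (prj N (y - b), j) =
      (if j = i then (1 : ℝ) else 0) +
        (phi μ o i (prj N (y - b) + tev j) - phi μ o i (prj N (y - b))) := rfl
  rw [h2, h3, h1]
  simp only [Pi.add_apply]
  by_cases h : i = j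
  · subst h
    simp only [ev, Pi.single_eq_same, if_true]
    push_cast
    ring
  · have h' : ¬ j = i := fun e => h e.symm
    simp only [ev, h', if_false, ne_eq, h, not_false_eq_true, Pi.single_eq_of_ne]
    push_cast
    ring

/-- the equation of the corrector in terms of `Z` -/
theorem phi_eq {μ : ℝ} (hμ : 0 < μ) (o : Tor N d × Fin d → Bool) (i : Fin d) (x : Tor N d) :
    ∑ j, ((if o (x, j) then Zf tsrc ttgt μ o (xi i) (x, j) else 0) -
      (if o (x - tev j, j) then Zf tsrc ttgt μ o (xi i) (x - tev j, j) else 0)) =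
        μ * phi μ o i x := by
  have h1 := congrFun (sol_spec (src := tsrc) (tgt := ttgt) o hμ
    (Dv tsrc ttgt o (xi i))) x
  have h2 : ∀ f : Tor N d × Fin d → ℝ, ∑ e, (if tsrc e = x then f e else 0) = ∑ j, f (x, j) := by
    intro f
    rw [Fintype.sum_prod_type, Finset.sum_comm]
    refine Finset.sum_congr rfl fun j _ => ?_
    rw [Finset.sum_eq_single x]
    · simp [tsrc]
    · intro y _ hy
      simp [tsrc, hy]
    · intro h
      exact absurd (Finset.mem_univ _) h
  have h3 : ∀ f : Tor N d × Fin d → ℝ, ∑ e, (if ttgt e = x then f e else 0) =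
      ∑ j, f (x - tev j, j) := by
    intro f
    rw [Fintype.sum_prod_type, Finset.sum_comm]
    refine Finset.sum_congr rfl fun j _ => ?_
    rw [Finset.sum_eq_single (x - tev j)]
    · simp [ttgt]
    · intro y _ hy
      have h4 : ¬ (y + tev j = x) := fun h => hy (by rw [← h, add_sub_cancel_right])
      simp [ttgt, h4]
    · intro h
      exact absurd (Finset.mem_univ _) h
  have h5 : ∑ j, ((if o (x, j) then Zf tsrc ttgt μ o (xi i) (x, j) else 0) -
      (if o (x - tev j, j) then Zf tsrc ttgt μ o (xi i) (x - tev j, j) else 0)) =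
      ∑ e, (if tsrc e = x then (if o e then Zf tsrc ttgt μ o (xi i) e else 0) else 0) -
      ∑ e, (if ttgt e = x then (if o e then Zf tsrc ttgt μ o (xi i) e else 0) else 0) := by
    rw [h2, h3, Finset.sum_sub_distrib]
  have h6 : Op tsrc ttgt μ o (phi μ o i) x = Dv tsrc ttgt o (xi i) x := h1
  have h7 : Op tsrc ttgt μ o (phi μ o i) x = μ * phi μ o i x + ∑ e, if o e then
    ((if ttgt e = x then gr tsrc ttgt (phi μ o i) e else 0) -
      (if tsrc e = x then gr tsrc ttgt (phi μ o i) e else 0)) else 0 := rfl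
  have h8 : Dv tsrc ttgt o (xi i) x = ∑ e, if o e then
    ((if tsrc e = x then xi i e else 0) - (if ttgt e = x then xi i e else 0)) else 0 := rfl
  have h9 : ∀ e, Zf tsrc ttgt μ o (xi i) e = xi i e + gr tsrc ttgt (phi μ o i) e := fun _ => rfl
  have h10 : μ * phi μ o i x = (∑ e, if o e then
    ((if tsrc e = x then xi i e else 0) - (if ttgt e = x then xi i e else 0)) else 0) -
      ∑ e, if o e then
    ((if ttgt e = x then gr tsrc ttgt (phi μ o i) e else 0) -
      (if tsrc e = x then gr tsrc ttgt (phi μ o i) e else 0)) else 0 := by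
    rw [h7, h8] at h6
    linarith
  rw [h5, h10, ← Finset.sum_sub_distrib, ← Finset.sum_sub_distrib]
  refine Finset.sum_congr rfl fun e _ => ?_
  rw [h9]
  by_cases ho : o e = true
  · simp only [ho, if_true]
    split_ifs <;> ring
  · simp [ho]

end Setup

theorem block_sum_le {N n m : ℕ} (hn : 0 < n) (b : Vtx d) (T : Finset (Vtx d))
    (hT : ∀ w ∈ T, ∀ i, ((n : ℕ) : ℤ) ∣ w i - b i ∧ 0 ≤ w i - b i ∧ w i - b i < n * m)
    (H : Vtx d → ℝ) (F : Tor N d → ℝ)
    (hH : ∀ w ∈ T, ∀ y ∈ cube w n, H y = F (prj N (y - b))) (K : ℝ) :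
    ∑ w ∈ T, ((∑ y ∈ cube w n, H y) - K) ^ 2 ≤
      ∑ w : Fin d → Fin m, ((∑ u : Fin d → Fin n,
        F (prj N (fun i => ((n * (w i : ℕ) + (u i : ℕ) : ℕ) : ℤ)))) - K) ^ 2 := by
  have h1 := sum_blocks_le (m := m) hn b T hT (fun v => ((∑ u : Fin d → Fin n,
    F (prj N (v + fun i => ((u i : ℕ) : ℤ)))) - K) ^ 2) fun v => sq_nonneg _
  refine le_trans (le_of_eq ?_) (le_trans h1 (le_of_eq ?_))
  · refine Finset.sum_congr rfl fun w hw => ?_
    congr 2
    rw [Finset.sum_congr rfl (hH w hw), sum_cube w n (fun y => F (prj N (y - b)))]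
    refine Finset.sum_congr rfl fun u _ => ?_
    congr 2
    abel
  · refine Finset.sum_congr rfl fun w _ => ?_
    congr 2

end TL

open TL in
theorem loc_of_tgood (d : ℕ) (hd : 1 ≤ d) (A k : ℕ) (hk : 1 ≤ k) (hA : 6 * k + 2 ≤ A) :
    ∃ M₁ : ℕ, ∀ (c : ℕ) (CL θ₀ a θ : ℝ) {N M : ℕ} [NeZero N], M₁ ≤ M → N = 16 * M ^ A →
      1 / (CL * (M : ℝ) ^ c) ≤ a → a ≤ 1 → θ₀ ≤ θ → θ ≤ 1 → ∀ (η : Conf d) (z : Vtx d),
        Grid (M ^ A) z → TGood A k a θ M (window N η (z - fun _ => 8 * (M : ℤ) ^ A)) →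
          Loc c CL θ₀ A k η M z := by
  refine ⟨11, ?_⟩
  intro c CL θ₀ a θ N M _ hM hN ha1 ha2 ht1 ht2 η z hz hT
  set b : Vtx d := z - fun _ => 8 * (M : ℤ) ^ A with hb
  obtain ⟨s, hs⟩ : ∃ s : ℕ, M ^ A = s := ⟨_, rfl⟩
  have hsZ : (M : ℤ) ^ A = (s : ℤ) := by rw [← hs]; push_cast; rfl
  have h11 : 11 * M ≤ s := by
    rw [← hs]
    calc 11 * M ≤ M * M := Nat.mul_le_mul_right _ hM
      _ = M ^ 2 := by ring
      _ ≤ M ^ A := Nat.pow_le_pow_right (by omega) (by omega)
  have hbi : ∀ i, b i = z i - 8 * (s : ℤ) := by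
    intro i
    simp only [hb, Pi.sub_apply, hsZ]
  have hNs : N = 16 * s := by rw [hN, hs]
  have hpos : ∀ y, dst y z ≤ 7 * s → ∀ i, (s : ℤ) ≤ y i - b i ∧ y i - b i ≤ 15 * s := by
    intro y hy i
    rw [BAS_le_iff] at hy
    have h1 := hy i
    rw [hbi i]
    omega
  set o : Tor N d × Fin d → Bool := window N η b with ho
  set μ : ℝ := 1 / ((M : ℝ) ^ A) ^ 2 with hμ
  have hM0 : (0 : ℝ) < (M : ℝ) := by exact_mod_cast (show 0 < M by omega)
  have hμ0 : 0 < μ := by rw [hμ]; positivity
  have hgi : ∀ y, dst y z ≤ 7 * s → (Giant M o (prj N (y - b)) ↔ Far η (6 * M) y) := by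
    intro y hy
    refine giant_window η b fun i => ?_
    have := hpos y hy i
    omega
  have hwin : ∀ y, dst y z ≤ 7 * s → ∀ j, (o (prj N (y - b), j) = true ↔ η y j) := by
    intro y hy j
    refine window_prj η b (fun i => ?_) j
    have := hpos y hy i
    omega
  have hinj : ∀ y y', dst y z ≤ 7 * s → dst y' z ≤ 7 * s →
      prj N (y - b) = prj N (y' - b) → y = y' := by
    intro y y' hy hy' h
    have h1 := congrArg rep h
    rw [rep_prj fun i => by have := hpos y hy i; simp only [Pi.sub_apply]; omega,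
      rep_prj fun i => by have := hpos y' hy' i; simp only [Pi.sub_apply]; omega] at h1
    exact sub_left_injective h1
  obtain ⟨hG, hphi, hflux, hdens⟩ := hT
  have hgu : ∀ (i j : Fin d) (y : Vtx d),
      grad (uu z (fun i y => phi μ o i (prj N (y - b))) i) y j =
        Zf tsrc ttgt μ o (xi i) (prj N (y - b), j) := fun i j y => grad_uu b μ o z y i j
  -- the blocks
  obtain ⟨n, hn⟩ : ∃ n : ℕ, M ^ (A - 6 * k) = n := ⟨_, rfl⟩
  have hn0 : 0 < n := by rw [← hn]; exact pow_pos (by omega) _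
  have hnm : n * M ^ (6 * k) = s := by
    rw [← hn, ← hs, ← pow_add]
    congr 1
    omega
  have hns : n ≤ s := by
    rw [← hnm]
    exact Nat.le_mul_of_pos_right _ (pow_pos (by omega) _)
  have hblk : ∀ w ∈ (Lam z (5 * M ^ A)).filter (Grid (M ^ (A - 6 * k))), ∀ i,
      ((M ^ (A - 6 * k) : ℕ) : ℤ) ∣ w i - b i ∧ 0 ≤ w i - b i ∧
        w i - b i < (M ^ (A - 6 * k) : ℕ) * ((16 * M ^ (6 * k) : ℕ) : ℤ) := by
    intro w hw i
    rw [Finset.mem_filter, mem_Lam, hs] at hw
    have h1 := hpos w (by omega) i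
    have h2 : ((M ^ (A - 6 * k) : ℕ) : ℤ) ∣ (s : ℤ) := by
      rw [hn, ← hnm]
      push_cast
      exact dvd_mul_right _ _
    have h3 : ((M ^ (A - 6 * k) : ℕ) : ℤ) ∣ z i := by
      have h4 := hz i
      rw [hs] at h4
      exact h2.trans h4
    refine ⟨?_, by omega, ?_⟩
    · rw [hbi i]
      exact dvd_sub (hw.2 i) (dvd_sub h3 (Dvd.dvd.mul_left h2 8))
    · have h4 : (M ^ (A - 6 * k) : ℕ) * (16 * M ^ (6 * k)) = 16 * s := by
        rw [hn, ← hnm]
        ring
      have h5 : ((M ^ (A - 6 * k) : ℕ) : ℤ) * ((16 * M ^ (6 * k) : ℕ) : ℤ) = 16 * (s : ℤ) := by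
        exact_mod_cast h4
      rw [h5]
      have h6 : (0 : ℤ) < s := by
        have : 0 < s := by omega
        exact_mod_cast this
      omega
  have hcube : ∀ w ∈ (Lam z (5 * M ^ A)).filter (Grid (M ^ (A - 6 * k))),
      ∀ y ∈ cube w (M ^ (A - 6 * k)), dst y z ≤ 7 * s := by
    intro w hw y hy
    rw [Finset.mem_filter, mem_Lam, hs, BAS_le_iff] at hw
    rw [BAS_le_iff]
    intro i
    unfold cube at hy
    rw [Fintype.mem_piFinset] at hy
    have h1 := hy i
    rw [Finset.mem_Ico, hn] at h1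
    have h2 := hw.1 i
    omega
  refine ⟨a, θ, fun i y => phi μ o i (prj N (y - b)), ha1, ha2, ht1, ht2, ?_, ?_, ?_, ?_, ?_, ?_⟩
  · intro w hw hwz
    rw [hs] at hwz
    have h1 := hpos w hwz
    rw [← good_window (N := N) η b fun i => by have := h1 i; omega]
    refine hG _ fun i => ?_
    have h2 : (M : ℤ) ∣ (s : ℤ) := by
      rw [← hsZ]
      exact dvd_pow_self _ (by omega)
    have h3 : (M : ℤ) ∣ z i := by
      have h4 := hz i
      rw [hs] at h4
      exact h2.trans h4
    simp only [Pi.sub_apply]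
    rw [hbi i]
    exact dvd_sub (hw i) (dvd_sub h3 (Dvd.dvd.mul_left h2 8))
  · intro i y hy _
    rw [mem_Lam, hs] at hy
    have h1 := phi_eq (N := N) hμ0 o i (prj N (y - b))
    have h2 : phi μ o i (prj N (y - b)) / ((M : ℝ) ^ A) ^ 2 = μ * phi μ o i (prj N (y - b)) := by
      rw [hμ]
      ring
    show Lap η _ y = phi μ o i (prj N (y - b)) / ((M : ℝ) ^ A) ^ 2
    rw [h2, ← h1]
    unfold Lap
    refine Finset.sum_congr rfl fun j _ => ?_
    refine Eq.trans (congrArg₂ (· + ·) ?_ ?_) (sub_eq_add_neg _ _).symm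
    · have h3 := hwin y (by omega) j
      have h4 := hgu i j y
      unfold grad at h4
      rw [h4]
      by_cases h5 : η y j
      · rw [if_pos h5, if_pos (h3.2 h5)]
      · rw [if_neg h5, if_neg fun h => h5 (h3.1 h)]
    · have h6 : dst (y - ev j) z ≤ 7 * s := by
        have h7 := dst_triangle (y - ev j) y z
        have h8 := dst_add_ev (y - ev j) j
        rw [sub_add_cancel, dst_comm] at h8
        omega
      have h3 := hwin (y - ev j) h6 j
      have h4 := hgu i j (y - ev j)
      unfold grad at h4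
      rw [sub_add_cancel] at h4
      have h9 : prj N (y - ev j - b) = prj N (y - b) - tev j := by
        rw [← prj_ev, ← prj_sub]
        congr 1
        abel
      rw [h9] at h3 h4
      by_cases h5 : η (y - ev j) j
      · rw [if_pos h5, if_pos (h3.2 h5), ← h4]
        ring
      · rw [if_neg h5, if_neg fun h => h5 (h3.1 h), neg_zero]
  · intro i
    refine le_trans ?_ (hphi i)
    have h1 := sum_inj_le ((Lam z (6 * M ^ A)).filter (Far η (6 * M)))
      (fun y => prj N (y - b)) (fun y hy y' hy' h => by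
        rw [Finset.mem_coe, Finset.mem_filter, mem_Lam, hs] at hy hy'
        exact hinj y y' (by omega) (by omega) h)
      (fun x => if Giant M o x then phi μ o i x ^ 2 else 0)
      (fun x => by split_ifs <;> positivity)
    refine le_trans (le_of_eq ?_) h1
    refine Finset.sum_congr rfl fun y hy => ?_
    rw [Finset.mem_filter, mem_Lam, hs] at hy
    show phi μ o i (prj N (y - b)) ^ 2 = if Giant M o (prj N (y - b)) then _ else _
    rw [if_pos ((hgi y (by omega)).2 hy.2)]
  · intro i
    have h1 := sum_inj_le ((Lam z (6 * M ^ A)).filter (Far η (6 * M)))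
      (fun y => prj N (y - b)) (fun y hy y' hy' h => by
        rw [Finset.mem_coe, Finset.mem_filter, mem_Lam, hs] at hy hy'
        exact hinj y y' (by omega) (by omega) h)
      (fun x => ∑ j, if o (x, j) then Zf tsrc ttgt μ o (xi i) (x, j) ^ 2 else 0)
      (fun x => Finset.sum_nonneg fun j _ => by split_ifs <;> positivity)
    have h2 : ∑ x, (∑ j, if o (x, j) then Zf tsrc ttgt μ o (xi i) (x, j) ^ 2 else 0) =
        ∑ e, (if o e then Zf tsrc ttgt μ o (xi i) e ^ 2 else 0) := by
      rw [Fintype.sum_prod_type]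
    have h3 := zf_energy_le (src := tsrc) (tgt := ttgt) o hμ0 (xi i)
    have h4 : 0 ≤ μ * ∑ x, sol tsrc ttgt μ o (Dv tsrc ttgt o (xi i)) x ^ 2 := by positivity
    have h5 : ∑ e, (if o e then xi i e ^ 2 else 0) ≤ 16 ^ d * ((M : ℝ) ^ A) ^ d := by
      calc ∑ e, (if o e then xi i e ^ 2 else 0) ≤
          ∑ e : Tor N d × Fin d, (if e.2 = i then (1 : ℝ) else 0) := by
            refine Finset.sum_le_sum fun e _ => ?_
            unfold xi
            split_ifs <;> norm_num
        _ = ((Fintype.card (Tor N d) : ℕ) : ℝ) := by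
            rw [Fintype.sum_prod_type]
            simp
        _ = 16 ^ d * ((M : ℝ) ^ A) ^ d := by
            have : Fintype.card (Tor N d) = (16 * M ^ A) ^ d := by
              rw [Fintype.card_fun, ZMod.card, Fintype.card_fin, hN]
            rw [this]
            push_cast
            rw [mul_pow]
    refine le_trans ?_ h5
    refine le_trans ?_ (le_trans (le_add_of_nonneg_right h4) h3)
    rw [← h2]
    refine le_trans (le_of_eq ?_) h1
    refine Finset.sum_congr rfl fun y hy => ?_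
    rw [Finset.mem_filter, mem_Lam, hs] at hy
    show _ = ∑ j, _
    refine Finset.sum_congr rfl fun j _ => ?_
    rw [hgu i j y]
    have h3 := hwin y (by omega) j
    by_cases h5 : η y j
    · rw [if_pos h5, if_pos (h3.2 h5)]
    · rw [if_neg h5, if_neg fun h => h5 (h3.1 h)]
  · intro i j
    refine le_trans ?_ (hflux i j)
    refine block_sum_le (by rw [hn]; exact hn0) b _ hblk _
      (fun x => if Giant M o x then flux μ o i j x else 0) ?_ _
    intro w hw y hy
    have hy7 := hcube w hw y hy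
    have h3 := hwin y hy7 j
    have h4 := hgi y hy7
    show qq η M z _ i j y = if Giant M o (prj N (y - b)) then flux μ o i j (prj N (y - b)) else 0
    unfold qq flux
    rw [hgu i j y]
    by_cases h5 : Far η (6 * M) y
    · rw [if_pos (h4.2 h5)]
      by_cases h6 : η y j
      · rw [if_pos ⟨h5, h6⟩, if_pos (h3.2 h6)]
      · rw [if_neg fun h => h6 h.2, if_neg fun h => h6 (h3.1 h)]
    · rw [if_neg fun h => h5 h.1, if_neg fun h => h5 (h4.1 h)]
  · refine le_trans (le_of_eq ?_) (le_trans (block_sum_le (by rw [hn]; exact hn0) b _ hblk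
      (fun y => if Far η (6 * M) y then (1 : ℝ) else 0)
      (fun x => if Giant M o x then (1 : ℝ) else 0) ?_ _) hdens)
    · refine Finset.sum_congr rfl fun w _ => ?_
      congr 2
      rw [Finset.sum_boole]
    · intro w hw y hy
      have h4 := hgi y (hcube w hw y hy)
      show (if Far η (6 * M) y then (1 : ℝ) else 0) =
        if Giant M o (prj N (y - b)) then (1 : ℝ) else 0
      by_cases h5 : Far η (6 * M) y
      · rw [if_pos h5, if_pos (h4.2 h5)]
      · rw [if_neg h5, if_neg fun h => h5 (h4.1 h)]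

end Pool.Agent.Lib.MP_566bac_pr.Hd
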