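import Pool.Agent.Lib.MP_566bac_pr.Hd.LW
import Pool.Agent.Lib.MP_566bac_pr.Hd.TL
import Pool.Agent.Lib.MP_566bac_pr.Hd.PT

/-!
# The almost sure statement (Borel-Cantelli)
-/

open Finset MeasureTheory ProbabilityTheory Filter
open scoped Classical

namespace Pool.Agent.Lib.MP_566bac_pr.Hd

variable {d : ℕ}

namespace AS

theorem borel_cantelli {Ω : Type*} [MeasurableSpace Ω] (P : Measure Ω) [IsFiniteMeasure P]
    (E : ℕ → Set Ω) (C : ℝ) (M₁ : ℕ)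
    (h : ∀ M, M₁ ≤ M → P.real (E M) ≤ C / (M : ℝ) ^ 2) :
    ∀ᵐ S ∂P, ∃ M₀, ∀ M, M₀ ≤ M → S ∉ E M := by
  set s : ℕ → Set Ω := fun n => if M₁ ≤ n then E n else ∅ with hs
  have h1 : ∀ n, P.real (s n) ≤ |C| * (1 / (n : ℝ) ^ 2) := by
    intro n
    by_cases hn : M₁ ≤ n
    · simp only [hs, if_pos hn]
      refine le_trans (h n hn) ?_
      rw [mul_one_div]
      exact div_le_div_of_nonneg_right (le_abs_self C) (by positivity)
    · simp only [hs, if_neg hn]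
      simp only [measureReal_empty]
      positivity
  have hsum : Summable fun n : ℕ => |C| * (1 / (n : ℝ) ^ 2) :=
    (Real.summable_one_div_nat_pow.2 (by norm_num)).mul_left _
  have h2 : (∑' n, P (s n)) ≠ ⊤ := by
    have h3 : ∑' n, P (s n) ≤ ∑' n : ℕ, ENNReal.ofReal (|C| * (1 / (n : ℝ) ^ 2)) := by
      refine ENNReal.tsum_le_tsum fun n => ?_
      rw [← ENNReal.ofReal_toReal (measure_ne_top P (s n))]
      exact ENNReal.ofReal_le_ofReal (h1 n)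
    have h4 : ∑' n : ℕ, ENNReal.ofReal (|C| * (1 / (n : ℝ) ^ 2)) ≠ ⊤ := by
      rw [← ENNReal.ofReal_tsum_of_nonneg (fun n => by positivity) hsum]
      exact ENNReal.ofReal_ne_top
    exact ne_top_of_le_ne_top h4 h3
  filter_upwards [ae_eventually_notMem h2] with S hS
  rw [Filter.eventually_atTop] at hS
  obtain ⟨M₀, hM₀⟩ := hS
  refine ⟨max M₀ M₁, fun M hM hE => hM₀ M (le_trans (le_max_left _ _) hM) ?_⟩
  simp only [hs, if_pos (le_trans (le_max_right _ _) hM)]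
  exact hE

theorem real_exists_le {Ω ι : Type*} [MeasurableSpace Ω] (P : Measure Ω) [IsFiniteMeasure P]
    (T : Finset ι) (E : ι → Set Ω) (F : Set Ω) (hF : ∀ S ∈ F, ∃ i ∈ T, S ∈ E i) (b : ℝ)
    (hb : ∀ i ∈ T, P.real (E i) ≤ b) : P.real F ≤ T.card * b := by
  have h1 : F ⊆ ⋃ i ∈ T, E i := by
    intro S hS
    obtain ⟨i, hi, hi'⟩ := hF S hS
    exact Set.mem_biUnion hi hi'
  calc P.real F ≤ P.real (⋃ i ∈ T, E i) := measureReal_mono h1 (measure_ne_top _ _)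
    _ ≤ ∑ i ∈ T, P.real (E i) := measureReal_biUnion_finset_le T E
    _ ≤ ∑ _i ∈ T, b := Finset.sum_le_sum hb
    _ = T.card * b := by rw [Finset.sum_const, nsmul_eq_mul]

/-- the count of the blocks -/
theorem count1 {M B d : ℕ} (hM : 1 ≤ M) :
    (((Lam (0 : Vtx d) (8 * (M + 2) ^ B)).card : ℕ) : ℝ) ≤
      (17 * 3 ^ B : ℝ) ^ d * (M : ℝ) ^ (d * B) := by
  rw [card_Lam]
  have h1 : 2 * (8 * (M + 2) ^ B) + 1 ≤ 17 * 3 ^ B * M ^ B := by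
    have h2 : (M + 2) ^ B ≤ (3 * M) ^ B := Nat.pow_le_pow_left (by omega) _
    rw [mul_pow] at h2
    have h3 : 1 ≤ (M + 2) ^ B := Nat.one_le_pow _ _ (by omega)
    calc 2 * (8 * (M + 2) ^ B) + 1 ≤ 17 * (M + 2) ^ B := by omega
      _ ≤ 17 * (3 ^ B * M ^ B) := Nat.mul_le_mul_left _ h2
      _ = _ := by ring
  have h2 : (2 * (8 * (M + 2) ^ B) + 1) ^ d ≤ (17 * 3 ^ B) ^ d * M ^ (d * B) := by
    calc (2 * (8 * (M + 2) ^ B) + 1) ^ d ≤ (17 * 3 ^ B * M ^ B) ^ d := Nat.pow_le_pow_left h1 _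
      _ = _ := by rw [mul_pow, ← pow_mul, mul_comm B d]
  exact_mod_cast h2

theorem count2 {M B K d : ℕ} (hM : 1 ≤ M) :
    (((Lam (0 : Vtx d) (7 * 3 ^ B * M ^ K)).card : ℕ) : ℝ) ≤
      (15 * 3 ^ B : ℝ) ^ d * (M : ℝ) ^ (d * K) := by
  rw [card_Lam]
  have h1 : 2 * (7 * 3 ^ B * M ^ K) + 1 ≤ 15 * 3 ^ B * M ^ K := by
    have h3 : 1 ≤ 3 ^ B * M ^ K :=
      Nat.mul_pos (pow_pos (by norm_num) _) (pow_pos (by omega) _)
    nlinarith
  have h2 : (2 * (7 * 3 ^ B * M ^ K) + 1) ^ d ≤ (15 * 3 ^ B) ^ d * M ^ (d * K) := by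
    calc (2 * (7 * 3 ^ B * M ^ K) + 1) ^ d ≤ (15 * 3 ^ B * M ^ K) ^ d := Nat.pow_le_pow_left h1 _
      _ = _ := by rw [mul_pow, ← pow_mul, mul_comm K d]
  exact_mod_cast h2

/-- grid points of the region -/
theorem grid_mem {M A K : ℕ} (hM : 1 ≤ M) {z : Vtx d} (hz : Grid (M ^ A) z)
    (hz' : dst z 0 ≤ 7 * (M + 2) ^ (A + K)) :
    ∃ v ∈ Lam (0 : Vtx d) (7 * 3 ^ (A + K) * M ^ K), z = fun i => ((M ^ A : ℕ) : ℤ) * v i := by
  choose v hv using hz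
  refine ⟨v, ?_, funext hv⟩
  rw [mem_Lam, BAS_le_iff]
  intro i
  rw [BAS_le_iff] at hz'
  have h1 := hz' i
  simp only [Pi.zero_apply, sub_zero] at h1 ⊢
  rw [hv i, Int.natAbs_mul, Int.natAbs_natCast] at h1
  have h2 : 7 * (M + 2) ^ (A + K) ≤ M ^ A * (7 * 3 ^ (A + K) * M ^ K) := by
    have h3 : (M + 2) ^ (A + K) ≤ (3 * M) ^ (A + K) := Nat.pow_le_pow_left (by omega) _
    calc 7 * (M + 2) ^ (A + K) ≤ 7 * (3 * M) ^ (A + K) := Nat.mul_le_mul_left _ h3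
      _ = _ := by rw [mul_pow, pow_add M A K]; ring
  exact Nat.le_of_mul_le_mul_left (h1.trans h2) (pow_pos (by omega) _)

end AS

open AS in
theorem as_loc (d : ℕ) (hd : 3 ≤ d) (p : unitInterval) (hp : 0 < (p : ℝ)) (hp1 : (p : ℝ) < 1)
    (hD : Decay d p) : ∃ c : ℕ, ∃ θ₀ : ℝ, 0 < θ₀ ∧ ∀ k : ℕ, 1 ≤ k → ∀ A : ℕ,
      c + 100 * k * d ≤ A → ∃ CL : ℝ, 0 < CL ∧ ∀ᵐ S ∂(setBernoulli (lattice d).edgeSet p),
        ∃ M₀ : ℕ, (∀ M, M₀ ≤ M → ∀ w, Grid M w → dst w 0 ≤ 8 * (M + 2) ^ (A + 5 * k) →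
          Good (confS S) M w) ∧
        ∀ M, M₀ ≤ M → ∀ z, Grid (M ^ A) z → dst z 0 ≤ 7 * (M + 2) ^ (A + 5 * k) →
          Loc c CL θ₀ A k (confS S) M z := by
  obtain ⟨c₁, θ₀, hθ₀, hPT⟩ := prob_tgood d hd hp hp1 hD
  refine ⟨2 * c₁ + 4, θ₀, hθ₀, fun k hk A hA => ?_⟩
  have hkd : 3 * k ≤ k * d := by nlinarith
  have hA1 : c₁ + 50 * k ≤ A := by nlinarith
  have hA2 : 6 * k + 2 ≤ A := by nlinarith
  obtain ⟨CL, hCL, M₂, hPT⟩ := hPT k hk A hA1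
  obtain ⟨M₁, hTL⟩ := loc_of_tgood d (by omega) A k hk hA2
  refine ⟨CL, hCL, ?_⟩
  set P := setBernoulli (lattice d).edgeSet p with hP
  obtain ⟨Cq, hCq⟩ := hD (d * (A + 5 * k) + 2)
  -- the blocks
  have h1 : ∀ᵐ S ∂P, ∃ M₀ : ℕ, ∀ M, M₀ ≤ M →
      S ∉ {S | ∃ w, dst w 0 ≤ 8 * (M + 2) ^ (A + 5 * k) ∧ ¬ Good (confS S) M w} := by
    refine borel_cantelli P _ ((17 * 3 ^ (A + 5 * k) : ℝ) ^ d * |Cq|) 1 fun M hM => ?_
    have hM0 : (0 : ℝ) < M := by exact_mod_cast hM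
    refine le_trans (real_exists_le P (Lam (0 : Vtx d) (8 * (M + 2) ^ (A + 5 * k)))
      (fun w => {S | ¬ Good (confS S) M w}) _ ?_ (|Cq| / (M : ℝ) ^ (d * (A + 5 * k) + 2)) ?_) ?_
    · rintro S ⟨w, hw, hw'⟩
      exact ⟨w, mem_Lam.2 hw, hw'⟩
    · intro w _
      rw [hP, good_law p M w]
      exact le_trans (hCq M hM) (div_le_div_of_nonneg_right (le_abs_self _) (by positivity))
    · calc (((Lam (0 : Vtx d) (8 * (M + 2) ^ (A + 5 * k))).card : ℕ) : ℝ) *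
            (|Cq| / (M : ℝ) ^ (d * (A + 5 * k) + 2)) ≤
            ((17 * 3 ^ (A + 5 * k) : ℝ) ^ d * (M : ℝ) ^ (d * (A + 5 * k))) *
              (|Cq| / (M : ℝ) ^ (d * (A + 5 * k) + 2)) :=
            mul_le_mul_of_nonneg_right (count1 hM) (by positivity)
        _ = _ := by
            rw [pow_add (M : ℝ) (d * (A + 5 * k)) 2]
            field_simp
  -- the torus
  have h2 : ∀ᵐ S ∂P, ∃ M₀ : ℕ, ∀ M, M₀ ≤ M →
      S ∉ {S | ∃ z, Grid (M ^ A) z ∧ dst z 0 ≤ 7 * (M + 2) ^ (A + 5 * k) ∧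
        ¬ Loc (2 * c₁ + 4) CL θ₀ A k (confS S) M z} := by
    refine borel_cantelli P _ ((15 * 3 ^ (A + 5 * k) : ℝ) ^ d * CL) (max 1 (max M₁ M₂))
      fun M hM' => ?_
    have hM : 1 ≤ M := le_trans (le_max_left _ _) hM'
    have hM1 : M₁ ≤ M := le_trans ((le_max_left _ _).trans (le_max_right _ _)) hM'
    have hM2 : M₂ ≤ M := le_trans ((le_max_right _ _).trans (le_max_right _ _)) hM'
    have hM0 : (0 : ℝ) < M := by exact_mod_cast hM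
    have hM1' : (1 : ℝ) ≤ M := by exact_mod_cast hM
    have : NeZero (16 * M ^ A) := ⟨by positivity⟩
    obtain ⟨a, θ, ha1, ha2, ht1, ht2, hE⟩ := hPT (N := 16 * M ^ A) (M := M) hM2 rfl
    set q : ℕ := d * (5 * k) + c₁ + 30 * k + 2 with hq
    have hsq : (M : ℝ) ^ q ≤ Real.sqrt ((M : ℝ) ^ A) := by
      refine Real.le_sqrt_of_sq_le ?_
      rw [← pow_mul]
      refine pow_le_pow_right₀ hM1' ?_
      rw [hq]
      nlinarith
    refine le_trans (real_exists_le P (Lam (0 : Vtx d) (7 * 3 ^ (A + 5 * k) * M ^ (5 * k)))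
      (fun v => {S | ¬ TGood A k a θ M (window (16 * M ^ A) (confS S)
        ((fun i => ((M ^ A : ℕ) : ℤ) * v i) - fun _ => 8 * (M : ℤ) ^ A))}) _ ?_
      (CL * (M : ℝ) ^ c₁ * (M : ℝ) ^ (30 * k) / (M : ℝ) ^ q) ?_) ?_
    · rintro S ⟨z, hz, hz', hL⟩
      obtain ⟨v, hv, rfl⟩ := grid_mem hM hz hz'
      refine ⟨v, hv, fun hT => hL ?_⟩
      refine hTL (2 * c₁ + 4) CL θ₀ a θ hM1 rfl (le_trans ?_ ha1) ha2 ht1 ht2 (confS S) _ hz hT
      refine one_div_le_one_div_of_le (by positivity) ?_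
      exact mul_le_mul_of_nonneg_left (pow_le_pow_right₀ hM1' (by omega)) hCL.le
    · intro v _
      have h3 := window_law p (N := 16 * M ^ A) ((fun i => ((M ^ A : ℕ) : ℤ) * v i) -
        fun _ => 8 * (M : ℤ) ^ A) {o | ¬ TGood A k a θ M o}
      refine le_trans (le_of_eq (h3.trans ?_)) (le_trans hE ?_)
      · unfold Ex
        refine Finset.sum_congr rfl fun o _ => ?_
        congr 1
        by_cases h : TGood A k a θ M o
        · simp [h]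
        · simp [h]
      exact div_le_div_of_nonneg_left (by positivity) (by positivity) hsq
    · calc (((Lam (0 : Vtx d) (7 * 3 ^ (A + 5 * k) * M ^ (5 * k))).card : ℕ) : ℝ) *
            (CL * (M : ℝ) ^ c₁ * (M : ℝ) ^ (30 * k) / (M : ℝ) ^ q) ≤
            ((15 * 3 ^ (A + 5 * k) : ℝ) ^ d * (M : ℝ) ^ (d * (5 * k))) *
              (CL * (M : ℝ) ^ c₁ * (M : ℝ) ^ (30 * k) / (M : ℝ) ^ q) :=
            mul_le_mul_of_nonneg_right (count2 hM) (by positivity)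
        _ = _ := by
            rw [hq, pow_add (M : ℝ) _ 2, pow_add (M : ℝ) _ (30 * k), pow_add (M : ℝ) _ c₁]
            field_simp
  filter_upwards [h1, h2] with S hS1 hS2
  obtain ⟨m₁, hm₁⟩ := hS1
  obtain ⟨m₂, hm₂⟩ := hS2
  refine ⟨max m₁ m₂, fun M hM w _ hw => ?_, fun M hM z hz hz' => ?_⟩
  · by_contra hg
    exact hm₁ M (le_trans (le_max_left _ _) hM) ⟨w, hw, hg⟩
  · by_contra hg
    exact hm₂ M (le_trans (le_max_right _ _) hM) ⟨z, hz, hz', hg⟩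

end Pool.Agent.Lib.MP_566bac_pr.Hd
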