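import Pool.Agent.Lib.MP_566bac_pr.Hd.LP

/-!
# Weighted Caccioppoli inequality
-/

open Finset MeasureTheory ProbabilityTheory Filter
open scoped Classical

namespace Pool.Agent.Lib.MP_566bac_pr.Hd

variable {d : ℕ}

theorem CP_norm_ev (j : Fin d) : ‖(toE (ev j) : E d)‖ = 1 := by
  have h : (toE (ev j) : E d) = EuclideanSpace.single j 1 := by
    ext i
    unfold toE ev
    by_cases hij : i = j
    · subst hij
      simp
    · simp [hij]
  rw [h]
  simp

theorem CP_toE_add (y a : Vtx d) : (toE (y + a) : E d) = toE y + toE a := by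
  ext i
  simp [toE]

theorem CP_norm_le (y : Vtx d) (j : Fin d) : ‖(toE (y + ev j) : E d)‖ ≤ ‖(toE y : E d)‖ + 1 := by
  rw [CP_toE_add]
  refine (norm_add_le _ _).trans ?_
  rw [CP_norm_ev]

theorem CP_sum_shift_le (WW S : Finset (Vtx d)) (q : Vtx d → ℝ) (hq : ∀ y, 0 ≤ q y)
    (hS : ∀ y, y ∉ S → q y = 0) (a : Vtx d) : ∑ y ∈ WW, q (y + a) ≤ ∑ y ∈ S, q y := by
  have h1 : ∑ y ∈ WW, q (y + a) = ∑ y ∈ WW.image (fun y => y + a), q y := by
    rw [Finset.sum_image]
    intro x _ y _ h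
    exact add_left_injective a h
  rw [h1]
  have h2 : ∑ y ∈ WW.image (fun y => y + a), q y
      = ∑ y ∈ (WW.image (fun y => y + a)).filter (fun y => y ∈ S), q y := by
    symm
    apply Finset.sum_filter_of_ne
    intro y _ hne
    by_contra hy
    exact hne (hS y hy)
  rw [h2]
  apply Finset.sum_le_sum_of_subset_of_nonneg
  · intro y hy
    exact (Finset.mem_filter.mp hy).2
  · intro y _ _
    exact hq y

/-! ### CP: weighted Caccioppoli inequality -/
theorem weighted_caccioppoli (d : ℕ) (ρ C : ℝ) (hρ : 0 < ρ) (hρ1 : ρ < 1) :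
    ∃ C' : ℝ, 0 < C' ∧ ∀ (W : Vtx d → ℝ), (∀ y, 0 < W y) →
      (∀ y j, |W (y + ev j) - W y| ≤ C * (1 + ‖toE y‖) ^ (ρ - 1) * W y) →
      (∀ y j, W (y + ev j) ≤ C * W y ∧ W y ≤ C * W (y + ev j)) →
      ∀ (η : Conf d) (S : Finset (Vtx d)) (v : Vtx d → ℝ), (∀ y, y ∉ S → v y = 0) →
        ∑ y ∈ S ∪ S.biUnion (fun y => Finset.univ.image fun j => y - ev j), ∑ j,
          (if η y j then W y * grad v y j ^ 2 else 0) ≤
        C' * ∑ y ∈ S, W y * (1 + ‖toE y‖) ^ (2 * ρ - 2) * v y ^ 2 +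
        C' * ∑ y ∈ S, W y * (1 + ‖toE y‖) ^ (2 - 2 * ρ) * Lap η v y ^ 2 := by
  set K : ℝ := |C| with hK
  have hK0 : 0 ≤ K := abs_nonneg _
  have hCK : C ≤ K := le_abs_self _
  refine ⟨1 + 4 * K ^ 3 * d, by positivity, ?_⟩
  intro W hW h1 h2 η S v hv
  -- notation
  have hP : ∀ y : Vtx d, (0 : ℝ) < 1 + ‖(toE y : E d)‖ := fun y => by positivity
  set g : Vtx d → ℝ := fun y => (1 + ‖(toE y : E d)‖) ^ (ρ - 1) with hg
  set p : Vtx d → ℝ := fun y => (1 + ‖(toE y : E d)‖) ^ (2 * ρ - 2) with hp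
  set r : Vtx d → ℝ := fun y => (1 + ‖(toE y : E d)‖) ^ (2 - 2 * ρ) with hr
  have hg0 : ∀ y, 0 < g y := fun y => Real.rpow_pos_of_pos (hP y) _
  have hp0 : ∀ y, 0 < p y := fun y => Real.rpow_pos_of_pos (hP y) _
  have hr0 : ∀ y, 0 < r y := fun y => Real.rpow_pos_of_pos (hP y) _
  have hgp : ∀ y, g y ^ 2 = p y := by
    intro y
    simp only [hg, hp]
    rw [← Real.rpow_natCast, ← Real.rpow_mul (hP y).le]
    congr 1
    push_cast
    ring
  have hpr : ∀ y, p y * r y = 1 := by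
    intro y
    simp only [hp, hr]
    rw [← Real.rpow_add (hP y)]
    have : 2 * ρ - 2 + (2 - 2 * ρ) = 0 := by ring
    rw [this, Real.rpow_zero]
  have hp4 : ∀ y j, p y ≤ 4 * p (y + ev j) := by
    intro y j
    simp only [hp]
    have h3 : 1 + ‖(toE (y + ev j) : E d)‖ ≤ 2 * (1 + ‖(toE y : E d)‖) := by
      have := CP_norm_le y j
      have := norm_nonneg (toE y : E d)
      linarith
    have h4 : (2 * (1 + ‖(toE y : E d)‖)) ^ (2 * ρ - 2) ≤ (1 + ‖(toE (y + ev j) : E d)‖) ^ (2 * ρ - 2) :=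
      Real.rpow_le_rpow_of_nonpos (hP _) h3 (by linarith)
    rw [Real.mul_rpow (by norm_num) (hP y).le] at h4
    have h5 : (1 / 4 : ℝ) ≤ 2 ^ (2 * ρ - 2) := by
      have h6 : (2 : ℝ) ^ (-2 : ℝ) ≤ 2 ^ (2 * ρ - 2) :=
        Real.rpow_le_rpow_of_exponent_le (by norm_num) (by linarith)
      refine le_trans (le_of_eq ?_) h6
      rw [Real.rpow_neg (by norm_num)]
      norm_num
    have h6 : (1 / 4 : ℝ) * (1 + ‖(toE y : E d)‖) ^ (2 * ρ - 2)
        ≤ 2 ^ (2 * ρ - 2) * (1 + ‖(toE y : E d)‖) ^ (2 * ρ - 2) :=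
      mul_le_mul_of_nonneg_right h5 (hp0 y).le
    linarith
  -- the large set
  set WW : Finset (Vtx d) := S.biUnion (fun y => Lam y 1) with hWW
  have hSW : S ⊆ WW := fun y hy => Finset.mem_biUnion.mpr ⟨y, hy, LP_self_mem y⟩
  have hTW : S ∪ S.biUnion (fun y => Finset.univ.image fun j => y - ev j) ⊆ WW := by
    apply Finset.union_subset hSW
    intro y hy
    obtain ⟨x, hx, hy⟩ := Finset.mem_biUnion.mp hy
    obtain ⟨j, -, rfl⟩ := Finset.mem_image.mp hy
    exact Finset.mem_biUnion.mpr ⟨x, hx, LP_sub_mem x j⟩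
  set LW : ℝ := ∑ y ∈ WW, ∑ j, (if η y j then W y * grad v y j ^ 2 else 0) with hLW
  have hT : ∑ y ∈ S ∪ S.biUnion (fun y => Finset.univ.image fun j => y - ev j), ∑ j,
      (if η y j then W y * grad v y j ^ 2 else 0) ≤ LW := by
    apply Finset.sum_le_sum_of_subset_of_nonneg hTW
    intro y _ _
    apply Finset.sum_nonneg
    intro j _
    split_ifs
    · exact mul_nonneg (hW y).le (sq_nonneg _)
    · exact le_rfl
  refine hT.trans ?_
  -- summation by parts
  have h3 := lap_parts (η := η) WW v (fun y => W y * v y) (by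
    intro y hy
    have hyS : y ∈ S := by
      by_contra h
      apply hy
      simp only [hv y h, mul_zero]
    intro x hx
    exact Finset.mem_biUnion.mpr ⟨y, hyS, hx⟩)
  have h4 : ∑ y ∈ WW, Lap η v y * (W y * v y) = ∑ y ∈ S, Lap η v y * (W y * v y) := by
    symm
    apply Finset.sum_subset hSW
    intro y _ hy
    rw [hv y hy]
    ring
  -- the first term
  have h5 : -∑ y ∈ S, Lap η v y * (W y * v y) ≤
      1 / 2 * ∑ y ∈ S, W y * p y * v y ^ 2 + 1 / 2 * ∑ y ∈ S, W y * r y * Lap η v y ^ 2 := by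
    rw [← Finset.sum_neg_distrib, Finset.mul_sum, Finset.mul_sum, ← Finset.sum_add_distrib]
    apply Finset.sum_le_sum
    intro y _
    have h6 := hpr y
    have h7 : 0 ≤ W y * p y * (v y + r y * Lap η v y) ^ 2 :=
      mul_nonneg (mul_nonneg (hW y).le (hp0 y).le) (sq_nonneg _)
    have h8 : W y * p y * (v y + r y * Lap η v y) ^ 2
        = W y * p y * v y ^ 2 + 2 * W y * (p y * r y) * (v y * Lap η v y)
          + W y * (p y * r y) * r y * Lap η v y ^ 2 := by ring
    rw [h8, h6] at h7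
    linarith
  -- the second term
  have h6 : ∀ y j, -(grad v y j * (v (y + ev j) * (W (y + ev j) - W y))) ≤
      1 / 2 * (W y * grad v y j ^ 2) + 2 * K ^ 3 * (W (y + ev j) * p (y + ev j) * v (y + ev j) ^ 2) := by
    intro y j
    have h7 : |W (y + ev j) - W y| ≤ K * g y * W y := by
      refine (h1 y j).trans ?_
      apply mul_le_mul_of_nonneg_right _ (hW y).le
      exact mul_le_mul_of_nonneg_right hCK (hg0 y).le
    have h8 : -(grad v y j * (v (y + ev j) * (W (y + ev j) - W y)))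
        ≤ |grad v y j| * (|v (y + ev j)| * (K * g y * W y)) := by
      refine (neg_le_abs _).trans ?_
      rw [abs_mul, abs_mul]
      apply mul_le_mul_of_nonneg_left _ (abs_nonneg _)
      exact mul_le_mul_of_nonneg_left h7 (abs_nonneg _)
    have h9 : |grad v y j| * (|v (y + ev j)| * (K * g y * W y))
        ≤ 1 / 2 * (W y * grad v y j ^ 2) + 1 / 2 * (K ^ 2 * (W y * p y) * v (y + ev j) ^ 2) := by
      rw [← hgp y, ← sq_abs (grad v y j), ← sq_abs (v (y + ev j))]
      have := mul_nonneg (hW y).le (sq_nonneg (|grad v y j| - K * g y * |v (y + ev j)|))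
      nlinarith
    have h10 : W y * p y ≤ 4 * K * (W (y + ev j) * p (y + ev j)) := by
      have a1 : W y ≤ K * W (y + ev j) := by
        refine (h2 y j).2.trans ?_
        exact mul_le_mul_of_nonneg_right hCK (hW _).le
      calc W y * p y ≤ (K * W (y + ev j)) * (4 * p (y + ev j)) :=
            mul_le_mul a1 (hp4 y j) (hp0 y).le (mul_nonneg hK0 (hW _).le)
        _ = 4 * K * (W (y + ev j) * p (y + ev j)) := by ring
    have h11 : K ^ 2 * (W y * p y) * v (y + ev j) ^ 2
        ≤ K ^ 2 * (4 * K * (W (y + ev j) * p (y + ev j))) * v (y + ev j) ^ 2 := by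
      apply mul_le_mul_of_nonneg_right _ (sq_nonneg _)
      exact mul_le_mul_of_nonneg_left h10 (by positivity)
    linarith
  -- assembly
  have h7 : LW = -∑ y ∈ S, Lap η v y * (W y * v y)
      + ∑ y ∈ WW, ∑ j, (if η y j then -(grad v y j * (v (y + ev j) * (W (y + ev j) - W y))) else 0) := by
    rw [← h4, h3, neg_neg, hLW, ← Finset.sum_add_distrib]
    apply Finset.sum_congr rfl
    intro y _
    rw [← Finset.sum_add_distrib]
    apply Finset.sum_congr rfl
    intro j _
    unfold grad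
    split_ifs <;> ring
  have h8 : ∑ y ∈ WW, ∑ j, (if η y j then -(grad v y j * (v (y + ev j) * (W (y + ev j) - W y))) else 0)
      ≤ 1 / 2 * LW + 2 * K ^ 3 * (d * ∑ y ∈ S, W y * p y * v y ^ 2) := by
    have h9 : ∑ y ∈ WW, ∑ j, (if η y j then -(grad v y j * (v (y + ev j) * (W (y + ev j) - W y))) else 0)
        ≤ ∑ y ∈ WW, ∑ j, (1 / 2 * (if η y j then W y * grad v y j ^ 2 else 0)
          + 2 * K ^ 3 * (W (y + ev j) * p (y + ev j) * v (y + ev j) ^ 2)) := by
      apply Finset.sum_le_sum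
      intro y _
      apply Finset.sum_le_sum
      intro j _
      split_ifs
      · exact h6 y j
      · have : 0 ≤ 2 * K ^ 3 * (W (y + ev j) * p (y + ev j) * v (y + ev j) ^ 2) := by
          have := (hW (y + ev j)).le
          have := (hp0 (y + ev j)).le
          positivity
        linarith
    refine h9.trans ?_
    simp only [Finset.sum_add_distrib, ← Finset.mul_sum]
    rw [← hLW]
    have h10 : ∑ y ∈ WW, ∑ j, W (y + ev j) * p (y + ev j) * v (y + ev j) ^ 2
        ≤ d * ∑ y ∈ S, W y * p y * v y ^ 2 := by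
      rw [Finset.sum_comm]
      have h11 : ∀ j ∈ (Finset.univ : Finset (Fin d)),
          ∑ y ∈ WW, W (y + ev j) * p (y + ev j) * v (y + ev j) ^ 2
          ≤ ∑ y ∈ S, W y * p y * v y ^ 2 := by
        intro j _
        apply CP_sum_shift_le WW S (fun y => W y * p y * v y ^ 2)
        · intro y
          exact mul_nonneg (mul_nonneg (hW y).le (hp0 y).le) (sq_nonneg _)
        · intro y hy
          simp only [hv y hy]
          ring
      refine (Finset.sum_le_sum h11).trans (le_of_eq ?_)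
      rw [Finset.sum_const, Finset.card_univ, Fintype.card_fin, nsmul_eq_mul]
    have h12 : 0 ≤ 2 * K ^ 3 := by positivity
    linarith [mul_le_mul_of_nonneg_left h10 h12]
  have hA : 0 ≤ ∑ y ∈ S, W y * r y * Lap η v y ^ 2 := Finset.sum_nonneg fun y _ =>
    mul_nonneg (mul_nonneg (hW y).le (hr0 y).le) (sq_nonneg _)
  have hB : 0 ≤ 4 * K ^ 3 * d * ∑ y ∈ S, W y * r y * Lap η v y ^ 2 := by positivity
  linarith

end Pool.Agent.Lib.MP_566bac_pr.Hd
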