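import Pool.Agent.Lib.MP_566bac_pr.Hd.CGA

/-!
# CS: counting the cluster against a smooth function
-/

set_option autoImplicit false

open Finset MeasureTheory ProbabilityTheory Filter
open scoped Classical

namespace Pool.Agent.Lib.MP_566bac_pr.Hd

variable {d : ℕ}

/-- the cube of `ℝ^d` -/
def CS_Q (n : ℕ) (w : Vtx d) : Set (E d) := {x | ∀ i, (w i : ℝ) ≤ x i ∧ x i < w i + n}

theorem CS_Q_eq (n : ℕ) (w : Vtx d) : CS_Q n w =
    WithLp.ofLp ⁻¹' (Set.univ.pi fun i => Set.Ico (w i : ℝ) (w i + n)) := by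
  ext x
  simp [CS_Q, Set.mem_pi]

theorem CS_Q_meas (n : ℕ) (w : Vtx d) : MeasurableSet (CS_Q n w) := by
  rw [CS_Q_eq]
  exact (PiLp.volume_preserving_ofLp (Fin d)).measurable
    (MeasurableSet.univ_pi fun i => measurableSet_Ico)

theorem CS_Q_vol (n : ℕ) (w : Vtx d) : volume (CS_Q n w) = ENNReal.ofReal ((n : ℝ) ^ d) := by
  rw [CS_Q_eq, (PiLp.volume_preserving_ofLp (Fin d)).measure_preimage
    (MeasurableSet.univ_pi fun i => measurableSet_Ico).nullMeasurableSet, Real.volume_pi_Ico]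
  simp only [add_sub_cancel_left, Finset.prod_const, Finset.card_univ, Fintype.card_fin]
  rw [ENNReal.ofReal_pow (by positivity)]

theorem CS_Q_real (n : ℕ) (w : Vtx d) : volume.real (CS_Q n w) = (n : ℝ) ^ d := by
  rw [Measure.real, CS_Q_vol, ENNReal.toReal_ofReal (by positivity)]

theorem CS_norm_le {r : ℝ} (hr : 0 ≤ r) (x : E d) (h : ∀ i, |x i| ≤ r) : ‖x‖ ≤ d * r := by
  rw [EuclideanSpace.norm_eq, Real.sqrt_le_iff]
  refine ⟨by positivity, ?_⟩
  calc ∑ i, ‖x i‖ ^ 2 ≤ ∑ _i : Fin d, r ^ 2 := by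
        refine Finset.sum_le_sum fun i _ => ?_
        rw [Real.norm_eq_abs]
        exact pow_le_pow_left₀ (abs_nonneg _) (h i) 2
    _ = d * r ^ 2 := by
        rw [Finset.sum_const, Finset.card_univ, Fintype.card_fin, nsmul_eq_mul]
    _ ≤ (d : ℝ) ^ 2 * r ^ 2 := by
        apply mul_le_mul_of_nonneg_right _ (sq_nonneg _)
        have : d ≤ d ^ 2 := Nat.le_self_pow two_ne_zero d
        exact_mod_cast this
    _ = (d * r) ^ 2 := by ring

theorem CS_toE (y : Vtx d) (i : Fin d) : toE y i = (y i : ℝ) := rfl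

/-- the cube of a point -/
theorem CS_mem {n : ℕ} (hn : 1 ≤ n) {w : Vtx d} (hw : Grid n w) (x : E d) :
    x ∈ CS_Q n w ↔ CGA_fl n (fun i => ⌊x i⌋) = w := by
  rw [← CGA_mem_cube_iff hn hw, CGA_mem_cube]
  refine forall_congr' fun i => ?_
  rw [Int.le_floor, Int.floor_lt]
  push_cast
  rfl

theorem count_sum (d c : ℕ) (hd : 1 ≤ d) (A k : ℕ) (CL θ₀ : ℝ) (hk : 1 ≤ k) (hA : 12 * k ≤ A)
    (hCL : 0 < CL) (hθ₀ : 0 < θ₀) : ∃ (C : ℝ) (M₁ : ℕ), ∀ M : ℕ, M₁ ≤ M → ∀ (η : Conf d)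
      (z : Vtx d) (a θ : ℝ) (φ : Fin d → Vtx d → ℝ), Grid (M ^ A) z →
      LocData c CL θ₀ A k η M z a θ φ → ∀ (D : E d → ℝ) (Γ : ℝ), 0 ≤ Γ → (∀ x, |D x| ≤ Γ) →
        (∀ x y, |D x - D y| ≤ Γ / (M : ℝ) ^ A * ‖x - y‖) →
        (∀ x : E d, (∃ i, 2 * (M : ℝ) ^ A < |x i - z i|) → D x = 0) →
          |∑ y ∈ (Lam z (4 * M ^ A)).filter (Far η (6 * M)), D (toE y) - θ * ∫ x, D x| ≤
            C * Γ * ((M : ℝ) ^ A) ^ d / (M : ℝ) ^ (6 * k) := by
  refine ⟨9 ^ d * d + 9 ^ d + 9 ^ d * d, 2, ?_⟩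
  intro M hM η z a θ φ hz L D Γ hΓ hD1 hD2 hD3
  have hM1 : 1 ≤ M := by omega
  have hMr : (1 : ℝ) ≤ M := by exact_mod_cast hM1
  have hθ : 0 < θ := lt_of_lt_of_le hθ₀ L.t_low
  obtain ⟨hs1, hs2, hs3⟩ := CGA_scales hM hk hA
  have hdn := L.dens
  obtain ⟨n, hn⟩ : ∃ n : ℕ, n = M ^ (A - 6 * k) := ⟨_, rfl⟩
  obtain ⟨s, hs⟩ : ∃ s : ℕ, s = M ^ A := ⟨_, rfl⟩
  have hnr : (M : ℝ) ^ (A - 6 * k) = n := by rw [hn]; push_cast; rfl
  have hsr : (M : ℝ) ^ A = s := by rw [hs]; push_cast; rfl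
  rw [hnr, hsr, ← hn, ← hs] at hdn
  rw [← hn] at hs1 hs2 hs3
  rw [← hs] at hs2 hs3
  rw [hsr] at hD2 hD3
  rw [← hs, hsr]
  have hn1 : 1 ≤ n := by omega
  have hnpos : (0 : ℝ) < n := by exact_mod_cast hn1
  have hs0 : 1 ≤ s := by omega
  have hspos : (0 : ℝ) < s := by exact_mod_cast hs0
  -- the cubes
  obtain ⟨W, hWdef⟩ : ∃ W, W = (Lam z (3 * s)).filter (Grid n) := ⟨_, rfl⟩
  have hW : ∀ w ∈ W, Grid n w := fun w hw => by
    rw [hWdef, Finset.mem_filter] at hw
    exact hw.2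
  have hWz : ∀ w ∈ W, dst w z ≤ 3 * s := fun w hw => by
    rw [hWdef, Finset.mem_filter, mem_Lam] at hw
    exact hw.1
  have hW5 : W ⊆ (Lam z (5 * s)).filter (Grid n) := by
    rw [hWdef]
    apply Finset.filter_subset_filter
    apply Lam_subset
    rw [dst_self]
    omega
  have hWT : ∀ w ∈ W, cube w n ⊆ Lam z (4 * s) := by
    intro w hw
    refine (CGA_cube_subset w).trans (Lam_subset ?_)
    have := hWz w hw
    omega
  -- the number of cubes
  have hcard : (n : ℝ) ^ d * W.card ≤ 9 ^ d * (s : ℝ) ^ d := by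
    have h1 := CGA_sum_cubes_le hn1 _ _ hW hWT (fun _ => (1 : ℝ)) (fun _ => zero_le_one)
    simp only [Finset.sum_const, CGA_card_cube, card_Lam, nsmul_eq_mul, mul_one] at h1
    push_cast at h1
    calc (n : ℝ) ^ d * W.card = W.card * (n : ℝ) ^ d := mul_comm _ _
      _ ≤ (2 * (4 * (s : ℝ)) + 1) ^ d := h1
      _ ≤ (9 * s : ℝ) ^ d := by
          apply pow_le_pow_left₀ (by positivity)
          have : (1 : ℝ) ≤ s := by exact_mod_cast hs0
          linarith
      _ = _ := by rw [mul_pow]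
  obtain ⟨m6, hm6⟩ : ∃ m6 : ℝ, m6 = (M : ℝ) ^ (6 * k) := ⟨_, rfl⟩
  have hm60 : 0 < m6 := by rw [hm6]; positivity
  have hnm : (n : ℝ) * m6 = s := by
    rw [hm6, ← hs2]
    push_cast
    rfl
  rw [← hm6]
  -- oscillation
  have hosc : ∀ w : Vtx d, ∀ x ∈ CS_Q n w, |D x - D (toE w)| ≤ d * (Γ / m6) := by
    intro w x hx
    have h1 : ‖x - toE w‖ ≤ d * n := by
      apply CS_norm_le hnpos.le
      intro i
      have h2 := hx i
      change |x i - (w i : ℝ)| ≤ n
      rw [abs_le]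
      constructor <;> linarith
    calc |D x - D (toE w)| ≤ Γ / s * ‖x - toE w‖ := hD2 _ _
      _ ≤ Γ / s * (d * n) := mul_le_mul_of_nonneg_left h1 (by positivity)
      _ = d * (Γ / m6) := by
          rw [← hnm]
          field_simp
  have hosc' : ∀ w : Vtx d, ∀ y ∈ cube w n, |D (toE y) - D (toE w)| ≤ d * (Γ / m6) := by
    intro w y hy
    apply hosc w
    intro i
    rw [CGA_mem_cube] at hy
    have h1 := hy i
    have h2 : (w i : ℝ) ≤ y i := by exact_mod_cast h1.1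
    have h3 : (y i : ℝ) < w i + n := by exact_mod_cast h1.2
    exact ⟨h2, h3⟩
  -- the sum
  have hsum : ∑ y ∈ (Lam z (4 * s)).filter (Far η (6 * M)), D (toE y) =
      ∑ w ∈ W, ∑ y ∈ cube w n, if Far η (6 * M) y then D (toE y) else 0 := by
    rw [Finset.sum_filter]
    apply CGA_sum_cubes hn1 _ _ hW hWT
    intro y _ hy2
    have h1 : 2 * s < dst y z := by
      by_contra h1
      push Not at h1
      apply hy2
      rw [hWdef, Finset.mem_filter, mem_Lam]
      refine ⟨?_, CGA_fl_grid n y⟩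
      have h2 : y ∈ cube (CGA_fl n y) n := (CGA_mem_cube_iff hn1 (CGA_fl_grid n y)).2 rfl
      have h3 := CGA_dst_cube h2
      have h4 := dst_triangle (CGA_fl n y) y z
      rw [dst_comm] at h3
      omega
    have h2 : D (toE y) = 0 := by
      apply hD3
      by_contra h3
      push Not at h3
      have h4 : dst y z ≤ 2 * s := by
        rw [BAS_le_iff]
        intro i
        have h5 : |(y i : ℝ) - (z i : ℝ)| ≤ 2 * (s : ℝ) := h3 i
        have h6 : |y i - z i| ≤ 2 * (s : ℤ) := by exact_mod_cast h5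
        rw [abs_le] at h6
        omega
      omega
    rw [h2]
    simp
  have hint : ∀ w, IntegrableOn D (CS_Q n w) := by
    intro w
    have hcont : Continuous D := by
      have : LipschitzWith (Real.toNNReal (Γ / s)) D := by
        apply LipschitzWith.of_dist_le_mul
        intro x y
        rw [Real.dist_eq, dist_eq_norm, Real.coe_toNNReal _ (by positivity)]
        exact hD2 x y
      exact this.continuous
    apply Measure.integrableOn_of_bounded (M := Γ)
    · rw [CS_Q_vol]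
      exact ENNReal.ofReal_ne_top
    · exact hcont.aestronglyMeasurable
    · exact Eventually.of_forall fun x => by rw [Real.norm_eq_abs]; exact hD1 x
  have hintegral : ∫ x, D x = ∑ w ∈ W, ∫ x in CS_Q n w, D x := by
    rw [← integral_biUnion_finset W (fun w _ => CS_Q_meas n w) ?_ (fun w _ => hint w)]
    · symm
      apply setIntegral_eq_integral_of_forall_compl_eq_zero
      intro x hx
      apply hD3
      by_contra h3
      push Not at h3
      apply hx
      simp only [Set.mem_iUnion]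
      have hg : Grid n (CGA_fl n fun i => ⌊x i⌋) := CGA_fl_grid n _
      have hmem : x ∈ CS_Q n (CGA_fl n fun i => ⌊x i⌋) := (CS_mem hn1 hg x).2 rfl
      refine ⟨CGA_fl n fun i => ⌊x i⌋, ?_, hmem⟩
      rw [hWdef, Finset.mem_filter, mem_Lam]
      refine ⟨?_, hg⟩
      rw [BAS_le_iff]
      intro i
      have h4 := hmem i
      have h5 := h3 i
      rw [abs_le] at h5
      have hns : (n : ℝ) ≤ s := by
        have : n ≤ s := by omega
        exact_mod_cast this
      obtain ⟨wi, hwi⟩ : ∃ wi : ℤ, wi = CGA_fl n (fun i => ⌊x i⌋) i := ⟨_, rfl⟩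
      rw [← hwi] at h4 ⊢
      have h6 : (wi : ℝ) - z i ≤ 3 * s := by linarith
      have h7 : -(3 * (s : ℝ)) ≤ (wi : ℝ) - z i := by linarith
      have h8 : wi - z i ≤ 3 * (s : ℤ) := by exact_mod_cast h6
      have h9 : -(3 * (s : ℤ)) ≤ wi - z i := by exact_mod_cast h7
      omega
    · intro w hw w' hw' hne
      rw [Function.onFun, Set.disjoint_left]
      intro x h1 h2
      rw [CS_mem hn1 (hW w hw)] at h1
      rw [CS_mem hn1 (hW w' hw')] at h2
      exact hne (h1.symm.trans h2)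
  -- three errors
  obtain ⟨N, hN⟩ : ∃ N : Vtx d → ℝ, ∀ w, N w = (((cube w n).filter (Far η (6 * M))).card : ℝ) :=
    ⟨_, fun _ => rfl⟩
  have e1 : |∑ w ∈ W, (∑ y ∈ cube w n, (if Far η (6 * M) y then D (toE y) else 0) -
      N w * D (toE w))| ≤ 9 ^ d * d * (Γ * (s : ℝ) ^ d / m6) := by
    have h1 : ∀ w ∈ W, |∑ y ∈ cube w n, (if Far η (6 * M) y then D (toE y) else 0) -
        N w * D (toE w)| ≤ (n : ℝ) ^ d * (d * (Γ / m6)) := by
      intro w _
      have h2 : N w * D (toE w) = ∑ y ∈ cube w n, (if Far η (6 * M) y then D (toE w) else 0) := by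
        rw [← Finset.sum_filter, Finset.sum_const, nsmul_eq_mul, hN]
      rw [h2, ← Finset.sum_sub_distrib]
      calc |∑ y ∈ cube w n, ((if Far η (6 * M) y then D (toE y) else 0) -
          (if Far η (6 * M) y then D (toE w) else 0))| ≤
          ∑ y ∈ cube w n, |(if Far η (6 * M) y then D (toE y) else 0) -
          (if Far η (6 * M) y then D (toE w) else 0)| := Finset.abs_sum_le_sum_abs _ _
        _ ≤ ∑ _y ∈ cube w n, d * (Γ / m6) := by
            refine Finset.sum_le_sum fun y hy => ?_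
            split_ifs
            · exact hosc' w y hy
            · rw [sub_zero, abs_zero]
              positivity
        _ = _ := by
            rw [Finset.sum_const, CGA_card_cube, nsmul_eq_mul]
            push_cast
            ring
    calc |∑ w ∈ W, (∑ y ∈ cube w n, (if Far η (6 * M) y then D (toE y) else 0) -
        N w * D (toE w))| ≤ ∑ w ∈ W, (n : ℝ) ^ d * (d * (Γ / m6)) :=
          (Finset.abs_sum_le_sum_abs _ _).trans (Finset.sum_le_sum h1)
      _ = ((n : ℝ) ^ d * W.card) * (d * (Γ / m6)) := by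
          rw [Finset.sum_const, nsmul_eq_mul]
          ring
      _ ≤ (9 ^ d * (s : ℝ) ^ d) * (d * (Γ / m6)) :=
          mul_le_mul_of_nonneg_right hcard (by positivity)
      _ = _ := by ring
  have e2 : |∑ w ∈ W, (N w - θ * (n : ℝ) ^ d) * D (toE w)| ≤
      9 ^ d * (Γ * (s : ℝ) ^ d / m6) := by
    obtain ⟨Z, hZ⟩ : ∃ Z, Z = ∑ w ∈ W, |N w - θ * (n : ℝ) ^ d| := ⟨_, rfl⟩
    have hZ0 : 0 ≤ Z := by rw [hZ]; exact Finset.sum_nonneg fun _ _ => abs_nonneg _
    have h1 : |∑ w ∈ W, (N w - θ * (n : ℝ) ^ d) * D (toE w)| ≤ Γ * Z := by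
      rw [hZ, Finset.mul_sum]
      refine (Finset.abs_sum_le_sum_abs _ _).trans (Finset.sum_le_sum fun w _ => ?_)
      rw [abs_mul, mul_comm]
      exact mul_le_mul_of_nonneg_right (hD1 _) (abs_nonneg _)
    have h2 : Z ^ 2 ≤ (9 ^ d * (s : ℝ) ^ d / m6) ^ 2 := by
      have h3 : Z ^ 2 ≤ W.card * ∑ w ∈ W, (N w - θ * (n : ℝ) ^ d) ^ 2 := by
        rw [hZ]
        refine sq_sum_le_card_mul_sum_sq.trans (le_of_eq ?_)
        congr 1
        exact Finset.sum_congr rfl fun w _ => sq_abs _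
      have h4 : ∑ w ∈ W, (N w - θ * (n : ℝ) ^ d) ^ 2 ≤
          (n : ℝ) ^ d * (s : ℝ) ^ d / (M : ℝ) ^ (20 * k) := by
        refine le_trans ?_ hdn
        simp only [hN]
        exact Finset.sum_le_sum_of_subset_of_nonneg hW5 fun w _ _ => sq_nonneg _
      have hm20 : m6 ^ 2 ≤ (M : ℝ) ^ (20 * k) := by
        rw [hm6, ← pow_mul]
        exact pow_le_pow_right₀ hMr (by omega)
      calc Z ^ 2 ≤ W.card * ((n : ℝ) ^ d * (s : ℝ) ^ d / (M : ℝ) ^ (20 * k)) :=
            h3.trans (mul_le_mul_of_nonneg_left h4 (by positivity))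
        _ = ((n : ℝ) ^ d * W.card) * (s : ℝ) ^ d / (M : ℝ) ^ (20 * k) := by ring
        _ ≤ (9 ^ d * (s : ℝ) ^ d) * (s : ℝ) ^ d / m6 ^ 2 := by
            apply div_le_div₀ (by positivity) _ (by positivity) hm20
            exact mul_le_mul_of_nonneg_right hcard (by positivity)
        _ ≤ (9 ^ d * (s : ℝ) ^ d) * (9 ^ d * (s : ℝ) ^ d) / m6 ^ 2 := by
            apply div_le_div_of_nonneg_right _ (by positivity)
            apply mul_le_mul_of_nonneg_left _ (by positivity)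
            exact le_mul_of_one_le_left (by positivity) (one_le_pow₀ (by norm_num))
        _ = _ := by
            rw [div_pow]
            ring
    have h5 : Z ≤ 9 ^ d * (s : ℝ) ^ d / m6 := by
      have := abs_le_of_sq_le_sq' h2 (by positivity)
      exact this.2
    calc |∑ w ∈ W, (N w - θ * (n : ℝ) ^ d) * D (toE w)| ≤ Γ * Z := h1
      _ ≤ Γ * (9 ^ d * (s : ℝ) ^ d / m6) := mul_le_mul_of_nonneg_left h5 hΓ
      _ = _ := by ring
  have e3 : |∑ w ∈ W, ((n : ℝ) ^ d * D (toE w) - ∫ x in CS_Q n w, D x)| ≤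
      9 ^ d * d * (Γ * (s : ℝ) ^ d / m6) := by
    have h1 : ∀ w ∈ W, |(n : ℝ) ^ d * D (toE w) - ∫ x in CS_Q n w, D x| ≤
        (n : ℝ) ^ d * (d * (Γ / m6)) := by
      intro w _
      have hfin : volume (CS_Q n w) < ⊤ := by
        rw [CS_Q_vol]
        exact ENNReal.ofReal_lt_top
      have h2 : (n : ℝ) ^ d * D (toE w) = ∫ _x in CS_Q n w, D (toE w) := by
        rw [setIntegral_const, CS_Q_real, smul_eq_mul]
      have h3 : (n : ℝ) ^ d * D (toE w) - ∫ x in CS_Q n w, D x =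
          ∫ x in CS_Q n w, (D (toE w) - D x) := by
        rw [h2, ← integral_sub]
        · exact integrableOn_const hfin.ne
        · exact hint w
      rw [h3, ← Real.norm_eq_abs]
      have h4 := norm_setIntegral_le_of_norm_le_const (μ := volume) (s := CS_Q n w)
        (f := fun x => D (toE w) - D x) (C := d * (Γ / m6)) hfin (fun x hx => by
          rw [Real.norm_eq_abs, abs_sub_comm]
          exact hosc w x hx)
      rw [CS_Q_real] at h4
      linarith
    calc |∑ w ∈ W, ((n : ℝ) ^ d * D (toE w) - ∫ x in CS_Q n w, D x)| ≤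
        ∑ w ∈ W, (n : ℝ) ^ d * (d * (Γ / m6)) :=
          (Finset.abs_sum_le_sum_abs _ _).trans (Finset.sum_le_sum h1)
      _ = ((n : ℝ) ^ d * W.card) * (d * (Γ / m6)) := by
          rw [Finset.sum_const, nsmul_eq_mul]
          ring
      _ ≤ (9 ^ d * (s : ℝ) ^ d) * (d * (Γ / m6)) :=
          mul_le_mul_of_nonneg_right hcard (by positivity)
      _ = _ := by ring
  have key : ∑ y ∈ (Lam z (4 * s)).filter (Far η (6 * M)), D (toE y) - θ * ∫ x, D x =
      ∑ w ∈ W, (∑ y ∈ cube w n, (if Far η (6 * M) y then D (toE y) else 0) - N w * D (toE w)) +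
      ∑ w ∈ W, (N w - θ * (n : ℝ) ^ d) * D (toE w) +
      θ * ∑ w ∈ W, ((n : ℝ) ^ d * D (toE w) - ∫ x in CS_Q n w, D x) := by
    rw [hsum, hintegral, Finset.mul_sum, Finset.mul_sum, ← Finset.sum_sub_distrib,
      ← Finset.sum_add_distrib, ← Finset.sum_add_distrib]
    refine Finset.sum_congr rfl fun w _ => ?_
    ring
  rw [key]
  have e4 : |θ * ∑ w ∈ W, ((n : ℝ) ^ d * D (toE w) - ∫ x in CS_Q n w, D x)| ≤
      9 ^ d * d * (Γ * (s : ℝ) ^ d / m6) := by
    rw [abs_mul, abs_of_pos hθ]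
    calc θ * |∑ w ∈ W, ((n : ℝ) ^ d * D (toE w) - ∫ x in CS_Q n w, D x)| ≤
        1 * |∑ w ∈ W, ((n : ℝ) ^ d * D (toE w) - ∫ x in CS_Q n w, D x)| :=
          mul_le_mul_of_nonneg_right L.t_le (abs_nonneg _)
      _ = |∑ w ∈ W, ((n : ℝ) ^ d * D (toE w) - ∫ x in CS_Q n w, D x)| := one_mul _
      _ ≤ _ := e3
  refine (abs_add_le _ _).trans ?_
  refine (add_le_add_left (abs_add_le _ _) _).trans ?_
  calc _ ≤ 9 ^ d * d * (Γ * (s : ℝ) ^ d / m6) + 9 ^ d * (Γ * (s : ℝ) ^ d / m6) +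
        9 ^ d * d * (Γ * (s : ℝ) ^ d / m6) := add_le_add (add_le_add e1 e2) e4
    _ = _ := by ring

end Pool.Agent.Lib.MP_566bac_pr.Hd
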