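import Pool.Agent.Lib.MP_566bac_pr.Hd.DefsC

/-!
# Bounds for the bump
-/

open Finset MeasureTheory ProbabilityTheory Filter
open scoped Classical

namespace Pool.Agent.Lib.MP_566bac_pr.Hd

variable {d : ℕ}

theorem ET_eta0_smooth (d : ℕ) : ContDiff ℝ (⊤ : ℕ∞) (eta0 d) := (bump d).contDiff_normed

theorem ET_eta0_comp (d : ℕ) : HasCompactSupport (eta0 d) := (bump d).hasCompactSupport_normed

theorem ET_eta0_nonneg (d : ℕ) (x : E d) : 0 ≤ eta0 d x := (bump d).nonneg_normed x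

theorem ET_pd_smooth {f : E d → ℝ} (hf : ContDiff ℝ (⊤ : ℕ∞) f) (i : Fin d) :
    ContDiff ℝ (⊤ : ℕ∞) (pd i f) := by
  have h : ContDiff ℝ (⊤ : ℕ∞) (fderiv ℝ f) := hf.fderiv_right (by simp)
  exact h.clm_apply contDiff_const

theorem ET_pd_comp {f : E d → ℝ} (hf : HasCompactSupport f) (i : Fin d) :
    HasCompactSupport (pd i f) := by
  have h : HasCompactSupport (fderiv ℝ f) := hf.fderiv ℝ
  exact h.comp_left (g := fun L : E d →L[ℝ] ℝ => L (eb i)) (by simp)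

theorem ET_bdd {f : E d → ℝ} (hf : ContDiff ℝ (⊤ : ℕ∞) f) (hc : HasCompactSupport f) :
    ∃ C : ℝ, ∀ x, |f x| ≤ C := by
  obtain ⟨C, hC⟩ := hc.exists_bound_of_continuous hf.continuous
  exact ⟨C, fun x => by simpa using hC x⟩

/-- scaling -/
theorem ET_pd_scale {f : E d → ℝ} (hf : ContDiff ℝ (⊤ : ℕ∞) f) (a b : ℝ) (i : Fin d) :
    pd i (fun x => a * f (b • x)) = fun x => a * b * pd i f (b • x) := by
  funext x
  have h1 : HasFDerivAt (fun x : E d => b • x) (b • ContinuousLinearMap.id ℝ (E d)) x :=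
    (hasFDerivAt_id x).const_smul b
  have h2 : HasFDerivAt f (fderiv ℝ f (b • x)) (b • x) :=
    (hf.differentiable (by simp) _).hasFDerivAt
  have h3 := (h2.comp x h1).const_mul a
  have h4 : fderiv ℝ (fun x => a * f (b • x)) x =
      a • (fderiv ℝ f (b • x)).comp (b • ContinuousLinearMap.id ℝ (E d)) := h3.fderiv
  unfold pd
  rw [h4]
  simp only [smul_apply, ContinuousLinearMap.comp_apply, ContinuousLinearMap.id_apply, map_smul,
    smul_eq_mul]
  ring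

theorem etas_smooth (d : ℕ) (s : ℝ) : ContDiff ℝ (⊤ : ℕ∞) (etas d s) := by
  unfold etas
  exact contDiff_const.mul ((ET_eta0_smooth d).comp (contDiff_const_smul _))

theorem etas_support (d : ℕ) {s : ℝ} (hs : 0 < s) {x : E d} (h : s ≤ ‖x‖) : etas d s x = 0 := by
  unfold etas
  have h1 : s⁻¹ • x ∉ Function.support (eta0 d) := by
    have h2 : Function.support (eta0 d) = Metric.ball (0 : E d) 1 :=
      (bump d).support_normed_eq
    rw [h2]
    simp only [Metric.mem_ball, dist_zero_right, norm_smul, norm_inv, Real.norm_eq_abs,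
      abs_of_pos hs, not_lt]
    rw [inv_mul_eq_div, le_div_iff₀ hs]
    linarith
  rw [Function.notMem_support.1 h1, mul_zero]

theorem etas_integral (d : ℕ) {s : ℝ} (hs : 0 < s) : ∫ x, etas d s x = 1 := by
  unfold etas
  rw [integral_const_mul, Measure.integral_comp_inv_smul_of_nonneg _ _ hs.le]
  have h1 : ∫ x, eta0 d x = 1 := (bump d).integral_normed
  rw [h1]
  simp only [finrank_euclideanSpace, Fintype.card_fin, smul_eq_mul, mul_one]
  exact inv_mul_cancel₀ (by positivity)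

theorem ET_etas_eq (d : ℕ) (s : ℝ) : etas d s = fun x => (s ^ d)⁻¹ * eta0 d (s⁻¹ • x) := rfl

theorem ET_pd1 (d : ℕ) (s : ℝ) (i : Fin d) :
    pd i (etas d s) = fun x => (s ^ d)⁻¹ * s⁻¹ * pd i (eta0 d) (s⁻¹ • x) := by
  rw [ET_etas_eq, ET_pd_scale (ET_eta0_smooth d)]

theorem ET_pd2 (d : ℕ) (s : ℝ) (i j : Fin d) :
    pd j (pd i (etas d s)) =
      fun x => (s ^ d)⁻¹ * s⁻¹ * s⁻¹ * pd j (pd i (eta0 d)) (s⁻¹ • x) := by
  rw [ET_pd1, ET_pd_scale (ET_pd_smooth (ET_eta0_smooth d) i)]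

theorem ET_pd3 (d : ℕ) (s : ℝ) (i j l : Fin d) :
    pd l (pd j (pd i (etas d s))) =
      fun x => (s ^ d)⁻¹ * s⁻¹ * s⁻¹ * s⁻¹ * pd l (pd j (pd i (eta0 d))) (s⁻¹ • x) := by
  rw [ET_pd2, ET_pd_scale (ET_pd_smooth (ET_pd_smooth (ET_eta0_smooth d) i) j)]

theorem ET_bound0 (d : ℕ) : ∃ C : ℝ, 0 < C ∧ ∀ x : E d, |eta0 d x| ≤ C ∧
    ∀ i : Fin d, |pd i (eta0 d) x| ≤ C ∧ ∀ j : Fin d, |pd j (pd i (eta0 d)) x| ≤ C ∧
      ∀ l : Fin d, |pd l (pd j (pd i (eta0 d))) x| ≤ C := by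
  obtain ⟨C0, h0⟩ := ET_bdd (ET_eta0_smooth d) (ET_eta0_comp d)
  have h1 : ∀ i : Fin d, ∃ C : ℝ, ∀ x, |pd i (eta0 d) x| ≤ C := fun i =>
    ET_bdd (ET_pd_smooth (ET_eta0_smooth d) i) (ET_pd_comp (ET_eta0_comp d) i)
  have h2 : ∀ i j : Fin d, ∃ C : ℝ, ∀ x, |pd j (pd i (eta0 d)) x| ≤ C := fun i j =>
    ET_bdd (ET_pd_smooth (ET_pd_smooth (ET_eta0_smooth d) i) j)
      (ET_pd_comp (ET_pd_comp (ET_eta0_comp d) i) j)
  have h3 : ∀ i j l : Fin d, ∃ C : ℝ, ∀ x, |pd l (pd j (pd i (eta0 d))) x| ≤ C := fun i j l =>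
    ET_bdd (ET_pd_smooth (ET_pd_smooth (ET_pd_smooth (ET_eta0_smooth d) i) j) l)
      (ET_pd_comp (ET_pd_comp (ET_pd_comp (ET_eta0_comp d) i) j) l)
  choose C1 h1 using h1
  choose C2 h2 using h2
  choose C3 h3 using h3
  refine ⟨1 + |C0| + ∑ i, |C1 i| + ∑ i, ∑ j, |C2 i j| + ∑ i, ∑ j, ∑ l, |C3 i j l|, ?_, ?_⟩
  · have e1 : 0 ≤ |C0| := abs_nonneg _
    have e2 : 0 ≤ ∑ i, |C1 i| := Finset.sum_nonneg fun _ _ => abs_nonneg _
    have e3 : 0 ≤ ∑ i, ∑ j, |C2 i j| :=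
      Finset.sum_nonneg fun _ _ => Finset.sum_nonneg fun _ _ => abs_nonneg _
    have e4 : 0 ≤ ∑ i, ∑ j, ∑ l, |C3 i j l| :=
      Finset.sum_nonneg fun _ _ => Finset.sum_nonneg fun _ _ =>
        Finset.sum_nonneg fun _ _ => abs_nonneg _
    linarith
  · intro x
    have e1 : 0 ≤ |C0| := abs_nonneg _
    have e2 : 0 ≤ ∑ i, |C1 i| := Finset.sum_nonneg fun _ _ => abs_nonneg _
    have e3 : 0 ≤ ∑ i, ∑ j, |C2 i j| :=
      Finset.sum_nonneg fun _ _ => Finset.sum_nonneg fun _ _ => abs_nonneg _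
    have e4 : 0 ≤ ∑ i, ∑ j, ∑ l, |C3 i j l| :=
      Finset.sum_nonneg fun _ _ => Finset.sum_nonneg fun _ _ =>
        Finset.sum_nonneg fun _ _ => abs_nonneg _
    refine ⟨by linarith [h0 x, le_abs_self C0], fun i => ⟨?_, fun j => ⟨?_, fun l => ?_⟩⟩⟩
    · have g1 : |C1 i| ≤ ∑ i, |C1 i| :=
        Finset.single_le_sum (f := fun i => |C1 i|) (fun _ _ => abs_nonneg _) (Finset.mem_univ i)
      linarith [h1 i x, le_abs_self (C1 i)]
    · have g1 : |C2 i j| ≤ ∑ j, |C2 i j| :=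
        Finset.single_le_sum (f := fun j => |C2 i j|) (fun _ _ => abs_nonneg _)
          (Finset.mem_univ j)
      have g2 : ∑ j, |C2 i j| ≤ ∑ i, ∑ j, |C2 i j| :=
        Finset.single_le_sum (f := fun i => ∑ j, |C2 i j|)
          (fun _ _ => Finset.sum_nonneg fun _ _ => abs_nonneg _) (Finset.mem_univ i)
      linarith [h2 i j x, le_abs_self (C2 i j)]
    · have g1 : |C3 i j l| ≤ ∑ l, |C3 i j l| :=
        Finset.single_le_sum (f := fun l => |C3 i j l|) (fun _ _ => abs_nonneg _)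
          (Finset.mem_univ l)
      have g2 : ∑ l, |C3 i j l| ≤ ∑ j, ∑ l, |C3 i j l| :=
        Finset.single_le_sum (f := fun j => ∑ l, |C3 i j l|)
          (fun _ _ => Finset.sum_nonneg fun _ _ => abs_nonneg _) (Finset.mem_univ j)
      have g3 : ∑ j, ∑ l, |C3 i j l| ≤ ∑ i, ∑ j, ∑ l, |C3 i j l| :=
        Finset.single_le_sum (f := fun i => ∑ j, ∑ l, |C3 i j l|)
          (fun _ _ => Finset.sum_nonneg fun _ _ => Finset.sum_nonneg fun _ _ => abs_nonneg _)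
          (Finset.mem_univ i)
      linarith [h3 i j l x, le_abs_self (C3 i j l)]

theorem etas_bounds (d : ℕ) : ∃ C : ℝ, 0 < C ∧ ∀ s : ℝ, 0 < s → ∀ x : E d, 0 ≤ etas d s x ∧
    etas d s x ≤ C / s ^ d ∧ ∀ i : Fin d, |pd i (etas d s) x| ≤ C / s ^ (d + 1) ∧
      ∀ j : Fin d, |pd j (pd i (etas d s)) x| ≤ C / s ^ (d + 2) ∧
        ∀ l : Fin d, |pd l (pd j (pd i (etas d s))) x| ≤ C / s ^ (d + 3) := by
  obtain ⟨C, hC, hb⟩ := ET_bound0 d
  refine ⟨C, hC, fun s hs x => ?_⟩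
  obtain ⟨b0, b1⟩ := hb (s⁻¹ • x)
  have hsd : 0 < (s ^ d)⁻¹ := by positivity
  have hs1 : 0 < s⁻¹ := by positivity
  refine ⟨?_, ?_, fun i => ⟨?_, fun j => ⟨?_, fun l => ?_⟩⟩⟩
  · exact mul_nonneg hsd.le (ET_eta0_nonneg d _)
  · rw [ET_etas_eq]
    calc (s ^ d)⁻¹ * eta0 d (s⁻¹ • x) ≤ (s ^ d)⁻¹ * C :=
          mul_le_mul_of_nonneg_left ((le_abs_self _).trans b0) hsd.le
      _ = C / s ^ d := by ring
  · rw [ET_pd1]
    simp only [abs_mul, abs_of_pos hsd, abs_of_pos hs1]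
    calc (s ^ d)⁻¹ * s⁻¹ * |pd i (eta0 d) (s⁻¹ • x)| ≤ (s ^ d)⁻¹ * s⁻¹ * C :=
          mul_le_mul_of_nonneg_left (b1 i).1 (by positivity)
      _ = C / s ^ (d + 1) := by rw [pow_succ]; field_simp
  · rw [ET_pd2]
    simp only [abs_mul, abs_of_pos hsd, abs_of_pos hs1]
    calc (s ^ d)⁻¹ * s⁻¹ * s⁻¹ * |pd j (pd i (eta0 d)) (s⁻¹ • x)| ≤ (s ^ d)⁻¹ * s⁻¹ * s⁻¹ * C :=
          mul_le_mul_of_nonneg_left ((b1 i).2 j).1 (by positivity)
      _ = C / s ^ (d + 2) := by rw [pow_add]; field_simp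
  · rw [ET_pd3]
    simp only [abs_mul, abs_of_pos hsd, abs_of_pos hs1]
    calc (s ^ d)⁻¹ * s⁻¹ * s⁻¹ * s⁻¹ * |pd l (pd j (pd i (eta0 d))) (s⁻¹ • x)|
        ≤ (s ^ d)⁻¹ * s⁻¹ * s⁻¹ * s⁻¹ * C :=
          mul_le_mul_of_nonneg_left (((b1 i).2 j).2 l) (by positivity)
      _ = C / s ^ (d + 3) := by rw [pow_add]; field_simp

theorem ET_diff {f : E d → ℝ} (hf : ContDiff ℝ (⊤ : ℕ∞) f) : Differentiable ℝ f :=
  hf.differentiable (by simp)

theorem ET_pd_sum (S : Finset (Vtx d)) (v : Vtx d → ℝ) {f : E d → ℝ}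
    (hf : ContDiff ℝ (⊤ : ℕ∞) f) (x : E d) (i : Fin d) :
    pd i (fun x => ∑ y ∈ S, v y * f (x - toE y)) x = ∑ y ∈ S, v y * pd i f (x - toE y) := by
  have h1 : ∀ y ∈ S, HasFDerivAt (fun x => v y * f (x - toE y))
      (v y • (fderiv ℝ f (x - toE y)).comp (ContinuousLinearMap.id ℝ (E d))) x := by
    intro y _
    have h2 : HasFDerivAt (fun x : E d => x - toE y) (ContinuousLinearMap.id ℝ (E d)) x :=
      (hasFDerivAt_id x).sub_const _
    exact (((ET_diff hf _).hasFDerivAt.comp x h2)).const_mul (v y)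
  have h3 := (HasFDerivAt.fun_sum h1).fderiv
  unfold pd
  rw [h3]
  simp only [_root_.sum_apply, smul_apply, ContinuousLinearMap.comp_apply,
    ContinuousLinearMap.id_apply, smul_eq_mul]

theorem vc_smooth (s : ℝ) (S : Finset (Vtx d)) (v : Vtx d → ℝ) :
    ContDiff ℝ (⊤ : ℕ∞) (Vc s S v) := by
  unfold Vc
  exact ContDiff.sum fun y _ => contDiff_const.mul
    ((etas_smooth d s).comp (contDiff_id.sub contDiff_const))

/-- derivatives of `Vc` -/
theorem vc_pd (s : ℝ) (S : Finset (Vtx d)) (v : Vtx d → ℝ) (x : E d) (i : Fin d) :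
    pd i (Vc s S v) x = ∑ y ∈ S, v y * pd i (etas d s) (x - toE y) ∧
    ∀ j, pd j (pd i (Vc s S v)) x = ∑ y ∈ S, v y * pd j (pd i (etas d s)) (x - toE y) := by
  have h1 : pd i (Vc s S v) = fun x => ∑ y ∈ S, v y * pd i (etas d s) (x - toE y) := by
    funext x
    exact ET_pd_sum S v (etas_smooth d s) x i
  refine ⟨congrFun h1 x, fun j => ?_⟩
  rw [h1]
  exact ET_pd_sum S v (ET_pd_smooth (etas_smooth d s) i) x j

theorem ET_line {f : E d → ℝ} (hf : ContDiff ℝ (⊤ : ℕ∞) f) (u : E d) (j : Fin d) (t : ℝ) :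
    HasDerivAt (fun t : ℝ => f (u - t • eb j)) (-pd j f (u - t • eb j)) t := by
  have h1 : HasDerivAt (fun t : ℝ => u - t • eb j) (-eb j) t := by
    have h2 := ((hasDerivAt_id t).smul_const (eb j)).const_sub u
    simpa using h2
  have h3 := (ET_diff hf (u - t • eb j)).hasFDerivAt.comp_hasDerivAt t h1
  refine HasDerivAt.congr_deriv h3 ?_
  simp [pd]

/-- trapezoidal rule -/
theorem ET_trap (g g1 g2 g3 : ℝ → ℝ) (h1 : ∀ t, HasDerivAt g (g1 t) t)
    (h2 : ∀ t, HasDerivAt g1 (g2 t) t) (h3 : ∀ t, HasDerivAt g2 (g3 t) t) (K : ℝ)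
    (hK : ∀ t, |g3 t| ≤ K) : |g 1 - g 0 - (g1 0 + g1 1) / 2| ≤ K := by
  have hK0 : 0 ≤ K := (abs_nonneg _).trans (hK 0)
  have hconv : Convex ℝ (Set.Icc (0 : ℝ) 1) := convex_Icc 0 1
  have hJ : ∀ t ∈ Set.Icc (0 : ℝ) 1, |g1 t - g1 0 - t * g2 t| ≤ K := by
    intro t ht
    have hd : ∀ t ∈ Set.Icc (0 : ℝ) 1, HasDerivWithinAt (fun t => g1 t - g1 0 - t * g2 t)
        (g2 t - (1 * g2 t + t * g3 t)) (Set.Icc (0 : ℝ) 1) t := fun t _ =>
      (((h2 t).sub_const _).sub ((hasDerivAt_id t).mul (h3 t))).hasDerivWithinAt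
    have := hconv.norm_image_sub_le_of_norm_hasDerivWithin_le (C := K) hd (fun t ht => by
      have e : g2 t - (1 * g2 t + t * g3 t) = -(t * g3 t) := by ring
      rw [e, norm_neg, Real.norm_eq_abs, abs_mul, abs_of_nonneg ht.1]
      nlinarith [hK t, abs_nonneg (g3 t), ht.1, ht.2]) (Set.left_mem_Icc.2 zero_le_one) ht
    simp only [zero_mul, sub_self, sub_zero] at this
    rw [Real.norm_eq_abs, Real.norm_eq_abs, abs_of_nonneg ht.1] at this
    nlinarith [ht.2]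
  have hd : ∀ t ∈ Set.Icc (0 : ℝ) 1, HasDerivWithinAt (fun t => g t - g 0 - t * (g1 0 + g1 t) / 2)
      (g1 t - (1 * (g1 0 + g1 t) + t * g2 t) / 2) (Set.Icc (0 : ℝ) 1) t := fun t _ =>
    (((h1 t).sub_const _).sub (((hasDerivAt_id t).mul
      ((h2 t).const_add (g1 0))).div_const 2)).hasDerivWithinAt
  have := hconv.norm_image_sub_le_of_norm_hasDerivWithin_le (C := K) hd (fun t ht => by
    have e : g1 t - (1 * (g1 0 + g1 t) + t * g2 t) / 2 = (g1 t - g1 0 - t * g2 t) / 2 := by ring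
    rw [e, Real.norm_eq_abs, abs_div, abs_of_pos (by norm_num : (0 : ℝ) < 2)]
    linarith [hJ t ht]) (Set.left_mem_Icc.2 zero_le_one) (Set.right_mem_Icc.2 zero_le_one)
  simp only [zero_mul, sub_self, zero_div, sub_zero, one_mul] at this
  simpa using this

theorem ET_tay (g g1 g2 : ℝ → ℝ) (h1 : ∀ t, HasDerivAt g (g1 t) t)
    (h2 : ∀ t, HasDerivAt g1 (g2 t) t) (K : ℝ)
    (hK : ∀ t, |g2 t| ≤ K) : |g 1 - g 0 - g1 0| ≤ K := by
  have hK0 : 0 ≤ K := (abs_nonneg _).trans (hK 0)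
  have hconv : Convex ℝ (Set.Icc (0 : ℝ) 1) := convex_Icc 0 1
  have hJ : ∀ t ∈ Set.Icc (0 : ℝ) 1, |g1 t - g1 0| ≤ K := by
    intro t ht
    have := hconv.norm_image_sub_le_of_norm_hasDerivWithin_le (C := K)
      (fun t _ => (h2 t).hasDerivWithinAt) (fun t _ => by simpa using hK t)
      (Set.left_mem_Icc.2 zero_le_one) ht
    rw [Real.norm_eq_abs, Real.norm_eq_abs, sub_zero, abs_of_nonneg ht.1] at this
    nlinarith [ht.2]
  have hd : ∀ t ∈ Set.Icc (0 : ℝ) 1, HasDerivWithinAt (fun t => g t - g 0 - t * g1 0)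
      (g1 t - 1 * g1 0) (Set.Icc (0 : ℝ) 1) t := fun t _ =>
    (((h1 t).sub_const _).sub ((hasDerivAt_id t).mul_const _)).hasDerivWithinAt
  have := hconv.norm_image_sub_le_of_norm_hasDerivWithin_le (C := K) hd (fun t ht => by
    rw [one_mul, Real.norm_eq_abs]
    exact hJ t ht) (Set.left_mem_Icc.2 zero_le_one) (Set.right_mem_Icc.2 zero_le_one)
  simp only [zero_mul, sub_self, sub_zero, one_mul] at this
  simpa using this

theorem ET_toE (x : E d) (y : Vtx d) (j : Fin d) :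
    x - toE (y + ev j) = (x - toE y) - (1 : ℝ) • eb j := by
  ext i
  simp only [toE, ev, eb, PiLp.sub_apply, Pi.add_apply, Int.cast_add, one_smul,
    EuclideanSpace.single_apply]
  by_cases h : i = j
  · subst h; simp; ring
  · simp [h, Pi.single_apply]

/-- difference quotients of `g y = etas (x - y)` and its derivatives along an edge -/
theorem etas_taylor (d : ℕ) : ∃ C : ℝ, 0 < C ∧ ∀ s : ℝ, 1 ≤ s → ∀ (x : E d) (y : Vtx d) (j : Fin d),
    |(etas d s (x - toE (y + ev j)) - etas d s (x - toE y)) -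
      -(pd j (etas d s) (x - toE y) + pd j (etas d s) (x - toE (y + ev j))) / 2| ≤ C / s ^ (d + 3) ∧
    ∀ i : Fin d, |(-pd i (etas d s) (x - toE (y + ev j)) - -pd i (etas d s) (x - toE y)) -
      pd j (pd i (etas d s)) (x - toE y)| ≤ C / s ^ (d + 3) := by
  obtain ⟨C, hC, hb⟩ := etas_bounds d
  refine ⟨C, hC, fun s hs x y j => ?_⟩
  have hs0 : 0 < s := by linarith
  have hsm := etas_smooth d s
  have hz : ∀ u : E d, u - (0 : ℝ) • eb j = u := fun u => by rw [zero_smul, sub_zero]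
  refine ⟨?_, fun i => ?_⟩
  · have h1 := ET_trap (fun t => etas d s ((x - toE y) - t • eb j))
      (fun t => -pd j (etas d s) ((x - toE y) - t • eb j))
      (fun t => pd j (pd j (etas d s)) ((x - toE y) - t • eb j))
      (fun t => -pd j (pd j (pd j (etas d s))) ((x - toE y) - t • eb j))
      (fun t => ET_line hsm _ j t)
      (fun t => by
        exact HasDerivAt.congr_deriv (ET_line (ET_pd_smooth hsm j) (x - toE y) j t).neg
          (neg_neg _))
      (fun t => ET_line (ET_pd_smooth (ET_pd_smooth hsm j) j) _ j t) (C / s ^ (d + 3))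
      (fun t => by
        rw [abs_neg]
        exact ((((hb s hs0 _).2.2 j).2 j).2 j))
    simp only [hz] at h1
    rw [ET_toE]
    refine le_trans (le_of_eq ?_) h1
    congr 1
    ring
  · have h1 := ET_tay (fun t => -pd i (etas d s) ((x - toE y) - t • eb j))
      (fun t => pd j (pd i (etas d s)) ((x - toE y) - t • eb j))
      (fun t => -pd j (pd j (pd i (etas d s))) ((x - toE y) - t • eb j))
      (fun t => by
        exact HasDerivAt.congr_deriv (ET_line (ET_pd_smooth hsm i) (x - toE y) j t).neg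
          (neg_neg _))
      (fun t => ET_line (ET_pd_smooth (ET_pd_smooth hsm i) j) _ j t) (C / s ^ (d + 3))
      (fun t => by
        rw [abs_neg]
        exact ((((hb s hs0 _).2.2 i).2 j).2 j))
    simp only [hz] at h1
    rw [ET_toE]
    exact h1

end Pool.Agent.Lib.MP_566bac_pr.Hd
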