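import Pool.Agent.Lib.MP_566bac_pr.Hd.DefsC
import Pool.Agent.Lib.MP_566bac_pr.Hd.BAS

/-!
# Summation by parts
-/

open Finset MeasureTheory ProbabilityTheory Filter
open scoped Classical

namespace Pool.Agent.Lib.MP_566bac_pr.Hd

variable {d : ℕ}

/-- translation of a finitely supported sum -/
theorem LP_shift (W : Finset (Vtx d)) (F : Vtx d → ℝ) (a : Vtx d)
    (h : ∀ y, F y ≠ 0 → y ∈ W ∧ y - a ∈ W) : ∑ y ∈ W, F y = ∑ y ∈ W, F (y + a) := by
  refine Finset.sum_bij_ne_zero (fun y _ _ => y - a) ?_ ?_ ?_ ?_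
  · intro y hy hne
    exact (h y hne).2
  · intro y hy hne y' hy' hne' he
    exact sub_left_injective he
  · intro y hy hne
    refine ⟨y + a, (h _ hne).1, hne, by simp⟩
  · intro y hy hne
    simp

theorem LP_self_mem (y : Vtx d) : y ∈ Lam y 1 := by
  rw [mem_Lam, dst_self]
  omega

theorem LP_add_mem (y : Vtx d) (j : Fin d) : y + ev j ∈ Lam y 1 := by
  rw [mem_Lam]
  exact dst_add_ev y j

theorem LP_sub_mem (y : Vtx d) (j : Fin d) : y - ev j ∈ Lam y 1 := by
  rw [mem_Lam, dst_comm]
  have := dst_add_ev (y - ev j) j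
  rwa [sub_add_cancel] at this

/-- the Laplacian as a divergence -/
theorem LP_lap_eq (η : Conf d) (v : Vtx d → ℝ) (y : Vtx d) :
    Lap η v y = ∑ j, ((if η y j then grad v y j else 0) -
      (if η (y - ev j) j then grad v (y - ev j) j else 0)) := by
  unfold Lap
  apply Finset.sum_congr rfl
  intro j _
  unfold grad
  rw [sub_add_cancel]
  split_ifs <;> ring

/-! ### LP: summation by parts -/
theorem lap_parts {η : Conf d} (W : Finset (Vtx d)) (v ψ : Vtx d → ℝ)
    (h : ∀ y, ψ y ≠ 0 → Lam y 1 ⊆ W) :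
    ∑ y ∈ W, Lap η v y * ψ y =
      -∑ y ∈ W, ∑ j, (if η y j then grad v y j * grad ψ y j else 0) := by
  have h1 : ∀ j : Fin d, ∑ y ∈ W, (if η (y - ev j) j then grad v (y - ev j) j else 0) * ψ y
      = ∑ y ∈ W, (if η y j then grad v y j else 0) * ψ (y + ev j) := by
    intro j
    rw [LP_shift W (fun y => (if η (y - ev j) j then grad v (y - ev j) j else 0) * ψ y) (ev j)]
    · apply Finset.sum_congr rfl
      intro y _
      simp only [add_sub_cancel_right]
    · intro y hy
      have hψ : ψ y ≠ 0 := right_ne_zero_of_mul hy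
      exact ⟨h y hψ (LP_self_mem y), h y hψ (LP_sub_mem y j)⟩
  have h2 : ∑ y ∈ W, Lap η v y * ψ y = ∑ j : Fin d, (∑ y ∈ W, (if η y j then grad v y j else 0) * ψ y
      - ∑ y ∈ W, (if η (y - ev j) j then grad v (y - ev j) j else 0) * ψ y) := by
    simp only [← Finset.sum_sub_distrib]
    rw [Finset.sum_comm]
    apply Finset.sum_congr rfl
    intro y _
    rw [LP_lap_eq, Finset.sum_mul]
    apply Finset.sum_congr rfl
    intro j _
    ring
  rw [h2]
  simp only [h1]
  rw [Finset.sum_comm (s := W) (t := Finset.univ), ← Finset.sum_neg_distrib]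
  apply Finset.sum_congr rfl
  intro j _
  rw [← Finset.sum_sub_distrib, ← Finset.sum_neg_distrib]
  apply Finset.sum_congr rfl
  intro y _
  unfold grad
  split_ifs <;> ring

theorem lap_parts' {η : Conf d} (W : Finset (Vtx d)) (v ψ : Vtx d → ℝ)
    (h : ∀ y, ψ y ≠ 0 → Lam y 1 ⊆ W) :
    ∑ y ∈ W, Lap η v y * ψ y = ∑ y ∈ W, v y * Lap η ψ y := by
  rw [lap_parts W v ψ h]
  have hb : ∀ (y : Vtx d) (j : Fin d), (if η y j then grad ψ y j else 0) ≠ 0 →
      y ∈ W ∧ y + ev j ∈ W := by
    intro y j hne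
    by_cases h1 : ψ y = 0
    · have h2 : ψ (y + ev j) ≠ 0 := by
        intro h2
        apply hne
        unfold grad
        rw [h1, h2]
        simp
      have h3 := h _ h2 (LP_sub_mem _ j)
      rw [add_sub_cancel_right] at h3
      exact ⟨h3, h _ h2 (LP_self_mem _)⟩
    · exact ⟨h _ h1 (LP_self_mem _), h _ h1 (LP_add_mem _ j)⟩
  have h1 : ∀ j : Fin d, ∑ y ∈ W, v y * (if η (y - ev j) j then grad ψ (y - ev j) j else 0)
      = ∑ y ∈ W, v (y + ev j) * (if η y j then grad ψ y j else 0) := by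
    intro j
    rw [LP_shift W (fun y => v y * (if η (y - ev j) j then grad ψ (y - ev j) j else 0)) (ev j)]
    · apply Finset.sum_congr rfl
      intro y _
      simp only [add_sub_cancel_right]
    · intro y hy
      have h2 := hb (y - ev j) j (right_ne_zero_of_mul hy)
      rw [sub_add_cancel] at h2
      exact ⟨h2.2, h2.1⟩
  have h2 : ∑ y ∈ W, v y * Lap η ψ y = ∑ j : Fin d, (∑ y ∈ W, v y * (if η y j then grad ψ y j else 0)
      - ∑ y ∈ W, v y * (if η (y - ev j) j then grad ψ (y - ev j) j else 0)) := by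
    simp only [← Finset.sum_sub_distrib]
    rw [Finset.sum_comm]
    apply Finset.sum_congr rfl
    intro y _
    rw [LP_lap_eq, Finset.mul_sum]
    apply Finset.sum_congr rfl
    intro j _
    ring
  rw [h2]
  simp only [h1]
  rw [Finset.sum_comm (s := W) (t := Finset.univ), ← Finset.sum_neg_distrib]
  apply Finset.sum_congr rfl
  intro j _
  rw [← Finset.sum_sub_distrib, ← Finset.sum_neg_distrib]
  apply Finset.sum_congr rfl
  intro y _
  unfold grad
  split_ifs <;> ring

end Pool.Agent.Lib.MP_566bac_pr.Hd
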