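import Pool.Agent.Lib.MP_566bac_pr.Hd.CGA
import Pool.Agent.Lib.MP_566bac_pr.Hd.CS
import Pool.Agent.Lib.MP_566bac_pr.Hd.ET
import Pool.Agent.Lib.MP_566bac_pr.Hd.LP
import Pool.Agent.Lib.MP_566bac_pr.Hd.GE1
import Pool.Agent.Lib.MP_566bac_pr.Hd.TG1

/-!
# CG1: the Laplacian of the coarse grained function is small
-/

set_option autoImplicit false

open Finset MeasureTheory ProbabilityTheory Filter
open scoped Classical

namespace Pool.Agent.Lib.MP_566bac_pr.Hd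

variable {d : ℕ}

/-- the giant cluster is closed -/
theorem CG1_far_edge' {η : Conf d} {M : ℕ} (hM : 1 ≤ M) {y y' : Vtx d}
    (hg : ∀ w, Grid M w → dst w y ≤ M → Good η M w)
    (hadj : (G η).Adj y y') (hy : Far η (6 * M) y) : Far η (6 * M) y' := by
  obtain ⟨w, hw, hyw⟩ := TG1_floor hM y
  have hgw := hg w hw (by rw [dst_comm]; exact hyw)
  have h1 : dst y' y ≤ 1 := dst_adj hadj
  have h2 : dst y' w ≤ 2 * M := by
    have := dst_triangle y' y w
    omega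
  obtain ⟨u, hu, hcu⟩ := far_arm hy (by omega : dst y w ≤ 2 * M)
  have h3 : Arm η w (4 * M) y' := by
    refine reach_exit (y := u) ?_ (by omega) (by omega)
    exact (SimpleGraph.Adj.reachable hadj.symm).trans (conn_reachable hcu)
  obtain ⟨a, ha, haf⟩ := good_anchor hgw
  have h4 : Conn η (Lam w (8 * M)) y' a :=
    hgw.2 y' (mem_Lam.2 h2) a (mem_Lam.2 (by omega)) h3
      (far_arm (far_mono (by omega) haf) (by omega))
  obtain ⟨v, hv, hcv⟩ := haf
  refine reach_exit (y := v) ((conn_reachable h4).trans (conn_reachable hcv))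
    (by rw [dst_self]; omega) ?_
  have h5 := dst_triangle v y' a
  have h6 := dst_triangle y' w a
  rw [dst_comm w a] at h6
  have h7 : dst y' w ≤ M + 1 := by
    have := dst_triangle y' y w
    omega
  omega

/-- the edges inside `W` -/
noncomputable def CG1_P (η : Conf d) (W : Finset (Vtx d)) : Finset (Vtx d × Fin d) :=
  (W ×ˢ (Finset.univ : Finset (Fin d))).filter fun p => η p.1 p.2 ∧ p.1 + ev p.2 ∈ W

theorem CG1_edge (η : Conf d) (W : Finset (Vtx d)) (F : Vtx d → Fin d → ℝ)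
    (hF : ∀ y ∈ W, ∀ j, y + ev j ∉ W → F y j = 0) :
    ∑ y ∈ W, ∑ j, (if η y j then F y j else 0) = ∑ p ∈ CG1_P η W, F p.1 p.2 := by
  rw [CG1_P, Finset.sum_filter, Finset.sum_product]
  refine Finset.sum_congr rfl fun y hy => Finset.sum_congr rfl fun j _ => ?_
  simp only
  by_cases h1 : η y j
  · by_cases h2 : y + ev j ∈ W
    · rw [if_pos h1, if_pos ⟨h1, h2⟩]
    · rw [if_pos h1, if_neg (fun h => h2 h.2), hF y hy j h2]
  · rw [if_neg h1, if_neg (fun h => h1 h.1)]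

theorem CG1_En (η : Conf d) (W : Finset (Vtx d)) (v : Vtx d → ℝ) :
    En η W v = ∑ p ∈ CG1_P η W, grad v p.1 p.2 ^ 2 := by
  rw [CG1_P, Finset.sum_filter, Finset.sum_product, En]

theorem CG1_mem {η : Conf d} {W : Finset (Vtx d)} {p : Vtx d × Fin d} (h : p ∈ CG1_P η W) :
    p.1 ∈ W ∧ η p.1 p.2 ∧ p.1 + ev p.2 ∈ W := by
  rw [CG1_P, Finset.mem_filter, Finset.mem_product] at h
  exact ⟨h.1.1, h.2.1, h.2.2⟩

/-- sums over edges of functions of the first end -/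
theorem CG1_first (η : Conf d) (W : Finset (Vtx d)) (f : Vtx d → ℝ) (hf : ∀ y, 0 ≤ f y) :
    ∑ p ∈ CG1_P η W, f p.1 ≤ d * ∑ y ∈ W, f y := by
  rw [CG1_P, Finset.sum_filter, Finset.sum_product, Finset.mul_sum]
  refine Finset.sum_le_sum fun y _ => ?_
  calc ∑ j, (if η (y, j).1 (y, j).2 ∧ (y, j).1 + ev (y, j).2 ∈ W then f (y, j).1 else 0) ≤
      ∑ _j : Fin d, f y := by
        refine Finset.sum_le_sum fun j _ => ?_
        split_ifs
        · exact le_rfl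
        · exact hf y
    _ = d * f y := by rw [Finset.sum_const, Finset.card_univ, Fintype.card_fin, nsmul_eq_mul]

/-- sums over edges of functions of the second end -/
theorem CG1_second (η : Conf d) (W : Finset (Vtx d)) (f : Vtx d → ℝ) (hf : ∀ y, 0 ≤ f y) :
    ∑ p ∈ CG1_P η W, f (p.1 + ev p.2) ≤ d * ∑ y ∈ W, f y := by
  rw [CG1_P, Finset.sum_filter, Finset.sum_product, Finset.sum_comm]
  calc ∑ j : Fin d, ∑ y ∈ W, (if η (y, j).1 (y, j).2 ∧ (y, j).1 + ev (y, j).2 ∈ W then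
        f ((y, j).1 + ev (y, j).2) else 0) ≤ ∑ _j : Fin d, ∑ y ∈ W, f y := by
        refine Finset.sum_le_sum fun j _ => ?_
        calc ∑ y ∈ W, (if η (y, j).1 (y, j).2 ∧ (y, j).1 + ev (y, j).2 ∈ W then
              f ((y, j).1 + ev (y, j).2) else 0) ≤
              ∑ y ∈ W, (if y + ev j ∈ W then f (y + ev j) else 0) := by
              refine Finset.sum_le_sum fun y _ => ?_
              simp only
              split_ifs with h1 h2 h2
              · exact le_rfl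
              · exact absurd h1.2 h2
              · exact hf _
              · exact le_rfl
          _ = ∑ y ∈ (W.filter fun y => y + ev j ∈ W), f (y + ev j) := by rw [Finset.sum_filter]
          _ = ∑ y ∈ (W.filter fun y => y + ev j ∈ W).image (fun y => y + ev j), f y := by
              rw [Finset.sum_image]
              intro a _ b _ hab
              exact add_right_cancel hab
          _ ≤ ∑ y ∈ W, f y := by
              apply Finset.sum_le_sum_of_subset_of_nonneg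
              · intro y hy
                rw [Finset.mem_image] at hy
                obtain ⟨y', hy', rfl⟩ := hy
                exact (Finset.mem_filter.1 hy').2
              · intro y _ _
                exact hf y
    _ = d * ∑ y ∈ W, f y := by
        rw [Finset.sum_const, Finset.card_univ, Fintype.card_fin, nsmul_eq_mul]

/-- the algebraic identity -/
theorem CG1_identity {η : Conf d} {z : Vtx d} {s : ℕ} (hs : 1 ≤ s) (v g : Vtx d → ℝ)
    (φ u G' : Fin d → Vtx d → ℝ) (H : Fin d → Fin d → Vtx d → ℝ)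
    (hu : ∀ i y j, grad (u i) y j = (if i = j then 1 else 0) + grad (φ i) y j)
    (hg : ∀ y, 2 * s < dst y z → g y = 0) (hG : ∀ i y, 2 * s < dst y z → G' i y = 0) :
    ∑ i, ∑ p ∈ CG1_P η (Lam z (4 * s)), grad (u i) p.1 p.2 * (v p.1 * H i p.2 p.1) =
      ∑ y ∈ Lam z (4 * s), Lap η v y * (g y + ∑ i, φ i y * G' i y) +
      ∑ p ∈ CG1_P η (Lam z (4 * s)), grad v p.1 p.2 *
        (grad g p.1 p.2 - (G' p.2 p.1 + G' p.2 (p.1 + ev p.2)) / 2) +
      ∑ p ∈ CG1_P η (Lam z (4 * s)), grad v p.1 p.2 *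
        ∑ i, (φ i p.1 + φ i (p.1 + ev p.2)) / 2 * grad (G' i) p.1 p.2 -
      ∑ i, ∑ y ∈ Lam z (4 * s), Lap η (u i) y * (v y * G' i y) -
      ∑ i, ∑ p ∈ CG1_P η (Lam z (4 * s)), grad (u i) p.1 p.2 *
        (v p.1 * (grad (G' i) p.1 p.2 - H i p.2 p.1)) -
      ∑ i, ∑ p ∈ CG1_P η (Lam z (4 * s)), grad (u i) p.1 p.2 *
        (grad v p.1 p.2 / 2 * grad (G' i) p.1 p.2) := by
  obtain ⟨W, hW⟩ : ∃ W, W = Lam z (4 * s) := ⟨_, rfl⟩
  rw [← hW]
  obtain ⟨ψ, hψ⟩ : ∃ ψ : Vtx d → ℝ, ∀ y, ψ y = g y + ∑ i, φ i y * G' i y := ⟨_, fun _ => rfl⟩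
  have hψ0 : ∀ y, 2 * s < dst y z → ψ y = 0 := by
    intro y hy
    rw [hψ, hg y hy]
    simp [hG _ y hy]
  have hsub : ∀ y, ¬ 2 * s < dst y z → Lam y 1 ⊆ W := by
    intro y hy
    rw [hW]
    apply Lam_subset
    omega
  have hout : ∀ y ∈ W, ∀ j, y + ev j ∉ W → 2 * s < dst y z ∧ 2 * s < dst (y + ev j) z := by
    intro y _ j hj
    rw [hW, mem_Lam] at hj
    push Not at hj
    have h1 := dst_triangle (y + ev j) y z
    have h2 := dst_add_ev y j
    constructor <;> omega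
  have e0 : ∑ y ∈ W, Lap η v y * ψ y = -∑ p ∈ CG1_P η W, grad v p.1 p.2 * grad ψ p.1 p.2 := by
    rw [lap_parts W v ψ (fun y hy => hsub y (fun h => hy (hψ0 y h)))]
    rw [CG1_edge η W (fun y j => grad v y j * grad ψ y j)]
    intro y hy j hj
    obtain ⟨h1, h2⟩ := hout y hy j hj
    simp only [grad, hψ0 _ h1, hψ0 _ h2]
    ring
  have e1 : ∀ i, ∑ y ∈ W, Lap η (u i) y * (v y * G' i y) =
      -∑ p ∈ CG1_P η W, grad (u i) p.1 p.2 * grad (fun y => v y * G' i y) p.1 p.2 := by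
    intro i
    rw [lap_parts W (u i) (fun y => v y * G' i y)
      (fun y hy => hsub y (fun h => hy (by rw [hG i y h, mul_zero])))]
    rw [CG1_edge η W (fun y j => grad (u i) y j * grad (fun y => v y * G' i y) y j)]
    intro y hy j hj
    obtain ⟨h1, h2⟩ := hout y hy j hj
    simp only [grad, hG i _ h1, hG i _ h2]
    ring
  have e2 : ∀ p : Vtx d × Fin d, grad v p.1 p.2 * grad ψ p.1 p.2 =
      grad v p.1 p.2 * (grad g p.1 p.2 - (G' p.2 p.1 + G' p.2 (p.1 + ev p.2)) / 2) +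
      grad v p.1 p.2 * ∑ i, (φ i p.1 + φ i (p.1 + ev p.2)) / 2 * grad (G' i) p.1 p.2 +
      ∑ i, grad v p.1 p.2 * ((G' i p.1 + G' i (p.1 + ev p.2)) / 2 * grad (u i) p.1 p.2) := by
    rintro ⟨y, j⟩
    simp only
    have h1 : ∑ i, (G' i y + G' i (y + ev j)) / 2 * (if i = j then (1 : ℝ) else 0) =
        (G' j y + G' j (y + ev j)) / 2 := by
      simp
    have h2 : grad ψ y j = grad g y j +
        ∑ i, ((φ i y + φ i (y + ev j)) / 2 * grad (G' i) y j +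
          (G' i y + G' i (y + ev j)) / 2 * grad (φ i) y j) := by
      simp only [grad, hψ]
      have h3 : ∀ i, (φ i y + φ i (y + ev j)) / 2 * (G' i (y + ev j) - G' i y) +
          (G' i y + G' i (y + ev j)) / 2 * (φ i (y + ev j) - φ i y) =
          φ i (y + ev j) * G' i (y + ev j) - φ i y * G' i y := fun i => by ring
      simp only [h3, Finset.sum_sub_distrib]
      ring
    rw [h2, ← h1, ← Finset.mul_sum, ← mul_add, ← mul_add]
    congr 1
    simp only [hu, mul_add, Finset.sum_add_distrib]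
    ring
  have e3 : ∀ i, ∀ p : Vtx d × Fin d,
      grad (u i) p.1 p.2 * grad (fun y => v y * G' i y) p.1 p.2 =
      grad (u i) p.1 p.2 * (v p.1 * H i p.2 p.1) +
      grad (u i) p.1 p.2 * (v p.1 * (grad (G' i) p.1 p.2 - H i p.2 p.1)) +
      grad (u i) p.1 p.2 * (grad v p.1 p.2 / 2 * grad (G' i) p.1 p.2) +
      grad v p.1 p.2 * ((G' i p.1 + G' i (p.1 + ev p.2)) / 2 * grad (u i) p.1 p.2) := by
    rintro i ⟨y, j⟩
    simp only [grad]
    ring
  have e4 : ∑ p ∈ CG1_P η W, grad v p.1 p.2 * grad ψ p.1 p.2 =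
      ∑ p ∈ CG1_P η W, grad v p.1 p.2 *
        (grad g p.1 p.2 - (G' p.2 p.1 + G' p.2 (p.1 + ev p.2)) / 2) +
      ∑ p ∈ CG1_P η W, grad v p.1 p.2 *
        ∑ i, (φ i p.1 + φ i (p.1 + ev p.2)) / 2 * grad (G' i) p.1 p.2 +
      ∑ i, ∑ p ∈ CG1_P η W,
        grad v p.1 p.2 * ((G' i p.1 + G' i (p.1 + ev p.2)) / 2 * grad (u i) p.1 p.2) := by
    simp only [e2]
    rw [Finset.sum_add_distrib, Finset.sum_add_distrib]
    congr 1
    exact Finset.sum_comm
  have e5 : ∀ i, ∑ p ∈ CG1_P η W,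
      grad v p.1 p.2 * ((G' i p.1 + G' i (p.1 + ev p.2)) / 2 * grad (u i) p.1 p.2) =
      -∑ y ∈ W, Lap η (u i) y * (v y * G' i y) -
      ∑ p ∈ CG1_P η W, grad (u i) p.1 p.2 * (v p.1 * H i p.2 p.1) -
      ∑ p ∈ CG1_P η W, grad (u i) p.1 p.2 * (v p.1 * (grad (G' i) p.1 p.2 - H i p.2 p.1)) -
      ∑ p ∈ CG1_P η W, grad (u i) p.1 p.2 * (grad v p.1 p.2 / 2 * grad (G' i) p.1 p.2) := by
    intro i
    rw [e1 i]
    simp only [e3 i]
    rw [Finset.sum_add_distrib, Finset.sum_add_distrib, Finset.sum_add_distrib]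
    ring
  simp only [← hψ]
  rw [e0, e4]
  simp only [e5, Finset.sum_sub_distrib, Finset.sum_neg_distrib]
  ring

theorem CG1_sq_le {x b : ℝ} (h : |x| ≤ b) : x ^ 2 ≤ b ^ 2 := by
  rw [← sq_abs x]
  exact pow_le_pow_left₀ (abs_nonneg _) h 2

theorem CG1_sq_sum {n : ℕ} (f : Fin n → ℝ) : (∑ i, f i) ^ 2 ≤ n * ∑ i, f i ^ 2 := by
  have h := sq_sum_le_card_mul_sum_sq (s := (Finset.univ : Finset (Fin n))) (f := f)
  rw [Finset.card_univ, Fintype.card_fin] at h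
  exact h

theorem CG1_sum_bound {n : ℕ} (f : Fin n → ℝ) {b : ℝ} (h : ∀ i, f i ^ 2 ≤ b) :
    (∑ i, f i) ^ 2 ≤ (n : ℝ) ^ 2 * b := by
  calc (∑ i, f i) ^ 2 ≤ n * ∑ i, f i ^ 2 := CG1_sq_sum f
    _ ≤ n * ∑ _i : Fin n, b := by
        apply mul_le_mul_of_nonneg_left _ (by positivity)
        exact Finset.sum_le_sum fun i _ => h i
    _ = _ := by
        rw [Finset.sum_const, Finset.card_univ, Fintype.card_fin, nsmul_eq_mul]
        ring

section bounds

variable {η : Conf d} {z : Vtx d} {s : ℕ} (far : Vtx d → Prop) (v g : Vtx d → ℝ)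
  (φ u G' : Fin d → Vtx d → ℝ) (H : Fin d → Fin d → Vtx d → ℝ) {σ a mm m20 K : ℝ}

theorem CG1_cardP (hs : 1 ≤ s) (hσ : σ = s) (ha : a = σ ^ d) :
    ((CG1_P η (Lam z (4 * s))).card : ℝ) ≤ d * (9 ^ d * a) := by
  have h1 := CG1_first η (Lam z (4 * s)) (fun _ => (1 : ℝ)) (fun _ => zero_le_one)
  simp only [Finset.sum_const, nsmul_eq_mul, mul_one, card_Lam] at h1
  push_cast at h1
  refine h1.trans ?_
  apply mul_le_mul_of_nonneg_left _ (by positivity)
  rw [ha, hσ, ← mul_pow]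
  apply pow_le_pow_left₀ (by positivity)
  have : (1 : ℝ) ≤ s := by exact_mod_cast hs
  linarith

theorem CG1_cardW (hs : 1 ≤ s) (hσ : σ = s) (ha : a = σ ^ d) :
    ((Lam z (4 * s)).card : ℝ) ≤ 9 ^ d * a := by
  rw [card_Lam]
  push_cast
  rw [ha, hσ, ← mul_pow]
  apply pow_le_pow_left₀ (by positivity)
  have : (1 : ℝ) ≤ s := by exact_mod_cast hs
  linarith

/-- the term `E6` -/
theorem CG1_E6 (hs : 1 ≤ s) (hσ : σ = s) (ha : a = σ ^ d) (hmm : 0 < mm) (hm1 : mm ≤ σ ^ 2)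
    (ht1 : ∀ y j, |grad g y j - (G' j y + G' j (y + ev j)) / 2| ≤ K / (a * σ ^ 3)) :
    (∑ p ∈ CG1_P η (Lam z (4 * s)), grad v p.1 p.2 *
        (grad g p.1 p.2 - (G' p.2 p.1 + G' p.2 (p.1 + ev p.2)) / 2)) ^ 2 ≤
      d * 9 ^ d * K ^ 2 * (En η (Lam z (4 * s)) v / (a * σ ^ 2 * mm)) := by
  have hσ1 : 1 ≤ σ := by rw [hσ]; exact_mod_cast hs
  have ha0 : 0 < a := by rw [ha]; positivity
  have hE0 := CGA_En_nonneg η (Lam z (4 * s)) v
  have h1 := Finset.sum_mul_sq_le_sq_mul_sq (CG1_P η (Lam z (4 * s)))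
    (fun p => grad v p.1 p.2) (fun p => grad g p.1 p.2 - (G' p.2 p.1 + G' p.2 (p.1 + ev p.2)) / 2)
  rw [← CG1_En] at h1
  have h2 : ∑ p ∈ CG1_P η (Lam z (4 * s)),
      (grad g p.1 p.2 - (G' p.2 p.1 + G' p.2 (p.1 + ev p.2)) / 2) ^ 2 ≤
      d * (9 ^ d * a) * (K / (a * σ ^ 3)) ^ 2 := by
    calc ∑ p ∈ CG1_P η (Lam z (4 * s)),
        (grad g p.1 p.2 - (G' p.2 p.1 + G' p.2 (p.1 + ev p.2)) / 2) ^ 2 ≤
        ∑ _p ∈ CG1_P η (Lam z (4 * s)), (K / (a * σ ^ 3)) ^ 2 :=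
          Finset.sum_le_sum fun p _ => CG1_sq_le (ht1 _ _)
      _ = ((CG1_P η (Lam z (4 * s))).card : ℝ) * (K / (a * σ ^ 3)) ^ 2 := by
          rw [Finset.sum_const, nsmul_eq_mul]
      _ ≤ _ := mul_le_mul_of_nonneg_right (CG1_cardP hs hσ ha) (sq_nonneg _)
  calc _ ≤ En η (Lam z (4 * s)) v * (d * (9 ^ d * a) * (K / (a * σ ^ 3)) ^ 2) :=
        h1.trans (mul_le_mul_of_nonneg_left h2 hE0)
    _ = d * 9 ^ d * K ^ 2 * (En η (Lam z (4 * s)) v / (a * σ ^ 6)) := by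
        field_simp
    _ ≤ _ := by
        apply mul_le_mul_of_nonneg_left _ (by positivity)
        apply div_le_div_of_nonneg_left hE0 (by positivity)
        have h3 : σ ^ 2 * mm ≤ σ ^ 6 := by
          calc σ ^ 2 * mm ≤ σ ^ 2 * σ ^ 2 := mul_le_mul_of_nonneg_left hm1 (by positivity)
            _ = σ ^ 4 := by ring
            _ ≤ σ ^ 6 := pow_le_pow_right₀ hσ1 (by norm_num)
        calc a * σ ^ 2 * mm = a * (σ ^ 2 * mm) := by ring
          _ ≤ a * σ ^ 6 := mul_le_mul_of_nonneg_left h3 ha0.le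

theorem CG1_gradG (hs : 1 ≤ s) (hσ : σ = s) (ha : a = σ ^ d) (hK : 0 < K)
    (hH : ∀ i j y, |H i j y| ≤ K / (a * σ ^ 2))
    (ht2 : ∀ i y j, |grad (G' i) y j - H i j y| ≤ K / (a * σ ^ 3)) (i : Fin d) (y : Vtx d)
    (j : Fin d) : grad (G' i) y j ^ 2 ≤ 4 * K ^ 2 / (a ^ 2 * σ ^ 4) := by
  have hσ1 : 1 ≤ σ := by rw [hσ]; exact_mod_cast hs
  have ha0 : 0 < a := by rw [ha]; positivity
  have h1 : K / (a * σ ^ 3) ≤ K / (a * σ ^ 2) := by
    apply div_le_div_of_nonneg_left hK.le (by positivity)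
    apply mul_le_mul_of_nonneg_left _ ha0.le
    exact pow_le_pow_right₀ hσ1 (by norm_num)
  have h2 : |grad (G' i) y j| ≤ 2 * (K / (a * σ ^ 2)) := by
    have h3 : grad (G' i) y j = (grad (G' i) y j - H i j y) + H i j y := by ring
    rw [h3]
    refine (abs_add_le _ _).trans ?_
    have := ht2 i y j
    have := hH i j y
    linarith
  refine (CG1_sq_le h2).trans (le_of_eq ?_)
  field_simp
  ring

theorem CG1_phi (hσ : σ = s)
    (hφ : ∀ i, ∑ y ∈ (Lam z (4 * s)).filter far, φ i y ^ 2 ≤ a * σ ^ 2 / m20) (i : Fin d) :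
    ∑ y ∈ Lam z (4 * s), (if far y then φ i y ^ 2 else 0) ≤ a * σ ^ 2 / m20 := by
  rw [← Finset.sum_filter]
  exact hφ i

/-- the term `E5` -/
theorem CG1_E5 (hs : 1 ≤ s) (hσ : σ = s) (ha : a = σ ^ d) (hmm : 0 < mm) (hm2 : mm ≤ m20)
    (hK : 0 < K)
    (hclo : ∀ p ∈ CG1_P η (Lam z (4 * s)), (far p.1 ↔ far (p.1 + ev p.2)))
    (hv : ∀ y ∈ Lam z (4 * s), ¬ far y → v y = 0)
    (hφ : ∀ i, ∑ y ∈ (Lam z (4 * s)).filter far, φ i y ^ 2 ≤ a * σ ^ 2 / m20)
    (hH : ∀ i j y, |H i j y| ≤ K / (a * σ ^ 2))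
    (ht2 : ∀ i y j, |grad (G' i) y j - H i j y| ≤ K / (a * σ ^ 3)) :
    (∑ p ∈ CG1_P η (Lam z (4 * s)), grad v p.1 p.2 *
        ∑ i, (φ i p.1 + φ i (p.1 + ev p.2)) / 2 * grad (G' i) p.1 p.2) ^ 2 ≤
      4 * d ^ 3 * K ^ 2 * (En η (Lam z (4 * s)) v / (a * σ ^ 2 * mm)) := by
  have hσ1 : 1 ≤ σ := by rw [hσ]; exact_mod_cast hs
  have ha0 : 0 < a := by rw [ha]; positivity
  have hm20 : 0 < m20 := lt_of_lt_of_le hmm hm2
  have hE0 := CGA_En_nonneg η (Lam z (4 * s)) v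
  have e1 : ∑ p ∈ CG1_P η (Lam z (4 * s)), grad v p.1 p.2 *
        ∑ i, (φ i p.1 + φ i (p.1 + ev p.2)) / 2 * grad (G' i) p.1 p.2 =
      ∑ p ∈ CG1_P η (Lam z (4 * s)), grad v p.1 p.2 *
        (if far p.1 then
          ∑ i, (φ i p.1 + φ i (p.1 + ev p.2)) / 2 * grad (G' i) p.1 p.2 else 0) := by
    refine Finset.sum_congr rfl fun p hp => ?_
    by_cases h : far p.1
    · rw [if_pos h]
    · have h1 := CG1_mem hp
      have h2 : grad v p.1 p.2 = 0 := by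
        rw [grad, hv _ h1.1 h, hv _ h1.2.2 (fun h' => h ((hclo p hp).2 h')), sub_zero]
      rw [h2, zero_mul, zero_mul]
  rw [e1]
  have h1 := Finset.sum_mul_sq_le_sq_mul_sq (CG1_P η (Lam z (4 * s)))
    (fun p => grad v p.1 p.2) (fun p => (if far p.1 then
          ∑ i, (φ i p.1 + φ i (p.1 + ev p.2)) / 2 * grad (G' i) p.1 p.2 else 0))
  rw [← CG1_En] at h1
  obtain ⟨F, hF⟩ : ∃ F : Fin d → Vtx d → ℝ, ∀ i y, F i y = if far y then φ i y ^ 2 else 0 :=
    ⟨_, fun _ _ => rfl⟩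
  have hF0 : ∀ i y, 0 ≤ F i y := by
    intro i y
    rw [hF]
    split_ifs
    · exact sq_nonneg _
    · exact le_rfl
  have hFs : ∀ i, ∑ y ∈ Lam z (4 * s), F i y ≤ a * σ ^ 2 / m20 := by
    intro i
    simp only [hF]
    exact CG1_phi far φ hσ hφ i
  have h2 : ∀ p ∈ CG1_P η (Lam z (4 * s)), (if far p.1 then
      ∑ i, (φ i p.1 + φ i (p.1 + ev p.2)) / 2 * grad (G' i) p.1 p.2 else 0) ^ 2 ≤
      ∑ i, (d * (2 * K ^ 2 / (a ^ 2 * σ ^ 4)) * F i p.1 +
        d * (2 * K ^ 2 / (a ^ 2 * σ ^ 4)) * F i (p.1 + ev p.2)) := by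
    intro p hp
    by_cases h : far p.1
    · have h' := (hclo p hp).1 h
      rw [if_pos h]
      refine (CG1_sq_sum _).trans ?_
      rw [Finset.mul_sum]
      refine Finset.sum_le_sum fun i _ => ?_
      have h3 := CG1_gradG G' H hs hσ ha hK hH ht2 i p.1 p.2
      have h4 : ((φ i p.1 + φ i (p.1 + ev p.2)) / 2) ^ 2 ≤
          (F i p.1 + F i (p.1 + ev p.2)) / 2 := by
        rw [hF, hF, if_pos h, if_pos h']
        nlinarith [sq_nonneg (φ i p.1 - φ i (p.1 + ev p.2))]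
      calc (d : ℝ) * ((φ i p.1 + φ i (p.1 + ev p.2)) / 2 * grad (G' i) p.1 p.2) ^ 2 =
          d * (((φ i p.1 + φ i (p.1 + ev p.2)) / 2) ^ 2 * grad (G' i) p.1 p.2 ^ 2) := by ring
        _ ≤ d * ((F i p.1 + F i (p.1 + ev p.2)) / 2 * (4 * K ^ 2 / (a ^ 2 * σ ^ 4))) := by
            apply mul_le_mul_of_nonneg_left _ (by positivity)
            apply mul_le_mul h4 h3 (sq_nonneg _)
            have := hF0 i p.1
            have := hF0 i (p.1 + ev p.2)
            positivity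
        _ = _ := by ring
    · rw [if_neg h]
      have : 0 ≤ ∑ i, (d * (2 * K ^ 2 / (a ^ 2 * σ ^ 4)) * F i p.1 +
        d * (2 * K ^ 2 / (a ^ 2 * σ ^ 4)) * F i (p.1 + ev p.2)) := by
        refine Finset.sum_nonneg fun i _ => ?_
        have := hF0 i p.1
        have := hF0 i (p.1 + ev p.2)
        positivity
      simpa using this
  have h3 : ∑ p ∈ CG1_P η (Lam z (4 * s)), (if far p.1 then
      ∑ i, (φ i p.1 + φ i (p.1 + ev p.2)) / 2 * grad (G' i) p.1 p.2 else 0) ^ 2 ≤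
      d * (2 * (d * (2 * K ^ 2 / (a ^ 2 * σ ^ 4)) * (d * (a * σ ^ 2 / m20)))) := by
    refine (Finset.sum_le_sum h2).trans ?_
    rw [Finset.sum_comm]
    calc ∑ i : Fin d, ∑ p ∈ CG1_P η (Lam z (4 * s)),
        (d * (2 * K ^ 2 / (a ^ 2 * σ ^ 4)) * F i p.1 +
        d * (2 * K ^ 2 / (a ^ 2 * σ ^ 4)) * F i (p.1 + ev p.2)) ≤
        ∑ _i : Fin d, 2 * (d * (2 * K ^ 2 / (a ^ 2 * σ ^ 4)) * (d * (a * σ ^ 2 / m20))) := by
          refine Finset.sum_le_sum fun i _ => ?_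
          rw [Finset.sum_add_distrib, ← Finset.mul_sum, ← Finset.mul_sum]
          have h4 := (CG1_first η (Lam z (4 * s)) (F i) (hF0 i)).trans
            (mul_le_mul_of_nonneg_left (hFs i) (by positivity))
          have h5 := (CG1_second η (Lam z (4 * s)) (F i) (hF0 i)).trans
            (mul_le_mul_of_nonneg_left (hFs i) (by positivity))
          have h6 : 0 ≤ d * (2 * K ^ 2 / (a ^ 2 * σ ^ 4)) := by positivity
          have h7 := mul_le_mul_of_nonneg_left h4 h6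
          have h8 := mul_le_mul_of_nonneg_left h5 h6
          linarith
      _ = _ := by rw [Finset.sum_const, Finset.card_univ, Fintype.card_fin, nsmul_eq_mul]
  calc _ ≤ En η (Lam z (4 * s)) v *
        (d * (2 * (d * (2 * K ^ 2 / (a ^ 2 * σ ^ 4)) * (d * (a * σ ^ 2 / m20))))) :=
        h1.trans (mul_le_mul_of_nonneg_left h3 hE0)
    _ = 4 * d ^ 3 * K ^ 2 * (En η (Lam z (4 * s)) v / (a * σ ^ 2 * m20)) := by
        field_simp
        ring
    _ ≤ _ := by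
        apply mul_le_mul_of_nonneg_left _ (by positivity)
        apply div_le_div_of_nonneg_left hE0 (by positivity)
        exact mul_le_mul_of_nonneg_left hm2 (by positivity)

/-- the terms `L` -/
theorem CG1_L (hs : 1 ≤ s) (hσ : σ = s) (ha : a = σ ^ d) (hmm : 0 < mm) (hm2 : mm ≤ m20)
    (hv : ∀ y ∈ Lam z (4 * s), ¬ far y → v y = 0)
    (hLu : ∀ i, ∀ y ∈ Lam z (4 * s), far y → Lap η (u i) y = φ i y / σ ^ 2)
    (hφ : ∀ i, ∑ y ∈ (Lam z (4 * s)).filter far, φ i y ^ 2 ≤ a * σ ^ 2 / m20)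
    (hG : ∀ i y, |G' i y| ≤ K / (a * σ)) (i : Fin d) :
    (∑ y ∈ Lam z (4 * s), Lap η (u i) y * (v y * G' i y)) ^ 2 ≤
      K ^ 2 * ((∑ y ∈ Lam z (4 * s), v y ^ 2) / (a * σ ^ 4 * mm)) := by
  have hσ1 : 1 ≤ σ := by rw [hσ]; exact_mod_cast hs
  have ha0 : 0 < a := by rw [ha]; positivity
  have hm20 : 0 < m20 := lt_of_lt_of_le hmm hm2
  have hV0 : 0 ≤ ∑ y ∈ Lam z (4 * s), v y ^ 2 := Finset.sum_nonneg fun _ _ => sq_nonneg _
  have e1 : ∑ y ∈ Lam z (4 * s), Lap η (u i) y * (v y * G' i y) =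
      ∑ y ∈ Lam z (4 * s), v y * (if far y then φ i y / σ ^ 2 * G' i y else 0) := by
    refine Finset.sum_congr rfl fun y hy => ?_
    by_cases h : far y
    · rw [if_pos h, hLu i y hy h]
      ring
    · rw [hv y hy h]
      ring
  rw [e1]
  have h1 := Finset.sum_mul_sq_le_sq_mul_sq (Lam z (4 * s)) v
    (fun y => if far y then φ i y / σ ^ 2 * G' i y else 0)
  have h2 : ∑ y ∈ Lam z (4 * s), (if far y then φ i y / σ ^ 2 * G' i y else 0) ^ 2 ≤
      K ^ 2 / (a ^ 2 * σ ^ 6) * (a * σ ^ 2 / m20) := by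
    refine le_trans ?_ (mul_le_mul_of_nonneg_left (CG1_phi far φ hσ hφ i) (by positivity))
    rw [Finset.mul_sum]
    refine Finset.sum_le_sum fun y _ => ?_
    split_ifs with h
    · have h3 := CG1_sq_le (hG i y)
      calc (φ i y / σ ^ 2 * G' i y) ^ 2 = φ i y ^ 2 / σ ^ 4 * G' i y ^ 2 := by
            field_simp
        _ ≤ φ i y ^ 2 / σ ^ 4 * (K / (a * σ)) ^ 2 :=
            mul_le_mul_of_nonneg_left h3 (by positivity)
        _ = _ := by
            field_simp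
    · norm_num
  calc _ ≤ (∑ y ∈ Lam z (4 * s), v y ^ 2) * (K ^ 2 / (a ^ 2 * σ ^ 6) * (a * σ ^ 2 / m20)) :=
        h1.trans (mul_le_mul_of_nonneg_left h2 hV0)
    _ = K ^ 2 * ((∑ y ∈ Lam z (4 * s), v y ^ 2) / (a * σ ^ 4 * m20)) := by
        field_simp
    _ ≤ _ := by
        apply mul_le_mul_of_nonneg_left _ (by positivity)
        apply div_le_div_of_nonneg_left hV0 (by positivity)
        exact mul_le_mul_of_nonneg_left hm2 (by positivity)

/-- the terms `E4` -/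
theorem CG1_E4 (hs : 1 ≤ s) (hσ : σ = s) (ha : a = σ ^ d) (hmm : 0 < mm) (hm1 : mm ≤ σ ^ 2)
    (hv : ∀ y ∈ Lam z (4 * s), ¬ far y → v y = 0)
    (hgu : ∀ i, ∑ p ∈ CG1_P η (Lam z (4 * s)), (if far p.1 then grad (u i) p.1 p.2 else 0) ^ 2 ≤
      16 ^ d * a)
    (ht2 : ∀ i y j, |grad (G' i) y j - H i j y| ≤ K / (a * σ ^ 3)) (i : Fin d) :
    (∑ p ∈ CG1_P η (Lam z (4 * s)), grad (u i) p.1 p.2 *
        (v p.1 * (grad (G' i) p.1 p.2 - H i p.2 p.1))) ^ 2 ≤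
      d * 16 ^ d * K ^ 2 * ((∑ y ∈ Lam z (4 * s), v y ^ 2) / (a * σ ^ 4 * mm)) := by
  have hσ1 : 1 ≤ σ := by rw [hσ]; exact_mod_cast hs
  have ha0 : 0 < a := by rw [ha]; positivity
  have hV0 : 0 ≤ ∑ y ∈ Lam z (4 * s), v y ^ 2 := Finset.sum_nonneg fun _ _ => sq_nonneg _
  have e1 : ∑ p ∈ CG1_P η (Lam z (4 * s)), grad (u i) p.1 p.2 *
        (v p.1 * (grad (G' i) p.1 p.2 - H i p.2 p.1)) =
      ∑ p ∈ CG1_P η (Lam z (4 * s)), (if far p.1 then grad (u i) p.1 p.2 else 0) *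
        (v p.1 * (grad (G' i) p.1 p.2 - H i p.2 p.1)) := by
    refine Finset.sum_congr rfl fun p hp => ?_
    by_cases h : far p.1
    · rw [if_pos h]
    · rw [hv _ (CG1_mem hp).1 h]
      ring
  rw [e1]
  have h1 := Finset.sum_mul_sq_le_sq_mul_sq (CG1_P η (Lam z (4 * s)))
    (fun p => if far p.1 then grad (u i) p.1 p.2 else 0)
    (fun p => v p.1 * (grad (G' i) p.1 p.2 - H i p.2 p.1))
  have h2 : ∑ p ∈ CG1_P η (Lam z (4 * s)), (v p.1 * (grad (G' i) p.1 p.2 - H i p.2 p.1)) ^ 2 ≤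
      (K / (a * σ ^ 3)) ^ 2 * (d * ∑ y ∈ Lam z (4 * s), v y ^ 2) := by
    refine le_trans ?_ (mul_le_mul_of_nonneg_left
      (CG1_first η (Lam z (4 * s)) (fun y => v y ^ 2) (fun y => sq_nonneg _)) (sq_nonneg _))
    rw [Finset.mul_sum]
    refine Finset.sum_le_sum fun p _ => ?_
    rw [mul_pow, mul_comm]
    exact mul_le_mul_of_nonneg_right (CG1_sq_le (ht2 _ _ _)) (sq_nonneg _)
  calc _ ≤ (16 ^ d * a) * ((K / (a * σ ^ 3)) ^ 2 * (d * ∑ y ∈ Lam z (4 * s), v y ^ 2)) :=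
        h1.trans (mul_le_mul (hgu i) h2 (Finset.sum_nonneg fun _ _ => sq_nonneg _)
          (by positivity))
    _ = d * 16 ^ d * K ^ 2 * ((∑ y ∈ Lam z (4 * s), v y ^ 2) / (a * σ ^ 6)) := by
        field_simp
    _ ≤ _ := by
        apply mul_le_mul_of_nonneg_left _ (by positivity)
        apply div_le_div_of_nonneg_left hV0 (by positivity)
        calc a * σ ^ 4 * mm ≤ a * σ ^ 4 * σ ^ 2 := mul_le_mul_of_nonneg_left hm1 (by positivity)
          _ = a * σ ^ 6 := by ring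

/-- the terms `E3` -/
theorem CG1_E3 (hs : 1 ≤ s) (hσ : σ = s) (ha : a = σ ^ d) (hmm : 0 < mm) (hm1 : mm ≤ σ ^ 2)
    (hK : 0 < K)
    (hclo : ∀ p ∈ CG1_P η (Lam z (4 * s)), (far p.1 ↔ far (p.1 + ev p.2)))
    (hv : ∀ y ∈ Lam z (4 * s), ¬ far y → v y = 0)
    (hgu : ∀ i, ∑ p ∈ CG1_P η (Lam z (4 * s)), (if far p.1 then grad (u i) p.1 p.2 else 0) ^ 2 ≤
      16 ^ d * a)
    (hH : ∀ i j y, |H i j y| ≤ K / (a * σ ^ 2))
    (ht2 : ∀ i y j, |grad (G' i) y j - H i j y| ≤ K / (a * σ ^ 3)) (i : Fin d) :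
    (∑ p ∈ CG1_P η (Lam z (4 * s)), grad (u i) p.1 p.2 *
        (grad v p.1 p.2 / 2 * grad (G' i) p.1 p.2)) ^ 2 ≤
      16 ^ d * K ^ 2 * (En η (Lam z (4 * s)) v / (a * σ ^ 2 * mm)) := by
  have hσ1 : 1 ≤ σ := by rw [hσ]; exact_mod_cast hs
  have ha0 : 0 < a := by rw [ha]; positivity
  have hE0 := CGA_En_nonneg η (Lam z (4 * s)) v
  have e1 : ∑ p ∈ CG1_P η (Lam z (4 * s)), grad (u i) p.1 p.2 *
        (grad v p.1 p.2 / 2 * grad (G' i) p.1 p.2) =
      ∑ p ∈ CG1_P η (Lam z (4 * s)), (if far p.1 then grad (u i) p.1 p.2 else 0) *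
        (grad v p.1 p.2 / 2 * grad (G' i) p.1 p.2) := by
    refine Finset.sum_congr rfl fun p hp => ?_
    by_cases h : far p.1
    · rw [if_pos h]
    · have h1 := CG1_mem hp
      have h2 : grad v p.1 p.2 = 0 := by
        rw [grad, hv _ h1.1 h, hv _ h1.2.2 (fun h' => h ((hclo p hp).2 h')), sub_zero]
      rw [h2]
      ring
  rw [e1]
  have h1 := Finset.sum_mul_sq_le_sq_mul_sq (CG1_P η (Lam z (4 * s)))
    (fun p => if far p.1 then grad (u i) p.1 p.2 else 0)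
    (fun p => grad v p.1 p.2 / 2 * grad (G' i) p.1 p.2)
  have h2 : ∑ p ∈ CG1_P η (Lam z (4 * s)), (grad v p.1 p.2 / 2 * grad (G' i) p.1 p.2) ^ 2 ≤
      K ^ 2 / (a ^ 2 * σ ^ 4) * En η (Lam z (4 * s)) v := by
    rw [CG1_En, Finset.mul_sum]
    refine Finset.sum_le_sum fun p _ => ?_
    have h3 := CG1_gradG G' H hs hσ ha hK hH ht2 i p.1 p.2
    calc (grad v p.1 p.2 / 2 * grad (G' i) p.1 p.2) ^ 2 =
        grad v p.1 p.2 ^ 2 / 4 * grad (G' i) p.1 p.2 ^ 2 := by ring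
      _ ≤ grad v p.1 p.2 ^ 2 / 4 * (4 * K ^ 2 / (a ^ 2 * σ ^ 4)) :=
          mul_le_mul_of_nonneg_left h3 (by positivity)
      _ = _ := by ring
  calc _ ≤ (16 ^ d * a) * (K ^ 2 / (a ^ 2 * σ ^ 4) * En η (Lam z (4 * s)) v) :=
        h1.trans (mul_le_mul (hgu i) h2 (Finset.sum_nonneg fun _ _ => sq_nonneg _)
          (by positivity))
    _ = 16 ^ d * K ^ 2 * (En η (Lam z (4 * s)) v / (a * σ ^ 4)) := by
        field_simp
    _ ≤ _ := by
        apply mul_le_mul_of_nonneg_left _ (by positivity)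
        apply div_le_div_of_nonneg_left hE0 (by positivity)
        calc a * σ ^ 2 * mm ≤ a * σ ^ 2 * σ ^ 2 := mul_le_mul_of_nonneg_left hm1 (by positivity)
          _ = a * σ ^ 4 := by ring

/-- the term `S0` -/
theorem CG1_S0 (hs : 1 ≤ s) (hσ : σ = s) (ha : a = σ ^ d) (hm20 : 1 ≤ m20)
    (hLv : ∀ y ∈ Lam z (4 * s), ¬ far y → Lap η v y = 0)
    (hφ : ∀ i, ∑ y ∈ (Lam z (4 * s)).filter far, φ i y ^ 2 ≤ a * σ ^ 2 / m20)
    (hg : ∀ y, |g y| ≤ K / a) (hG : ∀ i y, |G' i y| ≤ K / (a * σ)) :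
    (∑ y ∈ Lam z (4 * s), Lap η v y * (g y + ∑ i, φ i y * G' i y)) ^ 2 ≤
      (2 * 9 ^ d * K ^ 2 + 2 * d ^ 2 * K ^ 2) * ∑ y ∈ Lam z (4 * s), Lap η v y ^ 2 := by
  have hσ1 : 1 ≤ σ := by rw [hσ]; exact_mod_cast hs
  have ha1 : 1 ≤ a := by rw [ha]; exact one_le_pow₀ hσ1
  have ha0 : 0 < a := by linarith
  have hF0 : 0 ≤ ∑ y ∈ Lam z (4 * s), Lap η v y ^ 2 := Finset.sum_nonneg fun _ _ => sq_nonneg _
  have e1 : ∑ y ∈ Lam z (4 * s), Lap η v y * (g y + ∑ i, φ i y * G' i y) =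
      ∑ y ∈ Lam z (4 * s), Lap η v y * (if far y then g y + ∑ i, φ i y * G' i y else 0) := by
    refine Finset.sum_congr rfl fun y hy => ?_
    by_cases h : far y
    · rw [if_pos h]
    · rw [hLv y hy h]
      ring
  rw [e1]
  have h1 := Finset.sum_mul_sq_le_sq_mul_sq (Lam z (4 * s)) (Lap η v)
    (fun y => if far y then g y + ∑ i, φ i y * G' i y else 0)
  obtain ⟨F, hF⟩ : ∃ F : Fin d → Vtx d → ℝ, ∀ i y, F i y = if far y then φ i y ^ 2 else 0 :=
    ⟨_, fun _ _ => rfl⟩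
  have hFs : ∀ i, ∑ y ∈ Lam z (4 * s), F i y ≤ a * σ ^ 2 / m20 := by
    intro i
    simp only [hF]
    exact CG1_phi far φ hσ hφ i
  have h2 : ∀ y, (if far y then g y + ∑ i, φ i y * G' i y else 0) ^ 2 ≤
      2 * (K / a) ^ 2 + ∑ i, 2 * d * (K / (a * σ)) ^ 2 * F i y := by
    intro y
    split_ifs with h
    · have h3 : (∑ i, φ i y * G' i y) ^ 2 ≤ ∑ i, d * (K / (a * σ)) ^ 2 * F i y := by
        refine (CG1_sq_sum _).trans ?_
        rw [Finset.mul_sum]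
        refine Finset.sum_le_sum fun i _ => ?_
        rw [hF, if_pos h, mul_pow, mul_assoc, mul_comm (φ i y ^ 2)]
        apply mul_le_mul_of_nonneg_left _ (by positivity)
        exact mul_le_mul_of_nonneg_right (CG1_sq_le (hG i y)) (sq_nonneg _)
      have h4 := CG1_sq_le (hg y)
      have h5 : ∑ i, 2 * d * (K / (a * σ)) ^ 2 * F i y =
          2 * ∑ i, d * (K / (a * σ)) ^ 2 * F i y := by
        rw [Finset.mul_sum]
        exact Finset.sum_congr rfl fun i _ => by ring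
      rw [h5]
      nlinarith [sq_nonneg (g y - ∑ i, φ i y * G' i y)]
    · have : 0 ≤ ∑ i, 2 * d * (K / (a * σ)) ^ 2 * F i y := by
        refine Finset.sum_nonneg fun i _ => ?_
        rw [hF, if_neg h, mul_zero]
      rw [zero_pow two_ne_zero]
      have := sq_nonneg (K / a)
      linarith
  have h3 : ∑ y ∈ Lam z (4 * s), (if far y then g y + ∑ i, φ i y * G' i y else 0) ^ 2 ≤
      2 * 9 ^ d * K ^ 2 + 2 * d ^ 2 * K ^ 2 := by
    calc ∑ y ∈ Lam z (4 * s), (if far y then g y + ∑ i, φ i y * G' i y else 0) ^ 2 ≤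
        ∑ y ∈ Lam z (4 * s), (2 * (K / a) ^ 2 + ∑ i, 2 * d * (K / (a * σ)) ^ 2 * F i y) :=
          Finset.sum_le_sum fun y _ => h2 y
      _ = ((Lam z (4 * s)).card : ℝ) * (2 * (K / a) ^ 2) +
          ∑ i, 2 * d * (K / (a * σ)) ^ 2 * ∑ y ∈ Lam z (4 * s), F i y := by
          rw [Finset.sum_add_distrib, Finset.sum_const, nsmul_eq_mul, Finset.sum_comm]
          congr 1
          exact Finset.sum_congr rfl fun i _ => by rw [Finset.mul_sum]
      _ ≤ (9 ^ d * a) * (2 * (K / a) ^ 2) +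
          ∑ _i : Fin d, 2 * d * (K / (a * σ)) ^ 2 * (a * σ ^ 2 / m20) := by
          apply add_le_add
          · exact mul_le_mul_of_nonneg_right (CG1_cardW hs hσ ha) (by positivity)
          · refine Finset.sum_le_sum fun i _ => ?_
            exact mul_le_mul_of_nonneg_left (hFs i) (by positivity)
      _ = 2 * 9 ^ d * K ^ 2 * (1 / a) + 2 * d ^ 2 * K ^ 2 * (1 / (a * m20)) := by
          rw [Finset.sum_const, Finset.card_univ, Fintype.card_fin, nsmul_eq_mul]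
          field_simp
      _ ≤ 2 * 9 ^ d * K ^ 2 * 1 + 2 * d ^ 2 * K ^ 2 * 1 := by
          apply add_le_add
          · apply mul_le_mul_of_nonneg_left _ (by positivity)
            rw [div_le_one ha0]
            exact ha1
          · apply mul_le_mul_of_nonneg_left _ (by positivity)
            rw [div_le_one (by positivity)]
            nlinarith
      _ = _ := by ring
  calc _ ≤ (∑ y ∈ Lam z (4 * s), Lap η v y ^ 2) * (2 * 9 ^ d * K ^ 2 + 2 * d ^ 2 * K ^ 2) :=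
        h1.trans (mul_le_mul_of_nonneg_left h3 hF0)
    _ = _ := mul_comm _ _

end bounds

/-! ## the functions of the bump -/

theorem CG1_pd_zero {f : E d → ℝ} {r : ℝ} (hf : ∀ u, r < ‖u‖ → f u = 0) (i : Fin d) (u : E d)
    (hu : r < ‖u‖) : pd i f u = 0 := by
  have h1 : f =ᶠ[nhds u] fun _ => (0 : ℝ) := by
    have h2 : {w : E d | r < ‖w‖} ∈ nhds u :=
      (isOpen_lt continuous_const continuous_norm).mem_nhds hu
    filter_upwards [h2] with w hw using hf w hw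
  rw [pd, h1.fderiv_eq]
  simp

theorem CG1_far_norm {z y : Vtx d} {s : ℕ} {x : E d} (hx : ∀ i, |x i - z i| ≤ (s : ℝ))
    (h : 2 * s < dst y z) : (s : ℝ) < ‖x - toE y‖ := by
  by_contra h1
  push Not at h1
  have h2 : dst y z ≤ 2 * s := by
    rw [BAS_le_iff]
    intro i
    have h3 : |(x - toE y) i| ≤ ‖x - toE y‖ := by
      have := PiLp.norm_apply_le (x - toE y) i
      rwa [Real.norm_eq_abs] at this
    have h4 : |x i - (y i : ℝ)| ≤ s := h3.trans h1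
    have h5 := hx i
    have h6 : |(y i : ℝ) - z i| ≤ 2 * s := by
      rw [abs_le] at h4 h5 ⊢
      constructor <;> linarith
    have h7 : |y i - z i| ≤ 2 * (s : ℤ) := by exact_mod_cast h6
    rw [abs_le] at h7
    omega
  omega

theorem CG1_lip {f : E d → ℝ} (hf : ContDiff ℝ (⊤ : ℕ∞) f) {B : ℝ}
    (hB : ∀ x l, |pd l f x| ≤ B) (u w : E d) : |f u - f w| ≤ d * B * ‖u - w‖ := by
  have h1 : ∀ x, ‖fderiv ℝ f x‖ ≤ d * B := by
    intro x
    by_cases hd : d = 0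
    · subst hd
      have : fderiv ℝ f x = 0 := by
        ext v
        rw [Subsingleton.elim v 0, map_zero, map_zero]
      rw [this, norm_zero]
      simp
    have hB0 : 0 ≤ B := (abs_nonneg _).trans (hB x ⟨0, Nat.pos_of_ne_zero hd⟩)
    apply ContinuousLinearMap.opNorm_le_bound _ (by positivity)
    intro v
    have h2 : v = ∑ l, v l • eb l := by
      ext i
      simp [eb, Finset.sum_apply, Pi.single_apply]
    calc ‖fderiv ℝ f x v‖ = ‖∑ l, v l * pd l f x‖ := by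
          conv_lhs => rw [h2]
          rw [map_sum]
          simp only [map_smul, smul_eq_mul]
          rfl
      _ ≤ ∑ l, ‖v l * pd l f x‖ := norm_sum_le _ _
      _ ≤ ∑ _l : Fin d, ‖v‖ * B := by
          refine Finset.sum_le_sum fun l _ => ?_
          rw [norm_mul]
          exact mul_le_mul (PiLp.norm_apply_le v l) (by rw [Real.norm_eq_abs]; exact hB x l)
            (norm_nonneg _) (norm_nonneg _)
      _ = d * B * ‖v‖ := by
          rw [Finset.sum_const, Finset.card_univ, Fintype.card_fin, nsmul_eq_mul]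
          ring
  have h2 := (convex_univ (𝕜 := ℝ) (E := E d)).norm_image_sub_le_of_norm_fderiv_le
    (f := f) (C := d * B) (fun x _ => ET_diff hf x) (fun x _ => h1 x) (Set.mem_univ w)
    (Set.mem_univ u)
  rwa [Real.norm_eq_abs] at h2

theorem CG1_grad_uu (z : Vtx d) (φ : Fin d → Vtx d → ℝ) (i : Fin d) (y : Vtx d) (j : Fin d) :
    grad (uu z φ i) y j = (if i = j then 1 else 0) + grad (φ i) y j := by
  simp only [grad, uu, ev, Pi.add_apply]
  by_cases h : i = j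
  · subst h
    simp
    ring
  · rw [if_neg h, Pi.single_eq_of_ne h]
    simp

theorem coarse_lapl (d c : ℕ) (hd : 1 ≤ d) : ∃ c' : ℕ, ∀ (A k : ℕ) (CL θ₀ : ℝ), 1 ≤ k → 12 * k ≤ A →
    0 < CL → 0 < θ₀ → ∃ (C : ℝ) (q M₁ : ℕ), ∀ (M : ℕ), M₁ ≤ M → ∀ (η : Conf d) (z : Vtx d),
      Grid (M ^ A) z → Loc c CL θ₀ A k η M z → ∀ (S : Finset (Vtx d)) (v : Vtx d → ℝ),
        (∀ y, y ∉ S → v y = 0) → (∀ y ∈ Lam z (7 * M ^ A), ¬ Far η (6 * M) y → v y = 0) →
        ∀ x : E d, (∀ i, |x i - z i| ≤ (M : ℝ) ^ A) →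
          lapl (Vc ((M : ℝ) ^ A) S v) x ^ 2 ≤
            C * (M : ℝ) ^ c' * (((M : ℝ) ^ A) ^ d)⁻¹ *
              ((((M : ℝ) ^ A) ^ 4 * (M : ℝ) ^ (12 * k))⁻¹ * ∑ y ∈ Lam z (4 * M ^ A), v y ^ 2 +
               (((M : ℝ) ^ A) ^ 2 * (M : ℝ) ^ (12 * k))⁻¹ * En η (Lam z (4 * M ^ A)) v) +
            C * (M : ℝ) ^ q * ∑ y ∈ Lam z (4 * M ^ A), Lap η v y ^ 2 := by
  obtain ⟨c₁, hcube⟩ := cube_sum d c hd
  obtain ⟨Kb, hKb, hbd⟩ := etas_bounds d
  obtain ⟨Kt, hKt, htay⟩ := etas_taylor d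
  refine ⟨2 * c + c₁, ?_⟩
  intro A k CL θ₀ hk hA hCL hθ₀
  obtain ⟨CC, M₂, hcube⟩ := hcube A k CL θ₀ hk hA hCL hθ₀
  obtain ⟨K, hK⟩ : ∃ K, K = Kb + Kt := ⟨_, rfl⟩
  have hK0 : 0 < K := by rw [hK]; positivity
  obtain ⟨c0, hc0⟩ : ∃ c0 : ℝ, c0 = 2 * 9 ^ d * K ^ 2 + 2 * d ^ 2 * K ^ 2 := ⟨_, rfl⟩
  obtain ⟨cs, hcs⟩ : ∃ cs : ℝ, cs = d * 9 ^ d * K ^ 2 + 4 * d ^ 3 * K ^ 2 + d ^ 2 * K ^ 2 +
    d ^ 2 * (d * 16 ^ d * K ^ 2) + d ^ 2 * (16 ^ d * K ^ 2) +
    d ^ 4 * (|CC| * ((d ^ 2 + 1) * K) ^ 2) := ⟨_, rfl⟩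
  have hc00 : 0 ≤ c0 := by rw [hc0]; positivity
  have hcs0 : 0 ≤ cs := by rw [hcs]; positivity
  refine ⟨7 * CL ^ 2 * (c0 + cs), 2 * c, max 2 M₂, ?_⟩
  rintro M hM η z hz ⟨a₀, θ, φ, L⟩ S v hvS hvfar x hx
  have hM2 : 2 ≤ M := (le_max_left _ _).trans hM
  have hMM : M₂ ≤ M := (le_max_right _ _).trans hM
  have hM1 : 1 ≤ M := by omega
  have hMr : (1 : ℝ) ≤ M := by exact_mod_cast hM1
  obtain ⟨hs1, hs2, hs3⟩ := CGA_scales hM2 hk hA
  have hcube := hcube M hMM η z a₀ θ φ hz L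
  obtain ⟨s, hs⟩ : ∃ s : ℕ, s = M ^ A := ⟨_, rfl⟩
  obtain ⟨σ, hσM⟩ : ∃ σ : ℝ, σ = (M : ℝ) ^ A := ⟨_, rfl⟩
  have hσ : σ = s := by rw [hσM, hs]; push_cast; rfl
  obtain ⟨a, ha⟩ : ∃ a : ℝ, a = σ ^ d := ⟨_, rfl⟩
  obtain ⟨mm, hmm⟩ : ∃ mm : ℝ, mm = (M : ℝ) ^ (12 * k) := ⟨_, rfl⟩
  obtain ⟨m20, hm20⟩ : ∃ m20 : ℝ, m20 = (M : ℝ) ^ (20 * k) := ⟨_, rfl⟩
  rw [← hσM, ← hs] at hcube
  rw [← hσM, ← ha, ← hmm, ← hs]
  rw [← hσM] at hx
  rw [← hs] at hs2 hs3 hvfar hz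
  have hs0 : 1 ≤ s := by rw [hs]; exact Nat.one_le_pow _ _ hM1
  have hσ1 : 1 ≤ σ := by rw [hσ]; exact_mod_cast hs0
  have ha1 : 1 ≤ a := by rw [ha]; exact one_le_pow₀ hσ1
  have ha0 : 0 < a := by linarith
  have hmm1 : 1 ≤ mm := by rw [hmm]; exact one_le_pow₀ hMr
  have hm201 : 1 ≤ m20 := by rw [hm20]; exact one_le_pow₀ hMr
  have hmm0 : 0 < mm := by linarith
  have hm2 : mm ≤ m20 := by rw [hmm, hm20]; exact pow_le_pow_right₀ hMr (by omega)
  have hm1 : mm ≤ σ ^ 2 := by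
    rw [hmm, hσM, ← pow_mul]
    exact pow_le_pow_right₀ hMr (by omega)
  have hMs : M ≤ s := by omega
  have hxs : ∀ i, |x i - z i| ≤ (s : ℝ) := by rw [← hσ]; exact hx
  -- the data
  have hfaredge : ∀ y y' : Vtx d, dst y z ≤ 5 * s → (G η).Adj y y' → Far η (6 * M) y →
      Far η (6 * M) y' := by
    intro y y' hy hadj hf
    refine CG1_far_edge' hM1 (fun w hw1 hw2 => L.good w hw1 ?_) hadj hf
    have := dst_triangle w y z
    rw [← hs]
    omega
  have hadj : ∀ y j, η y j → (G η).Adj y (y + ev j) := fun y j h => ⟨j, Or.inl ⟨rfl, h⟩⟩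
  have hclo : ∀ p ∈ CG1_P η (Lam z (4 * s)), (Far η (6 * M) p.1 ↔ Far η (6 * M) (p.1 + ev p.2)) := by
    intro p hp
    obtain ⟨h1, h2, h3⟩ := CG1_mem hp
    rw [mem_Lam] at h1 h3
    exact ⟨hfaredge _ _ (by omega) (hadj _ _ h2), hfaredge _ _ (by omega) (hadj _ _ h2).symm⟩
  have hv : ∀ y ∈ Lam z (4 * s), ¬ Far η (6 * M) y → v y = 0 := by
    intro y hy
    apply hvfar
    rw [mem_Lam] at hy ⊢
    omega
  have hLv : ∀ y ∈ Lam z (4 * s), ¬ Far η (6 * M) y → Lap η v y = 0 := by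
    intro y hy hf
    have h1 := hv y hy hf
    rw [mem_Lam] at hy
    rw [Lap]
    refine Finset.sum_eq_zero fun j _ => ?_
    have h2 : (if η y j then v (y + ev j) - v y else 0) = 0 := by
      split_ifs with h3
      · have h4 := dst_triangle (y + ev j) y z
        have h5 := dst_add_ev y j
        rw [h1, hvfar (y + ev j) (by rw [mem_Lam]; omega) (fun h6 =>
          hf (hfaredge _ _ (by omega) (hadj y j h3).symm h6)), sub_zero]
      · rfl
    have h3 : (if η (y - ev j) j then v (y - ev j) - v y else 0) = 0 := by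
      split_ifs with h3
      · have h4 := dst_triangle (y - ev j) y z
        have h5 := dst_add_ev (y - ev j) j
        rw [sub_add_cancel, dst_comm] at h5
        have h7 := hadj (y - ev j) j h3
        rw [sub_add_cancel] at h7
        rw [h1, hvfar (y - ev j) (by rw [mem_Lam]; omega) (fun h6 =>
          hf (hfaredge _ _ (by omega) h7 h6)), sub_zero]
      · rfl
    rw [h2, h3, add_zero]
  have h46 : Lam z (4 * s) ⊆ Lam z (6 * s) := by
    apply Lam_subset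
    rw [dst_self]
    omega
  have hLu : ∀ i, ∀ y ∈ Lam z (4 * s), Far η (6 * M) y →
      Lap η (uu z φ i) y = φ i y / σ ^ 2 := by
    intro i y hy hf
    have h1 := L.harm i y
    rw [← hs, ← hσM] at h1
    exact h1 (h46 hy) hf
  have hφ : ∀ i, ∑ y ∈ (Lam z (4 * s)).filter (Far η (6 * M)), φ i y ^ 2 ≤
      a * σ ^ 2 / m20 := by
    intro i
    have h1 := L.phi_sq i
    rw [← hs, ← hσM, ← hm20] at h1
    rw [ha, ← pow_add]
    refine le_trans ?_ h1
    exact Finset.sum_le_sum_of_subset_of_nonneg (Finset.filter_subset_filter _ h46)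
      fun _ _ _ => sq_nonneg _
  have hgu : ∀ i, ∑ p ∈ CG1_P η (Lam z (4 * s)),
      (if Far η (6 * M) p.1 then grad (uu z φ i) p.1 p.2 else 0) ^ 2 ≤ 16 ^ d * a := by
    intro i
    have h1 := L.grad_sq i
    rw [← hs, ← hσM, ← ha] at h1
    refine le_trans ?_ h1
    rw [CG1_P, Finset.sum_filter, Finset.sum_product, Finset.sum_filter]
    refine (Finset.sum_le_sum_of_subset_of_nonneg h46 fun y _ _ => ?_).trans
      (Finset.sum_le_sum fun y _ => ?_)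
    · refine Finset.sum_nonneg fun j _ => ?_
      split_ifs
      · exact sq_nonneg _
      · exact sq_nonneg _
      · exact le_rfl
    · by_cases hf : Far η (6 * M) y
      · simp only [if_pos hf]
        refine Finset.sum_le_sum fun j _ => ?_
        split_ifs with h2 h3 h3
        · exact le_rfl
        · exact absurd h2.1 h3
        · exact sq_nonneg _
        · exact le_rfl
      · simp only [if_neg hf]
        refine le_of_eq (Finset.sum_eq_zero fun j _ => ?_)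
        split_ifs <;> norm_num
  -- the functions
  obtain ⟨g, hgdef⟩ : ∃ g : Vtx d → ℝ, g = fun y => etas d σ (x - toE y) := ⟨_, rfl⟩
  obtain ⟨G', hGdef⟩ : ∃ G' : Fin d → Vtx d → ℝ, G' = fun i y => -pd i (etas d σ) (x - toE y) :=
    ⟨_, rfl⟩
  obtain ⟨H, hHdef⟩ : ∃ H : Fin d → Fin d → Vtx d → ℝ,
    H = fun i j y => pd j (pd i (etas d σ)) (x - toE y) := ⟨_, rfl⟩
  have hσ0 : 0 < σ := by linarith
  have hz0 : ∀ u : E d, σ < ‖u‖ → etas d σ u = 0 := fun u hu => etas_support d hσ0 hu.le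
  have hz1 : ∀ i (u : E d), σ < ‖u‖ → pd i (etas d σ) u = 0 := fun i u hu =>
    CG1_pd_zero hz0 i u hu
  have hz2 : ∀ i j (u : E d), σ < ‖u‖ → pd j (pd i (etas d σ)) u = 0 := fun i j u hu =>
    CG1_pd_zero (hz1 i) j u hu
  have hfarn : ∀ y, 2 * s < dst y z → σ < ‖x - toE y‖ := by
    intro y hy
    rw [hσ]
    exact CG1_far_norm hxs hy
  have hg0 : ∀ y, 2 * s < dst y z → g y = 0 := by
    intro y hy
    rw [hgdef]
    exact hz0 _ (hfarn y hy)
  have hG0 : ∀ i y, 2 * s < dst y z → G' i y = 0 := by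
    intro i y hy
    rw [hGdef]
    change -pd i (etas d σ) (x - toE y) = 0
    rw [hz1 i _ (hfarn y hy), neg_zero]
  have hH0 : ∀ i j y, 2 * s < dst y z → H i j y = 0 := by
    intro i j y hy
    rw [hHdef]
    exact hz2 i j _ (hfarn y hy)
  have hKbK : Kb ≤ K := by rw [hK]; linarith
  have hKtK : Kt ≤ K := by rw [hK]; linarith
  have hpow : ∀ n : ℕ, ∀ B : ℝ, B ≤ K → B / σ ^ (d + n) ≤ K / (a * σ ^ n) := by
    intro n B hB
    rw [pow_add, ← ha]
    exact div_le_div_of_nonneg_right hB (by positivity)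
  have hgb : ∀ y, |g y| ≤ K / a := by
    intro y
    have h1 := hbd σ hσ0 (x - toE y)
    rw [hgdef]
    change |etas d σ (x - toE y)| ≤ K / a
    rw [abs_of_nonneg h1.1]
    refine h1.2.1.trans ?_
    rw [ha]
    exact div_le_div_of_nonneg_right hKbK (by positivity)
  have hGb : ∀ i y, |G' i y| ≤ K / (a * σ) := by
    intro i y
    have h1 := ((hbd σ hσ0 (x - toE y)).2.2 i).1
    rw [hGdef]
    change |-pd i (etas d σ) (x - toE y)| ≤ K / (a * σ)
    rw [abs_neg]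
    have h2 := hpow 1 Kb hKbK
    rw [pow_one] at h2
    exact h1.trans h2
  have hHb : ∀ i j y, |H i j y| ≤ K / (a * σ ^ 2) := by
    intro i j y
    have h1 := (((hbd σ hσ0 (x - toE y)).2.2 i).2 j).1
    rw [hHdef]
    exact h1.trans (hpow 2 Kb hKbK)
  have ht1 : ∀ y j, |grad g y j - (G' j y + G' j (y + ev j)) / 2| ≤ K / (a * σ ^ 3) := by
    intro y j
    have h1 := (htay σ hσ1 x y j).1
    refine le_trans (le_of_eq ?_) (h1.trans (hpow 3 Kt hKtK))
    rw [hgdef, hGdef]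
    simp only [grad]
    congr 1
    ring
  have ht2 : ∀ i y j, |grad (G' i) y j - H i j y| ≤ K / (a * σ ^ 3) := by
    intro i y j
    have h1 := (htay σ hσ1 x y j).2 i
    rw [hGdef, hHdef]
    simp only [grad]
    exact h1.trans (hpow 3 Kt hKtK)
  -- the identity
  have hid := CG1_identity (η := η) hs0 v g φ (fun i => uu z φ i) G' H
    (CG1_grad_uu z φ) hg0 hG0
  have b0 := CG1_S0 (Far η (6 * M)) v g φ G' hs0 hσ ha hm201 hLv hφ hgb hGb
  have b6 := CG1_E6 (η := η) (z := z) v g G' hs0 hσ ha hmm0 hm1 ht1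
  have b5 := CG1_E5 (Far η (6 * M)) v φ G' H hs0 hσ ha hmm0 hm2 hK0 hclo hv hφ hHb ht2
  have bL := CG1_sum_bound _ (fun i => CG1_L (Far η (6 * M)) v φ (fun i => uu z φ i) G' hs0 hσ ha
    hmm0 hm2 hv hLu hφ hGb i)
  have b4 := CG1_sum_bound _ (fun i => CG1_E4 (Far η (6 * M)) v (fun i => uu z φ i) G' H hs0 hσ
    ha hmm0 hm1 hv hgu ht2 i)
  have b3 := CG1_sum_bound _ (fun i => CG1_E3 (Far η (6 * M)) v (fun i => uu z φ i) G' H hs0 hσ
    ha hmm0 hm1 hK0 hclo hv hgu hHb ht2 i)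
  obtain ⟨S0, hS0⟩ : ∃ S0, S0 = ∑ y ∈ Lam z (4 * s), Lap η v y * (g y + ∑ i, φ i y * G' i y) :=
    ⟨_, rfl⟩
  obtain ⟨E6, hE6⟩ : ∃ E6, E6 = ∑ p ∈ CG1_P η (Lam z (4 * s)), grad v p.1 p.2 *
        (grad g p.1 p.2 - (G' p.2 p.1 + G' p.2 (p.1 + ev p.2)) / 2) := ⟨_, rfl⟩
  obtain ⟨E5, hE5⟩ : ∃ E5, E5 = ∑ p ∈ CG1_P η (Lam z (4 * s)), grad v p.1 p.2 *
        ∑ i, (φ i p.1 + φ i (p.1 + ev p.2)) / 2 * grad (G' i) p.1 p.2 := ⟨_, rfl⟩
  obtain ⟨LL, hLL⟩ : ∃ LL, LL = ∑ i, ∑ y ∈ Lam z (4 * s), Lap η (uu z φ i) y * (v y * G' i y) :=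
    ⟨_, rfl⟩
  obtain ⟨E4, hE4⟩ : ∃ E4, E4 = ∑ i, ∑ p ∈ CG1_P η (Lam z (4 * s)), grad (uu z φ i) p.1 p.2 *
        (v p.1 * (grad (G' i) p.1 p.2 - H i p.2 p.1)) := ⟨_, rfl⟩
  obtain ⟨E3, hE3⟩ : ∃ E3, E3 = ∑ i, ∑ p ∈ CG1_P η (Lam z (4 * s)), grad (uu z φ i) p.1 p.2 *
        (grad v p.1 p.2 / 2 * grad (G' i) p.1 p.2) := ⟨_, rfl⟩
  rw [← hS0, ← hE6, ← hE5, ← hLL, ← hE4, ← hE3] at hid
  rw [← hS0, ← hc0] at b0
  rw [← hE6] at b6
  rw [← hE5] at b5
  rw [← hLL] at bL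
  rw [← hE4] at b4
  rw [← hE3] at b3
  -- the left side of the identity
  obtain ⟨r, hr⟩ : ∃ r, r = a₀ / θ := ⟨_, rfl⟩
  obtain ⟨LV, hLV⟩ : ∃ LV, LV = lapl (Vc σ S v) x := ⟨_, rfl⟩
  obtain ⟨er, her⟩ : ∃ er : Fin d → Fin d → ℝ, ∀ i j, er i j = ∑ y ∈ Lam z (4 * s), v y * H i j y *
    (qq η M z φ i j y - if i = j ∧ Far η (6 * M) y then r else 0) := ⟨_, fun _ _ => rfl⟩
  have hLVsum : LV = ∑ i, ∑ y ∈ Lam z (4 * s), v y * H i i y := by
    rw [hLV, lapl]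
    refine Finset.sum_congr rfl fun i _ => ?_
    rw [((vc_pd σ S v x i).2 i)]
    have e1 : ∑ y ∈ S, v y * pd i (pd i (etas d σ)) (x - toE y) = ∑ y ∈ S, v y * H i i y := by
      rw [hHdef]
    rw [e1]
    have e2 : ∑ y ∈ S, v y * H i i y = ∑ y ∈ S ∪ Lam z (4 * s), v y * H i i y := by
      apply Finset.sum_subset Finset.subset_union_left
      intro y _ hy
      rw [hvS y hy, zero_mul]
    have e3 : ∑ y ∈ Lam z (4 * s), v y * H i i y =
        ∑ y ∈ S ∪ Lam z (4 * s), v y * H i i y := by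
      apply Finset.sum_subset Finset.subset_union_right
      intro y _ hy
      rw [mem_Lam] at hy
      rw [hH0 i i y (by omega), mul_zero]
    rw [e2, e3]
  have hleft : ∑ i, ∑ p ∈ CG1_P η (Lam z (4 * s)),
      grad (uu z φ i) p.1 p.2 * (v p.1 * H i p.2 p.1) = ∑ i, ∑ j, er i j + r * LV := by
    have e1 : ∀ i, ∑ p ∈ CG1_P η (Lam z (4 * s)),
        grad (uu z φ i) p.1 p.2 * (v p.1 * H i p.2 p.1) =
        ∑ j, er i j + r * ∑ y ∈ Lam z (4 * s), v y * H i i y := by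
      intro i
      rw [← CG1_edge η (Lam z (4 * s)) (fun y j => grad (uu z φ i) y j * (v y * H i j y))]
      · rw [Finset.sum_comm]
        have e2 : ∀ j, ∑ y ∈ Lam z (4 * s), (if η y j then
            grad (uu z φ i) y j * (v y * H i j y) else 0) =
            er i j + (if i = j then r * ∑ y ∈ Lam z (4 * s), v y * H i i y else 0) := by
          intro j
          have e3 : (if i = j then r * ∑ y ∈ Lam z (4 * s), v y * H i i y else 0) =
              ∑ y ∈ Lam z (4 * s), v y * H i j y *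
                (if i = j ∧ Far η (6 * M) y then r else 0) := by
            by_cases hij : i = j
            · subst hij
              rw [if_pos rfl, Finset.mul_sum]
              refine Finset.sum_congr rfl fun y hy => ?_
              by_cases hf : Far η (6 * M) y
              · rw [if_pos ⟨rfl, hf⟩]
                ring
              · rw [hv y hy hf]
                ring
            · rw [if_neg hij]
              simp [hij]
          rw [e3, her, ← Finset.sum_add_distrib]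
          refine Finset.sum_congr rfl fun y hy => ?_
          by_cases hf : Far η (6 * M) y
          · by_cases hη : η y j
            · rw [if_pos hη, qq, if_pos ⟨hf, hη⟩]
              ring
            · rw [if_neg hη, qq, if_neg (fun h => hη h.2)]
              ring
          · rw [hv y hy hf]
            simp
        simp only [e2, Finset.sum_add_distrib]
        simp
      · intro y hy j hj
        have h1 := dst_triangle (y + ev j) y z
        have h2 := dst_add_ev y j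
        rw [mem_Lam] at hj
        change grad (uu z φ i) y j * (v y * H i j y) = 0
        rw [hH0 i j y (by omega)]
        ring
    simp only [e1, Finset.sum_add_distrib]
    rw [← Finset.mul_sum, ← hLVsum]
  rw [hleft] at hid
  -- the error
  obtain ⟨Vs, hVs⟩ : ∃ Vs, Vs = ∑ y ∈ Lam z (4 * s), v y ^ 2 := ⟨_, rfl⟩
  obtain ⟨En4, hEn4⟩ : ∃ En4, En4 = En η (Lam z (4 * s)) v := ⟨_, rfl⟩
  obtain ⟨Fs, hFs⟩ : ∃ Fs, Fs = ∑ y ∈ Lam z (4 * s), Lap η v y ^ 2 := ⟨_, rfl⟩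
  have hVs0 : 0 ≤ Vs := by rw [hVs]; exact Finset.sum_nonneg fun _ _ => sq_nonneg _
  have hEn0 : 0 ≤ En4 := by rw [hEn4]; exact CGA_En_nonneg _ _ _
  have hFs0 : 0 ≤ Fs := by rw [hFs]; exact Finset.sum_nonneg fun _ _ => sq_nonneg _
  rw [← hFs] at b0
  rw [← hEn4] at b6 b5 b3
  rw [← hVs] at bL b4
  rw [← hVs, ← hEn4, ← hFs, ← hLV]
  obtain ⟨t1, ht1'⟩ : ∃ t1, t1 = Vs / (a * σ ^ 4 * mm) := ⟨_, rfl⟩
  obtain ⟨t2, ht2'⟩ : ∃ t2, t2 = En4 / (a * σ ^ 2 * mm) := ⟨_, rfl⟩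
  have ht10 : 0 ≤ t1 := by rw [ht1']; positivity
  have ht20 : 0 ≤ t2 := by rw [ht2']; positivity
  rw [← ht2'] at b6 b5 b3
  rw [← ht1'] at bL b4
  have her2 : ∀ i j, er i j ^ 2 ≤ |CC| * ((d ^ 2 + 1) * K) ^ 2 * (M : ℝ) ^ c₁ * (t1 + t2) := by
    intro i j
    have h1 := hcube v (H i j) ((d ^ 2 + 1) * K / (a * σ ^ 2)) (by positivity) hvfar ?_ ?_
      (hH0 i j) i j
    · rw [← hr, ← her, ← hVs, ← hEn4, ← ha, ← hmm] at h1
      refine h1.trans ?_
      have h2 : (CC : ℝ) * (M : ℝ) ^ c₁ * ((d ^ 2 + 1) * K / (a * σ ^ 2)) ^ 2 * a / mm *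
          (Vs + σ ^ 2 * En4) ≤
          |CC| * (M : ℝ) ^ c₁ * ((d ^ 2 + 1) * K / (a * σ ^ 2)) ^ 2 * a / mm *
          (Vs + σ ^ 2 * En4) := by
        apply mul_le_mul_of_nonneg_right _ (by positivity)
        apply div_le_div_of_nonneg_right _ hmm0.le
        apply mul_le_mul_of_nonneg_right _ ha0.le
        apply mul_le_mul_of_nonneg_right _ (sq_nonneg _)
        apply mul_le_mul_of_nonneg_right (le_abs_self _) (by positivity)
      refine h2.trans (le_of_eq ?_)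
      rw [ht1', ht2']
      field_simp
    · intro y
      refine (hHb i j y).trans ?_
      apply div_le_div_of_nonneg_right _ (by positivity)
      have : 0 ≤ (d : ℝ) ^ 2 * K := by positivity
      linarith
    · intro y y' hyy
      obtain ⟨n, hn⟩ : ∃ n : ℕ, n = M ^ (A - 6 * k) := ⟨_, rfl⟩
      rw [← hn] at hyy hs2
      obtain ⟨m6, hm6⟩ : ∃ m6 : ℝ, m6 = (M : ℝ) ^ (6 * k) := ⟨_, rfl⟩
      have hm60 : 0 < m6 := by rw [hm6]; positivity
      have hnm : (n : ℝ) * m6 = σ := by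
        rw [hm6, hσ, ← hs2]
        push_cast
        rfl
      rw [← hm6]
      have h2 : ∀ w l, |pd l (pd j (pd i (etas d σ))) w| ≤ K / (a * σ ^ 3) := by
        intro w l
        exact ((((hbd σ hσ0 w).2.2 i).2 j).2 l).trans (hpow 3 Kb hKbK)
      have h3 := CG1_lip (ET_pd_smooth (ET_pd_smooth (etas_smooth d σ) i) j) h2
        (x - toE y) (x - toE y')
      have h4 : ‖(x - toE y) - (x - toE y')‖ ≤ d * n := by
        apply CS_norm_le (by positivity)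
        intro l
        have e1 : ((x - toE y) - (x - toE y')) l = (y' l : ℝ) - y l := by
          change (x l - (y l : ℝ)) - (x l - (y' l : ℝ)) = (y' l : ℝ) - y l
          ring
        rw [e1]
        have h5 := (BAS_le_iff.1 hyy) l
        have h6 : |y' l - y l| ≤ (n : ℤ) := by
          rw [abs_le]
          omega
        have h7 : |(y' l : ℝ) - (y l : ℝ)| ≤ (n : ℝ) := by exact_mod_cast h6
        exact h7
      have h5 : |H i j y - H i j y'| ≤ d * (K / (a * σ ^ 3)) * (d * n) := by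
        rw [hHdef]
        exact h3.trans (mul_le_mul_of_nonneg_left h4 (by positivity))
      refine h5.trans ?_
      have h6 : d * (K / (a * σ ^ 3)) * (d * n) = d ^ 2 * K / (a * σ ^ 2) / m6 := by
        rw [← hnm]
        have : (n : ℝ) ≠ 0 := by
          intro h
          rw [h, zero_mul] at hnm
          linarith
        field_simp
      rw [h6]
      apply div_le_div_of_nonneg_right _ hm60.le
      apply div_le_div_of_nonneg_right _ (by positivity)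
      linarith
  obtain ⟨Er, hEr⟩ : ∃ Er, Er = ∑ i, ∑ j, er i j := ⟨_, rfl⟩
  have bE : Er ^ 2 ≤ d ^ 4 * (|CC| * ((d ^ 2 + 1) * K) ^ 2) * ((M : ℝ) ^ c₁ * (t1 + t2)) := by
    rw [hEr]
    have h1 := CG1_sum_bound (fun i => ∑ j, er i j) (fun i => CG1_sum_bound _ (her2 i))
    refine h1.trans (le_of_eq ?_)
    ring
  rw [← hEr] at hid
  -- conclusion
  have hrLV : r * LV = S0 + E6 + E5 - LL - E4 - E3 - Er := by linarith
  have hMc : (1 : ℝ) ≤ (M : ℝ) ^ c₁ := one_le_pow₀ hMr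
  have hT0 : 0 ≤ t1 + t2 := by positivity
  have hTT : t1 + t2 ≤ (M : ℝ) ^ c₁ * (t1 + t2) := le_mul_of_one_le_left hT0 hMc
  have h7 : (r * LV) ^ 2 ≤ 7 * (c0 * Fs + cs * ((M : ℝ) ^ c₁ * (t1 + t2))) := by
    have e1 : (r * LV) ^ 2 ≤ 7 * (S0 ^ 2 + E6 ^ 2 + E5 ^ 2 + LL ^ 2 + E4 ^ 2 + E3 ^ 2 + Er ^ 2) := by
      rw [hrLV]
      have e0 : 7 * (S0 ^ 2 + E6 ^ 2 + E5 ^ 2 + LL ^ 2 + E4 ^ 2 + E3 ^ 2 + Er ^ 2) =
          (S0 + E6 + E5 - LL - E4 - E3 - Er) ^ 2 +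
          ((S0 - E6) ^ 2 + (S0 - E5) ^ 2 + (S0 + LL) ^ 2 + (S0 + E4) ^ 2 + (S0 + E3) ^ 2 +
          (S0 + Er) ^ 2 + (E6 - E5) ^ 2 + (E6 + LL) ^ 2 + (E6 + E4) ^ 2 + (E6 + E3) ^ 2 +
          (E6 + Er) ^ 2 + (E5 + LL) ^ 2 + (E5 + E4) ^ 2 + (E5 + E3) ^ 2 + (E5 + Er) ^ 2 +
          (LL - E4) ^ 2 + (LL - E3) ^ 2 + (LL - Er) ^ 2 + (E4 - E3) ^ 2 + (E4 - Er) ^ 2 +
          (E3 - Er) ^ 2) := by ring
      rw [e0]
      exact le_add_of_nonneg_right (by positivity)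
    have e2 : d * 9 ^ d * K ^ 2 * t2 ≤ d * 9 ^ d * K ^ 2 * ((M : ℝ) ^ c₁ * (t1 + t2)) :=
      mul_le_mul_of_nonneg_left (by linarith) (by positivity)
    have e3 : 4 * d ^ 3 * K ^ 2 * t2 ≤ 4 * d ^ 3 * K ^ 2 * ((M : ℝ) ^ c₁ * (t1 + t2)) :=
      mul_le_mul_of_nonneg_left (by linarith) (by positivity)
    have e4 : (d : ℝ) ^ 2 * (K ^ 2 * t1) ≤ d ^ 2 * K ^ 2 * ((M : ℝ) ^ c₁ * (t1 + t2)) := by
      rw [← mul_assoc]
      exact mul_le_mul_of_nonneg_left (by linarith) (by positivity)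
    have e5 : (d : ℝ) ^ 2 * (d * 16 ^ d * K ^ 2 * t1) ≤
        d ^ 2 * (d * 16 ^ d * K ^ 2) * ((M : ℝ) ^ c₁ * (t1 + t2)) := by
      rw [← mul_assoc]
      exact mul_le_mul_of_nonneg_left (by linarith) (by positivity)
    have e6 : (d : ℝ) ^ 2 * (16 ^ d * K ^ 2 * t2) ≤
        d ^ 2 * (16 ^ d * K ^ 2) * ((M : ℝ) ^ c₁ * (t1 + t2)) := by
      rw [← mul_assoc]
      exact mul_le_mul_of_nonneg_left (by linarith) (by positivity)
    rw [hcs]
    linarith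
  have hθ : 0 < θ := lt_of_lt_of_le hθ₀ L.t_low
  have hr1 : 1 ≤ r * (CL * (M : ℝ) ^ c) := by
    have h1 := L.a_low
    have h2 : 0 < CL * (M : ℝ) ^ c := by positivity
    rw [div_le_iff₀ h2] at h1
    have h3 : a₀ ≤ r := by
      rw [hr, le_div_iff₀ hθ]
      have h4 := L.t_le
      have h5 : 0 ≤ a₀ := le_trans (by positivity) L.a_low
      nlinarith
    calc (1 : ℝ) ≤ a₀ * (CL * (M : ℝ) ^ c) := h1
      _ ≤ _ := mul_le_mul_of_nonneg_right h3 h2.le
  calc LV ^ 2 = 1 ^ 2 * LV ^ 2 := by ring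
    _ ≤ (r * (CL * (M : ℝ) ^ c)) ^ 2 * LV ^ 2 := by
        apply mul_le_mul_of_nonneg_right _ (sq_nonneg _)
        exact pow_le_pow_left₀ (by norm_num) hr1 2
    _ = (CL * (M : ℝ) ^ c) ^ 2 * (r * LV) ^ 2 := by ring
    _ ≤ (CL * (M : ℝ) ^ c) ^ 2 * (7 * (c0 * Fs + cs * ((M : ℝ) ^ c₁ * (t1 + t2)))) :=
        mul_le_mul_of_nonneg_left h7 (sq_nonneg _)
    _ = 7 * CL ^ 2 * cs * (M : ℝ) ^ (2 * c + c₁) * (t1 + t2) +
        7 * CL ^ 2 * c0 * (M : ℝ) ^ (2 * c) * Fs := by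
        rw [pow_add, pow_mul']
        ring
    _ ≤ 7 * CL ^ 2 * (c0 + cs) * (M : ℝ) ^ (2 * c + c₁) * (t1 + t2) +
        7 * CL ^ 2 * (c0 + cs) * (M : ℝ) ^ (2 * c) * Fs := by
        apply add_le_add
        · apply mul_le_mul_of_nonneg_right _ hT0
          apply mul_le_mul_of_nonneg_right _ (by positivity)
          apply mul_le_mul_of_nonneg_left _ (by positivity)
          linarith
        · apply mul_le_mul_of_nonneg_right _ hFs0
          apply mul_le_mul_of_nonneg_right _ (by positivity)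
          apply mul_le_mul_of_nonneg_left _ (by positivity)
          linarith
    _ = _ := by
        rw [ht1', ht2']
        field_simp

end Pool.Agent.Lib.MP_566bac_pr.Hd
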