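import Pool.Agent.Lib.MP_566bac_pr.Hd.CG4

/-!
# The gradient of the coarse grained function
-/

open Finset MeasureTheory ProbabilityTheory Filter
open scoped Classical

namespace Pool.Agent.Lib.MP_566bac_pr.Hd

variable {d : ℕ}

/-- Lipschitz bound from the partial derivatives -/
theorem CG2_lip {g : E d → ℝ} (hg : Differentiable ℝ g) {B : ℝ} (hB0 : 0 ≤ B)
    (hB : ∀ j w, |pd j g w| ≤ B) (x y : E d) : |g x - g y| ≤ d * B * ‖x - y‖ := by
  have h1 : ∀ w ∈ (Set.univ : Set (E d)), ‖fderiv ℝ g w‖ ≤ d * B := by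
    intro w _
    refine ContinuousLinearMap.opNorm_le_bound _ (by positivity) fun u => ?_
    have h2 : u = ∑ j, u j • eb j := by
      have := (EuclideanSpace.basisFun (Fin d) ℝ).sum_repr u
      simpa [eb] using this.symm
    have h3 : fderiv ℝ g w u = ∑ j, u j * pd j g w := by
      conv_lhs => rw [h2]
      rw [map_sum]
      refine Finset.sum_congr rfl fun j _ => ?_
      rw [map_smul, smul_eq_mul]
      rfl
    rw [h3, Real.norm_eq_abs]
    calc |∑ j, u j * pd j g w| ≤ ∑ j, |u j * pd j g w| := Finset.abs_sum_le_sum_abs _ _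
      _ ≤ ∑ _j : Fin d, ‖u‖ * B := by
          refine Finset.sum_le_sum fun j _ => ?_
          rw [abs_mul]
          refine mul_le_mul ?_ (hB j w) (abs_nonneg _) (norm_nonneg _)
          have := PiLp.norm_apply_le u j
          rwa [Real.norm_eq_abs] at this
      _ = d * B * ‖u‖ := by
          rw [Finset.sum_const, Finset.card_univ, Fintype.card_fin, nsmul_eq_mul]
          ring
  have h4 := convex_univ.norm_image_sub_le_of_norm_fderiv_le (𝕜 := ℝ)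
    (fun w _ => hg w) h1 (Set.mem_univ y) (Set.mem_univ x)
  rwa [Real.norm_eq_abs] at h4

/-- a constant and its bounds -/
theorem CG2_split (d : ℕ) (hd : 1 ≤ d) : ∃ C : ℕ, 1 ≤ C ∧ ∀ (c : ℕ) (CL θ₀ : ℝ) (A k : ℕ), 1 ≤ k →
    12 * k ≤ A → ∀ M : ℕ, 12 ≤ M → ∀ (η : Conf d) (z : Vtx d) (a θ : ℝ) (φ : Fin d → Vtx d → ℝ),
      LocData c CL θ₀ A k η M z a θ φ → ∀ v : Vtx d → ℝ, ∃ κ : ℝ,
        ∑ y ∈ (Lam z (3 * M ^ A)).filter (Far η (6 * M)), (v y - κ) ^ 2 ≤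
          C * (M : ℝ) ^ C * ((M : ℝ) ^ A) ^ 2 * En η (Lam z (4 * M ^ A)) v ∧
        κ ^ 2 * ((M : ℝ) ^ A) ^ d ≤ C * (M : ℝ) ^ C * (∑ y ∈ Lam z (4 * M ^ A), v y ^ 2 +
          ((M : ℝ) ^ A) ^ 2 * En η (Lam z (4 * M ^ A)) v) := by
  obtain ⟨C1, hC1⟩ := poincare d hd
  obtain ⟨C2, hC2⟩ := count_far d
  refine ⟨9 * C1 + C2 + 18 * C1 * C2 + 2 * C2 + C1 + 1, by omega, ?_⟩
  intro c CL θ₀ A k hk hA M hM η z a θ φ hL v
  have hM1 : (1 : ℝ) ≤ M := by
    have : 1 ≤ M := by omega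
    exact_mod_cast this
  have hMA : 12 * M ≤ M ^ A := by
    calc 12 * M ≤ M * M := Nat.mul_le_mul_right _ hM
      _ = M ^ 2 := by ring
      _ ≤ M ^ A := Nat.pow_le_pow_right (by omega) (by omega)
  obtain ⟨κ, hκ⟩ := hC1 M (3 * M ^ A) (by omega) (by omega) η z (fun w hw hwz =>
    hL.good w hw (by omega)) v
  have hEn : En η (Lam z (3 * M ^ A + 12 * M)) v ≤ En η (Lam z (4 * M ^ A)) v := by
    have hsub : Lam z (3 * M ^ A + 12 * M) ⊆ Lam z (4 * M ^ A) := by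
      apply Lam_subset
      rw [dst_self]
      omega
    unfold En
    calc ∑ x ∈ Lam z (3 * M ^ A + 12 * M), ∑ j, (if η x j ∧ x + ev j ∈ Lam z (3 * M ^ A + 12 * M)
          then (grad v x j) ^ 2 else 0)
        ≤ ∑ x ∈ Lam z (3 * M ^ A + 12 * M), ∑ j, (if η x j ∧ x + ev j ∈ Lam z (4 * M ^ A)
          then (grad v x j) ^ 2 else 0) := by
          refine Finset.sum_le_sum fun x _ => Finset.sum_le_sum fun j _ => ?_
          by_cases h : η x j ∧ x + ev j ∈ Lam z (3 * M ^ A + 12 * M)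
          · rw [if_pos h, if_pos ⟨h.1, hsub h.2⟩]
          · rw [if_neg h]
            split_ifs <;> positivity
      _ ≤ _ := by
          refine Finset.sum_le_sum_of_subset_of_nonneg hsub fun x _ _ => ?_
          refine Finset.sum_nonneg fun j _ => ?_
          split_ifs <;> positivity
  have hEn0 : 0 ≤ En η (Lam z (4 * M ^ A)) v := by
    unfold En
    refine Finset.sum_nonneg fun x _ => Finset.sum_nonneg fun j _ => ?_
    split_ifs <;> positivity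
  set EN := En η (Lam z (4 * M ^ A)) v with hENdef
  set s : ℝ := (M : ℝ) ^ A with hs
  have hs1 : 1 ≤ s := one_le_pow₀ hM1
  have hsum : ∑ y ∈ (Lam z (3 * M ^ A)).filter (Far η (6 * M)), (v y - κ) ^ 2 ≤
      9 * C1 * (M : ℝ) ^ C1 * s ^ 2 * EN := by
    calc ∑ y ∈ (Lam z (3 * M ^ A)).filter (Far η (6 * M)), (v y - κ) ^ 2
        ≤ C1 * (M : ℝ) ^ C1 * ((3 * M ^ A : ℕ) : ℝ) ^ 2 * En η (Lam z (3 * M ^ A + 12 * M)) v := hκ
      _ ≤ C1 * (M : ℝ) ^ C1 * ((3 * M ^ A : ℕ) : ℝ) ^ 2 * EN :=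
          mul_le_mul_of_nonneg_left hEn (by positivity)
      _ = 9 * C1 * (M : ℝ) ^ C1 * s ^ 2 * EN := by
          push_cast
          rw [hs]
          ring
  set C : ℕ := 9 * C1 + C2 + 18 * C1 * C2 + 2 * C2 + C1 + 1 with hC
  have hmono : ∀ {m : ℕ}, m ≤ C → (M : ℝ) ^ m ≤ (M : ℝ) ^ C := fun h => pow_le_pow_right₀ hM1 h
  refine ⟨κ, hsum.trans ?_, ?_⟩
  · have h1 : (9 * C1 : ℝ) * (M : ℝ) ^ C1 ≤ C * (M : ℝ) ^ C := by
      refine mul_le_mul ?_ (hmono (by omega)) (by positivity) (by positivity)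
      have : 9 * C1 ≤ C := by omega
      exact_mod_cast this
    have h2 : 0 ≤ s ^ 2 * EN := by positivity
    calc 9 * C1 * (M : ℝ) ^ C1 * s ^ 2 * EN = (9 * C1 * (M : ℝ) ^ C1) * (s ^ 2 * EN) := by ring
      _ ≤ (C * (M : ℝ) ^ C) * (s ^ 2 * EN) := mul_le_mul_of_nonneg_right h1 h2
      _ = _ := by ring
  · have hcount := hC2 M (3 * M ^ A) (by omega) (by omega) η z (fun w hw hwz =>
      hL.good w hw (by omega))
    set T := (Lam z (3 * M ^ A)).filter (Far η (6 * M)) with hT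
    have hvsum : ∑ y ∈ T, v y ^ 2 ≤ ∑ y ∈ Lam z (4 * M ^ A), v y ^ 2 := by
      refine Finset.sum_le_sum_of_subset_of_nonneg ?_ fun _ _ _ => sq_nonneg _
      refine (Finset.filter_subset _ _).trans ?_
      apply Lam_subset
      rw [dst_self]
      omega
    set V2 := ∑ y ∈ Lam z (4 * M ^ A), v y ^ 2 with hV2
    have hV20 : 0 ≤ V2 := Finset.sum_nonneg fun _ _ => sq_nonneg _
    have hκT : κ ^ 2 * T.card ≤ 2 * V2 + 2 * (9 * C1 * (M : ℝ) ^ C1 * s ^ 2 * EN) := by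
      calc κ ^ 2 * T.card = ∑ _y ∈ T, κ ^ 2 := by rw [Finset.sum_const, nsmul_eq_mul]; ring
        _ ≤ ∑ y ∈ T, (2 * v y ^ 2 + 2 * (v y - κ) ^ 2) := by
            refine Finset.sum_le_sum fun y _ => ?_
            nlinarith [sq_nonneg (2 * v y - κ)]
        _ = 2 * ∑ y ∈ T, v y ^ 2 + 2 * ∑ y ∈ T, (v y - κ) ^ 2 := by
            rw [Finset.sum_add_distrib, Finset.mul_sum, Finset.mul_sum]
        _ ≤ _ := by linarith
    have h3 : s ^ d ≤ C2 * (M : ℝ) ^ C2 * T.card := by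
      refine le_trans ?_ hcount
      refine pow_le_pow_left₀ (by positivity) ?_ d
      push_cast
      rw [← hs]
      linarith
    have h4 : κ ^ 2 * s ^ d ≤ C2 * (M : ℝ) ^ C2 *
        (2 * V2 + 2 * (9 * C1 * (M : ℝ) ^ C1 * s ^ 2 * EN)) := by
      calc κ ^ 2 * s ^ d ≤ κ ^ 2 * (C2 * (M : ℝ) ^ C2 * T.card) :=
            mul_le_mul_of_nonneg_left h3 (sq_nonneg _)
        _ = C2 * (M : ℝ) ^ C2 * (κ ^ 2 * T.card) := by ring
        _ ≤ _ := mul_le_mul_of_nonneg_left hκT (by positivity)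
    refine h4.trans ?_
    have h5 : (2 * C2 : ℝ) * (M : ℝ) ^ C2 ≤ C * (M : ℝ) ^ C := by
      refine mul_le_mul ?_ (hmono (by omega)) (by positivity) (by positivity)
      have : 2 * C2 ≤ C := by omega
      exact_mod_cast this
    have h6 : (18 * C1 * C2 : ℝ) * (M : ℝ) ^ (C1 + C2) ≤ C * (M : ℝ) ^ C := by
      refine mul_le_mul ?_ (hmono (by omega)) (by positivity) (by positivity)
      have : 18 * C1 * C2 ≤ C := by omega
      exact_mod_cast this
    have h7 : 0 ≤ s ^ 2 * EN := by positivity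
    calc C2 * (M : ℝ) ^ C2 * (2 * V2 + 2 * (9 * C1 * (M : ℝ) ^ C1 * s ^ 2 * EN))
        = (2 * C2 * (M : ℝ) ^ C2) * V2 + (18 * C1 * C2 * (M : ℝ) ^ (C1 + C2)) * (s ^ 2 * EN) := by
          rw [pow_add]
          ring
      _ ≤ (C * (M : ℝ) ^ C) * V2 + (C * (M : ℝ) ^ C) * (s ^ 2 * EN) :=
          add_le_add (mul_le_mul_of_nonneg_right h5 hV20) (mul_le_mul_of_nonneg_right h6 h7)
      _ = _ := by ring

/-- splitting of a convolution -/
theorem CG2_conv {A M : ℕ} {η : Conf d} {z : Vtx d} {v : Vtx d → ℝ} {κ : ℝ} {x : E d}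
    {g : E d → ℝ}
    (hfar : ∀ y ∈ Lam z (7 * M ^ A), ¬ Far η (6 * M) y → v y = 0)
    (hx : ∀ i, |x i - z i| ≤ (M : ℝ) ^ A) (hg : ∀ w, (M : ℝ) ^ A < ‖w‖ → g w = 0)
    {S : Finset (Vtx d)} (hv : ∀ y, y ∉ S → v y = 0) :
    ∑ y ∈ S, v y * g (x - toE y) =
      κ * ∑ y ∈ (Lam z (4 * M ^ A)).filter (Far η (6 * M)), g (x - toE y) +
        ∑ y ∈ (Lam z (2 * M ^ A)).filter (Far η (6 * M)), (v y - κ) * g (x - toE y) := by
  have hx' : ∀ i, |x i - z i| ≤ ((M ^ A : ℕ) : ℝ) := by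
    intro i; push_cast; exact hx i
  have hg' : ∀ w, ((M ^ A : ℕ) : ℝ) < ‖w‖ → g w = 0 := by
    intro w hw; push_cast at hw; exact hg w hw
  rw [CG4_sum hv hx' hg']
  have h1 : ∑ y ∈ Lam z (2 * M ^ A), v y * g (x - toE y) =
      ∑ y ∈ (Lam z (2 * M ^ A)).filter (Far η (6 * M)), v y * g (x - toE y) := by
    rw [Finset.sum_filter]
    refine Finset.sum_congr rfl fun y hy => ?_
    by_cases h : Far η (6 * M) y
    · rw [if_pos h]
    · rw [if_neg h, hfar y _ h, zero_mul]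
      rw [mem_Lam] at hy ⊢
      omega
  have h2 : ∑ y ∈ (Lam z (4 * M ^ A)).filter (Far η (6 * M)), g (x - toE y) =
      ∑ y ∈ (Lam z (2 * M ^ A)).filter (Far η (6 * M)), g (x - toE y) := by
    symm
    refine Finset.sum_subset ?_ ?_
    · refine Finset.filter_subset_filter _ ?_
      apply Lam_subset
      rw [dst_self]
      omega
    · intro y hy hy'
      rw [Finset.mem_filter] at hy hy'
      have h3 : y ∉ Lam z (2 * M ^ A) := fun h => hy' ⟨h, hy.2⟩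
      exact hg' _ (CG4_far hx' h3)
  rw [h1, h2, Finset.mul_sum, ← Finset.sum_add_distrib]
  exact Finset.sum_congr rfl fun y _ => by ring

theorem CG2_diff {f : E d → ℝ} (hf : ContDiff ℝ (⊤ : ℕ∞) f) (i : Fin d) :
    ContDiff ℝ (⊤ : ℕ∞) (pd i f) := by
  have h1 : ContDiff ℝ (⊤ : ℕ∞) (fderiv ℝ f) := hf.fderiv_right (by simp)
  exact h1.clm_apply contDiff_const

theorem CG2_supp {s : ℝ} (hs : 0 < s) (i : Fin d) {w : E d} (hw : s < ‖w‖) :
    pd i (etas d s) w = 0 := by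
  have h1 : etas d s =ᶠ[nhds w] fun _ => (0 : ℝ) := by
    have h2 : IsOpen {w : E d | s < ‖w‖} := isOpen_lt continuous_const continuous_norm
    filter_upwards [h2.mem_nhds hw] with u hu
    exact etas_support d hs (le_of_lt hu)
  unfold pd
  rw [h1.fderiv_eq]
  simp

theorem CG2_compact {s : ℝ} {g : E d → ℝ} (hg : ∀ w, s < ‖w‖ → g w = 0) :
    HasCompactSupport g := by
  refine HasCompactSupport.of_support_subset_isCompact (K := Metric.closedBall 0 s)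
    (isCompact_closedBall _ _) fun w hw => ?_
  rw [Metric.mem_closedBall, dist_zero_right]
  by_contra h
  exact hw (hg w (not_le.1 h))

theorem CG2_int {s : ℝ} (hs : 0 < s) (i : Fin d) (x : E d) :
    ∫ w, pd i (etas d s) (x - w) = 0 := by
  rw [integral_sub_left_eq_self (fun w => pd i (etas d s) w) volume x]
  have h1 : Integrable (etas d s) :=
    (etas_smooth d s).continuous.integrable_of_hasCompactSupport
      (CG2_compact (s := s) fun w hw => etas_support d hs hw.le)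
  have h2 : Integrable (pd i (etas d s)) :=
    (CG2_diff (etas_smooth d s) i).continuous.integrable_of_hasCompactSupport
      (CG2_compact (s := s) fun w hw => CG2_supp hs i hw)
  have h3 := integral_mul_fderiv_eq_neg_fderiv_mul_of_integrable (μ := (volume : Measure (E d)))
    (f := fun _ => (1 : ℝ)) (g := etas d s) (v := eb i) (by simp)
    (by simp only [one_mul]; exact h2) (by simpa using h1) (fun x _ => differentiableAt_const _)
    (fun x _ => ((etas_smooth d s).differentiable (by simp)) x)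
  simpa [pd] using h3

theorem coarse_grad (d c : ℕ) (hd : 1 ≤ d) : ∃ c' : ℕ, ∀ (A k : ℕ) (CL θ₀ : ℝ), 1 ≤ k → 12 * k ≤ A →
    0 < CL → 0 < θ₀ → ∃ (C : ℝ) (M₁ : ℕ), ∀ (M : ℕ), M₁ ≤ M → ∀ (η : Conf d) (z : Vtx d),
      Grid (M ^ A) z → Loc c CL θ₀ A k η M z → ∀ (S : Finset (Vtx d)) (v : Vtx d → ℝ),
        (∀ y, y ∉ S → v y = 0) → (∀ y ∈ Lam z (7 * M ^ A), ¬ Far η (6 * M) y → v y = 0) →
        ∀ x : E d, (∀ i, |x i - z i| ≤ (M : ℝ) ^ A) → ∀ i,
          pd i (Vc ((M : ℝ) ^ A) S v) x ^ 2 ≤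
            C * (M : ℝ) ^ c' * (((M : ℝ) ^ A) ^ d)⁻¹ *
              (En η (Lam z (4 * M ^ A)) v +
               (((M : ℝ) ^ A) ^ 2 * (M : ℝ) ^ (12 * k))⁻¹ * ∑ y ∈ Lam z (4 * M ^ A), v y ^ 2) := by
  obtain ⟨C0, hC01, hsplit⟩ := CG2_split d hd
  refine ⟨C0, fun A k CL θ₀ hk hA hCL hθ₀ => ?_⟩
  obtain ⟨Ce, hCe, hb⟩ := etas_bounds d
  obtain ⟨C3, M₁, hcs⟩ := count_sum d c hd A k CL θ₀ hk hA hCL hθ₀
  refine ⟨2 * (C3 * (d * Ce)) ^ 2 * C0 + 2 * (5 ^ d * Ce ^ 2) * C0, max M₁ 12, ?_⟩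
  intro M hM η z hz hLoc S v hv hfar x hx i
  have hM₁ : M₁ ≤ M := le_trans (le_max_left _ _) hM
  have hM12 : 12 ≤ M := le_trans (le_max_right _ _) hM
  obtain ⟨a, θ, φ, hL⟩ := hLoc
  obtain ⟨κ, hκ1, hκ2⟩ := hsplit c CL θ₀ A k hk hA M hM12 η z a θ φ hL v
  have hM1 : (1 : ℝ) ≤ M := by
    have : 1 ≤ M := by omega
    exact_mod_cast this
  set s : ℝ := (M : ℝ) ^ A with hs
  have hs1 : 1 ≤ s := one_le_pow₀ hM1
  have hs0 : 0 < s := by linarith
  have hsN : ((M ^ A : ℕ) : ℝ) = s := by push_cast; rfl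
  set EN := En η (Lam z (4 * M ^ A)) v with hENdef
  set V2 := ∑ y ∈ Lam z (4 * M ^ A), v y ^ 2 with hV2
  have hEn0 : 0 ≤ EN := by
    rw [hENdef]
    unfold En
    refine Finset.sum_nonneg fun x _ => Finset.sum_nonneg fun j _ => ?_
    split_ifs <;> positivity
  have hV20 : 0 ≤ V2 := Finset.sum_nonneg fun _ _ => sq_nonneg _
  have hg : ∀ w : E d, s < ‖w‖ → pd i (etas d s) w = 0 := fun w hw => CG2_supp hs0 i hw
  have hsmooth := CG2_diff (etas_smooth d s) i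
  have hd1 : (1 : ℝ) ≤ d := by exact_mod_cast hd
  set Γ : ℝ := d * Ce / s ^ (d + 1) with hΓ
  have hΓ0 : 0 ≤ Γ := by positivity
  have hgB : ∀ w : E d, |pd i (etas d s) w| ≤ Ce / s ^ (d + 1) := fun w => (hb s hs0 w).2.2 i |>.1
  have hΓ1 : Ce / s ^ (d + 1) ≤ Γ := by
    rw [hΓ]
    refine div_le_div_of_nonneg_right ?_ (by positivity)
    nlinarith
  have hsplitV : pd i (Vc s S v) x =
      κ * ∑ y ∈ (Lam z (4 * M ^ A)).filter (Far η (6 * M)), pd i (etas d s) (x - toE y) +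
        ∑ y ∈ (Lam z (2 * M ^ A)).filter (Far η (6 * M)), (v y - κ) * pd i (etas d s) (x - toE y) := by
    rw [(vc_pd s S v x i).1]
    exact CG2_conv hfar hx hg hv
  have hS1 : |∑ y ∈ (Lam z (4 * M ^ A)).filter (Far η (6 * M)), pd i (etas d s) (x - toE y)| ≤
      C3 * Γ * s ^ d / (M : ℝ) ^ (6 * k) := by
    have h1 := hcs M hM₁ η z a θ φ hz hL (fun w => pd i (etas d s) (x - w)) Γ hΓ0
      (fun w => (hgB _).trans hΓ1) (fun w w' => ?_) (fun w hw => ?_)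
    · rw [CG2_int hs0 i x, mul_zero, sub_zero] at h1
      exact h1
    · have h2 := CG2_lip (g := pd i (etas d s)) (hsmooth.differentiable (by simp))
        (B := Ce / s ^ (d + 2)) (by positivity)
        (fun j u => ((hb s hs0 u).2.2 i).2 j |>.1) (x - w) (x - w')
      refine h2.trans (le_of_eq ?_)
      have h3 : ‖x - w - (x - w')‖ = ‖w - w'‖ := by
        rw [← norm_neg]
        congr 1
        abel
      rw [h3, hΓ, ← hs]
      field_simp
      ring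
    · obtain ⟨j, hj⟩ := hw
      apply hg
      have h4 : |(x - w) j| ≤ ‖x - w‖ := by
        have := PiLp.norm_apply_le (x - w) j
        rwa [Real.norm_eq_abs] at this
      have h5 : |w j - z j| ≤ |x j - z j| + |(x - w) j| := by
        have h6 : w j - z j = (x j - z j) - (x - w) j := by
          simp
        rw [h6]
        exact abs_sub _ _
      have h7 := hx j
      linarith
  have hS2 : (∑ y ∈ (Lam z (2 * M ^ A)).filter (Far η (6 * M)),
      (v y - κ) * pd i (etas d s) (x - toE y)) ^ 2 ≤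
        5 ^ d * (Ce / s ^ (d + 1)) ^ 2 * s ^ d * (C0 * (M : ℝ) ^ C0 * s ^ 2 * EN) := by
    have h1 := CG4_cs (s := M ^ A) (Nat.one_le_pow _ _ (by omega)) (z := z)
      (T := (Lam z (2 * M ^ A)).filter (Far η (6 * M))) (Finset.filter_subset _ _)
      (v := fun y => v y - κ) (x := x) hgB
    rw [hsN] at h1
    refine h1.trans ?_
    refine mul_le_mul_of_nonneg_left ?_ (by positivity)
    refine le_trans ?_ hκ1
    refine Finset.sum_le_sum_of_subset_of_nonneg ?_ fun _ _ _ => sq_nonneg _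
    refine Finset.filter_subset_filter _ ?_
    apply Lam_subset
    rw [dst_self]
    omega
  have hk1 : (κ * ∑ y ∈ (Lam z (4 * M ^ A)).filter (Far η (6 * M)),
      pd i (etas d s) (x - toE y)) ^ 2 ≤
        (C3 * (d * Ce)) ^ 2 * C0 * ((M : ℝ) ^ C0 * (s ^ d)⁻¹ *
          (EN + (s ^ 2 * (M : ℝ) ^ (12 * k))⁻¹ * V2)) := by
    rw [mul_pow]
    have h1 : (∑ y ∈ (Lam z (4 * M ^ A)).filter (Far η (6 * M)),
        pd i (etas d s) (x - toE y)) ^ 2 ≤ (C3 * Γ * s ^ d / (M : ℝ) ^ (6 * k)) ^ 2 :=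
      sq_le_sq' (by linarith [neg_le_of_abs_le hS1]) (le_of_abs_le hS1)
    have hMk : (1 : ℝ) ≤ (M : ℝ) ^ (12 * k) := one_le_pow₀ hM1
    calc κ ^ 2 * (∑ y ∈ (Lam z (4 * M ^ A)).filter (Far η (6 * M)),
          pd i (etas d s) (x - toE y)) ^ 2
        ≤ κ ^ 2 * (C3 * Γ * s ^ d / (M : ℝ) ^ (6 * k)) ^ 2 :=
          mul_le_mul_of_nonneg_left h1 (sq_nonneg _)
      _ = (C3 * (d * Ce)) ^ 2 * (s ^ d)⁻¹ * (s ^ 2 * (M : ℝ) ^ (12 * k))⁻¹ * (κ ^ 2 * s ^ d) := by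
          have h2 : (M : ℝ) ^ (12 * k) = ((M : ℝ) ^ (6 * k)) ^ 2 := by
            rw [← pow_mul]; congr 1; ring
          rw [hΓ, h2]
          have : (M : ℝ) ^ (6 * k) ≠ 0 := by positivity
          field_simp
          ring
      _ ≤ (C3 * (d * Ce)) ^ 2 * (s ^ d)⁻¹ * (s ^ 2 * (M : ℝ) ^ (12 * k))⁻¹ *
          (C0 * (M : ℝ) ^ C0 * (V2 + s ^ 2 * EN)) :=
          mul_le_mul_of_nonneg_left hκ2 (by positivity)
      _ = (C3 * (d * Ce)) ^ 2 * C0 * ((M : ℝ) ^ C0 * (s ^ d)⁻¹ *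
          (((M : ℝ) ^ (12 * k))⁻¹ * EN + (s ^ 2 * (M : ℝ) ^ (12 * k))⁻¹ * V2)) := by
          field_simp
          ring
      _ ≤ _ := by
          refine mul_le_mul_of_nonneg_left ?_ (by positivity)
          refine mul_le_mul_of_nonneg_left ?_ (by positivity)
          have h3 : ((M : ℝ) ^ (12 * k))⁻¹ * EN ≤ 1 * EN :=
            mul_le_mul_of_nonneg_right (inv_le_one_of_one_le₀ hMk) hEn0
          linarith
  have hk2 : 5 ^ d * (Ce / s ^ (d + 1)) ^ 2 * s ^ d * (C0 * (M : ℝ) ^ C0 * s ^ 2 * EN) ≤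
      (5 ^ d * Ce ^ 2) * C0 * ((M : ℝ) ^ C0 * (s ^ d)⁻¹ *
          (EN + (s ^ 2 * (M : ℝ) ^ (12 * k))⁻¹ * V2)) := by
    have h1 : 5 ^ d * (Ce / s ^ (d + 1)) ^ 2 * s ^ d * (C0 * (M : ℝ) ^ C0 * s ^ 2 * EN) =
        (5 ^ d * Ce ^ 2) * C0 * ((M : ℝ) ^ C0 * (s ^ d)⁻¹ * EN) := by
      field_simp
      ring
    rw [h1]
    refine mul_le_mul_of_nonneg_left ?_ (by positivity)
    refine mul_le_mul_of_nonneg_left ?_ (by positivity)
    have : 0 ≤ (s ^ 2 * (M : ℝ) ^ (12 * k))⁻¹ * V2 := by positivity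
    linarith
  rw [hsplitV]
  have hfin : ∀ p q : ℝ, (p + q) ^ 2 ≤ 2 * p ^ 2 + 2 * q ^ 2 := fun p q => by
    nlinarith [sq_nonneg (p - q)]
  refine (hfin _ _).trans ?_
  calc 2 * (κ * ∑ y ∈ (Lam z (4 * M ^ A)).filter (Far η (6 * M)),
          pd i (etas d s) (x - toE y)) ^ 2 + 2 * (∑ y ∈ (Lam z (2 * M ^ A)).filter (Far η (6 * M)),
      (v y - κ) * pd i (etas d s) (x - toE y)) ^ 2
      ≤ 2 * ((C3 * (d * Ce)) ^ 2 * C0 * ((M : ℝ) ^ C0 * (s ^ d)⁻¹ *
          (EN + (s ^ 2 * (M : ℝ) ^ (12 * k))⁻¹ * V2))) + 2 * ((5 ^ d * Ce ^ 2) * C0 *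
          ((M : ℝ) ^ C0 * (s ^ d)⁻¹ * (EN + (s ^ 2 * (M : ℝ) ^ (12 * k))⁻¹ * V2))) :=
        add_le_add (mul_le_mul_of_nonneg_left hk1 (by norm_num))
          (mul_le_mul_of_nonneg_left (hS2.trans hk2) (by norm_num))
    _ = _ := by ring

end Pool.Agent.Lib.MP_566bac_pr.Hd
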