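import Pool.Agent.Lib.MP_566bac_pr.Hd.CG2

/-!
# The coarse grained function controls the function
-/

open Finset MeasureTheory ProbabilityTheory Filter
open scoped Classical

namespace Pool.Agent.Lib.MP_566bac_pr.Hd

variable {d : ℕ}

theorem coarse_lower (d c : ℕ) (hd : 1 ≤ d) : ∃ c' : ℕ, ∀ (A k : ℕ) (CL θ₀ : ℝ), 1 ≤ k → 12 * k ≤ A →
    0 < CL → 0 < θ₀ → ∃ (C : ℝ) (M₁ : ℕ), ∀ (M : ℕ), M₁ ≤ M → ∀ (η : Conf d) (z : Vtx d),
      Grid (M ^ A) z → Loc c CL θ₀ A k η M z → ∀ (S : Finset (Vtx d)) (v : Vtx d → ℝ),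
        (∀ y, y ∉ S → v y = 0) → (∀ y ∈ Lam z (7 * M ^ A), ¬ Far η (6 * M) y → v y = 0) →
        ∀ x : E d, (∀ i, |x i - z i| ≤ (M : ℝ) ^ A) →
          ∑ y ∈ (Lam z (4 * M ^ A)).filter (fun y => ∀ i, |x i - y i| ≤ (M : ℝ) ^ A / 2), v y ^ 2 ≤
            C * (((M : ℝ) ^ A) ^ d) * Vc ((M : ℝ) ^ A) S v x ^ 2 +
              C * (M : ℝ) ^ c' * ((M : ℝ) ^ A) ^ 2 * En η (Lam z (4 * M ^ A)) v := by
  obtain ⟨C0, hC01, hsplit⟩ := CG2_split d hd
  refine ⟨C0, fun A k CL θ₀ hk hA hCL hθ₀ => ?_⟩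
  obtain ⟨Ce, hCe, hb⟩ := etas_bounds d
  obtain ⟨C3, M₁, hcs⟩ := count_sum d c hd A k CL θ₀ hk hA hCL hθ₀
  refine ⟨16 * 5 ^ d / θ₀ ^ 2 + (2 * C0 + 16 * (5 ^ d) ^ 2 * Ce ^ 2 * C0 / θ₀ ^ 2),
    max (max M₁ 12) (⌈2 * (|C3| * (d * Ce)) / θ₀⌉₊), ?_⟩
  intro M hM η z hz hLoc S v hv hfar x hx
  have hM₁ : M₁ ≤ M := le_trans (le_trans (le_max_left _ _) (le_max_left _ _)) hM
  have hM12 : 12 ≤ M := le_trans (le_trans (le_max_right _ _) (le_max_left _ _)) hM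
  have hMc : 2 * (|C3| * (d * Ce)) / θ₀ ≤ M :=
    (Nat.le_ceil _).trans (by exact_mod_cast le_trans (le_max_right _ _) hM)
  obtain ⟨a, θ, φ, hL⟩ := hLoc
  obtain ⟨κ, hκ1, hκ2⟩ := hsplit c CL θ₀ A k hk hA M hM12 η z a θ φ hL v
  have hM1 : (1 : ℝ) ≤ M := by
    have : 1 ≤ M := by omega
    exact_mod_cast this
  set s : ℝ := (M : ℝ) ^ A with hs
  have hs1 : 1 ≤ s := one_le_pow₀ hM1
  have hs0 : 0 < s := by linarith
  have hsN : ((M ^ A : ℕ) : ℝ) = s := by push_cast; rfl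
  set EN := En η (Lam z (4 * M ^ A)) v with hENdef
  have hEn0 : 0 ≤ EN := by
    rw [hENdef]
    unfold En
    refine Finset.sum_nonneg fun x _ => Finset.sum_nonneg fun j _ => ?_
    split_ifs <;> positivity
  have hg : ∀ w : E d, s < ‖w‖ → etas d s w = 0 := fun w hw => etas_support d hs0 hw.le
  have hd1 : (1 : ℝ) ≤ d := by exact_mod_cast hd
  set Γ : ℝ := d * Ce / s ^ d with hΓ
  have hΓ0 : 0 ≤ Γ := by positivity
  have hgB : ∀ w : E d, |etas d s w| ≤ Ce / s ^ d := fun w => by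
    rw [abs_of_nonneg (hb s hs0 w).1]
    exact (hb s hs0 w).2.1
  have hΓ1 : Ce / s ^ d ≤ Γ := by
    rw [hΓ]
    refine div_le_div_of_nonneg_right ?_ (by positivity)
    nlinarith
  set S0 := ∑ y ∈ (Lam z (4 * M ^ A)).filter (Far η (6 * M)), etas d s (x - toE y) with hS0
  set R0 := ∑ y ∈ (Lam z (2 * M ^ A)).filter (Far η (6 * M)), (v y - κ) * etas d s (x - toE y)
    with hR0
  have hsplitV : Vc s S v x = κ * S0 + R0 := by
    unfold Vc
    exact CG2_conv hfar hx hg hv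
  have hS1 : |S0 - θ| ≤ C3 * Γ * s ^ d / (M : ℝ) ^ (6 * k) := by
    have h1 := hcs M hM₁ η z a θ φ hz hL (fun w => etas d s (x - w)) Γ hΓ0
      (fun w => (hgB _).trans hΓ1) (fun w w' => ?_) (fun w hw => ?_)
    · rw [integral_sub_left_eq_self (fun w => etas d s w) volume x, etas_integral d hs0,
        mul_one] at h1
      exact h1
    · have h2 := CG2_lip (g := etas d s) ((etas_smooth d s).differentiable (by simp))
        (B := Ce / s ^ (d + 1)) (by positivity)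
        (fun j u => ((hb s hs0 u).2.2 j).1) (x - w) (x - w')
      refine h2.trans (le_of_eq ?_)
      have h3 : ‖x - w - (x - w')‖ = ‖w - w'‖ := by
        rw [← norm_neg]
        congr 1
        abel
      rw [h3, hΓ, ← hs]
      field_simp
      ring
    · obtain ⟨j, hj⟩ := hw
      apply hg
      have h4 : |(x - w) j| ≤ ‖x - w‖ := by
        have := PiLp.norm_apply_le (x - w) j
        rwa [Real.norm_eq_abs] at this
      have h5 : |w j - z j| ≤ |x j - z j| + |(x - w) j| := by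
        have h6 : w j - z j = (x j - z j) - (x - w) j := by
          simp
        rw [h6]
        exact abs_sub _ _
      have h7 := hx j
      linarith
  have hS2 : θ₀ / 2 ≤ S0 := by
    have h1 : C3 * Γ * s ^ d / (M : ℝ) ^ (6 * k) ≤ θ₀ / 2 := by
      have h2 : C3 * Γ * s ^ d = C3 * (d * Ce) := by
        rw [hΓ]
        field_simp
      rw [h2]
      have h3 : (M : ℝ) ≤ (M : ℝ) ^ (6 * k) := by
        calc (M : ℝ) = (M : ℝ) ^ 1 := (pow_one _).symm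
          _ ≤ (M : ℝ) ^ (6 * k) := pow_le_pow_right₀ hM1 (by omega)
      have h4 : 0 < (M : ℝ) := by linarith
      rw [div_le_iff₀ (by positivity)]
      rw [div_le_iff₀ hθ₀] at hMc
      have h5 : C3 * (d * Ce) ≤ |C3| * (d * Ce) :=
        mul_le_mul_of_nonneg_right (le_abs_self _) (by positivity)
      nlinarith
    have h6 := neg_le_of_abs_le hS1
    have h7 := hL.t_low
    linarith
  have hR1 : R0 ^ 2 ≤ 5 ^ d * (Ce / s ^ d) ^ 2 * s ^ d * (C0 * (M : ℝ) ^ C0 * s ^ 2 * EN) := by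
    have h1 := CG4_cs (s := M ^ A) (Nat.one_le_pow _ _ (by omega)) (z := z)
      (T := (Lam z (2 * M ^ A)).filter (Far η (6 * M))) (Finset.filter_subset _ _)
      (v := fun y => v y - κ) (x := x) hgB
    rw [hsN] at h1
    refine h1.trans ?_
    refine mul_le_mul_of_nonneg_left ?_ (by positivity)
    refine le_trans ?_ hκ1
    refine Finset.sum_le_sum_of_subset_of_nonneg ?_ fun _ _ _ => sq_nonneg _
    refine Finset.filter_subset_filter _ ?_
    apply Lam_subset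
    rw [dst_self]
    omega
  have hR2 : R0 ^ 2 ≤ 5 ^ d * Ce ^ 2 * C0 * ((M : ℝ) ^ C0 * s ^ 2 * EN) / s ^ d := by
    refine hR1.trans (le_of_eq ?_)
    field_simp
  have hκ3 : κ ^ 2 ≤ 4 / θ₀ ^ 2 * (2 * Vc s S v x ^ 2 + 2 * R0 ^ 2) := by
    have h1 : (κ * S0) ^ 2 ≤ 2 * Vc s S v x ^ 2 + 2 * R0 ^ 2 := by
      have h2 : κ * S0 = Vc s S v x - R0 := by rw [hsplitV]; ring
      rw [h2]
      nlinarith [sq_nonneg (Vc s S v x + R0)]
    have h3 : κ ^ 2 * (θ₀ / 2) ^ 2 ≤ (κ * S0) ^ 2 := by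
      rw [mul_pow]
      refine mul_le_mul_of_nonneg_left ?_ (sq_nonneg _)
      exact pow_le_pow_left₀ (by positivity) hS2 2
    have h4 : κ ^ 2 = 4 / θ₀ ^ 2 * (κ ^ 2 * (θ₀ / 2) ^ 2) := by
      field_simp
      ring
    rw [h4]
    exact mul_le_mul_of_nonneg_left (h3.trans h1) (by positivity)
  have hκ4 : κ ^ 2 * s ^ d ≤ 8 / θ₀ ^ 2 * (s ^ d * Vc s S v x ^ 2) +
      8 * 5 ^ d * Ce ^ 2 * C0 / θ₀ ^ 2 * ((M : ℝ) ^ C0 * s ^ 2 * EN) := by
    calc κ ^ 2 * s ^ d ≤ 4 / θ₀ ^ 2 * (2 * Vc s S v x ^ 2 +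
          2 * (5 ^ d * Ce ^ 2 * C0 * ((M : ℝ) ^ C0 * s ^ 2 * EN) / s ^ d)) * s ^ d := by
          refine mul_le_mul_of_nonneg_right (hκ3.trans ?_) (by positivity)
          refine mul_le_mul_of_nonneg_left ?_ (by positivity)
          linarith
      _ = _ := by
          field_simp
          ring
  set T := (Lam z (4 * M ^ A)).filter (fun y => ∀ i, |x i - y i| ≤ s / 2) with hT
  have hTsub : T ⊆ Lam z (2 * M ^ A) := by
    intro y hy
    rw [hT, Finset.mem_filter] at hy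
    rw [mem_Lam, BAS_le_iff]
    intro i
    have h1 := hy.2 i
    have h2 := hx i
    have h3 : |(y i : ℝ) - z i| ≤ 2 * s := by
      have h4 : (y i : ℝ) - z i = (x i - z i) - (x i - y i) := by ring
      rw [h4]
      refine (abs_sub _ _).trans ?_
      linarith
    have h5 : (((y i - z i).natAbs : ℕ) : ℝ) ≤ ((2 * M ^ A : ℕ) : ℝ) := by
      rw [Nat.cast_natAbs]
      push_cast
      exact h3
    exact_mod_cast h5
  have hTcard : ((T.filter (Far η (6 * M))).card : ℝ) ≤ 5 ^ d * s ^ d := by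
    have h1 : (T.filter (Far η (6 * M))).card ≤ (2 * (2 * M ^ A) + 1) ^ d := by
      rw [← card_Lam z]
      exact Finset.card_le_card ((Finset.filter_subset _ _).trans hTsub)
    have h2 : ((T.filter (Far η (6 * M))).card : ℝ) ≤ (2 * (2 * s) + 1) ^ d := by
      have : ((T.filter (Far η (6 * M))).card : ℝ) ≤ (((2 * (2 * M ^ A) + 1) ^ d : ℕ) : ℝ) := by
        exact_mod_cast h1
      push_cast at this
      exact this
    refine h2.trans ?_
    rw [← mul_pow]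
    refine pow_le_pow_left₀ (by positivity) ?_ d
    linarith
  have hfin : ∑ y ∈ T, v y ^ 2 ≤ 2 * (C0 * (M : ℝ) ^ C0 * s ^ 2 * EN) +
      2 * (5 ^ d * (κ ^ 2 * s ^ d)) := by
    have h1 : ∑ y ∈ T, v y ^ 2 = ∑ y ∈ T.filter (Far η (6 * M)), v y ^ 2 := by
      refine (Finset.sum_subset (Finset.filter_subset _ _) fun y hy hy' => ?_).symm
      have h : ¬ Far η (6 * M) y := fun h => hy' (Finset.mem_filter.2 ⟨hy, h⟩)
      have h7 : y ∈ Lam z (7 * M ^ A) := by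
        have := hTsub hy
        rw [mem_Lam] at this ⊢
        omega
      rw [hfar y h7 h]
      ring
    rw [h1]
    calc ∑ y ∈ T.filter (Far η (6 * M)), v y ^ 2
        ≤ ∑ y ∈ T.filter (Far η (6 * M)), (2 * (v y - κ) ^ 2 + 2 * κ ^ 2) := by
          refine Finset.sum_le_sum fun y _ => ?_
          nlinarith [sq_nonneg (v y - 2 * κ)]
      _ = 2 * ∑ y ∈ T.filter (Far η (6 * M)), (v y - κ) ^ 2 +
          2 * (((T.filter (Far η (6 * M))).card : ℝ) * κ ^ 2) := by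
          rw [Finset.sum_add_distrib, ← Finset.mul_sum, Finset.sum_const, nsmul_eq_mul]
          ring
      _ ≤ _ := by
          have h2 : ∑ y ∈ T.filter (Far η (6 * M)), (v y - κ) ^ 2 ≤
              C0 * (M : ℝ) ^ C0 * s ^ 2 * EN := by
            refine le_trans ?_ hκ1
            refine Finset.sum_le_sum_of_subset_of_nonneg ?_ fun _ _ _ => sq_nonneg _
            refine Finset.filter_subset_filter _ (hTsub.trans ?_)
            apply Lam_subset
            rw [dst_self]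
            omega
          have h3 := mul_le_mul_of_nonneg_right hTcard (sq_nonneg κ)
          nlinarith
  have hP1 : 0 ≤ s ^ d * Vc s S v x ^ 2 := by positivity
  have hP2 : 0 ≤ (M : ℝ) ^ C0 * s ^ 2 * EN := by positivity
  have hq1 : 0 ≤ 16 * 5 ^ d / θ₀ ^ 2 := by positivity
  have hq2 : 0 ≤ 2 * (C0 : ℝ) + 16 * (5 ^ d) ^ 2 * Ce ^ 2 * C0 / θ₀ ^ 2 := by positivity
  calc ∑ y ∈ T, v y ^ 2 ≤ 2 * (C0 * (M : ℝ) ^ C0 * s ^ 2 * EN) +
      2 * (5 ^ d * (8 / θ₀ ^ 2 * (s ^ d * Vc s S v x ^ 2) +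
      8 * 5 ^ d * Ce ^ 2 * C0 / θ₀ ^ 2 * ((M : ℝ) ^ C0 * s ^ 2 * EN))) := by
        refine hfin.trans ?_
        have := mul_le_mul_of_nonneg_left hκ4 (by positivity : (0 : ℝ) ≤ 5 ^ d)
        linarith
    _ = (16 * 5 ^ d / θ₀ ^ 2) * (s ^ d * Vc s S v x ^ 2) +
        (2 * C0 + 16 * (5 ^ d) ^ 2 * Ce ^ 2 * C0 / θ₀ ^ 2) * ((M : ℝ) ^ C0 * s ^ 2 * EN) := by
        ring
    _ ≤ (16 * 5 ^ d / θ₀ ^ 2 + (2 * C0 + 16 * (5 ^ d) ^ 2 * Ce ^ 2 * C0 / θ₀ ^ 2)) *
          (s ^ d * Vc s S v x ^ 2) +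
        (16 * 5 ^ d / θ₀ ^ 2 + (2 * C0 + 16 * (5 ^ d) ^ 2 * Ce ^ 2 * C0 / θ₀ ^ 2)) *
          ((M : ℝ) ^ C0 * s ^ 2 * EN) :=
        add_le_add (mul_le_mul_of_nonneg_right (by linarith) hP1)
          (mul_le_mul_of_nonneg_right (by linarith) hP2)
    _ = _ := by ring

end Pool.Agent.Lib.MP_566bac_pr.Hd
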