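import Pool.Agent.Lib.MP_566bac_pr.Hd.ET
import Pool.Agent.Lib.MP_566bac_pr.Hd.PO
import Pool.Agent.Lib.MP_566bac_pr.Hd.CF
import Pool.Agent.Lib.MP_566bac_pr.Hd.CS
import Pool.Agent.Lib.MP_566bac_pr.Hd.BAS

/-!
# The coarse grained function is bounded by the average of the function
-/

open Finset MeasureTheory ProbabilityTheory Filter
open scoped Classical

namespace Pool.Agent.Lib.MP_566bac_pr.Hd

variable {d : ℕ}

theorem CG4_coord (x : E d) (y : Vtx d) (i : Fin d) : |x i - (y i : ℝ)| ≤ ‖x - toE y‖ := by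
  have h := PiLp.norm_apply_le (x - toE y) i
  simpa [toE, Real.norm_eq_abs] using h

theorem CG4_far {s : ℕ} {z y : Vtx d} {x : E d} (hx : ∀ i, |x i - z i| ≤ (s : ℝ))
    (hy : y ∉ Lam z (2 * s)) : (s : ℝ) < ‖x - toE y‖ := by
  rw [mem_Lam, BAS_le_iff] at hy
  push Not at hy
  obtain ⟨i, hi⟩ := hy
  have h1 := CG4_coord x y i
  have h2 := hx i
  have h3 : (2 * s : ℝ) < |(y i : ℝ) - z i| := by
    have h4 : ((2 * s : ℕ) : ℝ) < (((y i - z i).natAbs : ℕ) : ℝ) := by exact_mod_cast hi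
    rw [Nat.cast_natAbs] at h4
    push_cast at h4
    exact h4
  have h5 : |(y i : ℝ) - z i| ≤ |x i - z i| + |x i - y i| := by
    have h6 : (y i : ℝ) - z i = (x i - z i) - (x i - y i) := by ring
    rw [h6]
    exact abs_sub _ _
  linarith

/-- only the vertices of a box contribute -/
theorem CG4_sum {s : ℕ} {z : Vtx d} {S : Finset (Vtx d)} {v : Vtx d → ℝ}
    (hv : ∀ y, y ∉ S → v y = 0) {x : E d} (hx : ∀ i, |x i - z i| ≤ (s : ℝ)) {g : E d → ℝ}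
    (hg : ∀ w, (s : ℝ) < ‖w‖ → g w = 0) :
    ∑ y ∈ S, v y * g (x - toE y) = ∑ y ∈ Lam z (2 * s), v y * g (x - toE y) := by
  rw [← Finset.sum_subset (s₁ := S ∩ Lam z (2 * s)) (s₂ := S) Finset.inter_subset_left,
    ← Finset.sum_subset (s₁ := S ∩ Lam z (2 * s)) (s₂ := Lam z (2 * s)) Finset.inter_subset_right]
  · intro y hy hy'
    have h : y ∉ S := fun h => hy' (Finset.mem_inter.2 ⟨h, hy⟩)
    rw [hv y h, zero_mul]
  · intro y hy hy'
    have h : y ∉ Lam z (2 * s) := fun h => hy' (Finset.mem_inter.2 ⟨hy, h⟩)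
    rw [hg _ (CG4_far hx h), mul_zero]

/-- Cauchy-Schwarz on a box -/
theorem CG4_cs {s : ℕ} (hs : 1 ≤ s) {z : Vtx d} {T : Finset (Vtx d)} (hT : T ⊆ Lam z (2 * s))
    {v : Vtx d → ℝ} {x : E d} {g : E d → ℝ} {B : ℝ} (hB : ∀ w, |g w| ≤ B) :
    (∑ y ∈ T, v y * g (x - toE y)) ^ 2 ≤ 5 ^ d * B ^ 2 * (s : ℝ) ^ d * ∑ y ∈ T, v y ^ 2 := by
  have hs' : (1 : ℝ) ≤ s := by exact_mod_cast hs
  have h1 := Finset.sum_mul_sq_le_sq_mul_sq T v (fun y => g (x - toE y))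
  have h2 : ∑ y ∈ T, g (x - toE y) ^ 2 ≤ 5 ^ d * B ^ 2 * (s : ℝ) ^ d := by
    calc ∑ y ∈ T, g (x - toE y) ^ 2 ≤ ∑ _y ∈ T, B ^ 2 := by
          refine Finset.sum_le_sum fun y _ => ?_
          exact sq_le_sq' (by linarith [neg_le_of_abs_le (hB (x - toE y))])
            (le_of_abs_le (hB (x - toE y)))
      _ = T.card * B ^ 2 := by rw [Finset.sum_const, nsmul_eq_mul]
      _ ≤ (5 * s) ^ d * B ^ 2 := by
          refine mul_le_mul_of_nonneg_right ?_ (sq_nonneg B)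
          have h3 : (T.card : ℝ) ≤ ((Lam z (2 * s)).card : ℝ) := by
            exact_mod_cast Finset.card_le_card hT
          refine h3.trans ?_
          rw [card_Lam]
          push_cast
          refine pow_le_pow_left₀ (by positivity) ?_ d
          linarith
      _ = 5 ^ d * B ^ 2 * (s : ℝ) ^ d := by rw [mul_pow]; ring
  have h4 : 0 ≤ ∑ y ∈ T, v y ^ 2 := Finset.sum_nonneg fun _ _ => sq_nonneg _
  nlinarith [mul_le_mul_of_nonneg_left h2 h4]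

theorem coarse_upper (d : ℕ) : ∃ C : ℝ, ∀ (s : ℕ), 1 ≤ s → ∀ (z : Vtx d) (S : Finset (Vtx d))
    (v : Vtx d → ℝ), (∀ y, y ∉ S → v y = 0) → ∀ x : E d, (∀ i, |x i - z i| ≤ (s : ℝ)) →
      Vc (s : ℝ) S v x ^ 2 ≤ C * ((s : ℝ) ^ d)⁻¹ * ∑ y ∈ Lam z (4 * s), v y ^ 2 := by
  obtain ⟨C, hC, hb⟩ := etas_bounds d
  refine ⟨5 ^ d * C ^ 2, fun s hs z S v hv x hx => ?_⟩
  have hs' : (1 : ℝ) ≤ s := by exact_mod_cast hs
  have hs0 : (0 : ℝ) < s := by linarith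
  have hg : ∀ w : E d, (s : ℝ) < ‖w‖ → etas d s w = 0 := fun w hw => etas_support d hs0 hw.le
  have hB : ∀ w : E d, |etas d s w| ≤ C / (s : ℝ) ^ d := fun w => by
    rw [abs_of_nonneg (hb s hs0 w).1]
    exact (hb s hs0 w).2.1
  unfold Vc
  rw [CG4_sum hv hx hg]
  have h1 := CG4_cs hs (T := Lam z (2 * s)) subset_rfl (v := v) (x := x) hB
  refine h1.trans ?_
  have h2 : 5 ^ d * (C / (s : ℝ) ^ d) ^ 2 * (s : ℝ) ^ d = 5 ^ d * C ^ 2 * ((s : ℝ) ^ d)⁻¹ := by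
    field_simp
  rw [h2]
  refine mul_le_mul_of_nonneg_left ?_ (by positivity)
  refine Finset.sum_le_sum_of_subset_of_nonneg ?_ fun _ _ _ => sq_nonneg _
  apply Lam_subset
  rw [dst_self]
  omega

end Pool.Agent.Lib.MP_566bac_pr.Hd
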