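import Pool.Agent.Lib.MP_566bac_pr.Hd.DefsC

/-!
# Quadratic approximation of the weight
-/

open Finset MeasureTheory ProbabilityTheory Filter
open scoped Classical

namespace Pool.Agent.Lib.MP_566bac_pr.Hd

set_option maxSynthPendingDepth 3

variable {d : ℕ}

theorem LI1_norm2 {V : Type*} [NormedAddCommGroup V] [NormedSpace ℝ V] (Φ : V → ℝ) (z : V) :
    ‖fderiv ℝ (fderiv ℝ Φ) z‖ = ‖iteratedFDeriv ℝ 2 Φ z‖ := by
  rw [← norm_iteratedFDeriv_fderiv, norm_iteratedFDeriv_one]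

theorem LI1_norm3 {V : Type*} [NormedAddCommGroup V] [NormedSpace ℝ V] (Φ : V → ℝ) (z : V) :
    ‖fderiv ℝ (fderiv ℝ (fderiv ℝ Φ)) z‖ = ‖iteratedFDeriv ℝ 3 Φ z‖ := by
  rw [← norm_iteratedFDeriv_fderiv, ← norm_iteratedFDeriv_fderiv, norm_iteratedFDeriv_one]

theorem quad_approx (d : ℕ) (ρ C : ℝ) (hρ : 0 < ρ) (hρ1 : ρ < 1) : ∃ C' : ℝ, 0 < C' ∧
    ∀ (c R : ℝ) (Φ : E d → ℝ), 0 < c → Wgt ρ c C R Φ → ∀ x₀ : E d, 2 * R ≤ ‖x₀‖ → 1 ≤ ‖x₀‖ →
      ∃ (l : E d) (Sb : E d →L[ℝ] E d →L[ℝ] ℝ), ‖l‖ = ‖fderiv ℝ Φ x₀‖ ∧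
        ‖l‖ ≤ C' * ‖x₀‖ ^ (ρ - 1) ∧ (∀ x y, Sb x y = Sb y x) ∧ ‖Sb‖ ≤ C' * ‖x₀‖ ^ (ρ - 2) ∧
        (∀ τ : E d, inner ℝ l τ = 0 → c * ‖x₀‖ ^ (ρ - 2) * ‖l‖ ^ 2 * ‖τ‖ ^ 2 ≤
          Sb l l * ‖τ‖ ^ 2 + Sb τ τ * ‖l‖ ^ 2) ∧
        (∀ x, ‖x - x₀‖ ≤ ‖x₀‖ / 2 →
          |Φ x - Φ x₀ - quad l Sb (x - x₀)| ≤ C' * ‖x₀‖ ^ (ρ - 3) * ‖x - x₀‖ ^ 3) ∧
        ∀ x y, ‖x - x₀‖ ≤ ‖x₀‖ / 2 → ‖y - x₀‖ ≤ ‖x₀‖ / 2 →
          |Φ x - Φ y| ≤ C' * ‖x₀‖ ^ (ρ - 1) * ‖x - y‖ := by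
  refine ⟨8 * (|C| + 1), by positivity, ?_⟩
  intro c R Φ hc hW x₀ hR h1
  have hx0 : 0 < ‖x₀‖ := by linarith
  -- the bound on the half ball
  have hbd : ∀ n : ℕ, 1 ≤ n → n ≤ 3 → ∀ z : E d, ‖z - x₀‖ ≤ ‖x₀‖ / 2 →
      ‖iteratedFDeriv ℝ n Φ z‖ ≤ 8 * (|C| + 1) * ‖x₀‖ ^ (ρ - n) := by
    intro n hn1 hn3 z hz
    have hz1 : ‖x₀‖ / 2 ≤ ‖z‖ := by
      have h2 : ‖x₀‖ ≤ ‖z‖ + ‖z - x₀‖ := by
        have h3 : x₀ = z - (z - x₀) := by abel
        calc ‖x₀‖ = ‖z - (z - x₀)‖ := by rw [← h3]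
          _ ≤ ‖z‖ + ‖z - x₀‖ := norm_sub_le _ _
      linarith
    have h2 := hW.deriv z (by linarith) n hn1 hn3
    have hexp : ρ - n ≤ 0 := by
      have : (1 : ℝ) ≤ n := by exact_mod_cast hn1
      linarith
    have h3 : ‖z‖ ^ (ρ - n) ≤ (‖x₀‖ / 2) ^ (ρ - n) :=
      Real.rpow_le_rpow_of_nonpos (by positivity) hz1 hexp
    have h4 : (‖x₀‖ / 2) ^ (ρ - n) ≤ 8 * ‖x₀‖ ^ (ρ - n) := by
      rw [Real.div_rpow hx0.le (by norm_num), div_eq_mul_inv, mul_comm, ← Real.rpow_neg (by norm_num)]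
      refine mul_le_mul_of_nonneg_right ?_ (by positivity)
      calc (2 : ℝ) ^ (-(ρ - n)) ≤ (2 : ℝ) ^ (3 : ℝ) := by
            apply Real.rpow_le_rpow_of_exponent_le (by norm_num)
            have : (n : ℝ) ≤ 3 := by exact_mod_cast hn3
            linarith
        _ = 8 := by norm_num
    have h5 : 0 ≤ ‖z‖ ^ (ρ - n) := by positivity
    calc ‖iteratedFDeriv ℝ n Φ z‖ ≤ C * ‖z‖ ^ (ρ - n) := h2
      _ ≤ (|C| + 1) * ‖z‖ ^ (ρ - n) := by
          refine mul_le_mul_of_nonneg_right ?_ h5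
          linarith [le_abs_self C]
      _ ≤ (|C| + 1) * (8 * ‖x₀‖ ^ (ρ - n)) := by
          refine mul_le_mul_of_nonneg_left (h3.trans h4) (by positivity)
      _ = 8 * (|C| + 1) * ‖x₀‖ ^ (ρ - n) := by ring
  have hself : ‖x₀ - x₀‖ ≤ ‖x₀‖ / 2 := by rw [sub_self, norm_zero]; positivity
  have hsm : ContDiff ℝ 4 Φ := hW.smooth
  have hd1 : ContDiff ℝ 3 (fderiv ℝ Φ) := hsm.fderiv_right (by norm_num)
  have hd2 : ContDiff ℝ 2 (fderiv ℝ (fderiv ℝ Φ)) := hd1.fderiv_right (by norm_num)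
  have hD0 : Differentiable ℝ Φ := hsm.differentiable (by norm_num)
  have hD1 : Differentiable ℝ (fderiv ℝ Φ) := hd1.differentiable (by norm_num)
  have hD2 : Differentiable ℝ (fderiv ℝ (fderiv ℝ Φ)) := hd2.differentiable (by norm_num)
  set l : E d := (InnerProductSpace.toDual ℝ (E d)).symm (fderiv ℝ Φ x₀) with hl
  set Sb := fderiv ℝ (fderiv ℝ Φ) x₀ with hSb
  have hln : ‖l‖ = ‖fderiv ℝ Φ x₀‖ := by rw [hl, LinearIsometryEquiv.norm_map]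
  have hlin : ∀ v, inner ℝ l v = fderiv ℝ Φ x₀ v := by
    intro v
    rw [hl, InnerProductSpace.toDual_symm_apply]
  have hsymm : ∀ x y, Sb x y = Sb y x := by
    intro x y
    have h2 : IsSymmSndFDerivAt ℝ Φ x₀ := hsm.contDiffAt.isSymmSndFDerivAt (by
      simp only [minSmoothness_of_isRCLikeNormedField]
      norm_num)
    exact h2 x y
  have hn1 : ‖fderiv ℝ Φ x₀‖ ≤ 8 * (|C| + 1) * ‖x₀‖ ^ (ρ - 1) := by
    have := hbd 1 le_rfl (by norm_num) x₀ hself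
    rw [norm_iteratedFDeriv_one] at this
    simpa using this
  have hn2 : ‖Sb‖ ≤ 8 * (|C| + 1) * ‖x₀‖ ^ (ρ - 2) := by
    have := hbd 2 (by norm_num) (by norm_num) x₀ hself
    rw [← LI1_norm2] at this
    simpa using this
  have hconvx : Convex ℝ (Metric.closedBall x₀ (‖x₀‖ / 2)) := convex_closedBall _ _
  refine ⟨l, Sb, hln, hln.le.trans hn1, hsymm, hn2, ?_, ?_, ?_⟩
  · intro τ hτ
    by_cases hl0 : l = 0
    · simp [hl0]
    by_cases hτ0 : τ = 0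
    · simp [hτ0]
    have hlp : 0 < ‖l‖ := norm_pos_iff.2 hl0
    have hτp : 0 < ‖τ‖ := norm_pos_iff.2 hτ0
    have h2 := hW.conv x₀ (by linarith) (‖l‖⁻¹ • l) (‖τ‖⁻¹ • τ) (by simp [norm_smul, hlp.ne'])
      (by simp [norm_smul, hτp.ne']) (by rw [real_inner_smul_left, real_inner_smul_right, hτ]; simp)
    rw [iteratedFDeriv_two_apply, iteratedFDeriv_two_apply] at h2
    simp only [Matrix.cons_val_zero, Matrix.cons_val_one, map_smul,
      smul_apply, smul_eq_mul] at h2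
    rw [← hSb] at h2
    have h3 : c * ‖x₀‖ ^ (ρ - 2) * ‖l‖ ^ 2 * ‖τ‖ ^ 2 ≤
        (‖l‖⁻¹ * (‖l‖⁻¹ * Sb l l) + ‖τ‖⁻¹ * (‖τ‖⁻¹ * Sb τ τ)) * ‖l‖ ^ 2 * ‖τ‖ ^ 2 := by
      have h4 : 0 ≤ ‖l‖ ^ 2 * ‖τ‖ ^ 2 := by positivity
      nlinarith [mul_le_mul_of_nonneg_right h2 h4]
    refine h3.trans (le_of_eq ?_)
    field_simp
  · intro x hx
    set r := ‖x - x₀‖ with hr
    have hsub : ∀ z ∈ Metric.closedBall x₀ r, ‖z - x₀‖ ≤ ‖x₀‖ / 2 := by
      intro z hz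
      rw [Metric.mem_closedBall, dist_eq_norm] at hz
      linarith
    have hconv : Convex ℝ (Metric.closedBall x₀ r) := convex_closedBall _ _
    have hx₀mem : x₀ ∈ Metric.closedBall x₀ r := Metric.mem_closedBall_self (norm_nonneg _)
    have hxmem : x ∈ Metric.closedBall x₀ r := by rw [Metric.mem_closedBall, dist_eq_norm]
    set K := 8 * (|C| + 1) * ‖x₀‖ ^ (ρ - 3) with hK
    have hK0 : 0 ≤ K := by positivity
    have hr0 : 0 ≤ r := norm_nonneg _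
    have s1 : ∀ z ∈ Metric.closedBall x₀ r, ‖fderiv ℝ (fderiv ℝ Φ) z - Sb‖ ≤ K * r := by
      intro z hz
      have h2 := hconv.norm_image_sub_le_of_norm_fderiv_le (𝕜 := ℝ)
        (f := fderiv ℝ (fderiv ℝ Φ)) (C := K)
        (fun y _ => hD2 y) (fun y hy => by
          rw [LI1_norm3]
          have := hbd 3 (by norm_num) le_rfl y (hsub y hy)
          simpa using this) hx₀mem hz
      refine h2.trans (mul_le_mul_of_nonneg_left ?_ hK0)
      rwa [Metric.mem_closedBall, dist_eq_norm] at hz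
    have s2 : ∀ z ∈ Metric.closedBall x₀ r,
        ‖fderiv ℝ Φ z - fderiv ℝ Φ x₀ - Sb (z - x₀)‖ ≤ K * r * r := by
      intro z hz
      have h2 := hconv.norm_image_sub_le_of_norm_fderiv_le' (𝕜 := ℝ)
        (f := fderiv ℝ Φ) (φ := Sb) (C := K * r)
        (fun y _ => hD1 y) (fun y hy => s1 y hy) hx₀mem hz
      refine h2.trans (mul_le_mul_of_nonneg_left ?_ (by positivity))
      rwa [Metric.mem_closedBall, dist_eq_norm] at hz
    have hF : ∀ z : E d, HasFDerivAt (fun y => Φ y - Φ x₀ - quad l Sb (y - x₀))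
        (fderiv ℝ Φ z - fderiv ℝ Φ x₀ - Sb (z - x₀)) z := by
      intro z
      have e1 : HasFDerivAt (fun y : E d => y - x₀) (ContinuousLinearMap.id ℝ (E d)) z :=
        (hasFDerivAt_id z).sub_const x₀
      have e2 : HasFDerivAt (fun y : E d => fderiv ℝ Φ x₀ (y - x₀))
          ((fderiv ℝ Φ x₀).comp (ContinuousLinearMap.id ℝ (E d))) z :=
        (fderiv ℝ Φ x₀).hasFDerivAt.comp z e1
      have e3 : HasFDerivAt (fun y : E d => Sb (y - x₀) (y - x₀))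
          ((Sb (z - x₀)).comp (ContinuousLinearMap.id ℝ (E d)) +
            (Sb.comp (ContinuousLinearMap.id ℝ (E d))).flip (z - x₀)) z := by
        have := (Sb.hasFDerivAt.comp z e1).clm_apply e1
        exact this
      have e4 := (((hD0 z).hasFDerivAt.sub_const (Φ x₀)).sub (e2.add (e3.mul_const (2 : ℝ)⁻¹)))
      have e5 : (fun y => Φ y - Φ x₀ - quad l Sb (y - x₀)) =
          fun y => Φ y - Φ x₀ - (fderiv ℝ Φ x₀ (y - x₀) + Sb (y - x₀) (y - x₀) * 2⁻¹) := by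
        funext y
        simp only [quad, hlin, div_eq_mul_inv]
      rw [e5]
      refine HasFDerivAt.congr_fderiv e4 ?_
      apply ContinuousLinearMap.ext
      intro v
      simp only [sub_apply, add_apply, smul_apply, ContinuousLinearMap.comp_apply,
        ContinuousLinearMap.id_apply, ContinuousLinearMap.flip_apply, smul_eq_mul]
      rw [hsymm v (z - x₀)]
      ring
    have s3 := hconv.norm_image_sub_le_of_norm_hasFDerivWithin_le (𝕜 := ℝ)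
      (f := fun y => Φ y - Φ x₀ - quad l Sb (y - x₀)) (C := K * r * r)
      (fun y _ => (hF y).hasFDerivWithinAt) (fun y hy => s2 y hy) hx₀mem hxmem
    have s4 : quad l Sb 0 = 0 := by simp [quad]
    simp only [sub_self, s4, sub_zero] at s3
    rw [Real.norm_eq_abs] at s3
    refine s3.trans (le_of_eq ?_)
    rw [← hr]
    ring
  · intro x y hx hy
    have h2 := hconvx.norm_image_sub_le_of_norm_fderiv_le (𝕜 := ℝ) (f := Φ)
      (C := 8 * (|C| + 1) * ‖x₀‖ ^ (ρ - 1)) (fun z _ => hD0 z) (fun z hz => by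
        rw [Metric.mem_closedBall, dist_eq_norm] at hz
        have := hbd 1 le_rfl (by norm_num) z hz
        rw [norm_iteratedFDeriv_one] at this
        simpa using this) (x := y) (y := x) (by rw [Metric.mem_closedBall, dist_eq_norm]; exact hy)
        (by rw [Metric.mem_closedBall, dist_eq_norm]; exact hx)
    exact h2

end Pool.Agent.Lib.MP_566bac_pr.Hd
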