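import Pool.Agent.Lib.MP_566bac_pr.Hd.DefsC

/-!
# Comparison of integrals and sums
-/

open Finset MeasureTheory ProbabilityTheory Filter
open scoped Classical

namespace Pool.Agent.Lib.MP_566bac_pr.Hd

variable {d : ℕ}

/-- the box of half side `r` around `y` -/
def LI3_box (y : Vtx d) (r : ℝ) : Set (E d) := {x | ∀ i, |x i - y i| ≤ r}

theorem LI3_box_eq (y : Vtx d) (r : ℝ) : LI3_box y r = (@WithLp.ofLp 2 (Fin d → ℝ)) ⁻¹'
    (Set.Icc (fun i => (y i : ℝ) - r) (fun i => (y i : ℝ) + r)) := by
  ext x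
  simp only [LI3_box, Set.mem_ofPred_eq, Set.mem_preimage, Set.mem_Icc, Pi.le_def]
  constructor
  · intro h
    exact ⟨fun i => by linarith [(abs_le.1 (h i)).1], fun i => by linarith [(abs_le.1 (h i)).2]⟩
  · rintro ⟨h1, h2⟩ i
    exact abs_le.2 ⟨by linarith [h1 i], by linarith [h2 i]⟩

theorem LI3_box_meas (y : Vtx d) (r : ℝ) : MeasurableSet (LI3_box y r) := by
  rw [LI3_box_eq]
  exact measurableSet_Icc.preimage (PiLp.volume_preserving_ofLp (Fin d)).measurable

theorem LI3_box_volume (y : Vtx d) {r : ℝ} (hr : 0 ≤ r) :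
    volume.real (LI3_box y r) = (2 * r) ^ d := by
  rw [measureReal_def, LI3_box_eq,
    (PiLp.volume_preserving_ofLp (Fin d)).measure_preimage measurableSet_Icc.nullMeasurableSet,
    Real.volume_Icc_pi_toReal (fun i => by simp only; linarith)]
  simp only [add_sub_sub_cancel, Finset.prod_const, Finset.card_univ, Fintype.card_fin]
  congr 1
  ring

theorem LI3_box_finite (y : Vtx d) (r : ℝ) : volume (LI3_box y r) ≠ ⊤ := by
  rw [LI3_box_eq,
    (PiLp.volume_preserving_ofLp (Fin d)).measure_preimage measurableSet_Icc.nullMeasurableSet]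
  exact (isCompact_Icc.measure_lt_top).ne

theorem LI3_norm (x : E d) (y : Vtx d) {r : ℝ} (h : ∀ i, |x i - y i| ≤ r) :
    ‖x - toE y‖ ≤ d * r := by
  have h1 : ‖x - toE y‖ ≤ ∑ i, |x i - y i| := by
    rw [EuclideanSpace.norm_eq]
    apply Real.sqrt_le_iff.2
    refine ⟨Finset.sum_nonneg fun _ _ => abs_nonneg _, ?_⟩
    have h2 : ∀ i, ‖(x - toE y) i‖ = |x i - y i| := fun i => by simp [toE]
    simp only [h2]
    exact Finset.sum_sq_le_sq_sum_of_nonneg fun i _ => abs_nonneg _
  refine h1.trans ((Finset.sum_le_sum fun i _ => h i).trans ?_)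
  simp

theorem int_sum (d : ℕ) : ∃ C : ℝ, 0 < C ∧ ∀ (s T : ℝ), 1 ≤ s → 0 < T → ∀ (x₀ : E d)
    (ω : E d → ℝ), Continuous ω → (∀ x, 0 ≤ ω x) →
    (∀ x y, ‖x - x₀‖ ≤ T → (∀ i, |x i - y i| ≤ 5 * s) → ω x ≤ 10 * ω y) →
    ∀ (S : Finset (Vtx d)) (a : Vtx d → ℝ), (∀ y, 0 ≤ a y) →
      ∫ x in Metric.closedBall x₀ T, ω x * ∑ y ∈ S.filter (fun y => ∀ i, |x i - y i| ≤ 5 * s), a y ≤
        C * s ^ d * ∑ y ∈ S.filter (fun y => ‖toE y - x₀‖ ≤ T + 5 * s * d), ω (toE y) * a y := by
  refine ⟨10 * 10 ^ d, by positivity, ?_⟩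
  intro s T hs hT x₀ ω hω hω0 hslow S a ha
  rw [← integral_indicator Metric.isClosed_closedBall.measurableSet]
  set S' := S.filter (fun y => ‖toE y - x₀‖ ≤ T + 5 * s * d) with hS'
  have hle : ∀ x : E d, (Metric.closedBall x₀ T).indicator
      (fun x => ω x * ∑ y ∈ S.filter (fun y => ∀ i, |x i - y i| ≤ 5 * s), a y) x ≤
      ∑ y ∈ S', (LI3_box y (5 * s)).indicator (fun _ => 10 * (ω (toE y) * a y)) x := by
    intro x
    have hnn : 0 ≤ ∑ y ∈ S', (LI3_box y (5 * s)).indicator
        (fun _ => 10 * (ω (toE y) * a y)) x :=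
      Finset.sum_nonneg fun y _ => Set.indicator_nonneg (fun _ _ => by
        have := hω0 (toE y); have := ha y; positivity) _
    by_cases hx : x ∈ Metric.closedBall x₀ T
    · rw [Set.indicator_of_mem hx]
      rw [Metric.mem_closedBall, dist_eq_norm] at hx
      rw [Finset.mul_sum, Finset.sum_filter, hS', Finset.sum_filter]
      refine Finset.sum_le_sum fun y _ => ?_
      by_cases h1 : ∀ i, |x i - y i| ≤ 5 * s
      · have h2 : x ∈ LI3_box y (5 * s) := h1
        have h3 : ‖toE y - x₀‖ ≤ T + 5 * s * d := by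
          have h4 : toE y - x₀ = (x - x₀) - (x - toE y) := by abel
          rw [h4]
          refine (norm_sub_le _ _).trans ?_
          have := LI3_norm x y h1
          linarith
        rw [if_pos h1, if_pos h3, Set.indicator_of_mem h2]
        have h5 := hslow x (toE y) hx (fun i => by simpa [toE] using h1 i)
        have := ha y
        nlinarith
      · rw [if_neg h1]
        split_ifs
        · exact Set.indicator_nonneg (fun _ _ => by
            have := hω0 (toE y); have := ha y; positivity) _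
        · exact le_rfl
    · rw [Set.indicator_of_notMem hx]
      exact hnn
  have hint : ∀ y ∈ S', Integrable
      ((LI3_box y (5 * s)).indicator (fun _ : E d => 10 * (ω (toE y) * a y))) volume := by
    intro y _
    rw [integrable_indicator_iff (LI3_box_meas y _)]
    exact integrableOn_const (LI3_box_finite y _)
  have h1 := integral_mono_of_nonneg (μ := volume)
    (f := (Metric.closedBall x₀ T).indicator
      (fun x => ω x * ∑ y ∈ S.filter (fun y => ∀ i, |x i - y i| ≤ 5 * s), a y))
    (g := fun x => ∑ y ∈ S', (LI3_box y (5 * s)).indicator (fun _ => 10 * (ω (toE y) * a y)) x)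
    (Eventually.of_forall fun x => Set.indicator_nonneg (fun z _ =>
      mul_nonneg (hω0 z) (Finset.sum_nonneg fun y _ => ha y)) _)
    (integrable_finset_sum _ hint) (Eventually.of_forall hle)
  refine h1.trans (le_of_eq ?_)
  rw [integral_finset_sum _ hint, Finset.mul_sum]
  refine Finset.sum_congr rfl fun y _ => ?_
  rw [integral_indicator (LI3_box_meas y _), setIntegral_const, LI3_box_volume y (by positivity),
    smul_eq_mul]
  have : (2 * (5 * s)) ^ d = 10 ^ d * s ^ d := by rw [← mul_pow]; congr 1; ring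
  rw [this]
  ring

theorem sum_int (d : ℕ) : ∃ C : ℝ, 0 < C ∧ ∀ (s T : ℝ), 1 ≤ s → d * s ≤ T → ∀ (x₀ : E d)
    (ω : E d → ℝ), Continuous ω → (∀ x, 0 ≤ ω x) →
    (∀ x y, ‖x - x₀‖ ≤ T → (∀ i, |x i - y i| ≤ 5 * s) → ω y ≤ 10 * ω x) →
    ∀ (S : Finset (Vtx d)) (a : Vtx d → ℝ), (∀ y, 0 ≤ a y) →
      s ^ d * ∑ y ∈ S.filter (fun y => ‖toE y - x₀‖ ≤ T / 2), ω (toE y) * a y ≤
        C * ∫ x in Metric.closedBall x₀ T,
          ω x * ∑ y ∈ S.filter (fun y => ∀ i, |x i - y i| ≤ s / 2), a y := by
  refine ⟨10, by norm_num, ?_⟩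
  intro s T hs hT x₀ ω hω hω0 hslow S a ha
  have hmeas : MeasurableSet (Metric.closedBall x₀ T) := Metric.isClosed_closedBall.measurableSet
  rw [← integral_indicator hmeas]
  set S' := S.filter (fun y => ‖toE y - x₀‖ ≤ T / 2) with hS'
  have hωB : IntegrableOn ω (Metric.closedBall x₀ T) volume :=
    hω.continuousOn.integrableOn_compact (isCompact_closedBall _ _)
  have hfeq : (Metric.closedBall x₀ T).indicator
      (fun x => ω x * ∑ y ∈ S.filter (fun y => ∀ i, |x i - y i| ≤ s / 2), a y) =
      fun x => ∑ y ∈ S, (LI3_box y (s / 2)).indicator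
        ((Metric.closedBall x₀ T).indicator fun x => ω x * a y) x := by
    funext x
    by_cases hx : x ∈ Metric.closedBall x₀ T
    · rw [Set.indicator_of_mem hx, Finset.mul_sum, Finset.sum_filter]
      refine Finset.sum_congr rfl fun y _ => ?_
      by_cases h1 : ∀ i, |x i - y i| ≤ s / 2
      · have h2 : x ∈ LI3_box y (s / 2) := h1
        rw [if_pos h1, Set.indicator_of_mem h2, Set.indicator_of_mem hx]
      · have h2 : x ∉ LI3_box y (s / 2) := h1
        rw [if_neg h1, Set.indicator_of_notMem h2]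
    · rw [Set.indicator_of_notMem hx]
      symm
      refine Finset.sum_eq_zero fun y _ => ?_
      by_cases h2 : x ∈ LI3_box y (s / 2)
      · rw [Set.indicator_of_mem h2, Set.indicator_of_notMem hx]
      · rw [Set.indicator_of_notMem h2]
  have hfi : Integrable ((Metric.closedBall x₀ T).indicator
      (fun x => ω x * ∑ y ∈ S.filter (fun y => ∀ i, |x i - y i| ≤ s / 2), a y)) volume := by
    rw [hfeq]
    refine integrable_finset_sum _ fun y _ => ?_
    refine Integrable.indicator ?_ (LI3_box_meas y _)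
    rw [integrable_indicator_iff hmeas]
    exact hωB.mul_const _
  have hle : ∀ x : E d, ∑ y ∈ S', (LI3_box y (s / 2)).indicator
      (fun _ => (1 / 10 : ℝ) * (ω (toE y) * a y)) x ≤ (Metric.closedBall x₀ T).indicator
      (fun x => ω x * ∑ y ∈ S.filter (fun y => ∀ i, |x i - y i| ≤ s / 2), a y) x := by
    intro x
    rw [hfeq]
    simp only
    rw [hS', Finset.sum_filter]
    refine Finset.sum_le_sum fun y _ => ?_
    have hnn : 0 ≤ (LI3_box y (s / 2)).indicator
        ((Metric.closedBall x₀ T).indicator fun x => ω x * a y) x :=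
      Set.indicator_nonneg (fun z _ => Set.indicator_nonneg
        (fun z _ => mul_nonneg (hω0 z) (ha y)) _) _
    split_ifs with h1
    · by_cases h2 : x ∈ LI3_box y (s / 2)
      · have h3 := LI3_norm x y h2
        have h4 : ‖x - x₀‖ ≤ T := by
          have h5 : x - x₀ = (x - toE y) + (toE y - x₀) := by abel
          rw [h5]
          refine (norm_add_le _ _).trans ?_
          nlinarith
        have hx : x ∈ Metric.closedBall x₀ T := by
          rw [Metric.mem_closedBall, dist_eq_norm]; exact h4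
        rw [Set.indicator_of_mem h2, Set.indicator_of_mem h2, Set.indicator_of_mem hx]
        have h6 := hslow x (toE y) h4 (fun i => by
          have h7 := h2 i
          simp only [toE]
          linarith)
        have := ha y
        nlinarith
      · rw [Set.indicator_of_notMem h2]
        exact hnn
    · exact hnn
  have hint : ∀ y ∈ S', Integrable
      ((LI3_box y (s / 2)).indicator (fun _ : E d => (1 / 10 : ℝ) * (ω (toE y) * a y))) volume := by
    intro y _
    rw [integrable_indicator_iff (LI3_box_meas y _)]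
    exact integrableOn_const (LI3_box_finite y _)
  have h1 := integral_mono (μ := volume) (integrable_finset_sum _ hint) hfi hle
  rw [integral_finset_sum _ hint] at h1
  have h2 : s ^ d * ∑ y ∈ S', ω (toE y) * a y = 10 * ∑ y ∈ S',
      ∫ x, (LI3_box y (s / 2)).indicator (fun _ : E d => (1 / 10 : ℝ) * (ω (toE y) * a y)) x := by
    rw [Finset.mul_sum, Finset.mul_sum]
    refine Finset.sum_congr rfl fun y _ => ?_
    rw [integral_indicator (LI3_box_meas y _), setIntegral_const,
      LI3_box_volume y (by positivity), smul_eq_mul]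
    have : (2 * (s / 2)) ^ d = s ^ d := by congr 1; ring
    rw [this]
    ring
  rw [h2]
  exact mul_le_mul_of_nonneg_left h1 (by norm_num)

end Pool.Agent.Lib.MP_566bac_pr.Hd
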