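import Pool.Agent.Lib.MP_566bac_pr.Hd.CM2

/-!
# The Carleman inequality with a cutoff
-/

open Finset MeasureTheory ProbabilityTheory Filter
open scoped Classical

namespace Pool.Agent.Lib.MP_566bac_pr.Hd

variable {d : ℕ}

theorem li4_lapl_zero {U : E d → ℝ} {x₀ : E d} {t : ℝ} (hU : ∀ x, t ≤ ‖x - x₀‖ → U x = 0)
    {x : E d} (hx : x ∉ Metric.closedBall x₀ t) : lapl U x = 0 := by
  have hts : tsupport U ⊆ Metric.closedBall x₀ t := by
    refine closure_minimal ?_ Metric.isClosed_closedBall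
    intro y hy
    by_contra h1
    rw [mem_closedBall_iff_norm, not_le] at h1
    exact hy (hU y h1.le)
  unfold lapl
  refine Finset.sum_eq_zero fun i _ => ?_
  have h1 : tsupport (pd i U) ⊆ tsupport U := tsupport_fderiv_apply_subset ℝ (eb i)
  have h2 : tsupport (pd i (pd i U)) ⊆ tsupport (pd i U) := tsupport_fderiv_apply_subset ℝ (eb i)
  exact image_eq_zero_of_notMem_tsupport fun h => hx (hts (h1 (h2 h)))

theorem carleman_cut (d : ℕ) (c₀ Γ : ℝ) (hc : 0 < c₀) (hc1 : c₀ ≤ 1) (hΓ : 1 ≤ Γ) :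
    ∃ ε₁ C : ℝ, 0 < ε₁ ∧ 0 < C ∧ ∀ (Sb : E d →L[ℝ] E d →L[ℝ] ℝ) (l : E d) (σ t : ℝ), 0 < σ → 0 < t →
      (∀ x y, Sb x y = Sb y x) → ‖Sb‖ ≤ Γ * σ →
      (∀ τ : E d, inner ℝ l τ = 0 → c₀ * σ * ‖l‖ ^ 2 * ‖τ‖ ^ 2 ≤
        Sb l l * ‖τ‖ ^ 2 + Sb τ τ * ‖l‖ ^ 2) →
      Γ * σ * (2 * t) ≤ ε₁ * ‖l‖ → σ ≤ ε₁ * ‖l‖ ^ 2 →
      ∀ (x₀ : E d) (V : E d → ℝ), ContDiff ℝ 4 V →
        σ * ‖l‖ ^ 2 * ∫ x in Metric.closedBall x₀ t, Real.exp (2 * quad l Sb (x - x₀)) * V x ^ 2 ≤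
          C * ∫ x in Metric.closedBall x₀ (2 * t), Real.exp (2 * quad l Sb (x - x₀)) *
            (lapl V x ^ 2 + (t ^ 2)⁻¹ * ∑ i, pd i V x ^ 2 + (t ^ 4)⁻¹ * V x ^ 2) := by
  obtain ⟨ε₁, hε₁, hcar⟩ := carleman d c₀ Γ hc hc1 hΓ
  obtain ⟨K, hK, hcut⟩ := cutoff d
  set C2 : ℝ := 3 * (1 + 4 * d * K ^ 2 + K ^ 2) with hC2
  have hC2p : 0 < C2 := by positivity
  refine ⟨ε₁, 16 / c₀ * C2, hε₁, by positivity, ?_⟩
  intro Sb l σ t hσ ht hS hSn h hst hσl x₀ V hV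
  obtain ⟨ζ, hζ, hζ01, hζ1, hζ0, hζp, hζl⟩ := hcut t x₀ ht
  have hζ4 : ContDiff ℝ 4 ζ := by exact_mod_cast contDiff_infty.1 hζ 4
  set U : E d → ℝ := fun x => ζ x * V x with hU
  have cU : ContDiff ℝ 4 U := hζ4.mul hV
  have hU0 : ∀ x, 2 * t ≤ ‖x - x₀‖ → U x = 0 := by
    intro x hx
    simp only [hU]
    rw [hζ0 x hx, zero_mul]
  have h1 := hcar Sb l σ (2 * t) hσ (by linarith) hS hSn h hst hσl x₀ U cU hU0
  have ce : Continuous fun x : E d => Real.exp (2 * quad l Sb (x - x₀)) := by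
    have := (cm2_quad_contDiff Sb l x₀).continuous
    exact Real.continuous_exp.comp (continuous_const.mul this)
  have clap : ∀ {f : E d → ℝ}, ContDiff ℝ 4 f → Continuous (lapl f) := by
    intro f hf
    unfold lapl
    refine continuous_finsetSum _ fun i _ => ?_
    exact (li2_pd_contDiff (m := 2) (li2_pd_contDiff (m := 3) hf (by norm_num) i)
      (by norm_num) i).continuous
  have cpd : ∀ i, Continuous (pd i V) := fun i =>
    (li2_pd_contDiff (m := 3) hV (by norm_num) i).continuous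
  -- left side
  have i1 : Integrable fun x => Real.exp (2 * quad l Sb (x - x₀)) * U x ^ 2 := by
    refine (ce.mul (cU.continuous.pow 2)).integrable_of_hasCompactSupport
      (HasCompactSupport.intro (isCompact_closedBall x₀ (2 * t)) fun x hx => ?_)
    rw [mem_closedBall_iff_norm, not_le] at hx
    change Real.exp _ * U x ^ 2 = 0
    rw [hU0 x hx.le]
    simp
  have h2 : ∫ x in Metric.closedBall x₀ t, Real.exp (2 * quad l Sb (x - x₀)) * V x ^ 2 ≤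
      ∫ x, Real.exp (2 * quad l Sb (x - x₀)) * U x ^ 2 := by
    have h3 : ∫ x in Metric.closedBall x₀ t, Real.exp (2 * quad l Sb (x - x₀)) * V x ^ 2 =
        ∫ x in Metric.closedBall x₀ t, Real.exp (2 * quad l Sb (x - x₀)) * U x ^ 2 := by
      refine setIntegral_congr_fun Metric.isClosed_closedBall.measurableSet fun x hx => ?_
      rw [mem_closedBall_iff_norm] at hx
      simp only [hU]
      rw [hζ1 x hx, one_mul]
    rw [h3]
    exact setIntegral_le_integral i1 (Eventually.of_forall fun x => by positivity)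
  -- right side
  have h4 : ∫ x, Real.exp (2 * quad l Sb (x - x₀)) * lapl U x ^ 2 =
      ∫ x in Metric.closedBall x₀ (2 * t), Real.exp (2 * quad l Sb (x - x₀)) * lapl U x ^ 2 := by
    refine (setIntegral_eq_integral_of_forall_compl_eq_zero fun x hx => ?_).symm
    rw [li4_lapl_zero hU0 hx]
    simp
  have h5 : ∀ x, lapl U x ^ 2 ≤ C2 *
      (lapl V x ^ 2 + (t ^ 2)⁻¹ * ∑ i, pd i V x ^ 2 + (t ^ 4)⁻¹ * V x ^ 2) := by
    intro x
    have e1 : lapl U x = ζ x * lapl V x + 2 * ∑ i, pd i ζ x * pd i V x + V x * lapl ζ x :=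
      lapl_mul hζ4 hV x
    have e2 : (∑ i, pd i ζ x * pd i V x) ^ 2 ≤ (d * (K / t) ^ 2) * ∑ i, pd i V x ^ 2 := by
      refine (Finset.sum_mul_sq_le_sq_mul_sq _ _ _).trans ?_
      apply mul_le_mul_of_nonneg_right _ (Finset.sum_nonneg fun i _ => sq_nonneg _)
      have e3 : ∀ i : Fin d, pd i ζ x ^ 2 ≤ (K / t) ^ 2 := by
        intro i
        rw [← sq_abs]
        exact pow_le_pow_left₀ (abs_nonneg _) (hζp x i) 2
      refine (Finset.sum_le_sum fun i _ => e3 i).trans ?_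
      simp
    have e4 : (ζ x * lapl V x) ^ 2 ≤ lapl V x ^ 2 := by
      rw [mul_pow]
      have : ζ x ^ 2 ≤ 1 := pow_le_one₀ (hζ01 x).1 (hζ01 x).2
      exact mul_le_of_le_one_left (sq_nonneg _) this
    have e5 : (V x * lapl ζ x) ^ 2 ≤ V x ^ 2 * (K / t ^ 2) ^ 2 := by
      rw [mul_pow]
      apply mul_le_mul_of_nonneg_left _ (sq_nonneg _)
      rw [← sq_abs]
      exact pow_le_pow_left₀ (abs_nonneg _) (hζl x) 2
    have e6 : ∀ a b c : ℝ, (a + 2 * b + c) ^ 2 ≤ 3 * (a ^ 2 + 4 * b ^ 2 + c ^ 2) := by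
      intro a b c
      have h1 := sq_nonneg (a - 2 * b)
      have h2 := sq_nonneg (a - c)
      have h3 := sq_nonneg (2 * b - c)
      nlinarith only [h1, h2, h3]
    rw [e1]
    refine (e6 _ _ _).trans ?_
    set v1 := lapl V x ^ 2 with hv1
    set v2 := ∑ i, pd i V x ^ 2 with hv2
    set v3 := V x ^ 2 with hv3
    have n1 : 0 ≤ v1 := sq_nonneg _
    have n2 : 0 ≤ v2 := Finset.sum_nonneg fun i _ => sq_nonneg _
    have n3 : 0 ≤ v3 := sq_nonneg _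
    have e7 : (K / t) ^ 2 = K ^ 2 * (t ^ 2)⁻¹ := by
      field_simp
    have e8 : (K / t ^ 2) ^ 2 = K ^ 2 * (t ^ 4)⁻¹ := by
      field_simp
    rw [e7] at e2
    rw [e8] at e5
    have m2 : 0 ≤ (t ^ 2)⁻¹ * v2 := by positivity
    have m3 : 0 ≤ (t ^ 4)⁻¹ * v3 := by positivity
    have hK2 : 0 ≤ K ^ 2 := sq_nonneg K
    have hd : (0 : ℝ) ≤ d := Nat.cast_nonneg d
    have p1 : (ζ x * lapl V x) ^ 2 ≤ (1 + 4 * d * K ^ 2 + K ^ 2) * v1 := by
      have : 1 * v1 ≤ (1 + 4 * d * K ^ 2 + K ^ 2) * v1 := by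
        apply mul_le_mul_of_nonneg_right _ n1
        have : 0 ≤ 4 * d * K ^ 2 := by positivity
        linarith
      linarith
    have p2 : 4 * (∑ i, pd i ζ x * pd i V x) ^ 2 ≤
        (1 + 4 * d * K ^ 2 + K ^ 2) * ((t ^ 2)⁻¹ * v2) := by
      have q1 : 4 * d * K ^ 2 * ((t ^ 2)⁻¹ * v2) ≤
          (1 + 4 * d * K ^ 2 + K ^ 2) * ((t ^ 2)⁻¹ * v2) := by
        apply mul_le_mul_of_nonneg_right _ m2
        linarith
      have q2 : 4 * (d * (K ^ 2 * (t ^ 2)⁻¹) * v2) = 4 * d * K ^ 2 * ((t ^ 2)⁻¹ * v2) := by ring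
      linarith
    have p3 : (V x * lapl ζ x) ^ 2 ≤ (1 + 4 * d * K ^ 2 + K ^ 2) * ((t ^ 4)⁻¹ * v3) := by
      have q1 : K ^ 2 * ((t ^ 4)⁻¹ * v3) ≤
          (1 + 4 * d * K ^ 2 + K ^ 2) * ((t ^ 4)⁻¹ * v3) := by
        apply mul_le_mul_of_nonneg_right _ m3
        have : 0 ≤ 4 * d * K ^ 2 := by positivity
        linarith
      have q2 : v3 * (K ^ 2 * (t ^ 4)⁻¹) = K ^ 2 * ((t ^ 4)⁻¹ * v3) := by ring
      linarith
    rw [hC2]
    linarith
  have h6 : ∫ x in Metric.closedBall x₀ (2 * t), Real.exp (2 * quad l Sb (x - x₀)) * lapl U x ^ 2 ≤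
      C2 * ∫ x in Metric.closedBall x₀ (2 * t), Real.exp (2 * quad l Sb (x - x₀)) *
            (lapl V x ^ 2 + (t ^ 2)⁻¹ * ∑ i, pd i V x ^ 2 + (t ^ 4)⁻¹ * V x ^ 2) := by
    rw [← integral_const_mul]
    refine setIntegral_mono_on ?_ ?_ Metric.isClosed_closedBall.measurableSet fun x _ => ?_
    · exact ContinuousOn.integrableOn_compact (isCompact_closedBall x₀ (2 * t))
        (ce.mul ((clap cU).pow 2)).continuousOn
    · refine ContinuousOn.integrableOn_compact (isCompact_closedBall x₀ (2 * t)) ?_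
      refine Continuous.continuousOn ?_
      refine continuous_const.mul (ce.mul ?_)
      refine (((clap hV).pow 2).add (continuous_const.mul ?_)).add
        (continuous_const.mul (hV.continuous.pow 2))
      exact continuous_finsetSum _ fun i _ => (cpd i).pow 2
    · have h7 := mul_le_mul_of_nonneg_left (h5 x)
        (Real.exp_pos (2 * quad l Sb (x - x₀))).le
      linarith
  have hl0 : 0 ≤ σ * ‖l‖ ^ 2 := by positivity
  have hcp : 0 ≤ 16 / c₀ := by positivity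
  calc σ * ‖l‖ ^ 2 * ∫ x in Metric.closedBall x₀ t, Real.exp (2 * quad l Sb (x - x₀)) * V x ^ 2
      ≤ σ * ‖l‖ ^ 2 * ∫ x, Real.exp (2 * quad l Sb (x - x₀)) * U x ^ 2 :=
        mul_le_mul_of_nonneg_left h2 hl0
    _ ≤ 16 / c₀ * ∫ x, Real.exp (2 * quad l Sb (x - x₀)) * lapl U x ^ 2 := h1
    _ ≤ 16 / c₀ * (C2 * ∫ x in Metric.closedBall x₀ (2 * t), Real.exp (2 * quad l Sb (x - x₀)) *
            (lapl V x ^ 2 + (t ^ 2)⁻¹ * ∑ i, pd i V x ^ 2 + (t ^ 4)⁻¹ * V x ^ 2)) := by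
        rw [h4]
        exact mul_le_mul_of_nonneg_left h6 hcp
    _ = _ := by ring

end Pool.Agent.Lib.MP_566bac_pr.Hd
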