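import Pool.Agent.Lib.MP_566bac_pr.Hd.BAS
import Pool.Agent.Lib.MP_566bac_pr.Hd.ET
import Pool.Agent.Lib.MP_566bac_pr.Hd.LI1
import Pool.Agent.Lib.MP_566bac_pr.Hd.LI3
import Pool.Agent.Lib.MP_566bac_pr.Hd.LI4
import Pool.Agent.Lib.MP_566bac_pr.Hd.CG1
import Pool.Agent.Lib.MP_566bac_pr.Hd.CG2
import Pool.Agent.Lib.MP_566bac_pr.Hd.CG3
import Pool.Agent.Lib.MP_566bac_pr.Hd.CG4

/-!
# The local inequality
-/

open Finset MeasureTheory ProbabilityTheory Filter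
open scoped Classical

namespace Pool.Agent.Lib.MP_566bac_pr.Hd

variable {d : ℕ}

theorem LI_pow {P K : ℝ} {a b : ℕ} (hP : 1 ≤ P) (hK : K ≤ P) (hab : a + 1 ≤ b) :
    K * P ^ a ≤ P ^ b :=
  calc K * P ^ a ≤ P * P ^ a := by gcongr
    _ = P ^ (a + 1) := by ring
    _ ≤ P ^ b := pow_le_pow_right₀ hP hab

theorem LI_rpow {P r ρ : ℝ} {k B : ℕ} (hP : 1 ≤ P) (hr : P ^ B ≤ r) (hρ : ρ * B = 4 * k)
    (a b : ℕ) (hab : a * ρ ≤ b) : r ^ (a * ρ - b) ≤ P ^ (4 * k * a) / P ^ (B * b) := by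
  have hPB : 0 < P ^ B := by positivity
  have h1 : r ^ (a * ρ - b) ≤ (P ^ B) ^ (a * ρ - b) :=
    Real.rpow_le_rpow_of_nonpos hPB hr (by linarith)
  refine h1.trans (le_of_eq ?_)
  have hP0 : 0 < P := by linarith
  rw [← Real.rpow_natCast P B, ← Real.rpow_mul hP0.le, mul_sub, Real.rpow_sub hP0]
  congr 1
  · rw [show (B : ℝ) * (a * ρ) = ((4 * k * a : ℕ) : ℝ) by push_cast; linear_combination (a : ℝ) * hρ,
      Real.rpow_natCast]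
  · rw [show (B : ℝ) * (b : ℝ) = ((B * b : ℕ) : ℝ) by push_cast; ring, Real.rpow_natCast]

/-- rounding to the grid -/
theorem LI_grid (x : E d) {s : ℕ} (hs : 1 ≤ s) : ∃ z : Vtx d, Grid s z ∧ ∀ i, |x i - z i| ≤ (s : ℝ) := by
  refine ⟨fun i => (s : ℤ) * ⌊x i / s⌋, fun i => dvd_mul_right _ _, fun i => ?_⟩
  have hs' : (0 : ℝ) < s := by exact_mod_cast hs
  have h1 := Int.floor_le (x i / s)
  have h2 := Int.lt_floor_add_one (x i / s)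
  rw [le_div_iff₀ hs'] at h1
  rw [div_lt_iff₀ hs'] at h2
  push_cast
  rw [abs_le]
  constructor <;> nlinarith

/-- local gradient square -/
noncomputable def LI_g (η : Conf d) (v : Vtx d → ℝ) (y : Vtx d) : ℝ :=
  ∑ j, if η y j then grad v y j ^ 2 else 0

theorem LI_g_nonneg (η : Conf d) (v : Vtx d → ℝ) (y : Vtx d) : 0 ≤ LI_g η v y :=
  Finset.sum_nonneg fun j _ => by split_ifs <;> positivity

theorem LI_En_le (η : Conf d) (W : Finset (Vtx d)) (v : Vtx d → ℝ) :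
    En η W v ≤ ∑ y ∈ W, LI_g η v y := by
  unfold En LI_g
  refine Finset.sum_le_sum fun y _ => Finset.sum_le_sum fun j _ => ?_
  by_cases h : η y j
  · by_cases h' : y + ev j ∈ W
    · simp [h, h']
    · simp only [h, h', and_false, if_false, if_true]; positivity
  · simp [h]

theorem LI_toE_coord (y : Vtx d) (i : Fin d) : toE y i = (y i : ℝ) := rfl

theorem LI_abs_coord_le (x : E d) (i : Fin d) : |x i| ≤ ‖x‖ := by
  have := EuclideanSpace.norm_sq_eq x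
  have h : ‖x i‖ ^ 2 ≤ ‖x‖ ^ 2 := by
    rw [this]
    exact Finset.single_le_sum (f := fun i => ‖x i‖ ^ 2) (fun i _ => by positivity) (Finset.mem_univ i)
  exact (pow_le_pow_iff_left₀ (norm_nonneg _) (norm_nonneg _) two_ne_zero).1 h

theorem LI_norm_le (x : E d) {a : ℝ} (ha : 0 ≤ a) (h : ∀ i, |x i| ≤ a) : ‖x‖ ≤ a * d := by
  have h1 : ‖x‖ ^ 2 ≤ (a * d) ^ 2 := by
    rw [EuclideanSpace.norm_sq_eq x]
    calc ∑ i, ‖x i‖ ^ 2 ≤ ∑ _i : Fin d, a ^ 2 :=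
          Finset.sum_le_sum fun i _ => pow_le_pow_left₀ (norm_nonneg _) (h i) 2
      _ = d * a ^ 2 := by simp
      _ ≤ d ^ 2 * a ^ 2 := by
          gcongr
          rcases Nat.eq_zero_or_pos d with h0 | h0
          · simp [h0]
          · have : (1 : ℝ) ≤ d := by exact_mod_cast h0
            nlinarith
      _ = (a * d) ^ 2 := by ring
  exact le_of_sq_le_sq h1 (by positivity)

/-- sums over the neighbourhood -/
theorem LI_sum_le {x : E d} {z : Vtx d} {s : ℕ} (hz : ∀ i, |x i - z i| ≤ (s : ℝ))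
    {S : Finset (Vtx d)} (hS : Lam z (4 * s) ⊆ S) {a : Vtx d → ℝ} (ha : ∀ y, 0 ≤ a y) :
    ∑ y ∈ Lam z (4 * s), a y ≤ ∑ y ∈ S.filter (fun y => ∀ i, |x i - y i| ≤ 5 * (s : ℝ)), a y := by
  refine Finset.sum_le_sum_of_subset_of_nonneg (fun y hy => ?_) fun y _ _ => ha y
  rw [Finset.mem_filter]
  refine ⟨hS hy, fun i => ?_⟩
  rw [mem_Lam, BAS_le_iff] at hy
  have h1 := hy i
  have h2 : |(y i : ℝ) - z i| ≤ 4 * s := by
    have : ((y i - z i).natAbs : ℤ) ≤ (4 * s : ℕ) := by exact_mod_cast h1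
    rw [Int.natCast_natAbs] at this
    have h3 : ((|y i - z i| : ℤ) : ℝ) ≤ ((4 * s : ℕ) : ℝ) := by exact_mod_cast this
    push_cast at h3
    exact h3
  have h3 := hz i
  rw [abs_le] at h2 h3 ⊢
  constructor <;> linarith [h2.1, h2.2, h3.1, h3.2]

theorem LI_natAbs_real {a : ℤ} {n : ℕ} (h : |(a : ℝ)| ≤ n) : a.natAbs ≤ n := by
  have : ((a.natAbs : ℤ) : ℝ) ≤ ((n : ℤ) : ℝ) := by
    rw [Int.natCast_natAbs]; push_cast; exact h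
  exact_mod_cast this

/-- the data at the grid point next to `x` -/
theorem LI_point {c : ℕ} {CL θ₀ : ℝ} {A k j M M₀ : ℕ} {η : Conf d} {C0 : Set (Vtx d)}
    (hE : Env c CL θ₀ A k η C0 M₀) (hM : M₀ ≤ M) (hM1 : 1 ≤ M) (hj : j + 1 ≤ 2 * k)
    (hst : 8 * M ^ A ≤ M ^ (A + 3 * k + j)) {x₀ : Vtx d}
    (hx₀ : ‖toE x₀‖ ≤ ((M : ℝ) + 1) ^ (A + 5 * k)) {v : Vtx d → ℝ} (hv : ∀ y, y ∉ C0 → v y = 0)
    {x : E d} (hx : ‖x - toE x₀‖ ≤ 2 * (M : ℝ) ^ (A + 3 * k + j)) :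
    ∃ z : Vtx d, Grid (M ^ A) z ∧ (∀ i, |x i - z i| ≤ (M : ℝ) ^ A) ∧ Loc c CL θ₀ A k η M z ∧
      (∀ y ∈ Lam z (7 * M ^ A), ¬ Far η (6 * M) y → v y = 0) ∧
      Lam z (4 * M ^ A) ⊆ Lam x₀ (4 * M ^ (A + 3 * k + j)) := by
  obtain ⟨z, hz1, hz2⟩ := LI_grid x (s := M ^ A) (Nat.one_le_pow _ _ hM1)
  have hz2' : ∀ i, |x i - z i| ≤ (M : ℝ) ^ A := by intro i; simpa using hz2 i
  have hst' : 8 * (M : ℝ) ^ A ≤ (M : ℝ) ^ (A + 3 * k + j) := by exact_mod_cast hst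
  -- distance between `z` and `x₀`
  have h1 : ∀ i, |(z i : ℝ) - x₀ i| ≤ (M : ℝ) ^ A + 2 * (M : ℝ) ^ (A + 3 * k + j) := by
    intro i
    have h2 := hz2' i
    have h3 := (LI_abs_coord_le (x - toE x₀) i).trans hx
    have h4 : (x - toE x₀) i = x i - x₀ i := rfl
    rw [h4] at h3
    rw [abs_le] at h2 h3 ⊢
    constructor <;> linarith [h2.1, h2.2, h3.1, h3.2]
  have h1' : dst z x₀ ≤ M ^ A + 2 * M ^ (A + 3 * k + j) := by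
    rw [BAS_le_iff]
    intro i
    refine LI_natAbs_real ?_
    push_cast
    exact h1 i
  -- size of `x₀`
  have h5 : dst x₀ 0 ≤ (M + 1) ^ (A + 5 * k) := by
    rw [BAS_le_iff]
    intro i
    refine LI_natAbs_real ?_
    have h6 := (LI_abs_coord_le (toE x₀) i).trans hx₀
    rw [LI_toE_coord] at h6
    simpa using h6
  have h6 : (M + 1) ^ (A + 5 * k) ≤ (M + 2) ^ (A + 5 * k) := Nat.pow_le_pow_left (by omega) _
  have h7 : M ^ (A + 3 * k + j) ≤ (M + 2) ^ (A + 5 * k) :=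
    (Nat.pow_le_pow_left (by omega : M ≤ M + 2) _).trans (Nat.pow_le_pow_right (by omega) (by omega))
  have h8 := dst_triangle z x₀ 0
  refine ⟨z, hz1, hz2', hE.loc M hM z hz1 (by omega), fun y hy hf => hv y fun hyC => hf ?_, ?_⟩
  · rw [mem_Lam] at hy
    have h9 := dst_triangle y z 0
    exact (hE.mem M hM y (by omega)).1 hyC
  · exact Lam_subset (by omega)

/-- the three bounds at one point, added -/
theorem LI_add {s t P C₁ C₂ C₄ X1 X3 Yv Yg Yf En : ℝ} {X2 : Fin d → ℝ} {c₁ c₂ q k : ℕ} (hs : 0 < s)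
    (ht : 0 < t) (hP : 0 < P) (hv : 0 ≤ Yv) (hf : 0 ≤ Yf) (hEn0 : 0 ≤ En) (hEn : En ≤ Yg)
    (h1 : X1 ≤ C₁ * P ^ c₁ * (s ^ d)⁻¹ * ((s ^ 4 * P ^ (12 * k))⁻¹ * Yv +
      (s ^ 2 * P ^ (12 * k))⁻¹ * En) + C₁ * P ^ q * Yf)
    (h2 : ∀ i, X2 i ≤ C₂ * P ^ c₂ * (s ^ d)⁻¹ * (En + (s ^ 2 * P ^ (12 * k))⁻¹ * Yv))
    (h3 : X3 ≤ C₄ * (s ^ d)⁻¹ * Yv) :
    X1 + (t ^ 2)⁻¹ * ∑ i, X2 i + (t ^ 4)⁻¹ * X3 ≤
      (s ^ d)⁻¹ * ((|C₁| * P ^ c₁ * (s ^ 4 * P ^ (12 * k))⁻¹ +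
        d * (t ^ 2)⁻¹ * |C₂| * P ^ c₂ * (s ^ 2 * P ^ (12 * k))⁻¹ + (t ^ 4)⁻¹ * |C₄|) * Yv +
        (|C₁| * P ^ c₁ * (s ^ 2 * P ^ (12 * k))⁻¹ + d * (t ^ 2)⁻¹ * |C₂| * P ^ c₂) * Yg) +
      |C₁| * P ^ q * Yf := by
  have hg : 0 ≤ Yg := hEn0.trans hEn
  have a1 : X1 ≤ |C₁| * P ^ c₁ * (s ^ d)⁻¹ * ((s ^ 4 * P ^ (12 * k))⁻¹ * Yv +
      (s ^ 2 * P ^ (12 * k))⁻¹ * Yg) + |C₁| * P ^ q * Yf := by
    refine h1.trans ?_
    gcongr <;> exact le_abs_self _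
  have a2 : ∀ i, X2 i ≤ |C₂| * P ^ c₂ * (s ^ d)⁻¹ * (Yg + (s ^ 2 * P ^ (12 * k))⁻¹ * Yv) := by
    intro i
    refine (h2 i).trans ?_
    gcongr
    exact le_abs_self _
  have a3 : X3 ≤ |C₄| * (s ^ d)⁻¹ * Yv := by
    refine h3.trans ?_
    gcongr
    exact le_abs_self _
  have a2' : ∑ i, X2 i ≤ d * (|C₂| * P ^ c₂ * (s ^ d)⁻¹ * (Yg + (s ^ 2 * P ^ (12 * k))⁻¹ * Yv)) := by
    refine (Finset.sum_le_sum fun i _ => a2 i).trans (le_of_eq ?_)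
    simp
  calc X1 + (t ^ 2)⁻¹ * ∑ i, X2 i + (t ^ 4)⁻¹ * X3
      ≤ (|C₁| * P ^ c₁ * (s ^ d)⁻¹ * ((s ^ 4 * P ^ (12 * k))⁻¹ * Yv +
        (s ^ 2 * P ^ (12 * k))⁻¹ * Yg) + |C₁| * P ^ q * Yf) +
        (t ^ 2)⁻¹ * (d * (|C₂| * P ^ c₂ * (s ^ d)⁻¹ * (Yg + (s ^ 2 * P ^ (12 * k))⁻¹ * Yv))) +
        (t ^ 4)⁻¹ * (|C₄| * (s ^ d)⁻¹ * Yv) := by gcongr
    _ = _ := by ring

/-- continuity of the weight and comparison of its values -/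
theorem LI_quad_diff (l : E d) (Sb : E d →L[ℝ] E d →L[ℝ] ℝ) (hS : ∀ x y, Sb x y = Sb y x) (x y : E d) :
    |quad l Sb x - quad l Sb y| ≤ (‖l‖ + ‖Sb‖ * (‖x‖ + ‖y‖) / 2) * ‖x - y‖ := by
  have h1 : quad l Sb x - quad l Sb y = inner ℝ l (x - y) + Sb (x + y) (x - y) / 2 := by
    unfold quad
    rw [inner_sub_right]
    have : Sb (x + y) (x - y) = Sb x x - Sb y y := by
      rw [map_add, add_apply, map_sub, map_sub, hS y x]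
      ring
    rw [this]; ring
  rw [h1]
  have h2 : |inner ℝ l (x - y)| ≤ ‖l‖ * ‖x - y‖ := abs_real_inner_le_norm _ _
  have h3 : |Sb (x + y) (x - y)| ≤ ‖Sb‖ * (‖x‖ + ‖y‖) * ‖x - y‖ := by
    have := Sb.le_opNorm₂ (x + y) (x - y)
    rw [Real.norm_eq_abs] at this
    refine this.trans ?_
    gcongr
    exact norm_add_le _ _
  calc |inner ℝ l (x - y) + Sb (x + y) (x - y) / 2|
      ≤ |inner ℝ l (x - y)| + |Sb (x + y) (x - y) / 2| := abs_add_le _ _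
    _ ≤ ‖l‖ * ‖x - y‖ + (‖Sb‖ * (‖x‖ + ‖y‖) * ‖x - y‖) / 2 := by
        rw [abs_div, abs_two]; gcongr
    _ = _ := by ring

theorem LI_quad_cont (l x₀ : E d) (Sb : E d →L[ℝ] E d →L[ℝ] ℝ) :
    Continuous fun x => Real.exp (2 * quad l Sb (x - x₀)) := by
  unfold quad
  fun_prop

theorem LI_exp_comp {a b : ℝ} (h : |a - b| ≤ 1) : Real.exp (2 * a) ≤ 10 * Real.exp (2 * b) := by
  have h1 : 2 * a ≤ 2 + 2 * b := by
    have := (abs_le.1 h).2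
    linarith
  calc Real.exp (2 * a) ≤ Real.exp (2 + 2 * b) := Real.exp_le_exp.2 h1
    _ = Real.exp 2 * Real.exp (2 * b) := Real.exp_add _ _
    _ ≤ 10 * Real.exp (2 * b) := by
        gcongr
        have h2 : Real.exp 1 < 2.7182818286 := Real.exp_one_lt_d9
        have h3 : Real.exp 2 = Real.exp 1 * Real.exp 1 := by rw [← Real.exp_add]; norm_num
        rw [h3]
        nlinarith [Real.exp_pos 1]

theorem LI_box_closed (y : Vtx d) (r : ℝ) : IsClosed {x : E d | ∀ i, |x i - y i| ≤ r} := by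
  have : {x : E d | ∀ i, |x i - y i| ≤ r} = ⋂ i, {x : E d | |x i - y i| ≤ r} := by
    ext x; simp
  rw [this]
  refine isClosed_iInter fun i => ?_
  exact isClosed_le (by fun_prop) continuous_const

theorem LI_intble (S : Finset (Vtx d)) (a : Vtx d → ℝ) (r : ℝ) (x₀ : E d) (T : ℝ) {ω : E d → ℝ}
    (hω : Continuous ω) : IntegrableOn
      (fun x => ω x * ∑ y ∈ S.filter (fun y => ∀ i, |x i - y i| ≤ r), a y)
      (Metric.closedBall x₀ T) := by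
  have h1 : (fun x => ω x * ∑ y ∈ S.filter (fun y => ∀ i, |x i - y i| ≤ r), a y) =
      fun x => ∑ y ∈ S, a y * ({x : E d | ∀ i, |x i - y i| ≤ r}.indicator ω x) := by
    funext x
    rw [Finset.sum_filter, Finset.mul_sum]
    refine Finset.sum_congr rfl fun y _ => ?_
    rw [Set.indicator_apply]
    simp only [Set.mem_ofPred_eq]
    split_ifs <;> ring
  rw [h1]
  refine integrable_finsetSum _ fun y _ => ?_
  refine Integrable.const_mul ?_ _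
  refine Integrable.indicator ?_ (LI_box_closed y r).measurableSet
  exact hω.continuousOn.integrableOn_compact (isCompact_closedBall x₀ T)

/-- the estimate with abstract constants -/
theorem LI_core {Ci Cs Cc C₃ κ Q s t : ℝ} (hCs : 0 < Cs) (hCc : 0 < Cc)
    (hC₃ : 0 ≤ C₃) (hκ : 0 ≤ κ) (hQ : 0 ≤ Q) (hs : 1 ≤ s) (ht : 0 < t) (hst : d * s ≤ t)
    (hint : ∀ T, 0 < T → ∀ (x₀ : E d) (ω : E d → ℝ), Continuous ω → (∀ x, 0 ≤ ω x) →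
      (∀ x y, ‖x - x₀‖ ≤ T → (∀ i, |x i - y i| ≤ 5 * s) → ω x ≤ 10 * ω y) →
      ∀ (S : Finset (Vtx d)) (a : Vtx d → ℝ), (∀ y, 0 ≤ a y) →
        ∫ x in Metric.closedBall x₀ T, ω x * ∑ y ∈ S.filter (fun y => ∀ i, |x i - y i| ≤ 5 * s), a y ≤
          Ci * s ^ d * ∑ y ∈ S.filter (fun y => ‖toE y - x₀‖ ≤ T + 5 * s * d), ω (toE y) * a y)
    (hsum : ∀ T, d * s ≤ T → ∀ (x₀ : E d) (ω : E d → ℝ), Continuous ω → (∀ x, 0 ≤ ω x) →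
      (∀ x y, ‖x - x₀‖ ≤ T → (∀ i, |x i - y i| ≤ 5 * s) → ω y ≤ 10 * ω x) →
      ∀ (S : Finset (Vtx d)) (a : Vtx d → ℝ), (∀ y, 0 ≤ a y) →
        s ^ d * ∑ y ∈ S.filter (fun y => ‖toE y - x₀‖ ≤ T / 2), ω (toE y) * a y ≤
          Cs * ∫ x in Metric.closedBall x₀ T,
            ω x * ∑ y ∈ S.filter (fun y => ∀ i, |x i - y i| ≤ s / 2), a y)
    {x₀ : E d} {ω : E d → ℝ} (hωc : Continuous ω) (hω0 : ∀ x, 0 ≤ ω x)
    (hω1 : ∀ x y, ‖x - x₀‖ ≤ 2 * t → (∀ i, |x i - y i| ≤ 5 * s) → ω x ≤ 10 * ω y ∧ ω y ≤ 10 * ω x)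
    {V F : E d → ℝ} (hV : Continuous V) (hF : Continuous F)
    (hcut : Q * ∫ x in Metric.closedBall x₀ t, ω x * V x ^ 2 ≤
      Cc * ∫ x in Metric.closedBall x₀ (2 * t), ω x * F x)
    {S : Finset (Vtx d)} {a g b : Vtx d → ℝ} (ha : ∀ y, 0 ≤ a y) (hg : ∀ y, 0 ≤ g y)
    (hb : ∀ y, 0 ≤ b y)
    (hFb : ∀ x, ‖x - x₀‖ ≤ 2 * t → F x ≤ ∑ y ∈ S.filter (fun y => ∀ i, |x i - y i| ≤ 5 * s), b y)
    (hlow : ∀ x, ‖x - x₀‖ ≤ t → ∑ y ∈ S.filter (fun y => ∀ i, |x i - y i| ≤ s / 2), a y ≤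
      C₃ * s ^ d * V x ^ 2 + κ * ∑ y ∈ S.filter (fun y => ∀ i, |x i - y i| ≤ 5 * s), g y) :
    Q * ∑ y ∈ S.filter (fun y => ‖toE y - x₀‖ ≤ t / 2), ω (toE y) * a y ≤
      Cs * C₃ * Cc * Ci * s ^ d * ∑ y ∈ S.filter (fun y => ‖toE y - x₀‖ ≤ 2 * t + 5 * s * d),
        ω (toE y) * b y +
      Cs * Q * κ * Ci * ∑ y ∈ S.filter (fun y => ‖toE y - x₀‖ ≤ t + 5 * s * d), ω (toE y) * g y := by
  have hs0 : 0 < s := by linarith
  have hsd : 0 < s ^ d := by positivity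
  -- step 1
  have h1 := hsum t hst x₀ ω hωc hω0 (fun x y hx hy => (hω1 x y (by linarith) hy).2) S a ha
  -- step 2: lower bound
  have hVint : IntegrableOn (fun x => ω x * V x ^ 2) (Metric.closedBall x₀ t) :=
    (hωc.mul (hV.pow 2)).continuousOn.integrableOn_compact (isCompact_closedBall x₀ t)
  have h2 : ∫ x in Metric.closedBall x₀ t,
      ω x * ∑ y ∈ S.filter (fun y => ∀ i, |x i - y i| ≤ s / 2), a y ≤
      ∫ x in Metric.closedBall x₀ t, (C₃ * s ^ d * (ω x * V x ^ 2) +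
        κ * (ω x * ∑ y ∈ S.filter (fun y => ∀ i, |x i - y i| ≤ 5 * s), g y)) := by
    refine setIntegral_mono_on (LI_intble S a _ x₀ t hωc) ?_ measurableSet_closedBall ?_
    · exact (hVint.const_mul _).add ((LI_intble S g _ x₀ t hωc).const_mul _)
    · intro x hx
      rw [Metric.mem_closedBall, dist_eq_norm] at hx
      have h3 := mul_le_mul_of_nonneg_left (hlow x hx) (hω0 x)
      refine h3.trans (le_of_eq ?_)
      ring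
  rw [integral_add (hVint.const_mul _) ((LI_intble S g _ x₀ t hωc).const_mul _),
    integral_const_mul, integral_const_mul] at h2
  -- step 3: the gradient part
  have h3 := hint t ht x₀ ω hωc hω0 (fun x y hx hy => (hω1 x y (by linarith) hy).1) S g hg
  -- step 4: the Carleman part
  have hFint : IntegrableOn (fun x => ω x * F x) (Metric.closedBall x₀ (2 * t)) :=
    (hωc.mul hF).continuousOn.integrableOn_compact (isCompact_closedBall x₀ (2 * t))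
  have h4 : ∫ x in Metric.closedBall x₀ (2 * t), ω x * F x ≤
      ∫ x in Metric.closedBall x₀ (2 * t),
        ω x * ∑ y ∈ S.filter (fun y => ∀ i, |x i - y i| ≤ 5 * s), b y := by
    refine setIntegral_mono_on hFint (LI_intble S b _ x₀ _ hωc) measurableSet_closedBall ?_
    intro x hx
    rw [Metric.mem_closedBall, dist_eq_norm] at hx
    exact mul_le_mul_of_nonneg_left (hFb x hx) (hω0 x)
  have h5 := hint (2 * t) (by linarith) x₀ ω hωc hω0 (fun x y hx hy => (hω1 x y hx hy).1) S b hb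
  have h6 : Q * ∫ x in Metric.closedBall x₀ t, ω x * V x ^ 2 ≤
      Cc * (Ci * s ^ d * ∑ y ∈ S.filter (fun y => ‖toE y - x₀‖ ≤ 2 * t + 5 * s * d),
        ω (toE y) * b y) :=
    hcut.trans (mul_le_mul_of_nonneg_left (h4.trans h5) hCc.le)
  -- combination
  have h7 : s ^ d * (Q * ∑ y ∈ S.filter (fun y => ‖toE y - x₀‖ ≤ t / 2), ω (toE y) * a y) ≤
      s ^ d * (Cs * C₃ * Cc * Ci * s ^ d *
        ∑ y ∈ S.filter (fun y => ‖toE y - x₀‖ ≤ 2 * t + 5 * s * d), ω (toE y) * b y +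
      Cs * Q * κ * Ci *
        ∑ y ∈ S.filter (fun y => ‖toE y - x₀‖ ≤ t + 5 * s * d), ω (toE y) * g y) := by
    calc s ^ d * (Q * ∑ y ∈ S.filter (fun y => ‖toE y - x₀‖ ≤ t / 2), ω (toE y) * a y)
        = Q * (s ^ d * ∑ y ∈ S.filter (fun y => ‖toE y - x₀‖ ≤ t / 2), ω (toE y) * a y) := by ring
      _ ≤ Q * (Cs * (C₃ * s ^ d * (∫ x in Metric.closedBall x₀ t, ω x * V x ^ 2) +
            κ * (Ci * s ^ d * ∑ y ∈ S.filter (fun y => ‖toE y - x₀‖ ≤ t + 5 * s * d),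
              ω (toE y) * g y))) := by
          refine mul_le_mul_of_nonneg_left (h1.trans (mul_le_mul_of_nonneg_left (h2.trans ?_) hCs.le)) hQ
          gcongr
      _ = Cs * C₃ * s ^ d * (Q * ∫ x in Metric.closedBall x₀ t, ω x * V x ^ 2) +
          s ^ d * (Cs * Q * κ * Ci *
            ∑ y ∈ S.filter (fun y => ‖toE y - x₀‖ ≤ t + 5 * s * d), ω (toE y) * g y) := by ring
      _ ≤ Cs * C₃ * s ^ d * (Cc * (Ci * s ^ d *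
            ∑ y ∈ S.filter (fun y => ‖toE y - x₀‖ ≤ 2 * t + 5 * s * d), ω (toE y) * b y)) +
          s ^ d * (Cs * Q * κ * Ci *
            ∑ y ∈ S.filter (fun y => ‖toE y - x₀‖ ≤ t + 5 * s * d), ω (toE y) * g y) := by
          gcongr
      _ = _ := by ring
  exact le_of_mul_le_mul_left h7 hsd

theorem LI_frac {P K κ₀ : ℝ} {a b e f : ℕ} (hP : 1 ≤ P) (hκ : 0 ≤ κ₀) (hK : K ≤ κ₀ * P)
    (h : a + f + 1 ≤ e + b) : K * P ^ a / P ^ b ≤ κ₀ * P ^ e / P ^ f := by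
  have hP0 : 0 < P := by linarith
  rw [div_le_div_iff₀ (by positivity) (by positivity)]
  calc K * P ^ a * P ^ f = K * P ^ (a + f) := by ring
    _ ≤ κ₀ * P * P ^ (a + f) := by gcongr
    _ = κ₀ * P ^ (a + f + 1) := by ring
    _ ≤ κ₀ * P ^ (e + b) := by gcongr
    _ = κ₀ * P ^ e * P ^ b := by ring

/-- the comparison of all the coefficients -/
theorem LI_coef {P C₁ C₂ C₄ G G₃ κ₀ : ℝ} {A k j d c₁ c₂ c₃ : ℕ} (hP : 1 ≤ P) (hκ : 0 < κ₀)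
    (hG₃ : G₃ ≤ κ₀ / 2 * P)
    (h1 : G * |C₁| ≤ κ₀ / 4 * P) (h2 : G * d * |C₂| ≤ κ₀ / 4 * P) (h4 : G * |C₄| ≤ κ₀ / 4 * P)
    (hj : c₁ + c₂ + c₃ + 2 ≤ j) (hk2 : c₁ + c₂ + c₃ + 2 + 2 * j ≤ 2 * k) :
    G * (|C₁| * P ^ c₁ * ((P ^ A) ^ 4 * P ^ (12 * k))⁻¹ +
        d * ((P ^ (A + 3 * k + j)) ^ 2)⁻¹ * |C₂| * P ^ c₂ * ((P ^ A) ^ 2 * P ^ (12 * k))⁻¹ +
        ((P ^ (A + 3 * k + j)) ^ 4)⁻¹ * |C₄|) ≤ κ₀ * (1 / P * (P ^ (12 * k) / P ^ (4 * (A + 5 * k)))) ∧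
    G * (|C₁| * P ^ c₁ * ((P ^ A) ^ 2 * P ^ (12 * k))⁻¹ +
        d * ((P ^ (A + 3 * k + j)) ^ 2)⁻¹ * |C₂| * P ^ c₂) + G₃ * P ^ (12 * k + c₃ + 2 * A) /
          P ^ (4 * (A + 5 * k)) ≤ κ₀ * (1 / P * (P ^ (4 * k) / P ^ (2 * (A + 5 * k)))) := by
  have hP0 : 0 < P := by linarith
  constructor
  · have a1 : G * (|C₁| * P ^ c₁ * ((P ^ A) ^ 4 * P ^ (12 * k))⁻¹) =
        (G * |C₁|) * P ^ c₁ / P ^ (4 * A + 12 * k) := by
      rw [← pow_mul, ← pow_add, mul_comm A 4]; ring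
    have a2 : G * (d * ((P ^ (A + 3 * k + j)) ^ 2)⁻¹ * |C₂| * P ^ c₂ * ((P ^ A) ^ 2 * P ^ (12 * k))⁻¹) =
        (G * d * |C₂|) * P ^ c₂ / P ^ (2 * (A + 3 * k + j) + 2 * A + 12 * k) := by
      have a2' : ((P ^ (A + 3 * k + j)) ^ 2)⁻¹ * ((P ^ A) ^ 2 * P ^ (12 * k))⁻¹ =
          (P ^ (2 * (A + 3 * k + j) + 2 * A + 12 * k))⁻¹ := by
        rw [← mul_inv]
        congr 1
        rw [← pow_mul, ← pow_mul, ← pow_add, ← pow_add]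
        congr 1
        ring
      rw [div_eq_mul_inv, ← a2']
      ring
    have a3 : G * (((P ^ (A + 3 * k + j)) ^ 4)⁻¹ * |C₄|) =
        (G * |C₄|) * P ^ 0 / P ^ (4 * (A + 3 * k + j)) := by
      rw [← pow_mul, mul_comm 4]; ring
    have b1 : (G * |C₁|) * P ^ c₁ / P ^ (4 * A + 12 * k) ≤
        κ₀ / 4 * P ^ (12 * k) / P ^ (4 * (A + 5 * k) + 1) :=
      LI_frac hP (by positivity) h1 (by omega)
    have b2 : (G * d * |C₂|) * P ^ c₂ / P ^ (2 * (A + 3 * k + j) + 2 * A + 12 * k) ≤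
        κ₀ / 4 * P ^ (12 * k) / P ^ (4 * (A + 5 * k) + 1) :=
      LI_frac hP (by positivity) h2 (by omega)
    have b3 : (G * |C₄|) * P ^ 0 / P ^ (4 * (A + 3 * k + j)) ≤
        κ₀ / 4 * P ^ (12 * k) / P ^ (4 * (A + 5 * k) + 1) :=
      LI_frac hP (by positivity) h4 (by omega)
    have e : κ₀ * (1 / P * (P ^ (12 * k) / P ^ (4 * (A + 5 * k)))) =
        κ₀ * P ^ (12 * k) / P ^ (4 * (A + 5 * k) + 1) := by
      rw [pow_succ]; field_simp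
    rw [mul_add, mul_add, a1, a2, a3, e]
    have hpos : 0 ≤ κ₀ * P ^ (12 * k) / P ^ (4 * (A + 5 * k) + 1) := by positivity
    have b4 : κ₀ / 4 * P ^ (12 * k) / P ^ (4 * (A + 5 * k) + 1) =
        (κ₀ * P ^ (12 * k) / P ^ (4 * (A + 5 * k) + 1)) / 4 := by ring
    rw [b4] at b1 b2 b3
    linarith
  · have a1 : G * (|C₁| * P ^ c₁ * ((P ^ A) ^ 2 * P ^ (12 * k))⁻¹) =
        (G * |C₁|) * P ^ c₁ / P ^ (2 * A + 12 * k) := by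
      rw [← pow_mul, ← pow_add, mul_comm A 2]; ring
    have a2 : G * (d * ((P ^ (A + 3 * k + j)) ^ 2)⁻¹ * |C₂| * P ^ c₂) =
        (G * d * |C₂|) * P ^ c₂ / P ^ (2 * (A + 3 * k + j)) := by
      rw [← pow_mul, mul_comm 2]; ring
    have b1 : (G * |C₁|) * P ^ c₁ / P ^ (2 * A + 12 * k) ≤
        κ₀ / 4 * P ^ (4 * k) / P ^ (2 * (A + 5 * k) + 1) :=
      LI_frac hP (by positivity) h1 (by omega)
    have b2 : (G * d * |C₂|) * P ^ c₂ / P ^ (2 * (A + 3 * k + j)) ≤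
        κ₀ / 4 * P ^ (4 * k) / P ^ (2 * (A + 5 * k) + 1) :=
      LI_frac hP (by positivity) h2 (by omega)
    have b3 : G₃ * P ^ (12 * k + c₃ + 2 * A) / P ^ (4 * (A + 5 * k)) ≤
        κ₀ / 2 * P ^ (4 * k) / P ^ (2 * (A + 5 * k) + 1) :=
      LI_frac hP (by positivity) hG₃ (by omega)
    have e : κ₀ * (1 / P * (P ^ (4 * k) / P ^ (2 * (A + 5 * k)))) =
        κ₀ * P ^ (4 * k) / P ^ (2 * (A + 5 * k) + 1) := by
      rw [pow_succ]; field_simp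
    rw [mul_add, a1, a2, e]
    have b4 : κ₀ / 4 * P ^ (4 * k) / P ^ (2 * (A + 5 * k) + 1) =
        (κ₀ * P ^ (4 * k) / P ^ (2 * (A + 5 * k) + 1)) / 4 := by ring
    have b5 : κ₀ / 2 * P ^ (4 * k) / P ^ (2 * (A + 5 * k) + 1) =
        (κ₀ * P ^ (4 * k) / P ^ (2 * (A + 5 * k) + 1)) / 2 := by ring
    rw [b4] at b1 b2
    rw [b5] at b3
    linarith

/-- powers of the distance -/
theorem LI_scales {P r ρ cW Cq L : ℝ} {k B : ℕ} (hP1 : 1 ≤ P) (hcW : 0 < cW) (hCq : 0 < Cq)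
    (hx1 : P ^ B ≤ r) (hx2 : r ≤ (P + 1) ^ B) (hρ0 : 0 < ρ) (hρ1 : ρ < 1) (hρB : ρ * B = 4 * k)
    (hlW : cW * r ^ (ρ - 1) ≤ L) (hlC : L ≤ Cq * r ^ (ρ - 1)) :
    r ^ (ρ - 1) = r ^ (ρ - 2) * r ∧ r ^ (ρ - 1) ≤ P ^ (4 * k) / P ^ B ∧
    r ^ (ρ - 3) ≤ P ^ (4 * k) / P ^ (3 * B) ∧
    r ^ (ρ - 2) * P ^ (4 * k) * cW ^ 2 ≤ r ^ (ρ - 2) * r ^ ρ * cW ^ 2 ∧
    r ^ (ρ - 2) * r ^ ρ * cW ^ 2 ≤ L ^ 2 ∧
    cW ^ 2 / (2 ^ B) ^ 4 * (P ^ (12 * k) / P ^ (4 * B)) ≤ r ^ (ρ - 2) * L ^ 2 ∧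
    r ^ (ρ - 2) * L ^ 2 ≤ Cq ^ 2 * (P ^ (12 * k) / P ^ (4 * B)) := by
  have hP0 : 0 < P := by linarith
  have hr0 : 0 < r := lt_of_lt_of_le (by positivity) hx1
  have hr1' : 0 ≤ r ^ (ρ - 1) := by positivity
  have e1 : r ^ (ρ - 1) = r ^ (ρ - 2) * r := by
    rw [← Real.rpow_add_one hr0.ne']; congr 1; ring
  have e2 : r ^ (ρ - 1) ≤ P ^ (4 * k) / P ^ B := by
    have := LI_rpow hP1 hx1 hρB 1 1 (by push_cast; linarith)
    simpa using this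
  have e3 : r ^ (ρ - 3) ≤ P ^ (4 * k) / P ^ (3 * B) := by
    have := LI_rpow hP1 hx1 hρB 1 3 (by push_cast; linarith)
    rw [mul_comm 3 B]
    simpa using this
  have e4 : r ^ (3 * ρ - 4) ≤ P ^ (12 * k) / P ^ (4 * B) := by
    have := LI_rpow hP1 hx1 hρB 3 4 (by push_cast; linarith)
    have h5 : (4 * k * 3 : ℕ) = 12 * k := by ring
    have h6 : B * 4 = 4 * B := by ring
    rw [h5, h6] at this
    simpa using this
  have e5 : P ^ (4 * k) ≤ r ^ ρ := by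
    calc P ^ (4 * k) = (P ^ B) ^ ρ := by
          rw [← Real.rpow_natCast P B, ← Real.rpow_mul hP0.le, mul_comm (B : ℝ) ρ, hρB,
            ← Real.rpow_natCast P (4 * k)]
          push_cast; rfl
      _ ≤ r ^ ρ := Real.rpow_le_rpow (by positivity) hx1 hρ0.le
  have e6 : r ^ (3 * ρ - 4) = r ^ (ρ - 2) * (r ^ (ρ - 1)) ^ 2 := by
    rw [← Real.rpow_natCast (r ^ (ρ - 1)) 2, ← Real.rpow_mul hr0.le, ← Real.rpow_add hr0]
    congr 1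
    push_cast; ring
  have e7 : (r ^ (ρ - 1)) ^ 2 = r ^ (ρ - 2) * r ^ ρ := by
    rw [← Real.rpow_natCast (r ^ (ρ - 1)) 2, ← Real.rpow_mul hr0.le, ← Real.rpow_add hr0]
    congr 1
    push_cast; ring
  have hσ0 : 0 < r ^ (ρ - 2) := Real.rpow_pos_of_pos hr0 _
  have hL2 : (cW * r ^ (ρ - 1)) ^ 2 ≤ L ^ 2 := pow_le_pow_left₀ (by positivity) hlW 2
  refine ⟨e1, e2, e3, ?_, ?_, ?_, ?_⟩
  · gcongr
  · calc r ^ (ρ - 2) * r ^ ρ * cW ^ 2 = (cW * r ^ (ρ - 1)) ^ 2 := by rw [mul_pow, e7]; ring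
      _ ≤ L ^ 2 := hL2
  · have h5 : cW ^ 2 * r ^ (3 * ρ - 4) ≤ r ^ (ρ - 2) * L ^ 2 := by
      rw [e6]
      calc cW ^ 2 * (r ^ (ρ - 2) * (r ^ (ρ - 1)) ^ 2) = r ^ (ρ - 2) * (cW * r ^ (ρ - 1)) ^ 2 := by ring
        _ ≤ _ := by gcongr
    refine le_trans ?_ h5
    have h6 : P ^ (12 * k) / ((2 ^ B) ^ 4 * P ^ (4 * B)) ≤ r ^ (3 * ρ - 4) := by
      rw [Real.rpow_sub hr0]
      have h7 : P ^ (12 * k) ≤ r ^ (3 * ρ) := by
        rw [mul_comm 3 ρ, Real.rpow_mul hr0.le]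
        calc P ^ (12 * k) = (P ^ (4 * k)) ^ (3 : ℝ) := by
              rw [show (3 : ℝ) = ((3 : ℕ) : ℝ) by norm_num, Real.rpow_natCast, ← pow_mul]
              congr 1; ring
          _ ≤ (r ^ ρ) ^ (3 : ℝ) := Real.rpow_le_rpow (by positivity) e5 (by norm_num)
      have h8 : r ^ (4 : ℝ) ≤ (2 ^ B) ^ 4 * P ^ (4 * B) := by
        rw [show (4 : ℝ) = ((4 : ℕ) : ℝ) by norm_num, Real.rpow_natCast]
        have : r ≤ 2 ^ B * P ^ B := by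
          rw [← mul_pow]
          exact hx2.trans (pow_le_pow_left₀ (by linarith) (by linarith) B)
        calc r ^ 4 ≤ (2 ^ B * P ^ B) ^ 4 := pow_le_pow_left₀ hr0.le this 4
          _ = _ := by ring
      exact div_le_div₀ (by positivity) h7 (by positivity) h8
    calc cW ^ 2 / (2 ^ B) ^ 4 * (P ^ (12 * k) / P ^ (4 * B))
        = cW ^ 2 * (P ^ (12 * k) / ((2 ^ B) ^ 4 * P ^ (4 * B))) := by
          field_simp
      _ ≤ cW ^ 2 * r ^ (3 * ρ - 4) := by gcongr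
  · calc r ^ (ρ - 2) * L ^ 2 ≤ r ^ (ρ - 2) * (Cq * r ^ (ρ - 1)) ^ 2 := by
          have : 0 ≤ L := le_trans (by positivity) hlW
          gcongr
      _ = Cq ^ 2 * r ^ (3 * ρ - 4) := by rw [e6]; ring
      _ ≤ _ := by gcongr

theorem LI_end {ι : Type*} (S : Finset ι) (D ω W a g f : ι → ℝ)
    {N0 N1 X Y α β γ κ₀ Q E0 P Pq r1 r2 r3 r4 : ℝ} (hκ : 0 < κ₀) (hE0 : 0 < E0)
    (hQ : κ₀ * N0 ≤ Q) (hX : 0 ≤ X) (hY : 0 ≤ Y) (hα : 0 ≤ α) (hβ : 0 ≤ β) (hγ : 0 ≤ γ)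
    (ha : ∀ i, 0 ≤ a i) (hg : ∀ i, 0 ≤ g i) (hf : ∀ i, 0 ≤ f i) (hW : ∀ i, 0 ≤ W i)
    (hWω : ∀ i ∈ S, D i ≤ r4 → W i ≤ 10 * (E0 * ω i) ∧ E0 * ω i ≤ 10 * W i)
    (h1 : r1 ≤ r4) (h2 : r2 ≤ r4) (h3 : r3 ≤ r4) (hN0 : 0 ≤ N0)
    (hcore : Q * ∑ i ∈ S.filter (fun i => D i ≤ r1), ω i * a i ≤
      X * ∑ i ∈ S.filter (fun i => D i ≤ r2), ω i * (α * a i + β * g i + γ * f i) +
      Y * ∑ i ∈ S.filter (fun i => D i ≤ r3), ω i * g i)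
    (c1 : 100 * X * α ≤ κ₀ * (1 / P * N0)) (c2 : 100 * X * β + 100 * Y ≤ κ₀ * (1 / P * N1))
    (c3 : 100 * X * γ ≤ κ₀ * Pq) :
    N0 * ∑ i ∈ S.filter (fun i => D i ≤ r1), W i * a i ≤
      1 / P * (N0 * ∑ i ∈ S.filter (fun i => D i ≤ r4), W i * a i +
        N1 * ∑ i ∈ S.filter (fun i => D i ≤ r4), W i * g i) +
      Pq * ∑ i ∈ S.filter (fun i => D i ≤ r4), W i * f i := by
  have key : ∀ (r : ℝ), r ≤ r4 → ∀ u : ι → ℝ, (∀ i, 0 ≤ u i) →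
      E0 * ∑ i ∈ S.filter (fun i => D i ≤ r), ω i * u i ≤
        10 * ∑ i ∈ S.filter (fun i => D i ≤ r4), W i * u i := by
    intro r hr u hu
    calc E0 * ∑ i ∈ S.filter (fun i => D i ≤ r), ω i * u i
        = ∑ i ∈ S.filter (fun i => D i ≤ r), (E0 * ω i) * u i := by
          rw [Finset.mul_sum]; exact Finset.sum_congr rfl fun i _ => by ring
      _ ≤ ∑ i ∈ S.filter (fun i => D i ≤ r), (10 * W i) * u i := by
          refine Finset.sum_le_sum fun i hi => ?_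
          rw [Finset.mem_filter] at hi
          exact mul_le_mul_of_nonneg_right (hWω i hi.1 (hi.2.trans hr)).2 (hu i)
      _ ≤ ∑ i ∈ S.filter (fun i => D i ≤ r4), (10 * W i) * u i := by
          refine Finset.sum_le_sum_of_subset_of_nonneg (fun i hi => ?_) fun i _ _ =>
            mul_nonneg (mul_nonneg (by norm_num) (hW i)) (hu i)
          rw [Finset.mem_filter] at hi ⊢
          exact ⟨hi.1, hi.2.trans hr⟩
      _ = 10 * ∑ i ∈ S.filter (fun i => D i ≤ r4), W i * u i := by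
          rw [Finset.mul_sum]; exact Finset.sum_congr rfl fun i _ => by ring
  have hlow : ∑ i ∈ S.filter (fun i => D i ≤ r1), W i * a i ≤
      10 * (E0 * ∑ i ∈ S.filter (fun i => D i ≤ r1), ω i * a i) := by
    rw [Finset.mul_sum, Finset.mul_sum]
    refine Finset.sum_le_sum fun i hi => ?_
    rw [Finset.mem_filter] at hi
    have := mul_le_mul_of_nonneg_right (hWω i hi.1 (hi.2.trans h1)).1 (ha i)
    linarith
  set A4 := ∑ i ∈ S.filter (fun i => D i ≤ r4), W i * a i with hA4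
  set G4 := ∑ i ∈ S.filter (fun i => D i ≤ r4), W i * g i with hG4
  set F4 := ∑ i ∈ S.filter (fun i => D i ≤ r4), W i * f i with hF4
  have hA0 : 0 ≤ A4 := Finset.sum_nonneg fun i _ => mul_nonneg (hW i) (ha i)
  have hG0 : 0 ≤ G4 := Finset.sum_nonneg fun i _ => mul_nonneg (hW i) (hg i)
  have hF0 : 0 ≤ F4 := Finset.sum_nonneg fun i _ => mul_nonneg (hW i) (hf i)
  have k1 := key r2 h2 (fun i => α * a i + β * g i + γ * f i) fun i =>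
    add_nonneg (add_nonneg (mul_nonneg hα (ha i)) (mul_nonneg hβ (hg i))) (mul_nonneg hγ (hf i))
  have k1' : ∑ i ∈ S.filter (fun i => D i ≤ r4), W i * (α * a i + β * g i + γ * f i) =
      α * A4 + β * G4 + γ * F4 := by
    rw [hA4, hG4, hF4, Finset.mul_sum, Finset.mul_sum, Finset.mul_sum, ← Finset.sum_add_distrib,
      ← Finset.sum_add_distrib]
    exact Finset.sum_congr rfl fun i _ => by ring
  rw [k1'] at k1
  have k2 := key r3 h3 g hg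
  set L1 := ∑ i ∈ S.filter (fun i => D i ≤ r1), W i * a i with hL1
  have hL10 : 0 ≤ L1 := Finset.sum_nonneg fun i _ => mul_nonneg (hW i) (ha i)
  have hω0 : 0 ≤ ∑ i ∈ S.filter (fun i => D i ≤ r1), ω i * a i := by
    have : 0 ≤ E0 * ∑ i ∈ S.filter (fun i => D i ≤ r1), ω i * a i := by linarith
    exact nonneg_of_mul_nonneg_right this hE0
  have main : κ₀ * (N0 * L1) ≤ κ₀ * (1 / P * (N0 * A4 + N1 * G4) + Pq * F4) := by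
    calc κ₀ * (N0 * L1) = (κ₀ * N0) * L1 := by ring
      _ ≤ Q * L1 := by gcongr
      _ ≤ Q * (10 * (E0 * ∑ i ∈ S.filter (fun i => D i ≤ r1), ω i * a i)) := by
          have : 0 ≤ Q := le_trans (by positivity) hQ
          gcongr
      _ = 10 * E0 * (Q * ∑ i ∈ S.filter (fun i => D i ≤ r1), ω i * a i) := by ring
      _ ≤ 10 * E0 * (X * ∑ i ∈ S.filter (fun i => D i ≤ r2), ω i * (α * a i + β * g i + γ * f i) +
          Y * ∑ i ∈ S.filter (fun i => D i ≤ r3), ω i * g i) := by gcongr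
      _ = 10 * (X * (E0 * ∑ i ∈ S.filter (fun i => D i ≤ r2), ω i * (α * a i + β * g i + γ * f i)) +
          Y * (E0 * ∑ i ∈ S.filter (fun i => D i ≤ r3), ω i * g i)) := by ring
      _ ≤ 10 * (X * (10 * (α * A4 + β * G4 + γ * F4)) + Y * (10 * G4)) := by gcongr
      _ = (100 * X * α) * A4 + (100 * X * β + 100 * Y) * G4 + (100 * X * γ) * F4 := by ring
      _ ≤ (κ₀ * (1 / P * N0)) * A4 + (κ₀ * (1 / P * N1)) * G4 + (κ₀ * Pq) * F4 := by gcongr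
      _ = _ := by ring
  exact le_of_mul_le_mul_left main hκ

theorem LI_near {x : E d} {z y : Vtx d} {m : ℕ} (hz : ∀ i, |x i - z i| ≤ (m : ℝ))
    (hy : ∀ i, |x i - y i| ≤ (m : ℝ) / 2) : y ∈ Lam z (4 * m) := by
  rw [mem_Lam, BAS_le_iff]
  intro i
  refine LI_natAbs_real ?_
  have h1 := hz i
  have h2 := hy i
  push_cast
  rw [abs_le] at h1 h2 ⊢
  have hm : (0 : ℝ) ≤ m := Nat.cast_nonneg m
  constructor <;> linarith [h1.1, h1.2, h2.1, h2.2]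

theorem LI_pd_smooth {f : E d → ℝ} (hf : ContDiff ℝ (⊤ : ℕ∞) f) (i : Fin d) :
    ContDiff ℝ (⊤ : ℕ∞) (pd i f) := by
  unfold pd
  exact (hf.fderiv_right (m := (⊤ : ℕ∞)) (by norm_cast)).clm_apply contDiff_const

theorem LI_F_cont {V : E d → ℝ} (hV : ContDiff ℝ (⊤ : ℕ∞) V) (t : ℝ) :
    Continuous fun x => lapl V x ^ 2 + (t ^ 2)⁻¹ * ∑ i, pd i V x ^ 2 + (t ^ 4)⁻¹ * V x ^ 2 := by
  have h1 : ∀ i, Continuous (pd i V) := fun i => (LI_pd_smooth hV i).continuous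
  have h2 : Continuous (lapl V) := by
    unfold lapl
    exact continuous_finsetSum _ fun i _ => (LI_pd_smooth (LI_pd_smooth hV i) i).continuous
  have h3 := hV.continuous
  fun_prop

theorem LI_swap {ι : Type*} (S S' : Finset ι) (p : ι → Prop) (u : ι → ℝ)
    (hS : ∀ y, y ∉ S → u y = 0) (hS' : ∀ y, p y → y ∈ S') :
    ∑ y ∈ S.filter p, u y = ∑ y ∈ S'.filter p, u y := by
  refine Finset.sum_subset (fun y hy => ?_) fun y hy hy' => ?_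
  · rw [Finset.mem_filter] at hy ⊢
    exact ⟨hS' y hy.2, hy.2⟩
  · rw [Finset.mem_filter] at hy hy'
    exact hS y fun h => hy' ⟨h, hy.2⟩

theorem LI_mem {x₀ y : Vtx d} {m : ℕ} (h : ‖toE y - toE x₀‖ ≤ 4 * (m : ℝ)) : y ∈ Lam x₀ (4 * m) := by
  rw [mem_Lam, BAS_le_iff]
  intro i
  refine LI_natAbs_real ?_
  have h1 := (LI_abs_coord_le (toE y - toE x₀) i).trans h
  have h2 : (toE y - toE x₀) i = (y i : ℝ) - x₀ i := rfl
  rw [h2] at h1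
  push_cast
  exact h1

theorem LI_dist_le {d : ℕ} {x y : E d} {a : ℝ} (ha : 0 ≤ a) (h : ∀ i, |x i - y i| ≤ a) :
    ‖x - y‖ ≤ a * d := LI_norm_le (x - y) ha fun i => h i

/-- the weight on the ball of radius `4 t` -/
theorem LI_geom {d : ℕ} {P r ρ cW Cq ε₁ : ℝ} {A k j : ℕ} {l x₀ : E d}
    {Sb : E d →L[ℝ] E d →L[ℝ] ℝ} {Φ : E d → ℝ} (hP1 : 1 ≤ P) (hk : 1 ≤ k) (hk1 : 3 * j + 1 ≤ 2 * k)
    (hcW : 0 < cW) (hCq : 0 < Cq) (hε₁ : 0 < ε₁) (hP8 : 8 ≤ P) (hPd : 5 * (d : ℝ) ≤ P)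
    (m2 : 2 * (max 1 Cq) / (ε₁ * cW) ≤ P) (m3 : 1 / (ε₁ * cW ^ 2) ≤ P) (m4 : 20 * d * Cq ≤ P)
    (m5 : 64 * Cq ≤ P) (hρ0 : 0 < ρ) (hρ1 : ρ < 1) (hρB : ρ * ((A + 5 * k : ℕ) : ℝ) = 4 * k)
    (hx1 : P ^ (A + 5 * k) ≤ r) (hx2 : r ≤ (P + 1) ^ (A + 5 * k))
    (hlW : cW * r ^ (ρ - 1) ≤ ‖l‖) (hlC : ‖l‖ ≤ Cq * r ^ (ρ - 1)) (hSsym : ∀ x y, Sb x y = Sb y x)
    (hSC : ‖Sb‖ ≤ Cq * r ^ (ρ - 2))
    (htrace : ∀ τ : E d, inner ℝ l τ = 0 → cW * r ^ (ρ - 2) * ‖l‖ ^ 2 * ‖τ‖ ^ 2 ≤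
          Sb l l * ‖τ‖ ^ 2 + Sb τ τ * ‖l‖ ^ 2)
    (htay : ∀ x, ‖x - x₀‖ ≤ r / 2 →
          |Φ x - Φ x₀ - quad l Sb (x - x₀)| ≤ Cq * r ^ (ρ - 3) * ‖x - x₀‖ ^ 3) :
    (‖Sb‖ ≤ max 1 Cq * r ^ (ρ - 2)) ∧
    (∀ τ : E d, inner ℝ l τ = 0 → min cW 1 * r ^ (ρ - 2) * ‖l‖ ^ 2 * ‖τ‖ ^ 2 ≤
      Sb l l * ‖τ‖ ^ 2 + Sb τ τ * ‖l‖ ^ 2) ∧
    (max 1 Cq * r ^ (ρ - 2) * (2 * P ^ (A + 3 * k + j)) ≤ ε₁ * ‖l‖) ∧
    (r ^ (ρ - 2) ≤ ε₁ * ‖l‖ ^ 2) ∧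
    (∀ x y : E d, ‖x - x₀‖ ≤ 2 * P ^ (A + 3 * k + j) → (∀ i, |x i - y i| ≤ 5 * P ^ A) →
      |quad l Sb (x - x₀) - quad l Sb (y - x₀)| ≤ 1) ∧
    (∀ y : E d, ‖y - x₀‖ ≤ 4 * P ^ (A + 3 * k + j) →
      |Φ y - Φ x₀ - quad l Sb (y - x₀)| ≤ 1) := by
  have hP0 : 0 < P := by linarith
  have hs1 : 1 ≤ P ^ A := one_le_pow₀ hP1
  have hs0 : 0 < P ^ A := by linarith
  have ht0 : 0 < P ^ (A + 3 * k + j) := by positivity
  have hst5 : 5 * d * P ^ A ≤ P ^ (A + 3 * k + j) := LI_pow hP1 hPd (by omega)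
  have htr : 8 * P ^ (A + 3 * k + j) ≤ P ^ (A + 5 * k) := LI_pow hP1 hP8 (by omega)
  have hr8 : 8 * P ^ (A + 3 * k + j) ≤ r := htr.trans hx1
  have hr0 : 0 < r := by linarith
  obtain ⟨e1, e2, e3, e4, e5, -, -⟩ :=
    LI_scales hP1 hcW hCq hx1 hx2 hρ0 hρ1 hρB hlW hlC
  have hσ0 : 0 < r ^ (ρ - 2) := Real.rpow_pos_of_pos hr0 _
  have hP4 : P ≤ P ^ (4 * k) := by
    calc P = P ^ 1 := (pow_one P).symm
      _ ≤ P ^ (4 * k) := pow_le_pow_right₀ hP1 (by omega)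
  refine ⟨hSC.trans (by gcongr; exact le_max_right _ _), ?_, ?_, ?_, ?_, ?_⟩
  · intro τ hτ
    refine le_trans ?_ (htrace τ hτ)
    gcongr
    exact min_le_left _ _
  · have h5 : 2 * (max 1 Cq) / (ε₁ * cW) * P ^ (A + 3 * k + j) ≤ P ^ (A + 5 * k) :=
      LI_pow hP1 m2 (by omega)
    have h6 : 2 * (max 1 Cq) / (ε₁ * cW) * P ^ (A + 3 * k + j) ≤ r := h5.trans hx1
    have h7 : 2 * max 1 Cq * P ^ (A + 3 * k + j) ≤ ε₁ * cW * r := by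
      rw [div_mul_eq_mul_div, div_le_iff₀ (by positivity)] at h6
      linarith
    calc max 1 Cq * r ^ (ρ - 2) * (2 * P ^ (A + 3 * k + j))
        = r ^ (ρ - 2) * (2 * max 1 Cq * P ^ (A + 3 * k + j)) := by ring
      _ ≤ r ^ (ρ - 2) * (ε₁ * cW * r) := by gcongr
      _ = ε₁ * (cW * r ^ (ρ - 1)) := by rw [e1]; ring
      _ ≤ ε₁ * ‖l‖ := by gcongr
  · have h5 : 1 ≤ ε₁ * cW ^ 2 * P ^ (4 * k) := by
      rw [div_le_iff₀ (by positivity)] at m3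
      calc (1 : ℝ) ≤ P * (ε₁ * cW ^ 2) := m3
        _ ≤ P ^ (4 * k) * (ε₁ * cW ^ 2) := by gcongr
        _ = _ := by ring
    calc r ^ (ρ - 2) = r ^ (ρ - 2) * 1 := by ring
      _ ≤ r ^ (ρ - 2) * (ε₁ * cW ^ 2 * P ^ (4 * k)) := by gcongr
      _ = ε₁ * (r ^ (ρ - 2) * P ^ (4 * k) * cW ^ 2) := by ring
      _ ≤ ε₁ * (r ^ (ρ - 2) * r ^ ρ * cW ^ 2) := by gcongr
      _ ≤ ε₁ * ‖l‖ ^ 2 := by gcongr
  · intro x y hx hxy
    have h5 : ‖x - y‖ ≤ 5 * P ^ A * d := LI_dist_le (by positivity) hxy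
    have h6 : ‖y - x₀‖ ≤ 3 * P ^ (A + 3 * k + j) := by
      have : ‖y - x₀‖ ≤ ‖x - x₀‖ + ‖x - y‖ := by
        have := norm_sub_le (x - x₀) (x - y)
        simpa using this
      linarith [mul_comm (5 * P ^ A) (d : ℝ)]
    have h7 := LI_quad_diff l Sb hSsym (x - x₀) (y - x₀)
    have h8 : (x - x₀) - (y - x₀) = x - y := by abel
    rw [h8] at h7
    refine h7.trans ?_
    have h9 : ‖l‖ + ‖Sb‖ * (‖x - x₀‖ + ‖y - x₀‖) / 2 ≤ 4 * (Cq * r ^ (ρ - 1)) := by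
      have h10 : ‖Sb‖ * (‖x - x₀‖ + ‖y - x₀‖) ≤ (Cq * r ^ (ρ - 2)) * (5 * P ^ (A + 3 * k + j)) := by
        gcongr
        linarith
      have h11 : (Cq * r ^ (ρ - 2)) * (5 * P ^ (A + 3 * k + j)) ≤ (Cq * r ^ (ρ - 2)) * r := by
        gcongr; linarith
      have h12 : (Cq * r ^ (ρ - 2)) * r = Cq * r ^ (ρ - 1) := by rw [e1]; ring
      have h13 : 0 ≤ Cq * r ^ (ρ - 1) := by positivity
      linarith
    calc (‖l‖ + ‖Sb‖ * (‖x - x₀‖ + ‖y - x₀‖) / 2) * ‖x - y‖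
        ≤ 4 * (Cq * r ^ (ρ - 1)) * (5 * P ^ A * d) := by gcongr
      _ ≤ 4 * (Cq * (P ^ (4 * k) / P ^ (A + 5 * k))) * (5 * P ^ A * d) := by gcongr
      _ = (20 * d * Cq) * P ^ (4 * k + A) / P ^ (A + 5 * k) := by rw [pow_add P (4 * k) A]; ring
      _ ≤ 1 := by
          rw [div_le_one (by positivity)]
          exact LI_pow hP1 m4 (by omega)
  · intro y hy
    refine (htay y (by linarith)).trans ?_
    calc Cq * r ^ (ρ - 3) * ‖y - x₀‖ ^ 3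
        ≤ Cq * (P ^ (4 * k) / P ^ (3 * (A + 5 * k))) * (4 * P ^ (A + 3 * k + j)) ^ 3 := by
          gcongr
      _ = (64 * Cq) * P ^ (4 * k + 3 * (A + 3 * k + j)) / P ^ (3 * (A + 5 * k)) := by
          rw [pow_add P (4 * k), mul_comm 3 (A + 3 * k + j), pow_mul P (A + 3 * k + j)]; ring
      _ ≤ 1 := by
          rw [div_le_one (by positivity)]
          exact LI_pow hP1 m5 (by omega)

/-- the conclusion at one scale -/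
theorem LI_two {d : ℕ} {c : ℕ} {CL θ₀ P Cq Q C₁ C₂ C₃ C₄ Cs Cc Ci κ₀ : ℝ} {A k j M M₀ c₁ c₂ c₃ q₁ : ℕ}
    {η : Conf d} {C0 : Set (Vtx d)} {l : E d} {x₀ : Vtx d}
    {Sb : E d →L[ℝ] E d →L[ℝ] ℝ} {Φ : E d → ℝ} {S : Finset (Vtx d)} {v : Vtx d → ℝ}
    (hPM : P = M) (hM1' : 1 ≤ M) (hP8 : 8 ≤ P) (hPd : 5 * (d : ℝ) ≤ P)
    (hj : c₁ + c₂ + c₃ + 2 ≤ j) (hk1 : 3 * j + 1 ≤ 2 * k)
    (hk2 : c₁ + c₂ + c₃ + 2 + 2 * j ≤ 2 * k)
    (hE : Env c CL θ₀ A k η C0 M₀) (hM0 : M₀ ≤ M)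
    (hx2 : ‖toE x₀‖ ≤ (P + 1) ^ (A + 5 * k))
    (hCs : 0 < Cs) (hCc : 0 < Cc) (hCi : 0 < Ci) (hκ : 0 < κ₀)
    (m6 : 100 * (Cs * |C₃| * Cc * Ci) * |C₁| ≤ κ₀ / 4 * P)
    (m7 : 100 * (Cs * |C₃| * Cc * Ci) * d * |C₂| ≤ κ₀ / 4 * P)
    (m8 : 100 * (Cs * |C₃| * Cc * Ci) * |C₄| ≤ κ₀ / 4 * P)
    (m9 : 100 * (Cs * |C₃| * Ci * Cq ^ 2) ≤ κ₀ / 2 * P)
    (m10 : 100 * (Cs * |C₃| * Cc * Ci) * |C₁| ≤ κ₀ * P) (hQ0 : 0 ≤ Q)
    (hQlow : κ₀ * (P ^ (12 * k) / P ^ (4 * (A + 5 * k))) ≤ Q)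
    (hQup : Q ≤ Cq ^ 2 * (P ^ (12 * k) / P ^ (4 * (A + 5 * k))))
    (hvS : ∀ y, y ∉ S → v y = 0) (hvC : ∀ y, y ∉ C0 → v y = 0)
    (hint : ∀ T, 0 < T → ∀ (x₀ : E d) (ω : E d → ℝ), Continuous ω → (∀ x, 0 ≤ ω x) →
      (∀ x y, ‖x - x₀‖ ≤ T → (∀ i, |x i - y i| ≤ 5 * P ^ A) → ω x ≤ 10 * ω y) →
      ∀ (S : Finset (Vtx d)) (a : Vtx d → ℝ), (∀ y, 0 ≤ a y) →
        ∫ x in Metric.closedBall x₀ T, ω x * ∑ y ∈ S.filter (fun y => ∀ i, |x i - y i| ≤ 5 * P ^ A), a y ≤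
          Ci * (P ^ A) ^ d * ∑ y ∈ S.filter (fun y => ‖toE y - x₀‖ ≤ T + 5 * P ^ A * d), ω (toE y) * a y)
    (hsum : ∀ T, d * P ^ A ≤ T → ∀ (x₀ : E d) (ω : E d → ℝ), Continuous ω → (∀ x, 0 ≤ ω x) →
      (∀ x y, ‖x - x₀‖ ≤ T → (∀ i, |x i - y i| ≤ 5 * P ^ A) → ω y ≤ 10 * ω x) →
      ∀ (S : Finset (Vtx d)) (a : Vtx d → ℝ), (∀ y, 0 ≤ a y) →
        (P ^ A) ^ d * ∑ y ∈ S.filter (fun y => ‖toE y - x₀‖ ≤ T / 2), ω (toE y) * a y ≤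
          Cs * ∫ x in Metric.closedBall x₀ T,
            ω x * ∑ y ∈ S.filter (fun y => ∀ i, |x i - y i| ≤ P ^ A / 2), a y)
    (hq : ∀ x y : E d, ‖x - toE x₀‖ ≤ 2 * P ^ (A + 3 * k + j) → (∀ i, |x i - y i| ≤ 5 * P ^ A) →
      |quad l Sb (x - toE x₀) - quad l Sb (y - toE x₀)| ≤ 1)
    (htay' : ∀ y : E d, ‖y - toE x₀‖ ≤ 4 * P ^ (A + 3 * k + j) →
      |Φ y - Φ (toE x₀) - quad l Sb (y - toE x₀)| ≤ 1)
    (hcut : Q * ∫ x in Metric.closedBall (toE x₀) (P ^ (A + 3 * k + j)),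
        Real.exp (2 * quad l Sb (x - toE x₀)) * Vc (P ^ A) S v x ^ 2 ≤
      Cc * ∫ x in Metric.closedBall (toE x₀) (2 * P ^ (A + 3 * k + j)),
        Real.exp (2 * quad l Sb (x - toE x₀)) *
        (lapl (Vc (P ^ A) S v) x ^ 2 + ((P ^ (A + 3 * k + j)) ^ 2)⁻¹ * ∑ i, pd i (Vc (P ^ A) S v) x ^ 2 +
          ((P ^ (A + 3 * k + j)) ^ 4)⁻¹ * Vc (P ^ A) S v x ^ 2))
    (h1 : ∀ z, Grid (M ^ A) z → Loc c CL θ₀ A k η M z →
      (∀ y ∈ Lam z (7 * M ^ A), ¬ Far η (6 * M) y → v y = 0) →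
        ∀ x : E d, (∀ i, |x i - z i| ≤ P ^ A) →
          lapl (Vc (P ^ A) S v) x ^ 2 ≤ C₁ * P ^ c₁ * ((P ^ A) ^ d)⁻¹ *
              (((P ^ A) ^ 4 * P ^ (12 * k))⁻¹ * ∑ y ∈ Lam z (4 * M ^ A), v y ^ 2 +
               ((P ^ A) ^ 2 * P ^ (12 * k))⁻¹ * En η (Lam z (4 * M ^ A)) v) +
            C₁ * P ^ q₁ * ∑ y ∈ Lam z (4 * M ^ A), Lap η v y ^ 2)
    (h2 : ∀ z, Grid (M ^ A) z → Loc c CL θ₀ A k η M z →
      (∀ y ∈ Lam z (7 * M ^ A), ¬ Far η (6 * M) y → v y = 0) →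
        ∀ x : E d, (∀ i, |x i - z i| ≤ P ^ A) → ∀ i,
          pd i (Vc (P ^ A) S v) x ^ 2 ≤ C₂ * P ^ c₂ * ((P ^ A) ^ d)⁻¹ *
              (En η (Lam z (4 * M ^ A)) v +
               ((P ^ A) ^ 2 * P ^ (12 * k))⁻¹ * ∑ y ∈ Lam z (4 * M ^ A), v y ^ 2))
    (h3 : ∀ z, Grid (M ^ A) z → Loc c CL θ₀ A k η M z →
      (∀ y ∈ Lam z (7 * M ^ A), ¬ Far η (6 * M) y → v y = 0) →
        ∀ x : E d, (∀ i, |x i - z i| ≤ P ^ A) →
          ∑ y ∈ (Lam z (4 * M ^ A)).filter (fun y => ∀ i, |x i - y i| ≤ P ^ A / 2), v y ^ 2 ≤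
            C₃ * (P ^ A) ^ d * Vc (P ^ A) S v x ^ 2 +
              C₃ * P ^ c₃ * (P ^ A) ^ 2 * En η (Lam z (4 * M ^ A)) v)
    (h4 : ∀ (s : ℕ), 1 ≤ s → ∀ (z : Vtx d) (S : Finset (Vtx d))
    (v : Vtx d → ℝ), (∀ y, y ∉ S → v y = 0) → ∀ x : E d, (∀ i, |x i - z i| ≤ (s : ℝ)) →
      Vc (s : ℝ) S v x ^ 2 ≤ C₄ * ((s : ℝ) ^ d)⁻¹ * ∑ y ∈ Lam z (4 * s), v y ^ 2) :
    P ^ (12 * k) / P ^ (4 * (A + 5 * k)) *
              ∑ y ∈ S.filter (fun y => ‖toE y - toE x₀‖ ≤ P ^ (A + 3 * k + j) / 2),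
                Real.exp (2 * Φ (toE y)) * v y ^ 2 ≤
            1 / P * (P ^ (12 * k) / P ^ (4 * (A + 5 * k)) *
              ∑ y ∈ S.filter (fun y => ‖toE y - toE x₀‖ ≤ 4 * P ^ (A + 3 * k + j)),
                Real.exp (2 * Φ (toE y)) * v y ^ 2 +
              P ^ (4 * k) / P ^ (2 * (A + 5 * k)) *
              ∑ y ∈ (Lam x₀ (4 * M ^ (A + 3 * k + j))).filter
                  (fun y => ‖toE y - toE x₀‖ ≤ 4 * P ^ (A + 3 * k + j)),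
                ∑ i, (if η y i then Real.exp (2 * Φ (toE y)) * grad v y i ^ 2 else 0)) +
            P ^ (A * d + q₁ + 1) * ∑ y ∈ (Lam x₀ (4 * M ^ (A + 3 * k + j))).filter
                  (fun y => ‖toE y - toE x₀‖ ≤ 4 * P ^ (A + 3 * k + j)),
                Real.exp (2 * Φ (toE y)) * Lap η v y ^ 2 := by
  have hP1 : 1 ≤ P := by linarith
  have hP0 : 0 < P := by linarith
  have hs1 : 1 ≤ P ^ A := one_le_pow₀ hP1
  have hs0 : 0 < P ^ A := by linarith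
  have ht0 : 0 < P ^ (A + 3 * k + j) := by positivity
  have hst8 : 8 * P ^ A ≤ P ^ (A + 3 * k + j) := LI_pow hP1 hP8 (by omega)
  have hst5 : 5 * d * P ^ A ≤ P ^ (A + 3 * k + j) := LI_pow hP1 hPd (by omega)
  have hds : 0 ≤ (d : ℝ) * P ^ A := by positivity
  have hsM : P ^ A = ((M ^ A : ℕ) : ℝ) := by rw [hPM]; push_cast; rfl
  have htM : P ^ (A + 3 * k + j) = ((M ^ (A + 3 * k + j) : ℕ) : ℝ) := by rw [hPM]; push_cast; rfl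
  have hst8' : 8 * M ^ A ≤ M ^ (A + 3 * k + j) := by
    have : (8 : ℝ) * ((M ^ A : ℕ) : ℝ) ≤ ((M ^ (A + 3 * k + j) : ℕ) : ℝ) := by
      rw [← hsM, ← htM]; exact hst8
    exact_mod_cast this
  have hx2' : ‖toE x₀‖ ≤ ((M : ℝ) + 1) ^ (A + 5 * k) := by rw [← hPM]; exact hx2
  have hds' : (d : ℝ) * P ^ A ≤ P ^ (A + 3 * k + j) := by linarith
  have hEn0 : ∀ z, 0 ≤ En η (Lam z (4 * M ^ A)) v := fun z =>
    Finset.sum_nonneg fun y _ => Finset.sum_nonneg fun j _ => by split_ifs <;> positivity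
  obtain ⟨α, hα⟩ : ∃ α : ℝ, α = |C₁| * P ^ c₁ * ((P ^ A) ^ 4 * P ^ (12 * k))⁻¹ +
    d * ((P ^ (A + 3 * k + j)) ^ 2)⁻¹ * |C₂| * P ^ c₂ * ((P ^ A) ^ 2 * P ^ (12 * k))⁻¹ +
    ((P ^ (A + 3 * k + j)) ^ 4)⁻¹ * |C₄| := ⟨_, rfl⟩
  obtain ⟨β, hβ⟩ : ∃ β : ℝ, β = |C₁| * P ^ c₁ * ((P ^ A) ^ 2 * P ^ (12 * k))⁻¹ +
    d * ((P ^ (A + 3 * k + j)) ^ 2)⁻¹ * |C₂| * P ^ c₂ := ⟨_, rfl⟩
  obtain ⟨γ, hγ⟩ : ∃ γ : ℝ, γ = |C₁| * P ^ q₁ := ⟨_, rfl⟩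
  obtain ⟨κ, hκd⟩ : ∃ κ : ℝ, κ = |C₃| * P ^ c₃ * (P ^ A) ^ 2 := ⟨_, rfl⟩
  have hα0 : 0 ≤ α := by rw [hα]; positivity
  have hβ0 : 0 ≤ β := by rw [hβ]; positivity
  have hγ0 : 0 ≤ γ := by rw [hγ]; positivity
  have hκd0 : 0 ≤ κ := by rw [hκd]; positivity
  have hcore := LI_core (d := d) (Ci := Ci) (Cs := Cs) (Cc := Cc) (C₃ := |C₃|) (κ := κ) (Q := Q)
    (s := P ^ A) (t := P ^ (A + 3 * k + j)) hCs hCc (abs_nonneg _) hκd0 hQ0 hs1 ht0 hds'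
    hint hsum (x₀ := toE x₀) (ω := fun x => Real.exp (2 * quad l Sb (x - toE x₀)))
    (LI_quad_cont l (toE x₀) Sb) (fun x => (Real.exp_pos _).le)
    (fun x y hx hxy => ⟨LI_exp_comp (hq x y hx hxy), LI_exp_comp (by rw [abs_sub_comm]; exact hq x y hx hxy)⟩)
    (V := Vc (P ^ A) S v) (F := fun x => lapl (Vc (P ^ A) S v) x ^ 2 +
      ((P ^ (A + 3 * k + j)) ^ 2)⁻¹ * ∑ i, pd i (Vc (P ^ A) S v) x ^ 2 +
      ((P ^ (A + 3 * k + j)) ^ 4)⁻¹ * Vc (P ^ A) S v x ^ 2) (vc_smooth _ S v).continuous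
    (LI_F_cont (vc_smooth _ S v) _) hcut
    (S := Lam x₀ (4 * M ^ (A + 3 * k + j))) (a := fun y => v y ^ 2) (g := LI_g η v)
    (b := fun y => ((P ^ A) ^ d)⁻¹ * (α * v y ^ 2 + β * LI_g η v y) + γ * Lap η v y ^ 2)
    (fun y => sq_nonneg _) (LI_g_nonneg η v)
    (fun y => by
      have := LI_g_nonneg η v y
      positivity)
    ?_ ?_
  · obtain ⟨g1, g2⟩ := LI_coef (P := P) (C₁ := C₁) (C₂ := C₂) (C₄ := C₄)
      (G := 100 * (Cs * |C₃| * Cc * Ci)) (G₃ := 100 * (Cs * |C₃| * Ci * Cq ^ 2)) (κ₀ := κ₀)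
      (A := A) (k := k) (j := j) (d := d) (c₁ := c₁) (c₂ := c₂) (c₃ := c₃) hP1 hκ m9 m6 m7 m8 hj hk2
    rw [← hα] at g1
    rw [← hβ] at g2
    have hmem : ∀ (y : Vtx d) (u : ℝ), u ≤ 4 * P ^ (A + 3 * k + j) → ‖toE y - toE x₀‖ ≤ u →
        y ∈ Lam x₀ (4 * M ^ (A + 3 * k + j)) := by
      intro y u hu hy
      refine LI_mem ?_
      rw [← htM]; exact hy.trans hu
    rw [LI_swap S (Lam x₀ (4 * M ^ (A + 3 * k + j))) (fun y => ‖toE y - toE x₀‖ ≤ P ^ (A + 3 * k + j) / 2)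
        (fun y => Real.exp (2 * Φ (toE y)) * v y ^ 2) (fun y hy => by rw [hvS y hy]; ring)
        (fun y hy => hmem y _ (by linarith) hy),
      LI_swap S (Lam x₀ (4 * M ^ (A + 3 * k + j))) (fun y => ‖toE y - toE x₀‖ ≤ 4 * P ^ (A + 3 * k + j))
        (fun y => Real.exp (2 * Φ (toE y)) * v y ^ 2) (fun y hy => by rw [hvS y hy]; ring)
        (fun y hy => hmem y _ le_rfl hy)]
    have q2 : ∑ y ∈ (Lam x₀ (4 * M ^ (A + 3 * k + j))).filter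
        (fun y => ‖toE y - toE x₀‖ ≤ 4 * P ^ (A + 3 * k + j)),
        ∑ i, (if η y i then Real.exp (2 * Φ (toE y)) * grad v y i ^ 2 else 0) =
        ∑ y ∈ (Lam x₀ (4 * M ^ (A + 3 * k + j))).filter
          (fun y => ‖toE y - toE x₀‖ ≤ 4 * P ^ (A + 3 * k + j)),
          Real.exp (2 * Φ (toE y)) * LI_g η v y := by
      refine Finset.sum_congr rfl fun y _ => ?_
      unfold LI_g
      rw [Finset.mul_sum]
      exact Finset.sum_congr rfl fun i _ => by split_ifs <;> ring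
    rw [q2]
    refine LI_end (Lam x₀ (4 * M ^ (A + 3 * k + j))) (fun y => ‖toE y - toE x₀‖)
      (fun y => Real.exp (2 * quad l Sb (toE y - toE x₀))) (fun y => Real.exp (2 * Φ (toE y)))
      (fun y => v y ^ 2) (LI_g η v) (fun y => Lap η v y ^ 2) (X := Cs * |C₃| * Cc * Ci)
      (Y := Cs * Q * κ * Ci) (α := α) (β := β) (γ := (P ^ A) ^ d * γ)
      (κ₀ := κ₀) (Q := Q) (E0 := Real.exp (2 * Φ (toE x₀)))
      (r2 := 2 * P ^ (A + 3 * k + j) + 5 * P ^ A * d)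
      (r3 := P ^ (A + 3 * k + j) + 5 * P ^ A * d) hκ (Real.exp_pos _) hQlow (by positivity)
      (by positivity) hα0 hβ0
      (by positivity) (fun y => sq_nonneg _) (LI_g_nonneg η v) (fun y => sq_nonneg _)
      (fun y => (Real.exp_pos _).le) ?_ (by linarith) (by linarith) (by linarith) (by positivity) ?_
      ?_ ?_ ?_
    · intro y _ hy
      have h5 := htay' (toE y) hy
      have h6 : Real.exp (2 * (Φ (toE x₀) + quad l Sb (toE y - toE x₀))) =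
          Real.exp (2 * Φ (toE x₀)) * Real.exp (2 * quad l Sb (toE y - toE x₀)) := by
        rw [← Real.exp_add]; congr 1; ring
      rw [← h6]
      constructor
      · exact LI_exp_comp (by rw [← sub_sub]; exact h5)
      · exact LI_exp_comp (by rw [abs_sub_comm, ← sub_sub]; exact h5)
    · have h5 : (P ^ A) ^ d * ((P ^ A) ^ d)⁻¹ = 1 := mul_inv_cancel₀ (by positivity)
      refine le_trans hcore (le_of_eq ?_)
      congr 1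
      rw [mul_assoc, Finset.mul_sum]
      congr 1
      refine Finset.sum_congr rfl fun y _ => ?_
      linear_combination (Real.exp (2 * quad l Sb (toE y - toE x₀)) *
          (α * v y ^ 2 + β * LI_g η v y)) * h5
    · exact g1
    · have h6 : 100 * (Cs * Q * κ * Ci) ≤
          100 * (Cs * |C₃| * Ci * Cq ^ 2) * P ^ (12 * k + c₃ + 2 * A) / P ^ (4 * (A + 5 * k)) := by
        calc 100 * (Cs * Q * κ * Ci)
            ≤ 100 * (Cs * (Cq ^ 2 * (P ^ (12 * k) / P ^ (4 * (A + 5 * k)))) * κ * Ci) := by gcongr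
          _ = _ := by
              rw [hκd, pow_add P (12 * k + c₃), pow_add P (12 * k) c₃, mul_comm 2 A, pow_mul P A 2]
              ring
      exact (add_le_add_right h6 _).trans g2
    · calc 100 * (Cs * |C₃| * Cc * Ci) * ((P ^ A) ^ d * γ)
          = (100 * (Cs * |C₃| * Cc * Ci) * |C₁|) * P ^ (A * d + q₁) := by
            rw [hγ, pow_add P (A * d), pow_mul P A d]; ring
        _ ≤ (κ₀ * P) * P ^ (A * d + q₁) := by gcongr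
        _ = κ₀ * P ^ (A * d + q₁ + 1) := by ring
  · intro x hx
    obtain ⟨z, hz1, hz2, hz3, hz4, hz5⟩ := LI_point hE hM0 hM1' (by omega) hst8' hx2' hvC
      (by rw [← hPM]; exact hx)
    rw [← hPM] at hz2
    have k1 := h1 z hz1 hz3 hz4 x hz2
    have k2 := h2 z hz1 hz3 hz4 x hz2
    have hz2' : ∀ i, |x i - z i| ≤ ((M ^ A : ℕ) : ℝ) := by rw [← hsM]; exact hz2
    have k3 := h4 (M ^ A) (Nat.one_le_pow _ _ hM1') z S v hvS x hz2'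
    rw [← hsM] at k3
    refine (LI_add (P := P) hs0 ht0 hP0 (Finset.sum_nonneg fun y _ => sq_nonneg _)
      (Finset.sum_nonneg fun y _ => sq_nonneg _) (hEn0 z) (LI_En_le η _ v) k1 k2 k3).trans ?_
    rw [← hα, ← hβ, ← hγ]
    have k4 := LI_sum_le hz2' hz5 (a := fun y => ((P ^ A) ^ d)⁻¹ * (α * v y ^ 2 + β * LI_g η v y) +
      γ * Lap η v y ^ 2) (fun y => by
        have := LI_g_nonneg η v y
        positivity)
    rw [← hsM] at k4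
    refine le_trans (le_of_eq ?_) k4
    rw [Finset.sum_add_distrib, ← Finset.mul_sum, ← Finset.mul_sum, Finset.sum_add_distrib,
      ← Finset.mul_sum, ← Finset.mul_sum]
  · intro x hx
    obtain ⟨z, hz1, hz2, hz3, hz4, hz5⟩ := LI_point hE hM0 hM1' (by omega) hst8' hx2' hvC
      (by rw [← hPM]; exact hx.trans (by linarith))
    rw [← hPM] at hz2
    have k1 := h3 z hz1 hz3 hz4 x hz2
    have hz2' : ∀ i, |x i - z i| ≤ ((M ^ A : ℕ) : ℝ) := by rw [← hsM]; exact hz2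
    have k4 := LI_sum_le hz2' hz5 (a := LI_g η v) (LI_g_nonneg η v)
    rw [← hsM] at k4
    have hEn : En η (Lam z (4 * M ^ A)) v ≤ _ := (LI_En_le η _ v).trans k4
    have k5 : ∑ y ∈ (Lam x₀ (4 * M ^ (A + 3 * k + j))).filter (fun y => ∀ i, |x i - y i| ≤ P ^ A / 2),
        v y ^ 2 ≤
        ∑ y ∈ (Lam z (4 * M ^ A)).filter (fun y => ∀ i, |x i - y i| ≤ P ^ A / 2), v y ^ 2 := by
      refine Finset.sum_le_sum_of_subset_of_nonneg (fun y hy => ?_) fun y _ _ => sq_nonneg _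
      rw [Finset.mem_filter] at hy ⊢
      refine ⟨LI_near hz2' ?_, hy.2⟩
      rw [← hsM]; exact hy.2
    refine k5.trans (k1.trans ?_)
    calc C₃ * (P ^ A) ^ d * Vc (P ^ A) S v x ^ 2 +
          C₃ * P ^ c₃ * (P ^ A) ^ 2 * En η (Lam z (4 * M ^ A)) v
        ≤ |C₃| * (P ^ A) ^ d * Vc (P ^ A) S v x ^ 2 +
          |C₃| * P ^ c₃ * (P ^ A) ^ 2 * En η (Lam z (4 * M ^ A)) v := by
          have := hEn0 z
          gcongr <;> exact le_abs_self _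
      _ ≤ _ := by
          rw [hκd]
          gcongr

theorem local_ineq (d c : ℕ) (hd : 1 ≤ d) : ∃ j₀ : ℕ, ∀ (j k A : ℕ), j₀ ≤ j → 3 * j + 1 ≤ 2 * k →
    j₀ + 2 * j ≤ 2 * k → 12 * k ≤ A → ∀ (CL θ₀ cW CW R : ℝ), 0 < CL → 0 < θ₀ → 0 < cW →
      ∃ (q M₁ : ℕ), ∀ (M M₀ : ℕ) (η : Conf d) (C0 : Set (Vtx d)) (Φ : E d → ℝ),
        Env c CL θ₀ A k η C0 M₀ → M₀ ≤ M → M₁ ≤ M →
        Wgt ((4 * k : ℝ) / (A + 5 * k)) cW CW R Φ →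
        ∀ x₀ : Vtx d, (M : ℝ) ^ (A + 5 * k) ≤ ‖toE x₀‖ → ‖toE x₀‖ ≤ ((M : ℝ) + 1) ^ (A + 5 * k) →
          cW * ‖toE x₀‖ ^ ((4 * k : ℝ) / (A + 5 * k) - 1) ≤ ‖fderiv ℝ Φ (toE x₀)‖ →
          ∀ (S : Finset (Vtx d)) (v : Vtx d → ℝ), (∀ y, y ∉ S → v y = 0) → (∀ y, y ∉ C0 → v y = 0) →
            (M : ℝ) ^ (12 * k) / (M : ℝ) ^ (4 * (A + 5 * k)) *
              ∑ y ∈ S.filter (fun y => ‖toE y - toE x₀‖ ≤ (M : ℝ) ^ (A + 3 * k + j) / 2),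
                Real.exp (2 * Φ (toE y)) * v y ^ 2 ≤
            1 / (M : ℝ) * ((M : ℝ) ^ (12 * k) / (M : ℝ) ^ (4 * (A + 5 * k)) *
              ∑ y ∈ S.filter (fun y => ‖toE y - toE x₀‖ ≤ 4 * (M : ℝ) ^ (A + 3 * k + j)),
                Real.exp (2 * Φ (toE y)) * v y ^ 2 +
              (M : ℝ) ^ (4 * k) / (M : ℝ) ^ (2 * (A + 5 * k)) *
              ∑ y ∈ (Lam x₀ (4 * M ^ (A + 3 * k + j))).filter
                  (fun y => ‖toE y - toE x₀‖ ≤ 4 * (M : ℝ) ^ (A + 3 * k + j)),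
                ∑ i, (if η y i then Real.exp (2 * Φ (toE y)) * grad v y i ^ 2 else 0)) +
            (M : ℝ) ^ q * ∑ y ∈ (Lam x₀ (4 * M ^ (A + 3 * k + j))).filter
                  (fun y => ‖toE y - toE x₀‖ ≤ 4 * (M : ℝ) ^ (A + 3 * k + j)),
                Real.exp (2 * Φ (toE y)) * Lap η v y ^ 2 := by
  obtain ⟨c₁, H1⟩ := coarse_lapl d c hd
  obtain ⟨c₂, H2⟩ := coarse_grad d c hd
  obtain ⟨c₃, H3⟩ := coarse_lower d c hd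
  obtain ⟨C₄, H4⟩ := coarse_upper d
  refine ⟨c₁ + c₂ + c₃ + 2, fun j k A hj hk1 hk2 hA CL θ₀ cW CW R hCL hθ₀ hcW => ?_⟩
  have hk : 1 ≤ k := by omega
  obtain ⟨C₁, q₁, M₁₁, h1⟩ := H1 A k CL θ₀ hk hA hCL hθ₀
  obtain ⟨C₂, M₁₂, h2⟩ := H2 A k CL θ₀ hk hA hCL hθ₀
  obtain ⟨C₃, M₁₃, h3⟩ := H3 A k CL θ₀ hk hA hCL hθ₀
  clear H1 H2 H3
  obtain ⟨ρ, hρ⟩ : ∃ ρ : ℝ, ρ = (4 * k : ℝ) / (A + 5 * k) := ⟨_, rfl⟩
  have hkR : (1 : ℝ) ≤ k := by exact_mod_cast hk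
  have hAR : 12 * (k : ℝ) ≤ A := by exact_mod_cast hA
  have hB0 : (0 : ℝ) < A + 5 * k := by linarith
  have hρ0 : 0 < ρ := by rw [hρ]; positivity
  have hρ1 : ρ < 1 := by rw [hρ, div_lt_one hB0]; linarith
  have hρB : ρ * ((A + 5 * k : ℕ) : ℝ) = 4 * k := by
    rw [hρ]; push_cast; field_simp
  rw [← hρ]
  obtain ⟨Cq, hCq, hquad⟩ := quad_approx d ρ CW hρ0 hρ1
  obtain ⟨ε₁, Cc, hε₁, hCc, hcar⟩ := carleman_cut d (min cW 1) (max 1 Cq)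
    (lt_min hcW one_pos) (min_le_right _ _) (le_max_left _ _)
  obtain ⟨Ci, hCi, hint⟩ := int_sum d
  obtain ⟨Cs, hCs, hsum⟩ := sum_int d
  obtain ⟨G, hG⟩ : ∃ G : ℝ, G = 100 * (Cs * |C₃| * Cc * Ci) := ⟨_, rfl⟩
  have hG0 : 0 ≤ G := by rw [hG]; positivity
  obtain ⟨κ₀, hκ₀⟩ : ∃ κ₀ : ℝ, κ₀ = cW ^ 2 / (2 ^ (A + 5 * k)) ^ 4 := ⟨_, rfl⟩
  have hκ : 0 < κ₀ := by rw [hκ₀]; positivity
  obtain ⟨G₃, hG₃⟩ : ∃ G₃ : ℝ, G₃ = 100 * (Cs * |C₃| * Ci * Cq ^ 2) := ⟨_, rfl⟩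
  have hG₃0 : 0 ≤ G₃ := by rw [hG₃]; positivity
  -- the threshold
  obtain ⟨M₂, hM₂⟩ := exists_nat_ge (|2 * R| + 2 * (max 1 Cq) / (ε₁ * cW) + 1 / (ε₁ * cW ^ 2) +
    20 * d * Cq + 64 * Cq + 4 * (G * |C₁|) / κ₀ + 4 * (G * d * |C₂|) / κ₀ + 4 * (G * |C₄|) / κ₀ +
    2 * G₃ / κ₀ + G * |C₁| / κ₀)
  refine ⟨A * d + q₁ + 1, M₁₁ + M₁₂ + M₁₃ + M₂ + 8 + 5 * d, ?_⟩
  intro M M₀ η C0 Φ hE hM0 hM1 hW x₀ hx1 hx2 hgr S v hvS hvC
  have hM1' : 1 ≤ M := by omega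
  have hP1 : 1 ≤ (M : ℝ) := by exact_mod_cast hM1'
  have hP0 : 0 < (M : ℝ) := by linarith
  have hP8 : 8 ≤ (M : ℝ) := by exact_mod_cast (by omega : 8 ≤ M)
  have hPd : 5 * (d : ℝ) ≤ (M : ℝ) := by exact_mod_cast (by omega : 5 * d ≤ M)
  have hPM : (M₂ : ℝ) ≤ (M : ℝ) := by exact_mod_cast (by omega : M₂ ≤ M)
  have n1 : 0 ≤ |2 * R| := abs_nonneg _
  have n2 : 0 ≤ 2 * (max 1 Cq) / (ε₁ * cW) := by positivity
  have n3 : 0 ≤ 1 / (ε₁ * cW ^ 2) := by positivity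
  have n4 : 0 ≤ 20 * d * Cq := by positivity
  have n5 : 0 ≤ 64 * Cq := by positivity
  have n6 : 0 ≤ 4 * (G * |C₁|) / κ₀ := by positivity
  have n7 : 0 ≤ 4 * (G * d * |C₂|) / κ₀ := by positivity
  have n8 : 0 ≤ 4 * (G * |C₄|) / κ₀ := by positivity
  have n9 : 0 ≤ 2 * G₃ / κ₀ := by positivity
  have n10 : 0 ≤ G * |C₁| / κ₀ := by positivity
  have m1 : |2 * R| ≤ (M : ℝ) := by linarith
  have m2 : 2 * (max 1 Cq) / (ε₁ * cW) ≤ (M : ℝ) := by linarith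
  have m3 : 1 / (ε₁ * cW ^ 2) ≤ (M : ℝ) := by linarith
  have m4 : 20 * d * Cq ≤ (M : ℝ) := by linarith
  have m5 : 64 * Cq ≤ (M : ℝ) := by linarith
  have m6 : G * |C₁| ≤ κ₀ / 4 * (M : ℝ) := by
    have : 4 * (G * |C₁|) / κ₀ ≤ (M : ℝ) := by linarith
    rw [div_le_iff₀ hκ] at this; linarith
  have m7 : G * d * |C₂| ≤ κ₀ / 4 * (M : ℝ) := by
    have : 4 * (G * d * |C₂|) / κ₀ ≤ (M : ℝ) := by linarith
    rw [div_le_iff₀ hκ] at this; linarith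
  have m8 : G * |C₄| ≤ κ₀ / 4 * (M : ℝ) := by
    have : 4 * (G * |C₄|) / κ₀ ≤ (M : ℝ) := by linarith
    rw [div_le_iff₀ hκ] at this; linarith
  have m9 : G₃ ≤ κ₀ / 2 * (M : ℝ) := by
    have : 2 * G₃ / κ₀ ≤ (M : ℝ) := by linarith
    rw [div_le_iff₀ hκ] at this; linarith
  have m10 : G * |C₁| ≤ κ₀ * (M : ℝ) := by
    have : G * |C₁| / κ₀ ≤ (M : ℝ) := by linarith
    rw [div_le_iff₀ hκ] at this; linarith
  clear n1 n2 n3 n4 n5 n6 n7 n8 n9 n10 hM₂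
  have hMB : (M : ℝ) ≤ (M : ℝ) ^ (A + 5 * k) := by
    calc (M : ℝ) = (M : ℝ) ^ 1 := (pow_one _).symm
      _ ≤ (M : ℝ) ^ (A + 5 * k) := pow_le_pow_right₀ hP1 (by omega)
  have hPr : (M : ℝ) ≤ ‖toE x₀‖ := hMB.trans hx1
  have hRr : 2 * R ≤ ‖toE x₀‖ := (le_abs_self _).trans (m1.trans hPr)
  have hr0 : 0 < ‖toE x₀‖ := by linarith

  obtain ⟨l, Sb, hl, hlC, hSsym, hSC, htrace, htay, -⟩ :=
    hquad cW R Φ hcW hW (toE x₀) hRr (hP1.trans hPr)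
  have hlW : cW * ‖toE x₀‖ ^ (ρ - 1) ≤ ‖l‖ := by rw [hl]; exact hgr
  obtain ⟨b1, b2, b3, b4, b5, b6⟩ := LI_geom (P := (M : ℝ)) (Φ := Φ) hP1 hk hk1 hcW hCq hε₁ hP8 hPd
    m2 m3 m4 m5 hρ0 hρ1 hρB hx1 hx2 hlW hlC hSsym hSC htrace htay
  obtain ⟨-, -, -, -, -, hQlow, hQup⟩ :=
    LI_scales hP1 hcW hCq hx1 hx2 hρ0 hρ1 hρB hlW hlC
  have hs1 : 1 ≤ (M : ℝ) ^ A := one_le_pow₀ hP1
  have hcut := hcar Sb l (‖toE x₀‖ ^ (ρ - 2)) ((M : ℝ) ^ (A + 3 * k + j)) (Real.rpow_pos_of_pos hr0 _)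
    (by positivity) hSsym b1 b2 b3 b4 (toE x₀) (Vc ((M : ℝ) ^ A) S v)
    (by exact_mod_cast contDiff_infty.1 (vc_smooth ((M : ℝ) ^ A) S v) 4)
  rw [hG] at m6 m7 m8 m10
  rw [hG₃] at m9
  refine LI_two (Q := ‖toE x₀‖ ^ (ρ - 2) * ‖l‖ ^ 2) (C₁ := C₁) (C₂ := C₂) (C₃ := C₃) (C₄ := C₄)
    (Cs := Cs) (Cc := Cc) (Ci := Ci) (κ₀ := κ₀) (l := l) (Sb := Sb) rfl hM1' hP8 hPd hj hk1 hk2 hE hM0
    hx2 hCs hCc hCi hκ m6 m7 m8 m9 m10 (by positivity) (by rw [hκ₀]; exact hQlow) hQup hvS hvC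
    (fun T' hT' => hint _ T' hs1 hT') (fun T' hT' => hsum _ T' hs1 hT') b5 b6 hcut
    (fun z a1 a2 a3 x a4 => h1 M (by omega) η z a1 a2 S v hvS a3 x a4)
    (fun z a1 a2 a3 x a4 => h2 M (by omega) η z a1 a2 S v hvS a3 x a4)
    (fun z a1 a2 a3 x a4 => h3 M (by omega) η z a1 a2 S v hvS a3 x a4) H4

end Pool.Agent.Lib.MP_566bac_pr.Hd
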