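import Pool.Agent.Lib.MP_566bac_pr.Hd.CEd
import Pool.Agent.Lib.MP_566bac_pr.Hd.CP
import Pool.Agent.Lib.MP_566bac_pr.Hd.LI

/-!
# The Carleman estimate on the cluster: conclusion
-/

open Finset MeasureTheory ProbabilityTheory Filter
open scoped Classical

namespace Pool.Agent.Lib.MP_566bac_pr.Hd

variable {d : ℕ}

namespace CEm

/-- one side of the local inequality in the form used for the summation -/
theorem li_side {c A k j q M₀ M₁ M₂ : ℕ} {CL θ₀ cW CW R R0 : ℝ} {η : Conf d} {C0 : Set (Vtx d)}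
    {Φ : E d → ℝ} (hB : 1 ≤ A + 5 * k)
    (hq : ∀ (M M₀ : ℕ) (η : Conf d) (C0 : Set (Vtx d)) (Φ : E d → ℝ),
        Env c CL θ₀ A k η C0 M₀ → M₀ ≤ M → M₁ ≤ M →
        Wgt ((4 * k : ℝ) / (A + 5 * k)) cW CW R Φ →
        ∀ x₀ : Vtx d, (M : ℝ) ^ (A + 5 * k) ≤ ‖toE x₀‖ → ‖toE x₀‖ ≤ ((M : ℝ) + 1) ^ (A + 5 * k) →
          cW * ‖toE x₀‖ ^ ((4 * k : ℝ) / (A + 5 * k) - 1) ≤ ‖fderiv ℝ Φ (toE x₀)‖ →
          ∀ (S : Finset (Vtx d)) (v : Vtx d → ℝ), (∀ y, y ∉ S → v y = 0) → (∀ y, y ∉ C0 → v y = 0) →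
            (M : ℝ) ^ (12 * k) / (M : ℝ) ^ (4 * (A + 5 * k)) *
              ∑ y ∈ S.filter (fun y => ‖toE y - toE x₀‖ ≤ (M : ℝ) ^ (A + 3 * k + j) / 2),
                Real.exp (2 * Φ (toE y)) * v y ^ 2 ≤
            1 / (M : ℝ) * ((M : ℝ) ^ (12 * k) / (M : ℝ) ^ (4 * (A + 5 * k)) *
              ∑ y ∈ S.filter (fun y => ‖toE y - toE x₀‖ ≤ 4 * (M : ℝ) ^ (A + 3 * k + j)),
                Real.exp (2 * Φ (toE y)) * v y ^ 2 +
              (M : ℝ) ^ (4 * k) / (M : ℝ) ^ (2 * (A + 5 * k)) *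
              ∑ y ∈ (Lam x₀ (4 * M ^ (A + 3 * k + j))).filter
                  (fun y => ‖toE y - toE x₀‖ ≤ 4 * (M : ℝ) ^ (A + 3 * k + j)),
                ∑ i, (if η y i then Real.exp (2 * Φ (toE y)) * grad v y i ^ 2 else 0)) +
            (M : ℝ) ^ q * ∑ y ∈ (Lam x₀ (4 * M ^ (A + 3 * k + j))).filter
                  (fun y => ‖toE y - toE x₀‖ ≤ 4 * (M : ℝ) ^ (A + 3 * k + j)),
                Real.exp (2 * Φ (toE y)) * Lap η v y ^ 2)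
    (hE : Env c CL θ₀ A k η C0 M₀) (hW : Wgt ((4 * k : ℝ) / (A + 5 * k)) cW CW R Φ)
    (h0 : M₀ ≤ M₂) (h1 : M₁ ≤ M₂) (h2 : 1 ≤ M₂)
    (hR0 : ∀ x : Vtx d, R0 ≤ ‖toE x‖ → M₂ ≤ CEm.Mf (A + 5 * k) x)
    (S : Finset (Vtx d)) (v : Vtx d → ℝ) (hvS : ∀ y, y ∉ S → v y = 0)
    (hvC : ∀ y, y ∉ C0 → v y = 0) (x : Vtx d) (hx : R0 ≤ ‖toE x‖)
    (hgr : cW * ‖toE x‖ ^ ((4 * k : ℝ) / (A + 5 * k) - 1) ≤ ‖fderiv ℝ Φ (toE x)‖) :
    wf (12 * k) (4 * (A + 5 * k)) (Mf (A + 5 * k) x) *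
        ∑ y ∈ S.filter (fun y => ‖toE y - toE x‖ ≤ (Mf (A + 5 * k) x : ℝ) ^ (A + 3 * k + j) / 2),
          Real.exp (2 * Φ (toE y)) * v y ^ 2 ≤
      wf (12 * k) (4 * (A + 5 * k) + 1) (Mf (A + 5 * k) x) *
        ∑ y ∈ S.filter (fun y => ‖toE y - toE x‖ ≤ 4 * (Mf (A + 5 * k) x : ℝ) ^ (A + 3 * k + j)),
          Real.exp (2 * Φ (toE y)) * v y ^ 2 +
      wf (4 * k) (2 * (A + 5 * k) + 1) (Mf (A + 5 * k) x) *
        ∑ y ∈ (S ∪ S.biUnion (fun y => Finset.univ.image fun j => y - ev j)).filter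
            (fun y => ‖toE y - toE x‖ ≤ 4 * (Mf (A + 5 * k) x : ℝ) ^ (A + 3 * k + j)),
          Real.exp (2 * Φ (toE y)) * ∑ i, (if η y i then grad v y i ^ 2 else 0) +
      wf q 0 (Mf (A + 5 * k) x) *
        ∑ y ∈ ((S ∪ S.biUnion (fun y => Finset.univ.image fun j => y - ev j)) ∪
            S.biUnion (fun y => Finset.univ.image fun j => y + ev j)).filter
            (fun y => ‖toE y - toE x‖ ≤ 4 * (Mf (A + 5 * k) x : ℝ) ^ (A + 3 * k + j)),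
          Real.exp (2 * Φ (toE y)) * Lap η v y ^ 2 := by
  have hM := hR0 x hx
  have h := hq (Mf (A + 5 * k) x) M₀ η C0 Φ hE (h0.trans hM) (h1.trans hM) hW x (Mf_pow_le hB x)
    (lt_Mf_succ hB x).le hgr S v hvS hvC
  refine li_form (by omega) ?_ ?_ h
  · have e1 : ∀ y : Vtx d, ∑ i, (if η y i then Real.exp (2 * Φ (toE y)) * grad v y i ^ 2 else 0) =
        Real.exp (2 * Φ (toE y)) * ∑ i, (if η y i then grad v y i ^ 2 else 0) := by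
      intro y
      rw [mul_sum]
      refine sum_congr rfl fun i _ => ?_
      split_ifs
      · rfl
      · rw [mul_zero]
    simp only [e1]
    refine sum_transfer _ _ _ _ ?_ ?_
    · intro y
      refine mul_nonneg (Real.exp_pos _).le (sum_nonneg fun i _ => ?_)
      split_ifs
      · exact sq_nonneg _
      · exact le_rfl
    · intro y hy
      rw [sum_eq_zero, mul_zero]
      intro i _
      rw [grad_off hvS hy i]
      simp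
  · refine sum_transfer _ _ _ _ ?_ ?_
    · intro y
      exact mul_nonneg (Real.exp_pos _).le (sq_nonneg _)
    · intro y hy
      rw [lap_off hvS hy]
      simp

end CEm

theorem carleman_cluster (d c : ℕ) (hd : 1 ≤ d) : ∃ j₀ : ℕ, ∀ (j k A : ℕ), j₀ ≤ j →
    3 * j + 1 ≤ 2 * k → j₀ + 2 * j ≤ 2 * k → 12 * k ≤ A →
      ∀ (CL θ₀ cW CW R : ℝ), 0 < CL → 0 < θ₀ → 0 < cW → ∀ (M₀ : ℕ) (η : Conf d)
        (C0 : Set (Vtx d)) (Φp Φm : E d → ℝ) (e' : E d), Env c CL θ₀ A k η C0 M₀ →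
        Wgt ((4 * k : ℝ) / (A + 5 * k)) cW CW R Φp → Wgt ((4 * k : ℝ) / (A + 5 * k)) cW CW R Φm →
        (∀ x, R ≤ ‖x‖ → 0 ≤ inner ℝ x e' →
          cW * ‖x‖ ^ ((4 * k : ℝ) / (A + 5 * k) - 1) ≤ ‖fderiv ℝ Φp x‖ ∧ Φm x ≤ Φp x) →
        (∀ x, R ≤ ‖x‖ → inner ℝ x e' ≤ 0 →
          cW * ‖x‖ ^ ((4 * k : ℝ) / (A + 5 * k) - 1) ≤ ‖fderiv ℝ Φm x‖ ∧ Φp x ≤ Φm x) →
        ∃ (q : ℕ) (B0 : Finset (Vtx d)), Carl η C0
          (fun y => (Real.exp (2 * Φp (toE y)) + Real.exp (2 * Φm (toE y))) /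
            (1 + ‖toE y‖) ^ (4 : ℕ))
          (fun y => (Real.exp (2 * Φp (toE y)) + Real.exp (2 * Φm (toE y))) *
            (1 + ‖toE y‖) ^ q) B0 := by
  obtain ⟨j₀, hloc⟩ := local_ineq d c hd
  refine ⟨j₀, ?_⟩
  intro j k A hj hjk hjk' hA CL θ₀ cW CW R hCL hθ₀ hcW M₀ η C0 Φp Φm e' hE hWp hWm hp hm
  have hk : 1 ≤ k := by omega
  have hB : 1 ≤ A + 5 * k := by omega
  have hkr : (1 : ℝ) ≤ k := by exact_mod_cast hk
  have hAr : (12 * k : ℝ) ≤ A := by exact_mod_cast hA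
  have hρ : 0 < (4 * k : ℝ) / (A + 5 * k) := by positivity
  have hρ1 : (4 * k : ℝ) / (A + 5 * k) < 1 := by
    rw [div_lt_one (by positivity)]
    linarith
  obtain ⟨q, M₁, hq⟩ := hloc j k A hj hjk hjk' hA CL θ₀ cW CW R hCL hθ₀ hcW
  obtain ⟨K, m₃, hK, hm₃, hts⟩ := CEm.two_sides d (A + 5 * k) (A + 3 * k + j) (12 * k)
    (4 * (A + 5 * k)) (4 * k) (2 * (A + 5 * k)) q (by omega) (by omega)
  obtain ⟨C₁, hC₁, hW⟩ := CEm.W_ok ((4 * k : ℝ) / (A + 5 * k)) cW CW R hρ hρ1 Φp Φm hWp hWm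
  obtain ⟨C', hC', hcac⟩ := weighted_caccioppoli d ((4 * k : ℝ) / (A + 5 * k)) C₁ hρ hρ1
  -- abbreviations
  obtain ⟨D1, hD1⟩ : ∃ D1 : ℝ, D1 = 3 ^ (2 * (A + 5 * k)) * C' := ⟨_, rfl⟩
  obtain ⟨D2, hD2⟩ : ∃ D2 : ℝ, D2 = 3 ^ (12 * k) := ⟨_, rfl⟩
  have hD10 : 0 ≤ D1 := by rw [hD1]; positivity
  have hD20 : 0 ≤ D2 := by rw [hD2]; positivity
  obtain ⟨M₂, hM₂⟩ : ∃ M₂ : ℕ, M₀ ≤ M₂ ∧ M₁ ≤ M₂ ∧ m₃ ≤ M₂ ∧ 1 ≤ M₂ ∧
      K * (1 + D1 * D2) * 2 ≤ M₂ := by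
    obtain ⟨n, hn⟩ := exists_nat_ge (K * (1 + D1 * D2) * 2)
    refine ⟨M₀ + M₁ + m₃ + 1 + n, by omega, by omega, by omega, by omega, ?_⟩
    push_cast
    have : (0 : ℝ) ≤ (M₀ : ℝ) + M₁ + m₃ + 1 := by positivity
    linarith
  obtain ⟨hM₂a, hM₂b, hM₂c, hM₂d, hM₂e⟩ := hM₂
  have hM₂r : (1 : ℝ) ≤ M₂ := by exact_mod_cast hM₂d
  obtain ⟨R0, hR0R, hR0M, hR00⟩ : ∃ R0 : ℝ, R ≤ R0 ∧ (M₂ : ℝ) ^ (A + 5 * k) ≤ R0 ∧ 0 ≤ R0 :=
    ⟨max R ((M₂ : ℝ) ^ (A + 5 * k)), le_max_left _ _, le_max_right _ _,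
      le_trans (by positivity) (le_max_right _ _)⟩
  have hR0 : ∀ x : Vtx d, R0 ≤ ‖toE x‖ → M₂ ≤ CEm.Mf (A + 5 * k) x := fun x hx =>
    CEm.le_Mf hB (hR0M.trans hx)
  obtain ⟨n0, hn0⟩ := exists_nat_ge (2 * R0)
  -- the weights
  obtain ⟨Ep, hEp⟩ : ∃ Ep : Vtx d → ℝ, Ep = fun y => Real.exp (2 * Φp (toE y)) := ⟨_, rfl⟩
  obtain ⟨Em, hEm⟩ : ∃ Em : Vtx d → ℝ, Em = fun y => Real.exp (2 * Φm (toE y)) := ⟨_, rfl⟩
  have hEp0 : ∀ y, 0 < Ep y := fun y => by rw [hEp]; exact Real.exp_pos _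
  have hEm0 : ∀ y, 0 < Em y := fun y => by rw [hEm]; exact Real.exp_pos _
  obtain ⟨P, hP⟩ : ∃ P : Vtx d → ℝ, P = fun y =>
    CEm.wf (12 * k) (4 * (A + 5 * k)) (CEm.Mf (A + 5 * k) y) := ⟨_, rfl⟩
  have hP0 : ∀ y, 0 ≤ P y := fun y => by rw [hP]; exact CEm.wf_nonneg _ _ _
  obtain ⟨Cn, hCn⟩ : ∃ Cn : ℝ, Cn = ∑ y ∈ Lam (0 : Vtx d) n0, (1 + P y) * (Ep y + Em y) :=
    ⟨_, rfl⟩
  have hterm0 : ∀ y, 0 ≤ (1 + P y) * (Ep y + Em y) := fun y =>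
    mul_nonneg (by linarith [hP0 y]) (by linarith [hEp0 y, hEm0 y])
  have hCn0 : 0 ≤ Cn := by
    rw [hCn]
    exact sum_nonneg fun y _ => hterm0 y
  have hnear : ∀ y : Vtx d, ¬ 2 * R0 ≤ ‖toE y‖ → y ∈ Lam (0 : Vtx d) n0 := by
    intro y hy
    refine CEm.mem_Lam_of_norm ?_
    have h0 : toE (0 : Vtx d) = 0 := by
      ext i
      simp [toE]
    rw [h0, sub_zero]
    push Not at hy
    linarith
  have hCny : ∀ y : Vtx d, ¬ 2 * R0 ≤ ‖toE y‖ → (1 + P y) * (Ep y + Em y) ≤ Cn := by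
    intro y hy
    rw [hCn]
    exact single_le_sum (f := fun y => (1 + P y) * (Ep y + Em y)) (fun y _ => hterm0 y)
      (hnear y hy)
  refine ⟨q, Lam (0 : Vtx d) n0, 2 * D2 * K * (1 + D1) * (1 + Cn) + Cn, ?_⟩
  intro S v hvS hvC
  obtain ⟨g, hg⟩ : ∃ g : Vtx d → ℝ, g = fun y => ∑ i, (if η y i then grad v y i ^ 2 else 0) :=
    ⟨_, rfl⟩
  obtain ⟨l, hl⟩ : ∃ l : Vtx d → ℝ, l = fun y => Lap η v y ^ 2 := ⟨_, rfl⟩
  have hg0 : ∀ y, 0 ≤ g y := by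
    intro y
    rw [hg]
    refine sum_nonneg fun i _ => ?_
    split_ifs
    · exact sq_nonneg _
    · exact le_rfl
  have hl0 : ∀ y, 0 ≤ l y := by
    intro y
    rw [hl]
    exact sq_nonneg _
  obtain ⟨S', hS'⟩ : ∃ S' : Finset (Vtx d),
    S' = S ∪ S.biUnion (fun y => Finset.univ.image fun j => y - ev j) := ⟨_, rfl⟩
  obtain ⟨S'', hS''⟩ : ∃ S'' : Finset (Vtx d),
    S'' = (S ∪ S.biUnion (fun y => Finset.univ.image fun j => y - ev j)) ∪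
      S.biUnion (fun y => Finset.univ.image fun j => y + ev j) := ⟨_, rfl⟩
  have H1 := hts S S' S'' M₂ R0 e' hM₂c hR0 hR00 Ep Em (fun y => v y ^ 2) g l
    (fun y => (hEp0 y).le) (fun y => (hEm0 y).le) (fun y => sq_nonneg _) hg0 hl0
    (fun x hx hxe => by
      rw [hEp, hg, hl, hS', hS'']
      exact CEm.li_side hB hq hE hWp hM₂a hM₂b hM₂d hR0 S v hvS hvC x hx
        (hp _ (hR0R.trans hx) hxe).1)
    (fun x hx hxe => by
      rw [hEm, hg, hl, hS', hS'']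
      exact CEm.li_side hB hq hE hWm hM₂a hM₂b hM₂d hR0 S v hvS hvC x hx
        (hm _ (hR0R.trans hx) hxe).1)
    (fun y hy hye => by
      rw [hEm, hEp]
      refine Real.exp_le_exp.2 ?_
      have := (hp _ (hR0R.trans hy) hye).2
      linarith)
    (fun y hy hye => by
      rw [hEm, hEp]
      refine Real.exp_le_exp.2 ?_
      have := (hm _ (hR0R.trans hy) hye).2
      linarith)
  obtain ⟨N, hN⟩ : ∃ N : Vtx d → ℝ, N = fun y => 1 + ‖toE y‖ := ⟨_, rfl⟩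
  have hN1 : ∀ y, 1 ≤ N y := fun y => by
    rw [hN]
    linarith [norm_nonneg (toE y)]
  have hN0 : ∀ y, 0 < N y := fun y => by linarith [hN1 y]
  obtain ⟨W, hWdef⟩ : ∃ W : Vtx d → ℝ, W = fun y =>
    Real.exp (CEm.Psi ((4 * k : ℝ) / (A + 5 * k)) Φp y) +
      Real.exp (CEm.Psi ((4 * k : ℝ) / (A + 5 * k)) Φm y) := ⟨_, rfl⟩
  have hWeq : ∀ y, W y = (Ep y + Em y) * N y ^ ((4 * k : ℝ) / (A + 5 * k) - 2) := by
    intro y
    rw [hWdef, hEp, hEm, hN]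
    simp only []
    rw [CEm.exp_Psi, CEm.exp_Psi, add_mul]
  have hW0 : ∀ y, 0 < W y := by
    intro y
    rw [hWdef]
    exact add_pos (Real.exp_pos _) (Real.exp_pos _)
  have hcac1 := hcac W hW0 (fun y j => by rw [hWdef]; exact (hW y j).1)
    (fun y j => by rw [hWdef]; exact (hW y j).2) η S v hvS
  -- exponents
  have hWt0 : ∀ y, 0 < Ep y + Em y := fun y => add_pos (hEp0 y) (hEm0 y)
  have hx1 : ((4 * k : ℕ) : ℝ) / ((A + 5 * k : ℕ) : ℝ) - ((2 : ℕ) : ℝ) =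
      (4 * k : ℝ) / (A + 5 * k) - 2 := by push_cast; ring
  have hx2 : ((12 * k : ℕ) : ℝ) / ((A + 5 * k : ℕ) : ℝ) - ((4 : ℕ) : ℝ) =
      ((4 * k : ℝ) / (A + 5 * k) - 2) + (2 * ((4 * k : ℝ) / (A + 5 * k)) - 2) := by
    push_cast; ring
  have hx3 : ((4 * k : ℝ) / (A + 5 * k) - 2) + (2 - 2 * ((4 * k : ℝ) / (A + 5 * k))) ≤ 0 := by
    linarith
  have hx4 : ((4 * k : ℝ) / (A + 5 * k) - 2) + (2 * ((4 * k : ℝ) / (A + 5 * k)) - 2) ≤ 0 := by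
    linarith
  have hx5 : -4 ≤ ((4 * k : ℝ) / (A + 5 * k) - 2) + (2 * ((4 * k : ℝ) / (A + 5 * k)) - 2) := by
    linarith
  have hX : ∀ y, W y * (1 + ‖toE y‖) ^ (2 * ((4 * k : ℝ) / (A + 5 * k)) - 2) * v y ^ 2 =
      (Ep y + Em y) * N y ^ (((4 * k : ℝ) / (A + 5 * k) - 2) +
        (2 * ((4 * k : ℝ) / (A + 5 * k)) - 2)) * v y ^ 2 := by
    intro y
    rw [hWeq, Real.rpow_add (hN0 y), hN]
    ring
  have hY : ∀ y, W y * (1 + ‖toE y‖) ^ (2 - 2 * ((4 * k : ℝ) / (A + 5 * k))) * Lap η v y ^ 2 =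
      (Ep y + Em y) * N y ^ (((4 * k : ℝ) / (A + 5 * k) - 2) +
        (2 - 2 * ((4 * k : ℝ) / (A + 5 * k)))) * l y := by
    intro y
    rw [hWeq, Real.rpow_add (hN0 y), hN, hl]
    ring
  have hm1 : ∀ y : Vtx d, M₂ ≤ 4 * CEm.Mf (A + 5 * k) y → 1 ≤ CEm.Mf (A + 5 * k) y := by
    intro y hy
    omega
  have hm2 : ∀ y : Vtx d, 2 * R0 ≤ ‖toE y‖ → 1 ≤ CEm.Mf (A + 5 * k) y := by
    intro y hy
    have := hR0 y (by linarith)
    omega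
  have hb0 : 0 ≤ ∑ y ∈ Lam (0 : Vtx d) n0, v y ^ 2 := sum_nonneg fun y _ => sq_nonneg _
  have hnearsum : ∑ y ∈ S.filter (fun y => ¬ 2 * R0 ≤ ‖toE y‖), v y ^ 2 ≤
      ∑ y ∈ Lam (0 : Vtx d) n0, v y ^ 2 := by
    refine sum_le_sum_of_subset_of_nonneg ?_ fun y _ _ => sq_nonneg _
    intro y hy
    exact hnear y (mem_filter.1 hy).2
  -- the near part
  have hsplit : ∀ F : Vtx d → ℝ, (∀ y, 2 * R0 ≤ ‖toE y‖ → 0 ≤ F y) → ∀ D : ℝ, 0 ≤ D →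
      ∀ G : Vtx d → ℝ, (∀ y, 2 * R0 ≤ ‖toE y‖ → F y ≤ D * G y) →
      (∀ y, ¬ 2 * R0 ≤ ‖toE y‖ → F y ≤ Cn * v y ^ 2) →
      ∑ y ∈ S, F y ≤ D * ∑ y ∈ S.filter (fun y => 2 * R0 ≤ ‖toE y‖), G y +
        Cn * ∑ y ∈ Lam (0 : Vtx d) n0, v y ^ 2 := by
    intro F _ D _ G h1 h2
    rw [← sum_filter_add_sum_filter_not S (fun y => 2 * R0 ≤ ‖toE y‖) F]
    refine add_le_add ?_ ?_
    · rw [mul_sum]
      exact sum_le_sum fun y hy => h1 y (mem_filter.1 hy).2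
    · refine le_trans (sum_le_sum fun y hy => h2 y (mem_filter.1 hy).2) ?_
      rw [← mul_sum]
      exact mul_le_mul_of_nonneg_left hnearsum hCn0
  -- the right side
  have hLLeq : ∑ᶠ y, (Real.exp (2 * Φp (toE y)) + Real.exp (2 * Φm (toE y))) *
      (1 + ‖toE y‖) ^ q * Lap η v y ^ 2 = ∑ y ∈ S'', (Ep y + Em y) * N y ^ q * l y := by
    rw [finsum_eq_sum_of_support_subset (s := S'')]
    · rw [hEp, hEm, hN, hl]
    · intro y hy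
      rw [Function.mem_support] at hy
      rw [Finset.mem_coe]
      by_contra hc
      refine hy ?_
      rw [hS''] at hc
      rw [CEm.lap_off hvS hc]
      simp
  have hSS : S ⊆ S'' := by
    rw [hS'']
    exact subset_union_left.trans subset_union_left
  have hNq : ∀ y, 1 ≤ N y ^ q := fun y => one_le_pow₀ (hN1 y)
  have h2 : ∑ y ∈ S.filter (fun y => M₂ ≤ 4 * CEm.Mf (A + 5 * k) y),
      P y * ((Ep y + Em y) * v y ^ 2) ≤
      ∑ y ∈ S.filter (fun y => 2 * R0 ≤ ‖toE y‖), P y * ((Ep y + Em y) * v y ^ 2) +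
        Cn * ∑ y ∈ Lam (0 : Vtx d) n0, v y ^ 2 := by
    have hF0 : ∀ y, 0 ≤ P y * ((Ep y + Em y) * v y ^ 2) := fun y =>
      mul_nonneg (hP0 y) (mul_nonneg (hWt0 y).le (sq_nonneg _))
    refine le_trans (sum_le_sum_of_subset_of_nonneg (filter_subset _ S) fun y _ _ => hF0 y) ?_
    have := hsplit (fun y => P y * ((Ep y + Em y) * v y ^ 2)) (fun y _ => hF0 y) 1 zero_le_one
      (fun y => P y * ((Ep y + Em y) * v y ^ 2)) (fun y _ => by rw [one_mul]) (fun y hy => by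
        have a1 := hCny y hy
        have a2 : P y * (Ep y + Em y) ≤ (1 + P y) * (Ep y + Em y) :=
          mul_le_mul_of_nonneg_right (by linarith) (hWt0 y).le
        calc P y * ((Ep y + Em y) * v y ^ 2) = P y * (Ep y + Em y) * v y ^ 2 := by ring
          _ ≤ Cn * v y ^ 2 := mul_le_mul_of_nonneg_right (a2.trans a1) (sq_nonneg _))
    rwa [one_mul] at this
  have h4 : ∑ y ∈ S, W y * (1 + ‖toE y‖) ^ (2 * ((4 * k : ℝ) / (A + 5 * k)) - 2) * v y ^ 2 ≤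
      D2 * ∑ y ∈ S.filter (fun y => 2 * R0 ≤ ‖toE y‖), P y * ((Ep y + Em y) * v y ^ 2) +
        Cn * ∑ y ∈ Lam (0 : Vtx d) n0, v y ^ 2 := by
    refine hsplit _ (fun y _ => ?_) D2 hD20 _ (fun y hy => ?_) (fun y hy => ?_)
    · exact mul_nonneg (mul_nonneg (hW0 y).le (by positivity)) (sq_nonneg _)
    · rw [hX, ← hx2]
      have a1 := CEm.wf_dn (12 * k) 4 hB (hm2 y hy)
      rw [← hD2] at a1
      rw [hN, hP]
      calc (Ep y + Em y) * (1 + ‖toE y‖) ^ (((12 * k : ℕ) : ℝ) / ((A + 5 * k : ℕ) : ℝ) -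
            ((4 : ℕ) : ℝ)) * v y ^ 2
          ≤ (Ep y + Em y) * (D2 * CEm.wf (12 * k) (4 * (A + 5 * k)) (CEm.Mf (A + 5 * k) y)) *
              v y ^ 2 :=
            mul_le_mul_of_nonneg_right (mul_le_mul_of_nonneg_left a1 (hWt0 y).le) (sq_nonneg _)
        _ = _ := by ring
    · rw [hX]
      have a1 := hCny y hy
      have a2 : N y ^ (((4 * k : ℝ) / (A + 5 * k) - 2) +
        (2 * ((4 * k : ℝ) / (A + 5 * k)) - 2)) ≤ 1 :=
        Real.rpow_le_one_of_one_le_of_nonpos (hN1 y) hx4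
      have a3 : (Ep y + Em y) * N y ^ (((4 * k : ℝ) / (A + 5 * k) - 2) +
        (2 * ((4 * k : ℝ) / (A + 5 * k)) - 2)) ≤ (Ep y + Em y) * 1 :=
        mul_le_mul_of_nonneg_left a2 (hWt0 y).le
      have a4 : (Ep y + Em y) * 1 ≤ (1 + P y) * (Ep y + Em y) := by
        have := mul_nonneg (hP0 y) (hWt0 y).le
        linarith
      exact mul_le_mul_of_nonneg_right (a3.trans (a4.trans a1)) (sq_nonneg _)
  have h3 : ∑ y ∈ S'.filter (fun y => M₂ ≤ 4 * CEm.Mf (A + 5 * k) y),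
      CEm.wf (4 * k) (2 * (A + 5 * k)) (CEm.Mf (A + 5 * k) y) * ((Ep y + Em y) * g y) ≤
      D1 * ∑ y ∈ S, W y * (1 + ‖toE y‖) ^ (2 * ((4 * k : ℝ) / (A + 5 * k)) - 2) * v y ^ 2 +
      D1 * ∑ y ∈ S, W y * (1 + ‖toE y‖) ^ (2 - 2 * ((4 * k : ℝ) / (A + 5 * k))) *
        Lap η v y ^ 2 := by
    have b1 : ∑ y ∈ S'.filter (fun y => M₂ ≤ 4 * CEm.Mf (A + 5 * k) y),
        CEm.wf (4 * k) (2 * (A + 5 * k)) (CEm.Mf (A + 5 * k) y) * ((Ep y + Em y) * g y) ≤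
        ∑ y ∈ S'.filter (fun y => M₂ ≤ 4 * CEm.Mf (A + 5 * k) y),
          3 ^ (2 * (A + 5 * k)) * (W y * g y) := by
      refine sum_le_sum fun y hy => ?_
      have a1 := CEm.wf_up (4 * k) 2 hB (hm1 y (mem_filter.1 hy).2)
      rw [hx1] at a1
      have a2 : 0 ≤ (Ep y + Em y) * g y := mul_nonneg (hWt0 y).le (hg0 y)
      refine (mul_le_mul_of_nonneg_right a1 a2).trans (le_of_eq ?_)
      rw [hWeq, hN]
      ring
    have b2 : ∑ y ∈ S'.filter (fun y => M₂ ≤ 4 * CEm.Mf (A + 5 * k) y),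
        (3 : ℝ) ^ (2 * (A + 5 * k)) * (W y * g y) ≤
        3 ^ (2 * (A + 5 * k)) * ∑ y ∈ S', W y * g y := by
      rw [mul_sum]
      exact sum_le_sum_of_subset_of_nonneg (filter_subset _ _) fun y _ _ =>
        mul_nonneg (by positivity) (mul_nonneg (hW0 y).le (hg0 y))
    have b3 : ∑ y ∈ S', W y * g y = ∑ y ∈ S', ∑ j, (if η y j then W y * grad v y j ^ 2 else 0) := by
      refine sum_congr rfl fun y _ => ?_
      rw [hg, mul_sum]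
      refine sum_congr rfl fun i _ => ?_
      split_ifs
      · rfl
      · rw [mul_zero]
    rw [← hS', ← b3] at hcac1
    refine b1.trans (b2.trans ((mul_le_mul_of_nonneg_left hcac1 (by positivity)).trans
      (le_of_eq ?_)))
    rw [hD1]
    ring
  have h5 : ∑ y ∈ S, W y * (1 + ‖toE y‖) ^ (2 - 2 * ((4 * k : ℝ) / (A + 5 * k))) *
        Lap η v y ^ 2 ≤ ∑ y ∈ S'', (Ep y + Em y) * N y ^ q * l y := by
    refine le_trans (sum_le_sum (g := fun y => (Ep y + Em y) * N y ^ q * l y) fun y _ => ?_)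
      (sum_le_sum_of_subset_of_nonneg hSS fun y _ _ =>
        mul_nonneg (mul_nonneg (hWt0 y).le (by linarith [hNq y])) (hl0 y))
    rw [hY]
    refine mul_le_mul_of_nonneg_right (mul_le_mul_of_nonneg_left ?_ (hWt0 y).le) (hl0 y)
    exact (Real.rpow_le_one_of_one_le_of_nonpos (hN1 y) hx3).trans (hNq y)
  have h6 : ∑ y ∈ S''.filter (fun y => M₂ ≤ 4 * CEm.Mf (A + 5 * k) y),
      CEm.wf q 0 (CEm.Mf (A + 5 * k) y) * ((Ep y + Em y) * l y) ≤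
      ∑ y ∈ S'', (Ep y + Em y) * N y ^ q * l y := by
    refine le_trans (sum_le_sum (g := fun y => (Ep y + Em y) * N y ^ q * l y) fun y _ => ?_)
      (sum_le_sum_of_subset_of_nonneg (filter_subset _ _) fun y _ _ =>
        mul_nonneg (mul_nonneg (hWt0 y).le (by linarith [hNq y])) (hl0 y))
    have a1 := CEm.wf_Q q hB y
    have a2 : 0 ≤ (Ep y + Em y) * l y := mul_nonneg (hWt0 y).le (hl0 y)
    refine (mul_le_mul_of_nonneg_right a1 a2).trans (le_of_eq ?_)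
    rw [hN]
    ring
  have h7 : ∑ y ∈ S, (Real.exp (2 * Φp (toE y)) + Real.exp (2 * Φm (toE y))) /
      (1 + ‖toE y‖) ^ (4 : ℕ) * v y ^ 2 ≤
      ∑ y ∈ S, W y * (1 + ‖toE y‖) ^ (2 * ((4 * k : ℝ) / (A + 5 * k)) - 2) * v y ^ 2 := by
    refine sum_le_sum fun y _ => ?_
    rw [hX]
    refine mul_le_mul_of_nonneg_right ?_ (sq_nonneg _)
    rw [div_eq_mul_inv]
    have a1 : ((1 + ‖toE y‖) ^ (4 : ℕ))⁻¹ ≤ N y ^ (((4 * k : ℝ) / (A + 5 * k) - 2) +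
        (2 * ((4 * k : ℝ) / (A + 5 * k)) - 2)) := by
      have a2 : ((1 + ‖toE y‖) ^ (4 : ℕ))⁻¹ = N y ^ (-4 : ℝ) := by
        rw [Real.rpow_neg (hN0 y).le, hN]
        congr 1
        norm_cast
      rw [a2]
      exact Real.rpow_le_rpow_of_exponent_le (hN1 y) hx5
    have a3 : Real.exp (2 * Φp (toE y)) + Real.exp (2 * Φm (toE y)) = Ep y + Em y := by
      rw [hEp, hEm]
    rw [a3]
    exact mul_le_mul_of_nonneg_left a1 (hWt0 y).le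
  have hLL0 : 0 ≤ ∑ y ∈ S'', (Ep y + Em y) * N y ^ q * l y := sum_nonneg fun y _ =>
    mul_nonneg (mul_nonneg (hWt0 y).le (by linarith [hNq y])) (hl0 y)
  have hU0 : 0 ≤ ∑ y ∈ S.filter (fun y => 2 * R0 ≤ ‖toE y‖), P y * ((Ep y + Em y) * v y ^ 2) :=
    sum_nonneg fun y _ => mul_nonneg (hP0 y) (mul_nonneg (hWt0 y).le (sq_nonneg _))
  have hKM : K / (M₂ : ℝ) * (1 + D1 * D2) ≤ 1 / 2 := by
    rw [div_mul_eq_mul_div, div_le_div_iff₀ (by linarith) (by norm_num)]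
    linarith
  rw [hLLeq]
  refine CEm.absorb hM₂r hK hD10 hD20 hCn0 hb0 hLL0 hU0 hKM ?_ h2 h3 h4 h5 h6 h7
  rw [hP]
  exact H1

end Pool.Agent.Lib.MP_566bac_pr.Hd
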