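import Pool.Agent.Lib.MP_566bac_pr.Hd.DefsC
import Pool.Agent.Lib.MP_566bac_pr.Hd.BAS

/-!
# Half balls
-/

open Finset MeasureTheory ProbabilityTheory Filter
open scoped Classical

namespace Pool.Agent.Lib.MP_566bac_pr.Hd

variable {d : ℕ}

theorem CE1_sub (x y : Vtx d) : (toE x : E d) - toE y = toE (x - y) := by
  ext i
  simp [toE]

theorem CE1_coord_le (y : Vtx d) (i : Fin d) : |(y i : ℝ)| ≤ ‖(toE y : E d)‖ := by
  have h := EuclideanSpace.norm_eq (toE y : E d)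
  rw [h]
  apply Real.le_sqrt_of_sq_le
  have h1 : ‖(toE y : E d) i‖ ^ 2 ≤ ∑ j, ‖(toE y : E d) j‖ ^ 2 :=
    Finset.single_le_sum (f := fun j => ‖(toE y : E d) j‖ ^ 2) (fun j _ => sq_nonneg _)
      (Finset.mem_univ i)
  refine le_trans (le_of_eq ?_) h1
  simp [toE]

theorem CE1_norm_le (y : Vtx d) (n : ℝ) (hn : 0 ≤ n) (h : ∀ i, |(y i : ℝ)| ≤ n) :
    ‖(toE y : E d)‖ ≤ (d + 1) * n := by
  rw [EuclideanSpace.norm_eq]
  apply Real.sqrt_le_iff.mpr
  refine ⟨by positivity, ?_⟩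
  have h1 : ∀ i ∈ (Finset.univ : Finset (Fin d)), ‖(toE y : E d) i‖ ^ 2 ≤ n ^ 2 := by
    intro i _
    have h2 : ‖(toE y : E d) i‖ = |(y i : ℝ)| := by simp [toE]
    rw [h2]
    exact pow_le_pow_left₀ (abs_nonneg _) (h i) 2
  refine (Finset.sum_le_sum h1).trans ?_
  rw [Finset.sum_const, Finset.card_univ, Fintype.card_fin, nsmul_eq_mul]
  have hd : (0 : ℝ) ≤ d := by positivity
  nlinarith [sq_nonneg n, mul_nonneg hd hd]

/-- the lower bound for one half -/
theorem CE1_half (t : ℝ) (ht : 1 ≤ t) (y : Vtx d) (T : Finset (Vtx d))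
    (hT : ∀ x : Vtx d, ‖(toE x : E d) - toE y‖ ≤ t → x ∈ T) (e' : E d)
    (he : 0 ≤ inner ℝ (toE y) e') :
    1 / 2 * (1 / ((d : ℝ) + 1)) ^ d * t ^ d ≤
      ((T.filter fun x => ‖(toE x : E d) - toE y‖ ≤ t ∧ 0 ≤ inner ℝ (toE x) e').card : ℝ) := by
  have ht0 : 0 ≤ t := by linarith
  have hd1 : (0 : ℝ) < (d : ℝ) + 1 := by positivity
  set n : ℕ := ⌊t / (d + 1)⌋₊ with hn
  set Bl : Finset (Vtx d) := T.filter fun x => ‖(toE x : E d) - toE y‖ ≤ t with hBl
  set Hf : Finset (Vtx d) := T.filter fun x => ‖(toE x : E d) - toE y‖ ≤ t ∧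
    0 ≤ inner ℝ (toE x) e' with hHf
  have h1 : Lam y n ⊆ Bl := by
    intro x hx
    have h2 : ‖(toE x : E d) - toE y‖ ≤ t := by
      rw [CE1_sub]
      have h3 := CE1_norm_le (x - y) n (by positivity) (fun i => by
        rw [mem_Lam, BAS_le_iff] at hx
        have h4 := hx i
        have h5 : ((x i - y i).natAbs : ℝ) ≤ (n : ℝ) := by exact_mod_cast h4
        rw [Nat.cast_natAbs] at h5
        simpa using h5)
      have h4 : (n : ℝ) ≤ t / (d + 1) := Nat.floor_le (by positivity)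
      have h5 : ((d : ℝ) + 1) * n ≤ (d + 1) * (t / (d + 1)) := mul_le_mul_of_nonneg_left h4 hd1.le
      rw [mul_div_cancel₀ _ hd1.ne'] at h5
      linarith
    rw [hBl, Finset.mem_filter]
    exact ⟨hT x h2, h2⟩
  have h2 : (t / (d + 1)) ^ d ≤ (Bl.card : ℝ) := by
    have h3 := Finset.card_le_card h1
    rw [card_Lam] at h3
    have h4 : ((2 * n + 1 : ℕ) : ℝ) ^ d ≤ (Bl.card : ℝ) := by exact_mod_cast h3
    refine le_trans (pow_le_pow_left₀ (by positivity) ?_ d) h4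
    have h5 := (Nat.lt_floor_add_one (t / ((d : ℝ) + 1))).le
    push_cast
    have h6 : (0 : ℝ) ≤ (n : ℝ) := by positivity
    linarith
  have h3 : Bl ⊆ Hf ∪ Hf.image (fun x => 2 • y - x) := by
    intro x hx
    rw [hBl, Finset.mem_filter] at hx
    rw [Finset.mem_union]
    by_cases hs : 0 ≤ inner ℝ (toE x) e'
    · left
      rw [hHf, Finset.mem_filter]
      exact ⟨hx.1, hx.2, hs⟩
    · right
      rw [Finset.mem_image]
      have e1 : (toE (2 • y - x) : E d) = 2 • toE y - toE x := by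
        ext i
        simp [toE]
      have e2 : (toE (2 • y - x) : E d) - toE y = -(toE x - toE y) := by
        rw [e1, two_smul]
        abel
      have e3 : ‖(toE (2 • y - x) : E d) - toE y‖ ≤ t := by
        rw [e2, norm_neg]
        exact hx.2
      refine ⟨2 • y - x, ?_, by abel⟩
      rw [hHf, Finset.mem_filter]
      refine ⟨hT _ e3, e3, ?_⟩
      rw [e1, two_smul, inner_sub_left, inner_add_left]
      push Not at hs
      linarith
  have h4 : (Bl.card : ℝ) ≤ 2 * (Hf.card : ℝ) := by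
    have h5 := Finset.card_le_card h3
    have h6 := Finset.card_union_le Hf (Hf.image (fun x => 2 • y - x))
    have h7 := Finset.card_image_le (s := Hf) (f := fun x => 2 • y - x)
    have h8 : Bl.card ≤ 2 * Hf.card := by omega
    exact_mod_cast h8
  have h5 : (1 / ((d : ℝ) + 1)) ^ d * t ^ d = (t / (d + 1)) ^ d := by
    rw [← mul_pow]
    congr 1
    ring
  rw [mul_assoc, h5]
  linarith

/-! ### CE1: half balls -/
theorem half_ball (d : ℕ) : ∃ c C : ℝ, 0 < c ∧ 0 < C ∧ ∀ (t : ℝ), 1 ≤ t → ∀ (y : Vtx d) (T : Finset (Vtx d)),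
    (∀ x : Vtx d, ‖toE x - toE y‖ ≤ t → x ∈ T) →
    ((T.filter fun x => ‖toE x - toE y‖ ≤ t).card : ℝ) ≤ C * t ^ d ∧
    ∀ e' : E d, (0 ≤ inner ℝ (toE y) e' →
      c * t ^ d ≤ ((T.filter fun x => ‖toE x - toE y‖ ≤ t ∧ 0 ≤ inner ℝ (toE x) e').card : ℝ)) ∧
      (inner ℝ (toE y) e' ≤ 0 →
      c * t ^ d ≤ ((T.filter fun x => ‖toE x - toE y‖ ≤ t ∧ inner ℝ (toE x) e' ≤ 0).card : ℝ)) := by
  refine ⟨1 / 2 * (1 / ((d : ℝ) + 1)) ^ d, 3 ^ d, by positivity, by positivity, ?_⟩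
  intro t ht y T hT
  have ht0 : 0 ≤ t := by linarith
  refine ⟨?_, fun e' => ⟨fun he => CE1_half t ht y T hT e' he, fun he => ?_⟩⟩
  · have h1 : (T.filter fun x => ‖(toE x : E d) - toE y‖ ≤ t) ⊆ Lam y ⌊t⌋₊ := by
      intro x hx
      rw [Finset.mem_filter, CE1_sub] at hx
      rw [mem_Lam, BAS_le_iff]
      intro i
      have h2 := (CE1_coord_le (x - y) i).trans hx.2
      apply Nat.le_floor
      rw [Nat.cast_natAbs]
      simpa using h2
    have h2 := Finset.card_le_card h1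
    rw [card_Lam] at h2
    have h3 : ((T.filter fun x => ‖(toE x : E d) - toE y‖ ≤ t).card : ℝ)
        ≤ ((2 * ⌊t⌋₊ + 1 : ℕ) : ℝ) ^ d := by exact_mod_cast h2
    refine h3.trans ?_
    rw [← mul_pow]
    apply pow_le_pow_left₀ (by positivity)
    have := Nat.floor_le ht0
    push_cast
    linarith
  · have h1 := CE1_half t ht y T hT (-e') (by
      rw [inner_neg_right]
      linarith)
    refine h1.trans (le_of_eq ?_)
    congr 2
    apply Finset.filter_congr
    intro x _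
    rw [inner_neg_right]
    constructor
    · rintro ⟨h2, h3⟩
      exact ⟨h2, by linarith⟩
    · rintro ⟨h2, h3⟩
      exact ⟨h2, by linarith⟩

end Pool.Agent.Lib.MP_566bac_pr.Hd
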