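import Pool.Agent.Lib.MP_566bac_pr.Hd.CE1

/-!
# The Carleman estimate on the cluster: summation of the local inequalities
-/

open Finset MeasureTheory ProbabilityTheory Filter
open scoped Classical

namespace Pool.Agent.Lib.MP_566bac_pr.Hd

namespace CEm

variable {d : ℕ}

/-! ## scales -/

/-- scale of a vertex -/
noncomputable def Mf (B : ℕ) (x : Vtx d) : ℕ := ⌊‖toE x‖ ^ (1 / (B : ℝ))⌋₊

theorem root_pow {B : ℕ} (hB : 1 ≤ B) {r : ℝ} (hr : 0 ≤ r) : (r ^ (1 / (B : ℝ))) ^ B = r := by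
  rw [← Real.rpow_natCast, ← Real.rpow_mul hr, one_div, inv_mul_cancel₀, Real.rpow_one]
  exact_mod_cast (by omega : B ≠ 0)

theorem Mf_pow_le {B : ℕ} (hB : 1 ≤ B) (x : Vtx d) : (Mf B x : ℝ) ^ B ≤ ‖toE x‖ := by
  have h1 : (Mf B x : ℝ) ≤ ‖toE x‖ ^ (1 / (B : ℝ)) := Nat.floor_le (by positivity)
  calc (Mf B x : ℝ) ^ B ≤ (‖toE x‖ ^ (1 / (B : ℝ))) ^ B := by gcongr
    _ = ‖toE x‖ := root_pow hB (norm_nonneg _)

theorem lt_Mf_succ {B : ℕ} (hB : 1 ≤ B) (x : Vtx d) : ‖toE x‖ < ((Mf B x : ℝ) + 1) ^ B := by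
  have h1 : ‖toE x‖ ^ (1 / (B : ℝ)) < (Mf B x : ℝ) + 1 := Nat.lt_floor_add_one _
  calc ‖toE x‖ = (‖toE x‖ ^ (1 / (B : ℝ))) ^ B := (root_pow hB (norm_nonneg _)).symm
    _ < ((Mf B x : ℝ) + 1) ^ B := pow_lt_pow_left₀ h1 (by positivity) (by omega)

theorem le_Mf {B m : ℕ} (hB : 1 ≤ B) {x : Vtx d} (h : (m : ℝ) ^ B ≤ ‖toE x‖) : m ≤ Mf B x := by
  have h1 : (m : ℝ) ^ B < ((Mf B x : ℝ) + 1) ^ B := h.trans_lt (lt_Mf_succ hB x)
  have h2 : (m : ℝ) < (Mf B x : ℝ) + 1 := lt_of_pow_lt_pow_left₀ B (by positivity) h1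
  have h3 : m < Mf B x + 1 := by exact_mod_cast h2
  omega

theorem comp {B : ℕ} (hB : 1 ≤ B) {x y : Vtx d} (h : ‖toE y‖ ≤ 2 * ‖toE x‖)
    (hx : 1 ≤ Mf B x) : Mf B y ≤ 4 * Mf B x := by
  have h1 : (Mf B y : ℝ) ^ B < (2 * ((Mf B x : ℝ) + 1)) ^ B := by
    calc (Mf B y : ℝ) ^ B ≤ ‖toE y‖ := Mf_pow_le hB y
      _ ≤ 2 * ‖toE x‖ := h
      _ < 2 * ((Mf B x : ℝ) + 1) ^ B := by
          have := lt_Mf_succ hB x
          linarith
      _ ≤ 2 ^ B * ((Mf B x : ℝ) + 1) ^ B := by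
          gcongr
          calc (2 : ℝ) = 2 ^ 1 := by norm_num
            _ ≤ 2 ^ B := pow_le_pow_right₀ (by norm_num) hB
      _ = (2 * ((Mf B x : ℝ) + 1)) ^ B := by rw [mul_pow]
  have h2 : (Mf B y : ℝ) < 2 * ((Mf B x : ℝ) + 1) := lt_of_pow_lt_pow_left₀ B (by positivity) h1
  have h3 : Mf B y < 2 * (Mf B x + 1) := by exact_mod_cast h2
  omega

/-- vertices at distance at most `4 t` -/
theorem close {B b : ℕ} (hbB : b + 1 ≤ B) {x y : Vtx d} (hx : 8 ≤ Mf B x)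
    (h : ‖toE y - toE x‖ ≤ 4 * (Mf B x : ℝ) ^ b) :
    ‖toE y - toE x‖ ≤ ‖toE x‖ / 2 ∧ Mf B y ≤ 4 * Mf B x ∧ Mf B x ≤ 4 * Mf B y := by
  have hx8 : (8 : ℝ) ≤ Mf B x := by exact_mod_cast hx
  have hx1 : (1 : ℝ) ≤ Mf B x := by linarith
  have h1 : 8 * (Mf B x : ℝ) ^ b ≤ ‖toE x‖ := by
    calc 8 * (Mf B x : ℝ) ^ b ≤ (Mf B x : ℝ) * (Mf B x : ℝ) ^ b := by gcongr
      _ = (Mf B x : ℝ) ^ (b + 1) := by rw [pow_succ, mul_comm]
      _ ≤ (Mf B x : ℝ) ^ B := pow_le_pow_right₀ hx1 hbB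
      _ ≤ ‖toE x‖ := Mf_pow_le (by omega) x
  have h2 : ‖toE y - toE x‖ ≤ ‖toE x‖ / 2 := by linarith
  have h3 : ‖toE y‖ ≤ ‖toE y - toE x‖ + ‖toE x‖ := by
    have := norm_add_le (toE y - toE x) (toE x)
    rwa [sub_add_cancel] at this
  have h4 : ‖toE x‖ ≤ ‖toE y - toE x‖ + ‖toE y‖ := by
    have := norm_add_le (toE x - toE y) (toE y)
    rw [sub_add_cancel, norm_sub_rev] at this
    exact this
  have h5 : 1 ≤ Mf B y := by
    refine le_Mf (by omega) ?_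
    rw [Nat.cast_one, one_pow]
    have h6 : (1 : ℝ) ≤ (Mf B x : ℝ) ^ b := one_le_pow₀ hx1
    linarith
  exact ⟨h2, comp (by omega) (by linarith) (by omega), comp (by omega) (by linarith) h5⟩

theorem mem_Lam_of_norm {x y : Vtx d} {n : ℕ} (h : ‖toE x - toE y‖ ≤ n) : x ∈ Lam y n := by
  unfold Lam
  rw [Fintype.mem_piFinset]
  intro i
  have h1 : ‖(toE x - toE y) i‖ ≤ ‖toE x - toE y‖ := PiLp.norm_apply_le _ i
  have h2 : (toE x - toE y) i = ((x i - y i : ℤ) : ℝ) := by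
    simp [toE]
  rw [h2, Real.norm_eq_abs] at h1
  have h3 : |((x i - y i : ℤ) : ℝ)| ≤ n := h1.trans h
  have h4 : |x i - y i| ≤ n := by exact_mod_cast h3
  rw [Finset.mem_Icc]
  rw [abs_le] at h4
  omega

/-! ## interchange of the sums -/

theorem upper (d B b : ℕ) (hbB : b + 1 ≤ B) : ∃ K : ℝ, 0 < K ∧ ∀ (X Y : Finset (Vtx d))
    (w : ℕ → ℝ) (D : ℝ) (M₂ : ℕ), 0 ≤ D → (∀ m, 0 ≤ w m) →
    (∀ m m' : ℕ, m ≤ 4 * m' → m' ≤ 4 * m → w m ≤ D * w m') → 8 ≤ M₂ →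
    (∀ x ∈ X, M₂ ≤ Mf B x) → ∀ g : Vtx d → ℝ, (∀ y, 0 ≤ g y) →
    ∑ x ∈ X, (1 / ((Mf B x : ℝ) ^ b) ^ d) * (w (Mf B x) *
      ∑ y ∈ Y.filter (fun y => ‖toE y - toE x‖ ≤ 4 * (Mf B x : ℝ) ^ b), g y) ≤
      K * D * ∑ y ∈ Y.filter (fun y => M₂ ≤ 4 * Mf B y), w (Mf B y) * g y := by
  obtain ⟨c₁, C₁, hc₁, hC₁, hhb⟩ := half_ball d
  refine ⟨C₁ * (4 * 4 ^ b * 4 ^ b) ^ d, by positivity, ?_⟩
  intro X Y w D M₂ hD hw hwD hM₂ hX g hg
  have hswap : ∑ x ∈ X, (1 / ((Mf B x : ℝ) ^ b) ^ d) * (w (Mf B x) *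
      ∑ y ∈ Y.filter (fun y => ‖toE y - toE x‖ ≤ 4 * (Mf B x : ℝ) ^ b), g y) =
      ∑ y ∈ Y, g y * ∑ x ∈ X.filter (fun x => ‖toE y - toE x‖ ≤ 4 * (Mf B x : ℝ) ^ b),
        (1 / ((Mf B x : ℝ) ^ b) ^ d) * w (Mf B x) := by
    simp only [mul_sum, sum_filter]
    rw [sum_comm]
    refine sum_congr rfl fun y _ => sum_congr rfl fun x _ => ?_
    split_ifs <;> ring
  rw [hswap]
  have key : ∀ y ∈ Y, g y * ∑ x ∈ X.filter (fun x => ‖toE y - toE x‖ ≤ 4 * (Mf B x : ℝ) ^ b),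
      (1 / ((Mf B x : ℝ) ^ b) ^ d) * w (Mf B x) ≤
      if M₂ ≤ 4 * Mf B y then C₁ * (4 * 4 ^ b * 4 ^ b) ^ d * D * (w (Mf B y) * g y) else 0 := by
    intro y _
    by_cases hne : (X.filter (fun x => ‖toE y - toE x‖ ≤ 4 * (Mf B x : ℝ) ^ b)).Nonempty
    · have hall : ∀ x ∈ X.filter (fun x => ‖toE y - toE x‖ ≤ 4 * (Mf B x : ℝ) ^ b),
          M₂ ≤ Mf B x ∧ Mf B y ≤ 4 * Mf B x ∧ Mf B x ≤ 4 * Mf B y ∧
          ‖toE x - toE y‖ ≤ 4 * (Mf B x : ℝ) ^ b := by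
        intro x hx
        rw [mem_filter] at hx
        have h1 := hX x hx.1
        have h2 := close hbB (by omega) hx.2
        exact ⟨h1, h2.2.1, h2.2.2, by rw [norm_sub_rev]; exact hx.2⟩
      obtain ⟨x₀, hx₀⟩ := hne
      have hx₀' := hall x₀ hx₀
      have hMy : M₂ ≤ 4 * Mf B y := by omega
      rw [if_pos hMy]
      have hy1 : 1 ≤ Mf B y := by omega
      have hyr : (1 : ℝ) ≤ Mf B y := by exact_mod_cast hy1
      have hyb : (1 : ℝ) ≤ (Mf B y : ℝ) ^ b := one_le_pow₀ hyr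
      set T : ℝ := 4 * 4 ^ b * (Mf B y : ℝ) ^ b with hT
      have hT1 : 1 ≤ T := by
        have : (1 : ℝ) ≤ 4 ^ b := one_le_pow₀ (by norm_num)
        nlinarith
      obtain ⟨n, hn⟩ := exists_nat_ge T
      have hcount := (hhb T hT1 y (Lam y n) (fun x hx => mem_Lam_of_norm (hx.trans hn))).1
      have hsub : X.filter (fun x => ‖toE y - toE x‖ ≤ 4 * (Mf B x : ℝ) ^ b) ⊆
          (Lam y n).filter (fun x => ‖toE x - toE y‖ ≤ T) := by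
        intro x hx
        have h1 := hall x hx
        have h2 : ‖toE x - toE y‖ ≤ T := by
          refine h1.2.2.2.trans ?_
          rw [hT, mul_assoc, ← mul_pow]
          gcongr
          exact_mod_cast h1.2.2.1
        rw [mem_filter]
        exact ⟨mem_Lam_of_norm (h2.trans hn), h2⟩
      have hterm : ∀ x ∈ X.filter (fun x => ‖toE y - toE x‖ ≤ 4 * (Mf B x : ℝ) ^ b),
          (1 / ((Mf B x : ℝ) ^ b) ^ d) * w (Mf B x) ≤
            ((4 ^ b) ^ d / ((Mf B y : ℝ) ^ b) ^ d) * (D * w (Mf B y)) := by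
        intro x hx
        have h1 := hall x hx
        have hxr : (1 : ℝ) ≤ Mf B x := by
          have : 1 ≤ Mf B x := by omega
          exact_mod_cast this
        refine mul_le_mul ?_ (hwD _ _ h1.2.2.1 h1.2.1) (hw _) (by positivity)
        rw [div_le_div_iff₀ (by positivity) (by positivity), one_mul, ← mul_pow, ← mul_pow]
        gcongr
        exact_mod_cast h1.2.1
      have hsum := (sum_le_card_nsmul _ _ _ hterm)
      rw [nsmul_eq_mul] at hsum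
      have hcard : ((X.filter (fun x => ‖toE y - toE x‖ ≤ 4 * (Mf B x : ℝ) ^ b)).card : ℝ) ≤
          C₁ * T ^ d := (Nat.cast_le.2 (card_le_card hsub)).trans hcount
      have hsum2 := hsum.trans (mul_le_mul_of_nonneg_right hcard (by
        have := hw (Mf B y)
        positivity))
      have he : C₁ * T ^ d * (((4 : ℝ) ^ b) ^ d / ((Mf B y : ℝ) ^ b) ^ d * (D * w (Mf B y))) =
          C₁ * (4 * 4 ^ b * 4 ^ b) ^ d * D * w (Mf B y) := by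
        rw [hT, mul_pow, mul_pow (4 * 4 ^ b) (4 ^ b) d]
        have : ((Mf B y : ℝ) ^ b) ^ d ≠ 0 := by positivity
        field_simp
      rw [he] at hsum2
      calc g y * ∑ x ∈ X.filter (fun x => ‖toE y - toE x‖ ≤ 4 * (Mf B x : ℝ) ^ b),
            (1 / ((Mf B x : ℝ) ^ b) ^ d) * w (Mf B x)
          ≤ g y * (C₁ * (4 * 4 ^ b * 4 ^ b) ^ d * D * w (Mf B y)) :=
            mul_le_mul_of_nonneg_left hsum2 (hg y)
        _ = _ := by ring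
    · rw [not_nonempty_iff_eq_empty] at hne
      rw [hne, sum_empty, mul_zero]
      split_ifs
      · have := hw (Mf B y)
        have := hg y
        positivity
      · exact le_rfl
  refine (sum_le_sum key).trans (le_of_eq ?_)
  rw [← sum_filter, mul_sum]

theorem lower (d B b : ℕ) (hb1 : 1 ≤ b) (hbB : b + 1 ≤ B) : ∃ (c' : ℝ) (m₃ : ℕ), 0 < c' ∧
    ∀ (X S : Finset (Vtx d)) (w : ℕ → ℝ) (D : ℝ) (M₂ : ℕ) (R0 : ℝ) (e' : E d), 0 ≤ D →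
    (∀ m, 0 ≤ w m) → (∀ m m' : ℕ, m ≤ 4 * m' → m' ≤ 4 * m → w m ≤ D * w m') → m₃ ≤ M₂ →
    (∀ x : Vtx d, R0 ≤ ‖toE x‖ → M₂ ≤ Mf B x) → 0 ≤ R0 →
    (∀ y ∈ S, 2 * R0 ≤ ‖toE y‖ → ∀ x : Vtx d, ‖toE x - toE y‖ ≤ ‖toE y‖ / 2 → x ∈ X) →
    ∀ g : Vtx d → ℝ, (∀ y, 0 ≤ g y) →
    c' * ∑ y ∈ S.filter (fun y => 2 * R0 ≤ ‖toE y‖ ∧ 0 ≤ inner ℝ (toE y) e'),
      w (Mf B y) * g y ≤
      D * ∑ x ∈ X.filter (fun x => 0 ≤ inner ℝ (toE x) e'), (1 / ((Mf B x : ℝ) ^ b) ^ d) *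
        (w (Mf B x) * ∑ y ∈ S.filter (fun y => ‖toE y - toE x‖ ≤ (Mf B x : ℝ) ^ b / 2), g y) := by
  obtain ⟨c₁, C₁, hc₁, hC₁, hhb⟩ := half_ball d
  refine ⟨c₁ / (2 * 4 ^ b * 4 ^ b) ^ d, 8 * 4 ^ b, by positivity, ?_⟩
  intro X S w D M₂ R0 e' hD hw hwD hM₂ hR0 hR00 hX g hg
  have hswap : D * ∑ x ∈ X.filter (fun x => 0 ≤ inner ℝ (toE x) e'),
      (1 / ((Mf B x : ℝ) ^ b) ^ d) *
        (w (Mf B x) * ∑ y ∈ S.filter (fun y => ‖toE y - toE x‖ ≤ (Mf B x : ℝ) ^ b / 2), g y) =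
      ∑ y ∈ S, g y * ∑ x ∈ (X.filter (fun x => 0 ≤ inner ℝ (toE x) e')).filter
        (fun x => ‖toE y - toE x‖ ≤ (Mf B x : ℝ) ^ b / 2),
        (1 / ((Mf B x : ℝ) ^ b) ^ d) * (D * w (Mf B x)) := by
    generalize X.filter (fun x => 0 ≤ inner ℝ (toE x) e') = X'
    simp only [mul_sum, sum_filter]
    rw [sum_comm]
    refine sum_congr rfl fun y _ => sum_congr rfl fun x _ => ?_
    split_ifs <;> ring
  rw [hswap, mul_sum, sum_filter]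
  refine sum_le_sum fun y hy => ?_
  have hnn : 0 ≤ g y * ∑ x ∈ (X.filter (fun x => 0 ≤ inner ℝ (toE x) e')).filter
        (fun x => ‖toE y - toE x‖ ≤ (Mf B x : ℝ) ^ b / 2),
        (1 / ((Mf B x : ℝ) ^ b) ^ d) * (D * w (Mf B x)) := by
    refine mul_nonneg (hg y) (sum_nonneg fun x _ => ?_)
    have := hw (Mf B x)
    positivity
  split_ifs with hcond
  · obtain ⟨hy1, hy2⟩ := hcond
    have hMy : M₂ ≤ Mf B y := hR0 y (by linarith)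
    have h4b : 1 ≤ 4 ^ b := Nat.one_le_pow _ _ (by norm_num)
    have hy8 : 8 ≤ Mf B y := by omega
    have hyr : (8 * 4 ^ b : ℝ) ≤ Mf B y := by
      have : 8 * 4 ^ b ≤ Mf B y := by omega
      exact_mod_cast this
    have h4r : (1 : ℝ) ≤ 4 ^ b := one_le_pow₀ (by norm_num)
    have hyr1 : (1 : ℝ) ≤ Mf B y := by linarith
    set τ : ℝ := (Mf B y : ℝ) ^ b / (2 * 4 ^ b) with hτ
    have hpow : (Mf B y : ℝ) ≤ (Mf B y : ℝ) ^ b := by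
      calc (Mf B y : ℝ) = (Mf B y : ℝ) ^ 1 := by rw [pow_one]
        _ ≤ (Mf B y : ℝ) ^ b := pow_le_pow_right₀ hyr1 hb1
    have hτ1 : 1 ≤ τ := by
      rw [hτ, le_div_iff₀ (by positivity)]
      linarith
    have hτ4 : τ ≤ 4 * (Mf B y : ℝ) ^ b := by
      rw [hτ, div_le_iff₀ (by positivity)]
      nlinarith [pow_pos (by linarith : (0 : ℝ) < Mf B y) b]
    have hall : ∀ x : Vtx d, ‖toE x - toE y‖ ≤ τ → ‖toE x - toE y‖ ≤ ‖toE y‖ / 2 ∧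
        Mf B x ≤ 4 * Mf B y ∧ Mf B y ≤ 4 * Mf B x := fun x hx =>
      close hbB hy8 (hx.trans hτ4)
    have hcount := ((hhb τ hτ1 y X (fun x hx => hX y hy hy1 x (hall x hx).1)).2 e').1 hy2
    have hsub : X.filter (fun x => ‖toE x - toE y‖ ≤ τ ∧ 0 ≤ inner ℝ (toE x) e') ⊆
        (X.filter (fun x => 0 ≤ inner ℝ (toE x) e')).filter
        (fun x => ‖toE y - toE x‖ ≤ (Mf B x : ℝ) ^ b / 2) := by
      intro x hx
      rw [mem_filter] at hx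
      rw [mem_filter, mem_filter]
      refine ⟨⟨hx.1, hx.2.2⟩, ?_⟩
      rw [norm_sub_rev]
      refine hx.2.1.trans ?_
      rw [hτ, div_le_div_iff₀ (by positivity) (by norm_num)]
      have h5 : (Mf B y : ℝ) ≤ 4 * Mf B x := by exact_mod_cast (hall x hx.2.1).2.2
      calc (Mf B y : ℝ) ^ b * 2 ≤ (4 * (Mf B x : ℝ)) ^ b * 2 := by gcongr
        _ = (Mf B x : ℝ) ^ b * (2 * 4 ^ b) := by rw [mul_pow]; ring
    have hterm : ∀ x ∈ X.filter (fun x => ‖toE x - toE y‖ ≤ τ ∧ 0 ≤ inner ℝ (toE x) e'),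
        (1 / ((4 ^ b) ^ d * ((Mf B y : ℝ) ^ b) ^ d)) * w (Mf B y) ≤
        (1 / ((Mf B x : ℝ) ^ b) ^ d) * (D * w (Mf B x)) := by
      intro x hx
      rw [mem_filter] at hx
      have h1 := hall x hx.2.1
      have hxr : (1 : ℝ) ≤ Mf B x := by
        have : 1 ≤ Mf B x := by omega
        exact_mod_cast this
      refine mul_le_mul ?_ (hwD _ _ h1.2.2 h1.2.1) (hw _) (by positivity)
      refine one_div_le_one_div_of_le (by positivity) ?_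
      rw [← mul_pow, ← mul_pow]
      gcongr
      exact_mod_cast h1.2.1
    have hsum := card_nsmul_le_sum _ _ _ hterm
    rw [nsmul_eq_mul] at hsum
    have hsum2 : c₁ * τ ^ d * ((1 / ((4 ^ b) ^ d * ((Mf B y : ℝ) ^ b) ^ d)) * w (Mf B y)) ≤
        ∑ x ∈ (X.filter (fun x => 0 ≤ inner ℝ (toE x) e')).filter
        (fun x => ‖toE y - toE x‖ ≤ (Mf B x : ℝ) ^ b / 2),
        (1 / ((Mf B x : ℝ) ^ b) ^ d) * (D * w (Mf B x)) := by
      refine le_trans (mul_le_mul_of_nonneg_right hcount (by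
        have := hw (Mf B y)
        positivity)) (hsum.trans ?_)
      refine sum_le_sum_of_subset_of_nonneg hsub fun x _ _ => ?_
      have := hw (Mf B x)
      positivity
    have he : c₁ * τ ^ d * ((1 / ((4 ^ b) ^ d * ((Mf B y : ℝ) ^ b) ^ d)) * w (Mf B y)) =
        c₁ / (2 * 4 ^ b * 4 ^ b) ^ d * w (Mf B y) := by
      rw [hτ, div_pow, mul_pow (2 * 4 ^ b) (4 ^ b) d]
      have : ((Mf B y : ℝ) ^ b) ^ d ≠ 0 := by positivity
      field_simp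
    rw [he] at hsum2
    calc c₁ / (2 * 4 ^ b * 4 ^ b) ^ d * (w (Mf B y) * g y)
        = g y * (c₁ / (2 * 4 ^ b * 4 ^ b) ^ d * w (Mf B y)) := by ring
      _ ≤ _ := mul_le_mul_of_nonneg_left hsum2 (hg y)
  · exact hnn

/-! ## one side -/

/-- the weight function `m ^ p / m ^ q` -/
noncomputable def wf (p q : ℕ) (m : ℕ) : ℝ := (m : ℝ) ^ p / (m : ℝ) ^ q

theorem wf_nonneg (p q m : ℕ) : 0 ≤ wf p q m := by unfold wf; positivity

theorem wf_le (p q : ℕ) (m m' : ℕ) (h1 : m ≤ 4 * m') (h2 : m' ≤ 4 * m) :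
    wf p q m ≤ 4 ^ p * 4 ^ q * wf p q m' := by
  unfold wf
  rcases Nat.eq_zero_or_pos m with h0 | h0
  · have h0' : m' = 0 := by omega
    subst h0 h0'
    have : (0 : ℝ) ≤ ((0 : ℕ) : ℝ) ^ p / ((0 : ℕ) : ℝ) ^ q := by positivity
    have h4 : (1 : ℝ) ≤ 4 ^ p * 4 ^ q := by
      have a1 : (1 : ℝ) ≤ 4 ^ p := one_le_pow₀ (by norm_num)
      have a2 : (1 : ℝ) ≤ 4 ^ q := one_le_pow₀ (by norm_num)
      nlinarith
    nlinarith
  · have h0' : 0 < m' := by omega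
    have hm : (0 : ℝ) < m := by exact_mod_cast h0
    have hm' : (0 : ℝ) < m' := by exact_mod_cast h0'
    have g1 : (m : ℝ) ≤ 4 * m' := by exact_mod_cast h1
    have g2 : (m' : ℝ) ≤ 4 * m := by exact_mod_cast h2
    rw [← mul_div_assoc, div_le_div_iff₀ (by positivity) (by positivity)]
    calc (m : ℝ) ^ p * (m' : ℝ) ^ q ≤ (4 * (m' : ℝ)) ^ p * (4 * (m : ℝ)) ^ q := by gcongr
      _ = 4 ^ p * 4 ^ q * (m' : ℝ) ^ p * (m : ℝ) ^ q := by rw [mul_pow, mul_pow]; ring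

theorem wf_succ (p q : ℕ) {m M₂ : ℕ} (h2 : 1 ≤ M₂) (h : M₂ ≤ 4 * m) :
    wf p (q + 1) m ≤ 4 / M₂ * wf p q m := by
  unfold wf
  have hm : (0 : ℝ) < m := by
    have : 0 < m := by omega
    exact_mod_cast this
  have hM : (0 : ℝ) < M₂ := by exact_mod_cast h2
  have h' : (M₂ : ℝ) ≤ 4 * m := by exact_mod_cast h
  rw [div_mul_div_comm, div_le_div_iff₀ (by positivity) (by positivity), pow_succ]
  have : 0 < (m : ℝ) ^ p * (m : ℝ) ^ q := by positivity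
  nlinarith

theorem one_side (d B b p q : ℕ) (p' q' r : ℕ) (hb1 : 1 ≤ b) (hbB : b + 1 ≤ B) :
    ∃ (K : ℝ) (m₃ : ℕ), 0 < K ∧ 8 ≤ m₃ ∧
    ∀ (S S' S'' : Finset (Vtx d)) (M₂ : ℕ) (R0 : ℝ) (e' : E d), m₃ ≤ M₂ →
    (∀ x : Vtx d, R0 ≤ ‖toE x‖ → M₂ ≤ Mf B x) → 0 ≤ R0 →
    ∀ f g h : Vtx d → ℝ, (∀ y, 0 ≤ f y) → (∀ y, 0 ≤ g y) → (∀ y, 0 ≤ h y) →
    (∀ x : Vtx d, R0 ≤ ‖toE x‖ → 0 ≤ inner ℝ (toE x) e' →
      wf p q (Mf B x) * ∑ y ∈ S.filter (fun y => ‖toE y - toE x‖ ≤ (Mf B x : ℝ) ^ b / 2), f y ≤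
      wf p (q + 1) (Mf B x) *
          ∑ y ∈ S.filter (fun y => ‖toE y - toE x‖ ≤ 4 * (Mf B x : ℝ) ^ b), f y +
        wf p' (q' + 1) (Mf B x) *
          ∑ y ∈ S'.filter (fun y => ‖toE y - toE x‖ ≤ 4 * (Mf B x : ℝ) ^ b), g y +
        wf r 0 (Mf B x) *
          ∑ y ∈ S''.filter (fun y => ‖toE y - toE x‖ ≤ 4 * (Mf B x : ℝ) ^ b), h y) →
    ∑ y ∈ S.filter (fun y => 2 * R0 ≤ ‖toE y‖ ∧ 0 ≤ inner ℝ (toE y) e'), wf p q (Mf B y) * f y ≤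
      K / M₂ * (∑ y ∈ S.filter (fun y => M₂ ≤ 4 * Mf B y), wf p q (Mf B y) * f y +
        ∑ y ∈ S'.filter (fun y => M₂ ≤ 4 * Mf B y), wf p' q' (Mf B y) * g y) +
      K * ∑ y ∈ S''.filter (fun y => M₂ ≤ 4 * Mf B y), wf r 0 (Mf B y) * h y := by
  obtain ⟨K₀, hK₀, hup⟩ := upper d B b hbB
  obtain ⟨c', m₃, hc', hlow⟩ := lower d B b hb1 hbB
  set D : ℝ := 4 ^ p * 4 ^ q with hD
  set D1 : ℝ := 4 ^ p * 4 ^ (q + 1) with hD1
  set D2 : ℝ := 4 ^ p' * 4 ^ (q' + 1) with hD2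
  set D3 : ℝ := 4 ^ r * 4 ^ 0 with hD3
  have hD0 : 0 < D := by positivity
  have hD10 : 0 < D1 := by positivity
  have hD20 : 0 < D2 := by positivity
  have hD30 : 0 < D3 := by positivity
  refine ⟨4 * (D * K₀ * (D1 + D2 + D3) / c'), max m₃ 8, by positivity, le_max_right _ _, ?_⟩
  intro S S' S'' M₂ R0 e' hM₂ hR0 hR00 f g h hf hg hh hLI
  have hM3 : m₃ ≤ M₂ := (le_max_left _ _).trans hM₂
  have hM8 : 8 ≤ M₂ := (le_max_right _ _).trans hM₂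
  have hMr : (0 : ℝ) < M₂ := by
    have : 0 < M₂ := by omega
    exact_mod_cast this
  obtain ⟨n, hn⟩ := exists_nat_ge (∑ y ∈ S, 2 * ‖toE y‖)
  set X : Finset (Vtx d) := (Lam (0 : Vtx d) n).filter (fun x => R0 ≤ ‖toE x‖) with hX
  have h0 : toE (0 : Vtx d) = 0 := by
    ext i
    simp [toE]
  have hXmem : ∀ y ∈ S, 2 * R0 ≤ ‖toE y‖ → ∀ x : Vtx d, ‖toE x - toE y‖ ≤ ‖toE y‖ / 2 →
      x ∈ X := by
    intro y hy hy2 x hx
    have h1 : ‖toE x‖ ≤ ‖toE x - toE y‖ + ‖toE y‖ := by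
      have := norm_add_le (toE x - toE y) (toE y)
      rwa [sub_add_cancel] at this
    have h2 : ‖toE y‖ ≤ ‖toE x - toE y‖ + ‖toE x‖ := by
      have := norm_add_le (toE y - toE x) (toE x)
      rw [sub_add_cancel, norm_sub_rev] at this
      exact this
    have h3 : 2 * ‖toE y‖ ≤ ∑ y ∈ S, 2 * ‖toE y‖ :=
      single_le_sum (f := fun y => 2 * ‖toE y‖) (fun y _ => by positivity) hy
    rw [hX, mem_filter]
    refine ⟨mem_Lam_of_norm ?_, by linarith⟩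
    rw [h0, sub_zero]
    have := norm_nonneg (toE y)
    linarith
  set X' := X.filter (fun x => 0 ≤ inner ℝ (toE x) e') with hX'
  have hX'M : ∀ x ∈ X', M₂ ≤ Mf B x := by
    intro x hx
    rw [hX', mem_filter, hX, mem_filter] at hx
    exact hR0 x hx.1.2
  have L := hlow X S (wf p q) D M₂ R0 e' hD0.le (wf_nonneg p q) (wf_le p q) hM3 hR0 hR00 hXmem f hf
  have U1 := hup X' S (wf p (q + 1)) D1 M₂ hD10.le (wf_nonneg _ _) (wf_le _ _) hM8 hX'M f hf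
  have U2 := hup X' S' (wf p' (q' + 1)) D2 M₂ hD20.le (wf_nonneg _ _) (wf_le _ _) hM8 hX'M g hg
  have U3 := hup X' S'' (wf r 0) D3 M₂ hD30.le (wf_nonneg _ _) (wf_le _ _) hM8 hX'M h hh
  have hsum : ∑ x ∈ X', (1 / ((Mf B x : ℝ) ^ b) ^ d) *
        (wf p q (Mf B x) * ∑ y ∈ S.filter (fun y => ‖toE y - toE x‖ ≤ (Mf B x : ℝ) ^ b / 2), f y) ≤
      ∑ x ∈ X', (1 / ((Mf B x : ℝ) ^ b) ^ d) * (wf p (q + 1) (Mf B x) *
          ∑ y ∈ S.filter (fun y => ‖toE y - toE x‖ ≤ 4 * (Mf B x : ℝ) ^ b), f y) +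
      ∑ x ∈ X', (1 / ((Mf B x : ℝ) ^ b) ^ d) * (wf p' (q' + 1) (Mf B x) *
          ∑ y ∈ S'.filter (fun y => ‖toE y - toE x‖ ≤ 4 * (Mf B x : ℝ) ^ b), g y) +
      ∑ x ∈ X', (1 / ((Mf B x : ℝ) ^ b) ^ d) * (wf r 0 (Mf B x) *
          ∑ y ∈ S''.filter (fun y => ‖toE y - toE x‖ ≤ 4 * (Mf B x : ℝ) ^ b), h y) := by
    rw [← sum_add_distrib, ← sum_add_distrib]
    refine sum_le_sum fun x hx => ?_
    rw [← mul_add, ← mul_add]
    refine mul_le_mul_of_nonneg_left ?_ (by positivity)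
    rw [hX', mem_filter, hX, mem_filter] at hx
    exact hLI x hx.1.2 hx.2
  have V1 : ∑ y ∈ S.filter (fun y => M₂ ≤ 4 * Mf B y), wf p (q + 1) (Mf B y) * f y ≤
      4 / M₂ * ∑ y ∈ S.filter (fun y => M₂ ≤ 4 * Mf B y), wf p q (Mf B y) * f y := by
    rw [mul_sum]
    refine sum_le_sum fun y hy => ?_
    rw [← mul_assoc]
    exact mul_le_mul_of_nonneg_right (wf_succ p q (by omega) (mem_filter.1 hy).2) (hf y)
  have V2 : ∑ y ∈ S'.filter (fun y => M₂ ≤ 4 * Mf B y), wf p' (q' + 1) (Mf B y) * g y ≤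
      4 / M₂ * ∑ y ∈ S'.filter (fun y => M₂ ≤ 4 * Mf B y), wf p' q' (Mf B y) * g y := by
    rw [mul_sum]
    refine sum_le_sum fun y hy => ?_
    rw [← mul_assoc]
    exact mul_le_mul_of_nonneg_right (wf_succ p' q' (by omega) (mem_filter.1 hy).2) (hg y)
  set a1 := ∑ y ∈ S.filter (fun y => M₂ ≤ 4 * Mf B y), wf p q (Mf B y) * f y with ha1
  set a2 := ∑ y ∈ S'.filter (fun y => M₂ ≤ 4 * Mf B y), wf p' q' (Mf B y) * g y with ha2
  set a3 := ∑ y ∈ S''.filter (fun y => M₂ ≤ 4 * Mf B y), wf r 0 (Mf B y) * h y with ha3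
  have ha1n : 0 ≤ a1 := sum_nonneg fun y _ => mul_nonneg (wf_nonneg _ _ _) (hf y)
  have ha2n : 0 ≤ a2 := sum_nonneg fun y _ => mul_nonneg (wf_nonneg _ _ _) (hg y)
  have ha3n : 0 ≤ a3 := sum_nonneg fun y _ => mul_nonneg (wf_nonneg _ _ _) (hh y)
  have T1 : c' * ∑ y ∈ S.filter (fun y => 2 * R0 ≤ ‖toE y‖ ∧ 0 ≤ inner ℝ (toE y) e'),
      wf p q (Mf B y) * f y ≤
      D * (K₀ * D1 * (4 / M₂ * a1) + K₀ * D2 * (4 / M₂ * a2) + K₀ * D3 * a3) := by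
    refine L.trans (mul_le_mul_of_nonneg_left (hsum.trans ?_) hD0.le)
    refine add_le_add (add_le_add (U1.trans ?_) (U2.trans ?_)) U3
    · exact mul_le_mul_of_nonneg_left V1 (by positivity)
    · exact mul_le_mul_of_nonneg_left V2 (by positivity)
  have T2 : D * (K₀ * D1 * (4 / M₂ * a1) + K₀ * D2 * (4 / M₂ * a2) + K₀ * D3 * a3) ≤
      c' * (4 * (D * K₀ * (D1 + D2 + D3) / c') / M₂ * (a1 + a2) +
        4 * (D * K₀ * (D1 + D2 + D3) / c') * a3) := by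
    have e1 : c' * (4 * (D * K₀ * (D1 + D2 + D3) / c') / M₂ * (a1 + a2) +
        4 * (D * K₀ * (D1 + D2 + D3) / c') * a3) =
        D * K₀ * (D1 + D2 + D3) * (4 / M₂) * (a1 + a2) + 4 * (D * K₀ * (D1 + D2 + D3)) * a3 := by
      field_simp
    rw [e1]
    have e2 : D * K₀ * (D1 + D2 + D3) * (4 / M₂) * (a1 + a2) +
        4 * (D * K₀ * (D1 + D2 + D3)) * a3 -
        D * (K₀ * D1 * (4 / M₂ * a1) + K₀ * D2 * (4 / M₂ * a2) + K₀ * D3 * a3) =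
        D * K₀ * (4 / M₂) * ((D2 + D3) * a1 + (D1 + D3) * a2) +
          D * K₀ * (4 * (D1 + D2) + 3 * D3) * a3 := by ring
    have e3 : 0 ≤ D * K₀ * (4 / M₂) * ((D2 + D3) * a1 + (D1 + D3) * a2) +
          D * K₀ * (4 * (D1 + D2) + 3 * D3) * a3 := by positivity
    linarith
  exact le_of_mul_le_mul_left (T1.trans T2) hc'

end CEm

end Pool.Agent.Lib.MP_566bac_pr.Hd
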