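import Pool.Agent.Lib.MP_566bac_pr.Hd.CEa

/-!
# The Carleman estimate on the cluster: the exponential weights
-/

open Finset MeasureTheory ProbabilityTheory Filter
open scoped Classical

namespace Pool.Agent.Lib.MP_566bac_pr.Hd

namespace CEm

variable {d : ℕ}

/-! ## the weights -/

theorem abs_exp_sub_one (δ : ℝ) : |Real.exp δ - 1| ≤ |δ| * Real.exp |δ| := by
  have h1 : 1 ≤ Real.exp |δ| := Real.one_le_exp (abs_nonneg _)
  rw [abs_le]
  constructor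
  · have h2 := Real.add_one_le_exp δ
    have h3 := neg_abs_le δ
    nlinarith [abs_nonneg δ]
  · have h2 := Real.add_one_le_exp (-δ)
    have h3 : Real.exp δ * Real.exp (-δ) = 1 := by rw [← Real.exp_add]; simp
    have h4 : Real.exp δ ≤ Real.exp |δ| := Real.exp_le_exp.2 (le_abs_self _)
    have h5 := Real.exp_pos δ
    have h6 : Real.exp δ - 1 ≤ Real.exp δ * δ := by nlinarith
    have h7 : Real.exp δ * δ ≤ Real.exp |δ| * |δ| := by
      have h8 : Real.exp δ * δ ≤ Real.exp δ * |δ| :=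
        mul_le_mul_of_nonneg_left (le_abs_self _) h5.le
      have h9 : Real.exp δ * |δ| ≤ Real.exp |δ| * |δ| :=
        mul_le_mul_of_nonneg_right h4 (abs_nonneg _)
      linarith
    linarith

theorem toE_add_ev (y : Vtx d) (j : Fin d) : toE (y + ev j) = toE y + eb j := by
  ext i
  simp only [toE, eb, ev, PiLp.add_apply, Pi.add_apply, PiLp.toLp_apply]
  by_cases h : i = j
  · subst h
    simp
  · simp [h]

theorem norm_eb (j : Fin d) : ‖(eb j : E d)‖ = 1 := by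
  unfold eb
  simp

/-- the exponent -/
noncomputable def Psi (ρ : ℝ) (Φ : E d → ℝ) (y : Vtx d) : ℝ :=
  2 * Φ (toE y) + (ρ - 2) * Real.log (1 + ‖toE y‖)

theorem norm_bounds {a b : E d} (h : ‖b - a‖ = 1) : ‖b‖ ≤ ‖a‖ + 1 ∧ ‖a‖ ≤ ‖b‖ + 1 := by
  constructor
  · have := norm_add_le (b - a) a
    rw [sub_add_cancel, h] at this
    linarith
  · have := norm_add_le (a - b) b
    rw [sub_add_cancel, norm_sub_rev, h] at this
    linarith

theorem log_inc {u v : ℝ} (hu : 1 ≤ u) (hv : 1 ≤ v) (h1 : u ≤ v + 1) (h2 : v ≤ u + 1) {ρ : ℝ}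
    (hρ : 0 < ρ) : |Real.log u - Real.log v| ≤ 2 * v ^ (ρ - 1) := by
  have hu0 : 0 < u := by linarith
  have hv0 : 0 < v := by linarith
  have h8 : v⁻¹ ≤ v ^ (ρ - 1) := by
    rw [← Real.rpow_neg_one]
    exact Real.rpow_le_rpow_of_exponent_le hv (by linarith)
  have h8' : 0 < v⁻¹ := inv_pos.2 hv0
  have h9 : Real.log u - Real.log v ≤ v⁻¹ := by
    rw [← Real.log_div hu0.ne' hv0.ne']
    have h10 := Real.log_le_sub_one_of_pos (div_pos hu0 hv0)
    have h11 : u / v - 1 ≤ v⁻¹ := by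
      rw [div_sub_one hv0.ne', div_eq_mul_inv]
      calc (u - v) * v⁻¹ ≤ 1 * v⁻¹ := mul_le_mul_of_nonneg_right (by linarith) h8'.le
        _ = v⁻¹ := one_mul _
    linarith
  have h12 : Real.log v - Real.log u ≤ 2 * v⁻¹ := by
    rw [← Real.log_div hv0.ne' hu0.ne']
    have h10 := Real.log_le_sub_one_of_pos (div_pos hv0 hu0)
    have h11 : v / u - 1 ≤ 2 * v⁻¹ := by
      rw [div_sub_one hu0.ne', ← div_eq_mul_inv, div_le_div_iff₀ hu0 hv0]
      have a1 : (v - u) * v ≤ 1 * v := mul_le_mul_of_nonneg_right (by linarith) hv0.le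
      linarith
    linarith
  rw [abs_le]
  constructor <;> linarith

theorem far_inc (ρ cW CW R : ℝ) (hρ : 0 < ρ) (hρ1 : ρ < 1) (Φ : E d → ℝ)
    (h : Wgt ρ cW CW R Φ) (a b : E d) (hba : ‖b - a‖ = 1) (hR : R + 1 ≤ ‖a‖) (h1y : 2 ≤ ‖a‖) :
    |Φ b - Φ a| ≤ 3 * |CW| * (1 + ‖a‖) ^ (ρ - 1) := by
  have hseg : ∀ x ∈ segment ℝ a b, ‖a‖ - 1 ≤ ‖x‖ := by
    intro x hx
    have h2 : ‖x - a‖ ≤ ‖b - a‖ := by
      have h3 := segment_subset_closedBall_left a b hx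
      rw [Metric.mem_closedBall, dist_eq_norm, dist_eq_norm, norm_sub_rev a b] at h3
      exact h3
    have h4 : ‖a‖ ≤ ‖x - a‖ + ‖x‖ := by
      have := norm_add_le (a - x) x
      rw [sub_add_cancel, norm_sub_rev] at this
      exact this
    linarith
  have hbound : ∀ x ∈ segment ℝ a b, ‖fderiv ℝ Φ x‖ ≤ 3 * |CW| * (1 + ‖a‖) ^ (ρ - 1) := by
    intro x hx
    have h2 := hseg x hx
    have h3 := h.deriv x (by linarith) 1 le_rfl (by norm_num)
    rw [norm_iteratedFDeriv_one, Nat.cast_one] at h3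
    refine h3.trans ?_
    have h5 : ‖x‖ ^ (ρ - 1) ≤ ((1 + ‖a‖) / 3) ^ (ρ - 1) :=
      Real.rpow_le_rpow_of_nonpos (by linarith) (by linarith) (by linarith)
    have h6 : ((1 + ‖a‖) / 3) ^ (ρ - 1) ≤ 3 * (1 + ‖a‖) ^ (ρ - 1) := by
      rw [Real.div_rpow (by linarith) (by norm_num), div_le_iff₀ (by positivity)]
      have h7 : (1 : ℝ) ≤ 3 * 3 ^ (ρ - 1) := by
        have e1 : (3 : ℝ) * 3 ^ (ρ - 1) = 3 ^ ρ := by
          rw [Real.rpow_sub_one (by norm_num)]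
          ring
        rw [e1]
        exact Real.one_le_rpow (by norm_num) hρ.le
      have h8 : 0 ≤ (1 + ‖a‖) ^ (ρ - 1) := Real.rpow_nonneg (by linarith) _
      calc (1 + ‖a‖) ^ (ρ - 1) = (1 + ‖a‖) ^ (ρ - 1) * 1 := (mul_one _).symm
        _ ≤ (1 + ‖a‖) ^ (ρ - 1) * (3 * 3 ^ (ρ - 1)) := mul_le_mul_of_nonneg_left h7 h8
        _ = 3 * (1 + ‖a‖) ^ (ρ - 1) * 3 ^ (ρ - 1) := by ring
    calc CW * ‖x‖ ^ (ρ - 1) ≤ |CW| * ‖x‖ ^ (ρ - 1) :=
          mul_le_mul_of_nonneg_right (le_abs_self _) (Real.rpow_nonneg (norm_nonneg _) _)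
      _ ≤ |CW| * (3 * (1 + ‖a‖) ^ (ρ - 1)) :=
          mul_le_mul_of_nonneg_left (h5.trans h6) (abs_nonneg _)
      _ = _ := by ring
  have hdiff : ∀ x ∈ segment ℝ a b, DifferentiableAt ℝ Φ x := fun x _ =>
    (h.smooth.differentiable (by norm_num)).differentiableAt
  have hmv := Convex.norm_image_sub_le_of_norm_fderiv_le hdiff hbound (convex_segment a b)
    (left_mem_segment ℝ a b) (right_mem_segment ℝ a b)
  rw [hba, mul_one, Real.norm_eq_abs] at hmv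
  exact hmv

theorem exp_inc (ρ cW CW R : ℝ) (hρ : 0 < ρ) (hρ1 : ρ < 1) (Φ : E d → ℝ)
    (h : Wgt ρ cW CW R Φ) : ∃ C : ℝ, 0 ≤ C ∧ ∀ (y : Vtx d) (j : Fin d),
      |Psi ρ Φ (y + ev j) - Psi ρ Φ y| ≤ C * (1 + ‖toE y‖) ^ (ρ - 1) := by
  obtain ⟨n, hn⟩ := exists_nat_ge (max R 1 + 1)
  obtain ⟨CB, hCB⟩ : ∃ CB : ℝ, CB = ∑ y ∈ Lam (0 : Vtx d) n, ∑ j : Fin d,
    |Psi ρ Φ (y + ev j) - Psi ρ Φ y| / (1 + ‖toE y‖) ^ (ρ - 1) := ⟨_, rfl⟩
  have hCB0 : 0 ≤ CB := by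
    rw [hCB]
    exact sum_nonneg fun y _ => sum_nonneg fun j _ => by positivity
  refine ⟨CB + (6 * |CW| + 4), add_nonneg hCB0 (by positivity), fun y j => ?_⟩
  have hpos : 0 < (1 + ‖toE y‖) ^ (ρ - 1) := by positivity
  rw [add_mul]
  by_cases hy : ‖toE y‖ ≤ n
  · have hmem : y ∈ Lam (0 : Vtx d) n := by
      refine mem_Lam_of_norm ?_
      have h0 : toE (0 : Vtx d) = 0 := by
        ext i
        simp [toE]
      rw [h0, sub_zero]
      exact hy
    have h1 : |Psi ρ Φ (y + ev j) - Psi ρ Φ y| / (1 + ‖toE y‖) ^ (ρ - 1) ≤ CB := by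
      rw [hCB]
      refine le_trans (single_le_sum (f := fun j : Fin d =>
        |Psi ρ Φ (y + ev j) - Psi ρ Φ y| / (1 + ‖toE y‖) ^ (ρ - 1)) (fun _ _ => by positivity)
        (mem_univ j)) ?_
      exact single_le_sum (f := fun y => ∑ j : Fin d,
        |Psi ρ Φ (y + ev j) - Psi ρ Φ y| / (1 + ‖toE y‖) ^ (ρ - 1))
        (fun _ _ => sum_nonneg fun _ _ => by positivity) hmem
    rw [div_le_iff₀ hpos] at h1
    have h2 : 0 ≤ (6 * |CW| + 4) * (1 + ‖toE y‖) ^ (ρ - 1) :=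
      mul_nonneg (by positivity) hpos.le
    linarith
  · push Not at hy
    have hR : R + 1 ≤ ‖toE y‖ := by
      have := le_max_left R 1
      linarith
    have h1y : 2 ≤ ‖toE y‖ := by
      have := le_max_right R 1
      linarith
    have hba : ‖toE (y + ev j) - toE y‖ = 1 := by
      rw [toE_add_ev, add_sub_cancel_left, norm_eb]
    have hfar := far_inc ρ cW CW R hρ hρ1 Φ h (toE y) (toE (y + ev j)) hba hR h1y
    obtain ⟨n1, n2⟩ := norm_bounds hba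
    have hlog := log_inc (u := 1 + ‖toE (y + ev j)‖) (v := 1 + ‖toE y‖)
      (by linarith [norm_nonneg (toE (y + ev j))]) (by linarith) (by linarith) (by linarith) hρ
    have e1 : Psi ρ Φ (y + ev j) - Psi ρ Φ y =
        2 * (Φ (toE (y + ev j)) - Φ (toE y)) +
          (ρ - 2) * (Real.log (1 + ‖toE (y + ev j)‖) - Real.log (1 + ‖toE y‖)) := by
      unfold Psi
      ring
    have e2 : |ρ - 2| ≤ 2 := by
      rw [abs_le]
      constructor <;> linarith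
    have e3 : |(ρ - 2) * (Real.log (1 + ‖toE (y + ev j)‖) - Real.log (1 + ‖toE y‖))| ≤
        2 * (2 * (1 + ‖toE y‖) ^ (ρ - 1)) := by
      rw [abs_mul]
      exact mul_le_mul e2 hlog (abs_nonneg _) (by norm_num)
    have e4 : |2 * (Φ (toE (y + ev j)) - Φ (toE y))| ≤
        2 * (3 * |CW| * (1 + ‖toE y‖) ^ (ρ - 1)) := by
      rw [abs_mul, abs_of_pos (by norm_num : (0 : ℝ) < 2)]
      exact mul_le_mul_of_nonneg_left hfar (by norm_num)
    have h13 : 0 ≤ CB * (1 + ‖toE y‖) ^ (ρ - 1) := mul_nonneg hCB0 hpos.le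
    rw [e1]
    have e5 := abs_add_le (2 * (Φ (toE (y + ev j)) - Φ (toE y)))
      ((ρ - 2) * (Real.log (1 + ‖toE (y + ev j)‖) - Real.log (1 + ‖toE y‖)))
    linarith

theorem exp_Psi (ρ : ℝ) (Φ : E d → ℝ) (y : Vtx d) :
    Real.exp (Psi ρ Φ y) = Real.exp (2 * Φ (toE y)) * (1 + ‖toE y‖) ^ (ρ - 2) := by
  unfold Psi
  rw [Real.exp_add, Real.rpow_def_of_pos (by positivity), mul_comm (ρ - 2)]

theorem exp_one {C u A A' : ℝ} (hC0 : 0 ≤ C) (hu0 : 0 < u) (hu1 : u ≤ 1)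
    (h : |A' - A| ≤ C * u) :
    |Real.exp A' - Real.exp A| ≤ (C + 1) * Real.exp C * u * Real.exp A ∧
      Real.exp A' ≤ (C + 1) * Real.exp C * Real.exp A ∧
      Real.exp A ≤ (C + 1) * Real.exp C * Real.exp A' := by
  obtain ⟨δ, hδ⟩ : ∃ δ, δ = A' - A := ⟨_, rfl⟩
  rw [← hδ] at h
  have hCu : C * u ≤ C := mul_le_of_le_one_right hC0 hu1
  have hδC : |δ| ≤ C := h.trans hCu
  have e1 : Real.exp A' = Real.exp A * Real.exp δ := by
    rw [← Real.exp_add, hδ]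
    congr 1
    ring
  have e5 : Real.exp A = Real.exp A' * Real.exp (-δ) := by
    rw [← Real.exp_add, hδ]
    congr 1
    ring
  have hE := Real.exp_pos A
  have hE' := Real.exp_pos A'
  have hEC := Real.exp_pos C
  have hCC : Real.exp C ≤ (C + 1) * Real.exp C := le_mul_of_one_le_left hEC.le (by linarith)
  have e4 : Real.exp δ ≤ Real.exp C := Real.exp_le_exp.2 ((le_abs_self _).trans hδC)
  have e4' : Real.exp (-δ) ≤ Real.exp C := Real.exp_le_exp.2 ((neg_le_abs _).trans hδC)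
  refine ⟨?_, ?_, ?_⟩
  · have e2 : Real.exp A' - Real.exp A = Real.exp A * (Real.exp δ - 1) := by rw [e1]; ring
    rw [e2, abs_mul, abs_of_pos hE]
    have e3 : |Real.exp δ - 1| ≤ C * u * Real.exp C :=
      (abs_exp_sub_one δ).trans (mul_le_mul h (Real.exp_le_exp.2 hδC) (Real.exp_pos _).le
        (mul_nonneg hC0 hu0.le))
    have e6 : C * u * Real.exp C ≤ (C + 1) * Real.exp C * u := by
      have : 0 < u * Real.exp C := mul_pos hu0 hEC
      have e7 : (C + 1) * Real.exp C * u - C * u * Real.exp C = u * Real.exp C := by ring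
      linarith
    calc Real.exp A * |Real.exp δ - 1| ≤ Real.exp A * ((C + 1) * Real.exp C * u) :=
          mul_le_mul_of_nonneg_left (e3.trans e6) hE.le
      _ = _ := by ring
  · calc Real.exp A' = Real.exp A * Real.exp δ := e1
      _ ≤ Real.exp A * ((C + 1) * Real.exp C) :=
          mul_le_mul_of_nonneg_left (e4.trans hCC) hE.le
      _ = _ := by ring
  · calc Real.exp A = Real.exp A' * Real.exp (-δ) := e5
      _ ≤ Real.exp A' * ((C + 1) * Real.exp C) :=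
          mul_le_mul_of_nonneg_left (e4'.trans hCC) hE'.le
      _ = _ := by ring

theorem two_one {C u A A' B B' : ℝ} (hC0 : 0 ≤ C) (hu0 : 0 < u) (hu1 : u ≤ 1)
    (h : |A' - A| ≤ C * u) (h' : |B' - B| ≤ C * u) :
    |(Real.exp A' + Real.exp B') - (Real.exp A + Real.exp B)| ≤
        (C + 1) * Real.exp C * u * (Real.exp A + Real.exp B) ∧
      Real.exp A' + Real.exp B' ≤ (C + 1) * Real.exp C * (Real.exp A + Real.exp B) ∧
      Real.exp A + Real.exp B ≤ (C + 1) * Real.exp C * (Real.exp A' + Real.exp B') := by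
  obtain ⟨p1, p2, p3⟩ := exp_one hC0 hu0 hu1 h
  obtain ⟨q1, q2, q3⟩ := exp_one hC0 hu0 hu1 h'
  refine ⟨?_, ?_, ?_⟩
  · have e6 : (Real.exp A' + Real.exp B') - (Real.exp A + Real.exp B) =
        (Real.exp A' - Real.exp A) + (Real.exp B' - Real.exp B) := by ring
    rw [e6, mul_add]
    exact (abs_add_le _ _).trans (add_le_add p1 q1)
  · rw [mul_add]
    exact add_le_add p2 q2
  · rw [mul_add]
    exact add_le_add p3 q3

theorem W_ok (ρ cW CW R : ℝ) (hρ : 0 < ρ) (hρ1 : ρ < 1) (Φp Φm : E d → ℝ)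
    (hp : Wgt ρ cW CW R Φp) (hm : Wgt ρ cW CW R Φm) : ∃ C : ℝ, 0 < C ∧
    ∀ (y : Vtx d) (j : Fin d),
      |(Real.exp (Psi ρ Φp (y + ev j)) + Real.exp (Psi ρ Φm (y + ev j))) -
        (Real.exp (Psi ρ Φp y) + Real.exp (Psi ρ Φm y))| ≤
          C * (1 + ‖toE y‖) ^ (ρ - 1) * (Real.exp (Psi ρ Φp y) + Real.exp (Psi ρ Φm y)) ∧
      (Real.exp (Psi ρ Φp (y + ev j)) + Real.exp (Psi ρ Φm (y + ev j))) ≤
        C * (Real.exp (Psi ρ Φp y) + Real.exp (Psi ρ Φm y)) ∧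
      (Real.exp (Psi ρ Φp y) + Real.exp (Psi ρ Φm y)) ≤
        C * (Real.exp (Psi ρ Φp (y + ev j)) + Real.exp (Psi ρ Φm (y + ev j))) := by
  obtain ⟨C₁, hC₁, h₁⟩ := exp_inc ρ cW CW R hρ hρ1 Φp hp
  obtain ⟨C₂, hC₂, h₂⟩ := exp_inc ρ cW CW R hρ hρ1 Φm hm
  have hC0 : 0 ≤ C₁ + C₂ := add_nonneg hC₁ hC₂
  refine ⟨(C₁ + C₂ + 1) * Real.exp (C₁ + C₂), mul_pos (by linarith) (Real.exp_pos _), fun y j => ?_⟩
  have hu0 : 0 < (1 + ‖toE y‖) ^ (ρ - 1) := by positivity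
  have hu1 : (1 + ‖toE y‖) ^ (ρ - 1) ≤ 1 := by
    refine Real.rpow_le_one_of_one_le_of_nonpos ?_ (by linarith)
    linarith [norm_nonneg (toE y)]
  exact two_one hC0 hu0 hu1
    ((h₁ y j).trans (mul_le_mul_of_nonneg_right (by linarith) hu0.le))
    ((h₂ y j).trans (mul_le_mul_of_nonneg_right (by linarith) hu0.le))

end CEm

end Pool.Agent.Lib.MP_566bac_pr.Hd
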