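import Pool.Agent.Lib.MP_566bac_pr.Hd.CEb

/-!
# The Carleman estimate on the cluster: both sides, comparison of the weights
-/

open Finset MeasureTheory ProbabilityTheory Filter
open scoped Classical

namespace Pool.Agent.Lib.MP_566bac_pr.Hd

namespace CEm

variable {d : ℕ}

theorem two_sides (d B b p q : ℕ) (p' q' r : ℕ) (hb1 : 1 ≤ b) (hbB : b + 1 ≤ B) :
    ∃ (K : ℝ) (m₃ : ℕ), 0 < K ∧ 8 ≤ m₃ ∧
    ∀ (S S' S'' : Finset (Vtx d)) (M₂ : ℕ) (R0 : ℝ) (e' : E d), m₃ ≤ M₂ →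
    (∀ x : Vtx d, R0 ≤ ‖toE x‖ → M₂ ≤ Mf B x) → 0 ≤ R0 →
    ∀ Ep Em f g h : Vtx d → ℝ, (∀ y, 0 ≤ Ep y) → (∀ y, 0 ≤ Em y) →
    (∀ y, 0 ≤ f y) → (∀ y, 0 ≤ g y) → (∀ y, 0 ≤ h y) →
    (∀ x : Vtx d, R0 ≤ ‖toE x‖ → 0 ≤ inner ℝ (toE x) e' →
      wf p q (Mf B x) *
        ∑ y ∈ S.filter (fun y => ‖toE y - toE x‖ ≤ (Mf B x : ℝ) ^ b / 2), Ep y * f y ≤
      wf p (q + 1) (Mf B x) *
          ∑ y ∈ S.filter (fun y => ‖toE y - toE x‖ ≤ 4 * (Mf B x : ℝ) ^ b), Ep y * f y +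
        wf p' (q' + 1) (Mf B x) *
          ∑ y ∈ S'.filter (fun y => ‖toE y - toE x‖ ≤ 4 * (Mf B x : ℝ) ^ b), Ep y * g y +
        wf r 0 (Mf B x) *
          ∑ y ∈ S''.filter (fun y => ‖toE y - toE x‖ ≤ 4 * (Mf B x : ℝ) ^ b), Ep y * h y) →
    (∀ x : Vtx d, R0 ≤ ‖toE x‖ → inner ℝ (toE x) e' ≤ 0 →
      wf p q (Mf B x) *
        ∑ y ∈ S.filter (fun y => ‖toE y - toE x‖ ≤ (Mf B x : ℝ) ^ b / 2), Em y * f y ≤
      wf p (q + 1) (Mf B x) *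
          ∑ y ∈ S.filter (fun y => ‖toE y - toE x‖ ≤ 4 * (Mf B x : ℝ) ^ b), Em y * f y +
        wf p' (q' + 1) (Mf B x) *
          ∑ y ∈ S'.filter (fun y => ‖toE y - toE x‖ ≤ 4 * (Mf B x : ℝ) ^ b), Em y * g y +
        wf r 0 (Mf B x) *
          ∑ y ∈ S''.filter (fun y => ‖toE y - toE x‖ ≤ 4 * (Mf B x : ℝ) ^ b), Em y * h y) →
    (∀ y : Vtx d, R0 ≤ ‖toE y‖ → 0 ≤ inner ℝ (toE y) e' → Em y ≤ Ep y) →
    (∀ y : Vtx d, R0 ≤ ‖toE y‖ → inner ℝ (toE y) e' ≤ 0 → Ep y ≤ Em y) →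
    ∑ y ∈ S.filter (fun y => 2 * R0 ≤ ‖toE y‖), wf p q (Mf B y) * ((Ep y + Em y) * f y) ≤
      K / M₂ * (∑ y ∈ S.filter (fun y => M₂ ≤ 4 * Mf B y),
          wf p q (Mf B y) * ((Ep y + Em y) * f y) +
        ∑ y ∈ S'.filter (fun y => M₂ ≤ 4 * Mf B y),
          wf p' q' (Mf B y) * ((Ep y + Em y) * g y)) +
      K * ∑ y ∈ S''.filter (fun y => M₂ ≤ 4 * Mf B y),
          wf r 0 (Mf B y) * ((Ep y + Em y) * h y) := by
  obtain ⟨K, m₃, hK, hm₃, hos⟩ := one_side d B b p q p' q' r hb1 hbB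
  refine ⟨2 * K, m₃, by linarith, hm₃, ?_⟩
  intro S S' S'' M₂ R0 e' hM₂ hR0 hR00 Ep Em f g h hEp hEm hf hg hh hLp hLm hcp hcm
  have o1 := hos S S' S'' M₂ R0 e' hM₂ hR0 hR00 (fun y => Ep y * f y) (fun y => Ep y * g y)
    (fun y => Ep y * h y) (fun y => mul_nonneg (hEp y) (hf y)) (fun y => mul_nonneg (hEp y) (hg y))
    (fun y => mul_nonneg (hEp y) (hh y)) hLp
  have o2 := hos S S' S'' M₂ R0 (-e') hM₂ hR0 hR00 (fun y => Em y * f y) (fun y => Em y * g y)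
    (fun y => Em y * h y) (fun y => mul_nonneg (hEm y) (hf y)) (fun y => mul_nonneg (hEm y) (hg y))
    (fun y => mul_nonneg (hEm y) (hh y)) (fun x hx hxe => hLm x hx (by
      rw [inner_neg_right] at hxe
      linarith))
  have hsplit : ∑ y ∈ S.filter (fun y => 2 * R0 ≤ ‖toE y‖),
      wf p q (Mf B y) * ((Ep y + Em y) * f y) ≤
      2 * ∑ y ∈ S.filter (fun y => 2 * R0 ≤ ‖toE y‖ ∧ 0 ≤ inner ℝ (toE y) e'),
        wf p q (Mf B y) * (Ep y * f y) +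
      2 * ∑ y ∈ S.filter (fun y => 2 * R0 ≤ ‖toE y‖ ∧ 0 ≤ inner ℝ (toE y) (-e')),
        wf p q (Mf B y) * (Em y * f y) := by
    rw [mul_sum, mul_sum, sum_filter, sum_filter, sum_filter, ← sum_add_distrib]
    refine sum_le_sum fun y _ => ?_
    have hw := wf_nonneg p q (Mf B y)
    have hp1 : 0 ≤ wf p q (Mf B y) * (Ep y * f y) := mul_nonneg hw (mul_nonneg (hEp y) (hf y))
    have hm1 : 0 ≤ wf p q (Mf B y) * (Em y * f y) := mul_nonneg hw (mul_nonneg (hEm y) (hf y))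
    by_cases h1 : 2 * R0 ≤ ‖toE y‖
    · have h1' : R0 ≤ ‖toE y‖ := by linarith
      rw [if_pos h1]
      rcases le_total 0 (inner ℝ (toE y) e') with h2 | h2
      · have c := hcp y h1' h2
        rw [if_pos ⟨h1, h2⟩]
        have h3 : wf p q (Mf B y) * ((Ep y + Em y) * f y) ≤
            2 * (wf p q (Mf B y) * (Ep y * f y)) := by
          have : wf p q (Mf B y) * (Em y * f y) ≤ wf p q (Mf B y) * (Ep y * f y) :=
            mul_le_mul_of_nonneg_left (mul_le_mul_of_nonneg_right c (hf y)) hw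
          linarith
        split_ifs <;> linarith
      · have c := hcm y h1' h2
        rw [if_pos (c := 2 * R0 ≤ ‖toE y‖ ∧ 0 ≤ inner ℝ (toE y) (-e')) ⟨h1, by
          rw [inner_neg_right]
          linarith⟩]
        have h3 : wf p q (Mf B y) * ((Ep y + Em y) * f y) ≤
            2 * (wf p q (Mf B y) * (Em y * f y)) := by
          have : wf p q (Mf B y) * (Ep y * f y) ≤ wf p q (Mf B y) * (Em y * f y) :=
            mul_le_mul_of_nonneg_left (mul_le_mul_of_nonneg_right c (hf y)) hw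
          linarith
        split_ifs <;> linarith
    · rw [if_neg h1]
      split_ifs <;> linarith
  have hadd : ∀ (T : Finset (Vtx d)) (w u : Vtx d → ℝ), ∑ y ∈ T, w y * ((Ep y + Em y) * u y) =
      ∑ y ∈ T, w y * (Ep y * u y) + ∑ y ∈ T, w y * (Em y * u y) := by
    intro T w u
    rw [← sum_add_distrib]
    exact sum_congr rfl fun y _ => by ring
  refine hsplit.trans ?_
  rw [hadd, hadd, hadd]
  have e1 : 2 * K / (M₂ : ℝ) = 2 * (K / M₂) := by ring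
  rw [e1]
  linarith

theorem base {B : ℕ} (hB : 1 ≤ B) {x : Vtx d} (h : 1 ≤ Mf B x) :
    (Mf B x : ℝ) ^ B ≤ 1 + ‖toE x‖ ∧ 1 + ‖toE x‖ ≤ (3 * (Mf B x : ℝ)) ^ B := by
  have h1 := Mf_pow_le hB x
  have h2 := lt_Mf_succ hB x
  have hm : (1 : ℝ) ≤ Mf B x := by exact_mod_cast h
  refine ⟨by linarith, ?_⟩
  have h3 : ((Mf B x : ℝ) + 1) ^ B ≤ (2 * (Mf B x : ℝ)) ^ B := by
    gcongr
    linarith
  have h4 : (1 : ℝ) ≤ (Mf B x : ℝ) ^ B := one_le_pow₀ hm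
  have h5 : (2 : ℝ) ^ B + 1 ≤ 3 ^ B := by
    have h6 : 2 ^ B < 3 ^ B := Nat.pow_lt_pow_left (by norm_num) (by omega)
    have h7 : 2 ^ B + 1 ≤ 3 ^ B := h6
    exact_mod_cast h7
  calc 1 + ‖toE x‖ ≤ 1 * (Mf B x : ℝ) ^ B + (2 * (Mf B x : ℝ)) ^ B := by linarith
    _ = (2 ^ B + 1) * (Mf B x : ℝ) ^ B := by rw [mul_pow]; ring
    _ ≤ 3 ^ B * (Mf B x : ℝ) ^ B := by gcongr
    _ = _ := by rw [mul_pow]

theorem rp {B : ℕ} (p : ℕ) (hB : 1 ≤ B) {u : ℝ} (hu : 0 ≤ u) : (u ^ B) ^ ((p : ℝ) / B) = u ^ p := by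
  have hB0 : (B : ℝ) ≠ 0 := by
    have : B ≠ 0 := by omega
    exact_mod_cast this
  rw [← Real.rpow_natCast u B, ← Real.rpow_mul hu, mul_div_cancel₀ _ hB0, Real.rpow_natCast]

theorem wf_up {B : ℕ} (p q : ℕ) (hB : 1 ≤ B) {x : Vtx d} (h : 1 ≤ Mf B x) :
    wf p (q * B) (Mf B x) ≤ 3 ^ (q * B) * (1 + ‖toE x‖) ^ ((p : ℝ) / B - q) := by
  obtain ⟨h1, h2⟩ := base hB h
  have hm : (0 : ℝ) < Mf B x := by exact_mod_cast h
  have hN : 0 < 1 + ‖toE x‖ := by positivity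
  have h3 : (Mf B x : ℝ) ^ p ≤ (1 + ‖toE x‖) ^ ((p : ℝ) / B) := by
    rw [← rp p hB hm.le]
    exact Real.rpow_le_rpow (by positivity) h1 (by positivity)
  have h4 : (1 + ‖toE x‖) ^ q ≤ 3 ^ (q * B) * (Mf B x : ℝ) ^ (q * B) := by
    calc (1 + ‖toE x‖) ^ q ≤ ((3 * (Mf B x : ℝ)) ^ B) ^ q := by gcongr
      _ = _ := by rw [← pow_mul, mul_comm B q, mul_pow]
  rw [Real.rpow_sub hN, Real.rpow_natCast, ← mul_div_assoc]
  unfold wf
  rw [div_le_div_iff₀ (by positivity) (by positivity)]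
  calc (Mf B x : ℝ) ^ p * (1 + ‖toE x‖) ^ q
      ≤ (1 + ‖toE x‖) ^ ((p : ℝ) / B) * (3 ^ (q * B) * (Mf B x : ℝ) ^ (q * B)) := by gcongr
    _ = _ := by ring

theorem wf_dn {B : ℕ} (p q : ℕ) (hB : 1 ≤ B) {x : Vtx d} (h : 1 ≤ Mf B x) :
    (1 + ‖toE x‖) ^ ((p : ℝ) / B - q) ≤ 3 ^ p * wf p (q * B) (Mf B x) := by
  obtain ⟨h1, h2⟩ := base hB h
  have hm : (0 : ℝ) < Mf B x := by exact_mod_cast h
  have hN : 0 < 1 + ‖toE x‖ := by positivity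
  have h3 : (1 + ‖toE x‖) ^ ((p : ℝ) / B) ≤ 3 ^ p * (Mf B x : ℝ) ^ p := by
    rw [← mul_pow, ← rp p hB (by positivity : (0 : ℝ) ≤ 3 * (Mf B x : ℝ))]
    exact Real.rpow_le_rpow (by positivity) h2 (by positivity)
  have h4 : (Mf B x : ℝ) ^ (q * B) ≤ (1 + ‖toE x‖) ^ q := by
    calc (Mf B x : ℝ) ^ (q * B) = ((Mf B x : ℝ) ^ B) ^ q := by rw [← pow_mul, mul_comm B q]
      _ ≤ _ := by gcongr
  rw [Real.rpow_sub hN, Real.rpow_natCast]
  unfold wf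
  rw [← mul_div_assoc, div_le_div_iff₀ (by positivity) (by positivity)]
  exact mul_le_mul h3 h4 (by positivity) (by positivity)

theorem wf_Q {B : ℕ} (r : ℕ) (hB : 1 ≤ B) (x : Vtx d) :
    wf r 0 (Mf B x) ≤ (1 + ‖toE x‖) ^ r := by
  unfold wf
  rw [pow_zero, div_one]
  have h1 := Mf_pow_le hB x
  have h2 : (Mf B x : ℝ) ≤ 1 + ‖toE x‖ := by
    rcases Nat.eq_zero_or_pos (Mf B x) with h | h
    · rw [h]
      have := norm_nonneg (toE x)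
      push_cast
      linarith
    · have hm : (1 : ℝ) ≤ Mf B x := by exact_mod_cast h
      have h3 : (Mf B x : ℝ) ≤ (Mf B x : ℝ) ^ B := by
        calc (Mf B x : ℝ) = (Mf B x : ℝ) ^ 1 := by rw [pow_one]
          _ ≤ _ := pow_le_pow_right₀ hm hB
      linarith
  gcongr

/-- transfer of a filtered sum to another finite set -/
theorem sum_transfer (U T : Finset (Vtx d)) (P : Vtx d → Prop) (g : Vtx d → ℝ)
    (hg : ∀ y, 0 ≤ g y) (h : ∀ y, y ∉ T → g y = 0) :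
    ∑ y ∈ U.filter P, g y ≤ ∑ y ∈ T.filter P, g y := by
  calc ∑ y ∈ U.filter P, g y = ∑ y ∈ (U.filter P).filter (fun y => y ∈ T), g y := by
        refine (sum_filter_of_ne (p := fun y => y ∈ T) ?_).symm
        intro y _ hy
        by_contra hc
        exact hy (h y hc)
    _ ≤ ∑ y ∈ T.filter P, g y := by
        refine sum_le_sum_of_subset_of_nonneg ?_ fun y _ _ => hg y
        intro y hy
        rw [mem_filter, mem_filter] at hy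
        exact mem_filter.2 ⟨hy.2, hy.1.2⟩

end CEm

end Pool.Agent.Lib.MP_566bac_pr.Hd
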