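import Pool.Agent.Lib.MP_566bac_pr.Hd.CEc

/-!
# The Carleman estimate on the cluster: conclusion
-/

open Finset MeasureTheory ProbabilityTheory Filter
open scoped Classical

namespace Pool.Agent.Lib.MP_566bac_pr.Hd

variable {d : ℕ}

namespace CEm

theorem li_form {B k q M : ℕ} (hM : 1 ≤ M) {s1 s2 s3 s3' s4 s4' : ℝ} (h3 : s3 ≤ s3')
    (h4 : s4 ≤ s4')
    (h : (M : ℝ) ^ (12 * k) / (M : ℝ) ^ (4 * B) * s1 ≤
      1 / (M : ℝ) * ((M : ℝ) ^ (12 * k) / (M : ℝ) ^ (4 * B) * s2 +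
        (M : ℝ) ^ (4 * k) / (M : ℝ) ^ (2 * B) * s3) + (M : ℝ) ^ q * s4) :
    wf (12 * k) (4 * B) M * s1 ≤ wf (12 * k) (4 * B + 1) M * s2 +
      wf (4 * k) (2 * B + 1) M * s3' + wf q 0 M * s4' := by
  have hM0 : (0 : ℝ) < M := by exact_mod_cast hM
  have e1 : wf (12 * k) (4 * B + 1) M = 1 / (M : ℝ) * ((M : ℝ) ^ (12 * k) / (M : ℝ) ^ (4 * B)) := by
    unfold wf
    rw [pow_succ]
    field_simp
  have e2 : wf (4 * k) (2 * B + 1) M = 1 / (M : ℝ) * ((M : ℝ) ^ (4 * k) / (M : ℝ) ^ (2 * B)) := by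
    unfold wf
    rw [pow_succ]
    field_simp
  have e3 : wf q 0 M = (M : ℝ) ^ q := by
    unfold wf
    rw [pow_zero, div_one]
  have e4 : wf (12 * k) (4 * B) M = (M : ℝ) ^ (12 * k) / (M : ℝ) ^ (4 * B) := rfl
  have i1 : wf (4 * k) (2 * B + 1) M * s3 ≤ wf (4 * k) (2 * B + 1) M * s3' :=
    mul_le_mul_of_nonneg_left h3 (wf_nonneg _ _ _)
  have i2 : wf q 0 M * s4 ≤ wf q 0 M * s4' := mul_le_mul_of_nonneg_left h4 (wf_nonneg _ _ _)
  rw [e4]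
  refine h.trans ?_
  rw [mul_add, ← mul_assoc, ← mul_assoc, ← e1, ← e2, ← e3]
  linarith

theorem absorb {U U' V L X Y LL b0 K M D1 D2 Cn T : ℝ} (hM : 1 ≤ M) (hK : 0 < K) (hD1 : 0 ≤ D1)
    (hD2 : 0 ≤ D2) (hCn : 0 ≤ Cn) (hb : 0 ≤ b0) (hLL : 0 ≤ LL) (hU : 0 ≤ U)
    (hKM : K / M * (1 + D1 * D2) ≤ 1 / 2)
    (h1 : U ≤ K / M * (U' + V) + K * L) (h2 : U' ≤ U + Cn * b0) (h3 : V ≤ D1 * X + D1 * Y)
    (h4 : X ≤ D2 * U + Cn * b0) (h5 : Y ≤ LL) (h6 : L ≤ LL) (h7 : T ≤ X) :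
    T ≤ (2 * D2 * K * (1 + D1) * (1 + Cn) + Cn) * LL +
      (2 * D2 * K * (1 + D1) * (1 + Cn) + Cn) * b0 := by
  have hKM0 : 0 ≤ K / M := by positivity
  have hKM1 : K / M ≤ K := div_le_self hK.le hM
  have a1 : V ≤ D1 * (D2 * U + Cn * b0) + D1 * LL := by
    have := mul_le_mul_of_nonneg_left h4 hD1
    have := mul_le_mul_of_nonneg_left h5 hD1
    linarith
  have a2 : U' + V ≤ (1 + D1 * D2) * U + ((1 + D1) * Cn) * b0 + D1 * LL := by linarith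
  have a3 : K / M * (U' + V) ≤ 1 / 2 * U + K * (((1 + D1) * Cn) * b0 + D1 * LL) := by
    calc K / M * (U' + V) ≤ K / M * ((1 + D1 * D2) * U + ((1 + D1) * Cn) * b0 + D1 * LL) :=
          mul_le_mul_of_nonneg_left a2 hKM0
      _ = K / M * (1 + D1 * D2) * U + K / M * (((1 + D1) * Cn) * b0 + D1 * LL) := by ring
      _ ≤ 1 / 2 * U + K * (((1 + D1) * Cn) * b0 + D1 * LL) := by
          refine add_le_add (mul_le_mul_of_nonneg_right hKM hU)
            (mul_le_mul_of_nonneg_right hKM1 (by positivity))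
  have a4 : K * L ≤ K * LL := mul_le_mul_of_nonneg_left h6 hK.le
  have a5 : U ≤ 2 * (K * (((1 + D1) * Cn) * b0 + D1 * LL) + K * LL) := by linarith
  have a6 : D2 * U ≤ D2 * (2 * (K * (((1 + D1) * Cn) * b0 + D1 * LL) + K * LL)) :=
    mul_le_mul_of_nonneg_left a5 hD2
  have a7 : (2 * D2 * K * (1 + D1) * (1 + Cn) + Cn) * LL +
      (2 * D2 * K * (1 + D1) * (1 + Cn) + Cn) * b0 -
      (D2 * (2 * (K * (((1 + D1) * Cn) * b0 + D1 * LL) + K * LL)) + Cn * b0) =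
      2 * D2 * K * (1 + D1) * Cn * LL + Cn * LL + 2 * D2 * K * (1 + D1) * b0 := by ring
  have a8 : 0 ≤ 2 * D2 * K * (1 + D1) * Cn * LL + Cn * LL + 2 * D2 * K * (1 + D1) * b0 := by
    positivity
  linarith

theorem grad_off {v : Vtx d → ℝ} {S : Finset (Vtx d)} (hv : ∀ y, y ∉ S → v y = 0) {y : Vtx d}
    (hy : y ∉ S ∪ S.biUnion (fun y => Finset.univ.image fun j => y - ev j)) (j : Fin d) :
    grad v y j = 0 := by
  rw [mem_union, not_or, mem_biUnion] at hy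
  unfold grad
  rw [hv y hy.1, hv (y + ev j), sub_zero]
  intro h
  refine hy.2 ⟨_, h, ?_⟩
  rw [mem_image]
  exact ⟨j, mem_univ _, add_sub_cancel_right _ _⟩

theorem lap_off {η : Conf d} {v : Vtx d → ℝ} {S : Finset (Vtx d)} (hv : ∀ y, y ∉ S → v y = 0)
    {y : Vtx d} (hy : y ∉ (S ∪ S.biUnion (fun y => Finset.univ.image fun j => y - ev j)) ∪
      S.biUnion (fun y => Finset.univ.image fun j => y + ev j)) : Lap η v y = 0 := by
  rw [mem_union, not_or] at hy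
  have h1 := fun j => grad_off hv hy.1 j
  have hyS : y ∉ S := fun h => hy.1 (mem_union_left _ h)
  unfold Lap
  refine sum_eq_zero fun j _ => ?_
  have h2 := h1 j
  unfold grad at h2
  have h3 : v (y - ev j) = 0 := by
    refine hv _ fun h => hy.2 ?_
    rw [mem_biUnion]
    refine ⟨_, h, ?_⟩
    rw [mem_image]
    exact ⟨j, mem_univ _, sub_add_cancel _ _⟩
  rw [h2, h3, hv y hyS]
  simp

end CEm

end Pool.Agent.Lib.MP_566bac_pr.Hd
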