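import Pool.Agent.Lib.MP_566bac_pr.Hd.PO
import Pool.Agent.Lib.MP_566bac_pr.Hd.CF

/-!
# CGA: the homogenised flux, sums over cubes
-/

set_option autoImplicit false

open Finset MeasureTheory ProbabilityTheory Filter
open scoped Classical

namespace Pool.Agent.Lib.MP_566bac_pr.Hd

variable {d : ℕ}

/-! ## cubes -/

theorem CGA_mem_cube {w y : Vtx d} {n : ℕ} :
    y ∈ cube w n ↔ ∀ i, w i ≤ y i ∧ y i < w i + n := by
  simp [cube, Fintype.mem_piFinset, Finset.mem_Ico]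

theorem CGA_card_cube (w : Vtx d) (n : ℕ) : (cube w n).card = n ^ d := by
  simp [cube, Fintype.card_piFinset]

/-- the corner of the cube of a point -/
def CGA_fl (n : ℕ) (y : Vtx d) : Vtx d := fun i => n * (y i / n)

theorem CGA_fl_grid (n : ℕ) (y : Vtx d) : Grid n (CGA_fl n y) := fun _ => dvd_mul_right _ _

theorem CGA_mem_cube_iff {n : ℕ} (hn : 1 ≤ n) {w y : Vtx d} (hw : Grid n w) :
    y ∈ cube w n ↔ CGA_fl n y = w := by
  rw [CGA_mem_cube]
  constructor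
  · intro h
    funext i
    obtain ⟨q, hq⟩ := hw i
    have h1 := h i
    have h2 : y i / n = q := by
      rw [Int.ediv_eq_iff_of_pos (by exact_mod_cast hn)]
      constructor
      · rw [mul_comm, ← hq]; exact h1.1
      · rw [mul_comm q, ← hq]; exact h1.2
    rw [CGA_fl, h2, hq]
  · rintro rfl i
    have hn' : (0 : ℤ) < n := by exact_mod_cast hn
    have h1 := Int.emod_add_mul_ediv (y i) n
    have h2 := Int.emod_nonneg (y i) hn'.ne'
    have h3 := Int.emod_lt_of_pos (y i) hn'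
    simp only [CGA_fl]
    constructor <;> linarith

theorem CGA_dst_cube {n : ℕ} {w y : Vtx d} (h : y ∈ cube w n) : dst y w ≤ n := by
  rw [CGA_mem_cube] at h
  rw [BAS_le_iff]
  intro i
  have := h i
  omega

theorem CGA_cube_subset {n : ℕ} (w : Vtx d) : cube w n ⊆ Lam w n := by
  intro y hy
  rw [mem_Lam]
  exact CGA_dst_cube hy

/-- sums over cubes -/
theorem CGA_sum_cubes {n : ℕ} (hn : 1 ≤ n) (T W : Finset (Vtx d)) (hW : ∀ w ∈ W, Grid n w)
    (hWT : ∀ w ∈ W, cube w n ⊆ T) (f : Vtx d → ℝ)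
    (hf : ∀ y ∈ T, CGA_fl n y ∉ W → f y = 0) :
    ∑ y ∈ T, f y = ∑ w ∈ W, ∑ y ∈ cube w n, f y := by
  have h1 : ∑ y ∈ T, f y = ∑ y ∈ T.filter (fun y => CGA_fl n y ∈ W), f y := by
    rw [Finset.sum_filter]
    refine Finset.sum_congr rfl fun y hy => ?_
    split_ifs with h
    · rfl
    · exact hf y hy h
  rw [h1, ← Finset.sum_fiberwise_of_maps_to (g := CGA_fl n) (t := W)]
  · refine Finset.sum_congr rfl fun w hw => ?_
    refine Finset.sum_congr ?_ fun _ _ => rfl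
    ext y
    rw [Finset.mem_filter, Finset.mem_filter, CGA_mem_cube_iff hn (hW w hw)]
    constructor
    · rintro ⟨_, h⟩
      exact h
    · intro h
      refine ⟨⟨hWT w hw ((CGA_mem_cube_iff hn (hW w hw)).2 h), ?_⟩, h⟩
      rw [h]
      exact hw
  · intro y hy
    exact (Finset.mem_filter.1 hy).2

theorem CGA_sum_cubes_le {n : ℕ} (hn : 1 ≤ n) (T W : Finset (Vtx d)) (hW : ∀ w ∈ W, Grid n w)
    (hWT : ∀ w ∈ W, cube w n ⊆ T) (f : Vtx d → ℝ) (hf : ∀ y, 0 ≤ f y) :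
    ∑ w ∈ W, ∑ y ∈ cube w n, f y ≤ ∑ y ∈ T, f y := by
  have h1 := CGA_sum_cubes hn T W hW hWT (fun y => if CGA_fl n y ∈ W then f y else 0)
    (fun y _ h => if_neg h)
  have h2 : ∑ w ∈ W, ∑ y ∈ cube w n, (if CGA_fl n y ∈ W then f y else 0) =
      ∑ w ∈ W, ∑ y ∈ cube w n, f y := by
    refine Finset.sum_congr rfl fun w hw => Finset.sum_congr rfl fun y hy => ?_
    rw [(CGA_mem_cube_iff hn (hW w hw)).1 hy, if_pos hw]
  rw [← h2, ← h1]
  refine Finset.sum_le_sum fun y _ => ?_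
  split_ifs
  · exact le_rfl
  · exact hf y

/-! ## energies -/

theorem CGA_En_nonneg (η : Conf d) (W : Finset (Vtx d)) (f : Vtx d → ℝ) : 0 ≤ En η W f := by
  rw [En]
  refine Finset.sum_nonneg fun x _ => Finset.sum_nonneg fun j _ => ?_
  split_ifs
  · exact sq_nonneg _
  · exact le_rfl

theorem CGA_En_mono {η : Conf d} {W W' : Finset (Vtx d)} (h : W ⊆ W') (f : Vtx d → ℝ) :
    En η W f ≤ En η W' f := by
  rw [En, En]
  refine (Finset.sum_le_sum fun x _ => Finset.sum_le_sum fun j _ => ?_).trans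
    (Finset.sum_le_sum_of_subset_of_nonneg h fun x _ _ => Finset.sum_nonneg fun j _ => ?_)
  · show (if η x j ∧ x + ev j ∈ W then grad f x j ^ 2 else 0) ≤
      if η x j ∧ x + ev j ∈ W' then grad f x j ^ 2 else 0
    split_ifs with h1 h2 h2
    · exact le_rfl
    · exact absurd ⟨h1.1, h h1.2⟩ h2
    · exact sq_nonneg _
    · exact le_rfl
  · split_ifs
    · exact sq_nonneg _
    · exact le_rfl

/-- number of grid points near a point -/
theorem CGA_card_near {n : ℕ} (hn : 1 ≤ n) (x : Vtx d) (W : Finset (Vtx d))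
    (hW : ∀ w ∈ W, Grid n w) : (W.filter fun w => dst x w ≤ 2 * n).card ≤ 5 ^ d := by
  have hn' : (0 : ℤ) < n := by exact_mod_cast hn
  have h1 : (W.filter fun w => dst x w ≤ 2 * n) ⊆
      (Fintype.piFinset fun i => Finset.Icc (x i / n - 2) (x i / n + 2)).image
        (fun (k : Fin d → ℤ) i => (n : ℤ) * k i) := by
    intro w hw
    rw [Finset.mem_filter] at hw
    rw [Finset.mem_image]
    have h2 := hW w hw.1
    have h3 := BAS_le_iff.1 hw.2
    refine ⟨fun i => w i / n, ?_, ?_⟩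
    · rw [Fintype.mem_piFinset]
      intro i
      obtain ⟨q, hq⟩ := h2 i
      have h4 := h3 i
      have h5 : w i / n = q := by rw [hq]; exact Int.mul_ediv_cancel_left _ hn'.ne'
      rw [h5, Finset.mem_Icc]
      have h6 := Int.emod_add_mul_ediv (x i) n
      have h7 := Int.emod_nonneg (x i) hn'.ne'
      have h8 := Int.emod_lt_of_pos (x i) hn'
      have h9 : |x i - w i| ≤ 2 * n := by
        rw [Int.abs_eq_natAbs]
        exact_mod_cast h4
      rw [abs_le] at h9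
      rw [hq] at h9
      constructor
      · by_contra hc
        push Not at hc
        have : q + 1 ≤ x i / n - 2 := by omega
        nlinarith
      · by_contra hc
        push Not at hc
        have : x i / n + 3 ≤ q := by omega
        nlinarith
    · funext i
      obtain ⟨q, hq⟩ := h2 i
      change (n : ℤ) * (w i / n) = w i
      rw [hq, Int.mul_ediv_cancel_left _ hn'.ne']
  refine (Finset.card_le_card h1).trans (Finset.card_image_le.trans ?_)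
  rw [Fintype.card_piFinset]
  have h2 : ∀ i : Fin d, (Finset.Icc (x i / (n : ℤ) - 2) (x i / n + 2)).card = 5 := by
    intro i
    rw [Int.card_Icc]
    omega
  simp [h2]

/-- bounded overlap -/
theorem CGA_overlap {n : ℕ} (hn : 1 ≤ n) (η : Conf d) (T W : Finset (Vtx d))
    (hW : ∀ w ∈ W, Grid n w) (hWT : ∀ w ∈ W, Lam w (2 * n) ⊆ T) (f : Vtx d → ℝ) :
    ∑ w ∈ W, En η (Lam w (2 * n)) f ≤ 5 ^ d * En η T f := by
  obtain ⟨e, he⟩ : ∃ e : Vtx d → ℝ, ∀ x, e x =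
      ∑ j, if η x j ∧ x + ev j ∈ T then grad f x j ^ 2 else 0 := ⟨_, fun _ => rfl⟩
  have he0 : ∀ x, 0 ≤ e x := by
    intro x
    rw [he]
    refine Finset.sum_nonneg fun j _ => ?_
    split_ifs
    · exact sq_nonneg _
    · exact le_rfl
  have h1 : ∀ w ∈ W, En η (Lam w (2 * n)) f ≤ ∑ x ∈ T, if dst x w ≤ 2 * n then e x else 0 := by
    intro w hw
    rw [← Finset.sum_filter]
    have h2 : T.filter (fun x => dst x w ≤ 2 * n) = Lam w (2 * n) := by
      ext x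
      rw [Finset.mem_filter, mem_Lam]
      constructor
      · exact fun h => h.2
      · exact fun h => ⟨hWT w hw (mem_Lam.2 h), h⟩
    rw [h2, En]
    refine Finset.sum_le_sum fun x _ => ?_
    rw [he]
    refine Finset.sum_le_sum fun j _ => ?_
    split_ifs with h3 h4 h4
    · exact le_rfl
    · exact absurd ⟨h3.1, hWT w hw h3.2⟩ h4
    · exact sq_nonneg _
    · exact le_rfl
  refine (Finset.sum_le_sum h1).trans ?_
  rw [Finset.sum_comm, En, Finset.mul_sum]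
  refine Finset.sum_le_sum fun x _ => ?_
  rw [← Finset.sum_filter, Finset.sum_const, nsmul_eq_mul, ← he]
  apply mul_le_mul_of_nonneg_right _ (he0 x)
  exact_mod_cast CGA_card_near hn x W hW

/-! ## one cube -/

theorem CGA_cube (d : ℕ) (hd : 1 ≤ d) : ∃ C : ℕ, ∀ (M n : ℕ), 1 ≤ M → 32 * M ≤ n →
    ∀ (η : Conf d) (w : Vtx d), (∀ u, Grid M u → dst u w ≤ 2 * n → Good η M u) →
      ∀ v : Vtx d → ℝ, ∃ c : ℝ,
        ∑ y ∈ (cube w n).filter (Far η (6 * M)), (v y - c) ^ 2 ≤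
          C * (M : ℝ) ^ C * ((n : ℝ) ^ 2 * En η (Lam w (2 * n)) v) ∧
        (n : ℝ) ^ d * c ^ 2 ≤
          C * (M : ℝ) ^ C * (∑ y ∈ cube w n, v y ^ 2 + (n : ℝ) ^ 2 * En η (Lam w (2 * n)) v) := by
  obtain ⟨Cp, hp⟩ := poincare d hd
  obtain ⟨Cc, hc⟩ := count_far d
  refine ⟨Cp + Cc + 2 * 4 ^ d * Cc * (Cp + 1), ?_⟩
  intro M n hM hn η w hg v
  obtain ⟨c, h1⟩ := hp M n hM (by omega) η w
    (fun u hu1 hu2 => hg u hu1 (hu2.trans (by omega))) v
  have hMr : (1 : ℝ) ≤ M := by exact_mod_cast hM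
  have hEn0 : 0 ≤ (n : ℝ) ^ 2 * En η (Lam w (2 * n)) v :=
    mul_nonneg (by positivity) (CGA_En_nonneg _ _ _)
  obtain ⟨E, hE⟩ : ∃ E, E = (n : ℝ) ^ 2 * En η (Lam w (2 * n)) v := ⟨_, rfl⟩
  rw [← hE] at hEn0 ⊢
  have h2 : ∑ y ∈ (cube w n).filter (Far η (6 * M)), (v y - c) ^ 2 ≤ Cp * (M : ℝ) ^ Cp * E := by
    calc ∑ y ∈ (cube w n).filter (Far η (6 * M)), (v y - c) ^ 2 ≤
        ∑ y ∈ (Lam w n).filter (Far η (6 * M)), (v y - c) ^ 2 := by
          apply Finset.sum_le_sum_of_subset_of_nonneg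
          · exact Finset.filter_subset_filter _ (CGA_cube_subset w)
          · intro y _ _
            exact sq_nonneg _
      _ ≤ _ := h1
      _ = Cp * (M : ℝ) ^ Cp * ((n : ℝ) ^ 2 * En η (Lam w (n + 12 * M)) v) := by ring
      _ ≤ Cp * (M : ℝ) ^ Cp * E := by
          apply mul_le_mul_of_nonneg_left _ (by positivity)
          rw [hE]
          apply mul_le_mul_of_nonneg_left _ (by positivity)
          apply CGA_En_mono
          apply Lam_subset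
          rw [dst_self]
          omega
  have hpow : ∀ a b : ℕ, a ≤ b → (M : ℝ) ^ a ≤ (M : ℝ) ^ b := fun a b h =>
    pow_le_pow_right₀ hMr h
  obtain ⟨CT, hCT⟩ : ∃ CT : ℕ, CT = Cp + Cc + 2 * 4 ^ d * Cc * (Cp + 1) := ⟨_, rfl⟩
  rw [← hCT]
  refine ⟨c, ?_, ?_⟩
  · refine h2.trans (mul_le_mul_of_nonneg_right ?_ hEn0)
    apply mul_le_mul _ (hpow _ _ (by omega)) (by positivity) (by positivity)
    have : Cp ≤ CT := by omega
    exact_mod_cast this
  · -- counting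
    have h3 := hc M ((n - 1) / 2) hM (by omega) η (fun i => w i + ((n - 1) / 2 : ℕ))
      (fun u hu1 hu2 => hg u hu1 (by
        rw [BAS_le_iff] at hu2 ⊢
        intro i
        have := hu2 i
        omega))
    have h4 : (n : ℝ) ^ d ≤ 4 ^ d * (((n - 1) / 2 : ℕ) : ℝ) ^ d := by
      rw [← mul_pow]
      apply pow_le_pow_left₀ (by positivity)
      have : n ≤ 4 * ((n - 1) / 2) := by omega
      exact_mod_cast this
    have h5 : (((Lam (fun i => w i + ((n - 1) / 2 : ℕ) : Vtx d) ((n - 1) / 2)).filter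
        (Far η (6 * M))).card : ℝ) ≤ (((cube w n).filter (Far η (6 * M))).card : ℝ) := by
      have : (Lam (fun i => w i + ((n - 1) / 2 : ℕ) : Vtx d) ((n - 1) / 2)).filter
        (Far η (6 * M)) ⊆ (cube w n).filter (Far η (6 * M)) := by
        apply Finset.filter_subset_filter
        intro y hy
        rw [mem_Lam, BAS_le_iff] at hy
        rw [CGA_mem_cube]
        intro i
        have := hy i
        omega
      exact_mod_cast Finset.card_le_card this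
    have h6 : (n : ℝ) ^ d ≤ 4 ^ d * (Cc * (M : ℝ) ^ Cc *
        (((cube w n).filter (Far η (6 * M))).card : ℝ)) := by
      refine h4.trans ?_
      apply mul_le_mul_of_nonneg_left _ (by positivity)
      refine h3.trans ?_
      apply mul_le_mul_of_nonneg_left h5 (by positivity)
    have h7 : (((cube w n).filter (Far η (6 * M))).card : ℝ) * c ^ 2 ≤
        2 * (∑ y ∈ cube w n, v y ^ 2 + Cp * (M : ℝ) ^ Cp * E) := by
      have h8 : (((cube w n).filter (Far η (6 * M))).card : ℝ) * c ^ 2 =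
          ∑ y ∈ (cube w n).filter (Far η (6 * M)), c ^ 2 := by
        rw [Finset.sum_const, nsmul_eq_mul]
      rw [h8]
      calc ∑ y ∈ (cube w n).filter (Far η (6 * M)), c ^ 2 ≤
          ∑ y ∈ (cube w n).filter (Far η (6 * M)), (2 * v y ^ 2 + 2 * (v y - c) ^ 2) := by
            refine Finset.sum_le_sum fun y _ => ?_
            nlinarith [sq_nonneg (2 * v y - c)]
        _ = 2 * ∑ y ∈ (cube w n).filter (Far η (6 * M)), v y ^ 2 +
            2 * ∑ y ∈ (cube w n).filter (Far η (6 * M)), (v y - c) ^ 2 := by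
            rw [Finset.sum_add_distrib, Finset.mul_sum, Finset.mul_sum]
        _ ≤ 2 * ∑ y ∈ cube w n, v y ^ 2 + 2 * (Cp * (M : ℝ) ^ Cp * E) := by
            have h9 : ∑ y ∈ (cube w n).filter (Far η (6 * M)), v y ^ 2 ≤ ∑ y ∈ cube w n, v y ^ 2 :=
              Finset.sum_le_sum_of_subset_of_nonneg (Finset.filter_subset _ _)
                fun y _ _ => sq_nonneg _
            linarith
        _ = _ := by ring
    obtain ⟨Sv, hSv⟩ : ∃ Sv, Sv = ∑ y ∈ cube w n, v y ^ 2 := ⟨_, rfl⟩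
    have hSv0 : 0 ≤ Sv := by rw [hSv]; exact Finset.sum_nonneg fun y _ => sq_nonneg _
    rw [← hSv] at h7 ⊢
    calc (n : ℝ) ^ d * c ^ 2 ≤ 4 ^ d * (Cc * (M : ℝ) ^ Cc *
        (((cube w n).filter (Far η (6 * M))).card : ℝ)) * c ^ 2 :=
          mul_le_mul_of_nonneg_right h6 (sq_nonneg _)
      _ = 4 ^ d * (Cc * (M : ℝ) ^ Cc) *
        ((((cube w n).filter (Far η (6 * M))).card : ℝ) * c ^ 2) := by ring
      _ ≤ 4 ^ d * (Cc * (M : ℝ) ^ Cc) * (2 * (Sv + Cp * (M : ℝ) ^ Cp * E)) :=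
          mul_le_mul_of_nonneg_left h7 (by positivity)
      _ ≤ 4 ^ d * (Cc * (M : ℝ) ^ Cc) * (2 * ((Cp + 1) * (M : ℝ) ^ Cp * (Sv + E))) := by
          apply mul_le_mul_of_nonneg_left _ (by positivity)
          apply mul_le_mul_of_nonneg_left _ (by norm_num)
          have h10 : (1 : ℝ) ≤ (M : ℝ) ^ Cp := one_le_pow₀ hMr
          have h11 : 0 ≤ (Cp : ℝ) * (M : ℝ) ^ Cp * Sv := by positivity
          have h12 : Sv ≤ (M : ℝ) ^ Cp * Sv := le_mul_of_one_le_left hSv0 h10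
          have h13 : 0 ≤ (M : ℝ) ^ Cp * E := by positivity
          nlinarith
      _ = (2 * 4 ^ d * Cc * (Cp + 1) : ℝ) * (M : ℝ) ^ (Cp + Cc) * (Sv + E) := by
          rw [pow_add]
          ring
      _ ≤ CT * (M : ℝ) ^ CT * (Sv + E) := by
          apply mul_le_mul_of_nonneg_right _ (by positivity)
          apply mul_le_mul _ (hpow _ _ (by omega)) (by positivity) (by positivity)
          have : 2 * 4 ^ d * Cc * (Cp + 1) ≤ CT := by omega
          exact_mod_cast this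

/-! ## the flux -/

/-- the centred flux -/
noncomputable def CGA_q (η : Conf d) (M : ℕ) (z : Vtx d) (φ : Fin d → Vtx d → ℝ) (r : ℝ)
    (i j : Fin d) (y : Vtx d) : ℝ :=
  qq η M z φ i j y - if i = j ∧ Far η (6 * M) y then r else 0

theorem CGA_q_far {η : Conf d} {M : ℕ} {z : Vtx d} {φ : Fin d → Vtx d → ℝ} {r : ℝ}
    {i j : Fin d} {y : Vtx d} (h : ¬ Far η (6 * M) y) : CGA_q η M z φ r i j y = 0 := by
  simp [CGA_q, qq, h]

theorem CGA_ratio {c A k : ℕ} {CL θ₀ : ℝ} {η : Conf d} {M : ℕ} {z : Vtx d} {a θ : ℝ}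
    {φ : Fin d → Vtx d → ℝ} (hM : 1 ≤ M) (hCL : 0 < CL) (hθ₀ : 0 < θ₀)
    (L : LocData c CL θ₀ A k η M z a θ φ) : 0 ≤ a / θ ∧ a / θ ≤ 1 / θ₀ := by
  have hMr : (0 : ℝ) < M := by exact_mod_cast hM
  have ha : 0 ≤ a := le_trans (by positivity) L.a_low
  have hθ : 0 < θ := lt_of_lt_of_le hθ₀ L.t_low
  refine ⟨by positivity, ?_⟩
  rw [div_le_div_iff₀ hθ hθ₀]
  have h1 := L.a_le
  have h2 := L.t_low
  nlinarith

theorem CGA_q_sq {c A k : ℕ} {CL θ₀ : ℝ} {η : Conf d} {M : ℕ} {z : Vtx d} {a θ : ℝ}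
    {φ : Fin d → Vtx d → ℝ} (hM : 1 ≤ M) (hCL : 0 < CL) (hθ₀ : 0 < θ₀)
    (L : LocData c CL θ₀ A k η M z a θ φ) (i j : Fin d) :
    ∑ y ∈ Lam z (4 * M ^ A), CGA_q η M z φ (a / θ) i j y ^ 2 ≤
      (2 * 16 ^ d + 2 * (1 / θ₀) ^ 2 * 9 ^ d) * ((M : ℝ) ^ A) ^ d := by
  obtain ⟨hr0, hr1⟩ := CGA_ratio hM hCL hθ₀ L
  obtain ⟨s, hs⟩ : ∃ s : ℕ, s = M ^ A := ⟨_, rfl⟩
  have hs1 : 1 ≤ s := by rw [hs]; exact Nat.one_le_pow _ _ hM
  have hsr : (M : ℝ) ^ A = s := by rw [hs]; push_cast; rfl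
  have hg := L.grad_sq i
  rw [hsr, ← hs] at hg
  rw [hsr, ← hs]
  have h1 : ∀ y, CGA_q η M z φ (a / θ) i j y ^ 2 ≤ 2 * qq η M z φ i j y ^ 2 + 2 * (1 / θ₀) ^ 2 := by
    intro y
    rw [CGA_q]
    have h3 : (if i = j ∧ Far η (6 * M) y then a / θ else 0) ^ 2 ≤ (1 / θ₀) ^ 2 := by
      split_ifs
      · exact pow_le_pow_left₀ hr0 hr1 2
      · rw [zero_pow two_ne_zero]
        positivity
    nlinarith [sq_nonneg (qq η M z φ i j y + if i = j ∧ Far η (6 * M) y then a / θ else 0)]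
  have h2 : ∑ y ∈ Lam z (4 * s), qq η M z φ i j y ^ 2 ≤ 16 ^ d * (s : ℝ) ^ d := by
    refine le_trans ?_ hg
    rw [Finset.sum_filter]
    calc ∑ y ∈ Lam z (4 * s), qq η M z φ i j y ^ 2 ≤
        ∑ y ∈ Lam z (4 * s), (if Far η (6 * M) y then
          ∑ j', (if η y j' then grad (uu z φ i) y j' ^ 2 else 0) else 0) := by
          refine Finset.sum_le_sum fun y _ => ?_
          by_cases h4 : Far η (6 * M) y
          · rw [if_pos h4]
            by_cases h5 : η y j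
            · have h6 : qq η M z φ i j y ^ 2 = (if η y j then grad (uu z φ i) y j ^ 2 else 0) := by
                rw [qq, if_pos ⟨h4, h5⟩, if_pos h5]
              rw [h6]
              refine Finset.single_le_sum (f := fun j' =>
                (if η y j' then grad (uu z φ i) y j' ^ 2 else 0)) (fun j' _ => ?_)
                (Finset.mem_univ j)
              show (0 : ℝ) ≤ if η y j' then grad (uu z φ i) y j' ^ 2 else 0
              split_ifs
              · exact sq_nonneg _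
              · exact le_rfl
            · rw [qq, if_neg (fun h => h5 h.2), zero_pow two_ne_zero]
              refine Finset.sum_nonneg fun j' _ => ?_
              split_ifs
              · exact sq_nonneg _
              · exact le_rfl
          · rw [if_neg h4, qq, if_neg (fun h => h4 h.1), zero_pow two_ne_zero]
      _ ≤ _ := by
          apply Finset.sum_le_sum_of_subset_of_nonneg
          · apply Lam_subset
            rw [dst_self]
            omega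
          · intro y _ _
            split_ifs
            · refine Finset.sum_nonneg fun j' _ => ?_
              split_ifs
              · exact sq_nonneg _
              · exact le_rfl
            · exact le_rfl
  calc ∑ y ∈ Lam z (4 * s), CGA_q η M z φ (a / θ) i j y ^ 2 ≤
      ∑ y ∈ Lam z (4 * s), (2 * qq η M z φ i j y ^ 2 + 2 * (1 / θ₀) ^ 2) :=
        Finset.sum_le_sum fun y _ => h1 y
    _ = 2 * ∑ y ∈ Lam z (4 * s), qq η M z φ i j y ^ 2 +
        (2 * (4 * s) + 1 : ℝ) ^ d * (2 * (1 / θ₀) ^ 2) := by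
        rw [Finset.sum_add_distrib, Finset.mul_sum, Finset.sum_const, card_Lam, nsmul_eq_mul]
        push_cast
        rfl
    _ ≤ 2 * (16 ^ d * (s : ℝ) ^ d) + (9 * s : ℝ) ^ d * (2 * (1 / θ₀) ^ 2) := by
        have h7 : (2 * (4 * s) + 1 : ℝ) ^ d ≤ (9 * s : ℝ) ^ d := by
          apply pow_le_pow_left₀ (by positivity)
          have : (1 : ℝ) ≤ s := by exact_mod_cast hs1
          linarith
        have h8 : (2 * (4 * s) + 1 : ℝ) ^ d * (2 * (1 / θ₀) ^ 2) ≤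
            (9 * s : ℝ) ^ d * (2 * (1 / θ₀) ^ 2) :=
          mul_le_mul_of_nonneg_right h7 (by positivity)
        linarith
    _ = _ := by
        rw [mul_pow]
        ring

theorem CGA_inner {c A k : ℕ} {CL θ₀ : ℝ} {η : Conf d} {M : ℕ} {z : Vtx d} {a θ : ℝ}
    {φ : Fin d → Vtx d → ℝ} (hM : 1 ≤ M) (hCL : 0 < CL) (hθ₀ : 0 < θ₀)
    (L : LocData c CL θ₀ A k η M z a θ φ) (i j : Fin d) (W : Finset (Vtx d))
    (hW : W ⊆ (Lam z (5 * M ^ A)).filter (Grid (M ^ (A - 6 * k)))) :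
    ∑ w ∈ W, (∑ y ∈ cube w (M ^ (A - 6 * k)), CGA_q η M z φ (a / θ) i j y) ^ 2 ≤
      (2 + 2 * (1 / θ₀) ^ 2) * (((M : ℝ) ^ (A - 6 * k)) ^ d * ((M : ℝ) ^ A) ^ d /
        (M : ℝ) ^ (20 * k)) := by
  obtain ⟨hr0, hr1⟩ := CGA_ratio hM hCL hθ₀ L
  have hθ : 0 < θ := lt_of_lt_of_le hθ₀ L.t_low
  obtain ⟨X, hX⟩ : ∃ X, X = ((M : ℝ) ^ (A - 6 * k)) ^ d * ((M : ℝ) ^ A) ^ d /
        (M : ℝ) ^ (20 * k) := ⟨_, rfl⟩
  have hf := L.flux i j
  have hdn := L.dens
  rw [← hX] at hf hdn ⊢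
  obtain ⟨F, hF⟩ : ∃ F : Vtx d → ℝ, ∀ w, F w = (∑ y ∈ cube w (M ^ (A - 6 * k)), qq η M z φ i j y) -
      (if i = j then a else 0) * ((M : ℝ) ^ (A - 6 * k)) ^ d := ⟨_, fun _ => rfl⟩
  obtain ⟨D, hD⟩ : ∃ D : Vtx d → ℝ, ∀ w, D w =
      (((cube w (M ^ (A - 6 * k))).filter (Far η (6 * M))).card : ℝ) -
      θ * ((M : ℝ) ^ (A - 6 * k)) ^ d := ⟨_, fun _ => rfl⟩
  simp only [← hF] at hf
  simp only [← hD] at hdn
  have h1 : ∀ w, (∑ y ∈ cube w (M ^ (A - 6 * k)), CGA_q η M z φ (a / θ) i j y) ^ 2 ≤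
      2 * F w ^ 2 + 2 * (1 / θ₀) ^ 2 * D w ^ 2 := by
    intro w
    have h2 : ∑ y ∈ cube w (M ^ (A - 6 * k)), CGA_q η M z φ (a / θ) i j y =
        F w - (if i = j then a / θ else 0) * D w := by
      have h3 : ∑ y ∈ cube w (M ^ (A - 6 * k)), (if i = j ∧ Far η (6 * M) y then a / θ else 0) =
          (if i = j then a / θ else 0) *
            (((cube w (M ^ (A - 6 * k))).filter (Far η (6 * M))).card : ℝ) := by
        by_cases hij : i = j
        · simp only [hij, true_and, if_true]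
          rw [← Finset.sum_filter, Finset.sum_const, nsmul_eq_mul, mul_comm]
        · simp [hij]
      simp only [CGA_q]
      rw [Finset.sum_sub_distrib, h3, hF, hD]
      by_cases hij : i = j
      · simp only [hij, if_true]
        field_simp
        ring
      · simp [hij]
    rw [h2]
    have h4 : (if i = j then a / θ else 0) ^ 2 ≤ (1 / θ₀) ^ 2 := by
      split_ifs
      · exact pow_le_pow_left₀ hr0 hr1 2
      · rw [zero_pow two_ne_zero]
        positivity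
    have h5 : ((if i = j then a / θ else 0) * D w) ^ 2 ≤ (1 / θ₀) ^ 2 * D w ^ 2 := by
      rw [mul_pow]
      exact mul_le_mul_of_nonneg_right h4 (sq_nonneg _)
    nlinarith [sq_nonneg (F w + (if i = j then a / θ else 0) * D w)]
  calc ∑ w ∈ W, (∑ y ∈ cube w (M ^ (A - 6 * k)), CGA_q η M z φ (a / θ) i j y) ^ 2 ≤
      ∑ w ∈ W, (2 * F w ^ 2 + 2 * (1 / θ₀) ^ 2 * D w ^ 2) := Finset.sum_le_sum fun w _ => h1 w
    _ ≤ ∑ w ∈ (Lam z (5 * M ^ A)).filter (Grid (M ^ (A - 6 * k))),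
        (2 * F w ^ 2 + 2 * (1 / θ₀) ^ 2 * D w ^ 2) := by
        apply Finset.sum_le_sum_of_subset_of_nonneg hW
        intro w _ _
        positivity
    _ = 2 * ∑ w ∈ (Lam z (5 * M ^ A)).filter (Grid (M ^ (A - 6 * k))), F w ^ 2 +
        2 * (1 / θ₀) ^ 2 * ∑ w ∈ (Lam z (5 * M ^ A)).filter (Grid (M ^ (A - 6 * k))), D w ^ 2 := by
        rw [Finset.sum_add_distrib, Finset.mul_sum, Finset.mul_sum]
    _ ≤ 2 * X + 2 * (1 / θ₀) ^ 2 * X := by
        have h6 : 2 * (1 / θ₀) ^ 2 * ∑ w ∈ (Lam z (5 * M ^ A)).filter (Grid (M ^ (A - 6 * k))),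
            D w ^ 2 ≤ 2 * (1 / θ₀) ^ 2 * X := mul_le_mul_of_nonneg_left hdn (by positivity)
        linarith
    _ = _ := by ring

theorem CGA_cs2 {α β : Type*} (W : Finset α) (Q : α → Finset β) (f g : α → β → ℝ) :
    (∑ w ∈ W, ∑ y ∈ Q w, f w y * g w y) ^ 2 ≤
      (∑ w ∈ W, ∑ y ∈ Q w, f w y ^ 2) * (∑ w ∈ W, ∑ y ∈ Q w, g w y ^ 2) := by
  rw [Finset.sum_sigma', Finset.sum_sigma', Finset.sum_sigma']
  exact Finset.sum_mul_sq_le_sq_mul_sq _ _ _

/-- natural numbers: the scales -/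
theorem CGA_scales {M A k : ℕ} (hM : 2 ≤ M) (hk : 1 ≤ k) (hA : 12 * k ≤ A) :
    32 * M ≤ M ^ (A - 6 * k) ∧ M ^ (A - 6 * k) * M ^ (6 * k) = M ^ A ∧
      64 * M ^ (A - 6 * k) ≤ M ^ A := by
  have h1 : M ^ (A - 6 * k) * M ^ (6 * k) = M ^ A := by
    rw [← pow_add]
    congr 1
    omega
  have h2 : 64 ≤ M ^ (6 * k) := by
    calc 64 = 2 ^ 6 := by norm_num
      _ ≤ M ^ 6 := Nat.pow_le_pow_left hM 6
      _ ≤ M ^ (6 * k) := Nat.pow_le_pow_right (by omega) (by omega)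
  refine ⟨?_, h1, ?_⟩
  · calc 32 * M = 2 ^ 5 * M := by norm_num
      _ ≤ M ^ 5 * M := Nat.mul_le_mul_right _ (Nat.pow_le_pow_left hM 5)
      _ = M ^ 6 := by rw [← pow_succ]
      _ ≤ M ^ (A - 6 * k) := Nat.pow_le_pow_right (by omega) (by omega)
  · rw [← h1, mul_comm]
    exact Nat.mul_le_mul_left _ h2

theorem cube_sum (d c : ℕ) (hd : 1 ≤ d) : ∃ c' : ℕ, ∀ (A k : ℕ) (CL θ₀ : ℝ), 1 ≤ k → 12 * k ≤ A →
    0 < CL → 0 < θ₀ → ∃ (C : ℝ) (M₁ : ℕ), ∀ M : ℕ, M₁ ≤ M → ∀ (η : Conf d) (z : Vtx d) (a θ : ℝ)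
      (φ : Fin d → Vtx d → ℝ), Grid (M ^ A) z → LocData c CL θ₀ A k η M z a θ φ →
      ∀ (v D : Vtx d → ℝ) (Γ : ℝ), 0 ≤ Γ →
        (∀ y ∈ Lam z (7 * M ^ A), ¬ Far η (6 * M) y → v y = 0) → (∀ y, |D y| ≤ Γ) →
        (∀ y y', dst y y' ≤ M ^ (A - 6 * k) → |D y - D y'| ≤ Γ / (M : ℝ) ^ (6 * k)) →
        (∀ y, 2 * M ^ A < dst y z → D y = 0) → ∀ i j : Fin d,
          (∑ y ∈ Lam z (4 * M ^ A), v y * D y *
            (qq η M z φ i j y - if i = j ∧ Far η (6 * M) y then a / θ else 0)) ^ 2 ≤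
          C * (M : ℝ) ^ c' * Γ ^ 2 * ((M : ℝ) ^ A) ^ d / (M : ℝ) ^ (12 * k) *
            (∑ y ∈ Lam z (4 * M ^ A), v y ^ 2 + ((M : ℝ) ^ A) ^ 2 * En η (Lam z (4 * M ^ A)) v) := by
  obtain ⟨C₁, hC₁⟩ := CGA_cube d hd
  refine ⟨C₁, ?_⟩
  intro A k CL θ₀ hk hA hCL hθ₀
  obtain ⟨κ, hκ⟩ : ∃ κ : ℝ, κ = 2 + 2 * (1 / θ₀) ^ 2 := ⟨_, rfl⟩
  obtain ⟨Cq, hCq⟩ : ∃ Cq : ℝ, Cq = 2 * 16 ^ d + 2 * (1 / θ₀) ^ 2 * 9 ^ d := ⟨_, rfl⟩
  refine ⟨3 * 5 ^ d * C₁ * (κ + 2 * Cq), 2, ?_⟩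
  intro M hM η z a θ φ hz L v D Γ hΓ _ hD1 hD2 hD3 i j
  have hM1 : 1 ≤ M := by omega
  have hMr : (1 : ℝ) ≤ M := by exact_mod_cast hM1
  have hκ0 : 0 < κ := by rw [hκ]; positivity
  have hCq0 : 0 < Cq := by rw [hCq]; positivity
  obtain ⟨hs1, hs2, hs3⟩ := CGA_scales hM hk hA
  have hqs := CGA_q_sq hM1 hCL hθ₀ L i j
  have hin := CGA_inner hM1 hCL hθ₀ L i j
  rw [← hCq] at hqs
  rw [← hκ] at hin
  obtain ⟨n, hn⟩ : ∃ n : ℕ, n = M ^ (A - 6 * k) := ⟨_, rfl⟩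
  obtain ⟨s, hs⟩ : ∃ s : ℕ, s = M ^ A := ⟨_, rfl⟩
  have hnr : (M : ℝ) ^ (A - 6 * k) = n := by rw [hn]; push_cast; rfl
  have hsr : (M : ℝ) ^ A = s := by rw [hs]; push_cast; rfl
  rw [hnr, hsr, ← hn, ← hs] at hin
  rw [hsr, ← hs] at hqs ⊢
  rw [← hn] at hs1 hs2 hs3 hD2
  rw [← hs] at hs2 hs3 hD3
  have hn1 : 1 ≤ n := by omega
  obtain ⟨qh, hqh⟩ : ∃ qh : Vtx d → ℝ, qh = CGA_q η M z φ (a / θ) i j := ⟨_, rfl⟩
  rw [← hqh] at hqs hin
  have hqh0 : ∀ y, ¬ Far η (6 * M) y → qh y = 0 := fun y h => by rw [hqh]; exact CGA_q_far h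
  have hgoal : ∑ y ∈ Lam z (4 * s), v y * D y *
      (qq η M z φ i j y - if i = j ∧ Far η (6 * M) y then a / θ else 0) =
      ∑ y ∈ Lam z (4 * s), v y * D y * qh y := by
    rw [hqh]
    rfl
  rw [hgoal]
  -- the cubes
  obtain ⟨W, hWdef⟩ : ∃ W, W = (Lam z (3 * s)).filter (Grid n) := ⟨_, rfl⟩
  have hW : ∀ w ∈ W, Grid n w := fun w hw => by
    rw [hWdef, Finset.mem_filter] at hw
    exact hw.2
  have hWz : ∀ w ∈ W, dst w z ≤ 3 * s := fun w hw => by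
    rw [hWdef, Finset.mem_filter, mem_Lam] at hw
    exact hw.1
  have hW5 : W ⊆ (Lam z (5 * s)).filter (Grid n) := by
    rw [hWdef]
    apply Finset.filter_subset_filter
    apply Lam_subset
    rw [dst_self]
    omega
  have hWT : ∀ w ∈ W, cube w n ⊆ Lam z (4 * s) := by
    intro w hw
    refine (CGA_cube_subset w).trans (Lam_subset ?_)
    have := hWz w hw
    omega
  have hWT2 : ∀ w ∈ W, Lam w (2 * n) ⊆ Lam z (4 * s) := by
    intro w hw
    apply Lam_subset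
    have := hWz w hw
    omega
  obtain ⟨Λ, hΛ⟩ : ∃ Λ : ℝ, Λ = C₁ * (M : ℝ) ^ C₁ := ⟨_, rfl⟩
  have hΛ0 : 0 ≤ Λ := by rw [hΛ]; positivity
  have hex : ∀ w, ∃ c : ℝ, w ∈ W →
      ∑ y ∈ (cube w n).filter (Far η (6 * M)), (v y - c) ^ 2 ≤
        Λ * ((n : ℝ) ^ 2 * En η (Lam w (2 * n)) v) ∧
      (n : ℝ) ^ d * c ^ 2 ≤
        Λ * (∑ y ∈ cube w n, v y ^ 2 + (n : ℝ) ^ 2 * En η (Lam w (2 * n)) v) := by
    intro w
    by_cases hw : w ∈ W
    · obtain ⟨c, h1, h2⟩ := hC₁ M n hM1 hs1 η w (fun u hu1 hu2 => L.good u hu1 (by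
        have h3 := dst_triangle u w z
        have h4 := hWz w hw
        rw [← hs]
        omega)) v
      rw [← hΛ] at h1 h2
      exact ⟨c, fun _ => ⟨h1, h2⟩⟩
    · exact ⟨0, fun h => absurd h hw⟩
  choose cw hcw using hex
  -- splitting
  have hsum : ∑ y ∈ Lam z (4 * s), v y * D y * qh y =
      ∑ w ∈ W, ∑ y ∈ cube w n, v y * D y * qh y := by
    apply CGA_sum_cubes hn1 _ _ hW hWT
    intro y _ hy2
    have h1 : 2 * s < dst y z := by
      by_contra h1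
      push Not at h1
      apply hy2
      rw [hWdef, Finset.mem_filter, mem_Lam]
      refine ⟨?_, CGA_fl_grid n y⟩
      have h2 : y ∈ cube (CGA_fl n y) n := (CGA_mem_cube_iff hn1 (CGA_fl_grid n y)).2 rfl
      have h3 := CGA_dst_cube h2
      have h4 := dst_triangle (CGA_fl n y) y z
      rw [dst_comm] at h3
      omega
    rw [hD3 y h1]
    ring
  obtain ⟨T1, hT1⟩ : ∃ T1, T1 = ∑ w ∈ W, (cw w * D w) * ∑ y ∈ cube w n, qh y := ⟨_, rfl⟩
  obtain ⟨T2, hT2⟩ : ∃ T2, T2 = ∑ w ∈ W, ∑ y ∈ cube w n, (cw w * (D y - D w)) * qh y := ⟨_, rfl⟩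
  obtain ⟨T3, hT3⟩ : ∃ T3, T3 = ∑ w ∈ W, ∑ y ∈ cube w n,
    (if Far η (6 * M) y then v y - cw w else 0) * (D y * qh y) := ⟨_, rfl⟩
  have hsplit : ∑ y ∈ Lam z (4 * s), v y * D y * qh y = T1 + T2 + T3 := by
    rw [hsum, hT1, hT2, hT3, ← Finset.sum_add_distrib, ← Finset.sum_add_distrib]
    refine Finset.sum_congr rfl fun w _ => ?_
    rw [Finset.mul_sum, ← Finset.sum_add_distrib, ← Finset.sum_add_distrib]
    refine Finset.sum_congr rfl fun y _ => ?_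
    by_cases hy : Far η (6 * M) y
    · rw [if_pos hy]
      ring
    · rw [hqh0 y hy]
      ring
  rw [hsplit]
  -- the energies
  obtain ⟨En4, hEn4⟩ : ∃ En4, En4 = En η (Lam z (4 * s)) v := ⟨_, rfl⟩
  obtain ⟨V4, hV4⟩ : ∃ V4, V4 = ∑ y ∈ Lam z (4 * s), v y ^ 2 := ⟨_, rfl⟩
  rw [← hEn4, ← hV4]
  have hEn0 : 0 ≤ En4 := by rw [hEn4]; exact CGA_En_nonneg _ _ _
  have hV0 : 0 ≤ V4 := by rw [hV4]; exact Finset.sum_nonneg fun _ _ => sq_nonneg _
  have hover : ∑ w ∈ W, En η (Lam w (2 * n)) v ≤ 5 ^ d * En4 := by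
    rw [hEn4]
    exact CGA_overlap hn1 η _ W hW hWT2 v
  have hvv : ∑ w ∈ W, ∑ y ∈ cube w n, v y ^ 2 ≤ V4 := by
    rw [hV4]
    exact CGA_sum_cubes_le hn1 _ _ hW hWT _ fun y => sq_nonneg _
  have hns : (n : ℝ) ≤ s := by
    have : n ≤ s := by omega
    exact_mod_cast this
  have hnpos : (0 : ℝ) < n := by exact_mod_cast hn1
  have h5d : (1 : ℝ) ≤ 5 ^ d := one_le_pow₀ (by norm_num)
  have hB1 : (n : ℝ) ^ d * ∑ w ∈ W, cw w ^ 2 ≤ 5 ^ d * Λ * (V4 + (s : ℝ) ^ 2 * En4) := by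
    calc (n : ℝ) ^ d * ∑ w ∈ W, cw w ^ 2 = ∑ w ∈ W, (n : ℝ) ^ d * cw w ^ 2 := by
          rw [Finset.mul_sum]
      _ ≤ ∑ w ∈ W, Λ * (∑ y ∈ cube w n, v y ^ 2 + (n : ℝ) ^ 2 * En η (Lam w (2 * n)) v) :=
          Finset.sum_le_sum fun w hw => (hcw w hw).2
      _ = Λ * (∑ w ∈ W, ∑ y ∈ cube w n, v y ^ 2 +
          (n : ℝ) ^ 2 * ∑ w ∈ W, En η (Lam w (2 * n)) v) := by
          rw [← Finset.mul_sum, Finset.sum_add_distrib, ← Finset.mul_sum]
      _ ≤ Λ * (V4 + (n : ℝ) ^ 2 * (5 ^ d * En4)) := by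
          apply mul_le_mul_of_nonneg_left _ hΛ0
          have := mul_le_mul_of_nonneg_left hover (by positivity : (0 : ℝ) ≤ (n : ℝ) ^ 2)
          linarith
      _ ≤ Λ * (5 ^ d * V4 + 5 ^ d * ((s : ℝ) ^ 2 * En4)) := by
          apply mul_le_mul_of_nonneg_left _ hΛ0
          have h1 : V4 ≤ 5 ^ d * V4 := le_mul_of_one_le_left hV0 h5d
          have h2 : (n : ℝ) ^ 2 ≤ (s : ℝ) ^ 2 := pow_le_pow_left₀ hnpos.le hns 2
          have h3 : (n : ℝ) ^ 2 * (5 ^ d * En4) ≤ (s : ℝ) ^ 2 * (5 ^ d * En4) :=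
            mul_le_mul_of_nonneg_right h2 (by positivity)
          have h4 : (s : ℝ) ^ 2 * (5 ^ d * En4) = 5 ^ d * ((s : ℝ) ^ 2 * En4) := by ring
          linarith
      _ = _ := by ring
  have hB2 : ∑ w ∈ W, ∑ y ∈ cube w n, (if Far η (6 * M) y then v y - cw w else 0) ^ 2 ≤
      5 ^ d * Λ * ((n : ℝ) ^ 2 * En4) := by
    calc ∑ w ∈ W, ∑ y ∈ cube w n, (if Far η (6 * M) y then v y - cw w else 0) ^ 2 =
        ∑ w ∈ W, ∑ y ∈ (cube w n).filter (Far η (6 * M)), (v y - cw w) ^ 2 := by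
          refine Finset.sum_congr rfl fun w _ => ?_
          rw [Finset.sum_filter]
          refine Finset.sum_congr rfl fun y _ => ?_
          split_ifs
          · rfl
          · norm_num
      _ ≤ ∑ w ∈ W, Λ * ((n : ℝ) ^ 2 * En η (Lam w (2 * n)) v) :=
          Finset.sum_le_sum fun w hw => (hcw w hw).1
      _ = Λ * ((n : ℝ) ^ 2 * ∑ w ∈ W, En η (Lam w (2 * n)) v) := by
          rw [← Finset.mul_sum, ← Finset.mul_sum]
      _ ≤ Λ * ((n : ℝ) ^ 2 * (5 ^ d * En4)) := by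
          apply mul_le_mul_of_nonneg_left _ hΛ0
          exact mul_le_mul_of_nonneg_left hover (by positivity)
      _ = _ := by ring
  have hqW : ∑ w ∈ W, ∑ y ∈ cube w n, qh y ^ 2 ≤ Cq * (s : ℝ) ^ d :=
    (CGA_sum_cubes_le hn1 _ _ hW hWT _ fun y => sq_nonneg _).trans hqs
  -- real scales
  obtain ⟨mm, hmm⟩ : ∃ mm : ℝ, mm = (M : ℝ) ^ (12 * k) := ⟨_, rfl⟩
  have hmm0 : 0 < mm := by rw [hmm]; positivity
  have hmm6 : ((M : ℝ) ^ (6 * k)) ^ 2 = mm := by rw [hmm, ← pow_mul]; congr 1; ring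
  have hnm : (n : ℝ) ^ 2 * mm = (s : ℝ) ^ 2 := by
    rw [← hmm6, ← mul_pow, ← hs2]
    push_cast
    rfl
  have hm20 : mm ≤ (M : ℝ) ^ (20 * k) := by
    rw [hmm]
    exact pow_le_pow_right₀ hMr (by omega)
  rw [← hmm]
  obtain ⟨Et, hEt⟩ : ∃ Et, Et = V4 + (s : ℝ) ^ 2 * En4 := ⟨_, rfl⟩
  rw [← hEt] at hB1 ⊢
  have hEt0 : 0 ≤ Et := by rw [hEt]; positivity
  obtain ⟨Y, hY⟩ : ∃ Y, Y = 5 ^ d * Λ * Γ ^ 2 * (s : ℝ) ^ d / mm * Et := ⟨_, rfl⟩
  -- first term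
  have hb1 : T1 ^ 2 ≤ κ * Y := by
    have h1 : T1 ^ 2 ≤ (∑ w ∈ W, (cw w * D w) ^ 2) * ∑ w ∈ W, (∑ y ∈ cube w n, qh y) ^ 2 := by
      rw [hT1]
      exact Finset.sum_mul_sq_le_sq_mul_sq _ _ _
    have h2 : ∑ w ∈ W, (cw w * D w) ^ 2 ≤ Γ ^ 2 * ∑ w ∈ W, cw w ^ 2 := by
      rw [Finset.mul_sum]
      refine Finset.sum_le_sum fun w _ => ?_
      have h3 : D w ^ 2 ≤ Γ ^ 2 := by
        rw [← sq_abs (D w)]
        exact pow_le_pow_left₀ (abs_nonneg _) (hD1 w) 2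
      rw [mul_pow, mul_comm]
      exact mul_le_mul_of_nonneg_right h3 (sq_nonneg _)
    have h3 := hin W hW5
    have h4 : 0 ≤ ∑ w ∈ W, cw w ^ 2 := Finset.sum_nonneg fun _ _ => sq_nonneg _
    calc T1 ^ 2 ≤ (Γ ^ 2 * ∑ w ∈ W, cw w ^ 2) *
        (κ * ((n : ℝ) ^ d * (s : ℝ) ^ d / (M : ℝ) ^ (20 * k))) := by
          refine h1.trans (mul_le_mul h2 h3 (Finset.sum_nonneg fun _ _ => sq_nonneg _) ?_)
          positivity
      _ = κ * (Γ ^ 2 * ((n : ℝ) ^ d * ∑ w ∈ W, cw w ^ 2) * (s : ℝ) ^ d / (M : ℝ) ^ (20 * k)) := by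
          ring
      _ ≤ κ * (Γ ^ 2 * (5 ^ d * Λ * Et) * (s : ℝ) ^ d / mm) := by
          apply mul_le_mul_of_nonneg_left _ hκ0.le
          apply div_le_div₀ (by positivity) _ hmm0 hm20
          apply mul_le_mul_of_nonneg_right _ (by positivity)
          exact mul_le_mul_of_nonneg_left hB1 (by positivity)
      _ = κ * Y := by rw [hY]; ring
  -- second term
  have hb2 : T2 ^ 2 ≤ Cq * Y := by
    have h1 : T2 ^ 2 ≤ (∑ w ∈ W, ∑ y ∈ cube w n, (cw w * (D y - D w)) ^ 2) *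
        ∑ w ∈ W, ∑ y ∈ cube w n, qh y ^ 2 := by
      rw [hT2]
      exact CGA_cs2 W (fun w => cube w n) (fun w y => cw w * (D y - D w)) (fun _ y => qh y)
    have h2 : ∑ w ∈ W, ∑ y ∈ cube w n, (cw w * (D y - D w)) ^ 2 ≤
        Γ ^ 2 / mm * ((n : ℝ) ^ d * ∑ w ∈ W, cw w ^ 2) := by
      have h3 : ∀ w ∈ W, ∑ y ∈ cube w n, (cw w * (D y - D w)) ^ 2 ≤
          (n : ℝ) ^ d * (Γ ^ 2 / mm * cw w ^ 2) := by
        intro w _
        calc ∑ y ∈ cube w n, (cw w * (D y - D w)) ^ 2 ≤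
            ∑ _y ∈ cube w n, Γ ^ 2 / mm * cw w ^ 2 := by
              refine Finset.sum_le_sum fun y hy => ?_
              have h4 := hD2 y w (CGA_dst_cube hy)
              have h5 : (D y - D w) ^ 2 ≤ Γ ^ 2 / mm := by
                rw [← sq_abs (D y - D w), ← hmm6, ← div_pow]
                exact pow_le_pow_left₀ (abs_nonneg _) h4 2
              rw [mul_pow, mul_comm]
              exact mul_le_mul_of_nonneg_right h5 (sq_nonneg _)
          _ = _ := by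
              rw [Finset.sum_const, CGA_card_cube, nsmul_eq_mul]
              push_cast
              ring
      calc ∑ w ∈ W, ∑ y ∈ cube w n, (cw w * (D y - D w)) ^ 2 ≤
          ∑ w ∈ W, (n : ℝ) ^ d * (Γ ^ 2 / mm * cw w ^ 2) := Finset.sum_le_sum h3
        _ = _ := by
          rw [← Finset.mul_sum, ← Finset.mul_sum]
          ring
    calc T2 ^ 2 ≤ (Γ ^ 2 / mm * (5 ^ d * Λ * Et)) * (Cq * (s : ℝ) ^ d) := by
          refine h1.trans (mul_le_mul (h2.trans ?_) hqW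
            (Finset.sum_nonneg fun _ _ => Finset.sum_nonneg fun _ _ => sq_nonneg _) ?_)
          · exact mul_le_mul_of_nonneg_left hB1 (by positivity)
          · positivity
      _ = Cq * Y := by rw [hY]; ring
  -- third term
  have hb3 : T3 ^ 2 ≤ Cq * Y := by
    have h1 : T3 ^ 2 ≤ (∑ w ∈ W, ∑ y ∈ cube w n,
        (if Far η (6 * M) y then v y - cw w else 0) ^ 2) *
        ∑ w ∈ W, ∑ y ∈ cube w n, (D y * qh y) ^ 2 := by
      rw [hT3]
      exact CGA_cs2 W (fun w => cube w n)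
        (fun w y => if Far η (6 * M) y then v y - cw w else 0) (fun _ y => D y * qh y)
    have h2 : ∑ w ∈ W, ∑ y ∈ cube w n, (D y * qh y) ^ 2 ≤ Γ ^ 2 * (Cq * (s : ℝ) ^ d) := by
      refine le_trans ?_ (mul_le_mul_of_nonneg_left hqW (by positivity))
      rw [Finset.mul_sum]
      refine Finset.sum_le_sum fun w _ => ?_
      rw [Finset.mul_sum]
      refine Finset.sum_le_sum fun y _ => ?_
      have h3 : D y ^ 2 ≤ Γ ^ 2 := by
        rw [← sq_abs (D y)]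
        exact pow_le_pow_left₀ (abs_nonneg _) (hD1 y) 2
      rw [mul_pow]
      exact mul_le_mul_of_nonneg_right h3 (sq_nonneg _)
    have h3 : (n : ℝ) ^ 2 * En4 ≤ Et / mm := by
      rw [le_div_iff₀ hmm0, hEt]
      calc (n : ℝ) ^ 2 * En4 * mm = ((n : ℝ) ^ 2 * mm) * En4 := by ring
        _ = (s : ℝ) ^ 2 * En4 := by rw [hnm]
        _ ≤ _ := by linarith
    calc T3 ^ 2 ≤ (5 ^ d * Λ * (Et / mm)) * (Γ ^ 2 * (Cq * (s : ℝ) ^ d)) := by
          refine h1.trans (mul_le_mul (hB2.trans ?_) h2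
            (Finset.sum_nonneg fun _ _ => Finset.sum_nonneg fun _ _ => sq_nonneg _) ?_)
          · exact mul_le_mul_of_nonneg_left h3 (by positivity)
          · positivity
      _ = Cq * Y := by rw [hY]; ring
  -- conclusion
  calc (T1 + T2 + T3) ^ 2 ≤ 3 * (T1 ^ 2 + T2 ^ 2 + T3 ^ 2) := by
        nlinarith [sq_nonneg (T1 - T2), sq_nonneg (T1 - T3), sq_nonneg (T2 - T3)]
    _ ≤ 3 * (κ * Y + Cq * Y + Cq * Y) := by linarith
    _ = _ := by
        rw [hY, hΛ]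
        ring

end Pool.Agent.Lib.MP_566bac_pr.Hd
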