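import Pool.Agent.Lib.MP_566bac_pr.Hd.BAS
import Pool.Agent.Lib.MP_566bac_pr.Hd.GE1

/-!
# The infinite cluster
-/

open Finset
open scoped Classical

namespace Pool.Agent.Lib.MP_566bac_pr.Hd

variable {d : ℕ}

theorem CL_grid_zero (M : ℕ) : Grid M (0 : Vtx d) := fun _ => by simp

/-- a grid point near a given point -/
theorem CL_near {M : ℕ} (hM : 1 ≤ M) (y : Vtx d) :
    ∃ w : Vtx d, Grid M w ∧ dst y w ≤ M ∧ dst w 0 ≤ dst y 0 + M := by
  refine ⟨fun i => M * (y i / M), fun i => Dvd.intro _ rfl, ?_, ?_⟩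
  · rw [BAS_le_iff]
    intro i
    have h1 := Int.emod_add_mul_ediv (y i) M
    have h2 := Int.emod_nonneg (y i) (show (M : ℤ) ≠ 0 by omega)
    have h3 := Int.emod_lt_of_pos (y i) (show (0 : ℤ) < M by omega)
    have h4 : y i - M * (y i / M) = y i % M := by linarith
    simp only [h4]
    omega
  · refine (dst_triangle _ y _).trans ?_
    rw [dst_comm _ y, add_comm]
    refine Nat.add_le_add_left ?_ _
    rw [BAS_le_iff]
    intro i
    have h1 := Int.emod_add_mul_ediv (y i) M
    have h2 := Int.emod_nonneg (y i) (show (M : ℤ) ≠ 0 by omega)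
    have h3 := Int.emod_lt_of_pos (y i) (show (0 : ℤ) < M by omega)
    have h4 : y i - M * (y i / M) = y i % M := by linarith
    simp only [h4]
    omega

/-- a step towards the origin on the grid -/
theorem CL_step {M : ℕ} (hM : 1 ≤ M) {w : Vtx d} (hw : Grid M w) (h0 : w ≠ 0) :
    ∃ w' : Vtx d, Grid M w' ∧ dst w' w ≤ M ∧ dst w' 0 ≤ dst w 0 ∧
      ∑ i, (w' i).natAbs < ∑ i, (w i).natAbs := by
  have h1 : ∃ j, w j ≠ 0 := by
    by_contra hcon
    push Not at hcon
    exact h0 (funext hcon)
  obtain ⟨j, hj⟩ := h1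
  have hMle : (M : ℤ) ≤ |w j| := by
    rw [← Int.natCast_natAbs]
    exact_mod_cast Nat.le_of_dvd (Int.natAbs_pos.mpr hj) (Int.natCast_dvd.mp (hw j))
  set s : ℤ := if 0 < w j then -M else M with hs
  have hab : (w j + s).natAbs + M = (w j).natAbs := by
    rw [hs]
    split_ifs with h
    · rw [abs_of_pos h] at hMle
      omega
    · have h2 : w j < 0 := by omega
      rw [abs_of_neg h2] at hMle
      omega
  refine ⟨Function.update w j (w j + s), ?_, ?_, ?_, ?_⟩
  · intro i
    by_cases hi : i = j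
    · subst hi
      rw [Function.update_self]
      refine dvd_add (hw i) ?_
      rw [hs]
      split_ifs
      · exact (dvd_refl _).neg_right
      · exact dvd_refl _
    · rw [Function.update_of_ne hi]
      exact hw i
  · rw [BAS_le_iff]
    intro i
    by_cases hi : i = j
    · subst hi
      rw [Function.update_self]
      have : w i + s - w i = s := by ring
      rw [this, hs]
      split_ifs <;> omega
    · rw [Function.update_of_ne hi]
      simp
  · rw [BAS_le_iff]
    intro i
    have h3 := (BAS_le_iff (x := w) (y := 0)).1 le_rfl i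
    by_cases hi : i = j
    · subst hi
      rw [Function.update_self]
      simp only [Pi.zero_apply, sub_zero] at h3 ⊢
      omega
    · rw [Function.update_of_ne hi]
      exact h3
  · refine Finset.sum_lt_sum (fun i _ => ?_) ⟨j, Finset.mem_univ j, ?_⟩
    · by_cases hi : i = j
      · subst hi
        rw [Function.update_self]
        omega
      · rw [Function.update_of_ne hi]
    · rw [Function.update_self]
      omega

/-- all far vertices of one scale are joined to the anchor of the origin -/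
theorem CL_anchor {η : Conf d} {M : ℕ} (hM : 1 ≤ M) {R : ℕ}
    (h : ∀ w, Grid M w → dst w 0 ≤ R → Good η M w) {a : Vtx d} (ha : dst a 0 ≤ 2 * M)
    (haf : Far η (6 * M) a) :
    ∀ (n : ℕ) (w : Vtx d), Grid M w → ∑ i, (w i).natAbs ≤ n → dst w 0 ≤ R →
      ∀ x, dst x w ≤ M → Far η (6 * M) x → (G η).Reachable x a := by
  intro n
  induction n with
  | zero =>
    intro w hw hn hR x hx hxf
    have h0 : w = 0 := by
      funext i
      have := Finset.sum_eq_zero_iff.mp (Nat.le_zero.mp hn) i (Finset.mem_univ i)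
      simpa using this
    subst h0
    exact conn_reachable (good_conn (h 0 hw hR) (by omega) ha hxf haf)
  | succ n ih =>
    intro w hw hn hR x hx hxf
    by_cases h0 : w = 0
    · subst h0
      exact conn_reachable (good_conn (h 0 hw hR) (by omega) ha hxf haf)
    · obtain ⟨w', hw', h1, h2, h3⟩ := CL_step hM hw h0
      obtain ⟨x', hx', hx'f⟩ := good_anchor (h w' hw' (h2.trans hR))
      have hx'6 : Far η (6 * M) x' := far_mono (by omega) hx'f
      have h4 := ih w' hw' (by omega) (h2.trans hR) x' hx' hx'6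
      have h5 : dst x' w ≤ 2 * M := by
        have := dst_triangle x' w' w
        omega
      exact (conn_reachable (good_conn (h w hw hR) (by omega) h5 hxf hx'6)).trans h4

theorem cluster (d : ℕ) (hd : 2 ≤ d) (η : Conf d) (B M₀ : ℕ) (hB : 2 ≤ B)
    (h : ∀ M, M₀ ≤ M → ∀ w, Grid M w → dst w 0 ≤ 8 * (M + 2) ^ B → Good η M w) :
    ∃ (C0 : Set (Vtx d)) (M₁ : ℕ), M₀ ≤ M₁ ∧ C0.Infinite ∧ (∀ x j, η x j → (x ∈ C0 ↔ x + ev j ∈ C0)) ∧
      (∀ x ∈ C0, ∀ y ∈ C0, (G η).Reachable x y) ∧
      (∀ C' : Set (Vtx d), C'.Infinite → (∃ x, C' = {y | (G η).Reachable x y}) → C' = C0) ∧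
      ∀ M, M₁ ≤ M → ∀ y, dst y 0 ≤ 7 * (M + 2) ^ B → (y ∈ C0 ↔ Far η (6 * M) y) := by
  set M₁ := max M₀ 1 with hM₁
  have hM₀ : M₀ ≤ M₁ := le_max_left _ _
  have h1 : 1 ≤ M₁ := le_max_right _ _
  -- anchors of the origin
  have hgood0 : ∀ M, M₁ ≤ M → Good η M 0 := fun M hM =>
    h M (hM₀.trans hM) 0 (CL_grid_zero M) (by rw [dst_self]; exact Nat.zero_le _)
  have hanch : ∀ M, ∃ x : Vtx d, M₁ ≤ M → dst x 0 ≤ M ∧ Far η (9 * M) x := by
    intro M
    by_cases hM : M₁ ≤ M
    · obtain ⟨x, hx⟩ := good_anchor (hgood0 M hM)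
      exact ⟨x, fun _ => hx⟩
    · exact ⟨0, fun h => absurd h hM⟩
  choose a ha using hanch
  -- every far vertex of the region is joined to the anchor of the same scale
  have hpow : ∀ M, M ≤ (M + 2) ^ B := fun M =>
    (Nat.le_add_right M 2).trans (Nat.le_self_pow (by omega) _)
  have hscale : ∀ M, M₁ ≤ M → ∀ y, dst y 0 ≤ 7 * (M + 2) ^ B → Far η (6 * M) y →
      (G η).Reachable y (a M) := by
    intro M hM y hy hyf
    obtain ⟨w, hw, hyw, hw0⟩ := CL_near (h1.trans hM) y
    have := hpow M
    exact CL_anchor (h1.trans hM) (h M (hM₀.trans hM)) (by have := (ha M hM).1; omega)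
      (far_mono (by omega) (ha M hM).2) _ w hw le_rfl (by omega) y hyw hyf
  -- anchors of consecutive scales
  have hcons : ∀ M, M₁ ≤ M → (G η).Reachable (a (M + 1)) (a M) := by
    intro M hM
    have h2 := ha M hM
    have h3 := ha (M + 1) (by omega)
    exact conn_reachable (good_conn (hgood0 M hM) (by omega) (by omega)
      (far_mono (by omega) h3.2) (far_mono (by omega) h2.2))
  have hall : ∀ n, (G η).Reachable (a (M₁ + n)) (a M₁) := by
    intro n
    induction n with
    | zero => exact SimpleGraph.Reachable.refl _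
    | succ n ih => exact (hcons (M₁ + n) (by omega)).trans ih
  have hall' : ∀ M, M₁ ≤ M → (G η).Reachable (a M) (a M₁) := by
    intro M hM
    have := hall (M - M₁)
    rwa [Nat.add_sub_cancel' hM] at this
  have hinf : {y | (G η).Reachable (a M₁) y}.Infinite := by
    intro hfin
    set K := hfin.toFinset.sup fun y => dst y 0 with hK
    have h2 := ha (M₁ + K + 1) (by omega)
    obtain ⟨y, hy, hc⟩ := h2.2
    have h3 : (G η).Reachable (a M₁) y :=
      (hall' (M₁ + K + 1) (by omega)).symm.trans (conn_reachable hc)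
    have h4 : dst y 0 ≤ K :=
      Finset.le_sup (f := fun y : Vtx d => dst y 0) (hfin.mem_toFinset.mpr h3)
    have h5 := dst_triangle y 0 (a (M₁ + K + 1))
    rw [dst_comm 0 _] at h5
    omega
  refine ⟨{y | (G η).Reachable (a M₁) y}, M₁, hM₀, hinf, ?_, ?_, ?_, ?_⟩
  · intro x j hx
    have hadj : (G η).Adj x (x + ev j) := ⟨j, Or.inl ⟨rfl, hx⟩⟩
    exact ⟨fun h => h.trans hadj.reachable, fun h => h.trans hadj.symm.reachable⟩
  · intro x hx y hy
    exact SimpleGraph.Reachable.trans (SimpleGraph.Reachable.symm hx) hy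
  · rintro C' hC' ⟨x, rfl⟩
    set M := max M₁ (dst x 0) with hM
    have hMM : M₁ ≤ M := le_max_left _ _
    have hxM : dst x 0 ≤ M := le_max_right _ _
    have h2 := hscale M hMM x (by have := hpow M; omega) (far_of_infinite hC' _)
    have h3 : (G η).Reachable x (a M₁) := h2.trans (hall' M hMM)
    ext y
    exact ⟨fun hy => h3.symm.trans hy, fun hy => h3.trans hy⟩
  · intro M hM y hy
    constructor
    · intro hyC
      refine far_of_infinite ?_ _
      have h2 : (G η).Reachable (a M₁) y := hyC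
      have h3 : {z | (G η).Reachable y z} = {z | (G η).Reachable (a M₁) z} := by
        ext z
        exact ⟨fun hz => h2.trans hz, fun hz => h2.symm.trans hz⟩
      rw [h3]
      exact hinf
    · intro hyf
      exact ((hscale M hM y hy hyf).trans (hall' M hM)).symm

end Pool.Agent.Lib.MP_566bac_pr.Hd
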