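import Pool.Agent.Lib.MP_566bac_pr.Hd.LI2

/-!
# The integral identities behind the Carleman inequality
-/

open Finset MeasureTheory ProbabilityTheory Filter
open scoped Classical

namespace Pool.Agent.Lib.MP_566bac_pr.Hd

variable {d : ℕ}

/-- the integral of a derivative of a compactly supported function vanishes -/
theorem cm1_int_pd {f : E d → ℝ} (hf : ContDiff ℝ 1 f) (hs : HasCompactSupport f) (i : Fin d) :
    ∫ x, pd i f x = 0 := by
  have hc : Continuous (pd i f) := (li2_pd_contDiff (m := 0) hf (by norm_num) i).continuous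
  have hi : Integrable (pd i f) := hc.integrable_of_hasCompactSupport (li2_pd_supp i hs)
  have hi' : Integrable f := hf.continuous.integrable_of_hasCompactSupport hs
  have h1 := integral_mul_fderiv_eq_neg_fderiv_mul_of_integrable (μ := (volume : Measure (E d)))
    (f := fun _ : E d => (1 : ℝ)) (g := f) (v := eb i)
    (by simp) (by simp only [one_mul]; exact hi) (by simp only [one_mul]; exact hi')
    (fun x _ => differentiableAt_const _)
    (fun x _ => hf.differentiable (by norm_num) x)
  simp only [one_mul, fderiv_fun_const, Pi.zero_apply, zero_apply, zero_mul,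
    integral_zero, neg_zero] at h1
  exact h1

/-- coordinate derivatives as derivatives along lines -/
theorem cm1_line {f : E d → ℝ} {x : E d} (hf : DifferentiableAt ℝ f x) (i : Fin d) :
    HasDerivAt (fun t : ℝ => f (x + t • eb i)) (pd i f x) 0 := by
  have h1 : HasDerivAt (fun t : ℝ => x + t • (eb i : E d)) (eb i) 0 := by
    have := ((hasDerivAt_id (0 : ℝ)).smul_const (eb i : E d)).const_add x
    simpa using this
  have h2 : HasFDerivAt f (fderiv ℝ f x) (x + (0 : ℝ) • (eb i : E d)) := by
    simpa using hf.hasFDerivAt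
  exact h2.comp_hasDerivAt 0 h1

theorem cm1_line_unique {f : E d → ℝ} {x : E d} (hf : DifferentiableAt ℝ f x) (i : Fin d) {c : ℝ}
    (h : HasDerivAt (fun t : ℝ => f (x + t • eb i)) c 0) : pd i f x = c :=
  (cm1_line hf i).unique h

theorem cm1_symm {g : E d → ℝ} (hg : ContDiff ℝ 4 g) (i j : Fin d) (x : E d) :
    pd i (pd j g) x = pd j (pd i g) x := by
  have h1 : IsSymmSndFDerivAt ℝ g x :=
    hg.contDiffAt.isSymmSndFDerivAt (by simp only [minSmoothness_of_isRCLikeNormedField]; norm_num)
  have h2 : ∀ a b : Fin d, pd a (pd b g) x = fderiv ℝ (fderiv ℝ g) x (eb a) (eb b) := by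
    intro a b
    have hd : DifferentiableAt ℝ (fderiv ℝ g) x :=
      (hg.fderiv_right (m := 3) (by norm_num)).differentiable (by norm_num) x
    have h3 := (hd.hasFDerivAt.clm_apply (hasFDerivAt_const (eb b : E d) x)).fderiv
    unfold pd
    rw [h3]
    simp
  rw [h2, h2]
  exact h1 (eb i) (eb j)

/-- algebra of the pointwise identity -/
theorem cm1_algebra (G T : ℝ) (p a : Fin d → ℝ) (h S : Fin d → Fin d → ℝ)
    (hh : ∀ i j, h i j = h j i) (hT : T = ∑ i, S i i) :
    ∑ i, (-4 * ((∑ j, (S i j * p j + a j * h i j)) * p i + (∑ j, a j * p j) * h i i) +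
        2 * ((∑ j, 2 * p j * h i j) * a i + (∑ j, p j ^ 2) * S i i) -
        2 * T * (p i ^ 2 + G * h i i) -
        2 * ((∑ j, 2 * a j * S i j) * (G ^ 2 * a i) +
          (∑ j, a j ^ 2) * (2 * G * p i * a i + G ^ 2 * S i i))) =
      2 * ((∑ i, h i i + (∑ i, a i ^ 2) * G) * (-2 * (∑ i, a i * p i) - T * G)) -
        4 * ((∑ i, ∑ j, S i j * p i * p j) + (∑ i, ∑ j, S i j * a i * a j) * G ^ 2) := by
  have e1 : ∑ i, (∑ j, S i j * p j) * p i = ∑ i, ∑ j, S i j * p i * p j := by
    apply Finset.sum_congr rfl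
    intro i _
    rw [Finset.sum_mul]
    apply Finset.sum_congr rfl
    intro j _
    ring
  have e2 : ∑ i, (∑ j, a j * h i j) * p i = ∑ i, (∑ j, p j * h i j) * a i := by
    simp only [Finset.sum_mul]
    rw [Finset.sum_comm]
    apply Finset.sum_congr rfl
    intro i _
    apply Finset.sum_congr rfl
    intro j _
    rw [hh j i]
    ring
  have e3 : ∑ i, (∑ j, a j * S i j) * a i = ∑ i, ∑ j, S i j * a i * a j := by
    apply Finset.sum_congr rfl
    intro i _
    rw [Finset.sum_mul]
    apply Finset.sum_congr rfl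
    intro j _
    ring
  have e4 : ∀ i, (∑ j, (S i j * p j + a j * h i j)) = (∑ j, S i j * p j) + ∑ j, a j * h i j := by
    intro i
    rw [Finset.sum_add_distrib]
  have e5 : ∀ i, (∑ j, 2 * p j * h i j) = 2 * ∑ j, p j * h i j := by
    intro i
    rw [Finset.mul_sum]
    apply Finset.sum_congr rfl
    intro j _
    ring
  have e6 : ∀ i, (∑ j, 2 * a j * S i j) = 2 * ∑ j, a j * S i j := by
    intro i
    rw [Finset.mul_sum]
    apply Finset.sum_congr rfl
    intro j _
    ring
  simp only [e4, e5, e6]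
  set P2 := ∑ j, p j ^ 2 with hP2
  set ap := ∑ j, a j * p j with hap
  set a2 := ∑ j, a j ^ 2 with ha2
  have e7 : ∀ i, (-4 * (((∑ j, S i j * p j) + ∑ j, a j * h i j) * p i + ap * h i i) +
        2 * ((2 * ∑ j, p j * h i j) * a i + P2 * S i i) -
        2 * T * (p i ^ 2 + G * h i i) -
        2 * ((2 * ∑ j, a j * S i j) * (G ^ 2 * a i) +
          a2 * (2 * G * p i * a i + G ^ 2 * S i i))) =
      -4 * ((∑ j, S i j * p j) * p i) - 4 * ((∑ j, a j * h i j) * p i) +
        4 * ((∑ j, p j * h i j) * a i) - (4 * ap + 2 * T * G) * h i i +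
        (2 * P2 - 2 * a2 * G ^ 2) * S i i - 2 * T * p i ^ 2 - 4 * G ^ 2 * ((∑ j, a j * S i j) * a i) -
        4 * a2 * G * (a i * p i) := by
    intro i
    ring
  simp only [e7]
  simp only [Finset.sum_add_distrib, Finset.sum_sub_distrib, ← Finset.mul_sum]
  rw [e1, e2, e3, ← hP2, ← hap, ← hT]
  ring

theorem carleman_identity (Sb : E d →L[ℝ] E d →L[ℝ] ℝ) (hS : ∀ x y, Sb x y = Sb y x) (l x₀ : E d)
    (g : E d → ℝ) (hg : ContDiff ℝ 4 g) (hgs : HasCompactSupport g) :
    (2 * ∫ x, (lapl g x + (∑ i, (l i + Sb (x - x₀) (eb i)) ^ 2) * g x) *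
        (-2 * (∑ i, (l i + Sb (x - x₀) (eb i)) * pd i g x) - (∑ i, Sb (eb i) (eb i)) * g x) =
      4 * ∫ x, ((∑ i, ∑ j, Sb (eb i) (eb j) * pd i g x * pd j g x) +
        (∑ i, ∑ j, Sb (eb i) (eb j) * (l i + Sb (x - x₀) (eb i)) * (l j + Sb (x - x₀) (eb j))) *
          g x ^ 2)) ∧
    ∫ x, ∑ i, pd i g x ^ 2 =
      ∫ x, ((∑ i, (l i + Sb (x - x₀) (eb i)) ^ 2) * g x ^ 2 -
        (lapl g x + (∑ i, (l i + Sb (x - x₀) (eb i)) ^ 2) * g x) * g x) := by
  have cg : Continuous g := hg.continuous
  have dg : Differentiable ℝ g := hg.differentiable (by norm_num)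
  have hp : ∀ i, ContDiff ℝ 3 (pd i g) := fun i => li2_pd_contDiff hg (by norm_num) i
  have hpp : ∀ i j, ContDiff ℝ 2 (pd i (pd j g)) := fun i j =>
    li2_pd_contDiff (hp j) (by norm_num) i
  have dp : ∀ i, Differentiable ℝ (pd i g) := fun i => (hp i).differentiable (by norm_num)
  have cp : ∀ i, Continuous (pd i g) := fun i => (hp i).continuous
  have cpp : ∀ i j, Continuous (pd i (pd j g)) := fun i j => (hpp i j).continuous
  have ca : ∀ i, ContDiff ℝ (⊤ : ℕ∞) (fun x : E d => l i + Sb (x - x₀) (eb i)) := by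
    intro i
    have : ContDiff ℝ (⊤ : ℕ∞) (fun x : E d => (Sb.flip (eb i)) (x - x₀)) :=
      (Sb.flip (eb i)).contDiff.comp (contDiff_id.sub contDiff_const)
    exact contDiff_const.add this
  have cac : ∀ i, Continuous (fun x : E d => l i + Sb (x - x₀) (eb i)) := fun i => (ca i).continuous
  -- vanishing outside the support
  have z0 : ∀ x, x ∉ tsupport g → g x = 0 := fun x hx => image_eq_zero_of_notMem_tsupport hx
  have t1 : ∀ i, tsupport (pd i g) ⊆ tsupport g := fun i => tsupport_fderiv_apply_subset ℝ (eb i)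
  have t2 : ∀ i j, tsupport (pd i (pd j g)) ⊆ tsupport g := fun i j =>
    (tsupport_fderiv_apply_subset ℝ (eb i)).trans (t1 j)
  have z1 : ∀ i x, x ∉ tsupport g → pd i g x = 0 := fun i x hx =>
    image_eq_zero_of_notMem_tsupport fun h => hx (t1 i h)
  have z2 : ∀ i j x, x ∉ tsupport g → pd i (pd j g) x = 0 := fun i j x hx =>
    image_eq_zero_of_notMem_tsupport fun h => hx (t2 i j h)
  have zl : ∀ x, x ∉ tsupport g → lapl g x = 0 := by
    intro x hx
    unfold lapl
    exact Finset.sum_eq_zero fun i _ => z2 i i x hx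
  have cl : Continuous (lapl g) := by
    unfold lapl
    exact continuous_finsetSum _ fun i _ => cpp i i
  have ig : ∀ F : E d → ℝ, Continuous F → (∀ x, x ∉ tsupport g → F x = 0) → Integrable F := by
    intro F hF hF0
    exact hF.integrable_of_hasCompactSupport (HasCompactSupport.intro hgs.isCompact hF0)
  constructor
  · set T := ∑ i, Sb (eb i) (eb i) with hT
    set W : Fin d → E d → ℝ := fun i x =>
      -4 * ((∑ j, (l j + Sb (x - x₀) (eb j)) * pd j g x) * pd i g x) +
      2 * ((∑ j, pd j g x ^ 2) * (l i + Sb (x - x₀) (eb i))) -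
      2 * T * (g x * pd i g x) -
      2 * ((∑ j, (l j + Sb (x - x₀) (eb j)) ^ 2) * (g x ^ 2 * (l i + Sb (x - x₀) (eb i)))) with hW
    have cW : ∀ i, ContDiff ℝ 1 (W i) := by
      intro i
      have c1 : ∀ j, ContDiff ℝ 1 (pd j g) := fun j => (hp j).of_le (by norm_num)
      have c2 : ∀ j, ContDiff ℝ 1 (fun x : E d => l j + Sb (x - x₀) (eb j)) := fun j =>
        (ca j).of_le (by exact_mod_cast le_top)
      have c3 : ContDiff ℝ 1 g := hg.of_le (by norm_num)
      have c4 : ContDiff ℝ 1 (fun x => ∑ j, (l j + Sb (x - x₀) (eb j)) * pd j g x) :=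
        ContDiff.sum fun j _ => (c2 j).mul (c1 j)
      have c5 : ContDiff ℝ 1 (fun x => ∑ j, pd j g x ^ 2) :=
        ContDiff.sum fun j _ => (c1 j).pow 2
      have c6 : ContDiff ℝ 1 (fun x => ∑ j, (l j + Sb (x - x₀) (eb j)) ^ 2) :=
        ContDiff.sum fun j _ => (c2 j).pow 2
      exact (((contDiff_const.mul (c4.mul (c1 i))).add (contDiff_const.mul (c5.mul (c2 i)))).sub
        (contDiff_const.mul (c3.mul (c1 i)))).sub
        (contDiff_const.mul (c6.mul ((c3.pow 2).mul (c2 i))))
    have sW : ∀ i, HasCompactSupport (W i) := by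
      intro i
      refine HasCompactSupport.intro hgs.isCompact fun x hx => ?_
      simp only [hW, z0 x hx, z1 _ x hx]
      simp
    have dW : ∀ i x, pd i (W i) x =
        -4 * ((∑ j, (Sb (eb i) (eb j) * pd j g x + (l j + Sb (x - x₀) (eb j)) * pd i (pd j g) x)) *
          pd i g x + (∑ j, (l j + Sb (x - x₀) (eb j)) * pd j g x) * pd i (pd i g) x) +
        2 * ((∑ j, 2 * pd j g x * pd i (pd j g) x) * (l i + Sb (x - x₀) (eb i)) +
          (∑ j, pd j g x ^ 2) * Sb (eb i) (eb i)) -
        2 * T * (pd i g x ^ 2 + g x * pd i (pd i g) x) -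
        2 * ((∑ j, 2 * (l j + Sb (x - x₀) (eb j)) * Sb (eb i) (eb j)) *
            (g x ^ 2 * (l i + Sb (x - x₀) (eb i))) +
          (∑ j, (l j + Sb (x - x₀) (eb j)) ^ 2) *
            (2 * g x * pd i g x * (l i + Sb (x - x₀) (eb i)) + g x ^ 2 * Sb (eb i) (eb i))) := by
      intro i x
      have x0 : x + (0 : ℝ) • (eb i : E d) = x := by simp
      have hG := cm1_line (dg x) i
      have hP : ∀ j, HasDerivAt (fun t : ℝ => pd j g (x + t • eb i)) (pd i (pd j g) x) 0 :=
        fun j => cm1_line (dp j x) i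
      have hA : ∀ j, HasDerivAt (fun t : ℝ => l j + Sb (x + t • eb i - x₀) (eb j))
          (Sb (eb i) (eb j)) 0 := by
        intro j
        have e : (fun t : ℝ => l j + Sb (x + t • eb i - x₀) (eb j))
            = fun t : ℝ => (l j + Sb (x - x₀) (eb j)) + t * Sb (eb i) (eb j) := by
          funext t
          have : x + t • (eb i : E d) - x₀ = (x - x₀) + t • eb i := by abel
          rw [this, map_add, map_smul]
          simp
          ring
        rw [e]
        have := ((hasDerivAt_id (0 : ℝ)).mul_const (Sb (eb i) (eb j))).const_add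
          (l j + Sb (x - x₀) (eb j))
        simpa using this
      have h1 : HasDerivAt (fun t : ℝ => ∑ j, (l j + Sb (x + t • eb i - x₀) (eb j)) *
          pd j g (x + t • eb i))
          (∑ j, (Sb (eb i) (eb j) * pd j g x + (l j + Sb (x - x₀) (eb j)) * pd i (pd j g) x)) 0 := by
        have := HasDerivAt.fun_sum (u := univ) fun j _ => (hA j).mul (hP j)
        simpa only [x0, Pi.mul_apply] using this
      have h2 : HasDerivAt (fun t : ℝ => ∑ j, pd j g (x + t • eb i) ^ 2)
          (∑ j, 2 * pd j g x * pd i (pd j g) x) 0 := by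
        have := HasDerivAt.fun_sum (u := univ) fun j _ => (hP j).pow 2
        simpa [x0] using this
      have h3 : HasDerivAt (fun t : ℝ => ∑ j, (l j + Sb (x + t • eb i - x₀) (eb j)) ^ 2)
          (∑ j, 2 * (l j + Sb (x - x₀) (eb j)) * Sb (eb i) (eb j)) 0 := by
        have := HasDerivAt.fun_sum (u := univ) fun j _ => (hA j).pow 2
        simpa only [x0, Pi.pow_apply, Nat.cast_ofNat, Nat.add_one_sub_one, pow_one] using this
      have h4 := ((((h1.mul (hP i)).const_mul (-4)).add ((h2.mul (hA i)).const_mul 2)).sub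
        ((hG.mul (hP i)).const_mul (2 * T))).sub
        ((h3.mul ((hG.pow 2).mul (hA i))).const_mul 2)
      refine cm1_line_unique ((cW i).differentiable (by norm_num) x) i ?_
      refine HasDerivAt.congr_deriv (f := fun t : ℝ => W i (x + t • eb i)) h4 ?_
      simp only [Pi.mul_apply, Pi.pow_apply, x0, Nat.cast_ofNat, Nat.add_one_sub_one, pow_one]
      ring
    have key : ∀ x, ∑ i, pd i (W i) x =
        2 * ((lapl g x + (∑ i, (l i + Sb (x - x₀) (eb i)) ^ 2) * g x) *
        (-2 * (∑ i, (l i + Sb (x - x₀) (eb i)) * pd i g x) - T * g x)) -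
        4 * ((∑ i, ∑ j, Sb (eb i) (eb j) * pd i g x * pd j g x) +
        (∑ i, ∑ j, Sb (eb i) (eb j) * (l i + Sb (x - x₀) (eb i)) * (l j + Sb (x - x₀) (eb j))) *
          g x ^ 2) := by
      intro x
      simp only [dW]
      exact cm1_algebra (g x) T (fun i => pd i g x) (fun i => l i + Sb (x - x₀) (eb i))
        (fun i j => pd i (pd j g) x) (fun i j => Sb (eb i) (eb j)) (fun i j => cm1_symm hg i j x) hT
    have hint : ∫ x, ∑ i, pd i (W i) x = 0 := by
      rw [integral_finsetSum]
      · exact Finset.sum_eq_zero fun i _ => cm1_int_pd (cW i) (sW i) i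
      · intro i _
        exact (li2_pd_contDiff (m := 0) (cW i) (by norm_num) i).continuous.integrable_of_hasCompactSupport
          (li2_pd_supp i (sW i))
    simp only [key] at hint
    rw [integral_sub] at hint
    · rw [integral_const_mul, integral_const_mul] at hint
      linarith
    · apply Integrable.const_mul
      apply ig
      · have k1 : Continuous fun x => ∑ i, (l i + Sb (x - x₀) (eb i)) ^ 2 :=
          continuous_finsetSum _ fun i _ => (cac i).pow 2
        have k2 : Continuous fun x => ∑ i, (l i + Sb (x - x₀) (eb i)) * pd i g x :=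
          continuous_finsetSum _ fun i _ => (cac i).mul (cp i)
        exact (cl.add (k1.mul cg)).mul ((continuous_const.mul k2).sub (continuous_const.mul cg))
      · intro x hx
        rw [zl x hx, z0 x hx]
        simp
    · apply Integrable.const_mul
      apply ig
      · have k1 : Continuous fun x => ∑ i, ∑ j, Sb (eb i) (eb j) * pd i g x * pd j g x :=
          continuous_finsetSum _ fun i _ => continuous_finsetSum _ fun j _ =>
            (continuous_const.mul (cp i)).mul (cp j)
        have k2 : Continuous fun x => ∑ i, ∑ j, Sb (eb i) (eb j) * (l i + Sb (x - x₀) (eb i)) *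
            (l j + Sb (x - x₀) (eb j)) :=
          continuous_finsetSum _ fun i _ => continuous_finsetSum _ fun j _ =>
            (continuous_const.mul (cac i)).mul (cac j)
        exact k1.add (k2.mul (cg.pow 2))
      · intro x hx
        simp only [z0 x hx, z1 _ x hx]
        simp
  · have h1 : ∀ i, ∫ x, (pd i g x ^ 2 + g x * pd i (pd i g) x) = 0 := by
      intro i
      have h2 := cm1_int_pd (f := fun x => g x * pd i g x)
        ((hg.of_le (by norm_num)).mul ((hp i).of_le (by norm_num))) (hgs.mul_right) i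
      rw [← h2]
      congr 1
      funext x
      rw [li2_pd_mul (dg x) (dp i x)]
      ring
    have h3 : ∫ x, ∑ i, (pd i g x ^ 2 + g x * pd i (pd i g) x) = 0 := by
      rw [integral_finsetSum]
      · exact Finset.sum_eq_zero fun i _ => h1 i
      · intro i _
        apply ig
        · exact ((cp i).pow 2).add (cg.mul (cpp i i))
        · intro x hx
          rw [z0 x hx, z1 i x hx]
          simp
    have h4 : ∀ x, ∑ i, (pd i g x ^ 2 + g x * pd i (pd i g) x)
        = ∑ i, pd i g x ^ 2 - ((∑ i, (l i + Sb (x - x₀) (eb i)) ^ 2) * g x ^ 2 -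
        (lapl g x + (∑ i, (l i + Sb (x - x₀) (eb i)) ^ 2) * g x) * g x) := by
      intro x
      rw [Finset.sum_add_distrib, ← Finset.mul_sum]
      unfold lapl
      ring
    simp only [h4] at h3
    rw [integral_sub] at h3
    · linarith
    · apply ig
      · exact continuous_finsetSum _ fun i _ => (cp i).pow 2
      · intro x hx
        simp only [z1 _ x hx]
        simp
    · apply ig
      · have k1 : Continuous fun x => ∑ i, (l i + Sb (x - x₀) (eb i)) ^ 2 :=
          continuous_finsetSum _ fun i _ => (cac i).pow 2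
        exact (k1.mul (cg.pow 2)).sub ((cl.add (k1.mul cg)).mul cg)
      · intro x hx
        rw [zl x hx, z0 x hx]
        simp

end Pool.Agent.Lib.MP_566bac_pr.Hd
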