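import Pool.Agent.Lib.MP_566bac_pr.Hd.CM1

/-!
# The Carleman inequality with a quadratic weight
-/

open Finset MeasureTheory ProbabilityTheory Filter
open scoped Classical

namespace Pool.Agent.Lib.MP_566bac_pr.Hd

variable {d : ℕ}

theorem cm2_expand (x : E d) : x = ∑ i, x i • (eb i : E d) := by
  ext j
  simp [eb, Finset.sum_apply, Pi.single_apply]

theorem cm2_inner (x y : E d) : inner ℝ x y = ∑ i, x i * y i := by
  rw [PiLp.inner_apply]
  apply Finset.sum_congr rfl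
  intro i _
  simp [mul_comm]

theorem cm2_norm_sq (x : E d) : ‖x‖ ^ 2 = ∑ i, x i ^ 2 := by
  rw [EuclideanSpace.norm_sq_eq]
  simp

theorem cm2_norm_eb (i : Fin d) : ‖(eb i : E d)‖ = 1 := by
  unfold eb
  simp

theorem cm2_form (Sb : E d →L[ℝ] E d →L[ℝ] ℝ) (x : E d) :
    Sb x x = ∑ i, ∑ j, Sb (eb i) (eb j) * x i * x j := by
  have h1 : Sb x x = Sb (∑ i, x i • (eb i : E d)) (∑ j, x j • (eb j : E d)) := by
    rw [← cm2_expand]
  rw [h1, map_sum]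
  simp only [map_sum, map_smul, _root_.sum_apply, smul_apply, smul_eq_mul]
  rw [Finset.sum_comm]
  apply Finset.sum_congr rfl
  intro i _
  rw [Finset.mul_sum]
  apply Finset.sum_congr rfl
  intro j _
  ring

theorem cm2_abs (Sb : E d →L[ℝ] E d →L[ℝ] ℝ) {K : ℝ} (hK : ‖Sb‖ ≤ K) (x y : E d) :
    |Sb x y| ≤ K * ‖x‖ * ‖y‖ := by
  have h1 := Sb.le_opNorm₂ x y
  rw [Real.norm_eq_abs] at h1
  refine h1.trans ?_
  have := norm_nonneg x
  have := norm_nonneg y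
  gcongr

/-- lower bound for the form on gradients -/
theorem cm2_formA {c₀ Γ σ N : ℝ} (hc : 0 < c₀) (hc1 : c₀ ≤ 1) (hΓ : 1 ≤ Γ) (hσ : 0 < σ)
    (Sb : E d →L[ℝ] E d →L[ℝ] ℝ) (l : E d) (hN : N = ‖l‖ ^ 2) (hN0 : 0 < N)
    (hS : ∀ x y, Sb x y = Sb y x) (hSn : ‖Sb‖ ≤ Γ * σ)
    (h : ∀ τ : E d, inner ℝ l τ = 0 → c₀ * σ * ‖l‖ ^ 2 * ‖τ‖ ^ 2 ≤
        Sb l l * ‖τ‖ ^ 2 + Sb τ τ * ‖l‖ ^ 2) (ξ : E d) :
    c₀ * σ / 4 * ‖ξ‖ ^ 2 - 7 * Γ ^ 2 / c₀ * σ * ((inner ℝ l ξ) ^ 2 / N) ≤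
      Sb ξ ξ + (Sb l l / N - c₀ * σ / 2) * ‖ξ‖ ^ 2 := by
  set α := inner ℝ l ξ / N with hα
  set τ := ξ - α • l with hτ
  have h1 : inner ℝ l τ = 0 := by
    rw [hτ, inner_sub_right, inner_smul_right, real_inner_self_eq_norm_sq, ← hN, hα]
    field_simp
    ring
  have hξ : ξ = α • l + τ := by
    rw [hτ]
    abel
  have h2 : ‖ξ‖ ^ 2 = α ^ 2 * N + ‖τ‖ ^ 2 := by
    rw [hξ, norm_add_sq_real, inner_smul_left, h1, norm_smul, mul_pow, ← hN]
    simp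
  have h3 : Sb ξ ξ = α ^ 2 * Sb l l + 2 * α * Sb l τ + Sb τ τ := by
    rw [hξ]
    simp only [map_add, map_smul, add_apply, smul_apply,
      smul_eq_mul]
    rw [hS τ l]
    ring
  have h4 : (inner ℝ l ξ) ^ 2 / N = α ^ 2 * N := by
    rw [hα]
    field_simp
  have h5 := h τ h1
  rw [← hN] at h5
  set s := Sb l l / N with hs
  have h6 : Sb l l = s * N := by
    rw [hs]
    field_simp
  have h7 : (c₀ * σ - s) * ‖τ‖ ^ 2 ≤ Sb τ τ := by
    rw [h6] at h5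
    have h8 : ((c₀ * σ - s) * ‖τ‖ ^ 2) * N ≤ Sb τ τ * N := by linarith
    exact le_of_mul_le_mul_right h8 hN0
  have h9 := cm2_abs Sb hSn l τ
  have h10 := cm2_abs Sb hSn l l
  have hsn : |s| ≤ Γ * σ := by
    rw [h6, abs_mul, abs_of_pos hN0] at h10
    have h11 : |s| * N ≤ (Γ * σ) * N := by
      calc |s| * N ≤ Γ * σ * ‖l‖ * ‖l‖ := h10
        _ = (Γ * σ) * N := by rw [hN]; ring
    exact le_of_mul_le_mul_right h11 hN0
  have hs1 := (abs_le.1 hsn).1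
  have h12 : -(c₀ * σ / 4 * ‖τ‖ ^ 2 + 4 * Γ ^ 2 / c₀ * σ * (α ^ 2 * N)) ≤ 2 * α * Sb l τ := by
    have h13 : |2 * α * Sb l τ| ≤ 2 * |α| * (Γ * σ * ‖l‖ * ‖τ‖) := by
      rw [abs_mul, abs_mul, abs_two]
      gcongr
    have h14 : 2 * |α| * (Γ * σ * ‖l‖ * ‖τ‖) ≤
        c₀ * σ / 4 * ‖τ‖ ^ 2 + 4 * Γ ^ 2 / c₀ * σ * (α ^ 2 * N) := by
      have h15 : 0 ≤ σ / c₀ * (c₀ / 2 * ‖τ‖ - 2 * Γ * |α| * ‖l‖) ^ 2 := by positivity
      have h16 : σ / c₀ * (c₀ / 2 * ‖τ‖ - 2 * Γ * |α| * ‖l‖) ^ 2 =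
          c₀ * σ / 4 * ‖τ‖ ^ 2 + 4 * Γ ^ 2 / c₀ * σ * (|α| ^ 2 * ‖l‖ ^ 2) -
            2 * |α| * (Γ * σ * ‖l‖ * ‖τ‖) := by
        field_simp
        ring
      rw [h16, sq_abs, ← hN] at h15
      linarith
    have := (abs_le.1 h13).1
    linarith
  have h17 : 2 * Γ + 3 / 4 * c₀ + 4 * Γ ^ 2 / c₀ ≤ 7 * Γ ^ 2 / c₀ := by
    have h18 : 2 * Γ + 3 / 4 * c₀ ≤ 3 * Γ ^ 2 / c₀ := by
      rw [le_div_iff₀ hc]
      nlinarith [mul_pos hc hc]
    have h19 : 7 * Γ ^ 2 / c₀ = 3 * Γ ^ 2 / c₀ + 4 * Γ ^ 2 / c₀ := by ring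
    linarith
  have hαN : 0 ≤ α ^ 2 * N := by positivity
  have h20 : (2 * Γ + 3 / 4 * c₀ + 4 * Γ ^ 2 / c₀) * (σ * (α ^ 2 * N)) ≤
      7 * Γ ^ 2 / c₀ * (σ * (α ^ 2 * N)) :=
    mul_le_mul_of_nonneg_right h17 (by positivity)
  have h21 : -(2 * Γ * σ) * (α ^ 2 * N) ≤ 2 * s * (α ^ 2 * N) :=
    mul_le_mul_of_nonneg_right (by linarith) hαN
  rw [h4, h3, h2, h6]
  nlinarith [h7, h12, h20, h21]

/-- lower bound for the form at the gradient of the weight -/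
theorem cm2_formB {c₀ Γ σ N ε : ℝ} (hc : 0 < c₀) (hc1 : c₀ ≤ 1) (hΓ : 1 ≤ Γ) (hσ : 0 < σ)
    (hε : 0 ≤ ε) (hε1 : ε ≤ 1)
    (Sb : E d →L[ℝ] E d →L[ℝ] ℝ) (l a : E d) (hN : N = ‖l‖ ^ 2) (hN0 : 0 < N)
    (hS : ∀ x y, Sb x y = Sb y x) (hSn : ‖Sb‖ ≤ Γ * σ) (ha : ‖a - l‖ ≤ ε * ‖l‖) :
    c₀ * σ / 2 * N - 15 / 2 * Γ * σ * ε * N ≤
      Sb a a - (Sb l l / N - c₀ * σ / 2) * ‖a‖ ^ 2 := by
  set w := a - l with hw
  have haw : a = l + w := by
    rw [hw]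
    abel
  have h10 := cm2_abs Sb hSn l l
  set s := Sb l l / N with hs
  have h6 : Sb l l = s * N := by
    rw [hs]
    field_simp
  have hsn : |s| ≤ Γ * σ := by
    rw [h6, abs_mul, abs_of_pos hN0] at h10
    have h11 : |s| * N ≤ (Γ * σ) * N := by
      calc |s| * N ≤ Γ * σ * ‖l‖ * ‖l‖ := h10
        _ = (Γ * σ) * N := by rw [hN]; ring
    exact le_of_mul_le_mul_right h11 hN0
  have h3 : Sb a a = Sb l l + 2 * Sb l w + Sb w w := by
    rw [haw]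
    simp only [map_add, add_apply]
    rw [hS w l]
    ring
  have h4 : ‖a‖ ^ 2 = N + 2 * inner ℝ l w + ‖w‖ ^ 2 := by
    rw [haw, norm_add_sq_real, ← hN]
  have hw2 : ‖w‖ ^ 2 ≤ ε ^ 2 * N := by
    rw [hN, ← mul_pow]
    exact pow_le_pow_left₀ (norm_nonneg _) ha 2
  have hlw : ‖l‖ * ‖w‖ ≤ ε * N := by
    rw [hN, sq, ← mul_assoc, mul_comm]
    exact mul_le_mul_of_nonneg_right ha (norm_nonneg _)
  have h5 : |inner ℝ l w| ≤ ε * N := (abs_real_inner_le_norm l w).trans hlw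
  have h7 : |Sb l w| ≤ Γ * σ * (ε * N) := by
    refine (cm2_abs Sb hSn l w).trans ?_
    rw [mul_assoc (Γ * σ)]
    exact mul_le_mul_of_nonneg_left hlw (by positivity)
  have h8 : |Sb w w| ≤ Γ * σ * (ε ^ 2 * N) := by
    refine (cm2_abs Sb hSn w w).trans ?_
    rw [mul_assoc (Γ * σ), ← sq]
    exact mul_le_mul_of_nonneg_left hw2 (by positivity)
  have hε2 : ε ^ 2 ≤ ε := by nlinarith
  set D := 2 * inner ℝ l w + ‖w‖ ^ 2 with hD
  have hDa : |D| ≤ 3 * ε * N := by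
    rw [hD]
    have := sq_nonneg ‖w‖
    rw [abs_le] at h5 ⊢
    constructor
    · nlinarith [h5.1]
    · nlinarith [h5.2]
  set κ := s - c₀ * σ / 2 with hκ
  have hκa : |κ| ≤ 3 / 2 * (Γ * σ) := by
    rw [hκ]
    have h9 : c₀ * σ ≤ Γ * σ := by
      apply mul_le_mul_of_nonneg_right _ hσ.le
      linarith
    have h9' : 0 < c₀ * σ := by positivity
    rw [abs_le] at hsn ⊢
    constructor
    · linarith [hsn.1]
    · linarith [hsn.2]
  have hκD : |κ * D| ≤ 3 / 2 * (Γ * σ) * (3 * ε * N) := by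
    rw [abs_mul]
    exact mul_le_mul hκa hDa (abs_nonneg _) (by positivity)
  have e1 : ‖a‖ ^ 2 = N + D := by
    rw [h4, hD]
    ring
  rw [h3, h6, e1]
  have e2 := (abs_le.1 hκD).2
  have e3 := (abs_le.1 h7).1
  have e4 := (abs_le.1 h8).1
  have e5 : Γ * σ * (ε ^ 2 * N) ≤ Γ * σ * (ε * N) := by gcongr
  have e6 : κ * (N + D) = s * N - c₀ * σ / 2 * N + κ * D := by
    rw [hκ]
    ring
  rw [e6]
  nlinarith

theorem cm2_T {K : ℝ} (Sb : E d →L[ℝ] E d →L[ℝ] ℝ) (hK : ‖Sb‖ ≤ K) :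
    |∑ i, Sb (eb i) (eb i)| ≤ d * K := by
  refine (Finset.abs_sum_le_sum_abs _ _).trans ?_
  have h1 : ∀ i : Fin d, |Sb (eb i) (eb i)| ≤ K := by
    intro i
    have := cm2_abs Sb hK (eb i) (eb i)
    rw [cm2_norm_eb] at this
    linarith
  refine (Finset.sum_le_sum fun i _ => h1 i).trans ?_
  simp

/-- the pointwise inequality -/
theorem cm2_pointwise {c₀ Γ σ N ε : ℝ} (hc : 0 < c₀) (hc1 : c₀ ≤ 1) (hΓ : 1 ≤ Γ) (hσ : 0 < σ)
    (hε : 0 < ε) (he : ε * (200 * Γ ^ 4 * ((d : ℝ) + 1) ^ 2) ≤ c₀ ^ 2)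
    (Sb : E d →L[ℝ] E d →L[ℝ] ℝ) (l a : E d) (hN : N = ‖l‖ ^ 2) (hN0 : 0 < N)
    (hS : ∀ x y, Sb x y = Sb y x) (hSn : ‖Sb‖ ≤ Γ * σ)
    (h : ∀ τ : E d, inner ℝ l τ = 0 → c₀ * σ * ‖l‖ ^ 2 * ‖τ‖ ^ 2 ≤
        Sb l l * ‖τ‖ ^ 2 + Sb τ τ * ‖l‖ ^ 2) (ha : ‖a - l‖ ≤ ε * ‖l‖) (hσN : σ ≤ ε * N)
    (P : E d) (A B g : ℝ) (hB : B = -2 * inner ℝ a P - (∑ i, Sb (eb i) (eb i)) * g) :
    c₀ * σ * N * g ^ 2 ≤ A ^ 2 + B ^ 2 + 4 * (Sb P P + Sb a a * g ^ 2) +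
      4 * (Sb l l / N - c₀ * σ / 2) * (‖P‖ ^ 2 - (‖a‖ ^ 2 * g ^ 2 - A * g)) := by
  have hd : (0 : ℝ) ≤ d := Nat.cast_nonneg d
  have hΓ2 : 1 ≤ Γ ^ 2 := one_le_pow₀ hΓ
  have hΓ4 : 1 ≤ Γ ^ 4 := one_le_pow₀ hΓ
  have hd1 : 1 ≤ ((d : ℝ) + 1) ^ 2 := one_le_pow₀ (by linarith)
  have hΓ42 : Γ ^ 2 ≤ Γ ^ 4 := pow_le_pow_right₀ hΓ (by norm_num)
  have hc2 : c₀ ^ 2 ≤ c₀ := by nlinarith
  -- the smallness conditions
  have k1 : ε * (200 * Γ ^ 2) ≤ c₀ ^ 2 := by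
    refine le_trans ?_ he
    have : 200 * Γ ^ 2 ≤ 200 * Γ ^ 4 * ((d : ℝ) + 1) ^ 2 := by
      calc 200 * Γ ^ 2 ≤ 200 * Γ ^ 4 * 1 := by linarith
        _ ≤ _ := by gcongr
    exact mul_le_mul_of_nonneg_left this hε.le
  have k2 : ε ≤ 1 := by
    have k0 : ε * 1 ≤ ε * (200 * Γ ^ 2) := by
      apply mul_le_mul_of_nonneg_left _ hε.le
      linarith
    linarith
  have k3 : ε * Γ ^ 4 * (d : ℝ) ^ 2 * 200 ≤ c₀ ^ 2 := by
    refine le_trans ?_ he
    have : (d : ℝ) ^ 2 ≤ ((d : ℝ) + 1) ^ 2 := by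
      apply pow_le_pow_left₀ hd
      linarith
    calc ε * Γ ^ 4 * (d : ℝ) ^ 2 * 200 ≤ ε * Γ ^ 4 * ((d : ℝ) + 1) ^ 2 * 200 := by gcongr
      _ = _ := by ring
  set κ := Sb l l / N - c₀ * σ / 2 with hκ
  set T := ∑ i, Sb (eb i) (eb i) with hT
  have hTa : |T| ≤ d * (Γ * σ) := cm2_T Sb hSn
  have hT2 : T ^ 2 ≤ (d * (Γ * σ)) ^ 2 := by
    rw [← sq_abs]
    exact pow_le_pow_left₀ (abs_nonneg _) hTa 2
  have hA := cm2_formA hc hc1 hΓ hσ Sb l hN hN0 hS hSn h P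
  have hBf := cm2_formB hc hc1 hΓ hσ hε.le k2 Sb l a hN hN0 hS hSn ha
  rw [← hκ] at hA hBf
  -- the component of the gradient
  set w := a - l with hw
  have hlP : (inner ℝ l P : ℝ) ^ 2 ≤ 3 / 4 * B ^ 2 + 3 / 4 * (T ^ 2 * g ^ 2) +
      3 * ε ^ 2 * N * ‖P‖ ^ 2 := by
    have e1 : inner ℝ a P = inner ℝ l P + inner ℝ w P := by
      rw [← inner_add_left]
      congr 1
      rw [hw]
      abel
    have e2 : (inner ℝ w P : ℝ) ^ 2 ≤ ε ^ 2 * N * ‖P‖ ^ 2 := by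
      have e3 := abs_real_inner_le_norm w P
      have e4 : |(inner ℝ w P : ℝ)| ≤ ε * ‖l‖ * ‖P‖ := e3.trans (by gcongr)
      rw [← sq_abs, hN]
      calc |(inner ℝ w P : ℝ)| ^ 2 ≤ (ε * ‖l‖ * ‖P‖) ^ 2 := by gcongr
        _ = _ := by ring
    have e5 : (inner ℝ l P : ℝ) = -(B / 2) - T * g / 2 - inner ℝ w P := by
      rw [hB, e1]
      ring
    rw [e5]
    have e6 : ∀ x y z : ℝ, (x - y - z) ^ 2 ≤ 3 * (x ^ 2 + y ^ 2 + z ^ 2) := by
      intro x y z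
      have h1 := sq_nonneg (x + y)
      have h2 := sq_nonneg (x + z)
      have h3 := sq_nonneg (y - z)
      nlinarith only [h1, h2, h3]
    have e7 := e6 (-(B / 2)) (T * g / 2) (inner ℝ w P)
    have e8 : 3 * ((-(B / 2)) ^ 2 + (T * g / 2) ^ 2 + (inner ℝ w P : ℝ) ^ 2) =
        3 / 4 * B ^ 2 + 3 / 4 * (T ^ 2 * g ^ 2) + 3 * (inner ℝ w P : ℝ) ^ 2 := by ring
    linarith
  -- bound for kappa
  have hκa : κ ^ 2 ≤ 9 / 4 * (Γ * σ) ^ 2 := by
    have h10 := cm2_abs Sb hSn l l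
    set s := Sb l l / N with hs
    have h6 : Sb l l = s * N := by
      rw [hs]
      field_simp
    have hsn : |s| ≤ Γ * σ := by
      rw [h6, abs_mul, abs_of_pos hN0] at h10
      have h11 : |s| * N ≤ (Γ * σ) * N := by
        calc |s| * N ≤ Γ * σ * ‖l‖ * ‖l‖ := h10
          _ = (Γ * σ) * N := by rw [hN]; ring
      exact le_of_mul_le_mul_right h11 hN0
    have h9 : c₀ * σ ≤ Γ * σ := by
      apply mul_le_mul_of_nonneg_right _ hσ.le
      linarith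
    have h9' : 0 < c₀ * σ := by positivity
    have hκb : |κ| ≤ 3 / 2 * (Γ * σ) := by
      rw [hκ]
      rw [abs_le] at hsn ⊢
      constructor
      · linarith [hsn.1]
      · linarith [hsn.2]
    rw [← sq_abs]
    calc |κ| ^ 2 ≤ (3 / 2 * (Γ * σ)) ^ 2 := by gcongr
      _ = _ := by ring
  -- collect
  set C1 := 7 * Γ ^ 2 / c₀ with hC1
  have hC1p : 0 < C1 := by positivity
  have hC1e : C1 * ε ≤ 7 / 200 * c₀ := by
    rw [hC1, div_mul_eq_mul_div, div_le_iff₀ hc]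
    have : 7 / 200 * c₀ * c₀ = 7 / 200 * c₀ ^ 2 := by ring
    linarith
  have m1 : C1 * σ * ((inner ℝ l P : ℝ) ^ 2 / N) ≤
      C1 * (σ / N) * (3 / 4 * B ^ 2) + C1 * (σ / N) * (3 / 4 * (T ^ 2 * g ^ 2)) +
        C1 * σ * (3 * ε ^ 2 * ‖P‖ ^ 2) := by
    have : C1 * σ * ((inner ℝ l P : ℝ) ^ 2 / N) ≤ C1 * σ * ((3 / 4 * B ^ 2 +
        3 / 4 * (T ^ 2 * g ^ 2) + 3 * ε ^ 2 * N * ‖P‖ ^ 2) / N) := by gcongr
    refine this.trans (le_of_eq ?_)
    field_simp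
  have hσN' : σ / N ≤ ε := (div_le_iff₀ hN0).2 hσN
  have m2 : C1 * (σ / N) ≤ 7 / 200 * c₀ :=
    (mul_le_mul_of_nonneg_left hσN' hC1p.le).trans hC1e
  have m3 : C1 * (σ / N) * (3 / 4 * B ^ 2) ≤ 1 / 8 * B ^ 2 := by
    calc C1 * (σ / N) * (3 / 4 * B ^ 2) ≤ (7 / 200 * c₀) * (3 / 4 * B ^ 2) := by gcongr
      _ = (21 / 800 * c₀) * B ^ 2 := by ring
      _ ≤ 1 / 8 * B ^ 2 := by
        apply mul_le_mul_of_nonneg_right _ (sq_nonneg B)
        linarith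
  have m4 : C1 * (σ / N) * (3 / 4 * (T ^ 2 * g ^ 2)) ≤ 1 / 40 * (c₀ * σ * N) * g ^ 2 := by
    have n1 : T ^ 2 ≤ (d : ℝ) ^ 2 * Γ ^ 2 * σ * (ε * N) := by
      refine hT2.trans ?_
      calc (d * (Γ * σ)) ^ 2 = (d : ℝ) ^ 2 * Γ ^ 2 * σ * σ := by ring
        _ ≤ (d : ℝ) ^ 2 * Γ ^ 2 * σ * (ε * N) := by gcongr
    have n2 : C1 * (σ / N) * (3 / 4 * (T ^ 2 * g ^ 2)) ≤
        (C1 * ε) * (3 / 4 * ((d : ℝ) ^ 2 * Γ ^ 2 * σ * (ε * N) * g ^ 2)) := by gcongr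
    have n3 : (C1 * ε) * (3 / 4 * ((d : ℝ) ^ 2 * Γ ^ 2 * σ * (ε * N) * g ^ 2)) ≤
        (7 / 200 * c₀) * (3 / 4 * ((d : ℝ) ^ 2 * Γ ^ 2 * σ * (ε * N) * g ^ 2)) := by gcongr
    have n4 : (d : ℝ) ^ 2 * Γ ^ 2 * ε ≤ 1 / 200 := by
      have : (d : ℝ) ^ 2 * Γ ^ 2 * ε ≤ ε * Γ ^ 4 * (d : ℝ) ^ 2 := by
        have : (d : ℝ) ^ 2 * Γ ^ 2 * ε ≤ (d : ℝ) ^ 2 * Γ ^ 4 * ε := by gcongr
        linarith
      linarith
    have n5 : (7 / 200 * c₀) * (3 / 4 * ((d : ℝ) ^ 2 * Γ ^ 2 * σ * (ε * N) * g ^ 2)) =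
        ((d : ℝ) ^ 2 * Γ ^ 2 * ε) * (21 / 800 * (c₀ * σ * N * g ^ 2)) := by ring
    have n6 : 0 ≤ c₀ * σ * N * g ^ 2 := by positivity
    have n7 : ((d : ℝ) ^ 2 * Γ ^ 2 * ε) * (21 / 800 * (c₀ * σ * N * g ^ 2)) ≤
        (1 / 200) * (21 / 800 * (c₀ * σ * N * g ^ 2)) := by gcongr
    linarith
  have m5 : C1 * σ * (3 * ε ^ 2 * ‖P‖ ^ 2) ≤ c₀ * σ / 4 * ‖P‖ ^ 2 := by
    have n1 : C1 * σ * (3 * ε ^ 2 * ‖P‖ ^ 2) = (C1 * ε) * (3 * ε * σ * ‖P‖ ^ 2) := by ring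
    have n2 : (C1 * ε) * (3 * ε * σ * ‖P‖ ^ 2) ≤ (7 / 200 * c₀) * (3 * 1 * σ * ‖P‖ ^ 2) := by gcongr
    have n3 : 0 ≤ c₀ * σ * ‖P‖ ^ 2 := by positivity
    linarith
  have m6 : κ ^ 2 * g ^ 2 ≤ 1 / 40 * (c₀ * σ * N) * g ^ 2 := by
    have n1 : κ ^ 2 ≤ 1 / 40 * (c₀ * σ * N) := by
      refine hκa.trans ?_
      have n2 : 9 / 4 * (Γ * σ) ^ 2 = 9 / 4 * Γ ^ 2 * σ * σ := by ring
      have n3 : 9 / 4 * Γ ^ 2 * σ * σ ≤ 9 / 4 * Γ ^ 2 * σ * (ε * N) := by gcongr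
      have n4 : 9 / 4 * Γ ^ 2 * σ * (ε * N) = (ε * (200 * Γ ^ 2)) * (9 / 800 * (σ * N)) := by ring
      have n5 : (ε * (200 * Γ ^ 2)) * (9 / 800 * (σ * N)) ≤ c₀ * (9 / 800 * (σ * N)) := by
        gcongr
        exact k1.trans hc2
      have n6 : 0 ≤ c₀ * σ * N := by positivity
      linarith
    gcongr
  have m7 : 4 * κ * (A * g) ≥ -(A ^ 2 / 2) - 8 * (κ ^ 2 * g ^ 2) := by
    have : 0 ≤ (A + 4 * κ * g) ^ 2 := sq_nonneg _
    have e : (A + 4 * κ * g) ^ 2 = A ^ 2 + 8 * κ * (A * g) + 16 * (κ ^ 2 * g ^ 2) := by ring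
    linarith
  have m8 : (c₀ * σ / 2 * N - 15 / 2 * Γ * σ * ε * N) * g ^ 2 ≤ (Sb a a - κ * ‖a‖ ^ 2) * g ^ 2 := by
    gcongr
  have m9 : 15 / 2 * Γ * σ * ε * N ≤ 1 / 20 * (c₀ * σ * N) := by
    have n1 : Γ ≤ Γ ^ 2 := by
      rw [sq]
      exact le_mul_of_one_le_left (by linarith) hΓ
    have n2 : 15 / 2 * Γ * σ * ε * N ≤ 15 / 2 * Γ ^ 2 * σ * ε * N := by gcongr
    have n3 : 15 / 2 * Γ ^ 2 * σ * ε * N = (ε * (200 * Γ ^ 2)) * (3 / 80 * (σ * N)) := by ring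
    have n4 : (ε * (200 * Γ ^ 2)) * (3 / 80 * (σ * N)) ≤ c₀ * (3 / 80 * (σ * N)) := by
      gcongr
      exact k1.trans hc2
    have n5 : 0 ≤ c₀ * σ * N := by positivity
    linarith
  have m10 : 15 / 2 * Γ * σ * ε * N * g ^ 2 ≤ 1 / 20 * (c₀ * σ * N) * g ^ 2 := by gcongr
  have n6 : 0 ≤ c₀ * σ * N * g ^ 2 := by positivity
  linarith [sq_nonneg A, sq_nonneg B]

/-- the gradient of the quadratic weight -/
theorem cm2_quad_contDiff (Sb : E d →L[ℝ] E d →L[ℝ] ℝ) (l x₀ : E d) :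
    ContDiff ℝ 4 (fun x : E d => quad l Sb (x - x₀)) := by
  unfold quad
  have h1 : ContDiff ℝ 4 (fun x : E d => x - x₀) := contDiff_id.sub contDiff_const
  have h2 : ContDiff ℝ 4 (fun x : E d => Sb (x - x₀)) := Sb.contDiff.comp h1
  exact (contDiff_const.inner ℝ h1).add ((h2.clm_apply h1).div_const 2)

theorem cm2_pd_quad (Sb : E d →L[ℝ] E d →L[ℝ] ℝ) (hS : ∀ x y, Sb x y = Sb y x) (l x₀ : E d)
    (i : Fin d) (x : E d) :
    pd i (fun x : E d => quad l Sb (x - x₀)) x = l i + Sb (x - x₀) (eb i) := by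
  refine cm1_line_unique ((cm2_quad_contDiff Sb l x₀).differentiable (by norm_num) x) i ?_
  have e : (fun t : ℝ => quad l Sb (x + t • eb i - x₀)) = fun t : ℝ =>
      quad l Sb (x - x₀) + t * (l i + Sb (x - x₀) (eb i)) + t ^ 2 * (Sb (eb i) (eb i) / 2) := by
    funext t
    have h1 : x + t • (eb i : E d) - x₀ = (x - x₀) + t • eb i := by abel
    have h2 : inner ℝ l (eb i : E d) = l i := by
      rw [cm2_inner]
      simp [eb]
    unfold quad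
    rw [h1]
    simp only [map_add, map_smul, add_apply, smul_apply, smul_eq_mul, inner_add_right,
      inner_smul_right]
    rw [h2, hS (eb i) (x - x₀)]
    ring
  rw [e]
  have h3 := (((hasDerivAt_id (0 : ℝ)).mul_const (l i + Sb (x - x₀) (eb i))).const_add
    (quad l Sb (x - x₀))).fun_add (((hasDerivAt_id (0 : ℝ)).fun_pow 2).mul_const
      (Sb (eb i) (eb i) / 2))
  simpa using h3

/-- the conjugated Laplace operator -/
theorem cm2_conj (Sb : E d →L[ℝ] E d →L[ℝ] ℝ) (hS : ∀ x y, Sb x y = Sb y x) (l x₀ : E d)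
    (U : E d → ℝ) (hU : ContDiff ℝ 4 U) (x : E d) :
    (lapl (fun x => Real.exp (quad l Sb (x - x₀)) * U x) x +
      (∑ i, (l i + Sb (x - x₀) (eb i)) ^ 2) * (Real.exp (quad l Sb (x - x₀)) * U x)) +
    (-2 * (∑ i, (l i + Sb (x - x₀) (eb i)) *
        pd i (fun x => Real.exp (quad l Sb (x - x₀)) * U x) x) -
      (∑ i, Sb (eb i) (eb i)) * (Real.exp (quad l Sb (x - x₀)) * U x)) =
    Real.exp (quad l Sb (x - x₀)) * lapl U x := by
  set q : E d → ℝ := fun x => quad l Sb (x - x₀) with hq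
  change (lapl (fun x => Real.exp (q x) * U x) x +
      (∑ i, (l i + Sb (x - x₀) (eb i)) ^ 2) * (Real.exp (q x) * U x)) +
    (-2 * (∑ i, (l i + Sb (x - x₀) (eb i)) *
        pd i (fun x => Real.exp (q x) * U x) x) -
      (∑ i, Sb (eb i) (eb i)) * (Real.exp (q x) * U x)) =
    Real.exp (q x) * lapl U x
  have cq : ContDiff ℝ 4 q := cm2_quad_contDiff Sb l x₀
  have dq : Differentiable ℝ q := cq.differentiable (by norm_num)
  have cE : ContDiff ℝ 4 (fun x => Real.exp (q x)) := cq.exp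
  have dE : Differentiable ℝ (fun x => Real.exp (q x)) := cE.differentiable (by norm_num)
  have dU : Differentiable ℝ U := hU.differentiable (by norm_num)
  have e1 : ∀ i, pd i (fun x => Real.exp (q x)) =
      fun x => Real.exp (q x) * (l i + Sb (x - x₀) (eb i)) := by
    intro i
    funext y
    rw [← cm2_pd_quad Sb hS l x₀ i y]
    unfold pd
    rw [((dq y).hasFDerivAt.exp).fderiv]
    simp [hq]
  have da : ∀ i, Differentiable ℝ (fun x : E d => l i + Sb (x - x₀) (eb i)) := by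
    intro i
    have h1 : ContDiff ℝ 4 (fun x : E d => (Sb.flip (eb i)) (x - x₀)) :=
      (Sb.flip (eb i)).contDiff.comp (contDiff_id.sub contDiff_const)
    have h2 : ContDiff ℝ 4 (fun x : E d => l i + Sb (x - x₀) (eb i)) := contDiff_const.add h1
    exact h2.differentiable (by norm_num)
  have e2 : ∀ i, pd i (pd i (fun x => Real.exp (q x))) x =
      Real.exp (q x) * (Sb (eb i) (eb i) + (l i + Sb (x - x₀) (eb i)) ^ 2) := by
    intro i
    rw [e1 i, li2_pd_mul (dE x) (da i x), e1 i]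
    have e3 : pd i (fun x : E d => l i + Sb (x - x₀) (eb i)) x = Sb (eb i) (eb i) := by
      refine cm1_line_unique (da i x) i ?_
      have e : (fun t : ℝ => l i + Sb (x + t • eb i - x₀) (eb i))
          = fun t : ℝ => (l i + Sb (x - x₀) (eb i)) + t * Sb (eb i) (eb i) := by
        funext t
        have : x + t • (eb i : E d) - x₀ = (x - x₀) + t • eb i := by abel
        rw [this, map_add, map_smul]
        simp
        ring
      rw [e]
      have := ((hasDerivAt_id (0 : ℝ)).mul_const (Sb (eb i) (eb i))).const_add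
        (l i + Sb (x - x₀) (eb i))
      simpa using this
    rw [e3]
    ring
  have e4 : lapl (fun x => Real.exp (q x)) x = Real.exp (q x) *
      ((∑ i, Sb (eb i) (eb i)) + ∑ i, (l i + Sb (x - x₀) (eb i)) ^ 2) := by
    unfold lapl
    simp only [e2]
    rw [← Finset.mul_sum, Finset.sum_add_distrib]
  have e5 : ∀ i, pd i (fun x => Real.exp (q x) * U x) x =
      Real.exp (q x) * pd i U x + U x * (Real.exp (q x) * (l i + Sb (x - x₀) (eb i))) := by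
    intro i
    rw [li2_pd_mul (dE x) (dU x), e1 i]
  rw [lapl_mul cE hU, e4]
  simp only [e1, e5]
  have e6 : ∑ i, (l i + Sb (x - x₀) (eb i)) * (Real.exp (q x) * pd i U x +
      U x * (Real.exp (q x) * (l i + Sb (x - x₀) (eb i)))) =
      Real.exp (q x) * (∑ i, (l i + Sb (x - x₀) (eb i)) * pd i U x) +
        U x * Real.exp (q x) * ∑ i, (l i + Sb (x - x₀) (eb i)) ^ 2 := by
    rw [Finset.mul_sum, Finset.mul_sum, ← Finset.sum_add_distrib]
    apply Finset.sum_congr rfl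
    intro i _
    ring
  have e7 : ∑ i, Real.exp (q x) * (l i + Sb (x - x₀) (eb i)) * pd i U x =
      Real.exp (q x) * (∑ i, (l i + Sb (x - x₀) (eb i)) * pd i U x) := by
    rw [Finset.mul_sum]
    apply Finset.sum_congr rfl
    intro i _
    ring
  rw [e6, e7]
  ring

theorem carleman (d : ℕ) (c₀ Γ : ℝ) (hc : 0 < c₀) (hc1 : c₀ ≤ 1) (hΓ : 1 ≤ Γ) :
    ∃ ε₁ : ℝ, 0 < ε₁ ∧ ∀ (Sb : E d →L[ℝ] E d →L[ℝ] ℝ) (l : E d) (σ t₁ : ℝ), 0 < σ → 0 < t₁ →
      (∀ x y, Sb x y = Sb y x) → ‖Sb‖ ≤ Γ * σ →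
      (∀ τ : E d, inner ℝ l τ = 0 → c₀ * σ * ‖l‖ ^ 2 * ‖τ‖ ^ 2 ≤
        Sb l l * ‖τ‖ ^ 2 + Sb τ τ * ‖l‖ ^ 2) →
      Γ * σ * t₁ ≤ ε₁ * ‖l‖ → σ ≤ ε₁ * ‖l‖ ^ 2 →
      ∀ (x₀ : E d) (U : E d → ℝ), ContDiff ℝ 4 U → (∀ x, t₁ ≤ ‖x - x₀‖ → U x = 0) →
        σ * ‖l‖ ^ 2 * ∫ x, Real.exp (2 * quad l Sb (x - x₀)) * U x ^ 2 ≤
          16 / c₀ * ∫ x, Real.exp (2 * quad l Sb (x - x₀)) * lapl U x ^ 2 := by
  have hΓ4 : 0 < Γ ^ 4 := by positivity
  refine ⟨c₀ ^ 2 / (200 * Γ ^ 4 * ((d : ℝ) + 1) ^ 2), by positivity, ?_⟩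
  intro Sb l σ t₁ hσ ht₁ hS hSn h hst hσl x₀ U hU hU0
  set ε := c₀ ^ 2 / (200 * Γ ^ 4 * ((d : ℝ) + 1) ^ 2) with hεd
  have hε : 0 < ε := by positivity
  have he : ε * (200 * Γ ^ 4 * ((d : ℝ) + 1) ^ 2) ≤ c₀ ^ 2 := by
    rw [hεd, div_mul_cancel₀]
    positivity
  set N := ‖l‖ ^ 2 with hN
  have hN0 : 0 < N := by
    by_contra h1
    have h2 : ε * N ≤ 0 := mul_nonpos_of_nonneg_of_nonpos hε.le (not_lt.1 h1)
    linarith
  set q : E d → ℝ := fun x => quad l Sb (x - x₀) with hq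
  have cq : ContDiff ℝ 4 q := cm2_quad_contDiff Sb l x₀
  set g : E d → ℝ := fun x => Real.exp (q x) * U x with hg
  have cg : ContDiff ℝ 4 g := cq.exp.mul hU
  have hg0 : ∀ x, t₁ ≤ ‖x - x₀‖ → g x = 0 := by
    intro x hx
    rw [hg]
    simp only []
    rw [hU0 x hx, mul_zero]
  have hgK : ∀ x, x ∉ Metric.closedBall x₀ t₁ → g x = 0 := by
    intro x hx
    rw [mem_closedBall_iff_norm, not_le] at hx
    exact hg0 x hx.le
  have hgs : HasCompactSupport g :=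
    HasCompactSupport.intro (isCompact_closedBall x₀ t₁) hgK
  have hts : tsupport g ⊆ Metric.closedBall x₀ t₁ := by
    refine closure_minimal ?_ Metric.isClosed_closedBall
    intro x hx
    by_contra h1
    exact hx (hgK x h1)
  obtain ⟨I1, I2⟩ := carleman_identity Sb hS l x₀ g cg hgs
  -- continuity and supports
  have hp : ∀ i, ContDiff ℝ 3 (pd i g) := fun i => li2_pd_contDiff cg (by norm_num) i
  have hpp : ∀ i j, ContDiff ℝ 2 (pd i (pd j g)) := fun i j =>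
    li2_pd_contDiff (hp j) (by norm_num) i
  have cp : ∀ i, Continuous (pd i g) := fun i => (hp i).continuous
  have cpp : ∀ i j, Continuous (pd i (pd j g)) := fun i j => (hpp i j).continuous
  have ca : ∀ i, Continuous (fun x : E d => l i + Sb (x - x₀) (eb i)) := by
    intro i
    have : Continuous (fun x : E d => (Sb.flip (eb i)) (x - x₀)) :=
      (Sb.flip (eb i)).continuous.comp (continuous_id.sub continuous_const)
    exact continuous_const.add this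
  have z0 : ∀ x, x ∉ tsupport g → g x = 0 := fun x hx => image_eq_zero_of_notMem_tsupport hx
  have t1 : ∀ i, tsupport (pd i g) ⊆ tsupport g := fun i => tsupport_fderiv_apply_subset ℝ (eb i)
  have t2 : ∀ i j, tsupport (pd i (pd j g)) ⊆ tsupport g := fun i j =>
    (tsupport_fderiv_apply_subset ℝ (eb i)).trans (t1 j)
  have z1 : ∀ i x, x ∉ tsupport g → pd i g x = 0 := fun i x hx =>
    image_eq_zero_of_notMem_tsupport fun h => hx (t1 i h)
  have z2 : ∀ i j x, x ∉ tsupport g → pd i (pd j g) x = 0 := fun i j x hx =>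
    image_eq_zero_of_notMem_tsupport fun h => hx (t2 i j h)
  have zl : ∀ x, x ∉ tsupport g → lapl g x = 0 := by
    intro x hx
    unfold lapl
    exact Finset.sum_eq_zero fun i _ => z2 i i x hx
  have cl : Continuous (lapl g) := by
    unfold lapl
    exact continuous_finsetSum _ fun i _ => cpp i i
  have ig : ∀ F : E d → ℝ, Continuous F → (∀ x, x ∉ tsupport g → F x = 0) → Integrable F := by
    intro F hF hF0
    exact hF.integrable_of_hasCompactSupport (HasCompactSupport.intro hgs.isCompact hF0)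
  have cg' : Continuous g := cg.continuous
  have k1 : Continuous fun x => ∑ i, (l i + Sb (x - x₀) (eb i)) ^ 2 :=
    continuous_finsetSum _ fun i _ => (ca i).pow 2
  have k2 : Continuous fun x => ∑ i, (l i + Sb (x - x₀) (eb i)) * pd i g x :=
    continuous_finsetSum _ fun i _ => (ca i).mul (cp i)
  have k3 : Continuous fun x => ∑ i, ∑ j, Sb (eb i) (eb j) * pd i g x * pd j g x :=
    continuous_finsetSum _ fun i _ => continuous_finsetSum _ fun j _ =>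
      (continuous_const.mul (cp i)).mul (cp j)
  have k4 : Continuous fun x => ∑ i, ∑ j, Sb (eb i) (eb j) * (l i + Sb (x - x₀) (eb i)) *
      (l j + Sb (x - x₀) (eb j)) :=
    continuous_finsetSum _ fun i _ => continuous_finsetSum _ fun j _ =>
      (continuous_const.mul (ca i)).mul (ca j)
  set T := ∑ i, Sb (eb i) (eb i) with hT
  set A : E d → ℝ := fun x => lapl g x + (∑ i, (l i + Sb (x - x₀) (eb i)) ^ 2) * g x with hA
  set B : E d → ℝ := fun x => -2 * (∑ i, (l i + Sb (x - x₀) (eb i)) * pd i g x) - T * g x with hB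
  set Q : E d → ℝ := fun x => (∑ i, ∑ j, Sb (eb i) (eb j) * pd i g x * pd j g x) +
        (∑ i, ∑ j, Sb (eb i) (eb j) * (l i + Sb (x - x₀) (eb i)) * (l j + Sb (x - x₀) (eb j))) *
          g x ^ 2 with hQ
  set P2 : E d → ℝ := fun x => ∑ i, pd i g x ^ 2 with hP2
  set R : E d → ℝ := fun x => (∑ i, (l i + Sb (x - x₀) (eb i)) ^ 2) * g x ^ 2 - A x * g x with hR
  have cA : Continuous A := cl.add (k1.mul cg')
  have cB : Continuous B := (continuous_const.mul k2).sub (continuous_const.mul cg')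
  have zA : ∀ x, x ∉ tsupport g → A x = 0 := by
    intro x hx
    simp only [hA]
    rw [zl x hx, z0 x hx]
    simp
  have zB : ∀ x, x ∉ tsupport g → B x = 0 := by
    intro x hx
    simp only [hB, z1 _ x hx]
    rw [z0 x hx]
    simp
  have iAB2 : Integrable fun x => A x ^ 2 + B x ^ 2 :=
    ig _ ((cA.pow 2).add (cB.pow 2)) fun x hx => by rw [zA x hx, zB x hx]; simp
  have iAB : Integrable fun x => A x * B x :=
    ig _ (cA.mul cB) fun x hx => by rw [zA x hx]; simp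
  have iQ : Integrable Q := by
    refine ig _ (k3.add (k4.mul (cg'.pow 2))) fun x hx => ?_
    simp only [hQ, z0 x hx, z1 _ x hx]
    simp
  have iP2 : Integrable P2 := by
    refine ig _ (continuous_finsetSum _ fun i _ => (cp i).pow 2) fun x hx => ?_
    simp only [hP2, z1 _ x hx]
    simp
  have iR : Integrable R := by
    refine ig _ ((k1.mul (cg'.pow 2)).sub (cA.mul cg')) fun x hx => ?_
    simp only [hR]
    rw [z0 x hx]
    simp
  have ig2 : Integrable fun x => g x ^ 2 := by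
    refine ig _ (cg'.pow 2) fun x hx => ?_
    rw [z0 x hx]
    simp
  set κ := Sb l l / N - c₀ * σ / 2 with hκ
  -- the integral of the square
  have J1 : ∫ x, (A x + B x) ^ 2 = ∫ x, ((A x ^ 2 + B x ^ 2) + 4 * Q x + 4 * κ * (P2 x - R x)) := by
    have e1 : (fun x => (A x + B x) ^ 2) = fun x => (A x ^ 2 + B x ^ 2) + 2 * (A x * B x) := by
      funext x
      ring
    rw [e1, integral_add iAB2 (iAB.const_mul 2), integral_const_mul]
    have i4 : Integrable fun x => 4 * Q x := iQ.const_mul 4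
    have i5 : Integrable fun x => 4 * κ * (P2 x - R x) := (iP2.sub iR).const_mul (4 * κ)
    have i6 : Integrable fun x => (A x ^ 2 + B x ^ 2) + 4 * Q x := iAB2.add i4
    rw [integral_add i6 i5, integral_add iAB2 i4, integral_const_mul,
      integral_const_mul, integral_sub iP2 iR]
    have e2 : 2 * ∫ x, A x * B x = 4 * ∫ x, Q x := I1
    have e3 : ∫ x, P2 x = ∫ x, R x := I2
    rw [e2, e3]
    ring
  -- pointwise
  have J2 : ∀ x, c₀ * σ * N * g x ^ 2 ≤ (A x ^ 2 + B x ^ 2) + 4 * Q x + 4 * κ * (P2 x - R x) := by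
    intro x
    by_cases hx : x ∈ tsupport g
    · have hxt : ‖x - x₀‖ ≤ t₁ := by
        have := hts hx
        rwa [mem_closedBall_iff_norm] at this
      set a : E d := WithLp.toLp 2 (fun i => l i + Sb (x - x₀) (eb i)) with ha
      set P : E d := WithLp.toLp 2 (fun i => pd i g x) with hPd
      have hai : ∀ i, a i = l i + Sb (x - x₀) (eb i) := fun i => rfl
      have hPi : ∀ i, P i = pd i g x := fun i => rfl
      have haw : ‖a - l‖ ≤ ε * ‖l‖ := by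
        set w := a - l with hw
        have hwi : ∀ i, w i = Sb (x - x₀) (eb i) := by
          intro i
          rw [hw, PiLp.sub_apply, hai]
          ring
        have h1 : ‖w‖ ^ 2 = Sb (x - x₀) w := by
          rw [cm2_norm_sq]
          conv_rhs => rw [cm2_expand w]
          rw [map_sum]
          apply Finset.sum_congr rfl
          intro i _
          rw [map_smul, smul_eq_mul, ← hwi, sq]
        have h2 : Sb (x - x₀) w ≤ Γ * σ * ‖x - x₀‖ * ‖w‖ :=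
          (le_abs_self _).trans (cm2_abs Sb hSn _ _)
        have h3 : ‖w‖ ^ 2 ≤ (ε * ‖l‖) * ‖w‖ := by
          rw [h1]
          refine h2.trans ?_
          apply mul_le_mul_of_nonneg_right _ (norm_nonneg _)
          refine le_trans ?_ hst
          have : 0 ≤ Γ * σ := by positivity
          exact mul_le_mul_of_nonneg_left hxt this
        by_cases hw0 : ‖w‖ = 0
        · rw [hw0]
          positivity
        · have hw1 : 0 < ‖w‖ := lt_of_le_of_ne (norm_nonneg _) (Ne.symm hw0)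
          rw [sq] at h3
          exact le_of_mul_le_mul_right h3 hw1
      have hBx : B x = -2 * inner ℝ a P - (∑ i, Sb (eb i) (eb i)) * g x := by
        rw [cm2_inner]
      have key := cm2_pointwise hc hc1 hΓ hσ hε he Sb l a hN hN0 hS hSn h haw hσl P (A x) (B x)
        (g x) hBx
      have e1 : Q x = Sb P P + Sb a a * g x ^ 2 := by
        rw [cm2_form Sb P, cm2_form Sb a]
      have e2 : P2 x = ‖P‖ ^ 2 := by
        rw [cm2_norm_sq]
      have e3 : R x = ‖a‖ ^ 2 * g x ^ 2 - A x * g x := by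
        rw [cm2_norm_sq a]
      rw [e1, e2, e3]
      exact key
    · have e1 : Q x = 0 := by
        simp only [hQ, z0 x hx, z1 _ x hx]
        simp
      have e2 : P2 x = 0 := by
        simp only [hP2, z1 _ x hx]
        simp
      have e3 : R x = 0 := by
        simp only [hR]
        rw [z0 x hx]
        simp
      rw [e1, e2, e3, zA x hx, zB x hx, z0 x hx]
      simp
  have J3 : c₀ * σ * N * ∫ x, g x ^ 2 ≤ ∫ x, (A x + B x) ^ 2 := by
    rw [J1, ← integral_const_mul]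
    refine integral_mono (ig2.const_mul _) ?_ J2
    exact (iAB2.add (iQ.const_mul 4)).add ((iP2.sub iR).const_mul (4 * κ))
  have J4 : ∀ x, A x + B x = Real.exp (q x) * lapl U x := fun x => cm2_conj Sb hS l x₀ U hU x
  have J5 : ∫ x, (A x + B x) ^ 2 = ∫ x, Real.exp (2 * quad l Sb (x - x₀)) * lapl U x ^ 2 := by
    congr 1
    funext x
    rw [J4, mul_pow, ← Real.exp_nat_mul]
    simp [hq]
  have J6 : ∫ x, g x ^ 2 = ∫ x, Real.exp (2 * quad l Sb (x - x₀)) * U x ^ 2 := by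
    congr 1
    funext x
    rw [hg]
    simp only []
    rw [mul_pow, ← Real.exp_nat_mul]
    simp [hq]
  rw [J5, J6] at J3
  have hnn : 0 ≤ ∫ x, Real.exp (2 * quad l Sb (x - x₀)) * lapl U x ^ 2 :=
    integral_nonneg fun x => by positivity
  rw [div_mul_eq_mul_div, le_div_iff₀ hc]
  nlinarith [J3, hnn]

end Pool.Agent.Lib.MP_566bac_pr.Hd
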