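import Pool.Agent.Lib.MP_566bac_pr.Hd.CE1

/-!
# Positive density of the cluster in a sequence of balls
-/

open Finset MeasureTheory ProbabilityTheory Filter
open scoped Classical

namespace Pool.Agent.Lib.MP_566bac_pr.Hd

variable {d : ℕ}

theorem DE_mem_cube {w x : Vtx d} {n : ℕ} : x ∈ cube w n ↔ ∀ i, w i ≤ x i ∧ x i < w i + n := by
  unfold cube
  rw [Fintype.mem_piFinset]
  simp only [Finset.mem_Ico]

/-- subdivision of a cube -/
theorem DE_cubes (w : Vtx d) (n q : ℕ) (p : Vtx d → Prop) :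
    ∑ u : Fin d → Fin q, ((cube (w + fun i => (n : ℤ) * ((u i : ℕ) : ℤ)) n).filter p).card
      ≤ ((cube w (n * q)).filter p).card := by
  rw [← Finset.card_biUnion]
  · apply Finset.card_le_card
    intro x hx
    obtain ⟨u, -, hx⟩ := Finset.mem_biUnion.mp hx
    rw [Finset.mem_filter, DE_mem_cube] at hx ⊢
    refine ⟨fun i => ?_, hx.2⟩
    have h1 := hx.1 i
    simp only [Pi.add_apply] at h1
    have h2 : (u i : ℕ) + 1 ≤ q := (u i).2
    have h3 : (n : ℤ) * (((u i : ℕ) : ℤ) + 1) ≤ n * q := by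
      apply mul_le_mul_of_nonneg_left _ (by positivity)
      exact_mod_cast h2
    have h4 : 0 ≤ (n : ℤ) * ((u i : ℕ) : ℤ) := by positivity
    push_cast
    constructor
    · linarith [h1.1]
    · linarith [h1.2]
  · intro u _ u' _ hne
    rw [Function.onFun, Finset.disjoint_left]
    intro x hx hx'
    apply hne
    rw [Finset.mem_filter, DE_mem_cube] at hx hx'
    funext i
    have h1 := hx.1 i
    have h2 := hx'.1 i
    simp only [Pi.add_apply] at h1 h2
    have h3 : (n : ℤ) * ((u i : ℕ) : ℤ) < n * (((u' i : ℕ) : ℤ) + 1) := by linarith [h1.1, h2.2]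
    have h4 : (n : ℤ) * ((u' i : ℕ) : ℤ) < n * (((u i : ℕ) : ℤ) + 1) := by linarith [h2.1, h1.2]
    have hn : (0 : ℤ) ≤ n := by positivity
    have h5 := lt_of_mul_lt_mul_left h3 hn
    have h6 := lt_of_mul_lt_mul_left h4 hn
    apply Fin.ext
    omega

/-- density of the cluster in one box -/
theorem DE_box {c : ℕ} {CL θ₀ : ℝ} {A k : ℕ} (hA : 12 * k ≤ A) (hk : 1 ≤ k)
    (hθ : 0 < θ₀) {η : Conf d} {M : ℕ} (hM : 2 / θ₀ ≤ M) (hM1 : 1 ≤ M) {z : Vtx d}
    (hz : Grid (M ^ A) z) {a θ : ℝ} {φ : Fin d → Vtx d → ℝ}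
    (h : LocData c CL θ₀ A k η M z a θ φ) :
    θ₀ / 2 * ((M : ℝ) ^ A) ^ d ≤ (((cube z (M ^ A)).filter (Far η (6 * M))).card : ℝ) := by
  set n' : ℕ := M ^ (A - 6 * k) with hn'
  set q : ℕ := M ^ (6 * k) with hq
  have hnq : n' * q = M ^ A := by
    rw [hn', hq, ← pow_add]
    congr 1
    omega
  have hMr : (1 : ℝ) ≤ M := by exact_mod_cast hM1
  have hnqr : (n' : ℝ) * q = (M : ℝ) ^ A := by exact_mod_cast hnq
  set w : (Fin d → Fin q) → Vtx d := fun u => z + fun i => (n' : ℤ) * ((u i : ℕ) : ℤ) with hw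
  have hq1 : 1 ≤ q := Nat.one_le_pow _ _ hM1
  have hn1 : 1 ≤ n' := Nat.one_le_pow _ _ hM1
  set X : (Fin d → Fin q) → ℝ := fun u => (((cube (w u) n').filter (Far η (6 * M))).card : ℝ) with hX
  have h1 : ∑ u, X u ≤ (((cube z (M ^ A)).filter (Far η (6 * M))).card : ℝ) := by
    have h0 := DE_cubes z n' q (Far η (6 * M))
    rw [hnq] at h0
    have h01 : ((∑ u : Fin d → Fin q, ((cube (w u) n').filter (Far η (6 * M))).card : ℕ) : ℝ)
        ≤ (((cube z (M ^ A)).filter (Far η (6 * M))).card : ℝ) := Nat.cast_le.mpr h0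
    rw [Nat.cast_sum] at h01
    exact h01
  have hn'r : ((n' : ℕ) : ℝ) = (M : ℝ) ^ (A - 6 * k) := by
    rw [hn']
    push_cast
    rfl
  -- the sum of squares
  have h2 : ∑ u, (X u - θ * (n' : ℝ) ^ d) ^ 2 ≤
      (n' : ℝ) ^ d * ((M : ℝ) ^ A) ^ d / (M : ℝ) ^ (20 * k) := by
    have h3 := h.dens
    rw [← hn'r] at h3
    refine le_trans ?_ h3
    have hinj : Function.Injective w := by
      intro u u' huu
      funext i
      have h4 := congrFun huu i
      simp only [hw, Pi.add_apply] at h4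
      have h5 : (n' : ℤ) * ((u i : ℕ) : ℤ) = n' * ((u' i : ℕ) : ℤ) := by linarith
      have h6 : (n' : ℤ) ≠ 0 := by
        have : (1 : ℤ) ≤ n' := by exact_mod_cast hn1
        omega
      have h7 := mul_left_cancel₀ h6 h5
      apply Fin.ext
      exact_mod_cast h7
    rw [← Finset.sum_image (f := fun y => ((((cube y n').filter (Far η (6 * M))).card : ℝ)
      - θ * (n' : ℝ) ^ d) ^ 2) (g := w) (s := Finset.univ) (fun u _ u' _ h => hinj h)]
    apply Finset.sum_le_sum_of_subset_of_nonneg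
    · intro y hy
      obtain ⟨u, -, rfl⟩ := Finset.mem_image.mp hy
      rw [Finset.mem_filter, mem_Lam, BAS_le_iff]
      constructor
      · intro i
        simp only [hw, Pi.add_apply, add_sub_cancel_left]
        rw [Int.natAbs_mul, Int.natAbs_natCast, Int.natAbs_natCast]
        have h4 : (u i : ℕ) ≤ q := (u i).2.le
        calc n' * (u i : ℕ) ≤ n' * q := Nat.mul_le_mul_left _ h4
          _ = M ^ A := hnq
          _ ≤ 5 * M ^ A := by omega
      · intro i
        simp only [hw, Pi.add_apply]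
        apply dvd_add
        · refine dvd_trans ?_ (hz i)
          rw [← hnq]
          push_cast
          exact Dvd.intro _ rfl
        · exact Dvd.intro _ rfl
    · intro y _ _
      positivity
  -- Cauchy-Schwarz
  have h3 : (∑ u, (X u - θ * (n' : ℝ) ^ d)) ^ 2 ≤ (((M : ℝ) ^ A) ^ d / (M : ℝ) ^ (10 * k)) ^ 2 := by
    have h4 := sq_sum_le_card_mul_sum_sq (s := (Finset.univ : Finset (Fin d → Fin q)))
      (f := fun u => X u - θ * (n' : ℝ) ^ d)
    refine h4.trans ?_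
    rw [Finset.card_univ, Fintype.card_fun, Fintype.card_fin, Fintype.card_fin]
    have h5 : ((q ^ d : ℕ) : ℝ) * ∑ u, (X u - θ * (n' : ℝ) ^ d) ^ 2 ≤
        ((q ^ d : ℕ) : ℝ) * ((n' : ℝ) ^ d * ((M : ℝ) ^ A) ^ d / (M : ℝ) ^ (20 * k)) :=
      mul_le_mul_of_nonneg_left h2 (by positivity)
    refine h5.trans (le_of_eq ?_)
    have e1 : (M : ℝ) ^ (20 * k) = ((M : ℝ) ^ (10 * k)) ^ 2 := by
      rw [← pow_mul]
      congr 1
      ring
    push_cast
    rw [← hnqr, div_pow, e1]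
    ring
  have h4 : |∑ u, (X u - θ * (n' : ℝ) ^ d)| ≤ ((M : ℝ) ^ A) ^ d / (M : ℝ) ^ (10 * k) :=
    abs_le_of_sq_le_sq h3 (by positivity)
  have h5 : ∑ u, (X u - θ * (n' : ℝ) ^ d) = ∑ u, X u - θ * ((M : ℝ) ^ A) ^ d := by
    rw [Finset.sum_sub_distrib, Finset.sum_const, Finset.card_univ, Fintype.card_fun,
      Fintype.card_fin, Fintype.card_fin, nsmul_eq_mul, ← hnqr]
    push_cast
    ring
  rw [h5, abs_le] at h4
  have h6 : ((M : ℝ) ^ A) ^ d / (M : ℝ) ^ (10 * k) ≤ θ₀ / 2 * ((M : ℝ) ^ A) ^ d := by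
    rw [div_le_iff₀ (by positivity)]
    have h7 : (M : ℝ) ≤ (M : ℝ) ^ (10 * k) := by
      calc (M : ℝ) = (M : ℝ) ^ 1 := (pow_one _).symm
        _ ≤ (M : ℝ) ^ (10 * k) := pow_le_pow_right₀ hMr (by omega)
    have h8 : 1 ≤ θ₀ / 2 * (M : ℝ) ^ (10 * k) := by
      have h9 : 1 ≤ θ₀ / 2 * M := by
        rw [div_le_iff₀ hθ] at hM
        linarith
      have h10 : θ₀ / 2 * (M : ℝ) ≤ θ₀ / 2 * (M : ℝ) ^ (10 * k) :=
        mul_le_mul_of_nonneg_left h7 (by positivity)
      linarith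
    have h9 : (0 : ℝ) ≤ ((M : ℝ) ^ A) ^ d := by positivity
    nlinarith
  have h7 : θ₀ * ((M : ℝ) ^ A) ^ d ≤ θ * ((M : ℝ) ^ A) ^ d :=
    mul_le_mul_of_nonneg_right h.t_low (by positivity)
  linarith [h4.1]

/-! ### DE: positive density -/
theorem density_region (d c : ℕ) (hd : 1 ≤ d) (CL θ₀ : ℝ) (A k : ℕ) (hk : 1 ≤ k) (hA : 12 * k ≤ A)
    (hθ : 0 < θ₀) (hCL : 0 < CL) (η : Conf d) (C0 : Set (Vtx d)) (M₀ : ℕ)
    (hE : Env c CL θ₀ A k η C0 M₀) (K : ℝ) (hK : 2 ≤ K) (x₁ : E d) (δ : ℝ) (hδ : 0 < δ)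
    (P : Set (Vtx d)) (hP : ∃ m₀ : ℕ, ∀ m : ℕ, m₀ ≤ m → ∀ y ∈ C0,
      ‖(K ^ m)⁻¹ • toE y - x₁‖ ≤ δ → y ∈ P) :
    HasPositiveDensity (C0 ∩ P) := by
  obtain ⟨m₀, hP⟩ := hP
  set B : ℕ := A + 5 * k with hB
  set Rx : ℝ := ‖x₁‖ + δ with hRx
  have hRx0 : 0 < Rx := by positivity
  have hK0 : (0 : ℝ) < K := by linarith
  have hd1 : (0 : ℝ) < (d : ℝ) + 1 := by positivity
  -- the constant
  set c₀ : ℝ := θ₀ / 2 * (δ / (6 * ((d : ℝ) + 1) * (Rx * K))) ^ d with hc₀
  have hc₀0 : 0 < c₀ := by positivity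
  have hball : ∀ N : ℕ, ball d N = ((Lam 0 N : Finset (Vtx d)) : Set (Vtx d)) := by
    intro N
    ext x
    simp only [ball, Set.mem_ofPred_eq, Finset.mem_coe, mem_Lam, BAS_le_iff]
    apply forall_congr'
    intro i
    simp only [Pi.zero_apply, sub_zero]
    rw [Int.abs_eq_natAbs]
    exact Nat.cast_le
  have hbcard : ∀ N : ℕ, ((ball d N).ncard : ℝ) = ((2 * N + 1 : ℕ) : ℝ) ^ d := by
    intro N
    rw [hball, Set.ncard_coe_finset, card_Lam]
    push_cast
    rfl
  -- the main claim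
  have hmain : ∀ᶠ N : ℕ in atTop, c₀ ≤ (((C0 ∩ P) ∩ ball d N).ncard : ℝ) / ((ball d N).ncard : ℝ) := by
    -- thresholds
    obtain ⟨M₁, hM₁⟩ : ∃ M₁ : ℕ, ∀ M : ℕ, M₁ ≤ M → 1 ≤ M ∧ M₀ ≤ M ∧ 2 / θ₀ ≤ M ∧
        2 * ((d : ℝ) + 1) * (Rx * K) / δ ≤ M := by
      refine ⟨max (max 1 M₀) (max ⌈2 / θ₀⌉₊ ⌈2 * ((d : ℝ) + 1) * (Rx * K) / δ⌉₊), fun M hM => ?_⟩
      have a1 := le_trans (le_max_left _ _) hM
      have a2 := le_trans (le_max_right _ _) hM
      have a3 := le_trans (le_max_left _ _) a1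
      have a4 := le_trans (le_max_right _ _) a1
      have a5 := le_trans (le_max_left _ _) a2
      have a6 := le_trans (le_max_right _ _) a2
      exact ⟨a3, a4, (Nat.le_ceil _).trans (by exact_mod_cast a5),
        (Nat.le_ceil _).trans (by exact_mod_cast a6)⟩
    have hev1 : ∀ᶠ N : ℕ in atTop, (M₁ + 1) ^ B ≤ N := eventually_ge_atTop _
    have hev2 : ∀ᶠ N : ℕ in atTop, Rx * K ^ (m₀ + 1) ≤ (N : ℝ) := by
      filter_upwards [eventually_ge_atTop ⌈Rx * K ^ (m₀ + 1)⌉₊] with N hN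
      exact (Nat.le_ceil _).trans (by exact_mod_cast hN)
    have hev3 : ∀ᶠ N : ℕ in atTop, Rx ≤ (N : ℝ) := by
      filter_upwards [eventually_ge_atTop ⌈Rx⌉₊] with N hN
      exact (Nat.le_ceil _).trans (by exact_mod_cast hN)
    filter_upwards [hev1, hev2, hev3, eventually_ge_atTop 1] with N hN1 hN2 hN3 hN4
    have hNr : (1 : ℝ) ≤ N := by exact_mod_cast hN4
    -- choice of m
    obtain ⟨m, hm1, hm2⟩ := exists_nat_pow_near (x := (N : ℝ) / Rx) (y := K)
      (by rw [le_div_iff₀ hRx0]; linarith) (by linarith)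
    have hmm : m₀ ≤ m := by
      by_contra hlt
      push Not at hlt
      have h1 : K ^ (m + 1) ≤ K ^ (m₀ + 1) := pow_le_pow_right₀ (by linarith) (by omega)
      have h2 : K ^ (m₀ + 1) ≤ (N : ℝ) / Rx := by
        rw [le_div_iff₀ hRx0]
        linarith
      linarith
    have hKm : (0 : ℝ) < K ^ m := by positivity
    have hKm1 : K ^ m * Rx ≤ N := by rwa [le_div_iff₀ hRx0] at hm1
    have hKm2 : (N : ℝ) < K ^ m * (Rx * K) := by
      rw [div_lt_iff₀ hRx0, pow_succ] at hm2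
      linarith
    -- choice of M
    obtain ⟨M, hMa, hMb⟩ : ∃ M : ℕ, M ^ B ≤ N ∧ N < (M + 1) ^ B := by
      have hex : ∃ M : ℕ, N < (M + 1) ^ B := by
        refine ⟨N, ?_⟩
        calc N < N + 1 := Nat.lt_succ_self N
          _ = (N + 1) ^ 1 := (pow_one _).symm
          _ ≤ (N + 1) ^ B := Nat.pow_le_pow_right (by omega) (by omega)
      refine ⟨Nat.find hex, ?_, Nat.find_spec hex⟩
      rcases Nat.eq_zero_or_pos (Nat.find hex) with h0 | h0
      · rw [h0, zero_pow (by omega)]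
        omega
      · have h1 := Nat.find_min hex (m := Nat.find hex - 1) (by omega)
        push Not at h1
        rw [Nat.sub_add_cancel h0] at h1
        exact h1
    have hMM : M₁ ≤ M := by
      by_contra hlt
      push Not at hlt
      have h1 : (M + 1) ^ B ≤ (M₁ + 1) ^ B := Nat.pow_le_pow_left (by omega) B
      omega
    obtain ⟨hM1, hM2, hM3, hM4⟩ := hM₁ M hMM
    have hMr : (1 : ℝ) ≤ M := by exact_mod_cast hM1
    set s : ℕ := M ^ A with hs
    have hs1 : 1 ≤ s := Nat.one_le_pow _ _ hM1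
    have hsr : (1 : ℝ) ≤ s := by exact_mod_cast hs1
    have hs0 : (0 : ℝ) < s := by linarith
    have hssr : (s : ℝ) = (M : ℝ) ^ A := by rw [hs]; push_cast; rfl
    set ρ : ℝ := δ * K ^ m / (d + 1) with hρ
    have hρ0 : 0 < ρ := by positivity
    -- `2 s ≤ ρ`
    have hsρ : 2 * (s : ℝ) ≤ ρ := by
      have h1 : (s : ℝ) * M ≤ N := by
        have h2 : M ^ A * M ≤ N := by
          calc M ^ A * M = M ^ (A + 1) := (pow_succ _ _).symm
            _ ≤ M ^ B := Nat.pow_le_pow_right hM1 (by omega)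
            _ ≤ N := hMa
        rw [hs]
        exact_mod_cast h2
      rw [hρ, le_div_iff₀ hd1]
      rw [div_le_iff₀ hδ] at hM4
      have h3 : (s : ℝ) * (2 * ((d : ℝ) + 1) * (Rx * K)) ≤ s * (M * δ) :=
        mul_le_mul_of_nonneg_left hM4 hs0.le
      have h4 : (s : ℝ) * (M * δ) ≤ N * δ := by
        have := mul_le_mul_of_nonneg_right h1 hδ.le
        linarith
      have h5 : (N : ℝ) * δ ≤ K ^ m * (Rx * K) * δ := mul_le_mul_of_nonneg_right hKm2.le hδ.le
      have h6 : (2 * (s : ℝ) * (d + 1)) * (Rx * K) ≤ (δ * K ^ m) * (Rx * K) := by linarith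
      exact le_of_mul_le_mul_right h6 (by positivity)
    set nb : ℕ := ⌊ρ / s⌋₊ with hnb
    have hnb1 : (nb : ℝ) ≤ ρ / s := Nat.floor_le (by positivity)
    have hnb2 : ρ / s < nb + 1 := Nat.lt_floor_add_one _
    have hnb3 : (nb : ℝ) * s ≤ ρ := by rwa [le_div_iff₀ hs0] at hnb1
    have hnb4 : ρ / 2 ≤ nb * s := by
      rw [div_lt_iff₀ hs0] at hnb2
      linarith
    -- the corner
    set u₀ : Vtx d := fun i => ⌈(K ^ m * x₁ i - ρ) / s⌉ with hu₀
    set z₀ : Vtx d := fun i => (s : ℤ) * u₀ i with hz₀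
    have hz1 : ∀ i, K ^ m * x₁ i - ρ ≤ (z₀ i : ℝ) := by
      intro i
      have h1 := Int.le_ceil ((K ^ m * x₁ i - ρ) / s)
      rw [div_le_iff₀ hs0] at h1
      simp only [hz₀, hu₀]
      push_cast
      linarith
    have hz2 : ∀ i, (z₀ i : ℝ) ≤ K ^ m * x₁ i - ρ + s := by
      intro i
      have h1 := (Int.ceil_lt_add_one ((K ^ m * x₁ i - ρ) / s)).le
      have h2 : (s : ℝ) * ⌈(K ^ m * x₁ i - ρ) / s⌉ ≤ s * ((K ^ m * x₁ i - ρ) / s + 1) :=
        mul_le_mul_of_nonneg_left h1 hs0.le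
      rw [mul_add, mul_div_cancel₀ _ hs0.ne', mul_one] at h2
      simp only [hz₀, hu₀]
      push_cast
      linarith
    -- all points of the large cube
    have hbig : ∀ y ∈ cube z₀ (s * nb), ‖(K ^ m)⁻¹ • (toE y : E d) - x₁‖ ≤ δ ∧ dst y 0 ≤ N := by
      intro y hy
      rw [DE_mem_cube] at hy
      have h1 : ∀ i, |(y i : ℝ) - K ^ m * x₁ i| ≤ ρ := by
        intro i
        have h2 := hy i
        have h3 : (z₀ i : ℝ) ≤ y i := by exact_mod_cast h2.1
        have h4 : (y i : ℝ) < z₀ i + (s * nb : ℕ) := by exact_mod_cast h2.2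
        push_cast at h4
        have := hz1 i
        have := hz2 i
        rw [abs_le]
        constructor
        · linarith
        · linarith
      have h2 : ‖(toE y : E d) - K ^ m • x₁‖ ≤ δ * K ^ m := by
        rw [EuclideanSpace.norm_eq]
        apply Real.sqrt_le_iff.mpr
        refine ⟨by positivity, ?_⟩
        have h3 : ∀ i ∈ (Finset.univ : Finset (Fin d)),
            ‖((toE y : E d) - K ^ m • x₁) i‖ ^ 2 ≤ ρ ^ 2 := by
          intro i _
          have h4 : ‖((toE y : E d) - K ^ m • x₁) i‖ = |(y i : ℝ) - K ^ m * x₁ i| := by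
            simp [toE]
          rw [h4]
          exact pow_le_pow_left₀ (abs_nonneg _) (h1 i) 2
        refine (Finset.sum_le_sum h3).trans ?_
        rw [Finset.sum_const, Finset.card_univ, Fintype.card_fin, nsmul_eq_mul]
        have h5 : δ * K ^ m = ρ * (d + 1) := by
          rw [hρ, div_mul_cancel₀ _ hd1.ne']
        rw [h5]
        have hd0 : (0 : ℝ) ≤ d := by positivity
        nlinarith [sq_nonneg ρ, mul_nonneg hd0 hd0]
      have h3 : ‖(K ^ m)⁻¹ • (toE y : E d) - x₁‖ ≤ δ := by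
        have h4 : (K ^ m)⁻¹ • (toE y : E d) - x₁ = (K ^ m)⁻¹ • ((toE y : E d) - K ^ m • x₁) := by
          rw [smul_sub, smul_smul, inv_mul_cancel₀ hKm.ne', one_smul]
        rw [h4, norm_smul, norm_inv, Real.norm_eq_abs, abs_of_pos hKm]
        rw [inv_mul_le_iff₀ hKm]
        linarith
      refine ⟨h3, ?_⟩
      have h4 : ‖(toE y : E d)‖ ≤ N := by
        have h5 : ‖(toE y : E d)‖ ≤ ‖(toE y : E d) - K ^ m • x₁‖ + ‖K ^ m • x₁‖ := by
          have := norm_add_le ((toE y : E d) - K ^ m • x₁) (K ^ m • x₁)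
          rwa [sub_add_cancel] at this
        have h6 : ‖K ^ m • x₁‖ = K ^ m * ‖x₁‖ := by
          rw [norm_smul, Real.norm_eq_abs, abs_of_pos hKm]
        have h7 : K ^ m * Rx = δ * K ^ m + K ^ m * ‖x₁‖ := by rw [hRx]; ring
        linarith
      rw [BAS_le_iff]
      intro i
      have h5 := (CE1_coord_le y i).trans h4
      have h6 : (((y i).natAbs : ℕ) : ℝ) ≤ (N : ℝ) := by
        rw [Nat.cast_natAbs]
        push_cast
        exact h5
      have h7 : (y i).natAbs ≤ N := by exact_mod_cast h6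
      simpa using h7
    have hN7 : N ≤ 7 * (M + 2) ^ B := by
      have h1 : (M + 1) ^ B ≤ (M + 2) ^ B := Nat.pow_le_pow_left (by omega) B
      omega
    -- the small cubes
    have hsmall : ∀ J : Fin d → Fin nb, θ₀ / 2 * (s : ℝ) ^ d ≤
        (((cube (z₀ + fun i => (s : ℤ) * ((J i : ℕ) : ℤ)) s).filter (Far η (6 * M))).card : ℝ) := by
      intro J
      set z : Vtx d := z₀ + fun i => (s : ℤ) * ((J i : ℕ) : ℤ) with hz
      have hzG : Grid (M ^ A) z := by
        intro i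
        simp only [hz, hz₀, Pi.add_apply]
        rw [← hs]
        exact dvd_add (Dvd.intro _ rfl) (Dvd.intro _ rfl)
      have hzc : z ∈ cube z₀ (s * nb) := by
        rw [DE_mem_cube]
        intro i
        simp only [hz, Pi.add_apply]
        have h1 : ((J i : ℕ) : ℤ) + 1 ≤ nb := by exact_mod_cast (J i).2
        have h2 : (s : ℤ) * (((J i : ℕ) : ℤ) + 1) ≤ s * nb :=
          mul_le_mul_of_nonneg_left h1 (by positivity)
        have h3 : 0 ≤ (s : ℤ) * ((J i : ℕ) : ℤ) := by positivity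
        have h4 : (1 : ℤ) ≤ s := by exact_mod_cast hs1
        push_cast
        constructor
        · linarith
        · linarith
      have hzN := (hbig z hzc).2
      obtain ⟨a, θ, φ, hloc⟩ := hE.loc M hM2 z hzG (by
        rw [← hB]
        omega)
      have h1 := DE_box hA hk hθ hM3 hM1 hzG hloc
      rw [← hssr, ← hs] at h1
      exact h1
    have hcount : θ₀ / 2 * (ρ / 2) ^ d ≤ (((cube z₀ (s * nb)).filter (Far η (6 * M))).card : ℝ) := by
      have h1 := DE_cubes z₀ s nb (Far η (6 * M))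
      have h2 : (∑ J : Fin d → Fin nb, (((cube (z₀ + fun i => (s : ℤ) * ((J i : ℕ) : ℤ)) s).filter
          (Far η (6 * M))).card : ℝ)) ≤ (((cube z₀ (s * nb)).filter (Far η (6 * M))).card : ℝ) := by
        exact_mod_cast h1
      refine le_trans ?_ h2
      refine le_trans ?_ (Finset.sum_le_sum fun J _ => hsmall J)
      rw [Finset.sum_const, Finset.card_univ, Fintype.card_fun, Fintype.card_fin, Fintype.card_fin,
        nsmul_eq_mul]
      push_cast
      have h3 : (ρ / 2) ^ d ≤ ((nb : ℝ) * s) ^ d := pow_le_pow_left₀ (by positivity) hnb4 d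
      rw [mul_pow] at h3
      have h4 := mul_le_mul_of_nonneg_left h3 (by positivity : 0 ≤ θ₀ / 2)
      linarith
    have hsub : (((cube z₀ (s * nb)).filter (Far η (6 * M)) : Finset (Vtx d)) : Set (Vtx d)) ⊆
        (C0 ∩ P) ∩ ball d N := by
      intro y hy
      rw [Finset.mem_coe, Finset.mem_filter] at hy
      obtain ⟨h1, h2⟩ := hbig y hy.1
      have h3 : y ∈ C0 := (hE.mem M hM2 y (by rw [← hB]; omega)).mpr hy.2
      refine ⟨⟨h3, hP m hmm y h3 h1⟩, ?_⟩
      rw [hball, Finset.mem_coe, mem_Lam]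
      exact h2
    have hfin : ((C0 ∩ P) ∩ ball d N).Finite := by
      apply Set.Finite.subset (s := ball d N) _ Set.inter_subset_right
      rw [hball]
      exact Finset.finite_toSet _
    have h8 : (((cube z₀ (s * nb)).filter (Far η (6 * M))).card : ℝ) ≤
        (((C0 ∩ P) ∩ ball d N).ncard : ℝ) := by
      have := Set.ncard_le_ncard hsub hfin
      rw [Set.ncard_coe_finset] at this
      exact_mod_cast this
    rw [hbcard, le_div_iff₀ (by positivity)]
    refine le_trans ?_ (hcount.trans h8)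
    rw [hc₀, mul_assoc, ← mul_pow]
    apply mul_le_mul_of_nonneg_left _ (by positivity)
    apply pow_le_pow_left₀ (by positivity)
    have h9 : ((2 * N + 1 : ℕ) : ℝ) ≤ 3 * (K ^ m * (Rx * K)) := by
      push_cast
      linarith
    have hRK : 0 < Rx * K := by positivity
    calc δ / (6 * ((d : ℝ) + 1) * (Rx * K)) * ((2 * N + 1 : ℕ) : ℝ)
        ≤ δ / (6 * ((d : ℝ) + 1) * (Rx * K)) * (3 * (K ^ m * (Rx * K))) :=
          mul_le_mul_of_nonneg_left h9 (by positivity)
      _ = ρ / 2 := by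
          rw [hρ]
          field_simp
          ring
  unfold HasPositiveDensity
  refine lt_of_lt_of_le hc₀0 (le_liminf_of_le ?_ hmain)
  apply IsBoundedUnder.isCoboundedUnder_ge
  refine ⟨1, ?_⟩
  rw [eventually_map]
  filter_upwards with N
  apply div_le_one_of_le₀
  · have hfin : (ball d N).Finite := by
      rw [hball]
      exact Finset.finite_toSet _
    exact_mod_cast Set.ncard_le_ncard Set.inter_subset_right hfin
  · positivity

end Pool.Agent.Lib.MP_566bac_pr.Hd
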