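import Pool.Agent.Lib.MP_566bac_pr.Hd.DefsC
import Pool.Agent.Lib.MP_566bac_pr.Hd.LP

/-!
# Duality
-/

open Finset MeasureTheory ProbabilityTheory Filter
open scoped Classical Topology

namespace Pool.Agent.Lib.MP_566bac_pr.Hd

variable {d : ℕ}

theorem DU_lap_add (η : Conf d) (v w : Vtx d → ℝ) (y : Vtx d) :
    Lap η (fun x => v x + w x) y = Lap η v y + Lap η w y := by
  unfold Lap
  rw [← Finset.sum_add_distrib]
  refine Finset.sum_congr rfl fun j _ => ?_
  split_ifs <;> ring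

theorem DU_lap_smul (η : Conf d) (c : ℝ) (v : Vtx d → ℝ) (y : Vtx d) :
    Lap η (fun x => c * v x) y = c * Lap η v y := by
  unfold Lap
  rw [Finset.mul_sum]
  refine Finset.sum_congr rfl fun j _ => ?_
  split_ifs <;> ring

theorem DU_lap_ne (η : Conf d) (v : Vtx d → ℝ) (y : Vtx d) (h : Lap η v y ≠ 0) :
    ∃ x, v x ≠ 0 ∧ y ∈ Lam x 1 ∧ x ∈ Lam y 1 := by
  by_contra hne
  push Not at hne
  apply h
  unfold Lap
  refine Finset.sum_eq_zero fun j _ => ?_
  have h0 : v y = 0 := by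
    by_contra h1
    exact hne y h1 (LP_self_mem y) (LP_self_mem y)
  have h1 : v (y + ev j) = 0 := by
    by_contra h2
    refine hne _ h2 ?_ (LP_add_mem y j)
    have := LP_sub_mem (y + ev j) j
    rwa [add_sub_cancel_right] at this
  have h2 : v (y - ev j) = 0 := by
    by_contra h3
    refine hne _ h3 ?_ (LP_sub_mem y j)
    have := LP_add_mem (y - ev j) j
    rwa [sub_add_cancel] at this
  rw [h0, h1, h2]
  simp

theorem DU_lap_finite (η : Conf d) {v : Vtx d → ℝ} (hv : (Function.support v).Finite) :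
    (Function.support (Lap η v)).Finite := by
  refine Set.Finite.subset (hv.toFinset.biUnion fun x => Lam x 1).finite_toSet ?_
  intro y hy
  obtain ⟨x, hx, hyx, _⟩ := DU_lap_ne η v y hy
  simp only [Finset.coe_biUnion, Set.mem_iUnion]
  exact ⟨x, by simpa using hx, hyx⟩

theorem DU_lap_out (η : Conf d) (C0 : Set (Vtx d))
    (hcl : ∀ x j, η x j → (x ∈ C0 ↔ x + ev j ∈ C0)) {v : Vtx d → ℝ} (hv : ∀ y, y ∉ C0 → v y = 0)
    (y : Vtx d) (hy : y ∉ C0) : Lap η v y = 0 := by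
  unfold Lap
  refine Finset.sum_eq_zero fun j _ => ?_
  have h1 : (if η y j then v (y + ev j) - v y else 0) = 0 := by
    split_ifs with h
    · rw [hv y hy, hv (y + ev j) (fun hc => hy ((hcl y j h).2 hc)), sub_zero]
    · rfl
  have h2 : (if η (y - ev j) j then v (y - ev j) - v y else 0) = 0 := by
    split_ifs with h
    · rw [hv y hy, hv (y - ev j) (fun hc => hy (by
        have := (hcl _ j h).1 hc
        rwa [sub_add_cancel] at this)), sub_zero]
    · rfl
  rw [h1, h2, add_zero]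

/-- the energy of the Laplacian -/
noncomputable def DU_b (η : Conf d) (WB : Vtx d → ℝ) (v : Vtx d → ℝ) : ℝ :=
  ∑ᶠ y, WB y * Lap η v y ^ 2

theorem DU_b_finite (η : Conf d) (WB : Vtx d → ℝ) {v : Vtx d → ℝ}
    (hv : (Function.support v).Finite) :
    (Function.support fun y => WB y * Lap η v y ^ 2).Finite := by
  refine (DU_lap_finite η hv).subset ?_
  intro y hy h0
  exact hy (by simp [h0])

theorem DU_b_single (η : Conf d) {WB : Vtx d → ℝ} (hB : ∀ y, 0 < WB y) {v : Vtx d → ℝ}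
    (hv : (Function.support v).Finite) (y : Vtx d) : WB y * Lap η v y ^ 2 ≤ DU_b η WB v :=
  single_le_finsum y (DU_b_finite η WB hv) fun z => mul_nonneg (hB z).le (sq_nonneg _)

theorem DU_b_nonneg (η : Conf d) {WB : Vtx d → ℝ} (hB : ∀ y, 0 < WB y) (v : Vtx d → ℝ) :
    0 ≤ DU_b η WB v :=
  finsum_nonneg fun z => mul_nonneg (hB z).le (sq_nonneg _)

theorem DU_b_smul (η : Conf d) (WB : Vtx d → ℝ) (c : ℝ) (v : Vtx d → ℝ)
    (hv : (Function.support v).Finite) :
    DU_b η WB (fun x => c * v x) = c ^ 2 * DU_b η WB v := by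
  unfold DU_b
  rw [mul_finsum]
  refine finsum_congr fun y => ?_
  rw [DU_lap_smul]
  ring

/-! ### the non coercive case -/

theorem DU_compact (η : Conf d) (C0 : Set (Vtx d)) (W1 WB : Vtx d → ℝ) (h1 : ∀ y, 0 < W1 y)
    (hB : ∀ y, 0 < WB y) (B0 : Finset (Vtx d)) (hC : Carl η C0 W1 WB B0)
    (hn : ¬ ∃ K : ℝ, ∀ v : Vtx d →₀ ℝ, (∀ y, y ∉ C0 → v y = 0) →
      ∑ y ∈ v.support, W1 y * v y ^ 2 ≤ K * DU_b η WB v) :
    ∃ v : Vtx d → ℝ, (∃ y, v y ≠ 0) ∧ (∀ y, y ∉ C0 → v y = 0) ∧ (∀ y, Lap η v y = 0) ∧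
      ∃ K : ℝ, ∀ y, W1 y * v y ^ 2 ≤ K := by
  push Not at hn
  -- normalised sequence
  have hseq : ∀ n : ℕ, ∃ u : Vtx d → ℝ, (Function.support u).Finite ∧ (∀ y, y ∉ C0 → u y = 0) ∧
      (∀ S : Finset (Vtx d), (∀ y, y ∉ S → u y = 0) → ∑ y ∈ S, W1 y * u y ^ 2 = 1) ∧
      DU_b η WB u ≤ 1 / (n + 1) := by
    intro n
    obtain ⟨v, hv, hlt⟩ := hn (n + 1)
    set a := ∑ y ∈ v.support, W1 y * v y ^ 2 with ha
    have hb0 : 0 ≤ DU_b η WB v := DU_b_nonneg η hB v
    have ha0 : 0 < a := lt_of_le_of_lt (by positivity) hlt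
    have hsq : (√a)⁻¹ ^ 2 = a⁻¹ := by rw [inv_pow, Real.sq_sqrt ha0.le]
    refine ⟨fun x => (√a)⁻¹ * v x, ?_, ?_, ?_, ?_⟩
    · refine v.hasFiniteSupport.subset ?_
      intro y hy h0
      exact hy (by simp [h0])
    · intro y hy
      simp [hv y hy]
    · intro S hS
      have h2 : ∑ y ∈ S, W1 y * v y ^ 2 = a := by
        rw [ha]
        symm
        refine Finset.sum_subset ?_ ?_
        · intro y hy
          by_contra hyS
          have h3 := hS y hyS
          rw [Finsupp.mem_support_iff] at hy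
          have h4 : (√a)⁻¹ ≠ 0 := inv_ne_zero (Real.sqrt_pos.2 ha0).ne'
          exact (mul_ne_zero h4 hy) h3
        · intro y _ hy
          rw [Finsupp.notMem_support_iff] at hy
          simp [hy]
      have h3 : ∀ y, W1 y * ((√a)⁻¹ * v y) ^ 2 = a⁻¹ * (W1 y * v y ^ 2) := by
        intro y
        rw [mul_pow, hsq]
        ring
      simp only [h3]
      rw [← Finset.mul_sum, h2, inv_mul_cancel₀ ha0.ne']
    · rw [DU_b_smul _ _ _ _ v.hasFiniteSupport, hsq]
      rw [inv_mul_le_iff₀ ha0, mul_one_div, le_div_iff₀ (by positivity)]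
      linarith
  choose u hfin hout hnorm hbu using hseq
  -- bounds
  have hW : ∀ n y, W1 y * u n y ^ 2 ≤ 1 := by
    intro n y
    have h2 := hnorm n (insert y (hfin n).toFinset) (fun z hz => by
      by_contra h3
      exact hz (Finset.mem_insert_of_mem (by simpa using h3)))
    rw [← h2]
    exact Finset.single_le_sum (f := fun z => W1 z * u n z ^ 2)
      (fun z _ => mul_nonneg (h1 z).le (sq_nonneg _)) (Finset.mem_insert_self _ _)
  have hcomp : IsCompact (Set.univ.pi fun y : Vtx d => Set.Icc (-√(1 / W1 y)) (√(1 / W1 y))) :=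
    isCompact_univ_pi fun y => isCompact_Icc
  have hmem : ∀ n, u n ∈ Set.univ.pi fun y : Vtx d => Set.Icc (-√(1 / W1 y)) (√(1 / W1 y)) := by
    intro n y _
    rw [Set.mem_Icc, ← abs_le]
    apply Real.abs_le_sqrt
    rw [le_div_iff₀ (h1 y)]
    linarith [hW n y]
  obtain ⟨v, _, φ, hφ, hlim⟩ := hcomp.tendsto_subseq hmem
  have hpt : ∀ y, Tendsto (fun n => u (φ n) y) atTop (𝓝 (v y)) := fun y =>
    (tendsto_pi_nhds.1 hlim) y
  have hlapc : ∀ y, Tendsto (fun n => Lap η (u (φ n)) y) atTop (𝓝 (Lap η v y)) := by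
    intro y
    unfold Lap
    refine tendsto_finsetSum _ fun j _ => ?_
    refine Tendsto.add ?_ ?_
    · split_ifs
      · exact (hpt _).sub (hpt _)
      · exact tendsto_const_nhds
    · split_ifs
      · exact (hpt _).sub (hpt _)
      · exact tendsto_const_nhds
  have hb0 : Tendsto (fun n => DU_b η WB (u (φ n))) atTop (𝓝 0) := by
    refine squeeze_zero (fun n => DU_b_nonneg η hB _) (fun n => hbu (φ n)) ?_
    exact (tendsto_one_div_add_atTop_nhds_zero_nat).comp hφ.tendsto_atTop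
  obtain ⟨C, hC⟩ := hC
  refine ⟨v, ?_, ?_, ?_, 1, ?_⟩
  · -- nonzero
    by_contra hne
    push Not at hne
    have h2 : ∀ n, (1 : ℝ) ≤ C * DU_b η WB (u (φ n)) + C * ∑ y ∈ B0, u (φ n) y ^ 2 := by
      intro n
      have hS : ∀ y, y ∉ (hfin (φ n)).toFinset → u (φ n) y = 0 := fun y hy => by
        simpa using hy
      have h3 := hC (hfin (φ n)).toFinset (u (φ n)) hS (hout (φ n))
      rw [hnorm (φ n) _ hS] at h3
      exact h3
    have h3 : Tendsto (fun n => C * DU_b η WB (u (φ n)) + C * ∑ y ∈ B0, u (φ n) y ^ 2) atTop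
        (𝓝 (C * 0 + C * ∑ y ∈ B0, v y ^ 2)) :=
      (hb0.const_mul C).add ((tendsto_finsetSum _ fun y _ => (hpt y).pow 2).const_mul C)
    have h4 := ge_of_tendsto' h3 h2
    simp [hne] at h4
    linarith
  · intro y hy
    refine tendsto_nhds_unique (hpt y) ?_
    simp only [hout _ y hy]
    exact tendsto_const_nhds
  · intro y
    have h2 : Tendsto (fun n => WB y * Lap η (u (φ n)) y ^ 2) atTop
        (𝓝 (WB y * Lap η v y ^ 2)) := ((hlapc y).pow 2).const_mul _
    have h3 : Tendsto (fun n => WB y * Lap η (u (φ n)) y ^ 2) atTop (𝓝 0) :=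
      squeeze_zero (fun n => mul_nonneg (hB y).le (sq_nonneg _))
        (fun n => DU_b_single η hB (hfin _) y) hb0
    have h4 := tendsto_nhds_unique h2 h3
    rcases mul_eq_zero.1 h4 with h5 | h5
    · exact absurd h5 (hB y).ne'
    · exact pow_eq_zero_iff (two_ne_zero) |>.1 h5
  · intro y
    exact le_of_tendsto' (((hpt y).pow 2).const_mul (W1 y)) fun n => hW _ y

/-! ### the coercive case -/

/-- the operator into `ℓ²` -/
noncomputable def DU_T (η : Conf d) (C0 : Set (Vtx d)) (WB : Vtx d → ℝ) :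
    (Finsupp.supported ℝ ℝ C0) →ₗ[ℝ] lp (fun _ : Vtx d => ℝ) 2 where
  toFun v := ⟨fun y => √(WB y) * Lap η (v : Vtx d →₀ ℝ) y, by
    refine (memℓp_zero ?_).of_exponent_ge (by simp)
    refine (DU_lap_finite η (v : Vtx d →₀ ℝ).hasFiniteSupport).subset ?_
    intro y hy h0
    exact hy (by simp [h0])⟩
  map_add' v w := by
    ext y
    simp only [lp.coeFn_add, Pi.add_apply]
    rw [← mul_add, ← DU_lap_add]
    rfl
  map_smul' c v := by
    ext y
    simp only [lp.coeFn_smul, Pi.smul_apply, RingHom.id_apply, smul_eq_mul]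
    have : Lap η (((c • v : Finsupp.supported ℝ ℝ C0) : Vtx d →₀ ℝ) : Vtx d → ℝ) y =
        c * Lap η ((v : Vtx d →₀ ℝ) : Vtx d → ℝ) y := by
      rw [← DU_lap_smul]
      rfl
    rw [this]
    ring

theorem DU_T_apply (η : Conf d) (C0 : Set (Vtx d)) (WB : Vtx d → ℝ)
    (v : Finsupp.supported ℝ ℝ C0) (y : Vtx d) :
    (DU_T η C0 WB v : Vtx d → ℝ) y = √(WB y) * Lap η (v : Vtx d →₀ ℝ) y := rfl

theorem DU_T_norm (η : Conf d) (C0 : Set (Vtx d)) {WB : Vtx d → ℝ} (hB : ∀ y, 0 < WB y)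
    (v : Finsupp.supported ℝ ℝ C0) : ‖DU_T η C0 WB v‖ ^ 2 = DU_b η WB (v : Vtx d →₀ ℝ) := by
  rw [← real_inner_self_eq_norm_sq, lp.inner_eq_tsum]
  have h1 : ∀ y, inner ℝ ((DU_T η C0 WB v : Vtx d → ℝ) y) ((DU_T η C0 WB v : Vtx d → ℝ) y) =
      WB y * Lap η (v : Vtx d →₀ ℝ) y ^ 2 := by
    intro y
    rw [DU_T_apply, real_inner_self_eq_norm_sq, Real.norm_eq_abs, sq_abs, mul_pow,
      Real.sq_sqrt (hB y).le]
  simp only [h1]
  rw [tsum_eq_finsum (DU_b_finite η WB (v : Vtx d →₀ ℝ).hasFiniteSupport)]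
  rfl

theorem DU_coercive (η : Conf d) (C0 : Set (Vtx d))
    (hcl : ∀ x j, η x j → (x ∈ C0 ↔ x + ev j ∈ C0))
    (W1 WB : Vtx d → ℝ) (h1 : ∀ y, 0 < W1 y) (hB : ∀ y, 0 < WB y) (K : ℝ)
    (hK : ∀ v : Vtx d →₀ ℝ, (∀ y, y ∉ C0 → v y = 0) →
      ∑ y ∈ v.support, W1 y * v y ^ 2 ≤ K * DU_b η WB v)
    (f : Vtx d → ℝ) (hf : f.support.Finite) :
    ∃ w : Vtx d → ℝ, (∀ y ∈ C0, Lap η w y = f y) ∧ (∀ y, y ∉ C0 → w y = 0) ∧
      ∃ K : ℝ, ∀ y, w y ^ 2 ≤ K * WB y := by
  set T := DU_T η C0 WB with hT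
  have hsupp : ∀ (v : Finsupp.supported ℝ ℝ C0) (y : Vtx d), y ∉ C0 → (v : Vtx d →₀ ℝ) y = 0 := by
    intro v y hy
    by_contra h2
    exact hy (((Finsupp.mem_supported ℝ _).1 v.2) (by simpa using h2))
  have hK' : ∀ (v : Finsupp.supported ℝ ℝ C0) (y : Vtx d),
      |(v : Vtx d →₀ ℝ) y| ≤ √(|K| / W1 y) * ‖T v‖ := by
    intro v y
    have h2 := hK v (hsupp v)
    rw [← DU_T_norm η C0 hB v, ← hT] at h2
    have h3 : W1 y * (v : Vtx d →₀ ℝ) y ^ 2 ≤ |K| * ‖T v‖ ^ 2 := by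
      have h4 : W1 y * (v : Vtx d →₀ ℝ) y ^ 2 ≤
          ∑ y ∈ (v : Vtx d →₀ ℝ).support, W1 y * (v : Vtx d →₀ ℝ) y ^ 2 := by
        by_cases hy : y ∈ (v : Vtx d →₀ ℝ).support
        · exact Finset.single_le_sum (f := fun y => W1 y * (v : Vtx d →₀ ℝ) y ^ 2)
            (fun z _ => mul_nonneg (h1 z).le (sq_nonneg _)) hy
        · rw [Finsupp.notMem_support_iff] at hy
          rw [hy]
          simp only [ne_eq, OfNat.ofNat_ne_zero, not_false_eq_true, zero_pow, mul_zero]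
          exact Finset.sum_nonneg fun z _ => mul_nonneg (h1 z).le (sq_nonneg _)
      refine h4.trans (h2.trans ?_)
      exact mul_le_mul_of_nonneg_right (le_abs_self K) (sq_nonneg _)
    have h5 : (v : Vtx d →₀ ℝ) y ^ 2 ≤ (|K| / W1 y) * ‖T v‖ ^ 2 := by
      rw [div_mul_eq_mul_div, le_div_iff₀ (h1 y)]
      linarith
    calc |(v : Vtx d →₀ ℝ) y| ≤ √((|K| / W1 y) * ‖T v‖ ^ 2) := Real.abs_le_sqrt h5
      _ = √(|K| / W1 y) * ‖T v‖ := by
          rw [Real.sqrt_mul (div_nonneg (abs_nonneg _) (h1 y).le), Real.sqrt_sq (norm_nonneg _)]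
  have hinj : Function.Injective T := by
    rw [injective_iff_map_eq_zero]
    intro v hv
    ext y
    have h2 := hK' v y
    rw [hv, norm_zero, mul_zero] at h2
    simpa using h2
  set φ : (Finsupp.supported ℝ ℝ C0) →ₗ[ℝ] ℝ :=
    { toFun := fun v => ∑ y ∈ hf.toFinset, f y * (v : Vtx d →₀ ℝ) y
      map_add' := fun v w => by
        rw [← Finset.sum_add_distrib]
        refine Finset.sum_congr rfl fun y _ => ?_
        simp [mul_add]
      map_smul' := fun c v => by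
        simp only [RingHom.id_apply, smul_eq_mul]
        rw [Finset.mul_sum]
        refine Finset.sum_congr rfl fun y _ => ?_
        simp
        ring } with hφ
  have hφb : ∀ v, |φ v| ≤ (∑ y ∈ hf.toFinset, |f y| * √(|K| / W1 y)) * ‖T v‖ := by
    intro v
    have h2 : φ v = ∑ y ∈ hf.toFinset, f y * (v : Vtx d →₀ ℝ) y := rfl
    rw [h2, Finset.sum_mul]
    refine (Finset.abs_sum_le_sum_abs _ _).trans (Finset.sum_le_sum fun y _ => ?_)
    rw [abs_mul, mul_assoc]
    exact mul_le_mul_of_nonneg_left (hK' v y) (abs_nonneg _)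
  set e := LinearEquiv.ofInjective T hinj with he
  have hee : ∀ x : LinearMap.range T, T (e.symm x) = x := by
    intro x
    have h2 : e (e.symm x) = x := e.apply_symm_apply x
    have h3 : ((e (e.symm x) : LinearMap.range T) : lp (fun _ : Vtx d => ℝ) 2) =
        T (e.symm x) := rfl
    rw [← h3, h2]
  set ψ := (φ.comp e.symm.toLinearMap).mkContinuous
    (∑ y ∈ hf.toFinset, |f y| * √(|K| / W1 y)) (fun x => by
      have h2 := hφb (e.symm x)
      rw [hee x] at h2
      simpa using h2) with hψ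
  obtain ⟨g, hg, _⟩ := exists_extension_norm_eq (LinearMap.range T) ψ
  set u := (InnerProductSpace.toDual ℝ (lp (fun _ : Vtx d => ℝ) 2)).symm g with hu
  have hgu : ∀ v, inner ℝ u (T v) = φ v := by
    intro v
    rw [hu, InnerProductSpace.toDual_symm_apply]
    have h2 := hg ⟨T v, LinearMap.mem_range_self T v⟩
    rw [h2]
    have h3 : e.symm ⟨T v, LinearMap.mem_range_self T v⟩ = v := by
      rw [LinearEquiv.symm_apply_eq]
      rfl
    simp only [hψ, LinearMap.mkContinuous_apply, LinearMap.comp_apply,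
      LinearEquiv.coe_coe, h3]
  refine ⟨fun y => if y ∈ C0 then √(WB y) * (u : Vtx d → ℝ) y else 0, ?_, ?_, ‖u‖ ^ 2, ?_⟩
  · intro y hy
    set w : Vtx d → ℝ := fun y => if y ∈ C0 then √(WB y) * (u : Vtx d → ℝ) y else 0 with hw
    set v : Finsupp.supported ℝ ℝ C0 := ⟨Finsupp.single y 1, by
      rw [Finsupp.mem_supported]
      refine (Finset.coe_subset.2 Finsupp.support_single_subset).trans ?_
      simpa using hy⟩ with hv
    set ψ' : Vtx d → ℝ := fun x => (Finsupp.single y (1 : ℝ)) x with hψ'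
    have hvψ : ((v : Vtx d →₀ ℝ) : Vtx d → ℝ) = ψ' := rfl
    have hparts := lap_parts' (η := η) (Lam y 1) w ψ' (fun z hz => by
      have : z = y := by
        by_contra h2
        exact hz (by simp [hψ', Finsupp.single_apply, Ne.symm h2])
      rw [this])
    have hL : ∑ z ∈ Lam y 1, Lap η w z * ψ' z = Lap η w y := by
      rw [Finset.sum_eq_single y]
      · simp [hψ']
      · intro z _ hz
        simp [hψ', Finsupp.single_apply, Ne.symm hz]
      · intro h2
        exact absurd (LP_self_mem y) h2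
    rw [← hL, hparts]
    have h2 := hgu v
    rw [lp.inner_eq_tsum] at h2
    have h3 : ∀ z, inner ℝ ((u : Vtx d → ℝ) z) ((T v : Vtx d → ℝ) z) =
        w z * Lap η ψ' z := by
      intro z
      have h4 : (T v : Vtx d → ℝ) z = √(WB z) * Lap η ψ' z := rfl
      rw [h4]
      by_cases hz : z ∈ C0
      · simp only [hw, if_pos hz]
        have h6 : ∀ a b : ℝ, inner ℝ a b = a * b := fun a b => by simp [mul_comm]
        rw [h6]
        ring
      · have h5 : Lap η ψ' z = 0 := DU_lap_out η C0 hcl (fun x hx => by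
          have : x ≠ y := fun h => hx (h ▸ hy)
          simp [hψ', Finsupp.single_apply, Ne.symm this]) z hz
        rw [h5]
        simp
    simp only [h3] at h2
    rw [tsum_eq_sum (s := Lam y 1)] at h2
    · rw [h2]
      have h4 : φ v = ∑ z ∈ hf.toFinset, f z * ψ' z := rfl
      rw [h4]
      by_cases hyf : y ∈ hf.toFinset
      · rw [Finset.sum_eq_single y]
        · simp [hψ']
        · intro z _ hz
          simp [hψ', Finsupp.single_apply, Ne.symm hz]
        · intro h5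
          exact absurd hyf h5
      · have h5 : f y = 0 := by simpa using hyf
        rw [h5]
        refine Finset.sum_eq_zero fun z hz => ?_
        have : y ≠ z := fun h => hyf (h ▸ hz)
        simp [hψ', Finsupp.single_apply, this]
    · intro z hz
      have h4 : Lap η ψ' z = 0 := by
        by_contra h5
        obtain ⟨x, hx, hzx, _⟩ := DU_lap_ne η ψ' z h5
        have : x = y := by
          by_contra h6
          exact hx (by simp [hψ', Finsupp.single_apply, Ne.symm h6])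
        exact hz (this ▸ hzx)
      rw [h4, mul_zero]
  · intro y hy
    simp [hy]
  · intro y
    simp only
    have h2 : |(u : Vtx d → ℝ) y| ≤ ‖u‖ := lp.norm_apply_le_norm two_ne_zero u y
    split_ifs
    · rw [mul_pow, Real.sq_sqrt (hB y).le]
      have h3 : (u : Vtx d → ℝ) y ^ 2 ≤ ‖u‖ ^ 2 := sq_le_sq' (by linarith [abs_le.1 h2])
        (abs_le.1 h2).2
      nlinarith [hB y]
    · rw [zero_pow two_ne_zero]
      exact mul_nonneg (sq_nonneg _) (hB y).le

theorem duality (η : Conf d) (C0 : Set (Vtx d)) (hcl : ∀ x j, η x j → (x ∈ C0 ↔ x + ev j ∈ C0))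
    (W1 WB : Vtx d → ℝ) (h1 : ∀ y, 0 < W1 y) (hB : ∀ y, 0 < WB y) (B0 : Finset (Vtx d))
    (hC : Carl η C0 W1 WB B0) :
    (∃ v : Vtx d → ℝ, (∃ y, v y ≠ 0) ∧ (∀ y, y ∉ C0 → v y = 0) ∧ (∀ y, Lap η v y = 0) ∧
      ∃ K : ℝ, ∀ y, W1 y * v y ^ 2 ≤ K) ∨
    ∀ f : Vtx d → ℝ, f.support.Finite → (∀ y, y ∉ C0 → f y = 0) → ∃ w : Vtx d → ℝ,
      (∀ y ∈ C0, Lap η w y = f y) ∧ (∀ y, y ∉ C0 → w y = 0) ∧
        ∃ K : ℝ, ∀ y, w y ^ 2 ≤ K * WB y := by
  by_cases hP : ∃ K : ℝ, ∀ v : Vtx d →₀ ℝ, (∀ y, y ∉ C0 → v y = 0) →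
      ∑ y ∈ v.support, W1 y * v y ^ 2 ≤ K * DU_b η WB v
  · obtain ⟨K, hK⟩ := hP
    right
    intro f hf _
    exact DU_coercive η C0 hcl W1 WB h1 hB K hK f hf
  · left
    exact DU_compact η C0 W1 WB h1 hB B0 hC hP

end Pool.Agent.Lib.MP_566bac_pr.Hd
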