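import Mathlib

/-!
# Bond percolation on `ℤ^d`: definitions used in the proof for `d ≥ 3`
-/

open Finset
open scoped Classical

namespace Pool.Agent.Lib.MP_566bac_pr.Hd

variable {d : ℕ}

/-- the vertices -/
abbrev Vtx (d : ℕ) := Fin d → ℤ

/-- the unit vector in direction `j` -/
def ev (j : Fin d) : Vtx d := Pi.single j 1

/-- A configuration: `η x j` says that the edge between `x` and `x + ev j` is open. -/
abbrev Conf (d : ℕ) := Vtx d → Fin d → Prop

/-- the graph of the open edges -/
def G (η : Conf d) : SimpleGraph (Vtx d) where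
  Adj x y := ∃ j, (y = x + ev j ∧ η x j) ∨ (x = y + ev j ∧ η y j)
  symm := ⟨fun x y ⟨j, h⟩ => ⟨j, h.symm⟩⟩
  loopless := ⟨fun x ⟨j, h⟩ => by
    have h1 : x = x + ev j := by rcases h with h | h <;> exact h.1
    have h2 := congrFun h1 j
    simp [ev] at h2⟩

/-- the distance of the maximum norm -/
def dst (x y : Vtx d) : ℕ := Finset.univ.sup fun i => (x i - y i).natAbs

/-- the box of radius `n` centred at `z` -/
noncomputable def Lam (z : Vtx d) (n : ℕ) : Finset (Vtx d) :=
  Fintype.piFinset fun i => Finset.Icc (z i - n) (z i + n)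

/-- the graph restricted to `W` -/
def res (H : SimpleGraph (Vtx d)) (W : Set (Vtx d)) : SimpleGraph (Vtx d) where
  Adj x y := H.Adj x y ∧ x ∈ W ∧ y ∈ W
  symm := ⟨fun _ _ h => ⟨h.1.symm, h.2.2, h.2.1⟩⟩
  loopless := ⟨fun x h => H.loopless.irrefl x h.1⟩

/-- `x` and `y` are joined by an open path in `W`. -/
def Conn (η : Conf d) (W : Finset (Vtx d)) (x y : Vtx d) : Prop :=
  x ∈ W ∧ y ∈ W ∧ (res (G η) (W : Set (Vtx d))).Reachable x y

/-- `x` is connected in `Lam z n` to its boundary. -/
def Arm (η : Conf d) (z : Vtx d) (n : ℕ) (x : Vtx d) : Prop :=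
  ∃ y, dst y z = n ∧ Conn η (Lam z n) x y

/-- `y` is connected to distance `n`. -/
def Far (η : Conf d) (n : ℕ) (y : Vtx d) : Prop := Arm η y n y

/-- good boxes -/
def Good (η : Conf d) (n : ℕ) (z : Vtx d) : Prop :=
  (∃ x ∈ Lam z n, Arm η z (10 * n) x) ∧
    ∀ x ∈ Lam z (2 * n), ∀ y ∈ Lam z (2 * n), Arm η z (4 * n) x → Arm η z (4 * n) y →
      Conn η (Lam z (8 * n)) x y

/-- gradient -/
def grad (f : Vtx d → ℝ) (x : Vtx d) (j : Fin d) : ℝ := f (x + ev j) - f x

/-- Dirichlet energy of `f` on the open edges in `W` -/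
noncomputable def En (η : Conf d) (W : Finset (Vtx d)) (f : Vtx d → ℝ) : ℝ :=
  ∑ x ∈ W, ∑ j, if η x j ∧ x + ev j ∈ W then (grad f x j) ^ 2 else 0

/-- Laplace operator of the open graph -/
noncomputable def Lap (η : Conf d) (f : Vtx d → ℝ) (x : Vtx d) : ℝ :=
  ∑ j, ((if η x j then f (x + ev j) - f x else 0) +
    (if η (x - ev j) j then f (x - ev j) - f x else 0))

/-- points of the lattice `M ℤ^d` -/
def Grid (M : ℕ) (w : Vtx d) : Prop := ∀ i, (M : ℤ) ∣ w i

/-! ## finite product expectations -/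

/-- the weight of a configuration of independent bits -/
noncomputable def wt (p : ℝ) {ι : Type*} [Fintype ι] (ω : ι → Bool) : ℝ := ∏ i, if ω i then p else 1 - p

/-- the expectation for independent bits -/
noncomputable def Ex (p : ℝ) {ι : Type*} [Fintype ι] (f : (ι → Bool) → ℝ) : ℝ :=
  ∑ ω, wt p ω * f ω

/-- the edges of the window of radius `n` -/
abbrev Win (d n : ℕ) := {x : Vtx d // x ∈ Lam (0 : Vtx d) n} × Fin d

/-- a configuration of the window, closed outside -/
def extW {n : ℕ} (ω : Win d n → Bool) : Conf d :=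
  fun x j => ∃ h : x ∈ Lam (0 : Vtx d) n, ω (⟨x, h⟩, j) = true

/-- the probability that the box of radius `n` is not good -/
noncomputable def pbad (d : ℕ) (p : ℝ) (n : ℕ) : ℝ :=
  Ex p fun ω : Win d (10 * n) → Bool => if Good (extW ω) n 0 then 0 else 1

/-- the threshold of the finite size criterion -/
noncomputable def eps0 (d : ℕ) : ℝ := (1 / 2) * ((23 * 10 ^ 4 : ℝ) ^ (2 * d))⁻¹

/-- superpolynomial decay of the probability of a bad box -/
def Decay (d : ℕ) (p : ℝ) : Prop := ∀ q : ℕ, ∃ C : ℝ, ∀ n : ℕ, 1 ≤ n → pbad d p n ≤ C / (n : ℝ) ^ q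

/-! ## the torus -/

/-- vertices of the torus -/
abbrev Tor (N d : ℕ) := Fin d → ZMod N

/-- projection to the torus -/
def prj (N : ℕ) (x : Vtx d) : Tor N d := fun i => (x i : ZMod N)

/-- unit vector of the torus -/
def tev {N : ℕ} (j : Fin d) : Tor N d := Pi.single j 1

/-- the periodic configuration -/
def lift {N : ℕ} (o : Tor N d × Fin d → Bool) : Conf d := fun x j => o (prj N x, j) = true

/-- all blocks of the torus are good -/
def GoodT {N : ℕ} (M : ℕ) (o : Tor N d × Fin d → Bool) : Prop :=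
  ∀ w : Vtx d, Grid M w → Good (lift o) M w

/-- a representative -/
def rep {N : ℕ} (x : Tor N d) : Vtx d := fun i => ((x i).val : ℤ)

/-- giant vertices -/
def Giant {N : ℕ} (M : ℕ) (o : Tor N d × Fin d → Bool) (x : Tor N d) : Prop :=
  Far (lift o) (6 * M) (rep x)

/-! ## operators on finite graphs with numbered edges -/

section Op

variable {X I : Type*} [Fintype X] [DecidableEq X] [Fintype I] [DecidableEq I]

/-- gradient along an edge -/
def gr (src tgt : I → X) (f : X → ℝ) (e : I) : ℝ := f (tgt e) - f (src e)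

/-- the operator `μ - Δ` -/
noncomputable def Op (src tgt : I → X) (μ : ℝ) (o : I → Bool) (f : X → ℝ) (x : X) : ℝ :=
  μ * f x + ∑ e, if o e then
    ((if tgt e = x then gr src tgt f e else 0) - (if src e = x then gr src tgt f e else 0)) else 0

/-- the charge of a field -/
noncomputable def Dv (src tgt : I → X) (o : I → Bool) (Y : I → ℝ) (x : X) : ℝ :=
  ∑ e, if o e then ((if src e = x then Y e else 0) - (if tgt e = x then Y e else 0)) else 0

/-- the solution of `Op f = b` -/
noncomputable def sol (src tgt : I → X) (μ : ℝ) (o : I → Bool) (b : X → ℝ) : X → ℝ :=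
  if h : ∃ f, Op src tgt μ o f = b then h.choose else 0

/-- the field `Y + grad Ψ`, `Op Ψ = Dv Y` -/
noncomputable def Zf (src tgt : I → X) (μ : ℝ) (o : I → Bool) (Y : I → ℝ) (e : I) : ℝ :=
  Y e + gr src tgt (sol src tgt μ o (Dv src tgt o Y)) e

/-- opening or closing one edge -/
def up (o : I → Bool) (e : I) : I → Bool := Function.update o e true

def dn (o : I → Bool) (e : I) : I → Bool := Function.update o e false

/-- open path of length at most `n` between two vertices -/
def PathLe (src tgt : I → X) (o : I → Bool) (n : ℕ) (x y : X) : Prop :=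
  ∃ l : List X, l.length ≤ n ∧
    List.IsChain (fun a b => ∃ e, o e = true ∧ ((src e = a ∧ tgt e = b) ∨ (src e = b ∧ tgt e = a))) (x :: l) ∧
    (x :: l).getLast (List.cons_ne_nil x l) = y

/-- connected by open edges -/
def Rch (src tgt : I → X) (o : I → Bool) (x y : X) : Prop := ∃ n, PathLe src tgt o n x y

end Op

/-- source and target of a torus edge -/
def tsrc {N d : ℕ} (e : Tor N d × Fin d) : Tor N d := e.1

def ttgt {N d : ℕ} (e : Tor N d × Fin d) : Tor N d := e.1 + tev e.2

/-- the field `ξ_i` -/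
def xi {N d : ℕ} (i : Fin d) (e : Tor N d × Fin d) : ℝ := if e.2 = i then 1 else 0

/-- the (massive) corrector -/
noncomputable def phi {N d : ℕ} [NeZero N] (μ : ℝ) (o : Tor N d × Fin d → Bool) (i : Fin d) :
    Tor N d → ℝ :=
  sol tsrc ttgt μ o (Dv tsrc ttgt o (xi i))

/-- the flux `q_ij` -/
noncomputable def flux {N d : ℕ} [NeZero N] (μ : ℝ) (o : Tor N d × Fin d → Bool) (i j : Fin d)
    (x : Tor N d) : ℝ :=
  if o (x, j) then Zf tsrc ttgt μ o (xi i) (x, j) else 0

end Pool.Agent.Lib.MP_566bac_pr.Hd
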