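import Pool.Agent.Lib.MP_566bac_pr.Hd.Defs

/-!
# Definitions on the torus
-/

open Finset
open scoped Classical

namespace Pool.Agent.Lib.MP_566bac_pr.Hd

variable {d : ℕ}

/-- distance on the torus -/
def tdst {N : ℕ} (x y : Tor N d) : ℕ := Finset.univ.sup fun i => (x i - y i).valMinAbs.natAbs

/-- translate of a torus vertex by an integer vector -/
def tadd {N : ℕ} (x : Tor N d) (u : Vtx d) : Tor N d := x + prj N u

/-- average over the cube of side `R` with corner `x` -/
noncomputable def avg {N : ℕ} (R : ℕ) (f : Tor N d → ℝ) (x : Tor N d) : ℝ :=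
  (∑ u : Fin d → Fin R, f (tadd x fun i => (u i : ℤ))) / (R : ℝ) ^ d

/-- energy on the torus -/
noncomputable def tEn {N : ℕ} [NeZero N] (o : Tor N d × Fin d → Bool) (f : Tor N d → ℝ) : ℝ :=
  ∑ e, if o e then gr tsrc ttgt f e ^ 2 else 0

/-- Nash inequality for the functions supported in `S` -/
def Nash {N : ℕ} [NeZero N] (o : Tor N d × Fin d → Bool) (S : Set (Tor N d)) (L : ℝ) : Prop :=
  ∀ f : Tor N d → ℝ, (∀ x, x ∉ S → f x = 0) → ∀ R : ℕ, 1 ≤ R → 32 * R ≤ N →
    ∑ x, f x ^ 2 ≤ L * ((R : ℝ) ^ 2 * tEn o f + (∑ x, |f x|) ^ 2 / (R : ℝ) ^ d)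

/-- the transition operator -/
noncomputable def Pop {N : ℕ} [NeZero N] (o : Tor N d × Fin d → Bool) (f : Tor N d → ℝ) :
    Tor N d → ℝ :=
  fun x => f x - Op tsrc ttgt 0 o f x / (4 * d)

/-- the dipole potential of an edge -/
noncomputable def dip {N : ℕ} [NeZero N] (μ : ℝ) (o : Tor N d × Fin d → Bool)
    (e : Tor N d × Fin d) : Tor N d → ℝ :=
  sol tsrc ttgt μ o (fun x => (if x = tsrc e then 1 else 0) - if x = ttgt e then 1 else 0)

/-- good environments, also when one edge is changed -/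
def GoodS {N : ℕ} (M : ℕ) (o : Tor N d × Fin d → Bool) : Prop :=
  GoodT M o ∧ ∀ e, GoodT M (up o e) ∧ GoodT M (dn o e)

/-- the field of the cube of side `R` with corner `x` in direction `j` -/
noncomputable def boxY {N : ℕ} (R : ℕ) (j : Fin d) (x : Tor N d) (e : Tor N d × Fin d) : ℝ :=
  if e.2 = j then avg R (Pi.single e.1 1) x else 0

end Pool.Agent.Lib.MP_566bac_pr.Hd
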