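import Pool.Agent.Lib.MP_566bac_pr.Hd.DefsB

/-!
# Definitions: the final statement, local data, analysis in `ℝ^d`
-/

open Finset MeasureTheory ProbabilityTheory Filter
open scoped Classical

namespace Pool.Agent.Lib.MP_566bac_pr.Hd

variable {d : ℕ}

/-! ## the definitions of the final statement -/

/-- The lattice `ℤ^d`: the graph whose edges join nearest neighbours. -/
def lattice (d : ℕ) : SimpleGraph (Fin d → ℤ) where
  Adj x y := ∑ i, |x i - y i| = 1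
  symm := ⟨fun x y h => by
    rw [← h]
    exact Finset.sum_congr rfl fun i _ => abs_sub_comm _ _⟩
  loopless := ⟨fun x h => by simp at h⟩

/-- The graph of the open edges, when `S` is the set of open edges. -/
def openGraph (S : Set (Sym2 (Fin d → ℤ))) : SimpleGraph (Fin d → ℤ) where
  Adj x y := (lattice d).Adj x y ∧ s(x, y) ∈ S
  symm := ⟨fun x y h => ⟨h.1.symm, by rw [Sym2.eq_swap]; exact h.2⟩⟩
  loopless := ⟨fun x h => (lattice d).loopless.irrefl x h.1⟩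

/-- `C` is an infinite open cluster: an infinite connected component of the open graph. -/
def IsInfiniteCluster (S : Set (Sym2 (Fin d → ℤ))) (C : Set (Fin d → ℤ)) : Prop :=
  C.Infinite ∧ ∃ x, C = {y | (openGraph S).Reachable x y}

/-- `h` is harmonic on `C`. -/
def IsHarmonicOn (S : Set (Sym2 (Fin d → ℤ))) (C : Set (Fin d → ℤ)) (h : (Fin d → ℤ) → ℝ) :
    Prop :=
  ∀ x ∈ C, h x = (∑ᶠ y ∈ (openGraph S).neighborSet x, h y) /
    ((openGraph S).neighborSet x).ncard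

/-- The ball (for the maximum norm) of radius `N` centred at the origin. -/
def ball (d N : ℕ) : Set (Fin d → ℤ) := {x | ∀ i, |x i| ≤ N}

/-- The set `A` has positive density: `liminf |A ∩ B_N| / |B_N| > 0`. -/
def HasPositiveDensity (A : Set (Fin d → ℤ)) : Prop :=
  0 < liminf (fun N : ℕ => ((A ∩ ball d N).ncard : ℝ) / ((ball d N).ncard : ℝ)) atTop

/-- The critical probability: the infimum of the parameters for which an infinite open cluster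
exists with positive probability. -/
noncomputable def criticalProbability (d : ℕ) : unitInterval :=
  sInf {p : unitInterval | 0 < setBernoulli (lattice d).edgeSet p {S | ∃ C, IsInfiniteCluster S C}}

/-- the configuration of a set of open edges -/
def confS (S : Set (Sym2 (Fin d → ℤ))) : Conf d := fun x j => s(x, x + ev j) ∈ S

/-! ## local data -/

/-- the cube with corner `w` and side `n` -/
noncomputable def cube (w : Vtx d) (n : ℕ) : Finset (Vtx d) :=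
  Fintype.piFinset fun i => Finset.Ico (w i) (w i + n)

/-- the corrected coordinate -/
def uu (z : Vtx d) (φ : Fin d → Vtx d → ℝ) (i : Fin d) (y : Vtx d) : ℝ :=
  ((y i - z i : ℤ) : ℝ) + φ i y

/-- the flux on the cluster -/
noncomputable def qq (η : Conf d) (M : ℕ) (z : Vtx d) (φ : Fin d → Vtx d → ℝ) (i j : Fin d)
    (y : Vtx d) : ℝ :=
  if Far η (6 * M) y ∧ η y j then grad (uu z φ i) y j else 0

/-- Local data of homogenisation in the box of radius `7 s` around `z`; `s = M ^ A`,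
`n' = M ^ (A - 6 k)`. -/
structure LocData (c : ℕ) (CL θ₀ : ℝ) (A k : ℕ) (η : Conf d) (M : ℕ) (z : Vtx d) (a θ : ℝ)
    (φ : Fin d → Vtx d → ℝ) : Prop where
  a_low : 1 / (CL * (M : ℝ) ^ c) ≤ a
  a_le : a ≤ 1
  t_low : θ₀ ≤ θ
  t_le : θ ≤ 1
  good : ∀ w, Grid M w → dst w z ≤ 7 * M ^ A → Good η M w
  harm : ∀ i, ∀ y ∈ Lam z (6 * M ^ A), Far η (6 * M) y →
    Lap η (uu z φ i) y = φ i y / ((M : ℝ) ^ A) ^ 2
  phi_sq : ∀ i, ∑ y ∈ (Lam z (6 * M ^ A)).filter (Far η (6 * M)), φ i y ^ 2 ≤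
    ((M : ℝ) ^ A) ^ (d + 2) / (M : ℝ) ^ (20 * k)
  grad_sq : ∀ i, ∑ y ∈ (Lam z (6 * M ^ A)).filter (Far η (6 * M)), ∑ j,
    (if η y j then grad (uu z φ i) y j ^ 2 else 0) ≤ 16 ^ d * ((M : ℝ) ^ A) ^ d
  flux : ∀ i j, ∑ w ∈ (Lam z (5 * M ^ A)).filter (Grid (M ^ (A - 6 * k))),
    ((∑ y ∈ cube w (M ^ (A - 6 * k)), qq η M z φ i j y) -
      (if i = j then a else 0) * ((M : ℝ) ^ (A - 6 * k)) ^ d) ^ 2 ≤
        ((M : ℝ) ^ (A - 6 * k)) ^ d * ((M : ℝ) ^ A) ^ d / (M : ℝ) ^ (20 * k)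
  dens : ∑ w ∈ (Lam z (5 * M ^ A)).filter (Grid (M ^ (A - 6 * k))),
    ((((cube w (M ^ (A - 6 * k))).filter (Far η (6 * M))).card : ℝ) -
      θ * ((M : ℝ) ^ (A - 6 * k)) ^ d) ^ 2 ≤
        ((M : ℝ) ^ (A - 6 * k)) ^ d * ((M : ℝ) ^ A) ^ d / (M : ℝ) ^ (20 * k)

/-- there are local data -/
def Loc (c : ℕ) (CL θ₀ : ℝ) (A k : ℕ) (η : Conf d) (M : ℕ) (z : Vtx d) : Prop :=
  ∃ (a θ : ℝ) (φ : Fin d → Vtx d → ℝ), LocData c CL θ₀ A k η M z a θ φ

/-- the good event of the torus, `N = 16 M ^ A` -/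
def TGood {N : ℕ} [NeZero N] (A k : ℕ) (a θ : ℝ) (M : ℕ) (o : Tor N d × Fin d → Bool) : Prop :=
  GoodT M o ∧
  (∀ i, ∑ x, (if Giant M o x then phi (1 / ((M : ℝ) ^ A) ^ 2) o i x ^ 2 else 0) ≤
    ((M : ℝ) ^ A) ^ (d + 2) / (M : ℝ) ^ (20 * k)) ∧
  (∀ i j, ∑ w : Fin d → Fin (16 * M ^ (6 * k)),
    ((∑ u : Fin d → Fin (M ^ (A - 6 * k)),
      (if Giant M o (prj N (fun i => ((M ^ (A - 6 * k) * (w i : ℕ) + (u i : ℕ) : ℕ) : ℤ))) then
        flux (1 / ((M : ℝ) ^ A) ^ 2) o i j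
          (prj N (fun i => ((M ^ (A - 6 * k) * (w i : ℕ) + (u i : ℕ) : ℕ) : ℤ))) else 0)) -
          (if i = j then a else 0) * ((M : ℝ) ^ (A - 6 * k)) ^ d) ^ 2 ≤
      ((M : ℝ) ^ (A - 6 * k)) ^ d * ((M : ℝ) ^ A) ^ d / (M : ℝ) ^ (20 * k)) ∧
  (∑ w : Fin d → Fin (16 * M ^ (6 * k)),
    ((∑ u : Fin d → Fin (M ^ (A - 6 * k)),
      (if Giant M o (prj N (fun i => ((M ^ (A - 6 * k) * (w i : ℕ) + (u i : ℕ) : ℕ) : ℤ)))
        then 1 else 0)) - θ * ((M : ℝ) ^ (A - 6 * k)) ^ d) ^ 2 ≤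
      ((M : ℝ) ^ (A - 6 * k)) ^ d * ((M : ℝ) ^ A) ^ d / (M : ℝ) ^ (20 * k))

/-- the window of side `N` whose corner is `b`, seen as a configuration of the torus -/
noncomputable def window (N : ℕ) (η : Conf d) (b : Vtx d) (e : Tor N d × Fin d) : Bool :=
  decide (η (b + rep e.1) e.2)

/-- what we know about the configuration -/
structure Env (c : ℕ) (CL θ₀ : ℝ) (A k : ℕ) (η : Conf d) (C0 : Set (Vtx d)) (M₀ : ℕ) : Prop where
  closed : ∀ x j, η x j → (x ∈ C0 ↔ x + ev j ∈ C0)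
  conn : ∀ x ∈ C0, ∀ y ∈ C0, (G η).Reachable x y
  infinite : C0.Infinite
  blocks : ∀ M, M₀ ≤ M → ∀ w, Grid M w → dst w 0 ≤ 8 * (M + 2) ^ (A + 5 * k) → Good η M w
  mem : ∀ M, M₀ ≤ M → ∀ y, dst y 0 ≤ 7 * (M + 2) ^ (A + 5 * k) → (y ∈ C0 ↔ Far η (6 * M) y)
  loc : ∀ M, M₀ ≤ M → ∀ z, Grid (M ^ A) z → dst z 0 ≤ 7 * (M + 2) ^ (A + 5 * k) →
    Loc c CL θ₀ A k η M z

/-! ## analysis in `ℝ^d` -/

abbrev E (d : ℕ) := EuclideanSpace ℝ (Fin d)

/-- the point of `ℝ^d` -/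
noncomputable def toE (y : Vtx d) : E d := WithLp.toLp 2 fun i => (y i : ℝ)

/-- a fixed bump function -/
noncomputable def bump (d : ℕ) : ContDiffBump (0 : E d) where
  rIn := 1 / 2
  rOut := 1
  rIn_pos := by norm_num
  rIn_lt_rOut := by norm_num

/-- normalised bump function: smooth, nonnegative, integral 1, support in the unit ball -/
noncomputable def eta0 (d : ℕ) : E d → ℝ := (bump d).normed volume

/-- the bump of width `s` -/
noncomputable def etas (d : ℕ) (s : ℝ) (x : E d) : ℝ := (s ^ d)⁻¹ * eta0 d (s⁻¹ • x)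

/-- convolution of a function on the lattice with the bump of width `s` -/
noncomputable def Vc (s : ℝ) (S : Finset (Vtx d)) (v : Vtx d → ℝ) (x : E d) : ℝ :=
  ∑ y ∈ S, v y * etas d s (x - toE y)

/-- unit vector -/
noncomputable def eb (i : Fin d) : E d := EuclideanSpace.single i 1

/-- partial derivative -/
noncomputable def pd (i : Fin d) (f : E d → ℝ) (x : E d) : ℝ := fderiv ℝ f x (eb i)

/-- Laplace operator of `ℝ^d` -/
noncomputable def lapl (f : E d → ℝ) (x : E d) : ℝ := ∑ i, pd i (pd i f) x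

/-- the quadratic weight -/
noncomputable def quad (l : E d) (Sb : E d →L[ℝ] E d →L[ℝ] ℝ) (x : E d) : ℝ :=
  inner ℝ l x + Sb x x / 2

noncomputable def F0 (e : E d) (a : ℝ) (x : E d) : ℝ :=
  (1 / 2) * Real.log ((‖x - e‖ ^ 2 + a ^ 2) / (1 + a ^ 2))

noncomputable def Phi0 (K : ℝ) (e : E d) (x : E d) : ℝ :=
  ∑' k : ℕ, 2 ^ k * F0 e (K⁻¹ ^ 4) ((K ^ k)⁻¹ • x)

noncomputable def Lt (ρ : ℝ) (e' : E d) (x : E d) : ℝ :=
  inner ℝ x e' * (1 + ‖x‖ ^ 2) ^ ((ρ - 1) / 2)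

/-- the conditions on one weight function for `‖x‖ ≥ R` -/
structure Wgt (ρ c C R : ℝ) (Φ : E d → ℝ) : Prop where
  smooth : ContDiff ℝ 4 Φ
  deriv : ∀ x, R ≤ ‖x‖ → ∀ n : ℕ, 1 ≤ n → n ≤ 3 →
    ‖iteratedFDeriv ℝ n Φ x‖ ≤ C * ‖x‖ ^ (ρ - n)
  conv : ∀ x, R ≤ ‖x‖ → ∀ n τ : E d, ‖n‖ = 1 → ‖τ‖ = 1 → inner ℝ n τ = 0 →
    c * ‖x‖ ^ (ρ - 2) ≤ iteratedFDeriv ℝ 2 Φ x ![n, n] + iteratedFDeriv ℝ 2 Φ x ![τ, τ]

/-- the discrete Carleman estimate on the cluster -/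
def Carl (η : Conf d) (C0 : Set (Vtx d)) (W1 WB : Vtx d → ℝ) (B0 : Finset (Vtx d)) : Prop :=
  ∃ C : ℝ, ∀ (S : Finset (Vtx d)) (v : Vtx d → ℝ), (∀ y, y ∉ S → v y = 0) →
    (∀ y, y ∉ C0 → v y = 0) →
      ∑ y ∈ S, W1 y * v y ^ 2 ≤
        C * (∑ᶠ y, WB y * Lap η v y ^ 2) + C * ∑ y ∈ B0, v y ^ 2

end Pool.Agent.Lib.MP_566bac_pr.Hd
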