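import Pool.Agent.Lib.MP_566bac_pr.Hd.DE

/-!
# What a small direction gives
-/

open Finset MeasureTheory ProbabilityTheory Filter
open scoped Classical

namespace Pool.Agent.Lib.MP_566bac_pr.Hd

variable {d : ℕ}

theorem FI1_nonempty {A : Set (Vtx d)} (h : HasPositiveDensity A) : A.Nonempty := by
  by_contra hne
  rw [Set.not_nonempty_iff_eq_empty] at hne
  subst hne
  unfold HasPositiveDensity at h
  simp only [Set.empty_inter, Set.ncard_empty, Nat.cast_zero, zero_div] at h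
  rw [liminf_const] at h
  exact lt_irrefl _ h

theorem alt_harmonic (d c : ℕ) (hd : 1 ≤ d) (CL θ₀ : ℝ) (A k : ℕ) (hk : 1 ≤ k) (hA : 12 * k ≤ A)
    (hθ : 0 < θ₀) (hCL : 0 < CL) (η : Conf d) (C0 : Set (Vtx d)) (M₀ : ℕ)
    (hE : Env c CL θ₀ A k η C0 M₀) (K : ℝ) (hK : 2 ≤ K) (x₁ : E d) (δ : ℝ) (hδ : 0 < δ)
    (h : Vtx d → ℝ) (hh : ∀ x ∈ C0, Lap η h x = 0) (hn : ∃ x ∈ C0, h x ≠ 0)
    (hs : ∀ ε : ℝ, 0 < ε → ∃ m₀ : ℕ, ∀ m : ℕ, m₀ ≤ m → ∀ y ∈ C0,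
      ‖(K ^ m)⁻¹ • toE y - x₁‖ ≤ δ → |h y| ≤ ε) :
    (∃ x ∈ C0, ∃ y ∈ C0, h x ≠ h y) ∧ HasPositiveDensity (C0 ∩ {x | |h x| ≤ 1}) := by
  refine ⟨?_, density_region d c hd CL θ₀ A k hk hA hθ hCL η C0 M₀ hE K hK x₁ δ hδ _
    (hs 1 one_pos)⟩
  obtain ⟨x, hx, hx0⟩ := hn
  have hpos : 0 < |h x| / 2 := by positivity
  have h1 := density_region d c hd CL θ₀ A k hk hA hθ hCL η C0 M₀ hE K hK x₁ δ hδ
    {y | |h y| ≤ |h x| / 2} (hs _ hpos)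
  obtain ⟨y, hy, hy2⟩ := FI1_nonempty h1
  refine ⟨x, hx, y, hy, fun heq => ?_⟩
  have h3 : |h y| ≤ |h x| / 2 := hy2
  rw [← heq] at h3
  linarith

end Pool.Agent.Lib.MP_566bac_pr.Hd
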