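import Pool.Agent.Lib.MP_566bac_pr.Hd.CP

/-!
# Flux contradiction
-/

open Finset MeasureTheory ProbabilityTheory Filter
open scoped Classical

namespace Pool.Agent.Lib.MP_566bac_pr.Hd

variable {d : ℕ}

theorem FI2_coord_le (y : Vtx d) (i : Fin d) : |(y i : ℝ)| ≤ ‖(toE y : E d)‖ := by
  have h := EuclideanSpace.norm_eq (toE y : E d)
  rw [h]
  apply Real.le_sqrt_of_sq_le
  have h1 : ‖(toE y : E d) i‖ ^ 2 ≤ ∑ j, ‖(toE y : E d) j‖ ^ 2 :=
    Finset.single_le_sum (f := fun j => ‖(toE y : E d) j‖ ^ 2) (fun j _ => sq_nonneg _)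
      (Finset.mem_univ i)
  refine le_trans (le_of_eq ?_) h1
  simp [toE]

theorem FI2_mem_Lam {y : Vtx d} {R : ℝ} (h : ‖(toE y : E d)‖ ≤ R) : dst y 0 ≤ ⌈R⌉₊ := by
  rw [BAS_le_iff]
  intro i
  have h1 := (FI2_coord_le y i).trans h
  have h2 : |(y i : ℝ)| ≤ (⌈R⌉₊ : ℝ) := h1.trans (Nat.le_ceil R)
  have h3 : (((y i).natAbs : ℕ) : ℝ) ≤ (⌈R⌉₊ : ℝ) := by
    rw [Nat.cast_natAbs]
    push_cast
    exact h2
  have h4 : (y i).natAbs ≤ ⌈R⌉₊ := by exact_mod_cast h3
  simpa using h4

/-! ### FI2: flux contradiction -/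
theorem flux_zero (η : Conf d) (C0 : Set (Vtx d))
    (hcl : ∀ x j, η x j → (x ∈ C0 ↔ x + ev j ∈ C0)) (K : ℝ) (hK : 2 ≤ K) (δ₀ : ℝ) (hδ : 0 < δ₀)
    (o : Vtx d) (ho : o ∈ C0) (w : Vtx d → ℝ) (hw : ∀ y ∈ C0, Lap η w y = if y = o then 1 else 0)
    (hs : ∀ q : ℕ, ∃ (C : ℝ) (m₀ : ℕ), ∀ m : ℕ, m₀ ≤ m → ∀ y ∈ C0,
      |‖(K ^ m)⁻¹ • toE y‖ - 1| ≤ δ₀ → |w y| ≤ C / (K ^ m) ^ q) : False := by
  obtain ⟨C, m₀, hC⟩ := hs (d + 1)
  set C' : ℝ := max C 0 with hC'
  have hC0 : 0 ≤ C' := le_max_right _ _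
  set B : ℝ := 1 / δ₀ + ‖(toE o : E d)‖ + 2 * d * C' * 7 ^ d + 1 with hB
  have hlim := tendsto_pow_atTop_atTop_of_one_lt (r := K) (by linarith)
  obtain ⟨m, hm1, hm2⟩ := ((hlim.eventually_ge_atTop B).and (eventually_ge_atTop m₀)).exists
  have hCm := hC m hm2
  set R : ℝ := K ^ m with hR
  have hd0 : 0 ≤ 1 / δ₀ := by positivity
  have hd1 : 0 ≤ 2 * d * C' * 7 ^ d := by positivity
  have hno : 0 ≤ ‖(toE o : E d)‖ := norm_nonneg _
  have hR1 : 1 ≤ R := by linarith
  have hR0 : 0 < R := by linarith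
  have hRδ : R⁻¹ ≤ δ₀ := by
    have h1 : 1 / δ₀ ≤ R := by linarith
    rw [div_le_iff₀ hδ] at h1
    rw [inv_le_iff_one_le_mul₀ hR0, mul_comm]
    exact h1
  have hoR : ‖(toE o : E d)‖ ≤ R := by linarith
  have hR2 : 2 * d * C' * 7 ^ d < R := by linarith
  -- the test function
  set ψ : Vtx d → ℝ := fun y => if y ∈ C0 ∧ ‖(toE y : E d)‖ ≤ R then 1 else 0 with hψ
  set WW : Finset (Vtx d) := Lam 0 (⌈R⌉₊ + 1) with hWW
  have hsupp : ∀ y, ψ y ≠ 0 → Lam y 1 ⊆ WW := by
    intro y hy
    have h1 : y ∈ C0 ∧ ‖(toE y : E d)‖ ≤ R := by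
      by_contra h
      apply hy
      simp only [hψ, if_neg h]
    apply Lam_subset
    have := FI2_mem_Lam h1.2
    omega
  have hcard : (WW.card : ℝ) ≤ (7 * R) ^ d := by
    rw [hWW, card_Lam]
    push_cast
    apply pow_le_pow_left₀ (by positivity)
    have := (Nat.ceil_lt_add_one hR0.le).le
    linarith
  have h1 := lap_parts (η := η) WW w ψ hsupp
  have h2 : ∑ y ∈ WW, Lap η w y * ψ y = 1 := by
    have h3 : ∀ y ∈ WW, Lap η w y * ψ y = if y = o then 1 else 0 := by
      intro y _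
      by_cases hy : y = o
      · subst hy
        simp only [hψ]
        rw [if_pos ⟨ho, hoR⟩, hw _ ho]
        simp
      · simp only [hψ]
        split_ifs with h4
        · rw [hw y h4.1, if_neg hy, zero_mul]
        · rw [mul_zero]
    rw [Finset.sum_congr rfl h3, Finset.sum_ite_eq']
    have hoW : o ∈ WW := by
      rw [hWW, mem_Lam]
      have := FI2_mem_Lam hoR
      omega
    rw [if_pos hoW]
  have h3 : ∀ (y : Vtx d) (j : Fin d), |if η y j then grad w y j * grad ψ y j else 0|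
      ≤ 2 * C' / R ^ (d + 1) := by
    intro y j
    have hpos : 0 ≤ 2 * C' / R ^ (d + 1) := by positivity
    split_ifs with hη
    · by_cases hg : grad ψ y j = 0
      · rw [hg, mul_zero, abs_zero]
        exact hpos
      · have hC0' : y ∈ C0 := by
          by_contra hy
          apply hg
          have hy' : y + ev j ∉ C0 := fun h => hy ((hcl y j hη).mpr h)
          simp only [grad, hψ, hy, hy', false_and, if_false, sub_self]
        have hC1' : y + ev j ∈ C0 := (hcl y j hη).mp hC0'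
        have hn1 := CP_norm_le y j
        have hn2 : ‖(toE y : E d)‖ ≤ ‖(toE (y + ev j) : E d)‖ + 1 := by
          have h4 : (toE y : E d) = toE (y + ev j) - toE (ev j) := by
            rw [CP_toE_add]
            abel
          rw [h4]
          refine (norm_sub_le _ _).trans ?_
          rw [CP_norm_ev]
        have hcross : |‖(toE y : E d)‖ - R| ≤ 1 ∧ |‖(toE (y + ev j) : E d)‖ - R| ≤ 1 := by
          by_cases ha : ‖(toE y : E d)‖ ≤ R
          · by_cases hb : ‖(toE (y + ev j) : E d)‖ ≤ R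
            · exfalso
              apply hg
              simp only [grad, hψ, hC0', hC1', ha, hb, true_and, if_true, sub_self]
            · push Not at hb
              constructor
              · rw [abs_le]; constructor <;> linarith
              · rw [abs_le]; constructor <;> linarith
          · by_cases hb : ‖(toE (y + ev j) : E d)‖ ≤ R
            · push Not at ha
              constructor
              · rw [abs_le]; constructor <;> linarith
              · rw [abs_le]; constructor <;> linarith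
            · exfalso
              apply hg
              simp only [grad, hψ, ha, hb, and_false, if_false, sub_self]
        have hshell : ∀ x : Vtx d, |‖(toE x : E d)‖ - R| ≤ 1 → |‖R⁻¹ • (toE x : E d)‖ - 1| ≤ δ₀ := by
          intro x hx
          rw [norm_smul, norm_inv, Real.norm_eq_abs, abs_of_pos hR0]
          have h4 : R⁻¹ * ‖(toE x : E d)‖ - 1 = R⁻¹ * (‖(toE x : E d)‖ - R) := by
            rw [mul_sub, inv_mul_cancel₀ hR0.ne']
          rw [h4, abs_mul, abs_of_pos (inv_pos.mpr hR0)]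
          calc R⁻¹ * |‖(toE x : E d)‖ - R| ≤ R⁻¹ * 1 :=
                mul_le_mul_of_nonneg_left hx (inv_pos.mpr hR0).le
            _ ≤ δ₀ := by rw [mul_one]; exact hRδ
        have hw1 := hCm y hC0' (hshell y hcross.1)
        have hw2 := hCm (y + ev j) hC1' (hshell _ hcross.2)
        have hCC : C / R ^ (d + 1) ≤ C' / R ^ (d + 1) :=
          div_le_div_of_nonneg_right (le_max_left _ _) (by positivity)
        have hgψ : |grad ψ y j| ≤ 1 := by
          simp only [grad, hψ]
          split_ifs <;> norm_num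
        have hgw : |grad w y j| ≤ 2 * C' / R ^ (d + 1) := by
          unfold grad
          have h4 : |w (y + ev j) - w y| ≤ |w (y + ev j)| + |w y| := abs_sub _ _
          have h5 : 2 * C' / R ^ (d + 1) = C' / R ^ (d + 1) + C' / R ^ (d + 1) := by ring
          rw [h5]
          linarith
        rw [abs_mul]
        calc |grad w y j| * |grad ψ y j| ≤ (2 * C' / R ^ (d + 1)) * 1 :=
              mul_le_mul hgw hgψ (abs_nonneg _) hpos
          _ = 2 * C' / R ^ (d + 1) := mul_one _
    · rw [abs_zero]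
      exact hpos
  have h4 : (1 : ℝ) ≤ WW.card * (d * (2 * C' / R ^ (d + 1))) := by
    calc (1 : ℝ) = |∑ y ∈ WW, Lap η w y * ψ y| := by rw [h2, abs_one]
      _ = |∑ y ∈ WW, ∑ j, (if η y j then grad w y j * grad ψ y j else 0)| := by
          rw [h1, abs_neg]
      _ ≤ ∑ y ∈ WW, |∑ j, (if η y j then grad w y j * grad ψ y j else 0)| :=
          Finset.abs_sum_le_sum_abs _ _
      _ ≤ ∑ y ∈ WW, ∑ j, |if η y j then grad w y j * grad ψ y j else 0| :=
          Finset.sum_le_sum fun y _ => Finset.abs_sum_le_sum_abs _ _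
      _ ≤ ∑ y ∈ WW, ∑ _j : Fin d, 2 * C' / R ^ (d + 1) :=
          Finset.sum_le_sum fun y _ => Finset.sum_le_sum fun j _ => h3 y j
      _ = WW.card * (d * (2 * C' / R ^ (d + 1))) := by
          simp only [Finset.sum_const, Finset.card_univ, Fintype.card_fin, nsmul_eq_mul]
  have h5 : (WW.card : ℝ) * (d * (2 * C' / R ^ (d + 1))) ≤ (7 * R) ^ d * (d * (2 * C' / R ^ (d + 1))) :=
    mul_le_mul_of_nonneg_right hcard (by positivity)
  have h6 : (7 * R) ^ d * (d * (2 * C' / R ^ (d + 1))) = 2 * d * C' * 7 ^ d / R := by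
    rw [mul_pow, pow_succ]
    field_simp
  have h7 : 2 * d * C' * 7 ^ d / R < 1 := by
    rw [div_lt_one hR0]
    exact hR2
  linarith

end Pool.Agent.Lib.MP_566bac_pr.Hd
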