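import Pool.Agent.Lib.MP_566bac_pr.Hd.DefsC

/-!
# Gluing over the sphere
-/

open Finset MeasureTheory ProbabilityTheory Filter
open scoped Classical

namespace Pool.Agent.Lib.MP_566bac_pr.Hd

variable {d : ℕ}

theorem sphere_cover (d : ℕ) (hd : 2 ≤ d) (δ : E d → ℝ) (hδ : ∀ e, 0 < δ e) :
    ∃ (T : Finset (E d)) (δ₀ : ℝ), 0 < δ₀ ∧ (∀ e ∈ T, ‖e‖ = 1) ∧
      (∀ x : E d, |‖x‖ - 1| ≤ δ₀ → ∃ e ∈ T, ‖x - e‖ < δ e) ∧
      ∀ Q : E d → E d → Prop, (∀ e ∈ T, ∀ e' ∈ T, (∃ x : E d, ‖x - e‖ < δ e ∧ ‖x - e'‖ < δ e') →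
        Q e e') → (∀ e, Q e e) → (∀ a b c, Q a b → Q b c → Q a c) →
          ∀ e ∈ T, ∀ e' ∈ T, Q e e' := by
  have hS : IsCompact (Metric.sphere (0 : E d) 1) := isCompact_sphere _ _
  obtain ⟨T, hTS⟩ := hS.elim_nhds_subcover' (fun x _ => Metric.ball x (δ x))
    (fun x hx => Metric.ball_mem_nhds x (hδ x))
  set T' : Finset (E d) := Finset.image Subtype.val T with hT'
  have hcov : Metric.sphere (0 : E d) 1 ⊆ ⋃ e ∈ T', Metric.ball e (δ e) := by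
    intro x hx
    obtain ⟨y, hy, hxy⟩ := Set.mem_iUnion₂.1 (hTS hx)
    exact Set.mem_iUnion₂.2 ⟨y, Finset.mem_image.2 ⟨y, hy, rfl⟩, hxy⟩
  have hT1 : ∀ e ∈ T', ‖e‖ = 1 := by
    intro e he
    obtain ⟨y, hy, rfl⟩ := Finset.mem_image.1 he
    simpa using y.2
  have hopen : IsOpen (⋃ e ∈ T', Metric.ball e (δ e)) :=
    isOpen_biUnion fun _ _ => Metric.isOpen_ball
  obtain ⟨ε, hε, hthick⟩ := hS.exists_thickening_subset_open hopen hcov
  refine ⟨T', min (ε / 2) (1 / 2), by positivity, hT1, ?_, ?_⟩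
  · intro x hx
    have hx1 : |‖x‖ - 1| ≤ ε / 2 := hx.trans (min_le_left _ _)
    have hx2 : |‖x‖ - 1| ≤ 1 / 2 := hx.trans (min_le_right _ _)
    have hpos : 0 < ‖x‖ := by
      have := (abs_le.1 hx2).1
      linarith
    have hmem : x ∈ Metric.thickening ε (Metric.sphere (0 : E d) 1) := by
      rw [Metric.mem_thickening_iff]
      refine ⟨‖x‖⁻¹ • x, ?_, ?_⟩
      · simp [norm_smul, hpos.ne']
      · have h1 : x - ‖x‖⁻¹ • x = (1 - ‖x‖⁻¹) • x := by rw [sub_smul, one_smul]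
        rw [dist_eq_norm, h1, norm_smul, Real.norm_eq_abs]
        have h2 : |1 - ‖x‖⁻¹| * ‖x‖ = |‖x‖ - 1| := by
          rw [← abs_of_pos hpos, ← abs_mul, abs_of_pos hpos]
          congr 1
          field_simp
        rw [h2]
        linarith
    obtain ⟨e, he, hxe⟩ := Set.mem_iUnion₂.1 (hthick hmem)
    exact ⟨e, he, by simpa [dist_eq_norm] using hxe⟩
  · intro Q hQ hrefl htrans e he e' he'
    by_contra hne
    have hconn : IsPreconnected (Metric.sphere (0 : E d) 1) := by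
      apply isPreconnected_sphere
      rw [← Module.finrank_eq_rank]
      have : Module.finrank ℝ (E d) = d := by simp
      rw [this]
      exact_mod_cast hd
    set A : Set (E d) := ⋃ e1 ∈ T'.filter (fun e1 => Q e e1), Metric.ball e1 (δ e1) with hA
    set B : Set (E d) := ⋃ e1 ∈ T'.filter (fun e1 => ¬ Q e e1), Metric.ball e1 (δ e1) with hB
    have hAo : IsOpen A := isOpen_biUnion fun _ _ => Metric.isOpen_ball
    have hBo : IsOpen B := isOpen_biUnion fun _ _ => Metric.isOpen_ball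
    have hAB : Metric.sphere (0 : E d) 1 ⊆ A ∪ B := by
      intro x hx
      obtain ⟨y, hy, hxy⟩ := Set.mem_iUnion₂.1 (hcov hx)
      by_cases h : Q e y
      · exact Or.inl (Set.mem_iUnion₂.2 ⟨y, Finset.mem_filter.2 ⟨hy, h⟩, hxy⟩)
      · exact Or.inr (Set.mem_iUnion₂.2 ⟨y, Finset.mem_filter.2 ⟨hy, h⟩, hxy⟩)
    have hAn : (Metric.sphere (0 : E d) 1 ∩ A).Nonempty :=
      ⟨e, by simpa using hT1 e he, Set.mem_iUnion₂.2 ⟨e, Finset.mem_filter.2 ⟨he, hrefl e⟩,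
        Metric.mem_ball_self (hδ e)⟩⟩
    have hBn : (Metric.sphere (0 : E d) 1 ∩ B).Nonempty :=
      ⟨e', by simpa using hT1 e' he', Set.mem_iUnion₂.2 ⟨e', Finset.mem_filter.2 ⟨he', hne⟩,
        Metric.mem_ball_self (hδ e')⟩⟩
    obtain ⟨x, _, hxA, hxB⟩ := hconn A B hAo hBo hAB hAn hBn
    obtain ⟨y1, hy1, hxy1⟩ := Set.mem_iUnion₂.1 hxA
    obtain ⟨y2, hy2, hxy2⟩ := Set.mem_iUnion₂.1 hxB
    obtain ⟨hy1T, hy1Q⟩ := Finset.mem_filter.1 hy1
    obtain ⟨hy2T, hy2Q⟩ := Finset.mem_filter.1 hy2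
    exact hy2Q (htrans _ _ _ hy1Q (hQ y1 hy1T y2 hy2T ⟨x, by simpa [dist_eq_norm] using hxy1,
      by simpa [dist_eq_norm] using hxy2⟩))

end Pool.Agent.Lib.MP_566bac_pr.Hd
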