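import Pool.Agent.Lib.MP_566bac_pr.Hd.WT
import Pool.Agent.Lib.MP_566bac_pr.Hd.CE
import Pool.Agent.Lib.MP_566bac_pr.Hd.DU
import Pool.Agent.Lib.MP_566bac_pr.Hd.GC
import Pool.Agent.Lib.MP_566bac_pr.Hd.FI1
import Pool.Agent.Lib.MP_566bac_pr.Hd.FI2

/-!
# The deterministic conclusion
-/

open Finset MeasureTheory ProbabilityTheory Filter
open scoped Classical

namespace Pool.Agent.Lib.MP_566bac_pr.Hd

variable {d : ℕ}

theorem FI_exp {c : ℝ} (hc : 0 < c) (N : ℕ) : ∃ C : ℝ, 0 < C ∧ ∀ t : ℝ, 0 ≤ t →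
    Real.exp (-2 * c * t) * t ^ N ≤ C := by
  refine ⟨(N.factorial : ℝ) / (2 * c) ^ N, by positivity, fun t ht => ?_⟩
  have h := Real.pow_div_factorial_le_exp (2 * c * t) (by positivity) N
  have h1 : Real.exp (-2 * c * t) = (Real.exp (2 * c * t))⁻¹ := by
    rw [← Real.exp_neg]; congr 1; ring
  rw [h1, le_div_iff₀ (by positivity), inv_mul_eq_div, div_mul_eq_mul_div, div_le_iff₀ (Real.exp_pos _)]
  rw [div_le_iff₀ (by positivity)] at h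
  calc t ^ N * (2 * c) ^ N = (2 * c * t) ^ N := by rw [← mul_pow]; ring
    _ ≤ Real.exp (2 * c * t) * N.factorial := h
    _ = _ := by ring

/-- decay of a function with `w ^ 2 ≤ K₀ WB` on the region where the weights are small -/
theorem FI_decay {L' q m₀ : ℕ} {c K₀ δ : ℝ} {e : E d} {Φp Φm : E d → ℝ} {w : Vtx d → ℝ}
    (hc : 0 < c) (hδ : 0 < δ) (he : ‖e‖ = 1)
    (hw : ∀ y, w y ^ 2 ≤ K₀ * ((Real.exp (2 * Φp (toE y)) + Real.exp (2 * Φm (toE y))) *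
      (1 + ‖toE y‖) ^ q))
    (hΦ : ∀ m : ℕ, m₀ ≤ m → ∀ x, ‖(((2 : ℝ) ^ L') ^ m)⁻¹ • x - e‖ ≤ δ →
      Φp x ≤ -c * 2 ^ m ∧ Φm x ≤ -c * 2 ^ m) (q' : ℕ) :
    ∃ C : ℝ, 0 < C ∧ ∀ m : ℕ, m₀ ≤ m → ∀ y : Vtx d, ‖(((2 : ℝ) ^ L') ^ m)⁻¹ • toE y - e‖ ≤ δ →
      |w y| ≤ C / (((2 : ℝ) ^ L') ^ m) ^ q' := by
  obtain ⟨C₁, hC₁, h1⟩ := FI_exp hc (L' * (q + 2 * q'))
  refine ⟨Real.sqrt (|K₀| * 2 * (2 + δ) ^ q * C₁) + 1, by positivity, fun m hm y hy => ?_⟩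
  set K : ℝ := (2 : ℝ) ^ L' with hK
  have hK1 : 1 ≤ K := one_le_pow₀ (by norm_num)
  have hKm : 1 ≤ K ^ m := one_le_pow₀ hK1
  have hKm0 : 0 < K ^ m := by linarith
  have hnorm : ‖toE y‖ ≤ K ^ m * (1 + δ) := by
    have h2 : ‖(K ^ m)⁻¹ • toE y‖ ≤ 1 + δ := by
      calc ‖(K ^ m)⁻¹ • toE y‖ = ‖((K ^ m)⁻¹ • toE y - e) + e‖ := by rw [sub_add_cancel]
        _ ≤ ‖(K ^ m)⁻¹ • toE y - e‖ + ‖e‖ := norm_add_le _ _
        _ ≤ 1 + δ := by rw [he]; linarith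
    rw [norm_smul, norm_inv, Real.norm_of_nonneg hKm0.le, inv_mul_le_iff₀ hKm0] at h2
    exact h2
  have hpoly : (1 + ‖toE y‖) ^ q ≤ (2 + δ) ^ q * (K ^ m) ^ q := by
    rw [← mul_pow]
    refine pow_le_pow_left₀ (by positivity) ?_ q
    nlinarith
  obtain ⟨hp, hm'⟩ := hΦ m hm (toE y) hy
  have hexp : Real.exp (2 * Φp (toE y)) + Real.exp (2 * Φm (toE y)) ≤ 2 * Real.exp (-2 * c * 2 ^ m) := by
    have a1 : Real.exp (2 * Φp (toE y)) ≤ Real.exp (-2 * c * 2 ^ m) := Real.exp_le_exp.2 (by linarith)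
    have a2 : Real.exp (2 * Φm (toE y)) ≤ Real.exp (-2 * c * 2 ^ m) := Real.exp_le_exp.2 (by linarith)
    linarith
  have hKpow : (K ^ m) ^ (q + 2 * q') = (2 ^ m : ℝ) ^ (L' * (q + 2 * q')) := by
    rw [hK, ← pow_mul, ← pow_mul, ← pow_mul]; congr 1; ring
  have h3 := h1 (2 ^ m) (by positivity)
  have h4 : w y ^ 2 * ((K ^ m) ^ q') ^ 2 ≤ |K₀| * 2 * (2 + δ) ^ q * C₁ := by
    calc w y ^ 2 * ((K ^ m) ^ q') ^ 2
        ≤ (|K₀| * ((2 * Real.exp (-2 * c * 2 ^ m)) * ((2 + δ) ^ q * (K ^ m) ^ q))) *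
          ((K ^ m) ^ q') ^ 2 := by
          refine mul_le_mul_of_nonneg_right ((hw y).trans ?_) (by positivity)
          gcongr
          exact le_abs_self _
      _ = |K₀| * 2 * (2 + δ) ^ q * (Real.exp (-2 * c * 2 ^ m) * (K ^ m) ^ (q + 2 * q')) := by
          rw [pow_add, mul_comm 2 q', pow_mul (K ^ m) q' 2]; ring
      _ ≤ |K₀| * 2 * (2 + δ) ^ q * C₁ := by rw [hKpow]; gcongr
  rw [le_div_iff₀ (by positivity)]
  have h5 : |w y| * (K ^ m) ^ q' ≤ Real.sqrt (|K₀| * 2 * (2 + δ) ^ q * C₁) := by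
    refine Real.le_sqrt_of_sq_le ?_
    rw [mul_pow, sq_abs]
    exact h4
  linarith

/-- smallness on the shells -/
theorem FI_shell {L' m₀ : ℕ} {c K₀ : ℝ} {e : E d} {Φp Φm : E d → ℝ} {v : Vtx d → ℝ}
    (hc : 0 < c) (he : ‖e‖ = 1)
    (hv : ∀ y, (Real.exp (2 * Φp (toE y)) + Real.exp (2 * Φm (toE y))) / (1 + ‖toE y‖) ^ (4 : ℕ) *
      v y ^ 2 ≤ K₀)
    (hΦ : ∀ m : ℕ, m₀ ≤ m → ∀ x, ((2 : ℝ) ^ L') ^ ((m : ℝ) + 1 / 2) / 2 ≤ ‖x‖ →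
        ‖x‖ ≤ 2 * ((2 : ℝ) ^ L') ^ ((m : ℝ) + 1 / 2) → c * 2 ^ m ≤ Φp x ∧ c * 2 ^ m ≤ Φm x) :
    ∀ ε : ℝ, 0 < ε → ∃ m₁ : ℕ, ∀ m : ℕ, m₁ ≤ m → ∀ y : Vtx d,
      ‖(((2 : ℝ) ^ L') ^ m)⁻¹ • toE y - (((2 : ℝ) ^ L') ^ ((1 : ℝ) / 2)) • e‖ ≤
        ((2 : ℝ) ^ L') ^ ((1 : ℝ) / 2) / 2 → |v y| ≤ ε := by
  intro ε hε
  obtain ⟨C₁, hC₁, h1⟩ := FI_exp hc (L' * 4 + L' * 2 + 1)
  set K : ℝ := (2 : ℝ) ^ L' with hK
  have hK1 : 1 ≤ K := one_le_pow₀ (by norm_num)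
  have hK0 : 0 < K := by linarith
  set H : ℝ := K ^ ((1 : ℝ) / 2) with hH
  have hH0 : 0 < H := Real.rpow_pos_of_pos hK0 _
  have hHK : H ≤ K := by
    calc H ≤ K ^ (1 : ℝ) := Real.rpow_le_rpow_of_exponent_le hK1 (by norm_num)
      _ = K := Real.rpow_one K
  -- `v ^ 2 ≤ D / 2 ^ m`
  set D : ℝ := |K₀| * 3 ^ 4 * C₁ * K ^ 4 with hD
  obtain ⟨m₂, hm₂⟩ := pow_unbounded_of_one_lt (D / ε ^ 2) (by norm_num : (1 : ℝ) < 2)
  refine ⟨max m₀ m₂, fun m hm y hy => ?_⟩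
  have hKm : 1 ≤ K ^ m := one_le_pow₀ hK1
  have hKm0 : 0 < K ^ m := by linarith
  have hKmH : K ^ ((m : ℝ) + 1 / 2) = K ^ m * H := by
    rw [Real.rpow_add hK0, Real.rpow_natCast]
  have h2 : |‖(K ^ m)⁻¹ • toE y‖ - H| ≤ H / 2 := by
    have := abs_norm_sub_norm_le ((K ^ m)⁻¹ • toE y) (H • e)
    rw [norm_smul H e, he, mul_one, Real.norm_of_nonneg hH0.le] at this
    exact this.trans hy
  rw [norm_smul, norm_inv, Real.norm_of_nonneg hKm0.le, abs_le] at h2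
  obtain ⟨h2a, h2b⟩ := h2
  have h3 : K ^ m * H / 2 ≤ ‖toE y‖ := by
    have : H / 2 ≤ (K ^ m)⁻¹ * ‖toE y‖ := by linarith
    rw [inv_mul_eq_div, le_div_iff₀ hKm0] at this
    linarith
  have h4 : ‖toE y‖ ≤ 2 * (K ^ m * H) := by
    have : (K ^ m)⁻¹ * ‖toE y‖ ≤ 2 * H := by linarith
    rw [inv_mul_le_iff₀ hKm0] at this
    linarith
  obtain ⟨hp, hm'⟩ := hΦ m ((le_max_left _ _).trans hm) (toE y) (by rw [hKmH]; exact h3)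
    (by rw [hKmH]; exact h4)
  have hexp : Real.exp (2 * c * 2 ^ m) ≤ Real.exp (2 * Φp (toE y)) + Real.exp (2 * Φm (toE y)) := by
    have a1 : Real.exp (2 * c * 2 ^ m) ≤ Real.exp (2 * Φp (toE y)) := Real.exp_le_exp.2 (by linarith)
    have a2 := Real.exp_pos (2 * Φm (toE y))
    linarith
  have h5 := hv y
  have hpos : 0 < (1 + ‖toE y‖) ^ 4 := by positivity
  have h6 : Real.exp (2 * c * 2 ^ m) * v y ^ 2 ≤ |K₀| * (1 + ‖toE y‖) ^ 4 := by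
    have : (Real.exp (2 * Φp (toE y)) + Real.exp (2 * Φm (toE y))) * v y ^ 2 ≤
        K₀ * (1 + ‖toE y‖) ^ 4 := by
      rw [div_mul_eq_mul_div, div_le_iff₀ hpos] at h5
      exact h5
    calc Real.exp (2 * c * 2 ^ m) * v y ^ 2
        ≤ (Real.exp (2 * Φp (toE y)) + Real.exp (2 * Φm (toE y))) * v y ^ 2 := by gcongr
      _ ≤ K₀ * (1 + ‖toE y‖) ^ 4 := this
      _ ≤ |K₀| * (1 + ‖toE y‖) ^ 4 := by gcongr; exact le_abs_self _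
  have h7 : (1 + ‖toE y‖) ^ 4 ≤ 3 ^ 4 * (K ^ 4 * (K ^ m) ^ 4) := by
    rw [← mul_pow, ← mul_pow]
    refine pow_le_pow_left₀ (by positivity) ?_ 4
    have : K ^ m * H ≤ K ^ m * K := by gcongr
    nlinarith
  have hKpow : (K ^ m) ^ 4 ≤ (2 ^ m : ℝ) ^ (L' * 4) := by
    rw [hK, ← pow_mul, ← pow_mul, ← pow_mul]
    exact le_of_eq (by congr 1; ring)
  have h8 := h1 (2 ^ m) (by positivity)
  have h2m : (1 : ℝ) ≤ 2 ^ m := one_le_pow₀ (by norm_num)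
  have h9 : Real.exp (-2 * c * 2 ^ m) * ((2 ^ m : ℝ) ^ (L' * 4) * 2 ^ m) ≤ C₁ := by
    refine le_trans ?_ h8
    have : (2 ^ m : ℝ) ^ (L' * 4) * 2 ^ m ≤ (2 ^ m : ℝ) ^ (L' * 4 + L' * 2 + 1) := by
      rw [← pow_succ]
      exact pow_le_pow_right₀ h2m (by omega)
    gcongr
  have h10 : v y ^ 2 * 2 ^ m ≤ D := by
    have a1 : Real.exp (-2 * c * 2 ^ m) * Real.exp (2 * c * 2 ^ m) = 1 := by
      rw [← Real.exp_add]; simp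
    calc v y ^ 2 * 2 ^ m
        = Real.exp (-2 * c * 2 ^ m) * (Real.exp (2 * c * 2 ^ m) * v y ^ 2) * 2 ^ m := by
          rw [← mul_assoc, a1, one_mul]
      _ ≤ Real.exp (-2 * c * 2 ^ m) * (|K₀| * (3 ^ 4 * (K ^ 4 * (2 ^ m : ℝ) ^ (L' * 4)))) * 2 ^ m := by
          refine mul_le_mul_of_nonneg_right (mul_le_mul_of_nonneg_left (h6.trans ?_)
            (Real.exp_pos _).le) (by positivity)
          refine mul_le_mul_of_nonneg_left (h7.trans ?_) (abs_nonneg _)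
          gcongr
      _ = |K₀| * 3 ^ 4 * K ^ 4 * (Real.exp (-2 * c * 2 ^ m) * ((2 ^ m : ℝ) ^ (L' * 4) * 2 ^ m)) := by
          ring
      _ ≤ |K₀| * 3 ^ 4 * K ^ 4 * C₁ := by gcongr
      _ = D := by rw [hD]; ring
  have h11 : D < ε ^ 2 * 2 ^ m := by
    have a1 : (2 : ℝ) ^ m₂ ≤ 2 ^ m := pow_le_pow_right₀ (by norm_num) ((le_max_right _ _).trans hm)
    have a2 := hm₂.trans_le a1
    rw [div_lt_iff₀ (by positivity)] at a2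
    linarith
  have h12 : v y ^ 2 ≤ ε ^ 2 := by
    have : v y ^ 2 * 2 ^ m ≤ ε ^ 2 * 2 ^ m := by linarith
    exact le_of_mul_le_mul_right this (by positivity)
  exact abs_le_of_sq_le_sq h12 hε.le |> fun h => abs_le.2 ⟨by linarith [(abs_le.1 h).1], (abs_le.1 h).2⟩

theorem FI_perp (hd : 2 ≤ d) (e : E d) : ∃ e' : E d, ‖e'‖ = 1 ∧ inner ℝ e e' = 0 := by
  have h1 : Module.finrank ℝ (E d) = d := by simp
  -- the orthogonal complement of `e` is not trivial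
  have h2 : (Submodule.span ℝ {e})ᗮ ≠ ⊥ := by
    intro h
    have h3 := Submodule.finrank_add_finrank_orthogonal (Submodule.span ℝ {e})
    rw [h, finrank_bot, h1] at h3
    have h4 : Module.finrank ℝ (Submodule.span ℝ {e}) ≤ 1 := 
      (finrank_span_le_card ({e} : Set (E d))).trans (by simp)
    omega
  obtain ⟨u, hu, hu0⟩ := Submodule.exists_mem_ne_zero_of_ne_bot h2
  have h5 : inner ℝ e u = 0 := (Submodule.mem_orthogonal_singleton_iff_inner_right).1 hu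
  refine ⟨(‖u‖)⁻¹ • u, ?_, ?_⟩
  · rw [norm_smul, norm_inv, norm_norm, inv_mul_cancel₀ (norm_ne_zero_iff.2 hu0)]
  · rw [inner_smul_right, h5, mul_zero]

/-- what happens in one direction -/
theorem FI_direction {c : ℕ} (hd : 2 ≤ d) {k A L' : ℕ} {CL θ₀ : ℝ} (hk : 1 ≤ k) (hA : 12 * k ≤ A)
    (hAL : ((4 * k : ℝ) / (A + 5 * k)) = 1 / L')
    (hCE : ∀ (cW CW R : ℝ), 0 < cW → ∀ (M₀ : ℕ) (η : Conf d)
        (C0 : Set (Vtx d)) (Φp Φm : E d → ℝ) (e' : E d), Env c CL θ₀ A k η C0 M₀ →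
        Wgt ((4 * k : ℝ) / (A + 5 * k)) cW CW R Φp → Wgt ((4 * k : ℝ) / (A + 5 * k)) cW CW R Φm →
        (∀ x, R ≤ ‖x‖ → 0 ≤ inner ℝ x e' →
          cW * ‖x‖ ^ ((4 * k : ℝ) / (A + 5 * k) - 1) ≤ ‖fderiv ℝ Φp x‖ ∧ Φm x ≤ Φp x) →
        (∀ x, R ≤ ‖x‖ → inner ℝ x e' ≤ 0 →
          cW * ‖x‖ ^ ((4 * k : ℝ) / (A + 5 * k) - 1) ≤ ‖fderiv ℝ Φm x‖ ∧ Φp x ≤ Φm x) →
        ∃ (q : ℕ) (B0 : Finset (Vtx d)), Carl η C0
          (fun y => (Real.exp (2 * Φp (toE y)) + Real.exp (2 * Φm (toE y))) /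
            (1 + ‖toE y‖) ^ (4 : ℕ))
          (fun y => (Real.exp (2 * Φp (toE y)) + Real.exp (2 * Φm (toE y))) *
            (1 + ‖toE y‖) ^ q) B0)
    (hW : ∀ e e' : E d, ‖e‖ = 1 → ‖e'‖ = 1 →
    inner ℝ e e' = 0 → ∃ (ε c C R δ : ℝ) (m₀ : ℕ), 0 < ε ∧ 0 < c ∧ 0 < δ ∧ 1 ≤ R ∧
      Wgt (1 / L') c C R (fun x => Phi0 (2 ^ L') e x + ε * Lt (1 / L') e' x) ∧
      Wgt (1 / L') c C R (fun x => Phi0 (2 ^ L') e x - ε * Lt (1 / L') e' x) ∧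
      (∀ x, R ≤ ‖x‖ → 0 ≤ inner ℝ x e' → c * ‖x‖ ^ ((1 : ℝ) / L' - 1) ≤
        ‖fderiv ℝ (fun x => Phi0 (2 ^ L') e x + ε * Lt (1 / L') e' x) x‖ ∧
        Phi0 (2 ^ L') e x - ε * Lt (1 / L') e' x ≤ Phi0 (2 ^ L') e x + ε * Lt (1 / L') e' x) ∧
      (∀ x, R ≤ ‖x‖ → inner ℝ x e' ≤ 0 → c * ‖x‖ ^ ((1 : ℝ) / L' - 1) ≤
        ‖fderiv ℝ (fun x => Phi0 (2 ^ L') e x - ε * Lt (1 / L') e' x) x‖ ∧
        Phi0 (2 ^ L') e x + ε * Lt (1 / L') e' x ≤ Phi0 (2 ^ L') e x - ε * Lt (1 / L') e' x) ∧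
      (∀ m : ℕ, m₀ ≤ m → ∀ x, ‖(((2 : ℝ) ^ L') ^ m)⁻¹ • x - e‖ ≤ δ →
        Phi0 (2 ^ L') e x + ε * Lt (1 / L') e' x ≤ -c * 2 ^ m ∧
        Phi0 (2 ^ L') e x - ε * Lt (1 / L') e' x ≤ -c * 2 ^ m) ∧
      (∀ m : ℕ, m₀ ≤ m → ∀ x, ((2 : ℝ) ^ L') ^ ((m : ℝ) + 1 / 2) / 2 ≤ ‖x‖ →
        ‖x‖ ≤ 2 * ((2 : ℝ) ^ L') ^ ((m : ℝ) + 1 / 2) →
        c * 2 ^ m ≤ Phi0 (2 ^ L') e x + ε * Lt (1 / L') e' x ∧
        c * 2 ^ m ≤ Phi0 (2 ^ L') e x - ε * Lt (1 / L') e' x))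
    (hL1 : 1 ≤ L') (hCL : 0 < CL) (hθ₀ : 0 < θ₀) {M₀ : ℕ} {η : Conf d} {C0 : Set (Vtx d)}
    (hE : Env c CL θ₀ A k η C0 M₀) {o : Vtx d} (ho : o ∈ C0) (e : E d) (he : ‖e‖ = 1) :
    (∃ h : Vtx d → ℝ, (∀ x ∈ C0, Lap η h x = 0) ∧ (∃ x ∈ C0, ∃ y ∈ C0, h x ≠ h y) ∧
          HasPositiveDensity (C0 ∩ {x | |h x| ≤ 1})) ∨
    ∃ (δ : ℝ) (w : Vtx d → ℝ), 0 < δ ∧ (∀ y ∈ C0, Lap η w y = if y = o then 1 else 0) ∧
      ∀ q : ℕ, ∃ (C : ℝ) (m₀ : ℕ), 0 < C ∧ ∀ m : ℕ, m₀ ≤ m → ∀ y : Vtx d,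
        ‖(((2 : ℝ) ^ L') ^ m)⁻¹ • toE y - e‖ ≤ δ → |w y| ≤ C / (((2 : ℝ) ^ L') ^ m) ^ q := by
  obtain ⟨e', he', hee'⟩ := FI_perp hd e
  obtain ⟨ε, cW, CW, R, δ, m₀, hε, hcW, hδ, hR, w1, w2, w3, w4, w5, w6⟩ := hW e e' he he' hee'
  obtain ⟨q, B0, hCarl⟩ := hCE cW CW R hcW M₀ η C0 _ _ e' hE (by rw [hAL]; exact w1)
    (by rw [hAL]; exact w2) (by rw [hAL]; exact w3) (by rw [hAL]; exact w4)
  rcases duality η C0 hE.closed _ _ (fun y => by positivity) (fun y => by positivity) B0 hCarl with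
    ⟨v, hv0, hv1, hv2, K₀, hv3⟩ | hdual
  · left
    have hK2 : (2 : ℝ) ≤ 2 ^ L' := by
      calc (2 : ℝ) = 2 ^ 1 := (pow_one 2).symm
        _ ≤ 2 ^ L' := pow_le_pow_right₀ (by norm_num) hL1
    have hK0 : (0 : ℝ) < 2 ^ L' := by positivity
    have hs := FI_shell hcW he hv3 w6
    obtain ⟨y0, hy0⟩ := hv0
    have hy0C : y0 ∈ C0 := by
      by_contra h; exact hy0 (hv1 y0 h)
    obtain ⟨r1, r2⟩ := alt_harmonic d c (by omega) CL θ₀ A k hk hA hθ₀ hCL η C0 M₀ hE (2 ^ L') hK2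
      ((((2 : ℝ) ^ L') ^ ((1 : ℝ) / 2)) • e) (((2 : ℝ) ^ L') ^ ((1 : ℝ) / 2) / 2)
      (by positivity) v (fun x _ => hv2 x) ⟨y0, hy0C, hy0⟩
      (fun ε' hε' => by
        obtain ⟨m₁, hm₁⟩ := hs ε' hε'
        exact ⟨m₁, fun m hm y _ hy => hm₁ m hm y hy⟩)
    exact ⟨v, fun x _ => hv2 x, r1, r2⟩
  · right
    obtain ⟨w, hw1, hw2, K₀, hw3⟩ := hdual (fun y => if y = o then 1 else 0)
      ((Set.finite_singleton o).subset fun y hy => by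
        by_contra h
        simp only [Set.mem_singleton_iff] at h
        simp [h] at hy)
      (fun y hy => by
        refine if_neg ?_
        rintro rfl
        exact hy ho)
    refine ⟨δ, w, hδ, hw1, fun q' => ?_⟩
    obtain ⟨C, hC, hCm⟩ := FI_decay hcW hδ he hw3 w5 q'
    exact ⟨C, m₀, hC, hCm⟩

/-! ### FI: the deterministic conclusion -/
theorem deterministic (d c : ℕ) (hd : 2 ≤ d) : ∃ k A₀ : ℕ, 1 ≤ k ∧ ∀ L' : ℕ, A₀ ≤ L' →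
    ∀ (CL θ₀ : ℝ), 0 < CL → 0 < θ₀ → ∀ (M₀ : ℕ) (η : Conf d) (C0 : Set (Vtx d)),
      Env c CL θ₀ (4 * k * L' - 5 * k) k η C0 M₀ →
        ∃ h : Vtx d → ℝ, (∀ x ∈ C0, Lap η h x = 0) ∧ (∃ x ∈ C0, ∃ y ∈ C0, h x ≠ h y) ∧
          HasPositiveDensity (C0 ∩ {x | |h x| ≤ 1}) := by
  obtain ⟨j₀, hCE⟩ := carleman_cluster d c (by omega)
  obtain ⟨L₀, hW⟩ := weights d
  refine ⟨3 * j₀ + 1, max L₀ 5, by omega, fun L' hL' CL θ₀ hCL hθ₀ M₀ η C0 hE => ?_⟩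
  obtain ⟨k, hk⟩ : ∃ k : ℕ, k = 3 * j₀ + 1 := ⟨_, rfl⟩
  rw [← hk] at hE
  have hL5 : 5 ≤ L' := (le_max_right _ _).trans hL'
  have hk1 : 1 ≤ k := by omega
  have h5 : k * 5 ≤ k * L' := Nat.mul_le_mul_left k hL5
  have e1 : 4 * k * L' = 4 * (k * L') := by ring
  obtain ⟨A, hA⟩ : ∃ A : ℕ, A = 4 * k * L' - 5 * k := ⟨_, rfl⟩
  rw [← hA] at hE
  have hA12 : 12 * k ≤ A := by omega
  have hA5 : A + 5 * k = 4 * k * L' := by omega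
  have hAL : ((4 * k : ℝ) / (A + 5 * k)) = 1 / L' := by
    have h6 : ((A : ℝ) + 5 * k) = 4 * k * L' := by exact_mod_cast hA5
    have h7 : (0 : ℝ) < k := by exact_mod_cast hk1
    have h8 : (0 : ℝ) < L' := by exact_mod_cast (by omega : 0 < L')
    rw [h6]
    field_simp
  obtain ⟨o, ho⟩ := hE.infinite.nonempty
  by_contra hcon
  have hdir : ∀ e : E d, ∃ (δ : ℝ) (w : Vtx d → ℝ), 0 < δ ∧ (‖e‖ = 1 →
      (∀ y ∈ C0, Lap η w y = if y = o then 1 else 0) ∧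
      ∀ q : ℕ, ∃ (C : ℝ) (m₀ : ℕ), 0 < C ∧ ∀ m : ℕ, m₀ ≤ m → ∀ y : Vtx d,
        ‖(((2 : ℝ) ^ L') ^ m)⁻¹ • toE y - e‖ ≤ δ → |w y| ≤ C / (((2 : ℝ) ^ L') ^ m) ^ q) := by
    intro e
    by_cases he : ‖e‖ = 1
    · rcases FI_direction hd hk1 hA12 hAL
        (hCE j₀ k A le_rfl (by omega) (by omega) hA12 CL θ₀ |> fun f cW CW R h =>
          f cW CW R hCL hθ₀ h)
        (hW L' ((le_max_left _ _).trans hL')) (by omega) hCL hθ₀ hE ho e he with h | ⟨δ, w, h1, h2⟩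
      · exact absurd h hcon
      · exact ⟨δ, w, h1, fun _ => h2⟩
    · exact ⟨1, fun _ => 0, one_pos, fun h => absurd h he⟩
  choose δ w hδ hw using hdir
  obtain ⟨T, δ₀, hδ₀, hT1, hT2, hT3⟩ := sphere_cover d hd δ hδ
  have hK2 : (2 : ℝ) ≤ 2 ^ L' := by
    calc (2 : ℝ) = 2 ^ 1 := (pow_one 2).symm
      _ ≤ 2 ^ L' := pow_le_pow_right₀ (by norm_num) (by omega)
  -- neighbouring directions give the same function
  have hQ : ∀ e ∈ T, ∀ e' ∈ T, (∃ x : E d, ‖x - e‖ < δ e ∧ ‖x - e'‖ < δ e') →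
      ∀ y ∈ C0, w e y = w e' y := by
    intro e he e' he' ⟨x, hx1, hx2⟩
    obtain ⟨a1, a2⟩ := hw e (hT1 e he)
    obtain ⟨b1, b2⟩ := hw e' (hT1 e' he')
    by_contra hne
    push Not at hne
    obtain ⟨y0, hy0, hy1⟩ := hne
    have hlap : ∀ y ∈ C0, Lap η (fun y => w e y - w e' y) y = 0 := by
      intro y hy
      have h6 : Lap η (fun y => w e y - w e' y) y = Lap η (w e) y - Lap η (w e') y := by
        unfold Lap
        rw [← Finset.sum_sub_distrib]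
        refine Finset.sum_congr rfl fun j _ => ?_
        split_ifs <;> ring
      rw [h6, a1 y hy, b1 y hy, sub_self]
    obtain ⟨C1, m1, hC1, hm1⟩ := a2 1
    obtain ⟨C2, m2, hC2, hm2⟩ := b2 1
    have hδ' : 0 < min (δ e - ‖x - e‖) (δ e' - ‖x - e'‖) :=
      lt_min (by linarith) (by linarith)
    obtain ⟨r1, r2⟩ := alt_harmonic d c (by omega) CL θ₀ A k hk1 hA12 hθ₀ hCL η C0 M₀ hE (2 ^ L') hK2
      x (min (δ e - ‖x - e‖) (δ e' - ‖x - e'‖)) hδ' (fun y => w e y - w e' y) hlap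
      ⟨y0, hy0, sub_ne_zero.2 hy1⟩ (fun ε hε => by
        obtain ⟨m3, hm3⟩ := pow_unbounded_of_one_lt ((C1 + C2) / ε)
          (by linarith : (1 : ℝ) < 2 ^ L')
        refine ⟨max (max m1 m2) m3, fun m hm y _ hy => ?_⟩
        have hKm0 : (0 : ℝ) < ((2 : ℝ) ^ L') ^ m := by positivity
        have t1 : ‖(((2 : ℝ) ^ L') ^ m)⁻¹ • toE y - e‖ ≤ δ e := by
          have := norm_add_le ((((2 : ℝ) ^ L') ^ m)⁻¹ • toE y - x) (x - e)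
          rw [sub_add_sub_cancel] at this
          have h7 := hy.trans (min_le_left _ _)
          linarith
        have t2 : ‖(((2 : ℝ) ^ L') ^ m)⁻¹ • toE y - e'‖ ≤ δ e' := by
          have := norm_add_le ((((2 : ℝ) ^ L') ^ m)⁻¹ • toE y - x) (x - e')
          rw [sub_add_sub_cancel] at this
          have h7 := hy.trans (min_le_right _ _)
          linarith
        have u1 := hm1 m (by omega) y t1
        have u2 := hm2 m (by omega) y t2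
        rw [pow_one] at u1 u2
        have u3 : (C1 + C2) / ε < ((2 : ℝ) ^ L') ^ m :=
          hm3.trans_le (pow_le_pow_right₀ (by linarith) (by omega))
        rw [div_lt_iff₀ hε] at u3
        calc |w e y - w e' y| ≤ |w e y| + |w e' y| := by
              have := abs_add_le (w e y) (-(w e' y))
              rw [abs_neg] at this
              simpa [sub_eq_add_neg] using this
          _ ≤ C1 / ((2 : ℝ) ^ L') ^ m + C2 / ((2 : ℝ) ^ L') ^ m := add_le_add u1 u2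
          _ = (C1 + C2) / ((2 : ℝ) ^ L') ^ m := by rw [add_div]
          _ ≤ ε := by rw [div_le_iff₀ hKm0]; linarith)
    exact hcon ⟨fun y => w e y - w e' y, hlap, r1, r2⟩
  have hall := hT3 (fun e e' => ∀ y ∈ C0, w e y = w e' y) hQ (fun _ _ _ => rfl)
    fun a b c h1 h2 y hy => (h1 y hy).trans (h2 y hy)
  -- a direction
  obtain ⟨u, hu, -⟩ := FI_perp hd (0 : E d)
  obtain ⟨e₀, he₀, -⟩ := hT2 u (by rw [hu]; simp [hδ₀.le])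
  refine flux_zero η C0 hE.closed (2 ^ L') hK2 δ₀ hδ₀ o ho (w e₀) (hw e₀ (hT1 e₀ he₀)).1 fun q => ?_
  have hq : ∀ e : E d, ∃ (C : ℝ) (m₀ : ℕ), 0 < C ∧ (e ∈ T → ∀ m : ℕ, m₀ ≤ m → ∀ y : Vtx d,
        ‖(((2 : ℝ) ^ L') ^ m)⁻¹ • toE y - e‖ ≤ δ e → |w e y| ≤ C / (((2 : ℝ) ^ L') ^ m) ^ q) := by
    intro e
    by_cases he : e ∈ T
    · obtain ⟨C, m₀, h1, h2⟩ := (hw e (hT1 e he)).2 q
      exact ⟨C, m₀, h1, fun _ => h2⟩
    · exact ⟨1, 0, one_pos, fun h => absurd h he⟩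
  choose Cq mq hCq hmq using hq
  refine ⟨∑ e ∈ T, Cq e, T.sup mq, fun m hm y hy hy' => ?_⟩
  obtain ⟨e, he, hye⟩ := hT2 _ hy'
  rw [hall e₀ he₀ e he y hy]
  refine (hmq e he m ((Finset.le_sup he).trans hm) y hye.le).trans ?_
  have : Cq e ≤ ∑ e ∈ T, Cq e := Finset.single_le_sum (fun e _ => (hCq e).le) he
  gcongr

end Pool.Agent.Lib.MP_566bac_pr.Hd
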