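import Pool.Agent.Lib.MP_566bac_pr.Hd.HK

/-!
# The Green function as a sum over the transition operator
-/

open Finset Filter
open scoped Classical

namespace Pool.Agent.Lib.MP_566bac_pr.Hd

variable {d : ℕ}

namespace GSRaux

open HKaux

variable {N : ℕ} [NeZero N]

theorem op_mu (μ : ℝ) (o : Tor N d × Fin d → Bool) (f : Tor N d → ℝ) (x : Tor N d) :
    Op tsrc ttgt μ o f x = μ * f x + Op tsrc ttgt 0 o f x := by
  unfold Op
  ring

theorem op_pop (hd : 1 ≤ d) (μ : ℝ) (o : Tor N d × Fin d → Bool) (f : Tor N d → ℝ)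
    (x : Tor N d) :
    Op tsrc ttgt μ o f x = 4 * d * ((1 + μ / (4 * d)) * f x - Pop o f x) := by
  have hd' : (0 : ℝ) < d := by exact_mod_cast hd
  rw [op_mu]
  unfold Pop
  field_simp
  ring

/-- the finite sums -/
theorem psum (hd : 1 ≤ d) {μ : ℝ} (hμ : 0 < μ) (o : Tor N d × Fin d → Bool) (a : Tor N d)
    (n : ℕ) : Op tsrc ttgt μ o (fun x => ∑ k ∈ Finset.range n,
      (1 / (4 * d)) * ((1 + μ / (4 * d))⁻¹) ^ (k + 1) * ((Pop o)^[k] (Pi.single a 1)) x) =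
      fun x => 1 * (Pi.single a 1 : Tor N d → ℝ) x +
        (-((1 + μ / (4 * d))⁻¹) ^ n) * ((Pop o)^[n] (Pi.single a 1)) x := by
  have hd' : (0 : ℝ) < d := by exact_mod_cast hd
  have hc : (0 : ℝ) < 1 + μ / (4 * d) := by positivity
  induction n with
  | zero =>
    funext x
    simp only [Finset.range_zero, Finset.sum_empty, pow_zero, Function.iterate_zero, id]
    unfold Op gr
    simp
  | succ n ih =>
    funext x
    have h1 : (fun x => ∑ k ∈ Finset.range (n + 1),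
      (1 / (4 * d)) * ((1 + μ / (4 * d))⁻¹) ^ (k + 1) * ((Pop o)^[k] (Pi.single a 1)) x) =
      fun x => 1 * (∑ k ∈ Finset.range n,
      (1 / (4 * d)) * ((1 + μ / (4 * d))⁻¹) ^ (k + 1) * ((Pop o)^[k] (Pi.single a 1)) x) +
        ((1 / (4 * d)) * ((1 + μ / (4 * d))⁻¹) ^ (n + 1)) * ((Pop o)^[n] (Pi.single a 1)) x := by
      funext y
      rw [Finset.sum_range_succ, one_mul]
    rw [h1, OP1_op_lin, congrFun ih x, op_pop hd, Function.iterate_succ_apply']
    rw [pow_succ]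
    field_simp
    ring

theorem iter_sol_le (hd : 1 ≤ d) {μ : ℝ} (hμ : 0 < μ) (o : Tor N d × Fin d → Bool)
    (a x : Tor N d) (n : ℕ) :
    0 ≤ sol tsrc ttgt μ o ((Pop o)^[n] (Pi.single a 1)) x ∧
    sol tsrc ttgt μ o ((Pop o)^[n] (Pi.single a 1)) x ≤ 1 / μ := by
  have h0 : ∀ y, 0 ≤ sol tsrc ttgt μ o ((Pop o)^[n] (Pi.single a 1)) y := fun y =>
    sol_nonneg tsrc ttgt o hμ (iter_nonneg hd o a n) y
  refine ⟨h0 x, ?_⟩
  have h1 := sol_sum tsrc ttgt o hμ ((Pop o)^[n] (Pi.single a 1))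
  rw [iter_sum] at h1
  have h2 := Finset.single_le_sum (f := fun y => sol tsrc ttgt μ o ((Pop o)^[n] (Pi.single a 1)) y)
    (fun y _ => h0 y) (Finset.mem_univ x)
  rw [le_div_iff₀ hμ, mul_comm]
  refine le_trans (mul_le_mul_of_nonneg_left h2 hμ.le) (le_of_eq h1)

theorem psum_eq (hd : 1 ≤ d) {μ : ℝ} (hμ : 0 < μ) (o : Tor N d × Fin d → Bool) (a x : Tor N d)
    (n : ℕ) : ∑ k ∈ Finset.range n,
      (1 / (4 * d)) * ((1 + μ / (4 * d))⁻¹) ^ (k + 1) * ((Pop o)^[k] (Pi.single a 1)) x =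
      sol tsrc ttgt μ o (Pi.single a 1) x -
        ((1 + μ / (4 * d))⁻¹) ^ n * sol tsrc ttgt μ o ((Pop o)^[n] (Pi.single a 1)) x := by
  have h1 := sol_unique tsrc ttgt o hμ (psum hd hμ o a n)
  have h2 := congrFun h1 x
  rw [h2, sol_add tsrc ttgt o hμ]
  ring

theorem series (hd : 1 ≤ d) {μ : ℝ} (hμ : 0 < μ) (o : Tor N d × Fin d → Bool) (a x : Tor N d) :
    HasSum (fun n : ℕ => (1 / (4 * d)) * ((1 + μ / (4 * d))⁻¹) ^ (n + 1) *
      ((Pop o)^[n] (Pi.single a 1)) x) (sol tsrc ttgt μ o (Pi.single a 1) x) := by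
  have hd' : (0 : ℝ) < d := by exact_mod_cast hd
  have hc : (1 : ℝ) < 1 + μ / (4 * d) := by
    have : 0 < μ / (4 * d) := by positivity
    linarith
  have hl0 : 0 ≤ (1 + μ / (4 * d))⁻¹ := by positivity
  have hl1 : (1 + μ / (4 * d))⁻¹ < 1 := inv_lt_one_of_one_lt₀ hc
  rw [hasSum_iff_tendsto_nat_of_nonneg]
  · have h1 : Tendsto (fun n => ((1 + μ / (4 * d))⁻¹) ^ n *
        sol tsrc ttgt μ o ((Pop o)^[n] (Pi.single a 1)) x) atTop (nhds 0) := by
      have h2 : Tendsto (fun n : ℕ => ((1 + μ / (4 * d))⁻¹) ^ n * (1 / μ)) atTop (nhds (0 * (1 / μ))) :=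
        (tendsto_pow_atTop_nhds_zero_of_lt_one hl0 hl1).mul_const _
      rw [zero_mul] at h2
      refine squeeze_zero (fun n => ?_) (fun n => ?_) h2
      · exact mul_nonneg (pow_nonneg hl0 _) (iter_sol_le hd hμ o a x n).1
      · exact mul_le_mul_of_nonneg_left (iter_sol_le hd hμ o a x n).2 (pow_nonneg hl0 _)
    have h3 := (tendsto_const_nhds (x := sol tsrc ttgt μ o (Pi.single a 1) x)).sub h1
    rw [sub_zero] at h3
    refine h3.congr fun n => ?_
    exact (psum_eq hd hμ o a x n).symm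
  · intro n
    exact mul_nonneg (by positivity) (iter_nonneg hd o a n x)

end GSRaux

/-- the Green function as a series -/
theorem green_series {N : ℕ} [NeZero N] (hd : 1 ≤ d) {μ : ℝ} (hμ : 0 < μ)
    (o : Tor N d × Fin d → Bool) (a x : Tor N d) :
    HasSum (fun n : ℕ => (1 / (4 * d)) * (1 + μ / (4 * d)) ^ (-((n : ℤ) + 1)) *
      ((Pop o)^[n] (Pi.single a 1)) x) (sol tsrc ttgt μ o (Pi.single a 1) x) := by
  have h1 := GSRaux.series hd hμ o a x
  convert h1 using 4 with n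
  rw [zpow_neg, ← inv_zpow]
  norm_cast

end Pool.Agent.Lib.MP_566bac_pr.Hd
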