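import Pool.Agent.Lib.MP_566bac_pr.Hd.DefsB
import Pool.Agent.Lib.MP_566bac_pr.Hd.OP1

open Finset
open scoped Classical

namespace Pool.Agent.Lib.MP_566bac_pr.Hd

variable {d : ℕ}

namespace HKaux

theorem sum_src {N : ℕ} [NeZero N] (x : Tor N d) (F : Tor N d × Fin d → ℝ) :
    ∑ e, (if tsrc e = x then F e else 0) = ∑ j, F (x, j) := by
  rw [Fintype.sum_prod_type]
  have h1 : ∀ y : Tor N d, (∑ j, if tsrc (y, j) = x then F (y, j) else 0)
      = if y = x then ∑ j, F (y, j) else 0 := by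
    intro y
    by_cases h : y = x
    · simp [tsrc, h]
    · simp [tsrc, h]
  rw [Finset.sum_congr rfl fun y _ => h1 y]
  simp

theorem sum_tgt {N : ℕ} [NeZero N] (x : Tor N d) (F : Tor N d × Fin d → ℝ) :
    ∑ e, (if ttgt e = x then F e else 0) = ∑ j, F (x - tev j, j) := by
  rw [Fintype.sum_prod_type_right]
  refine Finset.sum_congr rfl fun j _ => ?_
  have h1 : ∀ y : Tor N d, (if ttgt (y, j) = x then F (y, j) else 0)
      = if y = x - tev j then F (y, j) else 0 := by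
    intro y
    have : ttgt (y, j) = x ↔ y = x - tev j := by
      unfold ttgt
      constructor
      · intro h
        rw [← h]
        simp
      · intro h
        rw [h]
        simp
    simp only [this]
  rw [Finset.sum_congr rfl fun y _ => h1 y]
  simp

theorem op0_eq {N : ℕ} [NeZero N] (o : Tor N d × Fin d → Bool) (f : Tor N d → ℝ) (x : Tor N d) :
    Op tsrc ttgt 0 o f x = ∑ j, ((if o (x - tev j, j) then f x - f (x - tev j) else 0) +
      (if o (x, j) then f x - f (x + tev j) else 0)) := by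
  unfold Op
  have h1 : ∀ e : Tor N d × Fin d, (if o e then ((if ttgt e = x then gr tsrc ttgt f e else 0) -
      (if tsrc e = x then gr tsrc ttgt f e else 0)) else 0)
      = (if ttgt e = x then (if o e then gr tsrc ttgt f e else 0) else 0) +
        (if tsrc e = x then (if o e then -gr tsrc ttgt f e else 0) else 0) := by
    intro e
    by_cases h : o e = true <;> by_cases h2 : ttgt e = x <;> by_cases h3 : tsrc e = x <;>
      simp [h, h2, h3]
  rw [Finset.sum_congr rfl fun e _ => h1 e, Finset.sum_add_distrib, sum_src, sum_tgt,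
    ← Finset.sum_add_distrib, zero_mul, zero_add]
  refine Finset.sum_congr rfl fun j _ => ?_
  simp [gr, tsrc, ttgt]

theorem pop_nonneg {N : ℕ} [NeZero N] (hd : 1 ≤ d) (o : Tor N d × Fin d → Bool)
    {f : Tor N d → ℝ} (hf : ∀ x, 0 ≤ f x) (x : Tor N d) : 0 ≤ Pop o f x := by
  unfold Pop
  rw [op0_eq]
  have hd' : (0 : ℝ) < d := by exact_mod_cast hd
  have h1 : (∑ j : Fin d, ((if o (x - tev j, j) then f x - f (x - tev j) else 0) +
      (if o (x, j) then f x - f (x + tev j) else 0))) ≤ ∑ _j : Fin d, (f x + f x) := by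
    refine Finset.sum_le_sum fun j _ => add_le_add ?_ ?_
    · split_ifs
      · linarith [hf (x - tev j)]
      · exact hf x
    · split_ifs
      · linarith [hf (x + tev j)]
      · exact hf x
  rw [Finset.sum_const, Finset.card_univ, Fintype.card_fin, nsmul_eq_mul] at h1
  have h2 : (∑ j : Fin d, ((if o (x - tev j, j) then f x - f (x - tev j) else 0) +
      (if o (x, j) then f x - f (x + tev j) else 0))) / (4 * d) ≤ f x / 2 := by
    rw [div_le_div_iff₀ (by positivity) (by norm_num)]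
    nlinarith [h1]
  linarith [hf x]

theorem tEn_nonneg {N : ℕ} [NeZero N] (o : Tor N d × Fin d → Bool) (f : Tor N d → ℝ) :
    0 ≤ tEn o f := by
  unfold tEn
  refine Finset.sum_nonneg fun e _ => ?_
  split_ifs
  · positivity
  · exact le_refl _

theorem op_sq {N : ℕ} [NeZero N] (o : Tor N d × Fin d → Bool) (f : Tor N d → ℝ) :
    ∑ x, Op tsrc ttgt 0 o f x ^ 2 ≤ 4 * d * tEn o f := by
  have h1 : ∀ x, Op tsrc ttgt 0 o f x ^ 2 ≤ 2 * d *
      ∑ j, ((if o (x - tev j, j) then (f x - f (x - tev j)) ^ 2 else 0) +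
      (if o (x, j) then (f x - f (x + tev j)) ^ 2 else 0)) := by
    intro x
    rw [op0_eq]
    refine le_trans (sq_sum_le_card_mul_sum_sq) ?_
    rw [Finset.card_univ, Fintype.card_fin, mul_comm (2 : ℝ), mul_assoc]
    refine mul_le_mul_of_nonneg_left ?_ (by positivity)
    rw [Finset.mul_sum]
    refine Finset.sum_le_sum fun j _ => ?_
    split_ifs <;> nlinarith [sq_nonneg ((f x - f (x - tev j)) - (f x - f (x + tev j))),
      sq_nonneg (f x - f (x - tev j)), sq_nonneg (f x - f (x + tev j))]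
  have h2 : ∑ x : Tor N d, ∑ j : Fin d, (if o (x, j) then (f x - f (x + tev j)) ^ 2 else 0)
      = tEn o f := by
    unfold tEn
    rw [Fintype.sum_prod_type]
    refine Finset.sum_congr rfl fun x _ => Finset.sum_congr rfl fun j _ => ?_
    split_ifs
    · unfold gr tsrc ttgt
      ring
    · rfl
  have h3 : ∑ x : Tor N d, ∑ j : Fin d, (if o (x - tev j, j) then (f x - f (x - tev j)) ^ 2 else 0)
      = tEn o f := by
    rw [← h2, Finset.sum_comm, Finset.sum_comm (s := (univ : Finset (Tor N d))) (t := (univ : Finset (Fin d)))]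
    refine Finset.sum_congr rfl fun j _ => ?_
    refine Fintype.sum_equiv (Equiv.subRight (tev j : Tor N d)) _ _ fun x => ?_
    simp only [Equiv.subRight_apply]
    rw [sub_add_cancel]
    split_ifs
    · ring
    · rfl
  calc ∑ x, Op tsrc ttgt 0 o f x ^ 2 ≤ ∑ x, 2 * d *
      ∑ j, ((if o (x - tev j, j) then (f x - f (x - tev j)) ^ 2 else 0) +
      (if o (x, j) then (f x - f (x + tev j)) ^ 2 else 0)) := Finset.sum_le_sum fun x _ => h1 x
    _ = 2 * d * (tEn o f + tEn o f) := by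
        rw [← Finset.mul_sum]
        congr 1
        have h4 : ∑ x : Tor N d, ∑ j : Fin d,
            ((if o (x - tev j, j) then (f x - f (x - tev j)) ^ 2 else 0) +
            (if o (x, j) then (f x - f (x + tev j)) ^ 2 else 0)) =
            ∑ x : Tor N d, ∑ j : Fin d, (if o (x - tev j, j) then (f x - f (x - tev j)) ^ 2 else 0) +
            ∑ x : Tor N d, ∑ j : Fin d, (if o (x, j) then (f x - f (x + tev j)) ^ 2 else 0) := by
          rw [← Finset.sum_add_distrib]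
          refine Finset.sum_congr rfl fun x _ => ?_
          rw [Finset.sum_add_distrib]
        rw [h4, h2, h3]
    _ = 4 * d * tEn o f := by ring

theorem pop_symm {N : ℕ} [NeZero N] (o : Tor N d × Fin d → Bool) (f g : Tor N d → ℝ) :
    ∑ x, Pop o f x * g x = ∑ x, f x * Pop o g x := by
  have h1 : ∑ x, Op tsrc ttgt 0 o f x * g x = ∑ x, f x * Op tsrc ttgt 0 o g x := by
    rw [op_form]
    have := op_form tsrc ttgt (μ := 0) o g f
    rw [show ∑ x, f x * Op tsrc ttgt 0 o g x = ∑ x, Op tsrc ttgt 0 o g x * f x from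
      Finset.sum_congr rfl fun x _ => mul_comm _ _, this]
    simp only [zero_mul, zero_add]
    refine Finset.sum_congr rfl fun e _ => ?_
    split_ifs
    · ring
    · rfl
  unfold Pop
  have h2 : ∑ x, (f x - Op tsrc ttgt 0 o f x / (4 * d)) * g x
      = ∑ x, f x * g x - (∑ x, Op tsrc ttgt 0 o f x * g x) / (4 * d) := by
    rw [Finset.sum_div, ← Finset.sum_sub_distrib]
    refine Finset.sum_congr rfl fun x _ => ?_
    ring
  have h3 : ∑ x, f x * (g x - Op tsrc ttgt 0 o g x / (4 * d))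
      = ∑ x, f x * g x - (∑ x, f x * Op tsrc ttgt 0 o g x) / (4 * d) := by
    rw [Finset.sum_div, ← Finset.sum_sub_distrib]
    refine Finset.sum_congr rfl fun x _ => ?_
    ring
  rw [h2, h3, h1]

theorem pop_sum {N : ℕ} [NeZero N] (o : Tor N d × Fin d → Bool) (f : Tor N d → ℝ) :
    ∑ x, Pop o f x = ∑ x, f x := by
  have h1 := pop_symm o f (fun _ => 1)
  have h2 : ∀ x, Pop o (fun _ : Tor N d => (1 : ℝ)) x = 1 := by
    intro x
    unfold Pop
    rw [op0_eq]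
    simp
  simpa [h2] using h1

theorem pop_energy {N : ℕ} [NeZero N] (hd : 1 ≤ d) (o : Tor N d × Fin d → Bool)
    (f : Tor N d → ℝ) : ∑ x, Pop o f x ^ 2 ≤ ∑ x, f x ^ 2 - tEn o f / (4 * d) := by
  have hd' : (0 : ℝ) < d := by exact_mod_cast hd
  have h0 : ∑ x, Op tsrc ttgt 0 o f x * f x = tEn o f := by
    rw [op_form]
    unfold tEn
    rw [zero_mul, zero_add]
    refine Finset.sum_congr rfl fun e _ => ?_
    split_ifs
    · ring
    · rfl
  have h1 : ∑ x, Pop o f x ^ 2 = ∑ x, f x ^ 2 - (∑ x, Op tsrc ttgt 0 o f x * f x) / (2 * d) +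
      (∑ x, Op tsrc ttgt 0 o f x ^ 2) / (4 * d) ^ 2 := by
    rw [Finset.sum_div, Finset.sum_div, ← Finset.sum_sub_distrib, ← Finset.sum_add_distrib]
    refine Finset.sum_congr rfl fun x _ => ?_
    unfold Pop
    field_simp
    ring
  rw [h1, h0]
  have h2 := op_sq o f
  have h3 : (∑ x, Op tsrc ttgt 0 o f x ^ 2) / (4 * (d : ℝ)) ^ 2 ≤ tEn o f / (4 * d) := by
    rw [div_le_div_iff₀ (by positivity) (by positivity)]
    nlinarith [h2]
  have h4 : tEn o f / (2 * (d : ℝ)) = tEn o f / (4 * d) + tEn o f / (4 * d) := by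
    field_simp
    ring
  linarith

theorem pop_supp {N : ℕ} [NeZero N] (o : Tor N d × Fin d → Bool) {S : Set (Tor N d)}
    (hS : ∀ e, o e = true → (tsrc e ∈ S ↔ ttgt e ∈ S)) {f : Tor N d → ℝ}
    (hf : ∀ x, x ∉ S → f x = 0) (x : Tor N d) (hx : x ∉ S) : Pop o f x = 0 := by
  unfold Pop
  rw [op0_eq, hf x hx]
  rw [Finset.sum_eq_zero]
  · simp
  · intro j _
    have h1 : o (x - tev j, j) = true → f (x - tev j) = 0 := by
      intro h
      apply hf
      intro hm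
      have h2 := (hS _ h).1 hm
      simp only [ttgt, sub_add_cancel] at h2
      exact hx h2
    have h2 : o (x, j) = true → f (x + tev j) = 0 := by
      intro h
      apply hf
      intro hm
      exact hx ((hS _ h).2 hm)
    split_ifs with h3 h4 h4
    · simp [h1 h3, h2 h4]
    · simp [h1 h3]
    · simp [h2 h4]
    · simp


variable {N : ℕ} [NeZero N]

theorem iter_nonneg (hd : 1 ≤ d) (o : Tor N d × Fin d → Bool) (a : Tor N d) (n : ℕ)
    (x : Tor N d) : 0 ≤ ((Pop o)^[n] (Pi.single a 1)) x := by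
  induction n generalizing x with
  | zero =>
    simp only [Function.iterate_zero, id]
    by_cases h : x = a
    · rw [h]
      simp
    · simp [h]
  | succ n ih =>
    rw [Function.iterate_succ_apply']
    exact pop_nonneg hd o ih x

theorem iter_sum (o : Tor N d × Fin d → Bool) (a : Tor N d) (n : ℕ) :
    ∑ x, ((Pop o)^[n] (Pi.single a 1)) x = 1 := by
  induction n with
  | zero => simp
  | succ n ih => rw [Function.iterate_succ_apply', pop_sum, ih]

theorem iter_le_one (hd : 1 ≤ d) (o : Tor N d × Fin d → Bool) (a : Tor N d) (n : ℕ)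
    (x : Tor N d) : ((Pop o)^[n] (Pi.single a 1)) x ≤ 1 := by
  refine le_trans ?_ (le_of_eq (iter_sum o a n))
  exact Finset.single_le_sum (f := fun x => ((Pop o)^[n] (Pi.single a 1)) x)
    (fun y _ => iter_nonneg hd o a n y) (Finset.mem_univ x)

theorem iter_supp (o : Tor N d × Fin d → Bool) {S : Set (Tor N d)}
    (hS : ∀ e, o e = true → (tsrc e ∈ S ↔ ttgt e ∈ S)) {a : Tor N d} (ha : a ∈ S) (n : ℕ)
    (x : Tor N d) (hx : x ∉ S) : ((Pop o)^[n] (Pi.single a 1)) x = 0 := by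
  induction n generalizing x with
  | zero =>
    simp only [Function.iterate_zero, id]
    have : x ≠ a := fun h => hx (h ▸ ha)
    simp [this]
  | succ n ih =>
    rw [Function.iterate_succ_apply']
    exact pop_supp o hS ih x hx

/-- the square norm of the heat kernel -/
noncomputable def hk (o : Tor N d × Fin d → Bool) (a : Tor N d) (n : ℕ) : ℝ :=
  ∑ x, ((Pop o)^[n] (Pi.single a 1)) x ^ 2

theorem hk_nonneg (o : Tor N d × Fin d → Bool) (a : Tor N d) (n : ℕ) : 0 ≤ hk o a n :=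
  Finset.sum_nonneg fun _ _ => sq_nonneg _

theorem hk_zero (o : Tor N d × Fin d → Bool) (a : Tor N d) : hk o a 0 = 1 := by
  unfold hk
  simp only [Function.iterate_zero, id]
  rw [Finset.sum_eq_single a]
  · simp
  · intro x _ hx
    simp [hx]
  · intro h
    exact absurd (Finset.mem_univ a) h

theorem hk_succ (hd : 1 ≤ d) (o : Tor N d × Fin d → Bool) (a : Tor N d) (n : ℕ) :
    hk o a (n + 1) ≤ hk o a n - tEn o ((Pop o)^[n] (Pi.single a 1)) / (4 * d) := by
  unfold hk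
  rw [Function.iterate_succ_apply']
  exact pop_energy hd o _

theorem hk_anti (hd : 1 ≤ d) (o : Tor N d × Fin d → Bool) (a : Tor N d) : Antitone (hk o a) := by
  refine antitone_nat_of_succ_le fun n => ?_
  have h1 := hk_succ hd o a n
  have h2 : 0 ≤ tEn o ((Pop o)^[n] (Pi.single a 1)) / (4 * d) :=
    div_nonneg (tEn_nonneg _ _) (by positivity)
  linarith

theorem hk_le_one (hd : 1 ≤ d) (o : Tor N d × Fin d → Bool) (a : Tor N d) (n : ℕ) :
    hk o a n ≤ 1 := by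
  rw [← hk_zero o a]
  exact hk_anti hd o a (Nat.zero_le n)

/-- one step -/
theorem hk_step (hd : 1 ≤ d) {o : Tor N d × Fin d → Bool} {S : Set (Tor N d)} {L : ℝ}
    (hL : 1 ≤ L) (hN : Nash o S L) (hS : ∀ e, o e = true → (tsrc e ∈ S ↔ ttgt e ∈ S))
    {a : Tor N d} (ha : a ∈ S) {n R : ℕ} (hR : 1 ≤ R) (hRN : 32 * R ≤ N)
    (hh : 2 * L / (R : ℝ) ^ d ≤ hk o a n) :
    hk o a (n + 1) ≤ hk o a n * (1 - 1 / (8 * d * L * (R : ℝ) ^ 2)) := by
  have hd' : (0 : ℝ) < d := by exact_mod_cast hd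
  have hR' : (0 : ℝ) < R := by exact_mod_cast hR
  have hL' : (0 : ℝ) < L := by linarith
  have h1 := hN ((Pop o)^[n] (Pi.single a 1)) (iter_supp o hS ha n) R hR hRN
  have h2 : ∑ x, |((Pop o)^[n] (Pi.single a 1)) x| = 1 := by
    refine Eq.trans ?_ (iter_sum o a n)
    exact Finset.sum_congr rfl fun x _ => abs_of_nonneg (iter_nonneg hd o a n x)
  rw [h2, one_pow] at h1
  change hk o a n ≤ _ at h1
  have h3 := hk_succ hd o a n
  set T := tEn o ((Pop o)^[n] (Pi.single a 1)) with hT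
  have h4 : L * (1 / (R : ℝ) ^ d) ≤ hk o a n / 2 := by
    have : L * (1 / (R : ℝ) ^ d) = 2 * L / (R : ℝ) ^ d / 2 := by ring
    rw [this]
    linarith
  have h5 : hk o a n / 2 ≤ L * (R : ℝ) ^ 2 * T := by
    have : L * ((R : ℝ) ^ 2 * T + 1 / (R : ℝ) ^ d) = L * (R : ℝ) ^ 2 * T + L * (1 / (R : ℝ) ^ d) := by
      ring
    linarith
  have h6 : hk o a n * (1 / (8 * d * L * (R : ℝ) ^ 2)) ≤ T / (4 * d) := by
    rw [mul_one_div, div_le_div_iff₀ (by positivity) (by positivity)]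
    nlinarith [h5]
  have h7 : hk o a n * (1 - 1 / (8 * d * L * (R : ℝ) ^ 2)) =
      hk o a n - hk o a n * (1 / (8 * d * L * (R : ℝ) ^ 2)) := by ring
  rw [h7]
  linarith

/-- decay on the scale `R`, started from time `n₀` -/
theorem hk_decay (hd : 1 ≤ d) {o : Tor N d × Fin d → Bool} {S : Set (Tor N d)} {L : ℝ}
    (hL : 1 ≤ L) (hN : Nash o S L) (hS : ∀ e, o e = true → (tsrc e ∈ S ↔ ttgt e ∈ S))
    {a : Tor N d} (ha : a ∈ S) {n₀ R : ℕ} (hR : 1 ≤ R) (hRN : 32 * R ≤ N) (k : ℕ)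
    (hh : 2 * L / (R : ℝ) ^ d ≤ hk o a (n₀ + k)) :
    hk o a (n₀ + k) ≤ hk o a n₀ * Real.exp (-(k / (8 * d * L * (R : ℝ) ^ 2))) := by
  have hd' : (0 : ℝ) < d := by exact_mod_cast hd
  have hR' : (0 : ℝ) < R := by exact_mod_cast hR
  have hL' : (0 : ℝ) < L := by linarith
  induction k with
  | zero => simp
  | succ k ih =>
    have h0 : 2 * L / (R : ℝ) ^ d ≤ hk o a (n₀ + k) :=
      le_trans hh (hk_anti hd o a (by omega))
    have h1 := ih h0
    have h2 := hk_step hd hL hN hS ha hR hRN h0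
    have h3 : 1 - 1 / (8 * d * L * (R : ℝ) ^ 2) ≤ Real.exp (-(1 / (8 * d * L * (R : ℝ) ^ 2))) := by
      have := Real.add_one_le_exp (-(1 / (8 * d * L * (R : ℝ) ^ 2)))
      linarith
    have h4 : Real.exp (-(((k + 1 : ℕ) : ℝ) / (8 * d * L * (R : ℝ) ^ 2))) =
        Real.exp (-((k : ℝ) / (8 * d * L * (R : ℝ) ^ 2))) *
          Real.exp (-(1 / (8 * d * L * (R : ℝ) ^ 2))) := by
      rw [← Real.exp_add]
      congr 1
      push_cast
      ring
    rw [h4, ← mul_assoc]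
    calc hk o a (n₀ + (k + 1)) ≤ hk o a (n₀ + k) * (1 - 1 / (8 * d * L * (R : ℝ) ^ 2)) := h2
      _ ≤ hk o a (n₀ + k) * Real.exp (-(1 / (8 * d * L * (R : ℝ) ^ 2))) :=
        mul_le_mul_of_nonneg_left h3 (hk_nonneg _ _ _)
      _ ≤ _ := mul_le_mul_of_nonneg_right h1 (Real.exp_pos _).le

theorem hk_scale (hd : 1 ≤ d) {o : Tor N d × Fin d → Bool} {S : Set (Tor N d)} {L : ℝ}
    (hL : 1 ≤ L) (hN : Nash o S L) (hS : ∀ e, o e = true → (tsrc e ∈ S ↔ ttgt e ∈ S))
    {a : Tor N d} (ha : a ∈ S) (i : ℕ) (hi : 64 * 2 ^ i ≤ N) (n : ℕ)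
    (hn : 16 * (d : ℝ) ^ 2 * L * 4 ^ i ≤ n) : hk o a n ≤ 2 * L / ((2 : ℝ) ^ i) ^ d := by
  have hd' : (1 : ℝ) ≤ d := by exact_mod_cast hd
  have hL' : (0 : ℝ) < L := by linarith
  induction i generalizing n with
  | zero =>
    have := hk_le_one hd o a n
    simp only [pow_zero, one_pow, div_one]
    linarith
  | succ i ih =>
    by_contra hcon
    push Not at hcon
    have hi' : 64 * 2 ^ i ≤ N := by
      rw [pow_succ] at hi
      omega
    have hRN : 32 * 2 ^ (i + 1) ≤ N := by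
      rw [pow_succ] at hi ⊢
      omega
    set n₀ := ⌈16 * (d : ℝ) ^ 2 * L * 4 ^ i⌉₊ with hn₀
    have hn₀1 : 16 * (d : ℝ) ^ 2 * L * 4 ^ i ≤ n₀ := Nat.le_ceil _
    have hpos : 0 < 16 * (d : ℝ) ^ 2 * L * 4 ^ i := by positivity
    have hn₀2 : (n₀ : ℝ) < 16 * (d : ℝ) ^ 2 * L * 4 ^ i + 1 := Nat.ceil_lt_add_one hpos.le
    have hK1 : 1 ≤ 16 * (d : ℝ) ^ 2 * L * 4 ^ i := by
      have h1 : (1 : ℝ) ≤ 4 ^ i := one_le_pow₀ (by norm_num)
      have h2 : (1 : ℝ) ≤ (d : ℝ) ^ 2 := one_le_pow₀ hd'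
      have h3 : (1 : ℝ) ≤ (d : ℝ) ^ 2 * L := one_le_mul_of_one_le_of_one_le h2 hL
      have h4 : (1 : ℝ) ≤ (d : ℝ) ^ 2 * L * 4 ^ i := one_le_mul_of_one_le_of_one_le h3 h1
      have h5 : 16 * (d : ℝ) ^ 2 * L * 4 ^ i = 16 * ((d : ℝ) ^ 2 * L * 4 ^ i) := by ring
      rw [h5]
      linarith
    have hn' : 4 * (16 * (d : ℝ) ^ 2 * L * 4 ^ i) ≤ n := by
      rw [pow_succ (4 : ℝ) i] at hn
      linarith
    have hle : n₀ ≤ n := by
      have : (n₀ : ℝ) ≤ n := by linarith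
      exact_mod_cast this
    obtain ⟨k, rfl⟩ := Nat.exists_eq_add_of_le hle
    have hk2 : 2 * (16 * (d : ℝ) ^ 2 * L * 4 ^ i) ≤ k := by
      push_cast at hn'
      linarith
    have h1 := ih hi' n₀ hn₀1
    have hcast : ((2 ^ (i + 1) : ℕ) : ℝ) = (2 : ℝ) ^ (i + 1) := by push_cast; ring
    have h2 := hk_decay hd hL hN hS ha (n₀ := n₀) (R := 2 ^ (i + 1)) Nat.one_le_two_pow hRN k
      (by rw [hcast]; exact hcon.le)
    rw [hcast] at h2
    have h3 : (d : ℝ) ≤ k / (8 * d * L * ((2 : ℝ) ^ (i + 1)) ^ 2) := by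
      rw [le_div_iff₀ (by positivity)]
      have : ((2 : ℝ) ^ (i + 1)) ^ 2 = 4 * 4 ^ i := by
        rw [← pow_mul, mul_comm, pow_mul]
        norm_num
        ring
      rw [this]
      calc (d : ℝ) * (8 * d * L * (4 * 4 ^ i)) = 2 * (16 * (d : ℝ) ^ 2 * L * 4 ^ i) := by ring
        _ ≤ k := hk2
    have h4 : Real.exp (-(k / (8 * d * L * ((2 : ℝ) ^ (i + 1)) ^ 2))) ≤ 1 / (2 : ℝ) ^ d := by
      have h5 : Real.exp (-(k / (8 * d * L * ((2 : ℝ) ^ (i + 1)) ^ 2))) ≤ Real.exp (-(d : ℝ)) :=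
        Real.exp_le_exp.2 (by linarith)
      refine le_trans h5 ?_
      rw [Real.exp_neg, ← one_div]
      refine one_div_le_one_div_of_le (by positivity) ?_
      rw [← Real.exp_one_pow]
      refine pow_le_pow_left₀ (by norm_num) ?_ d
      have := Real.add_one_le_exp (1 : ℝ)
      linarith
    have h6 : hk o a (n₀ + k) ≤ 2 * L / ((2 : ℝ) ^ i) ^ d * (1 / (2 : ℝ) ^ d) :=
      le_trans h2 (mul_le_mul h1 h4 (Real.exp_pos _).le (by positivity))
    have h7 : 2 * L / ((2 : ℝ) ^ i) ^ d * (1 / (2 : ℝ) ^ d) = 2 * L / ((2 : ℝ) ^ (i + 1)) ^ d := by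
      rw [pow_succ (2 : ℝ) i, mul_pow]
      field_simp
    linarith

theorem low_bd {B : ℝ} (hB : 1 ≤ B) {n : ℕ} (hn : 1 ≤ n) (j : ℕ) (h : (n : ℝ) ≤ B * 4 ^ j) :
    1 / ((2 : ℝ) ^ j) ^ d ≤ B ^ d * (n : ℝ) ^ (-(d : ℝ) / 2) := by
  have hn' : (0 : ℝ) < n := by exact_mod_cast hn
  have h1 : (n : ℝ) ^ ((d : ℝ) / 2) ≤ B ^ d * ((2 : ℝ) ^ j) ^ d := by
    calc (n : ℝ) ^ ((d : ℝ) / 2) ≤ (B * 4 ^ j) ^ ((d : ℝ) / 2) :=
          Real.rpow_le_rpow hn'.le h (by positivity)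
      _ = B ^ ((d : ℝ) / 2) * ((4 : ℝ) ^ j) ^ ((d : ℝ) / 2) :=
          Real.mul_rpow (by linarith) (by positivity)
      _ ≤ B ^ d * ((2 : ℝ) ^ j) ^ d := by
          refine mul_le_mul ?_ (le_of_eq ?_) (by positivity) (by positivity)
          · rw [← Real.rpow_natCast B d]
            refine Real.rpow_le_rpow_of_exponent_le hB ?_
            have : (0 : ℝ) ≤ d := by positivity
            linarith
          · rw [show (4 : ℝ) = 2 ^ (2 : ℕ) by norm_num, ← pow_mul, ← pow_mul, mul_comm 2 j, pow_mul,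
              ← Real.rpow_natCast (((2 : ℝ) ^ j)) 2, ← Real.rpow_mul (by positivity)]
            rw [show ((2 : ℕ) : ℝ) * ((d : ℝ) / 2) = (d : ℕ) by push_cast; ring, Real.rpow_natCast,
              ← pow_mul]
  have h2 : (n : ℝ) ^ (-(d : ℝ) / 2) = ((n : ℝ) ^ ((d : ℝ) / 2))⁻¹ := by
    rw [neg_div, Real.rpow_neg hn'.le]
  rw [h2, ← div_eq_mul_inv, div_le_div_iff₀ (by positivity) (Real.rpow_pos_of_pos hn' _), one_mul]
  exact h1

theorem pow_le_pow_C {L : ℝ} (hL : 1 ≤ L) {a b : ℕ} (h : a ≤ b) : L ^ a ≤ L ^ b :=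
  pow_le_pow_right₀ hL h

end HKaux

open HKaux in
/-- the heat kernel bound -/
theorem heat_kernel (d : ℕ) (hd : 1 ≤ d) : ∃ C : ℕ, ∀ {N : ℕ} [NeZero N], 64 ≤ N →
    ∀ {o : Tor N d × Fin d → Bool} {S : Set (Tor N d)} {L : ℝ}, 1 ≤ L → Nash o S L →
      (∀ e, o e = true → (tsrc e ∈ S ↔ ttgt e ∈ S)) → ∀ a ∈ S, ∀ n : ℕ, 1 ≤ n →
        ∑ x, ((Pop o)^[n] (Pi.single a 1)) x ^ 2 ≤
          C * L ^ C * ((n : ℝ) ^ (-(d : ℝ) / 2) + (N : ℝ) ^ (-(d : ℝ))) := by
  refine ⟨2 * 2 ^ d * (16 * d ^ 2) ^ d * 128 ^ d + d + 1, ?_⟩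
  intro N _ hN64 o S L hL hN hS a ha n hn
  set C : ℕ := 2 * 2 ^ d * (16 * d ^ 2) ^ d * 128 ^ d + d + 1 with hC
  change hk o a n ≤ _
  have hd' : (1 : ℝ) ≤ d := by exact_mod_cast hd
  have hL' : (0 : ℝ) < L := by linarith
  have hn' : (0 : ℝ) < n := by exact_mod_cast hn
  have hN' : (0 : ℝ) < N := by
    have : 0 < N := by omega
    exact_mod_cast this
  have hx1 : 0 < (n : ℝ) ^ (-(d : ℝ) / 2) := Real.rpow_pos_of_pos hn' _
  have hx2 : 0 < (N : ℝ) ^ (-(d : ℝ)) := Real.rpow_pos_of_pos hN' _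
  have hK : (1 : ℝ) ≤ (16 * (d : ℝ) ^ 2) ^ d := by
    refine one_le_pow₀ ?_
    nlinarith
  have h2d : (1 : ℝ) ≤ 2 ^ d := one_le_pow₀ (by norm_num)
  have h128 : (1 : ℝ) ≤ 128 ^ d := one_le_pow₀ (by norm_num)
  have hCr : (C : ℝ) = 2 * 2 ^ d * (16 * (d : ℝ) ^ 2) ^ d * 128 ^ d + d + 1 := by
    rw [hC]
    push_cast
    ring
  have hC1 : 2 * 2 ^ d * (16 * (d : ℝ) ^ 2) ^ d ≤ C := by
    rw [hCr]
    have h1 : 2 * 2 ^ d * (16 * (d : ℝ) ^ 2) ^ d * 1 ≤ 2 * 2 ^ d * (16 * (d : ℝ) ^ 2) ^ d * 128 ^ d :=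
      mul_le_mul_of_nonneg_left h128 (by positivity)
    linarith
  have hC2 : (2 : ℝ) * 128 ^ d ≤ C := by
    rw [hCr]
    have h1 : (1 : ℝ) ≤ 2 ^ d * (16 * (d : ℝ) ^ 2) ^ d := one_le_mul_of_one_le_of_one_le h2d hK
    have h2 : 1 * (2 * (128 : ℝ) ^ d) ≤ 2 ^ d * (16 * (d : ℝ) ^ 2) ^ d * (2 * 128 ^ d) :=
      mul_le_mul_of_nonneg_right h1 (by positivity)
    have h3 : 2 * 2 ^ d * (16 * (d : ℝ) ^ 2) ^ d * 128 ^ d =
      2 ^ d * (16 * (d : ℝ) ^ 2) ^ d * (2 * 128 ^ d) := by ring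
    linarith
  have hLC : L ^ (d + 1) ≤ L ^ C := pow_le_pow_right₀ hL (by rw [hC]; omega)
  have hLC1 : L ^ 1 ≤ L ^ C := pow_le_pow_right₀ hL (by rw [hC]; omega)
  have hB : (1 : ℝ) ≤ 16 * (d : ℝ) ^ 2 * L := by nlinarith
  -- the final estimates
  have fin1 : ∀ t : ℝ, t ≤ 2 * 2 ^ d * L * ((16 * (d : ℝ) ^ 2 * L) ^ d * (n : ℝ) ^ (-(d : ℝ) / 2)) →
      t ≤ C * L ^ C * ((n : ℝ) ^ (-(d : ℝ) / 2) + (N : ℝ) ^ (-(d : ℝ))) := by
    intro t ht
    refine le_trans ht ?_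
    calc 2 * 2 ^ d * L * ((16 * (d : ℝ) ^ 2 * L) ^ d * (n : ℝ) ^ (-(d : ℝ) / 2))
        = (2 * 2 ^ d * (16 * (d : ℝ) ^ 2) ^ d) * L ^ (d + 1) * (n : ℝ) ^ (-(d : ℝ) / 2) := by
          rw [mul_pow _ L]
          ring
      _ ≤ C * L ^ C * ((n : ℝ) ^ (-(d : ℝ) / 2) + (N : ℝ) ^ (-(d : ℝ))) := by
          refine mul_le_mul ?_ (by linarith) hx1.le (by positivity)
          exact mul_le_mul hC1 hLC (by positivity) (by positivity)
  by_cases hcase : (n : ℝ) < 16 * (d : ℝ) ^ 2 * L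
  · apply fin1
    have h1 := low_bd (d := d) hB hn 0 (by rw [pow_zero, mul_one]; exact hcase.le)
    simp only [pow_zero, one_pow, div_one] at h1
    have h2 := hk_le_one hd o a n
    have h3 : 1 ≤ 2 * 2 ^ d * L := by nlinarith
    nlinarith
  · push Not at hcase
    have hex : ∃ j : ℕ, ¬ (64 * 2 ^ j ≤ N ∧ 16 * (d : ℝ) ^ 2 * L * 4 ^ j ≤ n) := by
      refine ⟨N, fun h => ?_⟩
      have := Nat.lt_two_pow_self (n := N)
      omega
    classical
    set j := Nat.find hex with hj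
    have hj1 := Nat.find_spec hex
    have hj0 : j ≠ 0 := by
      intro h0
      rw [← hj, h0] at hj1
      apply hj1
      refine ⟨by omega, ?_⟩
      rw [pow_zero, mul_one]
      exact hcase
    obtain ⟨i, hi⟩ := Nat.exists_eq_succ_of_ne_zero hj0
    have hi1 : 64 * 2 ^ i ≤ N ∧ 16 * (d : ℝ) ^ 2 * L * 4 ^ i ≤ n := by
      by_contra h
      exact Nat.find_min hex (m := i) (by rw [← hj, hi]; exact Nat.lt_succ_self i) h
    have h1 := hk_scale hd hL hN hS ha i hi1.1 n hi1.2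
    have h2 : 2 * L / ((2 : ℝ) ^ i) ^ d = 2 * 2 ^ d * L * (1 / ((2 : ℝ) ^ (i + 1)) ^ d) := by
      rw [pow_succ (2 : ℝ) i, mul_pow]
      field_simp
    rw [h2] at h1
    rw [← hj, hi] at hj1
    rw [not_and_or] at hj1
    rcases hj1 with hj1 | hj1
    · -- the scale of the torus
      have h3 : (N : ℝ) ≤ 64 * 2 ^ (i + 1) := by
        have : N ≤ 64 * 2 ^ (i + 1) := by
          have := not_le.1 hj1
          exact this.le
        exact_mod_cast this
      have h4 : 1 / ((2 : ℝ) ^ (i + 1)) ^ d ≤ 64 ^ d * (N : ℝ) ^ (-(d : ℝ)) := by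
        rw [Real.rpow_neg hN'.le, Real.rpow_natCast, ← div_eq_mul_inv,
          div_le_div_iff₀ (by positivity) (by positivity), one_mul, ← mul_pow]
        exact pow_le_pow_left₀ hN'.le h3 d
      calc hk o a n ≤ 2 * 2 ^ d * L * (1 / ((2 : ℝ) ^ (i + 1)) ^ d) := h1
        _ ≤ 2 * 2 ^ d * L * (64 ^ d * (N : ℝ) ^ (-(d : ℝ))) :=
            mul_le_mul_of_nonneg_left h4 (by positivity)
        _ = (2 * 128 ^ d) * L ^ 1 * (N : ℝ) ^ (-(d : ℝ)) := by
            rw [show (128 : ℝ) = 2 * 64 by norm_num, mul_pow]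
            ring
        _ ≤ C * L ^ C * ((n : ℝ) ^ (-(d : ℝ) / 2) + (N : ℝ) ^ (-(d : ℝ))) := by
            refine mul_le_mul ?_ (by linarith) hx2.le (by positivity)
            exact mul_le_mul hC2 hLC1 (by positivity) (by positivity)
    · apply fin1
      refine le_trans h1 ?_
      refine mul_le_mul_of_nonneg_left ?_ (by positivity)
      exact low_bd hB hn (i + 1) (not_le.1 hj1).le

end Pool.Agent.Lib.MP_566bac_pr.Hd
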