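import Pool.Agent.Lib.MP_566bac_pr.Hd.DefsC

/-!
# HOM: derivatives of homogeneous functions
-/

open Finset MeasureTheory ProbabilityTheory Filter
open scoped Classical

namespace Pool.Agent.Lib.MP_566bac_pr.Hd

theorem HOM_congr {V F : Type} [NormedAddCommGroup V] [NormedSpace ℝ V]
    [NormedAddCommGroup F] [NormedSpace ℝ F] {f g : V → F} {x : V} (h : f =ᶠ[nhds x] g) (n : ℕ) :
    iteratedFDeriv ℝ n f x = iteratedFDeriv ℝ n g x := by
  rw [← iteratedFDerivWithin_univ, ← iteratedFDerivWithin_univ]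
  rw [← nhdsWithin_univ] at h
  exact h.iteratedFDerivWithin_eq (h.self_of_nhdsWithin (Set.mem_univ x)) n

/-- vector valued version -/
theorem HOM_vec {V F : Type} [NormedAddCommGroup V] [NormedSpace ℝ V] [FiniteDimensional ℝ V]
    [NormedAddCommGroup F] [NormedSpace ℝ F]
    (H : V → F) (hH : ∀ y, y ≠ 0 → ContDiffAt ℝ 4 H y) (ρ : ℝ) (κ : ℝ → F)
    (hhom : ∀ l : ℝ, 0 < l → ∀ y, y ≠ 0 → H (l • y) = l ^ ρ • H y + κ l) :
    ∃ C : ℝ, 0 < C ∧ ∀ y, y ≠ 0 → ∀ n : ℕ, 1 ≤ n → n ≤ 4 →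
      ‖iteratedFDeriv ℝ n H y‖ ≤ C * ‖y‖ ^ (ρ - n) := by
  have hopen : IsOpen ({0}ᶜ : Set V) := isOpen_compl_singleton
  have hon : ContDiffOn ℝ 4 H ({0}ᶜ : Set V) := fun y hy => (hH y hy).contDiffWithinAt
  have hcont : ∀ n : ℕ, n ≤ 4 → ContinuousOn (iteratedFDeriv ℝ n H) ({0}ᶜ : Set V) := by
    intro n hn
    have h1 := hon.continuousOn_iteratedFDerivWithin (m := n) (by exact_mod_cast hn)
      hopen.uniqueDiffOn
    exact h1.congr fun y hy => (iteratedFDerivWithin_of_isOpen n hopen hy).symm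
  have hcpt : IsCompact (Metric.sphere (0 : V) 1) := isCompact_sphere 0 1
  have hb : ∀ n : ℕ, ∃ C : ℝ, 0 ≤ C ∧ (n ≤ 4 → ∀ u ∈ Metric.sphere (0 : V) 1,
      ‖iteratedFDeriv ℝ n H u‖ ≤ C) := by
    intro n
    by_cases hn : n ≤ 4
    · obtain ⟨C, hC⟩ := hcpt.exists_bound_of_continuousOn ((hcont n hn).mono (by
        intro u hu h0
        rw [Set.mem_singleton_iff] at h0
        rw [h0, mem_sphere_zero_iff_norm, norm_zero] at hu
        exact zero_ne_one hu))
      exact ⟨max C 0, le_max_right _ _, fun _ u hu => (hC u hu).trans (le_max_left _ _)⟩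
    · exact ⟨0, le_rfl, fun h => absurd h hn⟩
  choose B hB0 hB using hb
  refine ⟨1 + ∑ n ∈ range 5, B n, by
    have : 0 ≤ ∑ n ∈ range 5, B n := Finset.sum_nonneg fun n _ => hB0 n
    linarith, ?_⟩
  intro y hy n hn1 hn4
  set l : ℝ := ‖y‖ with hl
  have hl0 : 0 < l := norm_pos_iff.2 hy
  set u : V := l⁻¹ • y with hu
  have hyu : y = l • u := by rw [hu, smul_smul, mul_inv_cancel₀ hl0.ne', one_smul]
  have hun : ‖u‖ = 1 := by
    rw [hu, norm_smul, norm_inv, Real.norm_eq_abs, abs_of_pos hl0, ← hl,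
      inv_mul_cancel₀ hl0.ne']
  have hu0 : u ≠ 0 := by
    intro h
    rw [h, norm_zero] at hun
    exact zero_ne_one hun
  -- scaling
  let g : V ≃L[ℝ] V := ContinuousLinearEquiv.smulLeft (Units.mk0 l hl0.ne')
  have hg : ∀ z, g z = l • z := fun z => rfl
  have h1 : iteratedFDeriv ℝ n (H ∘ g) u =
      (iteratedFDeriv ℝ n H (g u)).compContinuousLinearMap fun _ => (g : V →L[ℝ] V) := by
    have := g.iteratedFDerivWithin_comp_right H (s := Set.univ) uniqueDiffOn_univ (x := u)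
      (Set.mem_univ _) n
    rwa [Set.preimage_univ, iteratedFDerivWithin_univ, iteratedFDerivWithin_univ] at this
  have h2 : (H ∘ g) =ᶠ[nhds u] fun z => l ^ ρ • H z + κ l := by
    filter_upwards [hopen.mem_nhds (show u ∈ ({0}ᶜ : Set V) from hu0)] with z hz
    rw [Function.comp, hg]
    exact hhom l hl0 z hz
  have h3 : iteratedFDeriv ℝ n (H ∘ g) u = l ^ ρ • iteratedFDeriv ℝ n H u := by
    rw [HOM_congr h2 n]
    have hHn : ContDiffAt ℝ n H u := (hH u hu0).of_le (by exact_mod_cast hn4)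
    have e1 : iteratedFDeriv ℝ n (fun z => l ^ ρ • H z + κ l) u =
        iteratedFDeriv ℝ n (fun z => l ^ ρ • H z) u + iteratedFDeriv ℝ n (fun _ : V => κ l) u :=
      iteratedFDeriv_add_apply (contDiffAt_const.smul hHn) contDiffAt_const
    rw [e1, iteratedFDeriv_const_of_ne (by omega), Pi.zero_apply, add_zero]
    exact iteratedFDeriv_const_smul_apply hHn
  have h4 : (iteratedFDeriv ℝ n H (g u)).compContinuousLinearMap (fun _ => (g : V →L[ℝ] V)) =
      l ^ n • iteratedFDeriv ℝ n H y := by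
    ext v
    rw [ContinuousMultilinearMap.compContinuousLinearMap_apply,
      smul_apply, hg, ← hyu]
    have : (fun i => (g : V →L[ℝ] V) (v i)) = fun i => (fun _ : Fin n => l) i • v i := by
      funext i
      exact hg (v i)
    rw [this, ContinuousMultilinearMap.map_smul_univ]
    simp
  have h5 : l ^ n • iteratedFDeriv ℝ n H y = l ^ ρ • iteratedFDeriv ℝ n H u := by
    rw [← h4, ← h1, h3]
  have h6 : l ^ n * ‖iteratedFDeriv ℝ n H y‖ = l ^ ρ * ‖iteratedFDeriv ℝ n H u‖ := by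
    have := congrArg norm h5
    rwa [norm_smul, norm_smul, Real.norm_eq_abs, Real.norm_eq_abs,
      abs_of_pos (pow_pos hl0 n), abs_of_pos (Real.rpow_pos_of_pos hl0 ρ)] at this
  have h7 : ‖iteratedFDeriv ℝ n H u‖ ≤ 1 + ∑ n ∈ range 5, B n := by
    have e1 := hB n hn4 u (by rw [mem_sphere_zero_iff_norm, hun])
    have e2 : B n ≤ ∑ n ∈ range 5, B n :=
      Finset.single_le_sum (fun n _ => hB0 n) (mem_range.2 (by omega))
    linarith
  have h8 : l ^ (ρ - n) = l ^ ρ / l ^ n := by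
    rw [Real.rpow_sub hl0, Real.rpow_natCast]
  rw [h8, mul_div_assoc', le_div_iff₀ (pow_pos hl0 n), mul_comm, h6, mul_comm]
  exact mul_le_mul_of_nonneg_right h7 (Real.rpow_pos_of_pos hl0 ρ).le

theorem HOM_slice {V F : Type} [NormedAddCommGroup V] [NormedSpace ℝ V]
    [NormedAddCommGroup F] [NormedSpace ℝ F]
    (H : V × ℝ → F) (hH : ∀ y, y ≠ 0 → ContDiffAt ℝ 4 H y) {a : ℝ} (ha : a ≠ 0) (e x : V)
    {n : ℕ} (hn : n ≤ 4) :
    ‖iteratedFDeriv ℝ n (fun x => H (x - e, a)) x‖ ≤ ‖iteratedFDeriv ℝ n H (x - e, a)‖ := by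
  set H' : V × ℝ → F := fun p => H (p - (e, -a)) with hH'
  set s : Set (V × ℝ) := {p | p ≠ (e, -a)} with hs
  have hopen : IsOpen s := isOpen_compl_singleton
  have hx : ∀ x : V, (x, (0 : ℝ)) ∈ s := by
    intro x h
    exact ha (by have := congrArg Prod.snd h; simpa using this)
  have hon : ContDiffOn ℝ 4 H' s := by
    intro p hp
    have h1 : ContDiffAt ℝ 4 H (p - (e, -a)) := hH _ (sub_ne_zero.2 hp)
    exact (h1.comp p (contDiffAt_id.sub contDiffAt_const)).contDiffWithinAt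
  let g : V →L[ℝ] V × ℝ := ContinuousLinearMap.inl ℝ V ℝ
  have hpre : g ⁻¹' s = Set.univ := by
    ext z
    simp only [Set.mem_preimage, Set.mem_univ, iff_true]
    exact hx z
  have h1 := g.iteratedFDerivWithin_comp_right hon hopen.uniqueDiffOn
    (by rw [hpre]; exact uniqueDiffOn_univ) (x := x) (hx x) (i := n) (by exact_mod_cast hn)
  rw [hpre, iteratedFDerivWithin_univ, iteratedFDerivWithin_of_isOpen n hopen (show g x ∈ s from hx x)] at h1
  have h2 : (H' ∘ g) = fun x => H (x - e, a) := by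
    funext z
    simp only [hH', Function.comp, g, ContinuousLinearMap.inl_apply, Prod.mk_sub_mk, sub_neg_eq_add,
      zero_add]
  have h3 : iteratedFDeriv ℝ n H' (g x) = iteratedFDeriv ℝ n H (x - e, a) := by
    rw [hH', iteratedFDeriv_comp_sub]
    simp [g, Prod.mk_sub_mk]
  rw [h2, h3] at h1
  rw [h1]
  refine (ContinuousMultilinearMap.norm_compContinuousLinearMap_le _ _).trans ?_
  refine mul_le_of_le_one_right (norm_nonneg _) ?_
  exact Finset.prod_le_one (fun _ _ => norm_nonneg _)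
    (fun _ _ => ContinuousLinearMap.norm_inl_le_one ℝ V ℝ)

theorem homog_deriv {V : Type} [NormedAddCommGroup V] [NormedSpace ℝ V] [FiniteDimensional ℝ V]
    (H : V → ℝ) (hH : ∀ y, y ≠ 0 → ContDiffAt ℝ 4 H y) (ρ : ℝ) (κ : ℝ → ℝ)
    (hhom : ∀ l : ℝ, 0 < l → ∀ y, y ≠ 0 → H (l • y) = l ^ ρ * H y + κ l) :
    ∃ C : ℝ, 0 < C ∧ ∀ y, y ≠ 0 → ∀ n : ℕ, 1 ≤ n → n ≤ 4 →
      ‖iteratedFDeriv ℝ n H y‖ ≤ C * ‖y‖ ^ (ρ - n) :=
  HOM_vec H hH ρ κ hhom

end Pool.Agent.Lib.MP_566bac_pr.Hd
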