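import Pool.Agent.Lib.MP_566bac_pr.Hd.DefsC

/-!
# Cutoff functions and the product rule in `ℝ^d`
-/

open Finset MeasureTheory ProbabilityTheory Filter
open scoped Classical

namespace Pool.Agent.Lib.MP_566bac_pr.Hd

variable {d : ℕ}

theorem li2_pd_contDiff {f : E d → ℝ} {m n : WithTop ℕ∞} (hf : ContDiff ℝ n f) (hmn : m + 1 ≤ n)
    (i : Fin d) : ContDiff ℝ m (pd i f) := by
  unfold pd
  exact (hf.fderiv_right hmn).clm_apply contDiff_const

theorem li2_pd_mul {f g : E d → ℝ} {x : E d} (hf : DifferentiableAt ℝ f x)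
    (hg : DifferentiableAt ℝ g x) (i : Fin d) :
    pd i (fun x => f x * g x) x = f x * pd i g x + g x * pd i f x := by
  unfold pd
  rw [fderiv_fun_mul hf hg]
  simp

theorem li2_pd_add {f g : E d → ℝ} {x : E d} (hf : DifferentiableAt ℝ f x)
    (hg : DifferentiableAt ℝ g x) (i : Fin d) :
    pd i (fun x => f x + g x) x = pd i f x + pd i g x := by
  unfold pd
  rw [fderiv_fun_add hf hg]
  simp

theorem lapl_mul {f g : E d → ℝ} (hf : ContDiff ℝ 4 f) (hg : ContDiff ℝ 4 g) (x : E d) :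
    lapl (fun x => f x * g x) x = f x * lapl g x + 2 * ∑ i, pd i f x * pd i g x + g x * lapl f x := by
  unfold lapl
  have df : Differentiable ℝ f := hf.differentiable (by norm_num)
  have dg : Differentiable ℝ g := hg.differentiable (by norm_num)
  have dpf : ∀ i, Differentiable ℝ (pd i f) := fun i =>
    (li2_pd_contDiff (m := 3) hf (by norm_num) i).differentiable (by norm_num)
  have dpg : ∀ i, Differentiable ℝ (pd i g) := fun i =>
    (li2_pd_contDiff (m := 3) hg (by norm_num) i).differentiable (by norm_num)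
  have h1 : ∀ i, pd i (pd i (fun x => f x * g x)) x
      = f x * pd i (pd i g) x + 2 * (pd i f x * pd i g x) + g x * pd i (pd i f) x := by
    intro i
    have h2 : pd i (fun x => f x * g x) = fun x => f x * pd i g x + g x * pd i f x := by
      funext y
      exact li2_pd_mul (df y) (dg y) i
    rw [h2, li2_pd_add (f := fun x => f x * pd i g x) (g := fun x => g x * pd i f x)
      ((df x).mul (dpg i x)) ((dg x).mul (dpf i x)),
      li2_pd_mul (df x) (dpg i x), li2_pd_mul (dg x) (dpf i x)]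
    ring
  simp only [h1]
  rw [Finset.sum_add_distrib, Finset.sum_add_distrib, ← Finset.mul_sum, ← Finset.mul_sum,
    ← Finset.mul_sum]

theorem li2_pd_scale {f : E d → ℝ} (hf : Differentiable ℝ f) (r : ℝ) (x₀ : E d) (i : Fin d) :
    pd i (fun x => f (r • (x - x₀))) = fun x => r * pd i f (r • (x - x₀)) := by
  funext x
  unfold pd
  have h1 : HasFDerivAt (fun x : E d => r • (x - x₀)) (r • ContinuousLinearMap.id ℝ (E d)) x :=
    ((hasFDerivAt_id x).sub_const x₀).const_smul r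
  have h2 := (hf (r • (x - x₀))).hasFDerivAt.comp x h1
  have h3 : (fun x => f (r • (x - x₀))) = f ∘ fun x => r • (x - x₀) := rfl
  rw [h3, h2.fderiv]
  simp

theorem li2_bdd {f : E d → ℝ} (hf : Continuous f) (hs : HasCompactSupport f) :
    ∃ C : ℝ, 0 ≤ C ∧ ∀ x, |f x| ≤ C := by
  obtain ⟨C, hC⟩ := hf.bounded_above_of_compact_support hs
  exact ⟨C, (norm_nonneg _).trans (hC 0), fun x => hC x⟩

theorem li2_pd_supp {f : E d → ℝ} (i : Fin d) (hs : HasCompactSupport f) :
    HasCompactSupport (pd i f) := hs.fderiv_apply ℝ (eb i)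

theorem cutoff (d : ℕ) : ∃ C : ℝ, 0 < C ∧ ∀ (t : ℝ) (x₀ : E d), 0 < t → ∃ ζ : E d → ℝ,
    ContDiff ℝ (⊤ : ℕ∞) ζ ∧ (∀ x, 0 ≤ ζ x ∧ ζ x ≤ 1) ∧ (∀ x, ‖x - x₀‖ ≤ t → ζ x = 1) ∧
      (∀ x, 2 * t ≤ ‖x - x₀‖ → ζ x = 0) ∧ (∀ x i, |pd i ζ x| ≤ C / t) ∧
        ∀ x, |lapl ζ x| ≤ C / t ^ 2 := by
  let b : ContDiffBump (0 : E d) :=
    { rIn := 1
      rOut := 2
      rIn_pos := by norm_num
      rIn_lt_rOut := by norm_num }
  have hb : ContDiff ℝ (⊤ : ℕ∞) (b : E d → ℝ) := b.contDiff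
  have hs : HasCompactSupport (b : E d → ℝ) := b.hasCompactSupport
  have hp : ∀ i, ContDiff ℝ (⊤ : ℕ∞) (pd i (b : E d → ℝ)) := fun i =>
    li2_pd_contDiff hb (by simp) i
  have hpp : ∀ i, ContDiff ℝ (⊤ : ℕ∞) (pd i (pd i (b : E d → ℝ))) := fun i =>
    li2_pd_contDiff (hp i) (by simp) i
  choose C1 hC1 hC1' using fun i => li2_bdd (hp i).continuous (li2_pd_supp i hs)
  choose C2 hC2 hC2' using fun i => li2_bdd (hpp i).continuous (li2_pd_supp i (li2_pd_supp i hs))
  refine ⟨1 + ∑ i, C1 i + ∑ i, C2 i, ?_, ?_⟩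
  · have := Finset.sum_nonneg (fun i (_ : i ∈ univ) => hC1 i)
    have := Finset.sum_nonneg (fun i (_ : i ∈ univ) => hC2 i)
    positivity
  intro t x₀ ht
  have e1 : ∀ i, pd i (fun x => b (t⁻¹ • (x - x₀))) = fun x => t⁻¹ * pd i b (t⁻¹ • (x - x₀)) :=
    fun i => li2_pd_scale (hb.differentiable (by simp)) t⁻¹ x₀ i
  have e2 : ∀ i x, pd i (pd i (fun x => b (t⁻¹ • (x - x₀)))) x
      = t⁻¹ * (t⁻¹ * pd i (pd i b) (t⁻¹ • (x - x₀))) := by
    intro i x
    rw [e1 i]
    have h3 : DifferentiableAt ℝ (fun x => pd i b (t⁻¹ • (x - x₀))) x := by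
      have h4 : Differentiable ℝ (pd i (b : E d → ℝ)) := (hp i).differentiable (by simp)
      exact (h4 _).comp x (by fun_prop)
    have h5 := li2_pd_mul (differentiableAt_const t⁻¹) h3 i (x := x)
    rw [h5, li2_pd_scale ((hp i).differentiable (by simp)) t⁻¹ x₀ i]
    have h6 : pd i (fun _ : E d => t⁻¹) x = 0 := by
      unfold pd
      simp
    rw [h6]
    ring
  have hd : ∀ x : E d, ‖t⁻¹ • (x - x₀)‖ = ‖x - x₀‖ / t := by
    intro x
    rw [norm_smul, norm_inv, Real.norm_of_nonneg ht.le]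
    field_simp
  refine ⟨fun x => b (t⁻¹ • (x - x₀)), ?_, ?_, ?_, ?_, ?_, ?_⟩
  · exact hb.comp (by fun_prop)
  · exact fun x => ⟨b.nonneg, b.le_one⟩
  · intro x hx
    apply b.one_of_mem_closedBall
    rw [mem_closedBall_zero_iff, hd]
    exact (div_le_one ht).2 hx
  · intro x hx
    apply b.zero_of_le_dist
    rw [dist_zero_right, hd]
    exact (le_div_iff₀ ht).2 hx
  · intro x i
    rw [e1 i]
    simp only []
    rw [abs_mul, abs_of_pos (inv_pos.2 ht), mul_comm, ← div_eq_mul_inv]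
    apply div_le_div_of_nonneg_right _ ht.le
    refine (hC1' i _).trans ?_
    have h7 : C1 i ≤ ∑ i, C1 i := Finset.single_le_sum (fun i _ => hC1 i) (mem_univ i)
    have := Finset.sum_nonneg (fun i (_ : i ∈ univ) => hC2 i)
    linarith
  · intro x
    unfold lapl
    simp only [e2]
    refine (Finset.abs_sum_le_sum_abs _ _).trans ?_
    have h8 : ∀ i, |t⁻¹ * (t⁻¹ * pd i (pd i (b : E d → ℝ)) (t⁻¹ • (x - x₀)))| ≤ C2 i / t ^ 2 := by
      intro i
      rw [abs_mul, abs_mul, abs_of_pos (inv_pos.2 ht)]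
      have h9 := hC2' i (t⁻¹ • (x - x₀))
      have h10 : t⁻¹ * (t⁻¹ * |pd i (pd i (b : E d → ℝ)) (t⁻¹ • (x - x₀))|)
          = |pd i (pd i (b : E d → ℝ)) (t⁻¹ • (x - x₀))| / t ^ 2 := by
        field_simp
      rw [h10]
      exact div_le_div_of_nonneg_right h9 (by positivity)
    refine (Finset.sum_le_sum fun i _ => h8 i).trans ?_
    rw [← Finset.sum_div]
    apply div_le_div_of_nonneg_right _ (by positivity)
    have := Finset.sum_nonneg (fun i (_ : i ∈ univ) => hC1 i)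
    linarith

end Pool.Agent.Lib.MP_566bac_pr.Hd
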