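import Pool.Agent.Lib.MP_566bac_pr.Hd.BAS
import Pool.Agent.Lib.MP_566bac_pr.Hd.EX1
import Pool.Agent.Lib.MP_566bac_pr.Hd.GE1

/-!
# The law of the percolation configuration on finitely many edges
-/

open Finset MeasureTheory ProbabilityTheory Filter
open scoped Classical ENNReal

namespace Pool.Agent.Lib.MP_566bac_pr.Hd

variable {d : ℕ}

/-- the unordered pair of an edge -/
def LW_edge (e : Vtx d × Fin d) : Sym2 (Fin d → ℤ) := s(e.1, e.1 + ev e.2)

theorem LW_ev_self (j : Fin d) : (ev j : Vtx d) j = 1 := by simp [ev]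

theorem LW_ev_ne {i j : Fin d} (h : i ≠ j) : (ev j : Vtx d) i = 0 := by simp [ev, h]

theorem LW_ev_nonneg (i j : Fin d) : 0 ≤ (ev j : Vtx d) i := by
  by_cases h : i = j
  · subst h; rw [LW_ev_self]; norm_num
  · rw [LW_ev_ne h]

theorem LW_inj : Function.Injective (LW_edge (d := d)) := by
  rintro ⟨x, j⟩ ⟨y, i⟩ h
  unfold LW_edge at h
  simp only [Sym2.eq_iff] at h
  rcases h with ⟨h1, h2⟩ | ⟨h1, h2⟩
  · subst h1
    have h3 := add_left_cancel h2
    by_contra hne
    have hij : j ≠ i := fun h => hne (by rw [h])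
    have h4 := congrFun h3 j
    rw [LW_ev_self, LW_ev_ne hij] at h4
    exact one_ne_zero h4
  · exfalso
    have h3 : x j + (ev j : Vtx d) j = y j := congrFun h2 j
    have h4 : x j = y j + (ev i : Vtx d) j := congrFun h1 j
    rw [LW_ev_self] at h3
    have := LW_ev_nonneg j i
    omega

theorem LW_lattice_ev (x : Vtx d) (j : Fin d) : (lattice d).Adj x (x + ev j) := by
  change ∑ i, |x i - (x i + (ev j : Vtx d) i)| = 1
  rw [Finset.sum_eq_single j]
  · rw [LW_ev_self]
    have : x j - (x j + 1) = -1 := by ring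
    rw [this]
    rfl
  · intro i _ hi
    rw [LW_ev_ne hi]
    simp
  · intro h
    exact absurd (Finset.mem_univ j) h

theorem LW_mem (e : Vtx d × Fin d) : LW_edge e ∈ (lattice d).edgeSet := by
  unfold LW_edge
  rw [SimpleGraph.mem_edgeSet]
  exact LW_lattice_ev _ _

/-- the cylinder event -/
def LW_cyl {κ : Type} (i : κ → Vtx d × Fin d) (ω : κ → Bool) : Set (Set (Sym2 (Fin d → ℤ))) :=
  {S | ∀ k, LW_edge (i k) ∈ S ↔ ω k = true}

theorem LW_cyl_meas {κ : Type} [Fintype κ] (i : κ → Vtx d × Fin d) (ω : κ → Bool) :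
    MeasurableSet (LW_cyl i ω) := by
  have : LW_cyl i ω = ⋂ k, {S : Set (Sym2 (Fin d → ℤ)) | LW_edge (i k) ∈ S ↔ ω k = true} := by
    ext S
    simp [LW_cyl]
  rw [this]
  refine MeasurableSet.iInter fun k => ?_
  by_cases h : ω k = true
  · have h5 : {S : Set (Sym2 (Fin d → ℤ)) | LW_edge (i k) ∈ S ↔ ω k = true} =
        {S | LW_edge (i k) ∈ S} := by
      ext S; simp [h]
    rw [h5]
    exact measurableSet_mem _
  · have h5 : {S : Set (Sym2 (Fin d → ℤ)) | LW_edge (i k) ∈ S ↔ ω k = true} =
        {S | LW_edge (i k) ∈ S}ᶜ := by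
      ext S; simp [h]
    rw [h5]
    exact (measurableSet_mem _).compl

theorem LW_cyl_prob (p : unitInterval) {κ : Type} [Fintype κ] (i : κ → Vtx d × Fin d)
    (hi : Function.Injective i) (ω : κ → Bool) :
    (setBernoulli (lattice d).edgeSet p) (LW_cyl i ω) =
      ∏ k, if ω k then (unitInterval.toNNReal p : ℝ≥0∞)
        else (unitInterval.toNNReal (unitInterval.symm p) : ℝ≥0∞) := by
  rw [setBernoulli_apply']
  set g : Sym2 (Fin d → ℤ) → Set Prop := fun e => {P | ∀ k, LW_edge (i k) = e → (P ↔ ω k = true)}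
    with hg
  have hinj : Function.Injective fun k => LW_edge (i k) := LW_inj.comp hi
  have h1 : ((fun P : Sym2 (Fin d → ℤ) → Prop ↦ {i | P i}) ⁻¹' LW_cyl i ω) =
      Set.pi (((Finset.univ : Finset κ).image fun k => LW_edge (i k) : Finset _) :
        Set (Sym2 (Fin d → ℤ))) g := by
    ext P
    simp only [LW_cyl, Set.mem_preimage, Set.mem_ofPred_eq, Set.mem_pi, Finset.mem_coe,
      Finset.mem_image, Finset.mem_univ, true_and, hg]
    constructor
    · rintro h e ⟨k, rfl⟩ k' hk'
      have : k' = k := hinj hk'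
      subst this
      exact h k'
    · intro h k
      exact h _ ⟨k, rfl⟩ k rfl
  rw [h1, Measure.infinitePi_pi _ (by intro i _; exact MeasurableSet.of_discrete),
    Finset.prod_image (fun a _ b _ h => hinj h)]
  refine Finset.prod_congr rfl fun k _ => ?_
  have h2 : g (LW_edge (i k)) = if ω k then {True} else {False} := by
    ext P
    simp only [hg, Set.mem_ofPred_eq]
    have h3 : (∀ k', LW_edge (i k') = LW_edge (i k) → (P ↔ ω k' = true)) ↔ (P ↔ ω k = true) := by
      constructor
      · intro h; exact h k rfl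
      · intro h k' hk'
        have : k' = k := hinj hk'
        rw [this]; exact h
    rw [h3]
    split_ifs with h <;> simp [h]
  rw [h2]
  have h4 := LW_mem (i k)
  split_ifs with h
  · simp [h4]
  · simp [h4]

theorem law (p : unitInterval) {κ : Type} [Fintype κ] (i : κ → Vtx d × Fin d)
    (hi : Function.Injective i) (A : Set (κ → Bool)) :
    (setBernoulli (lattice d).edgeSet p).real
      {S | (fun k => decide (confS S (i k).1 (i k).2)) ∈ A} =
        Ex (p : ℝ) (fun ω : κ → Bool => if ω ∈ A then 1 else 0) := by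
  have h0 : {S : Set (Sym2 (Fin d → ℤ)) | (fun k => decide (confS S (i k).1 (i k).2)) ∈ A} =
      ⋃ ω ∈ (Finset.univ.filter fun ω : κ → Bool => ω ∈ A), LW_cyl i ω := by
    ext S
    simp only [Set.mem_ofPred_eq, Set.mem_iUnion, Finset.mem_filter, Finset.mem_univ, true_and,
      exists_prop]
    constructor
    · intro h
      refine ⟨_, h, fun k => ?_⟩
      rw [decide_eq_true_eq]
      rfl
    · rintro ⟨ω, hω, h⟩
      have : (fun k => decide (confS S (i k).1 (i k).2)) = ω := by
        funext k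
        have h1 := h k
        change (confS S (i k).1 (i k).2 ↔ ω k = true) at h1
        cases hb : ω k
        · rw [hb] at h1
          simpa using h1
        · rw [hb] at h1
          simpa using h1
      rw [this]
      exact hω
  have h1 : (setBernoulli (lattice d).edgeSet p)
      {S | (fun k => decide (confS S (i k).1 (i k).2)) ∈ A} =
      ∑ ω ∈ (Finset.univ.filter fun ω : κ → Bool => ω ∈ A),
        (setBernoulli (lattice d).edgeSet p) (LW_cyl i ω) := by
    rw [h0, measure_biUnion_finset]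
    · intro ω _ ω' _ hne
      rw [Function.onFun, Set.disjoint_left]
      intro S h1 h2
      apply hne
      funext k
      have h3 := h1 k
      have h4 := h2 k
      rw [h3] at h4
      cases hb : ω k <;> cases hb' : ω' k <;> simp_all
    · intro ω _
      exact LW_cyl_meas i ω
  rw [measureReal_def, h1, ENNReal.toReal_sum (fun ω _ => measure_ne_top _ _)]
  unfold Ex
  rw [Finset.sum_filter]
  refine Finset.sum_congr rfl fun ω _ => ?_
  by_cases h : ω ∈ A
  · simp only [if_pos h, mul_one]
    rw [LW_cyl_prob p i hi, ENNReal.toReal_prod]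
    unfold wt
    refine Finset.prod_congr rfl fun k _ => ?_
    split_ifs <;> simp
  · simp only [if_neg h, mul_zero]

theorem LW_adj {x y : Vtx d} (h : (lattice d).Adj x y) : ∃ j, y = x + ev j ∨ x = y + ev j := by
  change ∑ i, |x i - y i| = 1 at h
  have h1 : ∃ j, x j ≠ y j := by
    by_contra hcon
    push Not at hcon
    rw [Finset.sum_eq_zero fun i _ => by rw [hcon i]; simp] at h
    exact zero_ne_one h
  obtain ⟨j, hj⟩ := h1
  have h2 := Finset.add_sum_erase Finset.univ (fun i => |x i - y i|) (Finset.mem_univ j)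
  rw [h] at h2
  have h3 : 1 ≤ |x j - y j| := Int.one_le_abs (sub_ne_zero.mpr hj)
  have h4 : 0 ≤ ∑ i ∈ Finset.univ.erase j, |x i - y i| :=
    Finset.sum_nonneg fun i _ => abs_nonneg _
  have h5 : ∑ i ∈ Finset.univ.erase j, |x i - y i| = 0 := by
    omega
  have h6 : ∀ i, i ≠ j → x i = y i := by
    intro i hi
    have := (Finset.sum_eq_zero_iff_of_nonneg fun i _ => abs_nonneg _).mp h5 i
      (Finset.mem_erase.mpr ⟨hi, Finset.mem_univ i⟩)
    exact sub_eq_zero.mp (abs_eq_zero.mp this)
  have h7 : |x j - y j| = 1 := by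
    omega
  refine ⟨j, ?_⟩
  rcases abs_eq (zero_le_one) |>.mp h7 with h8 | h8
  · right
    funext i
    by_cases hi : i = j
    · subst hi
      rw [Pi.add_apply, LW_ev_self]; omega
    · rw [Pi.add_apply, LW_ev_ne hi, h6 i hi, add_zero]
  · left
    funext i
    by_cases hi : i = j
    · subst hi
      rw [Pi.add_apply, LW_ev_self]; omega
    · rw [Pi.add_apply, LW_ev_ne hi, h6 i hi, add_zero]

theorem openGraph_eq (S : Set (Sym2 (Fin d → ℤ))) : openGraph S = G (confS S) := by
  ext x y
  constructor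
  · rintro ⟨h1, h2⟩
    obtain ⟨j, rfl | rfl⟩ := LW_adj h1
    · exact ⟨j, Or.inl ⟨rfl, h2⟩⟩
    · refine ⟨j, Or.inr ⟨rfl, ?_⟩⟩
      change s(y, y + ev j) ∈ S
      rw [Sym2.eq_swap]
      exact h2
  · rintro ⟨j, ⟨rfl, h⟩ | ⟨rfl, h⟩⟩
    · exact ⟨LW_lattice_ev x j, h⟩
    · refine ⟨(LW_lattice_ev y j).symm, ?_⟩
      change s(y, y + ev j) ∈ S at h
      rw [Sym2.eq_swap]
      exact h

theorem LW_rep_inj {N : ℕ} [NeZero N] : Function.Injective (rep : Tor N d → Vtx d) := by
  intro x y h
  funext i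
  have h1 := congrFun h i
  unfold rep at h1
  exact ZMod.val_injective N (by exact_mod_cast h1)

theorem window_law (p : unitInterval) {N : ℕ} [NeZero N] (b : Vtx d)
    (A : Set (Tor N d × Fin d → Bool)) :
    (setBernoulli (lattice d).edgeSet p).real {S | window N (confS S) b ∈ A} =
      Ex (p : ℝ) (fun o => if o ∈ A then 1 else 0) := by
  have hi : Function.Injective fun e : Tor N d × Fin d => ((b + rep e.1, e.2) : Vtx d × Fin d) := by
    rintro ⟨x, j⟩ ⟨y, i⟩ h
    simp only [Prod.mk.injEq, add_right_inj] at h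
    rw [LW_rep_inj h.1, h.2]
  exact law p (fun e : Tor N d × Fin d => (b + rep e.1, e.2)) hi A

theorem good_law (p : unitInterval) (n : ℕ) (z : Vtx d) :
    (setBernoulli (lattice d).edgeSet p).real {S | ¬ Good (confS S) n z} = pbad d p n := by
  have hi : Function.Injective fun e : Win d (10 * n) => ((e.1.1 + z, e.2) : Vtx d × Fin d) := by
    rintro ⟨x, j⟩ ⟨y, i⟩ h
    simp only [Prod.mk.injEq, add_left_inj] at h
    rw [Subtype.ext h.1, h.2]
  have h1 := law p (fun e : Win d (10 * n) => (e.1.1 + z, e.2)) hi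
    {ω | ¬ Good (extW ω) n 0}
  have h2 : {S : Set (Sym2 (Fin d → ℤ)) | ¬ Good (confS S) n z} =
      {S | (fun k : Win d (10 * n) => decide (confS S (k.1.1 + z) k.2)) ∈
        {ω | ¬ Good (extW ω) n 0}} := by
    ext S
    simp only [Set.mem_ofPred_eq]
    rw [not_iff_not]
    have h3 : Good (confS S) n z ↔ Good (fun x j => confS S (x + z) j) n 0 := by
      rw [good_shift, zero_add]
    rw [h3]
    refine good_congr fun x hx j _ => ?_
    unfold extW
    constructor
    · intro h
      exact ⟨hx, by simpa using h⟩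
    · rintro ⟨_, h⟩
      simpa using h
  rw [h2, h1]
  unfold pbad
  congr 1
  funext ω
  by_cases h3 : Good (extW ω) n 0
  · rw [if_neg (fun h : ω ∈ {ω : Win d (10 * n) → Bool | ¬ Good (extW ω) n 0} => h h3), if_pos h3]
  · rw [if_pos (show ω ∈ {ω : Win d (10 * n) → Bool | ¬ Good (extW ω) n 0} from h3), if_neg h3]

end Pool.Agent.Lib.MP_566bac_pr.Hd
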