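import Pool.Agent.Lib.MP_566bac_pr.Hd.AS
import Pool.Agent.Lib.MP_566bac_pr.Hd.FI
import Pool.Agent.Lib.MP_566bac_pr.Hd.LW
import Pool.Agent.Lib.MP_566bac_pr.Hd.CL

/-!
# The main theorem from superpolynomial decay
-/

open Finset MeasureTheory ProbabilityTheory Filter
open scoped Classical

namespace Pool.Agent.Lib.MP_566bac_pr.Hd

variable {d : ℕ}

/-- the neighbours of a vertex -/
noncomputable def MAIN_nb (η : Conf d) (x : Vtx d) : Finset (Vtx d) :=
  (univ.filter fun j => η x j).image (fun j => x + ev j) ∪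
    (univ.filter fun j => η (x - ev j) j).image (fun j => x - ev j)

theorem MAIN_ev_inj {i j : Fin d} (h : (ev i : Vtx d) = ev j) : i = j := by
  by_contra hne
  have h1 := congrFun h i
  rw [LW_ev_self, LW_ev_ne hne] at h1
  exact one_ne_zero h1

theorem MAIN_nbSet (η : Conf d) (x : Vtx d) : (G η).neighborSet x = (MAIN_nb η x : Set (Vtx d)) := by
  ext y
  simp only [SimpleGraph.mem_neighborSet, MAIN_nb, Finset.coe_union, Finset.coe_image,
    Finset.coe_filter, Finset.mem_univ, true_and, Set.mem_union, Set.mem_image, Set.mem_ofPred_eq]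
  constructor
  · rintro ⟨j, ⟨h1, h2⟩ | ⟨h1, h2⟩⟩
    · exact Or.inl ⟨j, h2, h1.symm⟩
    · refine Or.inr ⟨j, ?_, ?_⟩
      · rw [h1, add_sub_cancel_right]; exact h2
      · rw [h1, add_sub_cancel_right]
  · rintro (⟨j, h1, h2⟩ | ⟨j, h1, h2⟩)
    · exact ⟨j, Or.inl ⟨h2.symm, h1⟩⟩
    · refine ⟨j, Or.inr ⟨?_, ?_⟩⟩
      · rw [← h2, sub_add_cancel]
      · rw [← h2]; exact h1

theorem MAIN_lap (η : Conf d) (f : Vtx d → ℝ) (x : Vtx d) :
    Lap η f x = ∑ y ∈ MAIN_nb η x, (f y - f x) := by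
  unfold MAIN_nb Lap
  rw [Finset.sum_union, Finset.sum_image, Finset.sum_image, Finset.sum_filter, Finset.sum_filter,
    Finset.sum_add_distrib]
  · intro i _ j _ h
    exact MAIN_ev_inj (sub_right_injective h)
  · intro i _ j _ h
    exact MAIN_ev_inj (add_left_cancel h)
  · rw [Finset.disjoint_left]
    rintro y h1 h2
    obtain ⟨i, _, rfl⟩ := Finset.mem_image.mp h1
    obtain ⟨j, _, h3⟩ := Finset.mem_image.mp h2
    have h4 := congrFun h3 i
    simp only [Pi.sub_apply, Pi.add_apply, LW_ev_self] at h4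
    have := LW_ev_nonneg i j
    omega

/-- a solution of the Laplace equation is harmonic -/
theorem MAIN_harm (S : Set (Sym2 (Fin d → ℤ))) {C0 : Set (Vtx d)} (hinf : C0.Infinite)
    (hconn : ∀ x ∈ C0, ∀ y ∈ C0, (G (confS S)).Reachable x y) {h : Vtx d → ℝ}
    (hh : ∀ x ∈ C0, Lap (confS S) h x = 0) : IsHarmonicOn S C0 h := by
  intro x hx
  rw [openGraph_eq, MAIN_nbSet, finsum_mem_coe_finset, Set.ncard_coe_finset]
  have h1 := hh x hx
  rw [MAIN_lap, Finset.sum_sub_distrib, Finset.sum_const, nsmul_eq_mul, sub_eq_zero] at h1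
  have h2 : (MAIN_nb (confS S) x).Nonempty := by
    obtain ⟨y, hy, hne⟩ := hinf.exists_notMem_finset {x}
    have hne' : x ≠ y := fun h => hne (Finset.mem_singleton.mpr h.symm)
    obtain ⟨w⟩ := hconn x hx y hy
    cases w with
    | nil => exact absurd rfl hne'
    | @cons _ v _ hadj _ =>
      refine ⟨v, ?_⟩
      have h3 : v ∈ (G (confS S)).neighborSet x := hadj
      rw [MAIN_nbSet] at h3
      exact_mod_cast h3
  have h3 : ((MAIN_nb (confS S) x).card : ℝ) ≠ 0 := by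
    exact_mod_cast (Finset.card_pos.mpr h2).ne'
  rw [h1]
  field_simp

theorem main_decay (d : ℕ) (hd : 3 ≤ d) (p : unitInterval) (hp : 0 < (p : ℝ)) (hp1 : (p : ℝ) < 1)
    (hD : Decay d p) :
    ∀ᵐ S ∂(setBernoulli (lattice d).edgeSet p),
      ∃ C : Set (Fin d → ℤ), IsInfiniteCluster S C ∧
        (∀ C' : Set (Fin d → ℤ), IsInfiniteCluster S C' → C' = C) ∧
        ∃ h : (Fin d → ℤ) → ℝ, IsHarmonicOn S C h ∧ (∃ x ∈ C, ∃ y ∈ C, h x ≠ h y) ∧
          HasPositiveDensity {x | x ∈ C ∧ |h x| ≤ 1} := by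
  obtain ⟨c, θ₀, hθ₀, has⟩ := as_loc d hd p hp hp1 hD
  obtain ⟨k, A₀, hk, hdet⟩ := deterministic d c (by omega)
  set L' := A₀ + c + 100 * d + 5 with hL'
  set A := 4 * k * L' - 5 * k with hA
  have hkL : k * (c + 100 * d + 5) ≤ k * L' := Nat.mul_le_mul_left k (by omega)
  have hck : c ≤ k * c := Nat.le_mul_of_pos_left c (by omega)
  have hA1 : c + 100 * k * d ≤ A := by
    have e1 : k * (c + 100 * d + 5) = k * c + 100 * k * d + 5 * k := by ring
    have e2 : 4 * k * L' = 4 * (k * L') := by ring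
    omega
  have hA2 : A + 5 * k = 4 * k * L' := by
    have e1 : k * (c + 100 * d + 5) = k * c + 100 * k * d + 5 * k := by ring
    have e2 : 4 * k * L' = 4 * (k * L') := by ring
    omega
  have hB : 2 ≤ A + 5 * k := by omega
  obtain ⟨CL, hCL, hae⟩ := has k hk A hA1
  filter_upwards [hae] with S hS
  obtain ⟨M₀, hblocks, hloc⟩ := hS
  obtain ⟨C0, M₁, hM, hinf, hcl, hconn, huniq, hmem⟩ :=
    cluster d (by omega) (confS S) (A + 5 * k) M₀ hB hblocks
  have hEnv : Env c CL θ₀ A k (confS S) C0 M₁ :=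
    { closed := hcl
      conn := hconn
      infinite := hinf
      blocks := fun M hMM => hblocks M (hM.trans hMM)
      mem := hmem
      loc := fun M hMM => hloc M (hM.trans hMM) }
  obtain ⟨h, hh, hne, hdens⟩ := hdet L' (by omega) CL θ₀ hCL hθ₀ M₁ (confS S) C0 hEnv
  refine ⟨C0, ⟨hinf, ?_⟩, ?_, h, MAIN_harm S hinf hconn hh, hne, hdens⟩
  · obtain ⟨x, hx⟩ := hinf.nonempty
    refine ⟨x, ?_⟩
    have h1 : {y | (G (confS S)).Reachable x y}.Infinite :=
      hinf.mono fun y hy => hconn x hx y hy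
    rw [openGraph_eq]
    exact (huniq _ h1 ⟨x, rfl⟩).symm
  · rintro C' ⟨hC', x, hx⟩
    rw [openGraph_eq] at hx
    exact huniq C' hC' ⟨x, hx⟩

end Pool.Agent.Lib.MP_566bac_pr.Hd
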