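import Pool.Agent.Lib.MP_566bac_pr.Hd.GE1

/-!
# One renormalisation step, deterministic
-/

open Finset
open scoped Classical

namespace Pool.Agent.Lib.MP_566bac_pr.Hd

variable {d : ℕ}

namespace R1

/-- motion along a coordinate line -/
theorem line {P : Vtx d → Vtx d → Prop} {S : Vtx d → Prop} (hrefl : ∀ u, S u → P u u)
    (hsymm : ∀ a b, P a b → P b a) (htrans : ∀ a b c, P a b → P b c → P a c)
    (hstep : ∀ u j, S u → S (u + ev j) → P u (u + ev j)) (u : Vtx d) (j : Fin d) (A B : ℤ)
    (hS : ∀ r, A ≤ r → r ≤ B → S (Function.update u j r)) (s t : ℤ) (hs : A ≤ s) (hs' : s ≤ B)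
    (ht : A ≤ t) (ht' : t ≤ B) : P (Function.update u j s) (Function.update u j t) := by
  have key : ∀ (k : ℕ) (s : ℤ), A ≤ s → s + k ≤ B →
      P (Function.update u j s) (Function.update u j (s + k)) := by
    intro k
    induction k with
    | zero =>
      intro s h1 h2
      rw [Nat.cast_zero, add_zero] at h2 ⊢
      exact hrefl _ (hS s h1 h2)
    | succ k ih =>
      intro s h1 h2
      push_cast at h2
      have e : Function.update u j (s + ((k + 1 : ℕ) : ℤ)) =
          Function.update u j (s + k) + ev j := by
        funext i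
        by_cases hi : i = j
        · subst hi
          simp [ev]
          ring
        · simp [ev, hi]
      rw [e]
      refine htrans _ _ _ (ih s h1 (by linarith)) (hstep _ j (hS _ (by linarith) (by linarith)) ?_)
      rw [← e]
      exact hS _ (by push_cast; linarith) (by push_cast; linarith)
  rcases le_total s t with h | h
  · have h1 := key (t - s).toNat s hs (by rw [Int.toNat_of_nonneg (by linarith)]; linarith)
    rwa [Int.toNat_of_nonneg (by linarith), add_sub_cancel] at h1
  · have h1 := key (s - t).toNat t ht (by rw [Int.toNat_of_nonneg (by linarith)]; linarith)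
    rw [Int.toNat_of_nonneg (by linarith), add_sub_cancel] at h1
    exact hsymm _ _ h1

/-- every point outside a small box is joined to a corner -/
theorem corner (hd : 2 ≤ d) {P : Vtx d → Vtx d → Prop} {S : Vtx d → Prop}
    (hrefl : ∀ u, S u → P u u)
    (hsymm : ∀ a b, P a b → P b a) (htrans : ∀ a b c, P a b → P b c → P a c)
    (hstep : ∀ u j, S u → S (u + ev j) → P u (u + ev j)) (L : ℤ) (out : Fin d → ℤ → Prop)
    (hS : ∀ u, S u ↔ (∀ i, |u i| ≤ L) ∧ ∃ i, out i (u i)) (c : Vtx d) (hc : ∀ i, |c i| ≤ L)
    (hc' : ∀ i, out i (c i)) (u : Vtx d) (hu : S u) : P u c := by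
  obtain ⟨hu1, i, hi⟩ := (hS u).1 hu
  have key : ∀ T : Finset (Fin d), i ∉ T → P u (fun k => if k ∈ T then c k else u k) := by
    intro T
    induction T using Finset.induction_on with
    | empty =>
      intro _
      have e : (fun k => if k ∈ (∅ : Finset (Fin d)) then c k else u k) = u := by
        funext k
        simp
      rw [e]
      exact hrefl u hu
    | insert j T hj ih =>
      intro hiT
      have hij : i ≠ j := fun h => hiT (by rw [h]; exact mem_insert_self _ _)
      have hiT' : i ∉ T := fun h => hiT (mem_insert_of_mem h)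
      set v : Vtx d := fun k => if k ∈ T then c k else u k with hv
      have hvj : v j = u j := by simp [hv, hj]
      have e1 : (fun k => if k ∈ insert j T then c k else u k) = Function.update v j (c j) := by
        funext k
        by_cases hk : k = j
        · subst hk
          simp
        · simp [hk, hv]
      have e2 : Function.update v j (u j) = v := by
        rw [← hvj]
        exact Function.update_eq_self j v
      rw [e1]
      refine htrans _ _ _ (ih hiT') ?_
      have h1 := line hrefl hsymm htrans hstep v j (-L) L (fun r h1 h2 => by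
        rw [hS]
        refine ⟨fun k => ?_, i, ?_⟩
        · by_cases hk : k = j
          · subst hk
            rw [Function.update_self]
            exact abs_le.2 ⟨h1, h2⟩
          · rw [Function.update_of_ne hk]
            show |if k ∈ T then c k else u k| ≤ L
            split_ifs
            · exact hc k
            · exact hu1 k
        · rw [Function.update_of_ne hij]
          show out i (if i ∈ T then c i else u i)
          rw [if_neg hiT']
          exact hi) (u j) (c j) (abs_le.1 (hu1 j)).1 (abs_le.1 (hu1 j)).2 (abs_le.1 (hc j)).1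
          (abs_le.1 (hc j)).2
      rwa [e2] at h1
  have h1 := key (univ.erase i) (by simp)
  set v : Vtx d := fun k => if k ∈ univ.erase i then c k else u k with hv
  have hvi : v i = u i := by simp [hv]
  have hvk : ∀ k, k ≠ i → v k = c k := fun k hk => by simp [hv, hk]
  obtain ⟨k, hk⟩ : ∃ k : Fin d, k ≠ i := by
    have : Nontrivial (Fin d) := Fin.nontrivial_iff_two_le.2 hd
    exact exists_ne i
  have e2 : Function.update v i (u i) = v := by
    rw [← hvi]
    exact Function.update_eq_self i v
  have e3 : Function.update v i (c i) = c := by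
    funext k'
    by_cases hk' : k' = i
    · subst hk'
      simp
    · rw [Function.update_of_ne hk', hvk k' hk']
  have h2 := line hrefl hsymm htrans hstep v i (-L) L (fun r hr1 hr2 => by
    rw [hS]
    refine ⟨fun k' => ?_, k, ?_⟩
    · by_cases hk' : k' = i
      · rw [hk', Function.update_self]
        exact abs_le.2 ⟨hr1, hr2⟩
      · rw [Function.update_of_ne hk', hvk k' hk']
        exact hc k'
    · rw [Function.update_of_ne hk, hvk k hk]
      exact hc' k) (u i) (c i) (abs_le.1 (hu1 i)).1 (abs_le.1 (hu1 i)).2 (abs_le.1 (hc i)).1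
      (abs_le.1 (hc i)).2
  rw [e2, e3] at h2
  exact htrans _ _ _ h1 h2

theorem gp_apply (z u : Vtx d) (n : ℕ) (i : Fin d) : (z + (n : ℤ) • u) i = z i + n * u i := by
  simp

theorem gp_step (z u : Vtx d) (n : ℕ) (j : Fin d) :
    dst (z + (n : ℤ) • (u + ev j)) (z + (n : ℤ) • u) ≤ n := by
  rw [BAS_le_iff]
  intro i
  rw [gp_apply, gp_apply, Pi.add_apply]
  by_cases h : i = j
  · subst h
    simp only [ev, Pi.single_eq_same]
    rw [show z i + n * (u i + 1) - (z i + n * u i) = (n : ℤ) by ring, Int.natAbs_natCast]
  · simp [ev, h]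

theorem natAbs_le_dst (x y : Vtx d) (i : Fin d) : (x i - y i).natAbs ≤ dst x y :=
  BAS_le_iff.1 le_rfl i

/-- the grid point below a point -/
theorem exists_gp (z x : Vtx d) {n : ℕ} (hn : 1 ≤ n) :
    dst x (z + (n : ℤ) • (fun i => (x i - z i) / (n : ℤ))) ≤ n := by
  rw [BAS_le_iff]
  intro i
  rw [gp_apply]
  have hn' : (0 : ℤ) < n := by exact_mod_cast hn
  have h1 := Int.emod_add_mul_ediv (x i - z i) n
  have h2 := Int.emod_nonneg (x i - z i) hn'.ne'
  have h3 := Int.emod_lt_of_pos (x i - z i) hn'
  have h4 : x i - (z i + n * ((x i - z i) / n)) = (x i - z i) % n := by linarith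
  rw [h4]
  omega

end R1

open R1 in
theorem good_step (hd : 2 ≤ d) {η : Conf d} {n m : ℕ} (hn : 1 ≤ n) (hm : 100 * n ≤ m)
    (z w₀ : Vtx d)
    (h : ∀ u : Vtx d, dst (z + (n : ℤ) • u) z ≤ 10 * m + 10 * n →
      22 * n < dst (z + (n : ℤ) • u) w₀ → Good η n (z + (n : ℤ) • u)) :
    Good η m z := by
  have hnz : (1 : ℤ) ≤ n := by exact_mod_cast hn
  have hmz : (100 : ℤ) * n ≤ m := by exact_mod_cast hm
  have hanch : ∀ u : Vtx d, Good η n (z + (n : ℤ) • u) →
      ∃ x, dst x (z + (n : ℤ) • u) ≤ n ∧ Far η (9 * n) x := fun u hu => good_anchor hu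
  choose! a ha1 ha2 using hanch
  -- two neighbouring anchors
  have hnb : ∀ u j, Good η n (z + (n : ℤ) • u) → Good η n (z + (n : ℤ) • (u + ev j)) →
      Conn η (Lam (z + (n : ℤ) • u) (8 * n)) (a u) (a (u + ev j)) := by
    intro u j h1 h2
    refine good_conn h1 ((ha1 u h1).trans (by omega)) ?_ (far_mono (by omega) (ha2 u h1))
      (far_mono (by omega) (ha2 _ h2))
    have h3 := dst_triangle (a (u + ev j)) (z + (n : ℤ) • (u + ev j)) (z + (n : ℤ) • u)
    have h4 := ha1 _ h2
    have h5 := gp_step z u n j
    omega
  constructor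
  · -- existence of a crossing
    set i0 : Fin d := ⟨0, by omega⟩ with hi0
    set i1 : Fin d := ⟨1, by omega⟩ with hi1
    have h01 : i1 ≠ i0 := by
      rw [hi0, hi1]
      intro hc
      have := congrArg Fin.val hc
      simp at this
    obtain ⟨s, hs1, hs2⟩ : ∃ s : ℤ, |s| = 23 ∧ 22 * n < (z i1 + n * s - w₀ i1).natAbs := by
      by_cases h23 : 22 * n < (z i1 + n * 23 - w₀ i1).natAbs
      · exact ⟨23, by norm_num, h23⟩
      · exact ⟨-23, by norm_num, by omega⟩
    set v : Vtx d := Function.update 0 i1 s with hv
    set T : ℕ := 10 * m / n + 2 with hT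
    have hnT1 : n * T ≤ 10 * m + 2 * n := by
      have := Nat.mul_div_le (10 * m) n
      rw [hT, Nat.mul_add]
      omega
    have hnT2 : 10 * m + n < n * T := by
      have := Nat.lt_mul_div_succ (10 * m) (show 0 < n by omega)
      rw [Nat.mul_succ] at this
      rw [hT, Nat.mul_add]
      omega
    have hv1 : ∀ r : ℤ, Function.update v i0 r i1 = s := by
      intro r
      rw [Function.update_of_ne h01, hv, Function.update_self]
    have hdz : ∀ r : ℤ, 0 ≤ r → ∀ i, ((z + (n : ℤ) • Function.update v i0 r) i - z i).natAbs ≤
        max (n * r.toNat) (23 * n) := by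
      intro r hr i
      rw [gp_apply, add_sub_cancel_left, Int.natAbs_mul, Int.natAbs_natCast]
      by_cases hi : i = i0
      · subst hi
        rw [Function.update_self]
        have : r.natAbs = r.toNat := by omega
        rw [this]
        exact le_max_left _ _
      · rw [Function.update_of_ne hi]
        by_cases hi' : i = i1
        · rw [hi', hv, Function.update_self]
          have : s.natAbs = 23 := by
            have h1 := hs1
            rw [Int.abs_eq_natAbs] at h1
            exact_mod_cast h1
          rw [this, mul_comm]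
          exact le_max_right _ _
        · rw [hv, Function.update_of_ne hi']
          simp
    have hgood : ∀ r : ℤ, 0 ≤ r → r ≤ T → Good η n (z + (n : ℤ) • Function.update v i0 r) := by
      intro r hr1 hr2
      refine h _ ?_ ?_
      · rw [BAS_le_iff]
        intro i
        refine (hdz r hr1 i).trans (max_le ?_ (by omega))
        have h1 : n * r.toNat ≤ n * T := Nat.mul_le_mul_left n (by omega)
        omega
      · refine lt_of_lt_of_le ?_ (natAbs_le_dst _ _ i1)
        rw [gp_apply, hv1]
        exact hs2
    have hreach : (G η).Reachable (a (Function.update v i0 0)) (a (Function.update v i0 T)) := by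
      refine line (P := fun x y => (G η).Reachable (a x) (a y))
        (S := fun x => Good η n (z + (n : ℤ) • x)) (fun u _ => SimpleGraph.Reachable.refl _)
        (fun _ _ h => h.symm) (fun _ _ _ h h' => h.trans h')
        (fun u j h1 h2 => conn_reachable (hnb u j h1 h2)) v i0 0 T hgood 0 T le_rfl
        (by positivity) (by positivity) le_rfl
    have hg0 := hgood 0 le_rfl (by positivity)
    have hgT := hgood T (by positivity) le_rfl
    have h0 : dst (a (Function.update v i0 0)) z ≤ m := by
      have h1 := ha1 _ hg0
      have h2 : dst (z + (n : ℤ) • Function.update v i0 0) z ≤ 23 * n := by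
        rw [BAS_le_iff]
        intro i
        refine (hdz 0 le_rfl i).trans (max_le (by simp) le_rfl)
      have h3 := dst_triangle (a (Function.update v i0 0))
        (z + (n : ℤ) • Function.update v i0 0) z
      omega
    have hTm : 10 * m ≤ dst (a (Function.update v i0 T)) z := by
      have h1 := ha1 _ hgT
      have h2 : n * T ≤ dst (z + (n : ℤ) • Function.update v i0 T) z := by
        refine le_trans ?_ (natAbs_le_dst _ _ i0)
        rw [gp_apply, add_sub_cancel_left, Int.natAbs_mul, Int.natAbs_natCast,
          Function.update_self, Int.natAbs_natCast]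
      have h3 := dst_triangle (z + (n : ℤ) • Function.update v i0 T)
        (a (Function.update v i0 T)) z
      rw [dst_comm (z + (n : ℤ) • Function.update v i0 T) (a (Function.update v i0 T))] at h3
      omega
    exact ⟨_, mem_Lam.2 h0, reach_exit hreach (by omega) hTm⟩
  · -- uniqueness
    set L : ℕ := (8 * m - 8 * n) / n with hL
    have hL1 : n * L ≤ 8 * m - 8 * n := Nat.mul_div_le _ _
    have hL2 : 8 * m - 8 * n < n * L + n := by
      have := Nat.lt_mul_div_succ (8 * m - 8 * n) (show 0 < n by omega)
      rw [Nat.mul_succ] at this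
      exact this
    have hL1z : (n : ℤ) * L ≤ 8 * m - 8 * n := by
      have : ((n * L : ℕ) : ℤ) ≤ ((8 * m - 8 * n : ℕ) : ℤ) := by exact_mod_cast hL1
      rw [Nat.cast_sub (by omega)] at this
      push_cast at this
      exact this
    have hL2z : (8 * m - 8 * n : ℤ) < n * L + n := by
      have : ((8 * m - 8 * n : ℕ) : ℤ) < ((n * L + n : ℕ) : ℤ) := by exact_mod_cast hL2
      rw [Nat.cast_sub (by omega)] at this
      push_cast at this
      exact this
    set S : Vtx d → Prop := fun u => (∀ i, |u i| ≤ (L : ℤ)) ∧
      ∃ i, 22 * n < (z i + n * u i - w₀ i).natAbs with hS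
    have hSz : ∀ u, S u → dst (z + (n : ℤ) • u) z ≤ 8 * m - 8 * n := by
      intro u hu
      rw [BAS_le_iff]
      intro i
      rw [gp_apply, add_sub_cancel_left, Int.natAbs_mul, Int.natAbs_natCast]
      have h1 : (u i).natAbs ≤ L := by
        have h0 := hu.1 i
        rw [Int.abs_eq_natAbs] at h0
        exact_mod_cast h0
      exact (Nat.mul_le_mul_left n h1).trans hL1
    have hSg : ∀ u, S u → Good η n (z + (n : ℤ) • u) := by
      intro u hu
      refine h u ((hSz u hu).trans (by omega)) ?_
      obtain ⟨i, hi⟩ := hu.2
      refine lt_of_lt_of_le ?_ (natAbs_le_dst _ _ i)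
      rw [gp_apply]
      exact hi
    -- the corner
    have hcex : ∀ i : Fin d, ∃ t : ℤ, |t| = L ∧ 22 * n < (z i + n * t - w₀ i).natAbs := by
      intro i
      have hX : (22 * n : ℤ) < n * L := by linarith
      by_cases h1 : 22 * n < (z i + n * L - w₀ i).natAbs
      · exact ⟨L, by simp, h1⟩
      · refine ⟨-L, by simp, ?_⟩
        rw [mul_neg]
        omega
    choose c hc1 hc2 using hcex
    have hjoin : ∀ u, S u → Conn η (Lam z (8 * m)) (a u) (a c) := by
      intro u hu
      refine corner hd (P := fun x y => Conn η (Lam z (8 * m)) (a x) (a y)) (S := S)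
        (fun u hu => conn_refl (mem_Lam.2 ?_)) (fun _ _ h => conn_symm h)
        (fun _ _ _ h h' => conn_trans h h') (fun u j h1 h2 => ?_) L
        (fun i t => 22 * n < (z i + n * t - w₀ i).natAbs) (fun u => Iff.rfl) c
        (fun i => (hc1 i).le) hc2 u hu
      · have h1 := ha1 u (hSg u hu)
        have h2 := hSz u hu
        have h3 := dst_triangle (a u) (z + (n : ℤ) • u) z
        omega
      · refine conn_mono (Lam_subset ?_) (hnb u j (hSg u h1) (hSg _ h2))
        have h3 := hSz u h1
        omega
    -- every arm reaches an anchor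
    have harm : ∀ x ∈ Lam z (2 * m), Arm η z (4 * m) x → ∃ u, S u ∧
        Conn η (Lam z (8 * m)) x (a u) := by
      rintro x hx ⟨y, hy, hxy⟩
      rw [mem_Lam] at hx
      obtain ⟨x', y', h30, hxx', hx'y', h5, hx'z⟩ : ∃ x' y', 30 * n < dst x' w₀ ∧
          Conn η (Lam z (4 * m)) x x' ∧ (G η).Reachable x' y' ∧ 5 * n ≤ dst y' x' ∧
          dst x' z ≤ 4 * m := by
        have h1 := dst_triangle y x z
        by_cases h2 : 30 * n < dst x w₀
        · exact ⟨x, y, h2, conn_refl (mem_Lam.2 (by omega)), conn_reachable hxy, by omega,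
            by omega⟩
        · refine ⟨y, x, ?_, hxy, (conn_reachable hxy).symm, ?_, hy.le⟩
          · have h3 := dst_triangle y w₀ x
            rw [dst_comm w₀ x] at h3
            omega
          · rw [dst_comm]
            omega
      set u : Vtx d := fun i => (x' i - z i) / (n : ℤ) with hu
      have hxu : dst x' (z + (n : ℤ) • u) ≤ n := exists_gp z x' hn
      have hSu : S u := by
        refine ⟨fun i => ?_, ?_⟩
        · have h1 := natAbs_le_dst x' (z + (n : ℤ) • u) i
          rw [gp_apply] at h1
          have h2 := natAbs_le_dst x' z i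
          have h3 : |x' i - z i| ≤ 4 * m := by
            rw [Int.abs_eq_natAbs]
            exact_mod_cast h2.trans hx'z
          have h4 : |x' i - (z i + n * u i)| ≤ n := by
            rw [Int.abs_eq_natAbs]
            exact_mod_cast h1.trans hxu
          have h5 : |(n : ℤ) * u i| ≤ 4 * m + n := by
            have e : (n : ℤ) * u i = (x' i - z i) - (x' i - (z i + n * u i)) := by ring
            rw [e]
            exact (abs_sub _ _).trans (add_le_add h3 h4)
          rw [abs_mul, abs_of_pos (show (0 : ℤ) < n by linarith)] at h5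
          by_contra hlt
          have h6 : (L : ℤ) + 1 ≤ |u i| := by
            rw [not_le] at hlt
            exact hlt
          have h7 : (n : ℤ) * (L + 1) ≤ n * |u i| :=
            mul_le_mul_of_nonneg_left h6 (by linarith)
          have h8 : (n : ℤ) * (L + 1) = n * L + n := by ring
          linarith
        · have h1 : ¬ dst (z + (n : ℤ) • u) w₀ ≤ 22 * n := by
            have h3 := dst_triangle x' (z + (n : ℤ) • u) w₀
            omega
          rw [BAS_le_iff] at h1
          push Not at h1
          obtain ⟨i, hi⟩ := h1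
          rw [gp_apply] at hi
          exact ⟨i, hi⟩
      have hgu := hSg u hSu
      refine ⟨u, hSu, ?_⟩
      have h1 : Arm η (z + (n : ℤ) • u) (4 * n) x' := by
        refine reach_exit hx'y' (by omega) ?_
        have h3 := dst_triangle y' (z + (n : ℤ) • u) x'
        rw [dst_comm (z + (n : ℤ) • u) x'] at h3
        omega
      have h2 : Arm η (z + (n : ℤ) • u) (4 * n) (a u) :=
        far_arm (far_mono (by omega) (ha2 u hgu)) ((ha1 u hgu).trans (by omega))
      have h3 := hgu.2 x' (mem_Lam.2 (by omega)) (a u) (mem_Lam.2 ((ha1 u hgu).trans (by omega)))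
        h1 h2
      have h4 := hSz u hSu
      exact conn_trans (conn_mono (Lam_subset (by rw [dst_self]; omega)) hxx')
        (conn_mono (Lam_subset (by omega)) h3)
    intro x hx y hy hax hay
    obtain ⟨u, hu, hxu⟩ := harm x hx hax
    obtain ⟨u', hu', hyu'⟩ := harm y hy hay
    exact conn_trans hxu (conn_trans (hjoin u hu) (conn_trans (conn_symm (hjoin u' hu'))
      (conn_symm hyu')))

end Pool.Agent.Lib.MP_566bac_pr.Hd
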