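import Pool.Agent.Lib.MP_566bac_pr.Hd.R1
import Pool.Agent.Lib.MP_566bac_pr.Hd.EX1

/-!
# Probability of a bad box
-/

open Finset
open scoped Classical

namespace Pool.Agent.Lib.MP_566bac_pr.Hd

variable {d : ℕ}

namespace R2

theorem Ex_finsum (p : ℝ) {ι κ : Type*} [Fintype ι] (s : Finset κ) (f : κ → (ι → Bool) → ℝ) :
    Ex p (fun ω => ∑ i ∈ s, f i ω) = ∑ i ∈ s, Ex p (f i) := by
  unfold Ex
  rw [sum_comm]
  refine sum_congr rfl fun ω _ => ?_
  rw [mul_sum]

theorem Ex_zero (p : ℝ) {ι : Type*} [Fintype ι] : Ex p (fun _ : ι → Bool => (0 : ℝ)) = 0 := by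
  unfold Ex
  simp

theorem Ex_one (p : ℝ) {ι : Type*} [Fintype ι] : Ex p (fun _ : ι → Bool => (1 : ℝ)) = 1 := by
  unfold Ex
  simp only [mul_one]
  exact wt_sum p

theorem Ex_nonneg {p : ℝ} (h0 : 0 ≤ p) (h1 : p ≤ 1) {ι : Type*} [Fintype ι]
    {f : (ι → Bool) → ℝ} (h : ∀ ω, 0 ≤ f ω) : 0 ≤ Ex p f := by
  rw [← Ex_zero p (ι := ι)]
  exact Ex_mono h0 h1 h

/-- the indicator of a bad box in a window -/
noncomputable def bad {N : ℕ} (n : ℕ) (u : Vtx d) (ω : Win d N → Bool) : ℝ :=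
  if Good (extW ω) n u then 0 else 1

theorem bad_nonneg {N : ℕ} (n : ℕ) (u : Vtx d) (ω : Win d N → Bool) : 0 ≤ bad n u ω := by
  unfold bad
  split_ifs <;> norm_num

theorem pbad_eq (d : ℕ) (p : ℝ) (n : ℕ) :
    pbad d p n = Ex p (fun ω : Win d (10 * n) → Bool => bad n 0 ω) := rfl

theorem pbad_nonneg {p : ℝ} (h0 : 0 ≤ p) (h1 : p ≤ 1) (n : ℕ) : 0 ≤ pbad d p n := by
  rw [pbad_eq]
  exact Ex_nonneg h0 h1 fun ω => bad_nonneg n 0 ω

theorem pbad_le_one {p : ℝ} (h0 : 0 ≤ p) (h1 : p ≤ 1) (n : ℕ) : pbad d p n ≤ 1 := by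
  rw [pbad_eq, ← Ex_one p (ι := Win d (10 * n))]
  refine Ex_mono h0 h1 fun ω => ?_
  unfold bad
  split_ifs <;> norm_num

/-- the embedding of a window around `a` into a larger window -/
def emb {N N' : ℕ} (a : Vtx d) (h : N + dst a 0 ≤ N') (e : Win d N) : Win d N' :=
  (⟨e.1.1 + a, by
    have h1 := mem_Lam.1 e.1.2
    rw [mem_Lam]
    have h2 := dst_triangle (e.1.1 + a) a 0
    have h3 : dst (e.1.1 + a) a = dst e.1.1 0 := by
      have := dst_add_right e.1.1 0 a
      rwa [zero_add] at this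
    omega⟩, e.2)

theorem emb_inj {N N' : ℕ} (a : Vtx d) (h : N + dst a 0 ≤ N') :
    Function.Injective (emb a h) := by
  rintro ⟨⟨x, hx⟩, j⟩ ⟨⟨y, hy⟩, k⟩ hxy
  unfold emb at hxy
  simp only [Prod.mk.injEq, Subtype.mk.injEq] at hxy
  obtain ⟨h1, h2⟩ := hxy
  have h3 : x = y := add_right_cancel h1
  subst h3
  subst h2
  rfl

/-- the indicator only depends on the edges of the box -/
theorem bad_emb {n N' : ℕ} (a : Vtx d) (h : 10 * n + dst a 0 ≤ N') (ω : Win d N' → Bool) :
    bad n 0 (ω ∘ emb a h) = bad n a ω := by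
  have h1 : Good (extW (ω ∘ emb a h)) n 0 ↔ Good (extW ω) n a := by
    rw [show Good (extW ω) n a ↔ Good (extW ω) n (0 + a) by rw [zero_add], ← good_shift]
    refine good_congr fun x hx j _ => ?_
    constructor
    · rintro ⟨h2, h3⟩
      exact ⟨(emb a h (⟨x, h2⟩, j)).1.2, h3⟩
    · rintro ⟨h2, h3⟩
      exact ⟨hx, h3⟩
  unfold bad
  exact if_congr h1 rfl rfl

end R2

open R2 in
theorem pbad_step (hd : 2 ≤ d) {p : ℝ} (hp : 0 ≤ p) (hp1 : p ≤ 1) {n m : ℕ} (hn : 1 ≤ n)
    (hm : 100 * n ≤ m) : pbad d p m ≤ (23 * (m : ℝ) / n) ^ (2 * d) * (pbad d p n) ^ 2 := by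
  set N : ℕ := 10 * m + 20 * n with hN
  set K : ℕ := (10 * m + 10 * n) / n with hK
  have hnpos : 0 < n := by omega
  set g : Vtx d → Vtx d := fun u => (n : ℤ) • u with hg
  have hdst : ∀ u : Vtx d, dst (g u) 0 ≤ 10 * m + 10 * n ↔ u ∈ Lam (0 : Vtx d) K := by
    intro u
    rw [mem_Lam, BAS_le_iff, BAS_le_iff]
    refine forall_congr' fun i => ?_
    show ((n : ℤ) * u i - 0).natAbs ≤ _ ↔ _
    rw [sub_zero, Pi.zero_apply, sub_zero, Int.natAbs_mul, Int.natAbs_natCast, hK,
      Nat.le_div_iff_mul_le hnpos, mul_comm]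
  -- change of window
  have e1 : pbad d p m = Ex p (fun ω : Win d N → Bool => bad m 0 ω) := by
    rw [pbad_eq, ← Ex_comp p (emb (d := d) (N := 10 * m) (N' := N) 0 (by rw [dst_self]; omega))
      (emb_inj _ _)]
    congr 1
    funext ω
    exact bad_emb 0 _ ω
  -- two bad boxes
  have e2 : ∀ ω : Win d N → Bool, bad m 0 ω ≤ ∑ u ∈ Lam (0 : Vtx d) K, ∑ v ∈ Lam (0 : Vtx d) K,
      (if 22 * n < dst (g u) (g v) then bad n (g u) ω * bad n (g v) ω else 0) := by
    intro ω
    have hnn : ∀ u v : Vtx d, 0 ≤ (if 22 * n < dst (g u) (g v) then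
        bad n (g u) ω * bad n (g v) ω else 0) := by
      intro u v
      split_ifs
      · exact mul_nonneg (bad_nonneg _ _ _) (bad_nonneg _ _ _)
      · exact le_rfl
    by_cases hgood : Good (extW ω) m 0
    · have h0 : bad m 0 ω = 0 := if_pos hgood
      rw [h0]
      exact sum_nonneg fun u _ => sum_nonneg fun v _ => hnn u v
    · have key : ∀ w₀ : Vtx d, ∃ u ∈ Lam (0 : Vtx d) K, 22 * n < dst (g u) w₀ ∧
          ¬ Good (extW ω) n (g u) := by
        intro w₀
        by_contra hc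
        push Not at hc
        refine hgood (good_step hd hn hm 0 w₀ fun u hu1 hu2 => ?_)
        rw [zero_add] at hu1 hu2 ⊢
        exact hc u ((hdst u).1 hu1) hu2
      obtain ⟨v, hv, _, hv2⟩ := key 0
      obtain ⟨u, hu, hu1, hu2⟩ := key (g v)
      have h1 : bad m 0 ω = 1 := if_neg hgood
      have h2 : bad n (g u) ω = 1 := if_neg hu2
      have h3 : bad n (g v) ω = 1 := if_neg hv2
      calc bad m 0 ω = (if 22 * n < dst (g u) (g v) then bad n (g u) ω * bad n (g v) ω
            else 0) := by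
            rw [if_pos hu1, h1, h2, h3, one_mul]
        _ ≤ ∑ v ∈ Lam (0 : Vtx d) K, (if 22 * n < dst (g u) (g v) then
            bad n (g u) ω * bad n (g v) ω else 0) :=
            single_le_sum (f := fun v => if 22 * n < dst (g u) (g v) then
              bad n (g u) ω * bad n (g v) ω else 0) (fun v _ => hnn u v) hv
        _ ≤ _ := single_le_sum (f := fun u => ∑ v ∈ Lam (0 : Vtx d) K,
              (if 22 * n < dst (g u) (g v) then bad n (g u) ω * bad n (g v) ω else 0))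
              (fun u _ => sum_nonneg fun v _ => hnn u v) hu
  -- independence
  have e3 : ∀ u ∈ Lam (0 : Vtx d) K, ∀ v ∈ Lam (0 : Vtx d) K,
      Ex p (fun ω : Win d N → Bool => if 22 * n < dst (g u) (g v) then
        bad n (g u) ω * bad n (g v) ω else 0) ≤ (pbad d p n) ^ 2 := by
    intro u hu v hv
    by_cases huv : 22 * n < dst (g u) (g v)
    · simp only [if_pos huv]
      have hu' := (hdst u).2 hu
      have hv' := (hdst v).2 hv
      have cu : 10 * n + dst (g u) 0 ≤ N := by omega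
      have cv : 10 * n + dst (g v) 0 ≤ N := by omega
      have h1 := Ex_indep p (emb (g u) cu) (emb_inj _ _) (emb (g v) cv) (emb_inj _ _)
        (fun a b hab => by
          have h2 : a.1.1 + g u = b.1.1 + g v := congrArg (fun e : Win d N => e.1.1) hab
          have h3 := mem_Lam.1 a.1.2
          have h4 := mem_Lam.1 b.1.2
          have h5 : dst (a.1.1 + g u) (g u) = dst a.1.1 0 := by
            have := dst_add_right a.1.1 0 (g u)
            rwa [zero_add] at this
          have h6 : dst (b.1.1 + g v) (g v) = dst b.1.1 0 := by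
            have := dst_add_right b.1.1 0 (g v)
            rwa [zero_add] at this
          have h7 := dst_triangle (g u) (a.1.1 + g u) (g v)
          rw [dst_comm (g u) (a.1.1 + g u), h5] at h7
          rw [← h2] at h6
          omega) (fun ω => bad n 0 ω) (fun ω => bad n 0 ω)
      have h2 : (fun ω : Win d N → Bool => bad n (g u) ω * bad n (g v) ω) =
          fun ω => bad n 0 (ω ∘ emb (g u) cu) * bad n 0 (ω ∘ emb (g v) cv) := by
        funext ω
        rw [bad_emb, bad_emb]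
      rw [h2, h1, pbad_eq, sq]
    · simp only [if_neg huv]
      rw [Ex_zero]
      positivity
  have e4 : pbad d p m ≤ ((Lam (0 : Vtx d) K).card : ℝ) ^ 2 * (pbad d p n) ^ 2 := by
    rw [e1]
    refine (Ex_mono hp hp1 e2).trans ?_
    rw [Ex_finsum]
    calc ∑ u ∈ Lam (0 : Vtx d) K, Ex p (fun ω : Win d N → Bool => ∑ v ∈ Lam (0 : Vtx d) K,
          (if 22 * n < dst (g u) (g v) then bad n (g u) ω * bad n (g v) ω else 0))
        = ∑ u ∈ Lam (0 : Vtx d) K, ∑ v ∈ Lam (0 : Vtx d) K, Ex p (fun ω : Win d N → Bool =>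
          (if 22 * n < dst (g u) (g v) then bad n (g u) ω * bad n (g v) ω else 0)) :=
          sum_congr rfl fun u _ => Ex_finsum p _ _
      _ ≤ ∑ u ∈ Lam (0 : Vtx d) K, ∑ v ∈ Lam (0 : Vtx d) K, (pbad d p n) ^ 2 :=
          sum_le_sum fun u hu => sum_le_sum fun v hv => e3 u hu v hv
      _ = _ := by
          rw [sum_const, sum_const, nsmul_eq_mul, nsmul_eq_mul]
          ring
  refine e4.trans (mul_le_mul_of_nonneg_right ?_ (by positivity))
  have hn' : (0 : ℝ) < n := by exact_mod_cast hnpos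
  have h1 : ((Lam (0 : Vtx d) K).card : ℝ) ≤ (23 * (m : ℝ) / n) ^ d := by
    rw [card_Lam]
    push_cast
    refine pow_le_pow_left₀ (by positivity) ?_ d
    rw [le_div_iff₀ hn']
    have h2 : (K : ℝ) * n ≤ 10 * m + 10 * n := by
      have : K * n ≤ 10 * m + 10 * n := Nat.div_mul_le_self _ _
      exact_mod_cast this
    have h3 : (100 : ℝ) * n ≤ m := by exact_mod_cast hm
    nlinarith
  calc ((Lam (0 : Vtx d) K).card : ℝ) ^ 2 ≤ ((23 * (m : ℝ) / n) ^ d) ^ 2 :=
        pow_le_pow_left₀ (Nat.cast_nonneg _) h1 2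
    _ = _ := by rw [← pow_mul, mul_comm d 2]

end Pool.Agent.Lib.MP_566bac_pr.Hd
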