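import Pool.Agent.Lib.MP_566bac_pr.Hd.R2

/-!
# The finite size criterion gives superpolynomial decay
-/

open Finset
open scoped Classical

namespace Pool.Agent.Lib.MP_566bac_pr.Hd

variable {d : ℕ}

namespace R3

/-- the recursion -/
theorem decay_seq (P : ℕ → ℝ) {A : ℝ} (hA : 0 < A) (h0 : ∀ m, 0 ≤ P m) (h1 : ∀ m, P m ≤ 1)
    (hs : ∀ n m : ℕ, 1 ≤ n → 100 * n ≤ m → m ≤ 10 ^ 4 * n → P m ≤ A * P n ^ 2) {n₀ : ℕ}
    (hn₀ : 1 ≤ n₀) (h : A * P n₀ ≤ 1 / 2) (q : ℕ) :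
    ∃ C : ℝ, ∀ m : ℕ, 1 ≤ m → P m ≤ C / (m : ℝ) ^ q := by
  have hX0 : ∀ m, 0 ≤ A * P m := fun m => mul_nonneg hA.le (h0 m)
  have hX : ∀ n m : ℕ, 1 ≤ n → 100 * n ≤ m → m ≤ 10 ^ 4 * n → A * P m ≤ (A * P n) ^ 2 := by
    intro n m a1 a2 a3
    have := mul_le_mul_of_nonneg_left (hs n m a1 a2 a3) hA.le
    nlinarith
  have c1 : ∀ m, 100 * n₀ ≤ m → A * P m ≤ 1 / 4 := by
    intro m
    induction m using Nat.strong_induction_on with
    | _ m ih =>
      intro hm
      rcases Nat.lt_or_ge (10 ^ 4 * n₀) m with hm2 | hm2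
      · have a1 : 100 * n₀ ≤ m / 100 := by omega
        have a2 := ih (m / 100) (by omega) a1
        have a3 := hX (m / 100) m (by omega) (by omega) (by omega)
        have a4 := hX0 (m / 100)
        nlinarith
      · have a3 := hX n₀ m hn₀ hm hm2
        have a4 := hX0 n₀
        nlinarith
  have c2 : ∀ k m : ℕ, 100 ^ (k + 1) * n₀ ≤ m → A * P m ≤ (1 / 4) ^ (k + 1) := by
    intro k
    induction k with
    | zero =>
      intro m hm
      rw [zero_add, pow_one] at hm ⊢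
      exact c1 m hm
    | succ k ih =>
      intro m hm
      have a0 : 100 * (100 ^ (k + 1) * n₀) ≤ m := by
        rw [← mul_assoc, ← pow_succ']
        exact hm
      have a01 : 1 ≤ 100 ^ (k + 1) * n₀ := Nat.one_le_iff_ne_zero.2 (by positivity)
      have a1 : 100 ^ (k + 1) * n₀ ≤ m / 100 := by omega
      have a2 := ih (m / 100) a1
      have a3 := hX (m / 100) m (by omega) (by omega) (by omega)
      have a4 := hX0 (m / 100)
      have a5 : ((1 : ℝ) / 4) ^ (k + 1) ≤ 1 / 4 := by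
        calc ((1 : ℝ) / 4) ^ (k + 1) ≤ (1 / 4) ^ 1 :=
              pow_le_pow_of_le_one (by norm_num) (by norm_num) (by omega)
          _ = 1 / 4 := pow_one _
      have a6 : (0 : ℝ) ≤ (1 / 4) ^ (k + 1) := by positivity
      rw [pow_succ (1 / 4 : ℝ) (k + 1)]
      nlinarith
  obtain ⟨k, hk⟩ : ∃ k : ℕ, ((1 : ℝ) / 4) ^ k < ((200 : ℝ) ^ q)⁻¹ :=
    exists_pow_lt_of_lt_one (by positivity) (by norm_num)
  have hk' : ((1 : ℝ) / 4) ^ (k + 1) ≤ ((200 : ℝ) ^ q)⁻¹ :=
    (pow_le_pow_of_le_one (by norm_num) (by norm_num) (by omega)).trans hk.le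
  set M1 : ℕ := 100 * (100 ^ (k + 1) * n₀) with hM1
  have hM01 : 1 ≤ 100 ^ (k + 1) * n₀ := Nat.one_le_iff_ne_zero.2 (by positivity)
  have c3 : ∀ m : ℕ, 1 ≤ m → P m * (m : ℝ) ^ q ≤ (M1 : ℝ) ^ q := by
    intro m
    induction m using Nat.strong_induction_on with
    | _ m ih =>
      intro hm
      rcases Nat.lt_or_ge M1 m with hm2 | hm2
      · have a1 : 100 ^ (k + 1) * n₀ ≤ m / 100 := by omega
        have a2 := ih (m / 100) (by omega) (by omega)
        have a3 := hs (m / 100) m (by omega) (by omega) (by omega)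
        have a4 := c2 k (m / 100) a1
        have a5 : (m : ℝ) ≤ 200 * ((m / 100 : ℕ) : ℝ) := by
          have : m ≤ 200 * (m / 100) := by omega
          exact_mod_cast this
        have a6 : (m : ℝ) ^ q ≤ 200 ^ q * ((m / 100 : ℕ) : ℝ) ^ q := by
          rw [← mul_pow]
          exact pow_le_pow_left₀ (Nat.cast_nonneg _) a5 q
        have a7 : P m ≤ P (m / 100) * ((200 : ℝ) ^ q)⁻¹ := by
          calc P m ≤ A * P (m / 100) ^ 2 := a3
            _ = P (m / 100) * (A * P (m / 100)) := by ring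
            _ ≤ P (m / 100) * ((200 : ℝ) ^ q)⁻¹ :=
              mul_le_mul_of_nonneg_left (a4.trans hk') (h0 _)
        calc P m * (m : ℝ) ^ q
            ≤ (P (m / 100) * ((200 : ℝ) ^ q)⁻¹) * (200 ^ q * ((m / 100 : ℕ) : ℝ) ^ q) :=
              mul_le_mul a7 a6 (by positivity) (mul_nonneg (h0 _) (by positivity))
          _ = P (m / 100) * ((m / 100 : ℕ) : ℝ) ^ q := by
              field_simp
          _ ≤ _ := a2
      · calc P m * (m : ℝ) ^ q ≤ 1 * (M1 : ℝ) ^ q :=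
              mul_le_mul (h1 m) (pow_le_pow_left₀ (Nat.cast_nonneg _) (by exact_mod_cast hm2) q)
                (by positivity) zero_le_one
          _ = _ := one_mul _
  refine ⟨(M1 : ℝ) ^ q, fun m hm => ?_⟩
  have hm' : (0 : ℝ) < m := by exact_mod_cast hm
  rw [le_div_iff₀ (by positivity)]
  exact c3 m hm

end R3

theorem decay_of_eps0 (hd : 2 ≤ d) {p : ℝ} (hp : 0 ≤ p) (hp1 : p ≤ 1) {n₀ : ℕ} (hn₀ : 1 ≤ n₀)
    (h : pbad d p n₀ ≤ eps0 d) : Decay d p := by
  intro q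
  refine R3.decay_seq (fun m => pbad d p m) (A := (23 * 10 ^ 4 : ℝ) ^ (2 * d)) (by positivity)
    (fun m => R2.pbad_nonneg hp hp1 m) (fun m => R2.pbad_le_one hp hp1 m) ?_ hn₀ ?_ q
  · intro n m hn h1 h2
    refine (pbad_step hd hp hp1 hn h1).trans (mul_le_mul_of_nonneg_right ?_ (by positivity))
    have hn' : (0 : ℝ) < n := by exact_mod_cast hn
    refine pow_le_pow_left₀ (by positivity) ?_ _
    rw [div_le_iff₀ hn']
    have h3 : (m : ℝ) ≤ 10 ^ 4 * n := by exact_mod_cast h2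
    nlinarith
  · have h1 : (0 : ℝ) < (23 * 10 ^ 4 : ℝ) ^ (2 * d) := by positivity
    calc (23 * 10 ^ 4 : ℝ) ^ (2 * d) * pbad d p n₀ ≤ (23 * 10 ^ 4 : ℝ) ^ (2 * d) * eps0 d :=
          mul_le_mul_of_nonneg_left h h1.le
      _ = 1 / 2 := by
          unfold eps0
          field_simp

end Pool.Agent.Lib.MP_566bac_pr.Hd
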