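import Pool.Agent.Lib.MP_566bac_pr.Hd.R2

/-!
# The finite size criterion holds for `p` close to one
-/

open Finset
open scoped Classical

namespace Pool.Agent.Lib.MP_566bac_pr.Hd

variable {d : ℕ}

namespace R4

/-- the box is connected when its edges are open -/
theorem box {η : Conf d} {K : ℕ} (hη : ∀ x ∈ Lam (0 : Vtx d) K, ∀ j, η x j) {x y : Vtx d}
    (hx : x ∈ Lam (0 : Vtx d) K) (hy : y ∈ Lam (0 : Vtx d) K) : Conn η (Lam 0 K) x y := by
  have hmem : ∀ u : Vtx d, u ∈ Lam (0 : Vtx d) K ↔ ∀ i, (u i).natAbs ≤ K := by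
    intro u
    rw [mem_Lam, BAS_le_iff]
    simp
  have key : ∀ T : Finset (Fin d), Conn η (Lam 0 K) x (fun k => if k ∈ T then y k else x k) := by
    intro T
    induction T using Finset.induction_on with
    | empty =>
      have e : (fun k => if k ∈ (∅ : Finset (Fin d)) then y k else x k) = x := by
        funext k
        simp
      rw [e]
      exact conn_refl hx
    | insert j T hj ih =>
      set v : Vtx d := fun k => if k ∈ T then y k else x k with hv
      have hvj : v j = x j := by simp [hv, hj]
      have e1 : (fun k => if k ∈ insert j T then y k else x k) = Function.update v j (y j) := by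
        funext k
        by_cases hk : k = j
        · subst hk
          simp
        · simp [hk, hv]
      have e2 : Function.update v j (x j) = v := by
        rw [← hvj]
        exact Function.update_eq_self j v
      rw [e1]
      refine conn_trans ih ?_
      have hxj := (hmem x).1 hx j
      have hyj := (hmem y).1 hy j
      have h1 := R1.line (P := Conn η (Lam (0 : Vtx d) K)) (S := fun u => u ∈ Lam (0 : Vtx d) K)
        (fun u hu => conn_refl hu) (fun a b h => conn_symm h) (fun a b c h h' => conn_trans h h')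
        (fun u j hu hu' => conn_adj hu hu' ⟨j, Or.inl ⟨rfl, hη u hu j⟩⟩) v j (-(K : ℤ)) K
        (fun r h1 h2 => by
          rw [hmem]
          intro k
          by_cases hk : k = j
          · rw [hk, Function.update_self]
            omega
          · rw [Function.update_of_ne hk]
            show (if k ∈ T then y k else x k).natAbs ≤ K
            split_ifs
            · exact (hmem y).1 hy k
            · exact (hmem x).1 hx k) (x j) (y j) (by omega) (by omega) (by omega) (by omega)
      rwa [e2] at h1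
  have h := key univ
  have e : (fun k => if k ∈ (univ : Finset (Fin d)) then y k else x k) = y := by
    funext k
    simp
  rwa [e] at h

/-- the box is good when all edges of the window are open -/
theorem good_all (hd : 1 ≤ d) : Good (extW fun _ : Win d (10 * 1) => true) 1 0 := by
  have hopen : ∀ K, K ≤ 10 → ∀ x ∈ Lam (0 : Vtx d) K, ∀ j,
      (extW fun _ : Win d (10 * 1) => true) x j := by
    intro K hK x hx j
    refine ⟨?_, rfl⟩
    rw [mem_Lam] at hx ⊢
    omega
  refine ⟨⟨0, by rw [mem_Lam, dst_self]; omega, ?_⟩, fun x hx y hy _ _ => ?_⟩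
  · have h10 : dst ((10 : ℤ) • ev (⟨0, hd⟩ : Fin d)) 0 = 10 := by
      refine le_antisymm ?_ ?_
      · rw [BAS_le_iff]
        intro i
        by_cases h : i = ⟨0, hd⟩
        · subst h
          simp [ev]
        · simp [ev, h]
      · have h1 := R1.natAbs_le_dst ((10 : ℤ) • ev (⟨0, hd⟩ : Fin d)) 0 ⟨0, hd⟩
        simpa [ev] using h1
    refine ⟨(10 : ℤ) • ev ⟨0, hd⟩, h10, ?_⟩
    exact box (hopen _ (by omega)) (by rw [mem_Lam, dst_self]; omega) (by rw [mem_Lam, h10])
  · rw [mem_Lam] at hx hy
    exact box (hopen _ (by omega)) (by rw [mem_Lam]; omega) (by rw [mem_Lam]; omega)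

/-- an event which misses one configuration -/
theorem Ex_add_wt {ι : Type*} [Fintype ι] {p : ℝ} (hp : 0 ≤ p) (hp1 : p ≤ 1)
    {f : (ι → Bool) → ℝ} (hf : ∀ ω, f ω ≤ 1) (ω₀ : ι → Bool) (h0 : f ω₀ = 0) :
    Ex p f + wt p ω₀ ≤ 1 := by
  rw [← wt_sum (ι := ι) p]
  unfold Ex
  rw [← Finset.add_sum_erase univ _ (mem_univ ω₀),
    ← Finset.add_sum_erase univ (fun ω => wt p ω) (mem_univ ω₀), h0, mul_zero, zero_add, add_comm]
  refine add_le_add_right (Finset.sum_le_sum fun ω _ => ?_) _
  have h3 := wt_nonneg hp hp1 ω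
  calc wt p ω * f ω ≤ wt p ω * 1 := mul_le_mul_of_nonneg_left (hf ω) h3
    _ = wt p ω := mul_one _

end R4

theorem exists_eps0 (hd : 1 ≤ d) : ∃ p₀ : ℝ, p₀ < 1 ∧ ∀ p : ℝ, p₀ < p → p ≤ 1 →
    pbad d p 1 ≤ eps0 d := by
  set N : ℕ := (univ : Finset (Win d (10 * 1))).card with hN
  have hbound : ∀ p : ℝ, 0 ≤ p → p ≤ 1 → pbad d p 1 ≤ 1 - p ^ N := by
    intro p hp hp1
    have h1 : wt p (fun _ : Win d (10 * 1) => true) = p ^ N := by
      unfold wt
      simp [hN]
    have h2 : pbad d p 1 + p ^ N ≤ 1 := by
      rw [← h1]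
      refine R4.Ex_add_wt hp hp1 (fun ω => ?_) _ (if_pos (R4.good_all hd))
      split_ifs
      · exact zero_le_one
      · exact le_rfl
    linarith
  have heps : 0 < eps0 d := by
    unfold eps0
    positivity
  have hcont : ContinuousAt (fun p : ℝ => 1 - p ^ N) 1 := by fun_prop
  have hev : ∀ᶠ p in nhds (1 : ℝ), 1 - p ^ N < eps0 d := by
    refine hcont.eventually_lt continuousAt_const ?_
    simpa using heps
  obtain ⟨δ, hδ, hδ'⟩ := Metric.eventually_nhds_iff.1 hev
  refine ⟨max 0 (1 - δ), by rw [max_lt_iff]; constructor <;> linarith, fun p hp hp1 => ?_⟩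
  rw [max_lt_iff] at hp
  refine (hbound p hp.1.le hp1).trans (hδ' ?_).le
  rw [Real.dist_eq, abs_lt]
  constructor <;> linarith [hp.2]

end Pool.Agent.Lib.MP_566bac_pr.Hd
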