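import Pool.Agent.Lib.MP_566bac_pr.Hd.HOM

/-!
# WT3: the function `Lt`
-/

open Finset MeasureTheory ProbabilityTheory Filter
open scoped Classical

namespace Pool.Agent.Lib.MP_566bac_pr.Hd

/-- the homogeneous vector valued version of `Lt` -/
noncomputable def WT3_G (d : ℕ) (ρ : ℝ) (p : E d × ℝ) : E d :=
  (‖p.1‖ ^ 2 + p.2 ^ 2) ^ ((ρ - 1) / 2) • p.1

theorem WT3_pos {d : ℕ} {p : E d × ℝ} (hp : p ≠ 0) : 0 < ‖p.1‖ ^ 2 + p.2 ^ 2 := by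
  by_contra h
  have h1 : ‖p.1‖ ^ 2 = 0 := by nlinarith [sq_nonneg ‖p.1‖, sq_nonneg p.2]
  have h2 : p.2 ^ 2 = 0 := by nlinarith [sq_nonneg ‖p.1‖, sq_nonneg p.2]
  apply hp
  exact Prod.ext (norm_eq_zero.1 (pow_eq_zero_iff two_ne_zero |>.1 h1))
    (pow_eq_zero_iff two_ne_zero |>.1 h2)

theorem WT3_smooth (d : ℕ) (ρ : ℝ) (p : E d × ℝ) (hp : p ≠ 0) :
    ContDiffAt ℝ 4 (WT3_G d ρ) p := by
  unfold WT3_G
  have h1 : ContDiffAt ℝ 4 (fun p : E d × ℝ => ‖p.1‖ ^ 2 + p.2 ^ 2) p :=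
    ((contDiffAt_fst (𝕜 := ℝ)).norm_sq ℝ).add (contDiffAt_snd.pow 2)
  have h2 : ContDiffAt ℝ 4 (fun p : E d × ℝ => (‖p.1‖ ^ 2 + p.2 ^ 2) ^ ((ρ - 1) / 2)) p :=
    h1.rpow_const_of_ne (WT3_pos hp).ne'
  exact ContDiffAt.smul h2 contDiffAt_fst

theorem WT3_hom (d : ℕ) (ρ : ℝ) (l : ℝ) (hl : 0 < l) (p : E d × ℝ) (_hp : p ≠ 0) :
    WT3_G d ρ (l • p) = l ^ ρ • WT3_G d ρ p + 0 := by
  unfold WT3_G
  have h1 : ‖(l • p).1‖ ^ 2 + (l • p).2 ^ 2 = l ^ 2 * (‖p.1‖ ^ 2 + p.2 ^ 2) := by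
    rw [Prod.smul_fst, Prod.smul_snd, norm_smul, smul_eq_mul, Real.norm_eq_abs,
      abs_of_pos hl]
    ring
  rw [h1, Real.mul_rpow (by positivity) (by positivity), add_zero, Prod.smul_fst, smul_smul,
    smul_smul]
  congr 1
  have h2 : (l ^ 2) ^ ((ρ - 1) / 2) = l ^ (ρ - 1) := by
    rw [← Real.rpow_natCast l 2, ← Real.rpow_mul hl.le]
    congr 1
    push_cast
    ring
  have h3 : l ^ (ρ - 1) * l = l ^ ρ := by
    rw [Real.rpow_sub_one hl.ne']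
    field_simp
  rw [h2]
  calc l ^ (ρ - 1) * (‖p.1‖ ^ 2 + p.2 ^ 2) ^ ((ρ - 1) / 2) * l =
      (l ^ (ρ - 1) * l) * (‖p.1‖ ^ 2 + p.2 ^ 2) ^ ((ρ - 1) / 2) := by ring
    _ = _ := by rw [h3]

theorem WT3_eq {d : ℕ} (ρ : ℝ) (e' : E d) :
    Lt ρ e' = (innerSL ℝ e') ∘ fun x => WT3_G d ρ (x - 0, 1) := by
  funext x
  unfold Lt WT3_G
  simp only [Function.comp, innerSL_apply_apply, sub_zero, one_pow]
  rw [real_inner_smul_right, real_inner_comm, add_comm (‖x‖ ^ 2)]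
  ring

theorem WT3_contDiff {d : ℕ} (ρ : ℝ) (e' : E d) : ContDiff ℝ 4 (Lt ρ e') := by
  unfold Lt
  refine (contDiff_id.inner ℝ contDiff_const).mul (ContDiff.rpow_const_of_ne ?_ ?_)
  · exact contDiff_const.add (contDiff_id.norm_sq ℝ)
  · intro x
    positivity

theorem WT3_fderiv {d : ℕ} (ρ : ℝ) (e' x : E d) (he : ‖e'‖ = 1) :
    fderiv ℝ (Lt ρ e') x e' = (1 + ‖x‖ ^ 2) ^ ((ρ - 1) / 2) +
      (ρ - 1) * inner ℝ x e' ^ 2 * (1 + ‖x‖ ^ 2) ^ ((ρ - 1) / 2 - 1) := by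
  have hD : 0 < 1 + ‖x‖ ^ 2 := by positivity
  have h1 : HasFDerivAt (fun x : E d => ‖x‖ ^ 2) (2 • innerSL ℝ x) x := by
    have := (hasFDerivAt_id (𝕜 := ℝ) x).norm_sq
    simpa using this
  have h2 : HasFDerivAt (fun x : E d => (1 + ‖x‖ ^ 2) ^ ((ρ - 1) / 2))
      (((ρ - 1) / 2 * (1 + ‖x‖ ^ 2) ^ ((ρ - 1) / 2 - 1)) • (2 • innerSL ℝ x)) x := by
    have h3 := (Real.hasDerivAt_rpow_const (p := (ρ - 1) / 2) (Or.inl hD.ne')).comp_hasFDerivAt x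
      (h1.const_add 1)
    exact h3
  have h3 : HasFDerivAt (fun x : E d => inner ℝ x e') (innerSL ℝ e') x := by
    have h4 := (innerSL ℝ e').hasFDerivAt (x := x)
    refine h4.congr_of_eventuallyEq (Filter.Eventually.of_forall fun z => ?_)
    simp only
    rw [real_inner_comm]
    rfl
  have h4 : HasFDerivAt (fun x : E d => inner ℝ x e' * (1 + ‖x‖ ^ 2) ^ ((ρ - 1) / 2)) _ x :=
    h3.mul h2
  unfold Lt
  rw [h4.fderiv]
  change inner ℝ x e' * ((ρ - 1) / 2 * (1 + ‖x‖ ^ 2) ^ ((ρ - 1) / 2 - 1) *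
    (2 • inner ℝ x e')) + (1 + ‖x‖ ^ 2) ^ ((ρ - 1) / 2) * inner ℝ e' e' = _
  rw [real_inner_self_eq_norm_sq, he, nsmul_eq_mul]
  push_cast
  ring

theorem Lt_facts (d : ℕ) (ρ : ℝ) (hρ : 0 < ρ) (hρ1 : ρ < 1) : ∃ C : ℝ, 0 < C ∧
    ∀ e' : E d, ‖e'‖ = 1 → ContDiff ℝ 4 (Lt ρ e') ∧
    (∀ x, 1 ≤ ‖x‖ → |Lt ρ e' x| ≤ ‖x‖ ^ ρ ∧ ∀ n : ℕ, 1 ≤ n → n ≤ 3 →
      ‖iteratedFDeriv ℝ n (Lt ρ e') x‖ ≤ C * ‖x‖ ^ (ρ - n)) ∧
    (∀ x, ρ * (1 + ‖x‖ ^ 2) ^ ((ρ - 1) / 2) ≤ fderiv ℝ (Lt ρ e') x e') := by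
  obtain ⟨C, hC, hC'⟩ := HOM_vec (WT3_G d ρ) (WT3_smooth d ρ) ρ (fun _ => 0) (WT3_hom d ρ)
  refine ⟨C, hC, fun e' he => ⟨WT3_contDiff ρ e', ?_, ?_⟩⟩
  · intro x hx
    have hx0 : 0 < ‖x‖ := by linarith
    refine ⟨?_, ?_⟩
    · unfold Lt
      rw [abs_mul]
      have h1 : |inner ℝ x e'| ≤ ‖x‖ := by
        have := abs_real_inner_le_norm x e'
        rwa [he, mul_one] at this
      have h2 : |(1 + ‖x‖ ^ 2) ^ ((ρ - 1) / 2)| ≤ ‖x‖ ^ (ρ - 1) := by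
        rw [abs_of_nonneg (by positivity)]
        have h3 : (1 + ‖x‖ ^ 2) ^ ((ρ - 1) / 2) ≤ (‖x‖ ^ 2) ^ ((ρ - 1) / 2) :=
          Real.rpow_le_rpow_of_nonpos (by positivity) (by linarith) (by linarith)
        have h4 : (‖x‖ ^ 2) ^ ((ρ - 1) / 2) = ‖x‖ ^ (ρ - 1) := by
          rw [← Real.rpow_natCast ‖x‖ 2, ← Real.rpow_mul hx0.le]
          congr 1
          push_cast
          ring
        rwa [h4] at h3
      calc |inner ℝ x e'| * |(1 + ‖x‖ ^ 2) ^ ((ρ - 1) / 2)| ≤ ‖x‖ * ‖x‖ ^ (ρ - 1) :=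
            mul_le_mul h1 h2 (abs_nonneg _) hx0.le
        _ = ‖x‖ ^ ρ := by
            rw [Real.rpow_sub_one hx0.ne']
            field_simp
    · intro n hn1 hn3
      have hne : ((x - 0, 1) : E d × ℝ) ≠ 0 := by
        intro h
        have := congrArg Prod.snd h
        simp at this
      have h1 : ContDiffAt ℝ n (fun x : E d => WT3_G d ρ (x - 0, 1)) x := by
        have : ContDiffAt ℝ 4 (fun x : E d => WT3_G d ρ (x - 0, 1)) x :=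
          ContDiffAt.fun_comp (g := WT3_G d ρ) (f := fun x => ((x - 0, 1) : E d × ℝ)) x
            (WT3_smooth d ρ _ hne) ((contDiffAt_id.sub contDiffAt_const).prodMk contDiffAt_const)
        exact this.of_le (by exact_mod_cast (by omega : n ≤ 4))
      rw [WT3_eq]
      refine ((innerSL ℝ e').norm_iteratedFDeriv_comp_left h1 le_rfl).trans ?_
      rw [innerSL_apply_norm, he, one_mul]
      refine (HOM_slice (WT3_G d ρ) (WT3_smooth d ρ) one_ne_zero 0 x (by omega)).trans ?_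
      refine (hC' _ hne n hn1 (by omega)).trans ?_
      have h2 : ‖((x - 0, 1) : E d × ℝ)‖ = ‖x‖ := by
        rw [Prod.norm_def]
        simp [hx]
      rw [h2]
  · intro x
    rw [WT3_fderiv ρ e' x he]
    have hD : 0 < 1 + ‖x‖ ^ 2 := by positivity
    have h1 : inner ℝ x e' ^ 2 ≤ 1 + ‖x‖ ^ 2 := by
      have h2 : |inner ℝ x e'| ≤ ‖x‖ := by
        have := abs_real_inner_le_norm x e'
        rwa [he, mul_one] at this
      have := pow_le_pow_left₀ (abs_nonneg _) h2 2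
      rw [sq_abs] at this
      linarith
    rw [Real.rpow_sub_one hD.ne']
    set P := (1 + ‖x‖ ^ 2) ^ ((ρ - 1) / 2) with hP
    have hP0 : 0 < P := Real.rpow_pos_of_pos hD _
    have h3 : inner ℝ x e' ^ 2 * (P / (1 + ‖x‖ ^ 2)) ≤ P := by
      rw [mul_div_assoc', div_le_iff₀ hD, mul_comm]
      exact mul_le_mul_of_nonneg_left h1 hP0.le
    have h4 : (ρ - 1) * P ≤ (ρ - 1) * (inner ℝ x e' ^ 2 * (P / (1 + ‖x‖ ^ 2))) :=
      mul_le_mul_of_nonpos_left h3 (by linarith)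
    rw [mul_assoc]
    linarith

end Pool.Agent.Lib.MP_566bac_pr.Hd
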