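import Pool.Agent.Lib.MP_566bac_pr.Hd.DefsC

/-!
# Values of the weight (WT4)
-/

open Finset MeasureTheory ProbabilityTheory Filter
open scoped Classical

namespace Pool.Agent.Lib.MP_566bac_pr.Hd

variable {d : ℕ}

namespace WT4

lemma F0_arg_pos (a : ℝ) (ha : 0 < a) (e x : E d) : 0 < (‖x - e‖ ^ 2 + a ^ 2) / (1 + a ^ 2) := by
  positivity

lemma F0_le_log {a : ℝ} (ha : 0 < a) {e : E d} (he : ‖e‖ = 1) (x : E d) :
    F0 e a x ≤ Real.log (1 + ‖x‖) := by
  have h1 : ‖x - e‖ ≤ 1 + ‖x‖ := by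
    have := norm_sub_le x e
    rw [he] at this
    linarith
  have h0 : 0 ≤ ‖x - e‖ := norm_nonneg _
  have hx : 0 ≤ ‖x‖ := norm_nonneg _
  have h2 : (‖x - e‖ ^ 2 + a ^ 2) / (1 + a ^ 2) ≤ (1 + ‖x‖) ^ 2 := by
    rw [div_le_iff₀ (by positivity)]
    have h3 : ‖x - e‖ ^ 2 ≤ (1 + ‖x‖) ^ 2 := pow_le_pow_left₀ h0 h1 2
    nlinarith [mul_nonneg (sq_nonneg a) (show 0 ≤ (1 + ‖x‖) ^ 2 - 1 by nlinarith)]
  have h3 := Real.log_le_log (F0_arg_pos a ha e x) h2
  rw [Real.log_pow] at h3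
  unfold F0
  push_cast at h3
  linarith

lemma F0_le {a : ℝ} (ha : 0 < a) {e : E d} (he : ‖e‖ = 1) (x : E d) : F0 e a x ≤ ‖x‖ := by
  refine (F0_le_log ha he x).trans ?_
  have := Real.log_le_sub_one_of_pos (show 0 < 1 + ‖x‖ by positivity)
  linarith

lemma F0_ge_small {a : ℝ} (ha : 0 < a) {e : E d} (he : ‖e‖ = 1) {x : E d} (hx : ‖x‖ ≤ 1 / 2) :
    -(2 * ‖x‖) ≤ F0 e a x := by
  have hx0 : 0 ≤ ‖x‖ := norm_nonneg _
  have h1 : 1 - ‖x‖ ≤ ‖x - e‖ := by
    have := norm_sub_norm_le e x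
    rw [he, norm_sub_rev] at this
    exact this
  have h2 : (1 - ‖x‖) ^ 2 ≤ (‖x - e‖ ^ 2 + a ^ 2) / (1 + a ^ 2) := by
    rw [le_div_iff₀ (by positivity)]
    have h3 : (1 - ‖x‖) ^ 2 ≤ ‖x - e‖ ^ 2 := pow_le_pow_left₀ (by linarith) h1 2
    have h4 : (1 - ‖x‖) ^ 2 ≤ 1 := by nlinarith
    nlinarith [mul_le_mul_of_nonneg_right h4 (sq_nonneg a)]
  have h3 := Real.log_le_log (by have : 0 < 1 - ‖x‖ := by linarith
                                 positivity) h2
  rw [Real.log_pow] at h3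
  -- `log (1 - t) ≥ -2 t`
  have h4 : -(2 * ‖x‖) ≤ Real.log (1 - ‖x‖) := by
    have h5 : 0 < 1 - ‖x‖ := by linarith
    have h6 := Real.one_sub_inv_le_log_of_pos h5
    have h7 : (1 - ‖x‖)⁻¹ ≤ 1 + 2 * ‖x‖ := by
      rw [inv_le_comm₀ h5 (by positivity), inv_eq_one_div, div_le_iff₀ (by positivity)]
      nlinarith
    linarith
  unfold F0
  push_cast at h3
  linarith

lemma F0_ge_large {a : ℝ} (ha : 0 < a) {e : E d} (he : ‖e‖ = 1) {x : E d} (hx : 2 ≤ ‖x‖) :
    0 ≤ F0 e a x := by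
  have h1 : ‖x‖ - 1 ≤ ‖x - e‖ := by
    have := norm_sub_norm_le x e
    rw [he] at this
    exact this
  have h2 : 1 ≤ (‖x - e‖ ^ 2 + a ^ 2) / (1 + a ^ 2) := by
    rw [le_div_iff₀ (by positivity)]
    nlinarith
  have h3 := Real.log_nonneg h2
  unfold F0
  positivity

lemma F0_ge_log {a : ℝ} (ha : 0 < a) (ha1 : a ≤ 1) {e : E d} (he : ‖e‖ = 1) {x : E d}
    (hx : 2 ≤ ‖x‖) : Real.log (‖x‖ - 1) - (1 / 2) * Real.log 2 ≤ F0 e a x := by
  have h1 : ‖x‖ - 1 ≤ ‖x - e‖ := by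
    have := norm_sub_norm_le x e
    rw [he] at this
    exact this
  have h0 : 0 < ‖x‖ - 1 := by linarith
  have h2 : (‖x‖ - 1) ^ 2 / 2 ≤ (‖x - e‖ ^ 2 + a ^ 2) / (1 + a ^ 2) := by
    rw [div_le_div_iff₀ (by norm_num) (by positivity)]
    have h3 : (‖x‖ - 1) ^ 2 ≤ ‖x - e‖ ^ 2 := pow_le_pow_left₀ h0.le h1 2
    have h4 : a ^ 2 ≤ 1 := pow_le_one₀ ha.le ha1
    nlinarith [mul_le_mul_of_nonneg_left h4 (sq_nonneg (‖x‖ - 1)), sq_nonneg a]
  have h3 := Real.log_le_log (by positivity) h2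
  rw [Real.log_div (by positivity) (by norm_num), Real.log_pow] at h3
  unfold F0
  push_cast at h3
  linarith

lemma F0_near {a : ℝ} (ha : 0 < a) {e : E d} {x : E d} (hx : ‖x - e‖ ≤ a) :
    F0 e a x ≤ (1 / 2) * Real.log 2 + Real.log a := by
  have h0 : 0 ≤ ‖x - e‖ := norm_nonneg _
  have h2 : (‖x - e‖ ^ 2 + a ^ 2) / (1 + a ^ 2) ≤ 2 * a ^ 2 := by
    rw [div_le_iff₀ (by positivity)]
    have h3 : ‖x - e‖ ^ 2 ≤ a ^ 2 := pow_le_pow_left₀ h0 hx 2
    nlinarith [sq_nonneg (a ^ 2)]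
  have h3 := Real.log_le_log (F0_arg_pos a ha e x) h2
  rw [Real.log_mul (by norm_num) (by positivity), Real.log_pow] at h3
  unfold F0
  push_cast at h3
  linarith

/-- the term of the series -/
noncomputable def tm (K : ℝ) (e : E d) (x : E d) (k : ℕ) : ℝ :=
  2 ^ k * F0 e (K⁻¹ ^ 4) ((K ^ k)⁻¹ • x)

lemma norm_sc {K : ℝ} (hK : 0 < K) (k : ℕ) (x : E d) : ‖(K ^ k)⁻¹ • x‖ = ‖x‖ / K ^ k := by
  rw [norm_smul, norm_inv, norm_pow, Real.norm_of_nonneg hK.le]
  field_simp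

lemma summable_tm {K : ℝ} (hK : 2 < K) {e : E d} (he : ‖e‖ = 1) (x : E d) :
    Summable (tm K e x) := by
  have hK0 : 0 < K := by linarith
  have ha : 0 < K⁻¹ ^ 4 := by positivity
  have hr : (2 / K) < 1 := by rw [div_lt_one hK0]; exact hK
  have hgeo : Summable fun k : ℕ => 2 * ‖x‖ * (2 / K) ^ k :=
    (summable_geometric_of_lt_one (by positivity) hr).mul_left _
  -- eventually small
  obtain ⟨N, hN⟩ : ∃ N : ℕ, ∀ k ≥ N, ‖x‖ / K ^ k ≤ 1 / 2 := by
    have h1 : Tendsto (fun k : ℕ => ‖x‖ * (1 / K) ^ k) atTop (nhds (‖x‖ * 0)) :=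
      (tendsto_pow_atTop_nhds_zero_of_lt_one (by positivity)
        (by rw [div_lt_one hK0]; linarith)).const_mul _
    rw [mul_zero] at h1
    obtain ⟨N, hN⟩ := eventually_atTop.mp (h1.eventually (gt_mem_nhds (show (0 : ℝ) < 1 / 2 by norm_num)))
    refine ⟨N, fun k hk => ?_⟩
    have := hN k hk
    rw [one_div_pow] at this
    rw [div_eq_mul_one_div]
    exact this.le
  refine Summable.of_norm_bounded_eventually_nat hgeo ?_
  filter_upwards [eventually_ge_atTop N] with k hk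
  have h1 := hN k hk
  have h2 := norm_sc hK0 k x
  have h3 : ‖(K ^ k)⁻¹ • x‖ ≤ 1 / 2 := by rw [h2]; exact h1
  have h4 := F0_ge_small ha he h3
  have h5 := F0_le ha he ((K ^ k)⁻¹ • x)
  have h6 : |F0 e (K⁻¹ ^ 4) ((K ^ k)⁻¹ • x)| ≤ 2 * ‖(K ^ k)⁻¹ • x‖ := by
    rw [abs_le]
    exact ⟨by linarith, by linarith [norm_nonneg ((K ^ k)⁻¹ • x)]⟩
  rw [tm, Real.norm_eq_abs, abs_mul, abs_of_nonneg (by positivity : (0 : ℝ) ≤ 2 ^ k)]
  refine (mul_le_mul_of_nonneg_left h6 (by positivity)).trans (le_of_eq ?_)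
  rw [h2, div_pow]
  ring

lemma split {K : ℝ} (hK : 2 < K) {e : E d} (he : ‖e‖ = 1) (x : E d) (m : ℕ) :
    Phi0 K e x = ∑ k ∈ range m, tm K e x k + tm K e x m + ∑' k, tm K e x (k + (m + 1)) := by
  rw [← sum_range_succ, (summable_tm hK he x).sum_add_tsum_nat_add (m + 1)]
  rfl

/-- the first sum -/
lemma sum_first (m : ℕ) (A B : ℝ) (hA : 0 ≤ A) (hB : 0 ≤ B) :
    ∑ k ∈ range m, (2 : ℝ) ^ k * (A + ((m - k : ℕ) : ℝ) * B) ≤ 2 ^ m * (A + 2 * B) := by
  have key : ∀ m : ℕ, ∑ k ∈ range m, (2 : ℝ) ^ k * (A + ((m - k : ℕ) : ℝ) * B) =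
      2 ^ m * (A + 2 * B) - (A + (m + 2) * B) := by
    intro m
    induction m with
    | zero => simp
    | succ m ih =>
      have h1 : ∑ k ∈ range (m + 1), (2 : ℝ) ^ k * (A + ((m + 1 - k : ℕ) : ℝ) * B) =
          ∑ k ∈ range (m + 1), ((2 : ℝ) ^ k * (A + ((m - k : ℕ) : ℝ) * B) + 2 ^ k * B) := by
        apply sum_congr rfl
        intro k hk
        rw [mem_range] at hk
        rw [show m + 1 - k = (m - k) + 1 by omega]
        push_cast
        ring
      rw [h1, sum_add_distrib, sum_range_succ, ih, ← sum_mul]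
      have h2 : ∑ k ∈ range (m + 1), (2 : ℝ) ^ k = 2 ^ (m + 1) - 1 := by
        rw [geom_sum_eq (by norm_num)]
        norm_num
      rw [h2]
      simp only [Nat.sub_self, Nat.cast_zero, zero_mul, add_zero]
      push_cast
      ring
  rw [key]
  have : 0 ≤ A + (m + 2) * B := by positivity
  linarith

/-- the tail -/
lemma tail_sum {K : ℝ} (hK : 4 ≤ K) : ∑' k : ℕ, (2 / K) ^ (k + 1) ≤ 4 / K ∧
    Summable fun k : ℕ => (2 / K) ^ (k + 1) := by
  have hK0 : 0 < K := by linarith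
  have hr : (2 / K) ≤ 1 / 2 := by
    rw [div_le_div_iff₀ hK0 (by norm_num)]
    linarith
  have hs := summable_geometric_of_lt_one (show 0 ≤ 2 / K by positivity) (show 2 / K < 1 by linarith)
  refine ⟨?_, by simpa [pow_succ] using hs.mul_right (2 / K)⟩
  have h1 : ∑' k : ℕ, (2 / K) ^ (k + 1) = (1 - 2 / K)⁻¹ * (2 / K) := by
    simp_rw [pow_succ]
    rw [tsum_mul_right, tsum_geometric_of_lt_one (by positivity) (by linarith)]
  rw [h1]
  have h2 : (1 - 2 / K)⁻¹ ≤ 2 := by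
    rw [inv_le_comm₀ (by linarith) (by norm_num)]
    linarith
  calc (1 - 2 / K)⁻¹ * (2 / K) ≤ 2 * (2 / K) := mul_le_mul_of_nonneg_right h2 (by positivity)
    _ = 4 / K := by ring

end WT4

open WT4

theorem Phi0_values (d : ℕ) : ∃ L₀ : ℕ, 1 ≤ L₀ ∧ ∀ L' : ℕ, L₀ ≤ L' → ∃ δ : ℝ, 0 < δ ∧ δ ≤ 1 ∧
    ∀ e : E d, ‖e‖ = 1 → ∀ (m : ℕ) (x : E d),
      (‖(((2 : ℝ) ^ L') ^ m)⁻¹ • x - e‖ ≤ δ → Phi0 (2 ^ L') e x ≤ -2 ^ m) ∧
      (((2 : ℝ) ^ L') ^ ((m : ℝ) + 1 / 2) / 2 ≤ ‖x‖ → ‖x‖ ≤ 2 * ((2 : ℝ) ^ L') ^ ((m : ℝ) + 1 / 2) →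
        2 ^ m ≤ Phi0 (2 ^ L') e x) := by
  refine ⟨12, by norm_num, ?_⟩
  intro L' hL
  set K : ℝ := (2 : ℝ) ^ L' with hKdef
  have hK12 : (4096 : ℝ) ≤ K := by
    calc (4096 : ℝ) = 2 ^ 12 := by norm_num
      _ ≤ 2 ^ L' := pow_le_pow_right₀ (by norm_num) hL
  have hK0 : 0 < K := by linarith
  have hK2 : 2 < K := by linarith
  have hK4 : 4 ≤ K := by linarith
  have hK1 : 1 ≤ K := by linarith
  have hlog2 : (0.6931471803 : ℝ) < Real.log 2 := Real.log_two_gt_d9
  have hlog2' : Real.log 2 < 0.6931471808 := Real.log_two_lt_d9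
  have hlogK : 8.3 ≤ Real.log K := by
    rw [hKdef, Real.log_pow]
    have : (12 : ℝ) ≤ L' := by exact_mod_cast hL
    nlinarith
  set a : ℝ := K⁻¹ ^ 4 with ha
  have ha0 : 0 < a := by positivity
  have hKinv : K⁻¹ ≤ 1 := inv_le_one_of_one_le₀ hK1
  have ha1 : a ≤ 1 := pow_le_one₀ (by positivity) hKinv
  refine ⟨a, ha0, ha1, ?_⟩
  intro e he m x
  obtain ⟨htail, hsum⟩ := tail_sum hK4
  constructor
  · -- near
    intro hx
    rw [split hK2 he x m]
    have hKm : (0 : ℝ) < K ^ m := by positivity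
    have hnx : ‖x‖ ≤ 2 * K ^ m := by
      have h1 : ‖(K ^ m)⁻¹ • x‖ ≤ 2 := by
        have h2 := norm_sub_norm_le ((K ^ m)⁻¹ • x) e
        rw [he] at h2
        linarith
      rw [norm_sc hK0, div_le_iff₀ hKm] at h1
      exact h1
    -- the term `m`
    have h1 : tm K e x m ≤ 2 ^ m * ((1 / 2) * Real.log 2 - 4 * Real.log K) := by
      have h2 := F0_near ha0 hx
      have h3 : Real.log a = - (4 * Real.log K) := by
        rw [ha, Real.log_pow, Real.log_inv]
        push_cast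
        ring
      rw [h3] at h2
      rw [tm]
      apply mul_le_mul_of_nonneg_left _ (by positivity)
      linarith
    -- the terms `k < m`
    have h2 : ∑ k ∈ range m, tm K e x k ≤ 2 ^ m * (2 * Real.log 2 + 2 * Real.log K) := by
      refine le_trans (sum_le_sum fun k hk => ?_) (sum_first m (2 * Real.log 2) (Real.log K)
        (by linarith) (by linarith))
      rw [mem_range] at hk
      rw [tm]
      apply mul_le_mul_of_nonneg_left _ (by positivity)
      refine (F0_le_log ha0 he _).trans ?_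
      have h3 : 1 + ‖(K ^ k)⁻¹ • x‖ ≤ 4 * K ^ (m - k) := by
        have h4 : ‖(K ^ k)⁻¹ • x‖ ≤ 2 * K ^ (m - k) := by
          rw [norm_sc hK0, div_le_iff₀ (by positivity), mul_assoc, ← pow_add,
            Nat.sub_add_cancel hk.le]
          exact hnx
        have h5 : (1 : ℝ) ≤ K ^ (m - k) := one_le_pow₀ hK1
        linarith
      have h4 := Real.log_le_log (by positivity) h3
      rw [Real.log_mul (by norm_num) (by positivity), Real.log_pow,
        show (4 : ℝ) = 2 ^ 2 by norm_num, Real.log_pow] at h4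
      push_cast at h4 ⊢
      linarith
    -- the tail
    have h3 : ∑' k, tm K e x (k + (m + 1)) ≤ 2 ^ m * 1 := by
      have h4 : ∀ k : ℕ, tm K e x (k + (m + 1)) ≤ 2 ^ m * (2 * (2 / K) ^ (k + 1)) := by
        intro k
        have h5 := F0_le ha0 he ((K ^ (k + (m + 1)))⁻¹ • x)
        rw [norm_sc hK0] at h5
        rw [tm]
        refine (mul_le_mul_of_nonneg_left h5 (by positivity)).trans ?_
        have h6 : ‖x‖ / K ^ (k + (m + 1)) ≤ 2 * (1 / K) ^ (k + 1) := by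
          rw [div_le_iff₀ (by positivity)]
          refine hnx.trans (le_of_eq ?_)
          rw [show k + (m + 1) = (k + 1) + m by ring, pow_add K (k + 1) m, one_div_pow]
          field_simp
        refine (mul_le_mul_of_nonneg_left h6 (by positivity)).trans (le_of_eq ?_)
        rw [show k + (m + 1) = m + (k + 1) by ring, pow_add (2 : ℝ) m (k + 1), div_pow, div_pow,
          one_pow]
        ring
      have h5 : Summable fun k : ℕ => (2 : ℝ) ^ m * (2 * (2 / K) ^ (k + 1)) :=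
        (hsum.mul_left 2).mul_left _
      refine (Summable.tsum_le_tsum h4
        ((summable_nat_add_iff (m + 1)).mpr (summable_tm hK2 he x)) h5).trans ?_
      rw [tsum_mul_left, tsum_mul_left]
      apply mul_le_mul_of_nonneg_left _ (by positivity)
      have h6 : 4 / K ≤ 1 / 2 := by
        rw [div_le_div_iff₀ hK0 (by norm_num)]
        linarith
      linarith
    have h4 : (0 : ℝ) < 2 ^ m := by positivity
    nlinarith
  · -- shell
    intro hx1 hx2
    rw [split hK2 he x m]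
    set s : ℝ := Real.sqrt K with hs
    have hs2 : s * s = K := Real.mul_self_sqrt hK0.le
    have hs0 : 0 < s := Real.sqrt_pos.mpr hK0
    have hs64 : 64 ≤ s := by
      rw [hs, Real.le_sqrt' (by norm_num)]
      norm_num
      linarith
    have hrp : K ^ ((m : ℝ) + 1 / 2) = K ^ m * s := by
      rw [Real.rpow_add hK0, Real.rpow_natCast, hs, Real.sqrt_eq_rpow]
    rw [hrp] at hx1 hx2
    have hKm : (0 : ℝ) < K ^ m := by positivity
    -- the term `m`
    have hnm : s / 2 ≤ ‖(K ^ m)⁻¹ • x‖ := by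
      rw [norm_sc hK0, le_div_iff₀ hKm]
      linarith
    have h1 : 2 ^ m * ((1 / 2) * Real.log K - (5 / 2) * Real.log 2) ≤ tm K e x m := by
      rw [tm]
      apply mul_le_mul_of_nonneg_left _ (by positivity)
      refine le_trans ?_ (F0_ge_log ha0 ha1 he (by linarith))
      have h2 : s / 4 ≤ ‖(K ^ m)⁻¹ • x‖ - 1 := by linarith
      have h3 := Real.log_le_log (by positivity) h2
      rw [Real.log_div hs0.ne' (by norm_num), show (4 : ℝ) = 2 ^ 2 by norm_num, Real.log_pow] at h3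
      have h4 : Real.log K = 2 * Real.log s := by
        rw [← hs2, Real.log_mul hs0.ne' hs0.ne']
        ring
      rw [h4]
      push_cast at h3
      linarith
    -- the terms `k < m`
    have h2 : 0 ≤ ∑ k ∈ range m, tm K e x k := by
      apply sum_nonneg
      intro k hk
      rw [mem_range] at hk
      rw [tm]
      apply mul_nonneg (by positivity)
      apply F0_ge_large ha0 he
      rw [norm_sc hK0, le_div_iff₀ (by positivity)]
      have h3 : K ^ k ≤ K ^ m := pow_le_pow_right₀ hK1 hk.le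
      nlinarith
    -- the tail
    have h3 : -(2 ^ m * (16 / s)) ≤ ∑' k, tm K e x (k + (m + 1)) := by
      have hbound : ∀ k : ℕ, ‖x‖ / K ^ (k + (m + 1)) ≤ 2 * s * (1 / K) ^ (k + 1) := by
        intro k
        rw [div_le_iff₀ (by positivity)]
        refine hx2.trans (le_of_eq ?_)
        rw [show k + (m + 1) = (k + 1) + m by ring, pow_add K (k + 1) m, one_div_pow]
        field_simp
      have h4 : ∀ k : ℕ, -(2 ^ m * (4 * s * (2 / K) ^ (k + 1))) ≤ tm K e x (k + (m + 1)) := by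
        intro k
        have h5 : ‖(K ^ (k + (m + 1)))⁻¹ • x‖ ≤ 2 * s * (1 / K) ^ (k + 1) := by
          rw [norm_sc hK0]
          exact hbound k
        have h6 : 2 * s * (1 / K) ^ (k + 1) ≤ 1 / 2 := by
          have h7 : (1 / K) ^ (k + 1) ≤ 1 / K :=
            pow_le_of_le_one (by positivity) (by rw [div_le_one hK0]; linarith) (by omega)
          have h8 : 2 * s * (1 / K) ≤ 1 / 2 := by
            rw [mul_one_div, div_le_div_iff₀ hK0 (by norm_num), ← hs2]
            nlinarith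
          exact (mul_le_mul_of_nonneg_left h7 (by positivity)).trans h8
        have h7 := F0_ge_small ha0 he (h5.trans h6)
        rw [tm]
        have h8 : -(2 * (2 * s * (1 / K) ^ (k + 1))) ≤ F0 e (K⁻¹ ^ 4) ((K ^ (k + (m + 1)))⁻¹ • x) := by
          linarith
        refine le_trans (le_of_eq ?_) (mul_le_mul_of_nonneg_left h8 (by positivity))
        rw [show k + (m + 1) = m + (k + 1) by ring, pow_add (2 : ℝ) m (k + 1), div_pow, div_pow,
          one_pow]
        ring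
      have h5 : Summable fun k : ℕ => -((2 : ℝ) ^ m * (4 * s * (2 / K) ^ (k + 1))) :=
        ((hsum.mul_left _).mul_left _).neg
      refine le_trans ?_ (Summable.tsum_le_tsum h4 h5
        ((summable_nat_add_iff (m + 1)).mpr (summable_tm hK2 he x)))
      rw [tsum_neg, tsum_mul_left, tsum_mul_left]
      apply neg_le_neg
      apply mul_le_mul_of_nonneg_left _ (by positivity)
      calc 4 * s * ∑' k : ℕ, (2 / K) ^ (k + 1) ≤ 4 * s * (4 / K) :=
            mul_le_mul_of_nonneg_left htail (by positivity)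
        _ = 16 / s := by
            rw [← hs2]
            field_simp
            ring
    have h4 : 16 / s ≤ 1 / 4 := by
      rw [div_le_div_iff₀ hs0 (by norm_num)]
      linarith
    have h5 : (0 : ℝ) < 2 ^ m := by positivity
    nlinarith

end Pool.Agent.Lib.MP_566bac_pr.Hd
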