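import Pool.Agent.Lib.MP_566bac_pr.Hd.WT2
import Pool.Agent.Lib.MP_566bac_pr.Hd.WT3
import Pool.Agent.Lib.MP_566bac_pr.Hd.WT4

/-!
# The weights (WT)
-/

open Finset MeasureTheory ProbabilityTheory Filter
open scoped Classical

namespace Pool.Agent.Lib.MP_566bac_pr.Hd

variable {d : ℕ}



namespace WT

lemma comb_deriv {f g : E d → ℝ} (hf : ContDiff ℝ 4 f) (hg : ContDiff ℝ 4 g) (ε : ℝ) (x : E d)
    {n : ℕ} (hn : n ≤ 3) :
    iteratedFDeriv ℝ n (fun x => f x + ε * g x) x =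
      iteratedFDeriv ℝ n f x + ε • iteratedFDeriv ℝ n g x := by
  have h4 : (n : WithTop ℕ∞) ≤ 4 := by exact_mod_cast hn.trans (by norm_num)
  have h1 : iteratedFDeriv ℝ n (fun x => ε • g x) x = ε • iteratedFDeriv ℝ n g x :=
    iteratedFDeriv_const_smul_apply' (hg.of_le h4).contDiffAt
  have h3' : ContDiff ℝ 4 (fun x => ε * g x) := contDiff_const.mul hg
  have h3 : ContDiff ℝ 4 (fun x => ε • g x) := h3'
  have h2 : iteratedFDeriv ℝ n (f + fun x => ε • g x) x =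
      iteratedFDeriv ℝ n f x + iteratedFDeriv ℝ n (fun x => ε • g x) x :=
    iteratedFDeriv_add_apply (hf.of_le h4).contDiffAt (h3.of_le h4).contDiffAt
  rw [h1] at h2
  exact h2

lemma pair_bound {ρ C : ℝ} {g : E d → ℝ} {x n τ : E d}
    (h : ‖iteratedFDeriv ℝ 2 g x‖ ≤ C * ‖x‖ ^ (ρ - 2)) (hn : ‖n‖ = 1) (hτ : ‖τ‖ = 1) :
    |iteratedFDeriv ℝ 2 g x ![n, n] + iteratedFDeriv ℝ 2 g x ![τ, τ]| ≤
      2 * C * ‖x‖ ^ (ρ - 2) := by
  have key : ∀ v : E d, ‖v‖ = 1 → |iteratedFDeriv ℝ 2 g x ![v, v]| ≤ C * ‖x‖ ^ (ρ - 2) := by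
    intro v hv
    have h1 := (iteratedFDeriv ℝ 2 g x).le_opNorm ![v, v]
    rw [Fin.prod_univ_two] at h1
    simp only [Matrix.cons_val_zero, Matrix.cons_val_one, hv, mul_one] at h1
    exact h1.trans h
  have h1 := key n hn
  have h2 := key τ hτ
  refine (abs_add_le _ _).trans ?_
  linarith

lemma wgt_of {ρ c₁ C₁ C₂ ε ε' : ℝ} {f g : E d → ℝ} (hf : ContDiff ℝ 4 f) (hg : ContDiff ℝ 4 g)
    (hε : |ε'| ≤ ε) (hε1 : ε ≤ 1) (hεc : 4 * ε * C₂ ≤ c₁)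
    (hf1 : ∀ x, 1 ≤ ‖x‖ → ∀ n : ℕ, 1 ≤ n → n ≤ 3 →
      ‖iteratedFDeriv ℝ n f x‖ ≤ C₁ * ‖x‖ ^ (ρ - n))
    (hf2 : ∀ x n τ : E d, 1 ≤ ‖x‖ → ‖n‖ = 1 → ‖τ‖ = 1 → inner ℝ n τ = 0 →
      c₁ * ‖x‖ ^ (ρ - 2) ≤
        iteratedFDeriv ℝ 2 f x ![n, n] + iteratedFDeriv ℝ 2 f x ![τ, τ])
    (hg1 : ∀ x, 1 ≤ ‖x‖ → ∀ n : ℕ, 1 ≤ n → n ≤ 3 →
      ‖iteratedFDeriv ℝ n g x‖ ≤ C₂ * ‖x‖ ^ (ρ - n)) {c : ℝ} (hc : c ≤ c₁ / 2) :
    Wgt ρ c (C₁ + C₂) 1 (fun x => f x + ε' * g x) where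
  smooth := hf.add (contDiff_const.mul hg)
  deriv := by
    intro x hx n hn1 hn3
    rw [comb_deriv hf hg ε' x hn3]
    have h1 := hf1 x hx n hn1 hn3
    have h2 := hg1 x hx n hn1 hn3
    refine (norm_add_le _ _).trans ?_
    have h3 : ‖ε' • iteratedFDeriv ℝ n g x‖ ≤ C₂ * ‖x‖ ^ (ρ - n) := by
      refine (norm_smul_le _ _).trans ?_
      have h4 : ‖ε'‖ ≤ 1 := by rw [Real.norm_eq_abs]; exact hε.trans hε1
      exact (mul_le_of_le_one_left (norm_nonneg _) h4).trans h2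
    rw [add_mul]
    linarith
  conv := by
    intro x hx n τ hn hτ hnτ
    rw [comb_deriv hf hg ε' x (by norm_num)]
    have h1 := hf2 x n τ hx hn hτ hnτ
    have h2 := pair_bound (ρ := ρ) (by have := hg1 x hx 2 (by norm_num) (by norm_num); exact_mod_cast this) hn hτ
    have h3 : ((iteratedFDeriv ℝ 2 f x + ε' • iteratedFDeriv ℝ 2 g x) ![n, n] +
        (iteratedFDeriv ℝ 2 f x + ε' • iteratedFDeriv ℝ 2 g x) ![τ, τ]) =
        (iteratedFDeriv ℝ 2 f x ![n, n] + iteratedFDeriv ℝ 2 f x ![τ, τ]) +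
          ε' * (iteratedFDeriv ℝ 2 g x ![n, n] + iteratedFDeriv ℝ 2 g x ![τ, τ]) := by
      simp only [add_apply, smul_apply, smul_eq_mul]
      ring
    rw [h3]
    have hx0 : 0 ≤ ‖x‖ ^ (ρ - 2) := by positivity
    have h4 : |ε' * (iteratedFDeriv ℝ 2 g x ![n, n] + iteratedFDeriv ℝ 2 g x ![τ, τ])| ≤
        ε * (2 * C₂ * ‖x‖ ^ (ρ - 2)) := by
      rw [abs_mul]
      exact mul_le_mul hε h2 (abs_nonneg _) ((abs_nonneg _).trans hε)
    have h5 := neg_le_of_abs_le h4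
    have h6 : ε * (2 * C₂ * ‖x‖ ^ (ρ - 2)) ≤ c₁ / 2 * ‖x‖ ^ (ρ - 2) := by
      have : (2 * ε * C₂) * ‖x‖ ^ (ρ - 2) ≤ c₁ / 2 * ‖x‖ ^ (ρ - 2) :=
        mul_le_mul_of_nonneg_right (by linarith) hx0
      linarith
    have h7 : c * ‖x‖ ^ (ρ - 2) ≤ c₁ / 2 * ‖x‖ ^ (ρ - 2) := mul_le_mul_of_nonneg_right hc hx0
    linarith

end WT

open WT

theorem weights (d : ℕ) : ∃ L₀ : ℕ, ∀ L' : ℕ, L₀ ≤ L' → ∀ e e' : E d, ‖e‖ = 1 → ‖e'‖ = 1 →
    inner ℝ e e' = 0 → ∃ (ε c C R δ : ℝ) (m₀ : ℕ), 0 < ε ∧ 0 < c ∧ 0 < δ ∧ 1 ≤ R ∧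
      Wgt (1 / L') c C R (fun x => Phi0 (2 ^ L') e x + ε * Lt (1 / L') e' x) ∧
      Wgt (1 / L') c C R (fun x => Phi0 (2 ^ L') e x - ε * Lt (1 / L') e' x) ∧
      (∀ x, R ≤ ‖x‖ → 0 ≤ inner ℝ x e' → c * ‖x‖ ^ ((1 : ℝ) / L' - 1) ≤
        ‖fderiv ℝ (fun x => Phi0 (2 ^ L') e x + ε * Lt (1 / L') e' x) x‖ ∧
        Phi0 (2 ^ L') e x - ε * Lt (1 / L') e' x ≤ Phi0 (2 ^ L') e x + ε * Lt (1 / L') e' x) ∧
      (∀ x, R ≤ ‖x‖ → inner ℝ x e' ≤ 0 → c * ‖x‖ ^ ((1 : ℝ) / L' - 1) ≤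
        ‖fderiv ℝ (fun x => Phi0 (2 ^ L') e x - ε * Lt (1 / L') e' x) x‖ ∧
        Phi0 (2 ^ L') e x + ε * Lt (1 / L') e' x ≤ Phi0 (2 ^ L') e x - ε * Lt (1 / L') e' x) ∧
      (∀ m : ℕ, m₀ ≤ m → ∀ x, ‖(((2 : ℝ) ^ L') ^ m)⁻¹ • x - e‖ ≤ δ →
        Phi0 (2 ^ L') e x + ε * Lt (1 / L') e' x ≤ -c * 2 ^ m ∧
        Phi0 (2 ^ L') e x - ε * Lt (1 / L') e' x ≤ -c * 2 ^ m) ∧
      (∀ m : ℕ, m₀ ≤ m → ∀ x, ((2 : ℝ) ^ L') ^ ((m : ℝ) + 1 / 2) / 2 ≤ ‖x‖ →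
        ‖x‖ ≤ 2 * ((2 : ℝ) ^ L') ^ ((m : ℝ) + 1 / 2) →
        c * 2 ^ m ≤ Phi0 (2 ^ L') e x + ε * Lt (1 / L') e' x ∧
        c * 2 ^ m ≤ Phi0 (2 ^ L') e x - ε * Lt (1 / L') e' x) := by
  obtain ⟨L₀, hL₀, hval⟩ := Phi0_values d
  refine ⟨max L₀ 2, ?_⟩
  intro L' hL' e e' he he' hee
  have hL2 : 2 ≤ L' := (le_max_right _ _).trans hL'
  have hL2' : (2 : ℝ) ≤ L' := by exact_mod_cast hL2
  obtain ⟨δ, hδ, hδ1, hval⟩ := hval L' ((le_max_left _ _).trans hL')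
  have hval := hval e he
  set K : ℝ := (2 : ℝ) ^ L' with hK
  set ρ : ℝ := 1 / L' with hρ
  have hρ0 : 0 < ρ := by rw [hρ]; positivity
  have hρ1 : ρ ≤ 1 / 2 := by
    rw [hρ]
    exact one_div_le_one_div_of_le (by norm_num) hL2'
  have hK4 : 4 ≤ K := by
    calc (4 : ℝ) = 2 ^ 2 := by norm_num
      _ ≤ 2 ^ L' := pow_le_pow_right₀ (by norm_num) hL2
  have hK0 : 0 < K := by linarith
  have hKρ : K ^ ρ = 2 := by
    rw [hK, hρ, ← Real.rpow_natCast 2 L', ← Real.rpow_mul (by norm_num)]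
    rw [mul_one_div_cancel (by positivity), Real.rpow_one]
  obtain ⟨c₁, C₁, hc₁, hC₁, hPhi⟩ := Phi0_facts d K ρ (by linarith) hρ0 (by linarith) hKρ
  obtain ⟨hP1, hP2, hP3, hP4⟩ := hPhi e he
  obtain ⟨C₂, hC₂, hLt⟩ := Lt_facts d ρ hρ0 (by linarith)
  obtain ⟨hT1, hT2, hT3⟩ := hLt e' he'
  set ε : ℝ := min (1 / 8) (c₁ / (4 * C₂)) with hε
  have hε0 : 0 < ε := lt_min (by norm_num) (by positivity)
  have hε8 : ε ≤ 1 / 8 := min_le_left _ _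
  have hεc : 4 * ε * C₂ ≤ c₁ := by
    have := min_le_right (1 / 8 : ℝ) (c₁ / (4 * C₂))
    rw [← hε, le_div_iff₀ (by positivity)] at this
    linarith
  set c : ℝ := min (c₁ / 2) (min (ε * ρ / 2) (1 / 2)) with hc
  have hc0 : 0 < c := lt_min (by positivity) (lt_min (by positivity) (by norm_num))
  have hcc : c ≤ c₁ / 2 := min_le_left _ _
  have hcρ : c ≤ ε * ρ / 2 := (min_le_right _ _).trans (min_le_left _ _)
  have hch : c ≤ 1 / 2 := (min_le_right _ _).trans (min_le_right _ _)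
  have hg1 : ∀ x, 1 ≤ ‖x‖ → ∀ n : ℕ, 1 ≤ n → n ≤ 3 →
      ‖iteratedFDeriv ℝ n (Lt ρ e') x‖ ≤ C₂ * ‖x‖ ^ (ρ - n) := fun x hx => (hT2 x hx).2
  have hmin : ∀ x : E d, Phi0 K e x - ε * Lt ρ e' x = Phi0 K e x + (-ε) * Lt ρ e' x := by
    intro x
    ring
  -- the gradient
  have hgrad : ∀ x : E d, 1 ≤ ‖x‖ → c * ‖x‖ ^ (ρ - 1) ≤ ε * fderiv ℝ (Lt ρ e') x e' := by
    intro x hx
    have hx0 : 0 < ‖x‖ := by linarith
    have h1 := hT3 x
    have h2 : (1 / 2 : ℝ) * ‖x‖ ^ (ρ - 1) ≤ (1 + ‖x‖ ^ 2) ^ ((ρ - 1) / 2) := by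
      have h3 : (2 * ‖x‖ ^ 2) ^ ((ρ - 1) / 2) ≤ (1 + ‖x‖ ^ 2) ^ ((ρ - 1) / 2) := by
        apply Real.rpow_le_rpow_of_nonpos (by positivity)
        · nlinarith
        · linarith
      refine le_trans ?_ h3
      rw [Real.mul_rpow (by norm_num) (by positivity)]
      have h4 : (‖x‖ ^ 2) ^ ((ρ - 1) / 2) = ‖x‖ ^ (ρ - 1) := by
        rw [← Real.rpow_natCast ‖x‖ 2, ← Real.rpow_mul hx0.le]
        congr 1
        push_cast
        ring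
      rw [h4]
      apply mul_le_mul_of_nonneg_right _ (by positivity)
      calc (1 / 2 : ℝ) = 2 ^ (-1 : ℝ) := by rw [Real.rpow_neg_one]; norm_num
        _ ≤ 2 ^ ((ρ - 1) / 2) := Real.rpow_le_rpow_of_exponent_le (by norm_num) (by linarith)
    have h3 : 0 ≤ ‖x‖ ^ (ρ - 1) := by positivity
    calc c * ‖x‖ ^ (ρ - 1) ≤ (ε * ρ / 2) * ‖x‖ ^ (ρ - 1) := mul_le_mul_of_nonneg_right hcρ h3
      _ = ε * (ρ * (1 / 2 * ‖x‖ ^ (ρ - 1))) := by ring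
      _ ≤ ε * (ρ * (1 + ‖x‖ ^ 2) ^ ((ρ - 1) / 2)) := by gcongr
      _ ≤ ε * fderiv ℝ (Lt ρ e') x e' := by gcongr
  have hdP : ∀ x, DifferentiableAt ℝ (Phi0 K e) x := fun x =>
    (hP1.differentiable (by norm_num)).differentiableAt
  have hdT : ∀ x, DifferentiableAt ℝ (Lt ρ e') x := fun x =>
    (hT1.differentiable (by norm_num)).differentiableAt
  have hfd : ∀ (ε' : ℝ) (x : E d), fderiv ℝ (fun x => Phi0 K e x + ε' * Lt ρ e' x) x e' =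
      fderiv ℝ (Phi0 K e) x e' + ε' * fderiv ℝ (Lt ρ e') x e' := by
    intro ε' x
    have h1 : HasFDerivAt (fun x => Phi0 K e x + ε' * Lt ρ e' x)
        (fderiv ℝ (Phi0 K e) x + ε' • fderiv ℝ (Lt ρ e') x) x :=
      (hdP x).hasFDerivAt.add ((hdT x).hasFDerivAt.const_mul ε')
    rw [h1.fderiv]
    simp only [add_apply, smul_apply, smul_eq_mul]
  have hLtsign : ∀ x : E d, (0 ≤ inner ℝ x e' → 0 ≤ Lt ρ e' x) ∧ (inner ℝ x e' ≤ 0 → Lt ρ e' x ≤ 0) := by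
    intro x
    have h1 : 0 ≤ (1 + ‖x‖ ^ 2) ^ ((ρ - 1) / 2) := by positivity
    constructor
    · intro h
      exact mul_nonneg h h1
    · intro h
      exact mul_nonpos_of_nonpos_of_nonneg h h1
  refine ⟨ε, c, C₁ + C₂, 1, min δ (1 / 2), 1, hε0, hc0, lt_min hδ (by norm_num), le_rfl, ?_, ?_, ?_,
    ?_, ?_, ?_⟩
  · exact wgt_of hP1 hT1 (abs_of_pos hε0).le (by linarith) hεc hP2 hP3 hg1 hcc
  · simp only [hmin]
    exact wgt_of hP1 hT1 (by rw [abs_neg, abs_of_pos hε0]) (by linarith) hεc hP2 hP3 hg1 hcc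
  · intro x hx hin
    constructor
    · have h1 := (hP4 x e' hee).1 hin
      have h2 := ContinuousLinearMap.le_opNorm
        (fderiv ℝ (fun x => Phi0 K e x + ε * Lt ρ e' x) x) e'
      rw [he', mul_one, hfd, Real.norm_eq_abs] at h2
      have h3 := le_abs_self (fderiv ℝ (Phi0 K e) x e' + ε * fderiv ℝ (Lt ρ e') x e')
      have h4 := hgrad x hx
      linarith
    · have := (hLtsign x).1 hin
      nlinarith
  · intro x hx hin
    constructor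
    · have h1 := (hP4 x e' hee).2 hin
      simp only [hmin]
      have h2 := ContinuousLinearMap.le_opNorm
        (fderiv ℝ (fun x => Phi0 K e x + (-ε) * Lt ρ e' x) x) e'
      rw [he', mul_one, hfd, Real.norm_eq_abs] at h2
      have h3 := neg_abs_le (fderiv ℝ (Phi0 K e) x e' + (-ε) * fderiv ℝ (Lt ρ e') x e')
      have h4 := hgrad x hx
      linarith
    · have := (hLtsign x).2 hin
      nlinarith
  · intro m hm x hx
    have hKm : 1 ≤ K ^ m := one_le_pow₀ (by linarith)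
    have hKm4 : 4 ≤ K ^ m := by
      calc (4 : ℝ) ≤ K := hK4
        _ = K ^ 1 := (pow_one K).symm
        _ ≤ K ^ m := pow_le_pow_right₀ (by linarith) hm
    have hx1 := hx.trans (min_le_left _ _)
    have hx2 := hx.trans (min_le_right _ _)
    have h1 := (hval m x).1 hx1
    have hnorm : ‖((K) ^ m)⁻¹ • x‖ = ‖x‖ / K ^ m := by
      rw [norm_smul, norm_inv, norm_pow, Real.norm_of_nonneg hK0.le]
      field_simp
    have hlow : 1 / 2 ≤ ‖x‖ / K ^ m := by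
      rw [← hnorm]
      have := norm_sub_norm_le e (((K) ^ m)⁻¹ • x)
      rw [he, norm_sub_rev] at this
      linarith
    have hup : ‖x‖ / K ^ m ≤ 2 := by
      rw [← hnorm]
      have := norm_sub_norm_le (((K) ^ m)⁻¹ • x) e
      rw [he] at this
      linarith
    rw [le_div_iff₀ (by positivity)] at hlow
    rw [div_le_iff₀ (by positivity)] at hup
    have hx3 : 1 ≤ ‖x‖ := by linarith
    have h2 := (hT2 x hx3).1
    have h3 : ‖x‖ ^ ρ ≤ 2 * 2 ^ m := by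
      calc ‖x‖ ^ ρ ≤ (2 * K ^ m) ^ ρ := Real.rpow_le_rpow (norm_nonneg _) hup hρ0.le
        _ = 2 ^ ρ * (K ^ m) ^ ρ := Real.mul_rpow (by norm_num) (by positivity)
        _ ≤ 2 * 2 ^ m := by
            have e1 : (K ^ m) ^ ρ = 2 ^ m := by
              rw [← Real.rpow_natCast K m, ← Real.rpow_mul hK0.le, mul_comm, Real.rpow_mul hK0.le,
                hKρ, Real.rpow_natCast]
            rw [e1]
            apply mul_le_mul_of_nonneg_right _ (by positivity)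
            calc (2 : ℝ) ^ ρ ≤ 2 ^ (1 : ℝ) :=
                  Real.rpow_le_rpow_of_exponent_le (by norm_num) (by linarith)
              _ = 2 := Real.rpow_one 2
    have h4 : |ε * Lt ρ e' x| ≤ 1 / 2 * 2 ^ m := by
      rw [abs_mul, abs_of_pos hε0]
      have h5 : |Lt ρ e' x| ≤ 2 * 2 ^ m := h2.trans h3
      have h6 : (0 : ℝ) < 2 ^ m := by positivity
      calc ε * |Lt ρ e' x| ≤ 1 / 8 * (2 * 2 ^ m) := mul_le_mul hε8 h5 (abs_nonneg _) (by norm_num)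
        _ ≤ 1 / 2 * 2 ^ m := by linarith
    have h5 := abs_le.mp h4
    have h6 : c * 2 ^ m ≤ 1 / 2 * 2 ^ m := mul_le_mul_of_nonneg_right hch (by positivity)
    constructor <;> linarith
  · intro m hm x hx1 hx2
    have h1 := (hval m x).2 hx1 hx2
    have hrp : K ^ (1 : ℝ) ≤ K ^ ((m : ℝ) + 1 / 2) := by
      apply Real.rpow_le_rpow_of_exponent_le (by linarith)
      have : (1 : ℝ) ≤ m := by exact_mod_cast hm
      linarith
    rw [Real.rpow_one] at hrp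
    have hx3 : 1 ≤ ‖x‖ := by linarith
    have h2 := (hT2 x hx3).1
    have h3 : ‖x‖ ^ ρ ≤ 4 * 2 ^ m := by
      calc ‖x‖ ^ ρ ≤ (2 * K ^ ((m : ℝ) + 1 / 2)) ^ ρ :=
            Real.rpow_le_rpow (norm_nonneg _) hx2 hρ0.le
        _ = 2 ^ ρ * (K ^ ((m : ℝ) + 1 / 2)) ^ ρ := Real.mul_rpow (by norm_num) (by positivity)
        _ ≤ 2 * (2 ^ m * 2) := by
            have e1 : (K ^ ((m : ℝ) + 1 / 2)) ^ ρ = 2 ^ ((m : ℝ) + 1 / 2) := by
              rw [← Real.rpow_mul hK0.le, mul_comm, Real.rpow_mul hK0.le, hKρ]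
            rw [e1]
            apply mul_le_mul _ _ (by positivity) (by norm_num)
            · calc (2 : ℝ) ^ ρ ≤ 2 ^ (1 : ℝ) :=
                    Real.rpow_le_rpow_of_exponent_le (by norm_num) (by linarith)
                _ = 2 := Real.rpow_one 2
            · rw [Real.rpow_add (by norm_num), Real.rpow_natCast]
              apply mul_le_mul_of_nonneg_left _ (by positivity)
              calc (2 : ℝ) ^ (1 / 2 : ℝ) ≤ 2 ^ (1 : ℝ) :=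
                    Real.rpow_le_rpow_of_exponent_le (by norm_num) (by norm_num)
                _ = 2 := Real.rpow_one 2
        _ = 4 * 2 ^ m := by ring
    have h4 : |ε * Lt ρ e' x| ≤ 1 / 2 * 2 ^ m := by
      rw [abs_mul, abs_of_pos hε0]
      have h5 : |Lt ρ e' x| ≤ 4 * 2 ^ m := h2.trans h3
      calc ε * |Lt ρ e' x| ≤ 1 / 8 * (4 * 2 ^ m) := mul_le_mul hε8 h5 (abs_nonneg _) (by norm_num)
        _ = 1 / 2 * 2 ^ m := by ring
    have h5 := abs_le.mp h4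
    have h6 : c * 2 ^ m ≤ 1 / 2 * 2 ^ m := mul_le_mul_of_nonneg_right hch (by positivity)
    constructor <;> linarith

end Pool.Agent.Lib.MP_566bac_pr.Hd
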