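import Pool.Agent.Lib.MP_566bac_pr.Hd.HOM

/-!
# WT1: the function `F0`
-/

open Finset MeasureTheory ProbabilityTheory Filter
open scoped Classical

namespace Pool.Agent.Lib.MP_566bac_pr.Hd

/-- the homogeneous version of `F0` -/
noncomputable def WT1_H (d : ℕ) (p : E d × ℝ) : ℝ := (1 / 2) * Real.log (‖p.1‖ ^ 2 + p.2 ^ 2)

theorem WT1_pos {d : ℕ} {p : E d × ℝ} (hp : p ≠ 0) : 0 < ‖p.1‖ ^ 2 + p.2 ^ 2 := by
  by_contra h
  have h1 : ‖p.1‖ ^ 2 = 0 := by nlinarith [sq_nonneg ‖p.1‖, sq_nonneg p.2]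
  have h2 : p.2 ^ 2 = 0 := by nlinarith [sq_nonneg ‖p.1‖, sq_nonneg p.2]
  apply hp
  exact Prod.ext (norm_eq_zero.1 (pow_eq_zero_iff two_ne_zero |>.1 h1))
    (pow_eq_zero_iff two_ne_zero |>.1 h2)

theorem WT1_smooth (d : ℕ) (p : E d × ℝ) (hp : p ≠ 0) : ContDiffAt ℝ 4 (WT1_H d) p := by
  unfold WT1_H
  refine contDiffAt_const.mul (ContDiffAt.log ?_ (WT1_pos hp).ne')
  exact ((contDiffAt_fst (𝕜 := ℝ)).norm_sq ℝ).add (contDiffAt_snd.pow 2)

theorem WT1_hom (d : ℕ) (l : ℝ) (hl : 0 < l) (p : E d × ℝ) (hp : p ≠ 0) :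
    WT1_H d (l • p) = l ^ (0 : ℝ) * WT1_H d p + Real.log l := by
  unfold WT1_H
  have h1 : ‖(l • p).1‖ ^ 2 + (l • p).2 ^ 2 = l ^ 2 * (‖p.1‖ ^ 2 + p.2 ^ 2) := by
    rw [Prod.smul_fst, Prod.smul_snd, norm_smul, smul_eq_mul, Real.norm_eq_abs,
      abs_of_pos hl]
    ring
  rw [h1, Real.log_mul (by positivity) (WT1_pos hp).ne', Real.log_pow, Real.rpow_zero]
  push_cast
  ring

theorem WT1_F0_eq {d : ℕ} (e : E d) {a : ℝ} (ha : 0 < a) (x : E d) :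
    F0 e a x = WT1_H d (x - e, a) - (1 / 2) * Real.log (1 + a ^ 2) := by
  unfold F0 WT1_H
  rw [Real.log_div (by positivity) (by positivity)]
  simp only
  ring

theorem WT1_contDiff {d : ℕ} (e : E d) {a : ℝ} (ha : 0 < a) : ContDiff ℝ 4 (F0 e a) := by
  unfold F0
  refine contDiff_const.mul (ContDiff.log ?_ ?_)
  · exact (((contDiff_id.sub contDiff_const).norm_sq ℝ).add contDiff_const).div_const _
  · intro x
    positivity

theorem WT1_hasFDeriv {d : ℕ} (e : E d) {a : ℝ} (ha : 0 < a) (x : E d) :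
    HasFDerivAt (F0 e a) ((‖x - e‖ ^ 2 + a ^ 2)⁻¹ • innerSL ℝ (x - e)) x := by
  have hD : 0 < ‖x - e‖ ^ 2 + a ^ 2 := by positivity
  have h0 : HasFDerivAt (fun x : E d => x - e) (ContinuousLinearMap.id ℝ (E d)) x :=
    (hasFDerivAt_id x).sub_const e
  have h1 : HasFDerivAt (fun x : E d => ‖x - e‖ ^ 2) (2 • innerSL ℝ (x - e)) x := by
    have := h0.norm_sq
    simpa using this
  have h2 : HasFDerivAt (fun x : E d => (‖x - e‖ ^ 2 + a ^ 2) / (1 + a ^ 2))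
      ((1 + a ^ 2)⁻¹ • (2 • innerSL ℝ (x - e))) x := by
    have := (h1.add_const (a ^ 2)).const_mul ((1 + a ^ 2)⁻¹)
    refine this.congr_of_eventuallyEq (Filter.Eventually.of_forall fun z => ?_)
    simp only
    rw [div_eq_inv_mul]
  have h3 := (h2.log (by positivity)).const_mul (1 / 2 : ℝ)
  refine h3.congr_fderiv ?_
  ext v
  simp only [FunLike.coe_smul, Pi.smul_apply, smul_eq_mul]
  have : (1 + a ^ 2) ≠ 0 := by positivity
  field_simp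
  simp

theorem WT1_fderiv {d : ℕ} (e : E d) {a : ℝ} (ha : 0 < a) :
    fderiv ℝ (F0 e a) = fun x => (‖x - e‖ ^ 2 + a ^ 2)⁻¹ • innerSL ℝ (x - e) :=
  funext fun x => (WT1_hasFDeriv e ha x).fderiv

theorem WT1_second {d : ℕ} (e : E d) {a : ℝ} (ha : 0 < a) (x v : E d) :
    iteratedFDeriv ℝ 2 (F0 e a) x ![v, v] =
      ‖v‖ ^ 2 / (‖x - e‖ ^ 2 + a ^ 2) - 2 * inner ℝ (x - e) v ^ 2 / (‖x - e‖ ^ 2 + a ^ 2) ^ 2 := by
  rw [iteratedFDeriv_two_apply]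
  have hD : 0 < ‖x - e‖ ^ 2 + a ^ 2 := by positivity
  have h0 : HasFDerivAt (fun x : E d => x - e) (ContinuousLinearMap.id ℝ (E d)) x :=
    (hasFDerivAt_id x).sub_const e
  have h1 : HasFDerivAt (fun x : E d => ‖x - e‖ ^ 2) (2 • innerSL ℝ (x - e)) x := by
    have := h0.norm_sq
    simpa using this
  have h2 : HasFDerivAt (fun x : E d => (‖x - e‖ ^ 2 + a ^ 2)⁻¹)
      (-(((‖x - e‖ ^ 2 + a ^ 2) ^ 2)⁻¹) • (2 • innerSL ℝ (x - e))) x := by
    exact (hasDerivAt_inv hD.ne').comp_hasFDerivAt x (h1.add_const (a ^ 2))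
  have h3 : HasFDerivAt (fun x : E d => innerSL ℝ (x - e)) (innerSL ℝ) x :=
    (innerSL ℝ (E := E d)).hasFDerivAt.comp x h0
  have h4 : HasFDerivAt (fun x : E d => (‖x - e‖ ^ 2 + a ^ 2)⁻¹ • innerSL ℝ (x - e)) _ x :=
    h2.smul h3
  rw [WT1_fderiv e ha, h4.fderiv]
  change (‖x - e‖ ^ 2 + a ^ 2)⁻¹ * inner ℝ v v +
    (-(((‖x - e‖ ^ 2 + a ^ 2) ^ 2)⁻¹) * (2 • inner ℝ (x - e) v)) * inner ℝ (x - e) v = _
  rw [real_inner_self_eq_norm_sq, nsmul_eq_mul]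
  push_cast
  field_simp
  ring

theorem WT1_bessel {d : ℕ} (z n τ : E d) (hn : ‖n‖ = 1) (hτ : ‖τ‖ = 1) (h : inner ℝ n τ = 0) :
    inner ℝ z n ^ 2 + inner ℝ z τ ^ 2 ≤ ‖z‖ ^ 2 := by
  have h1 : 0 ≤ ‖z - inner ℝ z n • n - inner ℝ z τ • τ‖ ^ 2 := sq_nonneg _
  rw [← real_inner_self_eq_norm_sq] at h1
  have h2 : inner ℝ n z = inner ℝ z n := real_inner_comm _ _
  have h3 : inner ℝ τ z = inner ℝ z τ := real_inner_comm _ _
  have h4 : inner ℝ τ n = 0 := by rw [real_inner_comm]; exact h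
  have h5 : inner ℝ (z - inner ℝ z n • n - inner ℝ z τ • τ)
      (z - inner ℝ z n • n - inner ℝ z τ • τ) =
      ‖z‖ ^ 2 - inner ℝ z n ^ 2 - inner ℝ z τ ^ 2 := by
    rw [inner_sub_left, inner_sub_left, inner_sub_right, inner_sub_right, inner_sub_right,
      inner_sub_right, inner_sub_right, inner_sub_right, real_inner_smul_left,
      real_inner_smul_left, real_inner_smul_left, real_inner_smul_left, real_inner_smul_left,
      real_inner_smul_left, real_inner_smul_right, real_inner_smul_right, real_inner_smul_right,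
      real_inner_smul_right, real_inner_smul_right, real_inner_smul_right,
      real_inner_self_eq_norm_sq, real_inner_self_eq_norm_sq, real_inner_self_eq_norm_sq,
      h2, h3, h4, h, hn, hτ]
    ring
  rw [h5] at h1
  linarith

theorem WT1_dist {d : ℕ} (e : E d) (he : ‖e‖ = 1) {a : ℝ} (ha : 0 < a) (ha1 : a ≤ 1) (x : E d) :
    a / 3 * (1 + ‖x‖) ≤ ‖((x - e, a) : E d × ℝ)‖ := by
  rw [Prod.norm_def]
  simp only
  rw [Real.norm_eq_abs, abs_of_pos ha]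
  set m := max ‖x - e‖ a with hm
  have h1 : ‖x - e‖ ≤ m := le_max_left _ _
  have h2 : a ≤ m := le_max_right _ _
  have h3 : ‖x‖ ≤ ‖x - e‖ + 1 := by
    calc ‖x‖ = ‖(x - e) + e‖ := by rw [sub_add_cancel]
      _ ≤ ‖x - e‖ + ‖e‖ := norm_add_le _ _
      _ = _ := by rw [he]
  have h4 : a * (1 + ‖x‖) ≤ a * (2 + m) := mul_le_mul_of_nonneg_left (by linarith) ha.le
  have h5 : a * m ≤ 1 * m := mul_le_mul_of_nonneg_right ha1 (ha.le.trans h2)
  nlinarith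

theorem F0_facts (d : ℕ) (a : ℝ) (ha : 0 < a) (ha1 : a ≤ 1) : ∃ C : ℝ, 0 < C ∧ ∀ e : E d, ‖e‖ = 1 →
    ContDiff ℝ 4 (F0 e a) ∧ F0 e a 0 = 0 ∧
    (∀ x, ∀ n : ℕ, 1 ≤ n → n ≤ 4 → ‖iteratedFDeriv ℝ n (F0 e a) x‖ ≤ C / (1 + ‖x‖) ^ n) ∧
    (∀ x n τ : E d, ‖n‖ = 1 → ‖τ‖ = 1 → inner ℝ n τ = 0 →
      2 * a ^ 2 / ((1 + ‖x‖) ^ 2 + a ^ 2) ^ 2 ≤
        iteratedFDeriv ℝ 2 (F0 e a) x ![n, n] + iteratedFDeriv ℝ 2 (F0 e a) x ![τ, τ]) ∧
    (∀ x e' : E d, inner ℝ e e' = 0 →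
      (0 ≤ inner ℝ x e' → 0 ≤ fderiv ℝ (F0 e a) x e') ∧
      (inner ℝ x e' ≤ 0 → fderiv ℝ (F0 e a) x e' ≤ 0)) := by
  obtain ⟨C, hC, hC'⟩ := homog_deriv (WT1_H d) (WT1_smooth d) 0 Real.log (WT1_hom d)
  refine ⟨C * (3 / a) ^ 4, by positivity, fun e he => ⟨WT1_contDiff e ha, ?_, ?_, ?_, ?_⟩⟩
  · unfold F0
    rw [zero_sub, norm_neg, he]
    have : (1 : ℝ) ^ 2 + a ^ 2 = 1 + a ^ 2 := by norm_num
    rw [this, div_self (by positivity), Real.log_one, mul_zero]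
  · intro x n hn1 hn4
    have hne : ((x - e, a) : E d × ℝ) ≠ 0 := by
      intro h
      have := congrArg Prod.snd h
      simp at this
      linarith
    have h1 : iteratedFDeriv ℝ n (F0 e a) x =
        iteratedFDeriv ℝ n (fun x => WT1_H d (x - e, a)) x := by
      have e1 : F0 e a = (fun x => WT1_H d (x - e, a)) + fun _ =>
          -((1 / 2) * Real.log (1 + a ^ 2)) := by
        funext z
        rw [WT1_F0_eq e ha]
        simp [sub_eq_add_neg]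
      have e2 : ContDiffAt ℝ n (fun x => WT1_H d (x - e, a)) x := by
        have : ContDiffAt ℝ 4 (fun x => WT1_H d (x - e, a)) x :=
          ContDiffAt.fun_comp (g := WT1_H d) (f := fun x => ((x - e, a) : E d × ℝ)) x
            (WT1_smooth d _ hne) ((contDiffAt_id.sub contDiffAt_const).prodMk contDiffAt_const)
        exact this.of_le (by exact_mod_cast hn4)
      rw [e1, iteratedFDeriv_add_apply e2 contDiffAt_const,
        iteratedFDeriv_const_of_ne (by omega), Pi.zero_apply, add_zero]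
    rw [h1]
    refine (HOM_slice (WT1_H d) (WT1_smooth d) ha.ne' e x hn4).trans ?_
    refine (hC' _ hne n hn1 hn4).trans ?_
    have h2 := WT1_dist e he ha ha1 x
    have h3 : 0 < a / 3 * (1 + ‖x‖) := by positivity
    rw [zero_sub, Real.rpow_neg (norm_nonneg _), Real.rpow_natCast]
    have h4 : (a / 3 * (1 + ‖x‖)) ^ n ≤ ‖((x - e, a) : E d × ℝ)‖ ^ n :=
      pow_le_pow_left₀ h3.le h2 n
    have h5 : (‖((x - e, a) : E d × ℝ)‖ ^ n)⁻¹ ≤ ((a / 3 * (1 + ‖x‖)) ^ n)⁻¹ :=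
      inv_anti₀ (by positivity) h4
    refine (mul_le_mul_of_nonneg_left h5 hC.le).trans ?_
    rw [mul_pow, mul_inv, ← mul_assoc, div_eq_mul_inv (C * (3 / a) ^ 4)]
    refine mul_le_mul_of_nonneg_right (mul_le_mul_of_nonneg_left ?_ hC.le) (by positivity)
    rw [← inv_pow, inv_div]
    exact pow_le_pow_right₀ (by rw [le_div_iff₀ ha]; linarith) hn4
  · intro x n τ hn hτ h
    rw [WT1_second e ha, WT1_second e ha, hn, hτ]
    set D := ‖x - e‖ ^ 2 + a ^ 2 with hD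
    have hD0 : 0 < D := by positivity
    have h1 := WT1_bessel (x - e) n τ hn hτ h
    have h2 : D ≤ (1 + ‖x‖) ^ 2 + a ^ 2 := by
      have : ‖x - e‖ ≤ 1 + ‖x‖ := by
        calc ‖x - e‖ ≤ ‖x‖ + ‖e‖ := norm_sub_le _ _
          _ = _ := by rw [he]; ring
      have := pow_le_pow_left₀ (norm_nonneg _) this 2
      linarith
    have h3 : 2 * a ^ 2 / ((1 + ‖x‖) ^ 2 + a ^ 2) ^ 2 ≤ 2 * a ^ 2 / D ^ 2 := by
      gcongr
    refine h3.trans ?_
    have h4 : (1 : ℝ) ^ 2 / D - 2 * inner ℝ (x - e) n ^ 2 / D ^ 2 +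
        (1 ^ 2 / D - 2 * inner ℝ (x - e) τ ^ 2 / D ^ 2) =
        (2 * D - 2 * (inner ℝ (x - e) n ^ 2 + inner ℝ (x - e) τ ^ 2)) / D ^ 2 := by
      field_simp
      ring
    rw [h4]
    gcongr
    linarith
  · intro x e' hee
    rw [WT1_fderiv e ha]
    have h1 : ((‖x - e‖ ^ 2 + a ^ 2)⁻¹ • innerSL ℝ (x - e)) e' =
        (‖x - e‖ ^ 2 + a ^ 2)⁻¹ * inner ℝ x e' := by
      simp [inner_sub_left, hee]
    simp only [h1]
    have h2 : 0 < (‖x - e‖ ^ 2 + a ^ 2)⁻¹ := by positivity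
    exact ⟨fun h => mul_nonneg h2.le h, fun h => mul_nonpos_of_nonneg_of_nonpos h2.le h⟩

end Pool.Agent.Lib.MP_566bac_pr.Hd
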