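import Pool.Agent.Lib.MP_566bac_pr.Hd.WT1

/-!
# WT2: the function `Phi0`
-/

open Finset MeasureTheory ProbabilityTheory Filter
open scoped Classical

namespace Pool.Agent.Lib.MP_566bac_pr.Hd

/-- derivatives of a rescaled function -/
theorem WT2_scale {d : ℕ} {F : E d → ℝ} (hF : ContDiff ℝ 4 F) (b c : ℝ) {n : ℕ} (hn : n ≤ 4)
    (x : E d) : iteratedFDeriv ℝ n (fun x => b * F (c • x)) x =
      (b * c ^ n) • iteratedFDeriv ℝ n F (c • x) := by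
  set g : E d →L[ℝ] E d := c • ContinuousLinearMap.id ℝ (E d) with hg
  have hgx : ∀ z, g z = c • z := fun z => rfl
  have h1 : (fun x => b * F (c • x)) = b • (F ∘ g) := rfl
  have h2 : ContDiffAt ℝ n (F ∘ g) x := by
    have : ContDiff ℝ 4 (F ∘ g) := hF.comp g.contDiff
    exact (this.of_le (by exact_mod_cast hn)).contDiffAt
  rw [h1, iteratedFDeriv_const_smul_apply h2,
    g.iteratedFDeriv_comp_right hF x (i := n) (by exact_mod_cast hn), hgx, mul_smul]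
  congr 1
  ext v
  rw [ContinuousMultilinearMap.compContinuousLinearMap_apply, smul_apply]
  have : (fun i => g (v i)) = fun i => (fun _ : Fin n => c) i • v i := by
    funext i
    exact hgx (v i)
  rw [this, ContinuousMultilinearMap.map_smul_univ]
  simp

/-- the terms of the series -/
noncomputable def WT2_f {d : ℕ} (K : ℝ) (e : E d) (k : ℕ) (x : E d) : ℝ :=
  2 ^ k * F0 e (K⁻¹ ^ 4) ((K ^ k)⁻¹ • x)

theorem WT2_iter {d : ℕ} {K : ℝ} (hK : 2 < K) (e : E d) (k : ℕ) {n : ℕ} (hn : n ≤ 4) (x : E d) :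
    iteratedFDeriv ℝ n (WT2_f K e k) x =
      (2 ^ k * ((K ^ k)⁻¹) ^ n) • iteratedFDeriv ℝ n (F0 e (K⁻¹ ^ 4)) ((K ^ k)⁻¹ • x) :=
  WT2_scale (WT1_contDiff e (by positivity)) (2 ^ k) ((K ^ k)⁻¹) hn x

theorem WT2_smooth {d : ℕ} {K : ℝ} (hK : 2 < K) (e : E d) (k : ℕ) :
    ContDiff ℝ 4 (WT2_f K e k) := by
  unfold WT2_f
  exact contDiff_const.mul ((WT1_contDiff e (by positivity)).comp (contDiff_const_smul _))

/-- constant for `F0` -/
def WT2_Cst (d : ℕ) (K C : ℝ) : Prop := ∀ e : E d, ‖e‖ = 1 →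
    F0 e (K⁻¹ ^ 4) 0 = 0 ∧ ∀ x, ∀ n : ℕ, 1 ≤ n → n ≤ 4 →
      ‖iteratedFDeriv ℝ n (F0 e (K⁻¹ ^ 4)) x‖ ≤ C / (1 + ‖x‖) ^ n

theorem WT2_bound {d : ℕ} {K C : ℝ} (hK : 2 < K) (hC : WT2_Cst d K C) {e : E d}
    (he : ‖e‖ = 1) (k : ℕ) {n : ℕ} (hn1 : 1 ≤ n) (hn : n ≤ 4) (x : E d) :
    ‖iteratedFDeriv ℝ n (WT2_f K e k) x‖ ≤ C * (2 ^ k / (K ^ k + ‖x‖) ^ n) := by
  have hKk : 0 < K ^ k := by positivity
  rw [WT2_iter hK e k hn, norm_smul, Real.norm_eq_abs, abs_of_nonneg (by positivity)]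
  have h1 := (hC e he).2 ((K ^ k)⁻¹ • x) n hn1 hn
  have h2 : ‖(K ^ k)⁻¹ • x‖ = ‖x‖ / K ^ k := by
    rw [norm_smul, norm_inv, Real.norm_eq_abs, abs_of_pos hKk, div_eq_inv_mul]
  rw [h2] at h1
  refine (mul_le_mul_of_nonneg_left h1 (by positivity)).trans_eq ?_
  have h3 : K ^ k + ‖x‖ = K ^ k * (1 + ‖x‖ / K ^ k) := by field_simp
  have h4 : 0 < (1 + ‖x‖ / K ^ k) ^ n := by positivity
  have h5 : 0 < (K ^ k) ^ n := by positivity
  rw [h3, mul_pow, inv_pow]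
  generalize (1 + ‖x‖ / K ^ k) ^ n = u at h4 ⊢
  generalize (K ^ k) ^ n = v at h5 ⊢
  field_simp

theorem WT2_C_nonneg {d : ℕ} {K C : ℝ} (hC : WT2_Cst d K C) {e : E d} (he : ‖e‖ = 1) :
    0 ≤ C := by
  have h1 := (hC e he).2 0 1 le_rfl (by norm_num)
  have h2 := (norm_nonneg _).trans h1
  simpa using h2

theorem WT2_unif {d : ℕ} {K C : ℝ} (hK : 2 < K) (hC : WT2_Cst d K C) {e : E d}
    (he : ‖e‖ = 1) (k : ℕ) {n : ℕ} (hn1 : 1 ≤ n) (hn : n ≤ 4) (x : E d) :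
    ‖iteratedFDeriv ℝ n (WT2_f K e k) x‖ ≤ C * (2 / K) ^ k := by
  refine (WT2_bound hK hC he k hn1 hn x).trans ?_
  refine mul_le_mul_of_nonneg_left ?_ (WT2_C_nonneg hC he)
  rw [div_pow]
  have hK1 : 1 ≤ K ^ k := one_le_pow₀ (by linarith)
  refine div_le_div_of_nonneg_left (by positivity) (by positivity) ?_
  calc K ^ k ≤ K ^ k + ‖x‖ := by linarith [norm_nonneg x]
    _ = (K ^ k + ‖x‖) ^ 1 := (pow_one _).symm
    _ ≤ (K ^ k + ‖x‖) ^ n := pow_le_pow_right₀ (by linarith [norm_nonneg x]) hn1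

theorem WT2_geo {K : ℝ} (hK : 2 < K) (C : ℝ) : Summable fun k : ℕ => C * (2 / K) ^ k := by
  refine (summable_geometric_of_lt_one (by positivity) ?_).mul_left C
  rw [div_lt_one (by linarith)]
  exact hK

theorem WT2_eq {d : ℕ} (K : ℝ) (e : E d) : Phi0 K e = fun x => ∑' k, WT2_f K e k x := rfl

theorem WT2_zero {d : ℕ} {K C : ℝ} (hC : WT2_Cst d K C) {e : E d} (he : ‖e‖ = 1) (k : ℕ) :
    WT2_f K e k 0 = 0 := by
  unfold WT2_f
  rw [smul_zero, (hC e he).1, mul_zero]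

theorem WT2_sum0 {d : ℕ} {K C : ℝ} (hC : WT2_Cst d K C) {e : E d} (he : ‖e‖ = 1) :
    Summable fun k => WT2_f K e k 0 := by
  simp_rw [WT2_zero hC he]
  exact summable_zero

theorem WT2_f1 {d : ℕ} {K C : ℝ} (hK : 2 < K) (hC : WT2_Cst d K C) {e : E d}
    (he : ‖e‖ = 1) (k : ℕ) (x : E d) : ‖fderiv ℝ (WT2_f K e k) x‖ ≤ C * (2 / K) ^ k := by
  have h := WT2_unif hK hC he k le_rfl (by norm_num) x
  rwa [← norm_iteratedFDeriv_fderiv, norm_iteratedFDeriv_zero] at h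

theorem WT2_fderiv {d : ℕ} {K C : ℝ} (hK : 2 < K) (hC : WT2_Cst d K C) {e : E d}
    (he : ‖e‖ = 1) : fderiv ℝ (Phi0 K e) = fun x => ∑' k, fderiv ℝ (WT2_f K e k) x := by
  rw [WT2_eq]
  exact fderiv_tsum (WT2_geo hK C) (fun k => (WT2_smooth hK e k).differentiable (by norm_num))
    (WT2_f1 hK hC he) (WT2_sum0 hC he)

theorem WT2_diff {d : ℕ} {K C : ℝ} (hK : 2 < K) (hC : WT2_Cst d K C) {e : E d}
    (he : ‖e‖ = 1) : Differentiable ℝ (Phi0 K e) := by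
  rw [WT2_eq]
  exact differentiable_tsum (WT2_geo hK C)
    (fun k x => ((WT2_smooth hK e k).differentiable (by norm_num)).differentiableAt.hasFDerivAt)
    (WT2_f1 hK hC he)

theorem WT2_f_fderiv_smooth {d : ℕ} {K : ℝ} (hK : 2 < K) (e : E d) (k : ℕ) :
    ContDiff ℝ (3 : ℕ∞) (fderiv ℝ (WT2_f K e k)) :=
  (WT2_smooth hK e k).fderiv_right (by norm_num)

theorem WT2_f_fderiv_bound {d : ℕ} {K C : ℝ} (hK : 2 < K) (hC : WT2_Cst d K C) {e : E d}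
    (he : ‖e‖ = 1) (n k : ℕ) (x : E d) (hn : (n : ℕ∞) ≤ (3 : ℕ∞)) :
    ‖iteratedFDeriv ℝ n (fderiv ℝ (WT2_f K e k)) x‖ ≤ C * (2 / K) ^ k := by
  have hn' : n ≤ 3 := by exact_mod_cast hn
  rw [norm_iteratedFDeriv_fderiv]
  exact WT2_unif hK hC he k (by omega) (by omega) x

theorem WT2_contDiff {d : ℕ} {K C : ℝ} (hK : 2 < K) (hC : WT2_Cst d K C) {e : E d}
    (he : ‖e‖ = 1) : ContDiff ℝ 4 (Phi0 K e) := by
  have h1 : ContDiff ℝ (3 : ℕ∞) (fderiv ℝ (Phi0 K e)) := by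
    rw [WT2_fderiv hK hC he]
    exact contDiff_tsum (v := fun _ k => C * (2 / K) ^ k) (WT2_f_fderiv_smooth hK e)
      (fun _ _ => WT2_geo hK C) (fun n k x hn => WT2_f_fderiv_bound hK hC he n k x hn)
  have h2 : ContDiff ℝ ((3 : WithTop ℕ∞) + 1) (Phi0 K e) := by
    rw [contDiff_succ_iff_fderiv]
    refine ⟨WT2_diff hK hC he, ?_, h1⟩
    intro h
    exact absurd h (by decide)
  exact h2.of_le (by norm_num)

theorem WT2_iter_le {d : ℕ} {K C : ℝ} (hK : 2 < K) (hC : WT2_Cst d K C) {e : E d}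
    (he : ‖e‖ = 1) {n : ℕ} (hn1 : 1 ≤ n) (hn : n ≤ 4) (x : E d) :
    ‖iteratedFDeriv ℝ n (Phi0 K e) x‖ ≤ ∑' k, ‖iteratedFDeriv ℝ n (WT2_f K e k) x‖ := by
  obtain ⟨n, rfl⟩ := Nat.exists_eq_succ_of_ne_zero (by omega : n ≠ 0)
  rw [Nat.succ_eq_add_one, ← norm_iteratedFDeriv_fderiv, WT2_fderiv hK hC he]
  have hn3 : (n : ℕ∞) ≤ (3 : ℕ∞) := by exact_mod_cast (by omega : n ≤ 3)
  rw [iteratedFDeriv_tsum_apply (v := fun _ k => C * (2 / K) ^ k) (N := (3 : ℕ∞))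
    (WT2_f_fderiv_smooth hK e)
    (fun _ _ => WT2_geo hK C) (fun n k x hn => WT2_f_fderiv_bound hK hC he n k x hn) hn3]
  have h1 : ∀ k, ‖iteratedFDeriv ℝ (n + 1) (WT2_f K e k) x‖ =
      ‖iteratedFDeriv ℝ n (fderiv ℝ (WT2_f K e k)) x‖ := fun k =>
    (norm_iteratedFDeriv_fderiv).symm
  simp_rw [h1]
  refine norm_tsum_le_tsum_norm ?_
  exact Summable.of_nonneg_of_le (fun k => norm_nonneg _)
    (fun k => WT2_f_fderiv_bound hK hC he n k x hn3) (WT2_geo hK C)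

/-- the scale of `r` -/
theorem WT2_pow {K ρ : ℝ} (hK : 2 < K) (hKρ : K ^ ρ = 2) (hρ : 0 < ρ) {r : ℝ} (hr : 1 ≤ r) :
    ∃ m : ℕ, K ^ m ≤ r ∧ r < K ^ (m + 1) ∧ (2 : ℝ) ^ m ≤ r ^ ρ ∧ r ^ ρ ≤ 2 ^ (m + 1) := by
  obtain ⟨m, h1, h2⟩ := exists_nat_pow_near hr (by linarith : 1 < K)
  have hK0 : 0 ≤ K := by linarith
  have h3 : ∀ j : ℕ, (K ^ j) ^ ρ = 2 ^ j := by
    intro j
    rw [← Real.rpow_natCast K j, ← Real.rpow_mul hK0, mul_comm, Real.rpow_mul hK0, hKρ,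
      Real.rpow_natCast]
  refine ⟨m, h1, h2, ?_, ?_⟩
  · rw [← h3]
    exact Real.rpow_le_rpow (by positivity) h1 hρ.le
  · rw [← h3]
    exact Real.rpow_le_rpow (by linarith) h2.le hρ.le

theorem WT2_series {K ρ : ℝ} (hK : 2 < K) (hKρ : K ^ ρ = 2) (hρ : 0 < ρ) {r : ℝ} (hr : 1 ≤ r)
    {n : ℕ} (hn : 1 ≤ n) : (Summable fun k : ℕ => 2 ^ k / (K ^ k + r) ^ n) ∧
    ∑' k : ℕ, 2 ^ k / (K ^ k + r) ^ n ≤ (2 + 2 / (1 - 2 / K)) * r ^ (ρ - n) := by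
  obtain ⟨m, h1, h2, h3, h4⟩ := WT2_pow hK hKρ hρ hr
  have hr0 : 0 < r := by linarith
  have hq : 2 / K < 1 := by rw [div_lt_one (by linarith)]; exact hK
  have hq0 : 0 < 1 - 2 / K := by linarith
  have hs : Summable fun k : ℕ => 2 ^ k / (K ^ k + r) ^ n := by
    refine Summable.of_nonneg_of_le (fun k => by positivity) (fun k => ?_)
      (summable_geometric_of_lt_one (by positivity) hq)
    rw [div_pow]
    have hK1 : 1 ≤ K ^ k := one_le_pow₀ (by linarith)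
    refine div_le_div_of_nonneg_left (by positivity) (by positivity) ?_
    calc K ^ k ≤ K ^ k + r := by linarith
      _ = (K ^ k + r) ^ 1 := (pow_one _).symm
      _ ≤ (K ^ k + r) ^ n := pow_le_pow_right₀ (by linarith) hn
  refine ⟨hs, ?_⟩
  rw [← hs.sum_add_tsum_nat_add (m + 1)]
  have hrn : 0 < r ^ n := by positivity
  have hpow : r ^ (ρ - n) = r ^ ρ / r ^ n := by
    rw [Real.rpow_sub hr0, Real.rpow_natCast]
  have hA : ∑ k ∈ range (m + 1), 2 ^ k / (K ^ k + r) ^ n ≤ 2 * r ^ (ρ - n) := by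
    have e1 : ∑ k ∈ range (m + 1), 2 ^ k / (K ^ k + r) ^ n ≤
        ∑ k ∈ range (m + 1), 2 ^ k / r ^ n := by
      refine sum_le_sum fun k _ => ?_
      refine div_le_div_of_nonneg_left (by positivity) hrn ?_
      exact pow_le_pow_left₀ hr0.le (by have : 0 < K ^ k := by positivity
                                        linarith) n
    rw [← sum_div] at e1
    refine e1.trans ?_
    rw [hpow, mul_div_assoc']
    refine div_le_div_of_nonneg_right ?_ hrn.le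
    have e2 : ∑ k ∈ range (m + 1), (2 : ℝ) ^ k = 2 ^ (m + 1) - 1 := by
      have := geom_sum_eq (by norm_num : (2 : ℝ) ≠ 1) (m + 1)
      rw [this]; norm_num
    rw [e2, pow_succ]
    linarith
  have hB : ∑' k : ℕ, 2 ^ (k + (m + 1)) / (K ^ (k + (m + 1)) + r) ^ n ≤
      2 / (1 - 2 / K) * r ^ (ρ - n) := by
    have e1 : ∀ k : ℕ, 2 ^ (k + (m + 1)) / (K ^ (k + (m + 1)) + r) ^ n ≤
        2 * r ^ (ρ - n) * (2 / K) ^ k := by
      intro k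
      have e2 : K ^ k * r ^ n ≤ (K ^ (k + (m + 1)) + r) ^ n := by
        have e3 : K ^ k * r ≤ K ^ (k + (m + 1)) + r := by
          rw [pow_add]
          have : K ^ k * r ≤ K ^ k * K ^ (m + 1) :=
            mul_le_mul_of_nonneg_left h2.le (by positivity)
          linarith
        have e4 : (K ^ k * r) ^ n ≤ (K ^ (k + (m + 1)) + r) ^ n :=
          pow_le_pow_left₀ (by positivity) e3 n
        refine le_trans ?_ e4
        rw [mul_pow]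
        refine mul_le_mul_of_nonneg_right ?_ hrn.le
        have hK1 : 1 ≤ K ^ k := one_le_pow₀ (by linarith)
        calc K ^ k = (K ^ k) ^ 1 := (pow_one _).symm
          _ ≤ (K ^ k) ^ n := pow_le_pow_right₀ hK1 hn
      calc 2 ^ (k + (m + 1)) / (K ^ (k + (m + 1)) + r) ^ n ≤
          2 ^ (k + (m + 1)) / (K ^ k * r ^ n) :=
            div_le_div_of_nonneg_left (by positivity) (by positivity) e2
        _ = 2 * 2 ^ m / r ^ n * (2 / K) ^ k := by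
            rw [div_pow, pow_add, pow_succ]; field_simp
        _ ≤ 2 * r ^ ρ / r ^ n * (2 / K) ^ k := by gcongr
        _ = _ := by rw [hpow]; ring
    have e5 : Summable fun k : ℕ => 2 * r ^ (ρ - n) * (2 / K) ^ k :=
      (summable_geometric_of_lt_one (by positivity) hq).mul_left _
    have e6 := ((summable_nat_add_iff (m + 1)).2 hs).tsum_le_tsum e1 e5
    refine e6.trans_eq ?_
    rw [tsum_mul_left, tsum_geometric_of_lt_one (by positivity) hq]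
    field_simp
  calc _ ≤ 2 * r ^ (ρ - n) + 2 / (1 - 2 / K) * r ^ (ρ - n) := add_le_add hA hB
    _ = _ := by ring

theorem WT2_two_apply {d : ℕ} (f : E d → ℝ) (x v : E d) :
    iteratedFDeriv ℝ 2 f x ![v, v] = fderiv ℝ (fderiv ℝ f) x v v := by
  rw [iteratedFDeriv_two_apply]
  simp

theorem WT2_bd2 {d : ℕ} {K C : ℝ} (hK : 2 < K) (hC : WT2_Cst d K C) {e : E d}
    (he : ‖e‖ = 1) (k : ℕ) (x : E d) :
    ‖fderiv ℝ (fderiv ℝ (WT2_f K e k)) x‖ ≤ C * (2 / K) ^ k := by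
  have h := WT2_f_fderiv_bound hK hC he 1 k x (by norm_num)
  have h1 : ‖iteratedFDeriv ℝ 1 (fderiv ℝ (WT2_f K e k)) x‖ =
      ‖fderiv ℝ (fderiv ℝ (WT2_f K e k)) x‖ := by
    rw [← norm_iteratedFDeriv_fderiv, norm_iteratedFDeriv_zero]
  rw [h1] at h
  exact h

theorem WT2_fderiv2 {d : ℕ} {K C : ℝ} (hK : 2 < K) (hC : WT2_Cst d K C) {e : E d}
    (he : ‖e‖ = 1) (x : E d) :
    fderiv ℝ (fderiv ℝ (Phi0 K e)) x = ∑' k, fderiv ℝ (fderiv ℝ (WT2_f K e k)) x := by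
  have hdiff : ∀ k, Differentiable ℝ (fderiv ℝ (WT2_f K e k)) := fun k =>
    (WT2_f_fderiv_smooth hK e k).differentiable (by norm_num)
  have hs0 : Summable fun k => fderiv ℝ (WT2_f K e k) 0 :=
    Summable.of_norm_bounded (WT2_geo hK C) fun k => WT2_f1 hK hC he k 0
  rw [WT2_fderiv hK hC he]
  exact fderiv_tsum_apply (WT2_geo hK C) hdiff (WT2_bd2 hK hC he) hs0 x

theorem WT2_app {α V : Type} [NormedAddCommGroup V] [NormedSpace ℝ V] {F : Type}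
    [NormedAddCommGroup F] [NormedSpace ℝ F] (g : α → V →L[ℝ] F) (hg : Summable g) (v : V) :
    (Summable fun k => g k v) ∧ (∑' k, g k) v = ∑' k, g k v :=
  ⟨(ContinuousLinearMap.apply ℝ F v).summable hg, (ContinuousLinearMap.apply ℝ F v).map_tsum hg⟩

theorem WT2_sumF {α V F : Type} [NormedAddCommGroup V] [NormedSpace ℝ V]
    [NormedAddCommGroup F] [NormedSpace ℝ F] [CompleteSpace F] {u : α → ℝ}
    (hu : Summable u)
    {g : α → V →L[ℝ] F} (hg : ∀ k, ‖g k‖ ≤ u k) : Summable g := by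
  exact Summable.of_norm_bounded hu hg

theorem WT2_iter_two {d : ℕ} {K C : ℝ} (hK : 2 < K) (hC : WT2_Cst d K C) {e : E d}
    (he : ‖e‖ = 1) (x v : E d) : (Summable fun k => iteratedFDeriv ℝ 2 (WT2_f K e k) x ![v, v]) ∧
    iteratedFDeriv ℝ 2 (Phi0 K e) x ![v, v] =
      ∑' k, iteratedFDeriv ℝ 2 (WT2_f K e k) x ![v, v] := by
  have hsum : Summable fun k => fderiv ℝ (fderiv ℝ (WT2_f K e k)) x :=
    WT2_sumF (F := E d →L[ℝ] ℝ) (WT2_geo hK C) (fun k => WT2_bd2 hK hC he k x)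
  obtain ⟨s1, e1⟩ := WT2_app (F := E d →L[ℝ] ℝ) _ hsum v
  obtain ⟨s2, e2⟩ := WT2_app (F := ℝ) (fun k => fderiv ℝ (fderiv ℝ (WT2_f K e k)) x v) s1 v
  have h1 : (fun k => iteratedFDeriv ℝ 2 (WT2_f K e k) x ![v, v]) =
      fun k => fderiv ℝ (fderiv ℝ (WT2_f K e k)) x v v := by
    funext k
    exact WT2_two_apply _ x v
  rw [h1]
  refine ⟨s2, ?_⟩
  rw [WT2_two_apply, WT2_fderiv2 hK hC he, e1, e2]
theorem WT2_fderiv_app {d : ℕ} {K C : ℝ} (hK : 2 < K) (hC : WT2_Cst d K C) {e : E d}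
    (he : ‖e‖ = 1) (x v : E d) : (Summable fun k => fderiv ℝ (WT2_f K e k) x v) ∧
    fderiv ℝ (Phi0 K e) x v = ∑' k, fderiv ℝ (WT2_f K e k) x v := by
  have hsum : Summable fun k => fderiv ℝ (WT2_f K e k) x :=
    WT2_sumF (F := ℝ) (WT2_geo hK C) (fun k => WT2_f1 hK hC he k x)
  refine ⟨(ContinuousLinearMap.apply ℝ ℝ v).summable hsum, ?_⟩
  rw [WT2_fderiv hK hC he]
  exact (ContinuousLinearMap.apply ℝ ℝ v).map_tsum hsum

theorem WT2_fderiv_f {d : ℕ} {K : ℝ} (hK : 2 < K) (e : E d) (k : ℕ) (x v : E d) :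
    fderiv ℝ (WT2_f K e k) x v =
      (2 ^ k * (K ^ k)⁻¹) * fderiv ℝ (F0 e (K⁻¹ ^ 4)) ((K ^ k)⁻¹ • x) v := by
  have h := WT2_iter hK e k (n := 1) (by norm_num) x
  have h1 := congrArg (fun M => M ![v]) h
  simp only [iteratedFDeriv_one_apply, smul_apply, smul_eq_mul, pow_one] at h1
  simpa using h1

theorem WT2_two_f {d : ℕ} {K : ℝ} (hK : 2 < K) (e : E d) (k : ℕ) (x v : E d) :
    iteratedFDeriv ℝ 2 (WT2_f K e k) x ![v, v] =
      (2 ^ k * ((K ^ k)⁻¹) ^ 2) *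
        iteratedFDeriv ℝ 2 (F0 e (K⁻¹ ^ 4)) ((K ^ k)⁻¹ • x) ![v, v] := by
  rw [WT2_iter hK e k (n := 2) (by norm_num) x]
  rfl

theorem Phi0_facts (d : ℕ) (K ρ : ℝ) (hK : 2 < K) (hρ : 0 < ρ) (hρ1 : ρ < 1) (hKρ : K ^ ρ = 2) :
    ∃ c C : ℝ, 0 < c ∧ 0 < C ∧ ∀ e : E d, ‖e‖ = 1 →
    ContDiff ℝ 4 (Phi0 K e) ∧
    (∀ x, 1 ≤ ‖x‖ → ∀ n : ℕ, 1 ≤ n → n ≤ 3 →
      ‖iteratedFDeriv ℝ n (Phi0 K e) x‖ ≤ C * ‖x‖ ^ (ρ - n)) ∧
    (∀ x n τ : E d, 1 ≤ ‖x‖ → ‖n‖ = 1 → ‖τ‖ = 1 → inner ℝ n τ = 0 →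
      c * ‖x‖ ^ (ρ - 2) ≤
        iteratedFDeriv ℝ 2 (Phi0 K e) x ![n, n] + iteratedFDeriv ℝ 2 (Phi0 K e) x ![τ, τ]) ∧
    (∀ x e' : E d, inner ℝ e e' = 0 →
      (0 ≤ inner ℝ x e' → 0 ≤ fderiv ℝ (Phi0 K e) x e') ∧
      (inner ℝ x e' ≤ 0 → fderiv ℝ (Phi0 K e) x e' ≤ 0)) := by
  have hK0 : 0 < K := by linarith
  have hKi : 0 < K⁻¹ := by positivity
  have hKi1 : K⁻¹ ≤ 1 := inv_le_one_of_one_le₀ (by linarith)
  set a : ℝ := K⁻¹ ^ 4 with ha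
  have ha0 : 0 < a := by positivity
  have ha1 : a ≤ 1 := pow_le_one₀ hKi.le hKi1
  have hq : 2 / K < 1 := by rw [div_lt_one hK0]; exact hK
  have hq0 : 0 < 1 - 2 / K := by linarith
  obtain ⟨C, hC, hF⟩ := F0_facts d a ha0 ha1
  have hCst : WT2_Cst d K C := fun e he => ⟨(hF e he).2.1, (hF e he).2.2.1⟩
  refine ⟨2 * a ^ 2 / ((1 + K) ^ 2 + a ^ 2) ^ 2 / 2, C * (2 + 2 / (1 - 2 / K)), by positivity,
    by positivity, fun e he => ⟨WT2_contDiff hK hCst he, ?_, ?_, ?_⟩⟩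
  · intro x hx n hn1 hn3
    refine (WT2_iter_le hK hCst he hn1 (by omega) x).trans ?_
    obtain ⟨hs, hb⟩ := WT2_series hK hKρ hρ hx hn1
    have h1 : ∑' k, ‖iteratedFDeriv ℝ n (WT2_f K e k) x‖ ≤
        ∑' k : ℕ, C * (2 ^ k / (K ^ k + ‖x‖) ^ n) := by
      refine Summable.tsum_le_tsum (fun k => WT2_bound hK hCst he k hn1 (by omega) x) ?_
        (hs.mul_left C)
      exact Summable.of_nonneg_of_le (fun k => norm_nonneg _)
        (fun k => WT2_bound hK hCst he k hn1 (by omega) x) (hs.mul_left C)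
    refine h1.trans ?_
    rw [tsum_mul_left, mul_assoc]
    exact mul_le_mul_of_nonneg_left hb hC.le
  · intro x n τ hx hn hτ hnt
    obtain ⟨s1, e1⟩ := WT2_iter_two hK hCst he x n
    obtain ⟨s2, e2⟩ := WT2_iter_two hK hCst he x τ
    rw [e1, e2, ← s1.tsum_add s2]
    obtain ⟨m, h1, h2, h3, h4⟩ := WT2_pow hK hKρ hρ hx
    have hterm : ∀ k, iteratedFDeriv ℝ 2 (WT2_f K e k) x ![n, n] +
        iteratedFDeriv ℝ 2 (WT2_f K e k) x ![τ, τ] = (2 ^ k * ((K ^ k)⁻¹) ^ 2) *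
        (iteratedFDeriv ℝ 2 (F0 e a) ((K ^ k)⁻¹ • x) ![n, n] +
          iteratedFDeriv ℝ 2 (F0 e a) ((K ^ k)⁻¹ • x) ![τ, τ]) := by
      intro k
      rw [WT2_two_f hK, WT2_two_f hK, mul_add]
    have hnn : ∀ k, 0 ≤ iteratedFDeriv ℝ 2 (WT2_f K e k) x ![n, n] +
        iteratedFDeriv ℝ 2 (WT2_f K e k) x ![τ, τ] := by
      intro k
      rw [hterm]
      refine mul_nonneg (by positivity) (le_trans (by positivity)
        ((hF e he).2.2.2.1 ((K ^ k)⁻¹ • x) n τ hn hτ hnt))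
    refine le_trans ?_ ((s1.add s2).le_tsum m (fun k _ => hnn k))
    rw [hterm]
    have hKm : 0 < K ^ m := by positivity
    have hr0 : 0 < ‖x‖ := by linarith
    have h5 : ‖(K ^ m)⁻¹ • x‖ ≤ K := by
      rw [norm_smul, norm_inv, Real.norm_eq_abs, abs_of_pos hKm, inv_mul_le_iff₀ hKm, mul_comm,
        ← pow_succ']
      exact h2.le
    have h6 : 2 * a ^ 2 / ((1 + K) ^ 2 + a ^ 2) ^ 2 ≤
        iteratedFDeriv ℝ 2 (F0 e a) ((K ^ m)⁻¹ • x) ![n, n] +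
          iteratedFDeriv ℝ 2 (F0 e a) ((K ^ m)⁻¹ • x) ![τ, τ] := by
      refine le_trans ?_ ((hF e he).2.2.2.1 ((K ^ m)⁻¹ • x) n τ hn hτ hnt)
      gcongr
    have h7 : ‖x‖ ^ (ρ - 2) / 2 ≤ 2 ^ m * ((K ^ m)⁻¹) ^ 2 := by
      have e3 : ‖x‖ ^ (ρ - 2) = ‖x‖ ^ ρ / ‖x‖ ^ 2 := by
        rw [Real.rpow_sub hr0]
        norm_cast
      rw [e3, inv_pow, ← div_eq_mul_inv, div_div, div_le_div_iff₀ (by positivity) (by positivity)]
      have e4 : (K ^ m) ^ 2 ≤ ‖x‖ ^ 2 := pow_le_pow_left₀ hKm.le h1 2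
      rw [pow_succ] at h4
      calc ‖x‖ ^ ρ * (K ^ m) ^ 2 ≤ (2 ^ m * 2) * ‖x‖ ^ 2 :=
            mul_le_mul h4 e4 (by positivity) (by positivity)
        _ = _ := by ring
    calc 2 * a ^ 2 / ((1 + K) ^ 2 + a ^ 2) ^ 2 / 2 * ‖x‖ ^ (ρ - 2) =
          ‖x‖ ^ (ρ - 2) / 2 * (2 * a ^ 2 / ((1 + K) ^ 2 + a ^ 2) ^ 2) := by ring
      _ ≤ _ := mul_le_mul h7 h6 (by positivity) (by positivity)
  · intro x e' hee
    obtain ⟨s1, e1⟩ := WT2_fderiv_app hK hCst he x e'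
    rw [e1]
    have hin : ∀ k : ℕ, inner ℝ ((K ^ k)⁻¹ • x) e' = (K ^ k)⁻¹ * inner ℝ x e' := fun k =>
      real_inner_smul_left _ _ _
    constructor
    · intro h
      refine tsum_nonneg fun k => ?_
      rw [WT2_fderiv_f hK]
      refine mul_nonneg (by positivity) (((hF e he).2.2.2.2 _ e' hee).1 ?_)
      rw [hin]
      positivity
    · intro h
      refine tsum_nonpos fun k => ?_
      rw [WT2_fderiv_f hK]
      refine mul_nonpos_of_nonneg_of_nonpos (by positivity) (((hF e he).2.2.2.2 _ e' hee).2 ?_)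
      rw [hin]
      exact mul_nonpos_of_nonneg_of_nonpos (by positivity) h

end Pool.Agent.Lib.MP_566bac_pr.Hd
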